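import Mathlib

/-! Zeros of polynomials along orbits of affine maps (Skolem-Mahler-Lech, after Hansel). -/

open Filter Polynomial Finset

namespace Pool.Agent.DS

section Ultra

variable {Ω : Type} [NormedField Ω] [IsUltrametricDist Ω] [CharZero Ω]

lemma dssml_roots {θ : ℝ} (h0 : 0 ≤ θ) (h1 : θ ≤ 1) (s : Finset ℕ) : ∀ (P : Polynomial Ω) (c : ℝ), 0 ≤ c →
    (∀ j, ‖P.coeff j‖ ≤ c * θ ^ j) → (∀ m ∈ s, P.eval (m : Ω) = 0) →
    ∀ t : ℕ, ‖P.eval (t : Ω)‖ ≤ c * θ ^ s.card := by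
  have hn : ∀ (t j : ℕ), ‖(t : Ω) ^ j‖ ≤ 1 := fun t j => by
    rw [norm_pow]
    exact pow_le_one₀ (norm_nonneg _) (IsUltrametricDist.norm_natCast_le_one Ω t)
  induction s using Finset.induction_on with
  | empty =>
    intro P c hc hP _ t
    rw [eval_eq_sum_range, card_empty, pow_zero, mul_one]
    refine IsUltrametricDist.norm_sum_le_of_forall_le_of_nonneg hc fun j _ => ?_
    rw [norm_mul]
    exact (mul_le_of_le_one_right (norm_nonneg _) (hn t j)).trans
      ((hP j).trans (mul_le_of_le_one_right hc (pow_le_one₀ h0 h1)))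
  | insert m s hm ih =>
    intro P c hc hP hs t
    have e := mul_divByMonic_eq_iff_isRoot.2 (hs m (mem_insert_self _ _))
    have h2 := ih (P /ₘ (X - C (m : Ω))) (c * θ) (by positivity) (fun j => by
      rw [coeff_divByMonic_X_sub_C]
      refine IsUltrametricDist.norm_sum_le_of_forall_le_of_nonneg (by positivity) fun i hi => ?_
      rw [norm_mul, mul_assoc, ← pow_succ']
      exact (mul_le_of_le_one_left (norm_nonneg _) (hn m _)).trans ((hP i).trans
        (mul_le_mul_of_nonneg_left (pow_le_pow_of_le_one h0 h1 (mem_Icc.1 hi).1) hc)))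
      (fun k hk => by
        have h3 := hs k (mem_insert_of_mem hk)
        rw [← e, eval_mul, eval_sub, eval_X, eval_C, mul_eq_zero, sub_eq_zero,
          Nat.cast_inj] at h3
        exact h3.resolve_left fun h => hm (h ▸ hk)) t
    have h4 : ‖(t : Ω) - m‖ ≤ 1 := by
      exact_mod_cast IsUltrametricDist.norm_intCast_le_one Ω ((t : ℤ) - m)
    rw [← e, eval_mul, eval_sub, eval_X, eval_C, norm_mul, card_insert_of_notMem hm, pow_succ',
      ← mul_assoc]
    exact (mul_le_of_le_one_left (norm_nonneg _) h4).trans h2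

lemma dssml_hansel {θ : ℝ} (h0 : 0 ≤ θ) (h1 : θ < 1) {s : ℕ → Ω}
    (hs : ∀ k : ℕ, ‖(fwdDiff 1)^[k] s 0 / k.factorial‖ ≤ θ ^ k) (hz : ∃ᶠ t in atTop, s t = 0)
    (t : ℕ) : s t = 0 := by
  have hR : ∀ n u : ℕ, u ≤ n → (∑ k ∈ range (n + 1),
      C ((fwdDiff 1)^[k] s 0 / k.factorial) * descPochhammer Ω k).eval (u : Ω) = s u := by
    intro n u hu
    have h := shift_eq_sum_fwdDiff_iter 1 s u 0
    rw [zero_add, smul_eq_mul, mul_one] at h
    rw [h, eval_finsetSum, ← sum_subset (range_mono (Nat.succ_le_succ hu))]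
    · refine sum_congr rfl fun k _ => ?_
      have : (k.factorial : Ω) ≠ 0 := Nat.cast_ne_zero.2 k.factorial_ne_zero
      rw [eval_mul, eval_C, descPochhammer_eval_eq_descFactorial,
        Nat.descFactorial_eq_factorial_mul_choose, nsmul_eq_mul, Nat.cast_mul]
      field_simp
    · intro k _ hk
      rw [eval_mul, descPochhammer_eval_eq_descFactorial, Nat.descFactorial_eq_zero_iff_lt.2
        (by simpa using hk), Nat.cast_zero, mul_zero]
  have key : ∀ q, ‖s t‖ ≤ θ ^ q := by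
    intro q
    obtain ⟨Z, hZ, rfl⟩ := (Nat.frequently_atTop_iff_infinite.1 hz).exists_subset_card_eq q
    rw [← hR (t + Z.sup id) t (Nat.le_add_right _ _), ← one_mul (θ ^ _)]
    refine dssml_roots h0 h1.le Z _ 1 zero_le_one (fun j => ?_) (fun m hm => ?_) t
    · rw [finsetSum_coeff, one_mul]
      refine IsUltrametricDist.norm_sum_le_of_forall_le_of_nonneg (by positivity) fun k _ => ?_
      rw [coeff_C_mul]
      rcases lt_or_ge k j with h | h
      · rw [coeff_eq_zero_of_natDegree_lt (by rwa [descPochhammer_natDegree]), mul_zero, norm_zero]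
        positivity
      · rw [norm_mul, ← descPochhammer_map (Int.castRingHom Ω), coeff_map]
        exact (mul_le_of_le_one_right (norm_nonneg _) (IsUltrametricDist.norm_intCast_le_one Ω
          _)).trans ((hs k).trans (pow_le_pow_of_le_one h0 h1.le h))
    · rw [hR _ m ((le_sup (f := id) hm).trans (Nat.le_add_left _ _))]
      exact hZ hm
  exact norm_le_zero_iff.1 (ge_of_tendsto' (tendsto_pow_atTop_nhds_zero_of_lt_one h0 h1) key)

omit [CharZero Ω] in
lemma dssml_diff {J : Type} {π : Ω} (hπ : ‖π‖ < 1) {α β : J → Ω} {y : J → ℕ → Ω}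
    (hα : ∀ i, ‖α i‖ ≤ 1) (hβ : ∀ i, ‖β i‖ ≤ 1) (h1 : ∀ i t, ‖y i t‖ ≤ 1)
    (hy : ∀ i t, y i (t + 1) = y i t + π * (α i * y i t + β i)) (P : MvPolynomial J Ω) :
    ∃ j : ℕ, ∀ k, ‖(fwdDiff 1)^[k] (fun t => π ^ j * MvPolynomial.eval (y · t) P) 0‖ ≤ ‖π‖ ^ k := by
  let S : Subring (ℕ → Ω) :=
    Subring.closure ({s | ∃ c, ‖c‖ ≤ 1 ∧ s = fun _ => c} ∪ Set.range y)
  have hc : ∀ c, ‖c‖ ≤ 1 → (fun _ => c) ∈ S := fun c h =>
    Subring.subset_closure (Or.inl ⟨c, h, rfl⟩)
  have hyS : ∀ i, y i ∈ S := fun i => Subring.subset_closure (Or.inr ⟨i, rfl⟩)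
  have hp := hc π hπ.le
  have key : ∀ s ∈ S, (∀ t, ‖s t‖ ≤ 1) ∧ ∃ s' ∈ S, ∀ t, s (t + 1) = s t + π * s' t := by
    intro s hs
    induction hs using Subring.closure_induction with
    | mem s h =>
      rcases h with ⟨c, h, rfl⟩ | ⟨i, rfl⟩
      · exact ⟨fun _ => h, 0, S.zero_mem, fun _ => by simp⟩
      · exact ⟨h1 i, _, S.add_mem (S.mul_mem (hc _ (hα i)) (hyS i)) (hc _ (hβ i)), hy i⟩
    | zero => exact ⟨fun _ => by simp, 0, S.zero_mem, fun _ => by simp⟩
    | one => exact ⟨fun _ => by simp, 0, S.zero_mem, fun _ => by simp⟩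
    | add s u _ _ hs hu =>
      obtain ⟨a1, s', a2, a3⟩ := hs
      obtain ⟨b1, u', b2, b3⟩ := hu
      exact ⟨fun t => (IsUltrametricDist.norm_add_le_max _ _).trans (max_le (a1 t) (b1 t)),
        _, S.add_mem a2 b2, fun t => by simp only [Pi.add_apply, a3, b3]; ring⟩
    | neg s _ hs =>
      obtain ⟨a1, s', a2, a3⟩ := hs
      exact ⟨fun t => by simpa using a1 t, _, S.neg_mem a2,
        fun t => by simp only [Pi.neg_apply, a3]; ring⟩
    | mul s u hs' hu' hs hu =>
      obtain ⟨a1, s', a2, a3⟩ := hs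
      obtain ⟨b1, u', b2, b3⟩ := hu
      exact ⟨fun t => (norm_mul_le _ _).trans (mul_le_one₀ (a1 t) (norm_nonneg _) (b1 t)),
        _, S.add_mem (S.add_mem (S.mul_mem a2 hu') (S.mul_mem hs' b2))
          (S.mul_mem hp (S.mul_mem a2 b2)),
        fun t => by simp only [Pi.mul_apply, Pi.add_apply, a3, b3]; ring⟩
  have iter : ∀ k, ∀ s ∈ S, ‖(fwdDiff 1)^[k] s 0‖ ≤ ‖π‖ ^ k := by
    intro k
    induction k with
    | zero => exact fun s hs => by simpa using (key s hs).1 0
    | succ k ih =>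
      intro s hs
      obtain ⟨-, s', a2, a3⟩ := key s hs
      have e : fwdDiff 1 s = π • s' := by
        funext t
        simp [fwdDiff, a3]
      rw [Function.iterate_succ_apply, e, fwdDiff_iter_const_smul, Pi.smul_apply, norm_smul,
        pow_succ']
      exact mul_le_mul_of_nonneg_left (ih s' a2) (norm_nonneg _)
  suffices h : ∃ j : ℕ, (fun t => π ^ j * MvPolynomial.eval (y · t) P) ∈ S from
    h.imp fun j hj k => iter k _ hj
  induction P using MvPolynomial.induction_on with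
  | C a =>
    have h := ((tendsto_pow_atTop_nhds_zero_of_norm_lt_one hπ).mul_const a).norm
    rw [zero_mul, norm_zero] at h
    obtain ⟨j, hj⟩ := (h.eventually (eventually_le_nhds zero_lt_one)).exists
    exact ⟨j, by simpa using hc _ hj⟩
  | add P Q hP hQ =>
    obtain ⟨j, hj⟩ := hP
    obtain ⟨k, hk⟩ := hQ
    refine ⟨j + k, ?_⟩
    refine (congrArg (· ∈ S) ?_).mp
      (S.add_mem (S.mul_mem (S.pow_mem hp k) hj) (S.mul_mem (S.pow_mem hp j) hk))
    funext t
    simp only [map_add, Pi.add_apply, Pi.mul_apply, Pi.pow_apply]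
    ring
  | mul_X P i hP =>
    obtain ⟨j, hj⟩ := hP
    refine ⟨j, ?_⟩
    refine (congrArg (· ∈ S) ?_).mp (S.mul_mem hj (hyS i))
    funext t
    simp [mul_assoc]

end Ultra

variable {K : Type} [Field K] [NumberField K] {J : Type} [Fintype J]

lemma dssml_place (s : Finset K) : ∃ (p : ℕ) (_ : Fact p.Prime) (ι : K →+* PadicAlgCl p),
    ∀ z ∈ s, ‖ι z‖ ≤ 1 := by
  have : Algebra.IsAlgebraic ℤ K := (IsFractionRing.comap_isAlgebraic_iff (A := ℤ) (K := ℚ)
    (C := K)).2 inferInstance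
  obtain ⟨M, hM, h⟩ := Algebra.IsAlgebraic.exists_integral_multiples ℤ s
  obtain ⟨p, hp, hp'⟩ := Nat.exists_infinite_primes (M.natAbs + 1)
  have := Fact.mk hp'
  let ι : K →ₐ[ℚ] PadicAlgCl p := IsAlgClosed.lift
  refine ⟨p, this, ι, fun z hz => ?_⟩
  have h1 : IsIntegral ℤ (ι (M • z)) := (h z hz).map (ι : K →+* PadicAlgCl p).toIntAlgHom
  have h2 : ‖ι (M • z)‖₊ ≤ 1 :=
    (Valuation.integer.integers (Valued.v : Valuation (PadicAlgCl p) NNReal)).mem_of_integral
      h1.tower_top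
  have h3 : ‖(M : PadicAlgCl p)‖ = 1 := by
    rw [← map_intCast (algebraMap ℚ_[p] (PadicAlgCl p)), norm_algebraMap']
    refine le_antisymm (Padic.norm_int_le_one M) (not_lt.1 fun h => ?_)
    have := Nat.le_of_dvd (Int.natAbs_pos.2 hM)
      (Int.natCast_dvd.1 ((Padic.norm_intCast_lt_one_iff).1 h))
    omega
  have h4 : ‖ι (M • z)‖ ≤ 1 := h2
  rwa [map_zsmul, zsmul_eq_mul, norm_mul, h3, one_mul] at h4

lemma dssml_pair {p : ℕ} [Fact p.Prime] (ι : K →+* PadicAlgCl p) {I : Type} [Fintype I]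
    (u : ℕ → I → K) (hu : ∀ n i, ‖ι (u n i)‖ ≤ 1) {ε : ℝ} (hε : 0 < ε) :
    ∃ n m, n < m ∧ ∀ i, ‖ι (u m i) - ι (u n i)‖ ≤ ε := by
  let V := Submodule.span ℚ_[p] (Set.range fun k => ι (Module.finBasis ℚ K k))
  have : FiniteDimensional ℚ_[p] V := FiniteDimensional.span_of_finite _ (Set.finite_range _)
  have : ProperSpace V := FiniteDimensional.proper ℚ_[p] V
  have hV : ∀ z, ι z ∈ V := by
    intro z
    rw [← (Module.finBasis ℚ K).sum_repr z, map_sum]
    refine V.sum_mem fun k _ => ?_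
    rw [map_rat_smul, ← smul_one_smul ℚ_[p]]
    exact V.smul_mem _ (Submodule.subset_span ⟨k, rfl⟩)
  obtain ⟨a, -, φ, h1, h2⟩ := tendsto_subseq_of_bounded
    (Metric.isBounded_closedBall (x := (0 : I → V)) (r := 1))
    (x := fun n i => ⟨ι (u n i), hV _⟩) fun n =>
      mem_closedBall_zero_iff.2 ((pi_norm_le_iff_of_nonneg zero_le_one).2 (hu n))
  obtain ⟨N, hN⟩ := Metric.cauchySeq_iff'.1 h2.cauchySeq ε hε
  refine ⟨φ N, φ (N + 1), h1 (Nat.lt_succ_self N), fun i => ?_⟩
  have h3 := (dist_le_pi_dist _ _ i).trans (hN (N + 1) (Nat.le_succ N)).le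
  rwa [dist_eq_norm] at h3

lemma dssml_unit (a b : J → K) (ha : ∀ i, a i ≠ 0) (x : J → ℕ → K)
    (hx : ∀ i n, x i (n + 1) = a i * x i n + b i) : ∃ l, 1 ≤ l ∧ ∀ (c : ℕ) (P : MvPolynomial J K),
      (∃ᶠ t in atTop, MvPolynomial.eval (x · (c + l * t)) P = 0) →
        ∀ t, MvPolynomial.eval (x · (c + l * t)) P = 0 := by
  classical
  obtain ⟨p, hp, ι, hι⟩ := dssml_place (univ.image a ∪ univ.image (fun i => (a i)⁻¹) ∪
    univ.image b ∪ univ.image (x · 0))
  have a1 : ∀ i, ‖ι (a i)‖ ≤ 1 := fun i => hι _ (by simp)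
  have a2 : ∀ i, ‖ι (a i)‖ = 1 := fun i => le_antisymm (a1 i) (by
    have h := hι (a i)⁻¹ (by simp)
    rw [map_inv₀, norm_inv] at h
    exact (inv_le_one₀ (norm_pos_iff.2 ((map_ne_zero ι).2 (ha i)))).1 h)
  have b1 : ∀ i, ‖ι (b i)‖ ≤ 1 := fun i => hι _ (by simp)
  have x1 : ∀ i n, ‖ι (x i n)‖ ≤ 1 := by
    intro i n
    induction n with
    | zero => exact hι _ (by simp)
    | succ n ih =>
      rw [hx, map_add, map_mul]
      exact (IsUltrametricDist.norm_add_le_max _ _).trans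
        (max_le (by rwa [norm_mul, a2, one_mul]) (b1 i))
  have np : ‖(p : PadicAlgCl p)‖ = (p : ℝ)⁻¹ := by
    rw [← map_natCast (algebraMap ℚ_[p] (PadicAlgCl p)), norm_algebraMap', Padic.norm_p]
  have p1 : (1 : ℝ) < p := by exact_mod_cast hp.1.one_lt
  have p0 : 0 < (p : ℝ)⁻¹ := by positivity
  have p2 : (p : ℝ)⁻¹ < 1 := inv_lt_one_of_one_lt₀ p1
  set π : PadicAlgCl p := p ^ 2 with hπ
  have nπ : ‖π‖ = (p : ℝ)⁻¹ ^ 2 := by rw [hπ, norm_pow, np]
  have π0 : 0 < ‖π‖ := by rw [nπ]; positivity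
  obtain ⟨n, m, hnm, h⟩ := dssml_pair ι (I := J ⊕ J)
    (fun n => Sum.elim (fun i => a i ^ n) fun i => ∑ k ∈ range n, a i ^ k) (by
      rintro n (i | i)
      · simp [a2]
      · simp only [Sum.elim_inr, map_sum]
        exact IsUltrametricDist.norm_sum_le_of_forall_le_of_nonneg zero_le_one fun k _ => by
          simp [a2]) π0
  obtain ⟨l, rfl⟩ := Nat.exists_eq_add_of_le hnm.le
  have hl : ∀ i n k, x i (n + k) = a i ^ k * x i n + (∑ j ∈ range k, a i ^ j) * b i := by
    intro i n k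
    induction k with
    | zero => simp
    | succ k ih => rw [← add_assoc, hx, ih, geom_sum_succ]; ring
  refine ⟨l, by omega, fun c P hP t => ?_⟩
  obtain ⟨j, hj⟩ := dssml_diff (π := π) (by rw [nπ]; exact pow_lt_one₀ p0.le p2 two_ne_zero)
    (α := fun i => (ι (a i) ^ l - 1) / π) (β := fun i => ι (∑ k ∈ range l, a i ^ k) / π * ι (b i))
    (y := fun i t => ι (x i (c + l * t))) (fun i => by
      have h1 := h (Sum.inl i)
      simp only [Sum.elim_inl, map_pow, pow_add, map_mul] at h1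
      rw [← mul_sub_one, norm_mul, norm_pow, a2, one_pow, one_mul] at h1
      rwa [norm_div, div_le_one π0]) (fun i => by
      have h1 := h (Sum.inr i)
      simp only [Sum.elim_inr, sum_range_add, pow_add, ← mul_sum, map_add, add_sub_cancel_left,
        map_mul, map_pow, norm_mul, norm_pow, a2, one_pow, one_mul] at h1
      rw [norm_mul, norm_div]
      exact mul_le_one₀ ((div_le_one π0).2 h1) (norm_nonneg _) (b1 i)) (fun i t => x1 i _)
    (fun i t => by
      have := norm_pos_iff.1 π0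
      rw [mul_add l, mul_one, ← add_assoc, hl, map_add, map_mul, map_mul, map_pow]
      field_simp
      ring) (MvPolynomial.map ι P)
  have e : ∀ t, MvPolynomial.eval (fun i => ι (x i (c + l * t))) (MvPolynomial.map ι P) =
      ι (MvPolynomial.eval (x · (c + l * t)) P) := fun t => by
    rw [MvPolynomial.eval_map, ← MvPolynomial.eval₂_id, MvPolynomial.eval₂_comp_left]
    rfl
  have h0 := dssml_hansel p0.le p2 (s := fun t => π ^ j * MvPolynomial.eval
    (fun i => ι (x i (c + l * t))) (MvPolynomial.map ι P)) (fun k => by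
      have h1 : (p : ℝ)⁻¹ ^ k ≤ ‖(k.factorial : PadicAlgCl p)‖ := by
        rw [← map_natCast (algebraMap ℚ_[p] (PadicAlgCl p)), norm_algebraMap',
          Padic.norm_eq_zpow_neg_valuation (Nat.cast_ne_zero.2 k.factorial_ne_zero),
          Padic.valuation_natCast, zpow_neg, zpow_natCast, ← inv_pow]
        exact pow_le_pow_of_le_one p0.le p2.le (padicValNat_factorial_le p k)
      rw [norm_div, div_le_iff₀ ((pow_pos p0 k).trans_le h1)]
      refine (hj k).trans ?_
      rw [nπ, sq, mul_pow]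
      exact mul_le_mul_of_nonneg_left h1 (by positivity))
    (hP.mono fun t ht => by simp only [e, ht, map_zero, mul_zero]) t
  rw [e, mul_eq_zero, map_eq_zero] at h0
  exact h0.resolve_left (pow_ne_zero _ (norm_pos_iff.1 π0))

/-- Skolem-Mahler-Lech for orbits of split affine maps. -/
theorem sml_affine (a b : J → K) (x : J → ℕ → K) (hx : ∀ i n, x i (n + 1) = a i * x i n + b i) :
    ∃ l, 1 ≤ l ∧ ∀ (c : ℕ) (P : MvPolynomial J K),
      (∃ᶠ t in atTop, MvPolynomial.eval (x · (c + l * t)) P = 0) →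
        ∀ᶠ t in atTop, MvPolynomial.eval (x · (c + l * t)) P = 0 := by
  classical
  obtain ⟨l, hl, h⟩ := dssml_unit (fun i => if a i = 0 then 1 else a i)
    (fun i => if a i = 0 then 0 else b i) (fun i => by split_ifs with h <;> simp [h])
    (fun i n => x i (n + 1)) (fun i n => by
      split_ifs with h
      · simp [hx, h]
      · exact hx i _)
  have e : ∀ c t, c + l - 1 + l * t + 1 = c + l * (t + 1) := fun c t => by
    rw [mul_add, mul_one]
    omega
  refine ⟨l, hl, fun c P hP => ?_⟩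
  have h1 := h (c + l - 1) P (by
    simp only [e]
    rw [← map_add_atTop_eq_nat 1] at hP
    exact hP)
  simp only [e] at h1
  rw [← map_add_atTop_eq_nat 1, eventually_map]
  exact Eventually.of_forall h1

/-- Orbits of affine maps grow at most exponentially. -/
theorem affine_growth {a b : ℂ} {x : ℕ → ℂ} (hx : ∀ n, x (n + 1) = a * x n + b) (q : ℂ[X]) :
    ∃ c : ℝ, 1 ≤ c ∧ ∀ n, ‖q.eval (x n)‖ ≤ c ^ (n + 1) := by
  obtain ⟨c, h1, hc⟩ : ∃ c : ℝ, 1 ≤ c ∧ ∀ n, ‖x n‖ ≤ c ^ (n + 1) := by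
    have := norm_nonneg a
    have := norm_nonneg b
    have := norm_nonneg (x 0)
    refine ⟨1 + ‖a‖ + ‖b‖ + ‖x 0‖, by linarith, fun n => ?_⟩
    induction n with
    | zero => rw [zero_add, pow_one]; linarith
    | succ n ih =>
      have h2 : 1 ≤ (1 + ‖a‖ + ‖b‖ + ‖x 0‖) ^ (n + 1) := one_le_pow₀ (by linarith)
      rw [hx, pow_succ]
      refine (norm_add_le _ _).trans ?_
      rw [norm_mul]
      nlinarith
  induction q using Polynomial.induction_on' with
  | add p q hp hq =>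
    obtain ⟨c1, a1, a2⟩ := hp
    obtain ⟨c2, b1, b2⟩ := hq
    refine ⟨c1 + c2, by linarith, fun n => ?_⟩
    rw [eval_add]
    exact (norm_add_le _ _).trans ((add_le_add (a2 n) (b2 n)).trans
      (pow_add_pow_le (by linarith) (by linarith) n.succ_ne_zero))
  | monomial k α =>
    have := norm_nonneg α
    have h2 : 1 ≤ c ^ k := one_le_pow₀ h1
    refine ⟨(1 + ‖α‖) * c ^ k, by nlinarith, fun n => ?_⟩
    rw [eval_monomial, norm_mul, norm_pow, mul_pow, ← pow_mul, mul_comm k, pow_mul]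
    exact mul_le_mul ((by linarith : ‖α‖ ≤ 1 + ‖α‖).trans (le_self_pow₀ (by linarith)
      n.succ_ne_zero)) (pow_le_pow_left₀ (norm_nonneg _) (hc n) k) (by positivity) (by positivity)

end Pool.Agent.DS
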