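import Mathlib

/-! Ideal counting and prime sums (copied from the files UpChebA-D of another row). -/

noncomputable section

namespace Pool.Agent.P.MP_68214b_ag.Ch

section A
open NumberField

/-- the number of ideals of a given norm -/
def nI (E : Type) [Field E] [NumberField E] (n : ℕ) : ℕ :=
  Nat.card {I : Ideal (𝓞 E) // Ideal.absNorm I = n}

theorem upChebA_int {R : Type} [CommRing R] {r : ℕ} [Fact r.Prime] {Ω : Type}
    [Field Ω] [CharP Ω r] (ψ : R →+* Ω) (h : ∀ x, ψ x ^ r = ψ x) (x : R) :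
    ∃ n : ℤ, (n : Ω) = ψ x :=
  (mem_bot_iff_intCast r Ω).1 ((Subfield.mem_bot_iff_pow_eq_self Ω r).2 (h x))

theorem upChebA_card {R : Type} [CommRing R] {r : ℕ} [Fact r.Prime] {Ω : Type}
    [Field Ω] [CharP Ω r] (ψ : R →+* Ω) (h : ∀ x, ψ x ^ r = ψ x) :
    Nat.card (R ⧸ RingHom.ker ψ) = r := by
  have e1 : Nat.card (R ⧸ RingHom.ker ψ) = Nat.card ψ.range :=
    Nat.card_congr (RingHom.quotientKerEquivRange ψ).toEquiv
  have e2 : Nat.card ψ.range = Nat.card (⊥ : Subfield Ω) := by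
    refine Nat.card_congr (Equiv.subtypeEquivRight ?_)
    intro y
    constructor
    · rintro ⟨x, rfl⟩
      exact (Subfield.mem_bot_iff_pow_eq_self Ω r).2 (h x)
    · intro hy
      obtain ⟨n, hn⟩ := (mem_bot_iff_intCast r Ω).1 hy
      exact ⟨(n : R), by rw [map_intCast, hn]⟩
  rw [e1, e2, Subfield.card_bot Ω r]

/-- homomorphisms with values in the prime field give ideals of prime norm -/
theorem card_le_nI {E : Type} [Field E] [NumberField E] {r : ℕ} [Fact r.Prime] {Ω : Type}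
    [Field Ω] [CharP Ω r] (T : Finset (𝓞 E →+* Ω)) (h : ∀ ψ ∈ T, ∀ x, ψ x ^ r = ψ x) :
    T.card ≤ nI E r := by
  have hfin : Finite {I : Ideal (𝓞 E) // Ideal.absNorm I = r} :=
    (Ideal.finite_setOfPred_absNorm_eq (S := 𝓞 E) r).to_subtype
  let f : T → {I : Ideal (𝓞 E) // Ideal.absNorm I = r} := fun ψ =>
    ⟨RingHom.ker ψ.1, by
      rw [Ideal.absNorm_apply, Submodule.cardQuot_apply]
      exact upChebA_card ψ.1 (h ψ.1 ψ.2)⟩
  have hf : Function.Injective f := by
    intro ψ χ hψ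
    have hk : RingHom.ker ψ.1 = RingHom.ker χ.1 := congrArg Subtype.val hψ
    apply Subtype.ext
    ext x
    obtain ⟨n, hn⟩ := upChebA_int ψ.1 (h ψ.1 ψ.2) x
    have h1 : x - (n : 𝓞 E) ∈ RingHom.ker ψ.1 := by
      rw [RingHom.mem_ker, map_sub, map_intCast, hn, sub_self]
    rw [hk, RingHom.mem_ker, map_sub, map_intCast, sub_eq_zero] at h1
    rw [h1, hn]
  have := Nat.card_le_card_of_injective f hf
  rw [Nat.card_eq_fintype_card, Fintype.card_coe] at this
  exact this

theorem upChebB_den {K : Type} [Field K] [NumberField K] (S : Set K) {x : K}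
    (hx : x ∈ IntermediateField.adjoin ℚ S) :
    ∃ n : ℕ, n ≠ 0 ∧ (n : K) * x ∈ Subring.closure S := by
  have h1 : x ∈ Algebra.adjoin ℚ S := by
    rw [← IntermediateField.adjoin_toSubalgebra]
    exact hx
  clear hx
  induction h1 using Algebra.adjoin_induction with
  | mem x hx => exact ⟨1, one_ne_zero, by simpa using Subring.subset_closure hx⟩
  | algebraMap q =>
    refine ⟨q.den, q.den_nz, ?_⟩
    have : (q.den : K) * algebraMap ℚ K q = (q.num : K) := by
      rw [eq_ratCast, mul_comm]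
      exact_mod_cast Rat.mul_den_eq_num q
    rw [this]
    exact intCast_mem _ _
  | add x y _ _ hx hy =>
    obtain ⟨n, hn, hx⟩ := hx
    obtain ⟨m, hm, hy⟩ := hy
    refine ⟨n * m, mul_ne_zero hn hm, ?_⟩
    have := add_mem (mul_mem (natCast_mem _ m) hx) (mul_mem (natCast_mem _ n) hy)
    convert this using 1
    push_cast
    ring
  | mul x y _ _ hx hy =>
    obtain ⟨n, hn, hx⟩ := hx
    obtain ⟨m, hm, hy⟩ := hy
    refine ⟨n * m, mul_ne_zero hn hm, ?_⟩
    have := mul_mem hx hy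
    convert this using 1
    push_cast
    ring

theorem upChebB_index {K : Type} [Field K] [NumberField K] (S : Set K) :
    ∃ D : ℕ, D ≠ 0 ∧ ∀ x : 𝓞 (IntermediateField.adjoin ℚ S),
      (D : K) * ((x : IntermediateField.adjoin ℚ S) : K) ∈ Subring.closure S := by
  classical
  obtain ⟨s, hs⟩ := Module.Finite.fg_top (R := ℤ) (M := 𝓞 (IntermediateField.adjoin ℚ S))
  choose n hn0 hn using fun x : 𝓞 (IntermediateField.adjoin ℚ S) =>
    upChebB_den S (x : IntermediateField.adjoin ℚ S).2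
  refine ⟨∏ x ∈ s, n x, Finset.prod_ne_zero_iff.2 fun x _ => hn0 x, fun x => ?_⟩
  have hx : x ∈ Submodule.span ℤ (s : Set _) := hs ▸ Submodule.mem_top
  induction hx using Submodule.span_induction with
  | mem x hx =>
    obtain ⟨k, hk⟩ := Finset.dvd_prod_of_mem n hx
    rw [hk]
    have := mul_mem (natCast_mem _ k) (hn x)
    convert this using 1
    push_cast
    ring
  | zero => simp
  | add x y _ _ hx hy =>
    have := add_mem hx hy
    convert this using 1
    push_cast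
    ring
  | smul a x _ hx =>
    have := mul_mem (intCast_mem _ a) hx
    have h1 : (((a • x : 𝓞 (IntermediateField.adjoin ℚ S)) : IntermediateField.adjoin ℚ S) : K) =
        (a : K) * ((x : IntermediateField.adjoin ℚ S) : K) := by
      have := map_zsmul ((algebraMap (IntermediateField.adjoin ℚ S) K).comp
        (algebraMap (𝓞 (IntermediateField.adjoin ℚ S)) (IntermediateField.adjoin ℚ S))) a x
      exact this.trans (zsmul_eq_mul _ _)
    rw [h1]
    convert this using 1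
    ring

theorem UpChebD_left {S : Type} [CommRing S] {a b : ℕ} (h : a.Coprime b) {I J : Ideal S}
    (ha : (a : S) ∈ I) (hb : (b : S) ∈ J) : I = I * J ⊔ Ideal.span {(a : S)} := by
  apply le_antisymm
  · intro x hx
    obtain ⟨u, v, huv⟩ := (Nat.isCoprime_iff_coprime.2 h).map (Int.castRingHom S)
    simp only [eq_intCast, Int.cast_natCast] at huv
    have : x = x * (v * b) + (x * u) * a := by linear_combination (-x) * huv
    rw [this]
    exact Submodule.add_mem_sup (Ideal.mul_mem_mul hx (J.mul_mem_left _ hb))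
      (Ideal.mul_mem_left _ _ (Ideal.subset_span rfl))
  · exact sup_le Ideal.mul_le_left ((Ideal.span_singleton_le_iff_mem _).2 ha)

theorem nI_mul (E : Type) [Field E] [NumberField E] {a b : ℕ} (hab : a * b ≠ 0)
    (h : a.Coprime b) : nI E a * nI E b ≤ nI E (a * b) := by
  unfold nI
  rw [← Nat.card_prod]
  have : Finite {I : Ideal (𝓞 E) // Ideal.absNorm I = a * b} :=
    (Ideal.finite_setOfPred_absNorm_eq (a * b)).to_subtype
  refine Nat.card_le_card_of_injective
    (fun x => ⟨x.1.1 * x.2.1, by rw [map_mul, x.1.2, x.2.2]⟩) ?_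
  rintro ⟨⟨I, hI⟩, ⟨J, hJ⟩⟩ ⟨⟨I', hI'⟩, ⟨J', hJ'⟩⟩ hxy
  have e : I * J = I' * J' := congrArg Subtype.val hxy
  have m1 : (a : 𝓞 E) ∈ I := hI ▸ Ideal.absNorm_mem I
  have m2 : (b : 𝓞 E) ∈ J := hJ ▸ Ideal.absNorm_mem J
  have m3 : (a : 𝓞 E) ∈ I' := hI' ▸ Ideal.absNorm_mem I'
  have m4 : (b : 𝓞 E) ∈ J' := hJ' ▸ Ideal.absNorm_mem J'
  have e1 : I = I' := by rw [UpChebD_left h m1 m2, e, ← UpChebD_left h m3 m4]
  have e2 : J = J' := by
    rw [UpChebD_left h.symm m2 m1, mul_comm, e, mul_comm, ← UpChebD_left h.symm m4 m3]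
  subst e1 e2
  rfl

theorem UpChebD_one (E : Type) [Field E] [NumberField E] : 1 ≤ nI E 1 := by
  unfold nI
  have : Finite {I : Ideal (𝓞 E) // Ideal.absNorm I = 1} :=
    (Ideal.finite_setOfPred_absNorm_eq 1).to_subtype
  have : Nonempty {I : Ideal (𝓞 E) // Ideal.absNorm I = 1} := ⟨⟨⊤, by simp⟩⟩
  exact Nat.card_pos

theorem UpChebD_prod (E : Type) [Field E] [NumberField E] (T : Finset ℕ)
    (hT : ∀ r ∈ T, r.Prime) : ∏ r ∈ T, nI E r ≤ nI E (∏ r ∈ T, r) := by
  induction T using Finset.induction_on with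
  | empty => simpa using UpChebD_one E
  | insert a T ha ih =>
    have hT' : ∀ r ∈ T, r.Prime := fun r hr => hT r (Finset.mem_insert_of_mem hr)
    have hap := hT a (Finset.mem_insert_self _ _)
    rw [Finset.prod_insert ha, Finset.prod_insert ha]
    refine (Nat.mul_le_mul_left _ (ih hT')).trans (nI_mul E ?_ ?_)
    · exact mul_ne_zero hap.ne_zero (Finset.prod_ne_zero_iff.2 fun r hr => (hT' r hr).ne_zero)
    · exact Nat.Coprime.prod_right fun r hr =>
        (Nat.coprime_primes hap (hT' r hr)).2 fun h => ha (h ▸ hr)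

/-- upper bound from the simple pole of the zeta function -/
theorem prod_upper (E : Type) [Field E] [NumberField E] :
    ∃ C : ℝ, ∀ᶠ j : ℕ in Filter.atTop, ∀ R : Finset ℕ, (∀ r ∈ R, r.Prime) →
      ∏ r ∈ R, (1 + (nI E r : ℝ) * (r : ℝ) ^ (-(1 + (2 : ℝ)⁻¹ ^ j))) ≤ C * 2 ^ j := by
  refine ⟨dedekindZeta_residue E + 1, ?_⟩
  have h0 : Filter.Tendsto (fun j : ℕ => 1 + (2 : ℝ)⁻¹ ^ j) Filter.atTop (nhdsWithin 1 (Set.Ioi 1)) := by
    apply tendsto_nhdsWithin_iff.2
    constructor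
    · simpa using (tendsto_pow_atTop_nhds_zero_of_lt_one (r := (2 : ℝ)⁻¹) (by norm_num)
        (by norm_num)).const_add 1
    · exact Filter.Eventually.of_forall fun j => by
        have : 0 < (2 : ℝ)⁻¹ ^ j := by positivity
        simpa using this
  have h1 := (Complex.continuous_re.tendsto _).comp
    ((tendsto_sub_one_mul_dedekindZeta_nhdsGT E).comp h0)
  have hp := dedekindZeta_residue_pos E
  have h2 := h1.eventually (Ioo_mem_nhds (a := 0) (b := dedekindZeta_residue E + 1)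
    (by simpa using hp) (by simp))
  filter_upwards [h2] with j hj R hR
  set x : ℝ := 1 + (2 : ℝ)⁻¹ ^ j with hx
  let g : ℕ → ℝ := fun n => if n = 0 then 0 else (nI E n : ℝ) * (n : ℝ) ^ (-x)
  have hg : ∀ n, LSeries.term (fun n => (Nat.card {I : Ideal (𝓞 E) // Ideal.absNorm I = n} : ℂ))
      x n = (g n : ℂ) := by
    intro n
    by_cases hn : n = 0
    · subst hn; simp [g]
    · rw [LSeries.term_of_ne_zero hn]
      simp only [g, if_neg hn, nI]
      rw [Real.rpow_neg (Nat.cast_nonneg n)]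
      push_cast
      rw [Complex.ofReal_cpow (Nat.cast_nonneg n), div_eq_mul_inv]
      simp
  have hz : dedekindZeta E x = ((∑' n, g n : ℝ) : ℂ) := by
    rw [dedekindZeta, LSeries, Complex.ofReal_tsum]
    exact tsum_congr hg
  have hj' : 0 < (x - 1) * ∑' n, g n ∧ (x - 1) * ∑' n, g n < dedekindZeta_residue E + 1 := by
    have e : ((x : ℂ) - 1) * dedekindZeta E x = (((x - 1) * ∑' n, g n : ℝ) : ℂ) := by
      rw [hz]; push_cast; ring
    have hj2 : (((x : ℂ) - 1) * dedekindZeta E x).re ∈ Set.Ioo 0 (dedekindZeta_residue E + 1) := hj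
    rw [e, Complex.ofReal_re] at hj2
    exact hj2
  have hs : Summable g := by
    by_contra hn
    rw [tsum_eq_zero_of_not_summable hn] at hj'
    simp at hj'
  have g0 : ∀ n, 0 ≤ g n := fun n => by
    simp only [g]; split_ifs
    · exact le_rfl
    · positivity
  have h3 : ∑' n, g n ≤ (dedekindZeta_residue E + 1) * 2 ^ j := by
    have e : (x - 1) * 2 ^ j = 1 := by
      rw [hx, add_sub_cancel_left, ← mul_pow]; norm_num
    have : (0 : ℝ) < 2 ^ j := by positivity
    calc ∑' n, g n = ((x - 1) * ∑' n, g n) * 2 ^ j := by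
          rw [mul_right_comm, e, one_mul]
      _ ≤ _ := mul_le_mul_of_nonneg_right hj'.2.le this.le
  refine le_trans ?_ h3
  rw [Finset.prod_one_add]
  have hinj : Set.InjOn (fun T : Finset ℕ => ∏ r ∈ T, r) R.powerset := by
    intro T hT T' hT' h
    have a1 := Nat.primeFactors_prod (s := T) fun p hp => hR p (Finset.mem_powerset.1 hT hp)
    have a2 := Nat.primeFactors_prod (s := T') fun p hp => hR p (Finset.mem_powerset.1 hT' hp)
    rw [← a1, ← a2]
    exact congrArg Nat.primeFactors h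
  calc _ ≤ ∑ T ∈ R.powerset, g (∏ r ∈ T, r) := by
        apply Finset.sum_le_sum
        intro T hT
        have hT' : ∀ r ∈ T, r.Prime := fun p hp => hR p (Finset.mem_powerset.1 hT hp)
        have hne : ∏ r ∈ T, r ≠ 0 := Finset.prod_ne_zero_iff.2 fun r hr => (hT' r hr).ne_zero
        simp only [g, if_neg hne]
        rw [Finset.prod_mul_distrib, Nat.cast_prod,
          Real.finsetProd_rpow _ _ (fun r _ => Nat.cast_nonneg r)]
        apply mul_le_mul_of_nonneg_right _ (by positivity)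
        exact_mod_cast UpChebD_prod E T hT'
    _ = ∑ n ∈ R.powerset.image (fun T : Finset ℕ => ∏ r ∈ T, r), g n :=
        (Finset.sum_image hinj).symm
    _ ≤ _ := hs.sum_le_tsum _ fun n _ => g0 n

theorem UpChebD_exp {y : ℝ} (hy : 0 ≤ y) : Real.exp (y - y ^ 2) ≤ 1 + y := by
  have h1 : 0 < 1 + y := by linarith
  rw [← Real.le_log_iff_exp_le h1]
  refine le_trans ?_ (Real.one_sub_inv_le_log_of_pos h1)
  have : 1 - (1 + y)⁻¹ = y / (1 + y) := by field_simp; ring
  rw [this, le_div_iff₀ h1]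
  nlinarith [pow_nonneg hy 3]

end A

section C
open ArithmeticFunction ArithmeticFunction.vonMangoldt

/-- one step of the telescoping bound for negative powers -/
theorem upChebC_step {t : ℝ} (ht : 0 < t) (j : ℕ) :
    t ^ (-(1 + (2 : ℝ)⁻¹ ^ j)) + (2 : ℝ)⁻¹ ^ (j + 1) * (Real.log t * t ^ (-(1 + (2 : ℝ)⁻¹ ^ j)))
      ≤ t ^ (-(1 + (2 : ℝ)⁻¹ ^ (j + 1))) := by
  have h1 : -(1 + (2 : ℝ)⁻¹ ^ (j + 1)) = -(1 + (2 : ℝ)⁻¹ ^ j) + (2 : ℝ)⁻¹ ^ (j + 1) := by
    rw [pow_succ]; ring
  rw [h1, Real.rpow_add ht, Real.rpow_def_of_pos ht ((2 : ℝ)⁻¹ ^ (j + 1))]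
  have h2 := Real.add_one_le_exp (Real.log t * (2 : ℝ)⁻¹ ^ (j + 1))
  have h3 : 0 < t ^ (-(1 + (2 : ℝ)⁻¹ ^ j)) := Real.rpow_pos_of_pos ht _
  nlinarith [mul_le_mul_of_nonneg_left h2 h3.le]

/-- the telescoped bound -/
theorem upChebC_tel {t : ℝ} (ht : 0 < t) (j : ℕ) :
    ∑ i ∈ Finset.range j, (2 : ℝ)⁻¹ ^ (i + 1) * (Real.log t * t ^ (-(1 + (2 : ℝ)⁻¹ ^ i)))
      ≤ t ^ (-(1 + (2 : ℝ)⁻¹ ^ j)) := by
  induction j with
  | zero => simpa using (Real.rpow_pos_of_pos ht _).le
  | succ j ih =>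
    rw [Finset.sum_range_succ]
    have := upChebC_step ht j
    linarith

/-- the logarithmically weighted sum over the primes of the class -/
theorem upChebC_log {N : ℕ} [NeZero N] {c : ZMod N} (hc : IsUnit c) (B : ℕ) :
    ∃ C : ℝ, 0 ≤ C ∧ ∀ x : ℝ, 1 < x → x ≤ 2 →
      Summable (fun n : ℕ => if n.Prime ∧ B < n ∧ (n : ZMod N) = c then
        Real.log n * (n : ℝ) ^ (-x) else 0) ∧
      (N.totient : ℝ)⁻¹ / (x - 1) - C ≤ ∑' n : ℕ, (if n.Prime ∧ B < n ∧ (n : ZMod N) = c then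
        Real.log n * (n : ℝ) ^ (-x) else 0) := by
  obtain ⟨C0, hC0⟩ := LSeries_residueClass_lower_bound hc
  have hg1 := summable_residueClass_non_primes_div c
  have hg2 : Summable (fun n : ℕ => if n ≤ B then Real.log n else 0) := by
    refine summable_of_ne_finset_zero (s := Finset.range (B + 1)) fun n hn => ?_
    rw [Finset.mem_range] at hn
    rw [if_neg (by omega)]
  have hg := hg1.add hg2
  set g : ℕ → ℝ := fun n => (if n.Prime then 0 else residueClass c n) / n +
    (if n ≤ B then Real.log n else 0) with hgdef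
  refine ⟨|C0 + ∑' n, g n|, abs_nonneg _, fun x hx1 hx2 => ?_⟩
  have hs : Summable fun n : ℕ => residueClass c n / (n : ℝ) ^ x :=
    LSeries.summable_real_of_abscissaOfAbsConv_lt
      ((abscissaOfAbsConv_residueClass_le_one c).trans_lt (by exact_mod_cast hx1))
  have hprime : ∀ n : ℕ, n.Prime → (n : ZMod N) = c → residueClass c n = Real.log n := by
    intro n hn hnc
    have : n ∈ {n : ℕ | (n : ZMod N) = c} := hnc
    simp only [residueClass, Set.indicator_of_mem this, vonMangoldt_apply_prime hn]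
  have hS : Summable (fun n : ℕ => if n.Prime ∧ B < n ∧ (n : ZMod N) = c then
        Real.log n * (n : ℝ) ^ (-x) else 0) := by
    refine Summable.of_nonneg_of_le (fun n => ?_) (fun n => ?_) hs
    · split_ifs with h
      · exact mul_nonneg (Real.log_natCast_nonneg n) (Real.rpow_nonneg (Nat.cast_nonneg n) _)
      · exact le_rfl
    · split_ifs with h
      · rw [hprime n h.1 h.2.2, Real.rpow_neg (Nat.cast_nonneg n), div_eq_mul_inv]
      · exact div_nonneg (residueClass_nonneg c n) (Real.rpow_nonneg (Nat.cast_nonneg n) _)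
  refine ⟨hS, ?_⟩
  have h1 := hC0 (x := x) ⟨hx1, hx2⟩
  have h2 : ∑' n : ℕ, residueClass c n / (n : ℝ) ^ x ≤
      ∑' n : ℕ, ((if n.Prime ∧ B < n ∧ (n : ZMod N) = c then
        Real.log n * (n : ℝ) ^ (-x) else 0) + g n) := by
    refine Summable.tsum_le_tsum (fun n => ?_) hs (hS.add hg)
    rcases Nat.eq_zero_or_pos n with rfl | hn0
    · simp [hgdef]
    have hn1 : (1 : ℝ) ≤ n := by exact_mod_cast hn0
    have hpow : (n : ℝ) ≤ (n : ℝ) ^ x := by
      have := Real.rpow_le_rpow_of_exponent_le hn1 hx1.le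
      rwa [Real.rpow_one] at this
    have hl := Real.log_natCast_nonneg n
    have hr := residueClass_nonneg c n
    simp only [hgdef]
    by_cases hp : n.Prime
    · rw [if_pos hp, zero_div, zero_add]
      by_cases hnc : (n : ZMod N) = c
      · rw [hprime n hp hnc]
        by_cases hB : B < n
        · rw [if_pos ⟨hp, hB, hnc⟩, if_neg (by omega), add_zero,
            Real.rpow_neg (Nat.cast_nonneg n), div_eq_mul_inv]
        · rw [if_neg (fun h => hB h.2.1), if_pos (by omega), zero_add]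
          exact div_le_self hl (hn1.trans hpow)
      · have : n ∉ {n : ℕ | (n : ZMod N) = c} := hnc
        have h0 : residueClass c n = 0 := by
          simp only [residueClass, Set.indicator_of_notMem this]
        rw [h0, zero_div, if_neg (fun h => hnc h.2.2), zero_add]
        split_ifs
        · exact hl
        · exact le_rfl
    · rw [if_neg hp, if_neg (fun h => hp h.1), zero_add]
      have h3 : residueClass c n / (n : ℝ) ^ x ≤ residueClass c n / n :=
        div_le_div_of_nonneg_left hr (by linarith) hpow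
      have h4 : (0 : ℝ) ≤ if n ≤ B then Real.log n else 0 := by
        split_ifs
        · exact hl
        · exact le_rfl
      linarith
  rw [hS.tsum_add hg] at h2
  have h3 := le_abs_self (C0 + ∑' n, g n)
  linarith

/-- lower bound for the sum over the primes of a residue class -/
theorem prime_sum_lower {N : ℕ} [NeZero N] {c : ZMod N} (hc : IsUnit c) (B : ℕ) :
    ∃ C : ℝ, ∀ j : ℕ, ∃ R : Finset ℕ, (∀ r ∈ R, r.Prime ∧ B < r ∧ (r : ZMod N) = c) ∧
      (j : ℝ) / (2 * N.totient) - C ≤ ∑ r ∈ R, (r : ℝ) ^ (-(1 + (2 : ℝ)⁻¹ ^ j)) := by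
  obtain ⟨C, hC0, hC⟩ := upChebC_log hc B
  refine ⟨C + 1, fun j => ?_⟩
  have hx : ∀ i : ℕ, (1 : ℝ) < 1 + (2 : ℝ)⁻¹ ^ i ∧ 1 + (2 : ℝ)⁻¹ ^ i ≤ 2 := by
    intro i
    have h1 : (0 : ℝ) < (2 : ℝ)⁻¹ ^ i := by positivity
    have h2 : (2 : ℝ)⁻¹ ^ i ≤ 1 := pow_le_one₀ (by norm_num) (by norm_num)
    constructor <;> linarith
  set F : ℕ → ℕ → ℝ := fun i n => if n.Prime ∧ B < n ∧ (n : ZMod N) = c then
    Real.log n * (n : ℝ) ^ (-(1 + (2 : ℝ)⁻¹ ^ i)) else 0 with hF
  have hFs : ∀ i, Summable (F i) := fun i => (hC _ (hx i).1 (hx i).2).1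
  have hFl : ∀ i, (N.totient : ℝ)⁻¹ / 2 - (2 : ℝ)⁻¹ ^ (i + 1) * C ≤
      (2 : ℝ)⁻¹ ^ (i + 1) * ∑' n, F i n := by
    intro i
    have h1 := (hC _ (hx i).1 (hx i).2).2
    have h2 : (0 : ℝ) < (2 : ℝ)⁻¹ ^ i := by positivity
    have h3 := mul_le_mul_of_nonneg_left h1 (by positivity : (0 : ℝ) ≤ (2 : ℝ)⁻¹ ^ (i + 1))
    have h4 : (2 : ℝ)⁻¹ ^ (i + 1) * ((N.totient : ℝ)⁻¹ / (1 + (2 : ℝ)⁻¹ ^ i - 1)) =
        (N.totient : ℝ)⁻¹ / 2 := by
      rw [add_sub_cancel_left, pow_succ]
      field_simp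
    rw [mul_sub, h4] at h3
    exact h3
  have hsum : HasSum (fun n => ∑ i ∈ Finset.range j, (2 : ℝ)⁻¹ ^ (i + 1) * F i n)
      (∑ i ∈ Finset.range j, (2 : ℝ)⁻¹ ^ (i + 1) * ∑' n, F i n) :=
    hasSum_sum fun i _ => (hFs i).hasSum.mul_left _
  have hgeo : ∀ k : ℕ, ∑ i ∈ Finset.range k, (2 : ℝ)⁻¹ ^ (i + 1) = 1 - (2 : ℝ)⁻¹ ^ k := by
    intro k
    induction k with
    | zero => simp
    | succ k ih => rw [Finset.sum_range_succ, ih, pow_succ]; ring
  have hlow : (j : ℝ) / (2 * N.totient) - C ≤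
      ∑ i ∈ Finset.range j, (2 : ℝ)⁻¹ ^ (i + 1) * ∑' n, F i n := by
    refine le_trans ?_ (Finset.sum_le_sum fun i _ => hFl i)
    rw [Finset.sum_sub_distrib, ← Finset.sum_mul, hgeo, Finset.sum_const, Finset.card_range,
      nsmul_eq_mul]
    have h2 : (0 : ℝ) < (2 : ℝ)⁻¹ ^ j := by positivity
    have h3 : (j : ℝ) / (2 * N.totient) = j * ((N.totient : ℝ)⁻¹ / 2) := by
      rw [div_eq_mul_inv, mul_inv]; ring
    rw [h3]
    nlinarith [mul_nonneg h2.le hC0]
  have hev := (hsum.eventually (lt_mem_nhds (show (j : ℝ) / (2 * N.totient) - (C + 1) <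
    ∑ i ∈ Finset.range j, (2 : ℝ)⁻¹ ^ (i + 1) * ∑' n, F i n by linarith))).exists
  obtain ⟨s, hs⟩ := hev
  refine ⟨s.filter fun n => n.Prime ∧ B < n ∧ (n : ZMod N) = c,
    fun r hr => (Finset.mem_filter.mp hr).2, hs.le.trans ?_⟩
  rw [Finset.sum_filter]
  refine Finset.sum_le_sum fun n _ => ?_
  simp only [hF]
  split_ifs with h
  · exact upChebC_tel (by exact_mod_cast h.1.pos) j
  · simp

end C

end Pool.Agent.P.MP_68214b_ag.Ch
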