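import Mathlib

-- part Pool.Agent.P.MP_68214b_ag.DG1
section

open Polynomial

namespace Pool.Agent.P.MP_68214b_ag.DS

noncomputable section

variable {A B C : Type*} [Field A] [Field B] [Field C]

/-- the trace along a ring map of fields -/
def tr (ι : A →+* B) : B →+ A := (@Algebra.trace A B _ _ ι.toAlgebra).toAddMonoidHom

/-- the degree along a ring map of fields -/
def rk (ι : A →+* B) : ℕ := @Module.finrank A B _ _ ι.toAlgebra.toModule

theorem tr_mul (ι : A →+* B) (a : A) (z : B) : tr ι (ι a * z) = a * tr ι z := by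
  let := ι.toAlgebra
  exact (Algebra.trace A B).map_smul a z

theorem tr_comp {ι : A →+* B} {κ : B →+* C} (h1 : ι.Finite) (h2 : κ.Finite) (z : C) :
    tr (κ.comp ι) z = tr ι (tr κ z) := by
  let := ι.toAlgebra
  let := κ.toAlgebra
  let := (κ.comp ι).toAlgebra
  have : IsScalarTower A B C := IsScalarTower.of_algebraMap_eq' rfl
  have : Module.Finite A B := h1
  have : Module.Finite B C := h2
  exact (Algebra.trace_trace z).symm

theorem rk_comp (ι : A →+* B) (κ : B →+* C) : rk (κ.comp ι) = rk ι * rk κ := by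
  let := ι.toAlgebra
  let := κ.toAlgebra
  let := (κ.comp ι).toAlgebra
  have : IsScalarTower A B C := IsScalarTower.of_algebraMap_eq' rfl
  exact (Module.finrank_mul_finrank A B C).symm

theorem rk_pos {ι : A →+* B} (h : ι.Finite) : 0 < rk ι := by
  let := ι.toAlgebra
  have : Module.Finite A B := h
  exact Module.finrank_pos

theorem tr_val [CharZero A] [IsAlgClosed C] {ι : A →+* B} (h : ι.Finite) (τ0 : A →+* C)
    {Γ : Type*} [LinearOrderedCommMonoidWithZero Γ] (v : Valuation C Γ) (z : B) :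
    ∃ τ : B →+* C, τ.comp ι = τ0 ∧ v (τ0 (tr ι z)) ≤ v (τ z) := by
  let := ι.toAlgebra
  let := τ0.toAlgebra
  have : Module.Finite A B := h
  have e : τ0 (tr ι z) = ∑ σ : B →ₐ[A] C, σ z := trace_eq_sum_embeddings C
  obtain ⟨σ, -, hσ⟩ := Finset.univ.exists_max_image (fun σ : B →ₐ[A] C => v (σ z))
    ⟨IsAlgClosed.lift, Finset.mem_univ _⟩
  exact ⟨σ, σ.comp_algebraMap, e ▸ v.map_sum_le hσ⟩

theorem tr_nd [CharZero A] {ι : A →+* B} (h : ι.Finite) : ∃ b : Fin (rk ι) → B,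
    ∀ (c : Fin (rk ι) → A) (z : B), (∀ i, c i ≠ 0) → (∀ i, tr ι (z * (ι (c i) * b i)) = 0) →
      z = 0 := by
  let := ι.toAlgebra
  have : Module.Finite A B := h
  let b := Module.finBasis A B
  refine ⟨b, fun c z hc hz => (traceForm_nondegenerate A B).1 z fun y => ?_⟩
  have : Algebra.traceForm A B z = 0 := b.ext fun i => by
    have := hz i
    rw [mul_left_comm, tr_mul] at this
    exact (mul_eq_zero.1 this).resolve_left (hc i)
  rw [this, LinearMap.zero_apply]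

theorem tr_rel {ι : A →+* B} (h : ι.Finite) (z : B) :
    ∃ p : A[X], p ≠ 0 ∧ p.natDegree ≤ rk ι ∧ p.eval₂ ι z = 0 := by
  let := ι.toAlgebra
  have : Module.Finite A B := h
  exact ⟨minpoly A z, minpoly.ne_zero_of_finite A z, minpoly.natDegree_le z, minpoly.aeval A z⟩

theorem tr_basis {ι : A →+* B} {D : ℕ} (hD : 0 < D) (h : rk ι = D) (b : Fin D → B)
    (hb : ∀ c : Fin D → A, ∑ i, ι (c i) * b i = 0 → ∀ i, c i = 0) (u : B) :
    ∃ c : Fin D → Fin D → A, (∀ i, u * b i = ∑ j, ι (c i j) * b j) ∧ tr ι u = ∑ i, c i i := by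
  let := ι.toAlgebra
  have : Nonempty (Fin D) := ⟨⟨0, hD⟩⟩
  have hl : LinearIndependent A b := Fintype.linearIndependent_iff.2 hb
  let β := basisOfLinearIndependentOfCardEqFinrank hl ((Fintype.card_fin D).trans h.symm)
  have hβ : ∀ i, β i = b i := fun i => by simp [β]
  refine ⟨fun i j => β.repr (u * b i) j, fun i => ?_, ?_⟩
  · conv_lhs => rw [← β.sum_repr (u * b i)]
    exact Finset.sum_congr rfl fun j _ => by rw [hβ]; rfl
  · change Algebra.trace A B u = _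
    rw [Algebra.trace_eq_matrix_trace β, Matrix.trace]
    exact Finset.sum_congr rfl fun i _ => by
      rw [Matrix.diag_apply, Algebra.leftMulMatrix_eq_repr_mul, hβ]

theorem rk_dep {ι : A →+* B} (h : ι.Finite) (b : Fin (rk ι + 1) → B) :
    ∃ c : Fin (rk ι + 1) → A, ∑ i, ι (c i) * b i = 0 ∧ ∃ i, c i ≠ 0 := by
  let := ι.toAlgebra
  have : Module.Finite A B := h
  refine Fintype.not_linearIndependent_iff.1 fun hl => ?_
  have := hl.fintype_card_le_finrank
  rw [Fintype.card_fin] at this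
  exact Nat.not_succ_le_self _ this

end

end Pool.Agent.P.MP_68214b_ag.DS
end

-- part Pool.Agent.P.MP_68214b_ag.DG3
section

open Polynomial

namespace Pool.Agent.P.MP_68214b_ag.DS

variable {L : Type*} [Field L] [Algebra ℂ L] {Γ : Type*} [LinearOrderedCommGroupWithZero Γ]
  {v : Valuation L Γ}

/-- a relation of degree at most m over the polynomials in x -/
def Rl (x a : L) (m : ℕ) : Prop :=
  ∃ G : ℂ[X][X], G ≠ 0 ∧ G.natDegree ≤ m ∧ aevalAeval x a G = 0

theorem ae_eq (x a : L) (G : ℂ[X][X]) :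
    aevalAeval x a G = G.eval₂ (aeval x : ℂ[X] →ₐ[ℂ] L) a := by
  induction G using Polynomial.induction_on' with
  | add p q hp hq => rw [map_add, hp, hq, eval₂_add]
  | monomial n p =>
    rw [eval₂_monomial, ← C_mul_X_pow_eq_monomial, map_mul, map_pow, aevalAeval_C, aevalAeval_Y]
    rfl

theorem exists_cdeg (G : ℂ[X][X]) : ∃ s, ∀ i, (G.coeff i).natDegree ≤ s :=
  ⟨G.support.sup fun j => (G.coeff j).natDegree, fun j => by
    by_cases hj : j ∈ G.support
    · exact Finset.le_sup (f := fun j => (G.coeff j).natDegree) hj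
    · rw [notMem_support_iff.1 hj]; simp⟩

theorem v_top (hv : v.IsTrivialOn ℂ) {x : L} (h : 1 < v x) {p : ℂ[X]} (hp : p ≠ 0) :
    v (aeval x p) = v x ^ p.natDegree :=
  valuation_aeval_eq_valuation_X_pow_natDegree_of_one_lt_valuation_X x h hp

theorem v_c (hv : v.IsTrivialOn ℂ) (c : ℂ) : v (algebraMap ℂ L c) ≤ 1 :=
  Valuation.IsTrivialOn.valuation_algebraMap_le_one v c

theorem v_le (hv : v.IsTrivialOn ℂ) {x : L} {t : Γ} (ht : 1 ≤ t) (h : v x ≤ t) {p : ℂ[X]} {s : ℕ}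
    (hs : p.natDegree ≤ s) : v (aeval x p) ≤ t ^ s := by
  rw [aeval_eq_sum_range]
  refine v.map_sum_le fun i hi => ?_
  rw [Algebra.smul_def, map_mul, map_pow]
  exact (mul_le_of_le_one_left' (v_c hv _)).trans ((pow_le_pow_left₀ zero_le h i).trans
    (pow_le_pow_right₀ ht ((Nat.lt_succ_iff.1 (Finset.mem_range.1 hi)).trans hs)))

theorem v_le1 (hv : v.IsTrivialOn ℂ) {x : L} (h : v x ≤ 1) (p : ℂ[X]) : v (aeval x p) ≤ 1 :=
  (v_le hv le_rfl h le_rfl).trans_eq (one_pow _)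

theorem v_lc (hv : v.IsTrivialOn ℂ) {x a : L} {G : ℂ[X][X]} (h : aevalAeval x a G = 0) {s : ℕ}
    (hs : ∀ i, (G.coeff i).natDegree ≤ s) {t : Γ} (ht : 1 ≤ t) (hx : v x ≤ t) (ha : 1 ≤ v a) :
    v (aeval x G.leadingCoeff) * v a ≤ t ^ s := by
  rw [ae_eq, eval₂_eq_sum_range, Finset.sum_range_succ, add_eq_zero_iff_neg_eq] at h
  have h1 := congrArg v h
  rw [v.map_neg, map_mul, map_pow] at h1
  rw [leadingCoeff]
  change _ = v (aeval x _) * _ at h1
  generalize G.natDegree = n at h1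
  rcases n with _ | n
  · rw [Finset.sum_range_zero, map_zero, pow_zero, mul_one] at h1
    rw [← h1, zero_mul]
    exact zero_le
  have a0 : 0 < v a ^ n := pow_pos (zero_lt_one.trans_le ha) n
  refine le_of_mul_le_mul_right ?_ a0
  rw [mul_assoc, ← pow_succ', ← h1]
  refine v.map_sum_le fun i hi => ?_
  rw [map_mul, map_pow]
  exact mul_le_mul' (v_le hv ht hx (hs i))
    (pow_le_pow_right₀ ha (Nat.lt_succ_iff.1 (Finset.mem_range.1 hi)))

theorem v_tie (hv : v.IsTrivialOn ℂ) {x a : L} (hx : 1 < v x) (ha : a ≠ 0) {m : ℕ}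
    (h : Rl x a m) : ∃ t n1 n2 : ℕ, 0 < t ∧ t ≤ m ∧ v a ^ t * v x ^ n1 = v x ^ n2 := by
  classical
  obtain ⟨G, hG, hm, h⟩ := h
  rw [ae_eq, eval₂_eq_sum, sum_def] at h
  set T : ℕ → L := fun i => aeval x (G.coeff i) * a ^ i with hT
  have a0 : v a ≠ 0 := (v.ne_zero_iff).2 ha
  have x0 : v x ≠ 0 := (zero_lt_one.trans hx).ne'
  have e : ∀ i ∈ G.support, v (T i) = v x ^ (G.coeff i).natDegree * v a ^ i := fun i hi => by
    rw [hT, map_mul, map_pow, v_top hv hx (mem_support_iff.1 hi)]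
  obtain ⟨j, hj, hmax⟩ := G.support.exists_max_image (fun i => v (T i)) (support_nonempty.2 hG)
  obtain ⟨i, hi, hne, hij⟩ : ∃ i ∈ G.support, i ≠ j ∧ v (T i) = v (T j) := by
    by_contra! hc
    have := v.map_sum_eq_of_lt (f := T) hj fun i hi => by
      rw [Finset.mem_sdiff, Finset.mem_singleton] at hi
      exact (hmax i hi.1).lt_of_ne (hc i hi.1 hi.2)
    rw [show ∑ i ∈ G.support, T i = 0 from h, map_zero, e j hj] at this
    exact mul_ne_zero (pow_ne_zero _ x0) (pow_ne_zero _ a0) this.symm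
  have key : ∀ i ∈ G.support, ∀ j ∈ G.support, i < j → v (T i) = v (T j) →
      ∃ t n1 n2 : ℕ, 0 < t ∧ t ≤ m ∧ v a ^ t * v x ^ n1 = v x ^ n2 := fun i hi j hj hlt hij => by
    obtain ⟨t, rfl⟩ := Nat.exists_eq_add_of_le hlt.le
    have := le_natDegree_of_mem_supp _ hj
    refine ⟨t, (G.coeff (i + t)).natDegree, (G.coeff i).natDegree, by omega, by omega,
      mul_right_cancel₀ (pow_ne_zero i a0) ?_⟩
    rw [← e i hi, hij, e _ hj, pow_add, mul_comm (v a ^ t), mul_comm (v a ^ i), mul_assoc]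
  rcases hne.lt_or_gt with h1 | h1
  exacts [key i hi j hj h1 hij, key j hj i hi h1 hij.symm]

theorem v_root (hv : v.IsTrivialOn ℂ) {a : L} {p : ℂ[X]} (hp : p ≠ 0) (h : v (aeval a p) < 1) :
    ∃ c, v (a - algebraMap ℂ L c) < 1 := by
  by_contra! hc
  refine h.not_ge ?_
  rw [(IsAlgClosed.splits p).eq_prod_roots, map_mul, map_mul, aeval_C,
    hv.eq_one _ (leadingCoeff_ne_zero.2 hp), one_mul, map_multiset_prod, map_multiset_prod]
  refine Multiset.one_le_prod_of_one_le fun y hy => ?_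
  simp only [Multiset.map_map, Multiset.mem_map, Function.comp_apply] at hy
  obtain ⟨c, -, rfl⟩ := hy
  rw [map_sub, aeval_X, aeval_C]
  exact hc c

theorem v_res (hv : v.IsTrivialOn ℂ) {x a : L} (hx : 1 < v x) (ha : v a ≤ 1) {G : ℂ[X][X]}
    (hG : G ≠ 0) (h : aevalAeval a x G = 0) : ∃ c, v (a - algebraMap ℂ L c) < 1 := by
  obtain ⟨s, hs⟩ := exists_cdeg G
  have := v_lc hv h hs le_rfl ha hx.le
  rw [one_pow] at this
  refine v_root hv (leadingCoeff_ne_zero.2 hG) (lt_of_not_ge fun hc => ?_)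
  exact (hx.trans_le (le_mul_of_one_le_left' hc)).not_ge this

theorem v_rm (hv : v.IsTrivialOn ℂ) {x : L} {c : ℂ} (h : v (x - algebraMap ℂ L c) < 1) {p : ℂ[X]}
    (hp : p ≠ 0) : v (aeval x p) = v (x - algebraMap ℂ L c) ^ rootMultiplicity c p := by
  obtain ⟨q, h1, h2⟩ := exists_eq_pow_rootMultiplicity_mul_and_not_dvd p hp c
  have hx : v x ≤ 1 := by
    rw [← sub_add_cancel x (algebraMap ℂ L c)]
    exact v.map_add_le h.le (v_c hv c)
  have h3 : v (aeval x q) = 1 := by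
    have e := modByMonic_add_div q (X - C c)
    rw [modByMonic_X_sub_C_eq_C_eval] at e
    have h4 := hv.eq_one _ (mt dvd_iff_isRoot.2 h2)
    rw [← e, map_add, aeval_C, v.map_add_eq_of_lt_left, h4]
    rw [h4, map_mul, map_mul, map_sub, aeval_X, aeval_C]
    exact (mul_le_of_le_one_right' (v_le1 hv hx _)).trans_lt h
  conv_lhs => rw [h1]
  rw [map_mul, map_mul, h3, mul_one, map_pow, map_pow, map_sub, aeval_X, aeval_C]

end Pool.Agent.P.MP_68214b_ag.DS
end

-- part Pool.Agent.P.MP_68214b_ag.DG4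
section

open Polynomial

namespace Pool.Agent.P.MP_68214b_ag.DS

variable {L : Type*} [Field L] [Algebra ℂ L] {Γ : Type*} [LinearOrderedCommGroupWithZero Γ]
  {v : Valuation L Γ}

theorem v_cyc (hv : v.IsTrivialOn ℂ) {x : L} (hx : 1 < v x) {m : ℕ} (h : ∀ a, Rl x a m) :
    ∃ π : L, π ≠ 0 ∧ v π ≠ 1 ∧ ∀ a, a ≠ 0 → ∃ n : ℤ, v a = v π ^ n := by
  have x0 : v x ≠ 0 := (zero_lt_one.trans hx).ne'
  let H : AddSubgroup ℤ :=
    { carrier := {n | ∃ a, a ≠ 0 ∧ v a ^ m.factorial = v x ^ n}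
      zero_mem' := ⟨1, one_ne_zero, by simp⟩
      add_mem' := fun ⟨a, a0, ha⟩ ⟨b, b0, hb⟩ =>
        ⟨a * b, mul_ne_zero a0 b0, by rw [map_mul, mul_pow, ha, hb, zpow_add₀ x0]⟩
      neg_mem' := fun ⟨a, a0, ha⟩ => ⟨a⁻¹, inv_ne_zero a0, by rw [map_inv₀, inv_pow, ha, zpow_neg]⟩ }
  obtain ⟨g, hg⟩ := Int.subgroup_cyclic H
  obtain ⟨π, π0, hπ⟩ : g ∈ H := hg ▸ AddSubgroup.mem_closure_singleton_self g
  have key : ∀ a, a ≠ 0 → ∃ n : ℤ, v a = v π ^ n := fun a ha => by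
    obtain ⟨t, n1, n2, t0, tm, e⟩ := v_tie hv hx ha (h a)
    obtain ⟨k, hk⟩ := Nat.dvd_factorial t0 tm
    have h1 : ((n2 : ℤ) - n1) * k ∈ H := ⟨a, ha, by
      rw [hk, pow_mul, zpow_mul, zpow_sub₀ x0, zpow_natCast, zpow_natCast, zpow_natCast, ← e,
        mul_div_cancel_right₀ _ (pow_ne_zero _ x0)]⟩
    have h2 : v a ^ m.factorial = v x ^ (((n2 : ℤ) - n1) * k) := by
      rw [hk, pow_mul, zpow_mul, zpow_sub₀ x0, zpow_natCast, zpow_natCast, zpow_natCast, ← e,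
        mul_div_cancel_right₀ _ (pow_ne_zero _ x0)]
    rw [hg, AddSubgroup.mem_closure_singleton] at h1
    obtain ⟨n, hn⟩ := h1
    refine ⟨n, (pow_left_inj₀ zero_le zero_le m.factorial_ne_zero).1 ?_⟩
    rw [h2, ← hn, smul_eq_mul, mul_comm, zpow_mul, ← hπ, ← zpow_natCast, ← zpow_mul, mul_comm,
      zpow_mul, zpow_natCast]
  refine ⟨π, π0, fun h1 => ?_, key⟩
  obtain ⟨n, hn⟩ := key x (v.ne_zero_iff.1 x0)
  rw [h1, one_zpow] at hn
  exact hx.ne' hn

theorem tr_ne (hv : v.IsTrivialOn ℂ) {x : L} (hx : 1 < v x) {m : ℕ} (h : ∀ a, Rl x a m)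
    {φ : L →+* L} {D : ℕ} (hD : 0 < D) (hr : rk φ = D) (hφ : ∀ a, v (φ a) = v a ^ D) {u : L}
    (hu : v u = 1) : tr φ u ≠ 0 := by
  obtain ⟨π, π0, π1, hπ⟩ := v_cyc hv hx h
  have p0 : 0 < v π := zero_lt_iff.2 (v.ne_zero_iff.2 π0)
  have dis : ∀ (c c' : L) (i j : Fin D), c ≠ 0 →
      v (φ c * π ^ (i : ℕ)) = v (φ c' * π ^ (j : ℕ)) → i = j := fun c c' i j hc e => by
    have hc' : c' ≠ 0 := fun h0 => by
      rw [h0, map_zero, zero_mul, map_zero, v.zero_iff] at e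
      exact mul_ne_zero ((map_ne_zero φ).2 hc) (pow_ne_zero _ π0) e
    obtain ⟨n, hn⟩ := hπ c hc
    obtain ⟨n', hn'⟩ := hπ c' hc'
    rw [map_mul, map_mul, hφ, hφ, hn, hn', map_pow, map_pow] at e
    simp only [← zpow_natCast, ← zpow_mul, ← zpow_add₀ p0.ne'] at e
    have e1 := congrArg (· % (D : ℤ)) (zpow_right_injective₀ p0 π1 e)
    simp only [Int.mul_add_emod_self_right] at e1
    exact Fin.ext (by
      rw [← Nat.mod_eq_of_lt i.2, ← Nat.mod_eq_of_lt j.2]; exact_mod_cast e1)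
  have mx : ∀ (c : Fin D → L) (i : Fin D),
      v (φ (c i) * π ^ (i : ℕ)) ≤ v (∑ j, φ (c j) * π ^ (j : ℕ)) := fun c i => by
    obtain ⟨j, -, hj⟩ := Finset.univ.exists_max_image (fun j => v (φ (c j) * π ^ (j : ℕ)))
      ⟨i, Finset.mem_univ _⟩
    by_cases h0 : c j = 0
    · refine (hj i (Finset.mem_univ _)).trans ?_
      rw [h0, map_zero, zero_mul, map_zero]
      exact zero_le
    rw [v.map_sum_eq_of_lt (f := fun j => φ (c j) * π ^ (j : ℕ)) (Finset.mem_univ j) fun k hk =>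
      (hj k (Finset.mem_univ _)).lt_of_ne fun e => (Finset.mem_sdiff.1 hk).2
        (Finset.mem_singleton.2 (dis _ _ _ _ h0 e.symm).symm)]
    exact hj i (Finset.mem_univ _)
  obtain ⟨c, h1, h2⟩ := tr_basis hD hr (fun i => π ^ (i : ℕ)) (fun c hc i => by
    have := mx c i
    rw [hc, map_zero, le_zero_iff, v.zero_iff] at this
    exact (map_eq_zero φ).1 ((mul_eq_zero.1 this).resolve_right (pow_ne_zero _ π0))) u
  have h3 : ∀ i, v (φ (c i i) - u) < 1 := fun i => by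
    have q0 : 0 < v (π ^ (i : ℕ)) := by rw [map_pow]; exact pow_pos p0 _
    have e : (u - φ (c i i)) * π ^ (i : ℕ) =
        ∑ j ∈ Finset.univ.erase i, φ (c i j) * π ^ (j : ℕ) := by
      rw [sub_mul, h1, ← Finset.add_sum_erase _ _ (Finset.mem_univ i), add_sub_cancel_left]
    have := v.map_sum_lt (s := Finset.univ.erase i) (f := fun j => φ (c i j) * π ^ (j : ℕ)) q0.ne'
      fun j hj => by
        have h4 := mx (c i) j
        rw [← h1, map_mul v u, hu, one_mul] at h4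
        refine h4.lt_of_ne fun e => (Finset.mem_erase.1 hj).1
          (dis 1 (c i j) i j one_ne_zero ?_).symm
        rw [map_one, one_mul, e]
    rw [← e, map_mul] at this
    rw [v.map_sub_swap]
    exact (mul_lt_iff_lt_one_left q0).1 this
  intro h0
  have h4 := v.map_sum_lt (s := Finset.univ) one_ne_zero fun i _ => h3 i
  rw [Finset.sum_sub_distrib, ← map_sum, ← h2, h0, map_zero, zero_sub, v.map_neg, Finset.sum_const,
    Finset.card_fin, nsmul_eq_mul, map_mul, hu, mul_one, ← map_natCast (algebraMap ℂ L),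
    hv.eq_one _ (Nat.cast_ne_zero.2 hD.ne')] at h4
  exact lt_irrefl _ h4

end Pool.Agent.P.MP_68214b_ag.DS
end

-- part Pool.Agent.P.MP_68214b_ag.DG2
section

open Polynomial Pointwise

namespace Pool.Agent.P.MP_68214b_ag.DS

theorem dg2_irr (f : ℂ[X]) : Irreducible (f.map C - C X : ℂ[X][X]) := by
  have e : (f.map C - C X : ℂ[X][X]) = Bivariate.swap (-(X - C f) : ℂ[X][X]) := by
    rw [neg_sub, map_sub, Bivariate.swap_C, Bivariate.swap_Y]
  rw [e, MulEquiv.irreducible_iff]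
  exact (Associated.neg_right (Associated.refl _)).irreducible (irreducible_X_sub_C f)

theorem dual {K L : Type*} [Field K] [Field L] [Algebra ℂ[X] K] [IsFractionRing ℂ[X] K]
    (ψ : K →+* L) (e : ℂ[X] →+* L) {f : ℂ[X]} (hf : f.Monic) (hd : 0 < f.natDegree)
    (he : ∀ p, ψ (algebraMap ℂ[X] K p) = e (p.comp f)) (hs : ∀ z, ∃ p q, z = e p / e q) :
    ψ.Finite ∧ rk ψ = f.natDegree ∧ ∀ z : L,
      (∀ r, tr ψ (z * e r / e (derivative f)) ∈ (algebraMap ℂ[X] K).range) ↔ z ∈ e.range := by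
  let := ψ.toAlgebra
  let := (ψ.comp (algebraMap ℂ[X] K)).toAlgebra
  have : IsScalarTower ℂ[X] K L := IsScalarTower.of_algebraMap_eq' rfl
  have : CharZero K := charZero_of_injective_algebraMap (IsFractionRing.injective ℂ[X] K)
  have ha : ∀ p, algebraMap ℂ[X] L p = e (p.comp f) := he
  have hr : ∀ r : ℂ[X], aeval (e X) (r.map C : ℂ[X][X]) = e r := fun r => by
    induction r using Polynomial.induction_on' with
    | add p q hp hq => rw [Polynomial.map_add, map_add, hp, hq, map_add]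
    | monomial n a =>
      rw [Polynomial.map_monomial, aeval_monomial, ha, C_comp, ← map_pow, ← map_mul,
        C_mul_X_pow_eq_monomial]
  have hm : (f.map C - C X : ℂ[X][X]).Monic := (hf.map C).sub_of_left
    (degree_C_le.trans_lt (by rw [hf.degree_map]; exact natDegree_pos_iff_degree_pos.1 hd))
  have h0 : aeval (e X) (f.map C - C X : ℂ[X][X]) = 0 := by
    rw [map_sub, hr, aeval_C, ha, X_comp, sub_self]
  have hi : IsIntegral ℂ[X] (e X) := ⟨_, hm, h0⟩
  have hK : IsIntegral K (e X) := hi.tower_top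
  have hp : (f.map C - C X : ℂ[X][X]).map (algebraMap ℂ[X] K) = minpoly K (e X) :=
    minpoly.eq_of_irreducible_of_monic
      (hm.irreducible_iff_irreducible_map_fraction_map.1 (dg2_irr f))
      (by rw [aeval_map_algebraMap, h0]) (hm.map _)
  have hA : ∀ z, z ∈ Algebra.adjoin ℂ[X] {e X} ↔ z ∈ e.range := fun z => by
    rw [Algebra.adjoin_singleton_eq_range_aeval]
    refine ⟨?_, fun ⟨r, h⟩ => ⟨r.map C, (hr r).trans h⟩⟩
    rintro ⟨G, rfl⟩
    change aeval (e X) G ∈ _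
    rw [aeval_eq_sum_range]
    exact sum_mem fun i _ => by
      rw [Algebra.smul_def, ha]
      exact mul_mem ⟨_, rfl⟩ (pow_mem (e.mem_range_self X) _)
  have hT : IntermediateField.adjoin K {e X} = ⊤ := by
    have : ∀ r, e r ∈ IntermediateField.adjoin K {e X} := fun r => by
      rw [← hr r, ← aeval_map_algebraMap K]
      exact IntermediateField.algebra_adjoin_le_adjoin K _ (aeval_mem_adjoin_singleton K _)
    refine eq_top_iff.2 fun z _ => ?_
    obtain ⟨p, q, rfl⟩ := hs z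
    exact div_mem (this p) (this q)
  have hT' : Algebra.adjoin K {e X} = ⊤ := by
    rw [← IntermediateField.adjoin_simple_toSubalgebra_of_isAlgebraic hK.isAlgebraic, hT]
    rfl
  have hF : Module.Finite K L := by
    have := IntermediateField.adjoin.finiteDimensional hK
    rw [hT] at this
    exact IntermediateField.topEquiv.toLinearEquiv.finiteDimensional
  refine ⟨hF, ?_, fun z => ?_⟩
  · refine ((Field.primitive_element_iff_minpoly_natDegree_eq K (e X)).1 hT).symm.trans ?_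
    rw [← hp, hm.natDegree_map, natDegree_sub_C, hf.natDegree_map]
  have hD := traceForm_dualSubmodule_adjoin ℂ[X] K hT' hi
  have e1 : aeval (e X) (derivative (minpoly K (e X))) = e (derivative f) := by
    rw [← hp, derivative_map, aeval_map_algebraMap, derivative_sub, derivative_C, sub_zero,
      derivative_map, hr]
  have e0 : e (derivative f) ≠ 0 := by
    rw [← e1]
    exact (Algebra.IsSeparable.isSeparable K (e X)).aeval_derivative_ne_zero (minpoly.aeval K _)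
  have := SetLike.ext_iff.1 hD ((e (derivative f))⁻¹ * z)
  rw [e1, ← smul_eq_mul, Submodule.mem_smul_pointwise_iff_exists,
    LinearMap.BilinForm.mem_dualSubmodule] at this
  simp only [smul_eq_mul, mul_right_inj' (inv_ne_zero e0), exists_eq_right, Subalgebra.mem_toSubmodule,
    hA] at this
  rw [← this]
  have e2 : ∀ r, tr ψ (z * e r / e (derivative f)) =
      Algebra.traceForm K L ((e (derivative f))⁻¹ * z) (e r) := fun r => by
    rw [Algebra.traceForm_apply, mul_assoc, ← div_eq_inv_mul]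
    rfl
  simp only [e2, Submodule.mem_one]
  exact ⟨fun h _ ⟨r, hr⟩ => hr ▸ h r, fun h r => h _ ⟨r, rfl⟩⟩

end Pool.Agent.P.MP_68214b_ag.DS
end

-- part Pool.Agent.P.MP_68214b_ag.DG5
section

open Polynomial

namespace Pool.Agent.P.MP_68214b_ag.DS

noncomputable section

variable {L : Type} [Field L] [Algebra ℂ L]

/-- a valuation of L from an embedding and a valuation ring of the algebraic closure -/
def vl (τ : L →+* AlgebraicClosure L) (V : ValuationSubring (AlgebraicClosure L)) :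
    Valuation L V.ValueGroup := V.valuation.comap τ

/-- regular where x is regular -/
def Fn (x : L) : Subring L where
  carrier := {z | ∀ τ V, (vl τ V).IsTrivialOn ℂ → vl τ V x ≤ 1 → vl τ V z ≤ 1}
  one_mem' _ _ _ _ := (map_one _).le
  zero_mem' _ _ _ _ := (map_zero _).trans_le zero_le
  mul_mem' ha hb τ V h1 h2 := (map_mul _ _ _).trans_le (mul_le_one' (ha τ V h1 h2) (hb τ V h1 h2))
  add_mem' ha hb τ V h1 h2 := (vl τ V).map_add_le (ha τ V h1 h2) (hb τ V h1 h2)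
  neg_mem' ha τ V h1 h2 := ((vl τ V).map_neg _).trans_le (ha τ V h1 h2)

/-- at most j times the poles of x -/
def Inf (x : L) (j : ℕ) (z : L) : Prop :=
  ∀ τ V, (vl τ V).IsTrivialOn ℂ → 1 < vl τ V x → vl τ V z ≤ vl τ V x ^ j

/-- L is finite over the rational functions in x -/
structure FF (x : L) (ι : FractionRing ℂ[X] →+* L) : Prop where
  fin : ι.Finite
  map : ∀ p, ι (algebraMap ℂ[X] _ p) = aeval x p

theorem vl_triv {τ τ' : L →+* AlgebraicClosure L} {V : ValuationSubring (AlgebraicClosure L)}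
    (h : ∀ c, τ (algebraMap ℂ L c) = τ' (algebraMap ℂ L c)) (hv : (vl τ' V).IsTrivialOn ℂ) :
    (vl τ V).IsTrivialOn ℂ :=
  ⟨fun c hc => (congrArg V.valuation (h c)).trans (hv.eq_one c hc)⟩

theorem exists_vl {y : L} (hy : Function.Injective (aeval y : ℂ[X] →ₐ[ℂ] L)) (c : ℂ)
    (τ : L →+* AlgebraicClosure L) :
    ∃ V, (vl τ V).IsTrivialOn ℂ ∧ vl τ V (y - algebraMap ℂ L c) < 1 := by
  let g : ℂ[X] →+* AlgebraicClosure L := τ.comp (aeval y : ℂ[X] →ₐ[ℂ] L)
  obtain ⟨V, h1, h2⟩ := Ideal.image_subset_nonunits_valuationSubring (A := g.range)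
    (Ideal.span {g.rangeRestrict (X - C c)}) (by
      rw [Ne, Ideal.eq_top_iff_one, Ideal.mem_span_singleton']
      rintro ⟨a, h⟩
      obtain ⟨q, rfl⟩ := g.rangeRestrict_surjective a
      have h1 : g (q * (X - C c)) = g 1 := by
        rw [map_mul, map_one]; exact congrArg Subtype.val h
      simpa using congrArg (eval c) ((τ.injective.comp hy) h1))
  refine ⟨V, Valuation.IsTrivialOn.of_le_one _ fun a => (V.valuation_le_one_iff _).2
    (h1 ⟨C a, congrArg τ (aeval_C y a)⟩), ?_⟩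
  have := V.mem_nonunits_iff.1 (h2 ⟨_, Ideal.mem_span_singleton_self _, rfl⟩)
  rwa [show g.range.subtype (g.rangeRestrict (X - C c)) = τ (y - algebraMap ℂ L c) from
    congrArg τ (by simp)] at this

theorem Fn_aeval (x : L) (p : ℂ[X]) : aeval x p ∈ Fn x := fun _ _ h1 h2 => v_le1 h1 h2 p

theorem Inf.mul {x a b : L} {i j : ℕ} (ha : Inf x i a) (hb : Inf x j b) : Inf x (i + j) (a * b) :=
  fun τ V h1 h2 => by
    rw [map_mul, pow_add]; exact mul_le_mul' (ha τ V h1 h2) (hb τ V h1 h2)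

theorem Inf.mono {x a : L} {i j : ℕ} (ha : Inf x i a) (h : i ≤ j) : Inf x j a :=
  fun τ V h1 h2 => (ha τ V h1 h2).trans (pow_le_pow_right₀ h2.le h)

theorem Rl.fn {x a : L} {m : ℕ} (h : Rl x a m) : ∃ q : ℂ[X], q ≠ 0 ∧ aeval x q * a ∈ Fn x := by
  obtain ⟨G, hG, -, h⟩ := h
  obtain ⟨s, hs⟩ := exists_cdeg G
  refine ⟨_, leadingCoeff_ne_zero.2 hG, fun τ V h1 h2 => ?_⟩
  rw [map_mul]
  rcases le_total (vl τ V a) 1 with ha | ha
  · exact mul_le_one' (v_le1 h1 h2 _) ha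
  · exact (v_lc h1 h hs le_rfl h2 ha).trans_eq (one_pow _)

theorem Rl.bd {x a : L} {m : ℕ} (h : Rl x a m) : ∃ s, ∀ {Γ : Type} [LinearOrderedCommGroupWithZero Γ]
    (v : Valuation L Γ), v.IsTrivialOn ℂ → 1 < v x → v a ≤ v x ^ s := by
  obtain ⟨G, hG, -, h⟩ := h
  obtain ⟨s, hs⟩ := exists_cdeg G
  refine ⟨s, fun v h1 h2 => ?_⟩
  rcases le_total (v a) 1 with ha | ha
  · exact ha.trans (one_le_pow₀ h2.le)
  · refine le_trans (le_mul_of_one_le_left' ?_) (v_lc h1 h hs h2.le le_rfl ha)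
    rw [v_top h1 h2 (leadingCoeff_ne_zero.2 hG)]
    exact one_le_pow₀ h2.le

theorem Rl.inf {x a : L} {m : ℕ} (h : Rl x a m) : ∃ s, Inf x s a :=
  h.bd.imp fun _ hs τ V => hs (vl τ V)

variable {x : L} {ι : FractionRing ℂ[X] →+* L}

theorem FF.inj (h : FF x ι) : Function.Injective (aeval x : ℂ[X] →ₐ[ℂ] L) := fun p q e =>
  IsFractionRing.injective ℂ[X] (FractionRing ℂ[X]) (ι.injective (by rw [h.map, h.map, e]))

theorem FF.rl (h : FF x ι) (a : L) : Rl x a (rk ι) := by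
  obtain ⟨p, p0, p1, p2⟩ := tr_rel h.fin a
  refine ⟨IsLocalization.integerNormalization (nonZeroDivisors ℂ[X]) p,
    mt IsFractionRing.integerNormalization_eq_zero_iff.1 p0, le_trans ?_ p1, ?_⟩
  · exact natDegree_le_iff_coeff_eq_zero.2 fun n hn => notMem_support_iff.1 fun e =>
      (le_natDegree_of_mem_supp _ (IsLocalization.integerNormalization_support _ p e)).not_gt hn
  · rw [ae_eq, ← IsLocalization.integerNormalization_eval₂_eq_zero (nonZeroDivisors ℂ[X]) ι p p2]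
    congr 1
    exact RingHom.ext fun q => (h.map q).symm

theorem FF.tv (h : FF x ι) (z : L) {τ0 : L →+* AlgebraicClosure L}
    {V : ValuationSubring (AlgebraicClosure L)} (hv : (vl τ0 V).IsTrivialOn ℂ) :
    ∃ τ, (vl τ V).IsTrivialOn ℂ ∧ vl τ V x = vl τ0 V x ∧ vl τ0 V (ι (tr ι z)) ≤ vl τ V z := by
  obtain ⟨τ, h1, h2⟩ := tr_val h.fin (τ0.comp ι) V.valuation z
  have e : ∀ p : ℂ[X], τ (aeval x p) = τ0 (aeval x p) := fun p => by
    rw [← h.map]; exact RingHom.congr_fun h1 _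
  exact ⟨τ, vl_triv (fun c => by simpa using e (C c)) hv,
    congrArg V.valuation (by simpa using e X), h2⟩

theorem FF.tr_fn (h : FF x ι) {z : L} (hz : z ∈ Fn x) :
    tr ι z ∈ (algebraMap ℂ[X] (FractionRing ℂ[X])).range := by
  classical
  obtain ⟨p, q, hq, e⟩ := IsFractionRing.div_surjective ℂ[X] (tr ι z)
  have q0 : q ≠ 0 := nonZeroDivisors.ne_zero hq
  rcases eq_or_ne p 0 with rfl | p0
  · exact ⟨0, by rw [← e, map_zero, zero_div]⟩
  have hd : q ∣ p := (IsAlgClosed.dvd_iff_roots_le_roots q0 p0).2 (Multiset.le_iff_count.2 fun c => by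
    rw [count_roots, count_roots]
    obtain ⟨V, h1, h2⟩ := exists_vl h.inj c (algebraMap L _)
    obtain ⟨τ, t1, t2, t3⟩ := h.tv z h1
    have h3 := t3.trans (hz τ V t1 (t2.trans_le (by
      rw [← sub_add_cancel x (algebraMap ℂ L c)]
      exact Valuation.map_add_le _ h2.le (v_c h1 c))))
    have h4 : 0 < vl (algebraMap L _) V (x - algebraMap ℂ L c) :=
      zero_lt_iff.2 ((Valuation.ne_zero_iff _).2 fun e => X_sub_C_ne_zero c (h.inj (by simpa using e)))
    rw [← e, map_div₀, h.map, h.map, map_div₀, v_rm h1 h2 p0, v_rm h1 h2 q0,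
      div_le_one₀ (pow_pos h4 _)] at h3
    exact (pow_le_pow_iff_right_of_lt_one₀ h4 h2).1 h3)
  obtain ⟨r, rfl⟩ := hd
  exact ⟨r, by
    rw [← e, map_mul, mul_div_cancel_left₀ _ (IsFractionRing.to_map_ne_zero_of_mem_nonZeroDivisors hq)]⟩

theorem FF.tr_inf (h : FF x ι) {z : L} {s : ℕ} (hz : Inf x s z) {p : ℂ[X]}
    (e : algebraMap ℂ[X] (FractionRing ℂ[X]) p = tr ι z) : p.natDegree ≤ s := by
  rcases eq_or_ne p 0 with rfl | p0
  · exact Nat.zero_le _
  have x0 : x ≠ 0 := fun e => X_ne_zero (R := ℂ) (h.inj (by simpa using e))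
  obtain ⟨V, h1, h2⟩ := exists_vl (y := x⁻¹) (transcendental_iff_injective.1 fun e =>
    transcendental_iff_injective.2 h.inj (IsAlgebraic.inv_iff.1 e)) 0 (algebraMap L _)
  rw [map_zero, sub_zero, ← Valuation.one_lt_val_iff _ x0] at h2
  obtain ⟨τ, t1, t2, t3⟩ := h.tv z h1
  have h3 := t3.trans (hz τ V t1 (t2 ▸ h2))
  rw [← e, h.map, v_top h1 h2 p0, t2] at h3
  exact (pow_le_pow_iff_right₀ h2).1 h3

end

end Pool.Agent.P.MP_68214b_ag.DS
end

-- part Pool.Agent.P.MP_68214b_ag.DG6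
section

open Polynomial

namespace Pool.Agent.P.MP_68214b_ag.DS

noncomputable section

variable {L : Type} [Field L] [Algebra ℂ L] {x : L} {ι : FractionRing ℂ[X] →+* L}
  {φ : L →ₐ[ℂ] L} {f : ℂ[X]}

theorem phi_ae (hφ : φ x = aeval x f) (p : ℂ[X]) : φ (aeval x p) = aeval x (p.comp f) := by
  rw [← aeval_algHom_apply, hφ, aeval_comp]

theorem FF.phi (h : FF x ι) (hφ : φ x = aeval x f) (hf : f.Monic) (hd : 0 < f.natDegree) :
    (φ : L →+* L).Finite ∧ rk (φ : L →+* L) = f.natDegree ∧ ∀ z : L,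
      (∀ r : ℂ[X], tr ι (tr (φ : L →+* L) (z * aeval x r / aeval x (derivative f))) ∈
        (algebraMap ℂ[X] (FractionRing ℂ[X])).range) ↔
      tr ι z ∈ (algebraMap ℂ[X] (FractionRing ℂ[X])).range := by
  have hi : Function.Injective ((algebraMap ℂ[X] (FractionRing ℂ[X])).comp (compRingHom f)) :=
    (IsFractionRing.injective _ _).comp ((injective_iff_map_eq_zero (compRingHom f)).2
      fun p hp => (comp_eq_zero_iff.1 hp).resolve_right fun e => by
        have := congrArg natDegree e.2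
        rw [natDegree_C] at this
        omega)
  let ψ : FractionRing ℂ[X] →+* FractionRing ℂ[X] := IsFractionRing.lift hi
  have hψ : ∀ p, ψ (algebraMap ℂ[X] _ p) = algebraMap ℂ[X] _ (p.comp f) :=
    IsFractionRing.lift_algebraMap hi
  have e : (φ : L →+* L).comp ι = ι.comp ψ := IsFractionRing.ringHom_ext (A := ℂ[X]) fun p => by
    rw [RingHom.comp_apply, RingHom.comp_apply, hψ, h.map, h.map, RingHom.coe_coe, phi_ae hφ]
  obtain ⟨h1, h2, h3⟩ := dual ψ (algebraMap ℂ[X] _) hf hd hψ fun z => by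
    obtain ⟨p, q, -, e⟩ := IsFractionRing.div_surjective ℂ[X] z
    exact ⟨p, q, e.symm⟩
  have h4 : (φ : L →+* L).Finite := RingHom.Finite.of_comp_finite (e ▸ h.fin.comp h1)
  refine ⟨h4, ?_, fun z => ?_⟩
  · have := congrArg rk e
    rw [rk_comp, rk_comp, h2, mul_comm] at this
    exact Nat.eq_of_mul_eq_mul_right (rk_pos h.fin) this
  rw [← h3]
  refine forall_congr' fun r => ?_
  rw [← tr_comp h.fin h4, e, tr_comp h1 h.fin, mul_div_assoc, mul_div_assoc, ← h.map, ← h.map,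
    ← map_div₀, mul_comm, tr_mul, mul_comm]

theorem vl_phi {τ : L →+* AlgebraicClosure L} {V : ValuationSubring (AlgebraicClosure L)}
    (hv : (vl τ V).IsTrivialOn ℂ) : (vl (τ.comp φ) V).IsTrivialOn ℂ :=
  vl_triv (fun c => congrArg τ (φ.commutes c)) hv

theorem phi_tv (h : (φ : L →+* L).Finite) (z : L) {τ0 : L →+* AlgebraicClosure L}
    {V : ValuationSubring (AlgebraicClosure L)} (hv : (vl τ0 V).IsTrivialOn ℂ) :
    ∃ τ, (vl τ V).IsTrivialOn ℂ ∧ (∀ y, vl τ V (φ y) = vl τ0 V y) ∧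
      vl τ0 V (tr (φ : L →+* L) z) ≤ vl τ V z := by
  have : CharZero L := charZero_of_injective_algebraMap (algebraMap ℂ L).injective
  obtain ⟨τ, h1, h2⟩ := tr_val h τ0 V.valuation z
  have e : ∀ y, τ (φ y) = τ0 y := RingHom.congr_fun h1
  exact ⟨τ, vl_triv (fun c => by rw [← e, φ.commutes]) hv, fun y => congrArg V.valuation (e y), h2⟩

theorem Fn_phi (hφ : φ x = aeval x f) {z : L} (hz : z ∈ Fn x) : φ z ∈ Fn x := fun τ V h1 h2 =>
  hz (τ.comp φ) V (vl_phi h1) (show vl τ V (φ x) ≤ 1 from hφ ▸ v_le1 h1 h2 f)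

theorem Fn_tr (h : (φ : L →+* L).Finite) (hφ : φ x = aeval x f) (hd : 0 < f.natDegree) {z : L}
    (hz : z ∈ Fn x) : tr (φ : L →+* L) z ∈ Fn x := fun τ0 V h1 h2 => by
  obtain ⟨τ, t1, t2, t3⟩ := phi_tv h z h1
  refine t3.trans (hz τ V t1 (le_of_not_gt fun hc => ?_))
  rw [← t2, hφ, v_top t1 hc (ne_zero_of_natDegree_gt hd)] at h2
  exact (one_lt_pow₀ hc hd.ne').not_ge h2

/-- the differentials a dx with at most simple poles, all at infinity -/
def Wd (x : L) (ι : FractionRing ℂ[X] →+* L) : Submodule ℂ L where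
  carrier := {a | (∀ h ∈ Fn x, tr ι (a * h) ∈ (algebraMap ℂ[X] (FractionRing ℂ[X])).range) ∧
    Inf x 0 (x * a)}
  zero_mem' := ⟨fun _ _ => by rw [zero_mul, map_zero]; exact zero_mem _,
    fun τ V _ _ => by rw [mul_zero, map_zero]; exact zero_le⟩
  add_mem' ha hb := ⟨fun h hh => by rw [add_mul, map_add]; exact add_mem (ha.1 h hh) (hb.1 h hh),
    fun τ V h1 h2 => by rw [mul_add]; exact (vl τ V).map_add_le (ha.2 τ V h1 h2) (hb.2 τ V h1 h2)⟩
  smul_mem' c a ha := ⟨fun h hh => by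
      rw [Algebra.smul_def, mul_comm _ a, mul_assoc, ← aeval_C x]
      exact ha.1 _ (mul_mem (Fn_aeval x _) hh),
    fun τ V h1 h2 => by
      rw [Algebra.smul_def, mul_left_comm, map_mul]
      exact (mul_le_of_le_one_left' (v_c h1 c)).trans (ha.2 τ V h1 h2)⟩

theorem dg6_der (hd : 0 < f.natDegree) : derivative f ≠ 0 := derivative_ne_zero.2 hd.ne'

theorem v_der {Γ : Type*} [LinearOrderedCommGroupWithZero Γ] {v : Valuation L Γ}
    (hv : v.IsTrivialOn ℂ) (hx : 1 < v x) (hd : 0 < f.natDegree) :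
    v x * v (aeval x (derivative f)) = v (aeval x f) := by
  rw [v_top hv hx (dg6_der hd), v_top hv hx (ne_zero_of_natDegree_gt hd), natDegree_derivative,
    ← pow_succ', Nat.sub_add_cancel hd]

theorem FF.pull (h : FF x ι) (hφ : φ x = aeval x f) (hf : f.Monic) (hd : 0 < f.natDegree) {a : L}
    (ha : a ∈ Wd x ι) : φ a * aeval x (derivative f) ∈ Wd x ι := by
  obtain ⟨h1, -, h3⟩ := h.phi hφ hf hd
  have d0 : aeval x (derivative f) ≠ 0 := (map_ne_zero_iff _ h.inj).2 (dg6_der hd)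
  refine ⟨fun y hy => (h3 _).1 fun r => ?_, fun τ V t1 t2 => ?_⟩
  · rw [show φ a * aeval x (derivative f) * y * aeval x r / aeval x (derivative f) =
      (φ : L →+* L) a * (y * aeval x r) by rw [RingHom.coe_coe]; field_simp, tr_mul]
    exact ha.1 _ (Fn_tr h1 hφ hd (mul_mem hy (Fn_aeval x r)))
  · have := ha.2 (τ.comp φ) V (vl_phi t1) (show 1 < vl τ V (φ x) by
      rw [hφ, v_top t1 t2 hf.ne_zero]; exact one_lt_pow₀ t2 hd.ne')
    rw [pow_zero] at this ⊢
    rw [mul_left_comm, map_mul, map_mul, v_der t1 t2 hd, ← hφ, ← map_mul, ← map_mul, mul_comm]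
    exact this

theorem FF.push (h : FF x ι) (hφ : φ x = aeval x f) (hf : f.Monic) {a : L} (ha : a ∈ Fn x) {j : ℕ}
    (hj : Inf x j (x * a)) (hD : rk ι * j < f.natDegree) :
    tr (φ : L →+* L) (a / aeval x (derivative f)) ∈ Wd x ι := by
  have hd : 0 < f.natDegree := by omega
  obtain ⟨h1, -, h3⟩ := h.phi hφ hf hd
  refine ⟨fun y hy => ?_, fun τ0 V t1 t2 => ?_⟩
  · rw [mul_comm, ← tr_mul]
    have := (h3 _).2 (h.tr_fn (mul_mem (Fn_phi hφ hy) ha)) 1
    rwa [map_one, mul_one, mul_div_assoc] at this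
  rw [← tr_mul, pow_zero]
  obtain ⟨τ, s1, s2, s3⟩ := phi_tv h1 ((φ : L →+* L) x * (a / aeval x (derivative f))) t1
  generalize tr (φ : L →+* L) _ = T at s3 ⊢
  have s4 : 1 < vl τ V x := lt_of_not_ge fun hc => by
    rw [← s2, hφ] at t2
    exact t2.not_ge (v_le1 s1 hc f)
  have d0 : vl τ V (aeval x (derivative f)) ≠ 0 :=
    (Valuation.ne_zero_iff _).2 ((map_ne_zero_iff _ h.inj).2 (dg6_der hd))
  rw [RingHom.coe_coe, hφ, map_mul, map_div₀, ← v_der s1 s4 hd, mul_assoc, mul_div_cancel₀ _ d0,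
    ← map_mul] at s3
  have s5 := pow_le_pow_left₀ zero_le (s3.trans (hj τ V s1 s4)) f.natDegree
  rw [← pow_mul, mul_comm, pow_mul, ← v_top s1 s4 hf.ne_zero, ← hφ, s2] at s5
  refine le_of_not_gt fun hc => ?_
  obtain ⟨t, n1, n2, t0, tm, e⟩ := v_tie t1 t2
    ((Valuation.ne_zero_iff _).1 (zero_lt_one.trans hc).ne') (h.rl T)
  have p0 : 0 < vl τ0 V x ^ n1 := pow_pos (zero_lt_one.trans t2) _
  have s6 : n1 + 1 ≤ n2 := (pow_lt_pow_iff_right₀ t2).1
    (e ▸ lt_mul_of_one_lt_left p0 (one_lt_pow₀ hc t0.ne'))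
  have s7 : vl τ0 V x ≤ vl τ0 V T ^ rk ι := by
    refine le_trans (le_of_mul_le_mul_right ?_ p0) (pow_le_pow_right₀ hc.le tm)
    rw [e, ← pow_succ']
    exact pow_le_pow_right₀ t2.le s6
  have s8 := s5.trans (pow_le_pow_left₀ zero_le s7 j)
  rw [← pow_mul] at s8
  exact hD.not_ge ((pow_le_pow_iff_right₀ hc).1 s8)

theorem FF.fd (h : FF x ι) : FiniteDimensional ℂ (Wd x ι) := by
  obtain ⟨b, hb⟩ := tr_nd h.fin
  choose q q0 hq using fun i => (h.rl (b i)).fn
  choose s hs using fun i => (h.rl (aeval x (q i) * b i)).inf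
  obtain ⟨S, hS⟩ := (Set.finite_range s).bddAbove
  choose p hp using fun (a : Wd x ι) i => a.2.1 _ (hq i)
  have inj := IsFractionRing.injective ℂ[X] (FractionRing ℂ[X])
  have hd : ∀ a i, (p a i).natDegree ≤ S := fun a i => by
    have h1 := (a.2.2.mul (hs i)).mono (show 0 + s i ≤ S by simpa using hS ⟨i, rfl⟩)
    have := h.tr_inf h1 (p := X * p a i) (by
      rw [map_mul, hp, ← tr_mul, h.map, aeval_X, mul_assoc])
    by_cases h0 : p a i = 0
    · simp [h0]
    · rw [natDegree_X_mul h0] at this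
      omega
  let F : Wd x ι →ₗ[ℂ] (Fin (rk ι) → degreeLE ℂ S) :=
    { toFun := fun a i => ⟨p a i, mem_degreeLE.2 (degree_le_of_natDegree_le (hd a i))⟩
      map_add' := fun a a' => funext fun i => Subtype.ext (inj (by
        simp only [Pi.add_apply, Submodule.coe_add, map_add, hp, add_mul]))
      map_smul' := fun c a => funext fun i => Subtype.ext (inj (by
        simp only [Pi.smul_apply, Submodule.coe_smul, RingHom.id_apply, hp]
        rw [smul_eq_C_mul, map_mul (algebraMap ℂ[X] _), hp, ← tr_mul, h.map, aeval_C, Algebra.smul_def, mul_assoc])) }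
  have : FiniteDimensional ℂ (degreeLE ℂ S) := by
    rw [← degreeLT_succ_eq_degreeLE]; infer_instance
  refine FiniteDimensional.of_injective F ((injective_iff_map_eq_zero F).2 fun a ha => Subtype.ext
    (hb (fun i => algebraMap ℂ[X] _ (q i)) a (fun i => (map_ne_zero_iff _ inj).2 (q0 i)) fun i => ?_))
  rw [h.map, ← hp, show p a i = 0 from congrArg Subtype.val (congrFun ha i), map_zero]

end

end Pool.Agent.P.MP_68214b_ag.DS
end

-- part Pool.Agent.P.MP_68214b_ag.DSDef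
section

open Polynomial Filter Asymptotics NumberField

namespace Pool.Agent.P.MP_68214b_ag.DS

noncomputable section

/-- affinely conjugate to a power map or to plus or minus a Chebyshev polynomial -/
def Special (f : ℂ[X]) : Prop :=
  ∃ a b : ℂ, a ≠ 0 ∧ ∃ T : ℂ[X],
    (T = X ^ f.natDegree ∨ T = Chebyshev.T ℂ f.natDegree ∨ T = -Chebyshev.T ℂ f.natDegree) ∧
    f.comp (C a * X + C b) = C a * T + C b

/-- the differential identity of the special polynomials -/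
def Exc {K : Type*} [Field K] (f : K[X]) : Prop :=
  ∃ s p : K, C ((f.natDegree : K) ^ 2) * (f ^ 2 - C s * f + C p) =
    (X ^ 2 - C s * X + C p) * derivative f ^ 2

/-- local degree -/
def em (g : ℂ[X]) (c : ℂ) : ℕ := rootMultiplicity c (g - C (g.eval c))

/-- orbifold function -/
def Orbi (g : ℂ[X]) : Prop :=
  ∃ (e : ℤ) (ν : ℂ → ℤ), 0 < e ∧ {c | ν c ≠ e}.Finite ∧ ∀ c, ν c = em g c * ν (g.eval c)

/-- no finite backward invariant set -/
def NoTot (g : ℂ[X]) : Prop :=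
  ∀ E : Set ℂ, E.Finite → E.Nonempty → ∃ c, g.eval c ∈ E ∧ c ∉ E

structure NS (g : ℂ[X]) : Prop where
  tot : NoTot g
  orb : ¬ Orbi g

/-- iterate -/
def iter {R : Type*} [CommRing R] (f : R[X]) (l : ℕ) : R[X] := f.comp^[l] X

/-- non special at every place -/
def NSa {K : Type*} [Field K] (f : K[X]) : Prop := ∀ σ : K →+* ℂ, NS (f.map σ)

/-- bounded denominators -/
def Den {K : Type*} [Field K] (x : ℕ → K) : Prop :=
  ∃ N : ℕ, 0 < N ∧ ∀ n, IsIntegral ℤ ((N : K) * x n)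

/-- an orbit of a monic polynomial -/
structure Orb {K : Type*} [Field K] (f : K[X]) (x : ℕ → K) : Prop where
  monic : f.Monic
  deg : 2 ≤ f.natDegree
  step : ∀ n, x (n + 1) = f.eval (x n)

/-- substitution of t ^ d -/
def ex {R : Type*} [CommRing R] (d : ℕ) (p : PowerSeries R) : PowerSeries R :=
  PowerSeries.subst (PowerSeries.X ^ d : PowerSeries R) p

theorem ex_eq {R : Type*} [CommRing R] {d : ℕ} (hd : d ≠ 0) (p : PowerSeries R) :
    ex d p = PowerSeries.expand d hd p := (PowerSeries.expand_apply d hd p).symm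

/-- formal Boettcher equation -/
def Bott {K : Type*} [CommRing K] (f : K[X]) (p : PowerSeries K) : Prop :=
  ∑ j ∈ Finset.range (f.natDegree + 1),
    PowerSeries.C (f.coeff j) * PowerSeries.X ^ (f.natDegree - j) * p ^ j = ex f.natDegree p

/-- the series β p(t ^ a / β) -/
def ser {F : Type*} [Field F] (p : PowerSeries F) (a : ℕ) (β : F) : PowerSeries F :=
  PowerSeries.C β * ex a (PowerSeries.rescale β⁻¹ p)

/-- asymptotic expansion to order T -/
def As (𝓕 : Filter ℕ) (t : ℕ → ℂ) (T : ℕ) (a : ℕ → ℂ) (π : PowerSeries ℂ) : Prop :=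
  (fun n => a n - (PowerSeries.trunc T π).eval (t n)) =O[𝓕] fun n => t n ^ T

/-- escape with Boettcher coordinate u -/
structure Esc {K : Type*} [Field K] (σ : K →+* ℂ) (d : ℕ) (x : ℕ → K) (p : PowerSeries K)
    (u : ℂ) : Prop where
  one_lt : 1 < ‖u‖
  c0 : PowerSeries.constantCoeff p = 1
  app : ∀ T, As atTop (fun n => (u ^ d ^ n)⁻¹) T (fun n => σ (x n) * (u ^ d ^ n)⁻¹)
    (PowerSeries.map σ p)

def Rel (u v : ℂ) : Prop := ∃ a b : ℕ, 0 < a ∧ 0 < b ∧ u ^ a = v ^ b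

def Alg0 {K : Type*} [Field K] (a : ℕ → K) : Prop :=
  ∃ g : K[X], g ≠ 0 ∧ ∀ᶠ n in atTop, g.eval (a n) = 0

def Dep {K : Type*} [Field K] (a b : ℕ → K) : Prop :=
  ∃ G : K[X][X], G ≠ 0 ∧ ∀ᶠ n in atTop, G.evalEval (a n) (b n) = 0

/-- P vanishes on the tail -/
def Van {K J : Type*} [Field K] (x : J → ℕ → K) (P : MvPolynomial J K) : Prop :=
  ∀ᶠ n in atTop, MvPolynomial.eval (fun i => x i n) P = 0

def Dom {K J : Type*} [Field K] (x : J → ℕ → K) : Prop :=
  ∀ P Q : MvPolynomial J K, Van x (P * Q) → Van x P ∨ Van x Q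

def DomA {K : Type*} [Field K] (A : Subalgebra K (ℕ → K)) : Prop :=
  ∀ a ∈ A, ∀ b ∈ A, (∀ᶠ n in atTop, a n * b n = 0) →
    (∀ᶠ n in atTop, a n = 0) ∨ ∀ᶠ n in atTop, b n = 0

/-- bounded at the place σ -/
def Bdd {K : Type*} [Field K] (σ : K →+* ℂ) (x : ℕ → K) : Prop := ∃ B : ℝ, ∀ n, ‖σ (x n)‖ ≤ B

/-- conjugation of every place comes from K -/
def Cj (K : Type*) [Field K] : Prop :=
  ∀ σ : K →+* ℂ, ∃ c : K →+* K, ∀ x, σ (c x) = (starRingEnd ℂ) (σ x)

/-- the split map on polynomials -/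
def phi {K J : Type*} [CommRing K] (g : J → K[X]) : MvPolynomial J K →ₐ[K] MvPolynomial J K :=
  MvPolynomial.aeval fun i => Polynomial.aeval (MvPolynomial.X i : MvPolynomial J K) (g i)

/-- ring seminorm -/
structure Sn (R : Type*) [CommRing R] where
  f : R → ℝ
  zero : f 0 = 0
  one : f 1 ≤ 1
  neg : ∀ a, f (-a) = f a
  add : ∀ a b, f (a + b) ≤ f a + f b
  mul : ∀ a b, f (a * b) ≤ f a * f b

namespace Sn
variable {R : Type*} [CommRing R] (ν : Sn R)

theorem nonneg (a : R) : 0 ≤ ν.f a := by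
  have := ν.add a (-a)
  rw [add_neg_cancel, ν.zero, ν.neg] at this
  linarith

theorem sum_le {ι : Type*} (s : Finset ι) (g : ι → R) :
    ν.f (∑ i ∈ s, g i) ≤ ∑ i ∈ s, ν.f (g i) :=
  Finset.le_sum_of_subadditive ν.f ν.zero.le ν.add s g

theorem l1_aux (p : R[X]) {s : Finset ℕ} (hs : p.support ⊆ s) :
    ∑ i ∈ p.support, ν.f (p.coeff i) = ∑ i ∈ s, ν.f (p.coeff i) :=
  Finset.sum_subset hs fun i _ hi => by rw [notMem_support_iff.1 hi, ν.zero]

theorem l1_add (p q : R[X]) : ∑ i ∈ (p + q).support, ν.f ((p + q).coeff i) ≤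
    ∑ i ∈ p.support, ν.f (p.coeff i) + ∑ i ∈ q.support, ν.f (q.coeff i) := by
  rw [ν.l1_aux (p + q) support_add, ν.l1_aux p Finset.subset_union_left,
    ν.l1_aux q Finset.subset_union_right, ← Finset.sum_add_distrib]
  exact Finset.sum_le_sum fun i _ => by rw [coeff_add]; exact ν.add _ _

theorem l1_mon (k : ℕ) (a : R) :
    ∑ i ∈ (monomial k a).support, ν.f ((monomial k a).coeff i) = ν.f a := by
  rw [ν.l1_aux _ (support_monomial_subset k a)]; simp

/-- the l1 seminorm on polynomials -/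
def l1 : Sn R[X] where
  f p := ∑ i ∈ p.support, ν.f (p.coeff i)
  zero := by simp
  one := by rw [← monomial_zero_one, ν.l1_mon]; exact ν.one
  neg p := by simp [ν.neg]
  add := ν.l1_add
  mul p q := by
    have S : ∀ (s : Finset ℕ) (g : ℕ → R[X]),
        ∑ i ∈ (∑ k ∈ s, g k).support, ν.f ((∑ k ∈ s, g k).coeff i) ≤
          ∑ k ∈ s, ∑ i ∈ (g k).support, ν.f ((g k).coeff i) := fun s g =>
      Finset.le_sum_of_subadditive (fun p : R[X] => ∑ i ∈ p.support, ν.f (p.coeff i))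
        (by simp) ν.l1_add s g
    rw [mul_eq_sum_sum, Finset.sum_mul_sum]
    refine (S _ _).trans (Finset.sum_le_sum fun i _ => ?_)
    refine (S _ _).trans (Finset.sum_le_sum fun j _ => ?_)
    rw [ν.l1_mon]; exact ν.mul _ _

/-- the l1 seminorm in two variables -/
abbrev l2 : Sn R[X][X] := ν.l1.l1

end Sn

def nC : Sn ℂ := ⟨fun a => ‖a‖, norm_zero, norm_one.le, norm_neg, norm_add_le, norm_mul_le⟩

def nZ : Sn ℤ := ⟨fun a => |(a : ℝ)|, by simp, by simp, by simp,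
  fun a b => by push_cast; exact abs_add_le _ _, fun a b => by push_cast; exact (abs_mul _ _).le⟩

def nH (K : Type*) [Field K] [NumberField K] : Sn K :=
  ⟨house, by simp [house], by simp [house], fun a => by simp [house], house_add_le, house_mul_le⟩

def nO (K : Type*) [Field K] [NumberField K] : Sn (𝓞 K) :=
  ⟨fun a => house (a : K), by simp [house], by simp [house], fun a => by simp [house],
    fun a b => by push_cast; exact house_add_le _ _, fun a b => by push_cast; exact house_mul_le _ _⟩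

/-- Liouville data -/
structure LV {R : Type*} [CommRing R] (ν : Sn R) (σ : R →+* ℂ) (r : ℕ) : Prop where
  le : ∀ a, ‖σ a‖ ≤ ν.f a
  liou : ∀ a, a ≠ 0 → 1 ≤ ‖σ a‖ * ν.f a ^ r

/-- coefficientwise map in two variables -/
abbrev map2 {R S : Type*} [CommRing R] [CommRing S] (φ : R →+* S) : R[X][X] →+* S[X][X] :=
  mapRingHom (mapRingHom φ)

/-- evaluation in two variables, x inner and y outer -/
abbrev ev2 {R S : Type*} [CommRing R] [CommRing S] (φ : R →+* S) (x y : S) : R[X][X] →+* S :=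
  eval₂RingHom (eval₂RingHom φ x) y

/-- derivative in the inner variable -/
def dX {R : Type*} [CommRing R] (W : R[X][X]) : R[X][X] :=
  W.sum fun j a => monomial j (derivative a)

/-- the derivation g dX + h dY -/
def der {R : Type*} [CommRing R] (g h : R[X][X]) (W : R[X][X]) : R[X][X] :=
  g * dX W + h * derivative W

/-- bidegree bound, inner and outer -/
def Bd {R : Type*} [CommRing R] (W : R[X][X]) (D1 D2 : ℕ) : Prop :=
  (∀ j, (W.coeff j).natDegree ≤ D1) ∧ W.natDegree ≤ D2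

/-- maximal ideal of a point -/
def mI (y1 y2 : ℂ) : Ideal ℂ[X][X] := Ideal.span {C (X - C y1), X - C (C y2)}

/-- Taylor coefficient -/
def tc {R : Type*} [CommRing R] (y1 y2 : R) (W : R[X][X]) (i j : ℕ) : R :=
  (taylor y1 ((taylor (C y2) W).coeff j)).coeff i

structure IsDer {A : Type*} [CommRing A] (δ : A → A) : Prop where
  add : ∀ a b, δ (a + b) = δ a + δ b
  mul : ∀ a b, δ (a * b) = a * δ b + δ a * b

/-- Wronskian -/
def wr {A : Type*} [CommRing A] (δ : A → A) {n : ℕ} (a : Fin n → A) : A :=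
  (Matrix.of fun j i : Fin n => δ^[j] (a i)).det

/-- homogenised substitution -/
def hom2 {R S : Type*} [CommRing R] [CommRing S] (φ : R →+* S) (a b D : ℕ) (P1 P2 t : S)
    (G : R[X][X]) : S :=
  ∑ j ∈ Finset.range (D + 1), ∑ i ∈ Finset.range (D + 1),
    φ ((G.coeff j).coeff i) * (P1 ^ i * t ^ (b * (D - i))) * (P2 ^ j * t ^ (a * (D - j)))

/-- the combination of the family P with coefficients c -/
def cmb {R S ι : Type*} [CommRing R] [CommRing S] [Fintype ι] (φ : R →+* S) (P : ι → R[X][X])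
    (c : ι → S) : S[X][X] := ∑ k, C (C (c k)) * map2 φ (P k)

/-- monomials of the second point -/
def mon {S : Type*} [CommRing S] (D0 : ℕ) (y1 y2 : S) (k : Fin (D0 + 1) × Fin (D0 + 1)) : S :=
  y1 ^ (k.1 : ℕ) * y2 ^ (k.2 : ℕ)

/-- approximation of a point by the curve with parameter τ -/
def Apx (a b T : ℕ) (π1 π2 : ℂ[X]) (C0 : ℝ) (τ z1 z2 : ℂ) : Prop :=
  ‖z1 * τ ^ b - π1.eval τ‖ ≤ C0 * ‖τ‖ ^ T ∧ ‖z2 * τ ^ a - π2.eval τ‖ ≤ C0 * ‖τ‖ ^ T

/-- γ ^ d ^ m is close to β for infinitely many m -/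
def Near (d : ℕ) (τ γ β : ℂ) (T : ℕ) : Prop :=
  ∃ C : ℝ, ∃ᶠ m in atTop, ‖γ ^ d ^ m - β‖ ≤ C * ‖τ ^ d ^ m‖ ^ T

/-- small growth -/
def Sml (𝓕 : Filter ℕ) (d : ℕ) (r : ℕ → ℂ) : Prop :=
  ∀ ρ : ℝ, 1 < ρ → r =O[𝓕] fun n => ρ ^ d ^ n

/-- exact leading term -/
structure Big (𝓕 : Filter ℕ) (d : ℕ) (r : ℕ → ℂ) (α s : ℂ) (E : ℕ) : Prop where
  s1 : 1 < ‖s‖
  a0 : α ≠ 0
  e1 : 0 < E
  app : (fun n => r n - α * (s ^ E) ^ d ^ n) =O[𝓕] fun n => (‖s‖ ^ (E - 1)) ^ d ^ n

/-- substitution X ↦ y + s, Y ↦ η -/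
def hat (y : ℂ) (η : PowerSeries ℂ) : ℂ[X][X] →+* PowerSeries ℂ :=
  eval₂RingHom (Polynomial.coeToPowerSeries.ringHom.comp (taylorAlgHom y : ℂ[X] →+* ℂ[X])) η

/-- the ideal generated by the variable -/
def sI : Ideal (PowerSeries ℂ) := Ideal.span {PowerSeries.X}

/-- integers into the complex numbers -/
abbrev zc : ℤ →+* ℂ := Int.castRingHom ℂ

/-- the counting condition for the auxiliary polynomial -/
def Cnt (ϱ Th T D0 D D2 : ℕ) : Prop :=
  2 * ϱ * (Th * D0) * (Th * D) * (Th * D / (T - 1) + 1) ≤ (D + 1) * (D2 + 1) * (D0 + 1) ^ 2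

/-- evaluation on the formal curve -/
def evb {K F : Type*} [Field K] [Field F] (ι : K →+* F) (a b : ℕ) (P1 P2 : PowerSeries F) :
    K[X][X] →+* FractionRing (PowerSeries F) :=
  ev2 ((algebraMap (PowerSeries F) (FractionRing (PowerSeries F))).comp (PowerSeries.C.comp ι))
    (algebraMap (PowerSeries F) _ P1 / algebraMap (PowerSeries F) _ PowerSeries.X ^ b)
    (algebraMap (PowerSeries F) _ P2 / algebraMap (PowerSeries F) _ PowerSeries.X ^ a)

/-- evaluation on the curve attached to β -/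
def evc {K F : Type*} [Field K] [Field F] (ι : K →+* F) (a b : ℕ) (p1 p2 : PowerSeries K) (β : F) :
    K[X][X] →+* FractionRing (PowerSeries F) :=
  evb ι a b (ser (PowerSeries.map ι p1) b 1) (ser (PowerSeries.map ι p2) a β)

/-- the split map in two variables -/
def phi2 {K : Type*} [CommRing K] (f1 f2 : K[X]) : K[X][X] →+* K[X][X] :=
  ev2 (C.comp C) (C f1) (f2.map C)

/-- a pair of escaping orbits with the parameters τ and γ -/
structure Pr {K : Type*} [Field K] (σ : K →+* ℂ) (d a b : ℕ) (f1 f2 : K[X]) (y1 y2 : ℕ → K)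
    (p1 p2 : PowerSeries K) (τ γ : ℂ) : Prop where
  o1 : Orb f1 y1
  o2 : Orb f2 y2
  d1 : f1.natDegree = d
  d2 : f2.natDegree = d
  b1 : Bott f1 p1
  b2 : Bott f2 p2
  ha : 0 < a
  hb : 0 < b
  e1 : ∃ u, Esc σ d y1 p1 u ∧ u * τ ^ b = 1
  e2 : ∃ u, Esc σ d y2 p2 u ∧ u * τ ^ a = γ
  γ1 : ‖γ‖ = 1

/-- a class with exact leading term -/
def BigC {K : Type*} [Field K] (σ : K →+* ℂ) (𝓕 : Filter ℕ) (d : ℕ) (f : K[X]) (x : ℕ → K)
    (r : ℕ → ℂ) : Prop :=
  f.natDegree = d ∧ ∃ (p : PowerSeries K) (u s α : ℂ) (A E : ℕ), Bott f p ∧ Esc σ d x p u ∧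
    0 < A ∧ s ^ A = u ∧ IsAlgebraic ℚ α ∧ Big 𝓕 d r α s E

end

end Pool.Agent.P.MP_68214b_ag.DS
end

-- part Pool.Agent.P.MP_68214b_ag.DSM1
section

open Polynomial Filter Asymptotics NumberField Topology

namespace Pool.Agent.P.MP_68214b_ag.DS

theorem dsm1_field {B E : Type*} [CommRing B] [IsDomain B] [Field E] [Algebra B E]
    (hinj : Function.Injective (algebraMap B E)) (φ : E →+* E) (φB : B →+* B)
    (hc : ∀ b, φ (algebraMap B E b) = algebraMap B E (φB b)) {R : E} (hR : R ≠ 0)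
    (halg : IsAlgebraic B R) {γ δ : B}
    (e1 : φ R * algebraMap B E γ = R * algebraMap B E δ) :
    ∃ (e : ℕ) (a b : B), 0 < e ∧ a ≠ 0 ∧ b ≠ 0 ∧ φB a * b * γ ^ e = a * φB b * δ ^ e := by
  classical
  have hex : ∃ n, ∃ m : B[X], m ≠ 0 ∧ aeval R m = 0 ∧ m.natDegree = n := by
    obtain ⟨m, h1, h2⟩ := halg
    exact ⟨_, m, h1, h2, rfl⟩
  obtain ⟨m, hm, hmR, hdeg⟩ := Nat.find_spec hex
  have hmin : ∀ q : B[X], aeval R q = 0 → q.natDegree < m.natDegree → q = 0 := fun q h1 h2 => by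
    by_contra h0
    exact Nat.find_min hex (hdeg ▸ h2) ⟨q, h0, h1, rfl⟩
  set e := m.natDegree with he
  have hb : m.coeff e ≠ 0 := leadingCoeff_ne_zero.2 hm
  have hpos : 0 < e := by
    by_contra h0
    have h0' : e = 0 := by omega
    rw [eq_C_of_natDegree_eq_zero h0', aeval_C, map_eq_zero_iff _ hinj] at hmR
    exact hb (h0' ▸ hmR)
  have ha : m.coeff 0 ≠ 0 := fun h0 => by
    have h1 : m = X * m.divX := by
      have := X_mul_divX_add m
      rwa [h0, C_0, add_zero, eq_comm] at this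
    have h2 : aeval R m.divX = 0 := by
      rw [h1, map_mul, aeval_X] at hmR
      exact (mul_eq_zero.1 hmR).resolve_left hR
    have h3 := hmin _ h2 (by rw [natDegree_divX_eq_natDegree_tsub_one]; omega)
    rw [h3, mul_zero] at h1
    exact hm h1
  set m' : B[X] := ∑ t ∈ Finset.range (e + 1), monomial t (φB (m.coeff t) * γ ^ (e - t) * δ ^ t)
    with hm'
  have hco : ∀ t, m'.coeff t =
      if t ≤ e then φB (m.coeff t) * γ ^ (e - t) * δ ^ t else 0 := fun t => by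
    simp only [hm', finsetSum_coeff, coeff_monomial, Finset.sum_ite_eq', Finset.mem_range,
      Nat.lt_succ_iff]
  have hR' : aeval R m' = 0 := by
    have h1 := congrArg φ hmR
    rw [aeval_eq_sum_range, map_sum, map_zero] at h1
    have h2 := congrArg (· * algebraMap B E γ ^ e) h1
    simp only [zero_mul, Finset.sum_mul] at h2
    rw [hm', map_sum, ← h2]
    refine Finset.sum_congr rfl fun t ht => ?_
    have ht' : t ≤ e := Nat.lt_succ_iff.1 (Finset.mem_range.1 ht)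
    obtain ⟨k, hk⟩ := Nat.exists_eq_add_of_le ht'
    have h3 : φ R ^ t * algebraMap B E γ ^ t = R ^ t * algebraMap B E δ ^ t := by
      rw [← mul_pow, e1, mul_pow]
    rw [aeval_monomial, Algebra.smul_def, map_mul φ, hc, map_pow φ, hk, Nat.add_sub_cancel_left,
      pow_add]
    simp only [map_mul, map_pow]
    linear_combination (-(algebraMap B E (φB (m.coeff t)) * algebraMap B E γ ^ k)) * h3
  have hq : C (m.coeff e) * m' - C (m'.coeff e) * m = 0 := by
    refine hmin _ (by simp [hR', hmR]) ?_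
    have : (C (m.coeff e) * m' - C (m'.coeff e) * m).natDegree ≤ e - 1 := by
      rw [natDegree_le_iff_coeff_eq_zero]
      intro N hN
      rw [coeff_sub, coeff_C_mul, coeff_C_mul]
      rcases (show N = e ∨ e < N by omega) with rfl | h
      · ring
      · rw [hco N, if_neg (by omega), coeff_eq_zero_of_natDegree_lt h]; ring
    omega
  refine ⟨e, m.coeff 0, m.coeff e, hpos, ha, hb, ?_⟩
  have := congrArg (fun q => q.coeff 0) hq
  simp only [coeff_sub, coeff_C_mul, coeff_zero] at this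
  rw [hco 0, hco e, if_pos (Nat.zero_le _), if_pos le_rfl] at this
  simp only [Nat.sub_zero, pow_zero, Nat.sub_self, mul_one] at this
  linear_combination this

theorem ms1 {A B : Type*} [CommRing A] [IsDomain A] [CommRing B] [IsDomain B] [Algebra B A]
    [FaithfulSMul B A] [Algebra.IsAlgebraic B A] (φA : A →+* A) (φB : B →+* B)
    (hc : ∀ b, φA (algebraMap B A b) = algebraMap B A (φB b)) (hφ : Function.Injective φA)
    {α β h : A} (hα : α ≠ 0) (hβ : β ≠ 0) {γ δ : B} (hγ : γ ≠ 0) (hδ : δ ≠ 0)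
    (e1 : φA α * algebraMap B A γ = α * h) (e2 : φA β * algebraMap B A δ = β * h) :
    ∃ (e : ℕ) (a b : B), 0 < e ∧ a ≠ 0 ∧ b ≠ 0 ∧ φB a * b * γ ^ e = a * φB b * δ ^ e := by
  let E := FractionRing A
  have hA : Function.Injective (algebraMap A E) := IsFractionRing.injective A E
  have hB : Function.Injective (algebraMap B A) := FaithfulSMul.algebraMap_injective B A
  have ht : ∀ b, algebraMap B E b = algebraMap A E (algebraMap B A b) := fun b =>
    IsScalarTower.algebraMap_apply B A E b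
  have hinj : Function.Injective (algebraMap B E) := fun x y e => hB (hA (by rw [← ht, ← ht, e]))
  have hg : Function.Injective ((algebraMap A E).comp φA) := hA.comp hφ
  let φ : E →+* E := IsFractionRing.lift hg
  have hφ' : ∀ a, φ (algebraMap A E a) = algebraMap A E (φA a) := fun a =>
    IsFractionRing.lift_algebraMap hg a
  have n1 : algebraMap A E α ≠ 0 := (map_ne_zero_iff _ hA).2 hα
  have n2 : algebraMap A E β ≠ 0 := (map_ne_zero_iff _ hA).2 hβ
  have n3 : algebraMap A E (φA β) ≠ 0 := (map_ne_zero_iff _ hA).2 ((map_ne_zero_iff _ hφ).2 hβ)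
  have al : ∀ a : A, IsAlgebraic B (algebraMap A E a) := fun a =>
    (Algebra.IsAlgebraic.isAlgebraic (R := B) a).algebraMap
  refine dsm1_field hinj φ φB (fun b => by rw [ht, hφ', hc, ht])
    (R := algebraMap A E α * (algebraMap A E β)⁻¹) (mul_ne_zero n1 (inv_ne_zero n2))
    ((al α).mul (al β).inv) ?_
  have f1 := congrArg (algebraMap A E) e1
  have f2 := congrArg (algebraMap A E) e2
  simp only [map_mul] at f1 f2
  rw [map_mul, map_inv₀, hφ', hφ', ht, ht]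
  have i1 := mul_inv_cancel₀ n2
  have i2 := mul_inv_cancel₀ n3
  linear_combination (algebraMap A E (φA β))⁻¹ * f1
    - algebraMap A E α * (algebraMap A E β)⁻¹ * (algebraMap A E (φA β))⁻¹ * f2
    - algebraMap A E α * algebraMap A E h * (algebraMap A E (φA β))⁻¹ * i1
    + algebraMap A E α * (algebraMap A E β)⁻¹ * algebraMap A E (algebraMap B A δ) * i2

end Pool.Agent.P.MP_68214b_ag.DS
end

-- part Pool.Agent.P.MP_68214b_ag.DSA1
section

open Polynomial Filter Asymptotics NumberField Topology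

namespace Pool.Agent.P.MP_68214b_ag.DS

theorem dsa1_ne {g : ℂ[X]} (hg : 0 < g.natDegree) (v : ℂ) : g - C v ≠ 0 := fun e => by
  rw [← natDegree_sub_C (a := v), e, natDegree_zero] at hg
  exact lt_irrefl _ hg

theorem dsa1_root (g : ℂ[X]) (c : ℂ) : (g - C (g.eval c)).IsRoot c := by simp

theorem dsa1_pow {p : ℂ[X]} (hp : p ≠ 0) (c : ℂ) (n : ℕ) :
    rootMultiplicity c (p ^ n) = rootMultiplicity c p * n := by
  induction n with
  | zero => rw [pow_zero, mul_zero, ← C_1, rootMultiplicity_C]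
  | succ n ih => rw [pow_succ, rootMultiplicity_mul (mul_ne_zero (pow_ne_zero _ hp) hp), ih, mul_add,
      mul_one]

theorem em_pos {g : ℂ[X]} (hg : 0 < g.natDegree) (c : ℂ) : 0 < em g c :=
  (rootMultiplicity_pos (dsa1_ne hg _)).2 (dsa1_root g c)

theorem em_le {g : ℂ[X]} (hg : 0 < g.natDegree) (c : ℂ) : em g c ≤ g.natDegree := by
  have := natDegree_le_of_dvd (pow_rootMultiplicity_dvd (g - C (g.eval c)) c) (dsa1_ne hg _)
  rwa [natDegree_pow, natDegree_X_sub_C, mul_one, natDegree_sub_C] at this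

theorem rm_comp {g a : ℂ[X]} (hg : 0 < g.natDegree) (ha : a ≠ 0) (c : ℂ) :
    rootMultiplicity c (a.comp g) = em g c * rootMultiplicity (g.eval c) a := by
  obtain ⟨q, h1, h2⟩ := exists_eq_pow_rootMultiplicity_mul_and_not_dvd a ha (g.eval c)
  have h3 : ¬ (q.comp g).IsRoot c := fun h => h2 (dvd_iff_isRoot.2 (by
    rwa [IsRoot, eval_comp] at h))
  have h4 : q.comp g ≠ 0 := fun e => h3 (by rw [e]; exact IsRoot.def.2 eval_zero)
  conv_lhs => rw [h1]
  rw [mul_comp, pow_comp, sub_comp, X_comp, C_comp,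
    rootMultiplicity_mul (mul_ne_zero (pow_ne_zero _ (dsa1_ne hg _)) h4),
    rootMultiplicity_eq_zero h3, add_zero, dsa1_pow (dsa1_ne hg _), em]

theorem em_comp {g h : ℂ[X]} (hg : 0 < g.natDegree) (hh : 0 < h.natDegree) (c : ℂ) :
    em (g.comp h) c = em h c * em g (h.eval c) := by
  have := rm_comp hh (dsa1_ne hg (g.eval (h.eval c))) c
  rw [sub_comp, C_comp] at this
  rw [em, eval_comp, this]
  rfl

theorem rm_der {g : ℂ[X]} (hg : 0 < g.natDegree) (c : ℂ) :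
    rootMultiplicity c (derivative g) + 1 = em g c := by
  have h1 := derivative_rootMultiplicity_of_root (dsa1_root g c)
  have h2 := em_pos hg c
  rw [derivative_sub, derivative_C, sub_zero] at h1
  rw [h1]
  exact Nat.sub_add_cancel h2

theorem em_fin {g : ℂ[X]} (hg : 0 < g.natDegree) : {c | em g c ≠ 1}.Finite := by
  have h : derivative g ≠ 0 := derivative_ne_zero.2 hg.ne'
  refine (finite_setOfPred_isRoot h).subset fun c hc => by_contra fun hn => hc ?_
  rw [← rm_der hg, rootMultiplicity_eq_zero hn]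

theorem pre_fin {g : ℂ[X]} (hg : 0 < g.natDegree) {E : Set ℂ} (hE : E.Finite) :
    {c | g.eval c ∈ E}.Finite := by
  refine (hE.biUnion fun v _ => finite_setOfPred_isRoot (dsa1_ne hg v)).subset fun c hc => ?_
  exact Set.mem_biUnion hc (dsa1_root g c)

theorem eval_surj {g : ℂ[X]} (hg : 0 < g.natDegree) (v : ℂ) : ∃ c, g.eval c = v := by
  obtain ⟨c, hc⟩ := IsAlgClosed.exists_root (g - C v)
    (natDegree_pos_iff_degree_pos.1 (by rwa [natDegree_sub_C])).ne'
  exact ⟨c, by simpa [sub_eq_zero] using hc⟩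

theorem eq_of_rm {p q : ℂ[X]} (hp : p ≠ 0) (hq : q ≠ 0)
    (h : ∀ c, rootMultiplicity c p = rootMultiplicity c q) :
    C q.leadingCoeff * p = C p.leadingCoeff * q := by
  classical
  have e : p.roots = q.roots := Multiset.ext.2 fun c => by rw [count_roots, count_roots, h]
  have h1 := (IsAlgClosed.splits p).eq_prod_roots
  have h2 := (IsAlgClosed.splits q).eq_prod_roots
  rw [e] at h1
  linear_combination C q.leadingCoeff * h1 - C p.leadingCoeff * h2

theorem em_top {g : ℂ[X]} (hg : 0 < g.natDegree) {c : ℂ} (h : em g c = g.natDegree) :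
    g = C g.leadingCoeff * (X - C c) ^ g.natDegree + C (g.eval c) := by
  have h1 := pow_rootMultiplicity_dvd (g - C (g.eval c)) c
  rw [← em, h] at h1
  have h2 := eq_leadingCoeff_mul_of_monic_of_dvd_of_natDegree_le ((monic_X_sub_C c).pow _) h1
    (by rw [natDegree_pow, natDegree_X_sub_C, mul_one, natDegree_sub_C])
  rw [leadingCoeff_sub_of_degree_lt (degree_C_le.trans_lt (natDegree_pos_iff_degree_pos.1 hg))] at h2
  exact sub_eq_iff_eq_add.1 h2

end Pool.Agent.P.MP_68214b_ag.DS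
end

-- part Pool.Agent.P.MP_68214b_ag.DSM4
section

open Polynomial Filter Asymptotics NumberField Topology

namespace Pool.Agent.P.MP_68214b_ag.DS

theorem dsm4_pow {B : Type*} [CommRing B] [IsDomain B] {p : B[X]} (hp : p ≠ 0) (x : B) (m : ℕ) :
    rootMultiplicity x (p ^ m) = m * rootMultiplicity x p := by
  induction m with
  | zero => rw [pow_zero, zero_mul, ← C_1, rootMultiplicity_C]
  | succ m ih =>
    rw [pow_succ, rootMultiplicity_mul (mul_ne_zero (pow_ne_zero _ hp) hp), ih]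
    ring

theorem dsm4_key {B : Type*} [CommRing B] [IsDomain B] [Algebra ℂ B] (ψ : B →ₐ[ℂ] B)
    (hψ : Function.Injective ψ) {g : ℂ[X]} (hg : 0 < g.natDegree) (Φ : B[X] →+* B[X])
    (hC : ∀ b, Φ (C b) = C (ψ b)) (hX : Φ X = g.map (algebraMap ℂ B)) {a : B[X]} (ha : a ≠ 0)
    (c : ℂ) : Φ a ≠ 0 ∧ rootMultiplicity (algebraMap ℂ B c) (Φ a) =
      em g c * rootMultiplicity (algebraMap ℂ B (g.eval c)) a := by
  have hi : Function.Injective (algebraMap ℂ B) := (algebraMap ℂ B).injective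
  obtain ⟨a1, e1, hn⟩ :=
    exists_eq_pow_rootMultiplicity_mul_and_not_dvd a ha (algebraMap ℂ B (g.eval c))
  generalize rootMultiplicity (algebraMap ℂ B (g.eval c)) a = m at e1 ⊢
  have hE : (evalRingHom (algebraMap ℂ B c)).comp Φ =
      (ψ : B →+* B).comp (evalRingHom (algebraMap ℂ B (g.eval c))) := by
    refine ringHom_ext (fun b => ?_) ?_
    · simp [hC]
    · simp [hX, eval_map_algebraMap, aeval_algebraMap_apply]
  have h1 : (Φ a1).eval (algebraMap ℂ B c) ≠ 0 := by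
    have := RingHom.congr_fun hE a1
    simp only [RingHom.comp_apply, coe_evalRingHom, RingHom.coe_coe] at this
    rw [this]
    intro h0
    exact hn (dvd_iff_isRoot.2 (hψ (h0.trans (map_zero ψ).symm)))
  have h2 : Φ a1 ≠ 0 := fun h0 => h1 (by rw [h0, eval_zero])
  have h3 : g - C (g.eval c) ≠ 0 := fun h0 => by
    rw [sub_eq_zero] at h0
    rw [h0, natDegree_C] at hg
    exact lt_irrefl _ hg
  have h4 : (g - C (g.eval c)).map (algebraMap ℂ B) ≠ 0 := (Polynomial.map_ne_zero_iff hi).2 h3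
  have e2 : Φ a = (g - C (g.eval c)).map (algebraMap ℂ B) ^ m * Φ a1 := by
    rw [e1, map_mul, map_pow, map_sub, hX, hC, AlgHom.commutes, Polynomial.map_sub, map_C]
  have h5 : Φ a ≠ 0 := by rw [e2]; exact mul_ne_zero (pow_ne_zero _ h4) h2
  refine ⟨h5, ?_⟩
  rw [e2] at h5 ⊢
  rw [rootMultiplicity_mul h5, dsm4_pow h4, rootMultiplicity_eq_zero h1,
    ← eq_rootMultiplicity_map hi, em]
  ring

theorem ms3 {B : Type*} [CommRing B] [IsDomain B] [Algebra ℂ B] (ψ : B →ₐ[ℂ] B)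
    (hψ : Function.Injective ψ) {g : ℂ[X]} (hg : 0 < g.natDegree) (Φ : B[X] →+* B[X])
    (hC : ∀ b, Φ (C b) = C (ψ b)) (hX : Φ X = g.map (algebraMap ℂ B)) {a b : B[X]} (ha : a ≠ 0)
    (hb : b ≠ 0) {γ : B} (hγ : γ ≠ 0) {e : ℕ} (he : 0 < e)
    (h : Φ a * b * (derivative g).map (algebraMap ℂ B) ^ e = a * Φ b * C γ ^ e) : Orbi g := by
  have hi : Function.Injective (algebraMap ℂ B) := (algebraMap ℂ B).injective
  have hd : derivative g ≠ 0 := fun h0 => by
    rw [derivative_eq_zero.1 h0] at hg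
    exact lt_irrefl _ hg
  have hd' : (derivative g).map (algebraMap ℂ B) ≠ 0 := (Polynomial.map_ne_zero_iff hi).2 hd
  refine ⟨e, fun c => (rootMultiplicity (algebraMap ℂ B c) a : ℤ) -
    rootMultiplicity (algebraMap ℂ B c) b + e, by exact_mod_cast he, ?_, fun c => ?_⟩
  · refine ((finite_setOfPred_isRoot (mul_ne_zero ha hb)).preimage hi.injOn).subset fun c hc => ?_
    by_contra hn
    simp only [Set.mem_preimage, Set.mem_ofPred_eq, IsRoot.def, eval_mul, mul_eq_zero,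
      not_or] at hn
    apply hc
    beta_reduce
    rw [rootMultiplicity_eq_zero hn.1, rootMultiplicity_eq_zero hn.2]
    simp
  · obtain ⟨a0, a1⟩ := dsm4_key ψ hψ hg Φ hC hX ha c
    obtain ⟨b0, b1⟩ := dsm4_key ψ hψ hg Φ hC hX hb c
    have hγ' : (C γ : B[X]) ≠ 0 := C_ne_zero.2 hγ
    have := congrArg (rootMultiplicity (algebraMap ℂ B c)) h
    rw [rootMultiplicity_mul (mul_ne_zero (mul_ne_zero a0 hb) (pow_ne_zero _ hd')),
      rootMultiplicity_mul (mul_ne_zero a0 hb),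
      rootMultiplicity_mul (mul_ne_zero (mul_ne_zero ha b0) (pow_ne_zero _ hγ')),
      rootMultiplicity_mul (mul_ne_zero ha b0), dsm4_pow hd', dsm4_pow hγ', rootMultiplicity_C,
      ← eq_rootMultiplicity_map hi, a1, b1, ← rm_der hg c] at this
    rw [← rm_der hg c]
    have z := congrArg (Nat.cast : ℕ → ℤ) this
    push_cast at z ⊢
    linear_combination -z

end Pool.Agent.P.MP_68214b_ag.DS
end

-- part Pool.Agent.P.MP_68214b_ag.DSA5
section

open Polynomial Filter Asymptotics NumberField Topology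

namespace Pool.Agent.P.MP_68214b_ag.DS

theorem iter_succ {R : Type*} [CommRing R] (f : R[X]) (l : ℕ) :
    iter f (l + 1) = f.comp (iter f l) := Function.iterate_succ_apply' _ _ _

theorem iter_zero {R : Type*} [CommRing R] (f : R[X]) : iter f 0 = X := rfl

theorem iter_succ' {R : Type*} [CommRing R] (f : R[X]) (l : ℕ) :
    iter f (l + 1) = (iter f l).comp f := by
  induction l with
  | zero => rw [iter_succ, iter_zero, comp_X, X_comp]
  | succ l ih => rw [iter_succ, ih, ← comp_assoc, ← iter_succ, ← ih]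

theorem iter_eval {R : Type*} [CommRing R] (f : R[X]) (l : ℕ) (x : R) :
    (iter f l).eval x = (fun y => f.eval y)^[l] x := by
  induction l with
  | zero => simp [iter_zero]
  | succ l ih => rw [iter_succ, eval_comp, ih, Function.iterate_succ_apply']

theorem iter_natDegree {R : Type*} [CommRing R] [IsDomain R] (f : R[X]) (l : ℕ) :
    (iter f l).natDegree = f.natDegree ^ l := by
  induction l with
  | zero => simp [iter_zero]
  | succ l ih => rw [iter_succ, natDegree_comp, ih, pow_succ']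

theorem iter_monic {R : Type*} [CommRing R] [IsDomain R] {f : R[X]} (hf : f.Monic)
    (hd : 0 < f.natDegree) (l : ℕ) : (iter f l).Monic := by
  induction l with
  | zero => exact monic_X
  | succ l ih =>
    rw [iter_succ]
    exact hf.comp ih (by rw [iter_natDegree]; exact (pow_pos hd _).ne')

theorem iter_map {R S : Type*} [CommRing R] [CommRing S] (φ : R →+* S) (f : R[X]) (l : ℕ) :
    (iter f l).map φ = iter (f.map φ) l := by
  induction l with
  | zero => simp [iter_zero]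
  | succ l ih => rw [iter_succ, iter_succ, map_comp, ih]

theorem iter_add {R : Type*} [CommRing R] (f : R[X]) (k l : ℕ) :
    iter f (k + l) = (iter f k).comp (iter f l) := by
  induction k with
  | zero => rw [zero_add, iter_zero, X_comp]
  | succ k ih => rw [add_right_comm, iter_succ, iter_succ, ih, comp_assoc]

theorem NoTot.iterate {g : ℂ[X]} (hd : 2 ≤ g.natDegree) (h : NoTot g) {l : ℕ} (hl : 0 < l) :
    NoTot (iter g l) := by
  intro E hE hne
  by_contra! hcon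
  have hpos : ∀ j, 0 < (iter g j).natDegree := fun j => by
    rw [iter_natDegree]; exact pow_pos (by omega) _
  obtain ⟨c, ⟨j, hj, hc⟩, hc'⟩ := h {c | ∃ j < l, (iter g j).eval c ∈ E}
    (by
      have : {c | ∃ j < l, (iter g j).eval c ∈ E} =
          ⋃ j ∈ Set.Iio l, {c | (iter g j).eval c ∈ E} := by ext; simp
      rw [this]
      exact (Set.finite_Iio l).biUnion fun j _ => pre_fin (hpos j) hE)
    (by obtain ⟨e, he⟩ := hne; exact ⟨e, 0, hl, by simpa [iter_zero] using he⟩)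
  rw [← eval_comp, ← iter_succ'] at hc
  rcases (Nat.succ_le_of_lt hj).lt_or_eq with h1 | h1
  · exact hc' ⟨j + 1, h1, hc⟩
  · refine hc' ⟨0, hl, ?_⟩
    rw [iter_zero, eval_X]
    exact hcon c (by rw [← h1]; exact hc)

theorem NS.iterate {g : ℂ[X]} (hd : 2 ≤ g.natDegree) (h : NS g) {l : ℕ} (hl : 0 < l) :
    NS (iter g l) := by
  have ht := h.tot.iterate hd hl
  refine ⟨ht, ?_⟩
  rintro ⟨e, ν, he, hfin, hν⟩
  have g0 : 0 < g.natDegree := by omega
  have h0 : 0 < (iter g l).natDegree := by rw [iter_natDegree]; exact pow_pos g0 _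
  have hcomm : g.comp (iter g l) = (iter g l).comp g := by rw [← iter_succ, iter_succ']
  refine h.orb ⟨e, ν, he, hfin, ?_⟩
  by_contra! hcon
  have hE : {c | ν c ≠ em g c * ν (g.eval c)}.Finite := by
    refine (hfin.union ((em_fin g0).union (pre_fin g0 hfin))).subset fun c hc => ?_
    by_contra hn
    simp only [Set.mem_union, Set.mem_ofPred_eq, not_or, not_not] at hn
    exact hc (by rw [hn.1, hn.2.1, hn.2.2]; simp)
  obtain ⟨c, hc, hc'⟩ := ht _ hE hcon
  refine hc ?_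
  have e1 := em_comp g0 h0 c
  have e2 := em_comp h0 g0 c
  rw [hcomm, e2] at e1
  have e3 : (iter g l).eval (g.eval c) = g.eval ((iter g l).eval c) := by
    rw [← eval_comp, ← hcomm, eval_comp]
  have h1 : ν c = em g c * ν (g.eval c) := not_not.1 hc'
  have h2 := hν c
  have h3 := hν (g.eval c)
  rw [e3] at h3
  have hp : (em (iter g l) c : ℤ) ≠ 0 := Nat.cast_ne_zero.2 (em_pos h0 c).ne'
  have e4 : (em g c : ℤ) * em (iter g l) (g.eval c) =
      em (iter g l) c * em g ((iter g l).eval c) := by exact_mod_cast e1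
  refine mul_left_cancel₀ hp ?_
  rw [← h2, h1, h3, ← mul_assoc, e4, mul_assoc]

theorem step_iter {R : Type*} [CommRing R] {f : R[X]} {x : ℕ → R}
    (h : ∀ n, x (n + 1) = f.eval (x n)) (n l : ℕ) : x (n + l) = (iter f l).eval (x n) := by
  induction l with
  | zero => simp [iter_zero]
  | succ l ih => rw [← add_assoc, h, ih, iter_succ, eval_comp]

theorem Orb.prog {K : Type*} [Field K] {f : K[X]} {x : ℕ → K} (h : Orb f x) (c : ℕ) {l : ℕ}
    (hl : 0 < l) : Orb (iter f l) fun t => x (c + l * t) := by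
  have hd := h.deg
  refine ⟨iter_monic h.monic (by omega) l, ?_, fun t => ?_⟩
  · rw [iter_natDegree]
    exact hd.trans (Nat.le_self_pow hl.ne' _)
  · rw [mul_add, mul_one, ← add_assoc, step_iter h.step]

theorem Orb.conj {K : Type*} [Field K] {f : K[X]} {x : ℕ → K} (h : Orb f x) (c : K →+* K) :
    Orb (f.map c) fun n => c (x n) := by
  refine ⟨h.monic.map c, by rw [natDegree_map]; exact h.deg, fun n => ?_⟩
  rw [h.step, eval_map, eval₂_at_apply]

theorem NSa.iter {K : Type*} [Field K] {f : K[X]} (h : NSa f) (hd : 2 ≤ f.natDegree) {l : ℕ}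
    (hl : 0 < l) : NSa (iter f l) := fun σ => by
  rw [iter_map]
  exact (h σ).iterate (by rwa [natDegree_map]) hl

theorem NSa.map {K : Type*} [Field K] {f : K[X]} (h : NSa f) (c : K →+* K) : NSa (f.map c) :=
  fun σ => by rw [Polynomial.map_map]; exact h _

end Pool.Agent.P.MP_68214b_ag.DS
end

-- part Pool.Agent.P.MP_68214b_ag.DG7
section

open Polynomial

namespace Pool.Agent.P.MP_68214b_ag.DS

variable {L : Type} [Field L] [Algebra ℂ L] {x : L} {ι : FractionRing ℂ[X] →+* L}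
  {φ : L →ₐ[ℂ] L} {f : ℂ[X]}

theorem phi_pow (hφ : φ x = aeval x f) (k : ℕ) : (φ ^ k) x = aeval x (iter f k) := by
  induction k with
  | zero => simp [iter_zero]
  | succ k ih => rw [pow_succ', AlgHom.mul_apply, ih, phi_ae hφ, iter_succ']

theorem v_pow {Γ : Type*} [LinearOrderedCommGroupWithZero Γ] {w : Valuation L Γ} {d : ℕ}
    (hw : ∀ a, w (φ a) = w a ^ d) (k : ℕ) (a : L) : w ((φ ^ k) a) = w a ^ d ^ k := by
  induction k with
  | zero => simp
  | succ k ih => rw [pow_succ', AlgHom.mul_apply, hw, ih, ← pow_mul, pow_succ]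

theorem FF.orbi (h : FF x ι) (hφ : φ x = aeval x f) (hf : f.Monic) (hd : 0 < f.natDegree)
    {a : L} (ha : a ∈ Wd x ι) (a0 : a ≠ 0) : Orbi f := by
  have := h.fd
  have : Nontrivial (Wd x ι) := ⟨⟨a, ha⟩, 0, fun e => a0 (congrArg Subtype.val e)⟩
  let Θ : Module.End ℂ (Wd x ι) :=
    { toFun := fun a => ⟨φ a * aeval x (derivative f), h.pull hφ hf hd a.2⟩
      map_add' := fun a b => Subtype.ext (by simp [add_mul])
      map_smul' := fun c a => Subtype.ext (by simp) }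
  obtain ⟨c, hc⟩ := Θ.exists_eigenvalue
  obtain ⟨b, hb⟩ := hc.exists_hasEigenvector
  have b0 : (b : L) ≠ 0 := fun e => hb.2 (Subtype.ext e)
  have e : φ b * aeval x (derivative f) = b * aeval x (C c) := by
    rw [aeval_C, mul_comm (b : L), ← Algebra.smul_def]
    exact congrArg Subtype.val hb.apply_eq_smul
  have c0 : c ≠ 0 := fun e' => by
    rw [e', map_zero, map_zero, mul_zero] at e
    exact mul_ne_zero ((map_ne_zero φ).2 b0) ((map_ne_zero_iff _ h.inj).2 (dg6_der hd)) e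
  let := (aeval x : ℂ[X] →ₐ[ℂ] L).toRingHom.toAlgebra
  obtain ⟨G, G0, -, hG⟩ := h.rl b
  obtain ⟨n, p, q, n0, p0, q0, hn⟩ := dsm1_field (B := ℂ[X]) (E := L) h.inj φ (compRingHom f)
    (phi_ae hφ) b0 ⟨G, G0, (ae_eq x b G).symm.trans hG⟩ e
  exact ms3 (AlgHom.id ℂ ℂ) Function.injective_id hd (compRingHom f) (fun _ => C_comp)
    (by simp) p0 q0 c0 n0 (by simpa using hn)

theorem FF.eigen (h : FF x ι) (hφ : φ x = aeval x f) (hf : f.Monic) (hd : 2 ≤ f.natDegree)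
    {Γ : Type*} [LinearOrderedCommGroupWithZero Γ] {w : Valuation L Γ} (hv : w.IsTrivialOn ℂ)
    (hx : 1 < w x) (hw : ∀ a, w (φ a) = w a ^ f.natDegree) {b : L} (b0 : b ≠ 0) (hb : b ∈ Fn x)
    (h1 : w b < 1) : Orbi f := by
  obtain ⟨t, n1, n2, t0, -, e⟩ := v_tie hv hx b0 (h.rl b)
  have x0 : 0 < w x := zero_lt_one.trans hx
  have h2 : n2 < n1 := (pow_lt_pow_iff_right₀ hx).1
    (e ▸ mul_lt_of_lt_one_left (pow_pos x0 _) (pow_lt_one₀ zero_le h1 t0.ne'))
  obtain ⟨s, rfl⟩ := Nat.exists_eq_add_of_lt h2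
  have h3 : w (x * (x ^ s * b ^ t)) = 1 := by
    refine mul_right_cancel₀ (pow_pos x0 n2).ne' ?_
    rw [one_mul, map_mul, map_mul, map_pow, map_pow]
    refine Eq.trans ?_ e
    rw [pow_succ, pow_add]
    ac_rfl
  obtain ⟨j, hj⟩ := (h.rl (x * (x ^ s * b ^ t))).inf
  have hk := phi_pow hφ (rk ι * j)
  have hm := iter_monic hf (by omega) (rk ι * j)
  have hD : rk ι * j < (iter f (rk ι * j)).natDegree := by
    rw [iter_natDegree]; exact Nat.lt_pow_self hd
  have d0 : 0 < (iter f (rk ι * j)).natDegree := by omega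
  refine h.orbi hφ hf (by omega) (h.push hk hm
    (mul_mem (pow_mem (by simpa using Fn_aeval x X) s) (pow_mem hb t)) hj hD) fun h0 => ?_
  refine tr_ne hv hx h.rl d0 (h.phi hk hm d0).2.1
    (fun a => by rw [iter_natDegree]; exact v_pow hw _ a)
    (u := ((φ ^ (rk ι * j) : L →ₐ[ℂ] L) : L →+* L) x *
      (x ^ s * b ^ t / aeval x (derivative (iter f (rk ι * j))))) ?_ (by rw [tr_mul, h0, mul_zero])
  rw [RingHom.coe_coe, hk, map_mul, map_div₀, ← v_der hv hx d0, mul_assoc, mul_div_cancel₀ _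
    ((Valuation.ne_zero_iff _).2 ((map_ne_zero_iff _ h.inj).2 (dg6_der d0))), ← map_mul, h3]

end Pool.Agent.P.MP_68214b_ag.DS
end

-- part Pool.Agent.P.MP_68214b_ag.DSN1
section

open Polynomial Filter Asymptotics NumberField Topology

namespace Pool.Agent.P.MP_68214b_ag.DS

namespace Sn
variable {R S : Type*} [CommRing R] [CommRing S] (ν : Sn R)

theorem pow_le (a : R) (k : ℕ) : ν.f (a ^ k) ≤ ν.f a ^ k := by
  induction k with
  | zero => simpa using ν.one
  | succ k ih =>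
    rw [pow_succ, pow_succ]
    exact (ν.mul _ _).trans (mul_le_mul_of_nonneg_right ih (ν.nonneg _))

theorem prod_le {ι : Type*} (s : Finset ι) (g : ι → R) :
    ν.f (∏ i ∈ s, g i) ≤ ∏ i ∈ s, ν.f (g i) := by
  classical
  induction s using Finset.induction_on with
  | empty => simpa using ν.one
  | insert a s ha ih =>
    rw [Finset.prod_insert ha, Finset.prod_insert ha]
    exact (ν.mul _ _).trans (mul_le_mul_of_nonneg_left ih (ν.nonneg _))

theorem sub_le (a b : R) : ν.f (a - b) ≤ ν.f a + ν.f b := by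
  rw [sub_eq_add_neg, ← ν.neg b]
  exact ν.add _ _

theorem natCast_le (n : ℕ) : ν.f (n : R) ≤ n := by
  induction n with
  | zero => simp [ν.zero]
  | succ n ih =>
    push_cast
    exact (ν.add _ _).trans (add_le_add ih ν.one)

theorem intCast_le (n : ℤ) : ν.f (n : R) ≤ |(n : ℝ)| := by
  obtain ⟨m, rfl | rfl⟩ := n.eq_nat_or_neg
  · simpa using ν.natCast_le m
  · simpa [ν.neg] using ν.natCast_le m

theorem l1_eq (p : R[X]) {s : Finset ℕ} (hs : p.support ⊆ s) :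
    ν.l1.f p = ∑ i ∈ s, ν.f (p.coeff i) := ν.l1_aux p hs

theorem l1_monomial (k : ℕ) (a : R) : ν.l1.f (monomial k a) = ν.f a := ν.l1_mon k a

theorem l1_C (a : R) : ν.l1.f (C a) = ν.f a := ν.l1_mon 0 a

theorem l1_X : ν.l1.f X ≤ 1 := (ν.l1_mon 1 1).le.trans ν.one

theorem coeff_le (p : R[X]) (k : ℕ) : ν.f (p.coeff k) ≤ ν.l1.f p := by
  by_cases h : k ∈ p.support
  · exact Finset.single_le_sum (f := fun i => ν.f (p.coeff i)) (fun i _ => ν.nonneg _) h
  · rw [notMem_support_iff.1 h, ν.zero]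
    exact ν.l1.nonneg _

theorem coeff2_le (W : R[X][X]) (i j : ℕ) : ν.f ((W.coeff j).coeff i) ≤ ν.l2.f W :=
  (ν.coeff_le _ i).trans (ν.l1.coeff_le W j)

theorem l1_le (p : R[X]) {D : ℕ} (hD : p.natDegree ≤ D) {B : ℝ} (hB : ∀ i, ν.f (p.coeff i) ≤ B) :
    ν.l1.f p ≤ (D + 1) * B := by
  rw [ν.l1_eq p (s := Finset.range (D + 1))
    (supp_subset_range (Nat.lt_succ_of_le hD))]
  simpa using Finset.sum_le_card_nsmul (Finset.range (D + 1)) _ B fun i _ => hB i

theorem l1_map (ν' : Sn S) (φ : R →+* S) (h : ∀ a, ν'.f (φ a) ≤ ν.f a) (p : R[X]) :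
    ν'.l1.f (p.map φ) ≤ ν.l1.f p := by
  rw [ν'.l1_eq _ (support_map_subset φ p)]
  exact Finset.sum_le_sum fun i _ => by rw [coeff_map]; exact h _

theorem l2_map (ν' : Sn S) (φ : R →+* S) (h : ∀ a, ν'.f (φ a) ≤ ν.f a) (W : R[X][X]) :
    ν'.l2.f (map2 φ W) ≤ ν.l2.f W :=
  ν.l1.l1_map ν'.l1 (mapRingHom φ) (ν.l1_map ν' φ h) W

theorem eval₂_le_sum (ν' : Sn S) (φ : R →+* S) (x : S) (p : R[X]) :
    ν'.f (p.eval₂ φ x) ≤ ∑ i ∈ p.support, ν'.f (φ (p.coeff i)) * ν'.f x ^ i := by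
  rw [eval₂_eq_sum, Polynomial.sum_def]
  exact (ν'.sum_le _ _).trans (Finset.sum_le_sum fun i _ =>
    (ν'.mul _ _).trans (mul_le_mul_of_nonneg_left (ν'.pow_le x i) (ν'.nonneg _)))

theorem eval₂_le (ν' : Sn S) (φ : R →+* S) (h : ∀ a, ν'.f (φ a) ≤ ν.f a) {x : S} {t : ℝ}
    (ht : 1 ≤ t) (hx : ν'.f x ≤ t) {p : R[X]} {D : ℕ} (hD : p.natDegree ≤ D) :
    ν'.f (p.eval₂ φ x) ≤ ν.l1.f p * t ^ D := by
  refine (eval₂_le_sum ν' φ x p).trans ?_
  rw [ν.l1_eq p subset_rfl, Finset.sum_mul]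
  refine Finset.sum_le_sum fun i hi => mul_le_mul (h _) ?_ (pow_nonneg (ν'.nonneg _) _) (ν.nonneg _)
  exact (pow_le_pow_left₀ (ν'.nonneg _) hx i).trans
    (pow_le_pow_right₀ ht ((le_natDegree_of_mem_supp i hi).trans hD))

theorem ev2_le (ν' : Sn S) (φ : R →+* S) (h : ∀ a, ν'.f (φ a) ≤ ν.f a) {x y : S} {t : ℝ}
    (ht : 1 ≤ t) (hx : ν'.f x ≤ t) (hy : ν'.f y ≤ t) {W : R[X][X]} {D1 D2 : ℕ} (hW : Bd W D1 D2) :
    ν'.f (ev2 φ x y W) ≤ ν.l2.f W * t ^ (D1 + D2) := by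
  refine (eval₂_le_sum ν' (eval₂RingHom φ x) y W).trans ?_
  rw [ν.l1.l1_eq W subset_rfl, Finset.sum_mul]
  refine Finset.sum_le_sum fun i hi => ?_
  rw [pow_add, ← mul_assoc]
  refine mul_le_mul (ν.eval₂_le ν' φ h ht hx (hW.1 i)) ?_ (pow_nonneg (ν'.nonneg _) _)
    (mul_nonneg (ν.l1.nonneg _) (pow_nonneg (zero_le_one.trans ht) _))
  exact (pow_le_pow_left₀ (ν'.nonneg _) hy i).trans
    (pow_le_pow_right₀ ht ((le_natDegree_of_mem_supp i hi).trans hW.2))

theorem det_le {n : Type*} [Fintype n] [DecidableEq n] (M : Matrix n n R) :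
    ν.f M.det ≤ ∏ j, ∑ i, ν.f (M i j) := by
  rw [Matrix.det_apply, Finset.prod_univ_sum]
  refine (ν.sum_le _ _).trans ?_
  have h1 (σ : Equiv.Perm n) :
      ν.f (Equiv.Perm.sign σ • ∏ i, M (σ i) i) ≤ ∏ i, ν.f (M (σ i) i) := by
    rcases Int.units_eq_one_or (Equiv.Perm.sign σ) with e | e
    · rw [e, one_smul]
      exact ν.prod_le _ _
    · rw [e, Units.neg_smul, one_smul, ν.neg]
      exact ν.prod_le _ _
  refine (Finset.sum_le_sum fun σ _ => h1 σ).trans ?_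
  rw [← Finset.sum_image (s := Finset.univ) (g := fun σ : Equiv.Perm n => (σ : n → n))
    (f := fun p : n → n => ∏ i, ν.f (M (p i) i)) fun a _ b _ e => DFunLike.coe_injective e]
  exact Finset.sum_le_sum_of_subset_of_nonneg (fun p _ => by simp)
    fun p _ _ => Finset.prod_nonneg fun i _ => ν.nonneg _

theorem dsn1_col {N : ℕ} (p : R[X]) (j k : ℕ) :
    ∑ i : Fin N, ν.f (if (i : ℕ) ∈ Set.Icc j (j + k) then p.coeff (i - j) else 0) ≤ ν.l1.f p := by
  classical
  have e : ∑ i : Fin N, ν.f (if (i : ℕ) ∈ Set.Icc j (j + k) then p.coeff (i - j) else 0) =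
      ∑ i ∈ Finset.univ.filter fun i : Fin N => i.val ∈ Set.Icc j (j + k),
        ν.f (p.coeff (i.val - j)) := by
    rw [Finset.sum_filter]
    refine Finset.sum_congr rfl fun i _ => ?_
    split_ifs
    · rfl
    · exact ν.zero
  rw [e, ← Finset.sum_image (g := fun i : Fin N => (i : ℕ) - j) (f := fun l => ν.f (p.coeff l))
    fun a ha b hb h => Fin.ext (by
      have h1 := (Finset.mem_filter.1 ha).2.1
      have h2 := (Finset.mem_filter.1 hb).2.1
      dsimp only at h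
      omega)]
  rw [ν.l1_eq p Finset.subset_union_left]
  exact Finset.sum_le_sum_of_subset_of_nonneg Finset.subset_union_right fun i _ _ => ν.nonneg _

theorem res_le (f g : R[X]) (m n : ℕ) :
    ν.f (resultant f g m n) ≤ ν.l1.f f ^ n * ν.l1.f g ^ m := by
  refine (ν.det_le _).trans ?_
  rw [Fin.prod_univ_add, mul_comm]
  refine mul_le_mul ?_ ?_ (Finset.prod_nonneg fun j _ => Finset.sum_nonneg fun i _ => ν.nonneg _)
    (pow_nonneg (ν.l1.nonneg _) _)
  · refine (Finset.prod_le_prod (g := fun _ => ν.l1.f f)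
      (fun j _ => Finset.sum_nonneg fun i _ => ν.nonneg _) fun j _ => ?_).trans (by simp)
    simpa only [sylvester, Matrix.of_apply, Fin.addCases_right] using ν.dsn1_col f j m
  · refine (Finset.prod_le_prod (g := fun _ => ν.l1.f g)
      (fun j _ => Finset.sum_nonneg fun i _ => ν.nonneg _) fun j _ => ?_).trans (by simp)
    simpa only [sylvester, Matrix.of_apply, Fin.addCases_left] using ν.dsn1_col g j n

end Sn

theorem dsn1_ev2 {R S : Type*} [CommRing R] [CommRing S] (φ : R →+* S) (x y : S) (W : R[X][X]) :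
    ev2 φ x y W = (map2 φ W).evalEval x y := eval₂_eval₂RingHom_apply φ x y W

theorem dsn1_map2 {R S T : Type*} [CommRing R] [CommRing S] [CommRing T] (φ : R →+* S)
    (ψ : S →+* T) (W : R[X][X]) : map2 ψ (map2 φ W) = map2 (ψ.comp φ) W := by
  simp only [coe_mapRingHom, Polynomial.map_map, mapRingHom_comp]

theorem ev2_map2 {R S T : Type*} [CommRing R] [CommRing S] [CommRing T] (φ : R →+* S)
    (ψ : S →+* T) (x y : T) (W : R[X][X]) : ev2 ψ x y (map2 φ W) = ev2 (ψ.comp φ) x y W := by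
  rw [dsn1_ev2, dsn1_ev2, dsn1_map2]

theorem ev2_eq {R S : Type*} [CommRing R] [CommRing S] (φ : R →+* S) (x y : S) (W : R[X][X]) :
    ev2 φ x y W = (map2 φ W).evalEval x y :=
  dsn1_ev2 φ x y W

theorem map_evalEval {R S : Type*} [CommRing R] [CommRing S] (φ : R →+* S) (x y : R)
    (W : R[X][X]) : φ (W.evalEval x y) = ev2 φ (φ x) (φ y) W := by
  rw [dsn1_ev2]
  exact (map_mapRingHom_evalEval φ W x y).symm

theorem map2_inj {R S : Type*} [CommRing R] [CommRing S] {φ : R →+* S}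
    (h : Function.Injective φ) : Function.Injective (map2 φ) :=
  map_injective _ (map_injective φ h)

theorem map2_map2 {R S T : Type*} [CommRing R] [CommRing S] [CommRing T] (φ : R →+* S)
    (ψ : S →+* T) (W : R[X][X]) : map2 ψ (map2 φ W) = map2 (ψ.comp φ) W :=
  dsn1_map2 φ ψ W

theorem map2_cmb {R S T ι : Type*} [CommRing R] [CommRing S] [CommRing T] [Fintype ι] (φ : R →+* S)
    (ψ : S →+* T) (P : ι → R[X][X]) (c : ι → S) :
    map2 ψ (cmb φ P c) = cmb (ψ.comp φ) P fun k => ψ (c k) := by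
  simp only [cmb, map_sum, map_mul, map2_map2]
  refine Finset.sum_congr rfl fun k _ => ?_
  simp

end Pool.Agent.P.MP_68214b_ag.DS
end

-- part Pool.Agent.P.MP_68214b_ag.DSN4
section

open Polynomial Filter Asymptotics NumberField Topology

namespace Pool.Agent.P.MP_68214b_ag.DS

variable {K : Type} [Field K] [NumberField K]

theorem liou {x : K} (hx : IsIntegral ℤ x) (h0 : x ≠ 0) (σ : K →+* ℂ) :
    1 ≤ ‖σ x‖ * house x ^ Module.finrank ℚ K := by
  obtain ⟨m, hm⟩ := IsIntegrallyClosed.isIntegral_iff.1 (Algebra.isIntegral_norm ℚ hx)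
  have h1 : m ≠ 0 := fun e => Algebra.norm_ne_zero_iff.2 h0 (by rw [← hm, e, map_zero])
  have h2 : 1 ≤ ‖Algebra.norm ℚ x‖ := by
    rw [← hm, eq_intCast, Int.norm_cast_rat, Int.norm_eq_abs]
    exact_mod_cast Int.one_le_abs h1
  exact h2.trans ((norm_norm_le_norm_mul_house_pow x σ).trans (mul_le_mul_of_nonneg_left
    (pow_le_pow_right₀ (one_le_house_of_isIntegral hx h0) (Nat.sub_le _ _)) (norm_nonneg _)))

theorem lv_nO (σ : K →+* ℂ) :
    LV (nO K) (σ.comp (algebraMap (𝓞 K) K)) (Module.finrank ℚ K) :=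
  ⟨fun a => norm_embedding_le_house (a : K) σ,
    fun a h => liou a.isIntegral_coe (RingOfIntegers.coe_ne_zero_iff.2 h) σ⟩

theorem exists_house (x : K) : ∃ σ : K →+* ℂ, house x = ‖σ x‖ := by
  obtain ⟨σ, -, h⟩ := Finset.exists_mem_eq_sup' Finset.univ_nonempty fun φ : K →+* ℂ => ‖φ x‖₊
  exact ⟨σ, by rw [house_eq_sup', h]; rfl⟩

theorem house_map {F : Type} [Field F] [NumberField F] (ι : K →+* F) (x : K) :
    house (ι x) ≤ house x := by
  obtain ⟨σ, h⟩ := exists_house (ι x)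
  exact h.trans_le (norm_embedding_le_house x (σ.comp ι))

theorem exists_den (s : Finset K) : ∃ N : ℕ, 0 < N ∧ ∀ x ∈ s, IsIntegral ℤ ((N : K) * x) := by
  obtain ⟨y, hy, h⟩ := exists_integral_multiples ℤ ℚ s
  refine ⟨y.natAbs, Int.natAbs_pos.2 hy, fun x hx => ?_⟩
  have := h x hx
  rw [zsmul_eq_mul] at this
  rcases Int.natAbs_eq y with e | e
  · rwa [e, Int.cast_natCast] at this
  · rw [e, Int.cast_neg, Int.cast_natCast, neg_mul] at this
    simpa using this.neg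

theorem dsn4_lift {N : ℕ} {p : K[X]} (h : ∀ i, IsIntegral ℤ ((N : K) * p.coeff i)) :
    (N : K[X]) * p ∈ Set.range (mapRingHom (algebraMap (𝓞 K) K)) :=
  (mem_lifts _).1 ((lifts_iff_coeff_lifts _).2 fun i =>
    ⟨⟨_, h i⟩, by rw [← C_eq_natCast, coeff_C_mul]; rfl⟩)

theorem exists_den1 (p : K[X]) : ∃ (N : ℕ) (q : (𝓞 K)[X]), 0 < N ∧
    q.map (algebraMap (𝓞 K) K) = (N : K[X]) * p := by
  obtain ⟨N, hN, h⟩ := exists_den p.coeffs
  obtain ⟨q, hq⟩ := dsn4_lift (N := N) (p := p) fun i => by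
    by_cases e : p.coeff i = 0
    · rw [e, mul_zero]; exact isIntegral_zero
    · exact h _ (coeff_mem_coeffs e)
  exact ⟨N, q, hN, hq⟩

theorem exists_den2 (G : K[X][X]) : ∃ (N : ℕ) (G' : (𝓞 K)[X][X]), 0 < N ∧
    map2 (algebraMap (𝓞 K) K) G' = (N : K[X][X]) * G := by
  classical
  obtain ⟨N, hN, h⟩ := exists_den (G.coeffs.biUnion coeffs)
  obtain ⟨q, hq⟩ := (mem_lifts (f := mapRingHom (algebraMap (𝓞 K) K)) ((N : K[X][X]) * G)).1
    ((lifts_iff_coeff_lifts _).2 fun j => by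
      rw [← C_eq_natCast, coeff_C_mul]
      refine dsn4_lift fun i => ?_
      by_cases e : (G.coeff j).coeff i = 0
      · rw [e, mul_zero]; exact isIntegral_zero
      · exact h _ (Finset.mem_biUnion.2 ⟨_, coeff_mem_coeffs fun c => e (by simp [c]),
          coeff_mem_coeffs e⟩))
  exact ⟨N, q, hN, hq⟩

theorem Den.mono {L : Type*} [Field L] {x : L} {N M : ℕ} (h : IsIntegral ℤ ((N : L) * x))
    (hd : N ∣ M) : IsIntegral ℤ ((M : L) * x) := by
  obtain ⟨k, rfl⟩ := hd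
  rw [Nat.cast_mul, mul_right_comm]
  exact h.mul (by simpa using (isIntegral_algebraMap (R := ℤ) (A := L) (x := k)))

theorem Den.add {L : Type*} [Field L] {x y : ℕ → L} (hx : Den x) (hy : Den y) :
    Den fun n => x n + y n := by
  obtain ⟨N, hN, h1⟩ := hx
  obtain ⟨M, hM, h2⟩ := hy
  refine ⟨N * M, mul_pos hN hM, fun n => ?_⟩
  rw [mul_add]
  exact (Den.mono (h1 n) (dvd_mul_right _ _)).add (Den.mono (h2 n) (dvd_mul_left _ _))

theorem Den.mul {L : Type*} [Field L] {x y : ℕ → L} (hx : Den x) (hy : Den y) :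
    Den fun n => x n * y n := by
  obtain ⟨N, hN, h1⟩ := hx
  obtain ⟨M, hM, h2⟩ := hy
  refine ⟨N * M, mul_pos hN hM, fun n => ?_⟩
  rw [Nat.cast_mul, mul_mul_mul_comm]
  exact (h1 n).mul (h2 n)

theorem Den.const (c : K) : Den fun _ => c := by
  obtain ⟨N, hN, h⟩ := exists_den ({c} : Finset K)
  exact ⟨N, hN, fun _ => h c (Finset.mem_singleton_self c)⟩

theorem Den.fin {L ι : Type*} [Field L] (s : Finset ι) {r : ι → ℕ → L} (h : ∀ j ∈ s, Den (r j)) :
    ∃ N : ℕ, 0 < N ∧ ∀ j ∈ s, ∀ n, IsIntegral ℤ ((N : L) * r j n) := by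
  choose! N hN hi using h
  exact ⟨∏ j ∈ s, N j, Finset.prod_pos hN, fun j hj n =>
    Den.mono (hi j hj n) (Finset.dvd_prod_of_mem _ hj)⟩

theorem Den.sum {L ι : Type*} [Field L] (s : Finset ι) {r : ι → ℕ → L} (h : ∀ j ∈ s, Den (r j)) :
    Den fun n => ∑ j ∈ s, r j n := by
  obtain ⟨N, hN, hi⟩ := Den.fin s h
  refine ⟨N, hN, fun n => ?_⟩
  rw [Finset.mul_sum]
  exact IsIntegral.sum _ fun j hj => hi j hj n

theorem Den.pow {L : Type*} [Field L] {x : ℕ → L} (hx : Den x) (k : ℕ) : Den fun n => x n ^ k := by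
  obtain ⟨N, hN, h⟩ := hx
  refine ⟨N ^ k, pow_pos hN k, fun n => ?_⟩
  rw [Nat.cast_pow, ← mul_pow]
  exact (h n).pow k

theorem Den.poly {x : ℕ → K} (hx : Den x) (p : K[X]) : Den fun n => p.eval (x n) := by
  simp only [eval_eq_sum, sum_def]
  exact Den.sum _ fun k _ => (Den.const _).mul (hx.pow k)

theorem Den.ev2 {x y : ℕ → K} (hx : Den x) (hy : Den y) (G : K[X][X]) :
    Den fun n => G.evalEval (x n) (y n) := by
  induction G using Polynomial.induction_on' with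
  | add p q hp hq => simpa only [evalEval_add] using hp.add hq
  | monomial k p =>
    simpa only [evalEval, eval_monomial, eval_mul, eval_pow, eval_C] using (hx.poly p).mul (hy.pow k)

theorem Den.mv {J : Type*} {x : J → ℕ → K} (hx : ∀ i, Den (x i)) (P : MvPolynomial J K) :
    Den fun n => MvPolynomial.eval (fun i => x i n) P := by
  induction P using MvPolynomial.induction_on with
  | C a => simpa only [MvPolynomial.eval_C] using Den.const a
  | add p q hp hq => simpa only [map_add] using hp.add hq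
  | mul_X p i hp => simpa only [map_mul, MvPolynomial.eval_X] using hp.mul (hx i)

theorem mv_house {J : Type*} (P : MvPolynomial J K) {S : ℕ} (hS : P.totalDegree ≤ S) :
    ∃ C : ℝ, ∀ (x : J → K) (t : ℝ), 1 ≤ t → (∀ i, house (x i) ≤ t) →
      house (MvPolynomial.eval x P) ≤ C * t ^ S := by
  refine ⟨∑ m ∈ P.support, house (P.coeff m), fun x t ht hx => ?_⟩
  rw [MvPolynomial.eval_eq, Finset.sum_mul]
  refine (house_sum_le_sum_house _ _).trans (Finset.sum_le_sum fun m hm => (house_mul_le _ _).trans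
    (mul_le_mul_of_nonneg_left (((nH K).prod_le _ _).trans ?_) (house_nonneg _)))
  refine (Finset.prod_le_prod (fun i _ => house_nonneg _) fun i _ => (house_pow_le _ _).trans
    (pow_le_pow_left₀ (house_nonneg _) (hx i) _)).trans ?_
  rw [Finset.prod_pow_eq_pow_sum]
  exact pow_le_pow_right₀ ht ((MvPolynomial.le_totalDegree hm).trans hS)

theorem growth_up {f : K[X]} (hd : 2 ≤ f.natDegree) {x : ℕ → K}
    (h : ∀ n, x (n + 1) = f.eval (x n)) :
    ∃ Λ : ℝ, 1 ≤ Λ ∧ ∀ n, house (x n) ≤ Λ ^ f.natDegree ^ n := by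
  obtain ⟨A, h1, h2⟩ : ∃ A : ℝ, 1 ≤ A ∧ (nH K).l1.f f ≤ A := ⟨_, le_max_left _ _, le_max_right _ _⟩
  have hM : ∀ n, 1 ≤ max 1 (house (x n)) := fun n => le_max_left _ _
  have key : ∀ n, A * max 1 (house (x n)) ≤ (A * max 1 (house (x 0))) ^ f.natDegree ^ n := by
    intro n
    induction n with
    | zero => simp
    | succ n ih =>
      have h3 : house (x (n + 1)) ≤ A * max 1 (house (x n)) ^ f.natDegree := by
        rw [h]
        exact ((nH K).eval₂_le (nH K) (RingHom.id K) (fun _ => le_rfl) (hM n) (le_max_right _ _)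
          le_rfl).trans (mul_le_mul_of_nonneg_right h2 (by positivity))
      have h4 : max 1 (house (x (n + 1))) ≤ A * max 1 (house (x n)) ^ f.natDegree :=
        max_le (one_le_mul_of_one_le_of_one_le h1 (one_le_pow₀ (hM n))) h3
      rw [pow_succ, pow_mul]
      refine le_trans ?_ (pow_le_pow_left₀ (by positivity) ih _)
      rw [mul_pow]
      refine (mul_le_mul_of_nonneg_left h4 (by positivity)).trans ?_
      rw [← mul_assoc, ← pow_two]
      exact mul_le_mul_of_nonneg_right (pow_le_pow_right₀ h1 hd) (by positivity)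
  exact ⟨_, one_le_mul_of_one_le_of_one_le h1 (hM 0), fun n => ((le_max_right _ _).trans
    (le_mul_of_one_le_left (by positivity) h1)).trans (key n)⟩

end Pool.Agent.P.MP_68214b_ag.DS
end

-- part Pool.Agent.P.MP_68214b_ag.DSN5
section

open Polynomial Filter Asymptotics NumberField Topology

namespace Pool.Agent.P.MP_68214b_ag.DS

variable {K : Type} [Field K] [NumberField K]

theorem alg0_of_finite {L : Type*} [Field L] {x : ℕ → L} (h : (Set.range x).Finite) : Alg0 x := by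
  refine ⟨∏ a ∈ h.toFinset, (X - C a), Finset.prod_ne_zero_iff.2 fun a _ => X_sub_C_ne_zero a,
    Eventually.of_forall fun n => ?_⟩
  rw [eval_prod]
  exact Finset.prod_eq_zero (h.mem_toFinset.2 ⟨n, rfl⟩) (by simp)

theorem alg0_of_eq {L : Type*} [Field L] {f : L[X]} {x : ℕ → L} (hs : ∀ n, x (n + 1) = f.eval (x n))
    {n m : ℕ} (h : n < m) (e : x n = x m) : Alg0 x := by
  have p : ∀ t, x (n + t) = x (m + t) := fun t => by
    induction t with
    | zero => exact e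
    | succ t ih => rw [← add_assoc, ← add_assoc, hs, hs, ih]
  have q : ∀ k, x k ∈ x '' Set.Iio m := fun k => by
    induction k using Nat.strong_induction_on with
    | _ k ih =>
      by_cases hk : k < m
      · exact ⟨k, hk, rfl⟩
      · obtain ⟨t, rfl⟩ := Nat.exists_eq_add_of_le (not_lt.1 hk)
        rw [← p]; exact ih _ (by omega)
  exact alg0_of_finite (((Set.finite_Iio m).image x).subset (Set.range_subset_iff.2 q))

theorem alg0_of_freq {L : Type*} [Field L] {f : L[X]} {x : ℕ → L}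
    (hs : ∀ n, x (n + 1) = f.eval (x n)) (σ : L →+* ℂ) {B : Set ℂ} (hB : B.Finite)
    (h : ∃ᶠ n in atTop, σ (x n) ∈ B) : Alg0 x := by
  have hi := Nat.frequently_atTop_iff_infinite.1 h
  obtain ⟨n, -, m, -, hlt, e⟩ := hi.exists_lt_map_eq_of_mapsTo (f := fun n => σ (x n))
    (fun n hn => hn) hB
  exact alg0_of_eq hs hlt (σ.injective e)

theorem exists_unbdd {x : ℕ → K} (hi : Den x) (h0 : ¬ Alg0 x) :
    ∃ σ : K →+* ℂ, ¬ Bdd σ x := by
  by_contra hc
  have hc' : ∀ σ : K →+* ℂ, Bdd σ x := fun σ => by_contra fun h => hc ⟨σ, h⟩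
  choose B hB using hc'
  obtain ⟨M, hM⟩ := (Set.finite_range B).bddAbove
  obtain ⟨N, hN, hi⟩ := hi
  have N0 : (N : K) ≠ 0 := Nat.cast_ne_zero.2 hN.ne'
  refine h0 (alg0_of_finite (((Embeddings.finite_of_norm_le K ℂ (N * M)).image
    fun z => (N : K)⁻¹ * z).subset ?_))
  rintro _ ⟨n, rfl⟩
  refine ⟨N * x n, ⟨hi n, fun σ => ?_⟩, inv_mul_cancel_left₀ N0 _⟩
  rw [map_mul, map_natCast, norm_mul, Complex.norm_natCast]
  exact mul_le_mul_of_nonneg_left ((hB σ n).trans (hM ⟨σ, rfl⟩)) (Nat.cast_nonneg N)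

theorem dsn5_root {ρ : ℝ} (h : 1 < ρ) {m : ℕ} (hm : m ≠ 0) : ∃ r : ℝ, 1 < r ∧ r ^ m = ρ :=
  ⟨ρ ^ (m : ℝ)⁻¹, Real.one_lt_rpow h (inv_pos.2 (Nat.cast_pos.2 (Nat.pos_of_ne_zero hm))),
    Real.rpow_inv_natCast_pow (by linarith) hm⟩

theorem dsn5_low {g : ℂ[X]} (hm : g.Monic) (hd : 2 ≤ g.natDegree) :
    ∃ R : ℝ, 4 ≤ R ∧ ∀ z : ℂ, R ≤ ‖z‖ → ‖z‖ ^ g.natDegree ≤ 2 * ‖g.eval z‖ := by
  obtain ⟨e, he⟩ : ∃ e, g.natDegree = e + 1 := ⟨g.natDegree - 1, by omega⟩
  refine ⟨max 4 (2 * ∑ i ∈ Finset.range g.natDegree, ‖g.coeff i‖), le_max_left _ _, fun z hz => ?_⟩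
  have h1 : (1 : ℝ) ≤ ‖z‖ := by have := (le_max_left _ _).trans hz; linarith
  have h2 := (le_max_right _ _).trans hz
  have h3 : z ^ g.natDegree = g.eval z - ∑ i ∈ Finset.range g.natDegree, g.coeff i * z ^ i := by
    rw [eval_eq_sum_range, Finset.sum_range_succ, hm.coeff_natDegree]; ring
  have h4 : ‖∑ i ∈ Finset.range g.natDegree, g.coeff i * z ^ i‖ ≤
      (∑ i ∈ Finset.range g.natDegree, ‖g.coeff i‖) * ‖z‖ ^ e := by
    rw [Finset.sum_mul]
    refine (norm_sum_le _ _).trans (Finset.sum_le_sum fun i hi => ?_)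
    rw [norm_mul, norm_pow]
    have := Finset.mem_range.1 hi
    exact mul_le_mul_of_nonneg_left (pow_le_pow_right₀ h1 (by omega)) (norm_nonneg _)
  have h5 : ‖z‖ ^ g.natDegree ≤ ‖g.eval z‖ +
      (∑ i ∈ Finset.range g.natDegree, ‖g.coeff i‖) * ‖z‖ ^ e := by
    rw [← norm_pow, h3]
    exact (norm_sub_le _ _).trans (by linarith)
  have h6 : ‖z‖ ^ g.natDegree = ‖z‖ * ‖z‖ ^ e := by rw [he, pow_succ']
  have h7 := mul_le_mul_of_nonneg_right h2 (pow_nonneg (norm_nonneg z) e)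
  linarith

theorem escape {g : ℂ[X]} (hm : g.Monic) (hd : 2 ≤ g.natDegree) {z : ℕ → ℂ}
    (hs : ∀ n, z (n + 1) = g.eval (z n)) (hz : ¬ ∃ B : ℝ, ∀ n, ‖z n‖ ≤ B) :
    ∃ ρ : ℝ, 1 < ρ ∧ ∀ᶠ n in atTop, ρ ^ g.natDegree ^ n ≤ ‖z n‖ := by
  obtain ⟨R, hR, hl⟩ := dsn5_low hm hd
  obtain ⟨n0, h0⟩ : ∃ n0, R ≤ ‖z n0‖ := by
    by_contra hc
    exact hz ⟨R, fun n => (not_le.1 fun h => hc ⟨n, h⟩).le⟩
  obtain ⟨w, hw⟩ : ∃ w : ℝ, ‖z n0‖ = 2 * w := ⟨‖z n0‖ / 2, by ring⟩
  have w1 : 1 < w := by linarith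
  have key : ∀ t, 2 * w ^ g.natDegree ^ t ≤ ‖z (n0 + t)‖ := fun t => by
    induction t with
    | zero => simp [hw]
    | succ t ih =>
      have a : w ≤ w ^ g.natDegree ^ t := le_self_pow₀ w1.le (pow_ne_zero _ (by omega))
      have b := hl (z (n0 + t)) (by linarith)
      have c := pow_le_pow_left₀ (by positivity) ih g.natDegree
      have d : (2 : ℝ) ^ 2 ≤ 2 ^ g.natDegree := pow_le_pow_right₀ (by norm_num) hd
      rw [mul_pow, ← pow_mul, ← pow_succ] at c
      have e : (0 : ℝ) ≤ w ^ g.natDegree ^ (t + 1) := by positivity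
      have f := mul_le_mul_of_nonneg_right d e
      rw [← add_assoc, hs]
      linarith
  obtain ⟨r, r1, hr⟩ := dsn5_root w1 (m := g.natDegree ^ n0) (pow_ne_zero _ (by omega))
  refine ⟨r, r1, eventually_atTop.2 ⟨n0, fun n hn => ?_⟩⟩
  obtain ⟨t, rfl⟩ := Nat.exists_eq_add_of_le hn
  rw [pow_add, pow_mul, hr]
  have := key t
  have e : (0 : ℝ) ≤ w ^ g.natDegree ^ t := by positivity
  linarith

theorem Orb.escape {L : Type*} [Field L] {f : L[X]} {x : ℕ → L} (h : Orb f x) (σ : L →+* ℂ)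
    (hb : ¬ Bdd σ x) : ∃ ρ : ℝ, 1 < ρ ∧ ∀ᶠ n in atTop, ρ ^ f.natDegree ^ n ≤ ‖σ (x n)‖ := by
  have := DS.escape (g := f.map σ) (h.monic.map σ) (by rw [natDegree_map]; exact h.deg)
    (z := fun n => σ (x n)) (fun n => by rw [h.step, eval_map, eval₂_hom]) hb
  rwa [natDegree_map] at this

theorem growth_low {f : K[X]} {x : ℕ → K} (h : Orb f x) (hi : Den x) (h0 : ¬ Alg0 x) :
    ∃ ρ : ℝ, 1 < ρ ∧ ∀ᶠ n in atTop, ρ ^ f.natDegree ^ n ≤ house (x n) := by
  obtain ⟨σ, hσ⟩ := exists_unbdd hi h0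
  obtain ⟨ρ, h1, h2⟩ := h.escape σ hσ
  exact ⟨ρ, h1, h2.mono fun n hn => hn.trans (norm_embedding_le_house _ σ)⟩

theorem dsn5_top {d : ℕ} (hd : 2 ≤ d) : Tendsto (fun n : ℕ => d ^ n) atTop atTop :=
  tendsto_pow_atTop_atTop_of_one_lt (by omega)

theorem tend_pp {lam : ℝ} (h0 : 0 ≤ lam) (h1 : lam < 1) {d : ℕ} (hd : 2 ≤ d) :
    Tendsto (fun n => lam ^ d ^ n) atTop (𝓝 0) :=
  (tendsto_pow_atTop_nhds_zero_of_lt_one h0 h1).comp (dsn5_top hd)

theorem tend_pp_top {ρ : ℝ} (h1 : 1 < ρ) {d : ℕ} (hd : 2 ≤ d) :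
    Tendsto (fun n => ρ ^ d ^ n) atTop atTop :=
  (tendsto_pow_atTop_atTop_of_one_lt h1).comp (dsn5_top hd)

theorem tend_ppC {t : ℂ} (h1 : ‖t‖ < 1) {d : ℕ} (hd : 2 ≤ d) :
    Tendsto (fun n => t ^ d ^ n) atTop (𝓝 0) :=
  (tendsto_pow_atTop_nhds_zero_of_norm_lt_one h1).comp (dsn5_top hd)

theorem ev_pp_le {e d : ℕ} (h : e < d) {Λ ρ : ℝ} (hΛ : 1 ≤ Λ) (hρ : 1 < ρ) :
    ∀ᶠ n in atTop, Λ ^ e ^ n ≤ ρ ^ d ^ n := by
  obtain ⟨k, hk⟩ := pow_unbounded_of_one_lt Λ hρ
  have d0 : (0 : ℝ) < d := Nat.cast_pos.2 (by omega)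
  have t := (tendsto_pow_atTop_nhds_zero_of_lt_one (r := (e : ℝ) / d) (by positivity)
    ((div_lt_one d0).2 (Nat.cast_lt.2 h))).const_mul (k : ℝ)
  rw [mul_zero] at t
  refine (t.eventually_lt_const one_pos).mono fun n hn => ?_
  rw [div_pow, ← mul_div_assoc, div_lt_one (by positivity)] at hn
  have q : k * e ^ n ≤ d ^ n := by exact_mod_cast hn.le
  calc Λ ^ e ^ n ≤ (ρ ^ k) ^ e ^ n := pow_le_pow_left₀ (by linarith) hk.le _
    _ ≤ _ := by rw [← pow_mul]; exact pow_le_pow_right₀ hρ.le q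

theorem deg_le {d e k : ℕ} (he : 2 ≤ e) {ρ Λ C : ℝ} (hρ : 1 < ρ) (hΛ : 1 ≤ Λ)
    (h : ∀ᶠ n in atTop, ρ ^ d ^ n ≤ C * (Λ ^ e ^ n) ^ k) : d ≤ e := by
  by_contra hc
  have hc := not_le.1 hc
  obtain ⟨r, r1, rfl⟩ := dsn5_root hρ two_ne_zero
  obtain ⟨n, h1, h2, h3⟩ := (h.and ((ev_pp_le hc (one_le_pow₀ hΛ (n := k)) r1).and
    ((tend_pp_top r1 (d := d) (by omega)).eventually_gt_atTop C))).exists
  rw [← pow_mul, mul_comm 2, pow_mul, ← pow_mul Λ, mul_comm _ k, pow_mul] at h1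
  have p : (0 : ℝ) < (Λ ^ k) ^ e ^ n := by positivity
  have q : (0 : ℝ) < r ^ d ^ n := by positivity
  nlinarith [mul_lt_mul_of_pos_right h3 p, mul_le_mul_of_nonneg_left h2 q.le]

theorem low_root {d k : ℕ} (hd : 2 ≤ d) {ρ C : ℝ} (hρ : 1 < ρ) {h : ℕ → ℝ}
    (H : ∀ᶠ n in atTop, ρ ^ d ^ n ≤ C * max 1 (h n) ^ k) :
    ∃ ρ' : ℝ, 1 < ρ' ∧ ∀ᶠ n in atTop, ρ' ^ d ^ n ≤ h n := by
  obtain ⟨r, r1, rfl⟩ := dsn5_root hρ (Nat.succ_ne_zero k)
  refine ⟨r, r1, (H.and ((tend_pp_top r1 hd).eventually_gt_atTop C)).mono fun n ⟨h1, h2⟩ => ?_⟩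
  by_contra hc
  have u : 1 ≤ r ^ d ^ n := one_le_pow₀ r1.le
  have a : max 1 (h n) ≤ r ^ d ^ n := max_le u (not_le.1 hc).le
  have p : 0 < max 1 (h n) := lt_of_lt_of_le one_pos (le_max_left _ _)
  have b := pow_le_pow_left₀ p.le a k
  rw [← pow_mul, mul_comm, pow_mul, pow_succ'] at h1
  have c := mul_lt_mul_of_pos_right h2 (pow_pos p k)
  have e := mul_le_mul_of_nonneg_left b (by linarith : (0 : ℝ) ≤ r ^ d ^ n)
  linarith

end Pool.Agent.P.MP_68214b_ag.DS
end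

-- part Pool.Agent.P.MP_68214b_ag.DSS7
section

open Polynomial Filter Asymptotics NumberField Topology

namespace Pool.Agent.P.MP_68214b_ag.DS

theorem dss7_mono {𝓕 : Filter ℕ} {d : ℕ} {a b : ℝ} (h0 : 0 ≤ a) (h : a ≤ b) :
    (fun n => a ^ d ^ n) =O[𝓕] fun n => b ^ d ^ n := by
  refine isBigO_of_le _ fun n => ?_
  rw [Real.norm_of_nonneg (pow_nonneg h0 _), Real.norm_of_nonneg (pow_nonneg (h0.trans h) _)]
  exact pow_le_pow_left₀ h0 h _

theorem dss7_main {𝓕 : Filter ℕ} {d : ℕ} (α v : ℂ) {b : ℝ} (h : ‖v‖ ≤ b) :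
    (fun n => α * v ^ d ^ n) =O[𝓕] fun n => b ^ d ^ n := by
  refine IsBigO.const_mul_left (isBigO_of_le _ fun n => ?_) α
  rw [norm_pow, Real.norm_of_nonneg (pow_nonneg ((norm_nonneg v).trans h) _)]
  exact pow_le_pow_left₀ (norm_nonneg v) h _

theorem dss7_no {𝓕 : Filter ℕ} [𝓕.NeBot] (hF : 𝓕 ≤ atTop) {d : ℕ} (hd : 2 ≤ d) {a t ρ : ℝ}
    (ha : 0 < a) (h0 : 0 < t) (ht : t < ρ) {r : ℕ → ℂ} (hr : ∀ᶠ n in 𝓕, a * ρ ^ d ^ n ≤ ‖r n‖)
    (hO : r =O[𝓕] fun n => t ^ d ^ n) : False := by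
  obtain ⟨C, hC⟩ := hO.bound
  have hρ : 0 < ρ := h0.trans ht
  have h1 := ((tend_pp (div_pos h0 hρ).le ((div_lt_one hρ).2 ht) hd).mono_left hF).const_mul C
  rw [mul_zero] at h1
  refine absurd (ge_of_tendsto h1 ?_) (not_le.2 ha)
  filter_upwards [hr, hC] with n h2 h3
  rw [Real.norm_of_nonneg (pow_pos h0 _).le] at h3
  rw [div_pow, ← mul_div_assoc, le_div_iff₀ (pow_pos hρ _)]
  exact h2.trans h3

theorem dss7_pow (c : ℂ) (k : ℕ) :
    ∃ M : ℝ, 0 ≤ M ∧ ∀ q : ℂ, ‖q‖ = 1 → ‖q ^ k - c ^ k‖ ≤ M * ‖q - c‖ := by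
  induction k with
  | zero => exact ⟨0, le_rfl, fun q _ => by simp⟩
  | succ k ih =>
    obtain ⟨M, h0, hM⟩ := ih
    refine ⟨M + ‖c‖ ^ k, by positivity, fun q hq => ?_⟩
    have e : q ^ (k + 1) - c ^ (k + 1) = q * (q ^ k - c ^ k) + c ^ k * (q - c) := by ring
    rw [e]
    refine (norm_add_le _ _).trans ?_
    rw [norm_mul, norm_mul, hq, norm_pow, one_mul, add_mul]
    linarith [hM q hq]

theorem sml_of_bdd {𝓕 : Filter ℕ} {d : ℕ} {r : ℕ → ℂ} (h : r =O[𝓕] fun _ => (1 : ℝ)) :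
    Sml 𝓕 d r := by
  intro ρ hρ
  refine h.trans (isBigO_of_le _ fun n => ?_)
  rw [norm_one, Real.norm_of_nonneg (pow_nonneg (by linarith) _)]
  exact one_le_pow₀ hρ.le

theorem fin_top {ι : Type*} [DecidableEq ι] (s : Finset ι) {𝓕 : Filter ℕ} [𝓕.NeBot] (hF : 𝓕 ≤ atTop)
    {d : ℕ} (hd : 2 ≤ d) (r : ι → ℕ → ℂ) (hs : (fun n => ∑ b ∈ s, r b n) =O[𝓕] fun _ => (1 : ℝ))
    (B : Finset ι) (hB : B ⊆ s) (hne : B.Nonempty) (α z : ι → ℂ) (E : ι → ℕ)
    (hbig : ∀ b ∈ B, Big 𝓕 d (r b) (α b) (z b) (E b)) (hsm : ∀ b ∈ s, b ∉ B → Sml 𝓕 d (r b)) :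
    ∃ (T : Finset ι) (ρ lam : ℝ), T ⊆ B ∧ 2 ≤ T.card ∧ 1 < ρ ∧ 0 ≤ lam ∧ lam < 1 ∧
      (∀ b ∈ T, ‖z b‖ ^ E b = ρ) ∧
      (fun n => ∑ b ∈ T, α b * (z b ^ E b) ^ d ^ n) =O[𝓕] fun n => (lam * ρ) ^ d ^ n := by
  classical
  obtain ⟨b0, hb0, hmax⟩ := Finset.exists_max_image B (fun b => ‖z b‖ ^ E b) hne
  set ρ := ‖z b0‖ ^ E b0 with hρ
  have h1 : 1 < ρ := one_lt_pow₀ (hbig b0 hb0).s1 (hbig b0 hb0).e1.ne'
  have hev : ∀ c < ρ, ∀ᶠ t in 𝓝[<] ρ, c < t := fun c hc =>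
    mem_of_superset (Ioo_mem_nhdsLT hc) fun _ h => h.1
  have hA : ∀ᶠ t in 𝓝[<] ρ, ∀ b ∈ B, ‖z b‖ ^ (E b - 1) < t :=
    (Finset.eventually_all B).2 fun b hb => hev _ (lt_of_lt_of_le
      (pow_lt_pow_right₀ (hbig b hb).s1 (Nat.sub_one_lt (hbig b hb).e1.ne')) (hmax b hb))
  have hC : ∀ᶠ t in 𝓝[<] ρ, ∀ b ∈ B, ‖z b‖ ^ E b ≠ ρ → ‖z b‖ ^ E b < t :=
    (Finset.eventually_all B).2 fun b hb => by
      by_cases he : ‖z b‖ ^ E b = ρ
      · exact Eventually.of_forall fun t h => absurd he h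
      · exact (hev _ (lt_of_le_of_ne (hmax b hb) he)).mono fun t h _ => h
  obtain ⟨t, ⟨⟨ht1, htA⟩, htC⟩, htρ⟩ :=
    ((((hev 1 h1).and hA).and hC).and self_mem_nhdsWithin).exists
  have htρ' : t < ρ := htρ
  set T := B.filter fun b => ‖z b‖ ^ E b = ρ with hT
  have hTB : T ⊆ B := Finset.filter_subset _ _
  have happ : ∀ b ∈ B, (fun n => r b n - α b * (z b ^ E b) ^ d ^ n) =O[𝓕] fun n => t ^ d ^ n :=
    fun b hb => (hbig b hb).app.trans (dss7_mono (by positivity) (htA b hb).le)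
  have hrest : ∀ b ∈ s \ T, r b =O[𝓕] fun n => t ^ d ^ n := by
    intro b hb
    obtain ⟨hbs, hbT⟩ := Finset.mem_sdiff.1 hb
    by_cases hbB : b ∈ B
    · have hne' : ‖z b‖ ^ E b ≠ ρ := fun h => hbT (Finset.mem_filter.2 ⟨hbB, h⟩)
      have := (happ b hbB).add (dss7_main (α b) (z b ^ E b)
        (by rw [norm_pow]; exact (htC b hbB hne').le))
      simpa using this
    · exact hsm b hbs hbB t ht1
  have hmain : (fun n => ∑ b ∈ T, α b * (z b ^ E b) ^ d ^ n) =O[𝓕] fun n => t ^ d ^ n := by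
    have := ((sml_of_bdd hs t ht1).sub (IsBigO.sum hrest)).sub
      (IsBigO.sum fun b hb => happ b (hTB hb))
    refine this.congr_left fun n => ?_
    rw [← Finset.sum_sdiff (hTB.trans hB), Finset.sum_apply, Finset.sum_apply,
      Finset.sum_sub_distrib]
    ring
  have hρ0 : 0 < ρ := by linarith
  refine ⟨T, ρ, t / ρ, hTB, ?_, h1, by positivity, (div_lt_one hρ0).2 htρ',
    fun b hb => (Finset.mem_filter.1 hb).2, by rwa [div_mul_cancel₀ _ hρ0.ne']⟩
  by_contra hc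
  have hb0T : b0 ∈ T := Finset.mem_filter.2 ⟨hb0, rfl⟩
  have hT1 : T = {b0} := Finset.eq_singleton_iff_unique_mem.2
    ⟨hb0T, fun b hb => Finset.card_le_one.1 (by omega) b hb b0 hb0T⟩
  rw [hT1] at hmain
  refine dss7_no hF hd (norm_pos_iff.2 (hbig b0 hb0).a0) (by linarith) htρ'
    (Eventually.of_forall fun n => ?_) hmain
  rw [Finset.sum_singleton, norm_mul, norm_pow, norm_pow]

theorem pair_near {𝓕 : Filter ℕ} {d : ℕ} {v w α α' : ℂ} {ρ lam : ℝ} (hρ : 1 < ρ) (h0 : 0 ≤ lam)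
    (h1 : lam < 1) (hv : ‖v‖ = ρ) (hw : ‖w‖ = ρ) (hα : α ≠ 0)
    (h : (fun n => α * v ^ d ^ n + α' * w ^ d ^ n) =O[𝓕] fun n => (lam * ρ) ^ d ^ n) (k : ℕ) :
    ∃ C : ℝ, ∀ᶠ n in 𝓕, ‖(v ^ k) ^ d ^ n / (w ^ k) ^ d ^ n - (-α' / α) ^ k‖ ≤ C * lam ^ d ^ n := by
  obtain ⟨C, hC⟩ := h.bound
  obtain ⟨M, hM0, hM⟩ := dss7_pow (-α' / α) k
  have hρ0 : 0 < ρ := by linarith
  have hw0 : w ≠ 0 := norm_pos_iff.1 (hw ▸ hρ0)
  have hα0 : 0 < ‖α‖ := norm_pos_iff.2 hα
  refine ⟨M * (C / ‖α‖), hC.mono fun n hn => ?_⟩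
  have hp : 0 < ρ ^ d ^ n := pow_pos hρ0 _
  have hq : ‖v ^ d ^ n / w ^ d ^ n‖ = 1 := by
    rw [norm_div, norm_pow, norm_pow, hv, hw, div_self hp.ne']
  rw [pow_right_comm v, pow_right_comm w, ← div_pow, mul_assoc]
  refine (hM _ hq).trans (mul_le_mul_of_nonneg_left ?_ hM0)
  have hwn : w ^ d ^ n ≠ 0 := pow_ne_zero _ hw0
  have e : v ^ d ^ n / w ^ d ^ n - -α' / α =
      (α * v ^ d ^ n + α' * w ^ d ^ n) / (α * w ^ d ^ n) := by
    field_simp
    ring
  rw [Real.norm_of_nonneg (by positivity), mul_pow] at hn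
  rw [e, norm_div, norm_mul, norm_pow, hw, div_le_iff₀ (by positivity)]
  refine hn.trans (le_of_eq ?_)
  field_simp

theorem sml_of_lt {𝓕 : Filter ℕ} (hF : 𝓕 ≤ atTop) {e d : ℕ} (h : e < d) {Λ : ℝ} (hΛ : 1 ≤ Λ)
    {r : ℕ → ℂ} (hr : r =O[𝓕] fun n => Λ ^ e ^ n) : Sml 𝓕 d r := by
  intro ρ hρ
  refine hr.trans (IsBigO.of_bound' (((ev_pp_le h hΛ hρ).filter_mono hF).mono fun n hn => ?_))
  rwa [Real.norm_of_nonneg (pow_nonneg (by linarith) _),
    Real.norm_of_nonneg (pow_nonneg (by linarith) _)]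

theorem not_sml {𝓕 : Filter ℕ} [𝓕.NeBot] (hF : 𝓕 ≤ atTop) {d : ℕ} (hd : 2 ≤ d) {ρ : ℝ} (hρ : 1 < ρ)
    {r : ℕ → ℂ} (hr : ∀ᶠ n in 𝓕, ρ ^ d ^ n ≤ ‖r n‖) : ¬ Sml 𝓕 d r := by
  intro hs
  exact dss7_no hF hd one_pos (t := (1 + ρ) / 2) (ρ := ρ) (by linarith) (by linarith)
    (hr.mono fun n hn => by rwa [one_mul]) (hs _ (by linarith))

end Pool.Agent.P.MP_68214b_ag.DS
end

-- part Pool.Agent.P.MP_68214b_ag.DSC2x
section

open Polynomial Filter Asymptotics NumberField Topology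

namespace Pool.Agent.P.MP_68214b_ag.DS

theorem dsc2x_prod (s : Multiset ℂ) (z : ℂ) {m : ℝ} (hm : 0 ≤ m) (h : ∀ r ∈ s, m ≤ ‖z - r‖) :
    m ^ s.card ≤ ‖(s.map (z - ·)).prod‖ := by
  induction s using Multiset.induction_on with
  | empty => simp
  | cons a s ih =>
    rw [Multiset.map_cons, Multiset.prod_cons, Multiset.card_cons, norm_mul, pow_succ']
    exact mul_le_mul (h a (Multiset.mem_cons_self _ _))
      (ih fun r hr => h r (Multiset.mem_cons_of_mem hr)) (by positivity) (norm_nonneg _)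

theorem root_prod {g : ℂ[X]} (hg : 0 < g.natDegree) (z : ℂ) :
    ∃ β ∈ g.roots.toFinset, ‖g.leadingCoeff‖ * ‖z - β‖ ^ g.natDegree ≤ ‖g.eval z‖ := by
  classical
  have hs := IsAlgClosed.splits g
  have hc := hs.natDegree_eq_card_roots
  have hne : g.roots.toFinset.Nonempty := by
    rw [Multiset.toFinset_nonempty, ← Multiset.card_pos, ← hc]; exact hg
  obtain ⟨β, hβ, hmin⟩ := g.roots.toFinset.exists_min_image (fun r => ‖z - r‖) hne
  refine ⟨β, hβ, ?_⟩
  rw [hs.eval_eq_prod_roots, norm_mul, hc]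
  gcongr
  exact dsc2x_prod _ _ (norm_nonneg _) fun r hr => hmin r (Multiset.mem_toFinset.2 hr)

theorem root_exp {lam : ℝ} (h0 : 0 ≤ lam) (h1 : lam < 1) {e : ℕ} (he : 0 < e) :
    ∃ l : ℝ, 0 ≤ l ∧ l < 1 ∧ ∀ C : ℝ, ∃ C' : ℝ, ∀ (t : ℝ) (N : ℕ), 0 ≤ t → t ^ e ≤ C * lam ^ N →
      t ≤ C' * l ^ N := by
  have h := Real.rpow_inv_natCast_pow h0 he.ne'
  have l0 : 0 ≤ lam ^ ((e : ℝ)⁻¹) := Real.rpow_nonneg h0 _
  refine ⟨_, l0, (pow_lt_one_iff_of_nonneg l0 he.ne').1 (by rwa [h]), fun C =>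
    ⟨max 1 C, fun t N ht hN => ?_⟩⟩
  refine le_of_pow_le_pow_left₀ he.ne' (by positivity) (hN.trans ?_)
  rw [mul_pow, ← pow_mul, mul_comm N, pow_mul, h]
  gcongr
  exact (le_max_right 1 C).trans (le_self_pow₀ (le_max_left _ _) he.ne')

theorem root_near {g : ℂ[X]} (hg : g ≠ 0) {𝓕 : Filter ℕ} [𝓕.NeBot] (hF : 𝓕 ≤ atTop) {d : ℕ}
    (hd : 2 ≤ d) {W : ℕ → ℂ} {lam : ℝ} (h0 : 0 ≤ lam) (h1 : lam < 1)
    (h : (fun n => g.eval (W n)) =O[𝓕] fun n => lam ^ d ^ n) :
    ∃ (β : ℂ) (C l : ℝ), g.IsRoot β ∧ 0 ≤ l ∧ l < 1 ∧ ∃ᶠ n in 𝓕, ‖W n - β‖ ≤ C * l ^ d ^ n := by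
  classical
  have lc : 0 < ‖g.leadingCoeff‖ := norm_pos_iff.2 (leadingCoeff_ne_zero.2 hg)
  rcases Nat.eq_zero_or_pos g.natDegree with h2 | h2
  · exfalso
    have := h.trans_tendsto ((tend_pp h0 h1 hd).mono_left hF)
    rw [eq_C_of_natDegree_eq_zero h2] at this hg
    simp only [eval_C, tendsto_const_nhds_iff] at this
    exact hg (by rw [this, map_zero])
  obtain ⟨l, l0, l1, hl⟩ := root_exp h0 h1 h2
  obtain ⟨C, hC⟩ := h.bound
  obtain ⟨C', hC'⟩ := hl (C / ‖g.leadingCoeff‖)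
  have : ∃ᶠ n in 𝓕, ∃ β ∈ g.roots.toFinset, ‖W n - β‖ ≤ C' * l ^ d ^ n := by
    refine (hC.mono fun n hn => ?_).frequently
    obtain ⟨β, hβ, hb⟩ := root_prod h2 (W n)
    refine ⟨β, hβ, hC' _ _ (norm_nonneg _) ?_⟩
    rw [Real.norm_of_nonneg (by positivity)] at hn
    rw [div_mul_eq_mul_div, le_div_iff₀' lc]
    exact hb.trans hn
  obtain ⟨β, hβ, hf⟩ := (frequently_exists_finset _).1 this
  exact ⟨β, C', l, (mem_roots hg).1 (Multiset.mem_toFinset.1 hβ), l0, l1, hf⟩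

theorem alg_root {g : ℂ[X]} (hg : g ≠ 0) (hc : ∀ k, IsAlgebraic ℚ (g.coeff k)) {β : ℂ}
    (hβ : g.IsRoot β) : IsAlgebraic ℚ β := by
  obtain ⟨g0, rfl⟩ := (mem_lifts (f := algebraMap (algebraicClosure ℚ ℂ) ℂ) g).1
    ((lifts_iff_coeff_lifts g).2 fun k => ⟨⟨_, mem_algebraicClosure_iff.2 (hc k)⟩, rfl⟩)
  have : IsAlgebraic (algebraicClosure ℚ ℂ) β :=
    ⟨g0, fun h => hg (by rw [h, Polynomial.map_zero]), by rwa [aeval_def, ← eval_map]⟩
  have h1 : Algebra.IsIntegral ℚ (algebraicClosure ℚ ℂ) :=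
    (algebraicClosure.isAlgebraic ℚ ℂ).isIntegral
  exact (isIntegral_trans (R := ℚ) _ this.isIntegral).isAlgebraic

theorem alg_conj {z : ℂ} (h : IsAlgebraic ℚ z) : IsAlgebraic ℚ ((starRingEnd ℂ) z) :=
  h.algHom (starRingEnd ℂ).toRatAlgHom

theorem pow_near {W β : ℂ} (hW : ‖W‖ = 1) (k : ℕ) :
    ‖W ^ k - β ^ k‖ ≤ k * max 1 ‖β‖ ^ k * ‖W - β‖ := by
  rw [← Commute.geom_sum₂_mul (Commute.all W β) k, norm_mul]
  gcongr
  refine (norm_sum_le _ _).trans ((Finset.sum_le_card_nsmul _ _ (max 1 ‖β‖ ^ k) fun i hi => ?_).trans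
    (by simp))
  rw [norm_mul, norm_pow, hW, one_pow, one_mul, norm_pow]
  exact (pow_le_pow_left₀ (norm_nonneg _) (le_max_right 1 _) _).trans
    (pow_le_pow_right₀ (le_max_left _ _) (by omega))

theorem triple_near {𝓕 : Filter ℕ} [𝓕.NeBot] (hF : 𝓕 ≤ atTop) {d : ℕ} (hd : 2 ≤ d)
    {v w z α α' α'' : ℂ} {ρ lam : ℝ} (hρ : 1 < ρ) (h0 : 0 ≤ lam) (h1 : lam < 1) (hv : ‖v‖ = ρ)
    (hw : ‖w‖ = ρ) (hz : ‖z‖ = ρ) (a0 : α ≠ 0) (a1 : α' ≠ 0) (b0 : IsAlgebraic ℚ α)
    (b1 : IsAlgebraic ℚ α') (b2 : IsAlgebraic ℚ α'')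
    (h : (fun n => α * v ^ d ^ n + (α' * w ^ d ^ n + α'' * z ^ d ^ n)) =O[𝓕]
      fun n => (lam * ρ) ^ d ^ n) (k : ℕ) :
    ∃ (β : ℂ) (C l : ℝ), β ≠ 0 ∧ IsAlgebraic ℚ β ∧ 0 ≤ l ∧ l < 1 ∧
      ∃ᶠ n in 𝓕, ‖(v ^ k) ^ d ^ n / (w ^ k) ^ d ^ n - β‖ ≤ C * l ^ d ^ n := by
  have ρ0 : 0 < ρ := by linarith
  have w0 : w ≠ 0 := norm_pos_iff.1 (hw ▸ ρ0)
  set c := starRingEnd ℂ with hc
  set W : ℕ → ℂ := fun n => (v / w) ^ d ^ n with hW
  set Z : ℕ → ℂ := fun n => (z / w) ^ d ^ n with hZ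
  have W1 : ∀ n, ‖W n‖ = 1 := fun n => by simp [hW, hv, hw, ρ0.ne']
  have Z1 : ∀ n, ‖Z n‖ = 1 := fun n => by simp [hZ, hz, hw, ρ0.ne']
  have cW : ∀ n, W n * c (W n) = 1 := fun n => by rw [hc, Complex.mul_conj', W1]; simp
  have cZ : ∀ n, Z n * c (Z n) = 1 := fun n => by rw [hc, Complex.mul_conj', Z1]; simp
  set ε : ℕ → ℂ := fun n => α * W n + α' + α'' * Z n with hε
  have hε1 : ε =O[𝓕] fun n => lam ^ d ^ n := by
    have h2 : (fun n => (w ^ d ^ n)⁻¹) =O[𝓕] fun n => (ρ ^ d ^ n)⁻¹ :=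
      IsBigO.of_bound' (Eventually.of_forall fun n => by simp [hw, abs_of_pos ρ0])
    refine (h.mul h2).congr (fun n => ?_) fun n => ?_
    · simp only [hε, hW, hZ, div_pow]
      have := pow_ne_zero (d ^ n) w0
      field_simp
      ring
    · rw [mul_pow, mul_inv_cancel_right₀ (pow_pos ρ0 _).ne']
  have hε2 : (fun n => c (ε n)) =O[𝓕] fun n => lam ^ d ^ n :=
    IsBigO.of_norm_left (by simpa [hc] using hε1.norm_left)
  have hε3 : ε =O[𝓕] fun _ => (1 : ℝ) := hε1.trans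
    (((tend_pp h0 h1 hd).mono_left hF).isBigO_one ℝ)
  have bW : W =O[𝓕] fun _ => (1 : ℝ) := IsBigO.of_bound' (Eventually.of_forall fun n => by simp [W1])
  have bZ : Z =O[𝓕] fun _ => (1 : ℝ) := IsBigO.of_bound' (Eventually.of_forall fun n => by simp [Z1])
  have bZ' : (fun n => c (Z n)) =O[𝓕] fun _ => (1 : ℝ) :=
    IsBigO.of_bound' (Eventually.of_forall fun n => by simp [hc, Z1])
  set g : ℂ[X] := C (α * c α') * X ^ 2 + C (α * c α + α' * c α' - α'' * c α'') * X + C (α' * c α)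
    with hg
  have ca : c α ≠ 0 := by simpa [hc] using a0
  have g0 : g.coeff 0 = α' * c α := by simp [hg]
  have gne : g ≠ 0 := fun e => mul_ne_zero a1 ca (by rw [← g0, e, coeff_zero])
  have hgO : (fun n => g.eval (W n)) =O[𝓕] fun n => lam ^ d ^ n := by
    have t1 := (bW.mul hε3).mul hε2
    have t2 := ((bW.mul bZ).mul hε2).const_mul_left α''
    have t3 := ((bW.mul bZ').mul hε1).const_mul_left (c α'')
    simp only [one_mul] at t1 t2 t3
    refine ((t1.sub t2).sub t3).congr_left fun n => ?_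
    simp only [hg, hε, eval_add, eval_mul, eval_C, eval_pow, eval_X, map_add, map_mul]
    linear_combination (α * c α * W n + α' * c α) * cW n - α'' * c α'' * W n * cZ n
  obtain ⟨β, C, l, hβ, l0, l1, hf⟩ := root_near gne hF hd h0 h1 hgO
  have β0 : β ≠ 0 := fun e => mul_ne_zero a1 ca (by
    rw [← g0, coeff_zero_eq_eval_zero]; exact (e ▸ hβ : g.IsRoot 0))
  have hal : IsAlgebraic ℚ β := by
    refine alg_root gne (fun j => ?_) hβ
    have c0 := alg_conj b0
    have c1 := alg_conj b1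
    have c2 := alg_conj b2
    simp only [hg, coeff_add, coeff_C_mul, coeff_X_pow, coeff_X, coeff_C]
    refine IsAlgebraic.add (IsAlgebraic.add ?_ ?_) ?_ <;> split_ifs
    · simpa using b0.mul c1
    · simpa using isAlgebraic_zero
    · simpa using ((b0.mul c0).add (b1.mul c1)).sub (b2.mul c2)
    · simpa using isAlgebraic_zero
    · exact b1.mul c0
    · exact isAlgebraic_zero
  refine ⟨β ^ k, k * max 1 ‖β‖ ^ k * C, l, pow_ne_zero _ β0, hal.pow k, l0, l1, hf.mono fun n hn => ?_⟩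
  have e : (v ^ k) ^ d ^ n / (w ^ k) ^ d ^ n = W n ^ k := by
    simp only [hW]; rw [← div_pow, ← div_pow, ← pow_mul, ← pow_mul, mul_comm]
  rw [e, mul_assoc]
  exact (pow_near (W1 n) k).trans (by gcongr)

end Pool.Agent.P.MP_68214b_ag.DS
end

-- part Pool.Agent.P.MP_68214b_ag.DSA2
section

open Polynomial Filter Asymptotics NumberField Topology

namespace Pool.Agent.P.MP_68214b_ag.DS

theorem dsa2_der (l b v : ℂ) (e : ℕ) :
    derivative (C l * (X - C b) ^ (e + 1) + C v) = C l * (C ((e : ℂ) + 1) * (X - C b) ^ e) := by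
  simp [derivative_X_sub_C_pow]

theorem exc_of_pow {g : ℂ[X]} (hd : 2 ≤ g.natDegree) {b : ℂ}
    (h : g = C g.leadingCoeff * (X - C b) ^ g.natDegree + C b) : Exc g := by
  refine ⟨2 * b, b ^ 2, ?_⟩
  obtain ⟨e, he⟩ : ∃ e, g.natDegree = e + 1 := ⟨g.natDegree - 1, by omega⟩
  rw [he] at h ⊢
  generalize g.leadingCoeff = l at h
  rw [h, dsa2_der]
  simp only [map_pow, map_mul, map_add, map_natCast, map_one, map_ofNat, Nat.cast_add, Nat.cast_one]
  ring

theorem noTot_of {g : ℂ[X]} (hd : 2 ≤ g.natDegree) (h : ¬ Exc g) : NoTot g := by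
  intro E hE hne
  by_contra hc
  have hsub : {c | g.eval c ∈ E} ⊆ E := fun c h1 => by_contra fun h2 => hc ⟨c, h1, h2⟩
  have hg : 0 < g.natDegree := by omega
  have hP := hE.subset hsub
  have him : (fun c => g.eval c) '' {c | g.eval c ∈ E} = E := by
    refine Set.Subset.antisymm ?_ fun v hv => ?_
    · rintro _ ⟨c, h1, rfl⟩
      exact h1
    · obtain ⟨c, rfl⟩ := eval_surj hg v
      exact ⟨c, hv, rfl⟩
  have h1 : E.ncard ≤ {c | g.eval c ∈ E}.ncard := by
    conv_lhs => rw [← him]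
    exact Set.ncard_image_le hP
  have heq : {c | g.eval c ∈ E} = E := Set.eq_of_subset_of_ncard_le hsub h1 hE
  have hinj : Set.InjOn (fun c => g.eval c) {c | g.eval c ∈ E} :=
    Set.injOn_of_ncard_image_eq (by rw [him, heq]) hP
  have hem : ∀ c, g.eval c ∈ E → g = C g.leadingCoeff * (X - C c) ^ g.natDegree + C (g.eval c) := by
    intro c h2
    refine em_top hg ?_
    rw [em, ← count_roots, ← natDegree_sub_C (a := g.eval c), ← IsAlgClosed.card_roots_eq_natDegree]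
    refine Multiset.count_eq_card.2 fun r hr => ?_
    have h3 : g.eval r = g.eval c := by
      have := isRoot_of_mem_roots hr
      rwa [IsRoot, eval_sub, eval_C, sub_eq_zero] at this
    exact hinj h2 (show g.eval r ∈ E from h3 ▸ h2) h3.symm
  obtain ⟨c, h2⟩ := hne
  have h3 : g.eval c ∈ E := (Set.ext_iff.1 heq c).2 h2
  have h4 : g.eval (g.eval c) ∈ E := (Set.ext_iff.1 heq _).2 h3
  have h5 := hem c h3
  have h6 := hem _ h4
  have h7 : g.eval c = c := by
    obtain ⟨e, he⟩ : ∃ e, g.natDegree = e + 1 + 1 := ⟨g.natDegree - 2, by omega⟩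
    have hl : g.leadingCoeff ≠ 0 := leadingCoeff_ne_zero.2 (ne_zero_of_natDegree_gt hg)
    have h8 := congrArg (fun q => (derivative q).eval (g.eval c)) (h5.symm.trans h6)
    simp only [he, dsa2_der, eval_mul, eval_C, eval_pow, eval_sub, eval_X, sub_self,
      zero_pow (Nat.succ_ne_zero e), mul_zero] at h8
    have h9 : ((e + 1 : ℕ) : ℂ) + 1 ≠ 0 := Nat.cast_add_one_ne_zero _
    exact sub_eq_zero.1 (pow_eq_zero_iff (Nat.succ_ne_zero e) |>.1
      ((mul_eq_zero.1 ((mul_eq_zero.1 h8).resolve_left hl)).resolve_left h9))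
  rw [h7] at h5
  exact h (exc_of_pow hd h5)

theorem NoTot.em_ne {g : ℂ[X]} (hd : 2 ≤ g.natDegree) (h : NoTot g) {b : ℂ} (hb : g.eval b = b) :
    em g b ≠ g.natDegree := by
  intro e
  have hg : 0 < g.natDegree := by omega
  have h1 := em_top hg e
  obtain ⟨c, h2, h3⟩ := h {b} (Set.finite_singleton b) (Set.singleton_nonempty b)
  have h4 := congrArg (eval c) h1
  have hl : g.leadingCoeff ≠ 0 := leadingCoeff_ne_zero.2 (ne_zero_of_natDegree_gt hg)
  rw [Set.mem_singleton_iff.1 h2, hb, eval_add, eval_mul, eval_C, eval_C, eval_pow, eval_sub, eval_X,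
    eval_C] at h4
  have h5 : g.leadingCoeff * (c - b) ^ g.natDegree = 0 := by linear_combination -h4
  exact h3 (sub_eq_zero.1 ((pow_eq_zero_iff hg.ne').1 ((mul_eq_zero.1 h5).resolve_left hl)))

end Pool.Agent.P.MP_68214b_ag.DS
end

-- part Pool.Agent.P.MP_68214b_ag.DST1
section

open Polynomial Filter Asymptotics NumberField Topology

namespace Pool.Agent.P.MP_68214b_ag.DS

theorem rn (h : ℂ[X]) (z : ℂ) (hz : (derivative h).eval z ≠ 0) :
    ∃ w, h.eval w = 0 ∧ ‖w - z‖ * ‖(derivative h).eval z‖ ≤ h.natDegree * ‖h.eval z‖ := by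
  by_cases h0 : h.eval z = 0
  · exact ⟨z, h0, by simp [h0]⟩
  have hs := IsAlgClosed.splits h
  have e := hs.eval_derivative_eq_eval_mul_sum h0
  have hne : h.roots.toFinset.Nonempty := by
    rw [Multiset.toFinset_nonempty]
    intro c
    rw [c] at e
    exact hz (by simpa using e)
  obtain ⟨w, hw, hm⟩ := Finset.exists_min_image _ (fun w => ‖w - z‖) hne
  refine ⟨w, isRoot_of_mem_roots (Multiset.mem_toFinset.1 hw), ?_⟩
  have h1 : ‖(w - z) * (h.roots.map fun x => 1 / (z - x)).sum‖ ≤ h.natDegree := by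
    rw [← Multiset.sum_map_mul_left]
    refine (norm_multiset_sum_le _).trans ((Multiset.sum_le_card_nsmul _ 1 fun x hx => ?_).trans ?_)
    · simp only [Multiset.map_map, Multiset.mem_map, Function.comp] at hx
      obtain ⟨a, ha, rfl⟩ := hx
      rw [mul_one_div, norm_div, norm_sub_rev z a]
      exact div_le_one_of_le₀ (hm a (Multiset.mem_toFinset.2 ha)) (norm_nonneg _)
    · simpa using card_roots' h
  rw [e, norm_mul, mul_left_comm, ← norm_mul, mul_comm]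
  exact mul_le_mul_of_nonneg_right h1 (norm_nonneg _)

theorem dst1_iter (p : ℂ[X]) (i : ℕ) :
    iteratedDeriv i (fun z => p.eval z) = fun z => (derivative^[i] p).eval z := by
  induction i with
  | zero => simp
  | succ i ih =>
    rw [iteratedDeriv_succ, ih, Function.iterate_succ_apply']
    exact funext fun z => Polynomial.deriv _

theorem cauchy1 (p : ℂ[X]) {r E : ℝ} (hr : 0 < r) (h : ∀ z : ℂ, ‖z‖ = r → ‖p.eval z‖ ≤ E) (i : ℕ) :
    ‖p.coeff i‖ * r ^ i ≤ E := by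
  have h1 := Complex.norm_iteratedDeriv_le_of_forall_mem_sphere_norm_le (c := 0)
    (f := fun z => p.eval z) i hr p.differentiable.diffContOnCl fun z hz => h z (by simpa using hz)
  rw [dst1_iter] at h1
  simp only [← coeff_zero_eq_eval_zero, coeff_iterate_derivative, zero_add,
    Nat.descFactorial_self, nsmul_eq_mul, norm_mul, Complex.norm_natCast] at h1
  rw [le_div_iff₀ (pow_pos hr i), mul_assoc] at h1
  exact le_of_mul_le_mul_left h1 (by exact_mod_cast i.factorial_pos)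

theorem cauchy2 (W : ℂ[X][X]) (y1 y2 : ℂ) {r E : ℝ} (hr : 0 < r)
    (h : ∀ s t : ℂ, ‖s‖ = r → ‖t‖ = r → ‖W.evalEval (y1 + s) (y2 + t)‖ ≤ E) (i j : ℕ) :
    ‖tc y1 y2 W i j‖ * r ^ (i + j) ≤ E := by
  rw [pow_add, ← mul_assoc, ← le_div_iff₀ (pow_pos hr j)]
  refine cauchy1 _ hr (fun s hs => ?_) i
  rw [le_div_iff₀ (pow_pos hr j), taylor_eval, add_comm]
  have := cauchy1 ((taylor (C y2) W).map (evalRingHom (y1 + s))) hr (fun t ht => by
    rw [map_evalRingHom_eval, evalEval, taylor_eval, ← C_add, add_comm t]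
    exact h s t hs ht) j
  rwa [coeff_map] at this

theorem lemU {p : ℂ[X]} {y : ℂ} {k : ℕ} (h : (X - C y) ^ k ∣ p) :
    ‖y‖ ^ k * ‖p.leadingCoeff‖ ≤ nC.l1.f p := by
  obtain ⟨q, rfl⟩ := h
  have h1 : ∀ k : ℕ, ‖y‖ ^ k ≤ ((X - C y) ^ k).mahlerMeasure := fun k => by
    induction k with
    | zero => simp
    | succ k ih =>
      rw [pow_succ, pow_succ, mahlerMeasure_mul, mahlerMeasure_X_sub_C]
      exact mul_le_mul ih (le_max_right _ _) (norm_nonneg _) (mahlerMeasure_nonneg _)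
  refine le_trans ?_ (mahlerMeasure_le_sum_norm_coeff _)
  rw [mahlerMeasure_mul, leadingCoeff_monic_mul ((monic_X_sub_C y).pow k)]
  exact mul_le_mul (h1 k) (leadingCoeff_le_mahlerMeasure q) (norm_nonneg _) (mahlerMeasure_nonneg _)

end Pool.Agent.P.MP_68214b_ag.DS
end

-- part Pool.Agent.P.MP_68214b_ag.DSX5
section

open Polynomial Filter Asymptotics NumberField Topology

namespace Pool.Agent.P.MP_68214b_ag.DS

theorem dsx5_pow {u v : ℂ} (hu : ‖u‖ = 1) (hv : ‖v‖ = 1) (n : ℕ) :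
    ‖u ^ n - v ^ n‖ ≤ n * ‖u - v‖ := by
  induction n with
  | zero => simp
  | succ n ih =>
    have e : u ^ (n + 1) - v ^ (n + 1) = u * (u ^ n - v ^ n) + (u - v) * v ^ n := by ring
    rw [e]
    refine (norm_add_le _ _).trans ?_
    rw [norm_mul, norm_mul, norm_pow, hu, hv, one_pow]
    push_cast
    linarith

theorem dsx5_exp {r : ℂ} (hr : ‖r‖ = 1) {d : ℕ} (hd : 2 ≤ d) (h : (d : ℝ) ^ 2 * ‖r - 1‖ ≤ 1 / 2) :
    3 / 2 * ‖r - 1‖ ≤ ‖r ^ d - 1‖ := by
  have h1 : ‖∑ i ∈ Finset.range d, (r ^ i - 1)‖ ≤ 1 / 2 := by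
    refine (norm_sum_le _ _).trans ((Finset.sum_le_card_nsmul _ _ (d * ‖r - 1‖) ?_).trans ?_)
    · intro i hi
      have h2 := dsx5_pow hr norm_one i
      rw [one_pow] at h2
      have h3 : (i : ℝ) ≤ d := by exact_mod_cast (Finset.mem_range.1 hi).le
      exact h2.trans (mul_le_mul_of_nonneg_right h3 (norm_nonneg _))
    · rw [Finset.card_range, nsmul_eq_mul]
      nlinarith
  have h2 : (d : ℂ) = ∑ i ∈ Finset.range d, r ^ i - ∑ i ∈ Finset.range d, (r ^ i - 1) := by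
    rw [← Finset.sum_sub_distrib]
    simp
  have h3 : (d : ℝ) ≤ ‖∑ i ∈ Finset.range d, r ^ i‖ + 1 / 2 := by
    have h4 := norm_sub_le (∑ i ∈ Finset.range d, r ^ i) (∑ i ∈ Finset.range d, (r ^ i - 1))
    rw [← h2, Complex.norm_natCast] at h4
    linarith
  have h5 : (2 : ℝ) ≤ d := by exact_mod_cast hd
  rw [← geom_sum_mul, norm_mul]
  exact mul_le_mul_of_nonneg_right (by linarith) (norm_nonneg _)

theorem dsx5_one {r : ℂ} (hr : ‖r‖ = 1) {d : ℕ} (hd : 2 ≤ d)
    (h : ∀ k, (d : ℝ) ^ 2 * ‖r ^ d ^ k - 1‖ ≤ 1 / 2) : r = 1 := by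
  have h1 : ∀ k, (3 / 2 : ℝ) ^ k * ‖r - 1‖ ≤ ‖r ^ d ^ k - 1‖ := by
    intro k
    induction k with
    | zero => simp
    | succ k ih =>
      have h2 := dsx5_exp (r := r ^ d ^ k) (by rw [norm_pow, hr, one_pow]) hd (h k)
      rw [← pow_mul, ← pow_succ] at h2
      rw [pow_succ]
      linarith
  by_contra hne
  have h2 : 0 < ‖r - 1‖ := norm_pos_iff.2 (sub_ne_zero.2 hne)
  obtain ⟨k, hk⟩ := pow_unbounded_of_one_lt (2 / ‖r - 1‖) (by norm_num : (1 : ℝ) < 3 / 2)
  rw [div_lt_iff₀ h2] at hk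
  have h3 := norm_sub_le (r ^ d ^ k) 1
  rw [norm_pow, hr, one_pow, norm_one] at h3
  linarith [h1 k]

theorem dsx5_near {z : ℕ → ℂ} (hz : ∀ n, ‖z n‖ = 1) {g : ℂ[X]} (hg : g ≠ 0)
    (h : Tendsto (fun n => g.eval (z n)) atTop (𝓝 0)) {η : ℝ} (hη : 0 < η) :
    ∀ᶠ n in atTop, ∃ b ∈ g.roots.toFinset, ‖z n - b‖ < η := by
  have hK : IsCompact (Metric.sphere (0 : ℂ) 1 ∩ ⋂ b ∈ g.roots.toFinset, {w | η ≤ ‖w - b‖}) :=
    (isCompact_sphere _ _).inter_right (isClosed_biInter fun b _ =>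
      isClosed_le continuous_const (by fun_prop))
  have hm : ∀ n, (¬ ∃ b ∈ g.roots.toFinset, ‖z n - b‖ < η) →
      z n ∈ Metric.sphere (0 : ℂ) 1 ∩ ⋂ b ∈ g.roots.toFinset, {w | η ≤ ‖w - b‖} := by
    intro n hn
    refine ⟨by simpa using hz n, Set.mem_iInter₂.2 fun b hb => ?_⟩
    exact not_lt.1 fun hlt => hn ⟨b, hb, hlt⟩
  rcases (Metric.sphere (0 : ℂ) 1 ∩
    ⋂ b ∈ g.roots.toFinset, {w | η ≤ ‖w - b‖}).eq_empty_or_nonempty with he | hne
  · exact Eventually.of_forall fun n => by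
      by_contra hn
      have := hm n hn
      rw [he] at this
      exact this
  · obtain ⟨w, hw, hmin⟩ := hK.exists_isMinOn hne (f := fun w => ‖g.eval w‖)
      (g.continuous.norm.continuousOn)
    have hw0 : 0 < ‖g.eval w‖ := by
      refine norm_pos_iff.2 fun h0 => ?_
      have h1 : w ∈ g.roots.toFinset := Multiset.mem_toFinset.2 ((mem_roots hg).2 h0)
      have h2 : η ≤ ‖w - w‖ := Set.mem_iInter₂.1 hw.2 w h1
      rw [sub_self, norm_zero] at h2
      linarith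
    have h3 := h.norm
    rw [norm_zero] at h3
    filter_upwards [h3.eventually (gt_mem_nhds hw0)] with n hn
    by_contra hc
    exact absurd (hmin (hm n hc)) (not_le.2 hn)

theorem lemX {γ : ℂ} (hγ : ‖γ‖ = 1) {d : ℕ} (hd : 2 ≤ d) {g : ℂ[X]} (hg : g ≠ 0)
    (h : Tendsto (fun n => g.eval (γ ^ d ^ n)) atTop (𝓝 0)) : ∃ N, 0 < N ∧ γ ^ N = 1 := by
  have hz : ∀ n, ‖γ ^ d ^ n‖ = 1 := fun n => by rw [norm_pow, hγ, one_pow]
  have ht : ∀ c e : ℝ, 0 < e → ∀ᶠ η in 𝓝[>] (0 : ℝ), c * η < e := by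
    intro c e he
    have h1 : Tendsto (fun η : ℝ => c * η) (𝓝 0) (𝓝 (c * 0)) :=
      (continuous_const.mul continuous_id).tendsto 0
    rw [mul_zero] at h1
    exact (h1.mono_left nhdsWithin_le_nhds).eventually (gt_mem_nhds he)
  have h1 : ∀ᶠ η in 𝓝[>] (0 : ℝ), ∀ b ∈ g.roots.toFinset, ∀ b' ∈ g.roots.toFinset,
      ‖b - b'‖ < (2 * d + 2) * η → b = b' := by
    refine (eventually_all_finset _).2 fun b _ => (eventually_all_finset _).2 fun b' _ => ?_
    by_cases hb : b = b'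
    · exact Eventually.of_forall fun _ _ => hb
    · filter_upwards [ht (2 * d + 2) _ (norm_pos_iff.2 (sub_ne_zero.2 hb))] with η h2 h3
      exact absurd h3 (not_lt.2 h2.le)
  obtain ⟨η, ⟨hs, hη1⟩, hη⟩ := ((h1.and (ht ((d : ℝ) ^ 2 * 2) (1 / 2) (by norm_num))).and
    self_mem_nhdsWithin).exists
  obtain ⟨n0, hn0⟩ := eventually_atTop.1 (dsx5_near hz hg h (η := η) hη)
  choose! b hb1 hb2 using hn0
  obtain ⟨n, m, hnm, e⟩ := Set.Finite.exists_lt_map_eq_of_forall_mem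
    (f := fun k => b (n0 + k)) (t := (g.roots.toFinset : Set ℂ))
    (fun k => hb1 _ (Nat.le_add_right _ _)) (Finset.finite_toSet _)
  have tri : ∀ p q, n0 ≤ p → n0 ≤ q → b p = b q → ‖γ ^ d ^ p - γ ^ d ^ q‖ < 2 * η := by
    intro p q hp hq hb
    have h2 := norm_sub_le (γ ^ d ^ p - b p) (γ ^ d ^ q - b q)
    have h3 := hb2 p hp
    have h4 := hb2 q hq
    rw [hb, sub_sub_sub_cancel_right] at h2
    rw [hb] at h3
    linarith
  have h2 : ∀ k, b (n0 + m + k) = b (n0 + n + k) := by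
    intro k
    induction k with
    | zero => exact e.symm
    | succ k ih =>
      have h3 := tri _ _ (by omega) (by omega) ih
      have h4 := dsx5_pow (hz (n0 + m + k)) (hz (n0 + n + k)) d
      rw [← pow_mul, ← pow_mul, ← pow_succ, ← pow_succ] at h4
      have h5 := hb2 (n0 + m + k + 1) (by omega)
      have h6 := hb2 (n0 + n + k + 1) (by omega)
      refine hs _ (hb1 _ (by omega)) _ (hb1 _ (by omega)) ?_
      have h7 : b (n0 + m + (k + 1)) - b (n0 + n + (k + 1)) =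
          (γ ^ d ^ (n0 + m + k + 1) - γ ^ d ^ (n0 + n + k + 1)) -
            (γ ^ d ^ (n0 + m + k + 1) - b (n0 + m + k + 1)) +
            (γ ^ d ^ (n0 + n + k + 1) - b (n0 + n + k + 1)) := by
        rw [← add_assoc, ← add_assoc]
        ring
      rw [h7]
      have h8 := mul_le_mul_of_nonneg_left h3.le (Nat.cast_nonneg d : (0 : ℝ) ≤ d)
      refine (norm_add_le _ _).trans_lt ?_
      have h9 := norm_sub_le (γ ^ d ^ (n0 + m + k + 1) - γ ^ d ^ (n0 + n + k + 1))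
        (γ ^ d ^ (n0 + m + k + 1) - b (n0 + m + k + 1))
      linarith
  have hlt : d ^ (n0 + n) < d ^ (n0 + m) := Nat.pow_lt_pow_right (by omega) (by omega)
  refine ⟨d ^ (n0 + m) - d ^ (n0 + n), by omega, dsx5_one (by rw [norm_pow, hγ, one_pow]) hd ?_⟩
  intro k
  have h3 := tri _ _ (by omega) (by omega) (h2 k)
  have h4 : γ ^ d ^ (n0 + m + k) - γ ^ d ^ (n0 + n + k) =
      ((γ ^ (d ^ (n0 + m) - d ^ (n0 + n))) ^ d ^ k - 1) * γ ^ d ^ (n0 + n + k) := by
    rw [sub_mul, one_mul, ← pow_mul, ← pow_add, pow_add d (n0 + n) k, ← add_mul,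
      Nat.sub_add_cancel hlt.le, pow_add d (n0 + m) k]
  rw [h4, norm_mul, hz, mul_one] at h3
  have h5 := mul_le_mul_of_nonneg_left h3.le (sq_nonneg (d : ℝ))
  linarith

theorem dsx5_rel {p q : ℝ} (hp : 1 < p) (hq : 1 < q) {i j k l : ℕ} (h : p ^ i * q ^ j = p ^ k * q ^ l)
    (hik : k < i) : ∃ a b : ℕ, 0 < a ∧ 0 < b ∧ p ^ a = q ^ b := by
  obtain ⟨a, rfl⟩ := Nat.exists_eq_add_of_lt hik
  have hp0 : 0 < p := by linarith
  have hq0 : 0 < q := by linarith
  rw [add_assoc, pow_add, mul_assoc, mul_right_inj' (pow_pos hp0 k).ne'] at h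
  have h1 : 1 < p ^ (a + 1) := one_lt_pow₀ hp (Nat.succ_ne_zero a)
  have h2 : j < l := by
    refine (pow_lt_pow_iff_right₀ hq).1 ?_
    rw [← h]
    exact lt_mul_of_one_lt_left (pow_pos hq0 j) h1
  obtain ⟨b, rfl⟩ := Nat.exists_eq_add_of_lt h2
  rw [add_assoc, pow_add q j, mul_comm, mul_right_inj' (pow_pos hq0 j).ne'] at h
  exact ⟨a + 1, b + 1, Nat.succ_pos _, Nat.succ_pos _, h⟩

theorem abs_rel {u v : ℂ} (hu : 1 < ‖u‖) (hv : 1 < ‖v‖) {d : ℕ} (hd : 2 ≤ d) {x y : ℕ → ℂ}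
    (hx : Tendsto (fun n => x n * (u ^ d ^ n)⁻¹) atTop (𝓝 1))
    (hy : Tendsto (fun n => y n * (v ^ d ^ n)⁻¹) atTop (𝓝 1)) {G : ℂ[X][X]} (hG : G ≠ 0)
    (h : ∀ᶠ n in atTop, G.evalEval (x n) (y n) = 0) :
    ∃ a b : ℕ, 0 < a ∧ 0 < b ∧ ‖u‖ ^ a = ‖v‖ ^ b := by
  classical
  by_contra hn
  have hu0 : u ≠ 0 := norm_pos_iff.1 (by linarith)
  have hv0 : v ≠ 0 := norm_pos_iff.1 (by linarith)
  set S : Finset (Σ _ : ℕ, ℕ) := G.support.sigma fun j => (G.coeff j).support with hS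
  have hsum : ∀ s t : ℂ, G.evalEval s t =
      ∑ p ∈ S, (G.coeff p.1).coeff p.2 * s ^ p.2 * t ^ p.1 := by
    intro s t
    rw [hS, Finset.sum_sigma, evalEval, eval_eq_sum (p := G), sum_def, eval_finsetSum]
    refine Finset.sum_congr rfl fun j _ => ?_
    rw [eval_mul, eval_pow, eval_C, eval_eq_sum, sum_def, Finset.sum_mul]
  have hne : S.Nonempty := by
    obtain ⟨j, hj⟩ := support_nonempty.2 hG
    obtain ⟨i, hi⟩ := support_nonempty.2 (mem_support_iff.1 hj)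
    exact ⟨⟨j, i⟩, Finset.mem_sigma.2 ⟨hj, hi⟩⟩
  obtain ⟨p0, hp0, hmax⟩ := S.exists_max_image (fun p => ‖u‖ ^ p.2 * ‖v‖ ^ p.1) hne
  have hW : u ^ p0.2 * v ^ p0.1 ≠ 0 := mul_ne_zero (pow_ne_zero _ hu0) (pow_ne_zero _ hv0)
  have hlt : ∀ p ∈ S, p ≠ p0 → ‖u ^ p.2 * v ^ p.1 / (u ^ p0.2 * v ^ p0.1)‖ < 1 := by
    intro p hp hpp
    rw [norm_div, div_lt_one (norm_pos_iff.2 hW), norm_mul, norm_mul, norm_pow, norm_pow,
      norm_pow, norm_pow]
    refine lt_of_le_of_ne (hmax p hp) fun he => ?_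
    rcases lt_trichotomy p.2 p0.2 with h1 | h1 | h1
    · exact hn (dsx5_rel hu hv he.symm h1)
    · rw [h1, mul_right_inj' (pow_pos (by linarith) _).ne'] at he
      exact hpp (Sigma.ext (pow_right_injective₀ (by linarith) hv.ne' he) (heq_of_eq h1))
    · exact hn (dsx5_rel hu hv he h1)
  have hT : Tendsto (fun n => ∑ p ∈ S, (G.coeff p.1).coeff p.2 * (x n * (u ^ d ^ n)⁻¹) ^ p.2 *
      (y n * (v ^ d ^ n)⁻¹) ^ p.1 * (u ^ p.2 * v ^ p.1 / (u ^ p0.2 * v ^ p0.1)) ^ d ^ n) atTop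
      (𝓝 (∑ p ∈ S, if p = p0 then (G.coeff p.1).coeff p.2 else 0)) := by
    refine tendsto_finsetSum _ fun p hp => ?_
    have h1 := ((hx.pow p.2).const_mul ((G.coeff p.1).coeff p.2)).mul (hy.pow p.1)
    by_cases hpp : p = p0
    · subst hpp
      simpa [div_self hW] using h1
    · have h2 := h1.mul (tend_ppC (hlt p hp hpp) hd)
      rw [mul_zero] at h2
      rwa [if_neg hpp]
  rw [Finset.sum_ite_eq' S p0, if_pos hp0] at hT
  have h0 : Tendsto (fun _ : ℕ => (0 : ℂ)) atTop (𝓝 ((G.coeff p0.1).coeff p0.2)) := by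
    refine hT.congr' ?_
    filter_upwards [h] with n hn
    rw [hsum] at hn
    rw [← zero_div ((u ^ p0.2 * v ^ p0.1) ^ d ^ n), ← hn, Finset.sum_div]
    refine Finset.sum_congr rfl fun p _ => ?_
    have hU : u ^ d ^ n ≠ 0 := pow_ne_zero _ hu0
    have hV : v ^ d ^ n ≠ 0 := pow_ne_zero _ hv0
    rw [div_pow, mul_pow (u ^ p.2), ← pow_mul u p.2, ← pow_mul v p.1, mul_comm p.2, mul_comm p.1,
      pow_mul u, pow_mul v, mul_pow (x n), mul_pow (y n), inv_pow, inv_pow]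
    field_simp
  exact mem_support_iff.1 (Finset.mem_sigma.1 hp0).2 (tendsto_nhds_unique h0 tendsto_const_nhds)

theorem param {u v : ℂ} (hu : 1 < ‖u‖) {a b : ℕ} (hb : 0 < b) (h : ‖u‖ ^ a = ‖v‖ ^ b) :
    ∃ τ γ : ℂ, u * τ ^ b = 1 ∧ v * τ ^ a = γ ∧ ‖γ‖ = 1 := by
  have hu0 : u ≠ 0 := norm_pos_iff.1 (by linarith)
  obtain ⟨τ, hτ⟩ := IsAlgClosed.exists_pow_nat_eq u⁻¹ hb
  have h1 : u * τ ^ b = 1 := by rw [hτ, mul_inv_cancel₀ hu0]
  refine ⟨τ, _, h1, rfl, (pow_eq_one_iff_of_nonneg (norm_nonneg _) hb.ne').1 ?_⟩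
  rw [norm_mul, mul_pow, ← h, norm_pow, ← pow_mul, mul_comm a b, pow_mul, ← mul_pow, ← norm_pow,
    ← norm_mul, h1, norm_one, one_pow]

end Pool.Agent.P.MP_68214b_ag.DS
end

-- part Pool.Agent.P.MP_68214b_ag.DSP1
section

open Polynomial Filter Asymptotics NumberField Topology

namespace Pool.Agent.P.MP_68214b_ag.DS

theorem pt0 {u v β0 : ℂ} (hu : 1 < ‖u‖) (hv : 1 < ‖v‖) {a b d : ℕ} (hb : 0 < b) (hd : 2 ≤ d)
    (hβ : β0 ≠ 0) {C lam : ℝ} (h0 : 0 ≤ lam) (h1 : lam < 1)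
    (h : ∃ᶠ n in atTop, ‖(u ^ a) ^ d ^ n / (v ^ b) ^ d ^ n - β0‖ ≤ C * lam ^ d ^ n) :
    ∃ τ γ : ℂ, u * τ ^ b = 1 ∧ v * τ ^ a = γ ∧ ‖γ‖ = 1 ∧ ‖β0‖ = 1 ∧
      ∃ᶠ n in atTop, ‖(γ ^ d ^ n) ^ b - β0⁻¹‖ ≤ C * lam ^ d ^ n := by
  have hv0 : v ^ b ≠ 0 := pow_ne_zero _ (norm_pos_iff.1 (one_pos.trans hv))
  have hu0 : u ^ a ≠ 0 := pow_ne_zero _ (norm_pos_iff.1 (one_pos.trans hu))
  simp only [← div_pow] at h
  set w := u ^ a / v ^ b with hw
  have := frequently_iff_neBot.1 h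
  set F := atTop ⊓ 𝓟 {n : ℕ | ‖w ^ d ^ n - β0‖ ≤ C * lam ^ d ^ n}
  have t1 : Tendsto (fun n => ‖w‖ ^ d ^ n) F (𝓝 ‖β0‖) := by
    simp only [← norm_pow]
    refine (tendsto_iff_norm_sub_tendsto_zero.2 (squeeze_zero' (Eventually.of_forall fun _ =>
      norm_nonneg _) (mem_inf_of_right (mem_principal_self _)) ?_)).norm
    simpa using (((tend_pp h0 h1 hd).mono_left inf_le_left).const_mul C)
  have hw1 : ‖w‖ = 1 := by
    rcases lt_trichotomy ‖w‖ 1 with h2 | h2 | h2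
    · exact absurd (tendsto_nhds_unique t1 ((tend_pp (norm_nonneg _) h2 hd).mono_left inf_le_left))
        (norm_ne_zero_iff.2 hβ)
    · exact h2
    · exact absurd t1 (not_tendsto_nhds_of_tendsto_atTop
        ((tend_pp_top h2 hd).mono_left inf_le_left) _)
  have hβ1 : ‖β0‖ = 1 := tendsto_nhds_unique t1 (by simp [hw1])
  obtain ⟨τ, γ, e1, e2, e3⟩ := param (v := v) (a := a) hu hb (by
    rwa [hw, norm_div, div_eq_one_iff_eq (norm_ne_zero_iff.2 hv0), norm_pow, norm_pow] at hw1)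
  have e4 : γ ^ b = w⁻¹ := by
    rw [hw, inv_div, eq_div_iff hu0, ← e2, mul_pow, mul_assoc, ← pow_mul, mul_comm a, pow_mul,
      ← mul_pow, mul_comm _ u, e1, one_pow, mul_one]
  refine ⟨τ, γ, e1, e2, e3, hβ1, h.mono fun n hn => ?_⟩
  have e5 : ‖w ^ d ^ n‖ = 1 := by rw [norm_pow, hw1, one_pow]
  rwa [pow_right_comm, e4, inv_pow, inv_sub_inv (norm_ne_zero_iff.1 (e5 ▸ one_ne_zero)) hβ,
    norm_div, norm_mul, e5, hβ1, one_mul, div_one, norm_sub_rev]

theorem pt1 {τ γ β1 : ℂ} (hτ : τ ≠ 0) (hγ : ‖γ‖ = 1) {b d : ℕ} (hb : 0 < b) (hd : 2 ≤ d)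
    {C lam : ℝ} (h0 : 0 ≤ lam) (h1 : lam < 1)
    (h : ∃ᶠ n in atTop, ‖(γ ^ d ^ n) ^ b - β1‖ ≤ C * lam ^ d ^ n) :
    ∃ e : ℕ, 0 < e ∧ ∀ k, ∃ β : ℂ, β ^ (b * d ^ k) = β1 ∧ Near d τ γ β (d ^ k / e) := by
  obtain ⟨e, he⟩ := exists_pow_lt_of_lt_one (norm_pos_iff.2 hτ) h1
  refine ⟨e + 1, e.succ_pos, fun k => ?_⟩
  have hN : 0 < b * d ^ k := by positivity
  rw [← map_add_atTop_eq_nat k, frequently_map] at h
  by_contra hc
  push Not at hc
  refine h (((eventually_all_finset (nthRoots (b * d ^ k) β1).toFinset).2 fun β hβ =>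
    not_frequently.1 fun h2 => hc β ((mem_nthRoots hN).1 (Multiset.mem_toFinset.1 hβ))
      ⟨|C|, h2⟩).mono fun m hm h3 => ?_)
  have e1 : ‖γ ^ d ^ m‖ = 1 := by rw [norm_pow, hγ, one_pow]
  have e2 : ‖(derivative (X ^ (b * d ^ k) - Polynomial.C β1)).eval (γ ^ d ^ m)‖ = (b * d ^ k : ℕ) := by
    rw [derivative_sub, derivative_C, sub_zero, derivative_X_pow, eval_mul, eval_C, eval_pow,
      eval_X, norm_mul, norm_pow, e1, one_pow, mul_one, Complex.norm_natCast]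
  have e3 : (0 : ℝ) < (b * d ^ k : ℕ) := Nat.cast_pos.2 hN
  obtain ⟨w, hw, h4⟩ := rn _ (γ ^ d ^ m) (norm_pos_iff.1 (e2 ▸ e3))
  rw [eval_sub, eval_pow, eval_X, eval_C, sub_eq_zero] at hw
  rw [e2, natDegree_X_pow_sub_C, mul_comm, mul_le_mul_iff_right₀ e3, eval_sub, eval_pow, eval_X,
    eval_C, norm_sub_rev, mul_comm b, pow_mul, ← pow_mul γ, ← pow_add] at h4
  refine hm w (Multiset.mem_toFinset.2 ((mem_nthRoots hN).2 hw)) ((h4.trans h3).trans
    ((mul_le_mul_of_nonneg_right (le_abs_self C) (by positivity)).trans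
      (mul_le_mul_of_nonneg_left ?_ (abs_nonneg C))))
  rw [norm_pow, pow_right_comm, pow_add, mul_comm, pow_mul]
  refine pow_le_pow_left₀ (by positivity) ?_ _
  refine (pow_le_pow_of_le_one h0 h1.le (Nat.mul_div_le (d ^ k) (e + 1))).trans ?_
  rw [pow_mul]
  exact pow_le_pow_left₀ (by positivity)
    ((pow_le_pow_of_le_one h0 h1.le e.le_succ).trans he.le) _

theorem Near.mono {d : ℕ} {τ γ β : ℂ} (hτ : ‖τ‖ ≤ 1) {T T' : ℕ} (h : Near d τ γ β T)
    (hT : T' ≤ T) : Near d τ γ β T' := by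
  obtain ⟨C, h⟩ := h
  refine ⟨|C|, h.mono fun m hm => hm.trans
    ((mul_le_mul_of_nonneg_right (le_abs_self C) (by positivity)).trans
      (mul_le_mul_of_nonneg_left (pow_le_pow_of_le_one (norm_nonneg _) ?_ hT) (abs_nonneg C)))⟩
  rw [norm_pow]
  exact pow_le_one₀ (norm_nonneg _) hτ

theorem dsp1_pow {z w : ℂ} (hz : ‖z‖ = 1) (hw : ‖w‖ = 1) (n : ℕ) :
    ‖z ^ n - w ^ n‖ ≤ n * ‖z - w‖ := by
  induction n with
  | zero => simp
  | succ n ih =>
    rw [show z ^ (n + 1) - w ^ (n + 1) = z * (z ^ n - w ^ n) + (z - w) * w ^ n by ring]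
    refine (norm_add_le _ _).trans ?_
    rw [norm_mul, norm_mul, norm_pow, hz, hw, one_pow, Nat.cast_succ]
    linarith

theorem near_pow {d : ℕ} {τ γ β : ℂ} (hγ : ‖γ‖ = 1) (hβ : ‖β‖ = 1) (h : ∀ T, Near d τ γ β T)
    (j T : ℕ) : Near d τ γ (β ^ d ^ j) T := by
  induction j generalizing T with
  | zero => simpa using h T
  | succ j ih =>
    obtain ⟨C, hC⟩ := ih (d * T)
    refine ⟨d * C, (tendsto_add_atTop_nat 1).frequently (hC.mono fun m hm => ?_)⟩
    rw [pow_succ d j, pow_succ d m, pow_mul γ, pow_mul β, pow_mul τ, norm_pow (τ ^ _) d, ← pow_mul ‖_‖,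
      mul_assoc]
    exact (dsp1_pow (by simp [hγ]) (by simp [hβ]) d).trans
      (mul_le_mul_of_nonneg_left hm (Nat.cast_nonneg d))

end Pool.Agent.P.MP_68214b_ag.DS
end

-- part Pool.Agent.P.MP_68214b_ag.DSP2
section

open Polynomial Filter Asymptotics NumberField Topology

namespace Pool.Agent.P.MP_68214b_ag.DS

theorem dsp2_conj {x z : ℂ} (hz : aeval z (minpoly ℚ x) = 0) (q : ℚ[X]) (hq : aeval x q = 0) :
    aeval z q = 0 := by
  obtain ⟨r, hr⟩ := minpoly.dvd ℚ x hq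
  rw [hr, map_mul, hz, zero_mul]

theorem dsp2_fin (B : ℝ) (e : ℕ) :
    {x : ℂ | IsIntegral ℤ x ∧ (minpoly ℚ x).natDegree ≤ e ∧
      ∀ z : ℂ, aeval z (minpoly ℚ x) = 0 → ‖z‖ ≤ B}.Finite := by
  classical
  let C := Nat.ceil (max B 1 ^ e * e.choose (e / 2))
  have := bUnion_roots_finite (algebraMap ℤ ℂ) e (Set.finite_Icc (-C : ℤ) C)
  refine this.subset fun x hx => ?_
  simp_rw [Set.mem_iUnion]
  have hm := minpoly.isIntegrallyClosed_eq_field_fractions' ℚ hx.1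
  have hq : IsIntegral ℚ x := hx.1.tower_top
  refine ⟨_, ⟨?_, fun i => ?_⟩, mem_rootSet.2 ⟨minpoly.ne_zero hx.1, minpoly.aeval ℤ x⟩⟩
  · rw [← (minpoly.monic hx.1).natDegree_map (algebraMap ℤ ℚ), ← hm]
    exact hx.2.1
  rw [Set.mem_Icc, ← abs_le, ← @Int.cast_le ℝ]
  have hb := coeff_bdd_of_roots_le (B := B) (algebraMap ℚ ℂ) (minpoly.monic hq)
    (IsAlgClosed.splits _) hx.2.1 (fun z hz => hx.2.2 z (by
      have := (mem_roots'.1 hz).2
      rwa [IsRoot.def, eval_map_algebraMap] at this)) i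
  refine (Eq.trans_le ?_ hb).trans (Nat.le_ceil _)
  rw [hm, coeff_map, coeff_map, eq_intCast, map_intCast, Complex.norm_intCast, Int.cast_abs]

theorem north {β1 : ℂ} (h : IsAlgebraic ℚ β1) (e : ℕ) :
    {β : ℂ | (∃ n, 0 < n ∧ β ^ n = β1) ∧ (minpoly ℚ β).natDegree ≤ e}.Finite := by
  classical
  obtain ⟨N, hN0, hN⟩ := ((IsFractionRing.isAlgebraic_iff ℤ ℚ ℂ).2 h).exists_integral_multiple
  have hp0 : minpoly ℚ β1 ≠ 0 := minpoly.ne_zero h.isIntegral
  obtain ⟨R, hR⟩ := ((minpoly ℚ β1).rootSet_finite ℂ).isBounded.exists_norm_le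
  have hNc : (N : ℂ) ≠ 0 := by exact_mod_cast hN0
  have hNq : (N : ℚ) ≠ 0 := by exact_mod_cast hN0
  have hinj : Function.Injective fun β : ℂ => (N : ℂ) * β := mul_right_injective₀ hNc
  refine ((dsp2_fin (‖(N : ℂ)‖ * max 1 R) e).preimage hinj.injOn).subset ?_
  rintro β ⟨⟨n, hn, hβ⟩, he⟩
  have hβa : IsAlgebraic ℚ β := IsAlgebraic.of_pow hn (hβ ▸ h)
  have hev : ∀ (z : ℂ) (q : ℚ[X]), aeval z (q.comp (C (N : ℚ)⁻¹ * X)) = aeval ((N : ℂ)⁻¹ * z) q := by
    intro z q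
    rw [aeval_comp]
    simp
  refine ⟨?_, ?_, ?_⟩
  · refine IsIntegral.of_pow hn ?_
    obtain ⟨m, rfl⟩ : ∃ m, n = m + 1 := ⟨n - 1, by omega⟩
    have e1 : ((N : ℂ) * β) ^ (m + 1) = (algebraMap ℤ ℂ N) ^ m * (N • β1) := by
      rw [← hβ, zsmul_eq_mul, eq_intCast]
      ring
    rw [e1]
    exact (isIntegral_algebraMap.pow m).mul hN
  · have hd : ((minpoly ℚ β).comp (C (N : ℚ)⁻¹ * X)).natDegree = (minpoly ℚ β).natDegree := by
      rw [natDegree_comp, natDegree_C_mul_X _ (inv_ne_zero hNq), mul_one]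
    have h0 : (minpoly ℚ β).comp (C (N : ℚ)⁻¹ * X) ≠ 0 := by
      intro h0
      have := minpoly.natDegree_pos hβa.isIntegral
      rw [← hd, h0, natDegree_zero] at this
      exact lt_irrefl _ this
    refine le_trans (natDegree_le_natDegree (minpoly.degree_le_of_ne_zero ℚ _ h0 ?_)) (hd ▸ he)
    rw [hev, inv_mul_cancel_left₀ hNc, minpoly.aeval]
  · intro z hz
    have h1 := dsp2_conj hz ((expand ℚ n (minpoly ℚ β1)).comp (C (N : ℚ)⁻¹ * X)) (by
      rw [hev, inv_mul_cancel_left₀ hNc, expand_aeval, hβ, minpoly.aeval])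
    rw [hev, expand_aeval] at h1
    have h2 := hR _ (mem_rootSet.2 ⟨hp0, h1⟩)
    rw [norm_pow] at h2
    have h3 : ‖(N : ℂ)⁻¹ * z‖ ≤ max 1 R := by
      rcases le_or_gt ‖(N : ℂ)⁻¹ * z‖ 1 with h4 | h4
      · exact h4.trans (le_max_left _ _)
      · exact ((le_self_pow₀ h4.le hn.ne').trans h2).trans (le_max_right _ _)
    calc ‖z‖ = ‖(N : ℂ)‖ * ‖(N : ℂ)⁻¹ * z‖ := by rw [← norm_mul, mul_inv_cancel_left₀ hNc]
      _ ≤ _ := mul_le_mul_of_nonneg_left h3 (norm_nonneg _)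

theorem deg_root {K : Type} [Field K] [NumberField K] [Algebra K ℂ] {β β1 : ℂ}
    (h : IsAlgebraic ℚ β1) {n : ℕ} (hn : 0 < n) (e : β ^ n = β1) :
    IsIntegral K β ∧ (minpoly K β).natDegree ≤ n * (minpoly ℚ β1).natDegree ∧
      (minpoly ℚ β).natDegree ≤ Module.finrank ℚ K * (minpoly K β).natDegree := by
  have : IsScalarTower ℚ K ℂ := IsScalarTower.rat
  have hβa : IsIntegral ℚ β := (IsAlgebraic.of_pow hn (e ▸ h)).isIntegral
  have hK : IsIntegral K β := hβa.tower_top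
  have hp0 : minpoly ℚ β1 ≠ 0 := minpoly.ne_zero h.isIntegral
  refine ⟨hK, ?_, ?_⟩
  · have h0 : expand K n ((minpoly ℚ β1).map (algebraMap ℚ K)) ≠ 0 :=
      (expand_ne_zero hn).2 (Polynomial.map_ne_zero hp0)
    refine (natDegree_le_natDegree (minpoly.degree_le_of_ne_zero K β h0 ?_)).trans ?_
    · rw [expand_aeval, e, aeval_map_algebraMap, minpoly.aeval]
    · rw [natDegree_expand, natDegree_map, mul_comm]
  · have := IntermediateField.adjoin.finiteDimensional hK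
    have : FiniteDimensional ℚ (IntermediateField.adjoin K {β}) :=
      Module.Finite.trans K (IntermediateField.adjoin K {β})
    rw [← IntermediateField.adjoin.finrank hK, Module.finrank_mul_finrank]
    have h1 := minpoly.natDegree_le (A := ℚ) (IntermediateField.AdjoinSimple.gen K β)
    rwa [← minpoly.algebraMap_eq
      (algebraMap (IntermediateField.adjoin K {β}) ℂ).injective,
      IntermediateField.AdjoinSimple.algebraMap_gen] at h1

theorem pick {τ γ β1 : ℂ} (hτ : ‖τ‖ ≤ 1) (hβ : β1 ≠ 0) {b d e : ℕ} (hb : 0 < b) (hd : 2 ≤ d)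
    (he : 0 < e) {B : Set ℂ} (hB : B.Finite)
    (h : ∀ᶠ k in atTop, ∃ β ∈ B, β ^ (b * d ^ k) = β1 ∧ Near d τ γ β (d ^ k / e)) :
    ∃ β : ℂ, (∃ N, 0 < N ∧ β ^ N = 1) ∧ ∀ T, Near d τ γ β T := by
  have h1 : ∃ β ∈ B, ∃ᶠ k in atTop, β ^ (b * d ^ k) = β1 ∧ Near d τ γ β (d ^ k / e) := by
    by_contra hc
    push Not at hc
    have h2 := (Filter.eventually_all_finite hB).2 hc
    obtain ⟨k, ⟨β, hβB, h3⟩, h4⟩ := (h.and h2).exists
    exact h4 β hβB h3.1 h3.2
  obtain ⟨β, -, hf⟩ := h1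
  refine ⟨β, ?_, fun T => ?_⟩
  · obtain ⟨k1, h1, -⟩ := hf.exists
    obtain ⟨k2, hk, h2, -⟩ := Filter.frequently_atTop.1 hf (k1 + 1)
    have hlt : b * d ^ k1 < b * d ^ k2 :=
      Nat.mul_lt_mul_of_pos_left (Nat.pow_lt_pow_right (by omega) (by omega)) hb
    refine ⟨b * d ^ k2 - b * d ^ k1, by omega, ?_⟩
    have h3 : β ^ (b * d ^ k2 - b * d ^ k1) * β1 = 1 * β1 := by
      rw [one_mul]
      nth_rewrite 1 [← h1]
      rw [← pow_add, Nat.sub_add_cancel hlt.le, h2]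
    exact mul_right_cancel₀ hβ h3
  · obtain ⟨k, hk, -, h2⟩ := Filter.frequently_atTop.1 hf (T * e)
    refine Near.mono hτ h2 ((Nat.le_div_iff_mul_le he).2 (hk.trans ?_))
    exact (Nat.lt_pow_self (by omega)).le

end Pool.Agent.P.MP_68214b_ag.DS
end

-- part Pool.Agent.P.MP_68214b_ag.DSD1
section

open Polynomial Filter Asymptotics NumberField Topology

namespace Pool.Agent.P.MP_68214b_ag.DS

theorem root_near_mult {g : ℂ[X]} (hg : g ≠ 0) {𝓕 : Filter ℕ} [𝓕.NeBot] (hF : 𝓕 ≤ atTop) {d : ℕ}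
    (hd : 2 ≤ d) {W : ℕ → ℂ} {lam : ℝ} (h0 : 0 ≤ lam) (h1 : lam < 1)
    (h : (fun n => g.eval (W n)) =O[𝓕] fun n => lam ^ d ^ n) : ∃ (β : ℂ) (C : ℝ), g.IsRoot β ∧
      ∃ᶠ n in 𝓕, ‖W n - β‖ ^ rootMultiplicity β g ≤ C * lam ^ d ^ n := by
  obtain ⟨β, C, l, hβ, l0, l1, hf⟩ := root_near hg hF hd h0 h1 h
  obtain ⟨q, e1, e2⟩ := exists_eq_pow_rootMultiplicity_mul_and_not_dvd g hg β
  have q0 : 0 < ‖q.eval β‖ := norm_pos_iff.2 fun e => e2 (dvd_iff_isRoot.2 e)
  obtain ⟨δ, hδ, hq⟩ := Metric.continuousAt_iff.1 (q.continuousAt (a := β)) _ (half_pos q0)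
  obtain ⟨C0, hC⟩ := h.bound
  have ht := (((tend_pp l0 l1 hd).mono_left hF).const_mul C).eventually
    (gt_mem_nhds (show C * 0 < δ by simpa using hδ))
  refine ⟨β, C0 / (‖q.eval β‖ / 2), hβ, (hf.and_eventually (hC.and ht)).mono ?_⟩
  rintro n ⟨a, b, c⟩
  have h2 := hq (x := W n) (by rw [dist_eq_norm]; exact a.trans_lt c)
  rw [dist_eq_norm] at h2
  have h3 := norm_sub_norm_le (q.eval β) (q.eval (W n))
  rw [norm_sub_rev] at h3
  rw [Real.norm_of_nonneg (by positivity)] at b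
  rw [div_mul_eq_mul_div, le_div_iff₀ (half_pos q0)]
  refine le_trans ?_ b
  conv_rhs => rw [e1, eval_mul, eval_pow, eval_sub, eval_X, eval_C, norm_mul, norm_pow]
  gcongr
  linarith

theorem em_two {g : ℂ[X]} (hd : 2 ≤ g.natDegree) (h : NoTot g) (c : ℂ) :
    em (iter g 2) c < g.natDegree ^ 2 := by
  have g0 : 0 < g.natDegree := by omega
  have e : iter g 2 = g.comp g := by rw [iter_succ, iter_succ, iter_zero, comp_X]
  rw [e, em_comp g0 g0]
  have a := em_le g0 c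
  have b := em_le g0 (g.eval c)
  by_contra hc
  have a' : em g c = g.natDegree := by nlinarith
  have b' : em g (g.eval c) = g.natDegree := by nlinarith
  have r : (derivative g).IsRoot (g.eval c) := by
    have := rm_der g0 (g.eval c)
    exact (rootMultiplicity_pos'.1 (by omega)).2
  have e2 := congrArg (fun q => (derivative q).eval (g.eval c)) (em_top g0 a')
  simp only [derivative_add, derivative_C, add_zero, derivative_C_mul, derivative_X_sub_C_pow,
    eval_mul, eval_C, eval_pow, eval_sub, eval_X, eval_natCast] at e2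
  rw [IsRoot.def, e2, mul_eq_zero, mul_eq_zero, leadingCoeff_eq_zero, Nat.cast_eq_zero] at r
  rcases r with r | r | r
  · rw [r] at hd; simp at hd
  · omega
  · exact h.em_ne hd (sub_eq_zero.1 (eq_zero_of_pow_eq_zero r)) a'

theorem em_even {g : ℂ[X]} (hd : 2 ≤ g.natDegree) (h : NoTot g) (j : ℕ) (c : ℂ) :
    em (iter g (2 * j)) c ≤ (g.natDegree ^ 2 - 1) ^ j := by
  have p : ∀ k, 0 < (iter g k).natDegree := fun k => by
    rw [iter_natDegree]; exact pow_pos (by omega) _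
  induction j with
  | zero => simpa [iter_zero] using em_le (g := X) (by simp) c
  | succ j ih =>
    rw [mul_add, mul_one, add_comm, iter_add, em_comp (p _) (p _), pow_succ]
    exact Nat.mul_le_mul ih (Nat.le_sub_one_of_lt (em_two hd h _))

theorem deg_mult {K : Type*} [Field K] [CharZero K] [Algebra K ℂ] {H : K[X]} (hH : H ≠ 0) {w : ℂ}
    (hw : IsIntegral K w) :
    (minpoly K w).natDegree * rootMultiplicity w (H.map (algebraMap K ℂ)) ≤ H.natDegree := by
  have hi := minpoly.irreducible hw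
  obtain ⟨j, r, hr, rfl⟩ := WfDvdMonoid.max_power_factor hH hi
  have r0 : ¬ (r.map (algebraMap K ℂ)).IsRoot w := fun h =>
    hr (minpoly.dvd K w (by rwa [IsRoot, eval_map_algebraMap] at h))
  have h1 := rootMultiplicity_le_one_of_separable (hi.separable.map (f := algebraMap K ℂ)) w
  have m0 : (minpoly K w).map (algebraMap K ℂ) ≠ 0 := Polynomial.map_ne_zero hi.ne_zero
  have r1 := right_ne_zero_of_mul hH
  rw [Polynomial.map_mul, Polynomial.map_pow,
    rootMultiplicity_mul (mul_ne_zero (pow_ne_zero _ m0) (Polynomial.map_ne_zero r1)),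
    rootMultiplicity_eq_zero r0, add_zero, dsa1_pow m0,
    natDegree_mul (pow_ne_zero _ hi.ne_zero) r1, natDegree_pow, mul_comm j]
  exact (Nat.mul_le_mul_left _ (by nlinarith)).trans (Nat.le_add_right _ _)

theorem back_bdd {g m : ℂ[X]} (hg : g.Monic) (hd : 2 ≤ g.natDegree) (hm : m ≠ 0) :
    ∃ R : ℝ, ∀ k z, m.eval ((iter g k).eval z) = 0 → ‖z‖ ≤ R := by
  obtain ⟨R, hR, hl⟩ := dsn5_low hg hd
  obtain ⟨B, hB⟩ := (finite_setOfPred_isRoot hm).isBounded.exists_norm_le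
  refine ⟨max R B, fun k => ?_⟩
  induction k with
  | zero => exact fun z hz => (hB z (by simpa [iter_zero] using hz)).trans (le_max_right _ _)
  | succ k ih =>
    intro z hz
    rw [iter_succ', eval_comp] at hz
    rcases le_or_gt ‖z‖ R with h | h
    · exact h.trans (le_max_left _ _)
    have h1 := hl z h.le
    have h2 : ‖z‖ ^ 2 ≤ ‖z‖ ^ g.natDegree := pow_le_pow_right₀ (by linarith) hd
    exact le_trans (by nlinarith) (ih _ hz)

theorem den_C (s : Finset ℂ) (h : ∀ z ∈ s, IsAlgebraic ℚ z) :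
    ∃ N : ℤ, N ≠ 0 ∧ ∀ z ∈ s, IsIntegral ℤ ((N : ℂ) * z) := by
  classical
  induction s using Finset.induction_on with
  | empty => exact ⟨1, one_ne_zero, by simp⟩
  | insert a s _ ih =>
    obtain ⟨N, h0, hN⟩ := ih fun z hz => h z (Finset.mem_insert_of_mem hz)
    obtain ⟨M, m0, hM⟩ := ((IsFractionRing.isAlgebraic_iff ℤ ℚ ℂ).2
      (h a (Finset.mem_insert_self _ _))).exists_integral_multiple
    have zi : ∀ k : ℤ, IsIntegral ℤ (k : ℂ) := fun k => isIntegral_algebraMap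
    refine ⟨N * M, mul_ne_zero h0 m0, fun z hz => ?_⟩
    rcases Finset.mem_insert.1 hz with rfl | hz
    · rw [zsmul_eq_mul] at hM
      simpa [mul_assoc] using (zi N).mul hM
    · simpa [mul_assoc, mul_left_comm] using (zi M).mul (hN z hz)

theorem back_int {g : ℂ[X]} (hg : g.Monic) (hd : 0 < g.natDegree) {N : ℤ}
    (hN : ∀ k, IsIntegral ℤ ((N : ℂ) * g.coeff k)) {w : ℂ}
    (h : IsIntegral ℤ ((N : ℂ) * g.eval w)) : IsIntegral ℤ ((N : ℂ) * w) := by
  have zi : IsIntegral ℤ (N : ℂ) := isIntegral_algebraMap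
  refine IsIntegral.of_aeval_monic_of_isIntegral_coeff (p := g.scaleRoots N)
    ((monic_scaleRoots_iff _).2 hg) (by rw [natDegree_scaleRoots]; omega) ?_ fun i => ?_
  · rw [scaleRoots_eval_mul, show g.natDegree = g.natDegree - 1 + 1 by omega, pow_succ, mul_assoc]
    exact (zi.pow _).mul h
  · rw [coeff_scaleRoots]
    rcases lt_trichotomy i g.natDegree with hi | rfl | hi
    · rw [show g.natDegree - i = g.natDegree - i - 1 + 1 by omega, pow_succ', ← mul_assoc,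
        mul_comm (g.coeff i)]
      exact (hN i).mul (zi.pow _)
    · simpa [hg.coeff_natDegree] using isIntegral_one
    · simpa [coeff_eq_zero_of_natDegree_lt hi] using isIntegral_zero

variable {K : Type} [Field K] [NumberField K]

theorem alg_emb (σ : K →+* ℂ) (y : K) : IsAlgebraic ℚ (σ y) :=
  (Algebra.IsAlgebraic.isAlgebraic (R := ℚ) y).algHom σ.toRatAlgHom

theorem north2 [Algebra K ℂ] {f M : K[X]} (hf : f.Monic) (hd : 2 ≤ f.natDegree) (hM : M ≠ 0)
    (e : ℕ) : {w : ℂ | (∃ k, aeval w (M.comp (iter f k)) = 0) ∧ IsIntegral K w ∧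
      (minpoly K w).natDegree ≤ e}.Finite := by
  classical
  have ev : ∀ (σ : K →+* ℂ) k z, (M.comp (iter f k)).eval₂ σ z =
      (M.map σ).eval ((iter (f.map σ) k).eval z) := fun σ k z => by
    rw [← eval_map, map_comp, iter_map, eval_comp]
  choose R hR using fun σ : K →+* ℂ => back_bdd (hf.map σ) (by rwa [natDegree_map])
    (Polynomial.map_ne_zero hM : M.map σ ≠ 0)
  obtain ⟨σ0, h0⟩ := @Finite.exists_max _ ℝ _ ⟨algebraMap K ℂ⟩ _ R
  set g := f.map (algebraMap K ℂ) with hg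
  have m0 : M.map (algebraMap K ℂ) ≠ 0 := Polynomial.map_ne_zero hM
  obtain ⟨N, N0, hN⟩ := den_C ((Finset.range (f.natDegree + 1)).image g.coeff ∪
      (M.map (algebraMap K ℂ)).roots.toFinset) (by
    intro z hz
    rcases Finset.mem_union.1 hz with hz | hz
    · obtain ⟨k, -, rfl⟩ := Finset.mem_image.1 hz
      rw [hg, coeff_map]; exact alg_emb _ _
    · exact alg_root m0 (fun k => by rw [coeff_map]; exact alg_emb _ _)
        ((mem_roots m0).1 (Multiset.mem_toFinset.1 hz)))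
  have gd : g.natDegree = f.natDegree := natDegree_map _
  have hi : ∀ k w, (M.map (algebraMap K ℂ)).eval ((iter g k).eval w) = 0 →
      IsIntegral ℤ ((N : ℂ) * w) := fun k => by
    induction k with
    | zero =>
      intro w hw
      exact hN w (Finset.mem_union_right _ (Multiset.mem_toFinset.2 ((mem_roots m0).2
        (by simpa [iter_zero] using hw))))
    | succ k ih =>
      intro w hw
      rw [iter_succ', eval_comp] at hw
      refine back_int (hf.map _) (by rw [natDegree_map]; omega) (fun j => ?_) (ih _ hw)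
      rcases le_or_gt j f.natDegree with hj | hj
      · exact hN _ (Finset.mem_union_left _ (Finset.mem_image_of_mem _
          (Finset.mem_range.2 (by omega))))
      · rw [coeff_eq_zero_of_natDegree_lt (by rwa [natDegree_map]), mul_zero]
        exact isIntegral_zero
  have Nc : (N : ℂ) ≠ 0 := Int.cast_ne_zero.2 N0
  refine ((dsp2_fin (‖(N : ℂ)‖ * R σ0) (Module.finrank ℚ K * e)).preimage
    (mul_right_injective₀ Nc).injOn).subset ?_
  rintro w ⟨⟨k, hk⟩, hw, he⟩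
  set F := IntermediateField.adjoin K {w} with hF
  have : FiniteDimensional K F := IntermediateField.adjoin.finiteDimensional hw
  have : NumberField F := NumberField.of_module_finite K F
  set v : F := IntermediateField.AdjoinSimple.gen K w with hv
  have em : minpoly ℚ ((N : ℂ) * w) = minpoly ℚ ((N : F) * v) := by
    rw [← minpoly.algHom_eq (F.val : F →+* ℂ).toRatAlgHom (F.val : F →+* ℂ).injective, map_mul,
      map_intCast]
    rfl
  refine ⟨hi k w (by rw [← ev]; exact hk), ?_, fun z hz => ?_⟩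
  · rw [em]
    refine (minpoly.natDegree_le _).trans ?_
    rw [← Module.finrank_mul_finrank ℚ K F, IntermediateField.adjoin.finrank hw]
    exact Nat.mul_le_mul_left _ he
  · rw [em] at hz
    obtain ⟨φ, rfl⟩ := (Embeddings.range_eval_eq_rootSet_minpoly F ℂ ((N : F) * v)).symm.subset
      (mem_rootSet.2 ⟨minpoly.ne_zero (Algebra.IsIntegral.isIntegral _), hz⟩)
    simp only [map_mul, map_intCast, norm_mul]
    refine mul_le_mul_of_nonneg_left ((hR (φ.comp (algebraMap K F)) k _ ?_).trans (h0 _))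
      (norm_nonneg _)
    rw [← ev, ← hom_eval₂, ← aeval_def]
    have : aeval v (M.comp (iter f k)) = 0 := by
      apply (algebraMap F ℂ).injective
      rw [← aeval_algebraMap_apply, map_zero]
      exact hk
    rw [this, map_zero]

end Pool.Agent.P.MP_68214b_ag.DS
end

-- part Pool.Agent.P.MP_68214b_ag.DG8
section

open Polynomial Filter Topology

namespace Pool.Agent.P.MP_68214b_ag.DS

variable {L : Type} [Field L] [Algebra ℂ L] {x : L} {ι : FractionRing ℂ[X] →+* L}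
  {φ : L →ₐ[ℂ] L} {f : ℂ[X]}

theorem dg8_top {D : ℕ} (hD : 0 < D) (c : ℕ) : ∃ j, c * (D - 1) ^ j < D ^ j := by
  have d0 : (0 : ℝ) < D := by positivity
  obtain ⟨j, hj⟩ := exists_pow_lt_of_lt_one (show (0 : ℝ) < 1 / (c + 1) by positivity)
    ((div_lt_one d0).2 (show ((D - 1 : ℕ) : ℝ) < D by exact_mod_cast (by omega)))
  rw [div_pow, div_lt_div_iff₀ (by positivity) (by positivity), one_mul] at hj
  have : (D - 1) ^ j * (c + 1) < D ^ j := by exact_mod_cast hj
  exact ⟨j, by nlinarith [Nat.zero_le ((D - 1) ^ j)]⟩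

theorem rl_inv {x y : L} {G : ℂ[X][X]} (hG : G ≠ 0) (h : aevalAeval x y G = 0) (c : ℂ) :
    ∃ m, Rl y (x - algebraMap ℂ L c)⁻¹ m := by
  let := (aeval y : ℂ[X] →ₐ[ℂ] L).toRingHom.toAlgebra
  have h1 : IsAlgebraic ℂ[X] x := ⟨Bivariate.swap G, (map_ne_zero_iff _ Bivariate.swap.injective).2 hG,
    (ae_eq y x _).symm.trans ((Bivariate.aevalAeval_swap y x G).trans h)⟩
  obtain ⟨H, H0, hH⟩ := (h1.sub (isAlgebraic_algebraMap (C c))).inv
  rw [show algebraMap ℂ[X] L (C c) = algebraMap ℂ L c from aeval_C y c] at hH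
  exact ⟨_, H, H0, le_rfl, (ae_eq _ _ H).trans hH⟩

theorem FF.int (h : FF x ι) (hφ : φ x = aeval x f) (hd : 2 ≤ f.natDegree) (hN : NoTot f) {y : L}
    {g : ℂ[X]} (hy : φ y = aeval y g) (hg : g.natDegree = f.natDegree) : y ∈ Fn x := by
  intro τ V t1 t2
  by_contra! t3
  obtain ⟨G, G0, -, hG⟩ := h.rl y
  obtain ⟨c, hc⟩ := v_res t1 t3 t2 G0 hG
  obtain ⟨m, hm⟩ := rl_inv G0 hG c
  obtain ⟨s, hs⟩ := hm.bd
  have h1 := hs _ t1 t3
  have h2 : 0 < vl τ V (x - algebraMap ℂ L c) := zero_lt_iff.2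
    ((Valuation.ne_zero_iff _).2 fun e => X_sub_C_ne_zero c (h.inj (by simpa using e)))
  obtain ⟨s', hs'⟩ := exists_cdeg G
  have l0 := leadingCoeff_ne_zero.2 G0
  obtain ⟨j, hj⟩ := dg8_top (D := f.natDegree ^ 2) (by positivity) (s * G.leadingCoeff.natDegree)
  have p1 : 0 < (iter f (2 * j)).natDegree := by rw [iter_natDegree]; positivity
  have p2 : (iter g (2 * j)).natDegree = (f.natDegree ^ 2) ^ j := by
    rw [iter_natDegree, hg, pow_mul]
  have e1 : vl τ V ((φ ^ (2 * j)) y) = vl τ V y ^ (f.natDegree ^ 2) ^ j := by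
    rw [phi_pow hy, v_top t1 t3 (ne_zero_of_natDegree_gt (n := 0) (by rw [p2]; positivity)), p2]
  have h3 : vl τ V ((φ ^ (2 * j)) (aeval x G.leadingCoeff)) * vl τ V ((φ ^ (2 * j)) y) ≤ 1 ^ s' :=
    v_lc (vl_phi (φ := φ ^ (2 * j)) t1) hG hs' le_rfl
      (show vl τ V ((φ ^ (2 * j)) x) ≤ 1 from phi_pow hφ _ ▸ v_le1 t1 t2 _)
      (show 1 ≤ vl τ V ((φ ^ (2 * j)) y) from e1 ▸ one_le_pow₀ t3.le)
  have l1 : G.leadingCoeff.comp (iter f (2 * j)) ≠ 0 := fun e =>
    (comp_eq_zero_iff.1 e).elim l0 fun e => by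
      have := congrArg natDegree e.2
      rw [natDegree_C] at this
      omega
  rw [e1, phi_ae (phi_pow hφ _), v_rm t1 hc l1, rm_comp p1 l0, one_pow] at h3
  have h4 : em (iter f (2 * j)) c * rootMultiplicity ((iter f (2 * j)).eval c) G.leadingCoeff ≤
      (f.natDegree ^ 2 - 1) ^ j * G.leadingCoeff.natDegree :=
    Nat.mul_le_mul (em_even hd hN j c) (by
      simpa using natDegree_le_of_dvd (pow_rootMultiplicity_dvd G.leadingCoeff _) l0)
  generalize em (iter f (2 * j)) c * _ = r at h3 h4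
  rw [map_inv₀] at h1
  have h5 := (le_div_iff₀' (pow_pos h2 r)).2 h3
  rw [one_div, ← inv_pow] at h5
  replace h5 := h5.trans (pow_le_pow_left₀ zero_le h1 r)
  rw [← pow_mul _ s, pow_le_pow_iff_right₀ t3] at h5
  have h6 := Nat.mul_le_mul_left s h4
  nlinarith

end Pool.Agent.P.MP_68214b_ag.DS
end

-- part Pool.Agent.P.MP_68214b_ag.DSO1
section

open Polynomial Filter Asymptotics NumberField Topology

namespace Pool.Agent.P.MP_68214b_ag.DS

theorem eval_phi {K J : Type*} [CommRing K] (f : J → K[X]) (x : J → K) (P : MvPolynomial J K) :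
    MvPolynomial.eval x (phi f P) = MvPolynomial.eval (fun i => (f i).eval (x i)) P := by
  rw [← MvPolynomial.coe_aeval_eq_eval, ← MvPolynomial.coe_aeval_eq_eval]
  refine DFunLike.congr_fun (?_ : (MvPolynomial.aeval x).comp (phi f) =
    MvPolynomial.aeval fun i => (f i).eval (x i)) P
  ext i
  rw [AlgHom.comp_apply, phi, MvPolynomial.aeval_X, ← Polynomial.aeval_algHom_apply,
    MvPolynomial.aeval_X, MvPolynomial.aeval_X, coe_aeval_eq_eval]

theorem dso1_shift {p : ℕ → Prop} : (∀ᶠ n in atTop, p (n + 1)) ↔ ∀ᶠ n in atTop, p n := by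
  conv_rhs => rw [← map_add_atTop_eq_nat 1]
  rfl

theorem van_phi {K J : Type*} [Field K] {f : J → K[X]} {x : J → ℕ → K}
    (hs : ∀ i n, x i (n + 1) = (f i).eval (x i n)) (P : MvPolynomial J K) :
    Van x (phi f P) ↔ Van x P := by
  simp only [Van, eval_phi, ← hs]
  exact dso1_shift (p := fun n => MvPolynomial.eval (fun i => x i n) P = 0)

/-- the ideal of the polynomials that vanish on the tail -/
def dso1_id {K J : Type*} [Field K] (x : J → ℕ → K) : Ideal (MvPolynomial J K) where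
  carrier := {P | Van x P}
  zero_mem' := Eventually.of_forall fun _ => map_zero _
  add_mem' ha hb := (Eventually.and ha hb).mono fun _ h => by rw [map_add, h.1, h.2, add_zero]
  smul_mem' _ _ h := Eventually.mono h fun _ h => by rw [smul_eq_mul, map_mul, h, mul_zero]

theorem dso1_per {R : Type*} [CommRing R] [IsNoetherianRing R] (ψ : R →+* R) {I p : Ideal R}
    (hI : I.comap ψ = I) (hp : p ∈ I.minimalPrimes) : ∃ l, 0 < l ∧ (Ideal.comap ψ)^[l] p = p := by
  have : Finite I.minimalPrimes := Ideal.finite_minimalPrimes_of_isNoetherianRing R I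
  choose s h1 h2 using fun q : I.minimalPrimes =>
    Ideal.exists_minimalPrimes_comap_eq (I := I) ψ q.1 (hI.symm ▸ q.2)
  let g : I.minimalPrimes → I.minimalPrimes := fun q => ⟨s q, h1 q⟩
  have hg : Function.Injective g := fun a b h => Subtype.ext (by
    rw [← h2 a, ← h2 b, show s a = s b from congrArg Subtype.val h])
  obtain ⟨l, h0, hl⟩ := hg.mem_periodicPts ⟨p, hp⟩
  have key : ∀ (n : ℕ) (q : I.minimalPrimes), (Ideal.comap ψ)^[n] (g^[n] q).1 = q.1 := by
    intro n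
    induction n with
    | zero => exact fun _ => rfl
    | succ n ih =>
      intro q
      rw [Function.iterate_succ_apply', Function.iterate_succ_apply, ih]
      exact h2 q
  exact ⟨l, h0, by simpa only [hl.eq] using key l ⟨p, hp⟩⟩

theorem oc {K J : Type*} [Field K] [Finite J] (f : J → K[X]) (x : J → ℕ → K)
    (hs : ∀ i n, x i (n + 1) = (f i).eval (x i n)) :
    ∃ l, 0 < l ∧ ∀ c, Dom fun i t => x i (c + l * t) := by
  let ψ : MvPolynomial J K →+* MvPolynomial J K := phi f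
  let ev : ℕ → Ideal (MvPolynomial J K) := fun n => RingHom.ker (MvPolynomial.eval fun i => x i n)
  have hI : (dso1_id x).comap ψ = dso1_id x := Ideal.ext (van_phi hs)
  have hev : ∀ n, (ev n).comap ψ = ev (n + 1) := fun n => Ideal.ext fun P => by
    simp only [ev, ψ, Ideal.mem_comap, RingHom.mem_ker, RingHom.coe_coe, eval_phi, hs]
  obtain ⟨s, hs'⟩ := IsNoetherian.noetherian (dso1_id x)
  obtain ⟨n0, h0⟩ := ((eventually_all_finset s).2 fun P hP =>
    show Van x P from (hs'.le (Submodule.subset_span hP) : P ∈ dso1_id x)).exists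
  have : (ev n0).IsPrime := RingHom.ker_isPrime _
  obtain ⟨p, hp, hp0⟩ := Ideal.exists_minimalPrimes_le (I := dso1_id x) (J := ev n0)
    (hs'.ge.trans (Submodule.span_le.2 h0))
  obtain ⟨l, hl, hper⟩ := dso1_per ψ hI hp
  have hj : ∀ j, ((Ideal.comap ψ)^[j] p).IsPrime ∧ dso1_id x ≤ (Ideal.comap ψ)^[j] p ∧
      (Ideal.comap ψ)^[j] p ≤ ev (n0 + j) := by
    intro j
    induction j with
    | zero => exact ⟨hp.1.1, hp.1.2, hp0⟩
    | succ j ih =>
      rw [Function.iterate_succ_apply', ← add_assoc, ← hev]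
      have := ih.1
      exact ⟨Ideal.comap_isPrime _ _, hI.ge.trans (Ideal.comap_mono ih.2.1), Ideal.comap_mono ih.2.2⟩
  obtain ⟨j, -, hle⟩ := (hp.1.1.inf_le' (s := Finset.range l)
      (f := fun j => dso1_id fun i t => x i (n0 + j + l * t))).1 (le_trans (fun P hP => by
    obtain ⟨t0, ht⟩ := eventually_atTop.1 ((eventually_all_finset _).2 fun j hj =>
      show Van _ P from Submodule.mem_finsetInf.1 hP j hj)
    refine eventually_atTop.2 ⟨n0 + l * t0, fun n hn => ?_⟩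
    have := ht ((n - n0) / l) ((Nat.le_div_iff_mul_le hl).2 (by rw [mul_comm]; omega)) _
      (Finset.mem_range.2 (Nat.mod_lt (n - n0) hl))
    rwa [add_assoc, Nat.mod_add_div, Nat.add_sub_cancel' (by omega)] at this) hp.1.2)
  have hge : (Ideal.comap ψ)^[j] p ≤ dso1_id fun i t => x i (n0 + j + l * t) := fun P hP =>
    Eventually.of_forall fun t => by
      have := (hj (j + l * t)).2.2
      rw [Function.iterate_add_apply, Function.iterate_mul, Function.iterate_fixed hper,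
        ← add_assoc] at this
      exact this hP
  have he : (dso1_id fun i t => x i (n0 + j + l * t)) = p :=
    hle.antisymm ((hp.2 ⟨(hj j).1, (hj j).2.1⟩ (hge.trans hle)).trans hge)
  have h1 : ∀ k, Dom fun i t => x i (n0 + j + k + l * t) := by
    intro k
    induction k with
    | zero => exact fun P Q => (he ▸ hp.1.1).mem_or_mem (x := P) (y := Q)
    | succ k ih =>
      have e : ∀ P, Van (fun i t => x i (n0 + j + (k + 1) + l * t)) P ↔
          Van (fun i t => x i (n0 + j + k + l * t)) (phi f P) := fun P => by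
        simp only [Van, eval_phi, ← hs, add_assoc, add_comm 1]
      intro P Q
      rw [e, e, e, map_mul]
      exact ih _ _
  have h2 : ∀ k c P, Van (fun i t => x i (c + l * k + l * t)) P ↔
      Van (fun i t => x i (c + l * t)) P := by
    intro k c P
    unfold Van
    conv_rhs => rw [← map_add_atTop_eq_nat k]
    simp only [eventually_map, mul_add, add_assoc, add_comm (l * k)]
  refine ⟨l, hl, fun c P Q => ?_⟩
  have := h1 (c + l * (n0 + j) - (n0 + j)) P Q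
  rwa [Nat.add_sub_cancel' (by nlinarith), h2, h2, h2] at this

end Pool.Agent.P.MP_68214b_ag.DS
end

-- part Pool.Agent.P.MP_68214b_ag.DG9
section

open Polynomial Filter Topology NNReal

namespace Pool.Agent.P.MP_68214b_ag.DS

theorem FF.two {L : Type} [Field L] [Algebra ℂ L] {x : L} {ι : FractionRing ℂ[X] →+* L}
    (h : FF x ι) (w : ℕ → Valuation L ℝ≥0) (hv : ∀ k, (w k).IsTrivialOn ℂ) {ρ : ℝ≥0} (hρ : 1 < ρ)
    (hx : ∀ k, w k x = ρ) : ∃ i j, i < j ∧ ∀ a, w i a = w j a := by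
  by_contra! hc
  let A : Fin (rk ι + 1) → AbsoluteValue L ℝ := fun k =>
    { toFun := fun a => w k a
      map_mul' := fun a b => by rw [map_mul, NNReal.coe_mul]
      nonneg' := fun a => NNReal.coe_nonneg _
      eq_zero' := fun a => by rw [NNReal.coe_eq_zero, Valuation.zero_iff]
      add_le' := fun a b => by
        exact_mod_cast ((w k).map_add a b).trans (max_le_add_of_nonneg zero_le zero_le) }
  have hA : ∀ k a, A k a = w k a := fun _ _ => rfl
  have x0 : x ≠ 0 := (w 0).ne_zero_iff.1 (by rw [hx]; positivity)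
  have r1 : (1 : ℝ) < ρ := hρ
  choose a ha using AbsoluteValue.exists_one_lt_lt_one_pi_of_not_isEquiv (v := A)
    (fun k => ⟨x, x0, by rw [hA, hx]; exact r1.ne'⟩) (fun i j hij e => by
      obtain ⟨c, c0, e⟩ := AbsoluteValue.isEquiv_iff_exists_rpow_eq.1 e
      have e1 := congrFun e x
      simp only [hA, hx] at e1
      have c1 : c = 1 := by
        rwa [← Real.rpow_right_inj (by linarith) r1.ne', Real.rpow_one]
      have e2 : ∀ a, w i a = w j a := fun a => by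
        have := congrFun e a
        simp only [hA, c1, Real.rpow_one] at this
        exact_mod_cast this
      rcases hij.lt_or_gt with h1 | h1
      · obtain ⟨a, ha⟩ := hc i j h1
        exact ha (e2 a)
      · obtain ⟨a, ha⟩ := hc j i h1
        exact ha (e2 a).symm)
  have a1 : ∀ i : Fin (rk ι + 1), 1 < w i (a i) := fun i => by exact_mod_cast (ha i).1
  have a2 : ∀ i j : Fin (rk ι + 1), j ≠ i → w j (a i) < 1 := fun i j e => by
    exact_mod_cast (ha i).2 j e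
  have he : ∀ k r, w k (ι r) = w 0 (ι r) := fun k r => by
    have : ∀ p : ℂ[X], w k (aeval x p) = w 0 (aeval x p) := fun p => by
      rcases eq_or_ne p 0 with rfl | p0
      · simp
      · rw [v_top (hv k) (hx k ▸ hρ) p0, v_top (hv 0) (hx 0 ▸ hρ) p0, hx, hx]
    obtain ⟨p, q, -, rfl⟩ := IsFractionRing.div_surjective ℂ[X] r
    rw [map_div₀, h.map, h.map, map_div₀, map_div₀, this, this]
  obtain ⟨c, h1, i0, h2⟩ := rk_dep h.fin fun i => a i / (1 + a i)
  obtain ⟨i, -, hi⟩ := Finset.univ.exists_max_image (fun i => w 0 (ι (c i))) ⟨i0, Finset.mem_univ _⟩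
  have p0 : 0 < w 0 (ι (c i)) := (zero_lt_iff.2 ((w 0).ne_zero_iff.2 ((map_ne_zero ι).2 h2))).trans_le
    (hi i0 (Finset.mem_univ _))
  have b1 : w i (ι (c i) * (a i / (1 + a i))) = w 0 (ι (c i)) := by
    rw [map_mul, he, map_div₀, (w i).map_add_eq_of_lt_right (by rw [map_one]; exact a1 i),
      div_self (zero_lt_one.trans (a1 i)).ne', mul_one]
  have := (w i).map_sum_eq_of_lt (f := fun j => ι (c j) * (a j / (1 + a j))) (Finset.mem_univ i)
    fun j hj => by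
      have h3 := a2 j i fun e => (Finset.mem_sdiff.1 hj).2 (Finset.mem_singleton.2 e.symm)
      rw [b1, map_mul, he, map_div₀, (w i).map_one_add_of_lt h3, div_one]
      exact (mul_le_mul_left (hi j (Finset.mem_univ _)) _).trans_lt (mul_lt_of_lt_one_right p0 h3)
  rw [h1, map_zero, b1] at this
  exact p0.ne this

theorem exists_L {J : Type} {g : J → ℂ[X]} {z : J → ℕ → ℂ}
    (hs : ∀ i n, z i (n + 1) = (g i).eval (z i n)) (hD : Dom z) :
    ∃ (L : Type) (_ : Field L) (_ : Algebra ℂ L) (π : MvPolynomial J ℂ →ₐ[ℂ] L) (φ : L →ₐ[ℂ] L),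
      (∀ P, π P = 0 ↔ Van z P) ∧ (∀ a, ∃ P Q, a = π P / π Q) ∧ (∀ P, φ (π P) = π (phi g P)) ∧
      ∀ v : Valuation (MvPolynomial J ℂ) ℝ≥0, (∀ P, π P = 0 ↔ v P = 0) →
        ∃ w : Valuation L ℝ≥0, ∀ P, w (π P) = v P := by
  have : (dso1_id z).IsPrime := ⟨fun ht => by
      have : Van z 1 := show (1 : MvPolynomial J ℂ) ∈ dso1_id z from ht ▸ Submodule.mem_top
      obtain ⟨n, hn⟩ := this.exists
      simp at hn, fun {p q} hpq => hD p q hpq⟩
  let A := MvPolynomial J ℂ ⧸ dso1_id z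
  let π : MvPolynomial J ℂ →ₐ[ℂ] FractionRing A :=
    (IsScalarTower.toAlgHom ℂ A _).comp (Ideal.Quotient.mkₐ ℂ (dso1_id z))
  have hπ : ∀ P, π P = algebraMap A _ (Ideal.Quotient.mk _ P) := fun _ => rfl
  have h0 : ∀ P, π P = 0 ↔ Van z P := fun P => by
    rw [hπ, map_eq_zero_iff _ (IsFractionRing.injective A _), Ideal.Quotient.eq_zero_iff_mem]
    rfl
  let ψ : A →ₐ[ℂ] FractionRing A := Ideal.Quotient.liftₐ _ (π.comp (phi g)) fun P hP =>
    (h0 _).2 ((van_phi hs P).2 hP)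
  have hψ : Function.Injective ψ := (injective_iff_map_eq_zero ψ).2 fun a ha => by
    obtain ⟨P, rfl⟩ := Ideal.Quotient.mk_surjective a
    exact Ideal.Quotient.eq_zero_iff_mem.2 ((van_phi hs P).1 ((h0 _).1 ha))
  refine ⟨FractionRing A, inferInstance, inferInstance, π, IsFractionRing.liftAlgHom hψ, h0,
    fun a => ?_, fun P => ?_, fun v hv => ?_⟩
  · obtain ⟨p, q, -, rfl⟩ := IsFractionRing.div_surjective A a
    obtain ⟨P, rfl⟩ := Ideal.Quotient.mk_surjective p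
    obtain ⟨Q, rfl⟩ := Ideal.Quotient.mk_surjective q
    exact ⟨P, Q, rfl⟩
  · rw [hπ, IsFractionRing.liftAlgHom_apply, IsFractionRing.lift_algebraMap]
    rfl
  · have h1 : dso1_id z ≤ v.supp := fun P hP => (hv P).1 ((h0 P).2 hP)
    refine ⟨(v.onQuot h1).extendToLocalization (S := nonZeroDivisors A) (fun a ha e => ?_) _,
      fun P => by rw [hπ, Valuation.extendToLocalization_apply_map_apply]; rfl⟩
    obtain ⟨P, rfl⟩ := Ideal.Quotient.mk_surjective a
    exact nonZeroDivisors.ne_zero ha (Ideal.Quotient.eq_zero_iff_mem.2 ((h0 P).1 ((hv P).2 e)))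

theorem exists_FF {J : Type} [Finite J] {L : Type} [Field L] [Algebra ℂ L]
    (π : MvPolynomial J ℂ →ₐ[ℂ] L) (hs : ∀ a, ∃ P Q, a = π P / π Q) {x : L}
    (hx : Function.Injective (aeval x : ℂ[X] →ₐ[ℂ] L)) (h : ∀ j, ∃ m, Rl x (π (.X j)) m) :
    ∃ ι, FF x ι := by
  let ι : FractionRing ℂ[X] →+* L :=
    IsFractionRing.lift (g := (aeval x : ℂ[X] →ₐ[ℂ] L).toRingHom) hx
  have hι : ∀ p, ι (algebraMap ℂ[X] _ p) = aeval x p := IsFractionRing.lift_algebraMap _
  refine ⟨ι, ?_, hι⟩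
  let := ι.toAlgebra
  have hi : ∀ y ∈ Set.range fun j => π (.X j), IsIntegral (FractionRing ℂ[X]) y := by
    rintro _ ⟨j, rfl⟩
    obtain ⟨-, G, G0, -, hG⟩ := h j
    refine IsAlgebraic.isIntegral ⟨G.map (algebraMap ℂ[X] _),
      (Polynomial.map_ne_zero_iff (IsFractionRing.injective _ _)).2 G0, ?_⟩
    rw [aeval_def, eval₂_map, ← hG, ae_eq]
    congr 1
    exact RingHom.ext hι
  have hF := IntermediateField.finiteDimensional_adjoin hi
  have hT : IntermediateField.adjoin (FractionRing ℂ[X]) (Set.range fun j => π (.X j)) = ⊤ := by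
    have : ∀ P, π P ∈ IntermediateField.adjoin (FractionRing ℂ[X]) (Set.range fun j => π (.X j)) :=
      fun P => by
        induction P using MvPolynomial.induction_on with
        | C c =>
          rw [MvPolynomial.algHom_C, ← aeval_C x, ← hι]
          exact IntermediateField.algebraMap_mem _ _
        | add p q hp hq => rw [map_add]; exact add_mem hp hq
        | mul_X p j hp =>
          rw [map_mul]; exact mul_mem hp (IntermediateField.subset_adjoin _ _ ⟨j, rfl⟩)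
    refine eq_top_iff.2 fun a _ => ?_
    obtain ⟨P, Q, rfl⟩ := hs a
    exact div_mem (this P) (this Q)
  rw [hT] at hF
  exact IntermediateField.topEquiv.toLinearEquiv.finiteDimensional

end Pool.Agent.P.MP_68214b_ag.DS
end

-- part Pool.Agent.P.MP_68214b_ag.DGA
section

open Polynomial Filter Asymptotics Topology NNReal

namespace Pool.Agent.P.MP_68214b_ag.DS

/-- the d ^ n -th root of the size of the n-th term -/
noncomputable def rt (d : ℕ) (a : ℕ → ℂ) (n : ℕ) : ℝ≥0 := ‖a n‖₊ ^ ((d : ℝ) ^ n)⁻¹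

variable {d : ℕ}

theorem rt_const (hd : 2 ≤ d) {c : ℝ≥0} (hc : c ≠ 0) :
    Tendsto (fun n : ℕ => c ^ ((d : ℝ) ^ n)⁻¹) atTop (𝓝 1) := by
  have := (tendsto_const_nhds (x := c)).nnrpow (tendsto_pow_atTop_atTop_of_one_lt
    (show (1 : ℝ) < d by exact_mod_cast hd)).inv_tendsto_atTop (Or.inl hc)
  rwa [NNReal.rpow_zero] at this

theorem rt_pow (hd : 2 ≤ d) (ρ : ℝ≥0) (n : ℕ) : (ρ ^ d ^ n) ^ ((d : ℝ) ^ n)⁻¹ = ρ := by
  rw [← Nat.cast_pow]
  exact NNReal.pow_rpow_inv_natCast ρ (pow_ne_zero _ (by omega))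

theorem rt_le (hd : 2 ≤ d) {𝓕 : Filter ℕ} [𝓕.NeBot] (hF : 𝓕 ≤ atTop) {a : ℕ → ℂ} {l ρ : ℝ≥0}
    (h : Tendsto (rt d a) 𝓕 (𝓝 l)) (hO : a =O[𝓕] fun n => (ρ : ℝ) ^ d ^ n) : l ≤ ρ := by
  obtain ⟨C, C0, hC⟩ := hO.exists_pos
  have := ((rt_const hd (c := ⟨C, C0.le⟩) (fun e => C0.ne' (congrArg Subtype.val e))).mono_left
    hF).mul_const ρ
  rw [one_mul] at this
  refine le_of_tendsto_of_tendsto h this (hC.bound.mono fun n hn => ?_)
  rw [Real.norm_of_nonneg (by positivity)] at hn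
  refine (NNReal.rpow_le_rpow (y := ⟨C, C0.le⟩ * ρ ^ d ^ n) hn (by positivity)).trans_eq ?_
  rw [NNReal.mul_rpow, rt_pow hd]

theorem rt_ge (hd : 2 ≤ d) {𝓕 : Filter ℕ} [𝓕.NeBot] {a : ℕ → ℂ} {l ρ : ℝ≥0}
    (h : Tendsto (rt d a) 𝓕 (𝓝 l)) (hO : ∀ᶠ n in 𝓕, (ρ : ℝ) ^ d ^ n ≤ ‖a n‖) : ρ ≤ l :=
  ge_of_tendsto h (hO.mono fun n hn => (rt_pow hd ρ n).symm.trans_le
    (NNReal.rpow_le_rpow (x := ρ ^ d ^ n) hn (by positivity)))

theorem exists_gv (hd : 2 ≤ d) {J : Type*} {z : J → ℕ → ℂ}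
    (hz : ∀ i, ∃ Λ : ℝ, 1 ≤ Λ ∧ ∀ n, ‖z i n‖ ≤ Λ ^ d ^ n) (𝒰 : Ultrafilter ℕ)
    (hU : (𝒰 : Filter ℕ) ≤ atTop) : ∃ v : Valuation (MvPolynomial J ℂ) ℝ≥0, ∀ P,
      Tendsto (rt d fun n => MvPolynomial.eval (fun i => z i n) P) 𝒰 (𝓝 (v P)) := by
  have e0 : ∀ n : ℕ, 0 < ((d : ℝ) ^ n)⁻¹ := fun n => by
    have : (0 : ℝ) < d := by positivity
    positivity
  have e1 : ∀ n : ℕ, ((d : ℝ) ^ n)⁻¹ ≤ 1 := fun n =>
    inv_le_one_of_one_le₀ (one_le_pow₀ (by exact_mod_cast (by omega : 1 ≤ d)))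
  set r := fun P : MvPolynomial J ℂ => rt d fun n => MvPolynomial.eval (fun i => z i n) P with hr
  have hm : ∀ P Q n, r (P * Q) n = r P n * r Q n := fun P Q n => by
    simp only [hr, rt, map_mul, nnnorm_mul, NNReal.mul_rpow]
  have hb : ∀ P, ∃ B, ∀ n, r P n ≤ B := fun P => by
    induction P using MvPolynomial.induction_on with
    | C c =>
      refine ⟨max 1 ‖c‖₊, fun n => ?_⟩
      simp only [hr, rt, MvPolynomial.eval_C]
      exact (NNReal.rpow_le_rpow (le_max_right 1 _) (e0 n).le).trans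
        ((NNReal.rpow_le_rpow_of_exponent_le (le_max_left _ _) (e1 n)).trans_eq (NNReal.rpow_one _))
    | add p q hp hq =>
      obtain ⟨B, hB⟩ := hp
      obtain ⟨B', hB'⟩ := hq
      refine ⟨B + B', fun n => le_trans ?_ (add_le_add (hB n) (hB' n))⟩
      simp only [hr, rt, map_add]
      exact (NNReal.rpow_le_rpow (nnnorm_add_le _ _) (e0 n).le).trans
        (NNReal.rpow_add_le_add_rpow _ _ (e0 n).le (e1 n))
    | mul_X p i hp =>
      obtain ⟨B, hB⟩ := hp
      obtain ⟨Λ, h1, h2⟩ := hz i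
      refine ⟨B * ⟨Λ, by linarith⟩, fun n => (hm _ _ n).trans_le (mul_le_mul' (hB n) ?_)⟩
      simp only [hr, rt, MvPolynomial.eval_X]
      exact (NNReal.rpow_le_rpow (y := ⟨Λ, by linarith⟩ ^ d ^ n) (h2 n) (e0 n).le).trans_eq
        (rt_pow hd _ n)
  have hl : ∀ P, ∃ l, Tendsto (r P) 𝒰 (𝓝 l) := fun P => by
    obtain ⟨B, hB⟩ := hb P
    obtain ⟨l, -, hl⟩ := (isCompact_Icc (a := 0) (b := B)).ultrafilter_le_nhds (𝒰.map (r P))
      (le_principal_iff.2 (mem_map.2 (univ_mem' fun n => ⟨zero_le, hB n⟩)))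
    exact ⟨l, hl⟩
  choose v hv using hl
  refine ⟨⟨⟨⟨v, ?_⟩, ?_, fun P Q => ?_⟩, fun P Q => ?_⟩, hv⟩
  · refine tendsto_nhds_unique (hv 0) (tendsto_const_nhds.congr fun n => ?_)
    simp only [hr, rt, map_zero, nnnorm_zero, NNReal.zero_rpow (e0 n).ne']
  · refine tendsto_nhds_unique (hv 1) (tendsto_const_nhds.congr fun n => ?_)
    simp only [hr, rt, map_one, nnnorm_one, NNReal.one_rpow]
  · exact tendsto_nhds_unique (hv _) (((hv P).mul (hv Q)).congr fun n => (hm P Q n).symm)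
  · have := ((rt_const hd (c := 2) two_ne_zero).mono_left hU).mul ((hv P).max (hv Q))
    rw [one_mul] at this
    refine le_of_tendsto_of_tendsto' (hv _) this fun n => ?_
    simp only [hr, rt, map_add]
    rw [← Monotone.map_max (NNReal.monotone_rpow_of_nonneg (e0 n).le), ← NNReal.mul_rpow, two_mul]
    exact NNReal.rpow_le_rpow ((nnnorm_add_le _ _).trans
      (add_le_add (le_max_left _ _) (le_max_right _ _))) (e0 n).le

theorem rt_shift (hd : 2 ≤ d) {J : Type*} {g : J → ℂ[X]} {z : J → ℕ → ℂ}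
    (hs : ∀ i n, z i (n + 1) = (g i).eval (z i n)) {𝓕 : Filter ℕ} (hF : 𝓕 ≤ atTop)
    {P : MvPolynomial J ℂ} {l : ℝ≥0}
    (h : Tendsto (rt d fun n => MvPolynomial.eval (fun i => z i n) P) 𝓕 (𝓝 l)) :
    Tendsto (rt d fun n => MvPolynomial.eval (fun i => z i n) (phi g P)) (𝓕.map (· - 1))
      (𝓝 (l ^ d)) := by
  refine tendsto_map' ((h.pow d).congr' ((eventually_ge_atTop 1).filter_mono hF |>.mono
    fun n hn => ?_))
  obtain ⟨n, rfl⟩ := Nat.exists_eq_add_of_le' hn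
  have : (d : ℝ) ≠ 0 := by positivity
  simp only [rt, Function.comp_apply, Nat.add_sub_cancel, eval_phi, ← hs]
  rw [← NNReal.rpow_natCast, ← NNReal.rpow_mul, pow_succ, mul_inv, inv_mul_cancel_right₀ this]

end Pool.Agent.P.MP_68214b_ag.DS
end

-- part Pool.Agent.P.MP_68214b_ag.DSM2
section

open Polynomial Filter Asymptotics NumberField Topology

namespace Pool.Agent.P.MP_68214b_ag.DS

theorem bridge {J K : Type*} [DecidableEq J] [CommRing K] (k : J) :
    ∃ e : MvPolynomial J K ≃ₐ[K] (MvPolynomial {m // m ≠ k} K)[X],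
      (∀ b, e (MvPolynomial.rename Subtype.val b) = C b) ∧ e (MvPolynomial.X k) = X ∧
      ∀ P, e (MvPolynomial.pderiv k P) = derivative (e P) := by
  let e := (MvPolynomial.renameEquiv K (Equiv.optionSubtypeNe k).symm).trans
    (MvPolynomial.optionEquivLeft K {m // m ≠ k})
  have h1 : e (MvPolynomial.X k) = X := by simp [e]
  have h2 : ∀ m : {m // m ≠ k}, e (MvPolynomial.X m.1) = C (MvPolynomial.X m) := fun m => by
    simp [e, Equiv.optionSubtypeNe_symm_of_ne m.2]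
  have h3 : ∀ a, e (MvPolynomial.C a) = C (MvPolynomial.C a) := fun a => by simp [e]
  refine ⟨e, fun b => ?_, h1, fun P => ?_⟩
  · induction b using MvPolynomial.induction_on with
    | C a => rw [MvPolynomial.rename_C, h3]
    | add p q hp hq => rw [map_add, map_add, hp, hq, map_add]
    | mul_X p i hp => rw [map_mul, map_mul, hp, MvPolynomial.rename_X, h2, map_mul]
  · induction P using MvPolynomial.induction_on with
    | C a => rw [MvPolynomial.pderiv_C, h3, derivative_C, map_zero]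
    | add p q hp hq => rw [map_add, map_add, hp, hq, map_add, map_add]
    | mul_X p i hp =>
      rw [MvPolynomial.pderiv_mul, map_add, map_mul, map_mul, hp, map_mul, derivative_mul]
      by_cases hi : i = k
      · rw [hi, MvPolynomial.pderiv_X_self, h1, derivative_X, map_one]
      · rw [MvPolynomial.pderiv_X_of_ne hi, h2 ⟨i, hi⟩, derivative_C, map_zero]

theorem phi_X {J K : Type*} [CommRing K] (g : J → K[X]) (i : J) :
    phi g (MvPolynomial.X i) = aeval (MvPolynomial.X i : MvPolynomial J K) (g i) :=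
  MvPolynomial.aeval_X _ _

theorem pderiv_phi {J K : Type*} [CommRing K] (g : J → K[X]) (i : J) (P : MvPolynomial J K) :
    MvPolynomial.pderiv i (phi g P) = phi g (MvPolynomial.pderiv i P) *
      aeval (MvPolynomial.X i : MvPolynomial J K) (derivative (g i)) := by
  classical
  induction P using MvPolynomial.induction_on with
  | C a =>
    rw [MvPolynomial.pderiv_C, map_zero, zero_mul, MvPolynomial.algHom_C,
      MvPolynomial.algebraMap_eq, MvPolynomial.pderiv_C]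
  | add p q hp hq => rw [map_add, map_add, hp, hq, map_add, map_add, add_mul]
  | mul_X p j hp =>
    rw [map_mul, MvPolynomial.pderiv_mul, hp, MvPolynomial.pderiv_mul, map_add, map_mul, map_mul,
      phi_X, Derivation.map_aeval]
    by_cases hj : j = i
    · rw [hj, MvPolynomial.pderiv_X_self, map_one, smul_eq_mul]
      ring
    · rw [MvPolynomial.pderiv_X_of_ne hj, map_zero, smul_zero]
      ring

theorem phi_rename {I J K : Type*} [CommRing K] (g : J → K[X]) (e : I → J) (b : MvPolynomial I K) :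
    phi g (MvPolynomial.rename e b) = MvPolynomial.rename e (phi (fun m => g (e m)) b) := by
  refine DFunLike.congr_fun (?_ : (phi g).comp (MvPolynomial.rename e) =
    (MvPolynomial.rename e).comp (phi fun m => g (e m))) b
  refine MvPolynomial.algHom_ext fun i => ?_
  rw [AlgHom.comp_apply, AlgHom.comp_apply, MvPolynomial.rename_X, phi_X, phi_X,
    ← aeval_algHom_apply, MvPolynomial.rename_X]

theorem rename_aeval_X {I J K : Type*} [CommRing K] (e : I → J) (i : I) (q : K[X]) :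
    MvPolynomial.rename e (aeval (MvPolynomial.X i : MvPolynomial I K) q) =
      aeval (MvPolynomial.X (e i) : MvPolynomial J K) q := by
  rw [← aeval_algHom_apply, MvPolynomial.rename_X]

theorem map_aeval_X {J K L : Type*} [CommRing K] [CommRing L] (σ : K →+* L) (i : J) (q : K[X]) :
    MvPolynomial.map σ (aeval (MvPolynomial.X i : MvPolynomial J K) q) =
      aeval (MvPolynomial.X i : MvPolynomial J L) (q.map σ) := by
  induction q using Polynomial.induction_on' with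
  | add p q hp hq => rw [map_add, map_add, hp, hq, Polynomial.map_add, map_add]
  | monomial n a => simp [aeval_monomial]

theorem phi_map {J K L : Type*} [CommRing K] [CommRing L] (σ : K →+* L) (g : J → K[X])
    (P : MvPolynomial J K) :
    MvPolynomial.map σ (phi g P) = phi (fun i => (g i).map σ) (MvPolynomial.map σ P) := by
  induction P using MvPolynomial.induction_on with
  | C a => simp [phi]
  | add p q hp hq => rw [map_add, map_add, hp, hq, map_add, map_add]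
  | mul_X p j hp =>
    rw [map_mul, map_mul, hp, map_mul, map_mul, MvPolynomial.map_X, phi_X, phi_X, map_aeval_X]

theorem aeval_X_ne {J K : Type*} [CommRing K] (i : J) {q : K[X]} (hq : q ≠ 0) :
    aeval (MvPolynomial.X i : MvPolynomial J K) q ≠ 0 := by
  classical
  intro h
  have := congrArg (MvPolynomial.aeval (R := K) fun _ : J => (X : K[X])) h
  rw [← aeval_algHom_apply, MvPolynomial.aeval_X, aeval_X_left_apply, map_zero] at this
  exact hq this

theorem phi_inj {J : Type*} (g : J → ℂ[X]) (hg : ∀ i, 0 < (g i).natDegree) :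
    Function.Injective (phi g) := by
  intro P Q h
  refine MvPolynomial.funext fun y => ?_
  choose x hx using fun i => eval_surj (hg i) (y i)
  have := congrArg (MvPolynomial.eval x) h
  rwa [eval_phi, eval_phi, funext hx] at this

end Pool.Agent.P.MP_68214b_ag.DS
end

-- part Pool.Agent.P.MP_68214b_ag.DGB
section

open Polynomial Filter Asymptotics Topology NNReal

namespace Pool.Agent.P.MP_68214b_ag.DS

theorem ae_hom {A B : Type*} [CommRing A] [CommRing B] [Algebra ℂ A] [Algebra ℂ B]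
    (F : A →ₐ[ℂ] B) (a b : A) (G : ℂ[X][X]) : F (aevalAeval a b G) = aevalAeval (F a) (F b) G := by
  induction G using Polynomial.induction_on' with
  | add p q hp hq => simp only [map_add, hp, hq]
  | monomial n p =>
    simp only [← C_mul_X_pow_eq_monomial, map_mul, map_pow, aevalAeval_C, aevalAeval_Y,
      aeval_algHom_apply]

/-- one place at infinity -/
theorem opi0 {J : Type} [Finite J] {g : J → ℂ[X]} {z : J → ℕ → ℂ} {d : ℕ} (hd : 2 ≤ d)
    (hg : ∀ i, (g i).natDegree = d) (hs : ∀ i n, z i (n + 1) = (g i).eval (z i n))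
    (hz : ∀ i, ∃ Λ : ℝ, 1 ≤ Λ ∧ ∀ n, ‖z i n‖ ≤ Λ ^ d ^ n) (hD : Dom z) {i0 : J}
    (hm : (g i0).Monic) (hN : NS (g i0)) (hu : ¬ ∃ B : ℝ, ∀ n, ‖z i0 n‖ ≤ B)
    (hp : ∀ j, Dep (z i0) (z j)) (𝒰 : Ultrafilter ℕ) (hU : (𝒰 : Filter ℕ) ≤ atTop)
    {R : MvPolynomial J ℂ} (hR : Sml 𝒰 d fun n => MvPolynomial.eval (fun i => z i n) R) :
    ∃ c, Van z (R - MvPolynomial.C c) := by
  obtain ⟨L, _, _, π, φ, h0, h1, h2, h3⟩ := exists_L hs hD
  have hφ : ∀ j, φ (π (.X j)) = aeval (π (.X j)) (g j) := fun j => by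
    rw [h2, phi_X, aeval_algHom_apply]
  set x := π (.X i0) with hx
  have d2 : 2 ≤ (g i0).natDegree := hg i0 ▸ hd
  obtain ⟨ρ, r1, r2⟩ := escape hm d2 (hs i0) hu
  rw [hg] at r2
  lift ρ to ℝ≥0 using zero_le_one.trans r1.le
  let U : ℕ → Ultrafilter ℕ := fun k => (Ultrafilter.map (· - 1))^[k] 𝒰
  have U1 : ∀ k, U (k + 1) = (U k).map (· - 1) := fun k => Function.iterate_succ_apply' _ _ _
  have U2 : ∀ k, (U k : Filter ℕ) ≤ atTop := fun k => by
    induction k with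
    | zero => exact hU
    | succ k ih => rw [U1]; exact (map_mono ih).trans (tendsto_sub_atTop_nat 1)
  choose v hv using fun k => exists_gv hd hz (U k) (U2 k)
  have v1 : ∀ k, (v k).IsTrivialOn ℂ := fun k => ⟨fun c hc => tendsto_nhds_unique (hv k _)
    (((rt_const hd (nnnorm_ne_zero_iff.2 hc)).mono_left (U2 k)).congr fun n => by simp [rt])⟩
  have v2 : ∀ k, 1 < v k (.X i0) := fun k => lt_of_lt_of_le (b := ρ) r1
    (rt_ge hd (hv k _) ((r2.filter_mono (U2 k)).mono fun n hn => by simpa using hn))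
  have v3 : ∀ k P, π P = 0 → v k P = 0 := fun k P hP => tendsto_nhds_unique (hv k P)
    (tendsto_const_nhds.congr' ((((h0 P).1 hP).filter_mono (U2 k)).mono fun n hn => by
      have : (0 : ℝ) < d := by positivity
      simp only [rt, hn, nnnorm_zero]
      exact (NNReal.zero_rpow (by positivity)).symm))
  have v4 : ∀ k, ∀ p : ℂ[X], p ≠ 0 → v k (aeval (MvPolynomial.X i0) p) ≠ 0 := fun k p hp => by
    have := v1 k
    rw [valuation_aeval_eq_valuation_X_pow_natDegree_of_one_lt_valuation_X _ (v2 k) hp]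
    exact pow_ne_zero _ (zero_lt_one.trans (v2 k)).ne'
  obtain ⟨ι, h⟩ := exists_FF π h1 (x := x) ((injective_iff_map_eq_zero _).2 fun p hp =>
    by_contra fun p0 => v4 0 p p0 (v3 0 _ (by rw [← aeval_algHom_apply]; exact hp))) fun j => by
      obtain ⟨G, G0, hG⟩ := hp j
      refine ⟨_, G, G0, le_rfl, ?_⟩
      rw [hx, ← ae_hom, h0]
      refine hG.mono fun n hn => ?_
      rw [← MvPolynomial.aeval_eq_eval, ae_hom, MvPolynomial.aeval_X, MvPolynomial.aeval_X,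
        coe_aevalAeval_eq_evalEval, hn]
  choose w hw using fun k => h3 (v k) fun P => ⟨v3 k P, fun hP => by_contra fun P0 => by
    obtain ⟨G, G0, -, hG⟩ := h.rl (π P)
    obtain ⟨q, e, hq⟩ := exists_eq_pow_rootMultiplicity_mul_and_not_dvd G G0 0
    rw [C_0, sub_zero] at e hq
    rw [e, map_mul, map_pow, aevalAeval_Y, mul_eq_zero, or_iff_right (pow_ne_zero _ P0), hx,
      ← ae_hom] at hG
    have e1 := v3 k _ hG
    rw [← X_mul_divX_add q, map_add, map_mul, aevalAeval_Y, aevalAeval_C,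
      (v k).map_add_eq_of_lt_right] at e1
    · exact v4 k _ (mt X_dvd_iff.2 hq) e1
    · rw [map_mul, hP, zero_mul]
      exact zero_lt_iff.2 (v4 k _ (mt X_dvd_iff.2 hq))⟩
  have w1 : ∀ k, (w k).IsTrivialOn ℂ := fun k => ⟨fun c hc => by
    rw [← π.commutes, hw]; exact (v1 k).eq_one c hc⟩
  have w2 : ∀ k, 1 < w k x := fun k => by rw [hx, hw]; exact v2 k
  have w3 : ∀ k a, w (k + 1) (φ a) = w k a ^ d := fun k a => by
    have : ∀ P, w (k + 1) (φ (π P)) = w k (π P) ^ d := fun P => by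
      rw [h2, hw, hw]
      exact tendsto_nhds_unique (hv _ _) (U1 k ▸ rt_shift hd hs (U2 k) (hv k P))
    obtain ⟨P, Q, rfl⟩ := h1 a
    rw [map_div₀, map_div₀, map_div₀, this, this, div_pow]
  have w4 : ∀ t k a, w (k + t) ((φ ^ t) a) = w k a ^ d ^ t := fun t k a => by
    induction t with
    | zero => simp
    | succ t ih => rw [pow_succ', AlgHom.mul_apply, ← add_assoc, w3, ih, ← pow_mul, pow_succ]
  have w5 : ∀ k, w k x = w 0 x := fun k => by
    induction k with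
    | zero => rfl
    | succ k ih =>
      have := w3 k x
      rw [hφ, v_top (w1 _) (w2 _) hm.ne_zero, hg, ih] at this
      exact (pow_left_inj₀ zero_le zero_le (by omega)).1 this
  obtain ⟨i, j, hij, he⟩ := h.two w w1 (w2 0) w5
  obtain ⟨t, rfl⟩ := Nat.exists_eq_add_of_le hij.le
  have t0 : 0 < t := by omega
  obtain ⟨G, G0, -, hG⟩ := h.rl (π R)
  obtain ⟨c, hc⟩ := v_res (w1 0) (w2 0) (a := π R)
    (by rw [hw]; exact le_of_forall_gt_imp_ge_of_dense fun r hr => rt_le hd hU (hv 0 R) (hR r hr))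
    ((map_ne_zero_iff _ Bivariate.swap.injective).2 G0) ((Bivariate.aevalAeval_swap _ _ G).trans hG)
  refine ⟨c, (h0 _).1 (by_contra fun b0 => ?_)⟩
  have hF : ∀ P, π P ∈ Fn x := fun P => by
    induction P using MvPolynomial.induction_on with
    | C c => rw [MvPolynomial.algHom_C, ← aeval_C x]; exact Fn_aeval x _
    | add p q hp hq => rw [map_add]; exact add_mem hp hq
    | mul_X p j hp =>
      rw [map_mul]; exact mul_mem hp (h.int (hφ i0) d2 hN.tot (hφ j) ((hg j).trans (hg i0).symm))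
  refine (hN.iterate d2 t0).orb (h.eigen (phi_pow (hφ i0) t) (iter_monic hm (by omega) t)
    (by rw [iter_natDegree]; exact d2.trans (Nat.le_self_pow t0.ne' _)) (w1 (i + t)) (w2 _)
    (fun a => by rw [w4, he, iter_natDegree, hg]) ((map_ne_zero (φ ^ (i + t))).2 b0)
    (Fn_phi (phi_pow (hφ i0) _) (hF _)) ?_)
  have := w4 (i + t) 0 (π (R - MvPolynomial.C c))
  rw [zero_add] at this
  rw [this, map_sub, MvPolynomial.algHom_C]
  exact pow_lt_one₀ zero_le hc (by positivity)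

end Pool.Agent.P.MP_68214b_ag.DS
end

-- part Pool.Agent.P.MP_68214b_ag.DSO2
section

open Polynomial Filter Asymptotics NumberField Topology

namespace Pool.Agent.P.MP_68214b_ag.DS

variable {K : Type*} [Field K]

theorem dso2_aeval {J : Type*} (x : J → ℕ → K) (P : MvPolynomial J K) (n : ℕ) :
    MvPolynomial.aeval x P n = MvPolynomial.eval (fun i => x i n) P := by
  induction P using MvPolynomial.induction_on with
  | C a => simp
  | add p q hp hq => simp only [map_add, Pi.add_apply, hp, hq]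
  | mul_X p i hp => simp only [map_mul, Pi.mul_apply, hp, MvPolynomial.aeval_X, MvPolynomial.eval_X]

theorem Dom.domA {J : Type*} {x : J → ℕ → K} (h : Dom x) :
    DomA (Algebra.adjoin K (Set.range x)) := by
  intro a ha b hb hab
  rw [Algebra.adjoin_range_eq_range_aeval] at ha hb
  obtain ⟨P, rfl⟩ := ha
  obtain ⟨Q, rfl⟩ := hb
  have h1 : Van x (P * Q) := hab.mono fun n hn => by
    rw [map_mul, ← dso2_aeval, ← dso2_aeval]; exact hn
  rcases h P Q h1 with h2 | h2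
  · exact Or.inl (h2.mono fun n hn => (dso2_aeval x P n).trans hn)
  · exact Or.inr (h2.mono fun n hn => (dso2_aeval x Q n).trans hn)

theorem van_rename {I J : Type*} (x : J → ℕ → K) (e : I → J) (P : MvPolynomial I K) :
    Van x (MvPolynomial.rename e P) ↔ Van (fun i => x (e i)) P := by
  unfold Van
  simp only [MvPolynomial.eval_rename]
  rfl

theorem Dom.comp {I J : Type*} {x : J → ℕ → K} (h : Dom x) (e : I → J) :
    Dom fun i => x (e i) := by
  intro P Q hPQ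
  rw [← van_rename, map_mul] at hPQ
  exact (h _ _ hPQ).imp (van_rename x e P).1 (van_rename x e Q).1

theorem dso2_swap (G : K[X][X]) (x y : K) : (Bivariate.swap G).evalEval y x = G.evalEval x y := by
  induction G using Polynomial.induction_on' with
  | add p q hp hq => simp only [map_add, evalEval_add, hp, hq]
  | monomial k c =>
    induction c using Polynomial.induction_on' with
    | add p q hp hq => simp only [map_add, evalEval_add, hp, hq]
    | monomial l c =>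
      rw [Bivariate.swap_monomial_monomial]
      simp only [← C_mul_X_pow_eq_monomial, evalEval_mul, evalEval_pow, evalEval_C, evalEval_X,
        eval_mul, eval_C, eval_pow, eval_X]
      ring

theorem Dep.symm {a b : ℕ → K} (h : Dep a b) : Dep b a := by
  obtain ⟨G, hG, h⟩ := h
  refine ⟨Bivariate.swap G, fun h0 => hG ((map_eq_zero_iff _ Bivariate.swap.injective).1 h0),
    h.mono fun n hn => ?_⟩
  rw [dso2_swap]
  exact hn

theorem dep_refl (a : ℕ → K) : Dep a a := by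
  refine ⟨X - C X, X_sub_C_ne_zero _, Eventually.of_forall fun n => ?_⟩
  rw [evalEval_sub, evalEval_X, evalEval_C, eval_X, sub_self]

theorem Dep.of_prog {a b : ℕ → K} (h : Dep a b) (c : ℕ) {l : ℕ} (hl : 0 < l) :
    Dep (fun t => a (c + l * t)) fun t => b (c + l * t) := by
  obtain ⟨G, hG, h⟩ := h
  have ht : Tendsto (fun t => c + l * t) atTop atTop :=
    tendsto_atTop_mono (fun t => (Nat.le_mul_of_pos_left t hl).trans (Nat.le_add_left _ _))
      tendsto_id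
  exact ⟨G, hG, ht.eventually h⟩

theorem poly_mem {A : Subalgebra K (ℕ → K)} {a : ℕ → K} (ha : a ∈ A) (q : K[X]) :
    (fun n => q.eval (a n)) ∈ A := by
  induction q using Polynomial.induction_on' with
  | add p q hp hq =>
    simp only [eval_add]
    exact A.add_mem hp hq
  | monomial k c =>
    simp only [eval_monomial]
    exact A.mul_mem (A.algebraMap_mem c) (A.pow_mem ha k)

theorem dso2_mem {A : Subalgebra K (ℕ → K)} {a b : ℕ → K} (ha : a ∈ A) (hb : b ∈ A)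
    (H : K[X][X]) : (fun n => H.evalEval (a n) (b n)) ∈ A := by
  induction H using Polynomial.induction_on' with
  | add p q hp hq =>
    simp only [evalEval_add]
    exact A.add_mem hp hq
  | monomial k c =>
    simp only [← C_mul_X_pow_eq_monomial, evalEval_mul, evalEval_pow, evalEval_C, evalEval_X]
    exact A.mul_mem (poly_mem ha c) (A.pow_mem hb k)

theorem DomA.const {A : Subalgebra K (ℕ → K)} (hA : DomA A) {a : ℕ → K} (ha : a ∈ A)
    (h : Alg0 a) : ∃ c, ∀ᶠ n in atTop, a n = c := by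
  classical
  have key : ∀ s : Finset K, (∀ᶠ n in atTop, (∏ c ∈ s, (X - C c)).eval (a n) = 0) →
      ∃ c, ∀ᶠ n in atTop, a n = c := by
    intro s
    induction s using Finset.induction_on with
    | empty =>
      intro h0
      obtain ⟨n, hn⟩ := h0.exists
      simp at hn
    | insert c s hc ih =>
      intro h0
      have h1 := hA _ (poly_mem ha (X - C c)) _ (poly_mem ha (∏ c ∈ s, (X - C c)))
        (h0.mono fun n hn => by rw [Finset.prod_insert hc, eval_mul] at hn; exact hn)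
      rcases h1 with h1 | h1
      · exact ⟨c, h1.mono fun n hn => by simpa [sub_eq_zero] using hn⟩
      · exact ih h1
  obtain ⟨g, hg, h⟩ := h
  refine key g.roots.toFinset (h.mono fun n hn => ?_)
  rw [eval_prod]
  refine Finset.prod_eq_zero (i := a n) ?_ (by simp)
  exact Multiset.mem_toFinset.2 ((mem_roots hg).2 hn)

theorem DomA.prim {A : Subalgebra K (ℕ → K)} (hA : DomA A) {a b : ℕ → K} (ha : a ∈ A) (hb : b ∈ A)
    (h0 : ¬ Alg0 a) (h : Dep a b) : ∃ G : K[X][X], (∀ c : K, G.map (evalRingHom c) ≠ 0) ∧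
      ∀ᶠ n in atTop, G.evalEval (a n) (b n) = 0 := by
  classical
  obtain ⟨G, hG, h⟩ := h
  have h1 := hA _ (poly_mem ha G.content) _ (dso2_mem ha hb G.primPart) (h.mono fun n hn => by
    rw [G.eq_C_content_mul_primPart, evalEval_mul, evalEval_C] at hn
    exact hn)
  rcases h1 with h1 | h1
  · exact absurd ⟨G.content, fun hc => hG (content_eq_zero_iff.1 hc), h1⟩ h0
  · refine ⟨G.primPart, fun c hc => ?_, h1⟩
    refine not_isUnit_X_sub_C c (G.isPrimitive_primPart _ ((C_dvd_iff_dvd_coeff _ _).2 fun k => ?_))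
    have := congrArg (fun p => p.coeff k) hc
    simp only [coeff_map, coeff_zero, coe_evalRingHom] at this
    exact dvd_iff_isRoot.2 this

theorem dep_of_mv {J : Type*} {x : J → ℕ → K} {i j : J} (hij : i ≠ j) (hJ : ∀ k, k = i ∨ k = j)
    {P : MvPolynomial J K} (hP : P ≠ 0) (h : Van x P) : Dep (x i) (x j) := by
  classical
  let Φ : MvPolynomial J K →+* K[X][X] :=
    MvPolynomial.eval₂Hom (C.comp C) fun k => if k = i then C X else X
  let Ψ : K[X][X] →+* MvPolynomial J K :=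
    eval₂RingHom (eval₂RingHom MvPolynomial.C (MvPolynomial.X i)) (MvPolynomial.X j)
  have h1 : Ψ.comp Φ = RingHom.id _ := by
    refine MvPolynomial.ringHom_ext (fun r => by simp [Φ, Ψ]) fun k => ?_
    rcases hJ k with rfl | rfl
    · simp [Φ, Ψ]
    · simp [Φ, Ψ, hij.symm]
  have h2 : ∀ n, (evalEvalRingHom (x i n) (x j n)).comp Φ = MvPolynomial.eval fun k => x k n := by
    intro n
    refine MvPolynomial.ringHom_ext (fun r => by simp [Φ]) fun k => ?_
    rcases hJ k with rfl | rfl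
    · simp [Φ]
    · simp [Φ, hij.symm]
  refine ⟨Φ P, fun h0 => hP ?_, h.mono fun n hn => ?_⟩
  · have := DFunLike.congr_fun h1 P
    rw [RingHom.comp_apply, h0, map_zero] at this
    exact this.symm
  · rw [← h2 n] at hn
    simpa using hn

theorem alg0_of_mv {J : Type*} {x : J → ℕ → K} {i : J} (hJ : ∀ k, k = i)
    {P : MvPolynomial J K} (hP : P ≠ 0) (h : Van x P) : Alg0 (x i) := by
  let Φ : MvPolynomial J K →+* K[X] := MvPolynomial.eval₂Hom C fun _ => X
  let Ψ : K[X] →+* MvPolynomial J K := eval₂RingHom MvPolynomial.C (MvPolynomial.X i)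
  have h1 : Ψ.comp Φ = RingHom.id _ := by
    refine MvPolynomial.ringHom_ext (fun r => by simp [Φ, Ψ]) fun k => ?_
    rw [hJ k]
    simp [Φ, Ψ]
  have h2 : ∀ n, (evalRingHom (x i n)).comp Φ = MvPolynomial.eval fun k => x k n := by
    intro n
    refine MvPolynomial.ringHom_ext (fun r => by simp [Φ]) fun k => ?_
    rw [hJ k]
    simp [Φ]
  refine ⟨Φ P, fun h0 => hP ?_, h.mono fun n hn => ?_⟩
  · have := DFunLike.congr_fun h1 P
    rw [RingHom.comp_apply, h0, map_zero] at this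
    exact this.symm
  · rw [← h2 n] at hn
    exact hn

theorem not_van_empty {J : Type*} [IsEmpty J] {x : J → ℕ → K} {P : MvPolynomial J K} (hP : P ≠ 0) :
    ¬ Van x P := by
  intro h
  obtain ⟨n, hn⟩ := h.exists
  rw [MvPolynomial.eq_C_of_isEmpty P] at hn hP
  rw [MvPolynomial.eval_C] at hn
  exact hP (by rw [hn, map_zero])

end Pool.Agent.P.MP_68214b_ag.DS
end

-- part Pool.Agent.P.MP_68214b_ag.DSS6
section

open Polynomial Filter Asymptotics NumberField Topology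

namespace Pool.Agent.P.MP_68214b_ag.DS

variable {K : Type} [Field K] [NumberField K]

theorem dss6_root {p : K[X]} (hp : p ≠ 0) (hi : ∀ j, IsIntegral ℤ (p.coeff j)) {B : ℝ}
    (hB : ∀ j, house (p.coeff j) ≤ B) {b : K} (hb : p.eval b = 0) :
    house b ≤ B ^ (Module.finrank ℚ K + 1) + 1 := by
  obtain ⟨σ, hσ⟩ := exists_house b
  have B0 : 0 ≤ B := (house_nonneg _).trans (hB 0)
  have hq : p.map σ ≠ 0 := (Polynomial.map_ne_zero_iff σ.injective).2 hp
  have hr : (p.map σ).IsRoot (σ b) := by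
    rw [IsRoot.def, eval_map, eval₂_at_apply, hb, map_zero]
  have h1 : ‖σ b‖ < cauchyBound (p.map σ) := hr.norm_lt_cauchyBound hq
  have h2 : ((Finset.range (p.map σ).natDegree).sup (‖(p.map σ).coeff ·‖₊)) ≤ ⟨B, B0⟩ :=
    Finset.sup_le fun j _ => by
      rw [coeff_map]; exact (norm_embedding_le_house _ σ).trans (hB j)
  have h2' : (((Finset.range (p.map σ).natDegree).sup (‖(p.map σ).coeff ·‖₊) : NNReal) : ℝ) ≤ B := h2
  have h3 := liou (hi p.natDegree) (leadingCoeff_ne_zero.2 hp) σ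
  have h4 : 0 < ‖σ p.leadingCoeff‖ :=
    norm_pos_iff.2 ((map_ne_zero σ).2 (leadingCoeff_ne_zero.2 hp))
  have h5 : 1 ≤ ‖σ p.leadingCoeff‖ * B ^ Module.finrank ℚ K :=
    h3.trans (mul_le_mul_of_nonneg_left (pow_le_pow_left₀ (house_nonneg _) (hB _) _) h4.le)
  rw [cauchyBound, leadingCoeff_map, NNReal.coe_add, NNReal.coe_div, coe_nnnorm,
    NNReal.coe_one] at h1
  rw [hσ]
  refine h1.le.trans (add_le_add_left ((div_le_iff₀ h4).2 (h2'.trans ?_)) 1)
  rw [pow_succ]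
  nlinarith

theorem lemH {a b : ℕ → K} (ha : Den a)
    {G : K[X][X]} (hG : ∀ c : K, G.map (evalRingHom c) ≠ 0)
    (h : ∀ᶠ n in atTop, G.evalEval (a n) (b n) = 0) :
    ∃ (C : ℝ) (e : ℕ), ∀ᶠ n in atTop, house (b n) ≤ C * max 1 (house (a n)) ^ e := by
  obtain ⟨N, hN, hH⟩ := Den.fin G.support fun j _ => ha.poly (G.coeff j)
  set H := (N : K[X][X]) * G with hHd
  set D := H.support.sup fun j => (H.coeff j).natDegree
  have hD : ∀ j, (H.coeff j).natDegree ≤ D := fun j => by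
    by_cases hj : j ∈ H.support
    · exact Finset.le_sup (f := fun j => (H.coeff j).natDegree) hj
    · rw [notMem_support_iff.1 hj]; simp
  set L := (nH K).l2.f H
  have L0 : 0 ≤ L := (nH K).l2.nonneg H
  refine ⟨L ^ (Module.finrank ℚ K + 1) + 1, D * (Module.finrank ℚ K + 1),
    h.mono fun n hn => ?_⟩
  set t := max 1 (house (a n))
  have t1 : 1 ≤ t := le_max_left _ _
  have hN0 : (N : K[X]) ≠ 0 := Nat.cast_ne_zero.2 hN.ne'
  have e : H.map (evalRingHom (a n)) = (N : K[X]) * G.map (evalRingHom (a n)) := by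
    rw [hHd, Polynomial.map_mul, Polynomial.map_natCast]
  have key := dss6_root (p := H.map (evalRingHom (a n))) (B := L * t ^ D) (b := b n)
    (by rw [e]; exact mul_ne_zero hN0 (hG _)) (fun j => by
      rw [e, ← C_eq_natCast, coeff_C_mul, coeff_map, coe_evalRingHom]
      by_cases hj : j ∈ G.support
      · exact hH j hj n
      · rw [notMem_support_iff.1 hj, eval_zero, mul_zero]
        exact isIntegral_zero)
    (fun j => by
      rw [coeff_map, coe_evalRingHom]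
      exact ((nH K).eval₂_le (nH K) (RingHom.id K) (fun _ => le_rfl) t1 (le_max_right _ _)
        (hD j)).trans (mul_le_mul_of_nonneg_right ((nH K).l1.coeff_le H j) (by positivity)))
    (by rw [e, eval_mul, map_evalRingHom_eval, hn, mul_zero])
  refine key.trans ?_
  rw [mul_pow, ← pow_mul, add_mul, one_mul]
  exact add_le_add_right (one_le_pow₀ t1) _

theorem low_cls {A : Subalgebra K (ℕ → K)} (hA : DomA A) {f : K[X]} {x r : ℕ → K} (hx : Orb f x)
    (ix : Den x) (mx : x ∈ A) (mr : r ∈ A) (h0 : ¬ Alg0 x) (r0 : ¬ Alg0 r) (ri : Den r)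
    (hD : Dep x r) : ∃ ρ : ℝ, 1 < ρ ∧ ∀ᶠ n in atTop, ρ ^ f.natDegree ^ n ≤ house (r n) := by
  obtain ⟨G, hG, hz⟩ := hA.prim mr mx r0 hD.symm
  obtain ⟨C, e, hC⟩ := lemH ri hG hz
  obtain ⟨ρ, hρ, hl⟩ := growth_low hx ix h0
  exact low_root hx.deg hρ ((hl.and hC).mono fun n hn => hn.1.trans hn.2)

theorem dss6_le {A : Subalgebra K (ℕ → K)} (hA : DomA A) {f g : K[X]} {x y : ℕ → K} (hx : Orb f x)
    (hy : Orb g y) (ix : Den x) (iy : Den y) (mx : x ∈ A) (my : y ∈ A) (x0 : ¬ Alg0 x)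
    (y0 : ¬ Alg0 y) (hD : Dep y x) :
    f.natDegree ≤ g.natDegree := by
  obtain ⟨G, hG, hz⟩ := hA.prim my mx y0 hD
  obtain ⟨C, e, hC⟩ := lemH iy hG hz
  obtain ⟨ρ, hρ, hl⟩ := growth_low hx ix x0
  obtain ⟨Λ, hΛ, hu⟩ := growth_up hy.deg hy.step
  refine deg_le (C := |C|) (k := e) hy.deg hρ hΛ ((hl.and hC).mono fun n hn => ?_)
  exact hn.1.trans (hn.2.trans (mul_le_mul (le_abs_self C) (pow_le_pow_left₀ (by positivity)
    (max_le (one_le_pow₀ hΛ) (hu n)) e) (by positivity) (abs_nonneg C)))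

theorem deg_eq {A : Subalgebra K (ℕ → K)} (hA : DomA A) {f g : K[X]} {x y : ℕ → K} (hx : Orb f x)
    (hy : Orb g y) (ix : Den x) (iy : Den y) (mx : x ∈ A) (my : y ∈ A) (x0 : ¬ Alg0 x)
    (y0 : ¬ Alg0 y) (hD : Dep x y) :
    f.natDegree = g.natDegree :=
  le_antisymm (dss6_le hA hx hy ix iy mx my x0 y0 hD.symm) (dss6_le hA hy hx iy ix my mx y0 x0 hD)

end Pool.Agent.P.MP_68214b_ag.DS
end

-- part Pool.Agent.P.MP_68214b_ag.DH1
section

open Polynomial Filter Asymptotics NumberField Topology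

namespace Pool.Agent.P.MP_68214b_ag.DS

variable {K : Type} [Field K] [NumberField K]

/-- denominator and house at most B -/
def Ht (B : ℝ) (a : K) : Prop :=
  ∃ M : ℕ, 0 < M ∧ (M : ℝ) ≤ B ∧ IsIntegral ℤ ((M : K) * a) ∧ house a ≤ B

/-- small height growth -/
def SmH (𝓕 : Filter ℕ) (d : ℕ) (a : ℕ → K) : Prop :=
  ∀ ρ : ℝ, 1 < ρ → ∀ᶠ n in 𝓕, Ht (ρ ^ d ^ n) (a n)

theorem Ht.one_le {B : ℝ} {a : K} (h : Ht B a) : 1 ≤ B := by
  obtain ⟨M, h1, h2, -⟩ := h
  exact (Nat.one_le_cast.2 h1).trans h2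

theorem Ht.mono {B B' : ℝ} {a : K} (h : Ht B a) (hB : B ≤ B') : Ht B' a := by
  obtain ⟨M, h1, h2, h3, h4⟩ := h
  exact ⟨M, h1, h2.trans hB, h3, h4.trans hB⟩

theorem Ht.mul {B B' : ℝ} {a b : K} (h : Ht B a) (h' : Ht B' b) : Ht (B * B') (a * b) := by
  have := h.one_le
  obtain ⟨M, h1, h2, h3, h4⟩ := h
  obtain ⟨M', k1, k2, k3, k4⟩ := h'
  refine ⟨M * M', mul_pos h1 k1, ?_, ?_,
    (house_mul_le _ _).trans (mul_le_mul h4 k4 (house_nonneg _) (by linarith))⟩
  · rw [Nat.cast_mul]; exact mul_le_mul h2 k2 (by positivity) (by linarith)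
  · rw [Nat.cast_mul, mul_mul_mul_comm]; exact h3.mul k3

theorem Ht.add {B B' : ℝ} {a b : K} (h : Ht B a) (h' : Ht B' b) : Ht (2 * (B * B')) (a + b) := by
  have b1 := h.one_le
  have b2 := h'.one_le
  obtain ⟨M, h1, h2, h3, h4⟩ := h
  obtain ⟨M', k1, k2, k3, k4⟩ := h'
  refine ⟨M * M', mul_pos h1 k1, ?_, ?_, (house_add_le _ _).trans (by nlinarith)⟩
  · rw [Nat.cast_mul]
    exact (mul_le_mul h2 k2 (by positivity) (by linarith)).trans (by nlinarith)
  · rw [mul_add]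
    exact (Den.mono h3 (dvd_mul_right _ _)).add (Den.mono k3 (dvd_mul_left _ _))

theorem Ht.const (c : K) : ∃ B, Ht B c := by
  obtain ⟨N, hN, h⟩ := exists_den ({c} : Finset K)
  exact ⟨max N (house c), N, hN, le_max_left _ _, h c (Finset.mem_singleton_self c),
    le_max_right _ _⟩

theorem Ht.poly (p : K[X]) : ∃ e : ℕ, ∀ B a, 2 ≤ B → Ht B a → Ht (B ^ e) (p.eval a) := by
  induction p using Polynomial.recOnHorner with
  | M0 => exact ⟨0, fun B a _ _ => ⟨1, one_pos, by simp, by simpa using isIntegral_zero, by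
      simp [house]⟩⟩
  | MC p c _ _ ih =>
    obtain ⟨e, he⟩ := ih
    obtain ⟨B0, h0⟩ := Ht.const c
    obtain ⟨k, hk⟩ := pow_unbounded_of_one_lt B0 (one_lt_two (α := ℝ))
    refine ⟨e + k + 1, fun B a hB ha => ?_⟩
    rw [eval_add, eval_C, pow_succ', pow_add]
    exact ((he B a hB ha).add (h0.mono (hk.le.trans (pow_le_pow_left₀ zero_le_two hB k)))).mono
      (mul_le_mul_of_nonneg_right hB (by positivity))
  | MX p _ ih =>
    obtain ⟨e, he⟩ := ih
    exact ⟨e + 1, fun B a hB ha => by rw [eval_mul, eval_X, pow_succ]; exact (he B a hB ha).mul ha⟩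

theorem dh1_root {p : K[X]} (hp : p ≠ 0) (hi : ∀ j, IsIntegral ℤ (p.coeff j)) {B : ℝ} (b1 : 1 ≤ B)
    (hB : ∀ j, house (p.coeff j) ≤ B) {b : K} (hb : p.eval b = 0) :
    Ht (B ^ (Module.finrank ℚ K + 1) + 1) b := by
  obtain ⟨q, rfl⟩ := (mem_lifts (f := algebraMap (𝓞 K) K) p).1
    ((lifts_iff_coeff_lifts _).2 fun i => ⟨⟨_, hi i⟩, rfl⟩)
  have q0 : q.leadingCoeff ≠ 0 := leadingCoeff_ne_zero.2 fun e => hp (by rw [e, Polynomial.map_zero])
  obtain ⟨c, hc⟩ := Ideal.mem_span_singleton'.1 (Ideal.absNorm_mem (Ideal.span {q.leadingCoeff}))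
  rw [Ideal.absNorm_span_singleton] at hc
  refine ⟨(Algebra.norm ℤ q.leadingCoeff).natAbs, Int.natAbs_pos.2 (Algebra.norm_ne_zero_iff.2 q0),
    ?_, ?_, dss6_root hp hi hB hb⟩
  · obtain ⟨σ, hσ⟩ := exists_house (q.leadingCoeff : K)
    have h1 := norm_norm_le_norm_mul_house_pow (q.leadingCoeff : K) σ
    have h2 := hB q.natDegree
    rw [coeff_map] at h2
    rw [← Algebra.coe_norm_int, Int.norm_cast_rat, Int.norm_eq_abs, ← hσ, ← pow_succ'] at h1
    rw [Nat.cast_natAbs, Int.cast_abs]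
    exact (h1.trans ((pow_le_pow_left₀ (house_nonneg _) h2 _).trans
      (pow_le_pow_right₀ b1 (by omega)))).trans (le_add_of_nonneg_right zero_le_one)
  · have h1 := isIntegral_trans (R := ℤ) _ (isIntegral_leadingCoeff_smul q b (by
      rwa [aeval_def, ← eval_map]))
    rw [← map_natCast (algebraMap (𝓞 K) K), ← hc, map_mul, mul_assoc]
    exact c.isIntegral_coe.mul (by rwa [Algebra.smul_def] at h1)

theorem lemH' {G : K[X][X]} (hG : ∀ c : K, G.map (evalRingHom c) ≠ 0) :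
    ∃ e : ℕ, ∀ (B : ℝ) (a b : K), 2 ≤ B → Ht B a → G.evalEval a b = 0 → Ht (B ^ e) b := by
  choose e he using fun j => Ht.poly (G.coeff j)
  set E := G.support.sup e
  refine ⟨E * (G.support.card + 1) * (Module.finrank ℚ K + 1) + 1, fun B a b hB ha h => ?_⟩
  have b1 : 1 ≤ B ^ E := one_le_pow₀ (by linarith)
  choose! M m1 m2 m3 m4 using fun j (hj : j ∈ G.support) =>
    (he j B a hB ha).mono (pow_le_pow_right₀ (by linarith) (Finset.le_sup hj) : _ ≤ B ^ E)
  set N := ∏ j ∈ G.support, M j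
  have N0 : 0 < N := Finset.prod_pos m1
  have N1 : (N : ℝ) ≤ (B ^ E) ^ G.support.card := by
    rw [Nat.cast_prod, ← Finset.prod_const]
    exact Finset.prod_le_prod (fun _ _ => by positivity) m2
  have hc : ∀ j, ((N : K[X]) * G.map (evalRingHom a)).coeff j = N * (G.coeff j).eval a := fun j => by
    rw [← C_eq_natCast, coeff_C_mul, coeff_map, coe_evalRingHom]
  have key := dh1_root (p := (N : K[X]) * G.map (evalRingHom a))
    (B := (B ^ E) ^ (G.support.card + 1)) (b := b)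
    (mul_ne_zero (Nat.cast_ne_zero.2 N0.ne') (hG a)) (fun j => by
      rw [hc]
      by_cases hj : j ∈ G.support
      · exact Den.mono (m3 j hj) (Finset.dvd_prod_of_mem _ hj)
      · rw [notMem_support_iff.1 hj, eval_zero, mul_zero]
        exact isIntegral_zero) (one_le_pow₀ b1)
    (fun j => by
      rw [hc, house_nat_mul, pow_succ]
      refine mul_le_mul N1 ?_ (house_nonneg _) (by positivity)
      by_cases hj : j ∈ G.support
      · exact m4 j hj
      · rw [notMem_support_iff.1 hj, eval_zero]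
        simpa [house] using zero_le_one.trans b1)
    (by rw [eval_mul, map_evalRingHom_eval, h, mul_zero])
  rw [← pow_mul, ← pow_mul, ← mul_assoc] at key
  refine key.mono ?_
  rw [pow_succ]
  nlinarith [one_le_pow₀ (n := E * (G.support.card + 1) * (Module.finrank ℚ K + 1))
    (show 1 ≤ B by linarith)]

variable {𝓕 : Filter ℕ} {d : ℕ}

theorem dh1_two (hF : 𝓕 ≤ atTop) (hd : 2 ≤ d) {ρ : ℝ} (h : 1 < ρ) (k : ℕ) :
    ∃ r : ℝ, 1 < r ∧ (∀ n, (r ^ d ^ n) ^ (k + 1) = ρ ^ d ^ n) ∧ ∀ᶠ n in 𝓕, 2 ≤ r ^ d ^ n := by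
  obtain ⟨r, r1, rfl⟩ := dsn5_root h (Nat.succ_ne_zero k)
  exact ⟨r, r1, fun n => by rw [← pow_mul, ← pow_mul, mul_comm],
    hF ((tend_pp_top r1 hd).eventually_ge_atTop 2)⟩

theorem SmH.add (hF : 𝓕 ≤ atTop) (hd : 2 ≤ d) {a b : ℕ → K} (ha : SmH 𝓕 d a) (hb : SmH 𝓕 d b) :
    SmH 𝓕 d fun n => a n + b n := fun ρ hρ => by
  obtain ⟨r, r1, r2, r3⟩ := dh1_two hF hd hρ 2
  filter_upwards [ha r r1, hb r r1, r3] with n h1 h2 h3
  refine (h1.add h2).mono ?_
  rw [← r2, pow_succ', sq]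
  exact mul_le_mul_of_nonneg_right h3 (by positivity)

theorem SmH.poly (hF : 𝓕 ≤ atTop) (hd : 2 ≤ d) {a : ℕ → K} (ha : SmH 𝓕 d a) (p : K[X]) :
    SmH 𝓕 d fun n => p.eval (a n) := fun ρ hρ => by
  obtain ⟨e, he⟩ := Ht.poly p
  obtain ⟨r, r1, r2, r3⟩ := dh1_two hF hd hρ e
  filter_upwards [ha r r1, r3] with n h1 h3
  exact (he _ _ h3 h1).mono (r2 n ▸ pow_le_pow_right₀ (by linarith) e.le_succ)

theorem SmH.const (hF : 𝓕 ≤ atTop) (hd : 2 ≤ d) (c : K) : SmH 𝓕 d fun _ => c := fun ρ hρ => by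
  obtain ⟨B, hB⟩ := Ht.const c
  exact Eventually.mono (hF ((tend_pp_top hρ hd).eventually_ge_atTop B)) fun n hn => hB.mono hn

theorem SmH.sum (hF : 𝓕 ≤ atTop) (hd : 2 ≤ d) {ι : Type*} (s : Finset ι) {r : ι → ℕ → K}
    (h : ∀ i ∈ s, SmH 𝓕 d (r i)) : SmH 𝓕 d fun n => ∑ i ∈ s, r i n := by
  classical
  induction s using Finset.induction_on with
  | empty => simpa using SmH.const hF hd (0 : K)
  | insert a s ha ih =>
    simpa only [Finset.sum_insert ha] using (h a (Finset.mem_insert_self _ _)).add hF hd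
      (ih fun i hi => h i (Finset.mem_insert_of_mem hi))

theorem SmH.sml {a : ℕ → K} (ha : SmH 𝓕 d a) (σ : K →+* ℂ) : Sml 𝓕 d fun n => σ (a n) :=
  fun ρ hρ => IsBigO.of_bound' ((ha ρ hρ).mono fun n ⟨_, _, _, _, h⟩ => by
    rw [Real.norm_of_nonneg (by positivity)]
    exact (norm_embedding_le_house _ σ).trans h)

theorem dh1_den {f : K[X]} (hd : 2 ≤ f.natDegree) {x : ℕ → K} (h : ∀ n, x (n + 1) = f.eval (x n)) :
    ∃ N : ℕ, 0 < N ∧ ∀ n, IsIntegral ℤ (((N ^ f.natDegree ^ n : ℕ) : K) * x n) := by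
  classical
  obtain ⟨N, hN, hi⟩ := exists_den (insert (x 0) f.coeffs)
  have key : ∀ n, IsIntegral ℤ (((N ^ (2 * f.natDegree ^ n - 1) : ℕ) : K) * x n) := fun n => by
    induction n with
    | zero => simpa using hi _ (Finset.mem_insert_self _ _)
    | succ n ih =>
      rw [h, eval_eq_sum, sum_def, Finset.mul_sum]
      refine IsIntegral.sum _ fun i hi' => Den.mono
        (N := N * (N ^ (2 * f.natDegree ^ n - 1)) ^ i) ?_ ?_
      · rw [Nat.cast_mul, mul_mul_mul_comm, Nat.cast_pow, ← mul_pow]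
        exact (hi _ (Finset.mem_insert_of_mem (coeff_mem_coeffs (mem_support_iff.1 hi')))).mul
          (ih.pow i)
      · rw [← pow_mul, ← pow_succ']
        refine pow_dvd_pow _ ?_
        have h1 := Nat.mul_le_mul_left (2 * f.natDegree ^ n - 1) (le_natDegree_of_mem_supp _ hi')
        have h2 : 0 < f.natDegree ^ n := by positivity
        rw [Nat.sub_one_mul _ f.natDegree, mul_assoc, ← pow_succ] at h1
        have := hd
        have h3 : f.natDegree ≤ f.natDegree ^ (n + 1) := Nat.le_self_pow (by omega) _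
        omega
  exact ⟨N ^ 2, by positivity, fun n => Den.mono (key n) (by
    rw [← pow_mul]; exact pow_dvd_pow _ (Nat.sub_le _ _))⟩

theorem smh_low (hF : 𝓕 ≤ atTop) {f : K[X]} {x : ℕ → K} (hO : Orb f x) (hd : f.natDegree < d) :
    SmH 𝓕 d x := fun ρ hρ => by
  obtain ⟨N, hN, hi⟩ := dh1_den hO.deg hO.step
  obtain ⟨Λ, hΛ, h⟩ := growth_up hO.deg hO.step
  filter_upwards [hF (ev_pp_le hd hΛ hρ), hF (ev_pp_le hd (Nat.one_le_cast.2 hN) hρ)] with n h1 h2
  exact ⟨_, pow_pos hN _, by exact_mod_cast h2, hi n, (h n).trans h1⟩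

theorem smh_aff (hF : 𝓕 ≤ atTop) (hd : 2 ≤ d) {x : ℕ → K} {a b : K}
    (h : ∀ n, x (n + 1) = a * x n + b) (c l : ℕ) : SmH 𝓕 d fun t => x (c + l * t) := fun ρ hρ => by
  obtain ⟨B1, h1⟩ := Ht.const a
  obtain ⟨B2, h2⟩ := Ht.const b
  obtain ⟨B3, h3⟩ := Ht.const (x 0)
  have b1 := h1.one_le
  have b2 := h2.one_le
  have b3 := h3.one_le
  have b4 := one_le_mul_of_one_le_of_one_le b1 b2
  set B := 2 * (B1 * B2) * B3 with hB
  have b5 : 2 * (B1 * B2) ≤ B := le_mul_of_one_le_right (by positivity) b3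
  have key : ∀ n, Ht (B ^ (n + 1)) (x n) := fun n => by
    induction n with
    | zero => exact h3.mono (by rw [zero_add, pow_one]; nlinarith)
    | succ n ih =>
      rw [h]
      refine ((h1.mul ih).add h2).mono ?_
      rw [pow_succ' B (n + 1), mul_right_comm, ← mul_assoc]
      exact mul_le_mul_of_nonneg_right b5 (by positivity)
  obtain ⟨k, hk⟩ := pow_unbounded_of_one_lt B hρ
  have h4 : ∀ᶠ n : ℕ in atTop, k * (c + l * n + 1) ≤ d ^ n := by
    have := (tendsto_pow_const_div_const_pow_of_one_lt 1 (r := 2) one_lt_two).eventually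
      (gt_mem_nhds (show (0 : ℝ) < 1 / (k * (c + l + 1) + 1) by positivity))
    filter_upwards [this, eventually_ge_atTop 1] with n hn h1
    rw [pow_one, div_lt_div_iff₀ (by positivity) (by positivity), one_mul] at hn
    have h2 : n * (k * (c + l + 1) + 1) < 2 ^ n := by exact_mod_cast hn
    have h3 := Nat.pow_le_pow_left hd n
    have h5 : c + l * n + 1 ≤ n * (c + l + 1) := by nlinarith
    nlinarith [Nat.mul_le_mul_left k h5]
  refine Eventually.mono (hF h4) fun n hn => (key _).mono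
    ((pow_le_pow_left₀ (by positivity) hk.le _).trans ?_)
  rw [← pow_mul]
  exact pow_le_pow_right₀ hρ.le hn

open IsDedekindDomain in
theorem den_low {f : K[X]} {x : ℕ → K} (hO : Orb f x) (h : ¬ Den x) : ∃ ρ : ℝ, 1 < ρ ∧
    ∀ᶠ n in atTop, ∀ M : ℕ, 0 < M → IsIntegral ℤ ((M : K) * x n) → ρ ^ f.natDegree ^ n ≤ M := by
  obtain ⟨N, hN, hi⟩ := exists_den f.coeffs
  obtain ⟨m, hm⟩ : ∃ m, ¬ IsIntegral ℤ ((N : K) * x m) := not_forall.1 fun e => h ⟨N, hN, e⟩
  obtain ⟨v, hv⟩ : ∃ v : HeightOneSpectrum (𝓞 K), 1 < v.valuation K (N * x m) := by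
    by_contra! hc
    obtain ⟨y, hy⟩ := HeightOneSpectrum.mem_integers_of_valuation_le_one K _ hc
    exact hm (hy ▸ y.isIntegral_coe)
  set w := v.valuation K
  have w1 : ∀ y : K, IsIntegral ℤ y → w y ≤ 1 := fun y hy => v.valuation_le_one (⟨y, hy⟩ : 𝓞 K)
  have n1 : w N ≤ 1 := w1 _ (by simpa using (isIntegral_algebraMap (R := ℤ) (A := K) (x := N)))
  have n0 : 0 < w N := zero_lt_iff.2 (w.ne_zero_iff.2 (Nat.cast_ne_zero.2 hN.ne'))
  have w2 : ∀ y : K, 1 < w (N * y) → 1 < w y := fun y hy =>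
    hy.trans_le ((map_mul _ _ _).trans_le (mul_le_of_le_one_left' n1))
  have d2 := hO.deg
  have w3 : ∀ y : K, 1 < w (N * y) → w (f.eval y) = w y ^ f.natDegree := fun y hy => by
    have y1 := w2 y hy
    rw [eval_eq_sum_range, Finset.sum_range_succ, hO.monic.coeff_natDegree, one_mul,
      w.map_add_eq_of_lt_right, map_pow]
    rw [map_pow]
    refine w.map_sum_lt (pow_pos (zero_lt_one.trans y1) _).ne' fun i hi' => ?_
    have c1 : w (f.coeff i) < w y := by
      by_cases e : f.coeff i = 0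
      · rw [e, map_zero]; exact zero_lt_one.trans y1
      · have := (w1 _ (hi _ (coeff_mem_coeffs e))).trans_lt hy
        rw [map_mul, map_mul] at this
        exact lt_of_mul_lt_mul_left' this
    rw [map_mul, map_pow]
    exact (mul_lt_mul_of_pos_right c1 (pow_pos (zero_lt_one.trans y1) _)).trans_le (by
      rw [← pow_succ']; exact pow_le_pow_right₀ y1.le (Finset.mem_range.1 hi'))
  have w4 : ∀ t, 1 < w (N * x (m + t)) ∧ w (x (m + t)) = w (x m) ^ f.natDegree ^ t := fun t => by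
    induction t with
    | zero => exact ⟨hv, by simp⟩
    | succ t ih =>
      rw [← add_assoc, hO.step, map_mul, w3 _ ih.1]
      refine ⟨ih.1.trans_le ((map_mul _ _ _).trans_le (mul_le_mul_right
        (le_self_pow₀ (w2 _ ih.1).le (by omega)) _)), by rw [ih.2, ← pow_mul, pow_succ]⟩
  have w5 : WithZero.exp (1 : ℤ) ≤ w (x m) := by
    have := w2 _ hv
    rw [← WithZero.exp_log (zero_lt_one.trans this).ne', ← WithZero.exp_zero,
      WithZero.exp_lt_exp] at this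
    rw [← WithZero.exp_log (zero_lt_one.trans (w2 _ hv)).ne', WithZero.exp_le_exp]
    exact this
  have r0 : Module.finrank ℚ K ≠ 0 := Module.finrank_pos.ne'
  obtain ⟨ρ, r1, r2⟩ := dsn5_root one_lt_two (m := f.natDegree ^ m * Module.finrank ℚ K)
    (by positivity)
  refine ⟨ρ, r1, eventually_atTop.2 ⟨m, fun n hn M M0 hM => ?_⟩⟩
  obtain ⟨t, rfl⟩ := Nat.exists_eq_add_of_le hn
  have h1 := w1 _ hM
  rw [map_mul, (w4 t).2] at h1
  have h2 : v.intValuation (M : 𝓞 K) ≤ WithZero.exp (-((f.natDegree ^ t : ℕ) : ℤ)) := by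
    rw [← v.valuation_of_algebraMap (K := K), WithZero.exp_neg,
      ← nsmul_one (f.natDegree ^ t), WithZero.exp_nsmul,
      ← one_div, le_div_iff₀ (pow_pos WithZero.exp_pos _)]
    exact (mul_le_mul_right (pow_le_pow_left₀ zero_le w5 _) _).trans (by simpa using h1)
  have h3 := Ideal.absNorm_dvd_absNorm_of_le
    ((Ideal.span_singleton_le_iff_mem _).2 ((v.intValuation_le_pow_iff_mem _ _).1 h2))
  rw [map_pow, Ideal.absNorm_span_natCast, RingOfIntegers.rank] at h3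
  have h4 := (Nat.pow_le_pow_left (NumberField.HeightOneSpectrum.one_lt_absNorm v) _).trans
    (Nat.le_of_dvd (by positivity) h3)
  refine le_of_pow_le_pow_left₀ r0 (by positivity) ?_
  rw [← pow_mul, pow_add, mul_right_comm, pow_mul, r2]
  exact_mod_cast h4

theorem ht_low {f : K[X]} {x : ℕ → K} (hO : Orb f x) (h0 : ¬ Alg0 x) : ∃ ρ : ℝ, 1 < ρ ∧
    ∀ᶠ n in atTop, ∀ B, Ht B (x n) → ρ ^ f.natDegree ^ n ≤ B := by
  by_cases h : Den x
  · obtain ⟨σ, hb⟩ := exists_unbdd h h0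
    exact (hO.escape σ hb).imp fun ρ h => ⟨h.1, h.2.mono fun n hn B ⟨_, _, _, _, hB⟩ =>
      hn.trans ((norm_embedding_le_house _ σ).trans hB)⟩
  · exact (den_low hO h).imp fun ρ h => ⟨h.1, h.2.mono fun n hn B ⟨M, a, b, c, _⟩ =>
      (hn M a c).trans b⟩

theorem not_smh [𝓕.NeBot] (hF : 𝓕 ≤ atTop) {A : Subalgebra K (ℕ → K)} (hA : DomA A) {f : K[X]}
    {x a : ℕ → K} (hx : Orb f x) (mx : x ∈ A) (ma : a ∈ A) (x0 : ¬ Alg0 x) (a0 : ¬ Alg0 a)
    (hD : Dep a x) : ¬ SmH 𝓕 f.natDegree a := fun h => by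
  obtain ⟨G, hG, hz⟩ := hA.prim ma mx a0 hD
  obtain ⟨e, he⟩ := lemH' hG
  obtain ⟨ρ, hρ, hl⟩ := ht_low hx x0
  obtain ⟨r, r1, r2, r3⟩ := dh1_two hF hx.deg hρ e
  obtain ⟨n, h1, h2, h3, h4⟩ := ((h r r1).and (r3.and ((hz.and hl).filter_mono hF))).exists
  have := h4 _ (he _ _ _ h2 h1 h3)
  rw [← r2] at this
  exact this.not_gt (pow_lt_pow_right₀ (by linarith) e.lt_succ_self)

theorem deg_eq' {A : Subalgebra K (ℕ → K)} (hA : DomA A) {f g : K[X]} {x y : ℕ → K} (hx : Orb f x)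
    (hy : Orb g y) (mx : x ∈ A) (my : y ∈ A) (x0 : ¬ Alg0 x) (y0 : ¬ Alg0 y) (hD : Dep x y) :
    f.natDegree = g.natDegree :=
  le_antisymm (not_lt.1 fun h => not_smh le_rfl hA hx mx my x0 y0 hD.symm (smh_low le_rfl hy h))
    (not_lt.1 fun h => not_smh le_rfl hA hy my mx y0 x0 hD (smh_low le_rfl hx h))

end Pool.Agent.P.MP_68214b_ag.DS
end

-- part Pool.Agent.P.MP_68214b_ag.DSS1
section

open Polynomial Filter Asymptotics NumberField Topology

namespace Pool.Agent.P.MP_68214b_ag.DS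

variable {𝓕 : Filter ℕ} {t a a' : ℕ → ℂ} {T : ℕ} {π π' : PowerSeries ℂ}

theorem dss1_pow (ht : ∀ᶠ n in 𝓕, ‖t n‖ ≤ 1) {k l : ℕ} (h : k ≤ l) :
    (fun n => t n ^ l) =O[𝓕] fun n => t n ^ k :=
  IsBigO.of_bound' (ht.mono fun n hn => by
    rw [norm_pow, norm_pow]; exact pow_le_pow_of_le_one (norm_nonneg _) hn h)

theorem dss1_bd (ht : ∀ᶠ n in 𝓕, ‖t n‖ ≤ 1) (q : ℂ[X]) :
    (fun n => q.eval (t n)) =O[𝓕] fun _ => (1 : ℝ) := by
  simp only [eval_eq_sum_range]
  refine IsBigO.fun_sum fun i _ => IsBigO.const_mul_left ?_ _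
  exact (dss1_pow ht i.zero_le).trans (by simpa using isBigO_const_one ℝ (1 : ℂ) 𝓕)

theorem dss1_key (ht : ∀ᶠ n in 𝓕, ‖t n‖ ≤ 1) {N : ℕ} {q : ℂ[X]} (h : ∀ k < N, q.coeff k = 0) :
    (fun n => q.eval (t n)) =O[𝓕] fun n => t n ^ N := by
  obtain ⟨r, rfl⟩ := X_pow_dvd_iff.2 h
  simpa using (isBigO_refl (fun n => t n ^ N) 𝓕).mul
    ((dss1_bd ht r).trans (isBigO_const_one ℂ (1 : ℝ) 𝓕))

theorem As.mono {𝓖 : Filter ℕ} (h : As 𝓕 t T a π) (hG : 𝓖 ≤ 𝓕) : As 𝓖 t T a π := IsBigO.mono h hG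

theorem As.congr (h : As 𝓕 t T a π) (e : ∀ᶠ n in 𝓕, a n = a' n) : As 𝓕 t T a' π :=
  IsBigO.congr' h (e.mono fun n hn => by simp only [hn]) .rfl

theorem As.of_le (ht : ∀ᶠ n in 𝓕, ‖t n‖ ≤ 1) (h : As 𝓕 t T a π) {T' : ℕ} (hT : T' ≤ T) :
    As 𝓕 t T' a π :=
  ((h.trans (dss1_pow ht hT)).add (dss1_key ht (q := PowerSeries.trunc T π - PowerSeries.trunc T' π)
    fun k hk => by simp [PowerSeries.coeff_trunc, hk, hk.trans_le hT])).congr_left fun n => by simp

theorem As.of_trunc (h : As 𝓕 t T a π) (e : ∀ k < T, PowerSeries.coeff k π = PowerSeries.coeff k π') :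
    As 𝓕 t T a π' := by
  have : PowerSeries.trunc T π' = PowerSeries.trunc T π := by
    ext k; simp only [PowerSeries.coeff_trunc]; split_ifs with hk
    exacts [(e k hk).symm, rfl]
  rwa [As, this]

theorem As.of_close (h : As 𝓕 t T a π) (e : (fun n => a' n - a n) =O[𝓕] fun n => t n ^ T) :
    As 𝓕 t T a' π :=
  (e.add h).congr_left fun n => by ring

theorem As.bdd (ht : ∀ᶠ n in 𝓕, ‖t n‖ ≤ 1) (h : As 𝓕 t T a π) : a =O[𝓕] fun _ => (1 : ℝ) :=
  ((h.trans ((dss1_pow ht T.zero_le).trans (by simpa using isBigO_const_one ℝ (1 : ℂ) 𝓕))).add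
    (dss1_bd ht _)).congr_left fun n => sub_add_cancel _ _

theorem as_poly (ht : ∀ᶠ n in 𝓕, ‖t n‖ ≤ 1) (q : ℂ[X]) :
    As 𝓕 t T (fun n => q.eval (t n)) (q : PowerSeries ℂ) :=
  (dss1_key ht (q := q - PowerSeries.trunc T (q : PowerSeries ℂ))
    fun k hk => by simp [PowerSeries.coeff_trunc, hk]).congr_left fun n => by simp

theorem as_const (ht : ∀ᶠ n in 𝓕, ‖t n‖ ≤ 1) (c : ℂ) :
    As 𝓕 t T (fun _ => c) (PowerSeries.C c) := by
  simpa using as_poly (T := T) ht (C c)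

theorem as_id (ht : ∀ᶠ n in 𝓕, ‖t n‖ ≤ 1) : As 𝓕 t T t PowerSeries.X := by
  simpa using as_poly (T := T) ht X

theorem As.add (h : As 𝓕 t T a π) (h' : As 𝓕 t T a' π') :
    As 𝓕 t T (fun n => a n + a' n) (π + π') :=
  (IsBigO.add h h').congr_left fun n => by simp only [map_add, eval_add]; ring

theorem As.mul (ht : ∀ᶠ n in 𝓕, ‖t n‖ ≤ 1) (h : As 𝓕 t T a π) (h' : As 𝓕 t T a' π') :
    As 𝓕 t T (fun n => a n * a' n) (π * π') := by
  have h1 : (fun n => a n * (a' n - (PowerSeries.trunc T π').eval (t n))) =O[𝓕] fun n => t n ^ T := by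
    simpa using ((h.bdd ht).trans (isBigO_const_one ℂ (1 : ℝ) 𝓕)).mul h'
  have h2 : (fun n => (a n - (PowerSeries.trunc T π).eval (t n)) *
      (PowerSeries.trunc T π').eval (t n)) =O[𝓕] fun n => t n ^ T := by
    simpa using IsBigO.mul h ((dss1_bd ht _).trans (isBigO_const_one ℂ (1 : ℝ) 𝓕))
  have h3 := dss1_key ht (N := T) (q := PowerSeries.trunc T π * PowerSeries.trunc T π' -
      PowerSeries.trunc T (π * π')) fun k hk => by
    rw [coeff_sub, coeff_mul, PowerSeries.coeff_trunc, if_pos hk, PowerSeries.coeff_mul, sub_eq_zero]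
    refine Finset.sum_congr rfl fun x hx => ?_
    have := Finset.HasAntidiagonal.mem_antidiagonal.1 hx
    rw [PowerSeries.coeff_trunc, PowerSeries.coeff_trunc, if_pos (by omega), if_pos (by omega)]
  exact ((h1.add h2).add h3).congr_left fun n => by simp only [eval_sub, eval_mul]; ring

theorem As.pow (ht : ∀ᶠ n in 𝓕, ‖t n‖ ≤ 1) (h : As 𝓕 t T a π) (k : ℕ) :
    As 𝓕 t T (fun n => a n ^ k) (π ^ k) := by
  induction k with
  | zero => simpa using as_const (T := T) ht 1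
  | succ k ih => simpa only [pow_succ] using ih.mul ht h

theorem as_sum {ι : Type*} (s : Finset ι) {g : ι → ℕ → ℂ} {P : ι → PowerSeries ℂ}
    (h : ∀ i ∈ s, As 𝓕 t T (g i) (P i)) :
    As 𝓕 t T (fun n => ∑ i ∈ s, g i n) (∑ i ∈ s, P i) := by
  classical
  induction s using Finset.induction_on with
  | empty => simpa [As] using isBigO_zero _ _
  | insert i s hi ih =>
    simpa only [Finset.sum_insert hi] using (h i (Finset.mem_insert_self _ _)).add
      (ih fun j hj => h j (Finset.mem_insert_of_mem hj))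

theorem As.hom2 (ht : ∀ᶠ n in 𝓕, ‖t n‖ ≤ 1) (h : As 𝓕 t T a π) (h' : As 𝓕 t T a' π')
    {R : Type*} [CommRing R] (φ : R →+* ℂ) (k l D : ℕ) (G : R[X][X]) :
    As 𝓕 t T (fun n => hom2 φ k l D (a n) (a' n) (t n) G)
      (hom2 (PowerSeries.C.comp φ) k l D π π' PowerSeries.X G) :=
  as_sum _ fun _ _ => as_sum _ fun _ _ => ((as_const ht _).mul ht
    ((h.pow ht _).mul ht ((as_id ht).pow ht _))).mul ht ((h'.pow ht _).mul ht ((as_id ht).pow ht _))

theorem hom2_eq {R S : Type*} [CommRing R] [CommRing S] (φ : R →+* S) (k l : ℕ) {D : ℕ}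
    (x y s : S) {G : R[X][X]} (hG : Bd G D D) :
    hom2 φ k l D (x * s ^ l) (y * s ^ k) s G = s ^ ((k + l) * D) * ev2 φ x y G := by
  have h2 : ∀ j, (eval₂RingHom φ x) (G.coeff j) =
      ∑ i ∈ Finset.range (D + 1), φ ((G.coeff j).coeff i) * x ^ i := fun j =>
    eval₂_eq_sum_range' φ (Nat.lt_succ_of_le (hG.1 j)) x
  rw [DS.hom2, coe_eval₂RingHom, eval₂_eq_sum_range' _ (Nat.lt_succ_of_le hG.2), Finset.mul_sum]
  refine Finset.sum_congr rfl fun j hj => ?_
  rw [h2, Finset.sum_mul, Finset.mul_sum]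
  refine Finset.sum_congr rfl fun i hi => ?_
  obtain ⟨u, hu⟩ := Nat.exists_eq_add_of_le (Nat.le_of_lt_succ (Finset.mem_range.1 hi))
  obtain ⟨v, hv⟩ := Nat.exists_eq_add_of_le (Nat.le_of_lt_succ (Finset.mem_range.1 hj))
  rw [show D - i = u by omega, show D - j = v by omega, show (k + l) * D = l * i + l * u +
    (k * j + k * v) by rw [← mul_add, ← mul_add, ← hu, ← hv]; ring]
  ring

theorem hom2_map {R S S' : Type*} [CommRing R] [CommRing S] [CommRing S'] (φ : R →+* S)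
    (ψ : S →+* S') (k l D : ℕ) (P1 P2 s : S) (G : R[X][X]) :
    ψ (hom2 φ k l D P1 P2 s G) = hom2 (ψ.comp φ) k l D (ψ P1) (ψ P2) (ψ s) G := by
  simp [DS.hom2]

theorem As.small (ht : ∀ᶠ n in 𝓕, ‖t n‖ ≤ 1) (h : As 𝓕 t T a π) {N : ℕ} (hN : N ≤ T)
    (hπ : ∀ k < N, PowerSeries.coeff k π = 0) : a =O[𝓕] fun n => t n ^ N := by
  have : PowerSeries.trunc N π = 0 := by
    ext k; simp only [PowerSeries.coeff_trunc]; split_ifs with hk
    exacts [hπ k hk, rfl]
  simpa [As, this] using h.of_le ht hN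

theorem As.lead {e : ℕ} (h : As 𝓕 t (e + 1) a π) (hπ : ∀ k < e, PowerSeries.coeff k π = 0) :
    (fun n => a n - PowerSeries.coeff e π * t n ^ e) =O[𝓕] fun n => t n ^ (e + 1) := by
  have : PowerSeries.trunc e π = 0 := by
    ext k; simp only [PowerSeries.coeff_trunc]; split_ifs with hk
    exacts [hπ k hk, rfl]
  simpa [As, PowerSeries.trunc_succ, this] using h

theorem As.ne_zero {e : ℕ} (h : As 𝓕 t (e + 1) a π) (hπ : ∀ k < e, PowerSeries.coeff k π = 0)
    (he : PowerSeries.coeff e π ≠ 0) (h0 : ∀ n, t n ≠ 0) (ht : Tendsto t 𝓕 (𝓝 0)) :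
    ∀ᶠ n in 𝓕, a n ≠ 0 := by
  obtain ⟨c, hc⟩ := (h.lead hπ).bound
  have h1 : Tendsto (fun n => c * ‖t n‖) 𝓕 (𝓝 (c * ‖(0 : ℂ)‖)) := ht.norm.const_mul c
  rw [norm_zero, mul_zero] at h1
  filter_upwards [hc, h1.eventually_lt_const (norm_pos_iff.2 he)] with n h2 h3 h4
  rw [h4, zero_sub, norm_neg, norm_mul, pow_succ, norm_mul] at h2
  have := norm_pos_iff.2 (pow_ne_zero e (h0 n))
  nlinarith

theorem apx_of_as {z1 z2 : ℕ → ℂ} {k l : ℕ} (h : As 𝓕 t T (fun n => z1 n * t n ^ l) π)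
    (h' : As 𝓕 t T (fun n => z2 n * t n ^ k) π') : ∃ C0 : ℝ, 1 ≤ C0 ∧ ∀ᶠ n in 𝓕,
      Apx k l T (PowerSeries.trunc T π) (PowerSeries.trunc T π') C0 (t n) (z1 n) (z2 n) := by
  obtain ⟨c, hc⟩ := IsBigO.bound h
  obtain ⟨c', hc'⟩ := IsBigO.bound h'
  refine ⟨max 1 (max c c'), le_max_left _ _, ?_⟩
  filter_upwards [hc, hc'] with n h1 h2
  rw [norm_pow] at h1 h2
  exact ⟨h1.trans (by gcongr; simp), h2.trans (by gcongr; simp)⟩

end Pool.Agent.P.MP_68214b_ag.DS
end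

-- part Pool.Agent.P.MP_68214b_ag.DSB4
section

open Polynomial Filter Asymptotics NumberField Topology

namespace Pool.Agent.P.MP_68214b_ag.DS

variable {K : Type*} [Field K] {σ : K →+* ℂ} {d : ℕ} {x : ℕ → K} {p : PowerSeries K} {u : ℂ}

theorem Esc.prog (h : Esc σ d x p u) (hd : 0 < d) (c : ℕ) {l : ℕ} (hl : 0 < l) :
    Esc σ (d ^ l) (fun t => x (c + l * t)) p (u ^ d ^ c) := by
  have e : ∀ t, (u ^ d ^ c) ^ (d ^ l) ^ t = u ^ d ^ (c + l * t) := fun t => by
    rw [← pow_mul, ← pow_mul, ← pow_add]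
  have ht : Tendsto (fun t => c + l * t) atTop atTop :=
    tendsto_atTop_mono (fun t => le_trans (Nat.le_mul_of_pos_left t hl) (Nat.le_add_left _ _))
      tendsto_id
  refine ⟨?_, h.c0, fun T => ?_⟩
  · rw [norm_pow]
    exact one_lt_pow₀ h.one_lt (pow_pos hd c).ne'
  · simp only [e]
    exact IsBigO.comp_tendsto (h.app T) ht

theorem dsb4_trunc {R S : Type*} [CommRing R] [CommRing S] (φ : R →+* S) (T : ℕ)
    (q : PowerSeries R) :
    PowerSeries.trunc T (PowerSeries.map φ q) = (PowerSeries.trunc T q).map φ := by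
  ext k
  simp only [PowerSeries.coeff_trunc, coeff_map, PowerSeries.coeff_map]
  split_ifs <;> simp

theorem Esc.conj (h : Esc σ d x p u) {c : K →+* K} (hc : ∀ y, σ (c y) = (starRingEnd ℂ) (σ y)) :
    Esc σ d (fun n => c (x n)) (PowerSeries.map c p) ((starRingEnd ℂ) u) := by
  refine ⟨by rw [Complex.norm_conj]; exact h.one_lt, ?_, fun T => ?_⟩
  · rw [← PowerSeries.coeff_zero_eq_constantCoeff_apply, PowerSeries.coeff_map,
      PowerSeries.coeff_zero_eq_constantCoeff_apply, h.c0, map_one]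
  · have e : PowerSeries.map σ (PowerSeries.map c p) =
        PowerSeries.map (starRingEnd ℂ) (PowerSeries.map σ p) := by
      ext k
      simp only [PowerSeries.coeff_map, hc]
    have h1 := h.app T
    unfold As at h1 ⊢
    rw [← isBigO_norm_norm] at h1 ⊢
    refine h1.congr (fun n => ?_) (fun n => ?_)
    · have e2 : ((starRingEnd ℂ) u ^ d ^ n)⁻¹ = (starRingEnd ℂ) (u ^ d ^ n)⁻¹ := by
        rw [map_inv₀, map_pow]
      beta_reduce
      rw [e, dsb4_trunc (starRingEnd ℂ), e2, hc, eval_map, eval₂_at_apply, ← map_mul, ← map_sub,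
        Complex.norm_conj]
    · simp only [norm_pow, norm_inv, Complex.norm_conj]

theorem Esc.lim' (h : Esc σ d x p u) (hd : 2 ≤ d) :
    (fun n => σ (x n) * (u ^ d ^ n)⁻¹ - 1) =O[atTop] fun n => (u ^ d ^ n)⁻¹ := by
  have _ := hd
  have h1 := h.app 1
  unfold As at h1
  refine h1.congr (fun n => ?_) (fun n => pow_one _)
  rw [PowerSeries.trunc_one_left, eval_C, PowerSeries.coeff_map,
    PowerSeries.coeff_zero_eq_constantCoeff_apply, h.c0, map_one]

theorem dsb4_inv (h : 1 < ‖u‖) (hd : 2 ≤ d) :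
    Tendsto (fun n => (u ^ d ^ n)⁻¹) atTop (𝓝 0) := by
  simp only [← inv_pow]
  exact tend_ppC (by rw [norm_inv]; exact inv_lt_one_of_one_lt₀ h) hd

theorem Esc.lim (h : Esc σ d x p u) (hd : 2 ≤ d) :
    Tendsto (fun n => σ (x n) * (u ^ d ^ n)⁻¹) atTop (𝓝 1) :=
  tendsto_sub_nhds_zero_iff.1 ((h.lim' hd).trans_tendsto (dsb4_inv h.one_lt hd))

theorem dsb4_eq (h : 1 < ‖u‖) (n : ℕ) (z : ℂ) : ‖u‖ ^ d ^ n * ‖z * (u ^ d ^ n)⁻¹‖ = ‖z‖ := by
  have : 0 < ‖u‖ ^ d ^ n := pow_pos (lt_trans one_pos h) _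
  rw [norm_mul, norm_inv, norm_pow]
  field_simp

theorem Esc.tendsto (h : Esc σ d x p u) (hd : 2 ≤ d) :
    Tendsto (fun n => ‖σ (x n)‖) atTop atTop := by
  have h1 := (tend_pp_top h.one_lt hd).atTop_mul_pos (by norm_num) (h.lim hd).norm
  exact h1.congr fun n => dsb4_eq h.one_lt n _

theorem Esc.up (h : Esc σ d x p u) (hd : 2 ≤ d) :
    (fun n => σ (x n)) =O[atTop] fun n => ‖u‖ ^ d ^ n := by
  have h1 := (isBigO_refl (fun n => ‖u‖ ^ d ^ n) atTop).mul
    ((h.lim hd).norm.isBigO_one ℝ)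
  rw [← isBigO_norm_left]
  exact h1.congr (fun n => dsb4_eq h.one_lt n _) fun n => mul_one _

theorem Esc.not_alg0 (h : Esc σ d x p u) (hd : 2 ≤ d) : ¬ Alg0 x := by
  classical
  rintro ⟨g, hg, he⟩
  obtain ⟨B, hB⟩ := (g.roots.toFinset.finite_toSet.image fun y => ‖σ y‖).bddAbove
  obtain ⟨n, h1, h2⟩ := (he.and ((h.tendsto hd).eventually_gt_atTop B)).exists
  exact absurd (hB ⟨x n, by simpa [hg] using h1, rfl⟩) (not_le.2 h2)

theorem Rel.refl (u : ℂ) : Rel u u := ⟨1, 1, one_pos, one_pos, rfl⟩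

theorem Rel.symm {u v : ℂ} (h : Rel u v) : Rel v u := by
  obtain ⟨a, b, ha, hb, e⟩ := h
  exact ⟨b, a, hb, ha, e.symm⟩

theorem Rel.trans {u v w : ℂ} (h : Rel u v) (h' : Rel v w) : Rel u w := by
  obtain ⟨a, b, ha, hb, e⟩ := h
  obtain ⟨a', b', ha', hb', e'⟩ := h'
  refine ⟨a * a', b' * b, mul_pos ha ha', mul_pos hb' hb, ?_⟩
  rw [pow_mul, e, pow_mul w, ← e', ← pow_mul, ← pow_mul, mul_comm]

theorem Rel.conj {u v : ℂ} (h : Rel u v) : Rel ((starRingEnd ℂ) u) ((starRingEnd ℂ) v) := by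
  obtain ⟨a, b, ha, hb, e⟩ := h
  exact ⟨a, b, ha, hb, by rw [← map_pow, e, map_pow]⟩

theorem rel_of_pow {u v : ℂ} {k l : ℕ} (hk : 0 < k) (hl : 0 < l) (h : Rel (u ^ k) (v ^ l)) :
    Rel u v := by
  obtain ⟨a, b, ha, hb, e⟩ := h
  exact ⟨k * a, l * b, mul_pos hk ha, mul_pos hl hb, by rw [pow_mul, pow_mul, e]⟩

end Pool.Agent.P.MP_68214b_ag.DS
end

-- part Pool.Agent.P.MP_68214b_ag.DSB1
section

namespace Pool.Agent.P.MP_68214b_ag.DS

section formal

open PowerSeries Finset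

variable {K : Type*} [Field K] [CharZero K]

/-- left side of the Boettcher equation -/
noncomputable def dsb1_F (f : Polynomial K) (p : K⟦X⟧) : K⟦X⟧ :=
  ∑ j ∈ range (f.natDegree + 1), C (f.coeff j) * X ^ (f.natDegree - j) * p ^ j

omit [CharZero K] in
theorem dsb1_F_split (f : Polynomial K) (hf : f.Monic) (p : K⟦X⟧) :
    dsb1_F f p = p ^ f.natDegree + X * ∑ j ∈ range f.natDegree,
      C (f.coeff j) * X ^ (f.natDegree - 1 - j) * p ^ j := by
  unfold dsb1_F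
  rw [sum_range_succ, hf.coeff_natDegree, map_one, Nat.sub_self, pow_zero, one_mul, one_mul,
    add_comm, mul_sum]
  congr 1
  refine sum_congr rfl fun j hj => ?_
  have hj' := mem_range.1 hj
  have : f.natDegree - j = f.natDegree - 1 - j + 1 := by omega
  rw [this, pow_succ]; ring

omit [CharZero K] in
theorem dsb1_F_dvd (f : Polynomial K) (p q : K⟦X⟧) : p - q ∣ dsb1_F f p - dsb1_F f q := by
  unfold dsb1_F
  rw [← sum_sub_distrib]
  refine dvd_sum fun j _ => ?_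
  rw [← mul_sub]
  exact Dvd.dvd.mul_left (sub_dvd_pow_sub_pow _ _ _) _

omit [CharZero K] in
theorem dsb1_expand_dvd {d : ℕ} (hd : d ≠ 0) {n : ℕ} {a : K⟦X⟧} (h : X ^ n ∣ a) :
    X ^ (d * n) ∣ expand d hd a := by
  obtain ⟨c, rfl⟩ := h
  rw [map_mul, map_pow, expand_X, ← pow_mul]
  exact Dvd.intro _ rfl

/-- the contraction -/
noncomputable def dsb1_Psi (f : Polynomial K) (hd : f.natDegree ≠ 0) (p : K⟦X⟧) : K⟦X⟧ :=
  p - C ((f.natDegree : K)⁻¹) * (dsb1_F f p - expand f.natDegree hd p)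

omit [CharZero K] in
theorem dsb1_Psi_const (f : Polynomial K) (hf : f.Monic) (hd : f.natDegree ≠ 0) (p : K⟦X⟧)
    (hp : constantCoeff p = 1) : constantCoeff (dsb1_Psi f hd p) = 1 := by
  unfold dsb1_Psi
  rw [dsb1_F_split f hf]
  simp [hp]

theorem dsb1_Psi_dvd (f : Polynomial K) (hf : f.Monic) (hd : f.natDegree ≠ 0) (h2 : 2 ≤ f.natDegree)
    (p q : K⟦X⟧) (hp : constantCoeff p = 1) (hq : constantCoeff q = 1) {n : ℕ} (hn : 1 ≤ n)
    (h : X ^ n ∣ p - q) : X ^ (n + 1) ∣ dsb1_Psi f hd p - dsb1_Psi f hd q := by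
  set d := f.natDegree with hdd
  have hdK : (d : K) ≠ 0 := Nat.cast_ne_zero.2 hd
  set S : K⟦X⟧ := ∑ i ∈ range d, p ^ i * q ^ (d - 1 - i) with hS
  have hgeo : S * (p - q) = p ^ d - q ^ d := geom_sum₂_mul p q d
  have hS1 : X ∣ 1 - C ((d : K)⁻¹) * S := by
    rw [X_dvd_iff]
    simp [hS, hp, hq, hdK]
  set A : K⟦X⟧ → K⟦X⟧ := fun p => ∑ j ∈ range d, C (f.coeff j) * X ^ (d - 1 - j) * p ^ j with hA
  have hAd : p - q ∣ A p - A q := by
    simp only [hA]
    rw [← sum_sub_distrib]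
    refine dvd_sum fun j _ => ?_
    rw [← mul_sub]
    exact Dvd.dvd.mul_left (sub_dvd_pow_sub_pow _ _ _) _
  have key : dsb1_Psi f hd p - dsb1_Psi f hd q = (p - q) * (1 - C ((d : K)⁻¹) * S)
      - C ((d : K)⁻¹) * ((A p - A q) * X) + C ((d : K)⁻¹) * expand d hd (p - q) := by
    unfold dsb1_Psi
    rw [dsb1_F_split f hf, dsb1_F_split f hf, map_sub]
    linear_combination (C ((d : K)⁻¹)) * hgeo
  rw [key]
  refine dvd_add (dvd_sub ?_ ?_) ?_
  · rw [pow_succ]; exact mul_dvd_mul h hS1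
  · refine Dvd.dvd.mul_left ?_ _
    rw [pow_succ]; exact mul_dvd_mul (h.trans hAd) dvd_rfl
  · refine Dvd.dvd.mul_left ?_ _
    refine (pow_dvd_pow _ ?_).trans (dsb1_expand_dvd hd h)
    nlinarith

/-- the formal Boettcher series -/
theorem dsb1_formal (f : Polynomial K) (hf : f.Monic) (hd : f.natDegree ≠ 0)
    (h2 : 2 ≤ f.natDegree) :
    ∃ p : K⟦X⟧, constantCoeff p = 1 ∧ dsb1_F f p = expand f.natDegree hd p := by
  set s : ℕ → K⟦X⟧ := fun k => (dsb1_Psi f hd)^[k] 1 with hs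
  have hsucc : ∀ k, s (k + 1) = dsb1_Psi f hd (s k) := fun k => by
    simp only [hs]; rw [Function.iterate_succ_apply']
  have hc : ∀ k, constantCoeff (s k) = 1 := by
    intro k
    induction k with
    | zero => simp [hs]
    | succ k ih => rw [hsucc]; exact dsb1_Psi_const f hf hd _ ih
  have hstep : ∀ k, X ^ (k + 1) ∣ s (k + 1) - s k := by
    intro k
    induction k with
    | zero => rw [zero_add, pow_one, X_dvd_iff, map_sub, hc, hc, sub_self]
    | succ k ih =>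
      have := dsb1_Psi_dvd f hf hd h2 _ _ (hc (k + 1)) (hc k) (by omega) ih
      rwa [← hsucc, ← hsucc] at this
  have hle : ∀ k m, k ≤ m → X ^ (k + 1) ∣ s m - s k := by
    intro k m hkm
    induction m, hkm using Nat.le_induction with
    | base => simp
    | succ m hm ih =>
      have : s (m + 1) - s k = (s (m + 1) - s m) + (s m - s k) := by ring
      rw [this]
      exact dvd_add ((pow_dvd_pow _ (by omega)).trans (hstep m)) ih
  set p : K⟦X⟧ := mk fun n => coeff n (s n) with hp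
  have hpk : ∀ k, X ^ (k + 1) ∣ p - s k := by
    intro k
    rw [X_pow_dvd_iff]
    intro m hm
    have h1 := X_pow_dvd_iff.1 (hle m k (by omega)) m (by omega)
    rw [map_sub] at h1 ⊢
    simp only [hp, coeff_mk]
    linear_combination -h1
  have hp0 : constantCoeff p = 1 := by
    have := hpk 0
    rw [zero_add, pow_one, X_dvd_iff, map_sub, hc] at this
    linear_combination this
  have hfix : dsb1_Psi f hd p = p := by
    rw [← sub_eq_zero]
    ext n
    have h1 := dsb1_Psi_dvd f hf hd h2 _ _ hp0 (hc n) (by omega) (hpk n)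
    rw [← hsucc] at h1
    have h3 : X ^ (n + 1 + 1) ∣ dsb1_Psi f hd p - p := by
      have : dsb1_Psi f hd p - p = (dsb1_Psi f hd p - s (n + 1)) - (p - s (n + 1)) := by ring
      rw [this]
      exact dvd_sub h1 (hpk (n + 1))
    rw [X_pow_dvd_iff.1 h3 n (by omega), map_zero]
  refine ⟨p, hp0, ?_⟩
  unfold dsb1_Psi at hfix
  have h0 : C ((f.natDegree : K)⁻¹) * (dsb1_F f p - expand f.natDegree hd p) = 0 := by
    linear_combination -hfix
  rcases mul_eq_zero.1 h0 with h | h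
  · exfalso
    have := congrArg constantCoeff h
    simp [hd] at this
  · exact sub_eq_zero.1 h

end formal

open Polynomial Filter Asymptotics NumberField Topology

theorem exists_bott {K : Type*} [Field K] [CharZero K] {f : K[X]} (hm : f.Monic)
    (hd : 2 ≤ f.natDegree) : ∃ p, PowerSeries.constantCoeff p = 1 ∧ Bott f p := by
  have h0 : f.natDegree ≠ 0 := by omega
  obtain ⟨p, h1, h2⟩ := dsb1_formal f hm h0 hd
  exact ⟨p, h1, h2.trans (ex_eq h0 p).symm⟩

theorem ex_map {R S : Type*} [CommRing R] [CommRing S] (φ : R →+* S) {d : ℕ} (hd : d ≠ 0)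
    (p : PowerSeries R) : PowerSeries.map φ (ex d p) = ex d (PowerSeries.map φ p) := by
  rw [ex_eq hd, ex_eq hd, PowerSeries.map_expand]

theorem Bott.map {K L : Type*} [Field K] [Field L] (φ : K →+* L) {f : K[X]} {p : PowerSeries K}
    (hd : 0 < f.natDegree) (h : Bott f p) : Bott (f.map φ) (PowerSeries.map φ p) := by
  unfold Bott at h ⊢
  rw [natDegree_map, ← ex_map φ hd.ne', ← h, map_sum]
  refine Finset.sum_congr rfl fun j _ => ?_
  simp

end Pool.Agent.P.MP_68214b_ag.DS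
end

-- part Pool.Agent.P.MP_68214b_ag.DSS2
section

open Polynomial Filter Asymptotics NumberField Topology

namespace Pool.Agent.P.MP_68214b_ag.DS

theorem coeff_ser {F : Type*} [Field F] (p : PowerSeries F) {a : ℕ} (ha : 0 < a) (β : F) (k : ℕ) :
    PowerSeries.coeff k (ser p a β) =
      if a ∣ k then β * (β⁻¹ ^ (k / a) * PowerSeries.coeff (k / a) p) else 0 := by
  rw [ser, ex_eq ha.ne', PowerSeries.coeff_C_mul, PowerSeries.coeff_expand]
  split_ifs
  · rw [PowerSeries.coeff_rescale]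
  · rw [mul_zero]

theorem ser_map {F L : Type*} [Field F] [Field L] (φ : F →+* L) (p : PowerSeries F) {a : ℕ}
    (ha : 0 < a) (β : F) :
    PowerSeries.map φ (ser p a β) = ser (PowerSeries.map φ p) a (φ β) := by
  ext k
  rw [PowerSeries.coeff_map, coeff_ser _ ha, coeff_ser _ ha]
  split_ifs <;> simp

theorem tau_lt' {u τ γ : ℂ} (hu : 1 < ‖u‖) {a : ℕ} (ha : 0 < a) (h : u * τ ^ a = γ) (hγ : ‖γ‖ = 1) :
    τ ≠ 0 ∧ ‖τ‖ < 1 := by
  have h1 : ‖u‖ * ‖τ‖ ^ a = 1 := by rw [← norm_pow, ← norm_mul, h, hγ]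
  refine ⟨fun e => ?_, lt_of_not_ge fun e => ?_⟩
  · rw [e, norm_zero, zero_pow ha.ne', mul_zero] at h1
    exact zero_ne_one h1
  · have h2 : 1 ≤ ‖τ‖ ^ a := one_le_pow₀ e
    nlinarith

theorem dss2_coeff (p : PowerSeries ℂ) {a : ℕ} (ha : 0 < a) (β : ℂ) {T k : ℕ} (hk : k < T) :
    PowerSeries.coeff k (∑ j ∈ Finset.range T, PowerSeries.C β * (PowerSeries.C
      (PowerSeries.coeff j p) * (PowerSeries.X ^ a * PowerSeries.C β⁻¹) ^ j)) =
      PowerSeries.coeff k (ser p a β) := by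
  have h1 : ∀ j, PowerSeries.coeff k (PowerSeries.C β * (PowerSeries.C
      (PowerSeries.coeff j p) * (PowerSeries.X ^ a * PowerSeries.C β⁻¹) ^ j)) =
      if k = a * j then β * (β⁻¹ ^ j * PowerSeries.coeff j p) else 0 := by
    intro j
    rw [mul_pow, ← pow_mul, ← map_pow, PowerSeries.coeff_C_mul, PowerSeries.coeff_C_mul,
      PowerSeries.coeff_mul_C, PowerSeries.coeff_X_pow]
    split_ifs <;> ring
  rw [map_sum, Finset.sum_congr rfl fun j _ => h1 j, coeff_ser _ ha]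
  split_ifs with hd
  · obtain ⟨j, rfl⟩ := hd
    rw [Nat.mul_div_cancel_left j ha, Finset.sum_eq_single j (fun i _ hi => if_neg fun e =>
      hi (Nat.eq_of_mul_eq_mul_left ha e).symm) fun hj => absurd (Finset.mem_range.2
        (lt_of_le_of_lt (Nat.le_mul_of_pos_left j ha) hk)) hj, if_pos rfl]
  · exact Finset.sum_eq_zero fun j _ => if_neg fun e => hd ⟨j, e⟩

theorem ap {K : Type*} [Field K] {σ : K →+* ℂ} {d : ℕ} {x : ℕ → K} {p : PowerSeries K} {u : ℂ}
    (h : Esc σ d x p u) {a : ℕ} (ha : 0 < a) {τ γ β : ℂ} (hτ : u * τ ^ a = γ)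
    (hγ : ‖γ‖ = 1) (hβ : ‖β‖ = 1) {𝓕 : Filter ℕ} (hF : 𝓕 ≤ atTop) {T : ℕ}
    (hn : (fun n => γ ^ d ^ n - β) =O[𝓕] fun n => (τ ^ d ^ n) ^ T) :
    As 𝓕 (fun n => τ ^ d ^ n) T (fun n => σ (x n) * (τ ^ d ^ n) ^ a)
      (ser (PowerSeries.map σ p) a β) := by
  obtain ⟨-, h1⟩ := tau_lt' h.one_lt ha hτ hγ
  have ht1 : ∀ n, ‖τ ^ d ^ n‖ ≤ 1 := fun n => by
    rw [norm_pow]
    exact pow_le_one₀ (norm_nonneg _) h1.le
  have ht : ∀ᶠ n in 𝓕, ‖τ ^ d ^ n‖ ≤ 1 := Eventually.of_forall ht1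
  have hg : ∀ n, ‖γ ^ d ^ n‖ = 1 := fun n => by rw [norm_pow, hγ, one_pow]
  have hg0 : ∀ n, γ ^ d ^ n ≠ 0 := fun n => norm_ne_zero_iff.1 (by rw [hg]; exact one_ne_zero)
  have hβ0 : β ≠ 0 := norm_ne_zero_iff.1 (by rw [hβ]; exact one_ne_zero)
  have hu0 : u ≠ 0 := norm_ne_zero_iff.1 (zero_lt_one.trans h.one_lt).ne'
  have hU : ∀ n, (u ^ d ^ n)⁻¹ = (τ ^ d ^ n) ^ a * (γ ^ d ^ n)⁻¹ := fun n => by
    have e : γ ^ d ^ n = u ^ d ^ n * (τ ^ d ^ n) ^ a := by
      rw [← hτ, mul_pow, ← pow_mul, ← pow_mul, mul_comm a]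
    have := hg0 n
    have := pow_ne_zero (d ^ n) hu0
    field_simp
    exact e
  have a1 : As 𝓕 (fun n => τ ^ d ^ n) T (fun n => γ ^ d ^ n) (PowerSeries.C β) :=
    (as_const ht β).of_close hn
  have a2 : As 𝓕 (fun n => τ ^ d ^ n) T (fun n => (γ ^ d ^ n)⁻¹) (PowerSeries.C β⁻¹) := by
    refine (as_const ht β⁻¹).of_close (IsBigO.trans (isBigO_of_le _ fun n => le_of_eq ?_) hn)
    rw [inv_sub_inv (hg0 n) hβ0, norm_div, norm_mul, hg, hβ, mul_one, div_one, norm_sub_rev]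
  have a3 := as_sum (Finset.range T) fun j _ => a1.mul ht
    ((as_const ht (PowerSeries.coeff j (PowerSeries.map σ p))).mul ht
      ((((as_id ht).pow ht a).mul ht a2).pow ht j))
  refine (a3.of_trunc fun k hk => dss2_coeff _ ha β hk).of_close ?_
  have a4 : (fun n => (u ^ d ^ n)⁻¹ ^ T) =O[𝓕] fun n => (τ ^ d ^ n) ^ T := by
    refine isBigO_of_le _ fun n => ?_
    rw [norm_pow, norm_pow, hU, norm_mul, norm_inv, hg, inv_one, mul_one, norm_pow]
    exact pow_le_pow_left₀ (by positivity)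
      (pow_le_of_le_one (norm_nonneg _) (ht1 n) ha.ne') T
  refine IsBigO.trans (isBigO_of_le _ fun n => le_of_eq ?_) (((h.app T).mono hF).trans a4)
  have e := PowerSeries.eval₂_trunc_eq_sum_range ((u ^ d ^ n)⁻¹) (RingHom.id ℂ) T
    (PowerSeries.map σ p)
  rw [eval₂_id] at e
  rw [e, ← Finset.mul_sum, ← one_mul ‖σ (x n) * (u ^ d ^ n)⁻¹ - _‖, ← hg n, ← norm_mul, hU]
  congr 1
  have := hg0 n
  simp only [RingHom.id_apply]
  field_simp

theorem Near.filter {d : ℕ} {τ γ β : ℂ} {T : ℕ} (h : Near d τ γ β T) :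
    ∃ 𝓕 : Filter ℕ, 𝓕.NeBot ∧ 𝓕 ≤ atTop ∧
      (fun n => γ ^ d ^ n - β) =O[𝓕] fun n => (τ ^ d ^ n) ^ T := by
  obtain ⟨c, hc⟩ := h
  refine ⟨atTop ⊓ 𝓟 {m | ‖γ ^ d ^ m - β‖ ≤ c * ‖τ ^ d ^ m‖ ^ T}, frequently_iff_neBot.1 hc,
    inf_le_left, IsBigO.of_bound c (eventually_inf_principal.2 (Eventually.of_forall fun m hm => ?_))⟩
  rw [norm_pow]
  exact hm

theorem Pr.tau {K : Type*} [Field K] {σ : K →+* ℂ} {d a b : ℕ} {f1 f2 : K[X]} {y1 y2 : ℕ → K}
    {p1 p2 : PowerSeries K} {τ γ : ℂ} (h : Pr σ d a b f1 f2 y1 y2 p1 p2 τ γ) :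
    2 ≤ d ∧ τ ≠ 0 ∧ ‖τ‖ < 1 := by
  obtain ⟨u, hu, e⟩ := h.e1
  exact ⟨h.d1 ▸ h.o1.deg, tau_lt' hu.one_lt h.hb e norm_one⟩

theorem Pr.as {K : Type*} [Field K] {σ : K →+* ℂ} {d a b : ℕ} {f1 f2 : K[X]} {y1 y2 : ℕ → K}
    {p1 p2 : PowerSeries K} {τ γ : ℂ} (h : Pr σ d a b f1 f2 y1 y2 p1 p2 τ γ) {β : ℂ} (hβ : ‖β‖ = 1)
    {T : ℕ} (hN : Near d τ γ β T) : ∃ 𝓕 : Filter ℕ, 𝓕.NeBot ∧ 𝓕 ≤ atTop ∧
      As 𝓕 (fun n => τ ^ d ^ n) T (fun n => σ (y1 n) * (τ ^ d ^ n) ^ b)
        (ser (PowerSeries.map σ p1) b 1) ∧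
      As 𝓕 (fun n => τ ^ d ^ n) T (fun n => σ (y2 n) * (τ ^ d ^ n) ^ a)
        (ser (PowerSeries.map σ p2) a β) := by
  obtain ⟨𝓕, h0, h1, h2⟩ := hN.filter
  obtain ⟨u, hu, e⟩ := h.e1
  obtain ⟨v, hv, e'⟩ := h.e2
  refine ⟨𝓕, h0, h1, ap hu h.hb e norm_one norm_one h1 ?_, ap hv h.ha e' h.γ1 hβ h1 h2⟩
  simp only [one_pow, sub_self]
  exact isBigO_zero _ _

end Pool.Agent.P.MP_68214b_ag.DS
end

-- part Pool.Agent.P.MP_68214b_ag.DSS3
section

open Polynomial Filter Asymptotics NumberField Topology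

namespace Pool.Agent.P.MP_68214b_ag.DS

variable {K : Type} [Field K] [NumberField K]

theorem ca_par {I : Type*} [Fintype I] (u : I → ℂ) (hu : ∀ i, 1 < ‖u i‖) (i0 : I)
    (hR : ∀ i, Rel (u i) (u i0)) : ∃ (A : ℕ) (s : ℂ) (c : I → ℕ) (ζ : I → ℂ), 0 < A ∧ s ^ A = u i0 ∧
      1 < ‖s‖ ∧ ∀ i, 0 < c i ∧ u i * s⁻¹ ^ c i = ζ i ∧ ζ i ^ A = 1 := by
  classical
  choose a b ha hb hab using hR
  have hA : 0 < ∏ i, a i := Finset.prod_pos fun i _ => ha i
  obtain ⟨s, hs⟩ := IsAlgClosed.exists_pow_nat_eq (u i0) hA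
  have h0 : u i0 ≠ 0 := by
    intro h
    have := hu i0
    rw [h, norm_zero] at this
    linarith
  have hs1 : 1 < ‖s‖ := by
    by_contra hc
    have h1 : ‖s‖ ^ (∏ i, a i) ≤ 1 := pow_le_one₀ (norm_nonneg _) (not_lt.1 hc)
    rw [← norm_pow, hs] at h1
    exact absurd (hu i0) (not_lt.2 h1)
  refine ⟨∏ i, a i, s, fun i => b i * ∏ j ∈ Finset.univ.erase i, a j,
    fun i => u i * s⁻¹ ^ (b i * ∏ j ∈ Finset.univ.erase i, a j), hA, hs, hs1, fun i => ⟨?_, rfl, ?_⟩⟩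
  · exact Nat.mul_pos (hb i) (Finset.prod_pos fun j _ => ha j)
  · have e1 : u i ^ (∏ j, a j) = u i0 ^ (b i * ∏ j ∈ Finset.univ.erase i, a j) := by
      rw [← Finset.mul_prod_erase Finset.univ a (Finset.mem_univ i), pow_mul, hab, ← pow_mul]
    rw [mul_pow, e1, ← pow_mul, mul_comm (b i * _) (∏ j, a j), pow_mul s⁻¹, inv_pow, hs, ← mul_pow,
      mul_inv_cancel₀ h0, one_pow]

/-- series with algebraic coefficients -/
def dss3_S : Subring (PowerSeries ℂ) where
  carrier := {π | ∀ k, PowerSeries.coeff k π ∈ algebraicClosure ℚ ℂ}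
  mul_mem' := fun {a b} ha hb k => by
    rw [PowerSeries.coeff_mul]
    exact sum_mem fun x _ => mul_mem (ha _) (hb _)
  one_mem' := fun k => by
    rw [PowerSeries.coeff_one]
    split_ifs
    · exact one_mem _
    · exact zero_mem _
  add_mem' := fun {a b} ha hb k => by
    rw [map_add]
    exact add_mem (ha _) (hb _)
  zero_mem' := fun k => by
    rw [map_zero]
    exact zero_mem _
  neg_mem' := fun {a} ha k => by
    rw [map_neg]
    exact neg_mem (ha _)

theorem dss3_alg (σ : K →+* ℂ) (y : K) : σ y ∈ algebraicClosure ℚ ℂ := by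
  rw [mem_algebraicClosure_iff]
  exact (Algebra.IsAlgebraic.isAlgebraic (R := ℚ) y).algHom σ.toRatAlgHom

theorem dss3_C {z : ℂ} (hz : z ∈ algebraicClosure ℚ ℂ) : PowerSeries.C z ∈ dss3_S := fun k => by
  rw [PowerSeries.coeff_C]
  split_ifs
  · exact hz
  · exact zero_mem _

theorem dss3_X : (PowerSeries.X : PowerSeries ℂ) ∈ dss3_S := fun k => by
  rw [PowerSeries.coeff_X]
  split_ifs
  · exact one_mem _
  · exact zero_mem _

theorem dss3_ser (σ : K →+* ℂ) (p : PowerSeries K) {a : ℕ} (ha : 0 < a) {z : ℂ}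
    (hz : z ∈ algebraicClosure ℚ ℂ) : ser (PowerSeries.map σ p) a z ∈ dss3_S := fun k => by
  rw [coeff_ser _ ha]
  split_ifs
  · rw [PowerSeries.coeff_map]
    exact mul_mem hz (mul_mem (pow_mem (inv_mem hz) _) (dss3_alg σ _))
  · exact zero_mem _

theorem dss3_root {z : ℂ} {A : ℕ} (hA : 0 < A) (hz : z ^ A = 1) : z ∈ algebraicClosure ℚ ℂ := by
  rw [mem_algebraicClosure_iff]
  exact IsAlgebraic.of_pow hA (by rw [hz]; exact isAlgebraic_one)

theorem dss3_norm {z : ℂ} {A : ℕ} (hA : 0 < A) (hz : z ^ A = 1) : ‖z‖ = 1 := by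
  have h : ‖z‖ ^ A = 1 := by rw [← norm_pow, hz, norm_one]
  exact (pow_eq_one_iff_of_nonneg (norm_nonneg _) hA.ne').1 h

theorem dss3_ult {ζ : ℂ} {A : ℕ} (hA : 0 < A) (hz : ζ ^ A = 1) (d : ℕ) (𝒰 : Ultrafilter ℕ) :
    ∃ z : ℂ, z ^ A = 1 ∧ ∀ᶠ n in (𝒰 : Filter ℕ), ζ ^ d ^ n = z := by
  have hfin : {z : ℂ | z ^ A = 1}.Finite := by
    refine (nthRootsFinset A (1 : ℂ)).finite_toSet.subset fun z hz => ?_
    exact Finset.mem_coe.2 ((mem_nthRootsFinset hA 1).2 hz)
  have h1 : ∀ᶠ n in (𝒰 : Filter ℕ), ∃ z ∈ {z : ℂ | z ^ A = 1}, ζ ^ d ^ n = z := by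
    refine Eventually.of_forall fun n => ⟨_, ?_, rfl⟩
    show (ζ ^ d ^ n) ^ A = 1
    rw [← pow_mul, mul_comm, pow_mul, hz, one_pow]
  obtain ⟨z, hz1, hz2⟩ := (Ultrafilter.eventually_exists_mem_iff hfin).1 h1
  exact ⟨z, hz1, hz2⟩

theorem ca {I : Type*} [Fintype I] {σ : K →+* ℂ} {d : ℕ} (hd : 2 ≤ d) {x : I → ℕ → K}
    {p : I → PowerSeries K} {u : I → ℂ} (hE : ∀ i, Esc σ d (x i) (p i) (u i)) (i0 : I)
    (hR : ∀ i, Rel (u i) (u i0)) (q : I → K[X]) (𝒰 : Ultrafilter ℕ) (hU : (𝒰 : Filter ℕ) ≤ atTop) :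
    ((fun n => σ (∑ i, (q i).eval (x i n))) =O[𝒰] fun _ => (1 : ℝ)) ∨
      ∃ (s α : ℂ) (A E : ℕ), 0 < A ∧ s ^ A = u i0 ∧ IsAlgebraic ℚ α ∧
        Big 𝒰 d (fun n => σ (∑ i, (q i).eval (x i n))) α s E := by
  classical
  obtain ⟨A, s, c, ζ, hA, hs, hs1, hc⟩ := ca_par u (fun i => (hE i).one_lt) i0 hR
  choose z hz1 hz2 using fun i => dss3_ult hA (hc i).2.2 d 𝒰
  have s0 : s ≠ 0 := by
    intro h
    rw [h, norm_zero] at hs1
    linarith
  set t : ℕ → ℂ := fun n => s⁻¹ ^ d ^ n with htdef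
  have t0 : ∀ n, t n ≠ 0 := fun n => pow_ne_zero _ (inv_ne_zero s0)
  have ht : ∀ᶠ n in (𝒰 : Filter ℕ), ‖t n‖ ≤ 1 := Eventually.of_forall fun n => by
    show ‖s⁻¹ ^ d ^ n‖ ≤ 1
    rw [norm_pow, norm_inv]
    exact pow_le_one₀ (inv_nonneg.2 (norm_nonneg _)) (inv_le_one_of_one_le₀ hs1.le)
  have hap : ∀ i T, As 𝒰 t T (fun n => σ (x i n) * t n ^ c i)
      (ser (PowerSeries.map σ (p i)) (c i) (z i)) := fun i T => by
    refine ap (hE i) (hc i).1 (hc i).2.1 (dss3_norm hA (hc i).2.2) (dss3_norm hA (hz1 i)) hU ?_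
    refine (isBigO_zero _ _).congr' ?_ EventuallyEq.rfl
    filter_upwards [hz2 i] with n hn
    rw [hn, sub_self]
  set E0 : ℕ := ∑ i, c i * (q i).natDegree with hE0
  have hle : ∀ i, ∀ j ∈ Finset.range ((q i).natDegree + 1), c i * j ≤ E0 := fun i j hj => by
    have h1 : c i * j ≤ c i * (q i).natDegree :=
      Nat.mul_le_mul_left _ (Nat.lt_succ_iff.1 (Finset.mem_range.1 hj))
    exact h1.trans (Finset.single_le_sum (f := fun i => c i * (q i).natDegree)
      (fun _ _ => Nat.zero_le _) (Finset.mem_univ i))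
  set π : PowerSeries ℂ := ∑ i, ∑ j ∈ Finset.range ((q i).natDegree + 1),
    PowerSeries.C (σ ((q i).coeff j)) * ser (PowerSeries.map σ (p i)) (c i) (z i) ^ j *
      PowerSeries.X ^ (E0 - c i * j) with hπ
  set R : ℕ → ℂ := fun n => σ (∑ i, (q i).eval (x i n)) with hRdef
  have hπS : π ∈ dss3_S := sum_mem fun i _ => sum_mem fun j _ =>
    mul_mem (mul_mem (dss3_C (dss3_alg σ _))
      (pow_mem (dss3_ser σ _ (hc i).1 (dss3_root hA (hz1 i))) _)) (pow_mem dss3_X _)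
  have hAs : ∀ T, As 𝒰 t T (fun n => R n * t n ^ E0) π := fun T => by
    have h1 : As 𝒰 t T (fun n => ∑ i, ∑ j ∈ Finset.range ((q i).natDegree + 1),
        σ ((q i).coeff j) * (σ (x i n) * t n ^ c i) ^ j * t n ^ (E0 - c i * j)) π :=
      as_sum _ fun i _ => as_sum _ fun j _ =>
        As.mul ht (As.mul ht (as_const ht _) ((hap i T).pow ht j)) ((as_id ht).pow ht _)
    refine h1.congr (Eventually.of_forall fun n => ?_)
    show _ = σ (∑ i, (q i).eval (x i n)) * t n ^ E0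
    rw [map_sum, Finset.sum_mul]
    refine Finset.sum_congr rfl fun i _ => ?_
    rw [eval_eq_sum_range, map_sum, Finset.sum_mul]
    refine Finset.sum_congr rfl fun j hj => ?_
    have e : t n ^ E0 = t n ^ (c i * j) * t n ^ (E0 - c i * j) := by
      rw [← pow_add, Nat.add_sub_cancel' (hle i j hj)]
    rw [e, map_mul, map_pow, mul_pow, ← pow_mul]
    ring
  by_cases hz : ∀ k < E0, PowerSeries.coeff k π = 0
  · left
    have h1 := ((hAs E0).small ht le_rfl hz).mul (isBigO_refl (fun n => (t n ^ E0)⁻¹) _)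
    have h2 : R =O[𝒰] fun _ => (1 : ℂ) := by
      refine h1.congr (fun n => ?_) (fun n => ?_)
      · exact mul_inv_cancel_right₀ (pow_ne_zero _ (t0 n)) _
      · exact mul_inv_cancel₀ (pow_ne_zero _ (t0 n))
    exact h2.trans (isBigO_const_const _ one_ne_zero _)
  · right
    have hex : ∃ k, k < E0 ∧ PowerSeries.coeff k π ≠ 0 := by
      by_contra hcon
      exact hz fun k hk => by
        by_contra h
        exact hcon ⟨k, hk, h⟩
    obtain ⟨he1, he2⟩ := Nat.find_spec hex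
    set e := Nat.find hex with he
    have hmin : ∀ k < e, PowerSeries.coeff k π = 0 := fun k hk => by
      by_contra h
      exact Nat.find_min hex hk ⟨hk.trans he1, h⟩
    obtain ⟨E, hE'⟩ : ∃ E, E0 = e + 1 + E := ⟨E0 - (e + 1), by omega⟩
    refine ⟨s, PowerSeries.coeff e π, A, E + 1, hA, hs, mem_algebraicClosure_iff.1 (hπS e),
      hs1, he2, Nat.succ_pos _, ?_⟩
    have h1 := ((hAs (e + 1)).lead hmin).mul (isBigO_refl (fun n => (t n ^ E0)⁻¹) _)
    have ti : ∀ n k, (t n ^ k)⁻¹ = (s ^ k) ^ d ^ n := fun n k => by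
      show ((s⁻¹ ^ d ^ n) ^ k)⁻¹ = _
      rw [← pow_mul, inv_pow, inv_inv, ← pow_mul, mul_comm]
    have h2 : (fun n => R n - PowerSeries.coeff e π * (s ^ (E + 1)) ^ d ^ n) =O[𝒰]
        fun n => (s ^ E) ^ d ^ n := by
      refine h1.congr (fun n => ?_) (fun n => ?_)
      · rw [← ti, sub_mul, mul_inv_cancel_right₀ (pow_ne_zero _ (t0 n)), hE']
        have := t0 n
        field_simp
        ring
      · rw [← ti, hE']
        have := t0 n
        field_simp
        ring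
    refine h2.trans (IsBigO.of_norm_le fun n => ?_)
    rw [norm_pow, norm_pow, Nat.add_sub_cancel]

end Pool.Agent.P.MP_68214b_ag.DS
end

-- part Pool.Agent.P.MP_68214b_ag.DSB2
section

open Polynomial Filter Asymptotics NumberField Topology

namespace Pool.Agent.P.MP_68214b_ag.DS

theorem dsb2_ratio {g : ℂ[X]} (hm : g.Monic) {z : ℕ → ℂ}
    (hz : Tendsto (fun n => ‖z n‖) atTop atTop) :
    Tendsto (fun n => g.eval (z n) / z n ^ g.natDegree) atTop (𝓝 1) := by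
  have hi : Tendsto (fun n => (z n)⁻¹) atTop (𝓝 0) := by
    rw [tendsto_zero_iff_norm_tendsto_zero]
    simp only [norm_inv]
    exact hz.inv_tendsto_atTop
  have h1 : Tendsto (fun n => g.reverse.eval (z n)⁻¹) atTop (𝓝 (g.reverse.eval 0)) :=
    (g.reverse.continuous.tendsto 0).comp hi
  rw [← coeff_zero_eq_eval_zero, coeff_zero_reverse, hm.leadingCoeff] at h1
  refine h1.congr' ?_
  filter_upwards [hz.eventually_gt_atTop 0] with n hn
  have h0 : z n ≠ 0 := norm_pos_iff.1 hn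
  let _ := invertibleOfNonzero h0
  have := eval₂_reverse_mul_pow (RingHom.id ℂ) (z n) g
  rw [eval₂_id, eval₂_id, invOf_eq_inv] at this
  rw [eq_div_iff (pow_ne_zero _ h0), this]

theorem dsb2_sum {d : ℕ} (hd : 2 ≤ d) {L : ℕ → ℂ} (hL : Tendsto L atTop (𝓝 0)) :
    ∃ S : ℕ → ℂ, Tendsto S atTop (𝓝 0) ∧ ∀ n, d * S n = L n + S (n + 1) := by
  obtain ⟨B, hB⟩ := isBounded_iff_forall_norm_le.1 (Metric.isBounded_range_of_tendsto L hL)
  have hB' : ∀ n, ‖L n‖ ≤ B := fun n => hB _ ⟨n, rfl⟩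
  have hd0 : (d : ℂ) ≠ 0 := by exact_mod_cast (by omega : d ≠ 0)
  have hd2 : (2 : ℝ) ≤ d := by exact_mod_cast hd
  have hb : ∀ n k, ‖L (n + k) / (d : ℂ) ^ (k + 1)‖ ≤ B * (1 / 2) ^ k := fun n k => by
    rw [norm_div, norm_pow, Complex.norm_natCast, one_div, inv_pow, ← div_eq_mul_inv]
    refine div_le_div₀ ((norm_nonneg _).trans (hB' 0)) (hB' _) (by positivity) ?_
    exact (pow_le_pow_left₀ (by norm_num) hd2 k).trans
      (pow_le_pow_right₀ (by linarith) (by omega))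
  have hg : Summable fun k : ℕ => B * (1 / 2 : ℝ) ^ k := summable_geometric_two.mul_left B
  have hs : ∀ n, Summable fun k => L (n + k) / (d : ℂ) ^ (k + 1) := fun n =>
    Summable.of_norm_bounded hg (hb n)
  refine ⟨fun n => ∑' k, L (n + k) / (d : ℂ) ^ (k + 1), ?_, fun n => ?_⟩
  · have := tendsto_tsum_of_dominated_convergence (𝓕 := atTop)
      (f := fun n k => L (n + k) / (d : ℂ) ^ (k + 1)) (g := fun _ => 0) hg
      (fun k => by
        simpa using (hL.comp (tendsto_add_atTop_nat k)).div_const ((d : ℂ) ^ (k + 1)))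
      (Eventually.of_forall hb)
    simpa using this
  · dsimp only
    rw [(hs n).tsum_eq_zero_add, mul_add, ← tsum_mul_left]
    congr 1
    · simp [mul_div_cancel₀ _ hd0]
    · refine tsum_congr fun k => ?_
      rw [show n + (k + 1) = n + 1 + k by ring]
      field_simp
      ring

theorem exists_u {g : ℂ[X]} (hm : g.Monic) (hd : 2 ≤ g.natDegree) {z : ℕ → ℂ}
    (hs : ∀ n, z (n + 1) = g.eval (z n)) (hz : Tendsto (fun n => ‖z n‖) atTop atTop) :
    ∃ u : ℂ, 1 < ‖u‖ ∧ Tendsto (fun n => z n * (u ^ g.natDegree ^ n)⁻¹) atTop (𝓝 1) := by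
  have hr := dsb2_ratio hm hz
  simp only [← hs] at hr
  generalize g.natDegree = d at hd hr
  have hL : Tendsto (fun n => Complex.log (z (n + 1) / z n ^ d)) atTop (𝓝 0) := by
    have := (continuousAt_clog Complex.one_mem_slitPlane).tendsto.comp hr
    rwa [Complex.log_one] at this
  obtain ⟨S, hS, hd'⟩ := dsb2_sum hd hL
  have hE : Tendsto (fun n => Complex.exp (S n)) atTop (𝓝 1) := by
    have := (Complex.continuous_exp.tendsto 0).comp hS
    rwa [Complex.exp_zero] at this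
  have hU : Tendsto (fun n => ‖z n * Complex.exp (S n)‖) atTop atTop := by
    simp only [norm_mul]
    exact hz.atTop_mul_pos one_pos (by simpa using hE.norm)
  obtain ⟨m, hm⟩ := eventually_atTop.1 (hU.eventually_gt_atTop 1)
  have h0 : ∀ n, m ≤ n → z n ≠ 0 := fun n hn e => by
    have := hm n hn
    rw [e, zero_mul, norm_zero] at this
    linarith
  obtain ⟨u, hu⟩ := IsAlgClosed.exists_pow_nat_eq (z m * Complex.exp (S m))
    (n := d ^ m) (by positivity)
  have key : ∀ n, m ≤ n → u ^ d ^ n = z n * Complex.exp (S n) := by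
    intro n hn
    induction n, hn using Nat.le_induction with
    | base => exact hu
    | succ n hn ih =>
      have a := h0 n hn
      have b := h0 (n + 1) (by omega)
      rw [pow_succ, pow_mul, ih, mul_pow, ← Complex.exp_nat_mul, hd', Complex.exp_add,
        Complex.exp_log (div_ne_zero b (pow_ne_zero _ a))]
      field_simp
  refine ⟨u, ?_, ?_⟩
  · by_contra h
    have := hm m le_rfl
    rw [← hu, norm_pow] at this
    exact absurd (pow_le_one₀ (norm_nonneg _) (not_lt.1 h)) (not_le.2 this)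
  · have := hE.inv₀ one_ne_zero
    rw [inv_one] at this
    refine this.congr' ?_
    filter_upwards [eventually_ge_atTop m] with n hn
    rw [key n hn, mul_inv, mul_inv_cancel_left₀ (h0 n hn)]

end Pool.Agent.P.MP_68214b_ag.DS
end

-- part Pool.Agent.P.MP_68214b_ag.DSB3
section

open Polynomial Filter Asymptotics NumberField Topology

namespace Pool.Agent.P.MP_68214b_ag.DS

theorem dsb3_iter {a b : ℕ → ℝ} {M : ℝ} {n0 : ℕ} (hM : ∀ n, n0 ≤ n → a n ≤ M)
    (hb0 : ∀ n, 0 ≤ b n) (hb : ∀ n, b (n + 1) ≤ b n)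
    (h : ∀ n, n0 ≤ n → 3 / 2 * a n ≤ a (n + 1) + b n) {n : ℕ} (hn : n0 ≤ n) : a n ≤ 2 * b n := by
  have key : ∀ k : ℕ, ∀ n, n0 ≤ n → a n ≤ 2 * b n + (2 / 3) ^ k * M := by
    intro k
    induction k with
    | zero => intro n hn; have := hM n hn; have := hb0 n; simp; linarith
    | succ k ih =>
      intro n hn
      have h1 := ih (n + 1) (by omega)
      have h2 := h n hn
      have h3 := hb n
      rw [pow_succ]
      linarith
  have hl : Tendsto (fun k : ℕ => 2 * b n + (2 / 3 : ℝ) ^ k * M) atTop (𝓝 (2 * b n + 0 * M)) :=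
    ((tendsto_pow_atTop_nhds_zero_of_lt_one (by norm_num) (by norm_num)).mul_const M).const_add _
  have := ge_of_tendsto' hl fun k => key k n hn
  linarith

theorem dsb3_step {g : ℂ[X]} (z t : ℂ) :
    g.eval z * t ^ g.natDegree =
      ∑ j ∈ Finset.range (g.natDegree + 1), g.coeff j * t ^ (g.natDegree - j) * (z * t) ^ j := by
  rw [eval_eq_sum_range, Finset.sum_mul]
  refine Finset.sum_congr rfl fun j hj => ?_
  have hj' : j ≤ g.natDegree := Nat.lt_succ_iff.1 (Finset.mem_range.1 hj)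
  have : t ^ g.natDegree = t ^ (g.natDegree - j) * t ^ j := by
    rw [← pow_add, Nat.sub_add_cancel hj']
  rw [this, mul_pow]; ring

theorem dsb3_err {g : ℂ[X]} (hd : 2 ≤ g.natDegree) {p : PowerSeries ℂ} (hB : Bott g p)
    {t : ℕ → ℂ} (ht : ∀ᶠ n in atTop, ‖t n‖ ≤ 1) (T : ℕ) :
    (fun n => ∑ j ∈ Finset.range (g.natDegree + 1),
        g.coeff j * t n ^ (g.natDegree - j) * (PowerSeries.trunc T p).eval (t n) ^ j -
      (PowerSeries.trunc T p).eval (t n ^ g.natDegree)) =O[atTop] fun n => t n ^ T := by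
  have hd0 : g.natDegree ≠ 0 := by omega
  have h1 : As atTop t T (fun n => (PowerSeries.trunc T p).eval (t n)) p :=
    (as_poly ht (PowerSeries.trunc T p)).of_trunc fun k hk => by
      rw [Polynomial.coeff_coe, PowerSeries.coeff_trunc, if_pos hk]
  have h2 : As atTop t T (fun n => ∑ j ∈ Finset.range (g.natDegree + 1),
      g.coeff j * t n ^ (g.natDegree - j) * (PowerSeries.trunc T p).eval (t n) ^ j)
      (ex g.natDegree p) := by
    rw [← show _ = ex g.natDegree p from hB]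
    exact as_sum _ fun j _ =>
      ((as_const ht _).mul ht ((as_id ht).pow ht _)).mul ht (h1.pow ht j)
  have h3 : As atTop t T (fun n => (PowerSeries.trunc T p).eval (t n ^ g.natDegree))
      (ex g.natDegree p) := by
    have := (as_poly (T := T) ht
      (Polynomial.expand ℂ g.natDegree (PowerSeries.trunc T p))).of_trunc
      (π' := ex g.natDegree p) fun k hk => by
        rw [Polynomial.coeff_coe, Polynomial.coeff_expand (Nat.pos_of_ne_zero hd0), ex_eq hd0,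
          PowerSeries.coeff_expand]
        split_ifs with h
        · rw [PowerSeries.coeff_trunc, if_pos (lt_of_le_of_lt (Nat.div_le_self _ _) hk)]
        · rfl
    exact this.congr (Eventually.of_forall fun n => by rw [expand_eval])
  have := IsBigO.sub h2 h3
  refine this.congr_left fun n => ?_
  ring

theorem dsb3_lim {g : ℂ[X]} (hm : g.Monic) {t w y : ℕ → ℂ} (ht : Tendsto t atTop (𝓝 0))
    (hw : Tendsto w atTop (𝓝 1)) (hy : Tendsto y atTop (𝓝 1)) :
    Tendsto (fun n => ∑ j ∈ Finset.range (g.natDegree + 1), g.coeff j * t n ^ (g.natDegree - j) *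
      ∑ i ∈ Finset.range j, w n ^ i * y n ^ (j - 1 - i)) atTop (𝓝 (g.natDegree : ℂ)) := by
  have h : Tendsto (fun n => ∑ j ∈ Finset.range (g.natDegree + 1),
      g.coeff j * t n ^ (g.natDegree - j) * ∑ i ∈ Finset.range j, w n ^ i * y n ^ (j - 1 - i))
      atTop (𝓝 (∑ j ∈ Finset.range (g.natDegree + 1), g.coeff j * (0 : ℂ) ^ (g.natDegree - j) *
        ∑ i ∈ Finset.range j, (1 : ℂ) ^ i * (1 : ℂ) ^ (j - 1 - i))) :=
    tendsto_finsetSum _ fun j _ => ((ht.pow _).const_mul _).mul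
      (tendsto_finsetSum _ fun i _ => (hw.pow _).mul (hy.pow _))
  have e : ∑ j ∈ Finset.range (g.natDegree + 1), g.coeff j * (0 : ℂ) ^ (g.natDegree - j) *
      ∑ i ∈ Finset.range j, (1 : ℂ) ^ i * (1 : ℂ) ^ (j - 1 - i) = (g.natDegree : ℂ) := by
    rw [Finset.sum_range_succ, Finset.sum_eq_zero]
    · simp [hm.coeff_natDegree]
    · intro j hj
      rw [zero_pow (by have := Finset.mem_range.1 hj; omega)]; simp
  rwa [e] at h

theorem boot {g : ℂ[X]} (hm : g.Monic) (hd : 2 ≤ g.natDegree) {p : PowerSeries ℂ}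
    (h0 : PowerSeries.constantCoeff p = 1) (hB : Bott g p) {z : ℕ → ℂ}
    (hs : ∀ n, z (n + 1) = g.eval (z n)) {u : ℂ} (hu : 1 < ‖u‖)
    (hl : Tendsto (fun n => z n * (u ^ g.natDegree ^ n)⁻¹) atTop (𝓝 1)) (T : ℕ) :
    As atTop (fun n => (u ^ g.natDegree ^ n)⁻¹) T (fun n => z n * (u ^ g.natDegree ^ n)⁻¹) p := by
  rcases Nat.eq_zero_or_pos T with rfl | hT
  · unfold As
    simpa using hl.isBigO_one ℂ
  set t : ℕ → ℂ := fun n => (u ^ g.natDegree ^ n)⁻¹ with ht_def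
  have hu1 : ‖u⁻¹‖ < 1 := by rw [norm_inv]; exact inv_lt_one_of_one_lt₀ hu
  have ht0 : Tendsto t atTop (𝓝 0) :=
    (tend_ppC hu1 hd).congr fun n => by simp [ht_def]
  have ht1 : ∀ n, ‖t n‖ ≤ 1 := fun n => by
    simp only [ht_def, norm_inv, norm_pow]
    exact inv_le_one_of_one_le₀ (one_le_pow₀ hu.le)
  have hts : ∀ n, t (n + 1) = t n ^ g.natDegree := fun n => by
    simp only [ht_def, pow_succ, pow_mul, inv_pow]
  set w : ℕ → ℂ := fun n => z n * t n with hw_def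
  set y : ℕ → ℂ := fun n => (PowerSeries.trunc T p).eval (t n) with hy_def
  have hw : Tendsto w atTop (𝓝 1) := hl
  have hy : Tendsto y atTop (𝓝 1) := by
    have h1 := ((PowerSeries.trunc T p).continuous.tendsto 0).comp ht0
    have h2 : (PowerSeries.trunc T p).eval 0 = 1 := by
      rw [← coeff_zero_eq_eval_zero, PowerSeries.coeff_trunc, if_pos hT,
        PowerSeries.coeff_zero_eq_constantCoeff_apply, h0]
    rw [h2] at h1
    exact h1
  obtain ⟨C, hC0, hC⟩ := (dsb3_err hd hB (Eventually.of_forall ht1) T).exists_nonneg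
  have hC' := hC.bound
  have hH := (dsb3_lim hm ht0 hw hy).norm
  have hH' := hH.eventually (lt_mem_nhds (show (3 / 2 : ℝ) < ‖(g.natDegree : ℂ)‖ by
    rw [Complex.norm_natCast]
    have : (2 : ℝ) ≤ g.natDegree := by exact_mod_cast hd
    linarith))
  have hD : Tendsto (fun n => ‖w n - y n‖) atTop (𝓝 0) := by
    simpa using (hw.sub hy).norm
  have hD' := hD.eventually (gt_mem_nhds (show (0 : ℝ) < 1 by norm_num))
  obtain ⟨n0, hn0⟩ := eventually_atTop.1 (hC'.and (hH'.and hD'))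
  refine IsBigO.of_bound (2 * C) (eventually_atTop.2 ⟨n0, fun n hn => ?_⟩)
  have key := dsb3_iter (a := fun n => ‖w n - y n‖) (b := fun n => C * ‖t n ^ T‖) (M := 1)
    (n0 := n0) (fun n hn => (hn0 n hn).2.2.le) (fun n => by positivity) (fun n => ?_)
    (fun n hn => ?_) hn
  · rw [mul_assoc]; exact key
  · refine mul_le_mul_of_nonneg_left ?_ hC0
    rw [norm_pow, norm_pow, hts, norm_pow]
    exact pow_le_pow_left₀ (by positivity)
      (pow_le_of_le_one (norm_nonneg _) (ht1 n) (by omega)) T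
  · obtain ⟨h1, h2, -⟩ := hn0 n hn
    have e1 : w (n + 1) = ∑ j ∈ Finset.range (g.natDegree + 1),
        g.coeff j * t n ^ (g.natDegree - j) * w n ^ j := by
      simp only [hw_def]
      rw [hs, hts, dsb3_step]
    have e2 : (∑ j ∈ Finset.range (g.natDegree + 1), g.coeff j * t n ^ (g.natDegree - j) *
        ∑ i ∈ Finset.range j, w n ^ i * y n ^ (j - 1 - i)) * (w n - y n) =
        (w (n + 1) - y (n + 1)) - (∑ j ∈ Finset.range (g.natDegree + 1),
          g.coeff j * t n ^ (g.natDegree - j) * y n ^ j - y (n + 1)) := by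
      rw [e1, sub_sub_sub_cancel_right, ← Finset.sum_sub_distrib, Finset.sum_mul]
      refine Finset.sum_congr rfl fun j _ => ?_
      rw [mul_assoc, (Commute.all (w n) (y n)).geom_sum₂_mul, mul_sub]
    have e3 : y (n + 1) = (PowerSeries.trunc T p).eval (t n ^ g.natDegree) := by
      simp only [hy_def]; rw [hts]
    have h3 := norm_sub_le (w (n + 1) - y (n + 1)) (∑ j ∈ Finset.range (g.natDegree + 1),
      g.coeff j * t n ^ (g.natDegree - j) * y n ^ j - y (n + 1))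
    rw [← e2, norm_mul] at h3
    have h4 : ‖∑ j ∈ Finset.range (g.natDegree + 1),
        g.coeff j * t n ^ (g.natDegree - j) * y n ^ j - y (n + 1)‖ ≤ C * ‖t n ^ T‖ := by
      rw [e3]; exact h1
    have h5 := mul_le_mul_of_nonneg_right h2.le (norm_nonneg (w n - y n))
    show 3 / 2 * ‖w n - y n‖ ≤ ‖w (n + 1) - y (n + 1)‖ + C * ‖t n ^ T‖
    linarith

theorem bl {K : Type*} [Field K] [CharZero K] {f : K[X]} {x : ℕ → K} (h : Orb f x) (σ : K →+* ℂ)
    (hb : ¬ Bdd σ x) : ∃ p u, Bott f p ∧ Esc σ f.natDegree x p u := by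
  obtain ⟨ρ, hρ, hev⟩ := h.escape σ hb
  have hz : Tendsto (fun n => ‖σ (x n)‖) atTop atTop :=
    tendsto_atTop_mono' _ hev (tend_pp_top hρ h.deg)
  have hdeg : (f.map σ).natDegree = f.natDegree := natDegree_map σ
  have hm : (f.map σ).Monic := h.monic.map σ
  have hd : 2 ≤ (f.map σ).natDegree := hdeg ▸ h.deg
  have hs : ∀ n, σ (x (n + 1)) = (f.map σ).eval (σ (x n)) := fun n => by
    rw [h.step, eval_map, eval₂_at_apply]
  obtain ⟨u, hu, hl⟩ := exists_u hm hd hs hz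
  obtain ⟨p, hp0, hp⟩ := exists_bott h.monic h.deg
  refine ⟨p, u, hp, hu, hp0, fun T => ?_⟩
  have h0 : PowerSeries.constantCoeff (PowerSeries.map σ p) = 1 := by
    rw [← PowerSeries.coeff_zero_eq_constantCoeff_apply, PowerSeries.coeff_map,
      PowerSeries.coeff_zero_eq_constantCoeff_apply, hp0, map_one]
  have := boot hm hd h0 (hp.map σ (by have := h.deg; omega)) hs hu hl T
  rwa [hdeg] at this

end Pool.Agent.P.MP_68214b_ag.DS
end

-- part Pool.Agent.P.MP_68214b_ag.DSX4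
section

open Polynomial Filter Asymptotics NumberField Topology

namespace Pool.Agent.P.MP_68214b_ag.DS

theorem dsx4_pow {M : ℝ} (hM : 1 ≤ M) {u v : ℂ} (hu : ‖u‖ ≤ M) (hv : ‖v‖ ≤ M) (n : ℕ) :
    ‖u ^ n - v ^ n‖ ≤ n * M ^ n * ‖u - v‖ := by
  have h0 : 0 ≤ M := by linarith
  induction n with
  | zero => simp
  | succ n ih =>
    have e : u ^ (n + 1) - v ^ (n + 1) = u * (u ^ n - v ^ n) + (u - v) * v ^ n := by ring
    have h1 : ‖u * (u ^ n - v ^ n)‖ ≤ M * (n * M ^ n * ‖u - v‖) := by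
      rw [norm_mul]; exact mul_le_mul hu ih (norm_nonneg _) h0
    have h2 : ‖(u - v) * v ^ n‖ ≤ ‖u - v‖ * M ^ (n + 1) := by
      rw [norm_mul, norm_pow]
      exact mul_le_mul_of_nonneg_left ((pow_le_pow_left₀ (norm_nonneg _) hv n).trans
        (pow_le_pow_right₀ hM n.le_succ)) (norm_nonneg _)
    rw [e]
    refine (norm_add_le _ _).trans ((add_le_add h1 h2).trans (le_of_eq ?_))
    push_cast
    ring

theorem dsx4_term (C0 B : ℝ) (D1 D2 : ℕ) : ∃ C1 : ℝ, 1 ≤ C1 ∧ ∀ i ≤ D1, ∀ j ≤ D2, ∀ (k : ℕ)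
    (τ x y γ : ℂ), ‖τ‖ ≤ 1 → ‖γ‖ ≤ B → ‖x - 1‖ ≤ C0 * ‖τ‖ → ‖y - γ‖ ≤ C0 * ‖τ‖ →
      ‖(if k = 0 then γ ^ j else 0) - x ^ i * y ^ j * τ ^ k‖ ≤ C1 * ‖τ‖ := by
  obtain ⟨M, hM, hC⟩ : ∃ M : ℝ, 1 ≤ M ∧ 1 + |C0| + |B| ≤ M :=
    ⟨_, by linarith [abs_nonneg C0, abs_nonneg B], le_rfl⟩
  have b0 := abs_nonneg B
  have b1 := le_abs_self B
  have b2 := abs_nonneg C0
  have h0 : 0 ≤ M := by linarith
  have p1 : 1 ≤ M ^ D1 := one_le_pow₀ hM
  have p2 : 1 ≤ M ^ D2 := one_le_pow₀ hM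
  have p3 : 1 ≤ M ^ D1 * M ^ D2 := one_le_mul_of_one_le_of_one_le p1 p2
  have p4 : (0 : ℝ) ≤ (D1 + D2) * M := by positivity
  refine ⟨M ^ D1 * M ^ D2 * (1 + (D1 + D2) * M), by nlinarith, ?_⟩
  intro i hi j hj k τ x y γ hτ hγ hx hy
  have ht := norm_nonneg τ
  have a1 : C0 * ‖τ‖ ≤ |C0| * ‖τ‖ := mul_le_mul_of_nonneg_right (le_abs_self _) ht
  have a2 : |C0| * ‖τ‖ ≤ |C0| := mul_le_of_le_one_right (abs_nonneg _) hτ
  have a3 : |C0| * ‖τ‖ ≤ M * ‖τ‖ := mul_le_mul_of_nonneg_right (by linarith) ht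
  have bx : ‖x‖ ≤ M := by
    have := norm_add_le (x - 1) 1
    rw [sub_add_cancel, norm_one] at this
    linarith
  have by' : ‖y‖ ≤ M := by
    have := norm_add_le (y - γ) γ
    rw [sub_add_cancel] at this
    linarith
  have qi : M ^ i ≤ M ^ D1 := pow_le_pow_right₀ hM hi
  have qj : M ^ j ≤ M ^ D2 := pow_le_pow_right₀ hM hj
  have ri : ‖x ^ i‖ ≤ M ^ D1 := by
    rw [norm_pow]; exact (pow_le_pow_left₀ (norm_nonneg _) bx i).trans qi
  have rj : ‖y ^ j‖ ≤ M ^ D2 := by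
    rw [norm_pow]; exact (pow_le_pow_left₀ (norm_nonneg _) by' j).trans qj
  split_ifs with hk
  · subst hk
    have e : γ ^ j - x ^ i * y ^ j * τ ^ 0 = -((y ^ j - γ ^ j) + (x ^ i - 1 ^ i) * y ^ j) := by
      ring
    have h1 : ‖y ^ j - γ ^ j‖ ≤ D2 * (M ^ D1 * M ^ D2) * (M * ‖τ‖) :=
      (dsx4_pow hM by' (by linarith) j).trans (mul_le_mul (mul_le_mul (Nat.cast_le.2 hj)
        (qj.trans (le_mul_of_one_le_left (by positivity) p1)) (by positivity) (by positivity))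
        (by linarith) (norm_nonneg _) (by positivity))
    have h2 : ‖x ^ i - 1 ^ i‖ ≤ D1 * M ^ D1 * (M * ‖τ‖) :=
      (dsx4_pow hM bx (norm_one.le.trans hM) i).trans (mul_le_mul (mul_le_mul (Nat.cast_le.2 hi)
        qi (by positivity) (by positivity)) (by linarith) (norm_nonneg _) (by positivity))
    have h3 : ‖(x ^ i - 1 ^ i) * y ^ j‖ ≤ D1 * M ^ D1 * (M * ‖τ‖) * M ^ D2 := by
      rw [norm_mul]; exact mul_le_mul h2 rj (norm_nonneg _) (by positivity)
    rw [e, norm_neg]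
    refine (norm_add_le _ _).trans ((add_le_add h1 h3).trans ?_)
    have : 0 ≤ M ^ D1 * M ^ D2 * ‖τ‖ := by positivity
    linarith
  · obtain ⟨k, rfl⟩ := Nat.exists_eq_succ_of_ne_zero hk
    have h1 : ‖τ ^ (k + 1)‖ ≤ ‖τ‖ := by
      rw [norm_pow, pow_succ]
      exact mul_le_of_le_one_left ht (pow_le_one₀ ht hτ)
    rw [zero_sub, norm_neg, norm_mul, norm_mul]
    refine (mul_le_mul (mul_le_mul ri rj (norm_nonneg _) (by positivity)) h1 (norm_nonneg _)
      (by positivity)).trans ?_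
    have : 0 ≤ M ^ D1 * M ^ D2 * ((D1 + D2) * M) * ‖τ‖ := by positivity
    linarith

theorem top' {R : Type*} [CommRing R] (ν : Sn R) (σ : R →+* ℂ) (hσ : ∀ z, ‖σ z‖ ≤ ν.f z) (a : ℕ)
    {b : ℕ} (hb : 0 < b) (C0 B : ℝ) (D1 D2 : ℕ) : ∃ C1 : ℝ, 1 ≤ C1 ∧ ∀ G : R[X][X], G ≠ 0 →
      Bd G D1 D2 → ∃ g : R[X], g ≠ 0 ∧ g.natDegree ≤ G.natDegree ∧ ν.l1.f g ≤ ν.l2.f G ∧
        ∀ τ x y γ : ℂ, ‖τ‖ ≤ 1 → ‖γ‖ ≤ B → ‖x * τ ^ b - 1‖ ≤ C0 * ‖τ‖ → ‖y * τ ^ a - γ‖ ≤ C0 * ‖τ‖ →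
          ev2 σ x y G = 0 → ‖g.eval₂ σ γ‖ ≤ C1 * ν.l2.f G * ‖τ‖ := by
  obtain ⟨C1, hC1, hT⟩ := dsx4_term C0 B D1 D2
  refine ⟨C1, hC1, fun G hG hB => ?_⟩
  obtain ⟨⟨j0, i0⟩, h0, hmax⟩ := (G.support.sigma fun j => (G.coeff j).support).exists_max_image
    (fun q => b * q.2 + a * q.1) (by
      obtain ⟨j, hj⟩ := support_nonempty.2 hG
      obtain ⟨i, hi⟩ := support_nonempty.2 (mem_support_iff.1 hj)
      exact ⟨⟨j, i⟩, Finset.mem_sigma.2 ⟨hj, hi⟩⟩)
  obtain ⟨hj0, hi0⟩ := Finset.mem_sigma.1 h0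
  set w := b * i0 + a * j0 with hw
  have hl : ν.l2.f G = ∑ j ∈ G.support, ∑ i ∈ (G.coeff j).support, ν.f ((G.coeff j).coeff i) := rfl
  refine ⟨∑ j ∈ G.support, monomial j (∑ i ∈ (G.coeff j).support,
    if b * i + a * j = w then (G.coeff j).coeff i else 0), fun h => ?_, ?_, ?_, ?_⟩
  · have h1 := congrArg (coeff · j0) h
    simp only [finsetSum_coeff, coeff_monomial, Finset.sum_ite_eq', coeff_zero] at h1
    rw [if_pos hj0, Finset.sum_eq_single i0, if_pos rfl] at h1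
    · exact mem_support_iff.1 hi0 h1
    · intro i _ hi
      exact if_neg fun e => hi (Nat.eq_of_mul_eq_mul_left hb (Nat.add_right_cancel e))
    · exact fun h => absurd hi0 h
  · exact natDegree_sum_le_of_forall_le _ _ fun j hj =>
      (natDegree_monomial_le _).trans (le_natDegree_of_mem_supp j hj)
  · rw [hl]
    refine (ν.l1.sum_le _ _).trans (Finset.sum_le_sum fun j _ => ?_)
    rw [ν.l1_monomial]
    refine (ν.sum_le _ _).trans (Finset.sum_le_sum fun i _ => ?_)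
    split_ifs
    · exact le_rfl
    · rw [ν.zero]; exact ν.nonneg _
  · intro τ x y γ hτ hγ hx hy hz
    have e1 : ev2 σ x y G = ∑ j ∈ G.support, ∑ i ∈ (G.coeff j).support,
        σ ((G.coeff j).coeff i) * x ^ i * y ^ j := by
      simp only [coe_eval₂RingHom, eval₂_eq_sum, sum_def, Finset.sum_mul]
    have e2 : ∑ j ∈ G.support, ∑ i ∈ (G.coeff j).support, σ ((G.coeff j).coeff i) *
        ((x * τ ^ b) ^ i * (y * τ ^ a) ^ j * τ ^ (w - (b * i + a * j))) = 0 := by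
      rw [← mul_zero (τ ^ w), ← hz, e1, Finset.mul_sum]
      refine Finset.sum_congr rfl fun j hj => ?_
      rw [Finset.mul_sum]
      refine Finset.sum_congr rfl fun i hi => ?_
      obtain ⟨k, hk⟩ := Nat.exists_eq_add_of_le (hmax ⟨j, i⟩ (Finset.mem_sigma.2 ⟨hj, hi⟩))
      have hk' : w = b * i + a * j + k := hk
      rw [hk', Nat.add_sub_cancel_left]
      ring
    rw [← sub_zero (eval₂ _ _ _), ← e2, eval₂_finsetSum, ← Finset.sum_sub_distrib, hl,
      Finset.mul_sum, Finset.sum_mul]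
    refine norm_sum_le_of_le _ fun j hj => ?_
    rw [eval₂_monomial, map_sum, Finset.sum_mul, ← Finset.sum_sub_distrib, Finset.mul_sum,
      Finset.sum_mul]
    refine norm_sum_le_of_le _ fun i hi => ?_
    have h1 := hT i ((le_natDegree_of_mem_supp i hi).trans (hB.1 j)) j
      ((le_natDegree_of_mem_supp j hj).trans hB.2) (w - (b * i + a * j)) τ _ _ γ hτ hγ hx hy
    have h2 : b * i + a * j ≤ w := hmax ⟨j, i⟩ (Finset.mem_sigma.2 ⟨hj, hi⟩)
    have e3 : σ (if b * i + a * j = w then (G.coeff j).coeff i else 0) * γ ^ j =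
        σ ((G.coeff j).coeff i) * if w - (b * i + a * j) = 0 then γ ^ j else 0 := by
      by_cases h : b * i + a * j = w
      · rw [if_pos h, if_pos (by omega)]
      · rw [if_neg h, if_neg (by omega), map_zero, zero_mul, mul_zero]
    rw [e3, ← mul_sub, norm_mul]
    exact (mul_le_mul (hσ _) h1 (norm_nonneg _) (ν.nonneg _)).trans (le_of_eq (by ring))

theorem top {R : Type*} [CommRing R] (ν : Sn R) (σ : R →+* ℂ) (hσ : ∀ z, ‖σ z‖ ≤ ν.f z) {a b : ℕ}
    (_ha : 0 < a) (hb : 0 < b) (C0 : ℝ) (D1 D2 : ℕ) : ∃ C1 : ℝ, 1 ≤ C1 ∧ ∀ G : R[X][X], G ≠ 0 →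
      Bd G D1 D2 → ∃ g : R[X], g ≠ 0 ∧ g.natDegree ≤ G.natDegree ∧ ν.l1.f g ≤ ν.l2.f G ∧
        ∀ τ x y γ : ℂ, ‖τ‖ ≤ 1 → ‖γ‖ = 1 → ‖x * τ ^ b - 1‖ ≤ C0 * ‖τ‖ → ‖y * τ ^ a - γ‖ ≤ C0 * ‖τ‖ →
          ev2 σ x y G = 0 → ‖g.eval₂ σ γ‖ ≤ C1 * ν.l2.f G * ‖τ‖ := by
  obtain ⟨C1, h1, h⟩ := top' ν σ hσ a hb C0 1 D1 D2
  refine ⟨C1, h1, fun G hG hB => ?_⟩
  obtain ⟨g, g1, g2, g3, g4⟩ := h G hG hB
  exact ⟨g, g1, g2, g3, fun τ x y γ a1 a2 => g4 τ x y γ a1 a2.le⟩

end Pool.Agent.P.MP_68214b_ag.DS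
end

-- part Pool.Agent.P.MP_68214b_ag.DSN2
section

open Polynomial Filter Asymptotics NumberField Topology

namespace Pool.Agent.P.MP_68214b_ag.DS

variable {R S : Type*} [CommRing R] [CommRing S]

theorem coeff_dX (W : R[X][X]) (j : ℕ) : (dX W).coeff j = derivative (W.coeff j) := by
  unfold dX
  rw [sum_def, finsetSum_coeff, Finset.sum_eq_single j]
  · simp
  · intro i _ hi
    rw [coeff_monomial, if_neg hi]
  · intro hj
    rw [notMem_support_iff.1 hj]
    simp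

theorem isDer_dX : IsDer (dX : R[X][X] → R[X][X]) := by
  refine ⟨fun a b => ?_, fun a b => ?_⟩
  · ext1 j
    rw [coeff_add, coeff_dX, coeff_dX, coeff_dX, coeff_add, derivative_add]
  · ext1 j
    rw [coeff_add, coeff_dX, coeff_mul, coeff_mul, coeff_mul, derivative_sum,
      ← Finset.sum_add_distrib]
    refine Finset.sum_congr rfl fun x _ => ?_
    rw [coeff_dX, coeff_dX, derivative_mul, add_comm]

theorem isDer_der (g h : R[X][X]) : IsDer (der g h) := by
  refine ⟨fun a b => ?_, fun a b => ?_⟩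
  · unfold der
    rw [isDer_dX.add, derivative_add]
    ring
  · unfold der
    rw [isDer_dX.mul, derivative_mul]
    ring

theorem der_CC (g h : R[X][X]) (c : R) : der g h (C (C c)) = 0 := by
  have : dX (C (C c) : R[X][X]) = 0 := by
    ext1 j
    rw [coeff_dX, coeff_C]
    split_ifs <;> simp
  unfold der
  rw [this, derivative_C]
  ring

theorem map2_dX (φ : R →+* S) (W : R[X][X]) : map2 φ (dX W) = dX (map2 φ W) := by
  ext1 j
  simp only [coe_mapRingHom, coeff_map, coeff_dX, derivative_map]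

theorem map2_derivative (φ : R →+* S) (W : R[X][X]) :
    map2 φ (derivative W) = derivative (map2 φ W) := by
  simp only [coe_mapRingHom, derivative_map]

theorem map2_der (φ : R →+* S) (g h W : R[X][X]) :
    map2 φ (der g h W) = der (map2 φ g) (map2 φ h) (map2 φ W) := by
  unfold der
  rw [map_add, map_mul, map_mul, map2_dX, map2_derivative]

theorem map_hasse (φ : R →+* S) (j : ℕ) (p : R[X]) :
    (hasseDeriv j p).map φ = hasseDeriv j (p.map φ) := by
  ext k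
  simp only [coeff_map, hasseDeriv_coeff, map_mul, map_natCast]

theorem hasse_cmb {ι : Type*} [Fintype ι] (φ : R →+* S) (P : ι → R[X][X]) (c : ι → S) (j : ℕ) :
    hasseDeriv j (cmb φ P c) = cmb φ (fun k => hasseDeriv j (P k)) c := by
  unfold cmb
  rw [map_sum]
  refine Finset.sum_congr rfl fun k _ => ?_
  rw [C_mul', C_mul', map_smul, coe_mapRingHom, map_hasse]

theorem tc_map (φ : R →+* S) (y1 y2 : R) (W : R[X][X]) (i j : ℕ) :
    φ (tc y1 y2 W i j) = tc (φ y1) (φ y2) (map2 φ W) i j := by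
  unfold tc
  rw [← coeff_map, map_taylor, ← coe_mapRingHom φ, ← coeff_map, map_taylor]
  simp

theorem wr_map (φ : R →+* S) {δ : R → R} {δ' : S → S} (h : ∀ a, φ (δ a) = δ' (φ a)) {n : ℕ}
    (a : Fin n → R) : φ (wr δ a) = wr δ' fun i => φ (a i) := by
  have hk : ∀ (k : ℕ) (x : R), φ (δ^[k] x) = δ'^[k] (φ x) := fun k => by
    induction k with
    | zero => intro x; rfl
    | succ k ih => intro x; rw [Function.iterate_succ_apply, Function.iterate_succ_apply, ih, h]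
  unfold wr
  rw [RingHom.map_det]
  congr 1
  ext j i
  simp [hk]

namespace Sn
variable (ν : Sn R)

theorem l1_derivative {p : R[X]} {D : ℕ} (hD : p.natDegree ≤ D) :
    ν.l1.f (derivative p) ≤ D * ν.l1.f p := by
  have e : derivative p = ∑ i ∈ p.support, monomial (i - 1) (p.coeff i * i) := by
    rw [derivative_apply, sum_def]
    exact Finset.sum_congr rfl fun i _ => C_mul_X_pow_eq_monomial
  rw [e, ν.l1_eq p subset_rfl, Finset.mul_sum]
  refine (ν.l1.sum_le _ _).trans (Finset.sum_le_sum fun i hi => ?_)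
  rw [ν.l1_monomial, mul_comm (D : ℝ)]
  refine (ν.mul _ _).trans (mul_le_mul_of_nonneg_left ((ν.natCast_le i).trans ?_) (ν.nonneg _))
  exact_mod_cast (le_natDegree_of_mem_supp i hi).trans hD

theorem l1_hasse {p : R[X]} {D : ℕ} (hD : p.natDegree ≤ D) (j : ℕ) :
    ν.l1.f (hasseDeriv j p) ≤ 2 ^ D * ν.l1.f p := by
  rw [hasseDeriv_apply, sum_def, ν.l1_eq p subset_rfl, Finset.mul_sum]
  refine (ν.l1.sum_le _ _).trans (Finset.sum_le_sum fun i hi => ?_)
  rw [ν.l1_monomial]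
  refine (ν.mul _ _).trans (mul_le_mul_of_nonneg_right ((ν.natCast_le _).trans ?_) (ν.nonneg _))
  have h1 : i.choose j ≤ 2 ^ D := (Nat.choose_le_two_pow i j).trans
    (Nat.pow_le_pow_right (by norm_num) ((le_natDegree_of_mem_supp i hi).trans hD))
  exact_mod_cast h1

theorem l1_taylor {p : R[X]} {D : ℕ} (hD : p.natDegree ≤ D) (y : R) :
    ν.l1.f (taylor y p) ≤ ν.l1.f p * (1 + ν.f y) ^ D := by
  have h0 := ν.nonneg y
  rw [taylor_apply, comp]
  refine ν.eval₂_le ν.l1 C (fun a => (ν.l1_C a).le) (by linarith) ?_ hD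
  refine (ν.l1.add _ _).trans ?_
  rw [ν.l1_C]
  have := ν.l1_X
  linarith

theorem l2_dX {W : R[X][X]} {D1 D2 : ℕ} (hW : Bd W D1 D2) : ν.l2.f (dX W) ≤ D1 * ν.l2.f W := by
  have hs : (dX W).support ⊆ W.support := fun j hj => by
    rw [mem_support_iff] at hj ⊢
    intro h0
    rw [coeff_dX, h0, derivative_zero] at hj
    exact hj rfl
  rw [ν.l1.l1_eq _ hs, ν.l1.l1_eq W subset_rfl, Finset.mul_sum]
  refine Finset.sum_le_sum fun j _ => ?_
  rw [coeff_dX]
  exact ν.l1_derivative (hW.1 j)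

theorem tc_le {W : R[X][X]} {D1 D2 : ℕ} (hW : Bd W D1 D2) {y1 y2 : R} {t : ℝ} (ht : 1 ≤ t)
    (h1 : ν.f y1 ≤ t) (h2 : ν.f y2 ≤ t) (i j : ℕ) :
    ν.f (tc y1 y2 W i j) ≤ ν.l2.f W * (2 * t) ^ (D1 + D2) := by
  have hd : ((taylor (C y2) W).coeff j).natDegree ≤ D1 := by
    rw [taylor_coeff, eval_eq_sum, sum_def]
    refine natDegree_sum_le_of_forall_le _ _ fun k _ => ?_
    rw [hasseDeriv_coeff, ← C_pow, ← C_eq_natCast]
    exact (natDegree_mul_C_le _ _).trans ((natDegree_C_mul_le _ _).trans (hW.1 _))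
  have g1 := ν.nonneg y1
  have g2 := ν.nonneg y2
  have b1 : ν.l1.f ((taylor (C y2) W).coeff j) ≤ ν.l2.f W * (2 * t) ^ D2 := by
    refine (ν.l1.coeff_le _ _).trans ((ν.l1.l1_taylor hW.2 (C y2)).trans ?_)
    rw [ν.l1_C]
    exact mul_le_mul_of_nonneg_left (pow_le_pow_left₀ (by linarith) (by linarith) _)
      (ν.l2.nonneg _)
  refine (ν.coeff_le _ _).trans ((ν.l1_taylor hd y1).trans ?_)
  rw [add_comm D1, pow_add, ← mul_assoc]
  exact mul_le_mul b1 (pow_le_pow_left₀ (by linarith) (by linarith) _) (by positivity)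
    ((ν.l1.nonneg _).trans b1)

theorem l2_cmb (ν' : Sn S) {ι : Type*} [Fintype ι] (φ : R →+* S) (h : ∀ a, ν'.f (φ a) ≤ ν.f a)
    (P : ι → R[X][X]) (c : ι → S) {H B : ℝ} (hP : ∀ k, ν.l2.f (P k) ≤ H) (hc : ∀ k, ν'.f (c k) ≤ B) :
    ν'.l2.f (cmb φ P c) ≤ Fintype.card ι * (B * H) := by
  unfold cmb
  refine (ν'.l2.sum_le _ _).trans ((Finset.sum_le_card_nsmul _ _ (B * H) fun k _ => ?_).trans
    (le_of_eq (by rw [nsmul_eq_mul, Finset.card_univ])))
  refine (ν'.l2.mul _ _).trans (mul_le_mul ?_ ((ν.l2_map ν' φ h _).trans (hP k)) (ν'.l2.nonneg _)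
    ((ν'.nonneg _).trans (hc k)))
  rw [ν'.l1.l1_C, ν'.l1_C]
  exact hc k

end Sn

end Pool.Agent.P.MP_68214b_ag.DS
end

-- part Pool.Agent.P.MP_68214b_ag.DSN3
section

open Polynomial Filter Asymptotics NumberField Topology

namespace Pool.Agent.P.MP_68214b_ag.DS

variable {R S : Type*} [CommRing R] [CommRing S]

theorem Bd.mono {W : R[X][X]} {a b a' b' : ℕ} (h : Bd W a b) (h1 : a ≤ a') (h2 : b ≤ b') :
    Bd W a' b' := ⟨fun j => (h.1 j).trans h1, h.2.trans h2⟩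

theorem exists_bd (W : R[X][X]) : ∃ D, Bd W D D := by
  refine ⟨W.natDegree + W.support.sup fun j => (W.coeff j).natDegree, fun j => ?_,
    Nat.le_add_right _ _⟩
  by_cases hj : j ∈ W.support
  · exact (Finset.le_sup (f := fun j => (W.coeff j).natDegree) hj).trans (Nat.le_add_left _ _)
  · rw [notMem_support_iff.1 hj]; simp

theorem bd_CC (c : R) : Bd (C (C c) : R[X][X]) 0 0 := by
  refine ⟨fun j => ?_, by simp⟩
  rw [coeff_C]
  split_ifs <;> simp

theorem dsn3_zero (a b : ℕ) : Bd (0 : R[X][X]) a b := ⟨fun j => by simp, by simp⟩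

theorem Bd.add {W V : R[X][X]} {a b : ℕ} (h : Bd W a b) (h' : Bd V a b) : Bd (W + V) a b :=
  ⟨fun j => by rw [coeff_add]; exact natDegree_add_le_of_degree_le (h.1 j) (h'.1 j),
    natDegree_add_le_of_degree_le h.2 h'.2⟩

theorem Bd.neg {W : R[X][X]} {a b : ℕ} (h : Bd W a b) : Bd (-W) a b :=
  ⟨fun j => by rw [coeff_neg, natDegree_neg]; exact h.1 j, by rw [natDegree_neg]; exact h.2⟩

theorem Bd.mul {W V : R[X][X]} {a b a' b' : ℕ} (h : Bd W a b) (h' : Bd V a' b') :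
    Bd (W * V) (a + a') (b + b') := by
  refine ⟨fun j => ?_, natDegree_mul_le.trans (add_le_add h.2 h'.2)⟩
  rw [coeff_mul]
  exact natDegree_sum_le_of_forall_le _ _ fun x _ =>
    natDegree_mul_le.trans (add_le_add (h.1 _) (h'.1 _))

theorem bd_sum {ι : Type*} (s : Finset ι) {g : ι → R[X][X]} {a b : ℕ} (h : ∀ i ∈ s, Bd (g i) a b) :
    Bd (∑ i ∈ s, g i) a b :=
  Finset.sum_induction g (fun W => Bd W a b) (fun _ _ => Bd.add) (dsn3_zero a b) h

theorem Bd.map2 (φ : R →+* S) {W : R[X][X]} {a b : ℕ} (h : Bd W a b) : Bd (map2 φ W) a b := by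
  refine ⟨fun j => ?_, natDegree_map_le.trans h.2⟩
  rw [coe_mapRingHom, coeff_map]
  exact natDegree_map_le.trans (h.1 j)

theorem bd_cmb {ι : Type*} [Fintype ι] (φ : R →+* S) {P : ι → R[X][X]} (c : ι → S) {a b : ℕ}
    (h : ∀ k, Bd (P k) a b) : Bd (cmb φ P c) a b :=
  bd_sum _ fun k _ => ((bd_CC (c k)).mul ((h k).map2 φ)).mono (by omega) (by omega)

theorem Bd.dX {W : R[X][X]} {a b : ℕ} (h : Bd W a b) : Bd (dX W) a b := by
  refine ⟨fun j => ?_, ?_⟩
  · rw [coeff_dX]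
    exact (natDegree_derivative_le _).trans ((Nat.sub_le _ _).trans (h.1 j))
  · rw [natDegree_le_iff_coeff_eq_zero]
    intro N hN
    rw [coeff_dX, coeff_eq_zero_of_natDegree_lt (h.2.trans_lt hN), derivative_zero]

theorem Bd.derivative {W : R[X][X]} {a b : ℕ} (h : Bd W a b) : Bd (derivative W) a b := by
  refine ⟨fun j => ?_, (natDegree_derivative_le _).trans ((Nat.sub_le _ _).trans h.2)⟩
  rw [coeff_derivative]
  refine natDegree_mul_le.trans ?_
  have : ((j : R[X]) + 1).natDegree = 0 := by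
    rw [← Nat.cast_succ]; exact natDegree_natCast _
  rw [this]
  exact h.1 _

theorem Bd.hasse {W : R[X][X]} {a b : ℕ} (h : Bd W a b) (j : ℕ) : Bd (hasseDeriv j W) a b := by
  refine ⟨fun k => ?_, (natDegree_hasseDeriv_le _ _).trans ((Nat.sub_le _ _).trans h.2)⟩
  rw [hasseDeriv_coeff]
  refine natDegree_mul_le.trans ?_
  rw [natDegree_natCast, zero_add]
  exact h.1 _

theorem Bd.der {g h W : R[X][X]} {e1 e2 a b : ℕ} (hg : Bd g e1 e2) (hh : Bd h e1 e2)
    (hW : Bd W a b) : Bd (der g h W) (a + e1) (b + e2) :=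
  ((hg.mul hW.dX).add (hh.mul hW.derivative)).mono (by omega) (by omega)

theorem dsn3_prod {ι : Type*} (s : Finset ι) {g : ι → R[X][X]} {a b : ℕ}
    (h : ∀ i ∈ s, Bd (g i) a b) : Bd (∏ i ∈ s, g i) (s.card * a) (s.card * b) := by
  classical
  induction s using Finset.induction_on with
  | empty => simpa using bd_CC (1 : R)
  | insert x s hx ih =>
    rw [Finset.prod_insert hx, Finset.card_insert_of_notMem hx]
    exact ((h x (Finset.mem_insert_self _ _)).mul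
      (ih fun i hi => h i (Finset.mem_insert_of_mem hi))).mono (by ring_nf; rfl) (by ring_nf; rfl)

theorem bd_det {n : ℕ} (M : Matrix (Fin n) (Fin n) R[X][X]) {a b : ℕ} (h : ∀ i j, Bd (M i j) a b) :
    Bd M.det (n * a) (n * b) := by
  rw [Matrix.det_apply]
  refine bd_sum _ fun σ _ => ?_
  have := dsn3_prod Finset.univ (g := fun i => M (σ i) i) fun i _ => h _ _
  rw [Finset.card_univ, Fintype.card_fin] at this
  rcases Int.units_eq_one_or (Equiv.Perm.sign σ) with e | e <;> rw [e]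
  · rwa [one_smul]
  · rw [Units.neg_smul, one_smul]
    exact this.neg

theorem dsn3_swap (W : R[X][X]) (i j : ℕ) :
    ((Bivariate.swap W).coeff i).coeff j = (W.coeff j).coeff i := by
  induction W using Polynomial.induction_on' with
  | add p q hp hq => simp only [map_add, coeff_add, hp, hq]
  | monomial n a =>
    induction a using Polynomial.induction_on' with
    | add p q hp hq => simp only [map_add, coeff_add, hp, hq]
    | monomial m c =>
      rw [Bivariate.swap_monomial_monomial]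
      simp only [coeff_monomial]
      split_ifs <;> simp [coeff_monomial, *]

theorem dsn3_swap_le {W : R[X][X]} {a : ℕ} :
    (Bivariate.swap W).natDegree ≤ a ↔ ∀ j, (W.coeff j).natDegree ≤ a := by
  simp only [natDegree_le_iff_coeff_eq_zero]
  constructor
  · intro h j N hN
    rw [← dsn3_swap, h N hN, coeff_zero]
  · intro h N hN
    ext j
    rw [dsn3_swap, h j N hN, coeff_zero]

theorem bd_of_pow_mul [IsDomain R] {W A V : R[X][X]} {n a b : ℕ} (h : W = A ^ n * V) (hW : W ≠ 0)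
    (hB : Bd W a b) :
    (∀ i j, n * (A.coeff i).natDegree + (V.coeff j).natDegree ≤ a) ∧
      n * A.natDegree + V.natDegree ≤ b := by
  have key : ∀ {W A V : R[X][X]}, W = A ^ n * V → W ≠ 0 →
      n * A.natDegree + V.natDegree = W.natDegree := fun {W A V} h hW => by
    subst h
    rw [natDegree_mul (left_ne_zero_of_mul hW) (right_ne_zero_of_mul hW), natDegree_pow]
  refine ⟨fun i j => ?_, (key h hW).trans_le hB.2⟩
  have h1 := key (W := Bivariate.swap W) (A := Bivariate.swap A) (V := Bivariate.swap V)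
    (by rw [h, map_mul, map_pow]) ((map_ne_zero_iff _ Bivariate.swap.injective).2 hW)
  have h2 := dsn3_swap_le.2 hB.1
  have h3 := dsn3_swap_le.1 (le_refl (Bivariate.swap A).natDegree) i
  have h4 := dsn3_swap_le.1 (le_refl (Bivariate.swap V).natDegree) j
  exact (add_le_add (Nat.mul_le_mul_left n h3) h4).trans (h1.trans_le h2)

theorem wr_bound (ν : Sn R) {g h : R[X][X]} {e1 e2 : ℕ} (hg : Bd g e1 e2) (hh : Bd h e1 e2) {γ : ℝ}
    (hγ : 1 ≤ γ) (hgγ : ν.l2.f g ≤ γ) (hhγ : ν.l2.f h ≤ γ) {n : ℕ} (A : Fin n → R[X][X]) {a b : ℕ}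
    {H : ℝ} (hH : 1 ≤ H) (hA : ∀ i, Bd (A i) a b ∧ ν.l2.f (A i) ≤ H) :
    Bd (wr (der g h) A) (n * (a + n * e1)) (n * (b + n * e2)) ∧
      ν.l2.f (wr (der g h) A) ≤ (n * (γ * ((a + b + n * (e1 + e2) + 1 : ℕ) : ℝ)) ^ n * H) ^ n := by
  set M : ℝ := ((a + b + n * (e1 + e2) + 1 : ℕ) : ℝ) with hM
  have hM1 : 1 ≤ M := by rw [hM]; exact_mod_cast Nat.le_add_left _ _
  have hγM : 1 ≤ γ * M := one_le_mul_of_one_le_of_one_le hγ hM1
  have key : ∀ i j, j ≤ n → Bd ((der g h)^[j] (A i)) (a + j * e1) (b + j * e2) ∧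
      ν.l2.f ((der g h)^[j] (A i)) ≤ (γ * M) ^ j * H := by
    intro i j
    induction j with
    | zero => intro _; simpa using hA i
    | succ j ih =>
      intro hj
      obtain ⟨h1, h2⟩ := ih (by omega)
      rw [Function.iterate_succ_apply']
      refine ⟨(hg.der hh h1).mono (by ring_nf; rfl) (by ring_nf; rfl), ?_⟩
      set W := (der g h)^[j] (A i)
      have a1 := ν.l2_dX h1
      have a2 := ν.l1.l1_derivative h1.2
      have n0 := ν.l2.nonneg W
      have b1 : ν.l2.f (g * dX W) ≤ γ * (((a + j * e1 : ℕ) : ℝ) * ν.l2.f W) :=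
        (ν.l2.mul _ _).trans (mul_le_mul hgγ a1 (ν.l2.nonneg _) (by linarith))
      have b2 : ν.l2.f (h * derivative W) ≤ γ * (((b + j * e2 : ℕ) : ℝ) * ν.l2.f W) :=
        (ν.l2.mul _ _).trans (mul_le_mul hhγ a2 (ν.l2.nonneg _) (by linarith))
      have c1 : ((a + j * e1 : ℕ) : ℝ) + ((b + j * e2 : ℕ) : ℝ) ≤ M := by
        rw [hM]
        have : j * (e1 + e2) ≤ n * (e1 + e2) := Nat.mul_le_mul_right _ (by omega)
        exact_mod_cast (by nlinarith : a + j * e1 + (b + j * e2) ≤ a + b + n * (e1 + e2) + 1)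
      calc ν.l2.f (der g h W) ≤ _ := ν.l2.add _ _
        _ ≤ γ * ((((a + j * e1 : ℕ) : ℝ) + ((b + j * e2 : ℕ) : ℝ)) * ν.l2.f W) := by linarith
        _ ≤ γ * (M * ((γ * M) ^ j * H)) :=
          mul_le_mul_of_nonneg_left (mul_le_mul c1 h2 n0 (by linarith)) (by linarith)
        _ = (γ * M) ^ (j + 1) * H := by ring
  refine ⟨bd_det _ fun j i => ((key i j j.2.le).1).mono
    (Nat.add_le_add_left (Nat.mul_le_mul_right _ j.2.le) _)
    (Nat.add_le_add_left (Nat.mul_le_mul_right _ j.2.le) _), (ν.l2.det_le _).trans ?_⟩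
  calc _ ≤ ∏ _j : Fin n, (n * (γ * M) ^ n * H) := by
        refine Finset.prod_le_prod (fun _ _ => Finset.sum_nonneg fun _ _ => ν.l2.nonneg _)
          fun i _ => ?_
        calc _ ≤ ∑ _j : Fin n, (γ * M) ^ n * H := Finset.sum_le_sum fun j _ =>
              (key i j j.2.le).2.trans (mul_le_mul_of_nonneg_right
                (pow_le_pow_right₀ hγM j.2.le) (by linarith))
          _ = _ := by simp [mul_assoc]
    _ = _ := by simp

end Pool.Agent.P.MP_68214b_ag.DS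
end

-- part Pool.Agent.P.MP_68214b_ag.DSX6
section

open Polynomial Filter Asymptotics NumberField Topology

namespace Pool.Agent.P.MP_68214b_ag.DS

theorem dsx6_bd (G : ℂ[X][X]) : ∃ D1 D2, Bd G D1 D2 := by
  refine ⟨G.support.sup fun j => (G.coeff j).natDegree, G.natDegree, fun j => ?_, le_rfl⟩
  by_cases hj : j ∈ G.support
  · exact Finset.le_sup (f := fun j => (G.coeff j).natDegree) hj
  · rw [notMem_support_iff.1 hj]; simp

theorem dsx6_app {K : Type*} [Field K] {σ : K →+* ℂ} {d : ℕ} (hd : 2 ≤ d) {x : ℕ → K}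
    {p : PowerSeries K} {u : ℂ} (hx : Esc σ d x p u) {a : ℕ} (ha : 0 < a) {τ γ : ℂ}
    (h : u * τ ^ a = γ) (hγ : ‖γ‖ = 1) : ∃ C0 : ℝ, ∀ᶠ n in atTop,
      ‖σ (x n) * (τ ^ d ^ n) ^ a - γ ^ d ^ n‖ ≤ |C0| * ‖τ ^ d ^ n‖ := by
  obtain ⟨C0, hC⟩ := (hx.lim' hd).bound
  obtain ⟨-, hτ⟩ := tau_lt' hx.one_lt ha h hγ
  have hu : u ≠ 0 := by
    intro h0
    have := hx.one_lt
    rw [h0, norm_zero] at this
    linarith
  refine ⟨C0, hC.mono fun n hn => ?_⟩
  have hU : u ^ d ^ n ≠ 0 := pow_ne_zero _ hu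
  have e1 : (τ ^ d ^ n) ^ a = γ ^ d ^ n * (u ^ d ^ n)⁻¹ := by
    rw [← h, mul_pow, ← pow_mul, ← pow_mul, mul_comm (d ^ n) a]
    field_simp
  have g1 : ‖γ ^ d ^ n‖ = 1 := by rw [norm_pow, hγ, one_pow]
  have t1 : ‖τ ^ d ^ n‖ ≤ 1 := by
    rw [norm_pow]; exact pow_le_one₀ (norm_nonneg _) hτ.le
  have e2 : ‖(u ^ d ^ n)⁻¹‖ ≤ ‖τ ^ d ^ n‖ := by
    have : ‖(u ^ d ^ n)⁻¹‖ = ‖τ ^ d ^ n‖ ^ a := by
      rw [← norm_pow _ a, e1, norm_mul, g1, one_mul]
    rw [this]
    exact pow_le_of_le_one (norm_nonneg _) t1 ha.ne'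
  have e3 : σ (x n) * (τ ^ d ^ n) ^ a - γ ^ d ^ n =
      γ ^ d ^ n * (σ (x n) * (u ^ d ^ n)⁻¹ - 1) := by rw [e1]; ring
  rw [e3, norm_mul, g1, one_mul]
  exact hn.trans (mul_le_mul (le_abs_self _) e2 (norm_nonneg _) (abs_nonneg _))

theorem be {K : Type*} [Field K] {σ : K →+* ℂ} {d : ℕ} (hd : 2 ≤ d) {x y : ℕ → K}
    {p q : PowerSeries K} {u v : ℂ} (hx : Esc σ d x p u) (hy : Esc σ d y q v) (h : Dep x y) :
    Rel u v := by
  obtain ⟨G0, hG0, hv⟩ := h
  have hG : map2 σ G0 ≠ 0 := fun h0 => hG0 (map2_inj σ.injective (h0.trans (map_zero _).symm))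
  have hv' : ∀ᶠ n in atTop, (map2 σ G0).evalEval (σ (x n)) (σ (y n)) = 0 :=
    hv.mono fun n hn => by rw [← ev2_eq, ← map_evalEval, hn, map_zero]
  obtain ⟨a, b, ha, hb, hab⟩ := abs_rel hx.one_lt hy.one_lt hd (hx.lim hd) (hy.lim hd) hG hv'
  obtain ⟨τ, γ, h1, h2, hγ⟩ := param hx.one_lt hb hab
  obtain ⟨hτ0, hτ⟩ := tau_lt' hx.one_lt hb h1 norm_one
  obtain ⟨C1, c1⟩ := dsx6_app hd hx hb h1 norm_one
  obtain ⟨C2, c2⟩ := dsx6_app hd hy ha h2 hγ
  obtain ⟨D1, D2, hB⟩ := dsx6_bd (map2 σ G0)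
  obtain ⟨C3, -, hT⟩ := top nC (RingHom.id ℂ) (fun _ => le_rfl) ha hb (|C1| + |C2|) D1 D2
  obtain ⟨g, hg, -, -, hE⟩ := hT _ hG hB
  have hl : Tendsto (fun n => g.eval (γ ^ d ^ n)) atTop (𝓝 0) := by
    have t0 : Tendsto (fun n => C3 * nC.l2.f (map2 σ G0) * ‖τ ^ d ^ n‖) atTop
        (𝓝 (C3 * nC.l2.f (map2 σ G0) * ‖(0 : ℂ)‖)) := (tend_ppC hτ hd).norm.const_mul _
    rw [norm_zero, mul_zero] at t0
    refine squeeze_zero_norm' ?_ t0
    filter_upwards [c1, c2, hv] with n a1 a2 a3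
    have b0 := norm_nonneg (τ ^ d ^ n)
    have b1 := mul_nonneg (abs_nonneg C1) b0
    have b2 := mul_nonneg (abs_nonneg C2) b0
    rw [one_pow] at a1
    have := hE (τ ^ d ^ n) (σ (x n)) (σ (y n)) (γ ^ d ^ n)
      (by rw [norm_pow]; exact pow_le_one₀ (norm_nonneg _) hτ.le)
      (by rw [norm_pow, hγ, one_pow]) (by rw [add_mul]; linarith) (by rw [add_mul]; linarith)
      (by rw [ev2_map2, RingHom.id_comp, ← map_evalEval, a3, map_zero])
    rwa [eval₂_id] at this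
  obtain ⟨N, hN, hγN⟩ := lemX hγ hd hg hl
  refine ⟨N * a, N * b, Nat.mul_pos hN ha, Nat.mul_pos hN hb, ?_⟩
  have hτ' : τ ^ (a * b * N) ≠ 0 := pow_ne_zero _ hτ0
  apply mul_right_cancel₀ hτ'
  have e1 : u ^ (N * a) * τ ^ (a * b * N) = (u * τ ^ b) ^ (N * a) := by ring
  have e2 : v ^ (N * b) * τ ^ (a * b * N) = ((v * τ ^ a) ^ N) ^ b := by ring
  rw [e1, e2, h1, h2, hγN, one_pow, one_pow]

end Pool.Agent.P.MP_68214b_ag.DS
end

-- part Pool.Agent.P.MP_68214b_ag.DSC1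
section

open Polynomial Filter Asymptotics NumberField Topology

namespace Pool.Agent.P.MP_68214b_ag.DS

variable {K : Type} [Field K] [NumberField K]

theorem poly_bigO {𝓕 : Filter ℕ} (q : ℂ[X]) {z : ℕ → ℂ} {B : ℕ → ℝ} (hB : ∀ n, 1 ≤ B n)
    (hz : z =O[𝓕] B) : (fun n => q.eval (z n)) =O[𝓕] fun n => B n ^ q.natDegree := by
  simp only [eval_eq_sum_range]
  refine IsBigO.fun_sum fun j hj => ((hz.pow j).trans ?_).const_mul_left _
  refine IsBigO.of_bound' (Eventually.of_forall fun n => ?_)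
  have := hB n
  rw [Real.norm_of_nonneg (by positivity), Real.norm_of_nonneg (by positivity)]
  exact pow_le_pow_right₀ this (Nat.lt_succ_iff.1 (Finset.mem_range.1 hj))

theorem Bdd.poly {L : Type*} [Field L] {σ : L →+* ℂ} {x : ℕ → L} (h : Bdd σ x) (q : L[X])
    (𝓕 : Filter ℕ) : (fun n => σ (q.eval (x n))) =O[𝓕] fun _ => (1 : ℝ) := by
  obtain ⟨B, hB⟩ := h
  have := poly_bigO (𝓕 := 𝓕) (q.map σ) (z := fun n => σ (x n)) (B := fun _ => 1) (fun _ => le_rfl)
    (IsBigO.of_bound B (Eventually.of_forall fun n => by simpa using hB n))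
  simpa only [eval_map, eval₂_at_apply, one_pow] using this

theorem Sml.sum {𝓕 : Filter ℕ} {d : ℕ} {ι : Type*} (s : Finset ι) {r : ι → ℕ → ℂ}
    (h : ∀ i ∈ s, Sml 𝓕 d (r i)) : Sml 𝓕 d fun n => ∑ i ∈ s, r i n :=
  fun ρ hρ => IsBigO.fun_sum fun i hi => h i hi ρ hρ

theorem sml_low (σ : K →+* ℂ) {f : K[X]} {x : ℕ → K} (hO : Orb f x) {d : ℕ}
    (hd : f.natDegree < d) (q : K[X]) {𝓕 : Filter ℕ} (hF : 𝓕 ≤ atTop) :
    Sml 𝓕 d fun n => σ (q.eval (x n)) := by
  obtain ⟨Λ, hΛ, h⟩ := growth_up hO.deg hO.step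
  refine sml_of_lt hF hd (one_le_pow₀ hΛ (n := (q.map σ).natDegree)) ?_
  have := poly_bigO (𝓕 := 𝓕) (q.map σ) (z := fun n => σ (x n))
    (B := fun n => Λ ^ f.natDegree ^ n) (fun _ => one_le_pow₀ hΛ)
    (IsBigO.of_bound' (Eventually.of_forall fun n => by
      rw [Real.norm_of_nonneg (by positivity)]
      exact (norm_embedding_le_house _ σ).trans (h n)))
  simpa only [eval_map, eval₂_at_apply, ← pow_mul, mul_comm] using this

theorem Big.add {𝓕 : Filter ℕ} {d : ℕ} {r r' : ℕ → ℂ} {α s : ℂ} {E : ℕ} (h : Big 𝓕 d r α s E)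
    (h' : r' =O[𝓕] fun _ => (1 : ℝ)) : Big 𝓕 d (fun n => r' n + r n) α s E := by
  refine ⟨h.s1, h.a0, h.e1, ?_⟩
  simp only [add_sub_assoc]
  refine IsBigO.add (h'.trans (IsBigO.of_bound' (Eventually.of_forall fun n => ?_))) h.app
  rw [norm_one, Real.norm_of_nonneg (by positivity)]
  exact one_le_pow₀ (one_le_pow₀ h.s1.le)

theorem cls (σ : K →+* ℂ) {I : Type*} [Fintype I] {f : I → K[X]} {x : I → ℕ → K}
    (hO : ∀ i, Orb (f i) (x i)) {e d : ℕ} (he : ∀ i, (f i).natDegree = e) (hd : e ≤ d)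
    (hD : ∀ i j, Dep (x i) (x j)) (q : I → K[X])
    (𝒰 : Ultrafilter ℕ) (hU : (𝒰 : Filter ℕ) ≤ atTop) :
    Sml 𝒰 d (fun n => σ (∑ i, (q i).eval (x i n))) ∨
      ∃ i, BigC σ 𝒰 d (f i) (x i) fun n => σ (∑ i, (q i).eval (x i n)) := by
  classical
  rcases hd.lt_or_eq with hd | rfl
  · left
    simp only [map_sum]
    exact Sml.sum _ fun i _ => sml_low σ (hO i) (by rw [he]; exact hd) _ hU
  have hb : (fun n => σ (∑ i : {i // Bdd σ (x i)}, (q i).eval (x i n))) =O[𝒰] fun _ => (1 : ℝ) := by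
    simp only [map_sum]
    exact IsBigO.fun_sum fun i _ => i.2.poly _ _
  have hs : ∀ n, σ (∑ i, (q i).eval (x i n)) = σ (∑ i : {i // Bdd σ (x i)}, (q i).eval (x i n)) +
      σ (∑ i : {i // ¬ Bdd σ (x i)}, (q i).eval (x i n)) := fun n => by
    rw [← map_add, Fintype.sum_subtype_add_sum_subtype (fun i => Bdd σ (x i))
      fun i => (q i).eval (x i n)]
  simp only [hs]
  rcases isEmpty_or_nonempty {i // ¬ Bdd σ (x i)} with h0 | ⟨⟨i0⟩⟩
  · left
    simpa using sml_of_bdd hb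
  choose p u hB hE using fun i : {i // ¬ Bdd σ (x i)} => bl (hO i) σ i.2
  simp only [he] at hE
  have d2 : 2 ≤ e := he i0 ▸ (hO i0).deg
  rcases ca d2 hE i0 (fun i => be d2 (hE i) (hE i0) (hD _ _)) (fun i => q i) 𝒰 hU with
    h | ⟨s, α, A, E, hA, hs, hα, h⟩
  · exact Or.inl (sml_of_bdd (hb.add h))
  · exact Or.inr ⟨i0, he _, p i0, u i0, s, α, A, E, hB i0, hE i0, hA, hs, hα, h.add hb⟩

end Pool.Agent.P.MP_68214b_ag.DS
end

-- part Pool.Agent.P.MP_68214b_ag.DSX1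
section

open Polynomial Filter Asymptotics NumberField Topology

namespace Pool.Agent.P.MP_68214b_ag.DS

theorem dsx1_low {J : Type*} [Fintype J] (u : J → ℂ) (hu : ∀ i, 1 < ‖u i‖) {lam : ℝ}
    (hl : 0 < lam) : ∃ M : ℕ, ∀ (D : ℕ) (m : J → ℤ), (∀ i, m i ≤ D) →
      lam ^ D ≤ ‖∏ i, u i ^ m i‖ → ∀ i, -((M : ℤ) * D) ≤ m i := by
  classical
  set P : ℝ := ∏ j, ‖u j‖ with hP
  have hP0 : 0 < P := Finset.prod_pos fun j _ => lt_trans one_pos (hu j)
  have h1 : ∀ i, ∃ M : ℕ, P / lam ≤ ‖u i‖ ^ M := fun i => by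
    obtain ⟨n, hn⟩ := pow_unbounded_of_one_lt (P / lam) (hu i)
    exact ⟨n, hn.le⟩
  choose M hM using h1
  refine ⟨∑ i, M i, fun D m hm hle i => ?_⟩
  have hMi : M i ≤ ∑ i, M i := Finset.single_le_sum (f := M) (fun _ _ => Nat.zero_le _)
    (Finset.mem_univ i)
  have hui : 0 < ‖u i‖ := lt_trans one_pos (hu i)
  have h2 : ‖∏ j, u j ^ m j‖ ≤ ‖u i‖ ^ m i * P ^ D := by
    rw [norm_prod, ← Finset.mul_prod_erase _ _ (Finset.mem_univ i), norm_zpow]
    refine mul_le_mul_of_nonneg_left ?_ (zpow_nonneg hui.le _)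
    calc ∏ j ∈ Finset.univ.erase i, ‖u j ^ m j‖ ≤ ∏ j ∈ Finset.univ.erase i, ‖u j‖ ^ D := by
          refine Finset.prod_le_prod (fun j _ => norm_nonneg _) fun j _ => ?_
          rw [norm_zpow, ← zpow_natCast]
          exact zpow_le_zpow_right₀ (hu j).le (hm j)
      _ ≤ ∏ j, ‖u j‖ ^ D := by
          rw [← Finset.mul_prod_erase _ _ (Finset.mem_univ i)]
          refine le_mul_of_one_le_left (Finset.prod_nonneg fun j _ => by positivity) ?_
          exact one_le_pow₀ (hu i).le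
      _ = P ^ D := by rw [hP, Finset.prod_pow]
  have h3 : (P / lam) ^ D ≤ (‖u i‖ ^ (∑ i, M i)) ^ D :=
    pow_le_pow_left₀ (by positivity) ((hM i).trans (pow_le_pow_right₀ (hu i).le hMi)) D
  have h4 : 1 ≤ ‖u i‖ ^ m i * (P / lam) ^ D := by
    rw [div_pow, ← mul_div_assoc, le_div_iff₀ (by positivity), one_mul]
    exact hle.trans h2
  have h5 : 1 ≤ ‖u i‖ ^ (m i + ((∑ i, M i : ℕ) : ℤ) * D) := by
    rw [zpow_add₀ hui.ne', ← Nat.cast_mul, zpow_natCast, pow_mul]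
    exact h4.trans (mul_le_mul_of_nonneg_left h3 (zpow_nonneg hui.le _))
  have h6 : 0 ≤ m i + ((∑ i, M i : ℕ) : ℤ) * D := (one_le_zpow_iff_right₀ (hu i)).1 h5
  linarith

theorem dsx1_pos {J : Type*} [Fintype J] (u : J → ℂ) (hu : ∀ i, 1 < ‖u i‖) (μ : J → ℤ) (i0 : J)
    (hμ : 0 < μ i0) (h : ∏ i, u i ^ μ i = 1) {lam : ℝ} (hl : 0 < lam) :
    ∃ (D : ℕ) (V : Finset ℂ), 0 < D ∧ V.card < (D + 1) ^ Fintype.card J ∧
      ∀ m : J → ℤ, (∀ i, m i ≤ D) → lam ^ D ≤ ‖∏ i, u i ^ m i‖ → ∏ i, u i ^ m i ∈ V := by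
  classical
  obtain ⟨M, hM⟩ := dsx1_low u hu hl
  obtain ⟨a, ha⟩ := Int.eq_ofNat_of_zero_le hμ.le
  have ha0 : 0 < a := by rw [ha] at hμ; exact_mod_cast hμ
  set B : ℕ := ∑ j, (μ j).natAbs with hB
  set M' : ℕ := (M + 1) * (1 + B) with hM'
  obtain ⟨k, hk⟩ : ∃ k, Fintype.card J = k + 1 :=
    ⟨Fintype.card J - 1, by have : 0 < Fintype.card J := Fintype.card_pos_iff.2 ⟨i0⟩; omega⟩
  set D : ℕ := a * (2 * M' + 1) ^ k with hD
  have hD0 : 0 < D := by positivity
  let S : J → Finset ℤ := fun i =>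
    if i = i0 then Finset.Ico 0 (a : ℤ) else Finset.Icc (-((M' * D : ℕ) : ℤ)) (M' * D : ℕ)
  refine ⟨D, (Fintype.piFinset S).image fun m => ∏ i, u i ^ m i, hD0, ?_, fun m hm hle => ?_⟩
  · refine lt_of_le_of_lt Finset.card_image_le ?_
    rw [Fintype.card_piFinset, ← Finset.mul_prod_erase _ _ (Finset.mem_univ i0)]
    have e1 : (S i0).card = a := by simp [S]
    have e2 : ∏ j ∈ Finset.univ.erase i0, (S j).card = (2 * (M' * D) + 1) ^ k := by
      rw [Finset.prod_congr rfl (g := fun _ => 2 * (M' * D) + 1), Finset.prod_const,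
        Finset.card_erase_of_mem (Finset.mem_univ _), Finset.card_univ, hk, Nat.add_sub_cancel]
      intro j hj
      simp only [S, if_neg (Finset.ne_of_mem_erase hj), Int.card_Icc]
      omega
    rw [e1, e2, hk, pow_succ']
    calc a * (2 * (M' * D) + 1) ^ k ≤ a * ((2 * M' + 1) * (D + 1)) ^ k := by
          gcongr; nlinarith
      _ = D * (D + 1) ^ k := by rw [mul_pow, ← mul_assoc]
      _ < (D + 1) * (D + 1) ^ k := by gcongr; omega
  · have hlow := hM D m hm hle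
    have habs : ∀ i, |m i| ≤ ((M : ℤ) + 1) * D := fun i => by
      have h1 := hlow i
      have h2 := hm i
      have h3 : (0 : ℤ) ≤ (M : ℤ) * D := by positivity
      have h4 : (0 : ℤ) ≤ D := by positivity
      rw [abs_le]; constructor <;> nlinarith
    set t : ℤ := m i0 / a with ht
    have ht1 : |t| ≤ ((M : ℤ) + 1) * D := (Int.abs_ediv_le_abs _ _).trans (habs i0)
    rw [Finset.mem_image]
    refine ⟨fun i => m i - t * μ i, ?_, ?_⟩
    · rw [Fintype.mem_piFinset]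
      intro i
      by_cases hi : i = i0
      · subst hi
        simp only [S, if_true, Finset.mem_Ico]
        have e : m i - t * μ i = m i % a := by rw [ha, ht, Int.emod_def]; ring
        rw [e]
        exact ⟨Int.emod_nonneg _ (by omega), Int.emod_lt_of_pos _ (by omega)⟩
      · simp only [S, if_neg hi, Finset.mem_Icc]
        rw [← abs_le]
        have h1 : |μ i| ≤ (B : ℤ) := by
          rw [← Int.natCast_natAbs]
          exact_mod_cast Finset.single_le_sum (f := fun j => (μ j).natAbs)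
            (fun _ _ => Nat.zero_le _) (Finset.mem_univ i)
        calc |m i - t * μ i| ≤ |m i| + |t| * |μ i| := by
              rw [← abs_mul]; exact abs_sub _ _
          _ ≤ ((M : ℤ) + 1) * D + ((M : ℤ) + 1) * D * B := by
              gcongr; exact habs i
          _ = ((M' * D : ℕ) : ℤ) := by rw [hM']; push_cast; ring
    · have hne : ∀ i, u i ≠ 0 := fun i => norm_pos_iff.1 (lt_trans one_pos (hu i))
      have e : ∀ i, u i ^ m i = u i ^ (m i - t * μ i) * (u i ^ μ i) ^ t := fun i => by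
        rw [← zpow_mul, ← zpow_add₀ (hne i)]; congr 1; ring
      rw [Finset.prod_congr rfl fun i _ => e i, Finset.prod_mul_distrib, Finset.prod_zpow, h,
        one_zpow, mul_one]

theorem cnt_val {J : Type*} [Fintype J] (u : J → ℂ) (hu : ∀ i, 1 < ‖u i‖) (μ : J → ℤ) (hμ : μ ≠ 0)
    (h : ∏ i, u i ^ μ i = 1) {lam : ℝ} (hl : 0 < lam) :
    ∃ (D : ℕ) (V : Finset ℂ), 0 < D ∧ V.card < (D + 1) ^ Fintype.card J ∧
      ∀ m : J → ℤ, (∀ i, m i ≤ D) → lam ^ D ≤ ‖∏ i, u i ^ m i‖ → ∏ i, u i ^ m i ∈ V := by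
  obtain ⟨i0, hi0⟩ := Function.ne_iff.1 hμ
  rcases lt_or_gt_of_ne hi0 with h0 | h0
  · refine dsx1_pos u hu (-μ) i0 (by simpa using h0) ?_ hl
    simp only [Pi.neg_apply, zpow_neg, Finset.prod_inv_distrib, h, inv_one]
  · exact dsx1_pos u hu μ i0 h0 h hl

end Pool.Agent.P.MP_68214b_ag.DS
end

-- part Pool.Agent.P.MP_68214b_ag.DSX2
section

open Polynomial Filter Asymptotics NumberField Topology

namespace Pool.Agent.P.MP_68214b_ag.DS

def dsx2_S {K J : Type*} [Field K] [Fintype J] (u : J → ℂ) (n : J → ℕ) (a : MonoidAlgebra K ℂ) :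
    Prop :=
  ∀ v, a.coeff v ≠ 0 → ∃ m : J → ℤ, (∀ i, m i ≤ n i) ∧ v = ∏ i, u i ^ m i

section
variable {K J : Type*} [Field K] [Fintype J] {u : J → ℂ}

theorem dsx2_one : dsx2_S u 0 (1 : MonoidAlgebra K ℂ) := by
  intro v hv
  refine ⟨0, fun i => le_rfl, ?_⟩
  rw [MonoidAlgebra.one_def, MonoidAlgebra.coeff_single] at hv
  simpa using (Finsupp.single_apply_ne_zero.1 hv).1

theorem dsx2_mul (hu : ∀ i, u i ≠ 0) {n n' : J → ℕ} {a b : MonoidAlgebra K ℂ} (ha : dsx2_S u n a)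
    (hb : dsx2_S u n' b) : dsx2_S u (n + n') (a * b) := by
  classical
  intro v hv
  obtain ⟨x, hx, y, hy, rfl⟩ := Finset.mem_mul.1
    (MonoidAlgebra.support_coeff_mul_subset a b (Finsupp.mem_support_iff.2 hv))
  obtain ⟨m, h1, rfl⟩ := ha x (Finsupp.mem_support_iff.1 hx)
  obtain ⟨m', h2, rfl⟩ := hb y (Finsupp.mem_support_iff.1 hy)
  refine ⟨m + m', fun i => ?_, ?_⟩
  · have := h1 i
    have := h2 i
    simp only [Pi.add_apply, Nat.cast_add]
    omega
  · rw [← Finset.prod_mul_distrib]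
    exact Finset.prod_congr rfl fun i _ => (zpow_add₀ (hu i) _ _).symm

theorem dsx2_pow (hu : ∀ i, u i ≠ 0) {n : J → ℕ} {a : MonoidAlgebra K ℂ} (ha : dsx2_S u n a)
    (k : ℕ) : dsx2_S u (k • n) (a ^ k) := by
  induction k with
  | zero => simpa using dsx2_one
  | succ k ih => rw [pow_succ, succ_nsmul]; exact dsx2_mul hu ih ha

theorem dsx2_prod (hu : ∀ i, u i ≠ 0) {ι : Type*} (s : Finset ι) {n : ι → J → ℕ}
    {a : ι → MonoidAlgebra K ℂ} (ha : ∀ i, dsx2_S u (n i) (a i)) :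
    dsx2_S u (∑ i ∈ s, n i) (∏ i ∈ s, a i) := by
  classical
  induction s using Finset.induction_on with
  | empty => simpa using dsx2_one
  | insert i s hi ih => rw [Finset.sum_insert hi, Finset.prod_insert hi]; exact dsx2_mul hu (ha i) ih

end

theorem aux_formal {K J : Type*} [Field K] [Fintype J] (σ : K →+* ℂ) (u : J → ℂ) (hu : ∀ i, u i ≠ 0)
    (p : J → PowerSeries K) (D T : ℕ) (V : Finset ℂ) {lam : ℝ} (hl : 0 ≤ lam)
    (hc : V.card < (D + 1) ^ Fintype.card J)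
    (hV : ∀ m : J → ℤ, (∀ i, m i ≤ D) → lam ≤ ‖∏ i, u i ^ m i‖ → ∏ i, u i ^ m i ∈ V) :
    ∃ (P : MvPolynomial J K) (C : ℝ), P ≠ 0 ∧ P.totalDegree ≤ Fintype.card J * D ∧ ∀ k : ℕ,
      ‖MvPolynomial.eval₂ σ (fun i => u i ^ k *
        (PowerSeries.trunc T (PowerSeries.map σ (p i))).eval (u i ^ k)⁻¹) P‖ ≤ C * lam ^ k := by
  classical
  let ξ : J → MonoidAlgebra K ℂ := fun i =>
    ∑ j ∈ Finset.range T, MonoidAlgebra.single (u i * (u i)⁻¹ ^ j) (PowerSeries.coeff j (p i))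
  have hξ : ∀ i, dsx2_S u (Pi.single i 1) (ξ i) := by
    intro i v hv
    simp only [ξ, MonoidAlgebra.coeff_sum, MonoidAlgebra.coeff_single, Finsupp.finsetSum_apply] at hv
    obtain ⟨j, _, hj⟩ := Finset.exists_ne_zero_of_sum_ne_zero hv
    refine ⟨Pi.single i (1 - j), fun l => ?_, ?_⟩
    · by_cases c : l = i
      · subst c; simp
      · simp [c]
    · rw [(Finsupp.single_apply_ne_zero.1 hj).1, Finset.prod_eq_single i
        (fun l _ c => by simp [c]) (by simp), Pi.single_eq_same, zpow_sub₀ (hu i), zpow_one,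
        zpow_natCast, inv_pow, div_eq_mul_inv]
  let η : (J → Fin (D + 1)) → MonoidAlgebra K ℂ := fun e => ∏ i, ξ i ^ (e i : ℕ)
  have hη : ∀ e v, (η e).coeff v ≠ 0 → ∃ m : J → ℤ, (∀ i, m i ≤ D) ∧ v = ∏ i, u i ^ m i := by
    intro e v hv
    obtain ⟨m, h1, h2⟩ := dsx2_prod hu Finset.univ (fun i => dsx2_pow hu (hξ i) (e i)) v hv
    refine ⟨m, fun i => (h1 i).trans ?_, h2⟩
    have := (e i).2
    simp [Finset.sum_apply, Pi.single_apply]
    omega
  let L : ((J → Fin (D + 1)) → K) →ₗ[K] (V → K) :=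
    { toFun := fun c v => ∑ e, c e * (η e).coeff v
      map_add' := fun a b => by funext v; simp [add_mul, Finset.sum_add_distrib]
      map_smul' := fun a b => by funext v; simp [Finset.mul_sum, mul_assoc] }
  obtain ⟨c, hc1, hc0⟩ := Submodule.exists_mem_ne_zero_of_ne_bot
    (L.ker_ne_bot_of_finrank_lt (by simpa using hc))
  let a : MonoidAlgebra K ℂ := ∑ e, c e • η e
  have ha : ∀ v, a.coeff v = ∑ e, c e * (η e).coeff v := fun v => by
    simp [a, Finsupp.finsetSum_apply]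
  let μ : (J → Fin (D + 1)) → J →₀ ℕ := fun e => Finsupp.equivFunOnFinite.symm fun i => (e i : ℕ)
  have hμ : Function.Injective μ := fun e e' h =>
    funext fun i => Fin.ext (congrFun (Finsupp.equivFunOnFinite.symm.injective h) i)
  refine ⟨∑ e, MvPolynomial.monomial (μ e) (c e), ∑ v ∈ a.coeff.support, ‖σ (a.coeff v)‖,
    fun h => hc0 (funext fun e => ?_), ?_, fun k => ?_⟩
  · have := congrArg (MvPolynomial.coeff (μ e)) h
    simpa [MvPolynomial.coeff_sum, MvPolynomial.coeff_monomial, hμ.eq_iff] using this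
  · refine MvPolynomial.totalDegree_finsetSum_le fun e _ =>
      (MvPolynomial.totalDegree_monomial_le _ _).trans ?_
    rw [Finsupp.sum_fintype _ _ (fun _ => rfl)]
    simpa [μ] using Finset.sum_le_card_nsmul Finset.univ (fun i => (e i : ℕ)) D
      fun i _ => Nat.lt_succ_iff.1 (e i).2
  · let E : MonoidAlgebra K ℂ →+* ℂ :=
      MonoidAlgebra.liftNCRingHom σ (powMonoidHom k) fun _ _ => Commute.all _ _
    have hE : ∀ v b, E (MonoidAlgebra.single v b) = σ b * v ^ k := fun v b =>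
      MonoidAlgebra.liftNCRingHom_single _ _ _ _ _
    have h1 : ∀ i, E (ξ i) = u i ^ k *
        (PowerSeries.trunc T (PowerSeries.map σ (p i))).eval (u i ^ k)⁻¹ := fun i => by
      rw [← Polynomial.eval₂_id, PowerSeries.eval₂_trunc_eq_sum_range, Finset.mul_sum]
      simp only [ξ, map_sum, hE]
      refine Finset.sum_congr rfl fun j _ => ?_
      simp only [PowerSeries.coeff_map, RingHom.id_apply, mul_pow, ← inv_pow, ← pow_mul, mul_comm j k]
      ring
    have h2 : MvPolynomial.eval₂ σ (fun i => u i ^ k *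
        (PowerSeries.trunc T (PowerSeries.map σ (p i))).eval (u i ^ k)⁻¹)
        (∑ e, MvPolynomial.monomial (μ e) (c e)) = E a := by
      rw [MvPolynomial.eval₂_sum]
      simp only [a, map_sum]
      refine Finset.sum_congr rfl fun e _ => ?_
      have e1 : c e • η e = MonoidAlgebra.single 1 (c e) * η e := by
        rw [Algebra.smul_def]; rfl
      rw [MvPolynomial.eval₂_monomial, Finsupp.prod_fintype _ _ (fun _ => pow_zero _), e1, map_mul,
        hE, one_pow, mul_one]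
      simp only [η, map_prod, map_pow, h1]
      rfl
    rw [h2, Finset.sum_mul]
    conv_lhs => rw [← MonoidAlgebra.sum_coeff_single a, Finsupp.sum, map_sum]
    refine (norm_sum_le _ _).trans (Finset.sum_le_sum fun v hv => ?_)
    rw [hE, norm_mul, norm_pow]
    have hv := Finsupp.mem_support_iff.1 hv
    have h3 : v ∉ V := fun h => hv ((ha v).trans (congrFun hc1 ⟨v, h⟩))
    rw [ha] at hv
    obtain ⟨e, _, he⟩ := Finset.exists_ne_zero_of_sum_ne_zero hv
    obtain ⟨m, h4, rfl⟩ := hη e v (right_ne_zero_of_mul he)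
    have h5 := (not_le.1 fun h => h3 (hV m h4 h)).le
    gcongr

end Pool.Agent.P.MP_68214b_ag.DS
end

-- part Pool.Agent.P.MP_68214b_ag.DSN6
section

open Polynomial Filter Asymptotics NumberField Topology

namespace Pool.Agent.P.MP_68214b_ag.DS

variable {K : Type} [Field K] [NumberField K]

theorem rn_mono {L : Type*} [Field L] {t a : L} (ht : IsIntegral ℤ t) {k l : ℕ}
    (h : IsIntegral ℤ (t ^ k * a)) (hl : k ≤ l) : IsIntegral ℤ (t ^ l * a) := by
  obtain ⟨j, rfl⟩ := Nat.exists_eq_add_of_le' hl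
  rw [pow_add, mul_assoc]
  exact (ht.pow j).mul h

theorem poly_den (p : K[X]) {D : ℕ} (hD : p.natDegree ≤ D) : ∃ M : ℕ, 0 < M ∧ ∀ t x : K,
    IsIntegral ℤ t → IsIntegral ℤ (t * x) → IsIntegral ℤ ((M : K) * (t ^ D * p.eval x)) := by
  classical
  obtain ⟨M, hM, h⟩ := exists_den ((Finset.range (D + 1)).image p.coeff)
  refine ⟨M, hM, fun t x ht hx => ?_⟩
  rw [eval_eq_sum_range' (Nat.lt_succ_of_le hD), Finset.mul_sum, Finset.mul_sum]
  refine IsIntegral.sum _ fun i hi => ?_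
  obtain ⟨j, rfl⟩ := Nat.exists_eq_add_of_le (Nat.lt_succ_iff.1 (Finset.mem_range.1 hi))
  rw [show (M : K) * (t ^ (i + j) * (p.coeff i * x ^ i)) = M * p.coeff i * (t * x) ^ i * t ^ j by ring]
  exact ((h _ (Finset.mem_image_of_mem _ hi)).mul (hx.pow i)).mul (ht.pow j)

theorem ev2_den {G : K[X][X]} {D : ℕ} (hG : Bd G D D) : ∃ M : ℕ, 0 < M ∧ ∀ t x y : K,
    IsIntegral ℤ t → IsIntegral ℤ (t * x) → IsIntegral ℤ (t * y) →
      IsIntegral ℤ ((M : K) * (t ^ (2 * D) * G.evalEval x y)) := by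
  choose M hM h using fun j => poly_den (G.coeff j) (hG.1 j)
  refine ⟨∏ j ∈ Finset.range (D + 1), M j, Finset.prod_pos fun j _ => hM j,
    fun t x y ht hx hy => ?_⟩
  rw [evalEval, eval_eq_sum_range' (Nat.lt_succ_of_le hG.2), eval_finsetSum, Finset.mul_sum,
    Finset.mul_sum]
  refine IsIntegral.sum _ fun i hi => ?_
  have h1 := Den.mono (h i t x ht hx) (Finset.dvd_prod_of_mem M hi)
  generalize ((∏ j ∈ Finset.range (D + 1), M j : ℕ) : K) = m at h1 ⊢
  obtain ⟨j, rfl⟩ := Nat.exists_eq_add_of_le (Nat.lt_succ_iff.1 (Finset.mem_range.1 hi))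
  rw [eval_mul, eval_pow, eval_C, show m * (t ^ (2 * (i + j)) * ((G.coeff i).eval x * y ^ i)) =
    m * (t ^ (i + j) * (G.coeff i).eval x) * (t * y) ^ i * t ^ j by ring]
  exact (h1.mul (hy.pow i)).mul (ht.pow j)

theorem mv_den {J : Type*} (P : MvPolynomial J K) {S : ℕ} (hS : P.totalDegree ≤ S) :
    ∃ M : ℕ, 0 < M ∧ ∀ (t : K) (x : J → K), IsIntegral ℤ t → (∀ i, IsIntegral ℤ (t * x i)) →
      IsIntegral ℤ ((M : K) * (t ^ S * MvPolynomial.eval x P)) := by
  classical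
  obtain ⟨M, hM, h⟩ := exists_den (P.support.image fun m => P.coeff m)
  refine ⟨M, hM, fun t x ht hx => ?_⟩
  rw [MvPolynomial.eval_eq, Finset.mul_sum, Finset.mul_sum]
  refine IsIntegral.sum _ fun m hm => ?_
  obtain ⟨j, rfl⟩ := Nat.exists_eq_add_of_le ((MvPolynomial.le_totalDegree hm).trans hS)
  have e : ∏ i ∈ m.support, (t * x i) ^ m i =
      t ^ (m.sum fun _ e => e) * ∏ i ∈ m.support, x i ^ m i := by
    simp only [mul_pow, Finset.prod_mul_distrib, Finset.prod_pow_eq_pow_sum, Finsupp.sum]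
  rw [show (M : K) * (t ^ ((m.sum fun _ e => e) + j) * (P.coeff m * ∏ i ∈ m.support, x i ^ m i)) =
    M * P.coeff m * (∏ i ∈ m.support, (t * x i) ^ m i) * t ^ j by rw [e]; ring]
  exact ((h _ (Finset.mem_image_of_mem _ hm)).mul
    (IsIntegral.prod _ fun i _ => (hx i).pow _)).mul (ht.pow j)

/-- the denominators of an orbit -/
theorem Orb.den {f : K[X]} {x : ℕ → K} (h : Orb f x) :
    ∃ N : ℕ, 0 < N ∧ ∀ n, IsIntegral ℤ ((N : K) ^ f.natDegree ^ n * x n) := by
  obtain ⟨M, hM, h1⟩ := poly_den f le_rfl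
  obtain ⟨M0, hM0, h0⟩ := exists_den ({x 0} : Finset K)
  have i0 : IsIntegral ℤ ((M * M0 : ℕ) : K) := isIntegral_natCast _
  have key : ∀ n, ∃ e, e + 1 ≤ 2 * f.natDegree ^ n ∧ IsIntegral ℤ (((M * M0 : ℕ) : K) ^ e * x n) :=
    fun n => by
    induction n with
    | zero =>
      refine ⟨1, by simp, ?_⟩
      rw [pow_one]
      exact Den.mono (h0 _ (Finset.mem_singleton_self _)) (dvd_mul_left _ _)
    | succ n ih =>
      obtain ⟨e, he, ih⟩ := ih
      refine ⟨e * f.natDegree + 1, ?_, ?_⟩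
      · have := Nat.mul_le_mul_right f.natDegree he
        have := h.deg
        rw [pow_succ]
        nlinarith
      · rw [h.step, pow_succ', pow_mul, mul_assoc]
        exact Den.mono (h1 _ _ (i0.pow e) ih) (dvd_mul_right _ _)
  refine ⟨(M * M0) ^ 2, by positivity, fun n => ?_⟩
  obtain ⟨e, he, h2⟩ := key n
  rw [Nat.cast_pow, ← pow_mul]
  exact rn_mono i0 h2 (by omega)

/-- denominators and houses grow at most like Λ ^ d ^ n -/
def Gr (d N : ℕ) (Λ : ℝ) (x : ℕ → K) : Prop :=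
  ∀ n, IsIntegral ℤ ((N : K) ^ d ^ n * x n) ∧ house (x n) ≤ Λ ^ d ^ n

theorem exists_gr {J : Type*} [Finite J] {f : J → K[X]} {x : J → ℕ → K} {d : ℕ}
    (hO : ∀ i, Orb (f i) (x i)) (hd : ∀ i, (f i).natDegree = d) :
    ∃ (N : ℕ) (Λ : ℝ), 0 < N ∧ (N : ℝ) ≤ Λ ∧ 1 ≤ Λ ∧ ∀ i, Gr d N Λ (x i) := by
  have := Fintype.ofFinite J
  choose Λ l1 l2 using fun i => growth_up (hO i).deg (hO i).step
  choose N n1 n2 using fun i => (hO i).den
  obtain ⟨B, hB⟩ := (Set.finite_range Λ).bddAbove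
  have p : 0 < ∏ i, N i := Finset.prod_pos fun i _ => n1 i
  refine ⟨∏ i, N i, max ((∏ i, N i : ℕ) : ℝ) B, p, le_max_left _ _,
    le_max_of_le_left (Nat.one_le_cast.2 p), fun i n => ⟨?_, ?_⟩⟩
  · have := n2 i n
    rw [hd, ← Nat.cast_pow] at this
    rw [← Nat.cast_pow]
    exact Den.mono this (pow_dvd_pow_of_dvd (Finset.dvd_prod_of_mem N (Finset.mem_univ i)) _)
  · exact (l2 i n).trans (hd i ▸ pow_le_pow_left₀ (zero_le_one.trans (l1 i))
      (le_max_of_le_right (hB ⟨i, rfl⟩)) _)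

theorem exists_gr2 {f g : K[X]} {x y : ℕ → K} {d : ℕ} (hx : Orb f x) (hy : Orb g y)
    (df : f.natDegree = d) (dg : g.natDegree = d) :
    ∃ (N : ℕ) (Λ : ℝ), 0 < N ∧ (N : ℝ) ≤ Λ ∧ 1 ≤ Λ ∧ Gr d N Λ x ∧ Gr d N Λ y := by
  obtain ⟨N, Λ, a, b, c, h⟩ := exists_gr (J := Fin 2) (f := ![f, g]) (x := ![x, y])
    (Fin.forall_fin_two.2 ⟨hx, hy⟩) (Fin.forall_fin_two.2 ⟨df, dg⟩)
  exact ⟨N, Λ, a, b, c, h 0, h 1⟩

/-- Liouville with a denominator -/
theorem liouD {x : K} {t : ℕ} (ht : 0 < t) (hx : IsIntegral ℤ ((t : K) * x)) (h0 : x ≠ 0)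
    (σ : K →+* ℂ) {B : ℝ} (h1 : (t : ℝ) ≤ B) (h2 : house x ≤ B) :
    1 ≤ ‖σ x‖ * B ^ (3 * Module.finrank ℚ K) := by
  have h3 := liou hx (mul_ne_zero (Nat.cast_ne_zero.2 ht.ne') h0) σ
  have b1 : 1 ≤ B := (Nat.one_le_cast.2 ht).trans h1
  have r0 : 0 < Module.finrank ℚ K := Module.finrank_pos
  have := house_nonneg x
  rw [map_mul, norm_mul, map_natCast, Complex.norm_natCast, house_nat_mul] at h3
  calc (1 : ℝ) ≤ _ := h3
    _ ≤ B * ‖σ x‖ * (B * B) ^ Module.finrank ℚ K := by gcongr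
    _ = ‖σ x‖ * B ^ (2 * Module.finrank ℚ K + 1) := by ring
    _ ≤ _ := mul_le_mul_of_nonneg_left (pow_le_pow_right₀ b1 (by omega)) (norm_nonneg _)

theorem ls (σ : K →+* ℂ) {𝓕 : Filter ℕ} (hF : 𝓕 ≤ atTop) {d : ℕ} (hd : 2 ≤ d) {a : ℕ → K}
    {M N : ℕ} (hM : 0 < M) (hN : 0 < N) (hi : ∀ n, IsIntegral ℤ ((M : K) * ((N : K) ^ d ^ n * a n)))
    {Λ lam : ℝ} (hΛ : (N : ℝ) ≤ Λ) (hl : 0 ≤ lam) (h : lam * Λ ^ (3 * Module.finrank ℚ K) < 1)
    (h1 : (fun n => house (a n)) =O[𝓕] fun n => Λ ^ d ^ n)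
    (h2 : (fun n => σ (a n)) =O[𝓕] fun n => lam ^ d ^ n) : ∀ᶠ n in 𝓕, a n = 0 := by
  have l0 : 0 ≤ Λ := (Nat.cast_nonneg N).trans hΛ
  have h3 : Tendsto (fun n => (lam * Λ ^ (3 * Module.finrank ℚ K)) ^ d ^ n) 𝓕 (𝓝 0) :=
    ((tendsto_pow_atTop_nhds_zero_of_lt_one (by positivity) h).comp
      (tendsto_pow_atTop_atTop_of_one_lt (by omega : 1 < d))).mono_left hF
  have h5 : (fun n => ((M * N ^ d ^ n : ℕ) : ℝ)) =O[𝓕] fun n => Λ ^ d ^ n :=
    IsBigO.of_bound M (.of_forall fun n => by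
      rw [Real.norm_of_nonneg (by positivity), Real.norm_of_nonneg (by positivity)]
      push_cast
      gcongr)
  have h4 := (h2.norm_left.mul ((h5.add h1).pow (3 * Module.finrank ℚ K))).trans_tendsto
      (h3.congr fun n => by rw [mul_pow, ← pow_mul, mul_comm (3 * Module.finrank ℚ K), pow_mul])
  filter_upwards [h4.eventually (gt_mem_nhds one_pos)] with n hn
  by_contra e
  refine (liouD (t := M * N ^ d ^ n) (by positivity) ?_ e σ
    (le_add_of_nonneg_right (house_nonneg _)) (le_add_of_nonneg_left (by positivity))).not_gt hn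
  rw [Nat.cast_mul, Nat.cast_pow, mul_assoc]
  exact hi n

theorem ls2 (σ : K →+* ℂ) {𝓕 : Filter ℕ} (hF : 𝓕 ≤ atTop) {d : ℕ} (hd : 2 ≤ d) {y1 y2 : ℕ → K}
    {N : ℕ} {Λ lam : ℝ} (hN : 0 < N) (hΛ : (N : ℝ) ≤ Λ) (h1 : Gr d N Λ y1) (h2 : Gr d N Λ y2)
    (hl : 0 ≤ lam) {G : K[X][X]} {D : ℕ} (hG : Bd G D D)
    (h : lam * (Λ ^ (2 * D)) ^ (3 * Module.finrank ℚ K) < 1)
    (hs : (fun n => σ (G.evalEval (y1 n) (y2 n))) =O[𝓕] fun n => lam ^ d ^ n) :
    ∀ᶠ n in 𝓕, G.evalEval (y1 n) (y2 n) = 0 := by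
  obtain ⟨M, hM, e⟩ := ev2_den hG
  have l1 : 1 ≤ Λ := (Nat.one_le_cast.2 hN).trans hΛ
  refine ls σ hF hd hM (N := N ^ (2 * D)) (by positivity) (fun n => ?_)
    (by push_cast; gcongr) hl h
    (IsBigO.of_bound ((nH K).l2.f G) (Eventually.of_forall fun n => ?_)) hs
  · rw [Nat.cast_pow, ← pow_mul, mul_comm (2 * D), pow_mul]
    exact e _ _ _ ((isIntegral_natCast N).pow _) (h1 n).1 (h2 n).1
  · have := (nH K).ev2_le (nH K) (RingHom.id K) (fun _ => le_rfl) (one_le_pow₀ l1) (h1 n).2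
      (h2 n).2 hG
    rw [← show _ = ev2 (RingHom.id K) (y1 n) (y2 n) G from map_evalEval (RingHom.id K) _ _ G] at this
    rw [Real.norm_of_nonneg (house_nonneg _), Real.norm_of_nonneg (by positivity), ← pow_mul,
      mul_comm (2 * D), pow_mul, two_mul]
    exact this

theorem lsMv (σ : K →+* ℂ) {𝓕 : Filter ℕ} (hF : 𝓕 ≤ atTop) {d : ℕ} (hd : 2 ≤ d) {J : Type*}
    {x : J → ℕ → K} {N : ℕ} {Λ lam : ℝ} (hN : 0 < N) (hΛ : (N : ℝ) ≤ Λ) (hx : ∀ i, Gr d N Λ (x i))
    (hl : 0 ≤ lam) (P : MvPolynomial J K) {S : ℕ} (hS : P.totalDegree ≤ S)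
    (h : lam * (Λ ^ S) ^ (3 * Module.finrank ℚ K) < 1)
    (hs : (fun n => σ (MvPolynomial.eval (fun i => x i n) P)) =O[𝓕] fun n => lam ^ d ^ n) :
    ∀ᶠ n in 𝓕, MvPolynomial.eval (fun i => x i n) P = 0 := by
  obtain ⟨M, hM, e⟩ := mv_den P hS
  obtain ⟨C, hC⟩ := mv_house P hS
  have l1 : 1 ≤ Λ := (Nat.one_le_cast.2 hN).trans hΛ
  refine ls σ hF hd hM (N := N ^ S) (by positivity) (fun n => ?_) (by push_cast; gcongr) hl h
    (IsBigO.of_bound C (Eventually.of_forall fun n => ?_)) hs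
  · rw [Nat.cast_pow, ← pow_mul, mul_comm S, pow_mul]
    exact e _ _ ((isIntegral_natCast N).pow _) fun i => (hx i n).1
  · rw [Real.norm_of_nonneg (house_nonneg _), Real.norm_of_nonneg (by positivity), ← pow_mul,
      mul_comm S, pow_mul]
    exact hC _ _ (one_le_pow₀ l1) fun i => (hx i n).2

end Pool.Agent.P.MP_68214b_ag.DS
end

-- part Pool.Agent.P.MP_68214b_ag.DSX3
section

open Polynomial Filter Asymptotics NumberField Topology

namespace Pool.Agent.P.MP_68214b_ag.DS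

variable {K : Type} [Field K] [NumberField K]

def dsx3P (𝓕 : Filter ℕ) (B ε : ℕ → ℝ) (k : ℕ) (f g : ℕ → ℂ) : Prop :=
  (f =O[𝓕] fun n => B n ^ k) ∧ (g =O[𝓕] fun n => B n ^ k) ∧
    (fun n => f n - g n) =O[𝓕] fun n => B n ^ k * ε n

theorem dsx3_mul {𝓕 : Filter ℕ} {B ε : ℕ → ℝ} {k l : ℕ} {f g f' g' : ℕ → ℂ}
    (h : dsx3P 𝓕 B ε k f g) (h' : dsx3P 𝓕 B ε l f' g') :
    dsx3P 𝓕 B ε (k + l) (fun n => f n * f' n) fun n => g n * g' n := by
  refine ⟨by simpa only [pow_add] using h.1.mul h'.1,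
    by simpa only [pow_add] using h.2.1.mul h'.2.1, ?_⟩
  refine (((h.1.mul h'.2.2).congr_right fun n => ?_).add
    ((h.2.2.mul h'.2.1).congr_right fun n => ?_)).congr_left fun n => ?_ <;> ring

theorem dsx3_one (𝓕 : Filter ℕ) (B ε : ℕ → ℝ) : dsx3P 𝓕 B ε 0 (fun _ => 1) fun _ => 1 :=
  ⟨by simpa using isBigO_const_const (1 : ℂ) (one_ne_zero (α := ℝ)) 𝓕,
    by simpa using isBigO_const_const (1 : ℂ) (one_ne_zero (α := ℝ)) 𝓕,
    by simpa using isBigO_zero _ _⟩

theorem dsx3_pow {𝓕 : Filter ℕ} {B ε : ℕ → ℝ} {f g : ℕ → ℂ} (h : dsx3P 𝓕 B ε 1 f g) (k : ℕ) :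
    dsx3P 𝓕 B ε k (fun n => f n ^ k) fun n => g n ^ k := by
  induction k with
  | zero => simpa using dsx3_one 𝓕 B ε
  | succ k ih => simpa only [pow_succ] using dsx3_mul ih h

theorem dsx3_prod {J : Type*} {𝓕 : Filter ℕ} {B ε : ℕ → ℝ} {a b : J → ℕ → ℂ}
    (h : ∀ i, dsx3P 𝓕 B ε 1 (a i) (b i)) (s : Finset J) (e : J → ℕ) :
    dsx3P 𝓕 B ε (∑ i ∈ s, e i) (fun n => ∏ i ∈ s, a i n ^ e i) fun n => ∏ i ∈ s, b i n ^ e i := by
  classical
  induction s using Finset.induction_on with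
  | empty => simpa using dsx3_one 𝓕 B ε
  | insert i s hi ih =>
    simpa only [Finset.sum_insert hi, Finset.prod_insert hi] using dsx3_mul (dsx3_pow (h i) _) ih

theorem mv_diff {L J : Type*} [CommRing L] (σ : L →+* ℂ) (P : MvPolynomial J L) {S : ℕ}
    (hS : P.totalDegree ≤ S) {𝓕 : Filter ℕ} {a b : J → ℕ → ℂ} {B ε : ℕ → ℝ} (hB : ∀ n, 1 ≤ B n)
    (ha : ∀ i, a i =O[𝓕] B) (hb : ∀ i, b i =O[𝓕] B) (hab : ∀ i, (fun n => a i n - b i n) =O[𝓕] ε) :
    (fun n => MvPolynomial.eval₂ σ (fun i => a i n) P - MvPolynomial.eval₂ σ (fun i => b i n) P)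
      =O[𝓕] fun n => B n ^ S * ε n := by
  have hm : ∀ k l, k ≤ l → (fun n => B n ^ k * ε n) =O[𝓕] fun n => B n ^ l * ε n := fun k l h =>
    (IsBigO.of_bound' (.of_forall fun n => by
      rw [norm_pow, norm_pow]
      exact pow_le_pow_right₀ ((hB n).trans (le_abs_self _)) h)).mul (isBigO_refl _ _)
  have h1 : ∀ i, dsx3P 𝓕 B ε 1 (a i) (b i) := fun i =>
    ⟨by simpa using ha i, by simpa using hb i, (hab i).trans (by simpa using hm 0 1 zero_le_one)⟩
  simp only [MvPolynomial.eval₂_eq, ← Finset.sum_sub_distrib, ← mul_sub]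
  refine IsBigO.fun_sum fun s hs => ?_
  exact ((dsx3_prod h1 s.support s).2.2.trans
    (hm _ _ ((MvPolynomial.le_totalDegree hs).trans hS))).const_mul_left _

theorem aux {J : Type*} [Fintype J] {σ : K →+* ℂ} {d : ℕ} {f : J → K[X]} {x : J → ℕ → K}
    {p : J → PowerSeries K} {u : J → ℂ} (hO : ∀ i, Orb (f i) (x i)) (hd : ∀ i, (f i).natDegree = d)
    (hE : ∀ i, Esc σ d (x i) (p i) (u i)) (μ : J → ℤ) (hμ : μ ≠ 0) (h : ∏ i, u i ^ μ i = 1) :
    ∃ P : MvPolynomial J K, P ≠ 0 ∧ Van x P := by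
  obtain ⟨i0, -⟩ := Function.ne_iff.1 hμ
  have hd2 : 2 ≤ d := hd i0 ▸ (hO i0).deg
  obtain ⟨N, Λ, N0, hΛ, Λ1, hg⟩ := exists_gr hO hd
  obtain ⟨iB, hB⟩ := @Finite.exists_max J ℝ _ ⟨i0⟩ _ fun i => ‖u i‖
  obtain ⟨iθ, hθ⟩ := @Finite.exists_max J ℝ _ ⟨i0⟩ _ fun i => ‖u i‖⁻¹
  set B := ‖u iB‖
  set θ := ‖u iθ‖⁻¹
  set q := Fintype.card J
  set r := 3 * Module.finrank ℚ K with hr
  have B1 : 1 ≤ B := (hE iB).one_lt.le
  have θ0 : 0 ≤ θ := by positivity
  have θ1 : θ < 1 := inv_lt_one_of_one_lt₀ (hE iθ).one_lt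
  have hu : ∀ i, u i ≠ 0 := fun i => norm_pos_iff.1 (one_pos.trans (hE i).one_lt)
  have hl : 0 < (2 * Λ ^ (q * r))⁻¹ := by positivity
  obtain ⟨D, V, D0, v1, v2⟩ := cnt_val u (fun i => (hE i).one_lt) μ hμ h hl
  set lam := (2 * Λ ^ (q * r))⁻¹ ^ D with hlam
  have l0 : 0 < lam := by positivity
  obtain ⟨T, hT⟩ := exists_pow_lt_of_lt_one (show 0 < lam / B ^ (q * D + 1) by positivity) θ1
  obtain ⟨P, C, p1, p2, p3⟩ := aux_formal σ u hu p D T V l0.le v1 v2
  refine ⟨P, p1, lsMv σ le_rfl hd2 N0 hΛ hg l0.le P p2 ?_ ?_⟩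
  · have : lam * (Λ ^ (q * D)) ^ r = (1 / 2) ^ D := by
      rw [hlam, ← pow_mul, mul_right_comm, pow_mul Λ (q * r), ← mul_pow]
      congr 1; field_simp
    rw [this]; exact pow_lt_one₀ (by norm_num) (by norm_num) D0.ne'
  have hab : ∀ i, (fun n => σ (x i n) - u i ^ d ^ n * (PowerSeries.trunc T
      (PowerSeries.map σ (p i))).eval (u i ^ d ^ n)⁻¹) =O[atTop] fun n => (B * θ ^ T) ^ d ^ n := by
    intro i
    refine (((isBigO_refl (fun n => u i ^ d ^ n) _).mul ((hE i).app T)).congr_left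
      fun n => ?_).trans (IsBigO.of_bound' (.of_forall fun n => ?_))
    · have := pow_ne_zero (d ^ n) (hu i)
      field_simp
    · rw [Real.norm_of_nonneg (show 0 ≤ (B * θ ^ T) ^ d ^ n by positivity), norm_mul, norm_pow,
        norm_pow, norm_inv, norm_pow, ← inv_pow, ← pow_mul, mul_comm (d ^ n), pow_mul, ← mul_pow]
      gcongr
      exacts [hB i, hθ i]
  have ha : ∀ i, (fun n => σ (x i n)) =O[atTop] fun n => B ^ d ^ n := fun i =>
    ((hE i).up hd2).trans (IsBigO.of_bound' (.of_forall fun n => by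
      rw [Real.norm_of_nonneg (by positivity), Real.norm_of_nonneg (by positivity)]
      exact pow_le_pow_left₀ (norm_nonneg _) (hB i) _))
  have hε : (fun n => (B * θ ^ T) ^ d ^ n) =O[atTop] fun n => B ^ d ^ n :=
    IsBigO.of_bound' (.of_forall fun n => by
      rw [Real.norm_of_nonneg (by positivity), Real.norm_of_nonneg (by positivity)]
      exact pow_le_pow_left₀ (by positivity)
        (mul_le_of_le_one_right (by positivity) (pow_le_one₀ θ0 θ1.le)) _)
  have h1 := (mv_diff σ P p2 (fun n => one_le_pow₀ B1) ha (fun i =>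
    ((ha i).sub ((hab i).trans hε)).congr_left fun n => sub_sub_cancel _ _) hab).trans
    (k := fun n => lam ^ d ^ n) (IsBigO.of_bound' (.of_forall fun n => by
      rw [Real.norm_of_nonneg (by positivity), Real.norm_of_nonneg (by positivity), ← pow_mul,
        mul_comm (d ^ n), pow_mul, ← mul_pow]
      refine pow_le_pow_left₀ (by positivity) ?_ _
      rw [← mul_assoc, ← pow_succ, mul_comm]
      exact ((lt_div_iff₀ (by positivity)).1 hT).le))
  refine (h1.add (IsBigO.of_bound C (.of_forall fun n => (p3 (d ^ n)).trans_eq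
    (by rw [Real.norm_of_nonneg (by positivity)])))).congr_left fun n => ?_
  rw [sub_add_cancel, MvPolynomial.eval, MvPolynomial.coe_eval₂Hom, MvPolynomial.eval₂_comp_left]
  rfl

theorem dep_of_rel {σ : K →+* ℂ} {d : ℕ} {f g : K[X]} {x y : ℕ → K} {p q : PowerSeries K} {u v : ℂ}
    (hx : Orb f x) (hy : Orb g y) (df : f.natDegree = d) (dg : g.natDegree = d)
    (ex : Esc σ d x p u) (ey : Esc σ d y q v) (h : Rel u v) : Dep x y := by
  obtain ⟨a, b, ha, hb, he⟩ := h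
  have hv : v ≠ 0 := norm_pos_iff.1 (one_pos.trans ey.one_lt)
  obtain ⟨P, p1, p2⟩ := aux (J := Fin 2) (σ := σ) (d := d) (f := ![f, g]) (x := ![x, y])
    (p := ![p, q]) (u := ![u, v]) (Fin.forall_fin_two.2 ⟨hx, hy⟩) (Fin.forall_fin_two.2 ⟨df, dg⟩)
    (Fin.forall_fin_two.2 ⟨ex, ey⟩) ![a, -b]
    (fun e => by simpa [ha.ne'] using congrFun e 0) (by simp [he, hv])
  exact dep_of_mv (x := ![x, y]) (i := 0) (j := 1) (by simp) (Fin.forall_fin_two.2 ⟨.inl rfl, .inr rfl⟩)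
    p1 p2

end Pool.Agent.P.MP_68214b_ag.DS
end

-- part Pool.Agent.P.MP_68214b_ag.DST9
section

open Polynomial Filter Asymptotics NumberField Topology

namespace Pool.Agent.P.MP_68214b_ag.DS

attribute [local instance] Polynomial.algebra in
theorem dst9_cop {B : Type*} [CommRing B] [IsDomain B] {G H : B[X]} (hG : Prime G)
    (h : 0 < G.natDegree → ¬ G ∣ H) :
    IsCoprime (G.map (algebraMap B (FractionRing B))) (H.map (algebraMap B (FractionRing B))) := by
  have hi := IsFractionRing.injective B (FractionRing B)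
  have h0 : G.map (algebraMap B (FractionRing B)) ≠ 0 :=
    (Polynomial.map_ne_zero_iff hi).2 hG.ne_zero
  rcases Nat.eq_zero_or_pos G.natDegree with hd | hd
  · have hu : IsUnit (G.map (algebraMap B (FractionRing B))) := by
      rw [Polynomial.isUnit_iff_degree_eq_zero, Polynomial.degree_eq_natDegree h0,
        natDegree_map_eq_of_injective hi, hd]
      rfl
    obtain ⟨u, hu⟩ := hu.exists_left_inv
    exact ⟨u, 0, by rw [hu, zero_mul, add_zero]⟩
  · have hl := Polynomial.isLocalization (nonZeroDivisors B) (FractionRing B)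
    have hp : (Ideal.span {G}).IsPrime := (Ideal.span_singleton_prime hG.ne_zero).2 hG
    have hdis : Disjoint (((nonZeroDivisors B).map (C : B →+* B[X]) : Submonoid B[X]) : Set B[X])
        (Ideal.span {G} : Ideal B[X]) := by
      rw [Set.disjoint_left]
      rintro _ ⟨b, hb, rfl⟩ hm
      have h1 : G ∣ C b := Ideal.mem_span_singleton.1 hm
      have h2 := natDegree_le_of_dvd h1 (C_ne_zero.2 (nonZeroDivisors.ne_zero hb))
      rw [natDegree_C] at h2
      omega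
    have h1 := IsLocalization.isPrime_of_isPrime_disjoint _ (FractionRing B)[X] _ hp hdis
    have h2 := IsLocalization.under_map_of_isPrime_disjoint _ (FractionRing B)[X] hp hdis
    rw [Ideal.map_span, Set.image_singleton] at h1 h2
    have h3 : Prime (G.map (algebraMap B (FractionRing B))) := (Ideal.span_singleton_prime h0).1 h1
    refine (h3.irreducible.coprime_iff_not_dvd).2 fun hk => h hd ?_
    rw [← Ideal.mem_span_singleton, ← h2]
    exact Ideal.mem_comap.2 (Ideal.mem_span_singleton.2 hk)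

theorem res1 {B : Type*} [CommRing B] [IsDomain B] (s : Multiset B[X]) (hs : ∀ G ∈ s, Prime G)
    {H : B[X]} (h : ∀ G ∈ s, 0 < G.natDegree → ¬ G ∣ H) {n : ℕ} (hn : H.natDegree ≤ n) :
    resultant s.prod H s.prod.natDegree n ≠ 0 := by
  have hi := IsFractionRing.injective B (FractionRing B)
  have hc : IsCoprime (s.prod.map (algebraMap B (FractionRing B)))
      (H.map (algebraMap B (FractionRing B))) := by
    rw [Polynomial.map_multiset_prod]
    refine Multiset.prod_induction (fun p => IsCoprime p _) _ (fun a b => IsCoprime.mul_left)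
      isCoprime_one_left fun p hp => ?_
    obtain ⟨G, hG, rfl⟩ := Multiset.mem_map.1 hp
    exact dst9_cop (hs G hG) (h G hG)
  have h0 : s.prod ≠ 0 := Multiset.prod_ne_zero fun h0 => (hs 0 h0).ne_zero rfl
  have h1 := resultant_ne_zero _ _ hc
  rw [natDegree_map_eq_of_injective hi, natDegree_map_eq_of_injective hi, resultant_map_map] at h1
  obtain ⟨k, rfl⟩ := Nat.exists_eq_add_of_le hn
  rw [resultant_add_right_deg _ _ _ _ _ le_rfl]
  refine mul_ne_zero (pow_ne_zero _ (leadingCoeff_ne_zero.2 h0)) fun e => h1 ?_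
  rw [e, map_zero]

theorem res1' {B : Type*} [CommRing B] [IsDomain B] {G H : B[X]} (hG : Prime G) (h : ¬ G ∣ H)
    {n : ℕ} (hn : H.natDegree ≤ n) : resultant G H G.natDegree n ≠ 0 := by
  have := res1 {G} (fun K hK => Multiset.mem_singleton.1 hK ▸ hG)
    (fun K hK _ => Multiset.mem_singleton.1 hK ▸ h) hn
  rwa [Multiset.prod_singleton] at this

theorem exists_comb {B : Type*} [CommRing B] [IsDomain B] {G H : B[X]} (hG : Prime G)
    (hd : 0 < G.natDegree) (h : ¬ G ∣ H) : ∃ (u v : B[X]) (r : B), r ≠ 0 ∧ G * u + H * v = C r := by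
  obtain ⟨u, v, -, -, e⟩ := exists_mul_add_mul_eq_C_resultant G H le_rfl le_rfl (Or.inl hd.ne')
  exact ⟨u, v, _, res1' hG h le_rfl, e⟩

end Pool.Agent.P.MP_68214b_ag.DS
end

-- part Pool.Agent.P.MP_68214b_ag.DSM3
section

open Polynomial Filter Asymptotics NumberField Topology

namespace Pool.Agent.P.MP_68214b_ag.DS

theorem ms2 {J K : Type*} [Fintype J] [DecidableEq J] [Field K] [CharZero K] (g : J → K[X])
    (hg : ∀ i, 0 < (g i).natDegree) (𝔭 : Ideal (MvPolynomial J K)) [𝔭.IsPrime] (h0 : 𝔭 ≠ ⊥)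
    (hφ : ∀ P, phi g P ∈ 𝔭 ↔ P ∈ 𝔭)
    (hm : ∀ (k : J) (b : MvPolynomial {m // m ≠ k} K), MvPolynomial.rename Subtype.val b ∈ 𝔭 → b = 0)
    {k : J} (i j : {m // m ≠ k}) :
    ∃ (e : ℕ) (a b : MvPolynomial {m // m ≠ k} K), 0 < e ∧ a ≠ 0 ∧ b ≠ 0 ∧
      phi (fun m : {m // m ≠ k} => g m) a * b * aeval (MvPolynomial.X i) (derivative (g i)) ^ e =
        a * phi (fun m : {m // m ≠ k} => g m) b *
          aeval (MvPolynomial.X j) (derivative (g j)) ^ e := by
  obtain ⟨G, hG, hGp⟩ := Ideal.IsPrime.exists_mem_prime_of_ne_bot ‹𝔭.IsPrime› h0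
  have hdeg : ∀ (l : J) (e : MvPolynomial J K ≃ₐ[K] (MvPolynomial {m // m ≠ l} K)[X]),
      (∀ b, e (MvPolynomial.rename Subtype.val b) = C b) → 0 < (e G).natDegree := by
    intro l e he
    refine Nat.pos_of_ne_zero fun h => hGp.ne_zero ?_
    have h1 : G = MvPolynomial.rename Subtype.val ((e G).coeff 0) :=
      e.injective (by rw [he]; exact eq_C_of_natDegree_eq_zero h)
    have h2 : (e G).coeff 0 = 0 := hm l _ (by rw [← h1]; exact hG)
    rw [h1, h2, map_zero]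
  obtain ⟨e, he1, he2, -⟩ := bridge (K := K) k
  have hdvd : ∀ H ∈ 𝔭, G ∣ H := by
    intro H hH
    by_contra hn
    obtain ⟨u, v, r, hr, h1⟩ := exists_comb ((MulEquiv.prime_iff e.toMulEquiv).2 hGp)
      (hdeg k e he1) (H := e H) fun h => hn ((map_dvd_iff e).1 h)
    refine hr (hm k r ?_)
    have h2 : MvPolynomial.rename Subtype.val r = G * e.symm u + H * e.symm v :=
      e.injective (by rw [he1, ← h1]; simp)
    rw [h2]
    exact 𝔭.add_mem (𝔭.mul_mem_right _ hG) (𝔭.mul_mem_right _ hH)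
  have hder : ∀ l, MvPolynomial.pderiv l G ∉ 𝔭 := by
    intro l hl
    obtain ⟨e', h1, -, h2⟩ := bridge (K := K) l
    have h3 := hdeg l e' h1
    have h4 : e' G ∣ derivative (e' G) := h2 G ▸ (map_dvd_iff e').2 (hdvd _ hl)
    have h5 : derivative (e' G) ≠ 0 := fun h => h3.ne' (derivative_eq_zero.1 h)
    exact (natDegree_le_of_dvd h4 h5).not_gt (natDegree_derivative_lt h3.ne')
  obtain ⟨H, hH⟩ := hdvd _ ((hφ G).2 hG)
  let _ : Algebra (MvPolynomial {m // m ≠ k} K) (MvPolynomial J K ⧸ 𝔭) :=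
    ((Ideal.Quotient.mk 𝔭).comp (MvPolynomial.rename Subtype.val).toRingHom).toAlgebra
  have hmap : ∀ b : MvPolynomial {m // m ≠ k} K, algebraMap _ (MvPolynomial J K ⧸ 𝔭) b =
      Ideal.Quotient.mk 𝔭 (MvPolynomial.rename Subtype.val b) := fun _ => rfl
  have : FaithfulSMul (MvPolynomial {m // m ≠ k} K) (MvPolynomial J K ⧸ 𝔭) :=
    (faithfulSMul_iff_algebraMap_injective _ _).2 ((injective_iff_map_eq_zero _).2 fun b hb =>
      hm k b (Ideal.Quotient.eq_zero_iff_mem.1 hb))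
  have hev : ∀ p : (MvPolynomial {m // m ≠ k} K)[X],
      aeval (Ideal.Quotient.mk 𝔭 (MvPolynomial.X k)) p = Ideal.Quotient.mk 𝔭 (e.symm p) := by
    intro p
    induction p using Polynomial.induction_on with
    | C b => rw [aeval_C, hmap, ← he1, e.symm_apply_apply]
    | add p q hp hq => rw [map_add, hp, hq, map_add, map_add]
    | monomial n b h =>
      have h2 : e.symm X = MvPolynomial.X k := by rw [← he2, e.symm_apply_apply]
      rw [pow_succ, ← mul_assoc, map_mul, h, aeval_X, map_mul e.symm _ X, h2,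
        map_mul (Ideal.Quotient.mk 𝔭)]
  have hx : IsAlgebraic (MvPolynomial {m // m ≠ k} K) (Ideal.Quotient.mk 𝔭 (MvPolynomial.X k)) :=
    ⟨e G, (map_ne_zero_iff e e.injective).2 hGp.ne_zero, by
      rw [hev, e.symm_apply_apply, Ideal.Quotient.eq_zero_iff_mem.2 hG]⟩
  have : Algebra.IsAlgebraic (MvPolynomial {m // m ≠ k} K) (MvPolynomial J K ⧸ 𝔭) := by
    refine ⟨fun z => ?_⟩
    obtain ⟨P, rfl⟩ := Ideal.Quotient.mk_surjective z
    rw [← e.symm_apply_apply P, ← hev]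
    generalize e P = p
    induction p using Polynomial.induction_on with
    | C b => rw [aeval_C]; exact isAlgebraic_algebraMap b
    | add p q hp hq => rw [map_add]; exact hp.add hq
    | monomial n b h => rw [pow_succ, ← mul_assoc, map_mul, aeval_X]; exact h.mul hx
  let φA : (MvPolynomial J K ⧸ 𝔭) →+* MvPolynomial J K ⧸ 𝔭 :=
    Ideal.quotientMap 𝔭 (phi g).toRingHom fun P hP => (hφ P).2 hP
  have hφA : ∀ P, φA (Ideal.Quotient.mk 𝔭 P) = Ideal.Quotient.mk 𝔭 (phi g P) := fun _ => rfl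
  have hE : ∀ l : {m // m ≠ k}, φA (Ideal.Quotient.mk 𝔭 (MvPolynomial.pderiv l.1 G)) *
      algebraMap (MvPolynomial {m // m ≠ k} K) _ (aeval (MvPolynomial.X l) (derivative (g l))) =
      Ideal.Quotient.mk 𝔭 (MvPolynomial.pderiv l.1 G) * Ideal.Quotient.mk 𝔭 H := by
    intro l
    rw [hφA, hmap, rename_aeval_X, ← map_mul, ← pderiv_phi, hH, Derivation.leibniz, map_add,
      smul_eq_mul, smul_eq_mul, map_mul, map_mul, Ideal.Quotient.eq_zero_iff_mem.2 hG, zero_mul,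
      zero_add, mul_comm]
  have hγ : ∀ l : {m // m ≠ k}, (aeval (MvPolynomial.X l) (derivative (g l)) :
      MvPolynomial {m // m ≠ k} K) ≠ 0 := fun l =>
    aeval_X_ne l fun h => (hg l).ne' (derivative_eq_zero.1 h)
  exact ms1 φA (phi fun m : {m // m ≠ k} => g m).toRingHom
    (fun b => by rw [hmap, hφA, phi_rename, hmap]; rfl)
    ((injective_iff_map_eq_zero _).2 fun z hz => by
      obtain ⟨P, rfl⟩ := Ideal.Quotient.mk_surjective z
      rw [hφA, Ideal.Quotient.eq_zero_iff_mem, hφ] at hz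
      exact Ideal.Quotient.eq_zero_iff_mem.2 hz)
    (fun h => hder i (Ideal.Quotient.eq_zero_iff_mem.1 h))
    (fun h => hder j (Ideal.Quotient.eq_zero_iff_mem.1 h)) (hγ i) (hγ j) (hE i) (hE j)

end Pool.Agent.P.MP_68214b_ag.DS
end

-- part Pool.Agent.P.MP_68214b_ag.DSM5
section

open Polynomial Filter Asymptotics NumberField Topology

namespace Pool.Agent.P.MP_68214b_ag.DS

theorem orbi_of_id {I : Type*} [DecidableEq I] (g : I → ℂ[X]) (hg : ∀ i, 0 < (g i).natDegree)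
    {i j : I} (hij : i ≠ j) {a b : MvPolynomial I ℂ} (ha : a ≠ 0) (hb : b ≠ 0) {e : ℕ} (he : 0 < e)
    (h : phi g a * b * aeval (MvPolynomial.X i) (derivative (g i)) ^ e =
      a * phi g b * aeval (MvPolynomial.X j) (derivative (g j)) ^ e) : Orbi (g i) := by
  obtain ⟨E, hE1, hE2, -⟩ := bridge (K := ℂ) i
  set B := MvPolynomial {m // m ≠ i} ℂ
  set ψ : B →ₐ[ℂ] B := phi fun m : {m // m ≠ i} => g m with hψ
  set Φ : B[X] →+* B[X] := ((E : MvPolynomial I ℂ →ₐ[ℂ] B[X]).comp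
    ((phi g).comp (E.symm : B[X] →ₐ[ℂ] MvPolynomial I ℂ))).toRingHom with hΦ
  have Φa : ∀ P, Φ (E P) = E (phi g P) := fun P => by simp [hΦ]
  have EX : ∀ q : ℂ[X], E (aeval (MvPolynomial.X i) q) = q.map (algebraMap ℂ B) := fun q => by
    rw [← aeval_algHom_apply, hE2, aeval_def, eval₂_eq_eval_map]
    rw [show algebraMap ℂ B[X] = C.comp (algebraMap ℂ B) from rfl, ← Polynomial.map_map,
      eval_map, eval₂_C_X]
  have hder : derivative (g j) ≠ 0 := fun h0 => by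
    have := derivative_eq_zero.1 h0
    have := hg j
    omega
  refine ms3 ψ (phi_inj _ fun m => hg m) (hg i) Φ (fun c => ?_) ?_ (a := E a) (b := E b)
    (by simpa using ha) (by simpa using hb)
    (γ := aeval (MvPolynomial.X (⟨j, hij.symm⟩ : {m // m ≠ i}) : B) (derivative (g j)))
    (aeval_X_ne _ hder) he ?_
  · rw [← hE1, Φa, phi_rename, hE1]
  · rw [← hE2, Φa, phi_X, EX]
  · rw [Φa, Φa, ← EX, ← hE1, rename_aeval_X]
    simpa only [map_mul, map_pow] using congrArg E h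

theorem dsm5_three {J : Type} {q : J → Prop}
    (h3 : ∀ i j k, i ≠ j → i ≠ k → j ≠ k → q i ∨ q j ∨ q k) {a b c : J} (ab : a ≠ b) (ac : a ≠ c)
    (bc : b ≠ c) : ∃ i j k, i ≠ j ∧ i ≠ k ∧ j ≠ k ∧ q i := by
  rcases h3 a b c ab ac bc with h | h | h
  · exact ⟨a, b, c, ab, ac, bc, h⟩
  · exact ⟨b, a, c, ab.symm, bc, ac, h⟩
  · exact ⟨c, a, b, ac.symm, bc.symm, ab, h⟩

theorem dsm5_aux {K : Type*} [Field K] [CharZero K] (σ : K →+* ℂ) (n : ℕ) :
    ∀ {J : Type} [Fintype J] {g : J → K[X]} {x : J → ℕ → K}, Fintype.card J = n →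
      (∀ i, Orb (g i) (x i)) →
      (∀ i j k, i ≠ j → i ≠ k → j ≠ k → NSa (g i) ∨ NSa (g j) ∨ NSa (g k)) → Dom x →
      ∀ {P : MvPolynomial J K}, P ≠ 0 → Van x P →
        (∃ i, Alg0 (x i)) ∨ ∃ i j, i ≠ j ∧ Dep (x i) (x j) := by
  classical
  induction n using Nat.strong_induction_on with
  | _ n ih =>
  intro J _ g x hn h h3 hD P hP hV
  by_cases hm : ∃ (k : J) (b : MvPolynomial {m // m ≠ k} K),
      b ≠ 0 ∧ Van x (MvPolynomial.rename Subtype.val b)
  · obtain ⟨k, b, hb, hv⟩ := hm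
    have hlt : Fintype.card {m // m ≠ k} < n := by
      rw [← hn]; exact Fintype.card_subtype_lt (x := k) (by simp)
    rcases ih _ hlt (g := fun m : {m // m ≠ k} => g m) (x := fun m : {m // m ≠ k} => x m) rfl
      (fun m => h m) (fun i j l a b c => h3 i j l (Subtype.coe_ne_coe.2 a) (Subtype.coe_ne_coe.2 b)
        (Subtype.coe_ne_coe.2 c)) (hD.comp Subtype.val) hb ((van_rename _ _ _).1 hv) with
      ⟨i, hi⟩ | ⟨i, j, hij, hd⟩
    · exact Or.inl ⟨i, hi⟩
    · exact Or.inr ⟨i, j, Subtype.coe_ne_coe.2 hij, hd⟩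
  rcases isEmpty_or_nonempty J with hJ | ⟨⟨a⟩⟩
  · exact absurd hV (not_van_empty hP)
  by_cases h1 : ∀ k, k = a
  · exact Or.inl ⟨a, alg0_of_mv h1 hP hV⟩
  obtain ⟨b, hb⟩ := not_forall.1 h1
  by_cases h2 : ∀ k, k = a ∨ k = b
  · exact Or.inr ⟨a, b, Ne.symm hb, dep_of_mv (Ne.symm hb) h2 hP hV⟩
  obtain ⟨c, hc⟩ := not_forall.1 h2
  rw [not_or] at hc
  obtain ⟨i, j, k, ij, ik, jk, hi⟩ := dsm5_three h3 (Ne.symm hb) (Ne.symm hc.1) (Ne.symm hc.2)
  exfalso
  let 𝔭 : Ideal (MvPolynomial J K) :=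
    { carrier := {Q | Van x Q}
      add_mem' := fun {p q} hp hq => (hp.and hq).mono fun n hn => by
        rw [map_add, hn.1, hn.2, add_zero]
      zero_mem' := Eventually.of_forall fun n => map_zero _
      smul_mem' := fun p q hq => hq.mono fun n hn => by
        rw [smul_eq_mul, map_mul, hn, mul_zero] }
  have hpr : 𝔭.IsPrime := ⟨fun ht => by
      have : Van x 1 := show (1 : MvPolynomial J K) ∈ 𝔭 from ht ▸ Submodule.mem_top
      obtain ⟨n, hn⟩ := this.exists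
      simp at hn, fun {p q} hpq => hD p q hpq⟩
  have hg : ∀ m, 0 < (g m).natDegree := fun m => by have := (h m).deg; omega
  obtain ⟨e, u, v, he, hu, hv, hid⟩ := ms2 g hg 𝔭
    (fun h0 => hP (by have : P ∈ 𝔭 := hV; rwa [h0, Ideal.mem_bot] at this))
    (fun Q => van_phi (fun m => (h m).step) Q)
    (fun k b hb => by_contra fun h0 => hm ⟨k, b, h0, hb⟩) (k := k) ⟨i, ik⟩ ⟨j, jk⟩
  have inj := MvPolynomial.map_injective (σ := {m // m ≠ k}) σ σ.injective
  refine (hi σ).orb (orbi_of_id (fun m : {m // m ≠ k} => (g m).map σ)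
    (fun m => by rw [natDegree_map]; exact hg m) (i := ⟨i, ik⟩) (j := ⟨j, jk⟩)
    (fun e => ij (congrArg Subtype.val e)) (a := MvPolynomial.map σ u) (b := MvPolynomial.map σ v)
    ((map_ne_zero_iff _ inj).2 hu) ((map_ne_zero_iff _ inj).2 hv) he ?_)
  have := congrArg (MvPolynomial.map σ) hid
  simpa only [map_mul, map_pow, phi_map, map_aeval_X, ← derivative_map] using this

theorem msl {K : Type*} [Field K] [CharZero K] (σ : K →+* ℂ) {J : Type} [Fintype J] {g : J → K[X]}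
    {x : J → ℕ → K} (h : ∀ i, Orb (g i) (x i))
    (h3 : ∀ i j k, i ≠ j → i ≠ k → j ≠ k → NSa (g i) ∨ NSa (g j) ∨ NSa (g k)) (hD : Dom x)
    {P : MvPolynomial J K} (hP : P ≠ 0) (hV : Van x P) :
    (∃ i, Alg0 (x i)) ∨ ∃ i j, i ≠ j ∧ Dep (x i) (x j) := dsm5_aux σ _ rfl h h3 hD hP hV

end Pool.Agent.P.MP_68214b_ag.DS
end

-- part Pool.Agent.P.MP_68214b_ag.DSX7
section

open Polynomial Filter Asymptotics NumberField Topology

namespace Pool.Agent.P.MP_68214b_ag.DS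

variable {K : Type} [Field K] [NumberField K]

theorem tend_prog (c : ℕ) {l : ℕ} (hl : 0 < l) : Tendsto (fun t => c + l * t) atTop atTop :=
  tendsto_atTop_mono (fun t => show t ≤ c + l * t by nlinarith) tendsto_id

theorem st {J : Type} [Fintype J] {σ : K →+* ℂ} {d : ℕ} {f : J → K[X]} {x : J → ℕ → K}
    {p : J → PowerSeries K} {u : J → ℂ} (hO : ∀ i, Orb (f i) (x i))
    (h3 : ∀ i j k, i ≠ j → i ≠ k → j ≠ k → NSa (f i) ∨ NSa (f j) ∨ NSa (f k))
    (hd : ∀ i, (f i).natDegree = d)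
    (hE : ∀ i, Esc σ d (x i) (p i) (u i)) (μ : J → ℤ) (hμ : μ ≠ 0) (h : ∏ i, u i ^ μ i = 1) :
    ∃ i j, i ≠ j ∧ Rel (u i) (u j) := by
  obtain ⟨P, hP, hV⟩ := aux hO hd hE μ hμ h
  obtain ⟨l, hl, hD⟩ := oc f x fun i => (hO i).step
  obtain ⟨i0, -⟩ := Function.ne_iff.1 hμ
  have d2 : 2 ≤ d := hd i0 ▸ (hO i0).deg
  have dl : 2 ≤ d ^ l := d2.trans (Nat.le_self_pow hl.ne' _)
  have hE' := fun i => (hE i).prog (by omega) 0 hl
  have ht := tend_prog 0 hl
  rcases msl σ (fun i => (hO i).prog 0 hl) (fun i j k a b c => (h3 i j k a b c).imp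
    (fun e => e.iter (hO i).deg hl) (Or.imp (fun e => e.iter (hO j).deg hl)
      fun e => e.iter (hO k).deg hl)) (hD 0) hP (ht.eventually hV) with ⟨i, hi⟩ | ⟨i, j, hij, hdep⟩
  · exact absurd hi ((hE' i).not_alg0 dl)
  · exact ⟨i, j, hij, by simpa using be dl (hE' i) (hE' j) hdep⟩

end Pool.Agent.P.MP_68214b_ag.DS
end

-- part Pool.Agent.P.MP_68214b_ag.DSX8
section

open Polynomial Filter Asymptotics NumberField Topology

namespace Pool.Agent.P.MP_68214b_ag.DS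

variable {K : Type} [Field K] [NumberField K]

theorem self_pow {u : ℂ} (hu : 1 < ‖u‖) (h : Rel u ((starRingEnd ℂ) u)) :
    ∃ e : ℕ, 0 < e ∧ u ^ (2 * e) = (u * (starRingEnd ℂ) u) ^ e := by
  obtain ⟨a, b, ha, -, h⟩ := h
  have := congrArg norm h
  rw [norm_pow, norm_pow, RCLike.norm_conj] at this
  obtain rfl : a = b := pow_right_injective₀ (by linarith) hu.ne' this
  exact ⟨a, ha, by rw [mul_pow, ← h, two_mul, pow_add]⟩

theorem mul_conj_pow {u v : ℂ} {a b : ℕ} (h : ‖u‖ ^ a = ‖v‖ ^ b) :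
    (u * (starRingEnd ℂ) u) ^ a = (v * (starRingEnd ℂ) v) ^ b := by
  rw [Complex.mul_conj', Complex.mul_conj', ← pow_mul, ← pow_mul, mul_comm 2, mul_comm 2, pow_mul,
    pow_mul]
  exact_mod_cast congrArg (· ^ (2 : ℕ)) h

theorem rel_conj_swap {u v : ℂ} (h : Rel ((starRingEnd ℂ) u) v) : Rel u ((starRingEnd ℂ) v) := by
  simpa using h.conj

theorem dsx8_half (hK : Cj K) {σ : K →+* ℂ} {d : ℕ} {f g : K[X]} {x y : ℕ → K}
    {p q : PowerSeries K} {u v : ℂ} (hx : Orb f x) (hy : Orb g y) (hN : NSa f ∨ NSa g)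
    (df : f.natDegree = d) (dg : g.natDegree = d) (ex : Esc σ d x p u) (ey : Esc σ d y q v)
    {a b : ℕ} (ha : 0 < a) (h : ‖u‖ ^ a = ‖v‖ ^ b) (su : Rel u ((starRingEnd ℂ) u))
    (sv : ¬ Rel v ((starRingEnd ℂ) v)) : Rel u v ∨ Rel u ((starRingEnd ℂ) v) := by
  obtain ⟨c, hc⟩ := hK σ
  obtain ⟨e, he, h1⟩ := self_pow ex.one_lt su
  have v0 : v ≠ 0 := norm_pos_iff.1 (by linarith [ey.one_lt])
  have v1 : (starRingEnd ℂ) v ≠ 0 := by simpa using v0
  obtain ⟨i, j, hij, hr⟩ := st (J := Fin 3) (f := ![f, g, g.map c])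
    (x := ![x, y, fun n => c (y n)]) (p := ![p, q, PowerSeries.map c q])
    (u := ![u, v, (starRingEnd ℂ) v]) (σ := σ) (d := d)
    (fun i => by fin_cases i; exacts [hx, hy, hy.conj c])
    (fun i j k a b e => by
      rcases hN with hN | hN
      · fin_cases i <;> fin_cases j <;> fin_cases k <;> simp_all
      · have := hN.map c
        fin_cases i <;> fin_cases j <;> fin_cases k <;> simp_all)
    (fun i => by fin_cases i; exacts [df, dg, (natDegree_map c).trans dg])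
    (fun i => by fin_cases i; exacts [ex, ey, ey.conj hc])
    ![(2 * e * a : ℕ), -(e * b : ℕ), -(e * b : ℕ)]
    (fun h0 => by
      have : ((2 * e * a : ℕ) : ℤ) = 0 := congrFun h0 0
      have h2 : 0 < 2 * e * a := by positivity
      omega)
    (by
      simp only [Fin.prod_univ_three, Matrix.cons_val_zero, Matrix.cons_val_one, Matrix.cons_val,
        zpow_neg, zpow_natCast]
      rw [pow_mul, h1, ← pow_mul, mul_comm e a, pow_mul, mul_conj_pow h, ← pow_mul, mul_comm b e,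
        mul_pow]
      field_simp)
  fin_cases i <;> fin_cases j
  all_goals first
    | exact absurd rfl hij
    | exact Or.inl hr
    | exact Or.inr hr
    | exact Or.inl hr.symm
    | exact Or.inr hr.symm
    | exact absurd hr sv
    | exact absurd hr.symm sv

theorem conj_rel (hK : Cj K) {σ : K →+* ℂ} {d : ℕ} {f g : K[X]} {x y : ℕ → K}
    {p q : PowerSeries K} {u v : ℂ} (hx : Orb f x) (hy : Orb g y) (hN : NSa f ∨ NSa g)
    (df : f.natDegree = d) (dg : g.natDegree = d) (ex : Esc σ d x p u) (ey : Esc σ d y q v)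
    {a b : ℕ} (ha : 0 < a) (hb : 0 < b) (h : ‖u‖ ^ a = ‖v‖ ^ b) :
    Rel u v ∨ Rel u ((starRingEnd ℂ) v) := by
  by_cases su : Rel u ((starRingEnd ℂ) u) <;> by_cases sv : Rel v ((starRingEnd ℂ) v)
  · obtain ⟨e, he, h1⟩ := self_pow ex.one_lt su
    obtain ⟨e', he', h2⟩ := self_pow ey.one_lt sv
    refine Or.inl ⟨2 * e * (a * e'), 2 * e' * (b * e), by positivity, by positivity, ?_⟩
    rw [pow_mul u, h1, pow_mul v, h2, ← pow_mul, ← pow_mul, show e * (a * e') = a * (e * e') by ring,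
      show e' * (b * e) = b * (e * e') by ring, pow_mul, mul_conj_pow h, ← pow_mul]
  · exact dsx8_half hK hx hy hN df dg ex ey ha h su sv
  · rcases dsx8_half hK hy hx hN.symm dg df ey ex hb h.symm sv su with h1 | h1
    · exact Or.inl h1.symm
    · exact Or.inr (rel_conj_swap h1.symm)
  obtain ⟨c, hc⟩ := hK σ
  have v0 : v ≠ 0 := norm_pos_iff.1 (by linarith [ey.one_lt])
  have v1 : (starRingEnd ℂ) v ≠ 0 := by simpa using v0
  obtain ⟨i, j, hij, hr⟩ := st (J := Fin 4) (f := ![f, f.map c, g, g.map c])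
    (x := ![x, fun n => c (x n), y, fun n => c (y n)])
    (p := ![p, PowerSeries.map c p, q, PowerSeries.map c q])
    (u := ![u, (starRingEnd ℂ) u, v, (starRingEnd ℂ) v]) (σ := σ) (d := d)
    (fun i => by fin_cases i; exacts [hx, hx.conj c, hy, hy.conj c])
    (fun i j k a b e => by
      rcases hN with hN | hN
      · have := hN.map c
        fin_cases i <;> fin_cases j <;> fin_cases k <;> simp_all
      · have := hN.map c
        fin_cases i <;> fin_cases j <;> fin_cases k <;> simp_all)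
    (fun i => by
      fin_cases i; exacts [df, (natDegree_map c).trans df, dg, (natDegree_map c).trans dg])
    (fun i => by fin_cases i; exacts [ex, ex.conj hc, ey, ey.conj hc])
    ![a, a, -b, -b]
    (fun h0 => by
      have : (a : ℤ) = 0 := congrFun h0 0
      omega)
    (by
      simp only [Fin.prod_univ_four, Matrix.cons_val_zero, Matrix.cons_val_one, Matrix.cons_val,
        zpow_neg, zpow_natCast]
      rw [← mul_pow, mul_conj_pow h, mul_pow]
      field_simp)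
  fin_cases i <;> fin_cases j
  all_goals first
    | exact absurd rfl hij
    | exact Or.inl hr
    | exact Or.inr hr
    | exact Or.inl hr.symm
    | exact Or.inr hr.symm
    | exact absurd hr sv
    | exact absurd hr.symm sv
    | exact absurd hr su
    | exact absurd hr.symm su
    | exact Or.inr (rel_conj_swap hr)
    | exact Or.inr (rel_conj_swap hr.symm)
    | exact Or.inl (by simpa using hr.conj)
    | exact Or.inl (by simpa using hr.symm.conj)

end Pool.Agent.P.MP_68214b_ag.DS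
end

-- part Pool.Agent.P.MP_68214b_ag.DSP4
section

open Polynomial Filter Asymptotics NumberField Topology

namespace Pool.Agent.P.MP_68214b_ag.DS

theorem dsp4_X {F : Type*} [Field F] :
    algebraMap (PowerSeries F) (FractionRing (PowerSeries F)) PowerSeries.X ≠ 0 := by
  rw [Ne, IsFractionRing.to_map_eq_zero_iff]
  exact PowerSeries.X_ne_zero

theorem evb_hom {K F : Type*} [Field K] [Field F] (ι : K →+* F) (a b : ℕ) (P1 P2 : PowerSeries F)
    {G : K[X][X]} {D : ℕ} (hG : Bd G D D) :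
    hom2 (PowerSeries.C.comp ι) a b D P1 P2 PowerSeries.X G = 0 ↔ evb ι a b P1 P2 G = 0 := by
  have hX := dsp4_X (F := F)
  have h := hom2_eq ((algebraMap (PowerSeries F) (FractionRing (PowerSeries F))).comp
    (PowerSeries.C.comp ι)) a b
    (algebraMap (PowerSeries F) _ P1 / algebraMap (PowerSeries F) _ PowerSeries.X ^ b)
    (algebraMap (PowerSeries F) _ P2 / algebraMap (PowerSeries F) _ PowerSeries.X ^ a)
    (algebraMap (PowerSeries F) _ PowerSeries.X) hG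
  rw [div_mul_cancel₀ _ (pow_ne_zero _ hX), div_mul_cancel₀ _ (pow_ne_zero _ hX), ← hom2_map] at h
  rw [← IsFractionRing.to_map_eq_zero_iff (K := FractionRing (PowerSeries F)), h, mul_eq_zero,
    or_iff_right (pow_ne_zero _ hX)]
  rfl

theorem dsp4_ext {K S : Type*} [CommRing K] [CommRing S] {φ ψ : K[X][X] →+* S}
    (h0 : ∀ c, φ (C (C c)) = ψ (C (C c))) (h1 : φ (C X) = ψ (C X)) (h2 : φ X = ψ X) : φ = ψ := by
  refine Polynomial.ringHom_ext' ?_ h2
  exact Polynomial.ringHom_ext (fun c => h0 c) h1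

theorem phi2_eval {K : Type*} [CommRing K] (f1 f2 : K[X]) (A : K[X][X]) (x y : K) :
    (phi2 f1 f2 A).evalEval x y = A.evalEval (f1.eval x) (f2.eval y) := by
  have h : (evalEvalRingHom x y).comp (phi2 f1 f2) = evalEvalRingHom (f1.eval x) (f2.eval y) := by
    refine dsp4_ext (fun c => ?_) ?_ ?_
    · simp [phi2]
    · simp [phi2]
    · simp [phi2]
  exact RingHom.congr_fun h A

theorem dsp4_resc {F : Type*} [CommRing F] (c : F) {d : ℕ} (hd : d ≠ 0) (p : PowerSeries F) :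
    PowerSeries.rescale c (PowerSeries.expand d hd p) =
      PowerSeries.expand d hd (PowerSeries.rescale (c ^ d) p) := by
  ext n
  rw [PowerSeries.coeff_rescale, PowerSeries.coeff_expand, PowerSeries.coeff_expand]
  split_ifs with h
  · obtain ⟨q, rfl⟩ := h
    rw [Nat.mul_div_cancel_left _ (Nat.pos_of_ne_zero hd), PowerSeries.coeff_rescale, pow_mul]
  · rw [mul_zero]

theorem dsp4_rescC {F : Type*} [CommRing F] (c r : F) :
    PowerSeries.rescale c (PowerSeries.C r) = PowerSeries.C r := by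
  ext n
  rw [PowerSeries.coeff_rescale, PowerSeries.coeff_C]
  split_ifs with h
  · rw [h, pow_zero, one_mul]
  · rw [mul_zero]

theorem dsp4_comm {F : Type*} [CommRing F] {a d : ℕ} (ha : a ≠ 0) (hd : d ≠ 0) (p : PowerSeries F) :
    PowerSeries.expand a ha (PowerSeries.expand d hd p) =
      PowerSeries.expand d hd (PowerSeries.expand a ha p) := by
  rw [← PowerSeries.expand_mul, ← PowerSeries.expand_mul]
  congr 2
  exact mul_comm a d

theorem bott_ser {F : Type*} [Field F] {f : F[X]} {p : PowerSeries F} (hd : 0 < f.natDegree)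
    (h : Bott f p) {a : ℕ} (ha : 0 < a) {β : F} (hβ : β ≠ 0) :
    ∑ j ∈ Finset.range (f.natDegree + 1), PowerSeries.C (f.coeff j) *
      (PowerSeries.X ^ a) ^ (f.natDegree - j) * ser p a β ^ j =
      ex f.natDegree (ser p a (β ^ f.natDegree)) := by
  have h' := congrArg (fun q => PowerSeries.C (β ^ f.natDegree) *
    PowerSeries.expand a ha.ne' (PowerSeries.rescale β⁻¹ q)) h
  simp only [map_sum, map_mul, map_pow, Finset.mul_sum] at h'
  rw [ex_eq hd.ne', dsp4_resc, dsp4_comm] at h'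
  unfold ser
  rw [ex_eq hd.ne', ex_eq ha.ne', ex_eq ha.ne', map_mul, PowerSeries.expand_C, ← inv_pow,
    map_pow PowerSeries.C, ← h']
  refine Finset.sum_congr rfl fun j hj => ?_
  have hj' : j ≤ f.natDegree := Nat.lt_succ_iff.1 (Finset.mem_range.1 hj)
  obtain ⟨k, hk⟩ := Nat.exists_eq_add_of_le hj'
  have e : (PowerSeries.C β : PowerSeries F) * PowerSeries.C β⁻¹ = 1 := by
    rw [← map_mul, mul_inv_cancel₀ hβ, map_one]
  rw [dsp4_rescC, PowerSeries.expand_C, PowerSeries.rescale_X, map_mul, PowerSeries.expand_C,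
    PowerSeries.expand_X, hk, Nat.add_sub_cancel_left]
  have e2 : ((PowerSeries.C β : PowerSeries F) * PowerSeries.C β⁻¹) ^ k = 1 := by rw [e, one_pow]
  linear_combination (-(PowerSeries.C (f.coeff j) * (PowerSeries.X ^ a) ^ k * PowerSeries.C β ^ j *
    PowerSeries.expand a ha.ne' (PowerSeries.rescale β⁻¹ p) ^ j)) * e2

theorem dsp4_inj {F : Type*} [Field F] {d : ℕ} (hd : d ≠ 0) :
    Function.Injective ((algebraMap (PowerSeries F) (FractionRing (PowerSeries F))).comp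
      (PowerSeries.expand d hd : PowerSeries F →ₐ[F] PowerSeries F).toRingHom) := by
  refine (IsFractionRing.injective (PowerSeries F) (FractionRing (PowerSeries F))).comp
    fun p q hpq => ?_
  ext n
  have := congrArg (PowerSeries.coeff (d * n)) hpq
  simpa using this

theorem dsp4_ev {K F : Type*} [Field K] [Field F] (ι : K →+* F) {a d : ℕ} (ha : 0 < a)
    (hd : 0 < d) {f : K[X]} (d1 : f.natDegree = d) {p : PowerSeries K} (b1 : Bott f p) {β : F}
    (hβ : β ≠ 0) :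
    f.eval₂ ((algebraMap (PowerSeries F) (FractionRing (PowerSeries F))).comp
      (PowerSeries.C.comp ι)) (algebraMap (PowerSeries F) _ (ser (PowerSeries.map ι p) a β) /
        algebraMap (PowerSeries F) _ PowerSeries.X ^ a) =
      algebraMap (PowerSeries F) _
        (PowerSeries.expand d hd.ne' (ser (PowerSeries.map ι p) a (β ^ d))) /
        (algebraMap (PowerSeries F) _ PowerSeries.X ^ d) ^ a := by
  have hX := dsp4_X (F := F)
  have dm : (f.map ι).natDegree = d := by rw [natDegree_map, d1]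
  have h := bott_ser (f := f.map ι) (dm ▸ hd) (Bott.map ι (d1 ▸ hd) b1) ha hβ
  rw [dm, ex_eq hd.ne'] at h
  rw [← h, eval₂_eq_sum_range, d1, map_sum, Finset.sum_div]
  refine Finset.sum_congr rfl fun j hj => ?_
  have hj' : j ≤ d := Nat.lt_succ_iff.1 (Finset.mem_range.1 hj)
  obtain ⟨k, rfl⟩ := Nat.exists_eq_add_of_le hj'
  simp only [map_mul, map_pow, coeff_map, RingHom.comp_apply, Nat.add_sub_cancel_left, div_pow]
  field_simp
  ring

theorem evc_phi {K F : Type*} [Field K] [Field F] (ι : K →+* F) {a b d : ℕ} (ha : 0 < a)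
    (hb : 0 < b) (hd : 0 < d) {f1 f2 : K[X]} (d1 : f1.natDegree = d) (d2 : f2.natDegree = d)
    {p1 p2 : PowerSeries K} (b1 : Bott f1 p1) (b2 : Bott f2 p2) {β : F} (hβ : β ≠ 0) {A : K[X][X]}
    (h : evc ι a b p1 p2 (β ^ d) A = 0) : evc ι a b p1 p2 β (phi2 f1 f2 A) = 0 := by
  have key : (evc ι a b p1 p2 β).comp (phi2 f1 f2) =
      (IsFractionRing.lift (dsp4_inj (F := F) hd.ne')).comp (evc ι a b p1 p2 (β ^ d)) := by
    refine dsp4_ext (fun c => ?_) ?_ ?_
    · simp [phi2, evc, evb, PowerSeries.expand_C]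
    · have := dsp4_ev ι hb hd d1 b1 (one_ne_zero : (1 : F) ≠ 0)
      rw [one_pow] at this
      simp [phi2, evc, evb]
      simpa using this
    · have := dsp4_ev ι ha hd d2 b2 hβ
      simp [phi2, evc, evb, eval₂_map]
      rw [← this]
  have := RingHom.congr_fun key A
  rw [RingHom.comp_apply, RingHom.comp_apply, h, map_zero] at this
  exact this

end Pool.Agent.P.MP_68214b_ag.DS
end

-- part Pool.Agent.P.MP_68214b_ag.DSP5
section

open Polynomial Filter Asymptotics NumberField Topology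

namespace Pool.Agent.P.MP_68214b_ag.DS

variable {K : Type} [Field K] [NumberField K] {d a b : ℕ} {f1 f2 : K[X]} {y1 y2 : ℕ → K}
  {p1 p2 : PowerSeries K} {τ γ : ℂ}

theorem low_order {L F : Type*} [Field L] [Field F] [Algebra L F] [FiniteDimensional L F] (a b : ℕ)
    (P1 P2 : PowerSeries F) {D N : ℕ} (h : Module.finrank L F * N < (D + 1) * (D + 1)) :
    ∃ G : L[X][X], G ≠ 0 ∧ Bd G D D ∧ ∀ k < N, PowerSeries.coeff k
      (hom2 (PowerSeries.C.comp (algebraMap L F)) a b D P1 P2 PowerSeries.X G) = 0 := by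
  let w : Fin (D + 1) × Fin (D + 1) → Fin N → F := fun x k => PowerSeries.coeff k
    ((P1 ^ (x.1 : ℕ) * PowerSeries.X ^ (b * (D - x.1))) *
      (P2 ^ (x.2 : ℕ) * PowerSeries.X ^ (a * (D - x.2))))
  have h1 : LinearMap.ker (Fintype.linearCombination L w) ≠ ⊥ :=
    LinearMap.ker_ne_bot_of_finrank_lt (by
      rw [Module.finrank_pi_fintype, Module.finrank_fintype_fun_eq_card]
      simpa [mul_comm] using h)
  obtain ⟨c, hc, c0⟩ := Submodule.exists_mem_ne_zero_of_ne_bot h1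
  obtain ⟨G, hG⟩ : ∃ G : L[X][X], G = ∑ j : Fin (D + 1), monomial (j : ℕ)
    (∑ i : Fin (D + 1), monomial (i : ℕ) (c (i, j))) := ⟨_, rfl⟩
  have e1 : ∀ {R : Type _} [CommRing R] (g : Fin (D + 1) → R) (j : Fin (D + 1)),
      (∑ i : Fin (D + 1), monomial (i : ℕ) (g i)).coeff j = g j := fun g j => by
    simp [coeff_monomial, Fin.val_inj]
  have e2 : ∀ {R : Type _} [CommRing R] (g : Fin (D + 1) → R),
      (∑ i : Fin (D + 1), monomial (i : ℕ) (g i)).natDegree ≤ D := fun g =>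
    natDegree_sum_le_of_forall_le _ _ fun i _ =>
      (natDegree_monomial_le _).trans (Nat.lt_succ_iff.1 i.2)
  have e3 : ∀ i j : Fin (D + 1), (G.coeff j).coeff i = c (i, j) := fun i j => by
    have e4 : G.coeff j = ∑ i : Fin (D + 1), monomial (i : ℕ) (c (i, j)) := by
      simp [hG, coeff_monomial, Fin.val_inj]
    rw [e4, e1]
  have e5 : G.natDegree ≤ D := hG ▸ natDegree_sum_le_of_forall_le _ _ fun i _ =>
    (natDegree_monomial_le _).trans (Nat.lt_succ_iff.1 i.2)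
  refine ⟨G, fun e => c0 (funext fun x => ?_), ⟨fun j => ?_, e5⟩, fun k hk => ?_⟩
  · rw [← e3 x.1 x.2, e]; simp
  · by_cases hj : j < D + 1
    · have e4 : G.coeff j = ∑ i : Fin (D + 1), monomial (i : ℕ) (c (i, ⟨j, hj⟩)) := by
        rw [hG, finsetSum_coeff, Finset.sum_eq_single ⟨j, hj⟩]
        · rw [coeff_monomial, if_pos rfl]
        · intro i _ hi
          rw [coeff_monomial, if_neg fun e => hi (Fin.ext e)]
        · simp
      rw [e4]; exact e2 _
    · rw [coeff_eq_zero_of_natDegree_lt (by omega)]; simp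
  · have := congrFun (LinearMap.mem_ker.1 hc) ⟨k, hk⟩
    rw [Fintype.linearCombination_apply, Finset.sum_apply, Fintype.sum_prod_type_right] at this
    rw [hom2, Finset.sum_range, map_sum]
    refine Eq.trans (Finset.sum_congr rfl fun j _ => ?_) this
    rw [Finset.sum_range, map_sum]
    refine Finset.sum_congr rfl fun i _ => ?_
    rw [e3, mul_assoc, RingHom.comp_apply, PowerSeries.coeff_C_mul, Pi.smul_apply, Algebra.smul_def]

theorem dsp5_as {F : Type} [Field F] [Algebra K F] (φ : F →+* ℂ)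
    (h : Pr (φ.comp (algebraMap K F)) d a b f1 f2 y1 y2 p1 p2 τ γ) {β : F} (hβ : ‖φ β‖ = 1)
    {T : ℕ} (hN : Near d τ γ (φ β) T) : ∃ 𝓕 : Filter ℕ, 𝓕.NeBot ∧ 𝓕 ≤ atTop ∧
      ∀ D (G : K[X][X]), Bd G D D → As 𝓕 (fun n => τ ^ d ^ n) T
        (fun n => (τ ^ d ^ n) ^ ((a + b) * D) *
          φ.comp (algebraMap K F) (G.evalEval (y1 n) (y2 n)))
        (PowerSeries.map φ (hom2 (PowerSeries.C.comp (algebraMap K F)) a b D
          (ser (PowerSeries.map (algebraMap K F) p1) b 1)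
          (ser (PowerSeries.map (algebraMap K F) p2) a β) PowerSeries.X G)) := by
  obtain ⟨𝓕, h1, h2, h3, h4⟩ := h.as hβ hN
  refine ⟨𝓕, h1, h2, fun D G hG => ?_⟩
  have ht : ∀ᶠ n in 𝓕, ‖τ ^ d ^ n‖ ≤ 1 := Eventually.of_forall fun n => by
    rw [norm_pow]; exact pow_le_one₀ (norm_nonneg _) h.tau.2.2.le
  have h5 := As.hom2 ht h3 h4 (φ.comp (algebraMap K F)) a b D G
  have e : (PowerSeries.map φ).comp (PowerSeries.C.comp (algebraMap K F)) =
      PowerSeries.C.comp (φ.comp (algebraMap K F)) := RingHom.ext fun x => by simp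
  have e' : ∀ p : PowerSeries K, PowerSeries.map φ (PowerSeries.map (algebraMap K F) p) =
      PowerSeries.map (φ.comp (algebraMap K F)) p := fun p => by
    rw [PowerSeries.map_comp]; rfl
  rw [hom2_map, e, ser_map _ _ h.hb, ser_map _ _ h.ha, e', e', map_one, PowerSeries.map_X]
  exact h5.congr (Eventually.of_forall fun n => by rw [hom2_eq _ _ _ _ _ _ hG, map_evalEval])

theorem dsp5_ls {σ : K →+* ℂ} (h : Pr σ d a b f1 f2 y1 y2 p1 p2 τ γ) : ∃ Th : ℕ,
    ∀ 𝓕 ≤ atTop, ∀ D, 0 < D → ∀ G : K[X][X], Bd G D D → ∀ T π, (Th + (a + b)) * D ≤ T →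
      As 𝓕 (fun n => τ ^ d ^ n) T
        (fun n => (τ ^ d ^ n) ^ ((a + b) * D) * σ (G.evalEval (y1 n) (y2 n))) π →
      (∀ k < (Th + (a + b)) * D, PowerSeries.coeff k π = 0) →
      ∀ᶠ n in 𝓕, G.evalEval (y1 n) (y2 n) = 0 := by
  obtain ⟨hd, t0, t1⟩ := h.tau
  obtain ⟨N, Λ, hN, hΛ, l0, g1, g2⟩ := exists_gr2 h.o1 h.o2 h.d1 h.d2
  have p0 : 0 < (Λ ^ 2) ^ (3 * Module.finrank ℚ K) := by positivity
  obtain ⟨Th, hTh⟩ := exists_pow_lt_of_lt_one (inv_pos.2 p0) t1
  refine ⟨Th, fun 𝓕 hF D hD G hG T π hT hA hπ => ?_⟩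
  have ht : ∀ᶠ n in 𝓕, ‖τ ^ d ^ n‖ ≤ 1 := Eventually.of_forall fun n => by
    rw [norm_pow]; exact pow_le_one₀ (norm_nonneg _) t1.le
  have h5 := hA.small ht hT hπ
  refine ls2 σ hF hd hN hΛ g1 g2 (lam := ‖τ‖ ^ (Th * D)) (by positivity) hG ?_ ?_
  · have e : ‖τ‖ ^ (Th * D) * (Λ ^ (2 * D)) ^ (3 * Module.finrank ℚ K) =
        (‖τ‖ ^ Th * (Λ ^ 2) ^ (3 * Module.finrank ℚ K)) ^ D := by ring
    rw [e]
    exact pow_lt_one₀ (by positivity) ((lt_div_iff₀ p0).1 (by rwa [one_div])) hD.ne'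
  · obtain ⟨C, hC⟩ := h5.bound
    refine IsBigO.of_bound C (hC.mono fun n hn => ?_)
    have q0 : 0 < ‖(τ ^ d ^ n) ^ ((a + b) * D)‖ := norm_pos_iff.2 (pow_ne_zero _ (pow_ne_zero _ t0))
    have e : ‖(τ ^ d ^ n) ^ ((Th + (a + b)) * D)‖ =
        ‖(τ ^ d ^ n) ^ ((a + b) * D)‖ * ‖(‖τ‖ ^ (Th * D)) ^ d ^ n‖ := by
      simp only [norm_pow, norm_norm]; ring
    rw [e, norm_mul, mul_left_comm] at hn
    exact le_of_mul_le_mul_left hn q0

theorem s2a {F : Type} [Field F] [Algebra K F] [FiniteDimensional K F] (φ : F →+* ℂ)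
    (h : Pr (φ.comp (algebraMap K F)) d a b f1 f2 y1 y2 p1 p2 τ γ) {β : F} (hβ : ‖φ β‖ = 1)
    (hN : ∀ T, Near d τ γ (φ β) T) : ∃ A, A ≠ 0 ∧ evc (algebraMap K F) a b p1 p2 β A = 0 := by
  classical
  obtain ⟨Th, hTh⟩ := dsp5_ls h
  obtain ⟨D, hD⟩ : ∃ D, D = Module.finrank K F * (Th + (a + b)) + 1 := ⟨_, rfl⟩
  obtain ⟨G, g0, g1, g2⟩ := low_order (L := K) a b (ser (PowerSeries.map (algebraMap K F) p1) b 1)
    (ser (PowerSeries.map (algebraMap K F) p2) a β) (D := D) (N := (Th + (a + b)) * D) (by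
      rw [← mul_assoc]
      generalize Module.finrank K F * (Th + (a + b)) = x at hD
      subst hD
      nlinarith)
  refine ⟨G, g0, (evb_hom _ _ _ _ _ g1).1 ?_⟩
  by_contra hne
  obtain ⟨π, hπ⟩ : ∃ π, π = hom2 (PowerSeries.C.comp (algebraMap K F)) a b D
    (ser (PowerSeries.map (algebraMap K F) p1) b 1)
    (ser (PowerSeries.map (algebraMap K F) p2) a β) PowerSeries.X G := ⟨_, rfl⟩
  rw [← hπ] at hne g2
  have hex : ∃ e, PowerSeries.coeff e π ≠ 0 := by
    by_contra hc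
    exact hne (PowerSeries.ext fun e => by simpa using not_exists.1 hc e)
  have e1 := Nat.find_spec hex
  have e2 : ∀ k < Nat.find hex, PowerSeries.coeff k π = 0 := fun k hk =>
    not_not.1 (Nat.find_min hex hk)
  generalize Nat.find hex = e at e1 e2
  have e3 : (Th + (a + b)) * D ≤ e := not_lt.1 fun hk => e1 (g2 e hk)
  obtain ⟨𝓕, h1, h2, h3⟩ := dsp5_as φ h hβ (hN (e + 1))
  have h4 := h3 D G g1
  rw [← hπ] at h4
  have h5 := hTh 𝓕 h2 D (by omega) G g1 _ _ (e3.trans (Nat.le_succ e)) h4 fun k hk => by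
    rw [PowerSeries.coeff_map, g2 k hk, map_zero]
  have h6 := h4.ne_zero (fun k hk => by rw [PowerSeries.coeff_map, e2 k hk, map_zero])
    (by rw [PowerSeries.coeff_map]; exact (map_ne_zero φ).2 e1)
    (fun n => pow_ne_zero _ h.tau.2.1) ((tend_ppC h.tau.2.2 h.tau.1).mono_left h2)
  obtain ⟨n, n1, n2⟩ := (h5.and h6).exists
  exact n2 (by rw [n1, map_zero, mul_zero])

theorem s2b {F : Type} [Field F] [Algebra K F] (φ : F →+* ℂ)
    (h : Pr (φ.comp (algebraMap K F)) d a b f1 f2 y1 y2 p1 p2 τ γ) {β : F} (hβ : ‖φ β‖ = 1)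
    (hN : ∀ T, Near d τ γ (φ β) T) :
    ∃ m, ∀ A, evc (algebraMap K F) a b p1 p2 β A = 0 → A.evalEval (y1 m) (y2 m) = 0 := by
  obtain ⟨Th, hTh⟩ := dsp5_ls h
  obtain ⟨s, hs⟩ := IsNoetherian.noetherian (RingHom.ker (evc (algebraMap K F) a b p1 p2 β))
  choose D0 hD0 using fun G : K[X][X] => exists_bd G
  obtain ⟨D, hD⟩ : ∃ D, D = s.sup D0 + 1 := ⟨_, rfl⟩
  have g1 : ∀ G ∈ s, Bd G D D := fun G hG => by
    have : D0 G ≤ D := hD ▸ (Finset.le_sup hG).trans (Nat.le_succ _)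
    exact (hD0 G).mono this this
  obtain ⟨𝓕, h1, h2, h3⟩ := dsp5_as φ h hβ (hN ((Th + (a + b)) * D))
  have h4 : ∀ᶠ n in 𝓕, ∀ G ∈ s, G.evalEval (y1 n) (y2 n) = 0 :=
    (eventually_all_finset s).2 fun G hG =>
      hTh 𝓕 h2 D (by omega) G (g1 G hG) _ _ le_rfl (h3 D G (g1 G hG)) fun k _ => by
        have : G ∈ RingHom.ker (evc (algebraMap K F) a b p1 p2 β) :=
          hs ▸ Submodule.subset_span hG
        rw [(evb_hom _ _ _ _ _ (g1 G hG)).2 this, map_zero, map_zero]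
  obtain ⟨m, hm⟩ := h4.exists
  refine ⟨m, fun A hA => ?_⟩
  have h5 : RingHom.ker (evc (algebraMap K F) a b p1 p2 β) ≤
      RingHom.ker (evalEvalRingHom (y1 m) (y2 m)) := hs ▸ Submodule.span_le.2 fun G hG => hm G hG
  exact h5 hA

end Pool.Agent.P.MP_68214b_ag.DS
end

-- part Pool.Agent.P.MP_68214b_ag.DSP6
section

open Polynomial Filter Asymptotics NumberField Topology

namespace Pool.Agent.P.MP_68214b_ag.DS

variable {K : Type} [Field K] [NumberField K] {d a b : ℕ} {f1 f2 : K[X]} {y1 y2 : ℕ → K}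
  {p1 p2 : PowerSeries K} {τ γ : ℂ}

theorem dsp6_gen {F : Type} [Field F] [Algebra K F] [FiniteDimensional K F] (φ : F →+* ℂ)
    (h : Pr (φ.comp (algebraMap K F)) d a b f1 f2 y1 y2 p1 p2 τ γ) {g : F} {N : ℕ}
    (hN : 0 < N) (hg : g ^ N = 1) (hn : ∀ T, Near d τ γ (φ g) T) : Dep y1 y2 := by
  classical
  have h1 : ‖φ g‖ = 1 := by
    have e : ‖φ g‖ ^ N = 1 := by rw [← norm_pow, ← map_pow, hg, map_one, norm_one]
    exact (pow_eq_one_iff_of_nonneg (norm_nonneg _) hN.ne').1 e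
  have g0 : g ≠ 0 := fun e => by simp [e] at h1
  have hd : 0 < d := lt_of_lt_of_le two_pos h.tau.1
  obtain ⟨m, hm⟩ := s2b φ h h1 hn
  have h2 : ∀ j A, evc (algebraMap K F) a b p1 p2 (g ^ d ^ j) A = 0 →
      A.evalEval (y1 (m + j)) (y2 (m + j)) = 0 := by
    intro j
    induction j with
    | zero => simpa using hm
    | succ j ih =>
      intro A hA
      rw [pow_succ, pow_mul] at hA
      have h3 := ih _ (evc_phi _ h.ha h.hb hd h.d1 h.d2 h.b1 h.b2 (pow_ne_zero _ g0) hA)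
      rwa [phi2_eval, ← h.o1.step, ← h.o2.step] at h3
  have h3 : ∀ c : F, ∃ A : K[X][X], A ≠ 0 ∧
      ∀ j, c = g ^ d ^ j → evc (algebraMap K F) a b p1 p2 c A = 0 := by
    intro c
    by_cases hc : ∃ j, c = g ^ d ^ j
    · obtain ⟨j, rfl⟩ := hc
      obtain ⟨A, a0, hA⟩ := s2a φ h (β := g ^ d ^ j) (by rw [map_pow, norm_pow, h1, one_pow])
        fun T => by rw [map_pow]; exact near_pow h.γ1 h1 hn j T
      exact ⟨A, a0, fun _ _ => hA⟩
    · exact ⟨1, one_ne_zero, fun j e => (hc ⟨j, e⟩).elim⟩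
  choose A a0 hA using h3
  refine ⟨∏ c ∈ (nthRoots N (1 : F)).toFinset, A c, Finset.prod_ne_zero_iff.2 fun c _ => a0 c,
    eventually_atTop.2 ⟨m, fun n hn => ?_⟩⟩
  obtain ⟨j, rfl⟩ := Nat.exists_eq_add_of_le hn
  rw [← coe_evalEvalRingHom, map_prod]
  refine Finset.prod_eq_zero (i := g ^ d ^ j) ?_ (h2 j _ (hA _ j rfl))
  rw [Multiset.mem_toFinset, mem_nthRoots hN, ← pow_mul, mul_comm, pow_mul, hg, one_pow]

theorem stage2 [Algebra K ℂ] (h : Pr (algebraMap K ℂ) d a b f1 f2 y1 y2 p1 p2 τ γ) {β : ℂ} {N : ℕ}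
    (hN : 0 < N) (hβ : β ^ N = 1) (hn : ∀ T, Near d τ γ β T) : Dep y1 y2 := by
  have hi : IsIntegral K β := IsIntegral.of_pow hN (hβ ▸ isIntegral_one)
  have := IntermediateField.adjoin.finiteDimensional hi
  exact dsp6_gen (F := IntermediateField.adjoin K {β})
    (IntermediateField.adjoin K {β}).val.toRingHom h (g := IntermediateField.AdjoinSimple.gen K β)
    hN (Subtype.ext hβ) hn

end Pool.Agent.P.MP_68214b_ag.DS
end

-- part Pool.Agent.P.MP_68214b_ag.DSTs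
section

open Polynomial Filter Asymptotics NumberField Topology

namespace Pool.Agent.P.MP_68214b_ag.DS

noncomputable section

/-- numbers whose denominator divides a power of M -/
def RN (K : Type*) [Field K] (M : ℕ+) : Subring K where
  carrier := {a | ∃ k : ℕ, IsIntegral ℤ (((M : ℕ) : K) ^ k * a)}
  zero_mem' := ⟨0, by rw [mul_zero]; exact isIntegral_zero⟩
  one_mem' := ⟨0, by rw [pow_zero, mul_one]; exact isIntegral_one⟩
  neg_mem' := fun ⟨k, h⟩ => ⟨k, by rw [mul_neg]; exact h.neg⟩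
  add_mem' := fun ⟨k, h⟩ ⟨l, g⟩ => ⟨max k l, by
    rw [mul_add]
    exact (rn_mono (isIntegral_natCast _) h (le_max_left _ _)).add
      (rn_mono (isIntegral_natCast _) g (le_max_right _ _))⟩
  mul_mem' := fun ⟨k, h⟩ ⟨l, g⟩ => ⟨k + l, by rw [pow_add, mul_mul_mul_comm]; exact h.mul g⟩

section
variable {K : Type*} [Field K] {M : ℕ+}

/-- the exponent of the denominator -/
def kd (a : RN K M) : ℕ := sInf {k | IsIntegral ℤ (((M : ℕ) : K) ^ k * (a : K))}

theorem kd_int (a : RN K M) : IsIntegral ℤ (((M : ℕ) : K) ^ kd a * (a : K)) := Nat.sInf_mem a.2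

theorem kd_le {a : RN K M} {k : ℕ} (h : IsIntegral ℤ (((M : ℕ) : K) ^ k * (a : K))) : kd a ≤ k :=
  Nat.sInf_le h

variable [NumberField K]

open Classical in
/-- size of a number with its denominator -/
def fR (a : RN K M) : ℝ := if a = 0 then 0 else max (house (a : K)) (((M : ℕ) : ℝ) ^ kd a)

theorem fR_zero : fR (0 : RN K M) = 0 := if_pos rfl

theorem house_le_fR (a : RN K M) : house (a : K) ≤ fR a := by
  unfold fR
  split_ifs with h
  · simp [h, house]
  · exact le_max_left _ _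

theorem fR_nonneg (a : RN K M) : 0 ≤ fR a := (house_nonneg _).trans (house_le_fR a)

theorem pow_le_fR {a : RN K M} (h : a ≠ 0) : ((M : ℕ) : ℝ) ^ kd a ≤ fR a := by
  unfold fR
  rw [if_neg h]
  exact le_max_right _ _

theorem fR_le {a : RN K M} {k : ℕ} {B : ℝ} (h : IsIntegral ℤ (((M : ℕ) : K) ^ k * (a : K)))
    (h1 : house (a : K) ≤ B) (h2 : ((M : ℕ) : ℝ) ^ k ≤ B) : fR a ≤ B := by
  unfold fR
  split_ifs
  · exact (house_nonneg _).trans h1
  · exact max_le h1 ((pow_le_pow_right₀ (Nat.one_le_cast.2 M.pos) (kd_le h)).trans h2)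

theorem fR_neg (a : RN K M) : fR (-a) ≤ fR a := by
  by_cases h : a = 0
  · rw [h, neg_zero]
  · refine fR_le (k := kd a) ?_ ?_ (pow_le_fR h)
    · rw [Subring.coe_neg, mul_neg]
      exact (kd_int a).neg
    · simpa [house] using house_le_fR a

end

/-- the seminorm house or denominator -/
def nR (K : Type*) [Field K] [NumberField K] (M : ℕ+) : Sn (RN K M) where
  f := fR
  zero := fR_zero
  one := fR_le (k := 0) (by simpa using isIntegral_one) (by simp [house]) (by simp)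
  neg a := le_antisymm (fR_neg a) (by simpa using fR_neg (-a))
  add a b := by
    by_cases ha : a = 0
    · rw [ha, zero_add, fR_zero, zero_add]
    by_cases hb : b = 0
    · rw [hb, add_zero, fR_zero, add_zero]
    refine fR_le (k := max (kd a) (kd b)) ?_
      ((house_add_le _ _).trans (add_le_add (house_le_fR a) (house_le_fR b))) ?_
    · rw [Subring.coe_add, mul_add]
      exact (rn_mono (isIntegral_natCast _) (kd_int a) (le_max_left _ _)).add
        (rn_mono (isIntegral_natCast _) (kd_int b) (le_max_right _ _))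
    · rcases max_choice (kd a) (kd b) with e | e <;> rw [e]
      · exact (pow_le_fR ha).trans (le_add_of_nonneg_right (fR_nonneg _))
      · exact (pow_le_fR hb).trans (le_add_of_nonneg_left (fR_nonneg _))
  mul a b := by
    by_cases ha : a = 0
    · rw [ha, zero_mul, fR_zero, zero_mul]
    by_cases hb : b = 0
    · rw [hb, mul_zero, fR_zero, mul_zero]
    refine fR_le (k := kd a + kd b) ?_ ((house_mul_le _ _).trans
      (mul_le_mul (house_le_fR a) (house_le_fR b) (house_nonneg _) (fR_nonneg _))) ?_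
    · rw [Subring.coe_mul, pow_add, mul_mul_mul_comm]
      exact (kd_int a).mul (kd_int b)
    · rw [pow_add]
      exact mul_le_mul (pow_le_fR ha) (pow_le_fR hb) (by positivity) (fR_nonneg _)

section
variable {K : Type} [Field K] [NumberField K] {M : ℕ+}

theorem lv_nR (σ : K →+* ℂ) :
    LV (nR K M) (σ.comp (RN K M).subtype) (3 * Module.finrank ℚ K) :=
  ⟨fun a => (norm_embedding_le_house (a : K) σ).trans (house_le_fR a), fun a h =>
    liouD (t := (M : ℕ) ^ kd a) (pow_pos M.pos _) (by rw [Nat.cast_pow]; exact kd_int a)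
      (fun e => h (Subtype.ext e)) σ (by rw [Nat.cast_pow]; exact pow_le_fR h) (house_le_fR a)⟩

theorem exists_den3 (G : K[X][X]) : ∃ (N : ℕ) (G' : (RN K M)[X][X]), 0 < N ∧
    map2 (RN K M).subtype G' = (N : K[X][X]) * G := by
  obtain ⟨N, G', hN, e⟩ := exists_den2 G
  refine ⟨N, map2 ((algebraMap (𝓞 K) K).codRestrict (RN K M) fun a =>
    ⟨0, by rw [pow_zero, one_mul]; exact a.isIntegral_coe⟩) G', hN, ?_⟩
  rw [map2_map2, ← e]
  rfl

theorem poly_kd {g : (RN K M)[X]} (hg : g ≠ 0) : ∃ k : ℕ, ((M : ℕ) : ℝ) ^ k ≤ (nR K M).l1.f g ∧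
    ∀ i, IsIntegral ℤ (((M : ℕ) : K) ^ k * (g.coeff i : K)) := by
  obtain ⟨j, hj, h⟩ := g.support.exists_max_image (fun i => kd (g.coeff i)) (support_nonempty.2 hg)
  refine ⟨kd (g.coeff j), (pow_le_fR (mem_support_iff.1 hj)).trans ((nR K M).coeff_le g j),
    fun i => ?_⟩
  by_cases hi : i ∈ g.support
  · exact rn_mono (isIntegral_natCast _) (kd_int _) (h i hi)
  · rw [notMem_support_iff.1 hi, Subring.coe_zero, mul_zero]
    exact isIntegral_zero

theorem Gr.mem {d N : ℕ} {Λ : ℝ} {x : ℕ → K} (h : Gr d N Λ x) (hN : 0 < N) (m : ℕ) :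
    x m ∈ RN K ⟨N, hN⟩ := ⟨_, (h m).1⟩

theorem Gr.nR {d N : ℕ} {Λ : ℝ} {x : ℕ → K} (h : Gr d N Λ x) (hN : 0 < N) (hΛ : (N : ℝ) ≤ Λ)
    (m : ℕ) : (nR K ⟨N, hN⟩).f ⟨x m, h.mem hN m⟩ ≤ Λ ^ d ^ m :=
  fR_le (k := d ^ m) (h m).1 (h m).2 (pow_le_pow_left₀ (Nat.cast_nonneg N) hΛ _)

end

/-- data of the Thue-Siegel argument -/
structure TS (K F : Type) [Field K] [NumberField K] [Field F] [NumberField F] [Algebra K F] where
  φ : F →+* ℂ
  β : F
  a : ℕ
  b : ℕ
  d : ℕ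
  T : ℕ
  τ : ℂ
  Λ : ℝ
  C0 : ℝ
  M : ℕ+
  y1 : ℕ → RN K M
  y2 : ℕ → RN K M
  π1 : F[X]
  π2 : F[X]
  𝓕 : Filter ℕ
  N : ℕ
  hN : 0 < N
  hb : 0 < b
  hd : 2 ≤ d
  T1 : 1 ≤ T
  τ0 : τ ≠ 0
  τ1 : ‖τ‖ < 1
  Λ1 : 1 ≤ Λ
  C1 : 1 ≤ C0
  hy1 : ∀ m, (nR K M).f (y1 m) ≤ Λ ^ d ^ m
  hy2 : ∀ m, (nR K M).f (y2 m) ≤ Λ ^ d ^ m
  p1 : π1.coeff 0 = (N : F) ^ b
  p2 : π2.coeff 0 = (N : F) ^ a * β
  ne : 𝓕.NeBot
  le : 𝓕 ≤ atTop
  apx : ∀ᶠ m in 𝓕, Apx a b T (π1.map φ) (π2.map φ) C0 (τ ^ d ^ m)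
    (φ (algebraMap K F (y1 m))) (φ (algebraMap K F (y2 m)))

namespace TS
variable {K F : Type} [Field K] [NumberField K] [Field F] [NumberField F] [Algebra K F]
  (S : TS K F)

/-- the place of K -/
def σ : K →+* ℂ := S.φ.comp (algebraMap K F)

/-- the place on the ring of the points -/
def σO : RN K S.M →+* ℂ := S.σ.comp (RN K S.M).subtype

/-- degree of β over K -/
def deg : ℕ := (minpoly K S.β).natDegree

/-- the combination at the second point -/
def Q {D0 : ℕ} (P : Fin (D0 + 1) × Fin (D0 + 1) → ℤ[X][X]) (m : ℕ) : ℂ[X][X] :=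
  cmb zc P (mon D0 (S.σO (S.y1 m)) (S.σO (S.y2 m)))

/-- choice of the parameters -/
structure Par (L Th D0 : ℕ) : Prop where
  Th1 : 1 ≤ Th
  hTh : S.Λ ^ (4 * (3 * Module.finrank ℚ K)) * ‖S.τ‖ ^ (Th - 1) ≤ 1 / 2
  hD0 : 16 * Module.finrank ℚ K * (L + 1) * (Th + 2 * (S.a + S.b)) ^ 3 ≤ D0
  hT : (Th + 2 * (S.a + S.b)) * D0 + 2 ≤ S.T
  hF : Module.finrank ℚ F ≤ Module.finrank ℚ K * S.deg
  hL : S.deg ≤ L * S.T

end TS

end

end Pool.Agent.P.MP_68214b_ag.DS
end

-- part Pool.Agent.P.MP_68214b_ag.DST17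
section

open Polynomial Filter Asymptotics NumberField Topology

namespace Pool.Agent.P.MP_68214b_ag.DS

variable {K F : Type} [Field K] [NumberField K] [Field F] [NumberField F] [Algebra K F]

theorem deg_of_root {M : ℕ+} (φ : F →+* ℂ) (β : F) {g : (RN K M)[X]} (hg : g ≠ 0)
    (h : g.eval₂ ((φ.comp (algebraMap K F)).comp (RN K M).subtype) (φ β) = 0) :
    (minpoly K β).natDegree ≤ g.natDegree := by
  rw [RingHom.comp_assoc, ← hom_eval₂, map_eq_zero] at h
  have h0 : g.map (RN K M).subtype ≠ 0 :=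
    (Polynomial.map_ne_zero_iff Subtype.val_injective).2 hg
  have h1 : aeval β (g.map (RN K M).subtype) = 0 := by
    rw [aeval_def, eval₂_map, h]
  exact (natDegree_le_natDegree (minpoly.degree_le_of_ne_zero K β h0 h1)).trans natDegree_map_le

theorem ltop (M : ℕ+) (φ : F →+* ℂ) (β : F) (e : ℕ) : ∃ C : ℝ, 1 ≤ C ∧ ∀ g : (RN K M)[X], g ≠ 0 →
    g.natDegree ≤ e → (minpoly K β).natDegree ≤ e ∨
      1 ≤ ‖g.eval₂ ((φ.comp (algebraMap K F)).comp (RN K M).subtype) (φ β)‖ *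
        (C * (nR K M).l1.f g) ^ (3 * Module.finrank ℚ F) * C := by
  obtain ⟨N, hN, hi⟩ := exists_den ({β} : Finset F)
  have hβ := hi β (Finset.mem_singleton_self β)
  have hN1 : (1 : ℝ) ≤ (N : ℝ) ^ e := one_le_pow₀ (by exact_mod_cast hN)
  have ht1 : (1 : ℝ) ≤ max 1 (house β) ^ e := one_le_pow₀ (le_max_left _ _)
  have c1 := one_le_mul_of_one_le_of_one_le hN1 ht1
  refine ⟨(N : ℝ) ^ e * max 1 (house β) ^ e, c1, fun g hg hd => ?_⟩
  by_cases hy : g.eval₂ ((algebraMap K F).comp (RN K M).subtype) β = 0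
  · refine Or.inl ((deg_of_root φ β hg ?_).trans hd)
    rw [RingHom.comp_assoc, ← hom_eval₂, hy, map_zero]
  right
  rw [RingHom.comp_assoc, ← hom_eval₂]
  have hh : house (g.eval₂ ((algebraMap K F).comp (RN K M).subtype) β) ≤
      (nR K M).l1.f g * max 1 (house β) ^ e :=
    (nR K M).eval₂_le (nH F) ((algebraMap K F).comp (RN K M).subtype)
      (fun a => (house_map (algebraMap K F) (a : K)).trans (house_le_fR a)) (x := β)
      (le_max_left _ _) (le_max_right 1 (house β)) hd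
  obtain ⟨k, k1, k2⟩ := poly_kd hg
  have hint : IsIntegral ℤ (((N ^ e * M ^ k : ℕ) : F) *
      g.eval₂ ((algebraMap K F).comp (RN K M).subtype) β) := by
    rw [eval₂_eq_sum_range' _ (Nat.lt_succ_of_le hd), Finset.mul_sum]
    refine IsIntegral.sum _ fun i hi' => ?_
    obtain ⟨j, rfl⟩ := Nat.exists_eq_add_of_le (Nat.lt_succ_iff.1 (Finset.mem_range.1 hi'))
    have e1 : ((N ^ (i + j) * M ^ k : ℕ) : F) *
        (((algebraMap K F).comp (RN K M).subtype) (g.coeff i) * β ^ i) =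
        algebraMap K F (((M : ℕ) : K) ^ k * (g.coeff i : K)) * ((N : F) * β) ^ i * (N : F) ^ j := by
      simp only [RingHom.comp_apply, Subring.subtype_apply, map_mul, map_pow, map_natCast]
      push_cast
      ring
    rw [e1]
    exact ((k2 i).algebraMap.mul (hβ.pow i)).mul ((isIntegral_natCast N).pow j)
  have l0 := (nR K M).l1.nonneg g
  refine (liouD (by positivity) hint hy φ (B := (N : ℝ) ^ e * max 1 (house β) ^ e * (nR K M).l1.f g)
    ?_ (hh.trans ?_)).trans (le_mul_of_one_le_right (by positivity) c1)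
  · push_cast
    exact mul_le_mul (le_mul_of_one_le_right (by positivity) ht1) k1 (by positivity) (by positivity)
  · rw [mul_comm, mul_assoc]
    exact le_mul_of_one_le_left (by positivity) hN1

theorem dst17_q {T Th D : ℕ} (hT : 2 ≤ T) (hD : T ≤ D) (hTh : 0 < Th) :
    (Th * D / (T - 1) + 1) * T ≤ 3 * (Th * D) := by
  have h1 := Nat.div_mul_le_self (Th * D) (T - 1)
  have h2 : D ≤ Th * D := Nat.le_mul_of_pos_left D hTh
  have h3 : Th * D / (T - 1) * T ≤ Th * D / (T - 1) * (2 * (T - 1)) :=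
    Nat.mul_le_mul_left _ (by omega)
  have h4 : Th * D / (T - 1) * (2 * (T - 1)) = 2 * (Th * D / (T - 1) * (T - 1)) := by ring
  rw [add_mul]
  omega

theorem cnt1 {ϱ r L T Th D0 D : ℕ} (hϱ : ϱ ≤ r * (L * T)) (hT : 2 ≤ T) (hD : T ≤ D) (hTh : 0 < Th)
    (hD0 : 8 * r * L * Th ^ 3 ≤ D0) : Cnt ϱ Th T D0 D D := by
  have h := dst17_q hT hD hTh
  unfold Cnt
  generalize Th * D / (T - 1) + 1 = q at h ⊢
  calc 2 * ϱ * (Th * D0) * (Th * D) * q ≤ 2 * (r * (L * T)) * (Th * D0) * (Th * D) * q := by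
        gcongr
    _ = 2 * r * L * (Th * D0) * (Th * D) * (q * T) := by ring
    _ ≤ 2 * r * L * (Th * D0) * (Th * D) * (4 * (Th * D)) := Nat.mul_le_mul_left _ (by omega)
    _ = D * D * (8 * r * L * Th ^ 3 * D0) := by ring
    _ ≤ D * D * (D0 * D0) := by gcongr
    _ ≤ (D + 1) * (D + 1) * ((D0 + 1) * (D0 + 1)) := by gcongr <;> omega
    _ = _ := by ring

theorem cnt2 {ϱ r e T Th D0 D : ℕ} (hϱ : ϱ ≤ r * e) (hT : 2 ≤ T) (hD : T ≤ D) (hTh : 0 < Th)
    (hD0 : 16 * r * Th ^ 3 ≤ D0) : Cnt ϱ Th T D0 D (e * D / (2 * T)) := by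
  have h := dst17_q hT hD hTh
  have h2 := (Nat.lt_mul_div_succ (e * D) (show 0 < 2 * T by omega)).le
  unfold Cnt
  generalize Th * D / (T - 1) + 1 = q at h ⊢
  generalize e * D / (2 * T) + 1 = p at h2 ⊢
  refine Nat.le_of_mul_le_mul_right ?_ (show 0 < T by omega)
  calc 2 * ϱ * (Th * D0) * (Th * D) * q * T ≤ 2 * (r * e) * (Th * D0) * (Th * D) * q * T := by
        gcongr
    _ = 2 * r * e * (Th * D0) * (Th * D) * (q * T) := by ring
    _ ≤ 2 * r * e * (Th * D0) * (Th * D) * (4 * (Th * D)) := Nat.mul_le_mul_left _ (by omega)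
    _ = 8 * r * Th ^ 3 * D0 * D * (e * D) := by ring
    _ ≤ 8 * r * Th ^ 3 * D0 * D * (2 * T * p) := Nat.mul_le_mul_left _ h2
    _ = D * p * (16 * r * Th ^ 3 * D0) * T := by ring
    _ ≤ D * p * (D0 * D0) * T := by gcongr
    _ ≤ (D + 1) * p * ((D0 + 1) * (D0 + 1)) * T := by gcongr <;> omega
    _ = _ := by ring

end Pool.Agent.P.MP_68214b_ag.DS
end

-- part Pool.Agent.P.MP_68214b_ag.DST18a
section

open Polynomial Filter Asymptotics NumberField Topology

namespace Pool.Agent.P.MP_68214b_ag.DS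

variable {K F : Type} [Field K] [NumberField K] [Field F] [NumberField F] [Algebra K F]

theorem dst18a_near (π : ℂ[X]) : ∃ C : ℝ, 0 ≤ C ∧ ∀ t : ℂ, ‖t‖ ≤ 1 →
    ‖π.eval t - π.coeff 0‖ ≤ C * ‖t‖ := by
  obtain ⟨B, hB⟩ := (isCompact_closedBall (0 : ℂ) 1).exists_bound_of_continuousOn
    (divX π).continuous.continuousOn
  refine ⟨|B|, abs_nonneg _, fun t ht => ?_⟩
  have e : π.eval t - π.coeff 0 = (divX π).eval t * t := by
    conv_lhs => rw [← divX_mul_X_add π]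
    simp
  rw [e, norm_mul]
  exact mul_le_mul_of_nonneg_right
    ((hB t (mem_closedBall_zero_iff.2 ht)).trans (le_abs_self _)) (norm_nonneg _)

theorem dst18a_coeff {R : Type*} [CommRing R] {D : ℕ} (w : Fin (D + 1) × Fin (D + 1) → R)
    (k : Fin (D + 1) × Fin (D + 1)) :
    ((∑ k : Fin (D + 1) × Fin (D + 1), monomial (k.2 : ℕ) (monomial (k.1 : ℕ) (w k))).coeff
      k.2).coeff k.1 = w k := by
  rw [finset_sum_coeff, finset_sum_coeff, Finset.sum_eq_single k]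
  · rw [coeff_monomial_same, coeff_monomial_same]
  · intro k' _ h
    rw [coeff_monomial]
    split_ifs with h2
    · rw [coeff_monomial, if_neg fun h1 => h (Prod.ext (Fin.ext h1) (Fin.ext h2))]
    · exact coeff_zero _
  · exact fun h => (h (Finset.mem_univ _)).elim

theorem dst18a_bd {R : Type*} [CommRing R] {D i j : ℕ} (hi : i ≤ D) (hj : j ≤ D) (a : R) :
    Bd (monomial j (monomial i a) : R[X][X]) D D := by
  refine ⟨fun l => ?_, (natDegree_monomial_le _).trans hj⟩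
  rw [coeff_monomial]
  split_ifs
  · exact (natDegree_monomial_le _).trans hi
  · rw [natDegree_zero]
    exact Nat.zero_le _

namespace TS
variable (S : TS K F)

theorem lv : LV (nR K S.M) S.σO (3 * Module.finrank ℚ K) := lv_nR S.σ

theorem σO_apply (z : RN K S.M) : S.σO z = S.φ (algebraMap K F z) := rfl

theorem tau_lim : Tendsto (fun m => S.τ ^ S.d ^ m) S.𝓕 (𝓝 0) :=
  (tend_ppC S.τ1 S.hd).mono_left S.le

theorem near1 : ∃ C : ℝ, ∀ᶠ m in S.𝓕, ∃ s : ℂ, ‖s‖ ≤ ‖S.τ ^ S.d ^ m‖ ∧ ‖s‖ ≤ 1 ∧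
    ‖S.σO (S.y1 m) * s ^ S.b - 1‖ ≤ C * ‖s‖ ∧ ‖S.σO (S.y2 m) * s ^ S.a - S.φ S.β‖ ≤ C * ‖s‖ := by
  obtain ⟨C1, h1, g1⟩ := dst18a_near (S.π1.map S.φ)
  obtain ⟨C2, h2, g2⟩ := dst18a_near (S.π2.map S.φ)
  rw [coeff_map, S.p1, map_pow, map_natCast] at g1
  rw [coeff_map, S.p2, map_mul, map_pow, map_natCast] at g2
  have n1 : (1 : ℝ) ≤ S.N := Nat.one_le_cast.2 S.hN
  have n0 : (S.N : ℂ) ≠ 0 := Nat.cast_ne_zero.2 S.hN.ne'
  refine ⟨(S.C0 + C1 + C2) * S.N, S.apx.mono fun m hm => ⟨S.τ ^ S.d ^ m / S.N, ?_⟩⟩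
  have ht : ‖S.τ ^ S.d ^ m‖ ≤ 1 := by
    rw [norm_pow]
    exact pow_le_one₀ (norm_nonneg _) S.τ1.le
  obtain ⟨a1, a2⟩ := hm
  have b1 := g1 _ ht
  have b2 := g2 _ ht
  rw [σO_apply, σO_apply]
  generalize S.τ ^ S.d ^ m = t at *
  have h3 : S.C0 * ‖t‖ ^ S.T ≤ S.C0 * ‖t‖ := mul_le_mul_of_nonneg_left
    (pow_le_of_le_one (norm_nonneg _) ht (Nat.one_le_iff_ne_zero.1 S.T1))
    (zero_le_one.trans S.C1)
  have h4 := mul_nonneg h1 (norm_nonneg t)
  have h5 := mul_nonneg h2 (norm_nonneg t)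
  have h6 : ‖t / S.N‖ ≤ ‖t‖ := by
    rw [norm_div, Complex.norm_natCast]
    exact div_le_self (norm_nonneg _) n1
  have h7 : (S.C0 + C1 + C2) * S.N * ‖t / S.N‖ = (S.C0 + C1 + C2) * ‖t‖ := by
    rw [norm_div, Complex.norm_natCast]
    field_simp
  have h8 : ∀ (y g : ℂ) (k : ℕ), ‖y * (t / S.N) ^ k - g‖ ≤ ‖y * t ^ k - S.N ^ k * g‖ :=
    fun y g k => by
      have : y * (t / S.N) ^ k - g = (y * t ^ k - S.N ^ k * g) / S.N ^ k := by
        rw [div_pow]
        field_simp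
      rw [this, norm_div, norm_pow, Complex.norm_natCast]
      exact div_le_self (norm_nonneg _) (one_le_pow₀ n1)
  rw [h7]
  refine ⟨h6, h6.trans ht, (h8 _ _ _).trans ?_, (h8 _ _ _).trans ?_⟩
  · rw [mul_one]
    refine (norm_sub_le_norm_sub_add_norm_sub _ ((S.π1.map S.φ).eval t) _).trans ?_
    linarith
  · refine (norm_sub_le_norm_sub_add_norm_sub _ ((S.π2.map S.φ).eval t) _).trans ?_
    linarith

theorem big : Tendsto (fun m => ‖S.σO (S.y1 m)‖) S.𝓕 atTop := by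
  obtain ⟨C, hC⟩ := S.near1
  refine tendsto_atTop.2 fun M => ?_
  have h1 : Tendsto (fun m => (|C| + |M|) * ‖S.τ ^ S.d ^ m‖) S.𝓕 (𝓝 0) := by
    simpa only [norm_zero, mul_zero] using S.tau_lim.norm.const_mul (|C| + |M|)
  filter_upwards [hC, h1.eventually (gt_mem_nhds zero_lt_one)] with m ⟨t, h0, ht, h2, _⟩ h3
  replace h3 := (mul_le_mul_of_nonneg_left h0 (by positivity)).trans_lt h3
  generalize S.σO (S.y1 m) = y at *
  by_contra h4
  have h5 : ‖y * t ^ S.b‖ ≤ |M| * ‖t‖ := by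
    rw [norm_mul, norm_pow]
    exact mul_le_mul ((not_le.1 h4).le.trans (le_abs_self _))
      (pow_le_of_le_one (norm_nonneg _) ht S.hb.ne') (by positivity) (abs_nonneg _)
  have h6 := norm_sub_norm_le (1 : ℂ) (y * t ^ S.b)
  rw [norm_one, norm_sub_rev] at h6
  have h7 := mul_le_mul_of_nonneg_right (le_abs_self C) (norm_nonneg t)
  linarith

theorem tau_pow (D0 : ℕ) {m m' : ℕ} (h : m ≤ m') :
    ‖S.τ ^ S.d ^ m'‖ ^ D0 = ‖S.τ ^ S.d ^ m‖ ^ (D0 * S.d ^ (m' - m)) := by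
  rw [norm_pow, norm_pow, ← pow_mul, ← pow_mul, mul_left_comm, ← pow_add, Nat.add_sub_cancel' h,
    mul_comm]

theorem ev_D {D0 : ℕ} (h : 0 < D0) (D1 m : ℕ) :
    ∀ᶠ m' in S.𝓕, m ≤ m' ∧ D1 ≤ D0 * S.d ^ (m' - m) := by
  refine (eventually_ge_atTop (m + D1)).filter_mono S.le |>.mono fun m' hm => ⟨by omega, ?_⟩
  have h1 : m' - m < S.d ^ (m' - m) := Nat.lt_pow_self S.hd
  exact (show D1 ≤ S.d ^ (m' - m) by omega).trans (Nat.le_mul_of_pos_left _ h)

theorem deg_curve {G : (RN K S.M)[X][X]} (hG : G ≠ 0)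
    (h : ∀ᶠ m in S.𝓕, G.evalEval (S.y1 m) (S.y2 m) = 0) : S.deg ≤ G.natDegree := by
  have := S.ne
  obtain ⟨D, hD⟩ := exists_bd G
  obtain ⟨C, hC⟩ := S.near1
  obtain ⟨C1, c1, h1⟩ := top' (nR K S.M) S.σO S.lv.le S.a S.hb C ‖S.φ S.β‖ D D
  obtain ⟨g, g0, g1, -, g2⟩ := h1 G hG hD
  refine (deg_of_root S.φ S.β g0 (norm_le_zero_iff.1 ?_)).trans g1
  have h2 : Tendsto (fun m => C1 * (nR K S.M).l2.f G * ‖S.τ ^ S.d ^ m‖) S.𝓕 (𝓝 0) := by
    simpa only [norm_zero, mul_zero] using S.tau_lim.norm.const_mul (C1 * (nR K S.M).l2.f G)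
  refine ge_of_tendsto h2 ?_
  filter_upwards [hC, h] with m ⟨s, s1, s2, a1⟩ a2
  exact (g2 _ _ _ _ s2 le_rfl a1.1 a1.2 (by rw [← map_evalEval, a2, map_zero])).trans
    (mul_le_mul_of_nonneg_left s1 (mul_nonneg (zero_le_one.trans c1) (Sn.nonneg _ _)))

theorem deg_pos : 0 < S.deg :=
  minpoly.natDegree_pos (Algebra.IsIntegral.isIntegral (R := K) S.β)

theorem endB {D0 : ℕ} (h0 : 0 < D0) (hdeg : D0 < S.deg) {c : ℝ} (hc : 1 ≤ c) :
    ∀ᶠ m in atTop, ∀ᶠ m' in S.𝓕, ∀ w : Fin (D0 + 1) × Fin (D0 + 1) → RN K S.M, w ≠ 0 →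
      (∀ k, (nR K S.M).f (w k) ≤ c ^ (D0 * S.d ^ (m' - m))) →
      ∑ k, w k * mon D0 (S.y1 m') (S.y2 m') k ≠ 0 := by
  obtain ⟨C, hC⟩ := S.near1
  obtain ⟨C1, c1, h1⟩ := top' (nR K S.M) S.σO S.lv.le S.a S.hb C ‖S.φ S.β‖ D0 D0
  obtain ⟨C2, c2, h2⟩ := ltop (K := K) S.M S.φ S.β D0
  obtain ⟨r, hr⟩ : ∃ r, r = 3 * Module.finrank ℚ F := ⟨_, rfl⟩
  rw [← hr] at h2
  obtain ⟨N, hN⟩ : ∃ N : ℝ, N = (Fintype.card (Fin (D0 + 1) × Fin (D0 + 1)) : ℝ) := ⟨_, rfl⟩
  have n1 : 1 ≤ N := by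
    rw [hN]
    exact Nat.one_le_cast.2 Fintype.card_pos
  obtain ⟨A, hA⟩ : ∃ A : ℝ, A = C1 * (C2 * N) ^ (r + 1) := ⟨_, rfl⟩
  have a1 : 1 ≤ A := hA ▸ one_le_mul_of_one_le_of_one_le c1
    (one_le_pow₀ (one_le_mul_of_one_le_of_one_le c2 n1))
  have h3 : Tendsto (fun m => (A * c ^ (r + 1)) ^ D0 * ‖S.τ ^ S.d ^ m‖) atTop (𝓝 0) := by
    simpa only [norm_zero, mul_zero] using
      (tend_ppC S.τ1 S.hd).norm.const_mul ((A * c ^ (r + 1)) ^ D0)
  filter_upwards [h3.eventually (gt_mem_nhds zero_lt_one)] with m hm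
  filter_upwards [hC, S.ev_D h0 1 m] with m' ⟨s, s1, ht, a2⟩ a3 w hw hb hs
  have e := S.tau_pow D0 a3.1
  replace a3 := a3.2
  generalize D0 * S.d ^ (m' - m) = D at *
  obtain ⟨G, hG⟩ : ∃ G : (RN K S.M)[X][X], G = ∑ k : Fin (D0 + 1) × Fin (D0 + 1),
      monomial (k.2 : ℕ) (monomial (k.1 : ℕ) (w k)) := ⟨_, rfl⟩
  have b0 : G ≠ 0 := fun h => hw (funext fun k => by
    rw [← dst18a_coeff w k, ← hG, h, coeff_zero, coeff_zero]
    rfl)
  have b1 : Bd G D0 D0 :=
    hG ▸ bd_sum _ fun k _ => dst18a_bd (Nat.lt_succ_iff.1 k.1.2) (Nat.lt_succ_iff.1 k.2.2) _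
  have b2 : (nR K S.M).l2.f G ≤ N * c ^ D := by
    rw [hG, hN, ← nsmul_eq_mul, ← Finset.card_univ]
    refine (Sn.sum_le _ _ _).trans (Finset.sum_le_card_nsmul _ _ _ fun k _ => ?_)
    rw [Sn.l1_monomial, Sn.l1_monomial]
    exact hb k
  have b3 : G.evalEval (S.y1 m') (S.y2 m') = 0 := by
    rw [← hs, hG, evalEval_finsetSum]
    refine Finset.sum_congr rfl fun k _ => ?_
    simp only [evalEval, eval_monomial, eval_mul, eval_pow, eval_C, mon, mul_assoc]
  obtain ⟨g, g0, g1, g2, g3⟩ := h1 G b0 b1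
  have g4 := (g3 _ _ _ _ ht le_rfl a2.1 a2.2 (by rw [← map_evalEval, b3, map_zero])).trans
    (mul_le_mul_of_nonneg_left s1 (mul_nonneg (zero_le_one.trans c1) (Sn.nonneg _ _)))
  rcases h2 g g0 (g1.trans b1.2) with g5 | g5
  · exact absurd g5 (not_le.2 hdeg)
  have c0 : 0 ≤ c := zero_le_one.trans hc
  have g6 : 1 ≤ (A * c ^ (r + 1)) ^ D * ‖S.τ ^ S.d ^ m'‖ := by
    have k1 : ‖g.eval₂ S.σO (S.φ S.β)‖ ≤ C1 * (N * c ^ D) * ‖S.τ ^ S.d ^ m'‖ :=
      g4.trans (mul_le_mul_of_nonneg_right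
        (mul_le_mul_of_nonneg_left b2 (zero_le_one.trans c1)) (norm_nonneg _))
    have k2 : (C2 * (nR K S.M).l1.f g) ^ r ≤ (C2 * (N * c ^ D)) ^ r :=
      pow_le_pow_left₀ (mul_nonneg (zero_le_one.trans c2) (Sn.nonneg _ _))
        (mul_le_mul_of_nonneg_left (g2.trans b2) (zero_le_one.trans c2)) r
    have k3 := g5.trans (mul_le_mul_of_nonneg_right (mul_le_mul k1 k2
      (pow_nonneg (mul_nonneg (zero_le_one.trans c2) (Sn.nonneg _ _)) r) (by positivity))
      (zero_le_one.trans c2))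
    have k4 : C1 * (N * c ^ D) * ‖S.τ ^ S.d ^ m'‖ * (C2 * (N * c ^ D)) ^ r * C2 =
        A * (c ^ (r + 1)) ^ D * ‖S.τ ^ S.d ^ m'‖ := by
      rw [hA]
      ring
    rw [k4] at k3
    refine k3.trans (mul_le_mul_of_nonneg_right ?_ (norm_nonneg _))
    rw [mul_pow]
    exact mul_le_mul_of_nonneg_right (le_self_pow₀ a1 (by omega)) (by positivity)
  have g7 := one_le_pow₀ g6 (n := D0)
  rw [mul_pow, e, ← pow_mul, mul_comm D, pow_mul, ← mul_pow] at g7
  exact absurd g7 (not_le.2 (pow_lt_one₀ (by positivity) hm (by omega)))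

end TS

end Pool.Agent.P.MP_68214b_ag.DS
end

-- part Pool.Agent.P.MP_68214b_ag.DST2
section

open Polynomial Filter Asymptotics NumberField Topology

namespace Pool.Agent.P.MP_68214b_ag.DS

theorem dst2_repr (F : Type) [Field F] [NumberField F] : ∃ c : ℝ, 1 ≤ c ∧
    ∀ (α : 𝓞 F) (r : Module.Free.ChooseBasisIndex ℤ (𝓞 F)),
      |(((RingOfIntegers.basis F).repr α r : ℤ) : ℝ)| ≤ c * house (α : F) := by
  classical
  obtain ⟨c, hc⟩ : ∃ c : ℝ, ∀ (α : 𝓞 F) (i : F →+* ℂ),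
      ‖(((integralBasis F).reindex (equivReindex F).symm).repr α i : ℂ)‖ ≤
        c * house (algebraMap (𝓞 F) F α) :=
    ⟨_, NumberField.house.basis_repr_norm_le_const_mul_house F⟩
  refine ⟨max 1 c, le_max_left _ _, fun α r => ?_⟩
  have h := hc α ((equivReindex F).symm r)
  rw [Module.Basis.repr_reindex_apply, Equiv.symm_symm, Equiv.apply_symm_apply] at h
  have e : (integralBasis F).repr (α : F) r =
      algebraMap ℤ ℚ ((RingOfIntegers.basis F).repr α r) := integralBasis_repr_apply F α r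
  rw [e, eq_intCast, Rat.cast_intCast, Complex.norm_intCast] at h
  exact h.trans (mul_le_mul_of_nonneg_right (le_max_right _ _) (house_nonneg _))

attribute [local instance] Matrix.seminormedAddCommGroup in
theorem dst2_int {ι κ : Type} [Fintype ι] [Fintype κ] (A : Matrix ι κ ℤ) {B : ℝ} (hB : 1 ≤ B)
    (hA : ∀ i k, |(A i k : ℝ)| ≤ B) (h0 : 0 < Fintype.card κ)
    (h : 2 * Fintype.card ι ≤ Fintype.card κ) :
    ∃ ξ : κ → ℤ, ξ ≠ 0 ∧ A.mulVec ξ = 0 ∧ ∀ k, |(ξ k : ℝ)| ≤ Fintype.card κ * B := by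
  have hk : (1 : ℝ) ≤ Fintype.card κ := by exact_mod_cast h0
  have h1 : (1 : ℝ) ≤ Fintype.card κ * B := one_le_mul_of_one_le_of_one_le hk hB
  rcases Nat.eq_zero_or_pos (Fintype.card ι) with hi | hi
  · have : IsEmpty ι := Fintype.card_eq_zero_iff.1 hi
    obtain ⟨k0⟩ : Nonempty κ := Fintype.card_pos_iff.1 h0
    refine ⟨fun _ => 1, fun h2 => one_ne_zero (congrFun h2 k0), Subsingleton.elim _ _, fun k => ?_⟩
    simpa using h1
  obtain ⟨t, ht0, ht1, ht2⟩ := Int.Matrix.exists_ne_zero_int_vec_norm_le A (by omega) hi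
  refine ⟨t, ht0, ht1, fun k => ?_⟩
  have hn : ‖A‖ ≤ B := (Matrix.norm_le_iff (by linarith)).2 fun i k => by
    rw [Int.norm_eq_abs]; exact hA i k
  have h2 : (Fintype.card κ : ℝ) * max 1 ‖A‖ ≤ Fintype.card κ * B :=
    mul_le_mul_of_nonneg_left (max_le hB hn) (by linarith)
  have h3 : (1 : ℝ) ≤ Fintype.card κ * max 1 ‖A‖ :=
    one_le_mul_of_one_le_of_one_le hk (le_max_left _ _)
  have h4 : (2 : ℝ) * Fintype.card ι ≤ Fintype.card κ := by exact_mod_cast h
  have h5 : (0 : ℝ) < Fintype.card ι := by exact_mod_cast hi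
  have h6 : (Fintype.card ι : ℝ) / (Fintype.card κ - Fintype.card ι) ≤ 1 :=
    (div_le_one (by linarith)).2 (by linarith)
  have h7 := Real.rpow_le_rpow_of_exponent_le h3 h6
  rw [Real.rpow_one] at h7
  rw [← Int.norm_eq_abs]
  exact (norm_le_pi_norm t k).trans (ht2.trans (h7.trans h2))

theorem siegel (F : Type) [Field F] [NumberField F] : ∃ c : ℝ, 1 ≤ c ∧
    ∀ {ι κ : Type} [Fintype ι] [Fintype κ] (a : ι → κ → 𝓞 F) (H : ℝ), 1 ≤ H →
      (∀ i k, (nO F).f (a i k) ≤ H) → 0 < Fintype.card κ →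
      2 * Module.finrank ℚ F * Fintype.card ι ≤ Fintype.card κ →
      ∃ ξ : κ → ℤ, ξ ≠ 0 ∧ (∀ i, ∑ k, a i k * (ξ k : 𝓞 F) = 0) ∧
        ∀ k, |(ξ k : ℝ)| ≤ c * Fintype.card κ * H := by
  obtain ⟨c, hc1, hc⟩ := dst2_repr F
  refine ⟨c, hc1, fun {ι κ} _ _ a H hH ha h0 hcard => ?_⟩
  have hb : Fintype.card (Module.Free.ChooseBasisIndex ℤ (𝓞 F)) = Module.finrank ℚ F := by
    rw [← Module.finrank_eq_card_chooseBasisIndex, RingOfIntegers.rank]
  obtain ⟨ξ, h1, h2, h3⟩ := dst2_int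
    (Matrix.of fun (i : ι × Module.Free.ChooseBasisIndex ℤ (𝓞 F)) (k : κ) =>
      (RingOfIntegers.basis F).repr (a i.1 k) i.2) (B := c * H)
    (one_le_mul_of_one_le_of_one_le hc1 hH)
    (fun i k => (hc _ _).trans (mul_le_mul_of_nonneg_left (ha i.1 k) (by linarith))) h0
    (by rw [Fintype.card_prod, hb, mul_comm (Fintype.card ι), ← mul_assoc]; exact hcard)
  refine ⟨ξ, h1, fun i => ?_, fun k => (h3 k).trans_eq (by ring)⟩
  refine (RingOfIntegers.basis F).ext_elem fun r => ?_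
  have h4 := congrFun h2 (i, r)
  simp only [Matrix.mulVec, dotProduct, Matrix.of_apply, Pi.zero_apply] at h4
  rw [map_zero, Finsupp.zero_apply, map_sum, Finsupp.finsetSum_apply, ← h4]
  refine Finset.sum_congr rfl fun k _ => ?_
  rw [mul_comm (a i k), ← zsmul_eq_mul, map_zsmul, Finsupp.smul_apply, smul_eq_mul, mul_comm]

end Pool.Agent.P.MP_68214b_ag.DS
end

-- part Pool.Agent.P.MP_68214b_ag.DST3a
section

open Polynomial Filter Asymptotics NumberField Topology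

namespace Pool.Agent.P.MP_68214b_ag.DS

theorem dst3a_ev {R : Type*} [CommRing R] (ν : Sn R) (ψ : R →+* ℂ) (h : ∀ a, ‖ψ a‖ ≤ ν.f a)
    {x : ℂ} (hx : ‖x‖ ≤ 1) (N : ℕ) {ε : ℝ} (hε : 0 ≤ ε) (p : R[X])
    (hp : ∀ i < N, ‖ψ (p.coeff i)‖ ≤ ν.f (p.coeff i) * ε) :
    ‖eval₂RingHom ψ x p‖ ≤ ν.l1.f p * (ε + ‖x‖ ^ N) := by
  refine (nC.eval₂_le_sum ψ x p).trans ?_
  rw [ν.l1_eq p subset_rfl, Finset.sum_mul]
  refine Finset.sum_le_sum fun i _ => ?_
  show ‖ψ (p.coeff i)‖ * ‖x‖ ^ i ≤ _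
  have h0 := ν.nonneg (p.coeff i)
  have h1 : 0 ≤ ‖x‖ ^ N := by positivity
  rcases lt_or_ge i N with hi | hi
  · refine (mul_le_of_le_one_right (norm_nonneg _) (pow_le_one₀ (norm_nonneg _) hx)).trans
      ((hp i hi).trans ?_)
    exact mul_le_mul_of_nonneg_left (by linarith) h0
  · exact mul_le_mul (h _) ((pow_le_pow_of_le_one (norm_nonneg _) hx hi).trans (by linarith))
      (by positivity) h0

theorem dst3a_ev0 {R : Type*} [CommRing R] (ν : Sn R) (ψ : R →+* ℂ) (h : ∀ a, ‖ψ a‖ ≤ ν.f a)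
    {x : ℂ} (hx : ‖x‖ ≤ 1) (p : R[X]) : ‖eval₂RingHom ψ x p‖ ≤ ν.l1.f p := by
  simpa using dst3a_ev ν ψ h hx 0 le_rfl p fun i hi => absurd hi (Nat.not_lt_zero i)

theorem ta1 (F : Type) [Field F] [NumberField F] (φ : F →+* ℂ) : ∃ c : ℝ, 1 ≤ c ∧
    ∀ {κ : Type} [Fintype κ] (Ξ : κ → (𝓞 F)[X][X]) (m : κ → (𝓞 F)[X]) (H1 H2 : ℝ) (N0 N N1 : ℕ),
      1 ≤ H1 → 1 ≤ H2 → (∀ k, (nO F).l2.f (Ξ k) ≤ H1) → (∀ k, (nO F).l1.f (m k) ≤ H2) →
      0 < Fintype.card κ → 2 * Module.finrank ℚ F * N0 * N * N1 ≤ Fintype.card κ →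
      ∃ ξ : κ → ℤ, ξ ≠ 0 ∧ (∀ k, |(ξ k : ℝ)| ≤ c * Fintype.card κ * (H1 * H2)) ∧
        ∀ s w t : ℂ, ‖s‖ ≤ 1 → ‖w‖ ≤ 1 → ‖t‖ ≤ 1 →
          ‖∑ k, (ξ k : ℂ) * ev2 (φ.comp (algebraMap (𝓞 F) F)) s w (Ξ k) *
              (m k).eval₂ (φ.comp (algebraMap (𝓞 F) F)) t‖ ≤
            c * (Fintype.card κ : ℝ) ^ 2 * (H1 * H2) ^ 2 * (‖t‖ ^ N0 + ‖s‖ ^ N + ‖w‖ ^ N1) := by
  obtain ⟨c, hc, hS⟩ := siegel F
  refine ⟨c, hc, fun {κ} _ Ξ m H1 H2 N0 N N1 h1 h2 hΞ hm hκ hN => ?_⟩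
  obtain ⟨ξ, hξ, hz, hb⟩ := hS (ι := Fin N0 × Fin N × Fin N1)
    (fun x k => ((Ξ k).coeff x.2.2).coeff x.2.1 * (m k).coeff x.1) (H1 * H2)
    (one_le_mul_of_one_le_of_one_le h1 h2) (fun x k => ((nO F).mul _ _).trans
      (mul_le_mul (((nO F).coeff2_le _ _ _).trans (hΞ k)) (((nO F).coeff_le _ _).trans (hm k))
        ((nO F).nonneg _) (by linarith))) hκ (by simpa [mul_assoc] using hN)
  refine ⟨ξ, hξ, hb, fun s w t hs hw ht => ?_⟩
  set ψ := φ.comp (algebraMap (𝓞 F) F)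
  have hψ : ∀ a, ‖ψ a‖ ≤ (nO F).f a := (lv_nO φ).le
  have hψ1 := dst3a_ev0 _ ψ hψ hs
  have hψ2 : ∀ W, ‖ev2 ψ s w W‖ ≤ (nO F).l2.f W := dst3a_ev0 _ _ hψ1 hw
  let Z : (𝓞 F)[X][X][X] := ∑ k, C ((ξ k : (𝓞 F)[X][X]) * Ξ k) * (m k).map (C.comp C)
  have hZ : eval₂RingHom (ev2 ψ s w) t Z =
      ∑ k, (ξ k : ℂ) * ev2 ψ s w (Ξ k) * (m k).eval₂ ψ t := by
    have : (ev2 ψ s w).comp (C.comp C) = ψ := by ext a; simp
    simp only [Z, map_sum, map_mul, coe_eval₂RingHom, eval₂_C, eval₂_map, this, map_intCast]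
  have hco : ∀ a < N0, ∀ i < N1, ∀ e < N, ((Z.coeff a).coeff i).coeff e = 0 := by
    intro a ha i hi e he
    rw [← hz (⟨a, ha⟩, ⟨e, he⟩, ⟨i, hi⟩)]
    simp only [Z, finsetSum_coeff, coeff_C_mul, coeff_map, RingHom.comp_apply, coeff_mul_C,
      coeff_intCast_mul]
    exact Finset.sum_congr rfl fun k _ => by ring
  have hZ2 : (nO F).l2.l1.f Z ≤ c * (Fintype.card κ : ℝ) ^ 2 * (H1 * H2) ^ 2 := by
    refine (Sn.sum_le _ _ _).trans ((Finset.sum_le_card_nsmul _ _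
      (c * Fintype.card κ * (H1 * H2) * H1 * H2) fun k _ => ?_).trans (le_of_eq ?_))
    · refine (Sn.mul _ _ _).trans (mul_le_mul ?_ (((nO F).l1_map _ _ (fun a => ?_) _).trans (hm k))
        (Sn.nonneg _ _) (by positivity))
      · rw [Sn.l1_C]
        exact (Sn.mul _ _ _).trans (mul_le_mul ((Sn.intCast_le _ _).trans (hb k)) (hΞ k)
          (Sn.nonneg _ _) (by positivity))
      · exact ((Sn.l1_C _ _).trans (Sn.l1_C _ _)).le
    · rw [nsmul_eq_mul, Finset.card_univ]; ring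
  rw [← hZ]
  refine (dst3a_ev (nO F).l2 (ev2 ψ s w) hψ2 ht N0 (ε := 0 + ‖s‖ ^ N + ‖w‖ ^ N1) (by positivity) Z
    fun a ha => dst3a_ev (nO F).l1 _ hψ1 hw N1 (by positivity) _ fun i hi =>
      dst3a_ev (nO F) ψ hψ hs N le_rfl _ fun e he => by simp [hco a ha i hi e he]).trans ?_
  exact mul_le_mul hZ2 (le_of_eq (by ring)) (by positivity) (by positivity)

end Pool.Agent.P.MP_68214b_ag.DS
end
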