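import Pool.Agent.K.MP_68214b_ag.C2
import Pool.Agent.K.MP_68214b_ag.C0

-- part Pool.Agent.P.MP_68214b_ag.DST3bx
section

open Polynomial Filter Asymptotics NumberField Topology

namespace Pool.Agent.P.MP_68214b_ag.DS

theorem dst3b_pow {A B : ℂ} {M : ℝ} (hM : 1 ≤ M) (hA : ‖A‖ ≤ M) (hB : ‖B‖ ≤ M) (i : ℕ) :
    ‖A ^ i - B ^ i‖ ≤ i * M ^ i * ‖A - B‖ := by
  induction i with
  | zero => simp
  | succ i ih =>
    have e : A ^ (i + 1) - B ^ (i + 1) = A * (A ^ i - B ^ i) + B ^ i * (A - B) := by ring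
    have h1 : ‖A * (A ^ i - B ^ i)‖ ≤ M * (i * M ^ i * ‖A - B‖) := by
      rw [norm_mul]; exact mul_le_mul hA ih (norm_nonneg _) (by linarith)
    have h2 : ‖B ^ i * (A - B)‖ ≤ M ^ (i + 1) * ‖A - B‖ := by
      rw [norm_mul, norm_pow]
      refine mul_le_mul_of_nonneg_right ?_ (norm_nonneg _)
      exact (pow_le_pow_left₀ (norm_nonneg _) hB i).trans (pow_le_pow_right₀ hM (Nat.le_succ i))
    rw [e]
    refine (norm_add_le _ _).trans ((add_le_add h1 h2).trans (le_of_eq ?_))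
    push_cast; ring

theorem dst3b_eval (p : ℂ[X]) {τ : ℂ} (h : ‖τ‖ ≤ 1) : ‖p.eval τ‖ ≤ nC.l1.f p := by
  have := nC.eval₂_le nC (RingHom.id ℂ) (fun _ => le_rfl) (x := τ) le_rfl h (p := p) le_rfl
  rw [eval₂_id, one_pow, mul_one] at this
  exact this

theorem dst3b_pp {R : Type*} [CommRing R] (ν : Sn R) {x y : R} {h : ℝ} (hx : ν.f x ≤ h)
    (hy : ν.f y ≤ h) {i D : ℕ} (hi : i ≤ D) : ν.f (x ^ i * y ^ (D - i)) ≤ h ^ D := by
  have h0 : 0 ≤ h := (ν.nonneg x).trans hx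
  refine (ν.mul _ _).trans ?_
  have e : h ^ D = h ^ i * h ^ (D - i) := by rw [← pow_add, Nat.add_sub_cancel' hi]
  rw [e]
  exact mul_le_mul ((ν.pow_le _ _).trans (pow_le_pow_left₀ (ν.nonneg _) hx _))
    ((ν.pow_le _ _).trans (pow_le_pow_left₀ (ν.nonneg _) hy _)) (ν.nonneg _) (by positivity)

theorem dst3b_nx {R : Type*} [CommRing R] (ν : Sn R) (n k : ℕ) :
    ν.l1.f ((n : R[X]) * X ^ k) ≤ n := by
  refine (ν.l1.mul _ _).trans ?_
  have h1 := ν.l1.natCast_le n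
  have h2 : ν.l1.f (X ^ k) ≤ 1 :=
    (ν.l1.pow_le _ _).trans (pow_le_one₀ (ν.l1.nonneg _) ν.l1_X)
  exact (mul_le_of_le_one_right (ν.l1.nonneg _) h2).trans h1

theorem dst3b_den {F : Type} [Field F] [NumberField F] (φ : F →+* ℂ) (π1 π2 : F[X]) :
    ∃ (n : ℕ) (q1 q2 : (𝓞 F)[X]), 0 < n ∧
      (∀ s, q1.eval₂ (φ.comp (algebraMap (𝓞 F) F)) s = n * (π1.map φ).eval s) ∧
      ∀ s, q2.eval₂ (φ.comp (algebraMap (𝓞 F) F)) s = n * (π2.map φ).eval s := by
  obtain ⟨n1, q1, h1, e1⟩ := exists_den1 π1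
  obtain ⟨n2, q2, h2, e2⟩ := exists_den1 π2
  refine ⟨n1 * n2, (n2 : (𝓞 F)[X]) * q1, (n1 : (𝓞 F)[X]) * q2, Nat.mul_pos h1 h2, ?_, ?_⟩
  · intro s
    rw [eval₂_mul, eval₂_natCast, ← eval₂_map, e1, eval₂_mul, eval₂_natCast, eval_map]
    push_cast; ring
  · intro s
    rw [eval₂_mul, eval₂_natCast, ← eval₂_map, e2, eval₂_mul, eval₂_natCast, eval_map]
    push_cast; ring

/-- the polynomial with a given box of coefficients -/
noncomputable def dst3b_P {D D2 : ℕ} (ξ : Fin (D + 1) × Fin (D2 + 1) → ℤ) : ℤ[X][X] :=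
  ∑ l : Fin (D + 1) × Fin (D2 + 1), monomial (l.2 : ℕ) (monomial (l.1 : ℕ) (ξ l))

theorem dst3b_coeff {D D2 : ℕ} (ξ : Fin (D + 1) × Fin (D2 + 1) → ℤ)
    (l : Fin (D + 1) × Fin (D2 + 1)) : ((dst3b_P ξ).coeff l.2).coeff l.1 = ξ l := by
  unfold dst3b_P
  rw [finsetSum_coeff, finsetSum_coeff, Finset.sum_eq_single l]
  · simp
  · intro l' _ hl
    rw [coeff_monomial]
    split_ifs with h
    · rw [coeff_monomial, if_neg]
      intro h'
      exact hl (Prod.ext (Fin.ext h') (Fin.ext h))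
    · simp
  · simp

theorem dst3b_bd {D D2 : ℕ} (ξ : Fin (D + 1) × Fin (D2 + 1) → ℤ) : Bd (dst3b_P ξ) D D2 := by
  refine bd_sum _ fun l _ => ⟨fun j => ?_, ?_⟩
  · rw [coeff_monomial]
    split_ifs
    · exact (natDegree_monomial_le _).trans (Nat.lt_succ_iff.1 l.1.2)
    · simp
  · exact (natDegree_monomial_le _).trans (Nat.lt_succ_iff.1 l.2.2)

theorem dst3b_l2 {D D2 : ℕ} (ξ : Fin (D + 1) × Fin (D2 + 1) → ℤ) {B : ℝ}
    (h : ∀ l, |(ξ l : ℝ)| ≤ B) : nZ.l2.f (dst3b_P ξ) ≤ ((D + 1) * (D2 + 1) : ℕ) * B := by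
  refine (nZ.l2.sum_le _ _).trans ?_
  have : ∀ l ∈ (Finset.univ : Finset (Fin (D + 1) × Fin (D2 + 1))),
      nZ.l2.f (monomial (l.2 : ℕ) (monomial (l.1 : ℕ) (ξ l))) ≤ B := fun l _ => by
    rw [nZ.l1.l1_monomial, nZ.l1_monomial]
    exact h l
  refine (Finset.sum_le_card_nsmul _ _ _ this).trans (le_of_eq ?_)
  simp

theorem dst3b_ev {D D2 : ℕ} (ξ : Fin (D + 1) × Fin (D2 + 1) → ℤ) (z1 z2 : ℂ) :
    (map2 zc (dst3b_P ξ)).evalEval z1 z2 =
      ∑ l : Fin (D + 1) × Fin (D2 + 1), (ξ l : ℂ) * (z1 ^ (l.1 : ℕ) * z2 ^ (l.2 : ℕ)) := by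
  rw [← ev2_eq]
  unfold dst3b_P
  rw [map_sum]
  refine Finset.sum_congr rfl fun l _ => ?_
  simp [mul_assoc]

theorem dst3b_card {D D2 D0 : ℕ} (h0 : D0 ≤ D) (h2 : D2 ≤ D) :
    (((D + 1) * (D2 + 1) * (D0 + 1) ^ 2 : ℕ) : ℝ) ≤ 16 ^ D := by
  have h : D + 1 ≤ 2 ^ D := Nat.lt_two_pow_self
  have : (D + 1) * (D2 + 1) * (D0 + 1) ^ 2 ≤ 2 ^ D * 2 ^ D * (2 ^ D) ^ 2 :=
    Nat.mul_le_mul (Nat.mul_le_mul h (by omega)) (Nat.pow_le_pow_left (by omega) 2)
  have e : 2 ^ D * 2 ^ D * (2 ^ D) ^ 2 = 16 ^ D := by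
    rw [show (16 : ℕ) = 2 * 2 * (2 * 2) by norm_num, mul_pow, mul_pow, sq]
  rw [e] at this
  exact_mod_cast this

end Pool.Agent.P.MP_68214b_ag.DS
end

-- part Pool.Agent.P.MP_68214b_ag.DST3b
section

open Polynomial Filter Asymptotics NumberField Topology

namespace Pool.Agent.P.MP_68214b_ag.DS

theorem mon_close (π1 π2 : ℂ[X]) (a b T D0 : ℕ) (C0 : ℝ) : ∃ C : ℝ, 0 ≤ C ∧
    ∀ τ z1 z2 : ℂ, ‖τ‖ ≤ 1 → Apx a b T π1 π2 C0 τ z1 z2 → ∀ i ≤ D0, ∀ j ≤ D0,
      ‖τ ^ ((a + b) * D0) * (z1 ^ i * z2 ^ j) -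
        π1.eval τ ^ i * (τ ^ b) ^ (D0 - i) * (π2.eval τ ^ j * (τ ^ a) ^ (D0 - j))‖ ≤
        C * ‖τ‖ ^ T := by
  obtain ⟨M, hM⟩ : ∃ M, M = nC.l1.f π1 + nC.l1.f π2 + |C0| + 1 := ⟨_, rfl⟩
  have n1 := nC.l1.nonneg π1
  have n2 := nC.l1.nonneg π2
  have n3 := abs_nonneg C0
  have hM1 : 1 ≤ M := by linarith
  have hM0 : 0 ≤ M := by linarith
  refine ⟨2 * (D0 * M ^ D0 * M ^ D0 * |C0|), by positivity, ?_⟩
  intro τ z1 z2 hτ hA i hi j hj
  obtain ⟨h1, h2⟩ := hA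
  have hT : ‖τ‖ ^ T ≤ 1 := pow_le_one₀ (norm_nonneg _) hτ
  have hT0 : 0 ≤ ‖τ‖ ^ T := by positivity
  have hc : C0 * ‖τ‖ ^ T ≤ |C0| * ‖τ‖ ^ T := mul_le_mul_of_nonneg_right (le_abs_self _) hT0
  have hc' : |C0| * ‖τ‖ ^ T ≤ |C0| := mul_le_of_le_one_right n3 hT
  have b1 := dst3b_eval π1 hτ
  have b2 := dst3b_eval π2 hτ
  generalize π1.eval τ = B1 at h1 b1 ⊢
  generalize π2.eval τ = B2 at h2 b2 ⊢
  have a1 : ‖z1 * τ ^ b‖ ≤ M := by
    have := norm_le_norm_sub_add (z1 * τ ^ b) B1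
    linarith
  have a2 : ‖z2 * τ ^ a‖ ≤ M := by
    have := norm_le_norm_sub_add (z2 * τ ^ a) B2
    linarith
  have b1' : ‖B1‖ ≤ M := by linarith
  have b2' : ‖B2‖ ≤ M := by linarith
  have e : τ ^ ((a + b) * D0) * (z1 ^ i * z2 ^ j) -
      B1 ^ i * (τ ^ b) ^ (D0 - i) * (B2 ^ j * (τ ^ a) ^ (D0 - j)) =
      ((τ ^ b) ^ (D0 - i) * (τ ^ a) ^ (D0 - j)) *
        (((z1 * τ ^ b) ^ i - B1 ^ i) * (z2 * τ ^ a) ^ j + B1 ^ i * ((z2 * τ ^ a) ^ j - B2 ^ j)) := by
    have e1 : (τ ^ b) ^ D0 = (τ ^ b) ^ (D0 - i) * (τ ^ b) ^ i := by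
      rw [← pow_add, Nat.sub_add_cancel hi]
    have e2 : (τ ^ a) ^ D0 = (τ ^ a) ^ (D0 - j) * (τ ^ a) ^ j := by
      rw [← pow_add, Nat.sub_add_cancel hj]
    rw [pow_mul, pow_add, mul_pow, e1, e2, mul_pow, mul_pow]
    ring
  have u : ‖(τ ^ b) ^ (D0 - i) * (τ ^ a) ^ (D0 - j)‖ ≤ 1 := by
    rw [norm_mul, norm_pow, norm_pow, norm_pow, norm_pow]
    exact mul_le_one₀ (pow_le_one₀ (by positivity) (pow_le_one₀ (norm_nonneg _) hτ)) (by positivity)
      (pow_le_one₀ (by positivity) (pow_le_one₀ (norm_nonneg _) hτ))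
  have pw : ∀ (z : ℂ) (k : ℕ), ‖z‖ ≤ M → k ≤ D0 → ‖z ^ k‖ ≤ M ^ D0 := fun z k hz hk => by
    rw [norm_pow]
    exact (pow_le_pow_left₀ (norm_nonneg _) hz k).trans (pow_le_pow_right₀ hM1 hk)
  have df : ∀ (A B : ℂ) (k : ℕ), ‖A‖ ≤ M → ‖B‖ ≤ M → k ≤ D0 → ‖A - B‖ ≤ C0 * ‖τ‖ ^ T →
      ‖A ^ k - B ^ k‖ ≤ D0 * M ^ D0 * (|C0| * ‖τ‖ ^ T) := fun A B k hA hB hk h => by
    refine (dst3b_pow hM1 hA hB k).trans ?_
    refine mul_le_mul ?_ (h.trans hc) (norm_nonneg _) (by positivity)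
    exact mul_le_mul (by exact_mod_cast hk) (pow_le_pow_right₀ hM1 hk) (by positivity)
      (by positivity)
  have t1 : ‖((z1 * τ ^ b) ^ i - B1 ^ i) * (z2 * τ ^ a) ^ j‖ ≤
      D0 * M ^ D0 * (|C0| * ‖τ‖ ^ T) * M ^ D0 := by
    rw [norm_mul]
    exact mul_le_mul (df _ _ i a1 b1' hi h1) (pw _ j a2 hj) (norm_nonneg _) (by positivity)
  have t2 : ‖B1 ^ i * ((z2 * τ ^ a) ^ j - B2 ^ j)‖ ≤
      M ^ D0 * (D0 * M ^ D0 * (|C0| * ‖τ‖ ^ T)) := by
    rw [norm_mul]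
    exact mul_le_mul (pw _ i b1' hi) (df _ _ j a2 b2' hj h2) (norm_nonneg _) (by positivity)
  rw [e, norm_mul]
  refine (mul_le_of_le_one_left (norm_nonneg _) u).trans ?_
  refine (norm_add_le _ _).trans ((add_le_add t1 t2).trans (le_of_eq ?_))
  ring

theorem ta2 {F : Type} [Field F] [NumberField F] (φ : F →+* ℂ) (π1 π2 : F[X]) (a b T D0 N0 : ℕ)
    (hD0 : 0 < D0) (hN0 : N0 ≤ T) (C0 : ℝ) : ∃ c : ℝ, 1 ≤ c ∧ ∀ D D2 N N1 : ℕ, D0 ≤ D → D2 ≤ D →
      2 * Module.finrank ℚ F * N0 * N * N1 ≤ (D + 1) * (D2 + 1) * (D0 + 1) ^ 2 →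
      ∃ P : Fin (D0 + 1) × Fin (D0 + 1) → ℤ[X][X], P ≠ 0 ∧
        (∀ k, Bd (P k) D D2 ∧ nZ.l2.f (P k) ≤ c ^ D) ∧
        ∀ s z1 z2 t w1 w2 : ℂ, ‖s‖ ≤ 1 → ‖t‖ ≤ 1 → z1 * s ^ b = (π1.map φ).eval s →
          ‖z2 * s ^ a - (π2.map φ).eval s‖ ≤ 1 → Apx a b T (π1.map φ) (π2.map φ) C0 t w1 w2 →
          ‖s‖ ^ ((a + b) * D) * ‖t‖ ^ ((a + b) * D0) *
              ‖(cmb zc P (mon D0 w1 w2)).evalEval z1 z2‖ ≤
            c ^ D * (‖t‖ ^ N0 + ‖s‖ ^ N + ‖z2 * s ^ a - (π2.map φ).eval s‖ ^ N1) := by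
  obtain ⟨c1, hc1, H⟩ := ta1 F φ
  obtain ⟨C1, hC1, hmc⟩ := mon_close (π1.map φ) (π2.map φ) a b T D0 C0
  obtain ⟨n, q1, q2, hn, e1, e2⟩ := dst3b_den φ π1 π2
  obtain ⟨ψ, hψ⟩ : ∃ ψ, ψ = φ.comp (algebraMap (𝓞 F) F) := ⟨_, rfl⟩
  have hψl : ∀ x, nC.f (ψ x) ≤ (nO F).f x := fun x => by rw [hψ]; exact (lv_nO φ).le x
  rw [← hψ] at H e1 e2
  obtain ⟨h, hh⟩ : ∃ h, h = (nO F).l1.f q1 + (nO F).l1.f q2 + n := ⟨_, rfl⟩
  have n1 := (nO F).l1.nonneg q1
  have n2 := (nO F).l1.nonneg q2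
  have n3 : (1 : ℝ) ≤ n := by exact_mod_cast hn
  have h1 : 1 ≤ h := by linarith
  have hq1 : (nO F).l1.f q1 ≤ h := by linarith
  have hq2 : (nO F).l1.f q2 ≤ h := by linarith
  have hnx : ∀ k, (nO F).l1.f ((n : (𝓞 F)[X]) * X ^ k) ≤ h := fun k => by
    have := dst3b_nx (nO F) n k
    linarith
  obtain ⟨E, hE⟩ : ∃ E : ℝ, E = n ^ D0 * n ^ D0 * C1 + 1 := ⟨_, rfl⟩
  have hE0 : (0 : ℝ) ≤ n ^ D0 * n ^ D0 * C1 := by positivity
  have hE1 : 1 ≤ E := by linarith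
  have hc : 1 ≤ 2 * c1 * 16 ^ 2 * h ^ 8 * E := by
    refine one_le_mul_of_one_le_of_one_le (one_le_mul_of_one_le_of_one_le
      (one_le_mul_of_one_le_of_one_le (by linarith) (by norm_num)) (one_le_pow₀ h1)) hE1
  refine ⟨_, hc, ?_⟩
  intro D D2 N N1 hD hD2 hcnt
  have hD1 : D ≠ 0 := by omega
  have hcard : Fintype.card ((Fin (D0 + 1) × Fin (D0 + 1)) × (Fin (D + 1) × Fin (D2 + 1))) =
      (D + 1) * (D2 + 1) * (D0 + 1) ^ 2 := by
    simp only [Fintype.card_prod, Fintype.card_fin]; ring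
  obtain ⟨Ξ, hΞ⟩ : ∃ Ξ : (Fin (D0 + 1) × Fin (D0 + 1)) × (Fin (D + 1) × Fin (D2 + 1)) →
      (𝓞 F)[X][X], ∀ k, Ξ k = C (q1 ^ (k.2.1 : ℕ) * ((n : (𝓞 F)[X]) * X ^ b) ^ (D - k.2.1)) *
        ((C q2 + (n : (𝓞 F)[X][X]) * X ^ 1) ^ (k.2.2 : ℕ) *
          C ((n : (𝓞 F)[X]) * X ^ a) ^ (D - k.2.2)) := ⟨_, fun _ => rfl⟩
  obtain ⟨m, hm⟩ : ∃ m : (Fin (D0 + 1) × Fin (D0 + 1)) × (Fin (D + 1) × Fin (D2 + 1)) →
      (𝓞 F)[X], ∀ k, m k = q1 ^ (k.1.1 : ℕ) * ((n : (𝓞 F)[X]) * X ^ b) ^ (D0 - k.1.1) *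
        (q2 ^ (k.1.2 : ℕ) * ((n : (𝓞 F)[X]) * X ^ a) ^ (D0 - k.1.2)) := ⟨_, fun _ => rfl⟩
  have hD' : 1 ≤ h ^ D := one_le_pow₀ h1
  have hD0' : 1 ≤ h ^ D0 := one_le_pow₀ h1
  have bΞ : ∀ k, (nO F).l2.f (Ξ k) ≤ h ^ D * h ^ D := fun k => by
    rw [hΞ]
    refine ((nO F).l2.mul _ _).trans (mul_le_mul ?_ ?_ ((nO F).l2.nonneg _) (by positivity))
    · rw [(nO F).l1.l1_C]
      exact dst3b_pp _ hq1 (hnx b) (Nat.lt_succ_iff.1 k.2.1.2)
    · refine dst3b_pp _ ?_ ?_ ((Nat.lt_succ_iff.1 k.2.2.2).trans hD2)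
      · refine ((nO F).l2.add _ _).trans ?_
        rw [(nO F).l1.l1_C]
        have := dst3b_nx (nO F).l1 n 1
        linarith
      · rw [(nO F).l1.l1_C]
        exact hnx a
  have bm : ∀ k, (nO F).l1.f (m k) ≤ h ^ D0 * h ^ D0 := fun k => by
    rw [hm]
    exact ((nO F).l1.mul _ _).trans (mul_le_mul
      (dst3b_pp _ hq1 (hnx b) (Nat.lt_succ_iff.1 k.1.1.2))
      (dst3b_pp _ hq2 (hnx a) (Nat.lt_succ_iff.1 k.1.2.2)) ((nO F).l1.nonneg _) (by positivity))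
  have hH1 : 1 ≤ h ^ D * h ^ D := one_le_mul_of_one_le_of_one_le hD' hD'
  have hH2 : 1 ≤ h ^ D0 * h ^ D0 := one_le_mul_of_one_le_of_one_le hD0' hD0'
  obtain ⟨ξ, hξ0, hξ, hmain⟩ := H Ξ m _ _ N0 N N1 hH1 hH2 bΞ bm (by rw [hcard]; positivity)
    (by rw [hcard]; exact hcnt)
  have hK := dst3b_card hD hD2
  have hK1 : (((D + 1) * (D2 + 1) : ℕ) : ℝ) ≤ ((D + 1) * (D2 + 1) * (D0 + 1) ^ 2 : ℕ) := by
    exact_mod_cast Nat.le_mul_of_pos_right _ (by positivity)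
  rw [← hcard] at hK hK1
  obtain ⟨K, hKe⟩ : ∃ K : ℝ, K = Fintype.card
    ((Fin (D0 + 1) × Fin (D0 + 1)) × (Fin (D + 1) × Fin (D2 + 1))) := ⟨_, rfl⟩
  have hK0 : 0 ≤ K := by rw [hKe]; positivity
  rw [← hKe] at hK hK1 hξ hmain
  obtain ⟨G, hG⟩ : ∃ G, G = h ^ D * h ^ D * (h ^ D0 * h ^ D0) := ⟨_, rfl⟩
  rw [← hG] at hξ hmain
  have hG1 : 1 ≤ G := hG ▸ one_le_mul_of_one_le_of_one_le hH1 hH2
  have hG2 : h ^ D * h ^ D ≤ G := hG ▸ le_mul_of_one_le_right (by positivity) hH2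
  have hG3 : G ≤ (h ^ D) ^ 4 := by
    have := pow_le_pow_right₀ h1 hD
    rw [hG, show (h ^ D) ^ 4 = h ^ D * h ^ D * (h ^ D * h ^ D) by ring]
    gcongr
  have hX : 2 * (c1 * K ^ 2 * G ^ 2 * E) ≤ (2 * c1 * 16 ^ 2 * h ^ 8 * E) ^ D := by
    have e : (2 * c1 * 16 ^ 2 * h ^ 8 * E) ^ D =
        2 ^ D * (c1 ^ D * (16 ^ D) ^ 2 * ((h ^ D) ^ 4) ^ 2 * E ^ D) := by
      simp only [mul_pow, ← pow_mul]
      ring
    rw [e]
    have i1 : (2 : ℝ) ≤ 2 ^ D := le_self_pow₀ (by norm_num) hD1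
    have i2 : c1 ≤ c1 ^ D := le_self_pow₀ hc1 hD1
    have i3 : E ≤ E ^ D := le_self_pow₀ hE1 hD1
    gcongr
  generalize (2 * c1 * 16 ^ 2 * h ^ 8 * E) ^ D = cD at hX ⊢
  have hY0 : 0 ≤ c1 * K ^ 2 * G ^ 2 := by positivity
  have hY1 : c1 * K ^ 2 * G ^ 2 ≤ c1 * K ^ 2 * G ^ 2 * E := le_mul_of_one_le_right hY0 hE1
  refine ⟨fun k => dst3b_P fun l => ξ (k, l), ?_, fun k => ⟨dst3b_bd _, ?_⟩, ?_⟩
  · intro h0
    refine hξ0 (funext fun k => ?_)
    have := dst3b_coeff (fun l => ξ (k.1, l)) k.2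
    rw [show dst3b_P (fun l => ξ (k.1, l)) = 0 from congrFun h0 k.1] at this
    simpa using this.symm
  · refine (dst3b_l2 _ fun l => hξ (k, l)).trans ?_
    have i1 : (((D + 1) * (D2 + 1) : ℕ) : ℝ) * (c1 * K * G) ≤ K * (c1 * K * (G * G)) := by
      have : G ≤ G * G := le_mul_of_one_le_right (by linarith) hG1
      gcongr
    have e : K * (c1 * K * (G * G)) = c1 * K ^ 2 * G ^ 2 := by ring
    linarith
  intro s z1 z2 t w1 w2 hs ht hz1 hw hA
  obtain ⟨w, hwe⟩ : ∃ w, w = z2 * s ^ a - (π2.map φ).eval s := ⟨_, rfl⟩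
  rw [← hwe] at hw ⊢
  have hm1 := hmain s w t hs hw ht
  have vΞ : ∀ k, ev2 ψ s w (Ξ k) =
      (n : ℂ) ^ D * n ^ D * s ^ ((a + b) * D) * (z1 ^ (k.2.1 : ℕ) * z2 ^ (k.2.2 : ℕ)) := fun k => by
    have f1 : (n : ℂ) * (π2.map φ).eval s + n * w = n * s ^ a * z2 := by rw [hwe]; ring
    have f2 : (n : ℂ) * (π1.map φ).eval s = n * s ^ b * z1 := by rw [← hz1]; ring
    have g1 : ((n : ℂ) * s ^ b) ^ D = (n * s ^ b) ^ (k.2.1 : ℕ) * (n * s ^ b) ^ (D - k.2.1) := by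
      rw [← pow_add, Nat.add_sub_cancel' (Nat.lt_succ_iff.1 k.2.1.2)]
    have g2 : ((n : ℂ) * s ^ a) ^ D = (n * s ^ a) ^ (k.2.2 : ℕ) * (n * s ^ a) ^ (D - k.2.2) := by
      rw [← pow_add, Nat.add_sub_cancel' ((Nat.lt_succ_iff.1 k.2.2.2).trans hD2)]
    have g3 : (n : ℂ) ^ D * n ^ D * s ^ ((a + b) * D) = (n * s ^ b) ^ D * (n * s ^ a) ^ D := by
      rw [pow_mul, pow_add, mul_pow, mul_pow, mul_pow]; ring
    rw [hΞ, g3, g1, g2]
    simp only [map_mul, map_pow, map_add, map_natCast, coe_eval₂RingHom, eval₂_C, eval₂_X,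
      e1, e2, pow_one]
    rw [f1, f2, mul_pow _ z1, mul_pow _ z2]
    ring
  have bv : ∀ k, ‖ev2 ψ s w (Ξ k)‖ ≤ G := fun k => by
    obtain ⟨D', hb⟩ := exists_bd (Ξ k)
    have := (nO F).ev2_le nC ψ hψl (x := s) (y := w) le_rfl hs hw hb
    rw [one_pow, mul_one] at this
    exact this.trans ((bΞ k).trans hG2)
  have vm : ∀ k, ‖(n : ℂ) ^ D0 * n ^ D0 * t ^ ((a + b) * D0) * mon D0 w1 w2 k.1 - (m k).eval₂ ψ t‖ ≤
      E * ‖t‖ ^ N0 := fun k => by
    have := hmc t w1 w2 ht hA _ (Nat.lt_succ_iff.1 k.1.1.2) _ (Nat.lt_succ_iff.1 k.1.2.2)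
    have g1 : (n : ℂ) ^ D0 = n ^ (k.1.1 : ℕ) * n ^ (D0 - k.1.1) := by
      rw [← pow_add, Nat.add_sub_cancel' (Nat.lt_succ_iff.1 k.1.1.2)]
    have g2 : (n : ℂ) ^ D0 = n ^ (k.1.2 : ℕ) * n ^ (D0 - k.1.2) := by
      rw [← pow_add, Nat.add_sub_cancel' (Nat.lt_succ_iff.1 k.1.2.2)]
    have e : (m k).eval₂ ψ t = (n : ℂ) ^ D0 * n ^ D0 *
        ((π1.map φ).eval t ^ (k.1.1 : ℕ) * (t ^ b) ^ (D0 - k.1.1) *
          ((π2.map φ).eval t ^ (k.1.2 : ℕ) * (t ^ a) ^ (D0 - k.1.2))) := by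
      rw [hm]
      simp only [eval₂_mul, eval₂_pow, eval₂_natCast, eval₂_X, e1, e2]
      nth_rewrite 2 [g2]
      nth_rewrite 1 [g1]
      simp only [mul_pow]
      ring
    rw [e, mon, mul_assoc, ← mul_sub, norm_mul, norm_mul, norm_pow, Complex.norm_natCast]
    have i1 : ‖t‖ ^ T ≤ ‖t‖ ^ N0 := pow_le_pow_of_le_one (norm_nonneg _) ht hN0
    calc _ ≤ (n : ℝ) ^ D0 * n ^ D0 * (C1 * ‖t‖ ^ T) := by gcongr
      _ = n ^ D0 * n ^ D0 * C1 * ‖t‖ ^ T := by ring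
      _ ≤ E * ‖t‖ ^ N0 := by gcongr; linarith
  have key : ((n : ℂ) ^ D * n ^ D * s ^ ((a + b) * D)) * ((n : ℂ) ^ D0 * n ^ D0 * t ^ ((a + b) * D0)) *
      (cmb zc (fun k => dst3b_P fun l => ξ (k, l)) (mon D0 w1 w2)).evalEval z1 z2 =
      ∑ k, (ξ k : ℂ) * ev2 ψ s w (Ξ k) * (m k).eval₂ ψ t +
      ∑ k, (ξ k : ℂ) * ev2 ψ s w (Ξ k) *
        ((n : ℂ) ^ D0 * n ^ D0 * t ^ ((a + b) * D0) * mon D0 w1 w2 k.1 - (m k).eval₂ ψ t) := by
    rw [← Finset.sum_add_distrib, Fintype.sum_prod_type, cmb, evalEval_finsetSum, Finset.mul_sum]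
    refine Finset.sum_congr rfl fun k _ => ?_
    rw [evalEval_mul, evalEval_CC, dst3b_ev, Finset.mul_sum, Finset.mul_sum]
    refine Finset.sum_congr rfl fun l _ => ?_
    rw [vΞ]
    ring
  have hm2 : ‖∑ k, (ξ k : ℂ) * ev2 ψ s w (Ξ k) *
        ((n : ℂ) ^ D0 * n ^ D0 * t ^ ((a + b) * D0) * mon D0 w1 w2 k.1 - (m k).eval₂ ψ t)‖ ≤
      K * (c1 * K * G * G * (E * ‖t‖ ^ N0)) := by
    refine (norm_sum_le _ _).trans ((Finset.sum_le_card_nsmul _ _ _ fun k _ => ?_).trans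
      (le_of_eq (by rw [nsmul_eq_mul, Finset.card_univ, ← hKe])))
    rw [norm_mul, norm_mul, Complex.norm_intCast]
    exact mul_le_mul (mul_le_mul (hξ k) (bv k) (norm_nonneg _) (by positivity)) (vm k)
      (norm_nonneg _) (by positivity)
  have hk := congrArg norm key
  simp only [norm_mul, norm_pow, Complex.norm_natCast] at hk
  have hS := (norm_add_le _ _).trans (add_le_add hm1 hm2)
  rw [← hk] at hS
  have hV := norm_nonneg ((cmb zc (fun k => dst3b_P fun l => ξ (k, l)) (mon D0 w1 w2)).evalEval z1 z2)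
  generalize ‖(cmb zc (fun k => dst3b_P fun l => ξ (k, l)) (mon D0 w1 w2)).evalEval z1 z2‖ = V
    at hS hV ⊢
  have p1 : 0 ≤ ‖t‖ ^ N0 := by positivity
  have p2 : 0 ≤ ‖s‖ ^ N := by positivity
  have p3 : 0 ≤ ‖w‖ ^ N1 := by positivity
  have u1 : (1 : ℝ) ≤ n ^ D * n ^ D :=
    one_le_mul_of_one_le_of_one_le (one_le_pow₀ n3) (one_le_pow₀ n3)
  have u2 : (1 : ℝ) ≤ n ^ D0 * n ^ D0 :=
    one_le_mul_of_one_le_of_one_le (one_le_pow₀ n3) (one_le_pow₀ n3)
  have j1 : ‖s‖ ^ ((a + b) * D) * ‖t‖ ^ ((a + b) * D0) * V ≤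
      (n : ℝ) ^ D * n ^ D * ‖s‖ ^ ((a + b) * D) * (n ^ D0 * n ^ D0 * ‖t‖ ^ ((a + b) * D0)) * V :=
    mul_le_mul_of_nonneg_right (mul_le_mul (le_mul_of_one_le_left (by positivity) u1)
      (le_mul_of_one_le_left (by positivity) u2) (by positivity) (by positivity)) hV
  have j2 : K * (c1 * K * G * G * (E * ‖t‖ ^ N0)) ≤
      c1 * K ^ 2 * G ^ 2 * E * (‖t‖ ^ N0 + ‖s‖ ^ N + ‖w‖ ^ N1) := by
    rw [show K * (c1 * K * G * G * (E * ‖t‖ ^ N0)) = c1 * K ^ 2 * G ^ 2 * E * ‖t‖ ^ N0 by ring]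
    exact mul_le_mul_of_nonneg_left (by linarith) (by linarith)
  have j3 := mul_le_mul_of_nonneg_right hY1 (add_nonneg (add_nonneg p1 p2) p3)
  have j4 := mul_le_mul_of_nonneg_right hX (add_nonneg (add_nonneg p1 p2) p3)
  linarith

end Pool.Agent.P.MP_68214b_ag.DS
end

-- part Pool.Agent.P.MP_68214b_ag.DST4
section

open Polynomial Filter Asymptotics NumberField Topology

namespace Pool.Agent.P.MP_68214b_ag.DS

theorem dst4_bd (p : ℂ[X]) : ∃ B : ℝ, 0 ≤ B ∧ ∀ x : ℂ, ‖x‖ ≤ 2 → ‖p.eval x‖ ≤ B := by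
  obtain ⟨B, hB⟩ := (isCompact_closedBall (0 : ℂ) 2).exists_bound_of_continuousOn
    (f := fun x => p.eval x) p.continuous.continuousOn
  exact ⟨B, (norm_nonneg _).trans (hB 0 (by simp)), fun x hx => hB x (by simpa using hx)⟩

theorem dst4_lip (p : ℂ[X]) : ∃ L : ℝ, 0 ≤ L ∧ ∀ x y : ℂ, ‖x‖ ≤ 2 → ‖y‖ ≤ 2 →
    ‖p.eval y - p.eval x‖ ≤ L * ‖y - x‖ := by
  obtain ⟨B, hB0, hB⟩ := dst4_bd (derivative p)
  refine ⟨B, hB0, fun x y hx hy => ?_⟩
  exact (convex_closedBall (0 : ℂ) 2).norm_image_sub_le_of_norm_hasDerivWithin_le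
    (f := fun x => p.eval x) (f' := fun x => (derivative p).eval x)
    (fun z _ => (p.hasDerivAt z).hasDerivWithinAt) (fun z hz => hB z (by simpa using hz))
    (by simpa using hx) (by simpa using hy)

theorem reparam (π1 π2 : ℂ[X]) (h1 : 1 ≤ ‖π1.coeff 0‖) (a : ℕ) {b T : ℕ} (hb : 0 < b) (hT : 1 ≤ T)
    (C0 : ℝ) : ∃ τ0 : ℝ, 0 < τ0 ∧ τ0 ≤ 1 / 2 ∧ ∀ τ z1 z2 : ℂ, τ ≠ 0 → ‖τ‖ ≤ τ0 →
      Apx a b T π1 π2 C0 τ z1 z2 → ∃ s : ℂ, z1 * s ^ b = π1.eval s ∧
        ‖z2 * s ^ a - π2.eval s‖ ≤ ‖τ‖ ^ (T - 1) ∧ ‖τ‖ ≤ 2 * ‖s‖ ∧ ‖s‖ ≤ 2 * ‖τ‖ := by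
  obtain ⟨L1, hL1, lip1⟩ := dst4_lip π1
  obtain ⟨B1, hB1, bd1⟩ := dst4_bd (derivative π1)
  obtain ⟨La, hLa, lipa⟩ := dst4_lip (X ^ a)
  obtain ⟨B2, hB2, bd2⟩ := dst4_bd π2
  obtain ⟨L2, hL2, lip2⟩ := dst4_lip π2
  obtain ⟨c, hc, hc0⟩ : ∃ c : ℝ, 0 ≤ c ∧ C0 ≤ c := ⟨|C0|, abs_nonneg _, le_abs_self _⟩
  obtain ⟨N, hN, hN0⟩ : ∃ N : ℝ, N = 2 * ((b + π1.natDegree : ℕ) : ℝ) * c ∧ 0 ≤ N :=
    ⟨_, rfl, by positivity⟩
  obtain ⟨k, hk, hk0⟩ : ∃ k : ℝ, k = (B2 + c) * (La * N) + c + L2 * N ∧ 0 ≤ k :=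
    ⟨_, rfl, by positivity⟩
  obtain ⟨M, hM, hM1⟩ : ∃ M : ℝ, M = (L1 + c + B1) + N + k + 1 ∧ 1 ≤ M :=
    ⟨_, rfl, by linarith⟩
  refine ⟨1 / (2 * M), by positivity, ?_, fun τ z1 z2 hτ hle hA => ?_⟩
  · exact one_div_le_one_div_of_le (by norm_num) (by linarith)
  obtain ⟨A1, A2⟩ := hA
  have r0 : 0 < ‖τ‖ := norm_pos_iff.2 hτ
  have hMr : M * ‖τ‖ ≤ 1 / 2 := by
    rw [le_div_iff₀ (by positivity)] at hle
    linarith
  have r1 : ‖τ‖ ≤ 1 / 2 := (le_mul_of_one_le_left r0.le hM1).trans hMr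
  have p0 : 0 < ‖τ‖ ^ T := pow_pos r0 T
  have pT : ‖τ‖ ^ T = ‖τ‖ ^ (T - 1) * ‖τ‖ := by rw [← pow_succ, Nat.sub_add_cancel hT]
  have q0 : 0 < ‖τ‖ ^ (T - 1) := pow_pos r0 _
  have q1 : ‖τ‖ ^ (T - 1) ≤ 1 := pow_le_one₀ r0.le (by linarith)
  have pr : ‖τ‖ ^ T ≤ ‖τ‖ := by rw [pT]; exact mul_le_of_le_one_left r0.le q1
  have A1' : ‖z1 * τ ^ b - π1.eval τ‖ ≤ c * ‖τ‖ ^ T :=
    A1.trans (mul_le_mul_of_nonneg_right hc0 p0.le)
  have A2' : ‖z2 * τ ^ a - π2.eval τ‖ ≤ c * ‖τ‖ ^ T :=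
    A2.trans (mul_le_mul_of_nonneg_right hc0 p0.le)
  have cr : c * ‖τ‖ ^ T ≤ c * ‖τ‖ := mul_le_mul_of_nonneg_left pr hc
  set h : ℂ[X] := C z1 * X ^ b - π1 with hh
  have hev : ∀ x, h.eval x = z1 * x ^ b - π1.eval x := fun x => by simp [hh]
  have hder : τ * (derivative h).eval τ = b * (z1 * τ ^ b) - τ * (derivative π1).eval τ := by
    obtain ⟨b', rfl⟩ : ∃ b', b = b' + 1 := ⟨b - 1, by omega⟩
    simp only [hh, derivative_sub, derivative_C_mul, derivative_X_pow, eval_sub, eval_mul, eval_C,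
      eval_pow, eval_X, Nat.add_sub_cancel]
    ring
  have e1 : ‖π1.eval τ - π1.coeff 0‖ ≤ L1 * ‖τ‖ := by
    have := lip1 0 τ (by simp) (by linarith)
    rwa [← coeff_zero_eq_eval_zero, sub_zero] at this
  have e2 : 1 - L1 * ‖τ‖ - c * ‖τ‖ ≤ ‖z1 * τ ^ b‖ := by
    have h3 : π1.coeff 0 =
        z1 * τ ^ b - (z1 * τ ^ b - π1.eval τ) - (π1.eval τ - π1.coeff 0) := by ring
    have h4 := norm_sub_le (z1 * τ ^ b - (z1 * τ ^ b - π1.eval τ)) (π1.eval τ - π1.coeff 0)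
    have h5 := norm_sub_le (z1 * τ ^ b) (z1 * τ ^ b - π1.eval τ)
    rw [← h3] at h4
    linarith
  have e3 : 1 / 2 ≤ ‖τ‖ * ‖(derivative h).eval τ‖ := by
    rw [← norm_mul, hder]
    have h3 := norm_sub_norm_le ((b : ℂ) * (z1 * τ ^ b)) (τ * (derivative π1).eval τ)
    rw [norm_mul (b : ℂ), norm_mul τ, Complex.norm_natCast] at h3
    have h4 : (1 : ℝ) ≤ b := by exact_mod_cast hb
    have h5 : ‖τ‖ * ‖(derivative π1).eval τ‖ ≤ ‖τ‖ * B1 :=
      mul_le_mul_of_nonneg_left (bd1 τ (by linarith)) r0.le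
    have h6 : ‖z1 * τ ^ b‖ ≤ b * ‖z1 * τ ^ b‖ := le_mul_of_one_le_left (norm_nonneg _) h4
    have h7 : (L1 + c + B1) * ‖τ‖ ≤ M * ‖τ‖ := mul_le_mul_of_nonneg_right (by linarith) r0.le
    linarith
  have hne : (derivative h).eval τ ≠ 0 := by
    intro h0
    rw [h0, norm_zero, mul_zero] at e3
    linarith
  obtain ⟨s, hs0, hs⟩ := rn h τ hne
  have hdeg : h.natDegree ≤ b + π1.natDegree := by
    refine (natDegree_sub_le _ _).trans (max_le ?_ (Nat.le_add_left _ _))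
    exact (natDegree_C_mul_X_pow_le _ _).trans (Nat.le_add_right _ _)
  have hdeg' : (h.natDegree : ℝ) ≤ ((b + π1.natDegree : ℕ) : ℝ) := by exact_mod_cast hdeg
  have e4 : ‖s - τ‖ ≤ N * ‖τ‖ ^ T * ‖τ‖ := by
    have h3 : (h.natDegree : ℝ) * ‖h.eval τ‖ ≤ ((b + π1.natDegree : ℕ) : ℝ) * (c * ‖τ‖ ^ T) := by
      rw [hev]; gcongr
    have h4 : ‖s - τ‖ * (1 / 2) ≤ ‖s - τ‖ * (‖τ‖ * ‖(derivative h).eval τ‖) :=
      mul_le_mul_of_nonneg_left e3 (norm_nonneg _)
    have h5 := mul_le_mul_of_nonneg_right (hs.trans h3) r0.le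
    rw [hN]
    linarith
  have e5 : N * ‖τ‖ ^ T ≤ 1 / 2 := by
    have h3 : N * ‖τ‖ ^ T ≤ N * ‖τ‖ := mul_le_mul_of_nonneg_left pr hN0
    have h7 : N * ‖τ‖ ≤ M * ‖τ‖ := mul_le_mul_of_nonneg_right (by linarith) r0.le
    linarith
  have e6 : ‖s - τ‖ ≤ ‖τ‖ / 2 := by
    have := mul_le_mul_of_nonneg_right e5 r0.le
    linarith only [this, e4]
  have e7 : ‖s‖ ≤ 2 * ‖τ‖ := by
    have := norm_sub_norm_le s τ
    linarith
  have e8 : ‖τ‖ ≤ 2 * ‖s‖ := by
    have := norm_sub_norm_le τ s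
    rw [norm_sub_rev] at this
    linarith
  refine ⟨s, sub_eq_zero.1 (by rw [← hev, hs0]), ?_, e8, e7⟩
  have f1 : ‖s / τ - 1‖ ≤ N * ‖τ‖ ^ T := by
    rw [div_sub_one hτ, norm_div, div_le_iff₀ r0]
    exact e4
  have f2 : ‖(s / τ) ^ a - 1‖ ≤ La * (N * ‖τ‖ ^ T) := by
    have h3 := lipa 1 (s / τ) (by simp) (by rw [norm_div, div_le_iff₀ r0]; exact e7)
    simp only [eval_pow, eval_X, one_pow] at h3
    exact h3.trans (mul_le_mul_of_nonneg_left f1 hLa)
  have f3 : ‖z2 * τ ^ a‖ ≤ B2 + c := by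
    have h3 := norm_sub_norm_le (z2 * τ ^ a) (π2.eval τ)
    have h4 := bd2 τ (by linarith only [r1])
    have h5 : c * ‖τ‖ ≤ c := mul_le_of_le_one_right hc (by linarith only [r1])
    linarith only [h3, h4, h5, cr, A2']
  have f4 : ‖π2.eval s - π2.eval τ‖ ≤ L2 * (N * ‖τ‖ ^ T) := by
    refine (lip2 τ s (by linarith only [r1]) (by linarith only [r1, e7])).trans
      (mul_le_mul_of_nonneg_left ?_ hL2)
    exact e4.trans (mul_le_of_le_one_right (by positivity) (by linarith only [r1]))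
  have f5 : z2 * s ^ a - π2.eval s = z2 * τ ^ a * ((s / τ) ^ a - 1) + (z2 * τ ^ a - π2.eval τ) -
      (π2.eval s - π2.eval τ) := by
    rw [div_pow]
    field_simp
    ring
  have f6 : ‖z2 * τ ^ a * ((s / τ) ^ a - 1)‖ ≤ (B2 + c) * (La * (N * ‖τ‖ ^ T)) := by
    rw [norm_mul]; gcongr
  have f7 := norm_sub_le (z2 * τ ^ a * ((s / τ) ^ a - 1) + (z2 * τ ^ a - π2.eval τ))
    (π2.eval s - π2.eval τ)
  have f8 := norm_add_le (z2 * τ ^ a * ((s / τ) ^ a - 1)) (z2 * τ ^ a - π2.eval τ)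
  have f9 : k * ‖τ‖ ^ T ≤ ‖τ‖ ^ (T - 1) := by
    have h7 : k * ‖τ‖ ≤ M * ‖τ‖ := mul_le_mul_of_nonneg_right (by linarith) r0.le
    have h8 : k * ‖τ‖ ≤ 1 := by linarith only [h7, hMr]
    rw [pT, mul_left_comm]
    exact mul_le_of_le_one_right q0.le h8
  rw [f5]
  rw [hk] at f9
  linarith only [f4, f6, f7, f8, f9, A2']

end Pool.Agent.P.MP_68214b_ag.DS
end

-- part Pool.Agent.P.MP_68214b_ag.DST5
section

open Polynomial Filter Asymptotics NumberField Topology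

namespace Pool.Agent.P.MP_68214b_ag.DS

theorem dst5_apx {a b T : ℕ} {π1 π2 : ℂ[X]} {C0 : ℝ} {τ y1 y2 s t : ℂ} (hτ : ‖τ‖ ≤ 1)
    (h : Apx a b T π1 π2 C0 τ y1 y2) (hs : ‖s‖ = ‖τ‖ ^ T) (ht : ‖t‖ = ‖τ‖ ^ T) :
    Apx a b T π1 π2 (C0 + 1) τ (y1 + s) (y2 + t) := by
  have K : ∀ (y s v : ℂ) (k : ℕ), ‖y * τ ^ k - v‖ ≤ C0 * ‖τ‖ ^ T → ‖s‖ = ‖τ‖ ^ T →
      ‖(y + s) * τ ^ k - v‖ ≤ (C0 + 1) * ‖τ‖ ^ T := by
    intro y s v k h1 h2
    have e : (y + s) * τ ^ k - v = (y * τ ^ k - v) + s * τ ^ k := by ring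
    have h3 : ‖s * τ ^ k‖ ≤ ‖τ‖ ^ T := by
      rw [norm_mul, norm_pow, h2]
      exact mul_le_of_le_one_right (by positivity) (pow_le_one₀ (norm_nonneg _) hτ)
    rw [e]
    refine (norm_add_le _ _).trans ?_
    linarith
  exact ⟨K _ _ _ _ h.1 hs, K _ _ _ _ h.2 ht⟩

theorem dst5_num {x σ θ w q c : ℝ} {M Th D D0 T : ℕ} (hx : 0 < x) (hx1 : x ≤ 1) (hD : 1 ≤ D)
    (hT : 2 ≤ T) (hσ0 : 0 ≤ σ) (hw0 : 0 ≤ w) (hq : 0 ≤ q) (hc : 0 ≤ c)
    (hθ : θ ^ D0 = x ^ D) (hw : w ≤ x ^ (T - 1)) (h1 : x ≤ 2 * σ) (h2 : σ ≤ 2 * x)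
    (h : σ ^ (M * D) * θ ^ (M * D0) * q ≤ c ^ D * (θ ^ ((Th + 2 * M) * D0) +
      σ ^ ((Th + 2 * M) * D) + w ^ ((Th + 2 * M) * D / (T - 1) + 1))) :
    q ≤ (c * (2 ^ M * 2 ^ (Th + 2 * M) * 3)) ^ D * x ^ (Th * D) := by
  set N := (Th + 2 * M) * D with hN
  have e1 : θ ^ (M * D0) = x ^ (M * D) := by
    rw [mul_comm M D0, pow_mul, hθ, ← pow_mul, mul_comm]
  have e2 : θ ^ ((Th + 2 * M) * D0) = x ^ N := by
    rw [mul_comm _ D0, pow_mul, hθ, ← pow_mul, mul_comm]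
  have e3 : σ ^ N ≤ 2 ^ N * x ^ N := by
    rw [← mul_pow]; exact pow_le_pow_left₀ hσ0 h2 _
  have e4 : w ^ (N / (T - 1) + 1) ≤ x ^ N := by
    refine (pow_le_pow_left₀ hw0 hw _).trans ?_
    rw [← pow_mul]
    exact pow_le_pow_of_le_one hx.le hx1 (Nat.lt_mul_div_succ N (by omega)).le
  have e5 : x ^ (M * D) ≤ 2 ^ (M * D) * σ ^ (M * D) := by
    rw [← mul_pow]; exact pow_le_pow_left₀ hx.le h1 _
  have e6 : (1 : ℝ) ≤ 2 ^ N := one_le_pow₀ (by norm_num)
  have e7 : (3 : ℝ) ≤ 3 ^ D := le_self_pow₀ (by norm_num) (by omega)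
  have hxN : 0 < x ^ N := pow_pos hx _
  have e8 : x ^ N + σ ^ N + w ^ (N / (T - 1) + 1) ≤ 3 ^ D * 2 ^ N * x ^ N := by
    have : x ^ N ≤ 2 ^ N * x ^ N := le_mul_of_one_le_left hxN.le e6
    have h3 : 3 * (2 ^ N * x ^ N) ≤ 3 ^ D * (2 ^ N * x ^ N) :=
      mul_le_mul_of_nonneg_right e7 (by positivity)
    rw [mul_assoc]
    linarith
  rw [e1, e2] at h
  have e9 : x ^ N = x ^ (M * D) * x ^ (M * D) * x ^ (Th * D) := by
    rw [← pow_add, ← pow_add, hN]; congr 1; ring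
  have hp : 0 < x ^ (M * D) * x ^ (M * D) := by positivity
  refine le_of_mul_le_mul_left ?_ hp
  have e10 : (c * (2 ^ M * 2 ^ (Th + 2 * M) * 3)) ^ D =
      2 ^ (M * D) * (c ^ D * (3 ^ D * 2 ^ N)) := by
    rw [mul_pow, mul_pow, mul_pow, ← pow_mul, ← pow_mul, hN]; ring
  calc x ^ (M * D) * x ^ (M * D) * q
      ≤ 2 ^ (M * D) * σ ^ (M * D) * x ^ (M * D) * q := by gcongr
    _ = 2 ^ (M * D) * (σ ^ (M * D) * x ^ (M * D) * q) := by ring
    _ ≤ 2 ^ (M * D) * (c ^ D * (3 ^ D * 2 ^ N * x ^ N)) := by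
        refine mul_le_mul_of_nonneg_left (h.trans ?_) (by positivity)
        exact mul_le_mul_of_nonneg_left e8 (by positivity)
    _ = x ^ (M * D) * x ^ (M * D) *
          ((c * (2 ^ M * 2 ^ (Th + 2 * M) * 3)) ^ D * x ^ (Th * D)) := by
        rw [e10, e9]; ring

theorem ta {F : Type} [Field F] [NumberField F] (φ : F →+* ℂ) (π1 π2 : F[X])
    (h1 : 1 ≤ ‖φ (π1.coeff 0)‖)
    (a : ℕ) {b T Th D0 : ℕ} (hb : 0 < b) (hD0 : 0 < D0) (hT : (Th + 2 * (a + b)) * D0 + 2 ≤ T)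
    (C0 : ℝ) : ∃ c τ0 : ℝ, 1 ≤ c ∧ 0 < τ0 ∧ ∀ D D2 : ℕ, D0 ≤ D → D2 ≤ D →
      Cnt (Module.finrank ℚ F) (Th + 2 * (a + b)) T D0 D D2 →
      ∃ P : Fin (D0 + 1) × Fin (D0 + 1) → ℤ[X][X], P ≠ 0 ∧
        (∀ k, Bd (P k) D D2 ∧ nZ.l2.f (P k) ≤ c ^ D) ∧
        ∀ τ y1 y2 t w1 w2 : ℂ, τ ≠ 0 → ‖τ‖ ≤ τ0 → ‖t‖ ^ D0 = ‖τ‖ ^ D →
          Apx a b T (π1.map φ) (π2.map φ) C0 τ y1 y2 → Apx a b T (π1.map φ) (π2.map φ) C0 t w1 w2 →
          ∀ i j, i + j ≤ D / T →
            ‖tc y1 y2 (cmb zc P (mon D0 w1 w2)) i j‖ * ‖τ‖ ^ D ≤ c ^ D * ‖τ‖ ^ (Th * D) := by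
  obtain ⟨c, hc, H⟩ := ta2 φ π1 π2 a b T D0 ((Th + 2 * (a + b)) * D0) hD0 (by omega) C0
  obtain ⟨τ0, hτ0, hτ1, R⟩ := reparam (π1.map φ) (π2.map φ) (by rwa [coeff_map]) a hb
    (T := T) (by omega) (C0 + 1)
  have hk : (1 : ℝ) ≤ 2 ^ (a + b) * 2 ^ (Th + 2 * (a + b)) * 3 :=
    one_le_mul_of_one_le_of_one_le
      (one_le_mul_of_one_le_of_one_le (one_le_pow₀ (by norm_num)) (one_le_pow₀ (by norm_num)))
      (by norm_num)
  refine ⟨c * (2 ^ (a + b) * 2 ^ (Th + 2 * (a + b)) * 3), τ0,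
    one_le_mul_of_one_le_of_one_le hc hk, hτ0, fun D D2 hD hD2 hC => ?_⟩
  obtain ⟨P, hP, hB, hQ⟩ := H D D2 _ _ hD hD2 hC
  refine ⟨P, hP, fun k => ⟨(hB k).1, (hB k).2.trans ?_⟩, ?_⟩
  · exact pow_le_pow_left₀ (by linarith) (le_mul_of_one_le_right (by linarith) hk) _
  intro τ y1 y2 t w1 w2 hτ hττ ht A1 A2 i j hij
  have hx : 0 < ‖τ‖ := norm_pos_iff.2 hτ
  have hx1 : ‖τ‖ ≤ 1 := by linarith
  have ht1 : ‖t‖ ≤ 1 := by
    rw [← pow_le_one_iff_of_nonneg (norm_nonneg t) hD0.ne', ht]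
    exact pow_le_one₀ hx.le hx1
  have hE := cauchy2 (cmb zc P (mon D0 w1 w2)) y1 y2 (r := ‖τ‖ ^ T)
    (E := (c * (2 ^ (a + b) * 2 ^ (Th + 2 * (a + b)) * 3)) ^ D * ‖τ‖ ^ (Th * D)) (pow_pos hx T)
    (fun s s' hs hs' => by
      obtain ⟨u, u1, u2, u3, u4⟩ := R τ _ _ hτ hττ (dst5_apx hx1 A1 hs hs')
      refine dst5_num hx hx1 (by omega) (by omega) (norm_nonneg u) (norm_nonneg _) (norm_nonneg _)
        (by linarith) ht u2 u3 u4 ?_
      exact hQ u _ _ t w1 w2 (by linarith) ht1 u1 (u2.trans (pow_le_one₀ hx.le hx1)) A2) i j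
  refine le_trans (mul_le_mul_of_nonneg_left ?_ (norm_nonneg _)) hE
  rw [← pow_mul]
  exact pow_le_pow_of_le_one hx.le hx1
    ((Nat.mul_le_mul_left T hij).trans (Nat.mul_div_le D T))

end Pool.Agent.P.MP_68214b_ag.DS
end

-- part Pool.Agent.P.MP_68214b_ag.DST6
section

open Polynomial Filter Asymptotics NumberField Topology

namespace Pool.Agent.P.MP_68214b_ag.DS

theorem mem_mI {y1 y2 : ℂ} {W : ℂ[X][X]} : W ∈ mI y1 y2 ↔ W.evalEval y1 y2 = 0 :=
  mem_span_C_X_sub_C_X_sub_C_iff_eval_eval_eq_zero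

theorem van_dvd {y1 y2 : ℂ} {W : ℂ[X][X]} {μ : ℕ} (h : W ∈ mI y1 y2 ^ μ) (j : ℕ) :
    (X - C y1) ^ (μ - j) ∣ (taylor (C y2) W).coeff j := by
  induction μ generalizing W j with
  | zero => simp
  | succ μ ih =>
    replace h : W ∈ mI y1 y2 ^ μ * mI y1 y2 := (pow_succ (mI y1 y2) μ).le h
    refine Submodule.mul_induction_on
      (C := fun W => (X - C y1) ^ (μ + 1 - j) ∣ (taylor (C y2) W).coeff j) h ?_ ?_
    · intro a ha b hb
      obtain ⟨u, v, rfl⟩ := Ideal.mem_span_pair.1 hb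
      have e : a * (u * C (X - C y1) + v * (X - C (C y2))) =
          (a * u) * C (X - C y1) + (a * v) * (X - C (C y2)) := by ring
      have t : taylor (C y2) (X - C (C y2) : ℂ[X][X]) = X := by
        rw [map_sub, taylor_X, taylor_C, add_sub_cancel_right]
      rw [e, map_add, taylor_mul _ (a * u), taylor_mul _ (a * v), taylor_C, t, coeff_add,
        coeff_mul_C]
      refine dvd_add ?_ ?_
      · refine (pow_dvd_pow _ (by omega : μ + 1 - j ≤ μ - j + 1)).trans ?_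
        rw [pow_succ]
        exact mul_dvd_mul_right (ih (Ideal.mul_mem_right u _ ha) j) _
      · cases j with
        | zero => simp
        | succ j =>
          rw [coeff_mul_X, Nat.add_sub_add_right]
          exact ih (Ideal.mul_mem_right v _ ha) j
    · intro a b ha hb
      rw [map_add, coeff_add]
      exact dvd_add ha hb

theorem van_of_tc {y1 y2 : ℂ} {W : ℂ[X][X]} {μ : ℕ}
    (h : ∀ i j, i + j < μ → tc y1 y2 W i j = 0) : W ∈ mI y1 y2 ^ μ := by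
  have g1 : (C (X - C y1) : ℂ[X][X]) ∈ mI y1 y2 := Ideal.subset_span (by simp)
  have g2 : (X - C (C y2) : ℂ[X][X]) ∈ mI y1 y2 := Ideal.subset_span (by simp)
  rw [← sum_taylor_eq W (C y2), Polynomial.sum]
  refine Ideal.sum_mem _ fun j _ => ?_
  rw [← sum_taylor_eq ((taylor (C y2) W).coeff j) y1, Polynomial.sum, map_sum, Finset.sum_mul]
  refine Ideal.sum_mem _ fun i _ => ?_
  by_cases hij : i + j < μ
  · have := h i j hij
    unfold tc at this
    rw [this]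
    simp
  · rw [map_mul, map_pow, mul_assoc]
    refine Ideal.mul_mem_left _ _ (Ideal.pow_le_pow_right (by omega : μ ≤ i + j) ?_)
    exact (pow_add (mI y1 y2) i j).ge
      (Ideal.mul_mem_mul (Ideal.pow_mem_pow g1 i) (Ideal.pow_mem_pow g2 j))

theorem dst6_max (y1 y2 : ℂ) : (mI y1 y2).IsMaximal := by
  have e : mI y1 y2 = RingHom.ker (evalEvalRingHom y1 y2) := by
    ext W
    rw [mem_mI, RingHom.mem_ker, coe_evalEvalRingHom]
  rw [e]
  refine RingHom.ker_isMaximal_of_surjective _ fun c => ⟨C (C c), ?_⟩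
  rw [coe_evalEvalRingHom, evalEval_CC]

theorem van_cancel {y1 y2 : ℂ} {A V : ℂ[X][X]} {μ : ℕ} (h : A * V ∈ mI y1 y2 ^ μ)
    (hV : V.evalEval y1 y2 ≠ 0) : A ∈ mI y1 y2 ^ μ := by
  have := dst6_max y1 y2
  rw [mul_comm] at h
  exact (Ideal.IsMaximal.mul_mem_pow _ h).resolve_left fun h' => hV (mem_mI.1 h')

theorem IsDer.pow_mem {A : Type*} [CommRing A] {δ : A → A} (hδ : IsDer δ) (I : Ideal A) {μ : ℕ}
    {a : A} (h : a ∈ I ^ μ) : δ a ∈ I ^ (μ - 1) := by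
  induction μ generalizing a with
  | zero => simp
  | succ μ ih =>
    rw [pow_succ] at h
    rw [Nat.add_sub_cancel]
    refine Submodule.mul_induction_on (C := fun a => δ a ∈ I ^ μ) h ?_ ?_
    · intro a ha b hb
      rw [hδ.mul]
      refine Ideal.add_mem _ (Ideal.mul_mem_right _ _ ha) ?_
      refine Ideal.pow_le_pow_right (by omega : μ ≤ μ - 1 + 1) ?_
      rw [pow_succ]
      exact Ideal.mul_mem_mul (ih ha) hb
    · intro a b ha hb
      rw [hδ.add]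
      exact Ideal.add_mem _ ha hb

theorem IsDer.iter_mem {A : Type*} [CommRing A] {δ : A → A} (hδ : IsDer δ) (I : Ideal A) {μ : ℕ}
    {a : A} (h : a ∈ I ^ μ) (j : ℕ) : δ^[j] a ∈ I ^ (μ - j) := by
  induction j with
  | zero => simpa using h
  | succ j ih =>
    rw [Function.iterate_succ_apply', ← Nat.sub_sub]
    exact hδ.pow_mem I ih

theorem van_hasse {I : Ideal ℂ[X][X]} {W : ℂ[X][X]} {μ : ℕ} (h : W ∈ I ^ μ) (j : ℕ) :
    hasseDeriv j W ∈ I ^ (μ - j) := by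
  have hd : IsDer (derivative : ℂ[X][X] → ℂ[X][X]) :=
    ⟨fun a b => derivative_add, fun a b => by rw [derivative_mul]; ring⟩
  have h1 := hd.iter_mem I h j
  rw [← factorial_smul_hasseDeriv, LinearMap.smul_apply, nsmul_eq_mul] at h1
  have h0 : ((j.factorial : ℕ) : ℂ) ≠ 0 := by exact_mod_cast j.factorial_ne_zero
  have e : (C (C ((j.factorial : ℕ) : ℂ)⁻¹) : ℂ[X][X]) * (j.factorial : ℕ) = 1 := by
    rw [← map_natCast (C : ℂ[X] →+* ℂ[X][X]), ← map_natCast (C : ℂ →+* ℂ[X]), ← map_mul,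
      ← map_mul, inv_mul_cancel₀ h0, map_one, map_one]
  have h2 := Ideal.mul_mem_left _ (C (C ((j.factorial : ℕ) : ℂ)⁻¹) : ℂ[X][X]) h1
  rwa [← mul_assoc, e, one_mul] at h2

theorem dst6_sum (μ : ℕ) : μ * μ ≤ 2 * ∑ i ∈ Finset.range μ, (μ - i) := by
  induction μ with
  | zero => simp
  | succ μ ih =>
    rw [Finset.sum_range_succ']
    simp only [Nat.add_sub_add_right, Nat.sub_zero]
    nlinarith

theorem dst6_det {R : Type*} [CommRing R] {N : ℕ} (M : Matrix (Fin N) (Fin N) R) (c : Fin N → R)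
    (h : ∀ i j, c i ∣ M i j) : ∏ i, c i ∣ M.det := by
  rw [← Matrix.det_transpose, Matrix.det_apply']
  refine Finset.dvd_sum fun σ _ => Dvd.dvd.mul_left ?_ _
  exact Finset.prod_dvd_prod_of_dvd _ _ fun i _ => h i (σ i)

theorem resv {y1 y2 : ℂ} {A B : ℂ[X][X]} {μ n : ℕ} (hA : A ∈ mI y1 y2 ^ μ) (hB : B ∈ mI y1 y2 ^ μ)
    (hn : B.natDegree ≤ n) (hμ : μ ≤ A.natDegree + n) :
    ∃ E, μ * μ ≤ 2 * E ∧ (X - C y1) ^ E ∣ resultant A B A.natDegree n := by
  have e : resultant A B A.natDegree n =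
      resultant (taylor (C y2) A) (taylor (C y2) B) A.natDegree n := by
    obtain ⟨k, rfl⟩ := Nat.exists_eq_add_of_le hn
    have h1 := resultant_taylor A B (C y2)
    rw [natDegree_taylor, natDegree_taylor] at h1
    rw [resultant_add_right_deg _ _ _ _ k le_rfl,
      resultant_add_right_deg _ _ _ _ k (natDegree_taylor B (C y2)).le, h1,
      coeff_taylor_natDegree, leadingCoeff]
  refine ⟨∑ i : Fin (A.natDegree + n), (μ - i), ?_, ?_⟩
  · refine (dst6_sum μ).trans (Nat.mul_le_mul_left 2 ?_)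
    rw [Fin.sum_univ_eq_sum_range (fun i => μ - i)]
    exact Finset.sum_le_sum_of_subset (Finset.range_subset_range.2 hμ)
  · rw [e, ← Finset.prod_pow_eq_pow_sum]
    refine dst6_det _ _ fun i j => ?_
    unfold sylvester
    rw [Matrix.of_apply]
    refine Fin.addCases (fun j => ?_) (fun j => ?_) j
    · rw [Fin.addCases_left]
      split_ifs
      · exact (pow_dvd_pow _ (by omega)).trans (van_dvd hB _)
      · exact dvd_zero _
    · rw [Fin.addCases_right]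
      split_ifs
      · exact (pow_dvd_pow _ (by omega)).trans (van_dvd hA _)
      · exact dvd_zero _

end Pool.Agent.P.MP_68214b_ag.DS
end

-- part Pool.Agent.P.MP_68214b_ag.DST18b
section

open Polynomial Filter Asymptotics NumberField Topology

namespace Pool.Agent.P.MP_68214b_ag.DS

variable {K F : Type} [Field K] [NumberField K] [Field F] [NumberField F] [Algebra K F]

namespace TS
variable (S : TS K F)

theorem dst18b_pos {S : TS K F} {L Th D0 : ℕ} (hp : S.Par L Th D0) : 0 < D0 := by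
  have h1 : 0 < Module.finrank ℚ K := Module.finrank_pos
  have h2 := hp.Th1
  exact lt_of_lt_of_le (by positivity) hp.hD0

theorem endA {L Th D0 : ℕ} (hp : S.Par L Th D0) {c : ℝ} (hc : 1 ≤ c) :
    ∀ᶠ m in atTop, ∀ m' ≥ m, ∀ D, D = D0 * S.d ^ (m' - m) →
      ∀ P : Fin (D0 + 1) × Fin (D0 + 1) → ℤ[X][X], (∀ k, Bd (P k) D D ∧ nZ.l2.f (P k) ≤ c ^ D) →
      ∀ i j, ‖tc (S.σO (S.y1 m)) (S.σO (S.y2 m)) (S.Q P m') i j‖ * ‖S.τ ^ S.d ^ m‖ ^ D ≤
          c ^ D * ‖S.τ ^ S.d ^ m‖ ^ (Th * D) →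
        tc (S.σO (S.y1 m)) (S.σO (S.y2 m)) (S.Q P m') i j = 0 := by
  have hτ : 0 < ‖S.τ‖ := norm_pos_iff.2 S.τ0
  have hΛ := S.Λ1
  have h0 := dst18b_pos hp
  have hev := (tend_pp (lam := 1 / 2) (by norm_num) (by norm_num) S.hd).const_mul
    (c * (16 * c) ^ (3 * Module.finrank ℚ K))
  rw [mul_zero] at hev
  filter_upwards [hev.eventually (gt_mem_nhds zero_lt_one)] with m hm m' hm' D hD P hP i j h
  have e : tc (S.σO (S.y1 m)) (S.σO (S.y2 m)) (S.Q P m') i j = S.σO (tc (S.y1 m) (S.y2 m)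
      (cmb (Int.castRingHom (RN K S.M)) P (mon D0 (S.y1 m') (S.y2 m'))) i j) := by
    rw [tc_map, map2_cmb, RingHom.ext_int (S.σO.comp _) zc]
    simp only [Q, mon, map_mul, map_pow]
    rfl
  rw [e] at h ⊢
  have hDD : D0 ≤ D := hD ▸ Nat.le_mul_of_pos_right _ (pow_pos (by linarith [S.hd]) _)
  have hu : 1 ≤ S.Λ ^ S.d ^ m := one_le_pow₀ hΛ
  have hu' : 1 ≤ S.Λ ^ S.d ^ m' := one_le_pow₀ hΛ
  have e1 : (S.Λ ^ S.d ^ m') ^ D0 = (S.Λ ^ S.d ^ m) ^ D := by
    rw [← pow_mul, ← pow_mul, hD, mul_left_comm, ← pow_add, Nat.add_sub_cancel' hm', mul_comm]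
  have b1 : ∀ k, (nR K S.M).f (mon D0 (S.y1 m') (S.y2 m') k) ≤ ((S.Λ ^ S.d ^ m) ^ D) ^ 2 := by
    intro k
    have key : ∀ (y : RN K S.M) (l : Fin (D0 + 1)), (nR K S.M).f y ≤ S.Λ ^ S.d ^ m' →
        (nR K S.M).f (y ^ (l : ℕ)) ≤ (S.Λ ^ S.d ^ m) ^ D := fun y l hy =>
      ((nR K S.M).pow_le _ _).trans ((pow_le_pow_left₀ ((nR K S.M).nonneg _) hy _).trans
        (e1 ▸ pow_le_pow_right₀ hu' (Nat.le_of_lt_succ l.2)))
    rw [sq]
    exact ((nR K S.M).mul _ _).trans (mul_le_mul (key _ _ (S.hy1 m')) (key _ _ (S.hy2 m'))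
      ((nR K S.M).nonneg _) (by positivity))
  have b2 := nZ.l2_cmb (nR K S.M) (Int.castRingHom (RN K S.M)) (fun a => (nR K S.M).intCast_le a) P _
    (fun k => (hP k).2) b1
  have b3 := (nR K S.M).tc_le (bd_cmb (Int.castRingHom (RN K S.M)) (mon D0 (S.y1 m') (S.y2 m'))
    fun k => (hP k).1) hu (S.hy1 m) (S.hy2 m) i j
  generalize tc (S.y1 m) (S.y2 m)
    (cmb (Int.castRingHom (RN K S.M)) P (mon D0 (S.y1 m') (S.y2 m'))) i j = η at h b3 ⊢
  have b4 : (Fintype.card (Fin (D0 + 1) × Fin (D0 + 1)) : ℝ) ≤ 2 ^ D * 2 ^ D := by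
    have a1 : D0 + 1 ≤ 2 ^ D := Nat.lt_two_pow_self.trans_le (Nat.pow_le_pow_right two_pos hDD)
    rw [Fintype.card_prod, Fintype.card_fin]
    exact_mod_cast Nat.mul_le_mul a1 a1
  have b5 : (nR K S.M).f η ≤ (16 * c * (S.Λ ^ S.d ^ m) ^ 4) ^ D := by
    refine b3.trans ((mul_le_mul_of_nonneg_right (b2.trans (mul_le_mul_of_nonneg_right b4
      (by positivity))) (by positivity)).trans (le_of_eq ?_))
    rw [show (16 : ℝ) = 2 * 2 * 2 * 2 by norm_num]
    generalize S.Λ ^ S.d ^ m = u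
    simp only [mul_pow, pow_add]
    ring
  by_contra hη
  have b6 := S.lv.liou η fun h1 => hη (by rw [h1, map_zero])
  obtain ⟨T', rfl⟩ := Nat.exists_eq_add_of_le' hp.Th1
  have b7 := hp.hTh
  rw [Nat.add_sub_cancel] at b7
  rw [norm_pow, add_mul, one_mul, pow_add, ← mul_assoc] at h
  have b8 := le_of_mul_le_mul_right h (by positivity)
  have b9 : (S.Λ ^ (4 * (3 * Module.finrank ℚ K)) * ‖S.τ‖ ^ T') ^ S.d ^ m ≤ (1 / 2) ^ S.d ^ m :=
    pow_le_pow_left₀ (by positivity) b7 _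
  have b10 := b6.trans (mul_le_mul b8 (pow_le_pow_left₀ ((nR K S.M).nonneg _) b5 _)
    (pow_nonneg ((nR K S.M).nonneg _) _) (by positivity))
  have e2 : c ^ D * (‖S.τ‖ ^ S.d ^ m) ^ (T' * D) *
      ((16 * c * (S.Λ ^ S.d ^ m) ^ 4) ^ D) ^ (3 * Module.finrank ℚ K) =
      (c * (16 * c) ^ (3 * Module.finrank ℚ K) *
        (S.Λ ^ (4 * (3 * Module.finrank ℚ K)) * ‖S.τ‖ ^ T') ^ S.d ^ m) ^ D := by
    generalize S.d ^ m = q
    generalize 16 * c = c'
    simp only [mul_pow, ← pow_mul]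
    ring
  rw [e2] at b10
  exact absurd b10 (not_le.2 (pow_lt_one₀ (by positivity)
    ((mul_le_mul_of_nonneg_left b9 (by positivity)).trans_lt hm) (by omega)))

theorem Par.D0_pos {S : TS K F} {L Th D0 : ℕ} (hp : S.Par L Th D0) : 0 < D0 := dst18b_pos hp

theorem key {L Th D0 : ℕ} (hp : S.Par L Th D0) : ∃ c : ℝ, 1 ≤ c ∧ ∀ᶠ m in S.𝓕, ∀ᶠ m' in S.𝓕,
    ∀ D D2, D = D0 * S.d ^ (m' - m) → D2 ≤ D →
      Cnt (Module.finrank ℚ F) (Th + 2 * (S.a + S.b)) S.T D0 D D2 →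
      ∃ P : Fin (D0 + 1) × Fin (D0 + 1) → ℤ[X][X], P ≠ 0 ∧
        (∀ k, Bd (P k) D D2 ∧ nZ.l2.f (P k) ≤ c ^ D) ∧
        S.Q P m' ∈ mI (S.σO (S.y1 m)) (S.σO (S.y2 m)) ^ (D / S.T + 1) := by
  obtain ⟨c, τ0, hc, h0, H⟩ := ta S.φ S.π1 S.π2 (by
    rw [S.p1, map_pow, map_natCast, norm_pow, Complex.norm_natCast]
    exact one_le_pow₀ (Nat.one_le_cast.2 S.hN)) S.a S.hb hp.D0_pos hp.hT S.C0
  refine ⟨c, hc, ?_⟩
  have hτ := S.tau_lim.norm
  rw [norm_zero] at hτ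
  filter_upwards [(S.endA hp hc).filter_mono S.le, hτ.eventually (ge_mem_nhds h0), S.apx]
    with m h1 h2 h3
  filter_upwards [(eventually_ge_atTop m).filter_mono S.le, S.apx] with m' h4 h5 D D2 hD h6 h7
  have hDD : D0 ≤ D := hD ▸ Nat.le_mul_of_pos_right _ (pow_pos (by linarith [S.hd]) _)
  obtain ⟨P, hP, hb, hs⟩ := H D D2 hDD h6 h7
  exact ⟨P, hP, hb, van_of_tc fun i j hij => h1 m' h4 D hD P
    (fun k => ⟨(hb k).1.mono le_rfl h6, (hb k).2⟩) i j
    (hs _ _ _ _ _ _ (pow_ne_zero _ S.τ0) h2 (hD ▸ S.tau_pow D0 h4) h3 h5 i j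
      (Nat.le_of_lt_succ hij))⟩

end TS

end Pool.Agent.P.MP_68214b_ag.DS
end

-- part Pool.Agent.P.MP_68214b_ag.DST10
section

open Polynomial Filter Asymptotics NumberField Topology

namespace Pool.Agent.P.MP_68214b_ag.DS

theorem dst10_pow (p : ℂ[X]) (n : ℕ) : (p ^ n).mahlerMeasure = p.mahlerMeasure ^ n := by
  induction n with
  | zero => rw [pow_zero, pow_zero, mahlerMeasure_one]
  | succ n ih => rw [pow_succ, pow_succ, mahlerMeasure_mul, ih]

theorem dst10_coeff (p : ℂ[X]) {D : ℕ} (hD : p.natDegree ≤ D) (k : ℕ) :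
    ‖p.coeff k‖ ≤ 2 ^ D * p.mahlerMeasure := by
  refine (norm_coeff_le_choose_mul_mahlerMeasure k p).trans ?_
  refine mul_le_mul_of_nonneg_right ?_ p.mahlerMeasure_nonneg
  have h1 : p.natDegree.choose k ≤ 2 ^ D :=
    (Nat.choose_le_two_pow _ _).trans (Nat.pow_le_pow_right (by norm_num) hD)
  exact_mod_cast h1

theorem dst10_l1 (p : ℂ[X]) : p.mahlerMeasure ≤ nC.l1.f p := mahlerMeasure_le_sum_norm_coeff p

theorem dst10_ev (ξ : ℂ) (hξ : ‖ξ‖ = 1) (a : ℤ[X]) :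
    nC.f (eval₂RingHom zc ξ a) ≤ nZ.l1.f a := by
  have h := nZ.eval₂_le nC zc (fun b => by
    show ‖((b : ℤ) : ℂ)‖ ≤ |(b : ℝ)|
    rw [Complex.norm_intCast]) (x := ξ) (t := 1) le_rfl hξ.le (p := a) le_rfl
  rw [one_pow, mul_one] at h
  exact h

theorem gel {W A V : ℤ[X][X]} {n E : ℕ} (h : W = A ^ n * V) (hW : W ≠ 0) (hB : Bd W E E) (i j : ℕ) :
    |(((A.coeff j).coeff i : ℤ) : ℝ)| ^ n ≤ 4 ^ E * (E + 1) * nZ.l2.f W := by
  obtain ⟨hb1, hb2⟩ := bd_of_pow_mul h hW hB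
  have hV : V ≠ 0 := by
    rintro rfl
    exact hW (by rw [h, mul_zero])
  have hlc : V.coeff V.natDegree ≠ 0 := leadingCoeff_ne_zero.2 hV
  set a : ℂ[X] := (A.coeff j).map zc with ha
  set v : ℂ[X] := (V.coeff V.natDegree).map zc with hv
  have hcirc : ∀ ξ : ℂ, ‖ξ‖ = 1 → ‖(a ^ n * v).eval ξ‖ ≤ 2 ^ E * nZ.l2.f W := fun ξ hξ => by
    set φ : ℤ[X] →+* ℂ := eval₂RingHom zc ξ with hφ
    have e1 : a.eval ξ = (A.map φ).coeff j := by
      rw [coeff_map, ha, eval_map]; rfl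
    have e2 : v.eval ξ = (V.map φ).coeff V.natDegree := by
      rw [coeff_map, hv, eval_map]; rfl
    have h1 := dst10_coeff (A.map φ) (natDegree_map_le (f := φ) (p := A)) j
    have h2 := dst10_coeff (V.map φ) (natDegree_map_le (f := φ) (p := V)) V.natDegree
    have h3 : (W.map φ).mahlerMeasure =
        (A.map φ).mahlerMeasure ^ n * (V.map φ).mahlerMeasure := by
      rw [h, Polynomial.map_mul, Polynomial.map_pow, mahlerMeasure_mul, dst10_pow]
    have h4 : (W.map φ).mahlerMeasure ≤ nZ.l2.f W :=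
      (dst10_l1 _).trans (nZ.l1.l1_map nC φ (dst10_ev ξ hξ) W)
    have h5 : (2 : ℝ) ^ (n * A.natDegree + V.natDegree) ≤ 2 ^ E :=
      pow_le_pow_right₀ (by norm_num) hb2
    have mA := (A.map φ).mahlerMeasure_nonneg
    have mW := (W.map φ).mahlerMeasure_nonneg
    rw [eval_mul, eval_pow, norm_mul, norm_pow, e1, e2]
    calc ‖(A.map φ).coeff j‖ ^ n * ‖(V.map φ).coeff V.natDegree‖
        ≤ (2 ^ A.natDegree * (A.map φ).mahlerMeasure) ^ n *
          (2 ^ V.natDegree * (V.map φ).mahlerMeasure) := by gcongr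
      _ = 2 ^ (n * A.natDegree + V.natDegree) * (W.map φ).mahlerMeasure := by
          rw [h3, mul_pow, ← pow_mul, pow_add, mul_comm A.natDegree n]; ring
      _ ≤ 2 ^ E * nZ.l2.f W := by gcongr
  have hco : ∀ k, nC.f ((a ^ n * v).coeff k) ≤ 2 ^ E * nZ.l2.f W := fun k => by
    have := cauchy1 (a ^ n * v) one_pos hcirc k
    rw [one_pow, mul_one] at this
    exact this
  have hda : a.natDegree ≤ (A.coeff j).natDegree := natDegree_map_le
  have hdv : v.natDegree ≤ (V.coeff V.natDegree).natDegree := natDegree_map_le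
  have hb := hb1 j V.natDegree
  have hdeg : (a ^ n * v).natDegree ≤ E := by
    refine natDegree_mul_le.trans ?_
    have h1 : (a ^ n).natDegree ≤ n * (A.coeff j).natDegree :=
      natDegree_pow_le.trans (Nat.mul_le_mul_left _ hda)
    omega
  have hM : a.mahlerMeasure ^ n * v.mahlerMeasure ≤ (E + 1) * (2 ^ E * nZ.l2.f W) := by
    rw [← dst10_pow, ← mahlerMeasure_mul]
    exact (dst10_l1 _).trans (nC.l1_le _ hdeg hco)
  have hv1 : 1 ≤ v.mahlerMeasure := one_le_mahlerMeasure_of_ne_zero hlc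
  have ma := a.mahlerMeasure_nonneg
  have hM' : a.mahlerMeasure ^ n ≤ (E + 1) * (2 ^ E * nZ.l2.f W) :=
    (le_mul_of_one_le_right (pow_nonneg ma n) hv1).trans hM
  have h1 : |(((A.coeff j).coeff i : ℤ) : ℝ)| ≤ 2 ^ (A.coeff j).natDegree * a.mahlerMeasure := by
    have := dst10_coeff a hda i
    rw [ha, coeff_map, eq_intCast, Complex.norm_intCast] at this
    exact this
  have h5 : (2 : ℝ) ^ (n * (A.coeff j).natDegree) ≤ 2 ^ E :=
    pow_le_pow_right₀ (by norm_num) (by omega)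
  calc |(((A.coeff j).coeff i : ℤ) : ℝ)| ^ n
      ≤ (2 ^ (A.coeff j).natDegree * a.mahlerMeasure) ^ n := by gcongr
    _ = 2 ^ (n * (A.coeff j).natDegree) * a.mahlerMeasure ^ n := by
        rw [mul_pow, ← pow_mul, mul_comm (A.coeff j).natDegree n]
    _ ≤ 2 ^ E * ((E + 1) * (2 ^ E * nZ.l2.f W)) := by gcongr
    _ = 4 ^ E * (E + 1) * nZ.l2.f W := by
        rw [show (4 : ℝ) = 2 * 2 by norm_num, mul_pow]; ring

end Pool.Agent.P.MP_68214b_ag.DS
end

-- part Pool.Agent.P.MP_68214b_ag.DST12a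
section

open Polynomial Filter Asymptotics NumberField Topology

namespace Pool.Agent.P.MP_68214b_ag.DS

theorem box_fin (e : ℕ) (B : ℝ) :
    {G : ℤ[X][X] | Bd G e e ∧ ∀ i j, |(((G.coeff j).coeff i : ℤ) : ℝ)| ≤ B}.Finite := by
  refine Set.Finite.of_injOn (f := fun G (p : Fin (e + 1) × Fin (e + 1)) => (G.coeff p.1).coeff p.2)
    (t := {f | ∀ p, f p ∈ Set.Icc (-⌈B⌉) ⌈B⌉}) (fun G hG p => ?_) (fun G hG H hH h => ?_)
    (Set.Finite.pi' fun _ => Set.finite_Icc (-⌈B⌉) ⌈B⌉)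
  · have := (hG.2 p.2 p.1).trans (Int.le_ceil B)
    exact abs_le.1 (by exact_mod_cast this)
  · ext j i
    by_cases hj : j < e + 1
    · by_cases hi : i < e + 1
      · exact congrFun h (⟨j, hj⟩, ⟨i, hi⟩)
      · rw [coeff_eq_zero_of_natDegree_lt (by have := hG.1.1 j; omega),
          coeff_eq_zero_of_natDegree_lt (by have := hH.1.1 j; omega)]
    · rw [coeff_eq_zero_of_natDegree_lt (p := G) (by have := hG.1.2; omega),
        coeff_eq_zero_of_natDegree_lt (p := H) (by have := hH.1.2; omega)]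

theorem dst12a_two (E : ℕ) : (E : ℝ) + 1 ≤ 2 ^ E := by
  exact_mod_cast Nat.lt_two_pow_self

theorem dst12a_gel {c : ℝ} {c' D n : ℕ} {W A V : ℤ[X][X]} (h : W = A ^ n * V) (hW : W ≠ 0)
    (hB : Bd W (c' * D) (c' * D)) (hν : nZ.l2.f W ≤ c ^ D) (i j : ℕ) :
    |(((A.coeff j).coeff i : ℤ) : ℝ)| ^ n ≤ (8 ^ c' * c) ^ D := by
  refine (gel h hW hB i j).trans ((mul_le_mul (mul_le_mul_of_nonneg_left (dst12a_two _)
    (by positivity)) hν (nZ.l2.nonneg W) (by positivity)).trans (le_of_eq ?_))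
  rw [← mul_pow, mul_pow _ c, ← pow_mul]
  norm_num

theorem exc_box {c : ℝ} (hc : 1 ≤ c) {c' T D m : ℕ} {W G : ℤ[X][X]} (hW : W ≠ 0)
    (hB : Bd W (c' * D) (c' * D)) (hν : nZ.l2.f W ≤ c ^ D) (hD : D ≤ T * (m + 1))
    (h : G ^ (m + 1) ∣ W) : Bd G (c' * T) (c' * T) ∧
      ∀ i j, |(((G.coeff j).coeff i : ℤ) : ℝ)| ≤ (8 ^ c' * c) ^ T := by
  obtain ⟨V, hV⟩ := h
  obtain ⟨h1, h2⟩ := bd_of_pow_mul hV hW hB
  have key : ∀ a b : ℕ, (m + 1) * a + b ≤ c' * D → a ≤ c' * T := fun a b hab =>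
    Nat.le_of_mul_le_mul_left ((le_of_add_le_left hab).trans
      ((Nat.mul_le_mul_left c' hD).trans (le_of_eq (by ring)))) m.succ_pos
  have h8 : (1 : ℝ) ≤ 8 ^ c' * c := one_le_mul_of_one_le_of_one_le (one_le_pow₀ (by norm_num)) hc
  refine ⟨⟨fun j => key _ _ (h1 j 0), key _ _ h2⟩, fun i j => ?_⟩
  refine le_of_pow_le_pow_left₀ m.succ_ne_zero (by positivity) ?_
  rw [← pow_mul]
  exact (dst12a_gel hV hW hB hν i j).trans (pow_le_pow_right₀ h8 hD)

theorem fac_bound {c : ℝ} (hc : 1 ≤ c) {c' D : ℕ} {W A : ℤ[X][X]} (hW : W ≠ 0)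
    (hB : Bd W (c' * D) (c' * D)) (hν : nZ.l2.f W ≤ c ^ D) (h : A ∣ W) :
    Bd A (c' * D) (c' * D) ∧ nZ.l2.f A ≤ (32 ^ c' * c) ^ D := by
  obtain ⟨V, hV⟩ := h
  rw [← pow_one A] at hV
  obtain ⟨h1, h2⟩ := bd_of_pow_mul hV hW hB
  have hA : Bd A (c' * D) (c' * D) :=
    ⟨fun j => by have := h1 j 0; omega, by omega⟩
  refine ⟨hA, (nZ.l1.l1_le A hA.2 fun j => nZ.l1_le _ (hA.1 j) fun i =>
    (pow_one _).symm.le.trans (dst12a_gel hV hW hB hν i j)).trans ?_⟩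
  have h0 : 0 ≤ c := by linarith
  refine (mul_le_mul (dst12a_two _) (mul_le_mul_of_nonneg_right (dst12a_two _) (by positivity))
    (by positivity) (by positivity)).trans (le_of_eq ?_)
  rw [mul_pow, mul_pow, ← pow_mul, ← pow_mul, ← mul_assoc, ← mul_assoc, ← mul_pow, ← mul_pow]
  norm_num

theorem split_primes {W : ℤ[X][X]} (hW : W ≠ 0) (y1 y2 : ℂ) :
    ∃ (s : Multiset ℤ[X][X]) (V : ℤ[X][X]), W = s.prod * V ∧
      (∀ G ∈ s, Prime G ∧ ev2 zc y1 y2 G = 0) ∧ ev2 zc y1 y2 V ≠ 0 := by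
  induction W using UniqueFactorizationMonoid.induction_on_prime with
  | h₁ => exact absurd rfl hW
  | h₂ u hu => exact ⟨0, u, by simp, by simp, (hu.map _).ne_zero⟩
  | h₃ a p ha hp ih =>
    obtain ⟨s, V, e, h1, h2⟩ := ih ha
    by_cases h : ev2 zc y1 y2 p = 0
    · refine ⟨p ::ₘ s, V, by rw [e, Multiset.prod_cons, mul_assoc], fun G hG => ?_, h2⟩
      rcases Multiset.mem_cons.1 hG with rfl | hG
      exacts [⟨hp, h⟩, h1 G hG]
    · exact ⟨s, p * V, by rw [e]; ring, h1, by rw [map_mul]; exact mul_ne_zero h h2⟩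

theorem card_pos_deg {R : Type*} [CommRing R] [IsDomain R] (s : Multiset R[X]) (hs : s.prod ≠ 0) :
    ∃ L : List R[X], L.length ≤ s.prod.natDegree ∧ ∀ G, G ∈ L ↔ G ∈ s ∧ 0 < G.natDegree := by
  induction s using Multiset.induction_on with
  | empty => exact ⟨[], by simp, by simp⟩
  | cons a s ih =>
    rw [Multiset.prod_cons] at hs ⊢
    obtain ⟨L, h1, h2⟩ := ih (right_ne_zero_of_mul hs)
    rw [natDegree_mul (left_ne_zero_of_mul hs) (right_ne_zero_of_mul hs)]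
    by_cases h : 0 < a.natDegree
    · refine ⟨a :: L, by rw [List.length_cons]; omega, fun G => ?_⟩
      rw [List.mem_cons, Multiset.mem_cons, h2, or_and_right]
      exact or_congr_left ⟨fun e => ⟨e, e ▸ h⟩, fun e => e.1⟩
    · refine ⟨L, by omega, fun G => ?_⟩
      rw [Multiset.mem_cons, h2, or_and_right]
      exact ⟨Or.inr, fun e => e.resolve_left fun e => h (e.1 ▸ e.2)⟩

end Pool.Agent.P.MP_68214b_ag.DS
end

-- part Pool.Agent.P.MP_68214b_ag.DST11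
section

open Polynomial Filter Asymptotics NumberField Topology

namespace Pool.Agent.P.MP_68214b_ag.DS

theorem not_dvd_derivative {R : Type*} [CommRing R] [IsDomain R] [CharZero R] {G : R[X]}
    (hd : 0 < G.natDegree) : ¬ G ∣ derivative G := by
  intro h
  have h1 : derivative G ≠ 0 := fun k => hd.ne' (derivative_eq_zero.1 k)
  have h2 := natDegree_le_of_dvd h h1
  have h3 := natDegree_derivative_lt hd.ne'
  omega

theorem dst11_iter {R : Type*} [CommRing R] (G : R[X]) (t : ℕ) : ∀ V : R[X], ∃ U,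
    derivative^[t] (G ^ t * V) = (t.factorial : R[X]) * derivative G ^ t * V + G * U := by
  induction t with
  | zero => exact fun V => ⟨0, by simp⟩
  | succ t ih =>
    intro V
    obtain ⟨U, hU⟩ := ih (((t : R[X]) + 1) * derivative G * V + G * derivative V)
    refine ⟨U + (t.factorial : R[X]) * derivative G ^ t * derivative V, ?_⟩
    have h1 : derivative (G ^ (t + 1) * V) =
        G ^ t * (((t : R[X]) + 1) * derivative G * V + G * derivative V) := by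
      rw [derivative_mul, derivative_pow_succ, map_add, map_natCast, map_one]
      ring
    rw [Function.iterate_succ_apply, h1, hU, Nat.factorial_succ]
    push_cast
    ring

theorem has {R : Type*} [CommRing R] [IsDomain R] [CharZero R] {G V : R[X]} (hG : Prime G)
    (hd : 0 < G.natDegree) (hV : ¬ G ∣ V) (j : ℕ) : ¬ G ∣ hasseDeriv j (G ^ j * V) := by
  intro h
  obtain ⟨U, hU⟩ := dst11_iter G j V
  have h1 : G ∣ derivative^[j] (G ^ j * V) := by
    rw [← factorial_smul_hasseDeriv, LinearMap.smul_apply, nsmul_eq_mul]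
    exact h.mul_left _
  rw [hU] at h1
  rcases hG.dvd_or_dvd ((dvd_add_left (dvd_mul_right G U)).1 h1) with h2 | h2
  · rcases hG.dvd_or_dvd h2 with h3 | h3
    · have h4 := natDegree_le_of_dvd h3 (Nat.cast_ne_zero.2 j.factorial_ne_zero)
      rw [natDegree_natCast] at h4
      omega
    · exact not_dvd_derivative hd (hG.dvd_of_dvd_pow h3)
  · exact hV h2

theorem has' {R : Type*} [CommRing R] [IsDomain R] [CharZero R] {G W : R[X]} (hG : Prime G)
    (hd : 0 < G.natDegree) {m : ℕ} (h : ¬ G ^ (m + 1) ∣ W) :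
    ∃ j ≤ m, G ^ j ∣ W ∧ ¬ G ∣ hasseDeriv j W := by
  induction m with
  | zero =>
    refine ⟨0, le_rfl, by simp, ?_⟩
    simpa using h
  | succ m ih =>
    by_cases h1 : G ^ (m + 1) ∣ W
    · refine ⟨m + 1, le_rfl, h1, ?_⟩
      obtain ⟨V, rfl⟩ := h1
      refine has hG hd (fun k => h ?_) _
      rw [pow_succ G (m + 1)]
      exact mul_dvd_mul_left _ k
    · obtain ⟨j, h2, h3⟩ := ih h1
      exact ⟨j, by omega, h3⟩

theorem has_fam {R κ : Type*} [CommRing R] [IsDomain R] [CharZero R] {G : R[X]} (hG : Prime G)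
    (hd : 0 < G.natDegree) (P : κ → R[X]) (hP : P ≠ 0) {D : ℕ} (hD : ∀ k, (P k).natDegree ≤ D) :
    ∃ j, j * G.natDegree ≤ D ∧ ∃ k, ¬ G ∣ hasseDeriv j (P k) := by
  obtain ⟨k, hk⟩ := Function.ne_iff.1 hP
  have key : ∀ j, G ^ j ∣ P k → j * G.natDegree ≤ D := fun j h => by
    have h1 := natDegree_le_of_dvd h hk
    rw [natDegree_pow] at h1
    exact h1.trans (hD k)
  obtain ⟨j, -, h1, h2⟩ := has' hG hd (W := P k) (m := D) fun h => by
    have := key _ h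
    nlinarith
  exact ⟨j, key j h1, k, h2⟩

theorem dst11_nsmul {A : Type*} [CommRing A] (ν : Sn A) (b : A) (c : ℕ) :
    ν.f (c • b) ≤ c * ν.f b := by
  induction c with
  | zero => simp [ν.zero]
  | succ c ih =>
    rw [succ_nsmul]
    refine (ν.add _ _).trans ?_
    push_cast
    linarith

theorem greedy {A : Type*} [CommRing A] (ν : Sn A) (M : AddSubgroup A) (L : List A)
    (hp : ∀ G ∈ L, Prime G) (hc : ∀ G ∈ L, ∀ c : ℕ, 0 < c → ¬ G ∣ (c : A)) {H : ℝ} (hH : 0 ≤ H)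
    (h : ∀ G ∈ L, ∃ b ∈ M, ν.f b ≤ H ∧ ¬ G ∣ b) :
    ∃ B ∈ M, ν.f B ≤ (L.length : ℝ) ^ 2 * H ∧ ∀ G ∈ L, ¬ G ∣ B := by
  classical
  induction L with
  | nil => exact ⟨0, M.zero_mem, by simp [ν.zero], by simp⟩
  | cons G0 L ih =>
    obtain ⟨B, hB, h1, h2⟩ := ih (fun G hG => hp G (List.mem_cons_of_mem _ hG))
      (fun G hG => hc G (List.mem_cons_of_mem _ hG)) fun G hG => h G (List.mem_cons_of_mem _ hG)
    have ht : (0 : ℝ) ≤ L.length := Nat.cast_nonneg _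
    by_cases h0 : G0 ∣ B
    · obtain ⟨b, hb, h3, h4⟩ := h G0 List.mem_cons_self
      have key : ∃ c ∈ Finset.Icc 1 (L.length + 1), ∀ G ∈ L, ¬ G ∣ B + c • b := by
        by_contra hn
        push Not at hn
        choose! g hg1 hg2 using hn
        have two : ∀ c ∈ Finset.Icc 1 (L.length + 1), ∀ c' ∈ Finset.Icc 1 (L.length + 1),
            c < c' → g c ≠ g c' := by
          intro c k1 c' k2 k3 k4
          have hm := List.mem_cons_of_mem G0 (hg1 c k1)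
          have k5 : g c ∣ ((c' - c : ℕ) : A) * b := by
            have := dvd_sub (k4 ▸ hg2 c' k2 : g c ∣ B + c' • b) (hg2 c k1)
            rw [Nat.cast_sub k3.le]
            simp only [nsmul_eq_mul] at this
            rwa [show B + c' * b - (B + c * b) = ((c' : A) - c) * b by ring] at this
          rcases (hp _ hm).dvd_or_dvd k5 with k6 | k6
          · exact hc _ hm _ (by omega) k6
          · refine h2 _ (hg1 c k1) ((dvd_add_left ?_).1 (hg2 c k1))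
            rw [nsmul_eq_mul]
            exact k6.mul_left _
        obtain ⟨c, k1, c', k2, k3, k4⟩ := Finset.exists_ne_map_eq_of_card_lt_of_maps_to
          (s := Finset.Icc 1 (L.length + 1)) (t := L.toFinset) (f := g)
          (by
            have := List.toFinset_card_le L
            rw [Nat.card_Icc]
            omega)
          fun c k => by simpa using hg1 c (by simpa using k)
        rcases lt_or_gt_of_ne k3 with k5 | k5
        · exact two c k1 c' k2 k5 k4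
        · exact two c' k2 c k1 k5 k4.symm
      obtain ⟨c, k1, k2⟩ := key
      rw [Finset.mem_Icc] at k1
      refine ⟨B + c • b, M.add_mem hB (M.nsmul_mem hb c), ?_, fun G hG => ?_⟩
      · have k3 := dst11_nsmul ν b c
        have k4 : (c : ℝ) ≤ L.length + 1 := by exact_mod_cast k1.2
        have k5 := ν.add B (c • b)
        have k6 : (c : ℝ) * ν.f b ≤ (L.length + 1) * H :=
          mul_le_mul k4 h3 (ν.nonneg b) (by linarith)
        rw [List.length_cons]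
        push_cast
        nlinarith [mul_nonneg ht hH]
      · rcases List.mem_cons.1 hG with rfl | hG'
        · intro k3
          have k4 := (dvd_add_right h0).1 k3
          rw [nsmul_eq_mul] at k4
          exact ((hp G hG).dvd_or_dvd k4).elim (hc G hG c (by omega)) h4
        · exact k2 G hG'
    · refine ⟨B, hB, h1.trans ?_, fun G hG => ?_⟩
      · rw [List.length_cons]
        push_cast
        nlinarith [mul_nonneg ht hH]
      · rcases List.mem_cons.1 hG with rfl | hG'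
        · exact h0
        · exact h2 G hG'

end Pool.Agent.P.MP_68214b_ag.DS
end

-- part Pool.Agent.P.MP_68214b_ag.DST12
section

open Polynomial Filter Asymptotics NumberField Topology

namespace Pool.Agent.P.MP_68214b_ag.DS

/-- polynomials of bounded outer degree vanishing to order k -/
def dst12_M (y1 y2 : ℂ) (k n : ℕ) : AddSubgroup ℤ[X][X] where
  carrier := {B | map2 zc B ∈ mI y1 y2 ^ k ∧ B.natDegree ≤ n}
  zero_mem' := ⟨by rw [map_zero]; exact Ideal.zero_mem _, by simp⟩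
  add_mem' := fun {a b} ha hb => ⟨by rw [map_add]; exact Ideal.add_mem _ ha.1 hb.1,
    (natDegree_add_le a b).trans (max_le ha.2 hb.2)⟩
  neg_mem' := fun {a} ha => ⟨by rw [map_neg]; exact neg_mem ha.1, by rw [natDegree_neg]; exact ha.2⟩

theorem dst12_nc {G : ℤ[X][X]} (hd : 0 < G.natDegree) (c : ℕ) (hc : 0 < c) :
    ¬ G ∣ (c : ℤ[X][X]) := fun h => by
  have h0 : (c : ℤ[X][X]) ≠ 0 := Nat.cast_ne_zero.2 hc.ne'
  have := natDegree_le_of_dvd h h0
  rw [natDegree_natCast] at this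
  omega

theorem dst12_root {R : ℤ[X]} (hR : R ≠ 0) {y : ℂ} {E : ℕ} (h : (X - C y) ^ E ∣ R.map zc) :
    ‖y‖ ^ E ≤ nZ.l1.f R := by
  have h1 := lemU h
  have h2 : nC.l1.f (R.map zc) ≤ nZ.l1.f R :=
    nZ.l1_map nC zc (fun a => by simp [nC, nZ]) R
  have h3 : (1 : ℝ) ≤ ‖(R.map zc).leadingCoeff‖ := by
    rw [leadingCoeff_map_of_injective (RingHom.injective_int zc)]
    have : R.leadingCoeff ≠ 0 := leadingCoeff_ne_zero.2 hR
    simp only [eq_intCast, Complex.norm_intCast]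
    exact_mod_cast Int.one_le_abs this
  have h4 : 0 ≤ ‖y‖ ^ E := by positivity
  nlinarith

theorem dst12_res {y1 y2 : ℂ} (s : Multiset ℤ[X][X]) (hs : ∀ G ∈ s, Prime G) {B : ℤ[X][X]}
    (h : ∀ G ∈ s, 0 < G.natDegree → ¬ G ∣ B) {k n : ℕ} (hA : map2 zc s.prod ∈ mI y1 y2 ^ k)
    (hB : B ∈ dst12_M y1 y2 k n) (hk : k ≤ n) (hn : s.prod.natDegree ≤ n) {a b : ℝ} (hb : 1 ≤ b)
    (ha : nZ.l2.f s.prod ≤ a) (hbB : nZ.l2.f B ≤ b) :
    ∃ E, k * k ≤ 2 * E ∧ ‖y1‖ ^ E ≤ (a * b) ^ n := by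
  have hR := res1 s hs h hB.2
  have hinj : Function.Injective (mapRingHom zc) := map_injective zc (RingHom.injective_int zc)
  have hd : (map2 zc s.prod).natDegree = s.prod.natDegree :=
    natDegree_map_eq_of_injective hinj _
  have hdB : (map2 zc B).natDegree ≤ n := natDegree_map_le.trans hB.2
  obtain ⟨E, hE, hdv⟩ := resv hA hB.1 hdB (hk.trans (Nat.le_add_left _ _))
  refine ⟨E, hE, ?_⟩
  rw [hd] at hdv
  have e : resultant (map2 zc s.prod) (map2 zc B) s.prod.natDegree n =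
      (resultant s.prod B s.prod.natDegree n).map zc :=
    resultant_map_map s.prod B s.prod.natDegree n (mapRingHom zc)
  rw [e] at hdv
  refine (dst12_root hR hdv).trans ((nZ.l1.res_le _ _ _ _).trans ?_)
  rw [mul_pow]
  have h1 : 0 ≤ nZ.l2.f s.prod := Sn.nonneg _ _
  have h2 : 0 ≤ nZ.l2.f B := Sn.nonneg _ _
  refine mul_le_mul (pow_le_pow_left₀ h1 ha _) ?_ (pow_nonneg h2 _) (pow_nonneg (h1.trans ha) _)
  exact (pow_le_pow_left₀ h2 hbB _).trans (pow_le_pow_right₀ hb hn)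

theorem mult (c : ℝ) (hc : 1 ≤ c) {c' T : ℕ} (hc' : 0 < c') (hT : 0 < T) :
    ∃ (𝓔 : Set ℤ[X][X]) (c3 : ℝ), 𝓔.Finite ∧ (∀ G ∈ 𝓔, G ≠ 0) ∧
      ∀ (D μ : ℕ) (W : ℤ[X][X]) (y1 y2 : ℂ), 0 < D → W ≠ 0 → Bd W (c' * D) (c' * D) →
        nZ.l2.f W ≤ c ^ D → D ≤ T * μ → μ ≤ D → map2 zc W ∈ mI y1 y2 ^ μ →
        (∃ G ∈ 𝓔, ev2 zc y1 y2 G = 0) ∨ ‖y1‖ ≤ c3 := by
  obtain ⟨a, ha⟩ : ∃ a : ℝ, a = 32 ^ c' * c := ⟨_, rfl⟩
  have ha1 : 1 ≤ a := ha ▸ one_le_mul_of_one_le_of_one_le (one_le_pow₀ (by norm_num)) hc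
  obtain ⟨b, hb⟩ : ∃ b : ℝ, b = 8 ^ c' * a := ⟨_, rfl⟩
  have hb1 : 1 ≤ b := hb ▸ one_le_mul_of_one_le_of_one_le (one_le_pow₀ (by norm_num)) ha1
  have hab : 1 ≤ (a * b) ^ c' := one_le_pow₀ (one_le_mul_of_one_le_of_one_le ha1 hb1)
  refine ⟨{G | G ∈ {G : ℤ[X][X] | Bd G (c' * (2 * T)) (c' * (2 * T)) ∧
      ∀ i j, |(((G.coeff j).coeff i : ℤ) : ℝ)| ≤ (8 ^ c' * c) ^ (2 * T)} ∧ G ≠ 0},
    ((a * b) ^ c') ^ (8 * T ^ 2), (box_fin _ _).sep _, fun G hG => hG.2, ?_⟩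
  intro D μ W y1 y2 hD hW hB hν hDT hμ hv
  obtain ⟨s, V, hsV, hs, hV⟩ := split_primes hW y1 y2
  have hA0 : s.prod ≠ 0 := fun h => hW (by rw [hsV, h, zero_mul])
  have hAW : s.prod ∣ W := ⟨V, hsV⟩
  have hAv : map2 zc s.prod ∈ mI y1 y2 ^ μ := by
    rw [hsV, map_mul] at hv
    exact van_cancel hv (by rwa [← ev2_eq])
  obtain ⟨hAB, hAν⟩ := fac_bound hc hW hB hν hAW
  rw [← ha] at hAν
  obtain ⟨L, hL, hLs⟩ := card_pos_deg s hA0
  by_cases hex : ∃ G ∈ L, G ^ (μ / 2 + 1) ∣ s.prod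
  · obtain ⟨G, hG, hdv⟩ := hex
    have hGs := hs G ((hLs G).1 hG).1
    have hD2 : D ≤ 2 * T * (μ / 2 + 1) := by
      have : μ ≤ 2 * (μ / 2 + 1) := by omega
      calc D ≤ T * μ := hDT
        _ ≤ T * (2 * (μ / 2 + 1)) := Nat.mul_le_mul_left _ this
        _ = _ := by ring
    exact Or.inl ⟨G, ⟨exc_box hc hW hB hν hD2 (hdv.trans hAW), hGs.1.ne_zero⟩, hGs.2⟩
  right
  have hH : (0 : ℝ) ≤ 2 ^ (c' * D) * a ^ D := by positivity
  obtain ⟨B, hBM, hBν, hBL⟩ := greedy nZ.l2 (dst12_M y1 y2 (μ - μ / 2) (c' * D)) L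
    (fun G hG => (hs G ((hLs G).1 hG).1).1) (fun G hG => dst12_nc ((hLs G).1 hG).2) hH
    (fun G hG => by
      obtain ⟨j, hj, -, hnd⟩ := has' (hs G ((hLs G).1 hG).1).1 ((hLs G).1 hG).2
        (fun h => hex ⟨G, hG, h⟩)
      refine ⟨hasseDeriv j s.prod, ⟨?_, (hAB.hasse j).2⟩, ?_, hnd⟩
      · have e : map2 zc (hasseDeriv j s.prod) = hasseDeriv j (map2 zc s.prod) :=
          map_hasse (mapRingHom zc) j s.prod
        rw [e]
        exact Ideal.pow_le_pow_right (by omega) (van_hasse hAv j)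
      · exact (nZ.l1.l1_hasse hAB.2 j).trans (mul_le_mul_of_nonneg_left hAν (by positivity)))
  have hBb : nZ.l2.f B ≤ b ^ D := by
    refine hBν.trans ?_
    have h1 : (L.length : ℝ) ≤ 2 ^ (c' * D) := by
      have : L.length ≤ 2 ^ (c' * D) := (hL.trans hAB.2).trans Nat.lt_two_pow_self.le
      exact_mod_cast this
    have h2 : (L.length : ℝ) ^ 2 ≤ (2 ^ (c' * D)) ^ 2 := pow_le_pow_left₀ (by positivity) h1 2
    calc (L.length : ℝ) ^ 2 * (2 ^ (c' * D) * a ^ D)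
        ≤ (2 ^ (c' * D)) ^ 2 * (2 ^ (c' * D) * a ^ D) := mul_le_mul_of_nonneg_right h2 hH
      _ = b ^ D := by
        rw [hb, mul_pow, ← pow_mul (8 : ℝ), show (8 : ℝ) = 2 * 2 * 2 by norm_num, mul_pow, mul_pow]
        ring
  have hk : μ - μ / 2 ≤ c' * D := by
    have : D ≤ c' * D := Nat.le_mul_of_pos_left _ hc'
    omega
  obtain ⟨E, hE, hy⟩ := dst12_res s (fun G hG => (hs G hG).1)
    (fun G hG hd => hBL G ((hLs G).2 ⟨hG, hd⟩))
    (Ideal.pow_le_pow_right (Nat.sub_le _ _) hAv) hBM hk hAB.2 (one_le_pow₀ hb1) hAν hBb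
  have hDE : D * D ≤ 8 * T ^ 2 * E := by
    have h1 : D ≤ T * (2 * (μ - μ / 2)) := hDT.trans (Nat.mul_le_mul_left _ (by omega))
    calc D * D ≤ (T * (2 * (μ - μ / 2))) * (T * (2 * (μ - μ / 2))) := Nat.mul_le_mul h1 h1
      _ = 4 * T ^ 2 * ((μ - μ / 2) * (μ - μ / 2)) := by ring
      _ ≤ 4 * T ^ 2 * (2 * E) := Nat.mul_le_mul_left _ hE
      _ = _ := by ring
  have hE0 : E ≠ 0 := by
    rintro rfl
    have : 0 < D * D := Nat.mul_pos hD hD
    omega
  refine le_of_pow_le_pow_left₀ hE0 (by positivity) (hy.trans ?_)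
  calc (a ^ D * b ^ D) ^ (c' * D) = ((a * b) ^ c') ^ (D * D) := by
        rw [← mul_pow, ← pow_mul, ← pow_mul]; congr 1; ring
    _ ≤ ((a * b) ^ c') ^ (8 * T ^ 2 * E) := pow_le_pow_right₀ hab hDE
    _ = _ := by rw [pow_mul]

end Pool.Agent.P.MP_68214b_ag.DS
end

-- part Pool.Agent.P.MP_68214b_ag.DST7
section

open Polynomial Filter Asymptotics NumberField Topology

namespace Pool.Agent.P.MP_68214b_ag.DS

theorem dst7_split {u : PowerSeries ℂ} (hu : u ≠ 0) : ∃ (k : ℕ) (u0 : PowerSeries ℂ),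
    u = PowerSeries.X ^ k * u0 ∧ PowerSeries.constantCoeff u0 ≠ 0 :=
  ⟨u.order.toNat, u.divXPowOrder, PowerSeries.X_pow_order_mul_divXPowOrder.symm, by
    rwa [Ne, PowerSeries.constantCoeff_divXPowOrder_eq_zero_iff]⟩

theorem dst7_der (k : ℕ) (u0 : PowerSeries ℂ) :
    PowerSeries.X * PowerSeries.derivative ℂ (PowerSeries.X ^ k * u0) =
      PowerSeries.X ^ k * ((k : PowerSeries ℂ) * u0 +
        PowerSeries.X * PowerSeries.derivative ℂ u0) := by
  induction k with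
  | zero => simp
  | succ k ih =>
    rw [pow_succ', mul_assoc, Derivation.leibniz, PowerSeries.derivative_X, smul_eq_mul,
      smul_eq_mul, ih]
    push_cast
    ring

theorem const_of_wr {u v : PowerSeries ℂ} (hu : u ≠ 0)
    (h : u * PowerSeries.derivative ℂ v = PowerSeries.derivative ℂ u * v) :
    ∃ c : ℂ, v = c • u := by
  obtain ⟨k, u0, hk, h0⟩ := dst7_split hu
  have ck : PowerSeries.coeff k u = PowerSeries.constantCoeff u0 := by
    have := PowerSeries.coeff_X_pow_mul u0 k 0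
    rwa [zero_add, ← hk, PowerSeries.coeff_zero_eq_constantCoeff_apply] at this
  refine ⟨PowerSeries.coeff k v / PowerSeries.coeff k u, sub_eq_zero.1 ?_⟩
  generalize hc : PowerSeries.coeff k v / PowerSeries.coeff k u = c
  have hw : u * PowerSeries.derivative ℂ (v - c • u) = PowerSeries.derivative ℂ u * (v - c • u) := by
    rw [map_sub, Derivation.map_smul, mul_sub, mul_sub, h, mul_smul_comm, mul_smul_comm,
      mul_comm u]
  have hz : PowerSeries.coeff k (v - c • u) = 0 := by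
    rw [map_sub, map_smul, smul_eq_mul, ← hc, div_mul_cancel₀ _ (ck ▸ h0), sub_self]
  generalize v - c • u = w at hw hz
  by_contra hne
  obtain ⟨l, w0, rfl, h1⟩ := dst7_split hne
  have e : PowerSeries.X ^ (k + l) * (u0 * ((l : PowerSeries ℂ) * w0 +
      PowerSeries.X * PowerSeries.derivative ℂ w0)) = PowerSeries.X ^ (k + l) *
      (((k : PowerSeries ℂ) * u0 + PowerSeries.X * PowerSeries.derivative ℂ u0) * w0) := by
    have a := dst7_der k u0
    have b := dst7_der l w0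
    rw [← hk] at a
    have : PowerSeries.X ^ k * u0 = u := hk.symm
    linear_combination (exp := 1) PowerSeries.X * hw + PowerSeries.X ^ l * w0 * a - u * b +
      PowerSeries.X ^ l * ((l : PowerSeries ℂ) * w0 +
        PowerSeries.X * PowerSeries.derivative ℂ w0) * this
  have e2 := congrArg PowerSeries.constantCoeff
    (mul_left_cancel₀ (pow_ne_zero _ PowerSeries.X_ne_zero) e)
  simp only [map_mul, map_add, map_natCast, PowerSeries.constantCoeff_X, zero_mul, add_zero] at e2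
  have e3 : (l : ℂ) = k := mul_right_cancel₀ (mul_ne_zero h0 h1) (by linear_combination e2)
  obtain rfl : l = k := by exact_mod_cast e3
  have := PowerSeries.coeff_X_pow_mul w0 l 0
  rw [zero_add, hz, PowerSeries.coeff_zero_eq_constantCoeff_apply] at this
  exact h1 this.symm

theorem dst7_ker {g : PowerSeries ℂ} (hg : g ≠ 0) {n : ℕ} (a : Fin n → PowerSeries ℂ)
    (h : LinearIndependent ℂ a) (c : Fin n → PowerSeries ℂ)
    (hc : ∀ j < n, ∑ i, (fun f => g * PowerSeries.derivative ℂ f)^[j] (a i) * c i = 0) :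
    c = 0 := by
  induction n with
  | zero => exact Subsingleton.elim _ _
  | succ n ih =>
    have ih' : ∀ e : Fin (n + 1) → PowerSeries ℂ, e (Fin.last n) = 0 →
        (∀ j < n, ∑ i, (fun f => g * PowerSeries.derivative ℂ f)^[j] (a i) * e i = 0) →
        e = 0 := fun e h0 he => by
      have := ih (fun i => a i.castSucc) (h.comp _ (Fin.castSucc_injective n))
        (fun i => e i.castSucc) fun j hj => by
          have := he j hj
          rwa [Fin.sum_univ_castSucc, h0, mul_zero, add_zero] at this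
      funext i
      exact Fin.lastCases h0 (fun i => congrFun this i) i
    refine ih' c ?_ fun j hj => hc j (by omega)
    by_contra hl
    have h1 : ∀ j < n, ∑ i, (fun f => g * PowerSeries.derivative ℂ f)^[j] (a i) *
        (g * PowerSeries.derivative ℂ (c i)) = 0 := fun j hj => by
      have e1 := congrArg (fun f => g * PowerSeries.derivative ℂ f) (hc j (by omega))
      have e2 := hc (j + 1) (by omega)
      simp only [map_sum, Derivation.leibniz, smul_eq_mul, Finset.mul_sum, map_zero,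
        mul_zero] at e1
      simp only [Function.iterate_succ_apply'] at e2
      rw [← sub_zero (0 : PowerSeries ℂ)]
      nth_rewrite 1 [← e1]
      rw [← e2, ← Finset.sum_sub_distrib]
      exact Finset.sum_congr rfl fun i _ => by ring
    have h2 := ih' (fun i => c (Fin.last n) * (g * PowerSeries.derivative ℂ (c i)) -
        g * PowerSeries.derivative ℂ (c (Fin.last n)) * c i) (by ring) fun j hj => by
      have e1 := congrArg (c (Fin.last n) * ·) (h1 j hj)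
      have e2 := congrArg (g * PowerSeries.derivative ℂ (c (Fin.last n)) * ·) (hc j (by omega))
      simp only [Finset.mul_sum, mul_zero] at e1 e2
      rw [← sub_zero (0 : PowerSeries ℂ)]
      nth_rewrite 1 [← e1]
      rw [← e2, ← Finset.sum_sub_distrib]
      exact Finset.sum_congr rfl fun i _ => by ring
    choose lam hlam using fun i => const_of_wr (v := c i) hl (mul_left_cancel₀ hg (by
      have := congrFun h2 i
      simp only [Pi.zero_apply] at this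
      linear_combination this))
    have h3 : (∑ i, lam i • a i) * c (Fin.last n) = 0 := by
      rw [← hc 0 (by omega), Finset.sum_mul]
      refine Finset.sum_congr rfl fun i _ => ?_
      rw [hlam i, Function.iterate_zero_apply, smul_mul_assoc, mul_smul_comm]
    have h4 := Fintype.linearIndependent_iff.1 h lam ((mul_eq_zero.1 h3).resolve_right hl)
    exact hl (by rw [hlam (Fin.last n), h4, zero_smul])

theorem wr_ne {g : PowerSeries ℂ} (hg : g ≠ 0) {n : ℕ} (a : Fin n → PowerSeries ℂ)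
    (h : LinearIndependent ℂ a) : wr (fun f => g * PowerSeries.derivative ℂ f) a ≠ 0 := by
  intro h0
  obtain ⟨c, hc, e⟩ := Matrix.exists_mulVec_eq_zero_iff.2 h0
  exact hc (dst7_ker hg a h c fun j hj => congrFun e ⟨j, hj⟩)

end Pool.Agent.P.MP_68214b_ag.DS
end

-- part Pool.Agent.P.MP_68214b_ag.DST8
section

open Polynomial Filter Asymptotics NumberField Topology

namespace Pool.Agent.P.MP_68214b_ag.DS

theorem dst8_lin {A : Type*} [CommRing A] [Algebra ℂ A] {δ : A → A} (hδ : IsDer δ)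
    (hc : ∀ c : ℂ, δ (algebraMap ℂ A c) = 0) {n : ℕ} (a : Fin n → A) (l : Fin n → ℂ) (j : ℕ) :
    δ^[j] (∑ i, l i • a i) = ∑ i, l i • δ^[j] (a i) := by
  let L : A →ₗ[ℂ] A :=
    { toFun := δ
      map_add' := hδ.add
      map_smul' := fun c x => by
        simp only [RingHom.id_apply, Algebra.smul_def]
        rw [hδ.mul, hc, zero_mul, add_zero] }
  have e : ∀ x, δ^[j] x = (L ^ j) x := fun x => by rw [Module.End.pow_apply]; rfl
  simp only [e, map_sum, map_smul]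

theorem wrm {A : Type*} [CommRing A] [Algebra ℂ A] {δ : A → A} (hδ : IsDer δ)
    (hc : ∀ c : ℂ, δ (algebraMap ℂ A c) = 0) (I : Ideal A) {n : ℕ} (a : Fin n → A) (l : Fin n → ℂ)
    (hl : l ≠ 0) {μ : ℕ} (h : ∑ i, l i • a i ∈ I ^ μ) : wr δ a ∈ I ^ (μ - n) := by
  obtain ⟨i0, hi0⟩ := Function.ne_iff.1 hl
  set M : Matrix (Fin n) (Fin n) A := Matrix.of fun j i : Fin n => δ^[j] (a i) with hM
  let v : Fin n → A := fun i => algebraMap ℂ A (l i)
  have h1 : ∀ j, M.mulVec v j ∈ I ^ (μ - n) := fun j => by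
    have e : M.mulVec v j = δ^[j] (∑ i, l i • a i) := by
      rw [dst8_lin hδ hc]
      simp only [Matrix.mulVec, dotProduct, hM, Matrix.of_apply, v, Algebra.smul_def, mul_comm]
    rw [e]
    exact Ideal.pow_le_pow_right (by have := j.2; omega) (hδ.iter_mem I h j)
  have h2 : M.det * v i0 ∈ I ^ (μ - n) := by
    have e : M.det * v i0 = M.adjugate.mulVec (M.mulVec v) i0 := by
      rw [Matrix.mulVec_mulVec, Matrix.adjugate_mul, Matrix.smul_mulVec, Matrix.one_mulVec]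
      rfl
    rw [e]
    show ∑ j, M.adjugate i0 j * M.mulVec v j ∈ _
    exact Ideal.sum_mem _ fun j _ => Ideal.mul_mem_left _ _ (h1 j)
  have h3 := Ideal.mul_mem_right (algebraMap ℂ A (l i0)⁻¹) _ h2
  rw [mul_assoc, ← map_mul, mul_inv_cancel₀ hi0, map_one, mul_one] at h3
  exact h3

theorem basis_pick {V ι : Type*} [AddCommGroup V] [Module ℂ V] [Fintype ι] (v : ι → V) (c : ι → ℂ)
    (h : ∑ k, c k • v k ≠ 0) : ∃ (n : ℕ) (e : Fin n → ι) (l : Fin n → ℂ), n ≤ Fintype.card ι ∧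
      l ≠ 0 ∧ LinearIndependent ℂ (fun i => v (e i)) ∧ ∑ i, l i • v (e i) = ∑ k, c k • v k := by
  obtain ⟨κ, a, ha, hs, hl⟩ := exists_linearIndependent' ℂ v
  have : Finite κ := Finite.of_injective a ha
  have : Fintype κ := Fintype.ofFinite κ
  let E := (Fintype.equivFin κ).symm
  have hm : ∑ k, c k • v k ∈ Submodule.span ℂ (Set.range fun i => v (a (E i))) := by
    have e : (Set.range fun i => v (a (E i))) = Set.range (v ∘ a) :=
      E.surjective.range_comp (v ∘ a)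
    rw [e, hs]
    exact Submodule.sum_mem _ fun k _ => Submodule.smul_mem _ _ (Submodule.subset_span ⟨k, rfl⟩)
  obtain ⟨l, hl'⟩ := (Submodule.mem_span_range_iff_exists_fun ℂ).1 hm
  refine ⟨_, fun i => a (E i), l, Fintype.card_le_of_injective a ha, ?_,
    hl.comp E E.injective, hl'⟩
  rintro rfl
  exact h (by simpa using hl'.symm)

theorem cmb_eq {R ι : Type*} [CommRing R] [Fintype ι] (φ : R →+* ℂ) (P : ι → R[X][X]) (c : ι → ℂ) :
    cmb φ P c = ∑ k, c k • map2 φ (P k) := by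
  refine Finset.sum_congr rfl fun k _ => ?_
  rw [Algebra.smul_def]
  rfl

end Pool.Agent.P.MP_68214b_ag.DS
end

-- part Pool.Agent.P.MP_68214b_ag.DST14
section

open Polynomial Filter Asymptotics NumberField Topology

namespace Pool.Agent.P.MP_68214b_ag.DS

theorem hat_C (y : ℂ) (η : PowerSeries ℂ) (p : ℂ[X]) :
    hat y η (C p) = (taylor y p : PowerSeries ℂ) := by
  simp [hat]

theorem hat_X (y : ℂ) (η : PowerSeries ℂ) : hat y η X = η := by
  simp [hat]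

theorem hat_smul (y : ℂ) (η : PowerSeries ℂ) (c : ℂ) (W : ℂ[X][X]) :
    hat y η (c • W) = c • hat y η W := by
  rw [Algebra.smul_def, map_mul, PowerSeries.smul_eq_C_mul,
    show algebraMap ℂ ℂ[X][X] c = C (C c) from rfl, hat_C, taylor_C, Polynomial.coe_C]

theorem hat_c0 (y : ℂ) (η : PowerSeries ℂ) (W : ℂ[X][X]) :
    PowerSeries.constantCoeff (hat y η W) = W.evalEval y (PowerSeries.constantCoeff η) := by
  induction W using Polynomial.induction_on with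
  | C p => rw [hat_C, evalEval_C, Polynomial.constantCoeff_coe, taylor_coeff_zero]
  | add p q hp hq => rw [map_add, map_add, hp, hq, evalEval_add]
  | monomial n p h =>
    rw [pow_succ, ← mul_assoc, map_mul, map_mul, h, hat_X, evalEval_mul _ _ _ X, evalEval_X]

theorem hat_chain (y : ℂ) (η : PowerSeries ℂ) (W : ℂ[X][X]) :
    PowerSeries.derivative ℂ (hat y η W) =
      hat y η (dX W) + hat y η (derivative W) * PowerSeries.derivative ℂ η := by
  have hX : dX (X : ℂ[X][X]) = 0 := by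
    ext1 j
    rw [coeff_dX, coeff_X]
    split_ifs <;> simp
  induction W using Polynomial.induction_on with
  | C p =>
    have : dX (C p) = C (derivative p) := by
      ext1 j
      rw [coeff_dX, coeff_C, coeff_C]
      split_ifs <;> simp
    rw [this, hat_C, hat_C, derivative_C, map_zero, zero_mul, add_zero, PowerSeries.derivative_coe,
      taylor_apply, taylor_apply, derivative_comp]
    simp
  | add p q hp hq =>
    rw [map_add, map_add, hp, hq, isDer_dX.add, map_add, derivative_add, map_add]; ring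
  | monomial n p h =>
    rw [pow_succ, ← mul_assoc]
    generalize C p * X ^ n = V at h ⊢
    rw [map_mul, Derivation.leibniz, h, isDer_dX.mul, hX, derivative_mul, derivative_X]
    simp only [map_add, map_mul, map_zero, map_one, hat_X, smul_eq_mul]
    ring

theorem hat_der_kron (B : ℕ) (W : ℂ[X][X]) :
    hat 0 (PowerSeries.X ^ (B + 1)) (der 1 (C (((B + 1 : ℕ) : ℂ[X]) * X ^ B)) W) =
      1 * PowerSeries.derivative ℂ (hat 0 (PowerSeries.X ^ (B + 1)) W) := by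
  rw [hat_chain, der, map_add, map_mul, map_mul, map_one, hat_C, taylor_zero,
    PowerSeries.derivative_pow]
  simp only [Polynomial.coe_mul, Polynomial.coe_pow, Polynomial.coe_X, PowerSeries.derivative_X,
    Nat.add_sub_cancel]
  rw [show (((B + 1 : ℕ) : ℂ[X]) : PowerSeries ℂ) = ((B + 1 : ℕ) : PowerSeries ℂ) from
    map_natCast Polynomial.coeToPowerSeries.ringHom _]
  ring

theorem hat_kron {W : ℂ[X][X]} {D : ℕ} (hW : ∀ j, (W.coeff j).natDegree ≤ D)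
    (h : hat 0 (PowerSeries.X ^ (D + 1)) W = 0) : W = 0 := by
  have h1 : ∀ V : ℂ[X][X], hat 0 (PowerSeries.X ^ (D + 1)) V =
      ((V.eval (X ^ (D + 1)) : ℂ[X]) : PowerSeries ℂ) := by
    intro V
    induction V using Polynomial.induction_on with
    | C p => rw [hat_C, taylor_zero, eval_C]
    | add p q hp hq => rw [map_add, hp, hq, eval_add, Polynomial.coe_add]
    | monomial n p h =>
      rw [pow_succ X n, ← mul_assoc, map_mul, h, hat_X, eval_mul (q := X), eval_X, Polynomial.coe_mul,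
        Polynomial.coe_pow, Polynomial.coe_X]
  rw [h1, Polynomial.coe_eq_zero_iff, eval_eq_sum, Polynomial.sum] at h
  ext j i
  rw [coeff_zero, coeff_zero]
  rcases lt_or_ge D i with hi | hi
  · exact coeff_eq_zero_of_natDegree_lt ((hW j).trans_lt hi)
  have h2 := congrArg (coeff · (i + (D + 1) * j)) h
  simp only [finsetSum_coeff, coeff_zero, ← pow_mul] at h2
  rw [Finset.sum_eq_single j, coeff_mul_X_pow] at h2
  · exact h2
  · intro l _ hl
    rw [coeff_mul_X_pow']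
    split_ifs with h3
    · refine coeff_eq_zero_of_natDegree_lt ((hW l).trans_lt ?_)
      rcases lt_or_gt_of_ne hl with h4 | h4
      · have := Nat.mul_le_mul_left (D + 1) (Nat.succ_le_of_lt h4)
        rw [Nat.mul_succ] at this
        omega
      · have := Nat.mul_le_mul_left (D + 1) (Nat.succ_le_of_lt h4)
        rw [Nat.mul_succ] at this
        omega
    · rfl
  · intro hj
    rw [notMem_support_iff.1 hj, zero_mul, coeff_zero]

theorem hat_der_curve {y : ℂ} {η : PowerSeries ℂ} {G : ℂ[X][X]} (h : hat y η G = 0) (W : ℂ[X][X]) :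
    hat y η (der (derivative G) (-dX G) W) =
      hat y η (derivative G) * PowerSeries.derivative ℂ (hat y η W) := by
  have h1 := hat_chain y η G
  rw [h, map_zero] at h1
  rw [hat_chain, der, map_add, map_mul, map_mul, map_neg]
  linear_combination hat y η (derivative W) * h1

theorem hat_mI {y1 y2 : ℂ} {η : PowerSeries ℂ} (hη : PowerSeries.constantCoeff η = y2) {μ : ℕ}
    {W : ℂ[X][X]} (h : W ∈ mI y1 y2 ^ μ) : hat y1 η W ∈ sI ^ μ := by
  have h1 : (mI y1 y2).map (hat y1 η) ≤ sI := by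
    rw [mI, Ideal.map_span, Ideal.span_le]
    rintro _ ⟨_, rfl | rfl, rfl⟩
    · rw [hat_C]
      exact Ideal.subset_span (by simp)
    · rw [map_sub, hat_X, hat_C, taylor_C, Polynomial.coe_C]
      exact Ideal.mem_span_singleton.2 (PowerSeries.X_dvd_iff.2 (by simp [hη]))
  exact Ideal.pow_right_mono h1 μ (Ideal.map_pow (hat y1 η) _ μ ▸ Ideal.mem_map_of_mem _ h)

theorem dvd_of_hat {y : ℂ} {p : ℂ[X]} {μ : ℕ} (h : (taylor y p : PowerSeries ℂ) ∈ sI ^ μ) :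
    (X - C y) ^ μ ∣ p := by
  rw [sI, Ideal.span_singleton_pow, Ideal.mem_span_singleton, PowerSeries.X_pow_dvd_iff] at h
  have h1 : X ^ μ ∣ taylor y p := X_pow_dvd_iff.2 fun d hd => by simpa using h d hd
  have h2 := map_dvd (taylorAlgHom (-y)) h1
  simpa [taylor_taylor, sub_eq_add_neg] using h2

theorem isDer_ps (g : PowerSeries ℂ) : IsDer fun f => g * PowerSeries.derivative ℂ f :=
  ⟨fun a b => by rw [map_add, mul_add], fun a b => by
    rw [Derivation.leibniz, smul_eq_mul, smul_eq_mul]; ring⟩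

end Pool.Agent.P.MP_68214b_ag.DS
end

-- part Pool.Agent.P.MP_68214b_ag.DST13
section

open Polynomial Filter Asymptotics NumberField Topology

namespace Pool.Agent.P.MP_68214b_ag.DS

theorem dst13_num {n s D : ℕ} {c : ℝ} (hc : 1 ≤ c) (hn : n ≤ s) (hD : 0 < D) :
    ((n : ℝ) * (((D : ℝ) + 1) * ((D + D + n * (D + 0) + 1 : ℕ) : ℝ)) ^ n * c ^ D) ^ n ≤
      ((2 ^ (s + (s + 3) * s) * c) ^ s) ^ D := by
  have h1 : n ≤ 2 ^ (s * D) :=
    (hn.trans (Nat.le_mul_of_pos_right s hD)).trans Nat.lt_two_pow_self.le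
  have h2 : D + 1 ≤ 2 ^ D := Nat.lt_two_pow_self
  have h3 : D + D + n * (D + 0) + 1 ≤ 2 ^ ((s + 2) * D) := by
    have a : (s + 2) * D + 1 ≤ 2 ^ ((s + 2) * D) := Nat.lt_two_pow_self
    have b : n * D ≤ s * D := Nat.mul_le_mul_right D hn
    have e : (s + 2) * D = s * D + D + D := by ring
    simp only [add_zero]
    omega
  have h4 : (D + 1) * (D + D + n * (D + 0) + 1) ≤ 2 ^ ((s + 3) * D) := by
    refine (Nat.mul_le_mul h2 h3).trans (le_of_eq ?_)
    rw [← pow_add]; congr 1; ring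
  have h5 : ((D + 1) * (D + D + n * (D + 0) + 1)) ^ n ≤ 2 ^ ((s + 3) * s * D) := by
    refine (Nat.pow_le_pow_left h4 n).trans ?_
    rw [← pow_mul]
    refine Nat.pow_le_pow_right (by norm_num) ?_
    calc (s + 3) * D * n ≤ (s + 3) * D * s := Nat.mul_le_mul_left _ hn
      _ = _ := by ring
  have h6 : n * ((D + 1) * (D + D + n * (D + 0) + 1)) ^ n ≤ (2 ^ (s + (s + 3) * s)) ^ D := by
    refine (Nat.mul_le_mul h1 h5).trans (le_of_eq ?_)
    rw [← pow_add, ← pow_mul]; congr 1; ring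
  have h7 : (n : ℝ) * (((D : ℝ) + 1) * ((D + D + n * (D + 0) + 1 : ℕ) : ℝ)) ^ n ≤
      (2 ^ (s + (s + 3) * s)) ^ D := by exact_mod_cast h6
  have h8 : (1 : ℝ) ≤ 2 ^ (s + (s + 3) * s) * c :=
    one_le_mul_of_one_le_of_one_le (one_le_pow₀ (by norm_num)) hc
  have h0 : (0 : ℝ) ≤ c ^ D := by positivity
  calc _ ≤ ((2 ^ (s + (s + 3) * s) * c) ^ D) ^ n := by
        refine pow_le_pow_left₀ (by positivity) ?_ n
        rw [mul_pow (2 ^ (s + (s + 3) * s) : ℝ)]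
        exact mul_le_mul_of_nonneg_right h7 h0
    _ ≤ ((2 ^ (s + (s + 3) * s) * c) ^ D) ^ s := pow_le_pow_right₀ (one_le_pow₀ h8) hn
    _ = _ := by rw [← pow_mul, ← pow_mul, mul_comm D s]

theorem dst13_bd {R : Type*} [CommRing R] {p : R[X]} {D : ℕ} (h : p.natDegree ≤ D) :
    Bd (C p : R[X][X]) D 0 := by
  refine ⟨fun j => ?_, by simp⟩
  rw [coeff_C]
  split_ifs
  · exact h
  · simp

theorem dst13_ne {n D : ℕ} (A : Fin n → ℂ[X][X]) (hA : ∀ i, Bd (A i) D D)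
    (h : LinearIndependent ℂ A) :
    wr (der 1 (C (((D + 1 : ℕ) : ℂ[X]) * X ^ D))) A ≠ 0 := by
  intro h0
  have h1 := wr_map (hat 0 (PowerSeries.X ^ (D + 1)))
    (δ' := fun f => 1 * PowerSeries.derivative ℂ f) (hat_der_kron D) A
  rw [h0, map_zero] at h1
  refine wr_ne one_ne_zero _ ?_ h1.symm
  rw [Fintype.linearIndependent_iff] at h ⊢
  intro g hg
  refine h g (hat_kron (D := D) (fun j => ?_) ?_)
  · rw [finsetSum_coeff]
    refine natDegree_sum_le_of_forall_le _ _ fun i _ => ?_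
    rw [coeff_smul]
    exact (natDegree_smul_le _ _).trans ((hA i).1 j)
  · rw [map_sum, ← hg]
    exact Finset.sum_congr rfl fun i _ => hat_smul _ _ _ _

theorem nvd (κ : Type*) [Fintype κ] (c : ℝ) (hc : 1 ≤ c) {T : ℕ} (hT : 0 < T) :
    ∃ (𝓔 : Set ℤ[X][X]) (c3 : ℝ) (D1 : ℕ), 𝓔.Finite ∧ (∀ G ∈ 𝓔, G ≠ 0) ∧
      ∀ D ≥ D1, ∀ (P : κ → ℤ[X][X]) (v : κ → ℂ) (y1 y2 : ℂ),
        (∀ k, Bd (P k) D D ∧ nZ.l2.f (P k) ≤ c ^ D) → cmb zc P v ≠ 0 →
        (∀ G ∈ 𝓔, ev2 zc y1 y2 G ≠ 0) → c3 < ‖y1‖ → cmb zc P v ∉ mI y1 y2 ^ (D / T + 1) := by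
  obtain ⟨s, hs⟩ : ∃ s, Fintype.card κ = s := ⟨_, rfl⟩
  have h8 : (1 : ℝ) ≤ (2 ^ (s + (s + 3) * s) * c) ^ s :=
    one_le_pow₀ (one_le_mul_of_one_le_of_one_le (one_le_pow₀ (by norm_num)) hc)
  obtain ⟨𝓔, c3, hf, hz, hm⟩ := mult _ h8 (c' := s * (s + 1) + 1) (T := 2 * T) (by omega) (by omega)
  refine ⟨𝓔, c3, 2 * T * s + 1, hf, hz, fun D hD P v y1 y2 hP hv hG hy hI => ?_⟩
  have hD0 : 0 < D := by omega
  rw [cmb_eq] at hv hI
  obtain ⟨n, e, l, hn, hl, hli, hsum⟩ := basis_pick (fun k => map2 zc (P k)) v hv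
  rw [hs] at hn
  have hn0 : 0 < n := by
    rcases Nat.eq_zero_or_pos n with rfl | h
    · exact absurd (Subsingleton.elim _ _) hl
    · exact h
  have hdeg : (((D + 1 : ℕ) : ℤ[X]) * X ^ D).natDegree ≤ D :=
    natDegree_mul_le.trans (by rw [natDegree_natCast, zero_add]; exact natDegree_X_pow_le D)
  have hb1 : Bd (1 : ℤ[X][X]) D 0 := by
    rw [← C_1]; exact dst13_bd (by simp)
  have hγ : (1 : ℝ) ≤ (D : ℝ) + 1 := by have := Nat.cast_nonneg (α := ℝ) D; linarith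
  have hh : nZ.l2.f (C (((D + 1 : ℕ) : ℤ[X]) * X ^ D)) ≤ (D : ℝ) + 1 := by
    rw [Sn.l1_C]
    refine (nZ.l1.mul _ _).trans ?_
    have a := nZ.l1.natCast_le (D + 1)
    have b : nZ.l1.f (X ^ D) ≤ 1 :=
      (nZ.l1.pow_le _ _).trans (pow_le_one₀ (nZ.l1.nonneg _) nZ.l1_X)
    calc _ ≤ ((D + 1 : ℕ) : ℝ) * 1 := mul_le_mul a b (nZ.l1.nonneg _) (Nat.cast_nonneg _)
      _ = _ := by push_cast; ring
  obtain ⟨w1, w2⟩ := wr_bound nZ hb1 (dst13_bd hdeg) hγ (nZ.l2.one.trans hγ) hh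
    (fun i => P (e i)) (one_le_pow₀ hc) (fun i => hP (e i))
  have hmap : map2 zc (wr (der 1 (C (((D + 1 : ℕ) : ℤ[X]) * X ^ D))) fun i => P (e i)) =
      wr (der 1 (C (((D + 1 : ℕ) : ℂ[X]) * X ^ D))) fun i => map2 zc (P (e i)) := by
    refine wr_map _ (fun a => ?_) _
    rw [map2_der]
    simp
  have hne := dst13_ne (fun i => map2 zc (P (e i))) (fun i => (hP (e i)).1.map2 zc) hli
  have hw := wrm (isDer_der 1 (C (((D + 1 : ℕ) : ℂ[X]) * X ^ D))) (fun c => der_CC _ _ c)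
    (mI y1 y2) (fun i => map2 zc (P (e i))) l hl (μ := D / T + 1) (by rw [hsum]; exact hI)
  rw [← hmap] at hne hw
  have q1 : D < T * (D / T + 1) := Nat.lt_mul_div_succ D hT
  have q2 : D / T ≤ D := Nat.div_le_self D T
  have q3 : s ≤ D / T + 1 := by
    by_contra hlt
    have : T * (D / T + 1) ≤ T * s := Nat.mul_le_mul_left T (by omega)
    have e2 : 2 * T * s = 2 * (T * s) := by ring
    omega
  have q4 : D ≤ 2 * T * (D / T + 1 - s) := by
    rw [Nat.mul_sub]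
    have e1 : 2 * T * (D / T + 1) = 2 * (T * (D / T + 1)) := by ring
    omega
  have q5 : n * (D + n * D) ≤ (s * (s + 1) + 1) * D := by
    calc n * (D + n * D) = n * (n + 1) * D := by ring
      _ ≤ _ := Nat.mul_le_mul_right D
        ((Nat.mul_le_mul hn (Nat.succ_le_succ hn)).trans (Nat.le_succ _))
  have q6 : n * (D + n * 0) ≤ (s * (s + 1) + 1) * D :=
    (Nat.mul_le_mul_left n (by simp)).trans q5
  rcases hm D (D / T + 1 - s) _ y1 y2 hD0 (fun h => hne (by rw [h, map_zero])) (w1.mono q5 q6)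
    (w2.trans (dst13_num hc hn hD0)) q4 (by omega)
    (Ideal.pow_le_pow_right (by omega) hw) with ⟨G, h1, h2⟩ | h
  · exact hG G h1 h2
  · exact absurd hy (not_lt.2 h)

end Pool.Agent.P.MP_68214b_ag.DS
end

-- part Pool.Agent.P.MP_68214b_ag.DST15
section

open Polynomial Filter Asymptotics NumberField Topology

namespace Pool.Agent.P.MP_68214b_ag.DS

theorem prem {R : Type*} [CommRing R] (ν : Sn R) (G : R[X]) (hd : 0 < G.natDegree) {γ : ℝ}
    (hγ : 1 ≤ γ) (hG : ν.l1.f G ≤ γ) (n : ℕ) : ∃ (ρ : R[X] →ₗ[R] R[X]) (N : ℕ), ∀ W : R[X],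
      W.natDegree ≤ n → (ρ W).natDegree < G.natDegree ∧ G ∣ C G.leadingCoeff ^ N * W - ρ W ∧
        ν.l1.f (ρ W) ≤ (2 * γ) ^ n * ν.l1.f W := by
  induction n with
  | zero => exact ⟨LinearMap.id, 0, fun W hW => ⟨hW.trans_lt hd, by simp, by simp⟩⟩
  | succ n ih =>
    by_cases h : n + 1 < G.natDegree
    · exact ⟨LinearMap.id, 0, fun W hW => ⟨hW.trans_lt h, by simp,
        le_mul_of_one_le_left (ν.l1.nonneg W) (one_le_pow₀ (by linarith))⟩⟩
    obtain ⟨k, hk⟩ := Nat.exists_eq_add_of_le (not_lt.1 h)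
    obtain ⟨ρ, N, H⟩ := ih
    let T : R[X] →ₗ[R] R[X] := G.leadingCoeff • LinearMap.id - (lcoeff R (n + 1)).smulRight (X ^ k * G)
    have hT : ∀ W, T W = C G.leadingCoeff * W - C (W.coeff (n + 1)) * (X ^ k * G) := fun W => by
      simp [T, smul_eq_C_mul]
    refine ⟨ρ ∘ₗ T, N + 1, fun W hW => ?_⟩
    have h1 : (T W).natDegree ≤ n := natDegree_le_iff_coeff_eq_zero.2 fun m hm => by
      obtain ⟨j, rfl⟩ : ∃ j, m = G.natDegree + j + k := ⟨m - (n + 1), by omega⟩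
      rw [hT, coeff_sub, coeff_C_mul, coeff_C_mul, coeff_X_pow_mul]
      rcases Nat.eq_zero_or_pos j with rfl | hj
      · rw [add_zero, ← hk, coeff_natDegree, mul_comm, sub_self]
      · rw [coeff_eq_zero_of_natDegree_lt (by omega : W.natDegree < _),
          coeff_eq_zero_of_natDegree_lt (by omega : G.natDegree < _)]
        simp
    obtain ⟨h2, h3, h4⟩ := H _ h1
    refine ⟨h2, ?_, h4.trans ?_⟩
    · have : C G.leadingCoeff ^ (N + 1) * W - (ρ ∘ₗ T) W = (C G.leadingCoeff ^ N * T W - ρ (T W)) +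
          G * (C G.leadingCoeff ^ N * C (W.coeff (n + 1)) * X ^ k) := by
        rw [LinearMap.comp_apply]
        generalize ρ (T W) = y
        rw [hT]; ring
      rw [this]
      exact dvd_add h3 (dvd_mul_right _ _)
    · rw [pow_succ, mul_assoc]
      refine mul_le_mul_of_nonneg_left ?_ (by positivity)
      have a0 := ν.l1.nonneg W
      have a1 : ν.l1.f (C G.leadingCoeff * W) ≤ γ * ν.l1.f W := (ν.l1.mul _ _).trans
        (mul_le_mul_of_nonneg_right (by rw [ν.l1_C]; exact (ν.coeff_le G _).trans hG) a0)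
      have a2 : ν.l1.f (X ^ k * G) ≤ γ := (ν.l1.mul _ _).trans
        ((mul_le_of_le_one_left (ν.l1.nonneg G) ((ν.l1.pow_le _ _).trans
          (pow_le_one₀ (ν.l1.nonneg _) ν.l1_X))).trans hG)
      have a3 : ν.l1.f (C (W.coeff (n + 1)) * (X ^ k * G)) ≤ ν.l1.f W * γ := (ν.l1.mul _ _).trans
        (mul_le_mul (by rw [ν.l1_C]; exact ν.coeff_le W _) a2 (ν.l1.nonneg _) a0)
      rw [hT]
      exact (ν.l1.sub_le _ _).trans (by linarith)

theorem small_v {R K κ : Type*} [CommRing R] [Field K] [Fintype κ] (ν : Sn R) {ι : R →+* K}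
    (hι : Function.Injective ι) {G : R[X][X]} (hG : Prime (map2 ι G)) (hd : 0 < G.natDegree) {γ : ℝ}
    (hγ : 1 ≤ γ) (hGγ : ν.l2.f G ≤ γ) (P : κ → R[X][X]) (c : κ → R) {D : ℕ}
    (hP : ∀ k, (P k).natDegree ≤ D) {H : ℝ} (hH : ∀ k, ν.l2.f (P k) ≤ H) {k0 : κ}
    (h0 : ¬ map2 ι G ∣ map2 ι (P k0)) (h : map2 ι G ∣ map2 ι (cmb (RingHom.id R) P c)) :
    ∃ v : κ → R, v ≠ 0 ∧ (∀ k, ν.f (v k) ≤ (2 * γ) ^ D * H) ∧ ∑ k, v k * c k = 0 := by
  obtain ⟨ρ, N, hρ⟩ := prem ν.l1 G hd hγ hGγ D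
  have hi : Function.Injective (mapRingHom ι) := map_injective ι hι
  have hdeg : (map2 ι G).natDegree = G.natDegree := natDegree_map_eq_of_injective hi G
  have hz : ∀ V : R[X][X], V.natDegree < G.natDegree → map2 ι G ∣ map2 ι V → V = 0 :=
    fun V a b => map2_inj hι ((eq_zero_of_dvd_of_natDegree_lt b
      ((natDegree_map_le (f := mapRingHom ι) (p := V)).trans_lt (hdeg ▸ a))).trans (map_zero _).symm)
  have hQ : cmb (RingHom.id R) P c = ∑ k, (C (c k) : R[X]) • P k :=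
    Finset.sum_congr rfl fun k _ => by simp [smul_eq_C_mul]
  rw [hQ] at h
  obtain ⟨h1, h2, -⟩ := hρ (∑ k, (C (c k) : R[X]) • P k) (natDegree_sum_le_of_forall_le _ _
    fun k _ => (natDegree_smul_le _ _).trans (hP k))
  have h3 := hz _ h1 (by
    have := map_dvd (map2 ι) h2
    rw [map_sub, map_mul] at this
    exact (dvd_sub_right (h.mul_left _)).1 this)
  have h4 : ρ (P k0) ≠ 0 := fun e => by
    have := map_dvd (map2 ι) (hρ _ (hP k0)).2.1
    rw [e, sub_zero, map_mul, map_pow] at this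
    refine (hG.dvd_or_dvd this).elim (fun a => ?_) h0
    have b := hz _ (by rwa [natDegree_C]) (hG.dvd_of_dvd_pow a)
    rw [C_eq_zero, leadingCoeff_eq_zero] at b
    simp [b] at hd
  obtain ⟨j, hj⟩ := Function.ne_iff.1 fun e : (ρ (P k0)).coeff = 0 => h4 (ext fun j => congrFun e j)
  obtain ⟨i, hi⟩ := Function.ne_iff.1 fun e : ((ρ (P k0)).coeff j).coeff = 0 =>
    hj (ext fun i => congrFun e i)
  refine ⟨fun k => ((ρ (P k)).coeff j).coeff i, fun e => hi (congrFun e k0), fun k =>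
    (ν.coeff2_le _ i j).trans ((hρ _ (hP k)).2.2.trans
      (mul_le_mul_of_nonneg_left (hH k) (by positivity))), ?_⟩
  have := congrArg (fun W : R[X][X] => (W.coeff j).coeff i) h3
  simpa [map_sum, finsetSum_coeff, mul_comm] using this

theorem small_v0 {R κ : Type*} [CommRing R] [Fintype κ] (ν : Sn R) (σ : R →+* ℂ)
    (hσ : Function.Injective σ) (P : κ → ℤ[X][X]) (hP : P ≠ 0) (c : κ → R) {H : ℝ}
    (hH : ∀ k, nZ.l2.f (P k) ≤ H) (h : cmb zc P (fun k => σ (c k)) = 0) :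
    ∃ v : κ → R, v ≠ 0 ∧ (∀ k, ν.f (v k) ≤ H) ∧ ∑ k, v k * c k = 0 := by
  obtain ⟨k0, h4⟩ := Function.ne_iff.1 hP
  obtain ⟨j, hj⟩ := Function.ne_iff.1 fun e : (P k0).coeff = 0 => h4 (ext fun j => congrFun e j)
  obtain ⟨i, hi⟩ := Function.ne_iff.1 fun e : ((P k0).coeff j).coeff = 0 =>
    hj (ext fun i => congrFun e i)
  refine ⟨fun k => (((P k).coeff j).coeff i : ℤ), fun e => hi ?_, fun k => (ν.intCast_le _).trans
    ((nZ.coeff2_le _ i j).trans (hH k)), hσ ?_⟩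
  · have := congrArg σ (congrFun e k0)
    simpa using this
  · have := congrArg (fun W : ℂ[X][X] => (W.coeff j).coeff i) h
    simpa [cmb, finsetSum_coeff, mul_comm] using this

end Pool.Agent.P.MP_68214b_ag.DS
end

-- part Pool.Agent.P.MP_68214b_ag.DST16a
section

open Polynomial Filter Asymptotics NumberField Topology

namespace Pool.Agent.P.MP_68214b_ag.DS

theorem LV.inj {R : Type*} [CommRing R] {ν : Sn R} {σ : R →+* ℂ} {r : ℕ} (h : LV ν σ r) :
    Function.Injective σ := by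
  refine (injective_iff_map_eq_zero σ).2 fun a ha => by_contra fun c => ?_
  have := h.liou a c
  rw [ha, norm_zero, zero_mul] at this
  exact absurd this (by norm_num)

theorem dst16a_hat {R : Type*} [CommRing R] (φ : R →+* ℂ) {G W u v : R[X][X]} {p : R[X]}
    (e : G * u + W * v = C p) {y : ℂ} {η : PowerSeries ℂ} (h0 : hat y η (map2 φ G) = 0) :
    hat y η (map2 φ W) * hat y η (map2 φ v) = (taylor y (p.map φ) : ℂ[X]) := by
  have h1 := congrArg (fun Z => hat y η (map2 φ Z)) e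
  simp only [map_add, map_mul, h0, zero_mul, zero_add] at h1
  rw [h1, ← hat_C y η]
  congr 1
  simp

theorem dvd_of_hat0 {K : Type*} [Field K] (σ : K →+* ℂ) {G W : K[X][X]} (hG : Prime G)
    (hd : 0 < G.natDegree) {y : ℂ} {η : PowerSeries ℂ} (h0 : hat y η (map2 σ G) = 0)
    (h : hat y η (map2 σ W) = 0) : G ∣ W := by
  by_contra c
  obtain ⟨u, v, p, hp, e⟩ := exists_comb hG hd c
  have h1 := dst16a_hat σ e h0
  rw [h, zero_mul, eq_comm, Polynomial.coe_eq_zero_iff, taylor_eq_zero,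
    Polynomial.map_eq_zero_iff σ.injective] at h1
  exact hp h1

theorem res_bound {R K : Type*} [CommRing R] [Field K] {ν : Sn R} {ι : R →+* K} {σ : K →+* ℂ}
    {r : ℕ} (hL : LV ν (σ.comp ι) r) {G W : R[X][X]} (hG : Prime (map2 ι G)) (hd : 0 < G.natDegree)
    {y : ℂ} {η : PowerSeries ℂ} (h0 : hat y η (map2 (σ.comp ι) G) = 0)
    (hW : hat y η (map2 (σ.comp ι) W) ≠ 0) {μ n : ℕ} (hμ : hat y η (map2 (σ.comp ι) W) ∈ sI ^ μ)
    (hn : W.natDegree ≤ n) : ‖y‖ ^ μ ≤ (ν.l2.f G ^ n * ν.l2.f W ^ G.natDegree) ^ (r + 1) := by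
  have hφ := hL.inj
  have hι : Function.Injective ι := Function.Injective.of_comp (f := σ) hφ
  have hd' : (map2 ι G).natDegree = G.natDegree :=
    natDegree_map_eq_of_injective (map_injective ι hι) _
  have hnd : ¬ map2 ι G ∣ map2 ι W := by
    rintro ⟨V, hV⟩
    refine hW ?_
    rw [← map2_map2, hV, map_mul, map2_map2, map_mul, h0, zero_mul]
  have hR := res1' hG hnd (n := n) (natDegree_map_le.trans hn)
  rw [hd'] at hR
  have hR0 : resultant G W G.natDegree n ≠ 0 := fun c => hR <|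
    (resultant_map_map G W G.natDegree n (mapRingHom ι)).trans (by rw [c, map_zero])
  obtain ⟨u, v, -, -, e⟩ := exists_mul_add_mul_eq_C_resultant G W le_rfl hn (Or.inl hd.ne')
  have hB := ν.l1.res_le G W G.natDegree n
  generalize resultant G W G.natDegree n = p at hR0 e hB
  have h1 := lemU (dvd_of_hat (dst16a_hat (σ.comp ι) e h0 ▸ Ideal.mul_mem_right _ _ hμ))
  rw [leadingCoeff_map_of_injective hφ] at h1
  have h2 := (h1.trans (ν.l1_map nC (σ.comp ι) hL.le p)).trans hB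
  have h3 := hL.liou _ (leadingCoeff_ne_zero.2 hR0)
  have h4 : ν.f p.leadingCoeff ^ r ≤ (ν.l2.f G ^ n * ν.l2.f W ^ G.natDegree) ^ r :=
    pow_le_pow_left₀ (ν.nonneg _) ((ν.coeff_le p _).trans hB) r
  have h5 : 0 ≤ ‖y‖ ^ μ := by positivity
  calc ‖y‖ ^ μ ≤ ‖y‖ ^ μ * (‖(σ.comp ι) p.leadingCoeff‖ * ν.f p.leadingCoeff ^ r) :=
        le_mul_of_one_le_right h5 h3
    _ = ν.f p.leadingCoeff ^ r * (‖y‖ ^ μ * ‖(σ.comp ι) p.leadingCoeff‖) := by ring
    _ ≤ _ := by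
      rw [pow_succ]
      exact mul_le_mul h4 h2 (by positivity) ((pow_nonneg (ν.nonneg _) r).trans h4)

theorem smooth_far {K : Type*} [Field K] [CharZero K] (σ : K →+* ℂ) {G : K[X][X]} (hG : Prime G)
    (hd : 0 < G.natDegree) : ∃ c : ℝ, ∀ y1 y2 : K, G.evalEval y1 y2 = 0 → c < ‖σ y1‖ →
      (derivative G).evalEval y1 y2 ≠ 0 := by
  classical
  obtain ⟨u, v, p, hp, e⟩ := exists_comb hG hd (not_dvd_derivative hd)
  obtain ⟨c, hc⟩ := ((p.roots.toFinset.finite_toSet).image fun z => ‖σ z‖).bddAbove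
  refine ⟨c, fun y1 y2 h0 hy h1 => hy.not_ge (hc ⟨y1, ?_, rfl⟩)⟩
  have h2 := congrArg (evalEval y1 y2) e
  rw [evalEval_add, evalEval_mul, evalEval_mul, h0, h1, evalEval_C, zero_mul, zero_mul,
    add_zero] at h2
  simpa [hp] using h2.symm

end Pool.Agent.P.MP_68214b_ag.DS
end

-- part Pool.Agent.P.MP_68214b_ag.DST18c
section

open Polynomial Filter Asymptotics NumberField Topology

namespace Pool.Agent.P.MP_68214b_ag.DS

variable {K F : Type} [Field K] [NumberField K] [Field F] [NumberField F] [Algebra K F]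

theorem TS.dense (S : TS K F) {L Th D0 : ℕ} (hp : S.Par L Th D0)
    (h : ∀ G : ℤ[X][X], G ≠ 0 → ∀ᶠ m in S.𝓕, ev2 zc (S.σO (S.y1 m)) (S.σO (S.y2 m)) G ≠ 0) :
    S.deg ≤ D0 := by
  by_contra hlt
  have := S.ne
  have h0 := hp.D0_pos
  have hT := hp.hT
  have hTh := hp.Th1
  obtain ⟨c, hc, hk⟩ := S.key hp
  obtain ⟨𝓔, c3, D1, hf, hz, hn⟩ := nvd (Fin (D0 + 1) × Fin (D0 + 1)) c hc (T := S.T) (by omega)
  have h1 : ∀ᶠ m in S.𝓕, ∀ G ∈ 𝓔, ev2 zc (S.σO (S.y1 m)) (S.σO (S.y2 m)) G ≠ 0 :=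
    (eventually_all_finite hf).2 fun G hG => h G (hz G hG)
  obtain ⟨m, a1, a2, a3, a4⟩ := (hk.and (h1.and ((S.big.eventually (eventually_gt_atTop c3)).and
    ((S.endB h0 (not_le.1 hlt) hc).filter_mono S.le)))).exists
  obtain ⟨m', b1, b2, -, b3⟩ := (a1.and (a4.and (S.ev_D h0 (D1 + S.T) m))).exists
  have hcnt : Cnt (Module.finrank ℚ F) (Th + 2 * (S.a + S.b)) S.T D0 (D0 * S.d ^ (m' - m))
      (D0 * S.d ^ (m' - m)) := by
    refine cnt1 (r := Module.finrank ℚ K) (L := L) (hp.hF.trans (Nat.mul_le_mul_left _ hp.hL))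
      (by omega) (by omega) (by omega) (le_trans ?_ hp.hD0)
    exact Nat.mul_le_mul_right _ (Nat.mul_le_mul (Nat.mul_le_mul_right _ (by norm_num))
      (Nat.le_succ L))
  obtain ⟨P, hP, hB, hI⟩ := b1 _ _ rfl le_rfl hcnt
  refine hn _ (by omega) P _ _ _ hB (fun hQ => ?_) a2 a3 hI
  have e : mon D0 (S.σO (S.y1 m')) (S.σO (S.y2 m')) =
      fun k => S.σO (mon D0 (S.y1 m') (S.y2 m') k) := funext fun k => by simp [mon]
  rw [e] at hQ
  obtain ⟨v, v0, v1, v2⟩ := small_v0 (nR K S.M) S.σO S.lv.inj P hP _ (fun k => (hB k).2) hQ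
  exact b2 v v0 v1 v2

end Pool.Agent.P.MP_68214b_ag.DS
end

-- part Pool.Agent.P.MP_68214b_ag.DST16b
section

open Polynomial Filter Asymptotics NumberField Topology

namespace Pool.Agent.P.MP_68214b_ag.DS

theorem dst16b_num {γ c : ℝ} (hγ : 1 ≤ γ) (hc : 1 ≤ c) {n s E D : ℕ} (hn : n ≤ s) (hD : 1 ≤ D) :
    (n * (γ * ((D + D + n * (E + E) + 1 : ℕ) : ℝ)) ^ n * c ^ D) ^ n ≤
      (((s + 1) * (γ * (2 * (2 * s * E + 3))) ^ s * c) ^ s) ^ D := by
  have hD0 : D ≠ 0 := by omega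
  have hs : (0 : ℝ) ≤ s := Nat.cast_nonneg s
  have hE : (0 : ℝ) ≤ E := Nat.cast_nonneg E
  have hsE : (0 : ℝ) ≤ s * E := mul_nonneg hs hE
  have hb : (1 : ℝ) ≤ 2 * s * E + 3 := by nlinarith
  have h1 : ((D + D + n * (E + E) + 1 : ℕ) : ℝ) ≤ (2 * (2 * s * E + 3)) ^ D := by
    have h2 : D + D + n * (E + E) + 1 ≤ 2 ^ D * (2 * s * E + 3) := by
      have h3 : D ≤ 2 ^ D := Nat.lt_two_pow_self.le
      have h4 : n * (E + E) ≤ 2 * s * E := by nlinarith
      have h5 : 2 * s * E ≤ 2 ^ D * (2 * s * E) := Nat.le_mul_of_pos_left _ (by positivity)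
      have h6 : 2 ^ D * (2 * s * E + 3) = 2 ^ D * (2 * s * E) + 3 * 2 ^ D := by ring
      omega
    rw [mul_pow]
    calc ((D + D + n * (E + E) + 1 : ℕ) : ℝ) ≤ ((2 ^ D * (2 * s * E + 3) : ℕ) : ℝ) := by
          exact_mod_cast h2
      _ = 2 ^ D * (2 * s * E + 3) := by push_cast; ring
      _ ≤ _ := mul_le_mul_of_nonneg_left (le_self_pow₀ hb hD0) (by positivity)
  have hw : (1 : ℝ) ≤ γ * (2 * (2 * s * E + 3)) := by nlinarith
  have h2 : γ * ((D + D + n * (E + E) + 1 : ℕ) : ℝ) ≤ (γ * (2 * (2 * s * E + 3))) ^ D := by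
    rw [mul_pow]
    exact mul_le_mul (le_self_pow₀ hγ hD0) h1 (by positivity) (by positivity)
  have h3 : (γ * ((D + D + n * (E + E) + 1 : ℕ) : ℝ)) ^ n ≤
      ((γ * (2 * (2 * s * E + 3))) ^ s) ^ D := by
    rw [← pow_mul, mul_comm s D, pow_mul]
    exact (pow_le_pow_left₀ (by positivity) h2 n).trans
      (pow_le_pow_right₀ (one_le_pow₀ hw) hn)
  have h4 : (n : ℝ) ≤ (s + 1) ^ D := by
    have : (n : ℝ) ≤ s := by exact_mod_cast hn
    exact (by linarith : (n : ℝ) ≤ s + 1).trans (le_self_pow₀ (by linarith) hD0)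
  have h5 : n * (γ * ((D + D + n * (E + E) + 1 : ℕ) : ℝ)) ^ n * c ^ D ≤
      ((s + 1) * (γ * (2 * (2 * s * E + 3))) ^ s * c) ^ D := by
    rw [mul_pow _ c, mul_pow ((s : ℝ) + 1)]
    exact mul_le_mul_of_nonneg_right (mul_le_mul h4 h3 (by positivity) (by positivity))
      (by positivity)
  have hu : (1 : ℝ) ≤ (s + 1) * (γ * (2 * (2 * s * E + 3))) ^ s * c :=
    one_le_mul_of_one_le_of_one_le
      (one_le_mul_of_one_le_of_one_le (by linarith) (one_le_pow₀ hw)) hc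
  rw [← pow_mul, mul_comm s D, pow_mul]
  exact (pow_le_pow_left₀ (by positivity) h5 n).trans (pow_le_pow_right₀ (one_le_pow₀ hu) hn)

theorem nvc_wr {R K : Type*} [CommRing R] [Field K] {ν : Sn R} {ι : R →+* K} {σ : K →+* ℂ} {r : ℕ}
    (hL : LV ν (σ.comp ι) r) {G : R[X][X]} (hG : Prime (map2 ι G)) (hd : 0 < G.natDegree)
    (κ : Type*) [Fintype κ] (c : ℝ) (hc : 1 ≤ c) : ∃ c4 : ℝ, 1 ≤ c4 ∧ ∀ D ≥ 1,
      ∀ (P : κ → R[X][X]) (v : κ → ℂ) (y : ℂ) (η : PowerSeries ℂ) (μ : ℕ),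
        (∀ k, Bd (P k) D D ∧ ν.l2.f (P k) ≤ c ^ D) → hat y η (map2 (σ.comp ι) G) = 0 →
        hat y η (derivative (map2 (σ.comp ι) G)) ≠ 0 → hat y η (cmb (σ.comp ι) P v) ≠ 0 →
        hat y η (cmb (σ.comp ι) P v) ∈ sI ^ μ → ‖y‖ ^ (μ - Fintype.card κ) ≤ c4 ^ D := by
  obtain ⟨E, hE⟩ := exists_bd G
  obtain ⟨γ, hγ, hγ0, hγ1, hγ2⟩ : ∃ γ : ℝ, 1 ≤ γ ∧ ν.l2.f G ≤ γ ∧ ν.l2.f (derivative G) ≤ γ ∧
      ν.l2.f (-dX G) ≤ γ :=
    ⟨max (max 1 (ν.l2.f G)) (max (ν.l2.f (derivative G)) (ν.l2.f (-dX G))),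
      (le_max_left _ _).trans (le_max_left _ _), (le_max_right _ _).trans (le_max_left _ _),
      (le_max_left _ _).trans (le_max_right _ _), (le_max_right _ _).trans (le_max_right _ _)⟩
  set s := Fintype.card κ with hs
  set u : ℝ := ((s + 1) * (γ * (2 * (2 * s * E + 3))) ^ s * c) ^ s with hu
  have hu1 : 1 ≤ u := by
    have hsE : (0 : ℝ) ≤ s * E := by positivity
    have hs0 : (0 : ℝ) ≤ s := Nat.cast_nonneg s
    have hw : (1 : ℝ) ≤ γ * (2 * (2 * s * E + 3)) := by nlinarith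
    exact one_le_pow₀ (one_le_mul_of_one_le_of_one_le
      (one_le_mul_of_one_le_of_one_le (by linarith) (one_le_pow₀ hw)) hc)
  refine ⟨(γ ^ (s * (1 + s * E)) * u ^ G.natDegree) ^ (r + 1),
    one_le_pow₀ (one_le_mul_of_one_le_of_one_le (one_le_pow₀ hγ) (one_le_pow₀ hu1)), ?_⟩
  intro D hD P v y η μ hP h0 h1 h2 h3
  have hq : hat y η (cmb (σ.comp ι) P v) = ∑ k, v k • hat y η (map2 (σ.comp ι) (P k)) := by
    rw [cmb_eq, map_sum]
    exact Finset.sum_congr rfl fun k _ => hat_smul _ _ _ _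
  rw [hq] at h2 h3
  obtain ⟨n, e, l, hn, hl, hli, hsum⟩ :=
    basis_pick (fun k => hat y η (map2 (σ.comp ι) (P k))) v h2
  have hW : hat y η (map2 (σ.comp ι) (wr (der (derivative G) (-dX G)) fun i => P (e i))) =
      wr (fun f => hat y η (derivative (map2 (σ.comp ι) G)) * PowerSeries.derivative ℂ f)
        fun i => hat y η (map2 (σ.comp ι) (P (e i))) := by
    refine wr_map ((hat y η).comp (map2 (σ.comp ι))) (fun W => ?_) _
    rw [RingHom.comp_apply, RingHom.comp_apply, map2_der, map2_derivative, map_neg, map2_dX,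
      hat_der_curve h0]
  have hW0 := wr_ne h1 _ hli
  have hW1 := wrm (isDer_ps (hat y η (derivative (map2 (σ.comp ι) G))))
    (fun c => by
      rw [Derivation.map_algebraMap, mul_zero]) sI
    (fun i => hat y η (map2 (σ.comp ι) (P (e i)))) l hl (μ := μ) (by rw [hsum]; exact h3)
  rw [← hW] at hW0 hW1
  have hW2 := Ideal.pow_le_pow_right (I := sI) (Nat.sub_le_sub_left hn μ) hW1
  obtain ⟨hb1, hb2⟩ := wr_bound ν hE.derivative hE.dX.neg hγ hγ1 hγ2 (fun i => P (e i))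
    (one_le_pow₀ hc) fun i => hP (e i)
  have hN : n * (D + n * E) ≤ s * (1 + s * E) * D := by
    have h4 : n * E ≤ s * E * D :=
      (Nat.mul_le_mul_right E hn).trans (Nat.le_mul_of_pos_right _ hD)
    calc n * (D + n * E) ≤ s * (D + s * E * D) := Nat.mul_le_mul hn (by omega)
      _ = _ := by ring
  refine (res_bound hL hG hd h0 hW0 hW2 (hb1.2.trans hN)).trans ?_
  rw [← pow_mul _ (r + 1) D, mul_comm (r + 1) D, pow_mul _ D (r + 1)]
  refine pow_le_pow_left₀ (mul_nonneg (pow_nonneg (ν.l2.nonneg _) _)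
    (pow_nonneg (ν.l2.nonneg _) _)) ?_ _
  rw [mul_pow, ← pow_mul γ, ← pow_mul u, mul_comm G.natDegree D, pow_mul u]
  exact mul_le_mul (pow_le_pow_left₀ (ν.l2.nonneg _) hγ0 _)
    (pow_le_pow_left₀ (ν.l2.nonneg _) (hb2.trans (dst16b_num hγ hc hn hD)) _)
    (pow_nonneg (ν.l2.nonneg _) _) (by positivity)

end Pool.Agent.P.MP_68214b_ag.DS
end

-- part Pool.Agent.P.MP_68214b_ag.DST14h
section

open Polynomial Filter Asymptotics NumberField Topology

namespace Pool.Agent.P.MP_68214b_ag.DS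

theorem dst14h_step (g : (PowerSeries ℂ)[X]) (n : ℕ) (p : PowerSeries ℂ)
    (h1 : PowerSeries.constantCoeff ((derivative g).eval p) ≠ 0)
    (h0 : PowerSeries.X ^ (n + 1) ∣ g.eval p) :
    ∃ q, PowerSeries.X ^ (n + 2) ∣ g.eval q ∧ PowerSeries.X ^ (n + 1) ∣ q - p := by
  obtain ⟨a, ha⟩ := h0
  set b := (derivative g).eval p with hb
  set c : PowerSeries ℂ :=
    PowerSeries.C (-(PowerSeries.constantCoeff a) / PowerSeries.constantCoeff b) with hc
  refine ⟨p + c * PowerSeries.X ^ (n + 1), ?_, ⟨c, by ring⟩⟩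
  obtain ⟨k, hk⟩ := g.binomExpansion p (c * PowerSeries.X ^ (n + 1))
  have h2 : PowerSeries.X ∣ a + b * c := by
    rw [PowerSeries.X_dvd_iff, map_add, map_mul, hc, PowerSeries.constantCoeff_C]
    field_simp
    ring
  obtain ⟨e, he⟩ := h2
  refine ⟨e + k * c ^ 2 * PowerSeries.X ^ n, ?_⟩
  rw [hk, ha, ← hb]
  linear_combination PowerSeries.X ^ (n + 1) * he

theorem dst14h_root (g : (PowerSeries ℂ)[X]) (y : ℂ)
    (h1 : ∀ p, PowerSeries.constantCoeff p = y →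
      PowerSeries.constantCoeff ((derivative g).eval p) ≠ 0)
    (h0 : PowerSeries.constantCoeff (g.eval (PowerSeries.C y)) = 0) :
    ∃ η : PowerSeries ℂ, PowerSeries.constantCoeff η = y ∧ g.eval η = 0 := by
  have step : ∀ (n : ℕ) (p : PowerSeries ℂ), PowerSeries.constantCoeff p = y ∧
      PowerSeries.X ^ (n + 1) ∣ g.eval p → ∃ q, (PowerSeries.constantCoeff q = y ∧
      PowerSeries.X ^ (n + 1 + 1) ∣ g.eval q) ∧ PowerSeries.X ^ (n + 1) ∣ q - p := by
    intro n p hp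
    obtain ⟨q, hq1, hq2⟩ := dst14h_step g n p (h1 p hp.1) hp.2
    refine ⟨q, ⟨?_, hq1⟩, hq2⟩
    have h3 : PowerSeries.X ∣ q - p := (dvd_pow_self _ (Nat.succ_ne_zero n)).trans hq2
    rw [PowerSeries.X_dvd_iff, map_sub, hp.1, sub_eq_zero] at h3
    exact h3
  choose! s hs using step
  let t : ℕ → PowerSeries ℂ := fun n => Nat.rec (PowerSeries.C y) s n
  have ht : ∀ n, PowerSeries.constantCoeff (t n) = y ∧ PowerSeries.X ^ (n + 1) ∣ g.eval (t n) := by
    intro n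
    induction n with
    | zero =>
      refine ⟨PowerSeries.constantCoeff_C y, ?_⟩
      rw [zero_add, pow_one, PowerSeries.X_dvd_iff]
      exact h0
    | succ n ih => exact (hs n (t n) ih).1
  have hd : ∀ k m, PowerSeries.X ^ (k + 1) ∣ t (k + m) - t k := by
    intro k m
    induction m with
    | zero => simp
    | succ m ih =>
      have h2 : PowerSeries.X ^ (k + m + 1) ∣ t (k + m + 1) - t (k + m) :=
        (hs (k + m) (t (k + m)) (ht _)).2
      have h3 := dvd_add ((pow_dvd_pow _ (by omega : k + 1 ≤ k + m + 1)).trans h2) ih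
      rwa [sub_add_sub_cancel] at h3
  let η : PowerSeries ℂ := PowerSeries.mk fun k => PowerSeries.coeff k (t k)
  have hη : ∀ n, PowerSeries.X ^ (n + 1) ∣ η - t n := by
    intro n
    rw [PowerSeries.X_pow_dvd_iff]
    intro k hk
    obtain ⟨m, rfl⟩ := Nat.exists_eq_add_of_le (Nat.lt_succ_iff.1 hk)
    have h2 := PowerSeries.X_pow_dvd_iff.1 (hd k m) k (Nat.lt_succ_self k)
    rw [map_sub, sub_eq_zero] at h2
    rw [map_sub, PowerSeries.coeff_mk, h2, sub_self]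
  refine ⟨η, ?_, ?_⟩
  · have h2 := hη 0
    rw [zero_add, pow_one, PowerSeries.X_dvd_iff, map_sub, (ht 0).1, sub_eq_zero] at h2
    exact h2
  · ext n
    have h2 := dvd_add ((hη n).trans (sub_dvd_eval_sub η (t n) g)) (ht n).2
    rw [sub_add_cancel] at h2
    rw [PowerSeries.X_pow_dvd_iff.1 h2 n (Nat.lt_succ_self n), map_zero]

theorem hensel {G : ℂ[X][X]} {y1 y2 : ℂ} (h0 : G.evalEval y1 y2 = 0)
    (h1 : (derivative G).evalEval y1 y2 ≠ 0) :
    ∃ η : PowerSeries ℂ, PowerSeries.constantCoeff η = y2 ∧ hat y1 η G = 0 := by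
  have e : ∀ (η : PowerSeries ℂ) (W : ℂ[X][X]), (W.map
      (Polynomial.coeToPowerSeries.ringHom.comp (taylorAlgHom y1 : ℂ[X] →+* ℂ[X]))).eval η =
      hat y1 η W := fun η W => eval_map _ _
  obtain ⟨η, h2, h3⟩ := dst14h_root (G.map
      (Polynomial.coeToPowerSeries.ringHom.comp (taylorAlgHom y1 : ℂ[X] →+* ℂ[X]))) y2
    (fun p hp => by rw [derivative_map, e, hat_c0, hp]; exact h1)
    (by rw [e, hat_c0, PowerSeries.constantCoeff_C]; exact h0)
  exact ⟨η, h2, e η G ▸ h3⟩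

end Pool.Agent.P.MP_68214b_ag.DS
end

-- part Pool.Agent.P.MP_68214b_ag.DST16
section

open Polynomial Filter Asymptotics NumberField Topology

namespace Pool.Agent.P.MP_68214b_ag.DS

theorem dst16_cnt {T D j s : ℕ} (hT : 0 < T) (hj : 2 * T * j ≤ D) (hs : 4 * T * s + 1 ≤ D) :
    D ≤ 4 * T * (D / T + 1 - j - s) := by
  have h1 : D < T * (D / T + 1) := Nat.lt_mul_div_succ D hT
  have h2 : j + s ≤ D / T + 1 := by
    by_contra hlt
    have h3 : T * (D / T + 1) ≤ T * (j + s) := Nat.mul_le_mul_left _ (by omega)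
    have h4 : T * (j + s) = T * j + T * s := by ring
    have h5 : 2 * T * j = 2 * (T * j) := by ring
    have h6 : 4 * T * s = 4 * (T * s) := by ring
    omega
  obtain ⟨m, hm⟩ := Nat.exists_eq_add_of_le h2
  have h3 : D / T + 1 - j - s = m := by omega
  rw [h3]
  rw [hm] at h1
  have h4 : T * (j + s + m) = T * j + T * s + T * m := by ring
  have h5 : 2 * T * j = 2 * (T * j) := by ring
  have h6 : 4 * T * s = 4 * (T * s) := by ring
  have h7 : 4 * T * m = 4 * (T * m) := by ring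
  omega

theorem dst16_ev {R S : Type*} [CommRing R] [CommRing S] (φ : R →+* S) (x y : R) (W : R[X][X]) :
    (map2 φ W).evalEval (φ x) (φ y) = φ (W.evalEval x y) := by
  rw [map_evalEval, ev2_eq]

theorem dst16_hasse {R S : Type*} [CommRing R] [CommRing S] (φ : R →+* S) (j : ℕ) (W : R[X][X]) :
    map2 φ (hasseDeriv j W) = hasseDeriv j (map2 φ W) :=
  map_hasse (mapRingHom φ) j W

theorem nvc {R K : Type*} [CommRing R] [Field K] [CharZero K] {ν : Sn R} {ι : R →+* K}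
    {σ : K →+* ℂ} {r : ℕ} (hL : LV ν (σ.comp ι) r) {G : R[X][X]} (hG : Prime (map2 ι G))
    (hd : 0 < G.natDegree) (κ : Type*) [Fintype κ] (c : ℝ) (hc : 1 ≤ c) {T : ℕ} (hT : 0 < T) :
    ∃ (c2 c3 : ℝ) (D1 : ℕ), 1 ≤ c2 ∧ ∀ D ≥ D1, ∀ (D2 : ℕ) (P : κ → R[X][X]) (v : κ → R) (y1 y2 : R),
      D2 ≤ D → 2 * T * D2 ≤ G.natDegree * D → P ≠ 0 →
      (∀ k, Bd (P k) D D2 ∧ ν.l2.f (P k) ≤ c ^ D) → G.evalEval y1 y2 = 0 → c3 < ‖σ (ι y1)‖ →
      (∃ w : κ → R, w ≠ 0 ∧ (∀ k, ν.f (w k) ≤ c2 ^ D) ∧ ∑ k, w k * v k = 0) ∨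
        cmb (σ.comp ι) P (fun k => σ (ι (v k))) ∉ mI (σ (ι y1)) (σ (ι y2)) ^ (D / T + 1) := by
  have hι : Function.Injective ι := by
    have h := hL.inj
    intro a b hab
    exact h (by simp [hab])
  have hdeg : (map2 ι G).natDegree = G.natDegree :=
    natDegree_map_eq_of_injective (f := mapRingHom ι) (map_injective ι hι) G
  have hd' : 0 < (map2 ι G).natDegree := hdeg ▸ hd
  obtain ⟨c0, hc0⟩ := smooth_far σ hG hd'
  have h2c : (1 : ℝ) ≤ 2 * c := by linarith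
  obtain ⟨c4, hc4, hwr⟩ := nvc_wr hL hG hd κ (2 * c) h2c
  have hγ : (1 : ℝ) ≤ max 1 (ν.l2.f G) := le_max_left _ _
  refine ⟨2 * max 1 (ν.l2.f G) * (2 * c), max c0 (c4 ^ (4 * T)), 4 * T * Fintype.card κ + 1,
    by nlinarith, ?_⟩
  intro D hD D2 P v y1 y2 hD2 hTD hP hB hy hc3
  rw [or_iff_not_imp_right, not_not]
  intro hQ
  have hP' : (fun k => map2 ι (P k)) ≠ 0 := by
    intro h
    apply hP
    funext k
    exact map2_inj hι (by rw [congrFun h k]; simp)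
  obtain ⟨j, hj, k0, hk0⟩ := has_fam hG hd' (fun k => map2 ι (P k)) hP' (D := D2)
    fun k => ((hB k).1.map2 ι).2
  have hj2 : 2 * T * j ≤ D := by
    rw [hdeg] at hj
    have h1 : G.natDegree * (2 * T * j) ≤ G.natDegree * D :=
      calc G.natDegree * (2 * T * j) = 2 * T * (j * G.natDegree) := by ring
        _ ≤ 2 * T * D2 := Nat.mul_le_mul_left _ hj
        _ ≤ _ := hTD
    exact Nat.le_of_mul_le_mul_left h1 hd
  have hB2 : ∀ k, Bd (hasseDeriv j (P k)) D D ∧ ν.l2.f (hasseDeriv j (P k)) ≤ (2 * c) ^ D := by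
    intro k
    refine ⟨((hB k).1.mono le_rfl hD2).hasse j, ?_⟩
    have h1 := ν.l1.l1_hasse ((hB k).1.2.trans hD2) j
    rw [mul_pow]
    exact h1.trans (mul_le_mul_of_nonneg_left (hB k).2 (by positivity))
  have hK0 : (map2 ι G).evalEval (ι y1) (ι y2) = 0 := by rw [dst16_ev, hy, map_zero]
  have hK1 := hc0 (ι y1) (ι y2) hK0 ((le_max_left _ _).trans_lt hc3)
  have hC0 : (map2 (σ.comp ι) G).evalEval (σ (ι y1)) (σ (ι y2)) = 0 := by
    rw [← map2_map2, dst16_ev, hK0, map_zero]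
  have hC1 : (derivative (map2 (σ.comp ι) G)).evalEval (σ (ι y1)) (σ (ι y2)) ≠ 0 := by
    rw [← map2_map2, ← map2_derivative, dst16_ev]
    exact (map_ne_zero σ).2 hK1
  obtain ⟨η, hη, hη0⟩ := hensel hC0 hC1
  have hη1 : hat (σ (ι y1)) η (derivative (map2 (σ.comp ι) G)) ≠ 0 := by
    intro h
    apply hC1
    rw [← hη, ← hat_c0, h, map_zero]
  have hQ2 := van_hasse hQ j
  rw [hasse_cmb] at hQ2
  have hQ3 := hat_mI hη hQ2
  by_cases h0 : hat (σ (ι y1)) η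
      (cmb (σ.comp ι) (fun k => hasseDeriv j (P k)) fun k => σ (ι (v k))) = 0
  · have h1 : map2 σ (map2 ι (cmb (RingHom.id R) (fun k => hasseDeriv j (P k)) v)) =
        cmb (σ.comp ι) (fun k => hasseDeriv j (P k)) fun k => σ (ι (v k)) := by
      rw [map2_map2, map2_cmb, RingHom.comp_id]
      rfl
    have h2 := dvd_of_hat0 σ hG hd' (y := σ (ι y1)) (η := η) (by rw [map2_map2]; exact hη0)
      (h1 ▸ h0)
    obtain ⟨w, hw0, hw1, hw2⟩ := small_v ν hι hG hd hγ (le_max_right _ _)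
      (fun k => hasseDeriv j (P k)) v (D := D) (fun k => (hB2 k).1.2) (fun k => (hB2 k).2)
      (k0 := k0) (by rw [dst16_hasse]; exact hk0) h2
    exact ⟨w, hw0, fun k => by rw [mul_pow]; exact hw1 k, hw2⟩
  · exfalso
    have h1 := hwr D (by omega) (fun k => hasseDeriv j (P k)) (fun k => σ (ι (v k))) _ η _ hB2 hη0
      hη1 h0 hQ3
    have h2 := dst16_cnt hT hj2 hD
    have h3 : D / T + 1 - j - Fintype.card κ ≠ 0 := by
      intro h
      rw [h] at h2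
      omega
    have h4 : (c4 ^ (4 * T)) ^ (D / T + 1 - j - Fintype.card κ) <
        ‖σ (ι y1)‖ ^ (D / T + 1 - j - Fintype.card κ) :=
      pow_lt_pow_left₀ ((le_max_right _ _).trans_lt hc3) (by positivity) h3
    rw [← pow_mul] at h4
    exact absurd ((pow_le_pow_right₀ hc4 h2).trans_lt (h4.trans_le h1)) (lt_irrefl _)

end Pool.Agent.P.MP_68214b_ag.DS
end

-- part Pool.Agent.P.MP_68214b_ag.DST18d
section

open Polynomial Filter Asymptotics NumberField Topology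

namespace Pool.Agent.P.MP_68214b_ag.DS

variable {K F : Type} [Field K] [NumberField K] [Field F] [NumberField F] [Algebra K F]

theorem TS.curve (S : TS K F) {L Th D0 : ℕ} (hp : S.Par L Th D0) {G : (RN K S.M)[X][X]}
    (hG : Prime (map2 ((RN K S.M).subtype) G))
    (h : ∀ᶠ m in S.𝓕, G.evalEval (S.y1 m) (S.y2 m) = 0) : S.deg ≤ D0 := by
  by_contra! hdeg
  have := S.ne
  have G0 : G ≠ 0 := fun e => hG.ne_zero (by rw [e, map_zero])
  have dG := S.deg_curve G0 h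
  have hd : 0 < G.natDegree := S.deg_pos.trans_le dG
  have T2 : 2 ≤ S.T := le_trans (Nat.le_add_left _ _) hp.hT
  obtain ⟨c, hc, hk⟩ := S.key hp
  obtain ⟨c2, c3, D1, h2, hn⟩ := nvc (ι := (RN K S.M).subtype) (σ := S.σ) S.lv hG hd
    (Fin (D0 + 1) × Fin (D0 + 1)) c hc (T := S.T) (by omega)
  obtain ⟨m, a1, a2, a3, a4⟩ := (hk.and (h.and ((S.big.eventually_gt_atTop c3).and
    ((S.endB hp.D0_pos hdeg h2).filter_mono S.le)))).exists
  obtain ⟨m', b1, b2, -, b3⟩ := (a1.and (a4.and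
    (S.ev_D hp.D0_pos (max D1 S.T) m))).exists
  obtain ⟨D, hD⟩ : ∃ D, D = D0 * S.d ^ (m' - m) := ⟨_, rfl⟩
  rw [← hD] at b2 b3
  have th : 0 < Th + 2 * (S.a + S.b) := by have := hp.Th1; omega
  have c0 : Cnt (Module.finrank ℚ F) (Th + 2 * (S.a + S.b)) S.T D0 D
      (min D (G.natDegree * D / (2 * S.T))) := by
    rcases min_choice D (G.natDegree * D / (2 * S.T)) with e | e <;> rw [e]
    · refine cnt1 (hp.hF.trans (Nat.mul_le_mul_left _ hp.hL)) T2 (le_of_max_le_right b3) th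
        (le_trans ?_ hp.hD0)
      exact Nat.mul_le_mul_right _ (Nat.mul_le_mul (Nat.mul_le_mul_right _ (by norm_num))
        (Nat.le_succ _))
    · refine cnt2 (hp.hF.trans (Nat.mul_le_mul_left _ dG)) T2 (le_of_max_le_right b3) th
        (le_trans ?_ hp.hD0)
      exact Nat.mul_le_mul_right _ (Nat.le_mul_of_pos_right _ (Nat.succ_pos _))
  obtain ⟨P, P0, hP, hQ⟩ := b1 D _ hD (min_le_left _ _) c0
  have inj : Function.Injective (Int.castRingHom (RN K S.M)) := Int.cast_injective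
  have e : cmb (S.σ.comp ((RN K S.M).subtype)) (fun k => map2 (Int.castRingHom (RN K S.M)) (P k))
      (fun k => S.σ ((RN K S.M).subtype (mon D0 (S.y1 m') (S.y2 m') k))) = S.Q P m' := by
    unfold TS.Q cmb
    refine Finset.sum_congr rfl fun k _ => ?_
    rw [map2_map2, RingHom.ext_int ((S.σ.comp ((RN K S.M).subtype)).comp _) zc]
    simp only [mon, map_mul, map_pow, TS.σO, RingHom.comp_apply]
  have q1 : 2 * S.T * min D (G.natDegree * D / (2 * S.T)) ≤ G.natDegree * D :=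
    (Nat.mul_le_mul_left _ (min_le_right _ _)).trans (Nat.mul_div_le _ _)
  have q2 : (fun k => map2 (Int.castRingHom (RN K S.M)) (P k)) ≠ 0 := fun e =>
    P0 (funext fun k => map2_inj inj ((congrFun e k).trans (map_zero _).symm))
  have q0 : ∀ n : ℤ, (nR K S.M).f (Int.castRingHom (RN K S.M) n) ≤ nZ.f n := fun n => by
    rw [eq_intCast]; exact (nR K S.M).intCast_le n
  have q3 : ∀ k, Bd (map2 (Int.castRingHom (RN K S.M)) (P k)) D (min D (G.natDegree * D / (2 * S.T))) ∧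
      (nR K S.M).l2.f (map2 (Int.castRingHom (RN K S.M)) (P k)) ≤ c ^ D := fun k =>
    ⟨(hP k).1.map2 _, (nZ.l2_map (nR K S.M) _ q0 _).trans (hP k).2⟩
  have q4 := hn D (le_of_max_le_left b3) _ _ (mon D0 (S.y1 m') (S.y2 m')) (S.y1 m) (S.y2 m)
    (min_le_left _ _) q1 q2 q3 a2 a3
  rw [e] at q4
  rcases q4 with ⟨w, w0, w1, w2⟩ | q4
  · exact b2 w w0 w1 w2
  · exact q4 hQ

end Pool.Agent.P.MP_68214b_ag.DS
end

-- part Pool.Agent.P.MP_68214b_ag.DST18
section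

open Polynomial Filter Asymptotics NumberField Topology

namespace Pool.Agent.P.MP_68214b_ag.DS

variable {K F : Type} [Field K] [NumberField K] [Field F] [NumberField F] [Algebra K F]

theorem prime_freq {M : ℕ+} {𝓕 : Filter ℕ} (y1 y2 : ℕ → RN K M) {G : K[X][X]} (hG : G ≠ 0)
    (h : ∃ᶠ m in 𝓕, G.evalEval (y1 m : K) (y2 m : K) = 0) : ∃ G' : (RN K M)[X][X],
      Prime (map2 ((RN K M).subtype) G') ∧ ∃ᶠ m in 𝓕, G'.evalEval (y1 m) (y2 m) = 0 := by
  induction G using UniqueFactorizationMonoid.induction_on_prime with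
  | h₁ => exact absurd rfl hG
  | h₂ G hu =>
    obtain ⟨m, hm⟩ := h.exists
    exact absurd hm (hu.map (evalEvalRingHom (y1 m : K) (y2 m : K))).ne_zero
  | h₃ a p ha hp ih =>
    simp only [evalEval_mul, mul_eq_zero, frequently_or_distrib] at h
    refine h.elim (fun h => ?_) (ih ha)
    obtain ⟨N, G', hN, e⟩ := exists_den3 (M := M) p
    have hu : IsUnit (N : K[X][X]) := by
      have := (Nat.cast_ne_zero.2 hN.ne' : (N : K) ≠ 0).isUnit.map
        ((C : K[X] →+* K[X][X]).comp (C : K →+* K[X]))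
      rwa [map_natCast] at this
    refine ⟨G', e ▸ (associated_unit_mul_right p _ hu).prime hp, h.mono fun m hm => ?_⟩
    refine (RN K M).subtype_injective ?_
    rw [map_evalEval, ev2_eq, e, evalEval_mul, map_zero]
    exact mul_eq_zero_of_right _ hm

theorem TS.tsc (S : TS K F) {L Th D0 : ℕ} (hp : S.Par L Th D0) : S.deg ≤ D0 := by
  by_cases h : ∀ G : ℤ[X][X], G ≠ 0 →
    ∀ᶠ m in S.𝓕, ev2 zc (S.σO (S.y1 m)) (S.σO (S.y2 m)) G ≠ 0
  · exact S.dense hp h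
  obtain ⟨G, h1⟩ := not_forall.1 h
  obtain ⟨h0, h2⟩ := Classical.not_imp.1 h1
  obtain ⟨G', hG, h3⟩ := prime_freq (𝓕 := S.𝓕) S.y1 S.y2 (G := map2 (Int.castRingHom K) G)
    ((map_ne_zero_iff _ (map2_inj Int.cast_injective)).2 h0)
    ((not_eventually.1 h2).mono fun m hm => S.σ.injective (by
      rw [map_evalEval, ev2_map2, map_zero, Subsingleton.elim (S.σ.comp _) zc]
      exact not_not.1 hm))
  exact TS.curve { S with
      𝓕 := S.𝓕 ⊓ 𝓟 {m | G'.evalEval (S.y1 m) (S.y2 m) = 0}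
      ne := frequently_iff_neBot.1 h3
      le := inf_le_left.trans S.le
      apx := S.apx.filter_mono inf_le_left }
    ⟨hp.Th1, hp.hTh, hp.hD0, hp.hT, hp.hF, hp.hL⟩ hG
    (mem_inf_of_right (mem_principal_self _))

end Pool.Agent.P.MP_68214b_ag.DS
end

-- part Pool.Agent.P.MP_68214b_ag.DSP3
section

open Polynomial Filter Asymptotics NumberField Topology

namespace Pool.Agent.P.MP_68214b_ag.DS

variable {K : Type} [Field K] [NumberField K] {d a b : ℕ} {f1 f2 : K[X]} {y1 y2 : ℕ → K}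
  {p1 p2 : PowerSeries K} {τ γ : ℂ}

theorem dsp3_trunc {F L : Type*} [Field F] [Field L] (φ : F →+* L) (T : ℕ) (p : PowerSeries F) :
    (PowerSeries.trunc T p).map φ = PowerSeries.trunc T (PowerSeries.map φ p) := by
  ext k
  simp only [coeff_map, PowerSeries.coeff_trunc, PowerSeries.coeff_map]
  split_ifs <;> simp

theorem ts1 [Algebra K ℂ] (h : Pr (algebraMap K ℂ) d a b f1 f2 y1 y2 p1 p2 τ γ) (L : ℕ) :
    ∃ D0 T0 : ℕ, ∀ T ≥ T0, ∀ β : ℂ, IsIntegral K β → ‖β‖ = 1 → (minpoly K β).natDegree ≤ L * T →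
      Near d τ γ β T → (minpoly K β).natDegree ≤ D0 := by
  obtain ⟨hd, τ0, τ1⟩ := h.tau
  obtain ⟨N, Λ, hN, hΛ, l0, g1, g2⟩ := exists_gr2 h.o1 h.o2 h.d1 h.d2
  set r := Module.finrank ℚ K with hr
  obtain ⟨k, hk⟩ := exists_pow_lt_of_lt_one (x := 1 / 2 / Λ ^ (4 * (3 * r))) (by positivity) τ1
  have hTh : Λ ^ (4 * (3 * r)) * ‖τ‖ ^ (k + 1 - 1) ≤ 1 / 2 := by
    rw [Nat.add_sub_cancel, mul_comm]
    exact (le_div_iff₀ (by positivity)).1 hk.le
  refine ⟨16 * r * (L + 1) * (k + 1 + 2 * (a + b)) ^ 3,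
    (k + 1 + 2 * (a + b)) * (16 * r * (L + 1) * (k + 1 + 2 * (a + b)) ^ 3) + 2,
    fun T hT β hβ β1 hL hE => ?_⟩
  obtain ⟨𝓕, ne, le, a1, a2⟩ := h.as β1 hE
  obtain ⟨C0, c1, hA⟩ := apx_of_as a1 a2
  set F := IntermediateField.adjoin K {β} with hF
  have : FiniteDimensional K F := IntermediateField.adjoin.finiteDimensional hβ
  have : NumberField F := NumberField.of_module_finite K F
  have ec : (F.val : F →+* ℂ).comp (algebraMap K F) = algebraMap K ℂ := by ext x; rfl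
  have em : ∀ p : PowerSeries K, PowerSeries.map (F.val : F →+* ℂ)
      (PowerSeries.map (algebraMap K F) p) = PowerSeries.map (algebraMap K ℂ) p := fun p => by
    ext n; rfl
  obtain ⟨u, eu, -⟩ := h.e1
  obtain ⟨v, ev, -⟩ := h.e2
  have T1 : 1 ≤ T := by omega
  have c0 : ∀ {p : PowerSeries K}, PowerSeries.constantCoeff p = 1 → ∀ {e : ℕ}, 0 < e → ∀ z : F,
      (PowerSeries.trunc T (ser (PowerSeries.map (algebraMap K F) p) e z)).coeff 0 = z :=
    fun {p} hp {e} he z => by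
      rw [PowerSeries.coeff_trunc, if_pos (by omega), coeff_ser _ he, if_pos (dvd_zero _)]
      simp [hp]
  let S : TS K F :=
    { φ := F.val, β := IntermediateField.AdjoinSimple.gen K β, a := a, b := b, d := d, T := T
      τ := τ, Λ := Λ, C0 := C0, M := ⟨N, hN⟩
      y1 := fun m => ⟨_, g1.mem hN m⟩, y2 := fun m => ⟨_, g2.mem hN m⟩
      π1 := PowerSeries.trunc T (ser (PowerSeries.map (algebraMap K F) p1) b 1)
      π2 := PowerSeries.trunc T (ser (PowerSeries.map (algebraMap K F) p2) a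
        (IntermediateField.AdjoinSimple.gen K β))
      𝓕 := 𝓕, N := 1, hN := one_pos, hb := h.hb, hd := hd, T1 := T1, τ0 := τ0, τ1 := τ1, Λ1 := l0
      C1 := c1, hy1 := g1.nR hN hΛ, hy2 := g2.nR hN hΛ
      p1 := by rw [c0 eu.c0 h.hb, Nat.cast_one, one_pow]
      p2 := by rw [c0 ev.c0 h.ha, Nat.cast_one, one_pow, one_mul]
      ne := ne, le := le
      apx := by
        rw [dsp3_trunc, dsp3_trunc, ser_map _ _ h.hb, ser_map _ _ h.ha, em, em, map_one]
        exact hA }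
  have e : S.deg = (minpoly K β).natDegree :=
    congrArg natDegree (IntermediateField.minpoly_gen K β)
  rw [← e]
  refine S.tsc (L := L) (Th := k + 1) ⟨by omega, hTh, le_rfl, hT, ?_, e ▸ hL⟩
  rw [e, ← IntermediateField.adjoin.finrank hβ, Module.finrank_mul_finrank]

end Pool.Agent.P.MP_68214b_ag.DS
end

-- part Pool.Agent.P.MP_68214b_ag.DSP7
section

open Polynomial Filter Asymptotics NumberField Topology

namespace Pool.Agent.P.MP_68214b_ag.DS

variable {K : Type} [Field K] [NumberField K]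

theorem pt {σ : K →+* ℂ} {d a b : ℕ} {f1 f2 : K[X]} {y1 y2 : ℕ → K} {p1 p2 : PowerSeries K}
    {u v β0 : ℂ} (o1 : Orb f1 y1) (o2 : Orb f2 y2) (d1 : f1.natDegree = d) (d2 : f2.natDegree = d)
    (b1 : Bott f1 p1) (b2 : Bott f2 p2) (e1 : Esc σ d y1 p1 u) (e2 : Esc σ d y2 p2 v) (ha : 0 < a)
    (hb : 0 < b) (hβ : β0 ≠ 0) (hal : IsAlgebraic ℚ β0) {C lam : ℝ} (h0 : 0 ≤ lam) (h1 : lam < 1)
    (h : ∃ᶠ n in atTop, ‖(u ^ a) ^ d ^ n / (v ^ b) ^ d ^ n - β0‖ ≤ C * lam ^ d ^ n) :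
    Dep y1 y2 := by
  let := σ.toAlgebra
  have hd : 2 ≤ d := d1 ▸ o1.deg
  obtain ⟨τ, γ, t1, t2, g1, n0, h2⟩ := pt0 e1.one_lt e2.one_lt hb hd hβ h0 h1 h
  have hP : Pr (algebraMap K ℂ) d a b f1 f2 y1 y2 p1 p2 τ γ :=
    ⟨o1, o2, d1, d2, b1, b2, ha, hb, ⟨u, e1, t1⟩, ⟨v, e2, t2⟩, g1⟩
  obtain ⟨-, τ0, τ1⟩ := hP.tau
  obtain ⟨e, he, h3⟩ := pt1 τ0 g1 hb hd h0 h1 h2
  have ha1 : IsAlgebraic ℚ β0⁻¹ := hal.inv
  obtain ⟨D0, T0, h4⟩ := ts1 hP (2 * e * b * (minpoly ℚ β0⁻¹).natDegree)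
  have h5 : ∀ᶠ k in atTop, max 1 T0 * e ≤ d ^ k :=
    (tendsto_pow_atTop_atTop_of_one_lt (by omega : 1 < d)).eventually_ge_atTop _
  obtain ⟨β, ⟨N, hN, hβN⟩, h6⟩ := pick τ1.le (inv_ne_zero hβ) hb hd he
    (north ha1 (Module.finrank ℚ K * D0)) (h5.mono fun k hk => by
      obtain ⟨β, c1, c2⟩ := h3 k
      have hp : 0 < b * d ^ k := by positivity
      obtain ⟨r1, r2, r3⟩ := deg_root (K := K) ha1 hp c1
      have hq : max 1 T0 ≤ d ^ k / e := (Nat.le_div_iff_mul_le he).2 hk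
      have hn : ‖β‖ = 1 := by
        have := congrArg norm c1
        rw [norm_pow, norm_inv, n0, inv_one] at this
        exact (pow_eq_one_iff_of_nonneg (norm_nonneg _) hp.ne').1 this
      have hk2 : d ^ k ≤ 2 * e * (d ^ k / e) := by
        have q1 := Nat.div_add_mod (d ^ k) e
        have q2 := Nat.mod_lt (d ^ k) he
        have q3 : e * 1 ≤ e * (d ^ k / e) := Nat.mul_le_mul_left e ((le_max_left _ _).trans hq)
        rw [mul_assoc, two_mul]
        omega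
      refine ⟨β, ⟨⟨_, hp, c1⟩, r3.trans (Nat.mul_le_mul_left _ ?_)⟩, c1, c2⟩
      refine h4 _ ((le_max_right _ _).trans hq) β r1 hn (r2.trans ?_) c2
      calc b * d ^ k * (minpoly ℚ β0⁻¹).natDegree
          ≤ b * (2 * e * (d ^ k / e)) * (minpoly ℚ β0⁻¹).natDegree := by gcongr
        _ = _ := by ring)
  exact stage2 hP hN hβN h6

end Pool.Agent.P.MP_68214b_ag.DS
end

-- part Pool.Agent.P.MP_68214b_ag.DSC2
section

open Polynomial Filter Asymptotics NumberField Topology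

namespace Pool.Agent.P.MP_68214b_ag.DS

variable {K : Type} [Field K] [NumberField K]

theorem dsc2_opt (hK : Cj K) (σ : K →+* ℂ) {ι : Type*} (s : Finset ι) {f : ι → K[X]}
    {x : ι → ℕ → K} {𝓕 : Filter ℕ} [𝓕.NeBot] (hF : 𝓕 ≤ atTop) {d : ℕ} (hd : 2 ≤ d) (r : ι → ℕ → ℂ)
    (hs : (fun n => ∑ b ∈ s, r b n) =O[𝓕] fun _ => (1 : ℝ))
    (hc : ∀ b ∈ s, ¬ Sml 𝓕 d (r b) → Orb (f b) (x b) ∧ BigC σ 𝓕 d (f b) (x b) (r b))
    (hn : ∀ b ∈ s, ∀ b' ∈ s, ¬ Sml 𝓕 d (r b) → ¬ Sml 𝓕 d (r b') → b ≠ b' → ¬ Dep (x b) (x b'))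
    (h4 : ∀ t ⊆ s, (∀ b ∈ t, ¬ Sml 𝓕 d (r b)) → 4 ≤ t.card → ∃ b ∈ t, NSa (f b)) :
    ∀ b ∈ s, Sml 𝓕 d (r b) := by
  classical
  by_contra! hcon
  set B := s.filter fun b => ¬ Sml 𝓕 d (r b) with hB
  have hBm : ∀ b ∈ B, b ∈ s ∧ ¬ Sml 𝓕 d (r b) := fun b hb => Finset.mem_filter.1 hb
  have hex : ∀ b, ∃ (p : PowerSeries K) (u z α : ℂ) (A E : ℕ), b ∈ B → Bott (f b) p ∧
      Esc σ d (x b) p u ∧ 0 < A ∧ z ^ A = u ∧ IsAlgebraic ℚ α ∧ Big 𝓕 d (r b) α z E := fun b => by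
    by_cases hb : b ∈ B
    · obtain ⟨-, -, p, u, z, α, A, E, h⟩ := hc b (hBm b hb).1 (hBm b hb).2
      exact ⟨p, u, z, α, A, E, fun _ => h⟩
    · exact ⟨0, 0, 0, 0, 0, 0, fun h => absurd h hb⟩
  choose p u z α A E hd' using hex
  obtain ⟨T, ρ, lam, hT, h2, hρ, l0, l1, hz, hO⟩ := fin_top s hF hd r hs B (Finset.filter_subset _ _)
    (by obtain ⟨b, hb, h⟩ := hcon; exact ⟨b, Finset.mem_filter.2 ⟨hb, h⟩⟩) α z E
    (fun b hb => (hd' b hb).2.2.2.2.2)
    fun b hb hb' => by_contra fun h => hb' (Finset.mem_filter.2 ⟨hb, h⟩)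
  have orb : ∀ b ∈ T, Orb (f b) (x b) := fun b hb => (hc b (hBm b (hT hb)).1 (hBm b (hT hb)).2).1
  have dg : ∀ b ∈ T, (f b).natDegree = d := fun b hb =>
    (hc b (hBm b (hT hb)).1 (hBm b (hT hb)).2).2.1
  have esc : ∀ b ∈ T, Esc σ d (x b) (p b) (u b) := fun b hb => (hd' b (hT hb)).2.1
  have big : ∀ b ∈ T, Big 𝓕 d (r b) (α b) (z b) (E b) := fun b hb => (hd' b (hT hb)).2.2.2.2.2
  have alg : ∀ b ∈ T, IsAlgebraic ℚ (α b) := fun b hb => (hd' b (hT hb)).2.2.2.2.1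
  have A0 : ∀ b ∈ T, 0 < A b := fun b hb => (hd' b (hT hb)).2.2.1
  have zA : ∀ b ∈ T, z b ^ A b = u b := fun b hb => (hd' b (hT hb)).2.2.2.1
  have nd : ∀ b ∈ T, ∀ b' ∈ T, b ≠ b' → ¬ Dep (x b) (x b') := fun b hb b' hb' =>
    hn b (hBm b (hT hb)).1 b' (hBm b' (hT hb')).1 (hBm b (hT hb)).2 (hBm b' (hT hb')).2
  have nr : ∀ b ∈ T, ∀ b' ∈ T, b ≠ b' → ¬ Rel (u b) (u b') := fun b hb b' hb' h hr =>
    nd b hb b' hb' h (dep_of_rel (orb b hb) (orb b' hb') (dg b hb) (dg b' hb') (esc b hb)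
      (esc b' hb') hr)
  have pw : ∀ b ∈ T, ∀ k, (z b ^ E b) ^ (A b * k) = u b ^ (E b * k) := fun b hb k => by
    rw [← zA b hb, ← pow_mul, ← pow_mul]; congr 1; ring
  have nz : ∀ b ∈ T, ‖z b ^ E b‖ = ρ := fun b hb => by rw [norm_pow, hz b hb]
  have fin : ∀ b ∈ T, ∀ b' ∈ T, b ≠ b' → ∀ (β : ℂ) (C l : ℝ), β ≠ 0 → IsAlgebraic ℚ β → 0 ≤ l →
      l < 1 → ¬ ∃ᶠ n in 𝓕, ‖((z b ^ E b) ^ (A b * A b')) ^ d ^ n /
        ((z b' ^ E b') ^ (A b * A b')) ^ d ^ n - β‖ ≤ C * l ^ d ^ n := by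
    intro b hb b' hb' hne β C l β0 hβ l0 l1 hf
    rw [pw b hb, mul_comm (A b), pw b' hb'] at hf
    exact nd b hb b' hb' hne (pt (orb b hb) (orb b' hb') (dg b hb) (dg b' hb') (hd' b (hT hb)).1
      (hd' b' (hT hb')).1 (esc b hb) (esc b' hb') (mul_pos (big b hb).e1 (A0 b' hb'))
      (mul_pos (big b' hb').e1 (A0 b hb)) β0 hβ l0 l1 (hf.filter_mono hF))
  rcases h2.eq_or_lt with h2 | h3
  · obtain ⟨b, b', hne, rfl⟩ := Finset.card_eq_two.1 h2.symm
    have hb : b ∈ ({b, b'} : Finset ι) := by simp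
    have hb' : b' ∈ ({b, b'} : Finset ι) := by simp
    simp only [Finset.sum_pair hne] at hO
    obtain ⟨C, hC⟩ := pair_near hρ l0 l1 (nz b hb) (nz b' hb') (big b hb).a0 hO (A b * A b')
    exact fin b hb b' hb' hne _ C lam
      (pow_ne_zero _ (div_ne_zero (neg_ne_zero.2 (big b' hb').a0) (big b hb).a0))
      (((alg b' hb').neg.mul (alg b hb).inv).pow _) l0 l1 hC.frequently
  rcases (Nat.succ_le_of_lt h3).eq_or_lt with h3 | h5
  · obtain ⟨b, b', b'', n1, n2, n3, rfl⟩ := Finset.card_eq_three.1 h3.symm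
    have hb : b ∈ ({b, b', b''} : Finset ι) := by simp
    have hb' : b' ∈ ({b, b', b''} : Finset ι) := by simp
    have hb'' : b'' ∈ ({b, b', b''} : Finset ι) := by simp
    simp only [Finset.sum_insert (show b ∉ ({b', b''} : Finset ι) by simp [n1, n2]),
      Finset.sum_pair n3] at hO
    obtain ⟨β, C, l, β0, hβ, k0, k1, hf⟩ := triple_near hF hd hρ l0 l1 (nz b hb) (nz b' hb')
      (nz b'' hb'') (big b hb).a0 (big b' hb').a0 (alg b hb) (alg b' hb') (alg b'' hb'') hO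
      (A b * A b')
    exact fin b hb b' hb' n1 β C l β0 hβ k0 k1 hf
  obtain ⟨b, hb, hN⟩ := h4 T (hT.trans (Finset.filter_subset _ _)) (fun b hb => (hBm b (hT hb)).2) h5
  have cj : ∀ b' ∈ T, b' ≠ b → Rel (u b) ((starRingEnd ℂ) (u b')) := fun b' hb' hne => by
    refine (conj_rel hK (orb b hb) (orb b' hb') (Or.inl hN) (dg b hb) (dg b' hb') (esc b hb)
      (esc b' hb') (mul_pos (big b hb).e1 (A0 b' hb')) (mul_pos (big b' hb').e1 (A0 b hb))
      ?_).resolve_left (nr b hb b' hb' hne.symm)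
    rw [← norm_pow, ← norm_pow, ← pw b hb, ← pw b' hb', norm_pow, norm_pow _ (A b' * A b), nz b hb,
      nz b' hb', mul_comm]
  obtain ⟨b1, h1, b2, h2', hne⟩ := Finset.one_lt_card.1
    (show 1 < (T.erase b).card by rw [Finset.card_erase_of_mem hb]; omega)
  rw [Finset.mem_erase] at h1 h2'
  refine nr b1 h1.2 b2 h2'.2 hne ?_
  simpa using ((cj b1 h1.2 h1.1).symm.trans (cj b2 h2'.2 h2'.1)).conj

theorem all_sml (hK : Cj K) (σ : K →+* ℂ) {ι : Type*} (s : Finset ι) {f : ι → K[X]} {x : ι → ℕ → K}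
    (hO : ∀ b ∈ s, Orb (f b) (x b)) (hn : ∀ b ∈ s, ∀ b' ∈ s, b ≠ b' → ¬ Dep (x b) (x b'))
    {𝓕 : Filter ℕ} [𝓕.NeBot] (hF : 𝓕 ≤ atTop) {d : ℕ} (hd : 2 ≤ d)
    (h4 : ∀ t ⊆ s, (∀ b ∈ t, (f b).natDegree = d) → 4 ≤ t.card → ∃ b ∈ t, NSa (f b))
    (r : ι → ℕ → ℂ) {r0 : ℕ → ℂ} (h0 : Sml 𝓕 d r0)
    (hs : (fun n => r0 n + ∑ b ∈ s, r b n) =O[𝓕] fun _ => (1 : ℝ))
    (hc : ∀ b ∈ s, Sml 𝓕 d (r b) ∨ BigC σ 𝓕 d (f b) (x b) (r b)) : ∀ b ∈ s, Sml 𝓕 d (r b) := by
  classical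
  intro b hb
  refine dsc2_opt hK σ (Finset.insertNone s) (f := fun o => o.elim 0 f) (x := fun o => o.elim 0 x)
    hF hd (fun o => o.elim r0 r) (by simpa [Finset.sum_insertNone] using hs) ?_ ?_ ?_ (some b)
    (by simpa using hb)
  · rintro (_ | c) hc' hS
    · exact absurd h0 hS
    · have := Finset.some_mem_insertNone.1 hc'
      exact ⟨hO c this, (hc c this).resolve_left hS⟩
  · rintro (_ | c) hc1 (_ | c') hc2 s1 s2 hne
    · exact absurd h0 s1
    · exact absurd h0 s1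
    · exact absurd h0 s2
    · exact hn c (Finset.some_mem_insertNone.1 hc1) c' (Finset.some_mem_insertNone.1 hc2)
        fun e => hne (congrArg some e)
  · intro t ht hS h
    have hn0 : none ∉ t := fun e => hS none e h0
    have hm : ∀ c ∈ t.eraseNone, c ∈ s := fun c hc' =>
      Finset.some_mem_insertNone.1 (ht (Finset.mem_eraseNone.1 hc'))
    obtain ⟨c, hc', hN⟩ := h4 t.eraseNone hm
      (fun c hc' => ((hc c (hm c hc')).resolve_left (hS _ (Finset.mem_eraseNone.1 hc'))).1)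
      (by rwa [Finset.card_eraseNone_of_not_mem hn0])
    exact ⟨some c, Finset.mem_eraseNone.1 hc', hN⟩

end Pool.Agent.P.MP_68214b_ag.DS
end

-- part Pool.Agent.P.MP_68214b_ag.DSO3
section

open Polynomial Filter Asymptotics NumberField Topology

namespace Pool.Agent.P.MP_68214b_ag.DS

variable {K : Type*} [Field K]

section alg

variable {D : Type*} [CommRing D] [Algebra K D]

theorem dso3_ev (x y : D) (G : K[X][X]) :
    aeval y (G.map (aeval (⟨x, Algebra.self_mem_adjoin_singleton K x⟩ :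
      Algebra.adjoin K {x}) : K[X] →ₐ[K] _).toRingHom) = aevalAeval x y G := by
  induction G using Polynomial.induction_on with
  | C p =>
    rw [map_C, aeval_C, aevalAeval_C]
    exact (aeval_algHom_apply (Algebra.adjoin K {x}).val _ p).symm
  | add p q hp hq => rw [Polynomial.map_add, map_add, map_add, hp, hq]
  | monomial n p h =>
    rw [pow_succ, ← mul_assoc, Polynomial.map_mul, map_mul, map_mul (aevalAeval x y), h, map_X,
      aeval_X, aevalAeval_Y]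

theorem dso3_alg {x y : D} (hx : Transcendental K x) {G : K[X][X]} (hG : G ≠ 0)
    (h : aevalAeval x y G = 0) : IsAlgebraic (Algebra.adjoin K {x}) y := by
  refine ⟨_, (Polynomial.map_ne_zero_iff fun p q e => ?_).2 hG, (dso3_ev x y G).trans h⟩
  refine transcendental_iff_injective.1 hx ?_
  exact ((aeval_algHom_apply (Algebra.adjoin K {x}).val _ p).trans
    (congrArg Subtype.val e)).trans (aeval_algHom_apply (Algebra.adjoin K {x}).val _ q).symm

theorem dso3_dep {x y : D} (h : IsAlgebraic (Algebra.adjoin K {x}) y) :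
    ∃ G : K[X][X], G ≠ 0 ∧ aevalAeval x y G = 0 := by
  obtain ⟨P, hP, h0⟩ := h
  obtain ⟨G, rfl⟩ := Polynomial.map_surjective
    (aeval (⟨x, Algebra.self_mem_adjoin_singleton K x⟩ :
      Algebra.adjoin K {x}) : K[X] →ₐ[K] _).toRingHom (fun z => by
    obtain ⟨z, hz⟩ := z
    rw [Algebra.adjoin_singleton_eq_range_aeval] at hz
    obtain ⟨p, rfl⟩ := hz
    exact ⟨p, Subtype.ext (aeval_algHom_apply (Algebra.adjoin K {x}).val _ p).symm⟩) P
  exact ⟨G, fun e => hP (by rw [e, Polynomial.map_zero]), (dso3_ev x y G).symm.trans h0⟩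

theorem dso3_trans [IsDomain D] {x y z : D} (h1 : IsAlgebraic (Algebra.adjoin K {x}) y)
    (h2 : IsAlgebraic (Algebra.adjoin K {y}) z) : IsAlgebraic (Algebra.adjoin K {x}) z := by
  have e : ∀ u v : D, IsAlgebraic (Algebra.adjoin K {u}) v ↔
      v ∈ (AlgebraicIndependent.matroid K D).closure {u} := fun u v => by
    rw [AlgebraicIndependent.matroid_closure_eq]
    rfl
  rw [e] at h1 h2 ⊢
  exact Matroid.closure_subset_closure_of_subset_closure (Set.singleton_subset_iff.2 h1) h2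

theorem dso3_asum [IsDomain D] {x : D} {ι : Type*} (s : Finset ι) (y : ι → D)
    (h : ∀ i, IsAlgebraic (Algebra.adjoin K {x}) (y i)) (q : ι → K[X]) :
    IsAlgebraic (Algebra.adjoin K {x}) (∑ i ∈ s, aeval (y i) (q i)) := by
  refine (Subalgebra.algebraicClosure (Algebra.adjoin K {x}) D).sum_mem fun i _ => ?_
  refine dso3_trans (h i) ?_
  exact isAlgebraic_algebraMap (R := Algebra.adjoin K {y i})
    ⟨_, aeval_mem_adjoin_singleton K _⟩

theorem dso3_quot.{u} {B : Type u} [CommRing B] [Algebra K B] {N : Ideal B} (h : N.IsPrime) :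
    ∃ (E : Type u) (_ : CommRing E) (_ : IsDomain E) (_ : Algebra K E) (π : B →ₐ[K] E),
      ∀ a, π a = 0 ↔ a ∈ N :=
  ⟨B ⧸ N, inferInstance, inferInstance, inferInstance, Ideal.Quotient.mkₐ K N,
    fun _ => Ideal.Quotient.eq_zero_iff_mem⟩

end alg

/-- The elements that are eventually zero. -/
def dso3N (A : Subalgebra K (ℕ → K)) : Ideal A where
  carrier := {a | ∀ᶠ n in atTop, a.1 n = 0}
  add_mem' := fun h h' => (h.and h').mono fun n hn => by
    rw [Subalgebra.coe_add, Pi.add_apply, hn.1, hn.2, add_zero]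
  zero_mem' := Eventually.of_forall fun _ => rfl
  smul_mem' := fun c a h => Eventually.mono h fun n hn => by
    rw [smul_eq_mul, Subalgebra.coe_mul, Pi.mul_apply, hn, mul_zero]

theorem dso3_prime {A : Subalgebra K (ℕ → K)} (hA : DomA A) : (dso3N A).IsPrime := by
  refine ⟨fun e => ?_, fun {a b} h => hA a a.2 b b.2 h⟩
  have : (1 : A) ∈ dso3N A := e ▸ Submodule.mem_top
  obtain ⟨n, hn⟩ := Eventually.exists this
  exact one_ne_zero hn

theorem dso3_val {A : Subalgebra K (ℕ → K)} (a : A) (p : K[X]) (n : ℕ) :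
    (aeval a p).1 n = p.eval (a.1 n) := by
  rw [← coe_aeval_eq_eval]
  exact (aeval_algHom_apply ((Pi.evalAlgHom K (fun _ => K) n).comp A.val) a p).symm

theorem dso3_map {B D : Type*} [CommRing B] [Algebra K B] [CommRing D] [Algebra K D]
    (f : B →ₐ[K] D) (a b : B) (G : K[X][X]) :
    aevalAeval (f a) (f b) G = f (aevalAeval a b G) := by
  induction G using Polynomial.induction_on with
  | C p => rw [aevalAeval_C, aevalAeval_C, aeval_algHom_apply]
  | add p q hp hq => rw [map_add, map_add, map_add, hp, hq]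
  | monomial n p h =>
    rw [pow_succ, ← mul_assoc, map_mul, map_mul (aevalAeval a b), map_mul f, h, aevalAeval_Y,
      aevalAeval_Y]

section quot

variable {A : Subalgebra K (ℕ → K)} {D : Type*} [CommRing D] [Algebra K D] {π : A →ₐ[K] D}
  (hπ : ∀ a, π a = 0 ↔ ∀ᶠ n in atTop, a.1 n = 0)
include hπ

theorem dso3_iff (a b : A) (G : K[X][X]) :
    (∀ᶠ n in atTop, G.evalEval (a.1 n) (b.1 n) = 0) ↔ aevalAeval (π a) (π b) G = 0 := by
  rw [dso3_map, hπ]
  refine eventually_congr (Eventually.of_forall fun n => ?_)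
  rw [← coe_aevalAeval_eq_evalEval]
  exact Eq.congr_left (dso3_map ((Pi.evalAlgHom K (fun _ => K) n).comp A.val) a b G)

theorem dso3_to (a b : A) (h0 : ¬ Alg0 a.1) (h : Dep a.1 b.1) :
    IsAlgebraic (Algebra.adjoin K {π a}) (π b) := by
  obtain ⟨G, hG, h1⟩ := h
  refine dso3_alg ?_ hG ((dso3_iff hπ a b G).1 h1)
  rintro ⟨g, hg, h2⟩
  rw [aeval_algHom_apply, hπ] at h2
  exact h0 ⟨g, hg, h2.mono fun n hn => (dso3_val a g n).symm.trans hn⟩

theorem dso3_of (a b : A) (h : IsAlgebraic (Algebra.adjoin K {π a}) (π b)) : Dep a.1 b.1 := by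
  obtain ⟨G, hG, h1⟩ := dso3_dep h
  exact ⟨G, hG, (dso3_iff hπ a b G).2 h1⟩

theorem dso3_tr [IsDomain D] (a b c : A) (h : ¬ Alg0 a.1) (h0 : ¬ Alg0 b.1) (h1 : Dep a.1 b.1)
    (h2 : Dep b.1 c.1) : Dep a.1 c.1 :=
  dso3_of hπ a c (dso3_trans (dso3_to hπ a b h h1) (dso3_to hπ b c h0 h2))

theorem dso3_sum [IsDomain D] (a c : A) (h0 : ¬ Alg0 a.1) {ι : Type*} (s : Finset ι) (b : ι → A)
    (hb : ∀ i, Dep a.1 (b i).1) (q : ι → K[X])
    (hc : ∀ n, c.1 n = ∑ i ∈ s, (q i).eval ((b i).1 n)) : Dep a.1 c.1 := by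
  have e : c = ∑ i ∈ s, aeval (b i) (q i) := Subtype.ext (funext fun n => by
    rw [hc]
    exact ((map_sum ((Pi.evalAlgHom K (fun _ => K) n).comp A.val) _ _).trans
      (Finset.sum_congr rfl fun i _ => dso3_val _ _ _)).symm)
  have e' : π c = ∑ i ∈ s, aeval (π (b i)) (q i) := by
    rw [e, map_sum]
    exact Finset.sum_congr rfl fun i _ => (aeval_algHom_apply π _ _).symm
  refine dso3_of hπ a c ?_
  rw [e']
  exact dso3_asum s _ (fun i => dso3_to hπ a _ h0 (hb i)) q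

end quot

theorem DomA.trans {A : Subalgebra K (ℕ → K)} (hA : DomA A) {a b c : ℕ → K} (ha : a ∈ A)
    (hb : b ∈ A) (hc : c ∈ A) (h0 : ¬ Alg0 b) (h1 : Dep b a) (h2 : Dep b c) : Dep a c := by
  by_cases h : Alg0 a
  · obtain ⟨g, hg, h3⟩ := h
    exact ⟨C g, C_ne_zero.2 hg, h3.mono fun n hn => by rw [evalEval_C, hn]⟩
  obtain ⟨E, _, _, _, π, hπ⟩ := dso3_quot (K := K) (dso3_prime hA)
  exact dso3_tr hπ ⟨a, ha⟩ ⟨b, hb⟩ ⟨c, hc⟩ h h0 h1.symm h2

theorem DomA.dep_sum {A : Subalgebra K (ℕ → K)} (hA : DomA A) {a : ℕ → K} (ha : a ∈ A)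
    (h0 : ¬ Alg0 a) {ι : Type*} (s : Finset ι) {b : ι → ℕ → K}
    (hb : ∀ i ∈ s, b i ∈ A ∧ Dep a (b i)) (q : ι → K[X]) :
    Dep a fun n => ∑ i ∈ s, (q i).eval (b i n) := by
  obtain ⟨E, _, _, _, π, hπ⟩ := dso3_quot (K := K) (dso3_prime hA)
  have hm : (fun n => ∑ i ∈ s, (q i).eval (b i n)) ∈ A := by
    rw [← Finset.sum_fn]
    exact A.sum_mem fun i hi => poly_mem (hb i hi).1 _
  exact dso3_sum hπ ⟨a, ha⟩ ⟨_, hm⟩ h0 s.attach
    (fun i => ⟨b i, (hb i i.2).1⟩) (fun i => (hb i i.2).2) (fun i => q i)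
    fun n => (Finset.sum_attach s fun i => (q i).eval (b i n)).symm

end Pool.Agent.P.MP_68214b_ag.DS
end

-- part Pool.Agent.P.MP_68214b_ag.DSC3
section

open Polynomial Filter Asymptotics NumberField Topology

namespace Pool.Agent.P.MP_68214b_ag.DS

theorem alg0_of_const {K : Type*} [Field K] {a : ℕ → K} {c : K} (h : ∀ᶠ n in atTop, a n = c) :
    Alg0 a := ⟨X - C c, X_sub_C_ne_zero c, h.mono fun n hn => by simp [hn]⟩

theorem sum_mem_adj {K : Type*} [Field K] {J : Type*} (x : J → ℕ → K) (q : J → K[X])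
    (t : Finset J) : (fun n => ∑ i ∈ t, (q i).eval (x i n)) ∈ Algebra.adjoin K (Set.range x) := by
  have := (Algebra.adjoin K (Set.range x)).sum_mem (t := t) (f := fun i n => (q i).eval (x i n))
    fun i _ => poly_mem (Algebra.subset_adjoin (Set.mem_range_self i)) (q i)
  rwa [show (∑ i ∈ t, fun n => (q i).eval (x i n)) =
    fun n => ∑ i ∈ t, (q i).eval (x i n) from funext fun n => Finset.sum_apply _ _ _] at this

theorem classes {K : Type*} [Field K] {J : Type*} [Fintype J] [DecidableEq J] {x : J → ℕ → K}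
    (hD : Dom x) (q : J → K[X]) : ∃ (s : Finset J) (cl : J → Finset J) (c : K),
      (∀ b ∈ s, b ∈ cl b ∧ (∀ i ∈ cl b, ¬ Alg0 (x i) ∧ Dep (x b) (x i)) ∧
        ¬ Alg0 fun n => ∑ i ∈ cl b, (q i).eval (x i n)) ∧
      (∀ b ∈ s, ∀ b' ∈ s, b ≠ b' → ¬ Dep (x b) (x b')) ∧
      ∀ᶠ n in atTop, ∑ i, (q i).eval (x i n) = c + ∑ b ∈ s, ∑ i ∈ cl b, (q i).eval (x i n) := by
  classical
  have dA := hD.domA
  have mA : ∀ i, x i ∈ Algebra.adjoin K (Set.range x) := fun i => Algebra.subset_adjoin ⟨i, rfl⟩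
  let S : Setoid J := ⟨fun i j => i = j ∨ (¬ Alg0 (x i) ∧ ¬ Alg0 (x j) ∧ Dep (x i) (x j)),
    fun _ => Or.inl rfl, fun h => h.imp Eq.symm fun h => ⟨h.2.1, h.1, h.2.2.symm⟩, by
      rintro i j k (rfl | h) h'
      · exact h'
      rcases h' with rfl | h'
      · exact Or.inr h
      · exact Or.inr ⟨h.1, h'.2.1, dA.trans (mA i) (mA j) (mA k) h'.1 h.2.2.symm h'.2.2⟩⟩
  let rep : J → J := fun i => (Quotient.mk S i).out
  have r1 : ∀ i, S (rep i) i := fun i => Quotient.mk_out (s := S) i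
  have r2 : ∀ i j, S i j → rep i = rep j := fun i j h => congrArg Quotient.out (Quotient.sound h)
  let cl : J → Finset J := fun b => Finset.univ.filter fun i => rep i = b
  let R : J → ℕ → K := fun b n => ∑ i ∈ cl b, (q i).eval (x i n)
  have hc : ∀ b, ∃ c, Alg0 (R b) → ∀ᶠ n in atTop, R b n = c := fun b => by
    by_cases h : Alg0 (R b)
    · obtain ⟨c, hc⟩ := dA.const (sum_mem_adj x q (cl b)) h
      exact ⟨c, fun _ => hc⟩
    · exact ⟨0, fun h' => absurd h' h⟩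
  choose c hc using hc
  have key : ∀ b, ¬ Alg0 (R b) → rep b = b ∧ ¬ Alg0 (x b) := fun b hb => by
    rcases (cl b).eq_empty_or_nonempty with h | ⟨i, hi⟩
    · exact absurd (alg0_of_const (c := 0) (Eventually.of_forall fun n => by simp [R, h])) hb
    have hi' : rep i = b := (Finset.mem_filter.1 hi).2
    have hb' : rep b = b := by rw [← hi']; exact r2 _ _ (r1 i)
    refine ⟨hb', fun h0 => hb ?_⟩
    have : cl b = {b} := by
      refine Finset.eq_singleton_iff_unique_mem.2 ⟨Finset.mem_filter.2 ⟨Finset.mem_univ _, hb'⟩,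
        fun j hj => ?_⟩
      have h1 := r1 j
      rw [(Finset.mem_filter.1 hj).2] at h1
      exact (h1.resolve_right fun h => h.1 h0).symm
    obtain ⟨e, he⟩ := dA.const (mA b) h0
    exact alg0_of_const (c := (q b).eval e) (he.mono fun n hn => by simp [R, this, hn])
  refine ⟨Finset.univ.filter fun b => ¬ Alg0 (R b), cl,
    ∑ b ∈ Finset.univ.filter fun b => Alg0 (R b), c b, fun b hb => ?_, fun b hb b' hb' hne hd => ?_,
    ?_⟩
  · have h := (Finset.mem_filter.1 hb).2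
    refine ⟨Finset.mem_filter.2 ⟨Finset.mem_univ _, (key b h).1⟩, fun i hi => ?_, h⟩
    have h1 := r1 i
    rw [(Finset.mem_filter.1 hi).2] at h1
    rcases h1 with rfl | h1
    · exact ⟨(key b h).2, dep_refl _⟩
    · exact h1.2
  · have h := key b (Finset.mem_filter.1 hb).2
    have h' := key b' (Finset.mem_filter.1 hb').2
    exact hne (by rw [← h.1, ← h'.1]; exact r2 _ _ (Or.inr ⟨h.2, h'.2, hd⟩))
  · filter_upwards [(eventually_all_finset (Finset.univ.filter fun b => Alg0 (R b))).2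
      fun b hb => hc b (Finset.mem_filter.1 hb).2] with n hn
    rw [← Finset.sum_congr rfl hn, Finset.sum_filter_add_sum_filter_not]
    exact (Finset.sum_fiberwise _ rep _).symm

end Pool.Agent.P.MP_68214b_ag.DS
end

-- part Pool.Agent.P.MP_68214b_ag.DSC4
section

open Polynomial Filter Asymptotics NumberField Topology

namespace Pool.Agent.P.MP_68214b_ag.DS

variable {K : Type} [Field K] [NumberField K]

theorem sml_of_exp {𝓕 : Filter ℕ} (hF : 𝓕 ≤ atTop) {d : ℕ} (hd : 2 ≤ d) {c : ℝ} (hc : 1 ≤ c)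
    {r : ℕ → ℂ} (h : ∀ n, ‖r n‖ ≤ c ^ (n + 1)) : Sml 𝓕 d r := by
  intro ρ hρ
  obtain ⟨k, hk⟩ := pow_unbounded_of_one_lt c hρ
  have h1 : ∀ᶠ n : ℕ in atTop, k * (n + 1) ≤ d ^ n := by
    have := (tendsto_pow_const_div_const_pow_of_one_lt 1 (r := 2) one_lt_two).eventually
      (gt_mem_nhds (show (0 : ℝ) < 1 / (2 * k + 1) by positivity))
    filter_upwards [this, eventually_ge_atTop 1] with n hn h1
    rw [pow_one, div_lt_div_iff₀ (by positivity) (by positivity), one_mul] at hn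
    have h2 : n * (2 * k + 1) < 2 ^ n := by exact_mod_cast hn
    have h3 := Nat.pow_le_pow_left hd n
    nlinarith
  refine IsBigO.of_bound' ((h1.filter_mono hF).mono fun n hn => (h n).trans ?_)
  rw [Real.norm_of_nonneg (by positivity)]
  refine (pow_le_pow_left₀ (by linarith) hk.le _).trans ?_
  rw [← pow_mul]
  exact pow_le_pow_right₀ hρ.le hn

theorem core (hK : Cj K) {J : Type} [Fintype J] {f : J → K[X]} {x : J → ℕ → K}
    (hO : ∀ i, Orb (f i) (x i)) (hI : ∀ i, Den (x i)) (h4 : ∀ t : Finset J, 4 ≤ t.card →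
      (∀ i ∈ t, ∀ j ∈ t, (f i).natDegree = (f j).natDegree) → ∃ i ∈ t, NSa (f i))
    (hD : Dom x) (q : J → K[X]) {L : ℕ → K}
    (L1 : ∀ σ : K →+* ℂ, ∃ c : ℝ, 1 ≤ c ∧ ∀ n, ‖σ (L n)‖ ≤ c ^ (n + 1))
    (L2 : ∀ c, (∃ᶠ n in atTop, L n = c) → ∀ᶠ n in atTop, L n = c)
    (h : ∃ᶠ n in atTop, L n + ∑ i, (q i).eval (x i n) = 0) :
    ∀ᶠ n in atTop, L n + ∑ i, (q i).eval (x i n) = 0 := by
  classical
  obtain ⟨s, cl, c, h1, h2, h3⟩ := classes hD q
  rcases s.eq_empty_or_nonempty with rfl | hne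
  · simp only [Finset.sum_empty, add_zero] at h3
    filter_upwards [h3, L2 (-c) ((h.and_eventually h3).mono fun n hn => by
      linear_combination hn.1 - hn.2)] with n a b
    rw [a, b, neg_add_cancel]
  exfalso
  obtain ⟨b1, hb1, hmax⟩ := s.exists_max_image (fun b => (f b).natDegree) hne
  set A := Algebra.adjoin K (Set.range x) with hA
  have dA : DomA A := hD.domA
  have mA : ∀ i, x i ∈ A := fun i => Algebra.subset_adjoin ⟨i, rfl⟩
  have n0 : ∀ b ∈ s, ¬ Alg0 (x b) := fun b hb => ((h1 b hb).2.1 b (h1 b hb).1).1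
  obtain ⟨ρ, hρ, hl⟩ := low_cls dA (hO b1) (hI b1) (mA b1) (sum_mem_adj x q (cl b1)) (n0 b1 hb1)
    (h1 b1 hb1).2.2 (Den.sum _ fun i _ => (hI i).poly (q i))
    (dA.dep_sum (mA b1) (n0 b1 hb1) (cl b1) (fun i hi => ⟨mA i, ((h1 b1 hb1).2.1 i hi).2⟩) q)
  have nb := frequently_iff_neBot.1 h
  set 𝒰 := Ultrafilter.of (atTop ⊓ 𝓟 {n : ℕ | L n + ∑ i, (q i).eval (x i n) = 0}) with h𝒰
  have hU : (𝒰 : Filter ℕ) ≤ atTop := (Ultrafilter.of_le _).trans inf_le_left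
  have hz : ∀ᶠ n in (𝒰 : Filter ℕ), L n + ∑ i, (q i).eval (x i n) = 0 :=
    le_principal_iff.1 ((Ultrafilter.of_le _).trans inf_le_right)
  obtain ⟨σ, hσ⟩ : ∃ σ : K →+* ℂ, ∀ᶠ n in (𝒰 : Filter ℕ),
      ρ ^ (f b1).natDegree ^ n ≤ ‖σ (∑ i ∈ cl b1, (q i).eval (x i n))‖ := by
    rw [← Ultrafilter.eventually_exists_iff]
    filter_upwards [hU hl] with n hn
    obtain ⟨σ, e⟩ := exists_house (∑ i ∈ cl b1, (q i).eval (x i n))
    exact ⟨σ, e ▸ hn⟩
  have hg : ∀ b, ∃ i, b ∈ s → i ∈ cl b ∧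
      (Sml 𝒰 (f b1).natDegree (fun n => σ (∑ i ∈ cl b, (q i).eval (x i n))) ∨
        BigC σ 𝒰 (f b1).natDegree (f i) (x i) fun n => σ (∑ i ∈ cl b, (q i).eval (x i n))) := by
    intro b
    by_cases hb : b ∈ s
    swap
    · exact ⟨b, fun h => absurd h hb⟩
    have := cls σ (I := cl b) (f := fun i => f i) (x := fun i => x i) (fun i => hO i)
      (e := (f b).natDegree) (d := (f b1).natDegree)
      (fun i => (deg_eq dA (hO b) (hO i) (hI b) (hI i) (mA b) (mA i) (n0 b hb) ((h1 b hb).2.1 i i.2).1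
        ((h1 b hb).2.1 i i.2).2).symm) (hmax b hb)
      (fun i j => dA.trans (mA i) (mA b) (mA j) (n0 b hb) ((h1 b hb).2.1 i i.2).2
        ((h1 b hb).2.1 j j.2).2) (fun i => q i) 𝒰 hU
    have e : ∀ n, ∑ i : cl b, (q i).eval (x i n) = ∑ i ∈ cl b, (q i).eval (x i n) := fun n =>
      Finset.sum_coe_sort (cl b) fun i => (q i).eval (x i n)
    simp only [e] at this
    rcases this with h | ⟨i, h⟩
    · exact ⟨b, fun _ => ⟨(h1 b hb).1, Or.inl h⟩⟩
    · exact ⟨i, fun _ => ⟨i.2, Or.inr h⟩⟩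
  choose g hg using hg
  have nd : ∀ b ∈ s, ∀ b' ∈ s, b ≠ b' → ¬ Dep (x (g b)) (x (g b')) := fun b hb b' hb' hne hd => by
    have e1 := (h1 b hb).2.1 _ (hg b hb).1
    have e2 := (h1 b' hb').2.1 _ (hg b' hb').1
    exact h2 b hb b' hb' hne (dA.trans (mA _) (mA _) (mA _) e2.1
      (dA.trans (mA _) (mA _) (mA _) e1.1 hd e1.2.symm) e2.2.symm)
  obtain ⟨c0, hc0, hL⟩ := L1 σ
  refine not_sml hU (hO b1).deg hρ hσ (all_sml hK σ s (f := fun b => f (g b))
    (x := fun b => x (g b)) (fun b _ => hO _) nd hU (hO b1).deg (fun t ht hd hc => ?_)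
    (fun b n => σ (∑ i ∈ cl b, (q i).eval (x i n))) (sml_of_exp hU (hO b1).deg hc0 hL) ?_
    (fun b hb => (hg b hb).2) b1 hb1)
  · obtain ⟨i, hi, hN⟩ := h4 (t.image g) (by
      rwa [Finset.card_image_of_injOn (f := g) fun b hb b' hb' e => by_contra fun hne =>
        nd b (ht hb) b' (ht hb') hne (by rw [e]; exact dep_refl _)]) (by
      simp only [Finset.forall_mem_image]
      intro b hb b' hb'
      rw [hd b hb, hd b' hb'])
    obtain ⟨b, hb, rfl⟩ := Finset.mem_image.1 hi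
    exact ⟨b, hb, hN⟩
  · refine IsBigO.congr' (isBigO_const_const (-σ c) one_ne_zero _) ?_ EventuallyEq.rfl
    filter_upwards [hU h3, hz] with n a b
    rw [← map_sum, ← map_neg, ← map_add]
    congr 1
    linear_combination a - b

end Pool.Agent.P.MP_68214b_ag.DS
end

-- part Pool.Agent.P.MP_68214b_ag.DSC5
section

open Polynomial Filter Asymptotics NumberField Topology

namespace Pool.Agent.P.MP_68214b_ag.DS

theorem Dom.prod {K J ι : Type*} [Field K] {x : J → ℕ → K} (hD : Dom x) (s : Finset ι)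
    (Q : ι → MvPolynomial J K) (h : Van x (∏ j ∈ s, Q j)) : ∃ j ∈ s, Van x (Q j) := by
  classical
  induction s using Finset.induction_on with
  | empty => obtain ⟨n, hn⟩ := h.exists; simp at hn
  | insert a s ha ih =>
    rw [Finset.prod_insert ha] at h
    rcases hD _ _ h with h | h
    · exact ⟨a, Finset.mem_insert_self _ _, h⟩
    · obtain ⟨j, hj, h⟩ := ih h
      exact ⟨j, Finset.mem_insert_of_mem hj, h⟩

theorem van_of_prog {K J : Type*} [Field K] {f : J → K[X]} {x : J → ℕ → K}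
    (hs : ∀ i n, x i (n + 1) = (f i).eval (x i n)) (hD : Dom x) {c l : ℕ} (hl : 0 < l)
    {P : MvPolynomial J K} (h : Van (fun i t => x i (c + l * t)) P) : Van x P := by
  have e : ∀ j n, MvPolynomial.eval (fun i => x i n) (phi (fun i => iter (f i) j) P) =
      MvPolynomial.eval (fun i => x i (n + j)) P := fun j n => by
    rw [eval_phi]; simp only [step_iter (hs _)]
  obtain ⟨t0, h⟩ := eventually_atTop.1 h
  obtain ⟨j, -, hj⟩ := hD.prod (Finset.range l) (fun j => phi (fun i => iter (f i) j) P) (by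
    filter_upwards [eventually_ge_atTop (c + l * t0)] with n hn
    obtain ⟨m, rfl⟩ := Nat.exists_eq_add_of_le hn
    have h1 := Nat.div_add_mod (m + (l - 1)) l
    have h2 := Nat.mod_lt (m + (l - 1)) hl
    rw [map_prod]
    refine Finset.prod_eq_zero (i := l - 1 - (m + (l - 1)) % l) (Finset.mem_range.2 (by omega)) ?_
    rw [e, show c + l * t0 + m + (l - 1 - (m + (l - 1)) % l) = c + l * (t0 + (m + (l - 1)) / l) by
      rw [mul_add]; omega]
    exact h _ (Nat.le_add_right _ _))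
  simp only [Van, e] at hj
  obtain ⟨n0, hj⟩ := eventually_atTop.1 hj
  filter_upwards [eventually_ge_atTop (n0 + j)] with n hn
  have := hj (n - j) (by omega)
  rwa [Nat.sub_add_cancel (by omega)] at this

theorem Dom.prog {K J : Type*} [Field K] {f : J → K[X]} {x : J → ℕ → K}
    (hs : ∀ i n, x i (n + 1) = (f i).eval (x i n)) (hD : Dom x) (c : ℕ) {l : ℕ} (hl : 0 < l) :
    Dom fun i t => x i (c + l * t) := fun P Q h =>
  (hD P Q (van_of_prog hs hD hl h)).imp (tend_prog c hl).eventually (tend_prog c hl).eventually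

theorem unif_van {K J : Type*} [Field K] [Finite J] (x : J → ℕ → K) (S : Set (MvPolynomial J K))
    (h : ∀ P ∈ S, Van x P) :
    ∀ᶠ n in atTop, ∀ P ∈ S, MvPolynomial.eval (fun i => x i n) P = 0 := by
  obtain ⟨T, hT⟩ := (IsNoetherian.noetherian (Ideal.span S) : (Ideal.span S).FG)
  have hv : ∀ P ∈ Ideal.span S, Van x P := fun P hP => by
    induction hP using Submodule.span_induction with
    | mem P hP => exact h P hP
    | zero => exact Eventually.of_forall fun n => map_zero _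
    | add P Q _ _ a b => exact (a.and b).mono fun n hn => by rw [map_add, hn.1, hn.2, add_zero]
    | smul a P _ b => exact b.mono fun n hn => by rw [smul_eq_mul, map_mul, hn, mul_zero]
  filter_upwards [(eventually_all_finset T).2 fun P hP => hv P (hT ▸ Ideal.subset_span hP)]
    with n hn P hP
  have : Ideal.span S ≤ RingHom.ker (MvPolynomial.eval fun i => x i n) := by
    rw [← hT, Ideal.span_le]; exact hn
  exact this (Ideal.subset_span hP)

theorem per_of_core {K J : Type*} [Field K] [Finite J] (x : J → ℕ → K)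
    (S : Set (MvPolynomial J K)) {l : ℕ} (hl : 0 < l) (h : ∀ c, ∀ P ∈ S,
      (∃ᶠ t in atTop, MvPolynomial.eval (fun i => x i (c + l * t)) P = 0) →
        Van (fun i t => x i (c + l * t)) P) :
    ∃ n0, ∀ n ≥ n0, ((∀ P ∈ S, MvPolynomial.eval (fun i => x i n) P = 0) ↔
      ∀ P ∈ S, MvPolynomial.eval (fun i => x i (n + l)) P = 0) := by
  set p : ℕ → Prop := fun n => ∀ P ∈ S, MvPolynomial.eval (fun i => x i n) P = 0 with hp
  have h1 : ∀ c, ∀ᶠ t in atTop, (p (c + l * t) ↔ p (c + l * (t + 1))) := fun c => by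
    have : (∀ᶠ t in atTop, p (c + l * t)) ∨ ∀ᶠ t in atTop, ¬ p (c + l * t) := by
      by_cases hv : ∀ P ∈ S, Van (fun i t => x i (c + l * t)) P
      · exact Or.inl (unif_van _ S hv)
      · push Not at hv
        obtain ⟨P, hP, hv⟩ := hv
        exact Or.inr ((not_frequently.1 (mt (h c P hP) hv)).mono fun t ht e => ht (e P hP))
    rcases this with e | e <;>
      filter_upwards [e, (tendsto_add_atTop_nat 1).eventually e] with t a b
    · exact iff_of_true a b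
    · exact iff_of_false a b
  obtain ⟨t0, h2⟩ := eventually_atTop.1
    ((eventually_all_finset (Finset.range l)).2 fun c _ => h1 c)
  refine ⟨l * t0, fun n hn => ?_⟩
  have := h2 (n / l) ((Nat.le_div_iff_mul_le hl).2 (by rwa [mul_comm])) (n % l)
    (Finset.mem_range.2 (Nat.mod_lt _ hl))
  rwa [mul_add, mul_one, ← add_assoc, Nat.mod_add_div] at this

theorem exp_sum {ι : Type*} (s : Finset ι) {r : ι → ℕ → ℂ}
    (h : ∀ i ∈ s, ∃ c : ℝ, 1 ≤ c ∧ ∀ n, ‖r i n‖ ≤ c ^ (n + 1)) :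
    ∃ c : ℝ, 1 ≤ c ∧ ∀ n, ‖∑ i ∈ s, r i n‖ ≤ c ^ (n + 1) := by
  classical
  induction s using Finset.induction_on with
  | empty => exact ⟨1, le_rfl, fun n => by simp⟩
  | insert a s ha ih =>
    obtain ⟨c, h1, h2⟩ := h a (Finset.mem_insert_self _ _)
    obtain ⟨c', h3, h4⟩ := ih fun i hi => h i (Finset.mem_insert_of_mem hi)
    refine ⟨c + c', by linarith, fun n => ?_⟩
    rw [Finset.sum_insert ha]
    exact ((norm_add_le _ _).trans (add_le_add (h2 n) (h4 n))).trans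
      (pow_add_pow_le (by linarith) (by linarith) (by omega))

variable {K : Type} [Field K] [NumberField K]

theorem topK (hK : Cj K) {J : Type} [Fintype J] {f : J → K[X]} {x : J → ℕ → K} (o : J → Prop)
    (hO : ∀ i, o i → Orb (f i) (x i)) (hI : ∀ i, o i → Den (x i))
    (hA : ∀ i, ¬ o i → ∃ a b, ∀ n, x i (n + 1) = a * x i n + b)
    (h4 : ∀ t : Finset J, 4 ≤ t.card → (∀ i ∈ t, o i) →
      (∀ i ∈ t, ∀ j ∈ t, (f i).natDegree = (f j).natDegree) → ∃ i ∈ t, NSa (f i))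
    (𝓠 : Set (J → K[X])) : ∃ l, 0 < l ∧ ∃ n0, ∀ n ≥ n0,
      ((∀ q ∈ 𝓠, ∑ i, (q i).eval (x i n) = 0) ↔ ∀ q ∈ 𝓠, ∑ i, (q i).eval (x i (n + l)) = 0) := by
  classical
  choose a b hab using fun i : {i // ¬ o i} => hA i i.2
  obtain ⟨l0, h0, hS⟩ := Pool.Agent.DS.sml_affine a b (fun i => x i) hab
  obtain ⟨l1, h1, hD⟩ := oc (fun i : {i // o i} => f i) (fun i => x i) fun i => (hO i i.2).step
  have hl : 0 < l1 * l0 := mul_pos h1 h0
  have ev : ∀ {I : Type} [Fintype I] (q : I → K[X]) (y : I → K), MvPolynomial.eval y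
      (∑ i, aeval (MvPolynomial.X i : MvPolynomial I K) (q i)) = ∑ i, (q i).eval (y i) := by
    intro I _ q y
    rw [map_sum]
    refine Finset.sum_congr rfl fun i _ => ?_
    rw [← MvPolynomial.coe_aeval_eq_eval, RingHom.coe_coe, ← aeval_algHom_apply,
      MvPolynomial.aeval_X, coe_aeval_eq_eval]
  obtain ⟨n0, h⟩ := per_of_core x
    ((fun q : J → K[X] => ∑ i, aeval (MvPolynomial.X i : MvPolynomial J K) (q i)) '' 𝓠) hl (by
    rintro c _ ⟨q, -, rfl⟩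
    have sp : ∀ n, ∑ i, (q i).eval (x i n) =
        ∑ i : {i // ¬ o i}, (q i).eval (x i n) + ∑ i : {i // o i}, (q i).eval (x i n) := fun n => by
      rw [add_comm, Fintype.sum_subtype_add_sum_subtype o fun i => (q i).eval (x i n)]
    simp only [Van, ev, sp]
    refine core hK (f := fun i : {i // o i} => iter (f i) (l1 * l0))
      (x := fun i t => x i (c + l1 * l0 * t)) (fun i => (hO i i.2).prog c hl)
      (fun i => (hI i i.2).imp fun N hN => ⟨hN.1, fun t => hN.2 _⟩) (fun t ht hd => ?_)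
      ?_ (fun i => q i) (fun σ => ?_) fun e he => ?_
    · obtain ⟨i, hi, hN⟩ := h4 (t.map (Function.Embedding.subtype _)) (by simpa using ht)
        (by simp only [Finset.forall_mem_map]; exact fun i _ => i.2) (by
          simp only [Finset.forall_mem_map]
          intro i hi j hj
          have := hd i hi j hj
          rw [iter_natDegree, iter_natDegree] at this
          exact Nat.pow_left_injective hl.ne' this)
      obtain ⟨j, hj, rfl⟩ := Finset.mem_map.1 hi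
      exact ⟨j, hj, NSa.iter hN (hO j j.2).deg hl⟩
    · have := Dom.prog (fun i : {i // o i} => ((hO i i.2).prog c h1).step) (hD c) 0 h0
      simpa only [zero_add, mul_assoc] using this
    · simp only [map_sum]
      refine exp_sum _ fun i _ => ?_
      obtain ⟨C, h1, h2⟩ := Pool.Agent.DS.affine_growth (a := σ (a i)) (b := σ (b i))
        (x := fun n => σ (x i n)) (fun n => by rw [hab, map_add, map_mul]) ((q i).map σ)
      refine ⟨C ^ (c + l1 * l0 + 1), one_le_pow₀ h1, fun n => ?_⟩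
      have := h2 (c + l1 * l0 * n)
      rw [eval_map, eval₂_at_apply] at this
      rw [← pow_mul]
      exact this.trans (pow_le_pow_right₀ h1 (by nlinarith [Nat.zero_le (c * n)]))
    · have := hS c (∑ i : {i // ¬ o i},
        aeval (MvPolynomial.X i : MvPolynomial {i // ¬ o i} K) (q i) - MvPolynomial.C e)
      simp only [map_sub, ev, MvPolynomial.eval_C, sub_eq_zero] at this
      have ht := tend_prog 0 h1
      have e1 : ∀ t, c + l0 * (0 + l1 * t) = c + l1 * l0 * t := fun t => by ring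
      simpa only [e1] using ht.eventually (this (ht.frequently (by simpa only [e1] using he))))
  exact ⟨_, hl, n0, fun n hn => by simpa only [Set.forall_mem_image, ev] using h n hn⟩

theorem descend {L J : Type*} [Field L] [Fintype J] (ι : L →+* ℂ) (𝓠 : Set (J → ℂ[X])) :
    ∃ 𝓡 : Set (J → L[X]), ∀ x : J → L,
      (∀ q ∈ 𝓠, ∑ i, (q i).eval (ι (x i)) = 0) ↔ ∀ q ∈ 𝓡, ∑ i, (q i).eval (x i) = 0 := by
  let := ι.toAlgebra
  have key : ∀ (lam : ℂ →ₗ[L] L) (q : J → ℂ[X]) (x : J → L),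
      ∑ i, ((q i).sum fun k a => monomial k (lam a)).eval (x i) =
        lam (∑ i, (q i).eval (ι (x i))) := fun lam q x => by
    rw [map_sum]
    refine Finset.sum_congr rfl fun i _ => ?_
    rw [eval_eq_sum (p := q i), sum_def, sum_def, eval_finsetSum, map_sum]
    refine Finset.sum_congr rfl fun k _ => ?_
    rw [eval_monomial, ← map_pow, mul_comm, mul_comm (coeff _ _), ← smul_eq_mul, ← map_smul]
    rfl
  refine ⟨{r | ∃ q ∈ 𝓠, ∃ lam : ℂ →ₗ[L] L, r = fun i => (q i).sum fun k a => monomial k (lam a)},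
    fun x => ⟨?_, fun h q hq => ?_⟩⟩
  · rintro h _ ⟨q, hq, lam, rfl⟩
    rw [key, h q hq, map_zero]
  · refine (Module.forall_dual_apply_eq_zero_iff L _).1 fun lam => ?_
    rw [← key]
    exact h _ ⟨q, hq, lam, rfl⟩

end Pool.Agent.P.MP_68214b_ag.DS
end

-- part Pool.Agent.P.MP_68214b_ag.DH2
section

open Polynomial Filter Asymptotics NumberField Topology NNReal

namespace Pool.Agent.P.MP_68214b_ag.DS

variable {K : Type} [Field K] [NumberField K]

theorem unb_prog {L : Type*} [Field L] {f : L[X]} {x : ℕ → L} (hO : Orb f x) {σ : L →+* ℂ}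
    (h : ¬ Bdd σ x) (c : ℕ) {l : ℕ} (hl : 0 < l) : ¬ Bdd σ fun t => x (c + l * t) := by
  obtain ⟨ρ, r1, r2⟩ := hO.escape σ h
  rintro ⟨B, hB⟩
  obtain ⟨t, h1, h2⟩ := ((tend_prog c hl).eventually
    (r2.and ((tend_pp_top r1 hO.deg).eventually_gt_atTop B))).exists
  exact (h2.trans_le h1).not_ge (hB t)

theorem dh2_up {f : K[X]} {x : ℕ → K} (hO : Orb f x) (σ : K →+* ℂ) :
    ∃ Λ : ℝ, 1 ≤ Λ ∧ ∀ n, ‖σ (x n)‖ ≤ Λ ^ f.natDegree ^ n :=
  (growth_up hO.deg hO.step).imp fun _ h =>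
    ⟨h.1, fun n => (norm_embedding_le_house _ σ).trans (h.2 n)⟩

theorem opi (σ : K →+* ℂ) {I : Type} [Finite I] {f : I → K[X]} {x : I → ℕ → K}
    (hO : ∀ i, Orb (f i) (x i)) {d : ℕ} (he : ∀ i, (f i).natDegree = d) {i0 : I} (hN : NSa (f i0))
    (hu : ¬ Bdd σ (x i0)) (hp : ∀ j, Dep (x i0) (x j)) (P : MvPolynomial I K) (𝒰 : Ultrafilter ℕ)
    (hU : (𝒰 : Filter ℕ) ≤ atTop)
    (hR : Sml 𝒰 d fun n => σ (MvPolynomial.eval (fun i => x i n) P)) :
    ∃ c l k, 0 < l ∧ ∀ᶠ t in atTop, MvPolynomial.eval (fun i => x i (c + l * t)) P = k := by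
  have st : ∀ {g : K[X]} {y : ℕ → K}, Orb g y → ∀ n, σ (y (n + 1)) = (g.map σ).eval (σ (y n)) :=
    fun h n => by rw [h.step, eval_map, eval₂_hom]
  have ev : ∀ y : I → K, MvPolynomial.eval (fun i => σ (y i)) (MvPolynomial.map σ P) =
      σ (MvPolynomial.eval y P) := fun y => by
    rw [MvPolynomial.eval_map, MvPolynomial.eval, MvPolynomial.coe_eval₂Hom,
      MvPolynomial.eval₂_comp_left]
    rfl
  obtain ⟨l, hl, hD⟩ := oc (fun i => (f i).map σ) (fun i n => σ (x i n)) fun i => st (hO i)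
  obtain ⟨c, hc⟩ : ∃ c : Fin l, ∀ᶠ n in (𝒰 : Filter ℕ), n % l = c :=
    Ultrafilter.eventually_exists_iff.1 (Eventually.of_forall fun n => ⟨⟨_, Nat.mod_lt n hl⟩, rfl⟩)
  have d2 : 2 ≤ d := he i0 ▸ (hO i0).deg
  have hO' := fun i => (hO i).prog c hl
  have he' : ∀ i, (iter (f i) l).natDegree = d ^ l := fun i => by rw [iter_natDegree, he]
  obtain ⟨k, hk⟩ := opi0 (g := fun i => (iter (f i) l).map σ) (z := fun i t => σ (x i (c + l * t)))
    (d := d ^ l) (he' i0 ▸ (hO' i0).deg) (fun i => by rw [natDegree_map, he']) (fun i => st (hO' i))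
    (fun i => he' i ▸ dh2_up (hO' i) σ) (hD c) ((hO' i0).monic.map σ)
    (hN.iter (hO i0).deg hl σ) (unb_prog (hO i0) hu c hl) (fun j => by
      obtain ⟨G, hG, h⟩ := (hp j).of_prog c hl
      exact ⟨map2 σ G, fun e => hG (map2_inj σ.injective (e.trans (map_zero _).symm)),
        h.mono fun n hn => (map_mapRingHom_evalEval σ G _ _).trans (by rw [hn, map_zero])⟩)
    (𝒰.map (· / l)) ((map_mono hU).trans (Nat.tendsto_div_const_atTop hl.ne'))
    (R := MvPolynomial.map σ P) fun ρ hρ => by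
      obtain ⟨r, r1, rfl⟩ := dsn5_root hρ (m := d ^ (c : ℕ)) (by positivity)
      refine isBigO_map.2 ((hR r r1).congr' (hc.mono fun n hn => ?_) (hc.mono fun n hn => ?_))
      · simp only [Function.comp_apply, ev, ← hn, Nat.mod_add_div]
      · simp only [Function.comp_apply, ← pow_mul, ← pow_add, ← hn, Nat.mod_add_div]
  simp only [Van, map_sub, ev, MvPolynomial.eval_C, sub_eq_zero] at hk
  obtain ⟨t0, h0⟩ := hk.exists
  exact ⟨c, l, _, hl, hk.mono fun t ht => σ.injective (ht.trans h0.symm)⟩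

theorem single {σ : K →+* ℂ} {f : K[X]} {x : ℕ → K} (hO : Orb f x) (hu : ¬ Bdd σ x) {q : K[X]}
    (hq : 0 < q.natDegree) (𝒰 : Ultrafilter ℕ) (hU : (𝒰 : Filter ℕ) ≤ atTop) :
    ¬ Sml 𝒰 f.natDegree fun n => σ (q.eval (x n)) := fun h => by
  obtain ⟨ρ, r1, r2⟩ := hO.escape σ hu
  lift ρ to ℝ≥0 using zero_le_one.trans r1.le
  obtain ⟨v, hv⟩ := exists_gv hO.deg (z := fun (_ : Unit) n => σ (x n)) (fun _ => dh2_up hO σ) 𝒰 hU
  have v1 : v.IsTrivialOn ℂ := ⟨fun c hc => tendsto_nhds_unique (hv _)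
    (((rt_const hO.deg (nnnorm_ne_zero_iff.2 hc)).mono_left hU).congr fun n => by simp [rt])⟩
  have v2 : 1 < v (.X ()) := lt_of_lt_of_le (b := ρ) r1
    (rt_ge hO.deg (hv _) ((r2.filter_mono hU).mono fun n hn => by simpa using hn))
  have v3 : v (aeval (MvPolynomial.X ()) (q.map σ)) ≤ 1 :=
    le_of_forall_gt_imp_ge_of_dense fun r hr => rt_le hO.deg hU (hv _)
      ((h r hr).congr_left fun n => by
        rw [← MvPolynomial.aeval_eq_eval, ← aeval_algHom_apply, MvPolynomial.aeval_X,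
          coe_aeval_eq_eval, eval_map, eval₂_hom])
  rw [valuation_aeval_eq_valuation_X_pow_natDegree_of_one_lt_valuation_X _ v2
    (Polynomial.map_ne_zero (ne_zero_of_natDegree_gt hq)), natDegree_map] at v3
  exact v3.not_gt (one_lt_pow₀ v2 hq.ne')

end Pool.Agent.P.MP_68214b_ag.DS
end

-- part Pool.Agent.P.MP_68214b_ag.DSA3
section

open Polynomial Filter Asymptotics NumberField Topology

namespace Pool.Agent.P.MP_68214b_ag.DS

theorem dsa3_pow {p : ℂ[X]} (hp : p ≠ 0) (c : ℂ) (n : ℕ) :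
    rootMultiplicity c (p ^ n) = n * rootMultiplicity c p := by
  induction n with
  | zero => simp
  | succ n ih =>
    rw [pow_succ, rootMultiplicity_mul (mul_ne_zero (pow_ne_zero n hp) hp), ih]
    ring

open Classical in
theorem dsa3_prod (E : Finset ℂ) (k : ℂ → ℕ) (c : ℂ) :
    rootMultiplicity c (∏ a ∈ E, (X - C a) ^ k a) = if c ∈ E then k c else 0 := by
  induction E using Finset.induction_on with
  | empty => simp
  | insert a E ha ih =>
    have h1 : (∏ a ∈ E, (X - C a) ^ k a : ℂ[X]) ≠ 0 :=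
      (monic_prod_of_monic _ _ fun b _ => (monic_X_sub_C b).pow _).ne_zero
    rw [Finset.prod_insert ha,
      rootMultiplicity_mul (mul_ne_zero (pow_ne_zero _ (X_sub_C_ne_zero a)) h1), ih,
      dsa3_pow (X_sub_C_ne_zero a), rootMultiplicity_X_sub_C]
    by_cases h : c = a
    · subst h
      simp [ha]
    · simp [h]

theorem dsa3_nat {g : ℂ[X]} (hd : 2 ≤ g.natDegree) (ht : NoTot g) (h : Orbi g) :
    ∃ (n : ℕ) (μ : ℂ → ℕ), {c | μ c ≠ n}.Finite ∧ (∀ c, 0 < μ c) ∧ (∀ c, μ c ≤ n) ∧ (∀ c, μ c ∣ n) ∧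
      ∀ c, μ c = em g c * μ (g.eval c) := by
  obtain ⟨e, ν, he, hf, hν⟩ := h
  have hem : ∀ c, (1 : ℤ) ≤ em g c := fun c => by exact_mod_cast em_pos (by omega) c
  have key : ∀ P : ℤ → Prop, P e → (∀ c, P (ν c) → P (ν (g.eval c))) → ∀ c, P (ν c) := by
    intro P h1 h2 c
    by_contra h3
    obtain ⟨a, h4, h5⟩ := ht {c | ¬ P (ν c)} (hf.subset fun a ha h6 => ha (h6 ▸ h1)) ⟨c, h3⟩
    exact h4 (h2 a (not_not.mp h5))
  have h1 : ∀ c, 0 < ν c := key (0 < ·) he fun c hc => by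
    have h2 := hem c
    rw [hν c] at hc
    exact (mul_pos_iff_of_pos_left (by omega)).mp hc
  have h2 : ∀ c, ν c ≤ e := key (· ≤ e) le_rfl fun c hc => by
    have h3 := hem c
    have h4 := h1 (g.eval c)
    rw [hν c] at hc
    nlinarith
  have h3 : ∀ c, ν c ∣ e := key (· ∣ e) dvd_rfl fun c hc => by
    rw [hν c] at hc
    exact (dvd_mul_left _ _).trans hc
  have h4 : ∀ c, ((ν c).toNat : ℤ) = ν c := fun c => Int.toNat_of_nonneg (h1 c).le
  have h5 : (e.toNat : ℤ) = e := Int.toNat_of_nonneg he.le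
  refine ⟨e.toNat, fun c => (ν c).toNat, hf.subset fun c hc h6 => hc (by simp only [h6]),
    fun c => ?_, fun c => Int.toNat_le_toNat (h2 c), fun c => ?_, fun c => ?_⟩
  · have := h1 c
    simp only
    omega
  · rw [← Int.natCast_dvd_natCast, h4, h5]
    exact h3 c
  · apply Nat.cast_injective (R := ℤ)
    push_cast
    rw [h4, h4]
    exact hν c

theorem exc_of_orbi {g : ℂ[X]} (hd : 2 ≤ g.natDegree) (ht : NoTot g) (h : Orbi g) : Exc g := by
  classical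
  obtain ⟨n, μ, hf, h0, hle, hdv, hμ⟩ := dsa3_nat hd ht h
  have hg : 0 < g.natDegree := by omega
  have hn : 0 < n := (h0 0).trans_le (hle 0)
  have hg0 : g ≠ 0 := ne_zero_of_natDegree_gt hg
  have hg' : derivative g ≠ 0 := fun h1 => by
    have := derivative_eq_zero.mp h1
    omega
  have hcomp : ∀ a : ℂ[X], a.Monic → a.comp g ≠ 0 := fun a ha h1 => by
    have h2 := leadingCoeff_comp (p := a) hg.ne'
    rw [h1, leadingCoeff_zero, ha.leadingCoeff, one_mul] at h2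
    exact pow_ne_zero _ (leadingCoeff_ne_zero.mpr hg0) h2.symm
  have hmul : ∀ c, em g c * (n - μ (g.eval c)) = n - μ c + n * rootMultiplicity c (derivative g) := by
    intro c
    have h1 := rm_der hg c
    have h2 := hle c
    have h3 := hμ c
    rw [Nat.mul_sub, ← h3, ← h1]
    have h4 : (rootMultiplicity c (derivative g) + 1) * n =
        n + n * rootMultiplicity c (derivative g) := by ring
    omega
  set E := hf.toFinset with hE
  have hmem : ∀ c, c ∈ E ↔ μ c ≠ n := fun c => hf.mem_toFinset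
  set Ψ : ℂ[X] := ∏ a ∈ E, (X - C a) ^ (n - μ a) with hΨ
  have hΨm : Ψ.Monic := monic_prod_of_monic _ _ fun b _ => (monic_X_sub_C b).pow _
  have hr : ∀ c, rootMultiplicity c Ψ = n - μ c := by
    intro c
    rw [hΨ, dsa3_prod E fun a => n - μ a]
    split_ifs with h1
    · rfl
    · rw [hmem, not_not] at h1
      omega
  have hq : Ψ * derivative g ^ n ≠ 0 := mul_ne_zero hΨm.ne_zero (pow_ne_zero _ hg')
  have h1 := eq_of_rm (hcomp Ψ hΨm) hq fun c => by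
    rw [rm_comp hg hΨm.ne_zero, rootMultiplicity_mul hq, dsa3_pow hg', hr, hr, hmul]
  have h2 := congrArg natDegree h1
  rw [natDegree_C_mul (leadingCoeff_ne_zero.mpr hq),
    natDegree_C_mul (leadingCoeff_ne_zero.mpr (hcomp Ψ hΨm)), natDegree_comp,
    natDegree_mul hΨm.ne_zero (pow_ne_zero _ hg'), natDegree_pow, natDegree_derivative] at h2
  have h3 : Ψ.natDegree = n := by
    obtain ⟨d, hd'⟩ : ∃ d, g.natDegree = d + 1 := ⟨g.natDegree - 1, by omega⟩
    rw [hd', Nat.add_sub_cancel, mul_add, mul_one, add_comm] at h2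
    exact Nat.eq_of_mul_eq_mul_right (by omega) (Nat.add_left_cancel h2)
  have h4 : ∑ a ∈ E, (n - μ a) = n := by
    rw [hΨ, natDegree_prod_of_monic _ _ fun b _ => (monic_X_sub_C b).pow _] at h3
    simpa using h3
  have h5 : ∀ a ∈ E, 2 * μ a ≤ n := by
    intro a ha
    obtain ⟨t, ht'⟩ := hdv a
    have h6 := (hmem a).1 ha
    have h7 : 2 ≤ t := by
      rcases t with _ | _ | t
      · omega
      · omega
      · omega
    rw [ht', mul_comm]
    exact Nat.mul_le_mul_left _ h7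
  have h6 : E.card ≤ 2 := by
    have h7 : E.card • n ≤ ∑ a ∈ E, 2 * (n - μ a) :=
      Finset.card_nsmul_le_sum _ _ _ fun a ha => by have := h5 a ha; omega
    rw [← Finset.mul_sum, h4, smul_eq_mul] at h7
    exact Nat.le_of_mul_le_mul_right h7 hn
  have h7 : E.card = 2 := by
    rcases Nat.lt_or_ge E.card 2 with h8 | h8
    · exfalso
      rcases Nat.lt_or_ge E.card 1 with h9 | h9
      · rw [Finset.card_eq_zero.mp (by omega : E.card = 0), Finset.sum_empty] at h4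
        omega
      · obtain ⟨a, ha⟩ := Finset.card_eq_one.mp (by omega : E.card = 1)
        rw [ha, Finset.sum_singleton] at h4
        have := h0 a
        omega
    · omega
  obtain ⟨a, b, hab, hE2⟩ := Finset.card_eq_two.mp h7
  have ha := h5 a (by simp [hE2])
  have hb := h5 b (by simp [hE2])
  rw [hE2, Finset.sum_pair hab] at h4
  set P : ℂ[X] := ∏ c ∈ E, (X - C c) ^ 1 with hP
  have hPm : P.Monic := monic_prod_of_monic _ _ fun b _ => (monic_X_sub_C b).pow _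
  have hrP : ∀ c, μ a * rootMultiplicity c P = n - μ c := by
    intro c
    rw [hP, dsa3_prod E fun _ => 1]
    split_ifs with h8
    · rw [hE2, Finset.mem_insert, Finset.mem_singleton] at h8
      rcases h8 with rfl | rfl <;> omega
    · rw [hmem, not_not] at h8
      omega
  have hq' : P * derivative g ^ 2 ≠ 0 := mul_ne_zero hPm.ne_zero (pow_ne_zero _ hg')
  have h8 := eq_of_rm (hcomp P hPm) hq' fun c => by
    refine Nat.eq_of_mul_eq_mul_left (h0 a) ?_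
    rw [rm_comp hg hPm.ne_zero, rootMultiplicity_mul hq', dsa3_pow hg', mul_left_comm, hrP, mul_add,
      hrP, hmul, ← mul_assoc, show μ a * 2 = n by omega]
  have hP2 : P = (X - C a) * (X - C b) := by
    rw [hP, hE2, Finset.prod_pair hab, pow_one, pow_one]
  have hPd : P.natDegree = 2 := by
    rw [hP2, natDegree_mul (X_sub_C_ne_zero a) (X_sub_C_ne_zero b), natDegree_X_sub_C,
      natDegree_X_sub_C]
  have hl : (derivative g).leadingCoeff = g.leadingCoeff * g.natDegree := by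
    obtain ⟨d, hd'⟩ : ∃ d, g.natDegree = d + 1 := ⟨g.natDegree - 1, by omega⟩
    rw [leadingCoeff, natDegree_derivative, coeff_derivative, leadingCoeff, hd', Nat.add_sub_cancel]
    push_cast
    rfl
  rw [leadingCoeff_mul, leadingCoeff_pow, leadingCoeff_comp hg.ne', hPm.leadingCoeff, hPd, hl, hP2,
    one_mul, one_mul, mul_pow, C_mul, mul_assoc] at h8
  have h9 := mul_left_cancel₀ (C_ne_zero.mpr (pow_ne_zero 2 (leadingCoeff_ne_zero.mpr hg0))) h8
  refine ⟨a + b, a * b, ?_⟩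
  simp only [mul_comp, sub_comp, X_comp, C_comp] at h9
  rw [C_add, C_mul]
  linear_combination h9

theorem ns_of {g : ℂ[X]} (hd : 2 ≤ g.natDegree) (h : ¬ Exc g) : NS g :=
  ⟨noTot_of hd h, fun h' => h (exc_of_orbi hd (noTot_of hd h) h')⟩

end Pool.Agent.P.MP_68214b_ag.DS
end

-- part Pool.Agent.P.MP_68214b_ag.DSA4
section

open Polynomial Filter Asymptotics NumberField Topology

namespace Pool.Agent.P.MP_68214b_ag.DS

theorem dsa4_E (h : ℂ[X]) (k : ℕ) : (X * derivative h).coeff k = k * h.coeff k := by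
  cases k with
  | zero => simp
  | succ k => rw [coeff_X_mul, coeff_derivative]; push_cast; ring

theorem dsa4_zero {ε : ℂ} {d : ℕ} {h : ℂ[X]} (hd : h.degree < d)
    (e : C ((d : ℂ) ^ 2) * h = X * derivative h + (X ^ 2 - C ε) * derivative (derivative h)) :
    h = 0 := by
  by_contra h0
  have hk : h.natDegree < d := (natDegree_lt_iff_degree_lt h0).2 hd
  have e' : C ((d : ℂ) ^ 2) * h =
      X * derivative (X * derivative h) - C ε * derivative (derivative h) := by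
    rw [e, derivative_mul, derivative_X]; ring
  have := congrArg (coeff · h.natDegree) e'
  simp only [coeff_C_mul, coeff_sub, dsa4_E, coeff_derivative] at this
  rw [coeff_eq_zero_of_natDegree_lt (p := h) (n := h.natDegree + 1 + 1) (by omega)] at this
  have h1 : ((d : ℂ) ^ 2 - (h.natDegree : ℂ) ^ 2) * h.coeff h.natDegree = 0 := by
    linear_combination this
  rcases mul_eq_zero.1 h1 with h2 | h2
  · have : d ^ 2 = h.natDegree ^ 2 := by exact_mod_cast sub_eq_zero.1 h2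
    have := Nat.pow_lt_pow_left hk (n := 2) (by norm_num)
    omega
  · exact h0 (leadingCoeff_eq_zero.1 h2)

theorem dsa4_mul {ε : ℂ} {d : ℕ} {h T : ℂ[X]} (hd : h.natDegree = d) (hT : T.natDegree = d)
    (h0 : h ≠ 0) (T0 : T ≠ 0)
    (e : C ((d : ℂ) ^ 2) * h = X * derivative h + (X ^ 2 - C ε) * derivative (derivative h))
    (e' : C ((d : ℂ) ^ 2) * T = X * derivative T + (X ^ 2 - C ε) * derivative (derivative T)) :
    ∃ c : ℂ, h = C c * T := by
  have hl := leadingCoeff_ne_zero.2 T0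
  have hc : h.leadingCoeff / T.leadingCoeff ≠ 0 := div_ne_zero (leadingCoeff_ne_zero.2 h0) hl
  refine ⟨h.leadingCoeff / T.leadingCoeff, sub_eq_zero.1 (dsa4_zero (ε := ε) (d := d) ?_ ?_)⟩
  · rw [← hd, ← degree_eq_natDegree h0]
    refine degree_sub_lt ?_ h0 ?_
    · rw [degree_C_mul hc, degree_eq_natDegree h0, degree_eq_natDegree T0, hd, hT]
    · rw [leadingCoeff_mul, leadingCoeff_C, div_mul_cancel₀ _ hl]
  · simp only [derivative_sub, derivative_C_mul]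
    linear_combination e - C (h.leadingCoeff / T.leadingCoeff) * e'

theorem dsa4_norm {g : ℂ[X]} (hd : 2 ≤ g.natDegree) {s p α ε : ℂ} (hα : α ≠ 0)
    (hε : α ^ 2 * ε = s ^ 2 / 4 - p)
    (e : C ((g.natDegree : ℂ) ^ 2) * (g ^ 2 - C s * g + C p) =
      (X ^ 2 - C s * X + C p) * derivative g ^ 2) :
    ∃ h : ℂ[X], g.comp (C α * X + C (s / 2)) = C α * h + C (s / 2) ∧ h.natDegree = g.natDegree ∧
      C ((g.natDegree : ℂ) ^ 2) * (h ^ 2 - C ε) = (X ^ 2 - C ε) * derivative h ^ 2 ∧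
      C ((g.natDegree : ℂ) ^ 2) * h =
        X * derivative h + (X ^ 2 - C ε) * derivative (derivative h) := by
  have hi : (C α : ℂ[X]) * C α⁻¹ = 1 := by rw [← C_mul, mul_inv_cancel₀ hα, C_1]
  have hα' : (C α : ℂ[X]) ≠ 0 := C_ne_zero.2 hα
  obtain ⟨h, h1⟩ : ∃ h : ℂ[X], g.comp (C α * X + C (s / 2)) = C α * h + C (s / 2) :=
    ⟨C α⁻¹ * (g.comp (C α * X + C (s / 2)) - C (s / 2)), by
      rw [← mul_assoc, hi, one_mul, sub_add_cancel]⟩
  have h2 : h.natDegree = g.natDegree := by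
    have := congrArg natDegree h1
    rwa [natDegree_comp, natDegree_linear hα, mul_one, natDegree_add_C, natDegree_C_mul hα,
      eq_comm] at this
  have h3 : (derivative g).comp (C α * X + C (s / 2)) = derivative h := by
    have := congrArg derivative h1
    rw [derivative_comp] at this
    simp only [derivative_add, derivative_C_mul, derivative_X, derivative_C, mul_one,
      add_zero] at this
    exact mul_left_cancel₀ hα' this
  have h4 : C ((g.natDegree : ℂ) ^ 2) * (h ^ 2 - C ε) = (X ^ 2 - C ε) * derivative h ^ 2 := by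
    have := congrArg (·.comp (C α * X + C (s / 2))) e
    simp only [mul_comp, add_comp, sub_comp, pow_comp, C_comp, X_comp, h1, h3] at this
    have a1 : (C s : ℂ[X]) = 2 * C (s / 2) := by
      rw [show (2 : ℂ[X]) = C 2 from rfl, ← C_mul]; congr 1; ring
    have a2 : (C p : ℂ[X]) = C (s / 2) ^ 2 - C α ^ 2 * C ε := by
      rw [← C_pow, ← C_pow, ← C_mul, ← C_sub, hε]; congr 1; ring
    rw [a1, a2] at this
    refine mul_left_cancel₀ (pow_ne_zero 2 hα') ?_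
    linear_combination this
  refine ⟨h, h1, h2, h4, ?_⟩
  have h5 : derivative h ≠ 0 := fun z => by
    have := natDegree_eq_zero_of_derivative_eq_zero z
    omega
  have := congrArg derivative h4
  simp only [derivative_mul, derivative_sub, derivative_C, derivative_sq, derivative_X, zero_mul,
    zero_add, sub_zero, mul_one] at this
  refine mul_left_cancel₀ (mul_ne_zero (C_ne_zero.2 (two_ne_zero (α := ℂ))) h5) ?_
  linear_combination this

theorem special_of_exc {g : ℂ[X]} (hd : 2 ≤ g.natDegree) (h : Exc g) : Special g := by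
  obtain ⟨s, p, e⟩ := h
  have ne : ∀ h : ℂ[X], h.natDegree = g.natDegree → h ≠ 0 := fun h e z => by
    rw [z, natDegree_zero] at e
    omega
  by_cases hD : s ^ 2 / 4 - p = 0
  · obtain ⟨h, h1, h2, -, h4⟩ := dsa4_norm hd one_ne_zero (ε := 0) (by rw [hD, mul_zero]) e
    obtain ⟨d, hd'⟩ : ∃ d, g.natDegree = d + 2 := ⟨g.natDegree - 2, by omega⟩
    obtain ⟨c, hc⟩ := dsa4_mul h2 (natDegree_X_pow g.natDegree) (ne h h2) (pow_ne_zero _ X_ne_zero)
      h4 (by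
        rw [hd']
        simp only [derivative_X_pow, derivative_C_mul, Nat.add_sub_cancel, map_pow, map_natCast,
          show d + 2 - 1 = d + 1 from rfl, derivative_mul, derivative_natCast, C_0]
        push_cast
        ring)
    have c0 : c ≠ 0 := fun z => ne h h2 (by rw [hc, z, C_0, zero_mul])
    obtain ⟨α, hα⟩ := IsAlgClosed.exists_pow_nat_eq c⁻¹ (n := d + 1) (by omega)
    have α0 : α ≠ 0 := fun z => inv_ne_zero c0 (by rw [← hα, z, zero_pow (by omega)])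
    refine ⟨α, s / 2, α0, _, Or.inl rfl, ?_⟩
    have := congrArg (·.comp (C α * X)) h1
    simp only [comp_assoc, hc, mul_comp, add_comp, pow_comp, C_comp, X_comp, C_1, one_mul,
      one_comp] at this
    rw [this, mul_pow, ← mul_assoc, ← C_pow, ← C_mul, hd', pow_succ α, hα, ← mul_assoc,
      mul_inv_cancel₀ c0, one_mul]
  · obtain ⟨α, hα⟩ := IsAlgClosed.exists_pow_nat_eq (s ^ 2 / 4 - p) (n := 2) (by omega)
    have α0 : α ≠ 0 := fun z => hD (by rw [← hα, z, zero_pow (by omega)])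
    obtain ⟨h, h1, h2, h3, h4⟩ := dsa4_norm hd α0 (ε := 1) (by rw [mul_one, hα]) e
    have hT : (Chebyshev.T ℂ g.natDegree).natDegree = g.natDegree := by
      rw [Chebyshev.natDegree_T, Int.natAbs_natCast]
    obtain ⟨c, hc⟩ := dsa4_mul h2 hT (ne h h2) (ne _ hT) h4 (by
      have := Chebyshev.one_sub_X_sq_mul_derivative_derivative_T_eq_poly_in_T (R := ℂ)
        (g.natDegree : ℤ)
      simp only [Function.iterate_succ, Function.iterate_zero, Function.comp_apply, id,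
        Int.cast_natCast] at this
      rw [map_pow, map_natCast, C_1]
      linear_combination this)
    have := congrArg (eval 1) h3
    simp only [hc, eval_mul, eval_sub, eval_pow, eval_C, eval_X, Chebyshev.T_eval_one, one_pow,
      sub_self, zero_mul, mul_one] at this
    have d0 : (g.natDegree : ℂ) ^ 2 ≠ 0 := pow_ne_zero _ (Nat.cast_ne_zero.2 (by omega))
    rcases sq_eq_one_iff.1 (sub_eq_zero.1 ((mul_eq_zero.1 this).resolve_left d0)) with
      rfl | rfl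
    · exact ⟨α, s / 2, α0, _, Or.inr (Or.inl rfl), by rw [h1, hc, C_1, one_mul]⟩
    · exact ⟨α, s / 2, α0, _, Or.inr (Or.inr rfl), by rw [h1, hc, C_neg, C_1, neg_one_mul]⟩

end Pool.Agent.P.MP_68214b_ag.DS
end

-- part Pool.Agent.P.MP_68214b_ag.DSA6
section

open Polynomial Filter Asymptotics NumberField Topology

namespace Pool.Agent.P.MP_68214b_ag.DS

theorem Exc.map {K L : Type*} [Field K] [Field L] (σ : K →+* L) {f : K[X]} (h : Exc f) :
    Exc (f.map σ) := by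
  obtain ⟨s, p, h⟩ := h
  refine ⟨σ s, σ p, ?_⟩
  have := congrArg (Polynomial.map σ) h
  simp only [Polynomial.map_mul, Polynomial.map_add, Polynomial.map_sub, Polynomial.map_pow,
    map_C, map_X, map_pow σ, map_natCast σ] at this
  rw [natDegree_map, derivative_map]
  exact this

theorem exc_of_map {K L : Type*} [Field K] [CharZero K] [Field L] (σ : K →+* L) {f : K[X]}
    (hd : 2 ≤ f.natDegree) (h : Exc (f.map σ)) : Exc f := by
  obtain ⟨s, p, h⟩ := h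
  let _ := σ.toAlgebra
  obtain ⟨l, hl⟩ := LinearMap.exists_leftInverse_of_injective (Algebra.linearMap K L)
    (LinearMap.ker_eq_bot.2 σ.injective)
  have h1 : ∀ x : K, l (σ x) = x := fun x => LinearMap.congr_fun hl x
  have h2 : ∀ (y : L) (x : K), l (y * σ x) = l y * x := fun y x => by
    rw [mul_comm, mul_comm (l y), ← smul_eq_mul x (l y), ← map_smul]
    rfl
  have h3 : (C ((f.natDegree : K) ^ 2) * f ^ 2 - X ^ 2 * derivative f ^ 2).map σ =
      C s * (C ((f.natDegree : K) ^ 2) * f - X * derivative f ^ 2).map σ +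
        C p * (derivative f ^ 2 - C ((f.natDegree : K) ^ 2)).map σ := by
    rw [natDegree_map, derivative_map] at h
    simp only [Polynomial.map_mul, Polynomial.map_sub, Polynomial.map_pow,
      map_C, map_X, map_pow σ, map_natCast σ]
    linear_combination h
  have h4 : C ((f.natDegree : K) ^ 2) * f ^ 2 - X ^ 2 * derivative f ^ 2 =
      C (l s) * (C ((f.natDegree : K) ^ 2) * f - X * derivative f ^ 2) +
        C (l p) * (derivative f ^ 2 - C ((f.natDegree : K) ^ 2)) := by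
    ext i
    have := congrArg (fun q => l (q.coeff i)) h3
    simp only [coeff_add, coeff_C_mul, coeff_map, map_add, h1, h2] at this
    rw [coeff_add, coeff_C_mul, coeff_C_mul, this]
  exact ⟨l s, l p, by linear_combination h4⟩

theorem special_scale {f : ℂ[X]} {κ : ℂ} (hκ : κ ≠ 0)
    (h : Special (C κ * f.comp (C κ⁻¹ * X))) : Special f := by
  obtain ⟨a, b, ha, T, hT, h⟩ := h
  have hd : (C κ * f.comp (C κ⁻¹ * X)).natDegree = f.natDegree := by
    rw [natDegree_C_mul hκ, natDegree_comp, natDegree_C_mul_X _ (inv_ne_zero hκ), mul_one]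
  rw [hd] at hT
  refine ⟨κ⁻¹ * a, κ⁻¹ * b, mul_ne_zero (inv_ne_zero hκ) ha, T, hT, ?_⟩
  have e : (C κ⁻¹ : ℂ[X]) * C κ = 1 := by rw [← C_mul, inv_mul_cancel₀ hκ, C_1]
  rw [mul_comp, C_comp, comp_assoc, mul_comp, C_comp, X_comp, mul_add, ← mul_assoc, ← C_mul,
    ← C_mul] at h
  generalize f.comp (C (κ⁻¹ * a) * X + C (κ⁻¹ * b)) = W at h ⊢
  rw [C_mul, C_mul]
  linear_combination C κ⁻¹ * h - W * e

theorem ns_all {K : Type*} [Field K] [CharZero K] (ι : K →+* ℂ) {f : K[X]} (hd : 2 ≤ f.natDegree)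
    (h : ¬ Special (f.map ι)) (σ : K →+* ℂ) : NS (f.map σ) := by
  refine ns_of (by rwa [natDegree_map]) fun h1 => h ?_
  exact special_of_exc (by rwa [natDegree_map]) ((exc_of_map σ hd h1).map ι)

end Pool.Agent.P.MP_68214b_ag.DS
end

-- part Pool.Agent.P.MP_68214b_ag.DSC6
section

open Polynomial Filter Asymptotics NumberField Topology

namespace Pool.Agent.P.MP_68214b_ag.DS

theorem dsc6_K {k : Type} [Field k] [CharZero k] [Algebra k ℂ] (s : Finset ℂ)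
    (h : ∀ z ∈ s, IsIntegral k z) :
    ∃ K : IntermediateField k ℂ, FiniteDimensional k K ∧ IsGalois k K ∧ ∀ z ∈ s, z ∈ K := by
  set p : k[X] := ∏ z ∈ s, minpoly k z with hp
  have p0 : p ≠ 0 := Finset.prod_ne_zero_iff.2 fun z hz => minpoly.ne_zero (h z hz)
  have hs := IntermediateField.adjoin_rootSet_isSplittingField (K := k) (L := ℂ) (p := p)
    (IsAlgClosed.splits _)
  have hf := IsSplittingField.finiteDimensional (IntermediateField.adjoin k (p.rootSet ℂ)) p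
  have hn := Normal.of_isSplittingField (E := IntermediateField.adjoin k (p.rootSet ℂ)) p
  refine ⟨_, hf, ⟨⟩, fun z hz => IntermediateField.subset_adjoin _ _ ?_⟩
  rw [mem_rootSet_of_ne p0, hp, map_prod]
  exact Finset.prod_eq_zero hz (minpoly.aeval k z)

theorem exists_K (s : Finset ℂ) (h : ∀ z ∈ s, IsIntegral ℚ z) :
    ∃ K : IntermediateField ℚ ℂ, FiniteDimensional ℚ K ∧ Cj K ∧ ∀ z ∈ s, z ∈ K := by
  obtain ⟨K, hf, hg, hm⟩ := dsc6_K s h
  refine ⟨K, hf, fun σ => ?_, hm⟩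
  obtain ⟨c, hc⟩ := @ComplexEmbedding.exists_comp_symm_eq_of_comp_eq K _ ℚ _ _ hg σ
    ((starRingEnd ℂ).comp σ) (Subsingleton.elim _ _)
  exact ⟨_, fun x => RingHom.congr_fun hc x⟩

theorem orbit_int {f : ℂ[X]} (hf : ∀ k, IsIntegral ℤ (f.coeff k)) {α : ℂ} (hα : IsIntegral ℤ α)
    (n : ℕ) : IsIntegral ℤ ((fun z => f.eval z)^[n] α) := by
  induction n with
  | zero => exact hα
  | succ n ih =>
    rw [Function.iterate_succ_apply', eval_eq_sum, sum_def]
    exact IsIntegral.sum _ fun k _ => (hf k).mul (ih.pow k)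

theorem exists_orb {J : Type} [Fintype J] (f : J → ℂ[X]) (α : J → ℂ)
    (hf : ∀ i k, IsAlgebraic ℚ ((f i).coeff k)) (hα : ∀ i, IsAlgebraic ℚ (α i))
    (s0 : Finset ℂ) (h0 : ∀ z ∈ s0, IsAlgebraic ℚ z) :
    ∃ (K : IntermediateField ℚ ℂ) (κ : J → K) (g : J → K[X]) (x : J → ℕ → K),
      FiniteDimensional ℚ K ∧ Cj K ∧ (∀ z ∈ s0, z ∈ K) ∧ (∀ i, κ i ≠ 0) ∧
      (∀ i, 2 ≤ (f i).natDegree → Orb (g i) (x i) ∧ (g i).natDegree = (f i).natDegree ∧
        (¬ Special (f i) → NSa (g i))) ∧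
      (∀ i, ¬ 2 ≤ (f i).natDegree → ∃ a b, ∀ n, x i (n + 1) = a * x i n + b) ∧
      ∀ i n, (x i n : ℂ) = κ i * (fun z => (f i).eval z)^[n] (α i) := by
  classical
  have hκ : ∀ i, ∃ κ : ℂ, κ ≠ 0 ∧ IsIntegral ℚ κ ∧
      (2 ≤ (f i).natDegree → κ ^ ((f i).natDegree - 1) = (f i).leadingCoeff) := fun i => by
    by_cases hd : 2 ≤ (f i).natDegree
    · obtain ⟨κ, hκ⟩ := IsAlgClosed.exists_pow_nat_eq (f i).leadingCoeff
        (show 0 < (f i).natDegree - 1 by omega)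
      refine ⟨κ, ?_, IsIntegral.of_pow (show 0 < (f i).natDegree - 1 by omega)
        (hκ ▸ (hf i _).isIntegral), fun _ => hκ⟩
      rintro rfl
      rw [zero_pow (by omega), eq_comm, leadingCoeff_eq_zero] at hκ
      rw [hκ] at hd
      simp at hd
    · exact ⟨1, one_ne_zero, isIntegral_one, fun h => absurd h hd⟩
  choose κ κ0 κi κd using hκ
  obtain ⟨K, hK, hC, hm⟩ := exists_K (s0 ∪ (Finset.univ.image κ ∪ (Finset.univ.image α ∪
      Finset.univ.biUnion fun i => (f i).coeffs))) (by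
    simp only [Finset.mem_union, Finset.mem_image, Finset.mem_biUnion, mem_coeffs_iff]
    rintro z (hz | ⟨i, -, rfl⟩ | ⟨i, -, rfl⟩ | ⟨i, -, k, -, rfl⟩)
    exacts [(h0 z hz).isIntegral, κi i, (hα i).isIntegral, (hf i k).isIntegral])
  have mκ : ∀ i, κ i ∈ K := fun i => hm _ (by simp)
  have mα : ∀ i, α i ∈ K := fun i => hm _ (by simp)
  have mf : ∀ i, ∃ f0 : K[X], f0.map (algebraMap K ℂ) = f i := fun i =>
    (mem_lifts _).1 ((lifts_iff_coeff_lifts _).2 fun k => by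
      by_cases h : (f i).coeff k = 0
      · exact ⟨0, by rw [h, map_zero]⟩
      · refine ⟨⟨_, hm _ ?_⟩, rfl⟩
        simp only [Finset.mem_union, Finset.mem_biUnion]
        exact Or.inr (Or.inr (Or.inr ⟨i, Finset.mem_univ _, coeff_mem_coeffs h⟩)))
  choose f0 hf0 using mf
  have : CharZero K := algebraRat.charZero K
  set k : J → K := fun i => ⟨κ i, mκ i⟩ with hk
  have k0 : ∀ i, k i ≠ 0 := fun i h => κ0 i (congrArg Subtype.val h)
  set y : J → ℕ → K := fun i n => (fun z => (f0 i).eval z)^[n] ⟨α i, mα i⟩ with hy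
  have y1 : ∀ i n, y i (n + 1) = (f0 i).eval (y i n) := fun i n => Function.iterate_succ_apply' _ _ _
  have y2 : ∀ i n, (y i n : ℂ) = (fun z => (f i).eval z)^[n] (α i) := fun i n => by
    induction n with
    | zero => rfl
    | succ n ih =>
      rw [y1, Function.iterate_succ_apply', ← ih, ← hf0, eval_map]
      exact (eval₂_at_apply (algebraMap K ℂ) _).symm
  have d0 : ∀ i, (f0 i).natDegree = (f i).natDegree := fun i => by rw [← hf0, natDegree_map]
  set g : J → K[X] := fun i => C (k i) * (f0 i).comp (C (k i)⁻¹ * X) with hg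
  have gd : ∀ i, (g i).natDegree = (f i).natDegree := fun i => by
    rw [hg, natDegree_C_mul (k0 i), natDegree_comp, natDegree_C_mul (inv_ne_zero (k0 i)),
      natDegree_X, mul_one, d0]
  refine ⟨K, k, g, fun i n => k i * y i n, hK, hC, fun z hz => hm z (Finset.mem_union_left _ hz),
    k0, fun i hd => ⟨⟨?_, gd i ▸ hd, fun n => ?_⟩, gd i, fun hs => ?_⟩,
    fun i hd => ?_, fun i n => by rw [← y2]; rfl⟩
  · have e : k i ^ ((f i).natDegree - 1) = (f0 i).leadingCoeff := by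
      apply (algebraMap K ℂ).injective
      rw [← leadingCoeff_map, hf0, ← κd i hd, map_pow]
      rfl
    rw [Monic, hg, leadingCoeff_mul, leadingCoeff_C, leadingCoeff_comp (by
      rw [natDegree_C_mul (inv_ne_zero (k0 i)), natDegree_X]; exact one_ne_zero),
      leadingCoeff_mul, leadingCoeff_C, leadingCoeff_X, mul_one, ← e, d0, ← mul_assoc, ← pow_succ',
      Nat.sub_add_cancel (by omega), ← mul_pow, mul_inv_cancel₀ (k0 i), one_pow]
  · simp only [hg, eval_mul, eval_C, eval_comp, eval_X, inv_mul_cancel_left₀ (k0 i), y1]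
  · refine ns_all (algebraMap K ℂ) (gd i ▸ hd) fun h => hs (special_scale (κ0 i) ?_)
    simp only [hg, Polynomial.map_mul, map_C, map_comp, map_X, hf0, map_inv₀] at h
    exact h
  · refine ⟨(f0 i).coeff 1, k i * (f0 i).coeff 0, fun n => ?_⟩
    simp only [y1]
    conv_lhs => rw [eq_X_add_C_of_natDegree_le_one (p := f0 i) (by rw [d0]; omega)]
    simp only [eval_add, eval_mul, eval_C, eval_X]
    ring

theorem den_of_map {K : Type} [Field K] [NumberField K] (ι : K →+* ℂ) {κ : K} (hκ : κ ≠ 0)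
    {x : ℕ → K} {z : ℕ → ℂ} (hx : ∀ n, ι (x n) = ι κ * z n) (h : Den z) : Den x := by
  obtain ⟨N, hN, hi⟩ := h
  have e : x = fun n => κ * (κ⁻¹ * x n) := funext fun n => (mul_inv_cancel_left₀ hκ _).symm
  rw [e]
  refine (Den.const κ).mul ⟨N, hN, fun n => ?_⟩
  refine (isIntegral_algHom_iff ι.toIntAlgHom ι.injective).1 ?_
  have : ι.toIntAlgHom ((N : K) * (κ⁻¹ * x n)) = N * z n := by
    change ι _ = _
    rw [map_mul, map_natCast, map_mul, hx, map_inv₀,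
      inv_mul_cancel_left₀ ((_root_.map_ne_zero ι).2 hκ)]
  rw [this]
  exact hi n

end Pool.Agent.P.MP_68214b_ag.DS
end

-- part Pool.Agent.P.MP_68214b_ag.DSC7
section

open Polynomial Filter Asymptotics NumberField Topology

namespace Pool.Agent.P.MP_68214b_ag.DS

theorem mainAP' {J : Type} [Fintype J] (f : J → ℂ[X]) (α : J → ℂ)
    (hf : ∀ i k, IsAlgebraic ℚ ((f i).coeff k)) (hα : ∀ i, IsAlgebraic ℚ (α i))
    (hi : ∀ i, 2 ≤ (f i).natDegree → Den fun n => (fun z => (f i).eval z)^[n] (α i))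
    (hs : ∀ d, 2 ≤ d → {i | (f i).natDegree = d ∧ Special (f i)}.ncard ≤ 3)
    (𝓠 : Set (J → ℂ[X])) : ∃ l, 0 < l ∧ ∃ n0, ∀ n ≥ n0,
      ((∀ q ∈ 𝓠, ∑ i, (q i).eval ((fun z => (f i).eval z)^[n] (α i)) = 0) ↔
        ∀ q ∈ 𝓠, ∑ i, (q i).eval ((fun z => (f i).eval z)^[n + l] (α i)) = 0) := by
  obtain ⟨K, κ, g, x, hK, hC, -, hκ, hO, hA, hx⟩ := exists_orb f α hf hα ∅ (by simp)
  have : NumberField K := ⟨⟩
  obtain ⟨𝓡, h𝓡⟩ := descend (algebraMap K ℂ)
    ((fun q i => (q i).comp (C (κ i : ℂ)⁻¹ * X)) '' 𝓠 : Set (J → ℂ[X]))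
  obtain ⟨l, hl, n0, h⟩ := topK hC (fun i => 2 ≤ (f i).natDegree) (fun i h => (hO i h).1)
    (fun i h => den_of_map (algebraMap K ℂ) (hκ i) (hx i) (hi i h)) hA
    (fun t ht h2 hd => by
      by_contra! hn
      obtain ⟨i, hi⟩ := Finset.card_pos.1 (show 0 < t.card by omega)
      have := (Set.ncard_le_ncard (s := (t : Set J))
        (t := {j | (f j).natDegree = (f i).natDegree ∧ Special (f j)}) (fun j hj => ⟨by
        rw [← (hO j (h2 j hj)).2.1, hd j hj i hi, (hO i (h2 i hi)).2.1],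
        by_contra fun h => hn j hj ((hO j (h2 j hj)).2.2 h)⟩)).trans (hs _ (h2 i hi))
      rw [Set.ncard_coe_finset] at this
      omega) 𝓡
  have key (n : ℕ) : (∀ q ∈ 𝓠, ∑ i, (q i).eval ((fun z => (f i).eval z)^[n] (α i)) = 0) ↔
      ∀ q ∈ 𝓡, ∑ i, (q i).eval (x i n) = 0 := by
    rw [← h𝓡 fun i => x i n, Set.forall_mem_image]
    refine forall₂_congr fun q _ => ?_
    have e (i : J) : ((q i).comp (C (κ i : ℂ)⁻¹ * X)).eval (algebraMap K ℂ (x i n)) =
        (q i).eval ((fun z => (f i).eval z)^[n] (α i)) := by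
      rw [eval_comp, eval_mul, eval_C, eval_X, show algebraMap K ℂ (x i n) = x i n from rfl, hx,
        inv_mul_cancel_left₀ (by simpa using hκ i)]
    simp only [e]
  exact ⟨l, hl, n0, fun n hn => by rw [key, key]; exact h n hn⟩

theorem mainAP {J : Type} [Fintype J] (f : J → ℂ[X]) (α : J → ℂ)
    (hf : ∀ i k, IsAlgebraic ℚ ((f i).coeff k)) (hα : ∀ i, IsAlgebraic ℚ (α i))
    (hi : ∀ i, 2 ≤ (f i).natDegree → (∀ k, IsIntegral ℤ ((f i).coeff k)) ∧ IsIntegral ℤ (α i))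
    (hs : ∀ d, 2 ≤ d → {i | (f i).natDegree = d ∧ Special (f i)}.ncard ≤ 3)
    (𝓠 : Set (J → ℂ[X])) : ∃ l, 0 < l ∧ ∃ n0, ∀ n ≥ n0,
      ((∀ q ∈ 𝓠, ∑ i, (q i).eval ((fun z => (f i).eval z)^[n] (α i)) = 0) ↔
        ∀ q ∈ 𝓠, ∑ i, (q i).eval ((fun z => (f i).eval z)^[n + l] (α i)) = 0) :=
  mainAP' f α hf hα (fun i h => ⟨1, one_pos, fun n => by
    simpa only [Nat.cast_one, one_mul] using orbit_int (hi i h).1 (hi i h).2 n⟩) hs 𝓠

theorem dsc7_inj {A : Type*} (Φ : A → A) (α : A) (h : (Set.range fun n => Φ^[n] α).Infinite) :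
    Function.Injective fun n => Φ^[n] α := by
  refine Function.Injective.of_lt_imp_ne fun a b hab e => h ?_
  refine ((Set.finite_lt_nat b).image fun n => Φ^[n] α).subset ?_
  rintro _ ⟨n, rfl⟩
  induction n using Nat.strong_induction_on with
  | _ n ih =>
    by_cases hn : n < b
    · exact ⟨n, hn, rfl⟩
    · obtain ⟨c, rfl⟩ := Nat.exists_eq_add_of_le' (not_lt.1 hn)
      have := ih (c + a) (by omega)
      simp only [Function.iterate_add_apply] at this ⊢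
      rwa [← e]

theorem q1_of_ap {J : Type} (f : J → ℂ[X]) (α : J → ℂ) (I : Set (MvPolynomial J ℂ))
    (Φ : (J → ℂ) → J → ℂ) (hΦ : ∀ p i, Φ p i = (f i).eval (p i))
    (Z : Set (MvPolynomial J ℂ) → Set (J → ℂ))
    (hZ : ∀ S p, p ∈ Z S ↔ ∀ F ∈ S, MvPolynomial.eval p F = 0) {l n0 : ℕ} (hl : 0 < l)
    (h : ∀ n ≥ n0, (Φ^[n] α ∈ Z I ↔ Φ^[n + l] α ∈ Z I))
    (hn : ¬ ∃ S, (Z S).Infinite ∧ Z S ⊆ Z I ∧ (∃ k ≥ 1, Set.MapsTo Φ^[k] (Z S) (Z S)) ∧
      ∃ n, Φ^[n] α ∈ Z S) : (Z I ∩ Set.range fun n => Φ^[n] α).Finite := by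
  have hq (k : ℕ) : ∀ F : MvPolynomial J ℂ, ∃ G : MvPolynomial J ℂ, ∀ p,
      MvPolynomial.eval (Φ^[k] p) F = MvPolynomial.eval p G := by
    induction k with
    | zero => exact fun F => ⟨F, fun _ => rfl⟩
    | succ k ih =>
      intro F
      obtain ⟨G, hG⟩ := ih (phi f F)
      refine ⟨G, fun p => ?_⟩
      rw [← hG, eval_phi, Function.iterate_succ_apply']
      exact congrArg (fun y => MvPolynomial.eval y F) (funext (hΦ _))
  by_contra hinf
  have inj := dsc7_inj Φ α (Set.Infinite.mono Set.inter_subset_right hinf)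
  obtain ⟨n, hn0, hI⟩ : ∃ n ≥ n0, Φ^[n] α ∈ Z I := by
    by_contra! H
    refine hinf (((Set.finite_lt_nat n0).image fun n => Φ^[n] α).subset ?_)
    rintro _ ⟨h, n, rfl⟩
    exact ⟨n, not_le.1 fun hn => H n hn h, rfl⟩
  have mem (j : ℕ) : Φ^[n + l * j] α ∈
      Z {F | ∀ j, MvPolynomial.eval (Φ^[n + l * j] α) F = 0} := (hZ _ _).2 fun F hF => hF j
  have hI' (j : ℕ) : Φ^[n + l * j] α ∈ Z I := by
    induction j with
    | zero => exact hI
    | succ j ih =>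
      rw [mul_add, mul_one, ← add_assoc]
      exact (h _ (le_add_right hn0)).1 ih
  refine hn ⟨_, Set.infinite_of_injective_forall_mem (fun i j e => ?_) mem,
    fun p hp => (hZ _ _).2 fun F hF => (hZ _ _).1 hp F fun j => (hZ _ _).1 (hI' j) F hF,
    ⟨l, hl, fun p hp => (hZ _ _).2 fun F hF => ?_⟩, _, mem 0⟩
  · exact Nat.eq_of_mul_eq_mul_left hl (Nat.add_left_cancel (inj e))
  · obtain ⟨G, hG⟩ := hq l F
    rw [hG]
    refine (hZ _ _).1 hp G fun j => ?_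
    rw [← hG, ← Function.iterate_add_apply, ← hF (j + 1)]
    congr 3
    ring

end Pool.Agent.P.MP_68214b_ag.DS
end
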