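import Pool.Agent.K.MP_68214b_ag.C0
import Mathlib
import Pool.Agent.K.MP_68214b_ag.C1
import Pool.Agent.P.MP_6e34ef_nt.AK.Main
import Pool.Agent.P.MP_6e34ef_nt.NF.Resid

-- part Pool.Agent.P.MP_68214b_ag.DP10
section

/-! Orbits with unit Jacobians. -/

open Filter MvPolynomial

namespace Pool.Agent.P.MP_68214b_ag.DP

section Ultra

variable {Ω : Type} [NormedField Ω] [IsUltrametricDist Ω] {J : Type}

theorem dp10_O : ∃ O : Subring Ω, ∀ a, a ∈ O ↔ ‖a‖ ≤ 1 :=
  ⟨{ carrier := {a | ‖a‖ ≤ 1}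
     mul_mem' := fun {a b} ha hb => (norm_mul_le a b).trans (mul_le_one₀ ha (norm_nonneg _) hb)
     one_mem' := norm_one.le
     add_mem' := fun {a b} ha hb => (IsUltrametricDist.norm_add_le_max a b).trans (max_le ha hb)
     zero_mem' := by simp
     neg_mem' := fun {a} ha => by simpa using ha }, fun _ => Iff.rfl⟩

omit [IsUltrametricDist Ω] in
theorem dp10_der (O : Subring Ω) {P : MvPolynomial J Ω} (hP : ∀ m, coeff m P ∈ O) {u : J → Ω}
    (hu : ∀ j, u j ∈ O) (j : J) : eval u (pderiv j P) ∈ O :=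
  eval_mem (fun m _ => by
    rw [coeff_pderiv]
    exact O.mul_mem (hP _) (O.add_mem (natCast_mem O _) O.one_mem)) hu

omit [IsUltrametricDist Ω] in
theorem dp10_jet [Fintype J] [DecidableEq J] (O : Subring Ω) (S : Subring (ℕ → Ω))
    (hc : ∀ c ∈ O, (fun _ => c) ∈ S) {π : Ω} (hπ : π ∈ O) {u : J → Ω} (hu : ∀ j, u j ∈ O)
    {y : J → ℕ → Ω} (hy : ∀ j, y j ∈ S) {P : MvPolynomial J Ω} (hP : ∀ m, coeff m P ∈ O) :
    ∃ r ∈ S, ∀ t, eval (fun j => u j + π * y j t) P =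
      eval u P + π * (∑ j, eval u (pderiv j P) * y j t + π * r t) := by
  obtain ⟨P, rfl⟩ : P ∈ Set.range (MvPolynomial.map O.subtype) := by
    rw [mem_range_map_iff_coeffs_subset]
    intro a ha
    obtain ⟨m, -, rfl⟩ := mem_coeffs_iff.1 ha
    exact ⟨⟨_, hP m⟩, rfl⟩
  clear hP
  induction P using MvPolynomial.induction_on with
  | C a => exact ⟨0, S.zero_mem, fun t => by simp⟩
  | add P Q hP hQ =>
    obtain ⟨r, a1, a2⟩ := hP
    obtain ⟨r', b1, b2⟩ := hQ
    refine ⟨r + r', S.add_mem a1 b1, fun t => ?_⟩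
    simp only [map_add, a2, b2, add_mul, Finset.sum_add_distrib, Pi.add_apply]
    ring
  | mul_X P i hP =>
    obtain ⟨r, a1, a2⟩ := hP
    have hd : ∀ j, eval u (pderiv j (MvPolynomial.map O.subtype P)) ∈ O :=
      dp10_der O (fun m => by rw [coeff_map]; exact (coeff m P).2) hu
    have h1 : (∑ j, (fun _ => eval u (pderiv j (MvPolynomial.map O.subtype P))) * y j) ∈ S :=
      S.sum_mem fun j _ => S.mul_mem (hc _ (hd j)) (hy j)
    refine ⟨_, S.add_mem (S.mul_mem h1 (hy i)) (S.mul_mem a1 (S.add_mem (hc _ (hu i))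
      (S.mul_mem (hc _ hπ) (hy i)))), fun t => ?_⟩
    have h2 : ∑ j, eval u (pderiv j (MvPolynomial.map O.subtype P * X i)) * y j t =
        (∑ j, eval u (pderiv j (MvPolynomial.map O.subtype P)) * y j t) * u i +
          eval u (MvPolynomial.map O.subtype P) * y i t := by
      have h3 : ∀ j, eval u (pderiv j (MvPolynomial.map O.subtype P * X i)) * y j t =
          eval u (pderiv j (MvPolynomial.map O.subtype P)) * y j t * u i +
            if j = i then eval u (MvPolynomial.map O.subtype P) * y j t else 0 := fun j => by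
        rw [pderiv_mul, pderiv_X, map_add, map_mul, map_mul, eval_X, Pi.single_apply]
        by_cases h : j = i
        · rw [if_pos h, if_pos h.symm, map_one]; ring
        · rw [if_neg h, if_neg (Ne.symm h), map_zero]; ring
      simp only [h3, Finset.sum_add_distrib, Finset.sum_ite_eq', Finset.mem_univ, if_true,
        Finset.sum_mul]
    simp only [map_mul, map_X, eval_X, a2, h2, Pi.add_apply, Pi.mul_apply, Finset.sum_apply]
    ring

theorem dp10_diff {π : Ω} (hπ : ‖π‖ < 1) {y : J → ℕ → Ω} (S : Subring (ℕ → Ω))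
    (hS : S = Subring.closure ({s | ∃ c, ‖c‖ ≤ 1 ∧ s = fun _ => c} ∪ Set.range y))
    (h1 : ∀ i, ‖y i 0‖ ≤ 1) (hy : ∀ i, ∃ s ∈ S, ∀ t, y i (t + 1) = y i t + π * s t)
    {z : J → ℕ → Ω} (hz : ∀ i, z i ∈ S) (P : MvPolynomial J Ω) :
    ∃ j : ℕ, ∀ k, ‖(fwdDiff 1)^[k] (fun t => π ^ j * eval (z · t) P) 0‖ ≤ ‖π‖ ^ k := by
  have hc : ∀ c, ‖c‖ ≤ 1 → (fun _ => c) ∈ S := fun c h =>
    hS ▸ Subring.subset_closure (Or.inl ⟨c, h, rfl⟩)
  have hp := hc π hπ.le
  have key : ∀ s ∈ S, ‖s 0‖ ≤ 1 ∧ ∃ s' ∈ S, ∀ t, s (t + 1) = s t + π * s' t := by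
    intro s hs
    rw [hS] at hs
    induction hs using Subring.closure_induction with
    | mem s h =>
      rcases h with ⟨c, h, rfl⟩ | ⟨i, rfl⟩
      · exact ⟨h, 0, S.zero_mem, fun _ => by simp⟩
      · exact ⟨h1 i, hy i⟩
    | zero => exact ⟨by simp, 0, S.zero_mem, fun _ => by simp⟩
    | one => exact ⟨by simp, 0, S.zero_mem, fun _ => by simp⟩
    | add s u _ _ hs hu =>
      obtain ⟨a1, s', a2, a3⟩ := hs
      obtain ⟨b1, u', b2, b3⟩ := hu
      exact ⟨(IsUltrametricDist.norm_add_le_max _ _).trans (max_le a1 b1),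
        _, S.add_mem a2 b2, fun t => by simp only [Pi.add_apply, a3, b3]; ring⟩
    | neg s _ hs =>
      obtain ⟨a1, s', a2, a3⟩ := hs
      exact ⟨by simpa using a1, _, S.neg_mem a2, fun t => by simp only [Pi.neg_apply, a3]; ring⟩
    | mul s u hs' hu' hs hu =>
      obtain ⟨a1, s', a2, a3⟩ := hs
      obtain ⟨b1, u', b2, b3⟩ := hu
      rw [← hS] at hs' hu'
      exact ⟨(norm_mul_le _ _).trans (mul_le_one₀ a1 (norm_nonneg _) b1),
        _, S.add_mem (S.add_mem (S.mul_mem a2 hu') (S.mul_mem hs' b2))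
          (S.mul_mem hp (S.mul_mem a2 b2)),
        fun t => by simp only [Pi.mul_apply, Pi.add_apply, a3, b3]; ring⟩
  have iter : ∀ k, ∀ s ∈ S, ‖(fwdDiff 1)^[k] s 0‖ ≤ ‖π‖ ^ k := by
    intro k
    induction k with
    | zero => exact fun s hs => by simpa using (key s hs).1
    | succ k ih =>
      intro s hs
      obtain ⟨-, s', a2, a3⟩ := key s hs
      have e : fwdDiff 1 s = π • s' := by
        funext t
        simp [fwdDiff, a3]
      rw [Function.iterate_succ_apply, e, fwdDiff_iter_const_smul, Pi.smul_apply, norm_smul,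
        pow_succ']
      exact mul_le_mul_of_nonneg_left (ih s' a2) (norm_nonneg _)
  suffices h : ∃ j : ℕ, (fun t => π ^ j * eval (z · t) P) ∈ S from
    h.imp fun j hj k => iter k _ hj
  induction P using MvPolynomial.induction_on with
  | C a =>
    have h := ((tendsto_pow_atTop_nhds_zero_of_norm_lt_one hπ).mul_const a).norm
    rw [zero_mul, norm_zero] at h
    obtain ⟨j, hj⟩ := (h.eventually (eventually_le_nhds zero_lt_one)).exists
    exact ⟨j, by simpa using hc _ hj⟩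
  | add P Q hP hQ =>
    obtain ⟨j, hj⟩ := hP
    obtain ⟨k, hk⟩ := hQ
    refine ⟨j + k, (congrArg (· ∈ S) ?_).mp
      (S.add_mem (S.mul_mem (S.pow_mem hp k) hj) (S.mul_mem (S.pow_mem hp j) hk))⟩
    funext t
    simp only [map_add, Pi.add_apply, Pi.mul_apply, Pi.pow_apply]
    ring
  | mul_X P i hP =>
    obtain ⟨j, hj⟩ := hP
    refine ⟨j, (congrArg (· ∈ S) ?_).mp (S.mul_mem hj (hz i))⟩
    funext t
    simp [mul_assoc]

theorem dp10_core [Fintype J] [DecidableEq J] {π : Ω} (hπ : ‖π‖ < 1) (h0 : π ≠ 0) {l n : ℕ}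
    (Φ : ℕ → J → MvPolynomial J Ω) (hper : ∀ m, Φ (m + l) = Φ m)
    (hΦ : ∀ n j m, ‖coeff m (Φ n j)‖ ≤ 1) (x : ℕ → J → Ω)
    (hx : ∀ n j, x (n + 1) j = eval (x n) (Φ n j)) (hx1 : ∀ n j, ‖x n j‖ ≤ 1)
    (N : ℕ → Matrix J J Ω) (hN0 : N 0 = 1)
    (hN : ∀ s, N (s + 1) = (Matrix.of fun i j => eval (x (n + s)) (pderiv j (Φ (n + s) i))) * N s)
    (hN1 : ∀ s i j, ‖N s i j‖ ≤ 1) (h1 : ∀ j, ‖(x (n + l) j - x n j) / π ^ 2‖ ≤ 1)
    (h2 : ∀ i j, ‖(N l - 1) i j / π‖ ≤ 1) (s : ℕ) (P : MvPolynomial J Ω) :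
    ∃ j : ℕ, ∀ k, ‖(fwdDiff 1)^[k] (fun t => π ^ j * eval (x (n + s + l * t)) P) 0‖ ≤ ‖π‖ ^ k := by
  obtain ⟨O, hO⟩ := dp10_O (Ω := Ω)
  obtain ⟨Y, hY⟩ : ∃ Y : J → ℕ → Ω, ∀ j t, Y j t = (x (n + l * t) j - x n j) / π :=
    ⟨_, fun _ _ => rfl⟩
  obtain ⟨S, hS⟩ : ∃ S : Subring (ℕ → Ω),
      S = Subring.closure ({s | ∃ c, ‖c‖ ≤ 1 ∧ s = fun _ => c} ∪ Set.range Y) := ⟨_, rfl⟩
  have hc : ∀ c, ‖c‖ ≤ 1 → (fun _ => c) ∈ S := fun c h =>
    hS ▸ Subring.subset_closure (Or.inl ⟨c, h, rfl⟩)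
  have hYS : ∀ i, Y i ∈ S := fun i => hS ▸ Subring.subset_closure (Or.inr ⟨i, rfl⟩)
  have hp := hc π hπ.le
  have hper' : ∀ m t, Φ (m + l * t) = Φ m := fun m t => by
    induction t with
    | zero => rfl
    | succ t ih => rw [mul_add, mul_one, ← add_assoc, hper, ih]
  have hlin : ∀ (A : Matrix J J Ω) (y : J → ℕ → Ω), (∀ i j, ‖A i j‖ ≤ 1) → (∀ i, y i ∈ S) → ∀ j,
      (fun t => ∑ i, A j i * y i t) ∈ S := fun A y hA hy j => by
    refine (congrArg (· ∈ S) ?_).mp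
      (S.sum_mem (t := Finset.univ) fun i _ => S.mul_mem (hc _ (hA j i)) (hy i))
    funext t
    simp
  have step : ∀ s, ∃ r : J → ℕ → Ω, (∀ j, r j ∈ S) ∧ ∀ t j, x (n + s + l * t) j =
      x (n + s) j + π * (∑ i, N s j i * Y i t + π * r j t) := by
    intro s
    induction s with
    | zero =>
      refine ⟨0, fun _ => S.zero_mem, fun t j => ?_⟩
      simp only [hN0, Matrix.one_apply, ite_mul, one_mul, zero_mul, Finset.sum_ite_eq,
        Finset.mem_univ, if_true, Pi.zero_apply, mul_zero, add_zero, hY]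
      field_simp
      ring
    | succ s ih =>
      obtain ⟨r, a1, a2⟩ := ih
      have hy : ∀ j, (fun t => ∑ i, N s j i * Y i t + π * r j t) ∈ S := fun j =>
        S.add_mem (hlin _ _ (hN1 s) hYS j) (S.mul_mem hp (a1 j))
      choose r' b1 b2 using fun j => dp10_jet O S (fun c h => hc c ((hO c).1 h)) ((hO π).2 hπ.le)
        (fun i => (hO _).2 (hx1 (n + s) i)) hy (P := Φ (n + s) j) fun m => (hO _).2 (hΦ _ _ _)
      refine ⟨fun j => (fun t => ∑ i, (Matrix.of fun i j => eval (x (n + s))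
        (pderiv j (Φ (n + s) i))) j i * r i t) + r' j, fun j => S.add_mem (hlin _ _ (fun i k =>
          (hO _).1 (dp10_der O (fun m => (hO _).2 (hΦ _ _ _)) (fun i => (hO _).2 (hx1 _ i)) k))
            a1 j) (b1 j), fun t j => ?_⟩
      rw [show n + (s + 1) + l * t = n + s + l * t + 1 by ring, hx, hper', funext (a2 t), b2,
        ← add_assoc n, hx, hN]
      simp only [Matrix.mul_apply, Matrix.of_apply, Pi.add_apply, mul_add, Finset.sum_add_distrib,
        Finset.sum_mul, Finset.mul_sum]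
      rw [Finset.sum_comm]
      simp only [mul_assoc, mul_left_comm π, add_assoc]
  refine dp10_diff hπ S hS (fun i => by simp [hY]) (fun j => ?_)
    (z := fun j t => x (n + s + l * t) j) (fun j => ?_) P
  · obtain ⟨r, a1, a2⟩ := step l
    refine ⟨_, S.add_mem (S.add_mem (hc _ (h1 j))
      (hlin (Matrix.of fun i k => (N l - 1) i k / π) Y h2 hYS j)) (a1 j), fun t => ?_⟩
    have e : ∑ i, (N l - 1) j i / π * Y i t = (∑ i, N l j i * Y i t - Y j t) / π := by
      simp only [Matrix.sub_apply, Matrix.one_apply, div_mul_eq_mul_div, sub_mul, ite_mul, one_mul,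
        zero_mul, ← Finset.sum_div, Finset.sum_sub_distrib, Finset.sum_ite_eq, Finset.mem_univ,
        if_true]
    rw [hY j (t + 1), show n + l * (t + 1) = n + l + l * t by ring, a2]
    simp only [Pi.add_apply, Matrix.of_apply, e]
    field_simp
    ring
  · obtain ⟨r, a1, a2⟩ := step s
    refine (congrArg (· ∈ S) (funext fun t => (a2 t j).symm)).mp
      (S.add_mem (hc _ (hx1 (n + s) j)) (S.mul_mem hp
        (S.add_mem (hlin _ _ (hN1 s) hYS j) (S.mul_mem hp (a1 j)))))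

end Ultra

theorem dp10_pair {p : ℕ} [Fact p.Prime] (K : IntermediateField ℚ_[p] (PadicAlgCl p))
    [FiniteDimensional ℚ_[p] K] {I : Type} [Fintype I] (u : ℕ → I → PadicAlgCl p)
    (hK : ∀ n i, u n i ∈ K) (hu : ∀ n i, ‖u n i‖ ≤ 1) {ε : ℝ} (hε : 0 < ε) :
    ∃ n m, n < m ∧ ∀ i, ‖u m i - u n i‖ ≤ ε := by
  let V : Submodule ℚ_[p] (PadicAlgCl p) := K.toSubmodule
  have : FiniteDimensional ℚ_[p] V := ‹FiniteDimensional ℚ_[p] K›
  have : ProperSpace V := FiniteDimensional.proper ℚ_[p] V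
  obtain ⟨a, -, φ, h1, h2⟩ := tendsto_subseq_of_bounded
    (Metric.isBounded_closedBall (x := (0 : I → V)) (r := 1))
    (x := fun n i => ⟨u n i, hK n i⟩) fun n =>
      mem_closedBall_zero_iff.2 ((pi_norm_le_iff_of_nonneg zero_le_one).2 (hu n))
  obtain ⟨N, hN⟩ := Metric.cauchySeq_iff'.1 h2.cauchySeq ε hε
  refine ⟨φ N, φ (N + 1), h1 (Nat.lt_succ_self N), fun i => ?_⟩
  have h3 := (dist_le_pi_dist _ _ i).trans (hN (N + 1) (Nat.le_succ N)).le
  rwa [dist_eq_norm] at h3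

theorem pad {p : ℕ} [Fact p.Prime] {J : Type} [Fintype J] [DecidableEq J] {q : ℕ} (hq : 0 < q)
    (Φ : ℕ → J → MvPolynomial J (PadicAlgCl p)) (hper : ∀ n, Φ (n + q) = Φ n)
    (hΦ : ∀ n j m, ‖coeff m (Φ n j)‖ ≤ 1) (x : ℕ → J → PadicAlgCl p)
    (hx : ∀ n j, x (n + 1) j = eval (x n) (Φ n j)) (h0 : ∀ j, ‖x 0 j‖ ≤ 1)
    (hJ : ∀ n, ‖(Matrix.of fun i j => eval (x n) (pderiv j (Φ n i))).det‖ = 1) :
    ∃ l, 0 < l ∧ ∃ n0, ∀ c, n0 ≤ c → ∀ P : MvPolynomial J (PadicAlgCl p),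
      (∃ᶠ t in atTop, eval (x (c + l * t)) P = 0) → ∀ t, eval (x (c + l * t)) P = 0 := by
  obtain ⟨O, hO⟩ := dp10_O (Ω := PadicAlgCl p)
  obtain ⟨N, hN0, hN⟩ : ∃ N : ℕ → ℕ → Matrix J J (PadicAlgCl p), (∀ n, N n 0 = 1) ∧
      ∀ n s, N n (s + 1) =
        (Matrix.of fun i j => eval (x (n + s)) (pderiv j (Φ (n + s) i))) * N n s :=
    ⟨fun n s => Nat.rec 1 (fun s A =>
      (Matrix.of fun i j => eval (x (n + s)) (pderiv j (Φ (n + s) i))) * A) s,
      fun _ => rfl, fun _ _ => rfl⟩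
  have hmem : ∀ T : Subring (PadicAlgCl p), (∀ n j m, coeff m (Φ n j) ∈ T) → (∀ j, x 0 j ∈ T) →
      (∀ n j, x n j ∈ T) ∧ ∀ n s i j, N n s i j ∈ T := by
    intro T t1 t2
    have t3 : ∀ n j, x n j ∈ T := by
      intro n
      induction n with
      | zero => exact t2
      | succ n ih => exact fun j => by rw [hx]; exact eval_mem (fun m _ => t1 _ _ _) ih
    refine ⟨t3, fun n s => ?_⟩
    induction s with
    | zero =>
      intro i j
      rw [hN0, Matrix.one_apply]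
      split_ifs
      exacts [T.one_mem, T.zero_mem]
    | succ s ih =>
      intro i j
      rw [hN, Matrix.mul_apply]
      exact T.sum_mem fun k _ => T.mul_mem (dp10_der T (t1 _ _) (t3 _) k) (ih k j)
  obtain ⟨x1, N1⟩ := hmem O (fun n j m => (hO _).2 (hΦ n j m)) fun j => (hO _).2 (h0 j)
  have hper' : ∀ m t, Φ (m + q * t) = Φ m := fun m t => by
    induction t with
    | zero => rfl
    | succ t ih => rw [mul_add, mul_one, ← add_assoc, hper, ih]
  let Z : Set (PadicAlgCl p) :=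
    (⋃ a : Fin q × J, ((Φ a.1 a.2).coeffs : Set (PadicAlgCl p))) ∪ Set.range (x 0)
  have : Finite Z := ((Set.finite_iUnion fun _ => Finset.finite_toSet _).union
    (Set.finite_range _)).to_subtype
  have := IntermediateField.finiteDimensional_adjoin (K := ℚ_[p]) (S := Z) fun a _ =>
    Algebra.IsIntegral.isIntegral a
  obtain ⟨x2, N2⟩ := hmem (IntermediateField.adjoin ℚ_[p] Z).toSubalgebra.toSubring
    (fun n j m => by
      rw [← Nat.mod_add_div n q, hper']
      by_cases h : coeff m (Φ (n % q) j) = 0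
      · rw [h]; exact zero_mem _
      · exact IntermediateField.subset_adjoin ℚ_[p] Z (Or.inl (Set.mem_iUnion.2
          ⟨(⟨n % q, Nat.mod_lt _ hq⟩, j), coeff_mem_coeffs m h⟩)))
    fun j => IntermediateField.subset_adjoin ℚ_[p] Z (Or.inr ⟨j, rfl⟩)
  have np : ‖(p : PadicAlgCl p)‖ = (p : ℝ)⁻¹ := by
    rw [← map_natCast (algebraMap ℚ_[p] (PadicAlgCl p)), norm_algebraMap', Padic.norm_p]
  have p1 : (1 : ℝ) < p := by exact_mod_cast (Fact.out : p.Prime).one_lt
  have p0 : 0 < (p : ℝ)⁻¹ := by positivity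
  have p2 : (p : ℝ)⁻¹ < 1 := inv_lt_one_of_one_lt₀ p1
  obtain ⟨π, nπ⟩ : ∃ π : PadicAlgCl p, ‖π‖ = (p : ℝ)⁻¹ ^ 2 := ⟨p ^ 2, by rw [norm_pow, np]⟩
  have π0 : 0 < ‖π‖ := by rw [nπ]; positivity
  have π1 : ‖π‖ < 1 := by rw [nπ]; exact pow_lt_one₀ p0.le p2 two_ne_zero
  obtain ⟨a, b, hab, h⟩ := dp10_pair (IntermediateField.adjoin ℚ_[p] Z) (I := J ⊕ J × J)
    (fun k => Sum.elim (x (q * k)) fun e => N 0 (q * k) e.1 e.2)
    (by rintro n (i | i); exacts [x2 _ _, N2 _ _ _ _])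
    (by rintro n (i | i); exacts [(hO _).1 (x1 _ _), (hO _).1 (N1 _ _ _ _)]) (pow_pos π0 2)
  obtain ⟨d, rfl⟩ := Nat.exists_eq_add_of_le hab.le
  have hsp : ∀ n s, N 0 (n + s) = N n s * N 0 n := fun n s => by
    induction s with
    | zero => rw [hN0, one_mul, add_zero]
    | succ s ih => rw [← add_assoc, hN, hN, ih, zero_add, mul_assoc]
  have hdet : ∀ n, ‖(N 0 n).det‖ = 1 := fun n => by
    induction n with
    | zero => rw [hN0, Matrix.det_one, norm_one]
    | succ n ih => rw [hN, Matrix.det_mul, norm_mul, ih, hJ, one_mul]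
  refine ⟨q * d, Nat.mul_pos hq (by omega), q * a, fun c hc P hP t => ?_⟩
  obtain ⟨s, rfl⟩ := Nat.exists_eq_add_of_le hc
  obtain ⟨j, hj⟩ := dp10_core π1 (norm_pos_iff.1 π0) (l := q * d) (n := q * a) Φ
    (fun m => hper' m d) hΦ x hx (fun n j => (hO _).1 (x1 n j)) (N (q * a)) (hN0 _) (hN _)
    (fun s i j => (hO _).1 (N1 _ s i j)) (fun j => by
      have h1 := h (Sum.inl j)
      rw [norm_div, norm_pow, div_le_one (pow_pos π0 2), ← mul_add]
      exact h1) (fun i j => by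
      have hu : (N 0 (q * a)).det ≠ 0 := norm_ne_zero_iff.1 (by rw [hdet]; exact one_ne_zero)
      have e : N (q * a) (q * d) - 1 = ((N 0 (q * a)).det)⁻¹ •
          ((N 0 (q * (a + d)) - N 0 (q * a)) * (N 0 (q * a)).adjugate) := by
        rw [mul_add, hsp, ← sub_one_mul, mul_assoc, Matrix.mul_adjugate, Matrix.mul_smul, mul_one,
          smul_smul, inv_mul_cancel₀ hu, one_smul]
      have hadj : ∀ k j, ‖(N 0 (q * a)).adjugate k j‖ ≤ 1 := fun k j => by
        have e2 := O.subtype.map_adjugate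
          (Matrix.of fun i j => (⟨N 0 (q * a) i j, N1 _ _ i j⟩ : O))
        have e3 : (N 0 (q * a)).adjugate k j = _ := (congrFun (congrFun e2 k) j).symm
        rw [e3]
        exact (hO _).1 (Subtype.property _)
      rw [norm_div, div_le_one π0, e, Matrix.smul_apply, norm_smul, norm_inv, hdet, inv_one, one_mul,
        Matrix.mul_apply]
      refine IsUltrametricDist.norm_sum_le_of_forall_le_of_nonneg π0.le fun k _ => ?_
      rw [norm_mul]
      refine (mul_le_of_le_one_right (norm_nonneg _) (hadj k j)).trans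
        ((h (Sum.inr (i, k))).trans ?_)
      rw [sq]
      exact mul_le_of_le_one_right π0.le π1.le) s P
  have h0 := Pool.Agent.DS.dssml_hansel p0.le p2
    (s := fun t => π ^ j * eval (x (q * a + s + q * d * t)) P) (fun k => by
      have h1 : (p : ℝ)⁻¹ ^ k ≤ ‖(k.factorial : PadicAlgCl p)‖ := by
        rw [← map_natCast (algebraMap ℚ_[p] (PadicAlgCl p)), norm_algebraMap',
          Padic.norm_eq_zpow_neg_valuation (Nat.cast_ne_zero.2 k.factorial_ne_zero),
          Padic.valuation_natCast, zpow_neg, zpow_natCast, ← inv_pow]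
        exact pow_le_pow_of_le_one p0.le p2.le (padicValNat_factorial_le p k)
      rw [norm_div, div_le_iff₀ ((pow_pos p0 k).trans_le h1)]
      refine (hj k).trans ?_
      rw [nπ, sq, mul_pow]
      exact mul_le_mul_of_nonneg_left h1 (by positivity))
    (hP.mono fun t ht => by simp only [ht, mul_zero]) t
  exact (mul_eq_zero.1 h0).resolve_left (pow_ne_zero _ (norm_pos_iff.1 π0))

end Pool.Agent.P.MP_68214b_ag.DP
end

-- part Pool.Agent.P.MP_68214b_ag.DP0
section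

/-! Definitions and the calculus of congruences at a valuation ring. -/

open Polynomial

namespace Pool.Agent.P.MP_68214b_ag.DP

variable {E : Type} [Field E]

/-- congruence modulo the maximal ideal -/
def Cg (A : ValuationSubring E) (x y : E) : Prop := A.valuation (x - y) < 1

/-- the place lies over the prime p -/
def Ov (A : ValuationSubring E) (p : ℕ) : Prop := p.Prime ∧ A.valuation (p : E) < 1

/-- the place lies over a prime larger than B -/
def Big (B : ℕ) (A : ValuationSubring E) : Prop := ∃ p, B < p ∧ Ov A p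

/-- integral coefficients -/
def IP (A : ValuationSubring E) (g : E[X]) : Prop := ∀ k, A.valuation (g.coeff k) ≤ 1

/-- the residue lies in the prime field -/
def Rt (A : ValuationSubring E) (x : E) : Prop := ∃ n : ℤ, Cg A x n

/-- iteration -/
def it (g : E[X]) (n : ℕ) (x : E) : E := (fun z => g.eval z)^[n] x

/-- infinite orbit -/
def Wand (g : E[X]) (x : E) : Prop := (Set.range fun n => it g n x).Infinite

/-- critical point -/
def Crit (g : E[X]) (x : E) : Prop := g.derivative.eval x = 0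

/-- periodic point -/
def Per (g : E[X]) (x : E) : Prop := ∃ k, 0 < k ∧ it g k x = x

/-- the stability condition -/
def Stab (g : E[X]) (γ : E) : Prop :=
  ∃ (A : ValuationSubring E) (p : ℕ), Ov A p ∧ IP A g ∧ (1 < A.valuation γ ∨ ∀ j x,
    A.valuation x ≤ 1 → Cg A (g.eval x) (it g (j + 1) γ) → Cg A x (it g j γ))

/-- unicritical -/
def TyU (g : E[X]) : Prop := ∃ b c, g = (X - C b) ^ g.natDegree + C c

/-- simple critical point with its own critical value -/
def TyC (g : E[X]) (γ : E) : Prop :=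
  g.derivative.derivative.eval γ ≠ 0 ∧ ∀ δ, Crit g δ → g.eval δ = g.eval γ → δ = γ

/-- the class of polynomials -/
def Good (g : E[X]) : Prop :=
  g.Monic ∧ 2 ≤ g.natDegree ∧ ∀ γ, Crit g γ → Wand g γ → Stab g γ ∧ (TyU g ∨ (TyC g γ ∧
    (g.natDegree = 3 ∨ g.natDegree.Coprime 6 ∨ ∀ δ, Crit g δ → Wand g δ → δ = γ)))

/-- the iterated polynomial -/
noncomputable def gi (g : E[X]) (n : ℕ) : E[X] := g.comp^[n] X

variable {A : ValuationSubring E} {g : E[X]} {x y z w : E}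

theorem Big.mono {B B' : ℕ} (h : Big B A) (e : B' ≤ B) : Big B' A :=
  h.imp fun _ hp => ⟨e.trans_lt hp.1, hp.2⟩

@[simp] theorem it_zero : it g 0 x = x := rfl
theorem it_one : it g 1 x = g.eval x := rfl
theorem it_succ (n : ℕ) : it g (n + 1) x = it g n (g.eval x) := rfl
theorem it_succ' (n : ℕ) : it g (n + 1) x = g.eval (it g n x) :=
  Function.iterate_succ_apply' _ _ _
theorem it_add (m n : ℕ) : it g (m + n) x = it g m (it g n x) := Function.iterate_add_apply _ _ _ _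

theorem gi_eval (n : ℕ) : (gi g n).eval x = it g n x := by simp [gi, iterate_comp_eval, it]

theorem gi_succ (n : ℕ) : gi g (n + 1) = g.comp (gi g n) := Function.iterate_succ_apply' _ _ _

theorem gi_natDegree (n : ℕ) : (gi g n).natDegree = g.natDegree ^ n := by
  simp [gi, natDegree_iterate_comp]

theorem gi_monic (hm : g.Monic) (hd : 2 ≤ g.natDegree) (n : ℕ) : (gi g n).Monic := by
  induction n with
  | zero => exact monic_X
  | succ n ih => rw [gi_succ]; exact hm.comp ih (by rw [gi_natDegree]; positivity)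

theorem monic_sub_C (hm : g.Monic) (hd : 0 < g.natDegree) (b : E) : (g - C b).Monic :=
  hm.sub_of_left (degree_C_le.trans_lt (natDegree_pos_iff_degree_pos.1 hd))

theorem gi_sub_monic (hm : g.Monic) (hd : 2 ≤ g.natDegree) (n : ℕ) (b : E) :
    (gi g n - C b).Monic :=
  monic_sub_C (gi_monic hm hd n) (by rw [gi_natDegree]; positivity) b

theorem mem_roots_gi (hm : g.Monic) (hd : 2 ≤ g.natDegree) {n : ℕ} {b : E} :
    x ∈ (gi g n - C b).roots ↔ it g n x = b := by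
  rw [mem_roots (gi_sub_monic hm hd n b).ne_zero, IsRoot, eval_sub, eval_C, gi_eval, sub_eq_zero]

theorem fin_pre (hm : g.Monic) (hd : 2 ≤ g.natDegree) (n : ℕ) (b : E) :
    {x | it g n x = b}.Finite := by
  classical
  exact (gi g n - C b).roots.toFinset.finite_toSet.subset fun x hx => by
    rwa [Finset.mem_coe, Multiset.mem_toFinset, mem_roots_gi hm hd]

theorem prod_gi [IsAlgClosed E] (hm : g.Monic) (hd : 2 ≤ g.natDegree) (n : ℕ) (b y : E) :
    it g n y - b = ((gi g n - C b).roots.map fun x => y - x).prod := by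
  rw [← (IsAlgClosed.splits _).eval_eq_prod_roots_of_monic (gi_sub_monic hm hd n b), eval_sub,
    eval_C, gi_eval]

theorem exists_pre [IsAlgClosed E] (hd : 2 ≤ g.natDegree) (n : ℕ) (b : E) :
    ∃ x, it g n x = b := by
  obtain ⟨x, hx⟩ := IsAlgClosed.exists_root (gi g n - C b) (natDegree_pos_iff_degree_pos.1 (by
    rw [natDegree_sub_C, gi_natDegree]; positivity)).ne'
  exact ⟨x, by simpa [gi_eval, sub_eq_zero] using hx⟩

theorem Wand.inj (h : Wand g x) : Function.Injective fun n => it g n x := by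
  refine Function.Injective.of_lt_imp_ne fun a b hab e => h ?_
  refine ((Set.finite_lt_nat b).image fun n => it g n x).subset ?_
  rintro _ ⟨n, rfl⟩
  induction n using Nat.strong_induction_on with
  | _ n ih =>
    by_cases hn : n < b
    · exact ⟨n, hn, rfl⟩
    · obtain ⟨c, rfl⟩ := Nat.exists_eq_add_of_le' (not_lt.1 hn)
      have := ih (c + a) (by omega)
      simp only [it_add] at this ⊢
      rwa [← e]

theorem Wand.not_per (h : Wand g x) : ¬ Per g x := fun ⟨_, hk, e⟩ =>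
  hk.ne' (h.inj (a₂ := 0) e)

theorem fin_crit [CharZero E] (hd : 2 ≤ g.natDegree) : {x | Crit g x}.Finite :=
  (rootSet_finite g.derivative E).subset fun x hx => by
    rw [mem_rootSet]
    exact ⟨fun e => by have := derivative_eq_zero.1 e; omega, hx⟩

theorem v_int (A : ValuationSubring E) (n : ℤ) : A.valuation (n : E) ≤ 1 :=
  (A.valuation_le_one_iff _).2 (intCast_mem A n)

theorem v_nat (A : ValuationSubring E) (n : ℕ) : A.valuation (n : E) ≤ 1 :=
  (A.valuation_le_one_iff _).2 (natCast_mem A n)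

theorem Cg.refl (A : ValuationSubring E) (x : E) : Cg A x x := by simp [Cg]

theorem Cg.symm (h : Cg A x y) : Cg A y x := by rwa [Cg, Valuation.map_sub_swap]

theorem Cg.add (h : Cg A x y) (h' : Cg A z w) : Cg A (x + z) (y + w) := by
  rw [Cg, show x + z - (y + w) = x - y + (z - w) by ring]
  exact A.valuation.map_add_lt h h'

theorem Cg.trans (h : Cg A x y) (h' : Cg A y z) : Cg A x z := by
  rw [Cg, show x - z = x - y + (y - z) by ring]
  exact A.valuation.map_add_lt h h'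

theorem Cg.neg (h : Cg A x y) : Cg A (-x) (-y) := by
  rw [Cg, show -x - -y = y - x by ring]; exact h.symm

theorem Cg.sub (h : Cg A x y) (h' : Cg A z w) : Cg A (x - z) (y - w) := by
  simpa only [sub_eq_add_neg] using h.add h'.neg

theorem Cg.int (h : Cg A x y) (hy : A.valuation y ≤ 1) : A.valuation x ≤ 1 := by
  rw [show x = x - y + y by ring]; exact A.valuation.map_add_le h.le hy

theorem Cg.unit (h : Cg A x y) (hy : A.valuation y = 1) : A.valuation x = 1 := by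
  rw [show x = y + (x - y) by ring, A.valuation.map_add_eq_of_lt_left (by rw [hy]; exact h), hy]

theorem cg_zero : Cg A x 0 ↔ A.valuation x < 1 := by rw [Cg, sub_zero]

theorem Cg.lt (h : Cg A x y) (hy : A.valuation y < 1) : A.valuation x < 1 :=
  cg_zero.1 (h.trans (cg_zero.2 hy))

theorem Cg.mul_left (h : Cg A x y) (hz : A.valuation z ≤ 1) : Cg A (z * x) (z * y) := by
  rw [Cg, ← mul_sub, map_mul]; exact mul_lt_one_of_nonneg_of_lt_one_right hz zero_le h

theorem Cg.mul (h : Cg A x y) (h' : Cg A z w) (hy : A.valuation y ≤ 1) (hw : A.valuation w ≤ 1) :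
    Cg A (x * z) (y * w) :=
  (h'.mul_left (h.int hy)).trans (by simpa only [mul_comm w] using h.mul_left hw)

theorem Cg.pow (h : Cg A x y) (hy : A.valuation y ≤ 1) (n : ℕ) : Cg A (x ^ n) (y ^ n) := by
  induction n with
  | zero => simpa using Cg.refl A 1
  | succ n ih =>
    rw [pow_succ, pow_succ]
    exact ih.mul h (by rw [map_pow]; exact pow_le_one₀ zero_le hy) hy

theorem IP.lift (h : IP A g) : ∃ q : A[X], q.map A.subtype = g :=
  (mem_lifts g).1 ((lifts_iff_coeff_lifts g).2 fun k =>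
    ⟨⟨_, (A.valuation_le_one_iff _).1 (h k)⟩, rfl⟩)

theorem ip_map (q : A[X]) : IP A (q.map A.subtype) := fun k => by
  rw [coeff_map]; exact A.valuation_le_one _

theorem eval_lift (q : A[X]) (a : A) : (q.map A.subtype).eval (a : E) = (q.eval a : A) :=
  eval_map_apply A.subtype a

theorem IP.deriv (h : IP A g) : IP A g.derivative := by
  obtain ⟨q, rfl⟩ := h.lift
  rw [derivative_map]; exact ip_map _

theorem IP.sub_C (h : IP A g) (hx : A.valuation x ≤ 1) : IP A (g - C x) := by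
  obtain ⟨q, rfl⟩ := h.lift
  lift x to A using (A.valuation_le_one_iff _).1 hx
  simpa using ip_map (q - C x)

theorem IP.gi (h : IP A g) (n : ℕ) : IP A (gi g n) := by
  obtain ⟨q, rfl⟩ := h.lift
  induction n with
  | zero => simpa [DP.gi] using ip_map (X : A[X])
  | succ n ih =>
    obtain ⟨r, hr⟩ := ih.lift
    rw [gi_succ, ← hr, ← map_comp]; exact ip_map _

theorem IP.eval (h : IP A g) (hx : A.valuation x ≤ 1) : A.valuation (g.eval x) ≤ 1 := by
  obtain ⟨q, rfl⟩ := h.lift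
  lift x to A using (A.valuation_le_one_iff _).1 hx
  rw [eval_lift]; exact A.valuation_le_one _

theorem IP.it (h : IP A g) (hx : A.valuation x ≤ 1) (n : ℕ) : A.valuation (it g n x) ≤ 1 := by
  rw [← gi_eval]; exact (h.gi n).eval hx

/-- Taylor expansion to the second order -/
theorem IP.taylor (h : IP A g) (hx : A.valuation x ≤ 1) (hy : A.valuation y ≤ 1) :
    ∃ c, A.valuation c ≤ 1 ∧
      g.eval y = g.eval x + g.derivative.eval x * (y - x) + c * (y - x) ^ 2 := by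
  obtain ⟨q, rfl⟩ := h.lift
  lift x to A using (A.valuation_le_one_iff _).1 hx
  lift y to A using (A.valuation_le_one_iff _).1 hy
  obtain ⟨c, hc⟩ := q.binomExpansion x (y - x)
  refine ⟨c, A.valuation_le_one _, ?_⟩
  rw [derivative_map, eval_lift, eval_lift, eval_lift]
  rw [add_sub_cancel] at hc
  exact_mod_cast hc

theorem IP.lip (h : IP A g) (hx : A.valuation x ≤ 1) (hy : A.valuation y ≤ 1) :
    A.valuation (g.eval x - g.eval y) ≤ A.valuation (x - y) := by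
  obtain ⟨q, rfl⟩ := h.lift
  lift x to A using (A.valuation_le_one_iff _).1 hx
  lift y to A using (A.valuation_le_one_iff _).1 hy
  obtain ⟨c, hc⟩ := sub_dvd_eval_sub x y q
  have e : ((q.eval x : A) : E) - (q.eval y : A) = (x - y) * c := by exact_mod_cast hc
  rw [eval_lift, eval_lift, e, map_mul]
  exact mul_le_of_le_one_right' (A.valuation_le_one _)

theorem Cg.eval (h : Cg A x y) (hg : IP A g) (hy : A.valuation y ≤ 1) :
    Cg A (g.eval x) (g.eval y) := (hg.lip (h.int hy) hy).trans_lt h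

theorem Cg.it (h : Cg A x y) (hg : IP A g) (hy : A.valuation y ≤ 1) (n : ℕ) :
    Cg A (it g n x) (it g n y) := by
  simpa only [gi_eval] using h.eval (hg.gi n) hy

/-- roots of monic integral polynomials are integral -/
theorem IP.root (h : IP A g) (hm : g.Monic) (hx : g.eval x = 0) : A.valuation x ≤ 1 := by
  obtain ⟨q, rfl, -, hq⟩ := lifts_and_natDegree_eq_and_monic ((mem_lifts g).2 h.lift) hm
  obtain ⟨a, rfl⟩ := (IsIntegrallyClosed.isIntegral_iff (R := A)).1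
    (show IsIntegral A x from ⟨q, hq, by rwa [eval₂_eq_eval_map]⟩)
  exact A.valuation_le_one _

theorem IP.pre (h : IP A g) (hm : g.Monic) (hd : 2 ≤ g.natDegree) {n : ℕ}
    (hx : A.valuation (DP.it g n x) ≤ 1) : A.valuation x ≤ 1 :=
  ((h.gi n).sub_C hx).root (gi_sub_monic hm hd n _) (by simp [gi_eval])

theorem near_root [IsAlgClosed E] (h : IP A g) (hm : g.Monic) (hx : A.valuation x ≤ 1)
    (h0 : A.valuation (g.eval x) < 1) : ∃ r, g.eval r = 0 ∧ Cg A x r := by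
  by_contra! H
  rw [(IsAlgClosed.splits g).eval_eq_prod_roots_of_monic hm, map_multiset_prod,
    Multiset.prod_eq_one] at h0
  · exact h0.false
  simp only [Multiset.map_map, Multiset.mem_map]
  rintro _ ⟨r, hr, rfl⟩
  have e := (mem_roots hm.ne_zero).1 hr
  exact le_antisymm (A.valuation.map_sub_le hx (h.root hm e)) (not_lt.1 (H r e))

theorem near_pre [IsAlgClosed E] (h : IP A g) (hm : g.Monic) (hd : 2 ≤ g.natDegree) {n : ℕ}
    (hy : A.valuation y ≤ 1) (h0 : Cg A (it g n x) y) : ∃ r, it g n r = y ∧ Cg A x r := by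
  obtain ⟨r, e, hr⟩ := near_root ((h.gi n).sub_C hy) (gi_sub_monic hm hd n y)
    (h.pre hm hd (h0.int hy)) (by rw [eval_sub, eval_C, gi_eval]; exact h0)
  exact ⟨r, by simpa only [eval_sub, eval_C, gi_eval, sub_eq_zero] using e, hr⟩

theorem near_crit [IsAlgClosed E] [CharZero E] (h : IP A g) (hm : g.Monic)
    (hd : A.valuation (g.natDegree : E) = 1) (hx : A.valuation x ≤ 1)
    (h0 : A.valuation (g.derivative.eval x) < 1) : ∃ γ, Crit g γ ∧ Cg A x γ := by
  have d0 : (g.natDegree : E) ≠ 0 := fun e => by simp [e] at hd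
  have e : ∀ z, (C (g.natDegree : E)⁻¹ * g.derivative).eval z =
    (g.natDegree : E)⁻¹ * g.derivative.eval z := fun z => by rw [eval_mul, eval_C]
  obtain ⟨r, e1, hr⟩ := near_root (g := C (g.natDegree : E)⁻¹ * g.derivative) (x := x)
    (fun k => by rw [coeff_C_mul, map_mul, map_inv₀, hd, inv_one, one_mul]; exact h.deriv k)
    (monic_C_mul_of_mul_leadingCoeff_eq_one (by simp [hm.leadingCoeff, d0])) hx (by rwa [e, map_mul, map_inv₀, hd, inv_one, one_mul])
  exact ⟨r, by simpa [e, d0, Crit] using e1, hr⟩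

/-- two congruent points with the same image are near a critical point -/
theorem crit_of_two (h : IP A g) (hy : A.valuation y ≤ 1) (hc : Cg A x y) (hn : x ≠ y)
    (e : g.eval x = g.eval y) : A.valuation (g.derivative.eval y) < 1 := by
  obtain ⟨c, h1, h2⟩ := h.taylor hy (hc.int hy)
  have : g.derivative.eval y = -(c * (x - y)) :=
    mul_right_cancel₀ (sub_ne_zero.2 hn) (by linear_combination e - h2)
  rw [this, Valuation.map_neg, map_mul]
  exact mul_lt_one_of_nonneg_of_lt_one_right h1 zero_le hc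

/-- three congruent points with the same image -/
theorem crit_of_three (h : IP A g) (hx : A.valuation x ≤ 1) (h1 : Cg A y x) (h2 : Cg A z x)
    (n1 : x ≠ y) (n2 : x ≠ z) (n3 : y ≠ z) (e1 : g.eval y = g.eval x) (e2 : g.eval z = g.eval x) :
    A.valuation (g.derivative.derivative.eval x) < 1 := by
  obtain ⟨q, rfl⟩ := h.lift
  lift y to A using (A.valuation_le_one_iff _).1 (h1.int hx)
  lift z to A using (A.valuation_le_one_iff _).1 (h2.int hx)
  lift x to A using (A.valuation_le_one_iff _).1 hx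
  rw [eval_lift, eval_lift, Subtype.coe_inj] at e1 e2
  rw [Ne, Subtype.coe_inj] at n1 n2 n3
  obtain ⟨r, hr⟩ := X_sub_C_dvd_sub_C_eval (p := q) (a := x)
  have a1 := congrArg (eval y) hr
  have a2 := congrArg (eval z) hr
  simp only [eval_sub, eval_mul, eval_C, eval_X, e1, e2, sub_self, zero_eq_mul, sub_eq_zero] at a1 a2
  obtain ⟨s, rfl⟩ := dvd_iff_isRoot.2 (a1.resolve_left (Ne.symm n1))
  simp only [eval_sub, eval_mul, eval_C, eval_X, mul_eq_zero, sub_eq_zero] at a2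
  obtain ⟨t, rfl⟩ := dvd_iff_isRoot.2 ((a2.resolve_left (Ne.symm n2)).resolve_left (Ne.symm n3))
  have a3 := congrArg (fun p => eval x (derivative (derivative p))) hr
  simp only [derivative_sub, derivative_mul, derivative_C, derivative_X, sub_zero, one_mul,
    derivative_add, eval_add, eval_mul, eval_sub, eval_X, eval_C, sub_self, zero_mul,
    add_zero] at a3
  rw [derivative_map, derivative_map, eval_lift, a3]
  have b1 := (cg_zero.2 h2.symm).mul_left (A.valuation_le_one (eval x t))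
  have b2 := (cg_zero.2 h1.symm).mul_left
    (A.valuation_le_one (eval x t + (x - z) * eval x (derivative t)))
  have b3 := (b1.add b2).add (b1.add b2)
  rw [← cg_zero]
  convert b3 using 1
  · push_cast; ring
  · simp

/-- two distinct points with the same iterate merge at some level -/
theorem merge {n : ℕ} (hn : x ≠ y) (e : it g n x = it g n y) :
    ∃ s < n, it g s x ≠ it g s y ∧ it g (s + 1) x = it g (s + 1) y := by
  induction n with
  | zero => exact (hn e).elim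
  | succ n ih =>
    by_cases h : it g n x = it g n y
    · exact (ih h).imp fun s hs => ⟨by omega, hs.2⟩
    · exact ⟨n, by omega, h, e⟩

/-- exact period modulo the place -/
theorem exact_per (h : IP A g) (hx : A.valuation x ≤ 1) {l : ℕ} (hl : l.Prime)
    (h1 : Cg A (it g l x) x) (h2 : ¬ Cg A (g.eval x) x) {j : ℕ} (h0 : 0 < j) (hj : j < l) :
    ¬ Cg A (it g j x) x := by
  intro hc
  have key : ∀ a b, Cg A (it g a x) x → Cg A (it g b x) x → Cg A (it g (a.gcd b) x) x := by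
    intro a b
    induction a, b using Nat.gcd.induction with
    | H0 b => exact fun _ e => by rwa [Nat.gcd_zero_left]
    | H1 a b _ ih =>
      intro ha hb
      have m : ∀ k, Cg A (it g (a * k) x) x := fun k => by
        induction k with
        | zero => exact Cg.refl A x
        | succ k ik => rw [mul_add, mul_one, add_comm, it_add]; exact (ik.it h hx a).trans ha
      rw [Nat.gcd_rec]
      refine ih (((m (b / a)).it h hx (b % a)).symm.trans ?_) ha
      rwa [← it_add, Nat.mod_add_div]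
  have := key j l hc h1
  rw [(Nat.coprime_of_lt_prime h0.ne' hj hl).symm] at this
  exact h2 this

theorem Rt.int (h : Rt A x) : A.valuation x ≤ 1 := h.choose_spec.int (v_int A _)

theorem Rt.cg (h : Rt A y) (e : Cg A x y) : Rt A x := h.imp fun _ => e.trans

theorem Rt.eval (h : Rt A x) (hg : ∀ k, Rt A (g.coeff k)) : Rt A (g.eval x) := by
  obtain ⟨n, hn⟩ := h
  rw [eval_eq_sum_range]
  refine Finset.sum_induction _ (Rt A) (fun a b ⟨k, hk⟩ ⟨l, hl⟩ => ⟨k + l, ?_⟩)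
    ⟨0, by simpa using Cg.refl A 0⟩ fun k _ => ?_
  · simpa using hk.add hl
  · obtain ⟨c, hc⟩ := hg k
    exact ⟨c * n ^ k, by
      simpa using hc.mul (hn.pow (v_int A n) k) (v_int A c) (by simpa using v_int A (n ^ k))⟩

theorem Rt.it (h : Rt A x) (hg : ∀ k, Rt A (g.coeff k)) (n : ℕ) : Rt A (it g n x) := by
  induction n with
  | zero => exact h
  | succ n ih => rw [it_succ']; exact ih.eval hg

theorem rt_iff {p : ℕ} (hp : Ov A p) (hx : A.valuation x ≤ 1) : Rt A x ↔ Cg A (x ^ p) x := by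
  have := Fact.mk hp.1
  lift x to A using (A.valuation_le_one_iff _).1 hx
  have r : ∀ a b : A, Cg A a b ↔ IsLocalRing.residue A a = IsLocalRing.residue A b := fun a b => by
    rw [← sub_eq_zero, ← map_sub, IsLocalRing.residue_eq_zero_iff, A.valuation_lt_one_iff]; rfl
  have : CharP (IsLocalRing.ResidueField A) p := (CharP.charP_iff_prime_eq_zero hp.1).2 (by
    simpa using (r p 0).1 (cg_zero.2 hp.2))
  refine Iff.trans ?_ ((Subfield.mem_bot_iff_pow_eq_self _ p).trans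
    ((r (x ^ p) x).trans (by rw [map_pow])).symm)
  rw [mem_bot_iff_intCast p]
  exact exists_congr fun n => (r x n).trans (by rw [map_intCast, eq_comm])

theorem pigeon {p : ℕ} (hp : Ov A p) (u : ℕ → E) (hu : ∀ n, Rt A (u n)) :
    ∃ i j, i < j ∧ j ≤ p ∧ Cg A (u i) (u j) := by
  have := Fact.mk hp.1
  choose c hc using hu
  have k : ∀ i j, (c i : ZMod p) = c j → Cg A (u i) (u j) := fun i j e => by
    obtain ⟨t, ht⟩ := (ZMod.intCast_eq_intCast_iff_dvd_sub _ _ p).1 e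
    refine ((hc i).trans (Cg.symm ?_)).trans (hc j).symm
    rw [Cg, ← Int.cast_sub, ht, Int.cast_mul, map_mul, Int.cast_natCast]
    exact mul_lt_one_of_nonneg_of_lt_one_left zero_le hp.2 (v_int A t)
  obtain ⟨i, j, n, e⟩ := Fintype.exists_ne_map_eq_of_card_lt
    (fun i : Fin (p + 1) => (c i : ZMod p)) (by simp)
  rcases lt_or_gt_of_ne n with h | h
  exacts [⟨i, j, h, Nat.lt_succ_iff.1 j.2, k _ _ e⟩, ⟨j, i, h, Nat.lt_succ_iff.1 i.2, k _ _ e.symm⟩]

theorem smul_eval [Algebra ℚ E] (s : E ≃ₐ[ℚ] E) (hs : ∀ k, s (g.coeff k) = g.coeff k) (x : E) :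
    s (g.eval x) = g.eval (s x) := by
  simp [eval_eq_sum_range, hs]

theorem smul_it [Algebra ℚ E] (s : E ≃ₐ[ℚ] E) (hs : ∀ k, s (g.coeff k) = g.coeff k) (n : ℕ)
    (x : E) : s (it g n x) = it g n (s x) := by
  induction n with
  | zero => rfl
  | succ n ih => rw [it_succ', it_succ', smul_eval s hs, ih]

instance instAlgClosure [CharZero E] [IsAlgClosed E] [Algebra.IsAlgebraic ℚ E] :
    IsAlgClosure ℚ E := ⟨inferInstance, inferInstance⟩

end Pool.Agent.P.MP_68214b_ag.DP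
end

-- part Pool.Agent.P.MP_68214b_ag.DP1
section

/-! Places of an algebraic closure of the rationals. -/

open Polynomial NumberField IsDedekindDomain

namespace Pool.Agent.P.MP_68214b_ag.DP

theorem comap_le {E E' : Type} [Field E] [Field E'] (A : ValuationSubring E) (f : E' →+* E)
    (x : E') : (A.comap f).valuation x ≤ 1 ↔ A.valuation (f x) ≤ 1 := by
  rw [ValuationSubring.valuation_le_one_iff, ValuationSubring.valuation_le_one_iff,
    ValuationSubring.mem_comap]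

theorem comap_lt {E E' : Type} [Field E] [Field E'] (A : ValuationSubring E) (f : E' →+* E)
    (x : E') : (A.comap f).valuation x < 1 ↔ A.valuation (f x) < 1 :=
  (Valuation.isEquiv_iff_val_le_one (v := (A.comap f).valuation)
    (v' := A.valuation.comap f)).2 (comap_le A f _) |>.lt_one_iff_lt_one

variable {E : Type} [Field E] [CharZero E] [IsAlgClosed E] [Algebra.IsAlgebraic ℚ E]

instance instNF (F : IntermediateField ℚ E) [FiniteDimensional ℚ F] : NumberField F := ⟨⟩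

/-- Q is the centre of A on the number field F -/
def Ctr (A : ValuationSubring E) (F : IntermediateField ℚ E) [FiniteDimensional ℚ F]
    (Q : HeightOneSpectrum (𝓞 F)) : Prop :=
  (A.valuation.comap (algebraMap F E)).IsEquiv (Q.valuation F)

theorem int_le (A : ValuationSubring E) {x : E} (h : IsIntegral ℤ x) : A.valuation x ≤ 1 := by
  obtain ⟨y, rfl⟩ := (IsIntegrallyClosed.isIntegral_iff (R := A) (K := E)).1 h.tower_top
  exact A.valuation_le_one y

theorem dp1_fac (A : ValuationSubring E) (n : ℕ) (h0 : n ≠ 0) (h : A.valuation (n : E) < 1) :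
    ∃ p, p ∣ n ∧ Ov A p := by
  induction n using induction_on_primes with
  | zero => exact absurd rfl h0
  | one => simp at h
  | prime_mul p a hp ih =>
    by_cases hl : A.valuation (p : E) < 1
    · exact ⟨p, Dvd.intro _ rfl, hp, hl⟩
    · rw [Nat.cast_mul, map_mul, (v_nat A p).eq_of_not_lt hl, one_mul] at h
      obtain ⟨q, h1, h2⟩ := ih (right_ne_zero_of_mul h0) h
      exact ⟨q, h1.mul_left _, h2⟩

theorem dp1_uniq {A : ValuationSubring E} {p q : ℕ} (hp : Ov A p) (hq : Ov A q) : p = q := by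
  by_contra hne
  obtain ⟨a, b, h⟩ := Nat.isCoprime_iff_coprime.2 ((Nat.coprime_primes hp.1 hq.1).2 hne)
  have h1 : (a : E) * p + b * q = 1 := by exact_mod_cast congrArg (Int.cast (R := E)) h
  have : A.valuation ((a : E) * p + b * q) < 1 := A.valuation.map_add_lt
    (by rw [map_mul]; exact mul_lt_one_of_nonneg_of_lt_one_right (v_int A a) zero_le hp.2)
    (by rw [map_mul]; exact mul_lt_one_of_nonneg_of_lt_one_right (v_int A b) zero_le hq.2)
  simp [h1] at this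

theorem dp1_mult (Z : Finset E) : ∃ M : ℕ, M ≠ 0 ∧ ∀ A : ValuationSubring E, ∀ z ∈ Z,
    A.valuation (M : E) * A.valuation z ≤ 1 := by
  have : Algebra.IsAlgebraic ℤ E := (IsFractionRing.comap_isAlgebraic_iff (K := ℚ)).2 inferInstance
  obtain ⟨M, hM, h⟩ := Algebra.IsAlgebraic.exists_integral_multiples ℤ Z
  refine ⟨M.natAbs, by simpa using hM, fun A z hz => ?_⟩
  have h1 := int_le A (h z hz)
  rw [zsmul_eq_mul, map_mul] at h1
  rcases Int.natAbs_eq M with e | e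
  · rwa [e, Int.cast_natCast] at h1
  · rwa [e, Int.cast_neg, Valuation.map_neg, Int.cast_natCast] at h1

theorem unit_big {Z : Set E} (hZ : Z.Finite) :
    ∃ B, ∀ A, Big B A → ∀ z ∈ Z, z ≠ 0 → A.valuation z = 1 := by
  classical
  obtain ⟨M, hM, h⟩ := dp1_mult (hZ.toFinset ∪ hZ.toFinset.image fun z => z⁻¹)
  refine ⟨M, fun A ⟨p, hp, hA⟩ z hz h0 => ?_⟩
  have h1 : A.valuation (M : E) = 1 := (v_nat A M).eq_of_not_lt fun hl => by
    obtain ⟨q, hq, hq'⟩ := dp1_fac A M hM hl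
    have := Nat.le_of_dvd (Nat.pos_of_ne_zero hM) hq
    have := dp1_uniq hA hq'
    omega
  have h2 := h A z (by simp [hz])
  have h3 := h A z⁻¹ (Finset.mem_union_right _ (Finset.mem_image_of_mem _ (by simpa using hz)))
  rw [h1, one_mul] at h2 h3
  rw [map_inv₀, inv_le_one₀ (by simpa [zero_lt_iff] using h0)] at h3
  exact le_antisymm h2 h3

theorem ov_of_lt {A : ValuationSubring E} {x : E} (h0 : x ≠ 0) (h : A.valuation x < 1) :
    ∃ p, Ov A p := by
  obtain ⟨M, hM, h1⟩ := dp1_mult {x⁻¹}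
  have h2 := h1 A _ (Finset.mem_singleton_self _)
  rw [map_inv₀, mul_inv_le_iff₀ (by simpa [zero_lt_iff] using h0), one_mul] at h2
  exact (dp1_fac A M hM (h2.trans_lt h)).imp fun _ => And.right

theorem Ctr.mem {A : ValuationSubring E} {F : IntermediateField ℚ E} [FiniteDimensional ℚ F]
    {Q : HeightOneSpectrum (𝓞 F)} (h : Ctr A F Q) (x : 𝓞 F) :
    x ∈ Q.asIdeal ↔ A.valuation ((x : F) : E) < 1 := by
  rw [← Q.valuation_lt_one_iff_mem (K := F)]
  exact h.lt_one_iff_lt_one.symm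

/-- the ideal cut out by a place -/
noncomputable def dp1_id (A : ValuationSubring E) (F : IntermediateField ℚ E) : Ideal (𝓞 F) :=
  (IsLocalRing.maximalIdeal A).comap (((algebraMap F E).comp (algebraMap (𝓞 F) F)).codRestrict A
    fun x => (A.valuation_le_one_iff _).1 (int_le A (x.2.map (algebraMap F E).toIntAlgHom)))

theorem dp1_mem (A : ValuationSubring E) (F : IntermediateField ℚ E) (x : 𝓞 F) :
    x ∈ dp1_id A F ↔ A.valuation ((x : F) : E) < 1 := by
  rw [dp1_id, Ideal.mem_comap, A.valuation_lt_one_iff]; rfl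

theorem dp1_le (A : ValuationSubring E) {F : IntermediateField ℚ E} (x : 𝓞 F) :
    A.valuation ((x : F) : E) ≤ 1 := int_le A (x.2.map (algebraMap F E).toIntAlgHom)

theorem dp1_ctr {A : ValuationSubring E} {F : IntermediateField ℚ E} [FiniteDimensional ℚ F]
    {Q : HeightOneSpectrum (𝓞 F)} (h : ∀ x, x ∈ Q.asIdeal ↔ A.valuation ((x : F) : E) < 1) :
    Ctr A F Q := by
  have key : ∀ y : F, Q.valuation F y ≤ 1 → ∃ n : 𝓞 F, Q.valuation F y = Q.valuation F n ∧
      A.valuation (y : E) = A.valuation ((n : F) : E) := fun y hy => by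
    obtain ⟨n, d, e⟩ := Q.exists_primeCompl_mul_eq_of_integer y hy
    have h1 : A.valuation (((d : 𝓞 F) : F) : E) = 1 :=
      (dp1_le A _).eq_of_not_lt fun hl => d.2 ((h _).2 hl)
    refine ⟨n, ?_, ?_⟩
    · have := congrArg (Q.valuation F) e
      rwa [map_mul, Q.valuation_eq_one_iff_notMem.2 d.2, mul_one] at this
    · have : (y : E) * (((d : 𝓞 F) : F) : E) = ((n : F) : E) := congrArg Subtype.val e
      rw [← this, map_mul, h1, mul_one]
  refine Valuation.isEquiv_iff_val_le_one.2 fun {y} => ⟨fun hy => ?_, fun hy => ?_⟩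
  · by_contra hc
    have h0 : y ≠ 0 := by rintro rfl; simp at hc
    have h1 : Q.valuation F y⁻¹ < 1 := by
      rw [map_inv₀]; exact inv_lt_one_of_one_lt₀ (not_le.1 hc)
    obtain ⟨n, e1, e2⟩ := key _ h1.le
    rw [e1, Q.valuation_lt_one_iff_mem, h, ← e2, IntermediateField.coe_inv, map_inv₀,
      inv_lt_one₀ (by simpa [zero_lt_iff] using h0)] at h1
    exact absurd hy (not_le.2 h1)
  · obtain ⟨n, -, e2⟩ := key y hy
    exact e2.le.trans (dp1_le A n)

theorem dp1_place {R : Type} [CommRing R] (φ : R →+* E) (hφ : Function.Injective φ) {I : Ideal R}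
    (hI : I ≠ ⊤) : ∃ A : ValuationSubring E, ∀ x ∈ I, A.valuation (φ x) < 1 := by
  have hb : Function.Bijective φ.rangeRestrict :=
    ⟨fun a b e => hφ (congrArg Subtype.val e), φ.rangeRestrict_surjective⟩
  obtain ⟨A, -, h⟩ := Ideal.image_subset_nonunits_valuationSubring (I.map φ.rangeRestrict)
    (by rwa [Ne, Ideal.map_eq_top_of_bijective _ hb])
  exact ⟨A, fun x hx => A.mem_nonunits_iff.1 (h ⟨_, Ideal.mem_map_of_mem _ hx, rfl⟩)⟩

theorem center (F : IntermediateField ℚ E) [FiniteDimensional ℚ F] {A : ValuationSubring E}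
    {p : ℕ} (h : Ov A p) : ∃ Q : HeightOneSpectrum (𝓞 F), (p : 𝓞 F) ∈ Q.asIdeal ∧ Ctr A F Q := by
  have hp : (p : 𝓞 F) ∈ dp1_id A F := (dp1_mem A F _).2 (by simpa using h.2)
  refine ⟨⟨dp1_id A F, Ideal.comap_isPrime _ _, fun e => ?_⟩, hp, dp1_ctr (dp1_mem A F)⟩
  rw [e, Ideal.mem_bot] at hp
  exact h.1.ne_zero (by exact_mod_cast hp)

theorem place_of (F : IntermediateField ℚ E) [FiniteDimensional ℚ F]
    (Q : HeightOneSpectrum (𝓞 F)) :
    ∃ (A : ValuationSubring E) (p : ℕ), Ov A p ∧ (p : 𝓞 F) ∈ Q.asIdeal ∧ Ctr A F Q := by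
  obtain ⟨A, hA⟩ := dp1_place ((algebraMap F E).comp (algebraMap (𝓞 F) F))
    ((algebraMap F E).injective.comp (IsFractionRing.injective _ _)) Q.isPrime.ne_top
  have e : Q.asIdeal = dp1_id A F := Q.isMaximal.eq_of_le (Ideal.comap_isPrime _ _).ne_top
    fun x hx => (dp1_mem A F x).2 (hA x hx)
  have h : ∀ x, x ∈ Q.asIdeal ↔ A.valuation ((x : F) : E) < 1 := fun x => e ▸ dp1_mem A F x
  obtain ⟨p, -, hp⟩ := dp1_fac A _ (Ideal.absNorm_eq_zero_iff.not.2 Q.ne_bot)
    (by simpa using (h _).1 (Ideal.absNorm_mem _))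
  exact ⟨A, p, hp, (h _).2 (by simpa using hp.2), dp1_ctr h⟩

theorem exists_ov {p : ℕ} (hp : p.Prime) : ∃ A : ValuationSubring E, Ov A p := by
  obtain ⟨A, hA⟩ := dp1_place (Int.castRingHom E) Int.cast_injective (I := Ideal.span {(p : ℤ)})
    (Ideal.span_singleton_ne_top (Nat.prime_iff_prime_int.1 hp).not_isUnit)
  exact ⟨A, hp, by simpa using hA _ (Ideal.mem_span_singleton_self _)⟩

/-- the valuation is discrete on a number field -/
theorem disc (F : IntermediateField ℚ E) [FiniteDimensional ℚ F] {A : ValuationSubring E}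
    {p : ℕ} (h : Ov A p) {κ : E} (hκ : κ ∈ F) (h0 : κ ≠ 0) : ∃ C : ℕ, ∀ s : Multiset E,
      (∀ y ∈ s, y ∈ F ∧ A.valuation y < 1) → A.valuation κ ≤ A.valuation s.prod →
        s.card ≤ C := by
  obtain ⟨Q, -, hQ⟩ := center F h
  have key : ∀ s : Multiset E, (∀ y ∈ s, y ∈ F ∧ A.valuation y < 1) →
      ∃ z : F, (z : E) = s.prod ∧ Q.valuation F z ≤ WithZero.exp (-(s.card : ℤ)) := by
    intro s
    induction s using Multiset.induction_on with
    | empty => exact fun _ => ⟨1, by simp, by simp⟩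
    | cons a s ih =>
      intro hs
      obtain ⟨z, e, hz⟩ := ih fun y hy => hs y (Multiset.mem_cons_of_mem hy)
      obtain ⟨ha, ha'⟩ := hs a (Multiset.mem_cons_self _ _)
      have h1 : Q.valuation F ⟨a, ha⟩ < 1 := hQ.lt_one_iff_lt_one.1 ha'
      have h2 : Q.valuation F ⟨a, ha⟩ ≤ WithZero.exp (-1) :=
        (WithZero.lt_mul_exp_iff_le WithZero.exp_ne_zero).1 (by simpa [← WithZero.exp_add] using h1)
      refine ⟨⟨a, ha⟩ * z, by simp [e], ?_⟩
      rw [map_mul, Multiset.card_cons, Nat.cast_succ, neg_add_rev, WithZero.exp_add]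
      exact mul_le_mul' h2 hz
  refine ⟨(-WithZero.log (Q.valuation F ⟨κ, hκ⟩)).toNat, fun s hs hl => ?_⟩
  obtain ⟨z, e, hz⟩ := key s hs
  have h1 : Q.valuation F ⟨κ, hκ⟩ ≤ Q.valuation F z := (hQ _ _).1 (by rwa [← e] at hl)
  have h2 := (WithZero.log_le_iff_le_exp ((Q.valuation F).ne_zero_iff.2
    (fun e => h0 (congrArg Subtype.val e)))).2 (h1.trans hz)
  omega

/-- the residue field of a number field is finite -/
theorem fin_res (F : IntermediateField ℚ E) [FiniteDimensional ℚ F] {A : ValuationSubring E}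
    {p : ℕ} (h : Ov A p) (u : ℕ → E) (hu : ∀ n, u n ∈ F ∧ A.valuation (u n) ≤ 1) :
    ∃ i j, i < j ∧ Cg A (u i) (u j) := by
  obtain ⟨Q, -, hQ⟩ := center F h
  have key : ∀ n, ∃ c : 𝓞 F, Cg A (u n) ((c : F) : E) := fun n => by
    obtain ⟨a, d, e⟩ := Q.exists_primeCompl_mul_eq_of_integer (⟨u n, (hu n).1⟩ : F)
      (hQ.le_one_iff_le_one.1 (hu n).2)
    obtain ⟨d', i, hi, e'⟩ := Q.isMaximal.exists_inv d.2
    have e1 : u n * (((d : 𝓞 F) : F) : E) = ((a : F) : E) := congrArg Subtype.val e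
    have e2 : ((d' : F) : E) * (((d : 𝓞 F) : F) : E) + ((i : F) : E) = 1 := by
      exact_mod_cast congrArg (fun x : 𝓞 F => ((x : F) : E)) e'
    refine ⟨d' * a, ?_⟩
    have e3 : u n - (((d' * a : 𝓞 F) : F) : E) = u n * ((i : F) : E) := by
      push_cast
      linear_combination (-u n) * e2 + ((d' : F) : E) * e1
    rw [Cg, e3, map_mul]
    exact mul_lt_one_of_nonneg_of_lt_one_right (hu n).2 zero_le ((hQ.mem i).1 hi)
  choose c hc using key
  have := Ideal.finiteQuotientOfFreeOfNeBot Q.asIdeal Q.ne_bot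
  obtain ⟨i, j, hij, e⟩ := Finite.exists_ne_map_eq_of_infinite
    fun n => Ideal.Quotient.mk Q.asIdeal (c n)
  have h1 : Cg A (u i) (u j) := by
    have h2 := (hQ.mem _).1 (Ideal.Quotient.eq.1 e)
    push_cast at h2
    exact (hc i).trans (Cg.trans h2 (hc j).symm)
  rcases hij.lt_or_gt with hl | hl
  · exact ⟨i, j, hl, h1⟩
  · exact ⟨j, i, hl, h1.symm⟩

theorem exists_gal {Z : Set E} (hZ : Z.Finite) : ∃ L : IntermediateField ℚ E,
    FiniteDimensional ℚ L ∧ IsGalois ℚ L ∧ ∀ z ∈ Z, z ∈ L := by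
  have := hZ.to_subtype
  exact ⟨(FiniteGaloisIntermediateField.adjoin ℚ Z).toIntermediateField, inferInstance,
    (FiniteGaloisIntermediateField.adjoin ℚ Z).isGalois,
    fun z hz => FiniteGaloisIntermediateField.subset_adjoin ℚ Z hz⟩

theorem exists_gal' (F : IntermediateField ℚ E) [FiniteDimensional ℚ F] {Z : Set E}
    (hZ : Z.Finite) : ∃ L : IntermediateField ℚ E,
      FiniteDimensional ℚ L ∧ IsGalois ℚ L ∧ F ≤ L ∧ ∀ z ∈ Z, z ∈ L := by
  obtain ⟨L, h1, h2, h3⟩ := exists_gal (hZ.union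
    (Set.finite_range fun i => ((Module.finBasis ℚ F i : F) : E)))
  refine ⟨L, h1, h2, fun x hx => ?_, fun z hz => h3 z (Or.inl hz)⟩
  have e := congrArg F.val ((Module.finBasis ℚ F).sum_repr ⟨x, hx⟩)
  rw [map_sum] at e
  rw [show x = _ from e.symm]
  exact sum_mem fun i _ => by
    rw [Rat.smul_def, map_mul, map_ratCast]
    exact mul_mem (SubfieldClass.ratCast_mem L _) (h3 _ (Or.inr ⟨i, rfl⟩))

theorem mem_of_fixed (K : IntermediateField ℚ E) {x : E}
    (h : ∀ s ∈ K.fixingSubgroup, s x = x) : x ∈ K := by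
  rw [← InfiniteGalois.fixedField_fixingSubgroup K]
  exact fun s => h s.1 s.2

theorem fin_conj {Z : Set E} (hZ : Z.Finite) :
    {y | ∃ s : E ≃ₐ[ℚ] E, ∃ z ∈ Z, s z = y}.Finite := by
  refine (hZ.biUnion fun z _ => rootSet_finite (minpoly ℚ z) E).subset ?_
  rintro _ ⟨s, z, hz, rfl⟩
  refine Set.mem_biUnion hz (mem_rootSet.2 ⟨minpoly.ne_zero (Algebra.IsIntegral.isIntegral z), ?_⟩)
  rw [aeval_algHom_apply, minpoly.aeval, map_zero]

theorem exists_pow_fix {Z : Set E} (hZ : Z.Finite) (s : E ≃ₐ[ℚ] E) :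
    ∃ M, 0 < M ∧ ∀ z ∈ Z, (s ^ M) z = z := by
  have key : ∀ z : E, ∃ M, 0 < M ∧ s ^ M ∈ MulAction.stabilizer (E ≃ₐ[ℚ] E) z := fun z => by
    obtain ⟨a, b, hab, e⟩ := Set.Finite.exists_lt_map_eq_of_forall_mem (f := fun n : ℕ => (s ^ n) z)
      (fun n => by exact ⟨_, z, rfl, rfl⟩) (fin_conj (Set.finite_singleton z))
    obtain ⟨c, rfl⟩ := Nat.exists_eq_add_of_lt hab
    refine ⟨c + 1, c.succ_pos, (s ^ a).injective ?_⟩
    rw [add_assoc, pow_add] at e
    exact e.symm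
  choose M h1 h2 using key
  refine ⟨∏ z ∈ hZ.toFinset, M z, Finset.prod_pos fun z _ => h1 z, fun z hz => ?_⟩
  obtain ⟨c, hc⟩ := Finset.dvd_prod_of_mem M (hZ.mem_toFinset.2 hz)
  rw [hc, pow_mul]
  exact pow_mem (h2 z) c

end Pool.Agent.P.MP_68214b_ag.DP
end

-- part Pool.Agent.P.MP_68214b_ag.DP2b
section

/-! Frobenius elements, conjugate places and p-adic embeddings. -/

open Polynomial NumberField IsDedekindDomain

namespace Pool.Agent.P.MP_68214b_ag.DP

variable {E : Type} [Field E] [CharZero E] [IsAlgClosed E] [Algebra.IsAlgebraic ℚ E]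

theorem dp2b_under {R : Type} [CommRing R] {Q : Ideal R} [Q.IsPrime] {p : ℕ} (hp : p.Prime)
    (h : (p : R) ∈ Q) : Q.under ℤ = Ideal.span {(p : ℤ)} := by
  have hm : (Ideal.span {(p : ℤ)}).IsMaximal :=
    PrincipalIdealRing.isMaximal_of_irreducible (Nat.prime_iff_prime_int.1 hp).irreducible
  refine (hm.eq_of_le (Ideal.IsPrime.ne_top inferInstance) ?_).symm
  rw [Ideal.span_singleton_le_iff_mem, Ideal.under_def, Ideal.mem_comap]
  simpa using h

theorem dp2b_lift (L : IntermediateField ℚ E) (σ : L ≃ₐ[ℚ] L) :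
    ∃ φ : E ≃ₐ[ℚ] E, ∀ x : L, φ x = σ x :=
  ⟨σ.liftNormal E, fun x => σ.liftNormal_commutes E x⟩

theorem frobex (L : IntermediateField ℚ E) [FiniteDimensional ℚ L] [IsGalois ℚ L]
    {A : ValuationSubring E} {p : ℕ} (h : Ov A p) :
    ∃ φ : E ≃ₐ[ℚ] E, ∀ x ∈ L, A.valuation x ≤ 1 → Cg A (φ x) (x ^ p) := by
  obtain ⟨Q, hp, hQ⟩ := center L h
  have := Q.isPrime
  have : Finite (𝓞 L ⧸ Q.asIdeal) := Ideal.finiteQuotientOfFreeOfNeBot _ Q.ne_bot
  obtain ⟨σ, hσ⟩ := IsArithFrobAt.exists_of_isInvariant ℤ (L ≃ₐ[ℚ] L) Q.asIdeal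
  obtain ⟨φ, hφ⟩ := dp2b_lift L σ
  have hc : Nat.card (ℤ ⧸ Q.asIdeal.under ℤ) = p := by
    rw [dp2b_under h.1 hp, Nat.card_congr (Int.quotientSpanNatEquivZMod p).toEquiv, Nat.card_zmod]
  have key : ∀ a : 𝓞 L, Cg A (φ ((a : L) : E)) (((a : L) : E) ^ p) := by
    intro a
    have h1 := hσ a
    rw [hc, hQ.mem] at h1
    rw [Cg, hφ]
    exact h1
  refine ⟨φ, fun x hx hv => ?_⟩
  obtain ⟨a, b, hab⟩ := Q.exists_primeCompl_mul_eq_of_integer (⟨x, hx⟩ : L)
    (hQ.le_one_iff_le_one.1 hv)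
  have e : x * (((b : 𝓞 L) : L) : E) = ((a : L) : E) := congrArg Subtype.val hab
  have hb : A.valuation (((b : 𝓞 L) : L) : E) = 1 := by
    refine le_antisymm (int_le A ?_) (not_lt.1 fun hlt => b.2 ((hQ.mem _).2 hlt))
    exact (b : 𝓞 L).isIntegral_coe.map (IsScalarTower.toAlgHom ℤ L E)
  have hb' : A.valuation (φ (((b : 𝓞 L) : L) : E)) = 1 :=
    (key b).unit (by rw [map_pow, hb, one_pow])
  have h2 : Cg A (x ^ p * φ (((b : 𝓞 L) : L) : E)) (((a : L) : E) ^ p) := by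
    rw [← e, mul_pow]
    exact (key b).mul_left (by rw [map_pow]; exact pow_le_one₀ zero_le hv)
  have h3 := (key a).trans h2.symm
  rw [Cg, ← e, map_mul, ← sub_mul, map_mul, hb', mul_one] at h3
  exact h3

theorem conj_place (F : IntermediateField ℚ E) [FiniteDimensional ℚ F]
    {A A' : ValuationSubring E} {p : ℕ} (h : Ov A p) (h' : Ov A' p) :
    ∃ t : E ≃ₐ[ℚ] E, ∀ x ∈ F, ((A.valuation x ≤ 1 ↔ A'.valuation (t x) ≤ 1) ∧
      (A.valuation x < 1 ↔ A'.valuation (t x) < 1)) := by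
  obtain ⟨L, _, _, hFL, -⟩ := exists_gal' F Set.finite_empty
  obtain ⟨Q, hp, hQ⟩ := center L h
  obtain ⟨Q', hp', hQ'⟩ := center L h'
  have := Q.isPrime
  have := Q'.isPrime
  obtain ⟨σ, hσ⟩ := Algebra.IsInvariant.exists_smul_of_under_eq ℤ (𝓞 L) (L ≃ₐ[ℚ] L)
    Q.asIdeal Q'.asIdeal ((dp2b_under h.1 hp).trans (dp2b_under h.1 hp').symm)
  obtain ⟨t, ht⟩ := dp2b_lift L σ
  have h'' : Ov (A'.comap (t : E →+* E)) p := ⟨h.1, by rw [comap_lt, map_natCast]; exact h'.2⟩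
  obtain ⟨Q'', -, hQ''⟩ := center L h''
  have e : Q'' = Q := by
    refine HeightOneSpectrum.ext (Ideal.ext fun a => ?_)
    rw [hQ''.mem, comap_lt, ← Ideal.smul_mem_pointwise_smul_iff (a := σ), ← hσ, hQ'.mem]
    erw [ht]
    rfl
  subst e
  have hE := hQ.trans hQ''.symm
  refine ⟨t, fun x hx => ⟨?_, ?_⟩⟩
  · exact (hE.le_one_iff_le_one (x := ⟨x, hFL hx⟩)).trans (comap_le A' (t : E →+* E) x)
  · exact (hE.lt_one_iff_lt_one (x := ⟨x, hFL hx⟩)).trans (comap_lt A' (t : E →+* E) x)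

theorem iota (F : IntermediateField ℚ E) [FiniteDimensional ℚ F] {A : ValuationSubring E}
    {p : ℕ} [Fact p.Prime] (h : Ov A p) : ∃ ι : E →+* PadicAlgCl p,
      ∀ x ∈ F, ((A.valuation x ≤ 1 ↔ ‖ι x‖ ≤ 1) ∧ (A.valuation x < 1 ↔ ‖ι x‖ < 1)) := by
  let ι0 : E →ₐ[ℚ] PadicAlgCl p := IsAlgClosed.lift
  let B : ValuationSubring (PadicAlgCl p) := (PadicAlgCl.valued p).v.valuationSubring
  have hE := (PadicAlgCl.valued p).v.isEquiv_valuation_valuationSubring
  have h1 : ∀ y, B.valuation y ≤ 1 ↔ ‖y‖ ≤ 1 := fun y =>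
    hE.le_one_iff_le_one.symm.trans (by rw [← PadicAlgCl.valuation_coe]; norm_cast)
  have h2 : ∀ y, B.valuation y < 1 ↔ ‖y‖ < 1 := fun y =>
    hE.lt_one_iff_lt_one.symm.trans (by rw [← PadicAlgCl.valuation_coe]; norm_cast)
  have h' : Ov (B.comap (ι0 : E →+* PadicAlgCl p)) p := by
    refine ⟨h.1, ?_⟩
    rw [comap_lt, map_natCast, h2, ← PadicAlgCl.valuation_coe, PadicAlgCl.valuation_p]
    have : (1 : ℝ) < p := by exact_mod_cast h.1.one_lt
    push_cast
    rw [div_lt_one (by linarith)]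
    exact this
  obtain ⟨t, ht⟩ := conj_place F h h'
  refine ⟨(ι0 : E →+* PadicAlgCl p).comp (t : E →+* E), fun x hx => ⟨?_, ?_⟩⟩
  · exact (ht x hx).1.trans ((comap_le B _ _).trans (h1 _))
  · exact (ht x hx).2.trans ((comap_lt B _ _).trans (h2 _))

end Pool.Agent.P.MP_68214b_ag.DP
end

-- part Pool.Agent.P.MP_68214b_ag.DP3a
section

/-! Dirichlet density of the primes of degree one. -/

open Filter Topology NumberField

namespace Pool.Agent.P.MP_68214b_ag.DP

open Pool.Agent.P.MP_68214b_ag.Ch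

/-- a bounded sequence with Dirichlet density -/
def Dens (c : ℕ → ℝ) (δ : ℝ) : Prop :=
  (∃ M, ∀ n, |c n| ≤ M) ∧ ∃ C, ∀ᶠ s in 𝓝[>] (1 : ℝ),
    |∑' n : ℕ, c n * (n : ℝ) ^ (-s) + δ * Real.log (s - 1)| ≤ C

theorem dp3a_geo {x : ℝ} (h0 : 0 ≤ x) (h1 : x ≤ 1 / 2) (K : ℕ) :
    ∑ j ∈ Finset.range K, x ^ j ≤ 1 + x + 2 * x ^ 2 := by
  induction K with
  | zero => rw [Finset.sum_range_zero]; positivity
  | succ K ih =>
    rw [Finset.sum_range_succ']
    simp only [pow_succ _ _, ← Finset.sum_mul, pow_zero] at ih ⊢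
    nlinarith [mul_le_mul_of_nonneg_right ih h0, mul_nonneg (mul_nonneg h0 h0) (sub_nonneg.2 h1)]

/-- the finite Euler product bound -/
theorem dp3a_euler {ι α : Type} (A : Finset ι) (m : ι → Multiset α) (hm : Set.InjOn m A)
    (T : Finset α) (hT : ∀ i ∈ A, ∀ P ∈ m i, P ∈ T) (x : α → ℝ)
    (hx : ∀ P ∈ T, 0 ≤ x P ∧ x P ≤ 1 / 2) :
    ∑ i ∈ A, ((m i).map x).prod ≤ Real.exp (∑ P ∈ T, (x P + 2 * x P ^ 2)) := by
  classical
  obtain ⟨K, hK⟩ : ∃ K, ∀ i ∈ A, (m i).card < K :=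
    ⟨A.sup (fun i => (m i).card) + 1, fun i hi =>
      Nat.lt_succ_of_le (Finset.le_sup (f := fun i => (m i).card) hi)⟩
  have inj : Set.InjOn (fun i (P : T) => (m i).count P.1) A := by
    intro i hi j hj e
    refine hm hi hj (Multiset.ext.2 fun P => ?_)
    by_cases hP : P ∈ T
    · exact congrFun e ⟨P, hP⟩
    · rw [Multiset.count_eq_zero.2 fun h => hP (hT i hi P h),
        Multiset.count_eq_zero.2 fun h => hP (hT j hj P h)]
  calc ∑ i ∈ A, ((m i).map x).prod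
      = ∑ i ∈ A, ∏ P : T, x P.1 ^ (m i).count P.1 := by
        refine Finset.sum_congr rfl fun i hi => ?_
        rw [Finset.prod_multiset_map_count, Finset.prod_coe_sort T fun P => x P ^ (m i).count P]
        refine Finset.prod_subset (fun P hP => hT i hi P (Multiset.mem_toFinset.1 hP))
          fun P _ hP => ?_
        rw [Multiset.count_eq_zero.2 fun h => hP (Multiset.mem_toFinset.2 h), pow_zero]
    _ = ∑ e ∈ A.image (fun i (P : T) => (m i).count P.1), ∏ P : T, x P.1 ^ e P :=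
        (Finset.sum_image (f := fun e : T → ℕ => ∏ P : T, x P.1 ^ e P) inj).symm
    _ ≤ ∑ e ∈ Fintype.piFinset (fun _ : T => Finset.range K), ∏ P : T, x P.1 ^ e P := by
        refine Finset.sum_le_sum_of_subset_of_nonneg (fun e he => ?_) fun e _ _ =>
          Finset.prod_nonneg fun P _ => pow_nonneg (hx _ P.2).1 _
        obtain ⟨i, hi, rfl⟩ := Finset.mem_image.1 he
        exact Fintype.mem_piFinset.2 fun P =>
          Finset.mem_range.2 ((Multiset.count_le_card _ _).trans_lt (hK i hi))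
    _ = ∏ P : T, ∑ j ∈ Finset.range K, x P.1 ^ j :=
        (Finset.prod_univ_sum (fun _ : T => Finset.range K) fun P j => x P.1 ^ j).symm
    _ ≤ ∏ P : T, Real.exp (x P.1 + 2 * x P.1 ^ 2) := by
        refine Finset.prod_le_prod (fun P _ => Finset.sum_nonneg fun j _ =>
          pow_nonneg (hx _ P.2).1 _) fun P _ => (dp3a_geo (hx _ P.2).1 (hx _ P.2).2 K).trans ?_
        have := Real.add_one_le_exp (x P.1 + 2 * x P.1 ^ 2)
        linarith
    _ = _ := by
        rw [Real.exp_sum, Finset.prod_coe_sort T fun P => Real.exp (x P + 2 * x P ^ 2)]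

theorem dp3a_fib {α : Type} (T : Finset α) (φ : α → ℕ) (w b : ℕ → ℝ) (hw : ∀ n, 0 ≤ w n)
    (hb0 : ∀ n, 0 ≤ b n) (hb : ∀ P ∈ T, ((T.filter fun Q => φ Q = φ P).card : ℝ) ≤ b (φ P))
    (hs : Summable fun n => b n * w n) : ∑ P ∈ T, w (φ P) ≤ ∑' n, b n * w n := by
  rw [Finset.sum_comp w φ]
  refine le_trans (Finset.sum_le_sum fun n hn => ?_)
    (hs.sum_le_tsum (T.image φ) fun n _ => mul_nonneg (hb0 n) (hw n))
  obtain ⟨P, hP, rfl⟩ := Finset.mem_image.1 hn
  rw [nsmul_eq_mul]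
  exact mul_le_mul_of_nonneg_right (hb P hP) (hw _)

variable (F : Type) [Field F] [NumberField F]

theorem dp3a_card {p : ℕ} (hp : p.Prime) (T : Finset (Ideal (𝓞 F)))
    (h : ∀ P ∈ T, Prime P ∧ (p : 𝓞 F) ∈ P) : T.card ≤ Module.finrank ℤ (𝓞 F) := by
  have d : ∀ I : Ideal (𝓞 F), I ∣ Ideal.span {(p : 𝓞 F)} →
      I.absNorm ∣ p ^ Module.finrank ℤ (𝓞 F) := fun I hI => by
    rw [← Ideal.absNorm_span_natCast]; exact map_dvd Ideal.absNorm hI
  have h0 : ∀ P ∈ T, P ∣ Ideal.span {(p : 𝓞 F)} := fun P hP =>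
    Ideal.dvd_span_singleton.2 (h P hP).2
  have h1 := d _ (Finset.prod_primes_dvd _ (fun P hP => (h P hP).1) h0)
  rw [map_prod] at h1
  refine (pow_le_pow_iff_right₀ hp.one_lt).1 ((Finset.pow_card_le_prod T _ p fun P hP => ?_).trans
    (Nat.le_of_dvd (pow_pos hp.pos _) h1))
  obtain ⟨k, -, hk⟩ := (Nat.dvd_prime_pow hp).1 (d P (h0 P hP))
  have : k ≠ 0 := by
    rintro rfl
    exact (Ideal.isPrime_of_prime (h P hP).1).ne_top (Ideal.absNorm_eq_one_iff.1 hk)
  rw [hk]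
  exact Nat.le_self_pow this p

theorem dp3a_nI (n : ℕ) : nI F n = (Ideal.finite_setOfPred_absNorm_eq (S := 𝓞 F) n).toFinset.card :=
  Nat.subtype_card _ fun I => by simp

theorem dp3a_le {p : ℕ} (hp : p.Prime) : nI F p ≤ Module.finrank ℤ (𝓞 F) := by
  rw [dp3a_nI]
  refine dp3a_card F hp _ fun P hP => ?_
  have e : P.absNorm = p := by simpa using hP
  refine ⟨Ideal.prime_of_isPrime ?_ (Ideal.isPrime_of_irreducible_absNorm (e ▸ hp)),
    e ▸ Ideal.absNorm_mem P⟩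
  rintro rfl
  exact hp.ne_zero (by simpa using e.symm)

theorem dp3a_pow {t s : ℝ} (ht : 1 ≤ t) (hs : 1 ≤ s) : t ^ (-s) ≤ 1 / t := by
  rw [one_div, ← Real.rpow_neg_one]
  exact Real.rpow_le_rpow_of_exponent_le ht (by linarith)

theorem dp3a_upper {s : ℝ} (hs : 1 < s)
    (hY : Summable fun n : ℕ => (if n.Prime then (nI F n : ℝ) else 0) * (n : ℝ) ^ (-s)) :
    ∑' n : ℕ, (nI F n : ℝ) * (n : ℝ) ^ (-s) ≤
      Real.exp (∑' n : ℕ, (if n.Prime then (nI F n : ℝ) else 0) * (n : ℝ) ^ (-s) +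
        3 * ∑' n : ℕ, (Module.finrank ℤ (𝓞 F) : ℝ) * (1 / (n : ℝ) ^ 2)) := by
  classical
  refine Real.tsum_le_of_sum_range_le (fun n => by positivity) fun N => ?_
  obtain ⟨A, hA⟩ : ∃ A : Finset (Ideal (𝓞 F)), ∀ I, I ∈ A ↔ I ≠ ⊥ ∧ I.absNorm ≤ N :=
    ⟨(Ideal.finite_setOfPred_absNorm_le (S := 𝓞 F) N).toFinset.erase ⊥, fun I => by simp⟩
  have h1 : ∑ n ∈ Finset.range N, (nI F n : ℝ) * (n : ℝ) ^ (-s) ≤
      ∑ I ∈ A, (I.absNorm : ℝ) ^ (-s) := by
    rw [← Finset.sum_fiberwise_of_maps_to (g := fun I : Ideal (𝓞 F) => I.absNorm)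
      (t := Finset.range (N + 1)) fun I hI => Finset.mem_range.2 (Nat.lt_succ_of_le ((hA I).1 hI).2),
      Finset.sum_range_succ]
    refine le_add_of_le_of_nonneg (Finset.sum_le_sum fun n hn => ?_)
      (Finset.sum_nonneg fun _ _ => by positivity)
    rcases eq_or_ne n 0 with rfl | h0
    · rw [Nat.cast_zero, Real.zero_rpow (by linarith), mul_zero]
      exact Finset.sum_nonneg fun _ _ => by positivity
    · rw [Finset.sum_congr rfl fun I hI => by rw [(Finset.mem_filter.1 hI).2], Finset.sum_const,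
        nsmul_eq_mul, dp3a_nI]
      refine mul_le_mul_of_nonneg_right (Nat.cast_le.2 (Finset.card_le_card fun I hI => ?_))
        (by positivity)
      have e : I.absNorm = n := by simpa using hI
      refine Finset.mem_filter.2 ⟨(hA I).2 ⟨?_, e ▸ (Finset.mem_range.1 hn).le⟩, e⟩
      rintro rfl
      exact h0 (by simpa using e.symm)
  obtain ⟨T, hT, hP⟩ : ∃ T : Finset (Ideal (𝓞 F)),
      (∀ I ∈ A, ∀ P ∈ UniqueFactorizationMonoid.normalizedFactors I, P ∈ T) ∧ ∀ P ∈ T, Prime P :=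
    ⟨A.biUnion fun I => (UniqueFactorizationMonoid.normalizedFactors I).toFinset,
      fun I hI P h => Finset.mem_biUnion.2 ⟨I, hI, Multiset.mem_toFinset.2 h⟩, fun P h => by
        obtain ⟨I, -, h⟩ := Finset.mem_biUnion.1 h
        exact UniqueFactorizationMonoid.prime_of_normalized_factor _ (Multiset.mem_toFinset.1 h)⟩
  have hq : ∀ P ∈ T, ∃ p n : ℕ, 0 < n ∧ (p : 𝓞 F) ∈ P ∧ p.Prime ∧ P.absNorm = p ^ n ∧
      P.absNorm.minFac = p := fun P h => by
    have := (Ideal.isPrime_of_prime (hP P h)).isMaximal (hP P h).ne_zero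
    obtain ⟨p, n, h1, h2, h3, h4⟩ := Ideal.exists_prime_and_absNorm_eq_pow P
    exact ⟨p, n, h1, h2, h3, h4, by rw [h4, h3.pow_minFac h1.ne']⟩
  have hx : ∀ P ∈ T, (P.absNorm : ℝ) ^ (-s) ≤ 1 / P.absNorm.minFac ∧ (2 : ℝ) ≤ P.absNorm.minFac ∧
      (¬ P.absNorm.Prime → (P.absNorm : ℝ) ^ (-s) ≤ 1 / (P.absNorm.minFac : ℝ) ^ 2) := by
    intro P h
    obtain ⟨p, n, h1, -, h3, h4, h5⟩ := hq P h
    have a1 : (2 : ℝ) ≤ p := by exact_mod_cast h3.two_le
    have a2 : ∀ k, k ≤ n → (P.absNorm : ℝ) ^ (-s) ≤ 1 / (p : ℝ) ^ k := fun k hk => by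
      rw [h4, Nat.cast_pow]
      refine (dp3a_pow (one_le_pow₀ (by linarith)) hs.le).trans ?_
      exact one_div_le_one_div_of_le (by positivity) (pow_le_pow_right₀ (by linarith) hk)
    rw [h5]
    refine ⟨by simpa using a2 1 h1, a1, fun hn => a2 2 ?_⟩
    by_contra hc
    obtain rfl : n = 1 := by omega
    exact hn (by rw [h4, pow_one]; exact h3)
  have h2 := dp3a_euler A UniqueFactorizationMonoid.normalizedFactors (fun I hI J hJ e => by
      rw [← Ideal.prod_normalizedFactors_eq_self ((hA I).1 hI).1, e,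
        Ideal.prod_normalizedFactors_eq_self ((hA J).1 hJ).1]) T hT
    (fun P => (P.absNorm : ℝ) ^ (-s)) fun P h => ⟨by positivity, (hx P h).1.trans
      (one_div_le_one_div_of_le two_pos (hx P h).2.1)⟩
  have h3 : ∑ I ∈ A, (I.absNorm : ℝ) ^ (-s) = ∑ I ∈ A,
      ((UniqueFactorizationMonoid.normalizedFactors I).map
        fun P => (P.absNorm : ℝ) ^ (-s)).prod := by
    refine Finset.sum_congr rfl fun I hI => ?_
    conv_lhs => rw [← Ideal.prod_normalizedFactors_eq_self ((hA I).1 hI).1]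
    induction UniqueFactorizationMonoid.normalizedFactors I using Multiset.induction_on with
    | empty => simp
    | cons P M ih =>
      rw [Multiset.prod_cons, Multiset.map_cons, Multiset.prod_cons, map_mul, Nat.cast_mul,
        Real.mul_rpow (Nat.cast_nonneg _) (Nat.cast_nonneg _), ih]
  have h4 := dp3a_fib (T.filter fun P => P.absNorm.Prime) (fun P => P.absNorm)
    (fun n => (n : ℝ) ^ (-s)) (fun n => if n.Prime then (nI F n : ℝ) else 0)
    (fun n => by positivity) (fun n => by positivity) (fun P h => by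
      rw [if_pos (Finset.mem_filter.1 h).2, dp3a_nI]
      exact Nat.cast_le.2 (Finset.card_le_card fun Q hQ => by
        simpa using (Finset.mem_filter.1 hQ).2)) hY
  have h5 := dp3a_fib T (fun P => P.absNorm.minFac) (fun n => 1 / (n : ℝ) ^ 2)
    (fun _ => (Module.finrank ℤ (𝓞 F) : ℝ)) (fun n => by positivity) (fun n => by positivity)
    (fun P h => by
      obtain ⟨p, n, -, -, h3, -, h5⟩ := hq P h
      refine Nat.cast_le.2 (dp3a_card F h3 _ fun Q hQ => ?_)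
      obtain ⟨hQ, e⟩ := Finset.mem_filter.1 hQ
      obtain ⟨q, k, -, g2, -, -, g5⟩ := hq Q hQ
      exact ⟨hP Q hQ, by rw [← h5, ← e, g5]; exact g2⟩)
    ((Real.summable_one_div_nat_pow.2 one_lt_two).mul_left _)
  refine h1.trans (h3.trans_le (h2.trans (Real.exp_le_exp.2 (le_trans ?_
    (add_le_add h4 (mul_le_mul_of_nonneg_left h5 zero_le_three))))))
  rw [Finset.sum_filter, Finset.mul_sum, ← Finset.sum_add_distrib]
  refine Finset.sum_le_sum fun P h => ?_
  obtain ⟨a1, a2, a3⟩ := hx P h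
  have a4 : ((P.absNorm : ℝ) ^ (-s)) ^ 2 ≤ 1 / (P.absNorm.minFac : ℝ) ^ 2 := by
    rw [← one_div_pow]; gcongr
  have a5 : 0 ≤ 1 / (P.absNorm.minFac : ℝ) ^ 2 := by positivity
  split_ifs with hp
  · linarith
  · linarith [a3 hp]

theorem dp3a_lower {s : ℝ} (hs : 1 < s)
    (hZ : Summable fun n : ℕ => (nI F n : ℝ) * (n : ℝ) ^ (-s))
    (h0 : 0 < ∑' n : ℕ, (nI F n : ℝ) * (n : ℝ) ^ (-s)) :
    ∑' n : ℕ, (if n.Prime then (nI F n : ℝ) else 0) * (n : ℝ) ^ (-s) ≤
      Real.log (∑' n : ℕ, (nI F n : ℝ) * (n : ℝ) ^ (-s)) +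
        ∑' n : ℕ, (Module.finrank ℤ (𝓞 F) : ℝ) ^ 2 * (1 / (n : ℝ) ^ 2) := by
  refine Real.tsum_le_of_sum_range_le (fun n => by positivity) fun N => ?_
  simp only [ite_mul, zero_mul]
  rw [← Finset.sum_filter]
  obtain ⟨R, hR'⟩ : ∃ R, R = (Finset.range N).filter Nat.Prime := ⟨_, rfl⟩
  have hR : ∀ r ∈ R, r.Prime := fun r hr => (Finset.mem_filter.1 (hR' ▸ hr)).2
  rw [← hR']
  have h1 : ∏ r ∈ R, (1 + (nI F r : ℝ) * (r : ℝ) ^ (-s)) ≤
      ∑' n : ℕ, (nI F n : ℝ) * (n : ℝ) ^ (-s) := by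
    rw [Finset.prod_one_add]
    have hinj : Set.InjOn (fun T : Finset ℕ => ∏ r ∈ T, r) R.powerset := by
      intro T hT T' hT' h
      have a1 := Nat.primeFactors_prod (s := T) fun p hp => hR p (Finset.mem_powerset.1 hT hp)
      have a2 := Nat.primeFactors_prod (s := T') fun p hp => hR p (Finset.mem_powerset.1 hT' hp)
      rw [← a1, ← a2]
      exact congrArg Nat.primeFactors h
    refine le_trans (Finset.sum_le_sum fun T hT => ?_) ((Finset.sum_image
      (f := fun n : ℕ => (nI F n : ℝ) * (n : ℝ) ^ (-s)) hinj).symm.trans_le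
        (hZ.sum_le_tsum _ fun n _ => by positivity))
    rw [Finset.prod_mul_distrib, Nat.cast_prod,
      Real.finsetProd_rpow _ _ (fun r _ => Nat.cast_nonneg r)]
    apply mul_le_mul_of_nonneg_right _ (by positivity)
    exact_mod_cast UpChebD_prod F T fun p hp => hR p (Finset.mem_powerset.1 hT hp)
  have h2 : Real.exp (∑ r ∈ R, ((nI F r : ℝ) * (r : ℝ) ^ (-s) -
      ((nI F r : ℝ) * (r : ℝ) ^ (-s)) ^ 2)) ≤ ∏ r ∈ R, (1 + (nI F r : ℝ) * (r : ℝ) ^ (-s)) := by
    rw [Real.exp_sum]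
    exact Finset.prod_le_prod (fun _ _ => (Real.exp_pos _).le) fun r _ =>
      UpChebD_exp (by positivity)
  have h3 := (Real.le_log_iff_exp_le h0).2 (h2.trans h1)
  have h4 : ∑ r ∈ R, ((nI F r : ℝ) * (r : ℝ) ^ (-s)) ^ 2 ≤
      ∑' n : ℕ, (Module.finrank ℤ (𝓞 F) : ℝ) ^ 2 * (1 / (n : ℝ) ^ 2) := by
    refine le_trans (Finset.sum_le_sum fun r hr => ?_)
      (((Real.summable_one_div_nat_pow.2 one_lt_two).mul_left _).sum_le_tsum R
        fun n _ => by positivity)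
    have a1 : (nI F r : ℝ) ≤ Module.finrank ℤ (𝓞 F) := Nat.cast_le.2 (dp3a_le F (hR r hr))
    have a2 := dp3a_pow (t := r) (by exact_mod_cast (hR r hr).one_le) hs.le
    rw [mul_pow, ← one_div_pow]
    gcongr
  rw [Finset.sum_sub_distrib] at h3
  linarith

theorem dp3a_zeta : ∀ᶠ s in 𝓝[>] (1 : ℝ),
    (s - 1) * ∑' n : ℕ, (nI F n : ℝ) * (n : ℝ) ^ (-s) ∈
      Set.Ioo (dedekindZeta_residue F / 2) (dedekindZeta_residue F + 1) := by
  have h1 := (Complex.continuous_re.tendsto _).comp (tendsto_sub_one_mul_dedekindZeta_nhdsGT F)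
  have hp := dedekindZeta_residue_pos F
  filter_upwards [h1.eventually (Ioo_mem_nhds (a := dedekindZeta_residue F / 2)
    (b := dedekindZeta_residue F + 1) (by simpa using hp) (by simp)), self_mem_nhdsWithin]
    with x hj hx
  have hx1 : (1 : ℝ) < x := hx
  have hz : dedekindZeta F x = ((∑' n : ℕ, (nI F n : ℝ) * (n : ℝ) ^ (-x) : ℝ) : ℂ) := by
    rw [dedekindZeta, LSeries, Complex.ofReal_tsum]
    refine tsum_congr fun n => ?_
    by_cases hn : n = 0
    · subst hn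
      rw [Nat.cast_zero, Real.zero_rpow (by linarith)]
      simp
    · rw [LSeries.term_of_ne_zero hn, nI, Real.rpow_neg (Nat.cast_nonneg n)]
      push_cast
      rw [Complex.ofReal_cpow (Nat.cast_nonneg n), div_eq_mul_inv]
      simp
  have hj2 : (((x : ℂ) - 1) * dedekindZeta F x).re ∈
    Set.Ioo (dedekindZeta_residue F / 2) (dedekindZeta_residue F + 1) := hj
  rwa [hz, ← Complex.ofReal_one, ← Complex.ofReal_sub, ← Complex.ofReal_mul,
    Complex.ofReal_re] at hj2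

theorem dens_nI (F : Type) [Field F] [NumberField F] :
    Dens (fun n => if n.Prime then (nI F n : ℝ) else 0) 1 := by
  refine ⟨⟨Module.finrank ℤ (𝓞 F), fun n => ?_⟩,
    |Real.log (dedekindZeta_residue F / 2)| + |Real.log (dedekindZeta_residue F + 1)| +
    3 * ∑' n : ℕ, (Module.finrank ℤ (𝓞 F) : ℝ) * (1 / (n : ℝ) ^ 2) +
    ∑' n : ℕ, (Module.finrank ℤ (𝓞 F) : ℝ) ^ 2 * (1 / (n : ℝ) ^ 2), ?_⟩
  · dsimp only
    split_ifs with h
    · rw [Nat.abs_cast]; exact Nat.cast_le.2 (dp3a_le F h)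
    · simp
  filter_upwards [dp3a_zeta F, self_mem_nhdsWithin] with s hz hs
  have hs1 : (1 : ℝ) < s := hs
  have hp := half_pos (dedekindZeta_residue_pos F)
  have h0 : 0 < ∑' n : ℕ, (nI F n : ℝ) * (n : ℝ) ^ (-s) :=
    pos_of_mul_pos_left (hp.trans hz.1 |>.trans_eq (mul_comm _ _)) (by linarith) |> fun h => h
  have hZ : Summable fun n : ℕ => (nI F n : ℝ) * (n : ℝ) ^ (-s) := by
    by_contra hn
    exact h0.ne' (tsum_eq_zero_of_not_summable hn)
  have hY : Summable fun n : ℕ => (if n.Prime then (nI F n : ℝ) else 0) * (n : ℝ) ^ (-s) := by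
    refine Summable.of_nonneg_of_le (fun n => by positivity) (fun n => ?_) hZ
    split_ifs
    · exact le_rfl
    · rw [zero_mul]; positivity
  have h1 := (Real.log_le_iff_le_exp h0).2 (dp3a_upper F hs1 hY)
  have h2 := dp3a_lower F hs1 hZ h0
  have h3 := Real.log_le_log hp hz.1.le
  have h4 := Real.log_le_log (hp.trans hz.1) hz.2.le
  rw [Real.log_mul (by linarith) h0.ne'] at h3 h4
  have h5 : 0 ≤ ∑' n : ℕ, (Module.finrank ℤ (𝓞 F) : ℝ) * (1 / (n : ℝ) ^ 2) :=
    tsum_nonneg fun n => by positivity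
  have h6 : 0 ≤ ∑' n : ℕ, (Module.finrank ℤ (𝓞 F) : ℝ) ^ 2 * (1 / (n : ℝ) ^ 2) :=
    tsum_nonneg fun n => by positivity
  rw [abs_le]
  constructor
  · linarith [neg_abs_le (Real.log (dedekindZeta_residue F / 2)),
      abs_nonneg (Real.log (dedekindZeta_residue F + 1))]
  · linarith [le_abs_self (Real.log (dedekindZeta_residue F + 1)),
      abs_nonneg (Real.log (dedekindZeta_residue F / 2))]

end Pool.Agent.P.MP_68214b_ag.DP
end

-- part Pool.Agent.P.MP_68214b_ag.DP3b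
section

/-! The group theoretic part of the density theorem of Frobenius. -/

open Filter Topology

namespace Pool.Agent.P.MP_68214b_ag.DP

theorem dp3b_pow (n : ℕ) {s : ℝ} (hs : 1 < s) : |(n : ℝ) ^ (-s)| ≤ 1 := by
  rw [abs_of_nonneg (by positivity)]
  rcases Nat.eq_zero_or_pos n with rfl | hn
  · rw [Nat.cast_zero, Real.zero_rpow (by linarith)]
    exact zero_le_one
  · exact Real.rpow_le_one_of_one_le_of_nonpos (by exact_mod_cast hn) (by linarith)

theorem dp3b_sum {c : ℕ → ℝ} {M s : ℝ} (h : ∀ n, |c n| ≤ M) (hs : 1 < s) :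
    Summable fun n : ℕ => c n * (n : ℝ) ^ (-s) := by
  refine Summable.of_norm_bounded
    ((Real.summable_nat_rpow.2 (by linarith : -s < -1)).mul_left M) fun n => ?_
  rw [Real.norm_eq_abs, abs_mul, abs_of_nonneg (by positivity : 0 ≤ (n : ℝ) ^ (-s))]
  exact mul_le_mul_of_nonneg_right (h n) (by positivity)

theorem dp3b_add {c c' : ℕ → ℝ} {δ δ' : ℝ} (h : Dens c δ) (h' : Dens c' δ') :
    Dens (fun n => c n + c' n) (δ + δ') := by
  obtain ⟨⟨M, hM⟩, C, hC⟩ := h
  obtain ⟨⟨M', hM'⟩, C', hC'⟩ := h'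
  refine ⟨⟨M + M', fun n => (abs_add_le _ _).trans (add_le_add (hM n) (hM' n))⟩, C + C', ?_⟩
  filter_upwards [hC, hC', self_mem_nhdsWithin] with s h1 h2 hs
  simp only [add_mul]
  rw [(dp3b_sum hM hs).tsum_add (dp3b_sum hM' hs), add_add_add_comm]
  exact (abs_add_le _ _).trans (add_le_add h1 h2)

theorem dp3b_fin {c : ℕ → ℝ} {B : ℕ} (e : ∀ n, B < n → c n = 0) : Dens c 0 := by
  refine ⟨⟨∑ i ∈ Finset.range (B + 1), |c i|, fun n => ?_⟩, ∑ i ∈ Finset.range (B + 1), |c i|, ?_⟩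
  · by_cases hn : B < n
    · rw [e n hn, abs_zero]
      exact Finset.sum_nonneg fun _ _ => abs_nonneg _
    · exact Finset.single_le_sum (f := fun i => |c i|) (fun _ _ => abs_nonneg _)
        (Finset.mem_range.2 (by omega))
  · filter_upwards [self_mem_nhdsWithin] with s hs
    rw [zero_mul, add_zero, tsum_eq_sum (s := Finset.range (B + 1)) fun n hn => by
      rw [e n (by simpa using hn), zero_mul]]
    refine (Finset.abs_sum_le_sum_abs _ _).trans (Finset.sum_le_sum fun i _ => ?_)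
    rw [abs_mul]
    exact mul_le_of_le_one_right (abs_nonneg _) (dp3b_pow i hs)

theorem Dens.congr {c c' : ℕ → ℝ} {δ : ℝ} (h : Dens c δ) {B : ℕ} (e : ∀ n, B < n → c n = c' n) :
    Dens c' δ := by
  have := dp3b_add h (dp3b_fin (c := fun n => c' n - c n) (B := B) fun n hn => by
    simp only [e n hn, sub_self])
  simpa using this

theorem Dens.smul {c : ℕ → ℝ} {δ : ℝ} (h : Dens c δ) (a : ℝ) :
    Dens (fun n => a * c n) (a * δ) := by
  obtain ⟨⟨M, hM⟩, C, hC⟩ := h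
  refine ⟨⟨|a| * M, fun n => ?_⟩, |a| * C, ?_⟩
  · rw [abs_mul]
    exact mul_le_mul_of_nonneg_left (hM n) (abs_nonneg _)
  · filter_upwards [hC] with s h1
    simp only [mul_assoc]
    rw [tsum_mul_left, ← mul_add, abs_mul]
    exact mul_le_mul_of_nonneg_left h1 (abs_nonneg _)

theorem dp3b_finsum {ι : Type} (S : Finset ι) {c : ι → ℕ → ℝ} {δ : ι → ℝ}
    (h : ∀ i ∈ S, Dens (c i) (δ i)) : Dens (fun n => ∑ i ∈ S, c i n) (∑ i ∈ S, δ i) := by
  classical
  induction S using Finset.induction_on with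
  | empty => exact dp3b_fin (B := 0) fun _ _ => by simp
  | insert a S ha ih =>
    simp only [Finset.sum_insert ha]
    exact dp3b_add (h a (by simp)) (ih fun i hi => h i (by simp [hi]))

theorem dp3b_zero {δ : ℝ} (h : Dens (fun _ => 0) δ) : δ = 0 := by
  obtain ⟨-, C, hC⟩ := h
  by_contra hδ
  have h1 : Tendsto (fun s : ℝ => s - 1) (𝓝[>] 1) (𝓝[>] 0) := by
    refine tendsto_nhdsWithin_of_tendsto_nhds_of_eventually_within _ ?_ ?_
    · have : Tendsto (fun s : ℝ => s - 1) (𝓝 1) (𝓝 (1 - 1)) := tendsto_id.sub_const 1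
      rw [sub_self] at this
      exact this.mono_left nhdsWithin_le_nhds
    · filter_upwards [self_mem_nhdsWithin] with s hs
      exact sub_pos.2 (show (1 : ℝ) < s from hs)
  have h2 := (tendsto_abs_atBot_atTop.comp (Real.tendsto_log_nhdsGT_zero.comp h1)).const_mul_atTop
    (abs_pos.2 hδ)
  obtain ⟨s, a, b⟩ := (hC.and (h2.eventually_gt_atTop C)).exists
  simp only [zero_mul, tsum_zero, zero_add, abs_mul] at a
  exact absurd a (not_le.2 b)

open Classical in
theorem dp3b_card {Γ : Type} [Group Γ] [Finite Γ] [Fintype (Subgroup Γ)] (f : Γ → Γ)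
    (H : Subgroup Γ) :
    (Nat.card {t : Γ // Subgroup.zpowers (f t) = H} : ℝ) = Nat.card {t : Γ // f t ∈ H} +
      ∑ K ∈ Finset.univ.filter (· < H),
        -1 * (Nat.card {t : Γ // Subgroup.zpowers (f t) = K} : ℝ) := by
  have := Fintype.ofFinite Γ
  have h1 : (Finset.univ.filter fun t => f t ∈ H).card = ∑ K ∈ insert H (Finset.univ.filter (· < H)),
      ((Finset.univ.filter fun t => f t ∈ H).filter fun t => Subgroup.zpowers (f t) = K).card := by
    refine Finset.card_eq_sum_card_fiberwise fun t ht => ?_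
    have h2 := Subgroup.zpowers_le.2 (Finset.mem_filter.1 ht).2
    simpa using h2.eq_or_lt
  have h2 : ∀ K ∈ insert H (Finset.univ.filter (· < H)),
      ((Finset.univ.filter fun t => f t ∈ H).filter fun t => Subgroup.zpowers (f t) = K).card =
        Nat.card {t : Γ // Subgroup.zpowers (f t) = K} := by
    intro K hK
    have hK' : K ≤ H := le_iff_eq_or_lt.2 (by simpa using hK)
    rw [Nat.card_eq_fintype_card, Fintype.card_subtype]
    congr 1
    ext t
    simp only [Finset.mem_filter, Finset.mem_univ, true_and, and_iff_right_iff_imp]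
    rintro rfl
    exact hK' (Subgroup.mem_zpowers _)
  rw [Finset.sum_congr rfl h2, Finset.sum_insert (by simp), ← Fintype.card_subtype,
    ← Nat.card_eq_fintype_card] at h1
  rw [h1, ← Finset.mul_sum]
  push_cast
  ring

theorem frob_abs {Γ : Type} [Group Γ] [Finite Γ] (φ : ℕ → Γ)
    (h : ∀ H : Subgroup Γ, Dens (fun n => if n.Prime then
      (Nat.card {t : Γ // t⁻¹ * φ n * t ∈ H} : ℝ) else 0) (Nat.card H)) (s : Γ) (B : ℕ) :
    ∃ n, B < n ∧ n.Prime ∧ ∃ t, Subgroup.zpowers (t⁻¹ * φ n * t) = Subgroup.zpowers s := by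
  classical
  have := Fintype.ofFinite (Subgroup Γ)
  have key : ∀ H : Subgroup Γ, Dens (fun n => if n.Prime then
      (Nat.card {t : Γ // Subgroup.zpowers (t⁻¹ * φ n * t) = H} : ℝ) else 0)
      (Nat.card {t : Γ // Subgroup.zpowers t = H}) := by
    intro H
    induction H using WellFoundedLT.induction with
    | ind H ih =>
      have h1 := dp3b_add (h H) (dp3b_finsum (Finset.univ.filter (· < H)) fun K hK =>
        (ih K (Finset.mem_filter.1 hK).2).smul (-1))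
      rw [dp3b_card (fun t => t) H]
      refine h1.congr (B := 0) fun n _ => ?_
      by_cases hn : n.Prime
      · simp only [if_pos hn]
        exact (dp3b_card (fun t => t⁻¹ * φ n * t) H).symm
      · simp [hn]
  by_contra hne
  have h0 := dp3b_zero ((key (Subgroup.zpowers s)).congr (B := B) fun n hn => ?_)
  · have : Nonempty {t : Γ // Subgroup.zpowers t = Subgroup.zpowers s} := ⟨s, rfl⟩
    exact Nat.card_pos.ne' (by exact_mod_cast h0)
  · split_ifs with hp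
    · have : IsEmpty {t : Γ // Subgroup.zpowers (t⁻¹ * φ n * t) = Subgroup.zpowers s} :=
        ⟨fun t => hne ⟨n, hn, hp, t.1, t.2⟩⟩
      simp
    · rfl

end Pool.Agent.P.MP_68214b_ag.DP
end

-- part Pool.Agent.P.MP_68214b_ag.DP3c
section

/-! The density theorem of Frobenius, existence form. -/

open Polynomial NumberField IsDedekindDomain

namespace Pool.Agent.P.MP_68214b_ag.DP

open Pool.Agent.P.MP_68214b_ag.Ch

variable {E : Type} [Field E] [CharZero E] [IsAlgClosed E] [Algebra.IsAlgebraic ℚ E]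

theorem dp3c_sep (F : Type) [Field F] [NumberField F] : ∃ B, ∀ A : ValuationSubring E, Big B A →
    ∀ j j' : F →+* E, (∀ x : 𝓞 F, Cg A (j x) (j' x)) → j = j' := by
  have h : ∀ q : (F →+* E) × (F →+* E), ∃ x : 𝓞 F, q.1 x = q.2 x → q.1 = q.2 := by
    intro q
    by_cases e : q.1 = q.2
    · exact ⟨0, fun _ => e⟩
    · by_contra! H
      exact e (IsLocalization.ringHom_ext (nonZeroDivisors (𝓞 F)) (RingHom.ext fun x => (H x).1))
  choose x hx using h
  obtain ⟨B, hB⟩ := unit_big (E := E) (Set.finite_range fun q : (F →+* E) × (F →+* E) =>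
    q.1 (x q) - q.2 (x q))
  refine ⟨B, fun A hA j j' h => hx (j, j') ?_⟩
  by_contra n
  exact (h (x (j, j'))).ne (hB A hA _ ⟨(j, j'), rfl⟩ (sub_ne_zero.2 n))

theorem dp3c_int (A : ValuationSubring E) {F : Type} [Field F] (j : F →+* E) (x : 𝓞 F) :
    A.valuation (j x) ≤ 1 :=
  int_le A (map_isIntegral_int j x.isIntegral_coe)

/-- reduction of integers along an embedding -/
noncomputable def dp3c_red (A : ValuationSubring E) {F : Type} [Field F] (j : F →+* E) :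
    𝓞 F →+* IsLocalRing.ResidueField A :=
  (IsLocalRing.residue A).comp ((j.comp (algebraMap (𝓞 F) F)).codRestrict A.toSubring
    fun x => (A.valuation_le_one_iff _).1 (dp3c_int A j x))

theorem dp3c_ker (A : ValuationSubring E) {F : Type} [Field F] (j : F →+* E) (x : 𝓞 F) :
    x ∈ RingHom.ker (dp3c_red A j) ↔ A.valuation (j x) < 1 := by
  rw [RingHom.mem_ker, dp3c_red, RingHom.comp_apply]
  exact (IsLocalRing.residue_eq_zero_iff _).trans (A.valuation_lt_one_iff _)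

theorem dp3c_cg (A : ValuationSubring E) {F : Type} [Field F] (j : F →+* E) (x : 𝓞 F) (n : ℤ) :
    x - n ∈ RingHom.ker (dp3c_red A j) ↔ Cg A (j x) n := by
  rw [dp3c_ker, Cg]
  simp

theorem dp3c_norm {A : ValuationSubring E} {p : ℕ} (hp : Ov A p) {F : Type} [Field F]
    [NumberField F] (j : F →+* E) (h : ∀ x : 𝓞 F, Rt A (j x)) :
    Ideal.absNorm (RingHom.ker (dp3c_red A j)) = p := by
  have := Fact.mk hp.1
  have : CharP (IsLocalRing.ResidueField A) p := (CharP.charP_iff_prime_eq_zero hp.1).2 (by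
    have : (p : 𝓞 F) ∈ RingHom.ker (dp3c_red A j) := by
      rw [dp3c_ker]
      simpa using hp.2
    simpa using RingHom.mem_ker.1 this)
  rw [Ideal.absNorm_apply, Submodule.cardQuot_apply]
  refine upChebA_card _ fun x => ?_
  rw [← map_pow, ← RingHom.sub_mem_ker_iff, dp3c_ker]
  simpa [Cg] using (rt_iff hp (dp3c_int A j x)).1 (h x)

theorem dp3c_rt {R : Type} [CommRing R] {p : ℕ} (hp : p.Prime) {I : Ideal R}
    (h : Nat.card (R ⧸ I) = p) (x : R) : ∃ n : ℤ, x - n ∈ I := by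
  have := Fact.mk hp
  have h1 : Nontrivial (R ⧸ I) := by
    have : Finite (R ⧸ I) := Nat.finite_of_card_ne_zero (h ▸ hp.ne_zero)
    exact Finite.one_lt_card_iff_nontrivial.1 (h ▸ hp.one_lt)
  obtain ⟨n, hn⟩ := AddSubgroup.mem_zmultiples_iff.1
    (mem_zmultiples_of_prime_card h (g := (1 : R ⧸ I)) one_ne_zero (g' := Ideal.Quotient.mk I x))
  exact ⟨n, Ideal.Quotient.eq.1 (by rw [← hn, map_intCast, zsmul_one])⟩

/-- the embedding of a fixed field given by an automorphism -/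
noncomputable def dp3c_emb {L : IntermediateField ℚ E} (F : IntermediateField ℚ L)
    (t : L ≃ₐ[ℚ] L) : F →+* E :=
  (algebraMap L E).comp ((t : L →+* L).comp (algebraMap F L))

omit [IsAlgClosed E] [Algebra.IsAlgebraic ℚ E] in
theorem dp3c_emb_eq {L : IntermediateField ℚ E} [FiniteDimensional ℚ L]
    (H : Subgroup (L ≃ₐ[ℚ] L)) (t t' : L ≃ₐ[ℚ] L) :
    dp3c_emb (IntermediateField.fixedField H) t = dp3c_emb (IntermediateField.fixedField H) t' ↔
      t'⁻¹ * t ∈ H := by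
  conv_rhs => rw [← IntermediateField.fixingSubgroup_fixedField H]
  rw [IntermediateField.mem_fixingSubgroup_iff, RingHom.ext_iff, Subtype.forall]
  refine forall₂_congr fun x hx => ?_
  rw [AlgEquiv.mul_apply, AlgEquiv.aut_inv, AlgEquiv.symm_apply_eq]
  exact Subtype.coe_inj

theorem dp3c_onto {L : IntermediateField ℚ E} [FiniteDimensional ℚ L] [IsGalois ℚ L]
    (F : IntermediateField ℚ L) [NumberField F] {A : ValuationSubring E} {p : ℕ} (hp : Ov A p)
    {I : Ideal (𝓞 F)} (hI : Ideal.absNorm I = p) :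
    ∃ t : L ≃ₐ[ℚ] L, RingHom.ker (dp3c_red A (dp3c_emb F t)) = I := by
  have := Ideal.isPrime_of_irreducible_absNorm (I := I) (hI ▸ hp.1)
  obtain ⟨⟨Q, hQ, hQI⟩⟩ := I.nonempty_primesOver (S := 𝓞 L)
  have m : ∀ x : 𝓞 F, x ∈ I ↔ algebraMap (𝓞 F) (𝓞 L) x ∈ Q := fun x => Ideal.mem_of_liesOver Q I x
  have pQ : (p : 𝓞 L) ∈ Q := by simpa using (m p).1 (hI ▸ Ideal.absNorm_mem I)
  have Q0 : Q ≠ ⊥ := fun e => hp.1.ne_zero (by simpa [e] using pQ)
  obtain ⟨A', _, -, -, hc⟩ := place_of L ⟨Q, hQ, Q0⟩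
  obtain ⟨t, ht⟩ := conj_place L (A := A') ⟨hp.1, by simpa using (hc.mem p).1 pQ⟩ hp
  refine ⟨t.restrictNormal L, Ideal.ext fun x => ?_⟩
  rw [dp3c_ker, m, hc.mem, (ht _ (Subtype.prop _)).2]
  exact iff_of_eq (congrArg (fun z => A.valuation z < 1) (t.restrictNormal_commutes L _))

theorem frob_count (L : IntermediateField ℚ E) [FiniteDimensional ℚ L] [IsGalois ℚ L]
    (H : Subgroup (L ≃ₐ[ℚ] L)) : ∃ B, ∀ (p : ℕ) (A : ValuationSubring E) (φ : L ≃ₐ[ℚ] L),
      B < p → Ov A p → (∀ x : L, A.valuation (x : E) ≤ 1 → Cg A (φ x) ((x : E) ^ p)) →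
      Nat.card {t : L ≃ₐ[ℚ] L // t⁻¹ * φ * t ∈ H} =
        Nat.card H * @nI (IntermediateField.fixedField H) _ ⟨⟩ p := by
  have : NumberField (IntermediateField.fixedField H) := ⟨⟩
  obtain ⟨B, hB⟩ := dp3c_sep (E := E) (IntermediateField.fixedField H)
  refine ⟨B, fun p A φ hp hA hφ => ?_⟩
  have sep := hB A ⟨p, hp, hA⟩
  set j := dp3c_emb (IntermediateField.fixedField H) with hj
  have fr : ∀ t (x : 𝓞 (IntermediateField.fixedField H)), Cg A (j (φ * t) x) (j t x ^ p) :=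
    fun t x => hφ _ (dp3c_int A (j t) x)
  have good : ∀ t, t⁻¹ * φ * t ∈ H ↔
      ∀ x : 𝓞 (IntermediateField.fixedField H), Rt A (j t x) := fun t => by
    rw [mul_assoc, ← dp3c_emb_eq, ← hj]
    refine ⟨fun e x => (rt_iff hA (dp3c_int A _ x)).2 ?_, fun h => sep _ _ fun x => ?_⟩
    · have := fr t x
      rw [e] at this
      exact this.symm
    · exact (fr t x).trans ((rt_iff hA (dp3c_int A _ x)).1 (h x))
  have onto : ∀ I : {I : Ideal (𝓞 (IntermediateField.fixedField H)) // Ideal.absNorm I = p},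
      ∃ t, RingHom.ker (dp3c_red A (j t)) = I.1 := fun I => dp3c_onto _ hA I.2
  choose σ hσ using onto
  have cs : ∀ I (h : H), j (σ I * h) = j (σ I) := fun I h => (dp3c_emb_eq H _ _).2 (by simp)
  have gd : ∀ I (h : H), (σ I * h)⁻¹ * φ * (σ I * h) ∈ H := fun I h => (good _).2 fun x => by
    obtain ⟨n, hn⟩ := dp3c_rt hA.1 (I := I.1) I.2 x
    rw [cs]
    exact ⟨n, (dp3c_cg _ _ _ _).1 (hσ I ▸ hn)⟩
  unfold nI
  rw [← Nat.card_prod]
  refine (Nat.card_congr (Equiv.ofBijective (fun q : H × _ => ⟨σ q.2 * q.1, gd _ _⟩)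
    ⟨?_, ?_⟩)).symm
  · rintro ⟨h, I⟩ ⟨h', I'⟩ e
    have e1 : σ I * h = σ I' * h' := congrArg Subtype.val e
    have e2 : I = I' := Subtype.ext (by rw [← hσ, ← hσ, ← cs I h, e1, cs])
    subst e2
    rw [Subtype.ext (mul_left_cancel e1)]
  · rintro ⟨t, ht⟩
    have h1 := (good t).1 ht
    let I : {I : Ideal (𝓞 (IntermediateField.fixedField H)) // Ideal.absNorm I = p} :=
      ⟨_, dp3c_norm hA (j t) h1⟩
    have h2 : j t = j (σ I) := sep _ _ fun x => by
      obtain ⟨n, hn⟩ := h1 x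
      exact hn.trans ((dp3c_cg _ _ _ _).1 (hσ I ▸ (dp3c_cg _ _ _ _).2 hn)).symm
    exact ⟨(⟨_, (dp3c_emb_eq H _ _).1 h2⟩, I), Subtype.ext (mul_inv_cancel_left _ _)⟩

theorem frob {W : Set E} (hW : W.Finite) (s : E ≃ₐ[ℚ] E) (B : ℕ) :
    ∃ A, Big B A ∧ ∀ x ∈ W, (s x = x ↔ Rt A x) := by
  obtain ⟨L, _, _, hL⟩ := exists_gal hW
  have h0 : ∀ n : ℕ, ∃ (A : ValuationSubring E) (φ : E ≃ₐ[ℚ] E), n.Prime → Ov A n ∧
      ∀ x ∈ L, A.valuation x ≤ 1 → Cg A (φ x) (x ^ n) := fun n => by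
    by_cases hn : n.Prime
    · obtain ⟨A, hA⟩ := exists_ov (E := E) hn
      obtain ⟨φ, hφ⟩ := frobex L hA
      exact ⟨A, φ, fun _ => ⟨hA, hφ⟩⟩
    · exact ⟨⊤, 1, fun h => (hn h).elim⟩
  choose A φ hA using h0
  have rn : ∀ (u : E ≃ₐ[ℚ] E) (x : L), (u.restrictNormal L x : E) = u x := fun u x =>
    u.restrictNormal_commutes L x
  have hV := fin_conj hW
  obtain ⟨B1, hB1⟩ := unit_big (hV.union (hV.image2 (· - ·) hV))
  obtain ⟨n, hn, hp, t, ht⟩ := frob_abs (fun n => (φ n).restrictNormal L) (fun H => by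
    have : NumberField (IntermediateField.fixedField H) := ⟨⟩
    obtain ⟨B0, h⟩ := frob_count L H
    have := (dens_nI (IntermediateField.fixedField H)).smul (Nat.card H)
    rw [mul_one] at this
    refine this.congr (B := B0) fun n hn => ?_
    split_ifs with hp
    · rw [h n (A n) _ hn (hA n hp).1 fun x hx => by rw [rn]; exact (hA n hp).2 x x.2 hx,
        Nat.cast_mul]
    · exact mul_zero _) (s.restrictNormal L) (max B B1)
  obtain ⟨hO, hF⟩ := hA n hp
  have hU := hB1 (A n) ⟨n, (le_max_right _ _).trans_lt hn, hO⟩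
  let T : E ≃ₐ[ℚ] E := t.liftNormal E
  have hT : ∀ x : L, T x = t x := fun x => t.liftNormal_commutes E x
  refine ⟨(A n).comap (T : E →+* E), ⟨n, (le_max_left _ _).trans_lt hn, hp, ?_⟩, fun x hx => ?_⟩
  · rw [comap_lt, map_natCast]
    exact hO.2
  lift x to L using hL x hx
  have hy : T x ∈ {y | ∃ s : E ≃ₐ[ℚ] E, ∃ z ∈ W, s z = y} := ⟨T, x, hx, rfl⟩
  have hy' : φ n (T x) ∈ {y | ∃ s : E ≃ₐ[ℚ] E, ∃ z ∈ W, s z = y} := ⟨φ n * T, x, hx, rfl⟩
  have hv : (A n).valuation (T x) ≤ 1 := by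
    by_cases e : T x = 0
    · simp [e]
    · exact (hU _ (Or.inl hy) e).le
  have c1 := hF (T x) (hT x ▸ (t x).2) hv
  have e1 : Rt ((A n).comap (T : E →+* E)) x ↔ Rt (A n) (T x) :=
    exists_congr fun k => by rw [Cg, Cg, comap_lt, map_sub, map_intCast]; rfl
  have e2 : Rt (A n) (T x) ↔ φ n (T x) = T x := by
    rw [rt_iff hO hv]
    refine ⟨fun h => ?_, fun h => by rw [h] at c1; exact c1.symm⟩
    by_contra ne
    exact (c1.trans h).ne (hU _ (Or.inr ⟨_, hy', _, hy, rfl⟩) (sub_ne_zero.2 ne))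
  have e3 : ∀ u : L ≃ₐ[ℚ] L, u x = x ↔ Subgroup.zpowers u ≤ MulAction.stabilizer _ x := fun u =>
    (Subgroup.zpowers_le (H := MulAction.stabilizer (L ≃ₐ[ℚ] L) x)).symm
  rw [e1, e2, hT, ← rn, ← rn, Subtype.coe_inj, Subtype.coe_inj, e3, ← ht, ← e3, mul_assoc,
    AlgEquiv.mul_apply, AlgEquiv.aut_inv, AlgEquiv.symm_apply_eq, AlgEquiv.mul_apply]

end Pool.Agent.P.MP_68214b_ag.DP
end

-- part Pool.Agent.P.MP_68214b_ag.DP5
section

/-! Eventual stability. -/

open Polynomial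

namespace Pool.Agent.P.MP_68214b_ag.DP

variable {E : Type} [Field E] [CharZero E] [IsAlgClosed E] [Algebra.IsAlgebraic ℚ E]

/-- the orbit under the group fixing K -/
def dp5_orb (K : IntermediateField ℚ E) (x : E) : Set E := {y | ∃ s ∈ K.fixingSubgroup, s x = y}

omit [IsAlgClosed E] [Algebra.IsAlgebraic ℚ E] in
theorem dp5_fix {K : IntermediateField ℚ E} {s : E ≃ₐ[ℚ] E} (hs : s ∈ K.fixingSubgroup) {x : E}
    (hx : x ∈ K) : s x = x := (IntermediateField.mem_fixingSubgroup_iff _ _).1 hs x hx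

omit [IsAlgClosed E] [Algebra.IsAlgebraic ℚ E] in
theorem dp5_smul {K : IntermediateField ℚ E} {s : E ≃ₐ[ℚ] E} (hs : s ∈ K.fixingSubgroup)
    (x : E) : dp5_orb K (s x) = dp5_orb K x := by
  ext y
  refine ⟨fun ⟨t, ht, e⟩ => ⟨t * s, mul_mem ht hs, e⟩, fun ⟨t, ht, e⟩ =>
    ⟨t * s⁻¹, mul_mem ht (inv_mem hs), ?_⟩⟩
  rw [AlgEquiv.mul_apply, ← AlgEquiv.mul_apply s⁻¹, inv_mul_cancel, AlgEquiv.one_apply, e]

omit [IsAlgClosed E] [Algebra.IsAlgebraic ℚ E] in
theorem dp5_img {K : IntermediateField ℚ E} {g : E[X]} (hK : ∀ k, g.coeff k ∈ K) (x : E) :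
    (fun z => g.eval z) '' dp5_orb K x = dp5_orb K (g.eval x) := by
  ext y
  constructor
  · rintro ⟨_, ⟨s, hs, rfl⟩, rfl⟩
    exact ⟨s, hs, smul_eval s (fun k => dp5_fix hs (hK k)) x⟩
  · rintro ⟨s, hs, rfl⟩
    exact ⟨s x, ⟨s, hs, rfl⟩, (smul_eval s (fun k => dp5_fix hs (hK k)) x).symm⟩

omit [Algebra.IsAlgebraic ℚ E] in
theorem dp5_step {K : IntermediateField ℚ E} {g : E[X]} (hd : 2 ≤ g.natDegree)
    (hK : ∀ k, g.coeff k ∈ K) (γ : E) (n : ℕ) :
    (Set.image fun z => g.eval z) '' (dp5_orb K '' {x | it g (n + 1) x = γ}) =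
      dp5_orb K '' {x | it g n x = γ} := by
  rw [Set.image_image]
  simp only [dp5_img hK]
  ext O
  refine ⟨fun ⟨x, hx, e⟩ => ⟨_, hx, e⟩, fun ⟨x, hx, e⟩ => ?_⟩
  obtain ⟨z, rfl⟩ := exists_pre hd 1 x
  exact ⟨z, hx, e⟩

omit [Algebra.IsAlgebraic ℚ E] in
/-- a bounded number of orbits gives the claim -/
theorem dp5_of_bdd {K : IntermediateField ℚ E} {g : E[X]} (hm : g.Monic) (hd : 2 ≤ g.natDegree)
    (hK : ∀ k, g.coeff k ∈ K) {γ : E} {B : ℕ}
    (hB : ∀ n, ∃ m, n ≤ m ∧ (dp5_orb K '' {x | it g m x = γ}).ncard ≤ B) :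
    ∃ n0, ∀ k x y, it g n0 (it g k x) = γ → it g k x = it g k y →
      ∃ s ∈ K.fixingSubgroup, s x = y := by
  have fin := fun n => (fin_pre hm hd n γ).image (dp5_orb K)
  have mono : Monotone fun n => (dp5_orb K '' {x | it g n x = γ}).ncard :=
    monotone_nat_of_le_succ fun n => by
      rw [← dp5_step hd hK γ n]; exact Set.ncard_image_le (fin _)
  obtain ⟨b, N, hN⟩ := converges_of_monotone_of_bounded mono (c := B) fun n =>
    (hB n).elim fun m h => (mono h.1).trans h.2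
  have key : ∀ k x y, it g (N + k) x = γ → it g (N + k) y = γ → it g k x = it g k y →
      dp5_orb K x = dp5_orb K y := by
    intro k
    induction k with
    | zero => exact fun x y _ _ e => congrArg _ e
    | succ k ih =>
      intro x y hx hy e
      refine Set.injOn_of_ncard_image_eq (f := Set.image fun z => g.eval z) ?_ (fin (N + k + 1))
        ⟨x, hx, rfl⟩ ⟨y, hy, rfl⟩ ?_
      · rw [dp5_step hd hK γ]
        exact (hN _ (by omega)).trans (hN _ (by omega)).symm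
      · rw [dp5_img hK, dp5_img hK]; exact ih _ _ hx hy e
  refine ⟨N, fun k x y hx e => ?_⟩
  have h := key k x y (by rwa [it_add]) (by rwa [it_add, ← e]) e
  exact (Set.ext_iff.1 h y).2 ⟨1, one_mem _, rfl⟩

/-- the number of orbits is bounded by the valuation of the product -/
theorem dp5_bound (K : IntermediateField ℚ E) [FiniteDimensional ℚ K] {g : E[X]} (hm : g.Monic)
    (hd : 2 ≤ g.natDegree) (hK : ∀ k, g.coeff k ∈ K) {γ : E} (hγ : γ ∈ K)
    {A : ValuationSubring E} {p : ℕ} (hp : Ov A p) {κ : E} (hκ : κ ∈ K) (h0 : κ ≠ 0) (u : E → E)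
    (hu : ∀ s ∈ K.fixingSubgroup, ∀ x, s (u x) = u (s x)) : ∃ B, ∀ n,
      (∀ x, it g n x = γ → A.valuation (u x) < 1) →
      A.valuation κ ≤ A.valuation ((gi g n - C γ).roots.map u).prod →
      (dp5_orb K '' {x | it g n x = γ}).ncard ≤ B := by
  classical
  obtain ⟨B, hB⟩ := disc K hp hκ h0
  refine ⟨B, fun n h1 h2 => ?_⟩
  have hT : ∀ x, x ∈ (gi g n - C γ).roots.toFinset ↔ it g n x = γ := fun x => by
    rw [Multiset.mem_toFinset, mem_roots_gi hm hd]
  have h3 : A.valuation κ ≤ A.valuation (∏ x ∈ (gi g n - C γ).roots.toFinset, u x) := by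
    obtain ⟨r, hr⟩ := Multiset.le_iff_exists_add.1 (gi g n - C γ).roots.dedup_le
    refine h2.trans ?_
    conv_lhs => rw [hr, Multiset.map_add, Multiset.prod_add, map_mul]
    refine mul_le_of_le_one_right' ?_
    refine Multiset.prod_induction (fun z => A.valuation z ≤ 1) _ (fun a b ha hb => ?_)
      (by simp) fun z hz => ?_
    · rw [map_mul]; exact mul_le_one' ha hb
    · obtain ⟨x, hx, rfl⟩ := Multiset.mem_map.1 hz
      exact (h1 x ((mem_roots_gi hm hd).1 (by rw [hr]; exact Multiset.mem_add.2 (.inr hx)))).le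
  generalize (gi g n - C γ).roots.toFinset = T at hT h3
  have e : dp5_orb K '' {x | it g n x = γ} = ↑(T.image (dp5_orb K)) := by
    rw [Finset.coe_image]; congr 1; ext x; exact (hT x).symm
  rw [e, Set.ncard_coe_finset]
  have := hB ((T.image (dp5_orb K)).val.map fun O => ∏ x ∈ T with dp5_orb K x = O, u x) ?_ ?_
  · rwa [Multiset.card_map] at this
  · intro y hy
    obtain ⟨O, hO, rfl⟩ := Multiset.mem_map.1 hy
    obtain ⟨x0, hx0, rfl⟩ := Finset.mem_image.1 hO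
    refine ⟨mem_of_fixed K fun s hs => ?_, ?_⟩
    · rw [map_prod]
      refine Finset.prod_equiv s.toEquiv (fun x => ?_) fun x _ => hu s hs x
      simp only [Finset.mem_filter, hT, AlgEquiv.toEquiv_eq_coe, EquivLike.coe_coe, dp5_smul hs]
      rw [← smul_it s (fun k => dp5_fix hs (hK k)), ← s.injective.eq_iff (a := it g n x),
        dp5_fix hs hγ]
    · rw [← Finset.mul_prod_erase _ _ (a := x0) (by simpa using hx0), map_mul, map_prod]
      refine mul_lt_one_of_nonneg_of_lt_one_left zero_le (h1 _ ((hT _).1 hx0))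
        (Finset.prod_le_one' fun x hx => (h1 x ((hT x).1 ?_)).le)
      exact (Finset.mem_filter.1 (Finset.mem_of_mem_erase hx)).1
  · rwa [← Finset.prod_fiberwise_of_maps_to (g := dp5_orb K) (t := T.image (dp5_orb K))
      fun x hx => Finset.mem_image_of_mem _ hx] at h3

omit [CharZero E] [IsAlgClosed E] [Algebra.IsAlgebraic ℚ E] in
/-- a critical point that is periodic modulo the place -/
theorem dp5_val {A : ValuationSubring E} {g : E[X]} (h : IP A g) {γ : E} (hc : Crit g γ)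
    (hγ : A.valuation γ ≤ 1) {m : ℕ} (h0 : it g (m + 1) γ - γ ≠ 0)
    (h1 : Cg A (it g (m + 1) γ) γ) (j : ℕ) :
    A.valuation (it g ((m + 1) * (j + 1)) γ - γ) = A.valuation (it g (m + 1) γ - γ) := by
  induction j with
  | zero => rw [zero_add, mul_one]
  | succ j ih =>
    have hz := h.it hγ ((m + 1) * (j + 1))
    rw [mul_add_one, add_comm, it_add]
    generalize it g ((m + 1) * (j + 1)) γ = z at ih hz
    obtain ⟨c, c1, c2⟩ := h.taylor hγ hz
    have l := (h.gi m).lip (h.eval hz) (h.eval hγ)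
    rw [gi_eval, gi_eval, ← it_succ, ← it_succ, c2, show eval γ (derivative g) = 0 from hc,
      zero_mul, add_zero, add_sub_cancel_left, map_mul, map_pow, ih] at l
    rw [← sub_add_sub_cancel _ (it g (m + 1) γ)]
    refine Valuation.map_add_eq_of_lt_right _ (l.trans_lt ((mul_le_of_le_one_left' c1).trans_lt ?_))
    rw [sq]
    exact mul_lt_of_lt_one_left (zero_lt_iff.2 ((Valuation.ne_zero_iff _).2 h0)) h1

theorem es (K : IntermediateField ℚ E) [FiniteDimensional ℚ K] {g : E[X]} (hm : g.Monic)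
    (hd : 2 ≤ g.natDegree) (hK : ∀ k, g.coeff k ∈ K) {γ : E} (hγ : γ ∈ K) (hc : Crit g γ)
    (hw : Wand g γ) (hs : Stab g γ) : ∃ n0, ∀ k x y, it g n0 (it g k x) = γ →
      it g k x = it g k y → ∃ s ∈ K.fixingSubgroup, s x = y := by
  obtain ⟨A, p, hp, hI, hs⟩ := hs
  by_cases h1 : 1 < A.valuation γ
  · have g0 : γ ≠ 0 := fun e => by simp [e] at h1
    obtain ⟨B, hB⟩ := dp5_bound K hm hd hK hγ hp (inv_mem hγ) (inv_ne_zero g0)
      (fun x => (0 - x)⁻¹) fun s _ x => by simp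
    refine dp5_of_bdd hm hd hK fun n => ⟨n, le_rfl, hB n (fun x hx => ?_) ?_⟩
    · rw [zero_sub, map_inv₀, Valuation.map_neg]
      exact inv_lt_one_of_one_lt₀ (not_le.1 fun e => h1.not_ge (hx ▸ hI.it e n))
    · rw [Multiset.prod_map_inv, ← prod_gi hm hd, map_inv₀, map_inv₀,
        Valuation.map_sub_eq_of_lt_right _ ((hI.it (by simp) n).trans_lt h1)]
  have inj := hs.resolve_left h1
  replace h1 := not_lt.1 h1
  have ne : ∀ m, it g (m + 1) γ - γ ≠ 0 := fun m e =>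
    hw.not_per ⟨m + 1, by omega, sub_eq_zero.1 e⟩
  have inj' : ∀ n j x, A.valuation x ≤ 1 → Cg A (it g n x) (it g (j + n) γ) →
      Cg A x (it g j γ) := fun n j x hx => by
    induction n with
    | zero => exact id
    | succ n ih => exact fun h => ih (inj _ _ (hI.it hx n) (by rwa [it_succ'] at h))
  have mem : ∀ n, it g n γ ∈ K := fun n => mem_of_fixed K fun s hs => by
    rw [smul_it s (fun k => dp5_fix hs (hK k)), dp5_fix hs hγ]
  obtain ⟨i, j, hij, h⟩ := fin_res K hp (fun n => it g n γ) fun n => ⟨mem n, hI.it h1 n⟩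
  obtain ⟨m, rfl⟩ : ∃ m, j = m + 1 + i := ⟨j - i - 1, by omega⟩
  have h2 := (inj' i (m + 1) γ h1 h).symm
  obtain ⟨B, hB⟩ := dp5_bound K hm hd hK hγ hp (sub_mem (mem (m + 1)) hγ) (ne m)
    (fun x => γ - x) fun s hs x => by rw [map_sub, dp5_fix hs hγ]
  refine dp5_of_bdd hm hd hK fun n => ⟨(m + 1) * (n + 1), by nlinarith,
    hB _ (fun x hx => ?_) ?_⟩
  · refine (inj' ((m + 1) * (n + 1)) 0 x (hI.pre hm hd (hx ▸ h1)) (Cg.symm ?_)).symm
    rw [hx, zero_add, Cg, dp5_val hI hc h1 (ne m) h2]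
    exact h2
  · rw [← prod_gi hm hd, dp5_val hI hc h1 (ne m) h2]

end Pool.Agent.P.MP_68214b_ag.DP
end

-- part Pool.Agent.P.MP_68214b_ag.DP6a
section

/-! Group lemmas: cyclic fibres, full symmetric group on a fibre, fibres with three points. -/

open Equiv MulAction

namespace Pool.Agent.P.MP_68214b_ag.DP

namespace G6

section Pm

variable {α : Type} [Fintype α] [DecidableEq α]

lemma grp_sign {σ : Perm α} {o : ℕ} (ho : Odd o) (h : σ ^ o = 1) : Perm.sign σ = 1 := by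
  have h1 : Perm.sign σ ^ o = 1 := by rw [← map_pow, h, map_one]
  rcases Int.units_eq_one_or (Perm.sign σ) with h2 | h2
  · exact h2
  · rw [h2, ho.neg_one_pow] at h1
    exact absurd h1 (by decide)

lemma grp_free {p : ℕ} (hp : p.Prime) (hc : Fintype.card α = p) {σ : Perm α} (h : σ ^ p = 1)
    (h1 : σ ≠ 1) (y : α) : σ y ≠ y := by
  have := Fact.mk hp
  intro hy
  have h2 := Perm.card_compl_support_modEq (p := p) (n := 1) (σ := σ) (by rwa [pow_one])
  rw [hc] at h2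
  have h3 : p ∣ σ.supportᶜ.card := (Nat.modEq_zero_iff_dvd).1 (h2.trans (Nat.modEq_zero_iff_dvd.2
    dvd_rfl))
  have h4 : 0 < σ.supportᶜ.card := Finset.card_pos.2 ⟨y, by simp [hy]⟩
  have h5 := Perm.two_le_card_support_of_ne_one h1
  have h6 := Nat.le_of_dvd h4 h3
  have h7 := Finset.card_add_card_compl σ.support
  omega

lemma grp_cyc {p : ℕ} (hp : p.Prime) (hc : Fintype.card α = p) :
    ∃ c : Perm α, c ^ p = 1 ∧ c ≠ 1 := by
  have := Fact.mk hp
  obtain ⟨c, h⟩ := exists_prime_orderOf_dvd_card (G := Perm α) p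
    (by rw [Fintype.card_perm, hc]; exact Nat.dvd_factorial hp.pos le_rfl)
  refine ⟨c, h ▸ pow_orderOf_eq_one c, fun h1 => ?_⟩
  rw [h1, orderOf_one] at h
  exact hp.one_lt.ne h

lemma grp_central (hc : 3 ≤ Fintype.card α) {σ : Perm α} (h : ∀ τ, σ * τ = τ * σ) : σ = 1 := by
  ext x
  by_contra hx'
  have hx : σ x ≠ x := hx'
  obtain ⟨z, hz⟩ : ∃ z, z ∉ ({x, σ x} : Finset α) := by
    by_contra hn
    push Not at hn
    have h1 : (Finset.univ : Finset α) ⊆ {x, σ x} := fun z _ => hn z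
    have h2 := (Finset.card_le_card h1).trans Finset.card_le_two
    rw [Finset.card_univ] at h2
    omega
  simp only [Finset.mem_insert, Finset.mem_singleton, not_or] at hz
  have h1 := DFunLike.congr_fun (h (swap (σ x) z)) x
  rw [Perm.mul_apply, Perm.mul_apply, swap_apply_left,
    swap_apply_of_ne_of_ne (fun e => hx e.symm) (fun e => hz.1 e.symm)] at h1
  exact hz.2 h1.symm

lemma grp_cube (hc : Fintype.card α = 3) {σ : Perm α} (h : Perm.sign σ = 1) : σ ^ 3 = 1 := by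
  have : Nontrivial α := Fintype.one_lt_card_iff_nontrivial.1 (by omega)
  have h1 := two_mul_card_alternatingGroup (α := α)
  rw [Fintype.card_perm, hc] at h1
  have h2 : Fintype.card (alternatingGroup α) = 3 := by
    have : Nat.factorial 3 = 6 := rfl
    omega
  have h3 := pow_card_eq_one (x := (⟨σ, Perm.mem_alternatingGroup.2 h⟩ : alternatingGroup α))
  rw [h2] at h3
  exact congrArg Subtype.val h3

lemma grp_alt (hc : 5 ≤ Fintype.card α) :
    ∃ a b : Perm α, Perm.sign a = 1 ∧ Perm.sign b = 1 ∧ a * b ≠ b * a := by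
  by_contra hn
  push Not at hn
  have h1 := alternatingGroup.center_eq_bot (α := α) (by rw [Nat.card_eq_fintype_card]; omega)
  have := alternatingGroup.nontrivial_of_three_le_card (α := α)
    (by rw [Nat.card_eq_fintype_card]; omega)
  obtain ⟨a, ha⟩ := exists_ne (1 : alternatingGroup α)
  refine ha (Subgroup.mem_bot.1 (h1 ▸ Subgroup.mem_center_iff.2 fun b => Subtype.ext ?_))
  exact hn _ _ (Perm.mem_alternatingGroup.1 b.2) (Perm.mem_alternatingGroup.1 a.2)

end Pm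

variable {G X V : Type} [Group G] [MulAction G X]

/-- `g` acts on the fibre over `b` as the permutation `σ` -/
def Ac (π : X → V) (b : V) (g : G) (σ : Perm {z // π z = b}) : Prop :=
  ∀ z, ((σ z : {z // π z = b}) : X) = g • (z : X)

variable {π : X → V} {b : V}

lemma Ac.one : Ac π b (1 : G) 1 := fun z => by simp

lemma Ac.mul {g h : G} {σ τ : Perm {z // π z = b}} (h1 : Ac π b g σ) (h2 : Ac π b h τ) :
    Ac π b (g * h) (σ * τ) := fun z => by rw [Perm.mul_apply, h1, h2, mul_smul]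

lemma Ac.inv {g : G} {σ : Perm {z // π z = b}} (h1 : Ac π b g σ) : Ac π b g⁻¹ σ⁻¹ := fun z => by
  rw [eq_inv_smul_iff, ← h1]
  simp

lemma Ac.pow {g : G} {σ : Perm {z // π z = b}} (h1 : Ac π b g σ) (n : ℕ) :
    Ac π b (g ^ n) (σ ^ n) := by
  induction n with
  | zero => simpa using Ac.one
  | succ n ih => rw [pow_succ, pow_succ]; exact ih.mul h1

lemma Ac.uniq {g : G} {σ τ : Perm {z // π z = b}} (h1 : Ac π b g σ) (h2 : Ac π b g τ) : σ = τ :=
  Equiv.ext fun z => Subtype.ext ((h1 z).trans (h2 z).symm)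

lemma ac_triv {g : G} : Ac π b g 1 ↔ ∀ z, π z = b → g • z = z :=
  ⟨fun h z hz => (h ⟨z, hz⟩).symm, fun h z => (h z z.2).symm⟩

lemma ac_ex (heq : ∀ (g : G) (x y : X), π x = π y → π (g • x) = π (g • y)) {g : G} {x : X}
    (hx : π x = b) (h : π (g • x) = b) : ∃ σ, Ac π b g σ := by
  refine ⟨(MulAction.toPerm g).subtypePerm fun z => ⟨fun hz => ?_, fun hz => ?_⟩, fun z => rfl⟩
  · have h1 := heq g⁻¹ _ _ (hz.trans h.symm)
    simp only [MulAction.toPerm_apply, inv_smul_smul] at h1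
    exact h1.trans hx
  · exact (heq g z x (hz.trans hx.symm)).trans h

/-- the image of a subgroup in the permutations of a fibre -/
def Img (π : X → V) (b : V) (M : Subgroup G) : Subgroup (Perm {z // π z = b}) where
  carrier := {σ | ∃ g ∈ M, Ac π b g σ}
  mul_mem' := fun ⟨g, h1, h2⟩ ⟨h, h3, h4⟩ => ⟨g * h, M.mul_mem h1 h3, h2.mul h4⟩
  one_mem' := ⟨1, M.one_mem, Ac.one⟩
  inv_mem' := fun ⟨g, h1, h2⟩ => ⟨g⁻¹, M.inv_mem h1, h2.inv⟩

lemma img_normal {M N : Subgroup G} (hN : ∀ σ, σ ∈ Img π b N)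
    (h : ∀ n ∈ N, ∀ m ∈ M, n * m * n⁻¹ ∈ M) : (Img π b M).Normal := ⟨fun _ ⟨m, h1, h2⟩ τ => by
  obtain ⟨n, h3, h4⟩ := hN τ
  exact ⟨_, h n h3 m h1, (h4.mul h2).mul h4.inv⟩⟩

omit [MulAction G X] in
/-- removing bad points one at a time -/
lemma grp_greedy [Finite X] (N : Subgroup G) (I : G → Prop) (Bad : G → X → Prop)
    (step : ∀ g, I g → ∀ x : X, Bad g x → ∃ m ∈ N, I (g * m) ∧ ¬ Bad (g * m) x ∧
      ∀ y : X, Bad (g * m) y → Bad g y) (s : G) (hs : I s) :
    ∃ h ∈ N, I (s * h) ∧ ∀ x : X, ¬ Bad (s * h) x := by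
  induction hn : {y : X | Bad s y}.ncard using Nat.strong_induction_on generalizing s with
  | _ n ih =>
    by_cases h0 : ∃ x : X, Bad s x
    · obtain ⟨x, hx⟩ := h0
      obtain ⟨m, h1, h2, h3, h4⟩ := step s hs x hx
      have h5 : {y : X | Bad (s * m) y}.ncard < n :=
        hn ▸ Set.ncard_lt_ncard ⟨h4, fun h => h3 (h hx)⟩ (Set.toFinite _)
      obtain ⟨h, h6, h7⟩ := ih _ h5 (s * m) h2 rfl
      exact ⟨m * h, N.mul_mem h1 h6, by rwa [← mul_assoc]⟩
    · push Not at h0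
      exact ⟨1, N.one_mem, by rwa [mul_one], by rwa [mul_one]⟩

/-- the odd part of a group element on a finite stable set -/
lemma grp_odd {Y : Set X} (hY : Y.Finite) (g : G) (hg : ∀ y ∈ Y, g • y ∈ Y) :
    ∃ e : ℕ, (∃ o, Odd o ∧ ∀ y ∈ Y, (g ^ e) ^ o • y = y) ∧
      ∀ y ∈ Y, ∀ o, Odd o → g ^ o • y = y → g ^ e • y = g • y := by
  have h1 : ∀ y ∈ Y, 0 < period g y := by
    intro y hy
    have h2 : ∀ n : ℕ, g ^ n • y ∈ Y := fun n => by
      induction n with
      | zero => simpa using hy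
      | succ n ih => rw [pow_succ', mul_smul]; exact hg _ ih
    have := hY.to_subtype
    obtain ⟨a, c, h3, h4⟩ := Finite.exists_ne_map_eq_of_infinite fun n : ℕ => (⟨_, h2 n⟩ : Y)
    have h5 : g ^ a • y = g ^ c • y := congrArg Subtype.val h4
    wlog h6 : a < c generalizing a c
    · exact this c a h3.symm h4.symm h5.symm (by omega)
    obtain ⟨k, rfl⟩ := Nat.exists_eq_add_of_lt h6
    rw [add_assoc, pow_add, mul_smul, smul_left_cancel_iff] at h5
    exact period_pos_of_fixed (Nat.succ_pos k) h5.symm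
  obtain ⟨a, o, ho, h2⟩ := Nat.exists_eq_two_pow_mul_odd (n := ∏ y ∈ hY.toFinset, period g y)
    (Finset.prod_ne_zero_iff.2 fun y hy => (h1 y (hY.mem_toFinset.1 hy)).ne')
  have h3 : ∀ y ∈ Y, period g y ∣ 2 ^ a * o := fun y hy =>
    h2 ▸ Finset.dvd_prod_of_mem _ (hY.mem_toFinset.2 hy)
  obtain ⟨e, h4, h5⟩ := Nat.chineseRemainder (Nat.Coprime.pow_left a ho.coprime_two_left) 0 1
  refine ⟨e, ⟨o, ho, fun y hy => ?_⟩, fun y hy q hq h6 => ?_⟩
  · rw [← pow_mul, pow_smul_eq_iff_period_dvd]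
    exact (h3 y hy).trans (Nat.mul_dvd_mul_right (Nat.modEq_zero_iff_dvd.1 h4) o)
  · rw [pow_smul_eq_iff_period_dvd] at h6
    have h7 : period g y ∣ o := (Nat.Coprime.pow_right a
      (hq.of_dvd_nat h6).coprime_two_right).dvd_of_dvd_mul_left (h3 y hy)
    have h8 : e % period g y = 1 % period g y := h5.of_dvd h7
    rw [← pow_mod_period_smul, h8, pow_mod_period_smul, pow_one]


/-- a transitive action permuting the fibres of `π`; `N` preserves each fibre -/
structure Tw (π : X → V) (N : Subgroup G) : Prop where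
  heq : ∀ (g : G) (x y : X), π x = π y → π (g • x) = π (g • y)
  nor : N.Normal
  fix : ∀ n ∈ N, ∀ x : X, π (n • x) = π x
  tr : ∀ x y : X, ∃ g : G, g • x = y

variable {N : Subgroup G}

lemma Tw.ex (T : Tw π N) {n : G} (hn : n ∈ N) (x : X) : ∃ σ, Ac π (π x) n σ :=
  ac_ex T.heq rfl (T.fix n hn x)

lemma Tw.back (T : Tw π N) (g : G) {x y : X} (h : π (g • x) = π (g • y)) : π x = π y := by
  simpa using T.heq g⁻¹ _ _ h

lemma conj_move {g w : G} {y : X} (h : (g * w * g⁻¹) • y ≠ y) : w • g⁻¹ • y ≠ g⁻¹ • y :=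
  fun e => h (by rw [mul_smul, mul_smul, e, smul_inv_smul])

/-- the odd order condition on the fixed fibres -/
def OddOn (π : X → V) (g : G) : Prop :=
  ∀ (x : X) (σ : Perm {z // π z = π x}), Ac π (π x) g σ → ∃ o, Odd o ∧ σ ^ o = 1

theorem Tw.ku [Finite X] (T : Tw π N)
    (hfix : ∀ (g : G) (x y : X), π x = π y → g • x = x → g • y = y) {w : G} (hw : w ∈ N) {x1 : X}
    (h1 : w • x1 ≠ x1) (h2 : ∀ x y : X, w • x ≠ x → w • y ≠ y → π x = π y) (s : G) :
    ∃ h ∈ N, ∀ x : X, (s * h) • x ≠ x := by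
  obtain ⟨h, h3, -, h4⟩ := grp_greedy (X := X) N (fun _ => True) (fun g x => g • x = x)
    (fun g _ x hx => by
    obtain ⟨t, rfl⟩ := T.tr x1 x
    have hm := T.nor.conj_mem w hw t
    have h5 : ∀ y, π y = π (t • x1) → (g * (t * w * t⁻¹)) • y ≠ y := by
      intro y hy e
      rw [mul_smul, hfix g _ _ ((T.fix _ hm y).trans hy).symm hx] at e
      have h6 := hfix _ _ _ hy e
      rw [mul_smul, mul_smul, inv_smul_smul, smul_left_cancel_iff] at h6
      exact h1 h6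
    refine ⟨_, hm, trivial, h5 _ rfl, fun y hy => ?_⟩
    by_cases h6 : (t * w * t⁻¹) • y = y
    · rwa [mul_smul, h6] at hy
    · refine absurd hy (h5 y ?_)
      simpa using T.heq t _ _ (h2 _ _ (conj_move h6) h1)) s trivial
  exact ⟨h, h3, h4⟩

variable [Fintype X] [DecidableEq X] [DecidableEq V]

/-- a conjugate of `w` acts on a given fibre as a transposition -/
lemma Tw.swap (T : Tw π N) {w : G} (hw : w ∈ N) {x1 : X} (h1 : w • x1 ≠ x1)
    (h2 : ∀ x y z : X, π x = π y → π x = π z → w • x ≠ x → w • y ≠ y → w • z ≠ z →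
      x = y ∨ x = z ∨ y = z) (x : X) :
    ∃ (t : G) (σ : Perm {z // π z = π x}), Ac π (π x) (t * w * t⁻¹) σ ∧ σ.IsSwap := by
  obtain ⟨t, rfl⟩ := T.tr x1 x
  obtain ⟨σ, hσ⟩ := T.ex (T.nor.conj_mem w hw t) (t • x1)
  refine ⟨t, σ, hσ, Perm.card_support_eq_two.1 (le_antisymm ?_ ?_)⟩
  · by_contra hn
    obtain ⟨a, ha, b, hb, c, hc, h3, h4, h5⟩ := Finset.two_lt_card.1 (not_le.1 hn)
    have key : ∀ a ∈ σ.support, w • t⁻¹ • (a : X) ≠ t⁻¹ • (a : X) := fun a ha =>
      conj_move fun e => Perm.mem_support.1 ha (Subtype.ext ((hσ a).trans e))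
    rcases h2 _ _ _ (T.heq t⁻¹ _ _ (a.2.trans b.2.symm)) (T.heq t⁻¹ _ _ (a.2.trans c.2.symm))
      (key a ha) (key b hb) (key c hc) with h | h | h <;> rw [smul_left_cancel_iff] at h
    exacts [h3 (Subtype.ext h), h4 (Subtype.ext h), h5 (Subtype.ext h)]
  · refine Perm.two_le_card_support_of_ne_one fun e => h1 ?_
    have h3 := ac_triv.1 (e ▸ hσ) (t • x1) rfl
    rwa [mul_smul, mul_smul, inv_smul_smul, smul_left_cancel_iff] at h3

/-- the normal subgroup induces the full symmetric group on each fibre -/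
lemma Tw.sym (T : Tw π N) {x : X} (hp : (Fintype.card {z // π z = π x}).Prime)
    {σ : Perm {z // π z = π x}} (h1 : σ ∈ Img π (π x) N) (h2 : σ.IsSwap) (τ) :
    τ ∈ Img π (π x) N := by
  have h3 : IsPretransitive (Img π (π x) (⊤ : Subgroup G)) {z // π z = π x} := ⟨fun a b => by
    obtain ⟨g, hg⟩ := T.tr a b
    obtain ⟨ρ, hρ⟩ := ac_ex T.heq (g := g) a.2 (hg ▸ b.2)
    exact ⟨⟨ρ, g, trivial, hρ⟩, Subtype.ext ((hρ a).trans hg)⟩⟩
  have h4 := Perm.subgroup_eq_top_of_isPreprimitive_of_isSwap_mem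
    (IsPreprimitive.of_prime_card (G := Img π (π x) (⊤ : Subgroup G))
      (by rwa [Nat.card_eq_fintype_card])) σ h2 (h1.imp fun _ h => ⟨trivial, h.2⟩)
  have h5 : (Img π (π x) N).Normal :=
    img_normal (N := ⊤) (fun ρ => h4 ▸ Subgroup.mem_top ρ) fun n _ m hm => T.nor.conj_mem m hm n
  have h6 : Subgroup.closure {ρ : Perm {z // π z = π x} | ρ.IsSwap} ≤ Img π (π x) N := by
    rw [Subgroup.closure_le]
    rintro _ ⟨a, b, hab, rfl⟩
    obtain ⟨c, d, hcd, rfl⟩ := h2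
    obtain ⟨u, hu⟩ := isConj_iff.1 (Perm.isConj_swap hcd hab)
    exact hu ▸ h5.conj_mem _ h1 u
  exact h6 (by rw [Perm.closure_isSwap]; trivial)

/-- the greedy step for fibres with three points -/
lemma Tw.step3 (T : Tw π N) (hc : ∀ x, Fintype.card {z // π z = π x} = 3)
    (hS : ∀ x τ, τ ∈ Img π (π x) N) {w : G} (hw : w ∈ N) {x1 : X} (h1 : w • x1 ≠ x1)
    (h3 : ∀ x y z : X, w • x ≠ x → w • y ≠ y → w • z ≠ z → π x = π y ∨ π x = π z ∨ π y = π z)
    (g : G) (hg : OddOn π g) (x : X) (hx : g • x = x) :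
    ∃ m ∈ N, OddOn π (g * m) ∧ (g * m) • x ≠ x ∧ ∀ y : X, (g * m) • y = y → g • y = y := by
  obtain ⟨t, rfl⟩ := T.tr x1 x
  have hw' := T.nor.conj_mem w hw t
  have h1' : (t * w * t⁻¹) • t • x1 ≠ t • x1 := fun e => h1 (by
    rwa [mul_smul, mul_smul, inv_smul_smul, smul_left_cancel_iff] at e)
  have h3' : ∀ y z : X, (t * w * t⁻¹) • y ≠ y → (t * w * t⁻¹) • z ≠ z → π y ≠ π (t • x1) →
      π z ≠ π (t • x1) → π y = π z := by
    intro y z hy hz hy' hz'
    rcases h3 _ _ _ h1 (conj_move hy) (conj_move hz) with h | h | h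
    · exact absurd (by simpa using (T.heq t _ _ h).symm) hy'
    · exact absurd (by simpa using (T.heq t _ _ h).symm) hz'
    · exact T.back _ h
  generalize t * w * t⁻¹ = u at hw' h1' h3'
  generalize t • x1 = x at hx h1' h3'
  obtain ⟨σ, hσ⟩ := T.ex hw' x
  obtain ⟨τ, hτ⟩ : ∃ τ, σ * τ ≠ τ * σ := by
    by_contra hn
    push Not at hn
    exact h1' (ac_triv.1 (grp_central (hc x).ge hn ▸ hσ) x rfl)
  obtain ⟨m, hm, hmτ⟩ := hS x τ
  obtain ⟨v, hv⟩ : ∃ v, v = u * m * u⁻¹ * m⁻¹ := ⟨_, rfl⟩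
  have hvN : v ∈ N := hv ▸ N.mul_mem (N.mul_mem (N.mul_mem hw' hm) (N.inv_mem hw')) (N.inv_mem hm)
  have hA : ∀ {y a b}, Ac π (π y) u a → Ac π (π y) m b → Ac π (π y) v (a * b * a⁻¹ * b⁻¹) :=
    fun ha hb => hv ▸ ((ha.mul hb).mul ha.inv).mul hb.inv
  have hev : ∀ y, ∃ ρ, Ac π (π y) v ρ ∧ Perm.sign ρ = 1 ∧
      ((∀ z, π z = π y → u • z = z) → ρ = 1) := by
    intro y
    obtain ⟨a, ha⟩ := T.ex hw' y
    obtain ⟨b, hb⟩ := T.ex hm y
    refine ⟨_, hA ha hb, ?_, fun h => ?_⟩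
    · simp only [map_mul, map_inv]
      rw [mul_right_comm (Perm.sign a), mul_inv_cancel, one_mul, mul_inv_cancel]
    · rw [ha.uniq (ac_triv.2 h)]
      simp
  have hodd : ∀ k : ℕ, OddOn π (g * v ^ k) := by
    intro k y ρ hρ
    obtain ⟨a, ha, h4, -⟩ := hev y
    obtain ⟨o, ho, h5⟩ := hg y _ (by simpa using hρ.mul (ha.pow k).inv)
    have h6 := grp_sign ho h5
    rw [map_mul, map_inv, map_pow, h4, one_pow, inv_one, mul_one] at h6
    exact ⟨3, by decide, grp_cube (hc y) h6⟩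
  have htriv : ∀ {q : G} {y a}, OddOn π q → q • y = y → Ac π (π y) q a → a = 1 := by
    intro q y a hq hy ha
    obtain ⟨o, ho, h5⟩ := hq y a ha
    by_contra hn
    exact grp_free Nat.prime_three (hc y) (grp_cube (hc y) (grp_sign ho h5)) hn ⟨y, rfl⟩
      (Subtype.ext ((ha _).trans hy))
  have hex : ∀ {k : ℕ} {y}, (g * v ^ k) • y = y → ∃ a, Ac π (π y) g a := fun {k y} h =>
    ac_ex T.heq (x := v ^ k • y) (T.fix _ (N.pow_mem hvN k) y) (by rw [← mul_smul, h])
  have hx' : ∀ k : ℕ, k = 1 ∨ k = 2 → ∀ y, π y = π x → (g * v ^ k) • y ≠ y := by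
    intro k hk y hy e
    obtain ⟨a, ha⟩ := ac_ex T.heq (g := g) rfl (congrArg π hx)
    have h4 := hA hσ hmτ
    obtain ⟨ρ, hρ, h5, -⟩ := hev x
    have h6 : (g * v ^ k) • x = x := by
      obtain ⟨c, h7⟩ := ac_ex T.heq (g := g * v ^ k) rfl (congrArg π e)
      exact ac_triv.1 (htriv (hodd k) e h7 ▸ h7) x hy.symm
    have h7 := htriv (hodd k) h6 (ha.mul (hρ.pow k))
    rw [htriv hg hx ha, one_mul] at h7
    have h8 := grp_cube (hc x) h5
    have h9 : ρ = 1 := by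
      rcases hk with rfl | rfl
      · rwa [pow_one] at h7
      · rwa [pow_succ, h7, one_mul] at h8
    rw [h4.uniq hρ |>.symm, mul_inv_eq_one, mul_inv_eq_iff_eq_mul] at h9
    exact hτ h9
  have hmv : ∀ {k : ℕ} {y}, (g * v ^ k) • y = y → g • y ≠ y → ∃ z, π z = π y ∧ u • z ≠ z := by
    intro k y h4 h5
    by_contra hn
    push Not at hn
    obtain ⟨ρ, hρ, -, h6⟩ := hev y
    have h7 := hρ.pow k
    rw [h6 hn, one_pow] at h7
    rw [mul_smul, ac_triv.1 h7 y rfl] at h4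
    exact h5 h4
  by_cases hk : ∀ y : X, (g * v ^ 1) • y = y → g • y = y
  · exact ⟨_, N.pow_mem hvN 1, hodd 1, hx' 1 (Or.inl rfl) x rfl, hk⟩
  refine ⟨_, N.pow_mem hvN 2, hodd 2, hx' 2 (Or.inr rfl) x rfl, fun y hy => ?_⟩
  push Not at hk
  obtain ⟨y', h4, h5⟩ := hk
  by_contra h6
  obtain ⟨z, hz, hz'⟩ := hmv hy h6
  obtain ⟨z', hz1, hz2⟩ := hmv h4 h5
  have h7 : π y = π y' := hz.symm.trans ((h3' z z' hz' hz2
    (fun e => hx' 2 (Or.inr rfl) y (hz.symm.trans e) hy)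
    (fun e => hx' 1 (Or.inl rfl) y' (hz1.symm.trans e) h4)).trans hz1)
  obtain ⟨c, h8⟩ := ac_ex T.heq (g := g * v ^ 1) rfl (congrArg π h4)
  have h9 := ac_triv.1 (htriv (hodd 1) h4 h8 ▸ h8) y h7
  obtain ⟨a, ha⟩ := hex hy
  obtain ⟨ρ, hρ, -, -⟩ := hev y
  have e1 := htriv (hodd 1) h9 (ha.mul (hρ.pow 1))
  have e2 := htriv (hodd 2) hy (ha.mul (hρ.pow 2))
  rw [pow_succ, ← mul_assoc, e1, one_mul] at e2
  rw [e2, one_pow, mul_one] at e1
  exact h6 (ac_triv.1 (e1 ▸ ha) y rfl)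

lemma three_of_ncard {α : Type} {S : Set α} (hf : S.Finite) (h : S.ncard ≤ 2) {x y z : α}
    (hx : x ∈ S) (hy : y ∈ S) (hz : z ∈ S) : x = y ∨ x = z ∨ y = z := by
  by_contra hn
  push Not at hn
  exact absurd ((Set.two_lt_ncard hf).2 ⟨x, hx, y, hy, z, hz, hn⟩) (not_lt.2 h)

end G6

open G6

variable {Γ X V : Type} [Group Γ] [MulAction Γ X] [MulAction Γ V] [Finite X]
  [MulAction.IsPretransitive Γ X] {π : X → V} (hπ : ∀ (g : Γ) x, π (g • x) = g • π x)
  {N : Subgroup Γ} [N.Normal] (hN : ∀ n ∈ N, ∀ x, π (n • x) = π x)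

include hπ hN

omit [Finite X] in
lemma dp6_tw : G6.Tw π N :=
  ⟨fun g x y h => by rw [hπ, hπ, h], inferInstance, hN, fun x y => exists_smul_eq Γ x y⟩

theorem ku (hf : ∀ (g : Γ) x y, π x = π y → g • x = x → g • y = y) {ι : Γ} (hι : ι ∈ N)
    (h0 : ∃ x : X, ι • x ≠ x) (h1 : ∀ x y : X, ι • x ≠ x → ι • y ≠ y → π x = π y) (s : Γ) :
    ∃ h ∈ N, ∀ x : X, (s * h) • x ≠ x := by
  obtain ⟨x, hx⟩ := h0
  exact (dp6_tw hπ hN).ku hf hι hx h1 s

theorem kp0 {p : ℕ} (hp : p.Prime) (hc : ∀ x, Nat.card {y // π y = π x} = p) {ι : Γ}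
    (hι : ι ∈ N) (h0 : ∃ x : X, ι • x ≠ x)
    (h1 : ∀ b, {y : X | π y = b ∧ ι • y ≠ y}.ncard ≤ 2) (b : V)
    (σ : Equiv.Perm {y // π y = b}) : ∃ n ∈ N, ∀ y : {y // π y = b}, n • y.1 = (σ y).1 := by
  classical
  have := Fintype.ofFinite X
  by_cases hb : ∃ x, π x = b
  · obtain ⟨x, rfl⟩ := hb
    obtain ⟨x1, hx1⟩ := h0
    have T := dp6_tw hπ hN
    obtain ⟨t, τ, h4, h5⟩ := T.swap hι hx1 (fun x y z e e' hx hy hz =>
      three_of_ncard (Set.toFinite _) (h1 (π x)) ⟨rfl, hx⟩ ⟨e.symm, hy⟩ ⟨e'.symm, hz⟩) x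
    obtain ⟨n, h6, h7⟩ := T.sym (by rw [← Nat.card_eq_fintype_card, hc]; exact hp)
      ⟨_, T.nor.conj_mem ι hι t, h4⟩ h5 σ
    exact ⟨n, h6, fun y => (h7 y).symm⟩
  · exact ⟨1, N.one_mem, fun y => (hb ⟨y, y.2⟩).elim⟩

theorem kp3 (hc : ∀ x, Nat.card {y // π y = π x} = 3) {ι : Γ} (hι : ι ∈ N)
    (h0 : ∃ x : X, ι • x ≠ x) (h1 : ∀ b, {y : X | π y = b ∧ ι • y ≠ y}.ncard ≤ 2)
    (h3 : (π '' {y : X | ι • y ≠ y}).ncard ≤ 2) (s : Γ) {m : ℕ} (hm : Odd m)
    (hs : ∀ x : X, s ^ m • x = x) :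
    ∃ h ∈ N, ∀ x : X, s • π x = π x → (s * h) • x ≠ x ∧ (s * h) ^ 3 • x = x := by
  classical
  have := Fintype.ofFinite X
  have T := dp6_tw hπ hN
  have hc' : ∀ x, Fintype.card {z // π z = π x} = 3 := fun x => by
    rw [← Nat.card_eq_fintype_card, hc]
  have hS := kp0 hπ hN Nat.prime_three hc hι h0 h1
  obtain ⟨x1, hx1⟩ := h0
  obtain ⟨h, h4, h5, h6⟩ := grp_greedy (X := X) N (OddOn π) (fun g x => g • x = x)
    (T.step3 hc' (fun x τ => (hS _ τ).imp fun n hn => ⟨hn.1, fun y => (hn.2 y).symm⟩) hι hx1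
      fun x y z hx hy hz => three_of_ncard (Set.toFinite _) h3 ⟨x, hx, rfl⟩ ⟨y, hy, rfl⟩
        ⟨z, hz, rfl⟩) s
    fun x σ hσ => ⟨m, hm, (hσ.pow m).uniq (ac_triv.2 fun z _ => hs z)⟩
  refine ⟨h, h4, fun x e => ⟨h6 x, ?_⟩⟩
  obtain ⟨σ, hσ⟩ := ac_ex T.heq (g := s * h) (x := x) rfl (by rw [mul_smul, hπ, hN h h4, e])
  obtain ⟨q, h7, h8⟩ := h5 x σ hσ
  exact ac_triv.1 (grp_cube (hc' x) (grp_sign h7 h8) ▸ hσ.pow 3) x rfl

end Pool.Agent.P.MP_68214b_ag.DP
end

-- part Pool.Agent.P.MP_68214b_ag.DP6b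
section

/-! Group lemmas: fibres of prime size at least five. -/

open Equiv MulAction

namespace Pool.Agent.P.MP_68214b_ag.DP

namespace G6

variable {G X V : Type} [Group G] [MulAction G X]

/-- elements of `N` that fix the fibres through the points of `S` -/
def KerS (π : X → V) (N : Subgroup G) (S : Set X) : Subgroup G where
  carrier := {n | n ∈ N ∧ ∀ y ∈ S, Ac π (π y) n 1}
  mul_mem' := fun h1 h2 => ⟨N.mul_mem h1.1 h2.1, fun y hy => by
    simpa using (h1.2 y hy).mul (h2.2 y hy)⟩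
  one_mem' := ⟨N.one_mem, fun _ _ => Ac.one⟩
  inv_mem' := fun h => ⟨N.inv_mem h.1, fun y hy => by simpa using (h.2 y hy).inv⟩

/-- the fibre of `y` is fixed by `g`, and `g` is not yet of order `p` at `y` -/
def Bad (π : X → V) (p : ℕ) (g : G) (y : X) : Prop :=
  π (g • y) = π y ∧ ¬ (g • y ≠ y ∧ g ^ p • y = y)

variable {π : X → V} {N : Subgroup G}

lemma Tw.kconj (T : Tw π N) (S : Set X) {n m : G} (hn : n ∈ N) (hm : m ∈ KerS π N S) :
    n * m * n⁻¹ ∈ KerS π N S := ⟨T.nor.conj_mem m hm.1 n, fun y hy => by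
  obtain ⟨a, ha⟩ := T.ex hn y
  simpa using (ha.mul (hm.2 y hy)).mul ha.inv⟩

section Fin

variable [Fintype X] [DecidableEq X] [DecidableEq V]

lemma Tw.alt (T : Tw π N) {x : X} (hc : 5 ≤ Fintype.card {z // π z = π x})
    (hS : ∀ τ, τ ∈ Img π (π x) N) {S : Set X} (hf : S.Finite)
    (h : ∀ y ∈ S, ¬ ∀ n ∈ N, Ac π (π y) n 1 → Ac π (π x) n 1) {τ : Perm {z // π z = π x}}
    (hτ : Perm.sign τ = 1) : τ ∈ Img π (π x) (KerS π N S) := by
  have key : ∀ (S : Set X) (m : G) (σ : Perm {z // π z = π x}), m ∈ KerS π N S →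
      Ac π (π x) m σ → σ ≠ 1 → ∀ τ, Perm.sign τ = 1 → τ ∈ Img π (π x) (KerS π N S) := by
    intro S m σ h1 h2 h3 τ hτ
    have := img_normal (M := KerS π N S) hS fun n hn m hm => T.kconj S hn hm
    exact Perm.alternatingGroup_le_of_normal (N := Img π (π x) (KerS π N S))
      (by rwa [Nat.card_eq_fintype_card])
      ⟨⟨⟨σ, m, h1, h2⟩, 1, fun e => h3 (congrArg Subtype.val e)⟩⟩ (Perm.mem_alternatingGroup.2 hτ)
  induction S, hf using Set.Finite.induction_on generalizing τ with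
  | empty =>
    obtain ⟨n, h1, h2⟩ := hS τ
    exact ⟨n, ⟨h1, fun _ h => h.elim⟩, h2⟩
  | @insert y S _ _ ih =>
    obtain ⟨a, b, ha, hb, hab⟩ := grp_alt hc
    obtain ⟨m, h1, h2⟩ := ih (fun z hz => h z (Set.mem_insert_of_mem _ hz)) ha
    have h3 := h y (Set.mem_insert _ _)
    push Not at h3
    obtain ⟨n, h3, h4, h5⟩ := h3
    obtain ⟨σ, hσ⟩ := T.ex h3 x
    obtain ⟨k, h6, h7⟩ := key {y} n σ ⟨h3, fun z hz => hz ▸ h4⟩ hσ (fun e => h5 (e ▸ hσ)) b hb
    have h8 := (KerS π N {y}).mul_mem (T.kconj _ h1.1 h6) ((KerS π N {y}).inv_mem h6)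
    have h9 := (KerS π N S).mul_mem h1 (T.kconj _ h6.1 ((KerS π N S).inv_mem h1))
    refine key _ (m * k * m⁻¹ * k⁻¹) _ ⟨h8.1, fun z hz => ?_⟩ (((h2.mul h7).mul h2.inv).mul h7.inv)
      (fun e => hab ?_) τ hτ
    · rcases hz with rfl | hz
      · exact h8.2 _ rfl
      · simpa only [mul_assoc] using h9.2 z hz
    · rwa [mul_inv_eq_one, mul_inv_eq_iff_eq_mul] at e

lemma Tw.symm (T : Tw π N) (hc : ∀ x, 5 ≤ Fintype.card {z // π z = π x})
    (hS : ∀ x τ, τ ∈ Img π (π x) N) {x y : X} (h : ∀ n ∈ N, Ac π (π y) n 1 → Ac π (π x) n 1) :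
    ∀ n ∈ N, Ac π (π x) n 1 → Ac π (π y) n 1 := by
  by_contra hn
  obtain ⟨a, b, -, -, hab⟩ := grp_alt (hc x)
  obtain ⟨n1, h1, h2⟩ := hS x a
  obtain ⟨n2, h3, h4⟩ := hS x b
  obtain ⟨a', h5⟩ := T.ex h1 y
  obtain ⟨b', h6⟩ := T.ex h3 y
  obtain ⟨k, h7, h8⟩ := T.alt (hc y) (hS y) (Set.finite_singleton x) (fun z hz => hz ▸ hn)
    (τ := a' * b' * a'⁻¹ * b'⁻¹) (by
      simp only [map_mul, map_inv]
      rw [mul_right_comm (Perm.sign a'), mul_inv_cancel, one_mul, mul_inv_cancel])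
  have h9 := h _ (N.mul_mem (N.mul_mem (N.mul_mem (N.mul_mem h1 h3) (N.inv_mem h1)) (N.inv_mem h3))
    (N.inv_mem h7.1)) (by
      have := (((h5.mul h6).mul h5.inv).mul h6.inv).mul h8.inv
      rwa [mul_inv_cancel] at this)
  have e := ((((h2.mul h4).mul h2.inv).mul h4.inv).mul (h7.2 x rfl).inv).uniq h9
  rw [inv_one, mul_one, mul_inv_eq_one, mul_inv_eq_iff_eq_mul] at e
  exact hab e

/-- the greedy step for fibres with at least five points -/
lemma Tw.step5 (T : Tw π N) {p : ℕ} (hp : p.Prime) (h5 : 5 ≤ p)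
    (hc : ∀ x, Fintype.card {z // π z = π x} = p) (hS : ∀ x τ, τ ∈ Img π (π x) N)
    (g : G) (hg : OddOn π g) (x : X) (hx : Bad π p g x) :
    ∃ m ∈ N, OddOn π (g * m) ∧ ¬ Bad π p (g * m) x ∧ ∀ y : X, Bad π p (g * m) y → Bad π p g y := by
  have hc5 : ∀ x, 5 ≤ Fintype.card {z // π z = π x} := fun x => hc x ▸ h5
  have hpo : Odd p := hp.odd_of_ne_two (by omega)
  obtain ⟨a, ha⟩ := ac_ex T.heq (g := g) rfl hx.1
  obtain ⟨o, ho, h1⟩ := hg x a ha
  obtain ⟨c, h2, h3⟩ := grp_cyc hp (hc x)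
  have hA := fun τ hτ => T.alt (hc5 x) (hS x)
    (Set.toFinite {y | ¬ ∀ n ∈ N, Ac π (π y) n 1 → Ac π (π x) n 1}) (fun _ h => h) (τ := τ) hτ
  obtain ⟨m0, h4, h6⟩ := hA a⁻¹ (by rw [map_inv, grp_sign ho h1, inv_one])
  obtain ⟨m1, h7, h8⟩ := hA c (grp_sign hpo h2)
  have h9 := (KerS π N _).mul_mem h4 h7
  have h10 : Ac π (π x) (g * m0) 1 := by simpa using ha.mul h6
  have key : ∀ y ρ, (∀ n ∈ N, Ac π (π y) n 1 → Ac π (π x) n 1) → Ac π (π y) (g * (m0 * m1)) ρ →
      ρ ^ p = 1 ∧ ρ ≠ 1 := by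
    intro y ρ hy hρ
    have hy' := T.symm hc5 hS hy
    obtain ⟨τ, hτ⟩ := T.ex h7.1 y
    have e1 : Ac π (π y) (g * m0) (ρ * τ⁻¹) := by simpa [mul_assoc] using hρ.mul hτ.inv
    have e2 : ρ * τ⁻¹ = 1 := grp_central ((by omega : 3 ≤ 5).trans (hc5 y)) fun ν => by
      obtain ⟨n, hn, hν⟩ := hS y ν
      obtain ⟨ν', hν'⟩ := T.ex hn x
      have e3 := (((e1.mul hν).mul e1.inv).mul hν.inv).uniq
        (hy' _ (N.mul_mem (T.nor.conj_mem n hn _) (N.inv_mem hn))
          (by simpa using ((h10.mul hν').mul h10.inv).mul hν'.inv))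
      rwa [mul_inv_eq_one, mul_inv_eq_iff_eq_mul] at e3
    rw [mul_inv_eq_one] at e2
    subst e2
    exact ⟨(hτ.pow p).uniq (hy' _ (N.pow_mem h7.1 p) (h2 ▸ h8.pow p)),
      fun e => h3 (h8.uniq (hy _ h7.1 (e ▸ hτ)))⟩
  have key2 : ∀ y, (∀ n ∈ N, Ac π (π y) n 1 → Ac π (π x) n 1) → ¬ Bad π p (g * (m0 * m1)) y := by
    intro y hy e
    obtain ⟨ρ, hρ⟩ := ac_ex T.heq (g := g * (m0 * m1)) rfl e.1
    exact e.2 ⟨fun e' => grp_free hp (hc y) (key y ρ hy hρ).1 (key y ρ hy hρ).2 ⟨y, rfl⟩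
      (Subtype.ext ((hρ _).trans e')), ac_triv.1 ((key y ρ hy hρ).1 ▸ hρ.pow p) y rfl⟩
  have key3 : ∀ y ρ, (¬ ∀ n ∈ N, Ac π (π y) n 1 → Ac π (π x) n 1) →
      Ac π (π y) (g * (m0 * m1)) ρ → Ac π (π y) g ρ := by
    intro y ρ hy hρ
    have := hρ.mul (h9.2 y hy).inv
    rwa [mul_inv_cancel_right, inv_one, mul_one] at this
  refine ⟨_, h9.1, fun y ρ hρ => ?_, key2 x fun _ _ h => h, fun y e => ?_⟩
  · by_cases hy : ∀ n ∈ N, Ac π (π y) n 1 → Ac π (π x) n 1
    · exact ⟨p, hpo, (key y ρ hy hρ).1⟩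
    · exact hg y ρ (key3 y ρ hy hρ)
  · by_cases hy : ∀ n ∈ N, Ac π (π y) n 1 → Ac π (π x) n 1
    · exact absurd e (key2 y hy)
    · obtain ⟨ρ, hρ⟩ := ac_ex T.heq (g := g * (m0 * m1)) rfl e.1
      have e1 : (g * (m0 * m1)) • y = g • y := (hρ ⟨y, rfl⟩).symm.trans (key3 y ρ hy hρ _)
      have e2 : (g * (m0 * m1)) ^ p • y = g ^ p • y :=
        (hρ.pow p ⟨y, rfl⟩).symm.trans ((key3 y ρ hy hρ).pow p _)
      unfold Bad at e ⊢
      rwa [e1, e2] at e

end Fin

end G6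

open G6

variable {Γ X V : Type} [Group Γ] [MulAction Γ X] [MulAction Γ V] [Finite X]
  [MulAction.IsPretransitive Γ X] {π : X → V} (hπ : ∀ (g : Γ) x, π (g • x) = g • π x)
  {N : Subgroup Γ} [N.Normal] (hN : ∀ n ∈ N, ∀ x, π (n • x) = π x)

include hπ hN

theorem kp5 {p : ℕ} (hp : p.Prime) (h5 : 5 ≤ p) (hc : ∀ x, Nat.card {y // π y = π x} = p)
    (hS : ∀ (b : V) (σ : Equiv.Perm {y // π y = b}),
      ∃ n ∈ N, ∀ y : {y // π y = b}, n • y.1 = (σ y).1) (s : Γ) {m : ℕ} (hm : Odd m)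
    (hs : ∀ x : X, s ^ m • x = x) :
    ∃ h ∈ N, ∀ x : X, s • π x = π x → (s * h) • x ≠ x ∧ (s * h) ^ p • x = x := by
  classical
  have := Fintype.ofFinite X
  obtain ⟨h, h4, -, h6⟩ := grp_greedy (X := X) N (OddOn π) (Bad π p)
    ((dp6_tw hπ hN).step5 hp h5 (fun x => by rw [← Nat.card_eq_fintype_card, hc])
      fun x τ => (hS _ τ).imp fun n hn => ⟨hn.1, fun y => (hn.2 y).symm⟩) s
    fun x σ hσ => ⟨m, hm, (hσ.pow m).uniq (ac_triv.2 fun z _ => hs z)⟩
  refine ⟨h, h4, fun x e => ?_⟩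
  by_contra hn
  exact h6 x ⟨by rw [mul_smul, hπ, hN h h4, e], hn⟩

theorem kp {p : ℕ} (hp : p.Prime) (h2 : p ≠ 2) (hc : ∀ x, Nat.card {y // π y = π x} = p) {ι : Γ}
    (hι : ι ∈ N) (h0 : ∃ x : X, ι • x ≠ x) (h1 : ∀ b, {y : X | π y = b ∧ ι • y ≠ y}.ncard ≤ 2)
    (h3 : p = 3 → (π '' {y : X | ι • y ≠ y}).ncard ≤ 2) (s : Γ) {m : ℕ} (hm : Odd m)
    (hs : ∀ x : X, s ^ m • x = x) :
    ∃ h ∈ N, ∀ x : X, s • π x = π x → (s * h) • x ≠ x ∧ (s * h) ^ p • x = x := by
  by_cases e : p = 3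
  · subst e
    exact kp3 hπ hN hc hι h0 h1 (h3 rfl) s hm hs
  · exact kp5 hπ hN hp (hp.five_le_of_ne_two_of_ne_three h2 e) hc
      (kp0 hπ hN hp hc hι h0 h1) s hm hs

end Pool.Agent.P.MP_68214b_ag.DP
end

-- part Pool.Agent.P.MP_68214b_ag.DP6d
section

/-! Group lemma: fibres of size prime to six. -/

open Equiv MulAction

namespace Pool.Agent.P.MP_68214b_ag.DP

namespace G6

section Pm

variable {α : Type} [DecidableEq α]

lemma sw_eq {σ : Perm α} (h : σ.IsSwap) {p q : α} (hpq : p ≠ q) (hp : σ p ≠ p) (hq : σ q ≠ q) :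
    σ = swap p q := by
  obtain ⟨a, b, -, rfl⟩ := h
  have key : ∀ z, swap a b z ≠ z → z = a ∨ z = b := fun z hz => by
    by_contra hn
    push Not at hn
    exact hz (swap_apply_of_ne_of_ne hn.1 hn.2)
  rcases key p hp with rfl | rfl <;> rcases key q hq with rfl | rfl
  exacts [absurd rfl hpq, rfl, swap_comm _ _, absurd rfl hpq]

omit [DecidableEq α] in
lemma sw_meet {σ τ : Perm α} (h : σ * τ ≠ τ * σ) : ∃ p, σ p ≠ p ∧ τ p ≠ p := by
  by_contra hn
  push Not at hn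
  exact h (Perm.Disjoint.commute fun p => or_iff_not_imp_left.2 (hn p)).eq

lemma sw_two {σ : Perm α} (h : σ.IsSwap) {p q : α} (hpq : q ≠ p) (hp : σ p ≠ p) (hq : σ q ≠ q) :
    q = σ p := by rw [sw_eq h hpq.symm hp hq, swap_apply_left]

/-- at least four pairwise non commuting transpositions have a common point -/
lemma sw_star {J : Type} [DecidableEq J] (S : Finset J) (h4 : 4 ≤ S.card) (σ : J → Perm α)
    (hs : ∀ z ∈ S, (σ z).IsSwap) (hn : ∀ z ∈ S, ∀ z' ∈ S, z ≠ z' → σ z * σ z' ≠ σ z' * σ z) :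
    ∃! p, ∀ z ∈ S, σ z p ≠ p := by
  have hne : ∀ z ∈ S, ∀ z' ∈ S, z ≠ z' → σ z ≠ σ z' := fun z hz z' hz' h e =>
    hn z hz z' hz' h (by rw [e])
  obtain ⟨a, ha, b, hb, hab⟩ := Finset.one_lt_card.1 (show 1 < S.card by omega)
  obtain ⟨p, h1, h2⟩ := sw_meet (hn a ha b hb hab)
  refine ⟨p, fun c hc h3 => ?_, fun q hq => ?_⟩
  · have h5 : σ a p ≠ σ b p := fun e => hne a ha b hb hab (by
      rw [sw_eq (hs a ha) h1.symm h1 (by simpa using h1), e,
        ← sw_eq (hs b hb) h2.symm h2 (by simpa using h2)])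
    have key : ∀ c ∈ S, σ c p = p → σ c = swap (σ a p) (σ b p) := by
      intro c hc h3
      obtain ⟨q, h6, h7⟩ := sw_meet (hn a ha c hc fun e => h1 (e ▸ h3))
      obtain ⟨r, h8, h9⟩ := sw_meet (hn b hb c hc fun e => h2 (e ▸ h3))
      rw [← sw_two (hs a ha) (fun e : q = p => h7 (by rw [e, h3])) h1 h6,
        ← sw_two (hs b hb) (fun e : r = p => h9 (by rw [e, h3])) h2 h8] at h5 ⊢
      exact sw_eq (hs c hc) h5 h7 h9
    obtain ⟨d, hd, hd'⟩ : ∃ d ∈ S, d ∉ ({a, b, c} : Finset J) := by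
      by_contra hn
      push Not at hn
      have := (Finset.card_le_card hn).trans Finset.card_le_three
      omega
    simp only [Finset.mem_insert, Finset.mem_singleton, not_or] at hd'
    by_cases h6 : σ d p = p
    · exact hne d hd c hc hd'.2.2 ((key d hd h6).trans (key c hc h3).symm)
    obtain ⟨q, h7, h8⟩ := sw_meet (hn d hd c hc hd'.2.2)
    have h9 : p ≠ q := fun e => h8 (e ▸ h3)
    have h10 := sw_eq (hs d hd) h9 h6 h7
    rw [key c hc h3] at h8
    by_cases e1 : q = σ a p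
    · exact hne d hd a ha hd'.1
        (h10.trans (sw_eq (hs a ha) h9 h1 (by simpa [e1] using h1)).symm)
    by_cases e2 : q = σ b p
    · exact hne d hd b hb hd'.2.1
        (h10.trans (sw_eq (hs b hb) h9 h2 (by simpa [e2] using h2)).symm)
    exact h8 (swap_apply_of_ne_of_ne e1 e2)
  · by_contra h
    exact hne a ha b hb hab
      ((sw_eq (hs a ha) h (hq a ha) h1).trans (sw_eq (hs b hb) h (hq b hb) h2).symm)

/-- every coset of the alternating group contains a derangement -/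
lemma sw_der [Fintype α] (hc : 4 ≤ Fintype.card α) (a : Perm α) :
    ∃ τ : Perm α, Perm.sign τ = 1 ∧ ∀ x, (a * τ) x ≠ x := by
  obtain ⟨n, hn⟩ : ∃ n, Fintype.card α = n + 2 := ⟨Fintype.card α - 2, by omega⟩
  obtain ⟨c, h1⟩ : ∃ c : Perm α, ∀ x, c x ≠ x := by
    let e := Fintype.equivFinOfCardEq hn
    refine ⟨e.symm.permCongr (Equiv.addRight 1), fun x hx => ?_⟩
    simp [permCongr_apply, symm_apply_eq] at hx
  by_cases h2 : Perm.sign a = Perm.sign c
  · exact ⟨a⁻¹ * c, by rw [map_mul, map_inv, h2, inv_mul_cancel], by simpa using h1⟩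
  obtain ⟨x⟩ := Fintype.card_pos_iff.1 (show 0 < Fintype.card α by omega)
  obtain ⟨y, hy⟩ : ∃ y, y ∉ ({x, c x, c⁻¹ x} : Finset α) := by
    by_contra hn
    push Not at hn
    have h1 : (Finset.univ : Finset α) ⊆ {x, c x, c⁻¹ x} := fun z _ => hn z
    have h2 := (Finset.card_le_card h1).trans Finset.card_le_three
    rw [Finset.card_univ] at h2
    omega
  simp only [Finset.mem_insert, Finset.mem_singleton, not_or] at hy
  refine ⟨a⁻¹ * (c * swap x y), ?_, fun z => ?_⟩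
  · rw [map_mul, map_mul, map_inv, Perm.sign_swap (Ne.symm hy.1), mul_neg, mul_one,
      ← Int.units_ne_iff_eq_neg.1 h2, inv_mul_cancel]
  · rw [mul_inv_cancel_left, Perm.mul_apply]
    by_cases e1 : z = x
    · rw [e1, swap_apply_left]
      exact fun e => hy.2.2 (by rw [← e]; simp)
    by_cases e2 : z = y
    · rw [e2, swap_apply_right]
      exact Ne.symm hy.2.1
    · rw [swap_apply_of_ne_of_ne e1 e2]
      exact h1 z

end Pm

variable {G X V : Type} [Group G] [MulAction G X] {π : X → V} {N : Subgroup G}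
  [Fintype X] [DecidableEq X] [DecidableEq V]

/-- a conjugate of `w` acts on a fibre trivially or as a transposition -/
lemma Tw.le_two (T : Tw π N) {w : G}
    (h2 : ∀ x y z : X, π x = π y → π x = π z → w • x ≠ x → w • y ≠ y → w • z ≠ z →
      x = y ∨ x = z ∨ y = z) {b : V} {t : G} {σ : Perm {z // π z = b}}
    (hσ : Ac π b (t * w * t⁻¹) σ) : σ = 1 ∨ σ.IsSwap := by
  refine or_iff_not_imp_left.2 fun h => Perm.card_support_eq_two.1
    (le_antisymm ?_ (Perm.two_le_card_support_of_ne_one h))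
  by_contra hn
  obtain ⟨a, ha, b, hb, c, hc, h3, h4, h5⟩ := Finset.two_lt_card.1 (not_le.1 hn)
  have key : ∀ a ∈ σ.support, w • t⁻¹ • (a : X) ≠ t⁻¹ • (a : X) := fun a ha =>
    conj_move fun e => Perm.mem_support.1 ha (Subtype.ext ((hσ a).trans e))
  rcases h2 _ _ _ (T.heq t⁻¹ _ _ (a.2.trans b.2.symm)) (T.heq t⁻¹ _ _ (a.2.trans c.2.symm))
    (key a ha) (key b hb) (key c hc) with h | h | h <;> rw [smul_left_cancel_iff] at h
  exacts [h3 (Subtype.ext h), h4 (Subtype.ext h), h5 (Subtype.ext h)]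

/-- fixed points pass between coupled fibres -/
lemma Tw.pass (T : Tw π N) (hc : ∀ x, 5 ≤ Fintype.card {z // π z = π x})
    (hS : ∀ x τ, τ ∈ Img π (π x) N) {w : G} (hw : w ∈ N) {x1 : X} (h1 : w • x1 ≠ x1)
    (h2 : ∀ x y z : X, π x = π y → π x = π z → w • x ≠ x → w • y ≠ y → w • z ≠ z →
      x = y ∨ x = z ∨ y = z) {x y : X} (hy : ∀ n ∈ N, Ac π (π y) n 1 → Ac π (π x) n 1)
    {g : G} {a : Perm {z // π z = π x}} (ha : Ac π (π x) g a) (hg : g • y = y) : ∃ p, a p = p := by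
  have hx := T.symm hc hS hy
  obtain ⟨ρ, hρ⟩ := ac_ex T.heq (g := g) rfl (congrArg π hg)
  obtain ⟨t, τ0, h3, c, d, hcd, rfl⟩ := T.swap hw h1 h2 y
  have hu := T.nor.conj_mem w hw t
  obtain ⟨σ0, h4⟩ := T.ex hu x
  obtain ⟨c', d', hcd', rfl⟩ := (T.le_two h2 h4).resolve_left fun e =>
    hcd (swap_eq_one_iff.1 (h3.uniq (hx _ hu (e ▸ h4))))
  let y0 : {z // π z = π y} := ⟨y, rfl⟩
  have h5 : ∀ z, ∃ n ∈ N, ∃ σ, Ac π (π x) n σ ∧
      (z ≠ y0 → Ac π (π y) n (Equiv.swap y0 z) ∧ σ.IsSwap) := by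
    intro z
    by_cases hz : z = y0
    · exact ⟨1, N.one_mem, 1, Ac.one, fun h => absurd hz h⟩
    obtain ⟨u, h6⟩ := isConj_iff.1 (Perm.isConj_swap hcd (Ne.symm hz))
    obtain ⟨n, h7, h8⟩ := hS y u
    obtain ⟨ν, h9⟩ := T.ex h7 x
    exact ⟨_, T.nor.conj_mem _ hu n, _, (h9.mul h4).mul h9.inv, fun _ =>
      ⟨h6 ▸ (h8.mul h3).mul h8.inv, _, _, ν.injective.ne hcd', (swap_apply_apply _ _ _).symm⟩⟩
  choose n h6 σ h7 h8 using h5
  have hm : ∀ {z}, z ∈ Finset.univ.erase y0 ↔ z ≠ y0 := by simp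
  obtain ⟨p, h9, h10⟩ := sw_star (Finset.univ.erase y0)
    (by have := hc y; rw [Finset.card_erase_of_mem (Finset.mem_univ _), Finset.card_univ]; omega)
    σ (fun z hz => (h8 z (hm.1 hz)).2) fun z hz z' hz' hzz e => by
      have e1 := (h8 z (hm.1 hz)).1
      have e2 := (h8 z' (hm.1 hz')).1
      have e3 := ((e1.mul e2).mul (e2.mul e1).inv).uniq (hx _
        (N.mul_mem (N.mul_mem (h6 z) (h6 z')) (N.inv_mem (N.mul_mem (h6 z') (h6 z)))) (by
          have := ((h7 z).mul (h7 z')).mul ((h7 z').mul (h7 z)).inv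
          rwa [e, mul_inv_cancel] at this))
      rw [mul_inv_eq_one] at e3
      have e4 := DFunLike.congr_fun e3 y0
      rw [Perm.mul_apply, Perm.mul_apply, swap_apply_left, swap_apply_left,
        swap_apply_of_ne_of_ne (hm.1 hz') (Ne.symm hzz),
        swap_apply_of_ne_of_ne (hm.1 hz) hzz] at e4
      exact hzz e4.symm
  have h11 : ρ y0 = y0 := Subtype.ext ((hρ y0).trans hg)
  refine ⟨p, h10 _ fun z' hz' => ?_⟩
  obtain ⟨z, rfl⟩ := ρ.surjective z'
  have hz : z ≠ y0 := fun e => hm.1 hz' (e ▸ h11)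
  have e1 := (((ha.mul (h7 z)).mul ha.inv).mul (h7 (ρ z)).inv).uniq (hy _
    (N.mul_mem (T.nor.conj_mem _ (h6 z) g) (N.inv_mem (h6 (ρ z)))) (by
      have := ((hρ.mul (h8 z hz).1).mul hρ.inv).mul (h8 _ (hm.1 hz')).1.inv
      rwa [← swap_apply_apply, h11, mul_inv_cancel] at this))
  rw [mul_inv_eq_one] at e1
  rw [← e1]
  simpa using h9 z (hm.2 hz)

lemma Tw.der (T : Tw π N) (hc : ∀ x, 5 ≤ Fintype.card {z // π z = π x})
    (hS : ∀ x τ, τ ∈ Img π (π x) N) {w : G} (hw : w ∈ N) {x1 : X} (h1 : w • x1 ≠ x1)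
    (h2 : ∀ x y z : X, π x = π y → π x = π z → w • x ≠ x → w • y ≠ y → w • z ≠ z →
      x = y ∨ x = z ∨ y = z) (s : G) : ∃ h ∈ N, ∀ x : X, (s * h) • x ≠ x := by
  obtain ⟨h, h3, -, h4⟩ := grp_greedy (X := X) N (fun _ => True) (fun g x => g • x = x)
    (fun g _ x hx => by
    obtain ⟨a, ha⟩ := ac_ex T.heq (g := g) rfl (congrArg π hx)
    obtain ⟨τ, h5, h6⟩ := sw_der ((by omega : 4 ≤ 5).trans (hc x)) a
    obtain ⟨m, h7, h8⟩ := T.alt (hc x) (hS x)
      (Set.toFinite {y | ¬ ∀ n ∈ N, Ac π (π y) n 1 → Ac π (π x) n 1}) (fun _ h => h) h5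
    have key : ∀ y, (∀ n ∈ N, Ac π (π y) n 1 → Ac π (π x) n 1) → (g * m) • y ≠ y := fun y hy e =>
      (T.pass hc hS hw h1 h2 hy (ha.mul h8) e).elim h6
    refine ⟨m, h7.1, trivial, key x fun _ _ h => h, fun y e => ?_⟩
    by_cases hy : ∀ n ∈ N, Ac π (π y) n 1 → Ac π (π x) n 1
    · exact absurd e (key y hy)
    · rwa [mul_smul, ac_triv.1 (h7.2 y hy) y rfl] at e) s trivial
  exact ⟨h, h3, h4⟩

end G6

open G6

variable {Γ X V : Type} [Group Γ] [MulAction Γ X] [MulAction Γ V] [Finite X]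
  [MulAction.IsPretransitive Γ X] {π : X → V} (hπ : ∀ (g : Γ) x, π (g • x) = g • π x)
  {N : Subgroup Γ} [N.Normal] (hN : ∀ n ∈ N, ∀ x, π (n • x) = π x)

include hπ hN

theorem kg {d : ℕ} (hd : d.Coprime 6) (hc : ∀ x, Nat.card {y // π y = π x} = d) {ι : Γ}
    (hι : ι ∈ N) (h0 : ∃ x : X, ι • x ≠ x) (h1 : ∀ b, {y : X | π y = b ∧ ι • y ≠ y}.ncard ≤ 2)
    (s : Γ) : ∃ h ∈ N, ∀ x : X, (s * h) • x ≠ x := by
  classical
  have := Fintype.ofFinite X
  obtain ⟨x1, hx1⟩ := h0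
  obtain ⟨M, hM⟩ : ∃ M, M = Subgroup.normalClosure {ι} := ⟨_, rfl⟩
  have hMn : M.Normal := hM ▸ inferInstance
  have hMN : M ≤ N := hM ▸ Subgroup.normalClosure_le_normal (by simpa using hι)
  have hιM : ι ∈ M := hM ▸ Subgroup.subset_normalClosure rfl
  obtain ⟨q, hq⟩ : ∃ q : X → Set X, ∀ x y, q x = q y ↔ ∃ m ∈ M, m • y = x :=
    ⟨fun x => orbit M x, fun x y => orbit_eq_iff.trans
      ⟨fun ⟨m, h⟩ => ⟨m, m.2, h⟩, fun ⟨m, h, h'⟩ => ⟨⟨m, h⟩, h'⟩⟩⟩
  have T : G6.Tw q M := ⟨fun g x y h => by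
    obtain ⟨m, h2, rfl⟩ := (hq _ _).1 h
    exact (hq _ _).2 ⟨_, hMn.conj_mem m h2 g, by rw [mul_smul, mul_smul, inv_smul_smul]⟩,
    hMn, fun n hn x => (hq _ _).2 ⟨n, hn, rfl⟩, fun x y => exists_smul_eq Γ x y⟩
  have hqπ : ∀ {x y}, q x = q y → π x = π y := fun h => by
    obtain ⟨m, h2, rfl⟩ := (hq _ _).1 h
    exact hN m (hMN h2) _
  have h2 : ∀ x y z : X, q x = q y → q x = q z → ι • x ≠ x → ι • y ≠ y → ι • z ≠ z →
      x = y ∨ x = z ∨ y = z := fun x y z e e' hx hy hz =>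
    three_of_ncard (Set.toFinite _) (h1 (π x)) ⟨rfl, hx⟩ ⟨(hqπ e).symm, hy⟩ ⟨(hqπ e').symm, hz⟩
  have h3 : ∀ x, Fintype.card {z // q z = q x} = Fintype.card {z // q z = q x1} := fun x => by
    obtain ⟨g, rfl⟩ := T.tr x1 x
    exact (Fintype.card_congr (Equiv.subtypeEquiv (MulAction.toPerm g) fun z =>
      ⟨T.heq g _ _, T.back g⟩)).symm
  have h4 : Fintype.card {z // q z = q x1} ∣ d := by
    rw [← hc x1, Nat.card_eq_fintype_card, Fintype.card_subtype (fun y => π y = π x1),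
      Finset.card_eq_sum_card_image q]
    refine Finset.dvd_sum fun b hb => ?_
    obtain ⟨x, hx, rfl⟩ := Finset.mem_image.1 hb
    rw [← h3 x, Fintype.card_subtype]
    refine dvd_of_eq (congrArg _ (Finset.ext fun z => ?_))
    simp only [Finset.mem_filter, Finset.mem_univ, true_and] at hx ⊢
    exact ⟨fun h => ⟨(hqπ h).trans hx, h⟩, fun h => h.2⟩
  have h5 : ∀ x, 5 ≤ Fintype.card {z // q z = q x} := fun x => by
    have h6 : 1 < Fintype.card {z // q z = q x1} := Fintype.one_lt_card_iff.2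
      ⟨⟨_, T.fix ι hιM x1⟩, ⟨x1, rfl⟩, fun e => hx1 (congrArg Subtype.val e)⟩
    have h7 := Nat.Coprime.coprime_dvd_left h4 hd
    rw [h3]
    generalize Fintype.card {z // q z = q x1} = e at h6 h7
    by_contra hn
    have h8 : e < 5 := not_le.1 hn
    interval_cases e <;> exact absurd h7 (by decide)
  have hS : ∀ x τ, τ ∈ Img q (q x) M := fun x τ => by
    let S : Set (Perm {z // q z = q x}) := {σ | σ.IsSwap ∧ σ ∈ Img q (q x) M}
    have h6 : ∀ m ∈ M, ∃ σ ∈ Subgroup.closure S, Ac q (q x) m σ := fun m hm => by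
      rw [hM] at hm
      induction hm using Subgroup.closure_induction with
      | mem u hu =>
        obtain ⟨v, hv, hu'⟩ := Group.mem_conjugatesOfSet_iff.1 hu
        obtain ⟨t, rfl⟩ := isConj_iff.1 ((show v = ι from hv) ▸ hu')
        obtain ⟨σ, hσ⟩ := T.ex (hMn.conj_mem _ hιM t) x
        rcases T.le_two h2 hσ with rfl | h
        · exact ⟨1, one_mem _, hσ⟩
        · exact ⟨σ, Subgroup.subset_closure ⟨h, _, hMn.conj_mem _ hιM t, hσ⟩, hσ⟩
      | one => exact ⟨1, one_mem _, Ac.one⟩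
      | mul u v _ _ hu hv =>
        obtain ⟨σ, a1, a2⟩ := hu
        obtain ⟨τ, b1, b2⟩ := hv
        exact ⟨_, mul_mem a1 b1, a2.mul b2⟩
      | inv u _ hu =>
        obtain ⟨σ, a1, a2⟩ := hu
        exact ⟨_, inv_mem a1, a2.inv⟩
    have : IsPretransitive (Subgroup.closure S) {z // q z = q x} := ⟨fun a b => by
      obtain ⟨m, h7, h8⟩ := (hq _ _).1 (b.2.trans a.2.symm)
      obtain ⟨σ, h9, h10⟩ := h6 m h7
      exact ⟨⟨σ, h9⟩, Subtype.ext ((h10 a).trans h8)⟩⟩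
    refine (Subgroup.closure_le _).2 (fun σ (h : σ ∈ S) => h.2) ?_
    rw [closure_of_isSwap_of_isPretransitive fun σ (h : σ ∈ S) => h.1]
    trivial
  obtain ⟨h, h6, h7⟩ := T.der h5 hS hιM hx1 h2 s
  exact ⟨h, hMN h6, h7⟩

end Pool.Agent.P.MP_68214b_ag.DP
end

-- part Pool.Agent.P.MP_68214b_ag.DP7a
section

/-! Local analysis at a place where a critical point has prime exact period. -/

open Polynomial

namespace Pool.Agent.P.MP_68214b_ag.DP

/-- the local data -/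
structure Loc {E : Type} [Field E] (A : ValuationSubring E) (g : E[X]) (γ : E) (l : ℕ) :
    Prop where
  ip : IP A g
  mon : g.Monic
  deg : 2 ≤ g.natDegree
  vd : A.valuation (g.natDegree : E) = 1
  crit : Crit g γ
  int : ∀ δ, Crit g δ → A.valuation δ ≤ 1
  sep : ∀ δ ε, Crit g δ → Crit g ε → Cg A δ ε → δ = ε
  val : ∀ δ ε, Crit g δ → Crit g ε → Cg A (g.eval δ) (g.eval ε) → g.eval δ = g.eval ε
  sec : ∀ δ, Crit g δ → A.valuation (g.derivative.derivative.eval δ) < 1 →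
    g.derivative.derivative.eval δ = 0
  pre : ∀ δ n, Crit g δ → Cg A (it g n δ) γ → Wand g δ
  pr : l.Prime
  per : Cg A (it g l γ) γ
  nfix : ¬ Cg A (g.eval γ) γ

/-- a point of level n with a congruent sibling -/
def Tw {E : Type} [Field E] (A : ValuationSubring E) (g : E[X]) (γ : E) (n : ℕ) (x : E) : Prop :=
  it g n x = γ ∧ ∃ y, y ≠ x ∧ g.eval y = g.eval x ∧ Cg A y x

variable {E : Type} [Field E] [CharZero E] [IsAlgClosed E] [Algebra.IsAlgebraic ℚ E]
  {A : ValuationSubring E} {g : E[X]} {γ : E} {l n : ℕ}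

theorem exists_loc (hm : g.Monic) (hd : 2 ≤ g.natDegree) (hc : Crit g γ) (hw : Wand g γ) :
    ∃ B, ∀ A, Big B A → ∀ l, l.Prime → Cg A (it g l γ) γ → Loc A g γ l := by
  have fc := fin_crit (g := g) hd
  have f1 : (Set.range g.coeff).Finite := by
    refine ((g.support.finite_toSet.image g.coeff).insert 0).subset ?_
    rintro _ ⟨k, rfl⟩
    by_cases e : g.coeff k = 0
    · exact Or.inl e
    · exact Or.inr ⟨k, mem_support_iff.2 e, rfl⟩
  have f2 := fc.image2 (fun a b : E => a - b) fc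
  have f3 := fc.image2 (fun a b : E => g.eval a - g.eval b) fc
  have f4 := fc.image fun a : E => g.derivative.derivative.eval a
  have f5 : (⋃ δ ∈ {δ | Crit g δ ∧ ¬ Wand g δ},
      (fun z => z - γ) '' Set.range fun n => it g n δ).Finite :=
    (fc.subset fun δ hδ => hδ.1).biUnion fun δ hδ => (Set.not_infinite.1 hδ.2).image _
  obtain ⟨B1, h1⟩ := unit_big f1
  obtain ⟨B2, h2⟩ := unit_big f2
  obtain ⟨B3, h3⟩ := unit_big f3
  obtain ⟨B4, h4⟩ := unit_big f4
  obtain ⟨B5, h5⟩ := unit_big f5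
  obtain ⟨B6, h6⟩ := unit_big fc
  obtain ⟨B7, h7⟩ := unit_big (Set.toFinite ({(g.natDegree : E), g.eval γ - γ} : Set E))
  refine ⟨B1 + B2 + B3 + B4 + B5 + B6 + B7, fun A hA l hl hp => ?_⟩
  replace h1 := h1 A (hA.mono (by omega))
  replace h2 := h2 A (hA.mono (by omega))
  replace h3 := h3 A (hA.mono (by omega))
  replace h4 := h4 A (hA.mono (by omega))
  replace h5 := h5 A (hA.mono (by omega))
  replace h6 := h6 A (hA.mono (by omega))
  replace h7 := h7 A (hA.mono (by omega))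
  have k1 : ∀ z : E, (z ≠ 0 → A.valuation z = 1) → A.valuation z ≤ 1 := fun z hz => by
    by_cases e : z = 0
    · simp [e]
    · exact (hz e).le
  have k2 : ∀ z : E, (z ≠ 0 → A.valuation z = 1) → A.valuation z < 1 → z = 0 :=
    fun z hz h => by_contra fun e => h.ne (hz e)
  refine ⟨fun k => k1 _ (h1 _ ⟨k, rfl⟩), hm, hd, h7 _ (Or.inl rfl) (Nat.cast_ne_zero.2 (by omega)),
    hc, fun δ hδ => k1 _ (h6 δ hδ),
    fun δ ε hδ hε e => sub_eq_zero.1 (k2 _ (h2 _ ⟨δ, hδ, ε, hε, rfl⟩) e),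
    fun δ ε hδ hε e => sub_eq_zero.1 (k2 _ (h3 _ ⟨δ, hδ, ε, hε, rfl⟩) e),
    fun δ hδ e => k2 _ (h4 _ ⟨δ, hδ, rfl⟩) e, fun δ n hδ e => ?_, hl, hp, fun e => ?_⟩
  · by_contra hn
    have e1 : it g n δ = γ := sub_eq_zero.1 (k2 _ (h5 _
      (Set.mem_biUnion (show δ ∈ {δ | Crit g δ ∧ ¬ Wand g δ} from ⟨hδ, hn⟩)
        ⟨_, ⟨n, rfl⟩, rfl⟩)) e)
    refine hn (hw.mono ?_)
    rintro _ ⟨k, rfl⟩
    exact ⟨k + n, by simp only [it_add, e1]⟩
  · exact hw.not_per ⟨1, one_pos, sub_eq_zero.1 (k2 _ (h7 _ (Or.inr rfl)) e)⟩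

theorem dp7a_near (h : Loc A g γ l) {x y : E} (hx : A.valuation x ≤ 1) (hn : y ≠ x)
    (e : g.eval y = g.eval x) (hc : Cg A y x) : ∃ δ, Crit g δ ∧ Cg A x δ :=
  near_crit h.ip h.mon h.vd hx (crit_of_two h.ip hx hc hn e)

theorem dp7a_tw (h : Loc A g γ l) {x : E} (hx : Tw A g γ n x) :
    ∃ δ, Crit g δ ∧ Cg A x δ ∧ Cg A (it g n δ) γ := by
  obtain ⟨e, y, hn, e1, hc⟩ := hx
  obtain ⟨δ, h1, h2⟩ := dp7a_near h
    (h.ip.pre h.mon h.deg (by rw [e]; exact h.int γ h.crit)) hn e1 hc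
  exact ⟨δ, h1, h2, by simpa only [e] using (h2.it h.ip (h.int δ h1) n).symm⟩

theorem dp7a_three (h : Loc A g γ l) {δ x y z : E} (hδ : Crit g δ) (ht : TyC g δ)
    (hx : Cg A x δ) (hy : Cg A y δ) (hz : Cg A z δ) (n1 : x ≠ y) (n2 : x ≠ z) (n3 : y ≠ z)
    (e1 : g.eval y = g.eval x) (e2 : g.eval z = g.eval x) : False := by
  have i := h.int δ hδ
  have a := crit_of_three h.ip (hx.int i) (hy.trans hx.symm) (hz.trans hx.symm) n1 n2 n3 e1 e2
  exact ht.1 (h.sec δ hδ ((hx.eval h.ip.deriv.deriv i).symm.lt a))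

theorem dp7a_per (h : Loc A g γ l) {j : ℕ} (h0 : 0 < j) (hj : j < l) : ¬ Cg A (it g j γ) γ :=
  exact_per h.ip (h.int γ h.crit) h.pr h.per h.nfix h0 hj

theorem dp7a_merge (h : Loc A g γ l) {δ x y : E} (i : A.valuation δ ≤ 1) (hx : Cg A x δ)
    (hy : Cg A y δ) (h0 : 0 < n) (e : it g n x = it g n y) (hn : g.eval x ≠ g.eval y) :
    ∃ s, 0 < s ∧ s < n ∧ it g s x ≠ it g s y ∧ g.eval (it g s x) = g.eval (it g s y) ∧
      ∃ ε, Crit g ε ∧ Cg A (it g s δ) ε := by
  obtain ⟨k, rfl⟩ := Nat.exists_eq_add_of_le' h0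
  obtain ⟨s, hs, h1, h2⟩ := merge (g := g) (n := k) hn e
  rw [it_succ', it_succ'] at h2
  have a1 := hx.it h.ip i (s + 1)
  have a2 := hy.it h.ip i (s + 1)
  obtain ⟨ε, h3, h4⟩ := dp7a_near h (a2.int (h.ip.it i _)) h1 h2 (a1.trans a2.symm)
  exact ⟨s + 1, by omega, by omega, h1, h2, ε, h3, a2.symm.trans h4⟩

theorem loc_two (h : Loc A g γ l) (hC : ∀ δ, Crit g δ → Wand g δ → TyC g δ) (b : E) :
    {x | g.eval x = b ∧ Tw A g γ n x}.ncard ≤ 2 := by
  by_contra! H
  obtain ⟨x, ⟨ex, hx⟩, y, ⟨ey, hy⟩, z, ⟨ez, hz⟩, n1, n2, n3⟩ :=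
    (Set.two_lt_ncard ((fin_pre h.mon h.deg 1 b).subset fun x hx => hx.1)).1 H
  obtain ⟨δ, c1, c2, c3⟩ := dp7a_tw h hx
  have ht := hC δ c1 (h.pre δ n c1 c3)
  have k : ∀ u, g.eval u = b → Tw A g γ n u → Cg A u δ := fun u eu hu => by
    obtain ⟨ε, d1, d2, -⟩ := dp7a_tw h hu
    have a1 := d2.eval h.ip (h.int ε d1)
    have a2 := c2.eval h.ip (h.int δ c1)
    rw [eu] at a1
    rw [ex] at a2
    rwa [ht.2 ε d1 (h.val ε δ d1 c1 (a1.symm.trans a2))] at d2
  exact dp7a_three h c1 ht c2 (k y ey hy) (k z ez hz) n1 n2 n3 (ey.trans ex.symm)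
    (ez.trans ex.symm)

theorem dp7a_pow {b c δ : E} {d : ℕ} (hd : 2 ≤ d) (e : g = (X - C b) ^ d + C c) (hδ : Crit g δ) :
    δ = b := by
  rw [Crit, e] at hδ
  simp only [derivative_add, derivative_C, add_zero, derivative_X_sub_C_pow, eval_mul, eval_C,
    eval_pow, eval_sub, eval_X, mul_eq_zero, Nat.cast_eq_zero] at hδ
  exact sub_eq_zero.1 (pow_eq_zero_iff (by omega) |>.1 (hδ.resolve_left (by omega)))

theorem loc_W (h : Loc A g γ l) (k : ∀ δ, Crit g δ → Wand g δ → δ = γ) (h0 : 0 < n) (hn : n ≤ l)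
    {x y : E} (hx : Tw A g γ n x) (hy : Tw A g γ n y) : g.eval x = g.eval y := by
  obtain ⟨δ, c1, c2, c3⟩ := dp7a_tw h hx
  obtain ⟨ε, d1, d2, d3⟩ := dp7a_tw h hy
  rw [k δ c1 (h.pre δ n c1 c3)] at c2
  rw [k ε d1 (h.pre ε n d1 d3)] at d2
  by_contra H
  obtain ⟨s, s0, s1, -, -, η, e1, e2⟩ :=
    dp7a_merge h (h.int γ h.crit) c2 d2 h0 (hx.1.trans hy.1.symm) H
  have a := e2.it h.ip (h.int η e1) (l - s)
  rw [← it_add, Nat.sub_add_cancel (by omega : s ≤ l)] at a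
  rw [k η e1 (h.pre η _ e1 (a.symm.trans h.per))] at e2
  exact dp7a_per h s0 (by omega) e2

theorem loc_U (h : Loc A g γ l) (hU : TyU g) (h0 : 0 < n) (hn : n ≤ l) {x y : E}
    (hx : Tw A g γ n x) (hy : Tw A g γ n y) : g.eval x = g.eval y := by
  obtain ⟨b, c, e⟩ := hU
  exact loc_W h (fun δ hδ _ => (dp7a_pow h.deg e hδ).trans (dp7a_pow h.deg e h.crit).symm)
    h0 hn hx hy

theorem dp7a_two_crit (h3 : g.natDegree = 3) {a b c : E} (ha : Crit g a) (hb : Crit g b)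
    (hc : Crit g c) (n1 : a ≠ c) (n2 : b ≠ c) : a = b := by
  classical
  by_contra n3
  have h0 : g.derivative ≠ 0 := fun e => by have := derivative_eq_zero.1 e; omega
  have h1 : ({a, b, c} : Finset E).val ⊆ g.derivative.roots := by
    intro x hx
    simp only [Finset.mem_val, Finset.mem_insert, Finset.mem_singleton] at hx
    rw [mem_roots h0]
    rcases hx with rfl | rfl | rfl <;> assumption
  have h2 := card_le_degree_of_subset_roots h1
  have h4 := natDegree_derivative_le g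
  rw [Finset.card_eq_three.2 ⟨a, b, c, n3, n1, n2, rfl⟩] at h2
  omega

theorem loc_three (h : Loc A g γ l) (hC : ∀ δ, Crit g δ → Wand g δ → TyC g δ)
    (h3 : g.natDegree = 3) (h0 : 0 < n) (hn : n ≤ l) :
    ((fun x => g.eval x) '' {x | Tw A g γ n x}).ncard ≤ 2 := by
  have iγ := h.int γ h.crit
  have ty : ∀ x, Tw A g γ n x → (Cg A x γ ∧ n = l) ∨
      ∃ δ, Crit g δ ∧ δ ≠ γ ∧ Cg A x δ ∧ Cg A (it g n δ) γ := fun x hx => by
    obtain ⟨δ, c1, c2, c3⟩ := dp7a_tw h hx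
    by_cases e : δ = γ
    · rw [e] at c2 c3
      exact Or.inl ⟨c2, by_contra fun H => dp7a_per h h0 (by omega) c3⟩
    · exact Or.inr ⟨δ, c1, e, c2, c3⟩
  have L22 : ∀ x y, Tw A g γ n x → Tw A g γ n y →
      (∃ δ, Crit g δ ∧ δ ≠ γ ∧ Cg A x δ ∧ Cg A (it g n δ) γ) →
      (∃ δ, Crit g δ ∧ δ ≠ γ ∧ Cg A y δ ∧ Cg A (it g n δ) γ) → g.eval x = g.eval y := by
    rintro x y hx hy ⟨δ, c1, c2, c3, c4⟩ ⟨δ', d1, d2, d3, -⟩
    rw [dp7a_two_crit h3 d1 c1 h.crit d2 c2] at d3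
    by_contra H
    have i := h.int δ c1
    obtain ⟨s, s0, s1, -, -, η, e1, e2⟩ := dp7a_merge h i c3 d3 h0 (hx.1.trans hy.1.symm) H
    by_cases e : η = γ
    · rw [e] at e2
      have a := e2.it h.ip iγ (n - s)
      rw [← it_add, Nat.sub_add_cancel s1.le] at a
      exact dp7a_per h (by omega) (by omega) (a.symm.trans c4)
    · rw [dp7a_two_crit h3 e1 c1 h.crit e c2] at e2
      have a := e2.it h.ip i n
      rw [← it_add, add_comm, it_add] at a
      exact dp7a_per h s0 (by omega) ((c4.it h.ip iγ s).symm.trans (a.trans c4))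
  have L11 : ∀ x y, Tw A g γ n x → Tw A g γ n y → Cg A x γ → Cg A y γ → g.eval x ≠ g.eval y →
      ∃ s, 0 < s ∧ s < n ∧ it g s x ≠ it g s y ∧ g.eval (it g s x) = g.eval (it g s y) ∧
        ∃ ε, Crit g ε ∧ ε ≠ γ ∧ Cg A (it g s γ) ε := by
    intro x y hx hy c d H
    obtain ⟨s, s0, s1, e3, e4, η, e1, e2⟩ := dp7a_merge h iγ c d h0 (hx.1.trans hy.1.symm) H
    exact ⟨s, s0, s1, e3, e4, η, e1, fun e => dp7a_per h s0 (by omega) (e ▸ e2), e2⟩
  have L112 : ∀ x y z, Tw A g γ n x → Tw A g γ n y → Cg A x γ ∧ n = l → Cg A y γ ∧ n = l →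
      g.eval x ≠ g.eval y → ¬ ∃ δ, Crit g δ ∧ δ ≠ γ ∧ Cg A z δ ∧ Cg A (it g n δ) γ := by
    rintro x y z hx hy ⟨c, e⟩ ⟨d, -⟩ H ⟨δ, c1, c2, -, c4⟩
    obtain ⟨s, -, -, -, -, η, e1, e2, e3⟩ := L11 x y hx hy c d H
    rw [dp7a_two_crit h3 e1 c1 h.crit e2 c2] at e3
    have a := e3.it h.ip (h.int δ c1) l
    rw [← it_add, add_comm, it_add] at a
    rw [e] at c4
    exact c2 (h.sep δ γ c1 h.crit
      (e3.symm.trans ((h.per.it h.ip iγ s).symm.trans (a.trans c4))))
  have U : ∀ s t ε η, 0 < s → s < t → t < n → Crit g ε → Crit g η → ε ≠ γ → η ≠ γ →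
      Cg A (it g s γ) ε → Cg A (it g t γ) η → False := by
    intro s t ε η s0 st tn c1 c2 n1 n2 d1 d2
    rw [dp7a_two_crit h3 c2 c1 h.crit n2 n1] at d2
    have a := (d1.trans d2.symm).it h.ip (h.ip.it iγ t) (l - t)
    rw [← it_add, ← it_add, Nat.sub_add_cancel (by omega : t ≤ l)] at a
    exact dp7a_per h (by omega) (by omega) (a.trans h.per)
  by_contra! H
  obtain ⟨_, ⟨x, hx, rfl⟩, _, ⟨y, hy, rfl⟩, _, ⟨z, hz, rfl⟩, n1, n2, n3⟩ :=
    (Set.two_lt_ncard (((fin_pre h.mon h.deg n γ).subset fun x hx => hx.1).image _)).1 H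
  rcases ty x hx with tx | tx <;> rcases ty y hy with ty' | ty' <;> rcases ty z hz with tz | tz
  · obtain ⟨s, s0, s1, a1, a2, ε, a3, a4, a5⟩ := L11 x y hx hy tx.1 ty'.1 n1
    obtain ⟨t, t0, t1, b1, b2, ε', b3, b4, b5⟩ := L11 x z hx hz tx.1 tz.1 n2
    obtain ⟨u, u0, u1, c1, -, ε'', c3, c4, c5⟩ := L11 y z hy hz ty'.1 tz.1 n3
    obtain rfl : s = t := le_antisymm
      (not_lt.1 fun q => U t s _ _ t0 q s1 b3 a3 b4 a4 b5 a5)
      (not_lt.1 fun q => U s t _ _ s0 q t1 a3 b3 a4 b4 a5 b5)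
    obtain rfl : s = u := le_antisymm
      (not_lt.1 fun q => U u s _ _ u0 q s1 c3 a3 c4 a4 c5 a5)
      (not_lt.1 fun q => U s u _ _ s0 q u1 a3 c3 a4 c4 a5 c5)
    have a := a5.it h.ip (h.int ε a3) (l - s)
    rw [← it_add, Nat.sub_add_cancel (by omega : s ≤ l)] at a
    exact dp7a_three h a3 (hC ε a3 (h.pre ε _ a3 (a.symm.trans h.per)))
      ((tx.1.it h.ip iγ s).trans a5) ((ty'.1.it h.ip iγ s).trans a5)
      ((tz.1.it h.ip iγ s).trans a5) a1 b1 c1 a2.symm b2.symm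
  · exact L112 x y z hx hy tx ty' n1 tz
  · exact L112 x z y hx hz tx tz n2 ty'
  · exact n3 (L22 y z hy hz ty' tz)
  · exact L112 y z x hy hz ty' tz n3 tx
  · exact n2 (L22 x z hx hz tx tz)
  · exact n1 (L22 x y hx hy tx ty')
  · exact n1 (L22 x y hx hy tx ty')

theorem fib_two (hm : g.Monic) (hd : 2 ≤ g.natDegree) (hc : Crit g γ) (hw : Wand g γ)
    {x : E} (hx : it g (n + 1) x = γ) :
    ∃ y, y ≠ x ∧ g.eval y = g.eval x := by
  by_contra! H
  have m := monic_sub_C hm (by omega) (g.eval x)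
  have r : (g - C (g.eval x)).roots = Multiset.replicate g.natDegree x := by
    refine Multiset.eq_replicate.2 ⟨by rw [IsAlgClosed.card_roots_eq_natDegree, natDegree_sub_C],
      fun y hy => by_contra fun e => H y e ?_⟩
    simpa [sub_eq_zero] using (mem_roots m.ne_zero).1 hy
  have e := (IsAlgClosed.splits _).eq_prod_roots_of_monic m
  rw [r, Multiset.map_replicate, Multiset.prod_replicate, sub_eq_iff_eq_add] at e
  rw [← dp7a_pow hd e hc] at hx
  exact hw.not_per ⟨n + 1, by omega, hx⟩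

theorem fib_card (hm : g.Monic) (hd : 2 ≤ g.natDegree) {b : E}
    (hb : ∀ x, g.eval x = b → ¬ Crit g x) : {x | g.eval x = b}.ncard = g.natDegree := by
  classical
  have m := monic_sub_C hm (by omega) b
  have e : {x | g.eval x = b} = ↑(g - C b).roots.toFinset := by
    ext x
    simp [m.ne_zero, sub_eq_zero]
  have nd : (g - C b).roots.Nodup := by
    refine Multiset.nodup_iff_count_le_one.2 fun x => ?_
    rw [count_roots]
    by_contra! H
    have k := (one_lt_rootMultiplicity_iff_isRoot m.ne_zero).1 H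
    exact hb x (by simpa [sub_eq_zero] using k.1) (by simpa [Crit] using k.2)
  rw [e, Set.ncard_coe_finset, Multiset.toFinset_card_of_nodup nd,
    IsAlgClosed.card_roots_eq_natDegree, natDegree_sub_C]

end Pool.Agent.P.MP_68214b_ag.DP
end

-- part Pool.Agent.P.MP_68214b_ag.DP2
section

/-! Inertia. -/

open Polynomial NumberField IsDedekindDomain

namespace Pool.Agent.P.MP_68214b_ag.DP

/-- the valuation upstairs is the power of the one downstairs given by the inertia group -/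
theorem dp2_val (K M : Type) [Field K] [NumberField K] [Field M] [NumberField M] [Algebra K M]
    (G : Type) [Group G] [Finite G] [MulSemiringAction G M] [IsGaloisGroup G K M]
    (Q : HeightOneSpectrum (𝓞 M)) : ∃ P : HeightOneSpectrum (𝓞 K), ∀ x : K,
      Q.valuation M (algebraMap K M x) = P.valuation K x ^ Nat.card (Q.asIdeal.inertia G) := by
  let P : HeightOneSpectrum (𝓞 K) := Q.under (𝓞 K)
  have : Q.asIdeal.LiesOver P.asIdeal := ⟨rfl⟩
  have := Q.isPrime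
  have := P.isPrime
  have := P.isMaximal
  have : Finite (𝓞 K ⧸ P.asIdeal) := Ideal.finiteQuotientOfFreeOfNeBot _ P.ne_bot
  have : Finite P.asIdeal.ResidueField := inferInstance
  refine ⟨P, fun x => ?_⟩
  rw [← HeightOneSpectrum.valuation_liesOver M P Q x,
    Ideal.ramificationIdx'_eq_ramificationIdx _ _ P.ne_bot,
    Ideal.card_inertia_eq_ramificationIdxIn (G := G) P.asIdeal Q.asIdeal,
    Ideal.ramificationIdxIn_eq_ramificationIdx P.asIdeal Q.asIdeal G]

theorem dp2_fix (K M : Type) [Field K] [NumberField K] [Field M] [NumberField M] [Algebra K M]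
    [IsGalois K M] (Q : HeightOneSpectrum (𝓞 M)) (y : M)
    (hy : ∀ g ∈ Q.asIdeal.inertia (M ≃ₐ[K] M), g y = y) :
    ∃ z : K, Q.valuation M y = Q.valuation M (algebraMap K M z) := by
  let I := Q.asIdeal.inertia (M ≃ₐ[K] M)
  let F : IntermediateField K M := FixedPoints.intermediateField I
  have : NumberField F := NumberField.of_intermediateField F
  obtain ⟨P, hP⟩ := dp2_val K M (M ≃ₐ[K] M) Q
  obtain ⟨P0, hP0⟩ := dp2_val F M I Q
  have key : ∀ H : Subgroup I, (∀ g, g ∈ H) → Nat.card H = Nat.card I := fun H hH => by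
    rw [(Subgroup.eq_top_iff' H).2 hH, Subgroup.card_top]
  rw [key _ fun g => g.2] at hP0
  have hyF : y ∈ F := fun g => hy g.1 g.2
  obtain ⟨z, hz⟩ := P.valuation_surjective K (P0.valuation F ⟨y, hyF⟩)
  exact ⟨z, by rw [hP, hz, ← hP0]; rfl⟩

theorem dp2_cg (K M : Type) [Field K] [Field M] [NumberField M] [Algebra K M]
    (Q : HeightOneSpectrum (𝓞 M)) (g : M ≃ₐ[K] M) (hg : g ∈ Q.asIdeal.inertia (M ≃ₐ[K] M))
    (x : M) (hx : Q.valuation M x ≤ 1) : Q.valuation M (g x - x) < 1 := by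
  obtain ⟨a, ⟨b, hb⟩, hab⟩ := Q.exists_primeCompl_mul_eq_of_integer x hx
  have ha' : g • a - a ∈ Q.asIdeal := hg a
  have hb' : g • b - b ∈ Q.asIdeal := hg b
  have hgb : g • b ∉ Q.asIdeal := fun h => hb (by simpa using Q.asIdeal.sub_mem h hb')
  have e : ∀ c : 𝓞 M, algebraMap (𝓞 M) M (g • c) = g (algebraMap (𝓞 M) M c) := fun _ => rfl
  have one : ∀ c : 𝓞 M, c ∉ Q.asIdeal → Q.valuation M (algebraMap (𝓞 M) M c) = 1 := fun c hc =>
    le_antisymm (Q.valuation_le_one c) (not_lt.1 fun h => hc ((Q.valuation_lt_one_iff_mem c).1 h))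
  have hm : (g • a - a) * b - a * (g • b - b) ∈ Q.asIdeal :=
    Q.asIdeal.sub_mem (Q.asIdeal.mul_mem_right _ ha') (Q.asIdeal.mul_mem_left _ hb')
  have h1 : Q.valuation M (algebraMap (𝓞 M) M ((g • a - a) * b - a * (g • b - b))) < 1 :=
    (Q.valuation_lt_one_iff_mem (K := M) _).2 hm
  have h2 : algebraMap (𝓞 M) M ((g • a - a) * b - a * (g • b - b)) =
      (g x - x) * algebraMap (𝓞 M) M b * algebraMap (𝓞 M) M (g • b) := by
    have hab' : x * algebraMap (𝓞 M) M b = algebraMap (𝓞 M) M a := hab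
    simp only [map_sub, map_mul, e, ← hab']
    ring
  rwa [h2, map_mul, map_mul, one b hb, one _ hgb, mul_one, mul_one] at h1

variable {E : Type} [Field E] [CharZero E] [IsAlgClosed E] [Algebra.IsAlgebraic ℚ E]

theorem inert (L : IntermediateField ℚ E) [FiniteDimensional ℚ L] {W : Set E} (hW : W.Finite)
    {A : ValuationSubring E} {p : ℕ} (h : Ov A p) (y : E) :
    (∃ z ∈ L, A.valuation y = A.valuation z) ∨ ∃ s ∈ L.fixingSubgroup,
      (∀ x ∈ W, A.valuation x ≤ 1 → Cg A (s x) x) ∧ s y ≠ y := by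
  obtain ⟨M, hfin, hgal, hle, hM⟩ := exists_gal' L (hW.insert y)
  obtain ⟨Q, -, hQ⟩ := center M h
  let : Algebra L M := (IntermediateField.inclusion hle).toAlgebra
  have : IsScalarTower ℚ L M := IsScalarTower.of_algebraMap_eq fun x => by simp
  have : IsGalois L M := IsGalois.tower_top_of_isGalois ℚ L M
  have hy : y ∈ M := hM y (Set.mem_insert _ _)
  by_cases hf : ∀ g ∈ Q.asIdeal.inertia (M ≃ₐ[L] M), g ⟨y, hy⟩ = ⟨y, hy⟩
  · obtain ⟨z, hz⟩ := dp2_fix L M Q ⟨y, hy⟩ hf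
    exact Or.inl ⟨z, z.2, (Valuation.IsEquiv.eq_iff hQ).2 hz⟩
  · push Not at hf
    obtain ⟨g, hg, hgy⟩ := hf
    have hs : ∀ x : M, (g.restrictScalars ℚ).liftNormal E (x : E) = (g x : M) := fun x =>
      AlgEquiv.liftNormal_commutes (g.restrictScalars ℚ) E x
    refine Or.inr ⟨(g.restrictScalars ℚ).liftNormal E, ?_, fun x hx hx1 => ?_, fun e => hgy ?_⟩
    · rw [IntermediateField.mem_fixingSubgroup_iff]
      intro x hx
      have e := hs (algebraMap L M ⟨x, hx⟩)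
      rw [g.commutes] at e
      exact e
    · have hxM : x ∈ M := hM x (Set.mem_insert_of_mem _ hx)
      have h1 := dp2_cg L M Q g hg ⟨x, hxM⟩ ((Valuation.IsEquiv.le_one_iff_le_one hQ).1 hx1)
      have h2 := (Valuation.IsEquiv.lt_one_iff_lt_one hQ).2 h1
      have e := hs ⟨x, hxM⟩
      unfold Cg
      rw [show ((⟨x, hxM⟩ : M) : E) = x from rfl] at e
      rw [e]
      exact h2
    · apply Subtype.ext
      rw [← hs]
      exact e

end Pool.Agent.P.MP_68214b_ag.DP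
end

-- part Pool.Agent.P.MP_68214b_ag.DP4a
section

/-! The unit equation. -/

open Polynomial NumberField IsDedekindDomain

namespace Pool.Agent.P.MP_68214b_ag.DP

open Pool.Agent.P.MP_6e34ef_nt.NF

theorem dp4a_ht (K : Type) [Field K] [NumberField K] (S : Finset (Pr K)) : ∃ M : ℝ, 0 ≤ M ∧
    ∀ u : K, u ≠ 0 → u ≠ 1 → (∀ v, v ∉ S → ord v u = 0 ∧ ord v (1 - u) = 0) →
      (∀ w : InfinitePlace K, w u ≤ Real.exp M) ∧ ∀ v : Pr K, -(ord v u : ℝ) * wt v ≤ M := by
  classical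
  obtain ⟨C, hC, h⟩ := Pool.Agent.P.MP_6e34ef_nt.AK.main 1 one_pos
  have hS : 0 ≤ ∑ v ∈ S, wt v := Finset.sum_nonneg fun v _ => (wt_pos v).le
  have hD := lD_nonneg (K := K)
  have hg : 0 ≤ C * dg K := mul_nonneg hC (zero_le_one.trans one_le_dg)
  refine ⟨Real.exp (lD K / 2 + 1 * (∑ v ∈ S, wt v + lD K + C * dg K)), (Real.exp_pos _).le,
    fun u h0 h1 hu => ?_⟩
  have hm : ∀ v : Pr K, ord v (-1 : K) = 0 := fun v => by rw [ord_neg, ord_one]
  have hs : ∀ v, v ∉ S.filter (fun v => ¬ ord v u = 0) → ord v u = 0 := fun v hv => by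
    by_contra hn
    exact hn (hu v fun hv' => hv (Finset.mem_filter.2 ⟨hv', hn⟩)).1
  have hh := h K (S.filter fun v => ¬ ord v u = 0) (S.filter fun v => ord v u = 0) u
    (∑ v ∈ S, wt v + lD K + C * dg K) h0 h1 hs
    (Finset.disjoint_filter_filter_not S S _).symm (fun v hv => by
      by_cases hv' : v ∈ S
      · have hn : ord v u ≠ 0 := fun e => hv (Finset.mem_filter.2 ⟨hv', e⟩)
        rcases lt_or_gt_of_ne hn with hl | hl
        · rw [sub_eq_add_neg, ord_add_of_lt v h0 (by norm_num) (by rwa [hm])]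
          exact hl.le
        · rw [sub_eq_neg_add, ord_add_of_lt v (by norm_num) h0 (by rwa [hm]), hm]
      · rw [← neg_sub, ord_neg, (hu v hv').2])
    (by rw [add_comm, Finset.sum_filter_add_sum_filter_not]; linarith) (by linarith) (by linarith)
  generalize Real.exp (lD K / 2 + 1 * (∑ v ∈ S, wt v + lD K + C * dg K)) = M at hh
  have n1 : ∀ w : InfinitePlace K, 0 ≤ mu w * max (la w u) 0 := fun w =>
    mul_nonneg (zero_le_one.trans (one_le_mu w)) (le_max_right _ _)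
  have n2 : ∀ v : Pr K, 0 ≤ max (-(ord v u : ℝ)) 0 * wt v := fun v =>
    mul_nonneg (le_max_right _ _) (wt_pos v).le
  have s1 : 0 ≤ ∑ w : InfinitePlace K, mu w * max (la w u) 0 := Finset.sum_nonneg fun w _ => n1 w
  have s2 : 0 ≤ ∑ v ∈ S.filter (fun v => ¬ ord v u = 0), max (-(ord v u : ℝ)) 0 * wt v :=
    Finset.sum_nonneg fun v _ => n2 v
  unfold ht at hh
  refine ⟨fun w => ?_, fun v => ?_⟩
  · have a1 := Finset.single_le_sum (fun w _ => n1 w) (Finset.mem_univ w)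
    have a2 := le_mul_of_one_le_left (le_max_right (la w u) 0) (one_le_mu w)
    have a3 := le_max_left (la w u) 0
    exact (Real.log_le_iff_le_exp (InfinitePlace.pos_iff.2 h0)).1 (by unfold la at *; linarith)
  · by_cases hv : v ∈ S.filter (fun v => ¬ ord v u = 0)
    · have a1 := Finset.single_le_sum (fun v _ => n2 v) hv
      have a2 := mul_le_mul_of_nonneg_right (le_max_left (-(ord v u : ℝ)) 0) (wt_pos v).le
      linarith
    · rw [hs v hv]
      simp only [Int.cast_zero, neg_zero, zero_mul]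
      linarith

theorem su0 (K : Type) [Field K] [NumberField K] (S : Finset (Pr K)) :
    {u : K | ∀ v, v ∉ S → v.valuation K u = 1 ∧ v.valuation K (1 - u) = 1}.Finite := by
  obtain ⟨M, hM, h⟩ := dp4a_ht K S
  obtain ⟨k, hk⟩ := exists_nat_ge (∑ v ∈ S, M / wt v)
  obtain ⟨D, hD, hD0⟩ := Submodule.exists_mem_ne_zero_of_ne_bot
    (p := ∏ v ∈ S, v.asIdeal) (Finset.prod_ne_zero_iff.2 fun v _ => v.ne_bot)
  have hDk : ((D ^ k : 𝓞 K) : K) ≠ 0 := by
    simpa using fun e => absurd e hD0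
  have hf := (NumberField.Embeddings.finite_of_norm_le K ℂ
    ((∑ w : InfinitePlace K, w ((D ^ k : 𝓞 K) : K)) * Real.exp M)).preimage
    (mul_right_injective₀ hDk).injOn
  refine ((hf.insert 0).insert 1).subset fun u hu => ?_
  by_cases h1 : u = 1
  · exact Or.inl h1
  by_cases h0 : u = 0
  · exact Or.inr (Or.inl h0)
  have ho : ∀ v, v ∉ S → ord v u = 0 ∧ ord v (1 - u) = 0 := fun v hv => by
    have := hu v hv
    rwa [val_eq v h0, val_eq v (sub_ne_zero.2 (Ne.symm h1)), ← WithZero.exp_zero, WithZero.exp_inj,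
      WithZero.exp_inj, neg_eq_zero, neg_eq_zero] at this
  obtain ⟨a1, a2⟩ := h u h0 h1 ho
  refine Or.inr (Or.inr ⟨?_, fun φ => ?_⟩)
  · obtain ⟨z, hz⟩ := exists_int (x := ((D ^ k : 𝓞 K) : K) * u) fun v => by
      by_cases hv : v ∈ S
      · have b1 : D ∈ v.asIdeal := Ideal.le_of_dvd (Finset.dvd_prod_of_mem _ hv) hD
        refine ((ge_of_mem v (Ideal.pow_mem_pow b1 k)).mul (Ge.self v u)).mono ?_
        have b2 := Finset.single_le_sum (f := fun v : Pr K => M / wt v)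
          (fun v _ => div_nonneg hM (wt_pos v).le) hv
        have b3 := (le_div_iff₀ (wt_pos v)).2 (a2 v)
        linarith
      · refine ((ge_of_mem v (m := 0) (x := D ^ k) (by simp)).mul (Ge.self v u)).mono ?_
        rw [(ho v hv).1]
        simp
    show IsIntegral ℤ (((D ^ k : 𝓞 K) : K) * u)
    rw [← hz]
    exact z.isIntegral_coe
  · show ‖φ (((D ^ k : 𝓞 K) : K) * u)‖ ≤ _
    rw [← InfinitePlace.apply, map_mul]
    exact mul_le_mul (Finset.single_le_sum (f := fun w : InfinitePlace K => w ((D ^ k : 𝓞 K) : K))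
      (fun w _ => apply_nonneg _ _) (Finset.mem_univ _)) (a1 _) (apply_nonneg _ _)
      (Finset.sum_nonneg fun w _ => apply_nonneg _ _)

variable {E : Type} [Field E] [CharZero E] [IsAlgClosed E] [Algebra.IsAlgebraic ℚ E]

/-- all primes outside a finite set are centres of big places -/
theorem big_ctr (F : IntermediateField ℚ E) [FiniteDimensional ℚ F] (B : ℕ) :
    ∃ S : Finset (HeightOneSpectrum (𝓞 F)), ∀ Q, Q ∉ S → ∃ A, Big B A ∧ Ctr A F Q := by
  have h0 : Ideal.span {((B.factorial : ℕ) : 𝓞 F)} ≠ 0 := by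
    rw [Ne, Ideal.zero_eq_bot, Ideal.span_singleton_eq_bot]
    exact_mod_cast B.factorial_ne_zero
  refine ⟨(Ideal.finite_factors h0).toFinset, fun Q hQ => ?_⟩
  obtain ⟨A, p, h1, h2, h3⟩ := place_of F Q
  refine ⟨A, ⟨p, not_le.1 fun hp => hQ ?_, h1⟩, h3⟩
  obtain ⟨c, hc⟩ := (h1.1.dvd_factorial).2 hp
  rw [Set.Finite.mem_toFinset, Set.mem_ofPred_eq, Ideal.dvd_span_singleton, hc, Nat.cast_mul]
  exact Ideal.mul_mem_right _ _ h2

theorem su (F : IntermediateField ℚ E) [FiniteDimensional ℚ F] (B : ℕ) :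
    {u : E | u ∈ F ∧ ∀ A, Big B A → A.valuation u = 1 ∧ A.valuation (1 - u) = 1}.Finite := by
  obtain ⟨S, hS⟩ := big_ctr F B
  refine ((su0 F S).image (algebraMap F E)).subset fun u hu => ⟨⟨u, hu.1⟩, fun v hv => ?_, rfl⟩
  obtain ⟨A, h1, h2⟩ := hS v hv
  exact ⟨h2.eq_one_iff_eq_one.1 (hu.2 A h1).1,
    h2.eq_one_iff_eq_one.1 (by simpa using (hu.2 A h1).2)⟩

end Pool.Agent.P.MP_68214b_ag.DP
end

-- part Pool.Agent.P.MP_68214b_ag.DP4b
section

/-! Values that are almost powers. -/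

open Polynomial NumberField IsDedekindDomain

namespace Pool.Agent.P.MP_68214b_ag.DP

open Pool.Agent.P.MP_6e34ef_nt.NF
open scoped nonZeroDivisors

theorem dp4b_rep {α β : Type} [Finite β] (Y : Set α) (c : α → β) :
    ∃ T : Set α, T.Finite ∧ T ⊆ Y ∧ ∀ y ∈ Y, ∃ t ∈ T, c t = c y := by
  have h : ∀ b : c '' Y, ∃ t ∈ Y, c t = b := fun b => b.2
  choose f f1 f2 using h
  exact ⟨Set.range f, Set.finite_range f, by rintro _ ⟨b, rfl⟩; exact f1 b,
    fun y hy => ⟨f ⟨c y, y, hy, rfl⟩, ⟨_, rfl⟩, f2 _⟩⟩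

theorem dp4b_ideal {K : Type} [Field K] [NumberField K] (f : Pr K → ℤ) (T : Finset (Pr K))
    (hT : ∀ v, v ∉ T → f v = 0) :
    ∃ I : (FractionalIdeal (𝓞 K)⁰ K)ˣ, ∀ v, FractionalIdeal.count K v I.1 = f v := by
  classical
  have h0 : ∀ w ∈ T, (w.asIdeal : FractionalIdeal (𝓞 K)⁰ K) ^ f w ≠ 0 := fun w _ =>
    zpow_ne_zero _ (FractionalIdeal.coeIdeal_ne_zero.2 w.ne_bot)
  refine ⟨Units.mk0 _ (Finset.prod_ne_zero_iff.2 h0), fun v => ?_⟩
  rw [Units.val_mk0, FractionalIdeal.count_prod K v T _ h0]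
  simp only [FractionalIdeal.count_zpow, FractionalIdeal.count_maximal, mul_ite, mul_one, mul_zero,
    Finset.sum_ite_eq']
  split_ifs with hv
  · rfl
  · exact (hT v hv).symm

theorem dp4b_unit {K : Type} [Field K] [NumberField K] {w : K} (h0 : w ≠ 0)
    (h : ∀ v : Pr K, ord v w = 0) : ∃ u : (𝓞 K)ˣ, ((u : 𝓞 K) : K) = w := by
  obtain ⟨a, ha⟩ := exists_int (x := w) fun v => Or.inr (by simp [h v])
  obtain ⟨b, hb⟩ := exists_int (x := w⁻¹) fun v => Or.inr (by simp [ord_inv, h v])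
  have hab : a * b = 1 := by
    apply RingOfIntegers.coe_injective
    rw [map_mul, map_one]
    change (a : K) * (b : K) = 1
    rw [ha, hb, mul_inv_cancel₀ h0]
  exact ⟨Units.mkOfMulEqOne a b hab, ha⟩

theorem selmer (K : Type) [Field K] [NumberField K] (S : Finset (HeightOneSpectrum (𝓞 K)))
    {r : ℕ} (hr : 0 < r) : ∃ Δ : Set K, Δ.Finite ∧ ∀ y : K,
      (∀ v, v ∉ S → ∃ z : K, v.valuation K y = v.valuation K z ^ r) →
        ∃ δ ∈ Δ, ∃ z, y = δ * z ^ r := by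
  have : NeZero r := ⟨hr.ne'⟩
  have hr' : (r : ℤ) ≠ 0 := by exact_mod_cast hr.ne'
  have hJ : ∀ y : K, ∃ I : (FractionalIdeal (𝓞 K)⁰ K)ˣ,
      ∀ v, FractionalIdeal.count K v I.1 = ord v y / r := by
    intro y
    obtain ⟨T, hT⟩ := exists_supp y
    exact dp4b_ideal _ T fun v hv => by rw [hT v hv, Int.zero_ediv]
  choose J hJ using hJ
  obtain ⟨T, T1, T2, T3⟩ := dp4b_rep {y : K | y ≠ 0 ∧ ∀ v, v ∉ S → (r : ℤ) ∣ ord v y}
    fun y => ((fun v : S => (ord v.1 y : ZMod r)), ClassGroup.mk K (J y))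
  have hfg : Group.FG (𝓞 K)ˣ := Group.fg_iff_monoid_fg.2 inferInstance
  have hfi := Subgroup.finiteIndex_range_powMonoidHom_of_fg (𝓞 K)ˣ hr.ne'
  obtain ⟨U, U1, -, U3⟩ := dp4b_rep (Set.univ : Set (𝓞 K)ˣ)
    fun u => (u : (𝓞 K)ˣ ⧸ (powMonoidHom (α := (𝓞 K)ˣ) r).range)
  refine ⟨Set.image2 (fun t (u : (𝓞 K)ˣ) => t * ((u : 𝓞 K) : K)) T U ∪ {0},
    (T1.image2 _ U1).union (Set.finite_singleton _), fun y hy => ?_⟩
  by_cases y0 : y = 0
  · exact ⟨0, Or.inr rfl, 0, by simp [y0]⟩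
  have hd : ∀ v, v ∉ S → (r : ℤ) ∣ ord v y := by
    intro v hv
    obtain ⟨z, hz⟩ := hy v hv
    have z0 : z ≠ 0 := by
      rintro rfl
      rw [map_zero, zero_pow hr.ne', map_eq_zero] at hz
      exact y0 hz
    rw [← map_pow, val_eq v y0, val_eq v (pow_ne_zero r z0), WithZero.exp_inj, neg_inj,
      ord_pow] at hz
    exact ⟨_, hz⟩
  obtain ⟨t, ht, hc⟩ := T3 y ⟨y0, hd⟩
  obtain ⟨t0, td⟩ := T2 ht
  obtain ⟨c1, c2⟩ := Prod.mk.inj hc
  have c3 : ClassGroup.mk K (J y * (J t)⁻¹) = 1 := by rw [map_mul, map_inv, c2, mul_inv_cancel]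
  rw [ClassGroup.mk_eq_one_iff, FractionalIdeal.isPrincipal_iff] at c3
  obtain ⟨z, hz⟩ := c3
  have z0 : z ≠ 0 := by
    rintro rfl
    exact (J y * (J t)⁻¹).ne_zero (by rw [hz, FractionalIdeal.spanSingleton_zero])
  have oz : ∀ v, ord v z = ord v y / r - ord v t / r := by
    intro v
    rw [ord, ← hz, Units.val_mul, Units.val_inv_eq_inv_val,
      FractionalIdeal.count_mul K v (J y).ne_zero (inv_ne_zero (J t).ne_zero),
      FractionalIdeal.count_inv, hJ, hJ, sub_eq_add_neg]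
  have hm : ∀ v, ord v t % r = ord v y % r := by
    intro v
    by_cases hv : v ∈ S
    · exact (ZMod.intCast_eq_intCast_iff' _ _ _).1 (congrFun c1 ⟨v, hv⟩)
    · rw [Int.emod_eq_zero_of_dvd (td v hv), Int.emod_eq_zero_of_dvd (hd v hv)]
  have tz : t * z ^ r ≠ 0 := mul_ne_zero t0 (pow_ne_zero r z0)
  obtain ⟨u, hu⟩ := dp4b_unit (div_ne_zero y0 tz) fun v => by
    rw [ord_div v y0 tz, ord_mul v t0 (pow_ne_zero r z0), ord_pow, oz]
    have a1 := Int.emod_add_mul_ediv (ord v y) r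
    have a2 := Int.emod_add_mul_ediv (ord v t) r
    have a3 := hm v
    linear_combination a2 - a1 - a3
  obtain ⟨u0, hu0, e⟩ := U3 u trivial
  obtain ⟨s, hs⟩ := QuotientGroup.eq.1 e
  have e2 : u = u0 * s ^ r := by
    rw [powMonoidHom_apply] at hs
    rw [hs, mul_inv_cancel_left]
  refine ⟨_, Or.inl ⟨t, ht, u0, hu0, rfl⟩, z * ((s : 𝓞 K) : K), ?_⟩
  have e3 : ((u : 𝓞 K) : K) = ((u0 : 𝓞 K) : K) * ((s : 𝓞 K) : K) ^ r := by
    rw [e2]; simp
  rw [e3, eq_div_iff tz] at hu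
  rw [← hu]; ring

variable {E : Type} [Field E] [CharZero E] [IsAlgClosed E] [Algebra.IsAlgebraic ℚ E]

theorem dp4b_val {E : Type} [Field E] (A : ValuationSubring E) {a b : E} {r : ℕ}
    (ha : A.valuation a ≤ 1) (hb : A.valuation b ≤ 1) (h : A.valuation (a ^ r - b ^ r) = 1) :
    A.valuation (a - b) = 1 := by
  obtain ⟨c, hc⟩ := sub_dvd_pow_sub_pow (⟨a, (A.valuation_le_one_iff a).1 ha⟩ : A)
    ⟨b, (A.valuation_le_one_iff b).1 hb⟩ r
  have h1 : a ^ r - b ^ r = (a - b) * c := by simpa using congrArg Subtype.val hc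
  have h2 : A.valuation (a - b) ≤ 1 := (A.valuation.map_sub a b).trans (max_le ha hb)
  refine le_antisymm h2 ?_
  rw [h1, map_mul] at h
  calc 1 = A.valuation (a - b) * A.valuation (c : E) := h.symm
    _ ≤ A.valuation (a - b) * 1 := mul_le_mul_right (A.valuation_le_one c) _
    _ = _ := mul_one _

theorem sg (L : IntermediateField ℚ E) [FiniteDimensional ℚ L] (B : ℕ) (e : Fin 3 → E)
    (he : ∀ i, e i ∈ L) (hi : Function.Injective e) {r : ℕ} (hr : 2 ≤ r) :
    {x : E | x ∈ L ∧ ∀ A, Big B A → A.valuation x ≤ 1 ∧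
      ∀ i, ∃ z ∈ L, A.valuation (x - e i) = A.valuation z ^ r}.Finite := by
  have r0 : r ≠ 0 := by omega
  obtain ⟨B1, hB1⟩ := unit_big ((Set.finite_range e).union
    (Set.finite_range fun q : Fin 3 × Fin 3 => e q.1 - e q.2))
  obtain ⟨S, hS⟩ := big_ctr L B
  obtain ⟨Δ, hΔ, hs⟩ := selmer L S (show 0 < r by omega)
  have hρ : ∀ δ : L, ∃ ρ : E, ρ ^ r = δ := fun δ => IsAlgClosed.exists_pow_nat_eq _ (by omega)
  choose ρ hρ using hρ
  have : NeZero r := ⟨r0⟩
  obtain ⟨ζ, hζ⟩ := HasEnoughRootsOfUnity.exists_primitiveRoot E r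
  have ζ1 : ζ ≠ 1 := hζ.ne_one (by omega)
  have ζr : ζ ^ r = 1 := hζ.pow_eq_one
  obtain ⟨L', f1, -, f2, f3⟩ := exists_gal' L ((hΔ.image ρ).union (Set.finite_singleton ζ))
  have hu := su L' (max B B1)
  refine ((hu.image2 (fun u0 u1 => (e 0 - ((ζ - u1 / u0) / (1 - u1 / u0)) ^ r * e 1) /
    (1 - ((ζ - u1 / u0) / (1 - u1 / u0)) ^ r)) hu).union (Set.finite_range e)).subset ?_
  rintro x ⟨xL, hx⟩
  by_cases hxe : x ∈ Set.range e
  · exact Or.inr hxe
  have x0 : ∀ i, x - e i ≠ 0 := fun i h => hxe ⟨i, (sub_eq_zero.1 h).symm⟩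
  have hw : ∀ i, ∃ w ∈ L', w ^ r = x - e i := by
    intro i
    obtain ⟨δ, hδ, z, hz⟩ := hs ⟨x - e i, sub_mem xL (he i)⟩ fun v hv => by
      obtain ⟨A, hA, hc⟩ := hS v hv
      obtain ⟨z, zL, hz⟩ := (hx A hA).2 i
      refine ⟨⟨z, zL⟩, ?_⟩
      rw [← map_pow] at hz ⊢
      exact hc.eq_iff.1 hz
    refine ⟨ρ δ * z, mul_mem (f3 _ (Or.inl ⟨δ, hδ, rfl⟩)) (f2 z.2), ?_⟩
    have := congrArg Subtype.val hz
    rw [mul_pow, hρ]
    simpa using this.symm
  choose w wL hw using hw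
  have ζL : ζ ∈ L' := f3 _ (Or.inr rfl)
  have w0 : ∀ i, w i ≠ 0 := fun i h => x0 i (by rw [← hw, h, zero_pow r0])
  have ne : ∀ (a b : E) (i j : Fin 3), i ≠ j → a ^ r = x - e i → b ^ r = x - e j → a - b ≠ 0 := by
    intro a b i j hij ha hb h
    rw [sub_eq_zero.1 h, hb, sub_right_inj] at ha
    exact hij (hi ha).symm
  have un : ∀ A, Big (max B B1) A → ∀ (a b : E) (i j : Fin 3), i ≠ j → a ^ r = x - e i →
      b ^ r = x - e j → A.valuation (a - b) = 1 := by
    intro A hA a b i j hij ha hb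
    have h1 := hB1 A (hA.mono (le_max_right _ _))
    have h2 := (hx A (hA.mono (le_max_left _ _))).1
    have h3 : ∀ (c : E) (l : Fin 3), c ^ r = x - e l → A.valuation c ≤ 1 := by
      intro c l hc
      have h4 : A.valuation (e l) ≤ 1 := by
        by_cases h5 : e l = 0
        · simp [h5]
        · exact (h1 _ (Or.inl ⟨l, rfl⟩) h5).le
      rw [← pow_le_one_iff_of_nonneg zero_le r0, ← map_pow, hc]
      exact (A.valuation.map_sub _ _).trans (max_le h2 h4)
    refine dp4b_val A (r := r) (h3 a i ha) (h3 b j hb) ?_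
    rw [ha, hb, sub_sub_sub_cancel_left]
    exact h1 _ (Or.inr ⟨(j, i), rfl⟩) (sub_ne_zero.2 fun h => hij (hi h).symm)
  have d02 := ne _ _ 0 2 (by decide) (hw 0) (hw 2)
  have d01 := ne _ _ 0 1 (by decide) (hw 0) (hw 1)
  have mem : ∀ b ∈ L', b ^ r = x - e 1 → (w 0 - b) / (w 0 - w 2) ∈ {u : E | u ∈ L' ∧
      ∀ A, Big (max B B1) A → A.valuation u = 1 ∧ A.valuation (1 - u) = 1} := by
    intro b bL hb
    refine ⟨div_mem (sub_mem (wL 0) bL) (sub_mem (wL 0) (wL 2)), fun A hA => ?_⟩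
    have e1 : 1 - (w 0 - b) / (w 0 - w 2) = (b - w 2) / (w 0 - w 2) := by field_simp; ring
    rw [e1, map_div₀, map_div₀, un A hA _ _ 0 1 (by decide) (hw 0) hb,
      un A hA _ _ 0 2 (by decide) (hw 0) (hw 2), un A hA _ _ 1 2 (by decide) hb (hw 2)]
    simp
  refine Or.inl ⟨_, mem _ (wL 1) (hw 1), _,
    mem (ζ * w 1) (mul_mem ζL (wL 1)) (by rw [mul_pow, ζr, one_mul, hw]), ?_⟩
  have ζ0 : ζ - 1 ≠ 0 := sub_ne_zero.2 ζ1
  have w1 := w0 1
  have e1 : (w 0 - ζ * w 1) / (w 0 - w 2) / ((w 0 - w 1) / (w 0 - w 2)) =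
      (w 0 - ζ * w 1) / (w 0 - w 1) := by field_simp
  have e2 : 1 - (w 0 - ζ * w 1) / (w 0 - w 1) = (ζ - 1) * w 1 / (w 0 - w 1) := by
    field_simp; ring
  have e3 : ζ - (w 0 - ζ * w 1) / (w 0 - w 1) = (ζ - 1) * w 0 / (w 0 - w 1) := by
    field_simp; ring
  have e4 : (ζ - 1) * w 0 / (w 0 - w 1) / ((ζ - 1) * w 1 / (w 0 - w 1)) = w 0 / w 1 := by
    field_simp
  have x1 := x0 1
  have e5 : e 0 - e 1 ≠ 0 := sub_ne_zero.2 fun h => absurd (hi h) (by decide)
  have e6 : 1 - (x - e 0) / (x - e 1) = (e 0 - e 1) / (x - e 1) := by field_simp; ring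
  simp only [e1, e2, e3, e4, div_pow, hw, e6]
  field_simp
  ring

end Pool.Agent.P.MP_68214b_ag.DP
end

-- part Pool.Agent.P.MP_68214b_ag.DP7b
section

/-! An inertial element that moves a point of the tree. -/

open Polynomial

namespace Pool.Agent.P.MP_68214b_ag.DP

variable {E : Type} [Field E] [CharZero E] [IsAlgClosed E] [Algebra.IsAlgebraic ℚ E]

omit [IsAlgClosed E] [Algebra.IsAlgebraic ℚ E] in
theorem dp7b_mem (K : IntermediateField ℚ E) {g : E[X]} (hK : ∀ k, g.coeff k ∈ K) {γ : E}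
    (hγ : γ ∈ K) (m : ℕ) : it g m γ ∈ K := by
  induction m with
  | zero => exact hγ
  | succ m ih =>
    rw [it_succ', eval_eq_sum_range]
    exact sum_mem fun k _ => mul_mem (hK k) (pow_mem ih k)

theorem dp7b_big {Z : Set E} (hZ : Z.Finite) (g h : E[X]) : ∃ B, ∀ A, Big B A →
    IP A g ∧ IP A h ∧ (∀ z ∈ Z, A.valuation z ≤ 1) ∧ ∀ z ∈ Z, z ≠ 0 → A.valuation z = 1 := by
  obtain ⟨B, hB⟩ := unit_big ((hZ.union g.coeffs.finite_toSet).union h.coeffs.finite_toSet)
  have k : ∀ A, Big B A → ∀ z, (z ≠ 0 → z ∈ (Z ∪ g.coeffs) ∪ h.coeffs) → A.valuation z ≤ 1 :=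
    fun A hA z hz => by
      by_cases h0 : z = 0
      · rw [h0, map_zero]; exact zero_le
      · exact (hB A hA z (hz h0) h0).le
  exact ⟨B, fun A hA => ⟨fun j => k A hA _ fun h0 => .inl (.inr (coeff_mem_coeffs h0)),
    fun j => k A hA _ fun h0 => .inr (coeff_mem_coeffs h0),
    fun z hz => k A hA z fun _ => .inl (.inl hz), fun z hz => hB A hA z (.inl (.inl hz))⟩⟩

theorem kcA (K : IntermediateField ℚ E) [FiniteDimensional ℚ K] {g : E[X]} (hm : g.Monic)
    (hd : 2 ≤ g.natDegree) (hK : ∀ k, g.coeff k ∈ K) {γ : E} (hγ : γ ∈ K) (hc : Crit g γ)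
    (hw : Wand g γ) {n : ℕ} (e : Fin 3 → E) (hi : Function.Injective e)
    (he : ∀ i, it g n (e i) = γ) (B : ℕ) :
    ∃ m A, (n + m).Prime ∧ Big B A ∧ Cg A (it g (n + m) γ) γ ∧ ∀ W : Set E, W.Finite →
      ∃ s ∈ K.fixingSubgroup, (∀ x ∈ W, A.valuation x ≤ 1 → Cg A (s x) x) ∧
        ∃ i x, it g m x = e i ∧ s x ≠ x := by
  have h0 := (monic_sub_C hm (by omega) (g.eval γ)).ne_zero
  have hr : 2 ≤ (g - C (g.eval γ)).rootMultiplicity γ :=
    (one_lt_rootMultiplicity_iff_isRoot h0).2 ⟨by simp, by simpa [Crit] using hc⟩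
  obtain ⟨h, hh, hn⟩ := exists_eq_pow_rootMultiplicity_mul_and_not_dvd _ h0 γ
  generalize (g - C (g.eval γ)).rootMultiplicity γ = r at hr hh
  rw [dvd_iff_isRoot] at hn
  obtain ⟨L, hL, -, hKL, hLe⟩ := exists_gal' K (Set.finite_range e)
  obtain ⟨B0, hB0⟩ := dp7b_big (((Set.finite_range e).insert γ).insert (h.eval γ)) g h
  have hM : {m | 1 ≤ m ∧ (n + m).Prime}.Infinite := Set.infinite_of_forall_exists_gt fun a => by
    obtain ⟨p, h1, h2⟩ := Nat.exists_infinite_primes (n + a + 1)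
    obtain ⟨c, rfl⟩ := Nat.exists_eq_add_of_le h1
    exact ⟨a + 1 + c, ⟨by omega, by rwa [← add_assoc, ← add_assoc]⟩, by omega⟩
  obtain ⟨_, ⟨m, ⟨hm1, hmp⟩, rfl⟩, hT⟩ := (hM.image hw.inj.injOn).exists_notMem_finite
    (sg L (max B B0) e (fun i => hLe _ ⟨i, rfl⟩) hi hr)
  obtain ⟨A, hA, hT⟩ : ∃ A, Big (max B B0) A ∧ ¬ (A.valuation (it g m γ) ≤ 1 ∧
      ∀ i, ∃ z ∈ L, A.valuation (it g m γ - e i) = A.valuation z ^ r) := by
    by_contra! H
    exact hT ⟨hKL (dp7b_mem K hK hγ m), H⟩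
  obtain ⟨ig, ih, i1, i2⟩ := hB0 A (hA.mono (le_max_right _ _))
  have vγ : A.valuation γ ≤ 1 := i1 γ (.inr (.inl rfl))
  have vh : A.valuation (h.eval γ) = 1 := i2 _ (.inl rfl) hn
  obtain ⟨i, hT⟩ : ∃ i, ∀ z ∈ L, A.valuation (it g m γ - e i) ≠ A.valuation z ^ r := by
    by_contra! H
    exact hT ⟨ig.it vγ m, H⟩
  have ve : A.valuation (e i) ≤ 1 := i1 _ (.inr (.inr ⟨i, rfl⟩))
  have c1 : Cg A (it g m γ) (e i) :=
    lt_of_le_of_ne (A.valuation.map_sub_le (ig.it vγ m) ve) (by simpa using hT 1 (one_mem L))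
  refine ⟨m, A, hmp, hA.mono (le_max_left _ _), ?_, fun W hW => ?_⟩
  · have := c1.it ig ve n
    rwa [← it_add, he] at this
  by_contra! H
  obtain ⟨p, -, hp⟩ := hA
  have k1 : ∀ x, it g m x = e i → ∃ z ∈ L, A.valuation (x - γ) = A.valuation z := fun x hx => by
    refine (inert L hW hp (x - γ)).resolve_right fun ⟨s, hs, h1, h2⟩ => h2 ?_
    have h3 : s ∈ K.fixingSubgroup := (K.mem_fixingSubgroup_iff s).2 fun y hy =>
      (L.mem_fixingSubgroup_iff s).1 hs y (hKL hy)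
    rw [map_sub, H s h3 h1 i x hx, (K.mem_fixingSubgroup_iff s).1 h3 γ hγ]
  obtain ⟨m, rfl⟩ := Nat.exists_eq_add_of_le' hm1
  have k2 : ∃ z ∈ L, A.valuation (it g (m + 1) γ - e i) = A.valuation z ^ r := by
    rw [it_succ, prod_gi hm hd]
    refine Multiset.prod_induction (fun y => ∃ z ∈ L, A.valuation y = A.valuation z ^ r) _
      (fun a b ⟨z, h1, h2⟩ ⟨w, h3, h4⟩ => ⟨z * w, mul_mem h1 h3, by
        rw [map_mul, map_mul, mul_pow, h2, h4]⟩) ⟨1, one_mem L, by simp⟩ fun y hy => ?_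
    obtain ⟨b, hb, rfl⟩ := Multiset.mem_map.1 hy
    rw [mem_roots_gi hm hd] at hb
    have vb : A.valuation b ≤ 1 := ig.pre hm hd (by rwa [hb])
    rcases (A.valuation.map_sub_le (ig.eval vγ) vb).lt_or_eq with h1 | h1
    · obtain ⟨x, h2, h3⟩ := near_pre (n := 1) (x := γ) ig hm hd vb h1
      obtain ⟨z, h4, h5⟩ := k1 x (by rw [it_add, h2, hb])
      have h6 := congrArg (eval x) hh
      rw [eval_sub, eval_C, eval_mul, eval_pow, eval_sub, eval_X, eval_C, ← it_one, h2] at h6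
      refine ⟨z, h4, ?_⟩
      rw [Valuation.map_sub_swap, h6, map_mul, map_pow, h5, (h3.symm.eval ih vγ).unit vh, mul_one]
    · exact ⟨1, one_mem L, by simpa using h1⟩
  obtain ⟨z, h1, h2⟩ := k2
  exact hT z h1 h2

end Pool.Agent.P.MP_68214b_ag.DP
end

-- part Pool.Agent.P.MP_68214b_ag.DP2c
section

/-! A generator of tame inertia. -/

open Polynomial NumberField IsDedekindDomain

namespace Pool.Agent.P.MP_68214b_ag.DP

section abs

variable {M Γ I : Type} [Field M] [LinearOrderedCommGroupWithZero Γ] (v : Valuation M Γ)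

open Classical in
/-- the residue of an integral element -/
noncomputable def dp2c_res (x : M) : IsLocalRing.ResidueField v.valuationSubring :=
  if h : v x ≤ 1 then IsLocalRing.residue v.valuationSubring ⟨x, h⟩ else 0

theorem dp2c_mul {x y : M} (hx : v x ≤ 1) (hy : v y ≤ 1) :
    dp2c_res v (x * y) = dp2c_res v x * dp2c_res v y := by
  have h : v (x * y) ≤ 1 := by rw [map_mul]; exact mul_le_one' hx hy
  rw [dp2c_res, dp2c_res, dp2c_res, dif_pos h, dif_pos hx, dif_pos hy, ← map_mul]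
  rfl

theorem dp2c_one : dp2c_res v 1 = 1 := by
  rw [dp2c_res, dif_pos (map_one v).le]
  exact map_one _

theorem dp2c_eq {x y : M} (hx : v x ≤ 1) (hy : v y ≤ 1) :
    dp2c_res v x = dp2c_res v y ↔ v (x - y) < 1 := by
  rw [dp2c_res, dp2c_res, dif_pos hx, dif_pos hy, ← sub_eq_zero, ← map_sub,
    IsLocalRing.residue_eq_zero_iff, ValuationSubring.valuation_lt_one_iff]
  exact v.isEquiv_valuation_valuationSubring.lt_one_iff_lt_one.symm

variable [Group I] [Finite I] [MulSemiringAction I M]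

theorem dp2c_val (cg : ∀ (g : I) x, v x ≤ 1 → v (g • x - x) < 1) (g : I) (x : M) :
    v (g • x) = v x := by
  have lt : ∀ (g : I) x, v x < 1 → v (g • x) < 1 := fun g x h => by
    simpa using v.map_add_lt (cg g x h.le) h
  have key : ∀ (g : I) x, ¬ v (g • x) < v x := fun g x h => by
    have h0 : x ≠ 0 := fun e => by simp [e] at h
    have h1 : v (g • x / x) < 1 := by
      rwa [map_div₀, div_lt_one₀ (zero_lt_iff.2 ((map_ne_zero v).2 h0))]
    have h2 : StrictAnti fun n : ℕ => v (g ^ n • x) := strictAnti_nat_of_succ_lt fun n => by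
      have h3 := lt (g ^ n) _ h1
      rwa [div_eq_mul_inv, smul_mul', smul_inv'', ← div_eq_mul_inv, map_div₀,
        div_lt_one₀ (zero_lt_iff.2 ((map_ne_zero v).2 ((smul_ne_zero_iff_ne _).2 h0))),
        ← mul_smul, ← pow_succ] at h3
    have h4 := h2 (orderOf_pos g)
    simp [pow_orderOf_eq_one] at h4
  exact le_antisymm (not_lt.1 (by simpa using key g⁻¹ (g • x))) (not_lt.1 (key g x))

theorem dp2c_abs (cg : ∀ (g : I) x, v x ≤ 1 → v (g • x - x) < 1) {p : ℕ} (hp : p.Prime)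
    (hv : v p < 1) (π : Mˣ) (hπ : ∀ y : Mˣ, ∃ n : ℤ, v y = v (π ^ n : Mˣ)) :
    ∃ s : I, ∀ y : M, y ≠ 0 → ∀ a, s ^ a • y = y →
      ∃ w u, (∀ g : I, g • u = u) ∧ v y ^ (a * p ^ w) = v u := by
  classical
  have := Fact.mk hp
  have := Fintype.ofFinite I
  have val := dp2c_val v cg
  have v0 : ∀ y : Mˣ, v y ≠ 0 := fun y => (map_ne_zero v).2 y.ne_zero
  have v1 : ∀ (g : I) (y : Mˣ), v (g • (y : M) / y) ≤ 1 := fun g y => by
    rw [map_div₀, val, div_self (v0 y)]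
  have c1 : ∀ (g : I) (y : Mˣ),
      dp2c_res v (g • (y : M) / y) = 1 ↔ v (g • (y : M) - y) < v y := fun g y => by
    rw [← dp2c_one v, dp2c_eq v (v1 g y) (map_one v).le, div_sub_one y.ne_zero, map_div₀,
      div_lt_one₀ (zero_lt_iff.2 (v0 y))]
  let ψ : I → Mˣ →* IsLocalRing.ResidueField v.valuationSubring := fun g =>
    { toFun := fun y => dp2c_res v (g • (y : M) / y)
      map_one' := by simpa using dp2c_one v
      map_mul' := fun y z => by
        rw [← dp2c_mul v (v1 g y) (v1 g z), Units.val_mul, smul_mul', mul_div_mul_comm] }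
  let χ : Mˣ → I →* IsLocalRing.ResidueField v.valuationSubring := fun y =>
    { toFun := fun g => ψ g y
      map_one' := (c1 1 y).2 (by simpa using zero_lt_iff.2 (v0 y))
      map_mul' := fun g h => by
        change dp2c_res v _ = dp2c_res v _ * dp2c_res v _
        have h1 : v (g • (h • (y : M) / y)) ≤ 1 := by rw [val]; exact v1 h y
        have h2 : g • (y : M) ≠ 0 := (smul_ne_zero_iff_ne _).2 y.ne_zero
        rw [← (dp2c_eq v h1 (v1 h y)).2 (cg g _ (v1 h y)), ← dp2c_mul v (v1 g y) h1, mul_smul,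
          div_eq_mul_inv (h • (y : M)), smul_mul', smul_inv'']
        congr 1
        field_simp }
  have same : ∀ (g : I) (y z : Mˣ), v y = v z → ψ g y = ψ g z := fun g y z h => by
    have h1 : v (y / z : Mˣ) = 1 := by rw [Units.val_div_eq_div_val, map_div₀, h, div_self (v0 z)]
    have h2 : ψ g (y / z) = 1 := (c1 g _).2 (by rw [h1]; exact cg g _ h1.le)
    rw [← div_mul_cancel y z, map_mul, h2, one_mul]
  have : IsCyclic (χ π).toHomUnits.range := isCyclic_of_injective_ringHom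
    ((Units.coeHom _).comp (Subgroup.subtype _)) (Units.val_injective.comp Subtype.val_injective)
  obtain ⟨⟨_, s, rfl⟩, hs⟩ := IsCyclic.exists_generator (α := (χ π).toHomUnits.range)
  refine ⟨s, fun y0 hy a ha => ?_⟩
  lift y0 to Mˣ using hy.isUnit with y
  obtain ⟨m, hm⟩ := hπ y
  have h1 : ψ s y ^ a = 1 := (map_pow (χ y) s a).symm.trans
    ((c1 _ y).2 (by rw [ha]; simpa using zero_lt_iff.2 (v0 y)))
  have h2 : ∀ g, ψ g y ^ a = 1 := fun g => by
    obtain ⟨n, hn⟩ := hs ⟨_, g, rfl⟩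
    have h3 : ψ s π ^ n = ψ g π := by
      change χ π s ^ n = χ π g
      simpa using congrArg (fun x : (χ π).toHomUnits.range => x.1.1) hn
    rw [same s y _ hm, map_zpow] at h1
    rw [same g y _ hm, map_zpow, ← h3, ← zpow_mul, mul_comm, zpow_mul, ← zpow_natCast, ← zpow_mul,
      mul_comm, zpow_mul, zpow_natCast, h1, one_zpow]
  obtain ⟨P⟩ : Nonempty (Sylow p I) := inferInstance
  obtain ⟨w, hw⟩ := P.isPGroup'.exists_card_eq
  obtain ⟨u, hu⟩ : ∃ u : M, u = ∏ t : (P : Subgroup I), (t : I) • (y : M) ^ a := ⟨_, rfl⟩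
  have u1 : v u = v (y ^ (a * p ^ w) : Mˣ) := by
    rw [hu, map_prod]
    simp [val, ← Nat.card_eq_fintype_card, hw, pow_mul]
  have u2 : ∀ t ∈ (P : Subgroup I), t • u = u := fun t ht => by
    rw [hu, Finset.smul_prod']
    exact Fintype.prod_equiv (Equiv.mulLeft (⟨t, ht⟩ : (P : Subgroup I))) _ _ fun x =>
      (mul_smul _ _ _).symm
  lift u to Mˣ using ((map_ne_zero v).1 (u1 ▸ v0 _)).isUnit
  have u3 : ∀ g : I, v (g • (u : M) - u) < v u := fun g => (c1 g u).1 (by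
    change ψ g u = 1
    rw [same g u _ u1, map_pow, pow_mul, h2, one_pow])
  let f : I ⧸ (P : Subgroup I) → M := Quotient.lift (fun g => g • (u : M)) fun g h e => by
    have := u2 _ (QuotientGroup.leftRel_apply.1 e)
    rw [mul_smul, inv_smul_eq_iff] at this
    exact this.symm
  have vi : ∀ n : ℤ, v n ≤ 1 := fun n => intCast_mem v.integer n
  have vn : v ((P : Subgroup I).index : M) = 1 := by
    refine le_antisymm (by simpa using vi (P : Subgroup I).index) (not_lt.1 fun hlt => ?_)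
    obtain ⟨b, c, e⟩ :=
      Nat.isCoprime_iff_coprime.2 (hp.coprime_iff_not_dvd.2 P.not_dvd_index)
    have e1 : (b : M) * p + c * (P : Subgroup I).index = 1 := by
      exact_mod_cast congrArg (Int.cast : ℤ → M) e
    have e2 := v.map_add_lt (x := (b : M) * p) (y := c * (P : Subgroup I).index) (g := 1)
      (by rw [map_mul]; exact mul_lt_one_of_nonneg_of_lt_one_right (vi b) zero_le hv)
      (by rw [map_mul]; exact mul_lt_one_of_nonneg_of_lt_one_right (vi c) zero_le hlt)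
    simp [e1] at e2
  refine ⟨w, ∑ q, f q, fun g => ?_, ?_⟩
  · rw [Finset.smul_sum]
    refine Fintype.sum_equiv (MulAction.toPerm g) _ _ fun q => ?_
    induction q using QuotientGroup.induction_on with
    | H x => exact (mul_smul g x (u : M)).symm
  · have e1 : v (((P : Subgroup I).index : M) * u) = v u := by rw [map_mul, vn, one_mul]
    have e2 : ∑ q, f q - ((P : Subgroup I).index : M) * u = ∑ q, (f q - u) := by
      rw [Finset.sum_sub_distrib, Finset.sum_const, nsmul_eq_mul, Finset.card_univ,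
        Subgroup.index, Nat.card_eq_fintype_card]
    have e3 : v (∑ q, f q - ((P : Subgroup I).index : M) * u) < v u := by
      rw [e2]
      refine v.map_sum_lt (v0 u) fun q _ => ?_
      induction q using QuotientGroup.induction_on with
      | H x => exact u3 x
    rw [v.map_eq_of_sub_lt (x := ((P : Subgroup I).index : M) * u) (y := ∑ q, f q) (e1 ▸ e3), e1,
      u1, Units.val_pow_eq_pow_val, map_pow]

end abs

variable {E : Type} [Field E] [CharZero E] [IsAlgClosed E] [Algebra.IsAlgebraic ℚ E]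

theorem tame (L : IntermediateField ℚ E) [FiniteDimensional ℚ L] {W : Set E} (hW : W.Finite)
    {A : ValuationSubring E} {p : ℕ} (h : Ov A p) : ∃ s ∈ L.fixingSubgroup, ∀ y ∈ W, y ≠ 0 →
      ∀ a, 0 < a → (s ^ a) y = y → ∃ w, ∃ z ∈ L, A.valuation y ^ (a * p ^ w) = A.valuation z := by
  obtain ⟨M, hfin, hgal, hle, hM⟩ := exists_gal' L hW
  obtain ⟨Q, -, hQ⟩ := center M h
  let : Algebra L M := (IntermediateField.inclusion hle).toAlgebra
  have : IsScalarTower ℚ L M := IsScalarTower.of_algebraMap_eq fun x => by simp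
  have : IsGalois L M := IsGalois.tower_top_of_isGalois ℚ L M
  obtain ⟨π, hπ⟩ := Q.valuation_exists_uniformizer M
  have h0 : π ≠ 0 := fun e => by
    rw [e, map_zero] at hπ
    exact WithZero.exp_ne_zero hπ.symm
  obtain ⟨g, hg⟩ := dp2c_abs (I := Q.asIdeal.inertia (M ≃ₐ[L] M)) (Q.valuation M)
    (fun g x hx => dp2_cg L M Q g.1 g.2 x hx) h.1
    ((Valuation.IsEquiv.lt_one_iff_lt_one hQ).1 (by simpa using h.2)) (Units.mk0 π h0) fun y =>
      ⟨-WithZero.log (Q.valuation M y), by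
        rw [Units.val_zpow_eq_zpow_val, map_zpow₀, Units.val_mk0, hπ, ← WithZero.exp_zsmul,
          smul_eq_mul, mul_neg_one, neg_neg, WithZero.exp_log ((Valuation.ne_zero_iff _).2 y.ne_zero)]⟩
  have hs : ∀ x : M, (g.1.restrictScalars ℚ).liftNormal E (x : E) = (g • x : M) := fun x =>
    AlgEquiv.liftNormal_commutes (g.1.restrictScalars ℚ) E x
  have hs' : ∀ (a : ℕ) (x : M),
      ((g.1.restrictScalars ℚ).liftNormal E ^ a) (x : E) = (g ^ a • x : M) := fun a => by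
    induction a with
    | zero => intro x; simp
    | succ a ih => intro x; rw [pow_succ, pow_succ, AlgEquiv.mul_apply, hs, ih, mul_smul]
  refine ⟨(g.1.restrictScalars ℚ).liftNormal E, ?_, fun y hy hy0 a _ ha => ?_⟩
  · rw [IntermediateField.mem_fixingSubgroup_iff]
    intro x hx
    exact (hs (algebraMap L M ⟨x, hx⟩)).trans (congrArg Subtype.val (g.1.commutes ⟨x, hx⟩))
  · obtain ⟨w, u, u1, u2⟩ := hg ⟨y, hM y hy⟩ (fun e => hy0 (congrArg Subtype.val e)) a
      (Subtype.ext ((hs' a _).symm.trans ha))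
    obtain ⟨z, hz⟩ := dp2_fix L M Q u fun t ht => u1 ⟨t, ht⟩
    rw [hz, ← map_pow] at u2
    refine ⟨w, z, z.2, ?_⟩
    rw [← map_pow]
    exact (Valuation.IsEquiv.eq_iff hQ).2 u2

end Pool.Agent.P.MP_68214b_ag.DP
end

-- part Pool.Agent.P.MP_68214b_ag.DP8a
section

/-! Polynomials that reduce to a power map at a common place. -/

open Polynomial

namespace Pool.Agent.P.MP_68214b_ag.DP

/-- reduction to a tame power map whose degree is not a power of two -/
def Tame {E : Type} [Field E] (A : ValuationSubring E) (g : E[X]) : Prop :=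
  g.Monic ∧ A.valuation (g.natDegree : E) = 1 ∧ (∀ k < g.natDegree, A.valuation (g.coeff k) < 1) ∧
    ∃ q, q.Prime ∧ q ≠ 2 ∧ q ∣ g.natDegree

theorem Tame.deg {E : Type} [Field E] {A : ValuationSubring E} {g : E[X]} (h : Tame A g) :
    2 ≤ g.natDegree := by
  obtain ⟨-, h1, -, q, hq, -, h2⟩ := h
  exact hq.two_le.trans (Nat.le_of_dvd (Nat.pos_of_ne_zero fun e => by simp [e] at h1) h2)

section
variable {E : Type} [Field E] {A : ValuationSubring E} {g h : E[X]} {a x y : E}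

theorem dp8a_ip (hT : Tame A g) : IP A g := fun k => by
  rcases lt_trichotomy k g.natDegree with hk | rfl | hk
  · exact (hT.2.2.1 k hk).le
  · rw [hT.1.coeff_natDegree, map_one]
  · rw [coeff_eq_zero_of_natDegree_lt hk, map_zero]; exact zero_le

theorem dp8a_dec (hT : Tame A g) : ∃ k h, A.valuation (g.coeff k) < 1 ∧ IP A h ∧
    g = X ^ g.natDegree + C (g.coeff k) * h := by
  obtain ⟨k, hk, hm⟩ := Finset.exists_max_image (Finset.range g.natDegree)
    (fun k => A.valuation (g.coeff k)) ⟨0, Finset.mem_range.2 (by have := hT.deg; omega)⟩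
  have hb : ∀ j, A.valuation ((g - X ^ g.natDegree).coeff j) ≤ A.valuation (g.coeff k) := fun j => by
    rw [coeff_sub, coeff_X_pow]
    rcases lt_trichotomy j g.natDegree with hj | rfl | hj
    · rw [if_neg hj.ne, sub_zero]; exact hm j (Finset.mem_range.2 hj)
    · simp [hT.1.coeff_natDegree]
    · simp [coeff_eq_zero_of_natDegree_lt hj, hj.ne']
  refine ⟨k, C (g.coeff k)⁻¹ * (g - X ^ g.natDegree), hT.2.2.1 k (Finset.mem_range.1 hk),
    fun j => ?_, ?_⟩
  · rw [coeff_C_mul, map_mul, map_inv₀]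
    exact inv_mul_le_one_of_le₀ (hb j) zero_le
  · by_cases h0 : g.coeff k = 0
    · rw [h0, map_zero, zero_mul, add_zero, ← sub_eq_zero]
      ext j
      simpa [h0] using hb j
    · rw [← mul_assoc, ← C_mul, mul_inv_cancel₀ h0, C_1, one_mul, add_sub_cancel]

theorem dp8a_lt {k : ℕ} (h : A.valuation x ^ k < 1) : A.valuation x < 1 :=
  not_le.1 fun e => (one_le_pow₀ e).not_gt h

theorem dp8a_pow {k : ℕ} (hk : k ≠ 0) (h : A.valuation x ≤ 1) :
    A.valuation (x ^ k) ≤ A.valuation x := by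
  rw [map_pow]; exact pow_le_of_le_one zero_le h hk

variable (hT : Tame A g) (ha : A.valuation a < 1) (hh : IP A h)
  (e : g = X ^ g.natDegree + C a * h)
include hh e

theorem dp8a_ev (hx : A.valuation x ≤ 1) :
    A.valuation (x ^ g.natDegree - g.eval x) ≤ A.valuation a ∧
    A.valuation (g.natDegree * x ^ (g.natDegree - 1) - g.derivative.eval x) ≤ A.valuation a := by
  have e1 := congrArg (eval x) e
  have e2 := congrArg (fun q => eval x (derivative q)) e
  simp only [eval_add, eval_mul, eval_pow, eval_X, eval_C, derivative_add, derivative_C_mul,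
    derivative_X_pow, map_natCast, eval_natCast] at e1 e2
  rw [e1, e2, sub_add_cancel_left, sub_add_cancel_left, Valuation.map_neg, Valuation.map_neg,
    map_mul, map_mul]
  exact ⟨mul_le_of_le_one_right' (hh.eval hx), mul_le_of_le_one_right' (hh.deriv.eval hx)⟩

include hT ha

theorem dp8a_pre (hx : A.valuation (g.eval x) < 1) : A.valuation x < 1 := by
  have h1 := (dp8a_ev hh e ((dp8a_ip hT).pre hT.1 hT.deg (n := 1) hx.le)).1.trans_lt ha
  exact dp8a_lt ((map_pow A.valuation _ _).symm.trans_lt (Cg.lt h1 hx))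

theorem dp8a_big (n : ℕ) (h1 : A.valuation a < A.valuation (it g n x))
    (h2 : A.valuation (it g n x) < 1) : A.valuation a < A.valuation x ∧ A.valuation x < 1 ∧
      A.valuation x ^ g.natDegree ^ n = A.valuation (it g n x) := by
  induction n generalizing x with
  | zero => exact ⟨h1, h2, pow_one _⟩
  | succ n ih =>
    obtain ⟨b1, b2, b3⟩ := ih (x := g.eval x) h1 h2
    have b4 := dp8a_pre hT ha hh e b2
    have b5 := A.valuation.map_eq_of_sub_lt ((dp8a_ev hh e b4.le).1.trans_lt b1)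
    refine ⟨b1.trans_le (b5.symm.trans_le (dp8a_pow (by have := hT.deg; omega) b4.le)), b4, ?_⟩
    rw [pow_succ', pow_mul, ← map_pow, b5, b3, it_succ]

theorem dp8a_small (hx : A.valuation x ≤ A.valuation a) (n : ℕ) :
    A.valuation (it g n x) ≤ A.valuation a ∧
      A.valuation (it g (n + 1) x - it g n x) ≤ A.valuation a ^ n := by
  have hd := hT.deg
  have st : ∀ y, A.valuation y ≤ A.valuation a → A.valuation (g.eval y) ≤ A.valuation a ∧
      A.valuation (g.derivative.eval y) ≤ A.valuation a := fun y hy => by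
    have hy1 := hy.trans ha.le
    obtain ⟨b1, b2⟩ := dp8a_ev hh e hy1
    have b3 := A.valuation.map_sub_le ((dp8a_pow (k := g.natDegree) (by omega) hy1).trans hy) b1
    have b4 := A.valuation.map_sub_le (x := g.natDegree * y ^ (g.natDegree - 1)) (by
      rw [map_mul, hT.2.1, one_mul]; exact (dp8a_pow (by omega) hy1).trans hy) b2
    rw [sub_sub_cancel] at b3 b4
    exact ⟨b3, b4⟩
  induction n with
  | zero => exact ⟨hx, (A.valuation.map_sub_le (st x hx).1 hx).trans (ha.le.trans_eq (pow_zero _).symm)⟩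
  | succ n ih =>
    have b1 : A.valuation (it g (n + 1) x) ≤ A.valuation a := by rw [it_succ']; exact (st _ ih.1).1
    obtain ⟨c, b2, b3⟩ := (dp8a_ip hT).taylor (ih.1.trans ha.le) (b1.trans ha.le)
    refine ⟨b1, ?_⟩
    rw [← it_succ', ← it_succ'] at b3
    rw [show it g (n + 1 + 1) x - it g (n + 1) x = (g.derivative.eval (it g n x) +
      c * (it g (n + 1) x - it g n x)) * (it g (n + 1) x - it g n x) by rw [b3]; ring, map_mul,
      pow_succ']
    refine mul_le_mul' (A.valuation.map_add_le (st _ ih.1).2 ?_) ih.2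
    rw [map_mul]
    exact (mul_le_of_le_one_left' b2).trans (A.valuation.map_sub_le b1 ih.1)

theorem dp8a_crit [CharZero E] (hx : Crit g x) : A.valuation x < 1 ∧ A.valuation (g.eval x - x) < 1 := by
  have d0 : (g.natDegree : E) ≠ 0 := fun e => by simpa [e] using hT.2.1
  have hd := hT.deg
  have h1 : A.valuation x ≤ 1 := IP.root (g := C (g.natDegree : E)⁻¹ * g.derivative)
    (fun k => by
      rw [coeff_C_mul, map_mul, map_inv₀, hT.2.1, inv_one, one_mul]; exact (dp8a_ip hT).deriv k)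
    (monic_C_mul_of_mul_leadingCoeff_eq_one (by simp [hT.1.leadingCoeff, d0]))
    (by rw [eval_mul, hx, mul_zero])
  obtain ⟨b1, b2⟩ := dp8a_ev hh e h1
  rw [hx, sub_zero, map_mul, hT.2.1, one_mul, map_pow] at b2
  have b3 := dp8a_lt (b2.trans_lt ha)
  exact ⟨b3, A.valuation.map_sub_lt (Cg.lt (Cg.symm (b1.trans_lt ha))
    ((dp8a_pow (by omega) h1).trans_lt b3)) b3⟩

end

theorem dp8a_bez {Γ : Type} [CommGroupWithZero Γ] {u : Γ} (hu : u ≠ 0) {m n : ℕ}
    (h : m.Coprime n) : ∃ α β : ℤ, (u ^ m) ^ α * (u ^ n) ^ β = u := by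
  obtain ⟨α, β, e⟩ := Nat.isCoprime_iff_coprime.2 h
  refine ⟨α, β, ?_⟩
  rw [← zpow_natCast, ← zpow_natCast, ← zpow_mul, ← zpow_mul, ← zpow_add₀ hu, mul_comm _ α,
    mul_comm _ β, e, zpow_one]

/-- the admissible polynomials -/
def Ok {E : Type} [Field E] (A : ValuationSubring E) (g : E[X]) : Prop := Good g ∨ Tame A g

theorem Ok.mon {E : Type} [Field E] {A : ValuationSubring E} {g : E[X]} (h : Ok A g) : g.Monic :=
  h.elim (·.1) (·.1)

theorem Ok.deg {E : Type} [Field E] {A : ValuationSubring E} {g : E[X]} (h : Ok A g) :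
    2 ≤ g.natDegree := h.elim (·.2.1) (·.deg)

variable {E : Type} [Field E] [CharZero E] [IsAlgClosed E] [Algebra.IsAlgebraic ℚ E]

theorem dp8a_esc (K : IntermediateField ℚ E) [FiniteDimensional ℚ K] {g : E[X]}
    {A : ValuationSubring E} (hT : Tame A g) (hK : ∀ k, g.coeff k ∈ K) {γ : E} (hγ : γ ∈ K)
    (hc : Crit g γ) (hw : Wand g γ) : (∃ p, Ov A p) ∧ ∀ᶠ n in Filter.atTop, ∀ x, it g n x = γ →
      x ≠ 0 ∧ A.valuation x < 1 ∧ ∀ j y, it g j y = x →
        A.valuation y ^ g.natDegree ^ j = A.valuation x := by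
  obtain ⟨k, h, ha, hh, e⟩ := dp8a_dec hT
  obtain ⟨b1, b2⟩ := dp8a_crit hT ha hh e hc
  have h0 : g.eval γ - γ ≠ 0 := fun e => hw.not_per ⟨1, one_pos, sub_eq_zero.1 e⟩
  obtain ⟨p, hp⟩ := ov_of_lt h0 b2
  obtain ⟨C, hC⟩ := disc K hp (κ := g.eval γ - γ) (sub_mem (by
    rw [eval_eq_sum_range]
    exact sum_mem fun i _ => mul_mem (hK i) (pow_mem hγ i)) hγ) h0
  refine ⟨⟨p, hp⟩, (Filter.eventually_gt_atTop C).mono fun n hn x hx => ?_⟩
  have b3 : ∀ j y, A.valuation (it g j y) < 1 → A.valuation y < 1 := fun j => by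
    induction j with
    | zero => exact fun _ h => h
    | succ j ih => exact fun y hy => dp8a_pre hT ha hh e (ih _ hy)
  have b4 : A.valuation (g.coeff k) < A.valuation x := not_le.1 fun hl => by
    have b5 := (dp8a_small hT ha hh e hl n).2
    rw [it_succ', hx] at b5
    have := hC (Multiset.replicate n (g.coeff k))
      (fun y hy => by rw [Multiset.eq_of_mem_replicate hy]; exact ⟨hK k, ha⟩)
      (by rwa [Multiset.prod_replicate, map_pow])
    rw [Multiset.card_replicate] at this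
    omega
  have b6 := b3 n x (by rwa [hx])
  refine ⟨fun e => by simp [e] at b4, b6, ?_⟩
  rintro j y rfl
  exact (dp8a_big hT ha hh e j b4 b6).2.2

theorem tame_start (K : IntermediateField ℚ E) [FiniteDimensional ℚ K] {I : Type} [Finite I]
    (g : I → E[X]) {A : ValuationSubring E} (hg : ∀ i, Tame A (g i))
    (hK : ∀ i k, (g i).coeff k ∈ K) (hc : ∀ i δ, Crit (g i) δ → δ ∈ K) :
    ∃ s ∈ K.fixingSubgroup, ∃ n o, Odd o ∧ ∀ i γ, Crit (g i) γ → Wand (g i) γ →
      ∀ x, it (g i) n x = γ → s x ≠ x ∧ (s ^ o) x = x := by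
  by_cases hp : ∃ p, Ov A p
  swap
  · exact ⟨1, one_mem _, 0, 1, odd_one, fun i γ h1 h2 =>
      (hp (dp8a_esc K (hg i) (hK i) (hc i γ h1) h1 h2).1).elim⟩
  obtain ⟨p, hp⟩ := hp
  have hT : {t : I × E | Crit (g t.1) t.2 ∧ Wand (g t.1) t.2}.Finite :=
    (Set.finite_iUnion fun i => (fin_crit (hg i).deg).image (Prod.mk i)).subset fun t ht =>
      Set.mem_iUnion.2 ⟨t.1, t.2, ht.1, rfl⟩
  have hZ := fun n => hT.biUnion fun t _ => fin_pre (hg t.1).1 (hg t.1).deg n t.2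
  obtain ⟨n0, h0⟩ := ((Filter.eventually_all_finite hT).2 fun t ht =>
    (dp8a_esc K (hg t.1) (hK t.1) (hc _ _ ht.1) ht.1 ht.2).2).exists
  obtain ⟨L, _, -, hL, hZL⟩ := exists_gal' K (hZ n0)
  obtain ⟨j0, hj⟩ := ((Filter.eventually_all_finite (hZ n0)).2 fun x hx => show
      ∀ᶠ C in Filter.atTop, x ≠ 0 → ∀ s : Multiset E, (∀ y ∈ s, y ∈ L ∧ A.valuation y < 1) →
        A.valuation x ≤ A.valuation s.prod → s.card ≤ C from by
    by_cases e : x = 0
    · exact .of_forall fun _ h => (h e).elim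
    obtain ⟨C, hC⟩ := disc L hp (hZL x hx) e
    exact (Filter.eventually_ge_atTop C).mono fun _ h _ s h1 h2 => (hC s h1 h2).trans h).exists
  obtain ⟨s, hs, ht⟩ := tame L (hZ (n0 + j0)) hp
  obtain ⟨M, hM, hf⟩ := exists_pow_fix (hZ (n0 + j0)) s
  obtain ⟨b, o, ho, rfl⟩ := Nat.exists_eq_two_pow_mul_odd hM.ne'
  refine ⟨s ^ 2 ^ b, pow_mem (IntermediateField.fixingSubgroup_antitone hL hs) _, n0 + j0, o, ho,
    fun i γ h1 h2 y hy => ?_⟩
  have hW := Set.mem_biUnion (t := fun t : I × E => {x | it (g t.1) (n0 + j0) x = t.2})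
    (show (i, γ) ∈ {t : I × E | Crit (g t.1) t.2 ∧ Wand (g t.1) t.2} from ⟨h1, h2⟩) hy
  refine ⟨fun e => ?_, by rw [← pow_mul]; exact hf y hW⟩
  rw [it_add] at hy
  have hx := Set.mem_biUnion (t := fun t : I × E => {x | it (g t.1) n0 x = t.2})
    (show (i, γ) ∈ {t : I × E | Crit (g t.1) t.2 ∧ Wand (g t.1) t.2} from ⟨h1, h2⟩) hy
  obtain ⟨b1, b2, b3⟩ := h0 (i, γ) ⟨h1, h2⟩ _ hy
  have b4 := b3 j0 y rfl
  generalize it (g i) j0 y = x at hx b1 b2 b4
  obtain ⟨-, d1, -, q, hq, q2, d, hd⟩ := hg i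
  have y0 : A.valuation y ≠ 0 := fun e => b1 (by
    rw [e, zero_pow (pow_ne_zero _ fun e => by simp [e] at d1)] at b4
    simpa using b4.symm)
  obtain ⟨w, z, hz, b5⟩ := ht y hW (by simpa using y0) _ (by positivity) e
  have qp : q ≠ p := by
    rintro rfl
    rw [hd, Nat.cast_mul, map_mul] at d1
    exact (mul_lt_one_of_nonneg_of_lt_one_left zero_le hp.2 (v_nat A d)).ne d1
  obtain ⟨α, β, b6⟩ := dp8a_bez (pow_ne_zero (d ^ j0) y0) (m := 2 ^ b * p ^ w) (n := q ^ j0)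
    (Nat.Coprime.pow_right _ (Nat.Coprime.mul_left
      (Nat.Coprime.pow_left _ ((Nat.coprime_primes Nat.prime_two hq).2 q2.symm))
      (Nat.Coprime.pow_left _ ((Nat.coprime_primes hp.1 hq).2 qp.symm))))
  simp only [hd, mul_pow] at b4
  rw [mul_comm, pow_mul] at b4
  rw [b4, pow_right_comm, b5, ← map_pow, ← map_zpow₀, ← map_zpow₀, ← map_mul] at b6
  rw [← b6] at b4
  have := hj x hx b1 (Multiset.replicate (q ^ j0) ((z ^ d ^ j0) ^ α * x ^ β)) (fun u hu => by
    rw [Multiset.eq_of_mem_replicate hu]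
    exact ⟨mul_mem (zpow_mem (pow_mem hz _) _) (zpow_mem (hZL x hx) _),
      dp8a_lt (b4.trans_lt b2)⟩) (by rw [Multiset.prod_replicate, map_pow, b4])
  rw [Multiset.card_replicate] at this
  exact (Nat.lt_pow_self hq.one_lt).not_ge this

end Pool.Agent.P.MP_68214b_ag.DP
end

-- part Pool.Agent.P.MP_68214b_ag.DP8
section

/-! An automorphism without fixed points on all the trees. -/

open Polynomial

set_option linter.unusedSectionVars false

namespace Pool.Agent.P.MP_68214b_ag.DP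

theorem pow_fix {G Y : Type} [Group G] [MulAction G Y] {s : G} {y : Y} {m : ℕ}
    (h : s ^ m • y = y) (k : ℕ) : s ^ (m * k) • y = y := by
  rw [pow_mul]; exact (MulAction.stabilizer G y).pow_mem h k

theorem pow_fix' {G Y : Type} [Group G] [MulAction G Y] {s : G} {y : Y} {m : ℕ}
    (h : s ^ m • y = y) (k : ℕ) : s ^ (m * k + 1) • y = s • y := by
  rw [pow_succ', mul_smul, pow_fix h]

theorem pow_agree {G Y : Type} [Group G] [MulAction G Y] {s r : G} {Z : Set Y}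
    (h : ∀ z ∈ Z, s • z ∈ Z) (e : ∀ z ∈ Z, r • z = s • z) (k : ℕ) :
    ∀ z ∈ Z, r ^ k • z = s ^ k • z := by
  induction k with
  | zero => simp
  | succ k ih => exact fun z hz => by rw [pow_succ, pow_succ, mul_smul, mul_smul, e z hz, ih _ (h z hz)]

theorem kw {G X : Type} [Group G] [MulAction G X] [Finite X] [MulAction.IsPretransitive G X]
    {N : Subgroup G} [N.Normal] {ι : G} (hι : ι ∈ N) (h0 : ∃ x : X, ι • x ≠ x)
    (h1 : {y : X | ι • y ≠ y}.ncard ≤ 2) (s : G) : ∃ h ∈ N, ∀ x : X, (s * h) • x ≠ x := by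
  obtain ⟨h, hh, m⟩ := InvImage.wf (fun h : G => {x : X | (s * h) • x = x}.ncard)
    wellFounded_lt |>.has_min N ⟨1, N.one_mem⟩
  refine ⟨h, hh, fun x e => ?_⟩
  obtain ⟨x0, h0⟩ := h0
  obtain ⟨t, rfl⟩ := MulAction.exists_smul_eq G x0 x
  refine m (h * (t * ι * t⁻¹)) (N.mul_mem hh (‹N.Normal›.conj_mem ι hι t))
    (Set.ncard_lt_ncard ⟨fun z hz => ?_, fun c => h0 ?_⟩)
  · obtain ⟨y, rfl⟩ := MulAction.surjective t z
    have hz : (s * h) • t • ι • y = t • y := by simpa [mul_smul] using hz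
    by_cases c : ι • y = y
    · rwa [c] at hz
    have c1 : ι • y ≠ x0 := fun a => c (by
      rw [a, e] at hz; rw [a]; exact MulAction.injective t hz)
    have c2 : y ≠ x0 := fun a => c1 (by
      rw [a, ← e] at hz; rw [a]; exact MulAction.injective t (MulAction.injective _ hz))
    exact (h1.not_gt ((Set.two_lt_ncard (Set.toFinite _)).2 ⟨_, h0, _, c, ι • y,
      fun a => c (MulAction.injective ι a), c2.symm, c1.symm, Ne.symm c⟩)).elim
  · have hz : (s * h) • t • ι • x0 = t • x0 := by simpa [mul_smul] using c e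
    rw [← e] at hz
    exact MulAction.injective t (MulAction.injective _ hz)

theorem seq {G Y T : Type} [Group G] [MulAction G Y] {S : Set T} (hS : S.Finite)
    (P : G → Set Y → Prop) (X : T → ℕ → Set Y)
    (step : ∀ τ ∈ S, ∀ s Z, P s Z → ∃ r k, (∀ z ∈ Z, r • z = s • z) ∧ (∀ y ∈ X τ k, r • y ≠ y) ∧
      P r (Z ∪ X τ k)) (s : G) (Z : Set Y) (h : P s Z) :
    ∃ r U, P r U ∧ Z ⊆ U ∧ (∀ z ∈ Z, r • z = s • z) ∧
      ∀ τ ∈ S, ∃ k, X τ k ⊆ U ∧ ∀ y ∈ X τ k, r • y ≠ y := by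
  induction S, hS using Set.Finite.induction_on with
  | empty => exact ⟨s, Z, h, subset_rfl, fun _ _ => rfl, by simp⟩
  | insert _ _ ih =>
    obtain ⟨r, U, h1, h2, h3, h4⟩ := ih fun τ hτ => step τ (Or.inr hτ)
    obtain ⟨r', k, e1, e2, e3⟩ := step _ (Or.inl rfl) r U h1
    refine ⟨r', _, e3, h2.trans Set.subset_union_left,
      fun z hz => (e1 z (h2 hz)).trans (h3 z hz), ?_⟩
    rintro τ (rfl | hτ)
    · exact ⟨k, Set.subset_union_right, e2⟩
    · obtain ⟨j, a, b⟩ := h4 τ hτ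
      exact ⟨j, a.trans Set.subset_union_left, fun y hy => e1 y (a hy) ▸ b y hy⟩

variable {E : Type} [Field E] [CharZero E] [IsAlgClosed E] [Algebra.IsAlgebraic ℚ E]
  {K : IntermediateField ℚ E}

theorem odd_part {Y : Set E} (hY : Y.Finite) (r : K.fixingSubgroup) {m : ℕ} (hm : Odd m) :
    ∃ k o, Odd o ∧ ∀ y ∈ Y, (r ^ (m * k + 1)) ^ o • y = y := by
  obtain ⟨M, h0, hM⟩ := exists_pow_fix hY r.1
  obtain ⟨a, o, ho, rfl⟩ := Nat.exists_eq_two_pow_mul_odd h0.ne'
  obtain ⟨k, hk⟩ := (Nat.modEq_iff_dvd' (Nat.one_le_iff_ne_zero.2 (by positivity))).1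
    (Nat.ModEq.pow_totient (Nat.Coprime.pow_left a (Nat.coprime_two_left.2 hm))).symm
  obtain ⟨c, hc⟩ := Nat.exists_eq_succ_of_ne_zero (Nat.totient_pos.2 hm.pos).ne'
  refine ⟨k, o, ho, fun y hy => ?_⟩
  have : 0 < (2 ^ a) ^ m.totient := by positivity
  rw [← pow_mul, show (m * k + 1) * o = 2 ^ a * o * (2 ^ a) ^ c by
    rw [← hk, Nat.sub_add_cancel this, hc, pow_succ]; ring]
  exact pow_fix (hM y hy) _

/-- the points of level k above the orbit of w -/
def Lv (K : IntermediateField ℚ E) (g : E[X]) (w : E) (k : ℕ) : Set E :=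
  {x | ∃ t : K.fixingSubgroup, it g k x = t • w}

/-- finite and stable -/
def St (K : IntermediateField ℚ E) (Z : Set E) : Prop :=
  Z.Finite ∧ ∀ t : K.fixingSubgroup, ∀ z ∈ Z, t • z ∈ Z

theorem St.union {Y Z : Set E} (h : St K Y) (h' : St K Z) : St K (Y ∪ Z) :=
  ⟨h.1.union h'.1, fun t z hz => hz.imp (h.2 t z) (h'.2 t z)⟩

theorem fix_mem (t : K.fixingSubgroup) {x : E} (hx : x ∈ K) : t • x = x := t.2 ⟨x, hx⟩

/-- the data of one component -/
structure Cmp (K : IntermediateField ℚ E) (g : E[X]) (γ w : E) (n : ℕ) : Prop where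
  good : Good g
  co : ∀ k, g.coeff k ∈ K
  cr : ∀ δ, Crit g δ → δ ∈ K
  crit : Crit g γ
  wand : Wand g γ
  lev : it g n w = γ
  es : ∀ k x y, it g n (it g k x) = γ → it g k x = it g k y → ∃ s ∈ K.fixingSubgroup, s x = y

namespace Cmp

variable {g : E[X]} {γ w : E} {n : ℕ} (h : Cmp K g γ w n)
include h

theorem sm (t : K.fixingSubgroup) (k : ℕ) (x : E) : it g k (t • x) = t • it g k x :=
  (smul_it t.1 (fun k => fix_mem t (h.co k)) k x).symm

theorem up {k : ℕ} {x : E} (hx : x ∈ Lv K g w k) : it g n (it g k x) = γ := by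
  obtain ⟨t, e⟩ := hx
  rw [e, h.sm, h.lev, fix_mem t (h.cr _ h.crit)]

theorem st (k : ℕ) : St K (Lv K g w k) :=
  ⟨(fin_pre h.good.1 h.good.2.1 (n + k) γ).subset fun _ hx => (it_add n k).trans (h.up hx),
    fun t _ ⟨u, e⟩ => ⟨t * u, by rw [h.sm, e, mul_smul]⟩⟩

theorem tr {k : ℕ} {x y : E} (hx : x ∈ Lv K g w k) (hy : y ∈ Lv K g w k) :
    ∃ t : K.fixingSubgroup, t • x = y := by
  obtain ⟨t, e⟩ := hx
  obtain ⟨u, e'⟩ := hy
  obtain ⟨s, hs, a⟩ := h.es k y ((u * t⁻¹) • x) (h.up ⟨u, e'⟩)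
    (by rw [h.sm, e, mul_smul, inv_smul_smul, e'])
  exact ⟨(⟨s, hs⟩ : K.fixingSubgroup)⁻¹ * (u * t⁻¹), by rw [mul_smul, inv_smul_eq_iff]; exact a.symm⟩

theorem two {k : ℕ} {x : E} (hx : x ∈ Lv K g w (k + 1)) : ∃ y, y ≠ x ∧ g.eval y = g.eval x :=
  fib_two (n := n + k) h.good.1 h.good.2.1 h.crit h.wand
    ((it_add n (k + 1)).trans (h.up hx))

theorem card {k : ℕ} {x : E} (hx : x ∈ Lv K g w (k + 1)) :
    {y | g.eval y = g.eval x}.ncard = g.natDegree := by
  refine fib_card h.good.1 h.good.2.1 fun y e hc => ?_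
  have hy : y ∈ Lv K g w (k + 1) := hx.imp fun t a => by rwa [it_succ, e]
  obtain ⟨z, n, e'⟩ := h.two hy
  obtain ⟨s, hs, a⟩ := h.es (k + 1) y z (h.up hy) (by rw [it_succ, it_succ, e'])
  exact n (a.symm.trans (fix_mem ⟨s, hs⟩ (h.cr y hc)))

theorem core [FiniteDimensional ℚ K] {Z : Set E} (hZ : St K Z) :
    ∃ (k l : ℕ) (A : ValuationSubring E) (ι : K.fixingSubgroup), Loc A g γ l ∧ n + (k + 1) ≤ l ∧
      (∀ z ∈ Z ∪ Lv K g w k, ι • z = z) ∧ (∃ x ∈ Lv K g w (k + 1), ι • x ≠ x) ∧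
      ∀ x ∈ Lv K g w (k + 1), ι • x ≠ x → Tw A g γ (n + (k + 1)) x := by
  obtain ⟨a, ha⟩ := exists_pre h.good.2.1 1 w
  obtain ⟨b, nb, hb⟩ := h.two (k := 0) ⟨1, ha⟩
  obtain ⟨c, hc⟩ := exists_pre h.good.2.1 1 a
  obtain ⟨d, hd⟩ := exists_pre h.good.2.1 1 b
  rw [it_one] at ha hc hd
  obtain ⟨c', nc, hc'⟩ := h.two (k := 1) (x := c) ⟨1, by rw [it_succ, hc]; exact ha⟩
  have he : ∀ i, it g 2 (![c, c', d] i) = w := fun i => by
    fin_cases i <;> simp [it_succ, *]
  have hi : Function.Injective ![c, c', d] := by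
    have : c ≠ d := fun e => nb (by rw [← hc, ← hd, e])
    have : c' ≠ d := fun e => nb (by rw [← hc, ← hd, ← hc', e])
    intro i j
    fin_cases i <;> fin_cases j <;> simp [*, Ne.symm]
  have hY := hZ.union (h.st 0)
  obtain ⟨B, hB⟩ := unit_big (hY.1.union (hY.1.image2 (· - ·) hY.1))
  obtain ⟨B', hB'⟩ := exists_loc h.good.1 h.good.2.1 h.crit h.wand
  obtain ⟨m, A, hl, hA, hp, H⟩ := kcA K h.good.1 h.good.2.1 h.co (h.cr _ h.crit) h.crit h.wand
    (n := n + 2) _ hi (fun i => by rw [it_add, he, h.lev]) (B + B')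
  have L := hB' A (hA.mono (by omega)) _ hl hp
  have U := hB A (hA.mono (by omega))
  obtain ⟨s, hs, h1, i, x, h2, h3⟩ := H (Z ∪ ⋃ j ≤ 2 + m, Lv K g w j)
    (hZ.1.union ((Set.finite_le_nat _).biUnion fun j _ => (h.st j).1))
  set ι : K.fixingSubgroup := ⟨s, hs⟩
  have f0 : ∀ z ∈ Z ∪ Lv K g w 0, ι • z = z := fun z hz => by
    by_contra e
    have := h1 z (hz.imp_right fun a => Set.mem_biUnion (Nat.zero_le _) a) (by
      rcases eq_or_ne z 0 with rfl | e
      exacts [by simp, (U z (Or.inl hz) e).le])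
    exact this.ne (U _ (Or.inr ⟨_, hY.2 ι z hz, z, hz, rfl⟩) (sub_ne_zero.2 e))
  have ex : ∃ x ∈ Lv K g w (2 + m), ι • x ≠ x := ⟨x, ⟨1, by rw [it_add, h2, he, one_smul]⟩, h3⟩
  classical
  have ex' : ∃ j, ∃ x ∈ Lv K g w j, ι • x ≠ x := ⟨_, ex⟩
  have le := Nat.find_min' ex' ex
  have sp := Nat.find_spec ex'
  have mn := fun j => Nat.find_min ex' (m := j)
  generalize Nat.find ex' = j at le sp mn
  obtain _ | k := j
  · obtain ⟨y, a, b⟩ := sp
    exact (b (f0 y (Or.inr a))).elim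
  have fk : ∀ z ∈ Lv K g w k, ι • z = z := fun z hz => by_contra fun e => mn k (by omega) ⟨z, hz, e⟩
  refine ⟨k, _, A, ι, L, by omega, fun z hz => hz.elim (fun a => f0 z (Or.inl a)) (fk z), sp,
    fun y hy e => ?_⟩
  have u := (it_add n (k + 1)).trans (h.up hy)
  exact ⟨u, _, e, (h.sm ι 1 y).trans (fk _ hy), h1 y (Or.inr (Set.mem_biUnion le hy))
    (L.ip.pre L.mon L.deg (by rw [u]; exact L.int _ L.crit))⟩

/-- a level as an invariant set -/
def sub (k : ℕ) : SubMulAction K.fixingSubgroup E :=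
  ⟨Lv K g w k, fun t _ hx => (h.st k).2 t _ hx⟩

theorem fin (k : ℕ) : Finite (h.sub k) := (h.st k).1.to_subtype

theorem ptr (k : ℕ) : MulAction.IsPretransitive K.fixingSubgroup (h.sub k) :=
  ⟨fun x y => (h.tr x.2 y.2).imp fun _ e => Subtype.ext e⟩

omit h in
theorem nor {Z : Set E} (hZ : St K Z) : (fixingSubgroup K.fixingSubgroup Z).Normal :=
  ⟨fun a ha t => (mem_fixingSubgroup_iff _).2 fun y hy => by
    rw [mul_smul, mul_smul, (mem_fixingSubgroup_iff _).1 ha _ (hZ.2 _ y hy), smul_inv_smul]⟩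

theorem free (hU : TyU g) (hζ : ∀ ζ, ζ ^ g.natDegree = 1 → ζ ∈ K) (t : K.fixingSubgroup)
    {x y : E} (e : g.eval x = g.eval y) (a' : t.1 x = x) : t.1 y = y := by
  obtain ⟨b, c, hg⟩ := hU
  have d2 := h.good.2.1
  have hb : b ∈ K := h.cr b (by
    rw [Crit, hg]; simp [derivative_pow, show g.natDegree - 1 ≠ 0 by omega])
  have e' : (x - b) ^ g.natDegree = (y - b) ^ g.natDegree := by
    rw [hg] at e; simpa using e
  by_cases e0 : x - b = 0
  · rw [e0, zero_pow (by omega), eq_comm, pow_eq_zero_iff (by omega), sub_eq_zero] at e'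
    exact e' ▸ fix_mem t hb
  · have z : t.1 _ = _ := fix_mem t (hζ ((y - b) / (x - b)) (by
      rw [div_pow, ← e', div_self (pow_ne_zero _ e0)]))
    rwa [map_div₀, map_sub, map_sub, a', show t.1 b = b from fix_mem t hb, div_left_inj' e0,
      sub_left_inj] at z

theorem fib (k : ℕ) (x : h.sub (k + 1)) :
    Nat.card {y : h.sub (k + 1) // g.eval y.1 = g.eval x.1} = g.natDegree :=
  (Nat.card_congr ⟨fun y => ⟨y.1.1, y.2⟩, fun y => ⟨⟨y.1, x.2.imp fun t a => by
    rwa [it_succ, y.2]⟩, y.2⟩, fun _ => rfl, fun _ => rfl⟩).trans (h.card x.2)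

theorem le_two {k l : ℕ} {A : ValuationSubring E} (L : Loc A g γ l) (hU : ¬ TyU g)
    {P : h.sub k → Prop} {m : ℕ} (tw : ∀ y, P y → Tw A g γ m y) (b : E) :
    {y : h.sub k | g.eval y.1 = b ∧ P y}.ncard ≤ 2 :=
  (Set.ncard_le_ncard_of_injOn Subtype.val (fun y a => by exact ⟨a.1, tw y a.2⟩)
    Subtype.val_injective.injOn ((fin_pre L.mon L.deg 1 b).subset fun _ a => a.1)).trans
    (loc_two L (fun δ a b => ((h.good.2.2 δ a b).2.resolve_left hU).1) b)

theorem kcU [FiniteDimensional ℚ K] (hU : TyU g ∨ g.natDegree ≠ 3)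
    (hζ : ∀ ζ, ζ ^ g.natDegree = 1 → ζ ∈ K) (s : K.fixingSubgroup) {Z : Set E} (hZ : St K Z) :
    ∃ (r : K.fixingSubgroup) (k : ℕ),
      (∀ z ∈ Z, r • z = s • z) ∧ (∀ y ∈ Lv K g w k, r • y ≠ y) ∧ St K (Z ∪ Lv K g w k) := by
  obtain ⟨k, l, A, ι, L, hl, h1, ⟨x, hx, h2⟩, h3⟩ := h.core hZ
  have := h.fin (k + 1)
  have := h.ptr (k + 1)
  have := nor (hZ.union (h.st k))
  have tw : ∀ y : h.sub (k + 1), ι • y ≠ y → Tw A g γ (n + (k + 1)) y :=
    fun y a => h3 _ y.2 fun e => a (Subtype.ext e)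
  have a1 : ∀ (t : K.fixingSubgroup) (x : h.sub (k + 1)), g.eval (t • x).1 = t • g.eval x.1 :=
    fun t x => h.sm t 1 x
  have a2 : ∀ t ∈ fixingSubgroup K.fixingSubgroup (Z ∪ Lv K g w k), ∀ x : h.sub (k + 1),
      g.eval (t • x).1 = g.eval x.1 :=
    fun t ht x => (a1 t x).trans ((mem_fixingSubgroup_iff _).1 ht _ (Or.inr x.2))
  have a3 := (mem_fixingSubgroup_iff _).2 h1
  have a4 : (⟨x, hx⟩ : h.sub (k + 1)) ∈ {y | ι • y ≠ y} := fun e => h2 congr($e.1)
  obtain ⟨u, hu, H⟩ : ∃ u ∈ fixingSubgroup K.fixingSubgroup (Z ∪ Lv K g w k),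
      ∀ x : h.sub (k + 1), (s * u) • x ≠ x := by
    by_cases c : TyU g
    · exact ku a1 a2 (fun t x y e a => Subtype.ext (h.free c hζ t e (congrArg Subtype.val a))) a3 ⟨_, a4⟩
        (fun x y a b => loc_U L c (by omega) hl (tw x a) (tw y b)) s
    rcases ((h.good.2.2 γ h.crit h.wand).2.resolve_left c).2 with e | e | e
    · exact (hU.resolve_left c e).elim
    · exact kg a1 a2 e (h.fib k) a3 ⟨_, a4⟩ (h.le_two L c tw) s
    · exact kw a3 ⟨_, a4⟩ ((Set.ncard_le_ncard fun y a => by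
        exact ⟨loc_W L e (by omega) hl (tw y a) (tw _ a4), a⟩).trans (h.le_two L c tw _)) s
  exact ⟨s * u, k + 1, fun z hz => by
    rw [mul_smul, (mem_fixingSubgroup_iff _).1 hu z (Or.inl hz)],
    fun y hy e => H ⟨y, hy⟩ (Subtype.ext e), hZ.union (h.st _)⟩

theorem kcC [FiniteDimensional ℚ K] (hU : ¬ (TyU g ∨ g.natDegree ≠ 3)) (s : K.fixingSubgroup)
    {Z : Set E} (hZ : St K Z ∧ ∃ m, Odd m ∧ ∀ z ∈ Z, s ^ m • z = z) :
    ∃ (r : K.fixingSubgroup) (k : ℕ),
      (∀ z ∈ Z, r • z = s • z) ∧ (∀ y ∈ Lv K g w k, r • y ≠ y) ∧ St K (Z ∪ Lv K g w k) ∧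
        ∃ m, Odd m ∧ ∀ z ∈ Z ∪ Lv K g w k, r ^ m • z = z := by
  obtain ⟨hZ, m, hm, hs⟩ := hZ
  obtain ⟨hU, hp⟩ := not_or.1 hU
  rw [not_not] at hp
  obtain ⟨k, l, A, ι, L, hl, h1, ⟨x, hx, h2⟩, h3⟩ := h.core hZ
  have := h.fin (k + 1)
  have := h.ptr (k + 1)
  have := nor (hZ.union (h.st k))
  have S1 := hZ.union (h.st (k + 1))
  obtain ⟨j, o, ho, e1⟩ := odd_part S1.1 s hm
  set s1 := s ^ (m * j + 1)
  have tw : ∀ y : h.sub (k + 1), ι • y ≠ y → Tw A g γ (n + (k + 1)) y :=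
    fun y a => h3 _ y.2 fun e => a (Subtype.ext e)
  obtain ⟨u, hu, H⟩ := kp3 (X := h.sub (k + 1)) (π := fun x => g.eval x.1)
    (fun t x => h.sm t 1 x) (N := fixingSubgroup _ (Z ∪ Lv K g w k))
    (fun t ht x => (h.sm t 1 x).trans ((mem_fixingSubgroup_iff _).1 ht _ (Or.inr x.2)))
    (fun x => (h.fib k x).trans hp) ((mem_fixingSubgroup_iff _).2 h1)
    ⟨⟨x, hx⟩, fun e => h2 congr($e.1)⟩ (h.le_two L hU tw)
    ((Set.ncard_le_ncard (by rintro _ ⟨y, a, rfl⟩; exact ⟨y, tw y a, rfl⟩)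
      (((fin_pre L.mon L.deg _ γ).subset fun _ a => a.1).image _)).trans
      (loc_three L (fun δ a b => ((h.good.2.2 δ a b).2.resolve_left hU).1) hp (by omega) hl))
    s1 ho (fun x => Subtype.ext (e1 x (Or.inr x.2)))
  obtain ⟨i, o', ho', e2⟩ := odd_part S1.1 (s1 * u) (ho.mul (by decide : Odd 3))
  have ag := pow_agree (r := s1 * u) ((hZ.union (h.st k)).2 s1) (fun z hz => by
    rw [mul_smul, (mem_fixingSubgroup_iff _).1 hu z hz]) (o * 3 * i + 1)
  refine ⟨_, k + 1, fun z hz => ?_, fun y hy e => ?_, S1, o', ho', e2⟩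
  · rw [ag z (Or.inl hz), mul_assoc, pow_fix' (e1 z (Or.inl hz)), pow_fix' (hs z hz)]
  · have a := ag (g.eval y) (Or.inr hy)
    rw [← it_one, ← h.sm, e, mul_assoc, pow_fix' (by rw [← h.sm, e1 y (Or.inr hy)])] at a
    obtain ⟨b, c⟩ := H ⟨y, hy⟩ a.symm
    rw [mul_comm o, mul_assoc, pow_fix' congr($c.1)] at e
    exact b (Subtype.ext e)

end Cmp

theorem kill (K : IntermediateField ℚ E) [FiniteDimensional ℚ K] {I : Type} [Finite I]
    (g : I → E[X]) {A : ValuationSubring E} (hg : ∀ i, Ok A (g i))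
    (hK : ∀ i k, (g i).coeff k ∈ K) (hc : ∀ i δ, Crit (g i) δ → δ ∈ K)
    (hζ : ∀ i ζ, ζ ^ (g i).natDegree = 1 → ζ ∈ K) :
    ∃ s ∈ K.fixingSubgroup, ∀ i γ, Crit (g i) γ → Wand (g i) γ →
      ∃ n, ∀ x, it (g i) n x = γ → s x ≠ x := by
  choose! n hn using fun i γ (c : Good (g i)) (a : Crit (g i) γ) (b : Wand (g i) γ) =>
    es K c.1 c.2.1 (hK i) (hc i γ a) a b (c.2.2 γ a b).1
  let S := {τ : I × E × E | Cmp K (g τ.1) τ.2.1 τ.2.2 (n τ.1 τ.2.1)}
  have hS : S.Finite := (Set.finite_iUnion fun i => (fin_crit (hg i).deg).biUnion fun γ _ =>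
    (fin_pre (hg i).mon (hg i).deg (n i γ) γ).image fun w => (i, γ, w)).subset fun τ a =>
      Set.mem_iUnion.2 ⟨τ.1, Set.mem_biUnion a.crit ⟨_, a.lev, rfl⟩⟩
  obtain ⟨s0, h0, n0, o, ho, H⟩ := tame_start K (I := {i // Tame A (g i)}) (fun i => g i)
    (fun i => i.2) (fun i => hK i) fun i => hc i
  obtain ⟨r, U, ⟨h1, -⟩, u1, u2, h2⟩ := seq (hS.sep fun τ => ¬ (TyU (g τ.1) ∨ (g τ.1).natDegree ≠ 3))
    (fun (s : K.fixingSubgroup) Z => St K Z ∧ ∃ m, Odd m ∧ ∀ z ∈ Z, s ^ m • z = z)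
    (fun τ => Lv K (g τ.1) τ.2.2) (fun τ a s Z b => Cmp.kcC a.1 a.2 s b) ⟨s0, h0⟩
    {x | ∃ i γ, Tame A (g i) ∧ Crit (g i) γ ∧ Wand (g i) γ ∧ it (g i) n0 x = γ}
    ⟨⟨(Set.finite_iUnion fun i => (fin_crit (hg i).deg).biUnion fun γ _ =>
      fin_pre (hg i).mon (hg i).deg n0 γ).subset fun x ⟨i, γ, _, a, _, e⟩ =>
        Set.mem_iUnion.2 ⟨i, Set.mem_biUnion a e⟩, fun t x ⟨i, γ, c, a, b, e⟩ => ⟨i, γ, c, a, b,
      (smul_it t.1 (fun k => fix_mem t (hK i k)) n0 x).symm.trans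
        (e ▸ fix_mem t (e ▸ hc i γ a))⟩⟩, o, ho,
      fun x ⟨i, γ, c, a, b, e⟩ => (H ⟨i, c⟩ γ a b x e).2⟩
  obtain ⟨s, U', -, -, h3, h4⟩ := seq (hS.sep fun τ => TyU (g τ.1) ∨ (g τ.1).natDegree ≠ 3)
    (fun (_ : K.fixingSubgroup) Z => St K Z) (fun τ => Lv K (g τ.1) τ.2.2)
    (fun τ a s Z b => Cmp.kcU a.1 a.2 (hζ _) s b) r U h1
  choose! k hk using show ∀ τ ∈ S, ∃ k, ∀ y ∈ Lv K (g τ.1) τ.2.2 k, s • y ≠ y from fun τ a => by
    by_cases e : TyU (g τ.1) ∨ (g τ.1).natDegree ≠ 3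
    · exact (h4 τ ⟨a, e⟩).imp fun _ b => b.2
    · exact (h2 τ ⟨a, e⟩).imp fun _ b y hy => by rw [h3 y (b.1 hy)]; exact b.2 y hy
  obtain ⟨M, hM⟩ := (hS.image k).bddAbove
  refine ⟨s, s.2, fun i γ a b => (hg i).elim (fun d => ⟨n i γ + M, fun x hx e => ?_⟩)
    fun d => ⟨n0, fun x hx e => (H ⟨i, d⟩ γ a b x hx).1 (((h3 x (u1 ⟨i, γ, d, a, b, hx⟩)).trans
      (u2 x ⟨i, γ, d, a, b, hx⟩)).symm.trans e)⟩⟩
  have c : (i, γ, it (g i) M x) ∈ S :=
    ⟨d, hK i, hc i, a, b, (it_add _ _).symm.trans hx, hn i γ d a b⟩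
  refine hk _ c (it (g i) (M - k (i, γ, it (g i) M x)) x) ⟨1, ?_⟩ ((Cmp.sm c s _ x).symm.trans ?_)
  · rw [← it_add, Nat.add_sub_cancel' (hM ⟨_, c, rfl⟩), one_smul]
  · rw [show s • x = x from e]

end Pool.Agent.P.MP_68214b_ag.DP
end

-- part Pool.Agent.P.MP_68214b_ag.DP9
section

/-! The good place. -/

open Polynomial

namespace Pool.Agent.P.MP_68214b_ag.DP

variable {E : Type} [Field E] [CharZero E] [IsAlgClosed E] [Algebra.IsAlgebraic ℚ E]

/-- the union of the cycles of the periodic critical points -/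
def dp9Cy {F : Type} [Field F] (g : F[X]) : Set F :=
  {c | ∃ γ, (Crit g γ ∧ ¬ Wand g γ) ∧ Per g γ ∧ ∃ j, it g j γ = c}

theorem dp9_orb {F : Type} [Field F] [CharZero F] {g : F[X]} (hd : 2 ≤ g.natDegree) :
    {z : F × F | Crit g z.1 ∧ ¬ Wand g z.1 ∧ ∃ j, it g j z.1 = z.2}.Finite := by
  have h0 : {γ | Crit g γ ∧ ¬ Wand g γ}.Finite := (fin_crit hd).subset fun _ h => h.1
  refine (h0.biUnion (t := fun γ => (fun c => (γ, c)) '' Set.range fun n => it g n γ)
    fun γ h => (Set.not_infinite.1 h.2).image _).subset ?_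
  rintro ⟨γ, c⟩ ⟨h1, h2, j, e⟩
  exact Set.mem_biUnion (x := γ) ⟨h1, h2⟩ ⟨c, ⟨j, e⟩, rfl⟩

theorem dp9_fin {F : Type} [Field F] [CharZero F] {g : F[X]} (hd : 2 ≤ g.natDegree) :
    (dp9Cy g).Finite :=
  ((dp9_orb hd).image Prod.snd).subset fun c ⟨γ, h, _, e⟩ => ⟨(γ, c), ⟨h.1, h.2, e⟩, rfl⟩

theorem dp9_it {F : Type} [Field F] {g : F[X]} {c : F} (h : c ∈ dp9Cy g) (k : ℕ) :
    it g k c ∈ dp9Cy g := by
  obtain ⟨γ, h1, h2, j, rfl⟩ := h
  exact ⟨γ, h1, h2, k + j, it_add _ _⟩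

theorem dp9_ne {F : Type} [Field F] {g : F[X]} {a c : F} (ha : Wand g a) (h : c ∈ dp9Cy g)
    (n : ℕ) : it g n a ≠ c := by
  obtain ⟨γ, -, ⟨k, hk, e⟩, j, rfl⟩ := h
  intro h
  have : it g (k + n) a = it g n a := by
    rw [it_add, h, ← it_add, add_comm, it_add, e]
  have := ha.inj this
  omega

theorem dp9_W0 {F : Type} [Field F] [CharZero F] [IsAlgClosed F] {g : F[X]} (hg : g.Monic ∧ 2 ≤ g.natDegree)
    (a : F) : {x | (∃ k, g.coeff k = x) ∨ Crit g x ∨ x ^ g.natDegree = 1 ∨ x = a ∨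
      it g 1 x ∈ dp9Cy g}.Finite := by
  have h1 : {x | ∃ k, g.coeff k = x}.Finite :=
    ((g.support.finite_toSet.image g.coeff).insert 0).subset (by
      rintro _ ⟨k, rfl⟩
      by_cases h : g.coeff k = 0
      exacts [Or.inl h, Or.inr ⟨k, by simpa using h, rfl⟩])
  have h2 : {x : F | x ^ g.natDegree = 1}.Finite := by
    simpa [it] using fin_pre (g := (X : F[X]) ^ g.natDegree) (monic_X_pow _)
      (by simpa using hg.2) 1 1
  have h3 : {x | it g 1 x ∈ dp9Cy g}.Finite :=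
    ((dp9_fin hg.2).biUnion fun c _ => fin_pre hg.1 hg.2 1 c).subset fun x hx =>
      Set.mem_biUnion hx rfl
  exact h1.union ((fin_crit hg.2).union (h2.union ((Set.finite_singleton a).union h3)))

theorem dp9_le {F : Type} [Field F] {A : ValuationSubring F} {z : F}
    (h : z ≠ 0 → A.valuation z = 1) :
    A.valuation z ≤ 1 := by
  by_cases e : z = 0
  exacts [by simp [e], (h e).le]

theorem dp9_eq {F : Type} [Field F] {A : ValuationSubring F} {x y : F}
    (h : x - y ≠ 0 → A.valuation (x - y) = 1)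
    (c : Cg A x y) : x = y := by
  by_contra n
  exact (h (sub_ne_zero.2 n)).not_lt c

theorem gp {I : Type} [Finite I] (g : I → E[X]) {A0 : ValuationSubring E}
    (hg : ∀ i, Ok A0 (g i)) (a : I → E) (B : ℕ) :
    ∃ A, Big B A ∧ ∀ i γ, Crit (g i) γ →
      (¬ Per (g i) γ → ∀ k, 0 < k → ¬ Cg A (it (g i) k γ) γ) ∧
      (Per (g i) γ → Wand (g i) (a i) → ∀ n, ¬ Cg A (it (g i) n (a i)) γ) := by
  classical
  have hm := fun i => (hg i).mon
  have hd := fun i => (hg i).deg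
  obtain ⟨W0, f0, c0, k0, z0, a0, t0⟩ : ∃ W0 : Set E, W0.Finite ∧ (∀ i k, (g i).coeff k ∈ W0) ∧
      (∀ i x, Crit (g i) x → x ∈ W0) ∧ (∀ i x, x ^ (g i).natDegree = 1 → x ∈ W0) ∧
      (∀ i, a i ∈ W0) ∧ ∀ i x, it (g i) 1 x ∈ dp9Cy (g i) → x ∈ W0 :=
    ⟨_, Set.finite_iUnion fun i => dp9_W0 ⟨hm i, hd i⟩ (a i),
      fun i k => Set.mem_iUnion.2 ⟨i, .inl ⟨k, rfl⟩⟩,
      fun i _ h => Set.mem_iUnion.2 ⟨i, .inr (.inl h)⟩,
      fun i _ h => Set.mem_iUnion.2 ⟨i, .inr (.inr (.inl h))⟩,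
      fun i => Set.mem_iUnion.2 ⟨i, .inr (.inr (.inr (.inl rfl)))⟩,
      fun i _ h => Set.mem_iUnion.2 ⟨i, .inr (.inr (.inr (.inr h)))⟩⟩
  obtain ⟨K, _, -, hK⟩ := exists_gal f0
  obtain ⟨s, hs, hn⟩ := kill K g hg (fun i k => hK _ (c0 i k)) (fun i x h => hK _ (k0 i x h))
    fun i x h => hK _ (z0 i x h)
  have s0 : ∀ x ∈ W0, s x = x := fun x hx =>
    (IntermediateField.mem_fixingSubgroup_iff K s).1 hs x (hK x hx)
  choose! n hn using hn
  obtain ⟨W1, f1, l1, t1⟩ : ∃ W1 : Set E, W1.Finite ∧ W0 ⊆ W1 ∧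
      ∀ i γ x, Crit (g i) γ → it (g i) (n i γ) x = γ → x ∈ W1 :=
    ⟨_, f0.union (Set.finite_iUnion fun i => (fin_crit (hd i)).biUnion fun γ _ =>
      fin_pre (hm i) (hd i) (n i γ) γ), Set.subset_union_left,
      fun i γ x h e => .inr (Set.mem_iUnion.2 ⟨i, Set.mem_biUnion (x := γ) h e⟩)⟩
  obtain ⟨B1, u1⟩ := unit_big (f1.union ((fin_conj f1).image2 (· - ·) f1))
  obtain ⟨A1, b1, r1⟩ := frob f1 s B1
  replace u1 := u1 A1 b1
  obtain ⟨p, -, hp⟩ := b1
  have i1 : ∀ x ∈ W1, A1.valuation x ≤ 1 := fun x hx => dp9_le (u1 x (.inl hx))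
  have d1 : ∀ (t : E ≃ₐ[ℚ] E), ∀ x ∈ W1, ∀ y ∈ W1, Cg A1 (t x) y → t x = y :=
    fun t x hx y hy => dp9_eq (u1 _ (.inr ⟨_, ⟨t, x, hx, rfl⟩, y, hy, rfl⟩))
  have P1 : ∀ i, IP A1 (g i) := fun i k => i1 _ (l1 (c0 i k))
  obtain ⟨W2, f2, l2, t2⟩ : ∃ W2 : Set E, W2.Finite ∧ W1 ⊆ W2 ∧
      ∀ i x, it (g i) p x ∈ W0 → x ∈ W2 :=
    ⟨_, f1.union (Set.finite_iUnion fun i => f0.biUnion fun τ _ => fin_pre (hm i) (hd i) p τ),
      Set.subset_union_left, fun i x h => .inr (Set.mem_iUnion.2 ⟨i, Set.mem_biUnion h rfl⟩)⟩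
  obtain ⟨L, _, _, hL⟩ := exists_gal f2
  obtain ⟨φ, hφ⟩ := frobex L hp
  have F1 : ∀ x ∈ W2, A1.valuation x ≤ 1 → φ x = x → Rt A1 x := fun x hx h e =>
    (rt_iff hp h).2 (by simpa only [e] using (hφ x (hL x hx) h).symm)
  have R1 : ∀ x ∈ W0, Rt A1 x := fun x hx => (r1 x (l1 hx)).1 (s0 x hx)
  have F2 : ∀ x ∈ W0, φ x = x := fun x hx => d1 φ x (l1 hx) x (l1 hx)
    ((hφ x (hL x (l2 (l1 hx))) (i1 x (l1 hx))).trans ((rt_iff hp (i1 x (l1 hx))).1 (R1 x hx)))
  obtain ⟨B3, u3⟩ := unit_big (Set.finite_iUnion fun i =>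
    ((dp9_orb (hd i)).image fun z => z.2 - z.1).union
      (((Set.finite_le_nat p).image fun m => it (g i) m (a i)).image2 (· - ·) (dp9_fin (hd i))))
  obtain ⟨A, b3, r3⟩ := frob f2 φ (max B B3)
  replace u3 := u3 A (b3.mono (le_max_right _ _))
  have R3 : ∀ x ∈ W0, Rt A x := fun x hx => (r3 x (l2 (l1 hx))).1 (F2 x hx)
  have P3 : ∀ i, IP A (g i) := fun i k => (R3 _ (c0 i k)).int
  refine ⟨A, b3.mono (le_max_left _ _), fun i γ hγ => ⟨fun np k hk hc => ?_, fun hp' wa m hc => ?_⟩⟩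
  · have rγ := R3 γ (k0 i γ hγ)
    by_cases w : Wand (g i) γ
    · have mul : ∀ j, Cg A (it (g i) (k * j) γ) γ := fun j => by
        induction j with
        | zero => exact Cg.refl A γ
        | succ j ih =>
          rw [mul_add, mul_one, add_comm, it_add]; exact (ih.it (P3 i) rγ.int k).trans hc
      have h := mul (n i γ)
      obtain ⟨e, he⟩ := Nat.exists_eq_add_of_le (Nat.le_mul_of_pos_left (n i γ) hk)
      rw [he, it_add] at h
      obtain ⟨x, ex, cx⟩ := near_pre (P3 i) (hm i) (hd i) rγ.int h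
      have x1 := t1 i γ x hγ ex
      exact hn i γ hγ w x ex ((r1 x x1).2 (F1 x (l2 x1) (i1 x x1) ((r3 x (l2 x1)).2
        ((rγ.it (fun k => R3 _ (c0 i k)) e).cg cx.symm))))
    · exact np ⟨k, hk, dp9_eq (u3 _ (Set.mem_iUnion.2
        ⟨i, .inl ⟨(γ, _), ⟨hγ, w, k, rfl⟩, rfl⟩⟩)) hc⟩
  · have ex : ∃ m, ∃ c ∈ dp9Cy (g i), Cg A (it (g i) m (a i)) c :=
      ⟨m, γ, ⟨γ, ⟨hγ, fun w => w.not_per hp'⟩, hp', 0, rfl⟩, hc⟩
    obtain ⟨c, hc1, hc2⟩ := Nat.find_spec ex
    have big : p < Nat.find ex := not_le.1 fun h => dp9_ne wa hc1 _ (dp9_eq (u3 _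
      (Set.mem_iUnion.2 ⟨i, .inr ⟨_, ⟨_, h, rfl⟩, c, hc1, rfl⟩⟩)) hc2)
    obtain ⟨e, he⟩ := Nat.exists_eq_add_of_lt big
    have mn := Nat.find_min ex (m := p + e) (by omega)
    rw [he, add_comm, it_add] at hc2
    obtain ⟨τ, eτ, cτ⟩ := near_pre (P3 i) (hm i) (hd i) (R3 c (t0 i c (dp9_it hc1 1))).int hc2
    have τ0 := t0 i τ (eτ ▸ hc1)
    have nτ : τ ∉ dp9Cy (g i) := fun h => mn ⟨τ, h, cτ⟩
    rw [it_add] at cτ
    obtain ⟨x, ex', cx⟩ := near_pre (P3 i) (hm i) (hd i) (R3 τ τ0).int cτ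
    have x2 := t2 i x (ex' ▸ τ0)
    have rx := F1 x x2 ((P1 i).pre (hm i) (hd i) (n := p) (ex' ▸ i1 τ (l1 τ0)))
      ((r3 x x2).2 (((R3 _ (a0 i)).it (fun k => R3 _ (c0 i k)) e).cg cx.symm))
    have ru := fun j => rx.it (fun k => R1 _ (c0 i k)) j
    obtain ⟨j, l, jl, lp, cg⟩ := pigeon hp _ ru
    have h := cg.it (P1 i) (ru l).int (p - j)
    obtain ⟨q, rfl⟩ := Nat.exists_eq_add_of_lt jl
    rw [← it_add, ← it_add, show p - j + j = p by omega,
      show p - j + (j + q + 1) = q + 1 + p by omega, it_add, ex', it_add] at h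
    have hq := dp9_it (eτ ▸ hc1 : it (g i) 1 τ ∈ dp9Cy (g i)) q
    have e1 : τ = it (g i) q (it (g i) 1 τ) := d1 1 τ (l1 τ0) _ (l1 (t0 i _ (dp9_it hq 1))) h
    exact nτ (by rwa [← e1] at hq)

end Pool.Agent.P.MP_68214b_ag.DP
end

-- part Pool.Agent.P.MP_68214b_ag.DP11
section

/-! Embedding the complex numbers into a p-adic field. -/

namespace Pool.Agent.P.MP_68214b_ag.DP

variable {E : Type} [Field E] [CharZero E] [IsAlgClosed E] [Algebra.IsAlgebraic ℚ E]

theorem dp11_root {K : Type} [NormedField K] [IsUltrametricDist K] {g : Polynomial K} {x : K}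
    (h1 : ‖g.leadingCoeff‖ = 1) (h2 : ∀ i < g.natDegree, ‖g.coeff i‖ ≤ 1) (h0 : g.eval x = 0) :
    ‖x‖ ≤ 1 := by
  by_contra hx
  push Not at hx
  rw [Polynomial.eval_eq_sum_range, Finset.sum_range_succ, add_eq_zero_iff_eq_neg] at h0
  have h3 : ‖∑ i ∈ Finset.range g.natDegree, x * (g.coeff i * x ^ i)‖ ≤ ‖x‖ ^ g.natDegree := by
    refine IsUltrametricDist.norm_sum_le_of_forall_le_of_nonneg (by positivity) fun i hi => ?_
    rw [Finset.mem_range] at hi
    rw [mul_left_comm, ← pow_succ', norm_mul, norm_pow]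
    exact (mul_le_of_le_one_left (by positivity) (h2 i hi)).trans (pow_le_pow_right₀ hx.le hi)
  rw [← Finset.mul_sum, h0, norm_mul, norm_neg, norm_mul, norm_pow, Polynomial.coeff_natDegree, h1,
    one_mul] at h3
  have h4 : 0 < ‖x‖ ^ g.natDegree := by positivity
  nlinarith

theorem dp11_jet {E T : Type} [Field E] (a : T → E) (q : MvPolynomial T E) :
    ∃ Z : Set E, Z.Finite ∧ ∀ (K : Type) [NormedField K] [IsUltrametricDist K] (ι : E →+* K)
      (w : T → K), (∀ z ∈ Z, ‖ι z‖ ≤ 1) → (∀ j, ‖w j - ι (a j)‖ < 1) →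
        ‖q.eval₂ ι w - ι (q.eval a)‖ < 1 ∧ ‖ι (q.eval a)‖ ≤ 1 := by
  induction q using MvPolynomial.induction_on with
  | C x => exact ⟨{x}, Set.finite_singleton x, fun K _ _ ι w h _ => by simpa using h⟩
  | add q r hq hr =>
    obtain ⟨Z, hZ, hq⟩ := hq
    obtain ⟨Z', hZ', hr⟩ := hr
    refine ⟨Z ∪ Z', hZ.union hZ', fun K _ _ ι w h hw => ?_⟩
    obtain ⟨h1, h2⟩ := hq K ι w (fun z hz => h z (Or.inl hz)) hw
    obtain ⟨h3, h4⟩ := hr K ι w (fun z hz => h z (Or.inr hz)) hw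
    rw [MvPolynomial.eval₂_add, map_add, map_add, add_sub_add_comm]
    exact ⟨(IsUltrametricDist.norm_add_le_max _ _).trans_lt (max_lt h1 h3),
      (IsUltrametricDist.norm_add_le_max _ _).trans (max_le h2 h4)⟩
  | mul_X q j hq =>
    obtain ⟨Z, hZ, hq⟩ := hq
    refine ⟨insert (a j) Z, hZ.insert _, fun K _ _ ι w h hw => ?_⟩
    obtain ⟨h1, h2⟩ := hq K ι w (fun z hz => h z (Or.inr hz)) hw
    have h3 := h _ (Or.inl rfl)
    have h4 : ‖w j‖ ≤ 1 := by
      rw [← sub_add_cancel (w j) (ι (a j))]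
      exact (IsUltrametricDist.norm_add_le_max _ _).trans (max_le (hw j).le h3)
    rw [MvPolynomial.eval₂_mul, MvPolynomial.eval₂_X, map_mul, MvPolynomial.eval_X, map_mul]
    refine ⟨?_, by rw [norm_mul]; exact mul_le_one₀ h2 (norm_nonneg _) h3⟩
    have h5 : q.eval₂ ι w * w j - ι (q.eval a) * ι (a j) =
        (q.eval₂ ι w - ι (q.eval a)) * w j + ι (q.eval a) * (w j - ι (a j)) := by ring
    rw [h5]
    refine (IsUltrametricDist.norm_add_le_max _ _).trans_lt (max_lt ?_ ?_) <;> rw [norm_mul]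
    · exact (mul_le_of_le_one_right (norm_nonneg _) h4).trans_lt h1
    · exact (mul_le_of_le_one_left (norm_nonneg _) h2).trans_lt (hw j)

open Cardinal in
omit [IsAlgClosed E] in
theorem dp11_w {T : Set ℂ} (a : T → E) (p : ℕ) [Fact p.Prime] [Algebra E (PadicAlgCl p)] :
    ∃ w : T → PadicAlgCl p, AlgebraicIndependent E w ∧ ∀ j, ‖w j - algebraMap E _ (a j)‖ < 1 := by
  obtain ⟨U, hU⟩ := exists_isTranscendenceBasis E (PadicAlgCl p)
  have h1 : 𝔠 ≤ Cardinal.mk (PadicAlgCl p) :=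
    (continuum_le_cardinal_of_nontriviallyNormedField ℚ_[p]).trans
    (mk_le_of_injective (algebraMap ℚ_[p] (PadicAlgCl p)).injective)
  have h2 : Cardinal.mk E ≤ ℵ₀ := by simpa using Algebra.IsAlgebraic.cardinalMk_le_max ℚ E
  have h3 := IsAlgClosed.cardinal_eq_cardinal_transcendence_basis_of_aleph0_lt' _ hU h2
    (aleph0_lt_continuum.trans_le h1)
  have h4 : Cardinal.mk T ≤ Cardinal.mk U := ((mk_set_le T).trans mk_complex.le).trans (h1.trans h3.le)
  obtain ⟨g⟩ := (Cardinal.le_def _ _).1 h4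
  have hp : ‖(p : PadicAlgCl p)‖ < 1 := by
    rw [← map_natCast (algebraMap ℚ_[p] (PadicAlgCl p)), norm_algebraMap']
    exact Padic.norm_p_lt_one
  have h5 : ∀ u : PadicAlgCl p, ∃ k : ℕ, ‖(p : PadicAlgCl p) ^ k * u‖ < 1 := fun u => by
    have h := (tendsto_pow_atTop_nhds_zero_of_lt_one (norm_nonneg _) hp).mul_const ‖u‖
    rw [zero_mul] at h
    obtain ⟨k, hk⟩ := (h.eventually (gt_mem_nhds zero_lt_one)).exists
    exact ⟨k, by rwa [norm_mul, norm_pow]⟩
  choose k hk using h5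
  have hp0 : ∀ n : ℕ, (p : E) ^ n ≠ 0 := fun n =>
    pow_ne_zero _ (Nat.cast_ne_zero.2 (Fact.out : p.Prime).ne_zero)
  refine ⟨_, (hU.1.comp g g.injective).polynomial_aeval_of_transcendental
    (f := fun j => Polynomial.C ((p : E) ^ k (g j)) * Polynomial.X + Polynomial.C (a j))
    fun j => Polynomial.transcendental _ ?_ ?_, fun j => ?_⟩
  · rw [Polynomial.natDegree_linear (hp0 _)]
    exact one_ne_zero
  · rw [Polynomial.leadingCoeff_linear (hp0 _)]
    exact mem_nonZeroDivisors_of_ne_zero (hp0 _)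
  · simpa using hk (g j)

theorem emb (κ : E →+* ℂ) {D : Set ℂ} (hD : D.Finite) : ∃ Z : Set E, Z.Finite ∧
    ∀ (p : ℕ) [Fact p.Prime] (ι : E →+* PadicAlgCl p), (∀ z ∈ Z, z ≠ 0 → ‖ι z‖ = 1) →
      ∃ ψ : ℂ →+* PadicAlgCl p, (∀ z, ψ (κ z) = ι z) ∧ ∀ d ∈ D, ‖ψ d‖ ≤ 1 := by
  classical
  let : Algebra E ℂ := κ.toAlgebra
  obtain ⟨T, hT⟩ := exists_isTranscendenceBasis E ℂ
  let e := hT.1.aevalEquiv
  have halg := hT.isAlgebraic
  choose f hf0 hf using halg.1
  obtain ⟨a, ha⟩ : ∃ a : T → E,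
      MvPolynomial.eval a (∏ d ∈ hD.toFinset, e.symm (f d).leadingCoeff) ≠ 0 := by
    by_contra h
    push Not at h
    refine Finset.prod_ne_zero_iff.2 (fun d _ => ?_)
      (MvPolynomial.funext fun a => (h a).trans (map_zero _).symm)
    exact (map_ne_zero_iff _ e.symm.injective).2 (Polynomial.leadingCoeff_ne_zero.2 (hf0 d))
  rw [map_prod, Finset.prod_ne_zero_iff] at ha
  choose Z hZ hq using dp11_jet a
  refine ⟨⋃ d ∈ D, insert (MvPolynomial.eval a (e.symm (f d).leadingCoeff))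
    (⋃ i ∈ Set.Iic (f d).natDegree, Z (e.symm ((f d).coeff i))),
    hD.biUnion fun d _ => ((Set.finite_Iic _).biUnion fun i _ => hZ _).insert _,
    fun p _ ι hι => ?_⟩
  let : Algebra E (PadicAlgCl p) := ι.toAlgebra
  obtain ⟨w, hw, hwa⟩ := dp11_w a p
  let θ := (MvPolynomial.aeval w).comp e.symm.toAlgHom
  have hθ : Function.Injective θ := fun x y h =>
    e.symm.injective (algebraicIndependent_iff_injective_aeval.1 hw h)
  let := θ.toRingHom.toAlgebra
  have := (Module.isTorsionFree_iff_algebraMap_injective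
    (R := Algebra.adjoin E (Set.range ((↑) : T → ℂ))) (A := PadicAlgCl p)).2 hθ
  let ψ : ℂ →ₐ[Algebra.adjoin E (Set.range ((↑) : T → ℂ))] PadicAlgCl p := IsAlgClosed.lift
  refine ⟨ψ, fun z => (ψ.commutes (algebraMap E _ z)).trans (θ.commutes z), fun d hd => ?_⟩
  have h1 : ∀ i ≤ (f d).natDegree, _ := fun i hi => hq (e.symm ((f d).coeff i)) _ ι w
    (fun z hz => by
      by_cases h0 : z = 0
      · simp [h0]
      · exact (hι z (Set.mem_biUnion hd (Or.inr (Set.mem_biUnion hi hz))) h0).le) hwa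
  have h2 : ∀ x, θ x = (e.symm x).eval₂ ι w := fun _ => rfl
  refine dp11_root (g := (f d).map θ.toRingHom) ?_ (fun i hi => ?_) ?_
  · have h3 := hι _ (Set.mem_biUnion hd (Or.inl rfl)) (ha d (hD.mem_toFinset.2 hd))
    rw [Polynomial.leadingCoeff_map_of_injective hθ]
    change ‖θ _‖ = 1
    rw [h2, ← sub_add_cancel (MvPolynomial.eval₂ ι w _)
      (ι (MvPolynomial.eval a (e.symm (f d).leadingCoeff))),
      IsUltrametricDist.norm_add_eq_max_of_norm_ne_norm (h3 ▸ (h1 _ le_rfl).1.ne), h3]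
    exact max_eq_right (h1 _ le_rfl).1.le
  · have h3 := h1 i (hi.le.trans Polynomial.natDegree_map_le)
    rw [Polynomial.coeff_map]
    change ‖θ _‖ ≤ 1
    rw [h2, ← sub_add_cancel (MvPolynomial.eval₂ ι w _)
      (ι (MvPolynomial.eval a (e.symm ((f d).coeff i))))]
    exact (IsUltrametricDist.norm_add_le_max _ _).trans (max_le h3.1.le h3.2)
  · have h3 := Polynomial.aeval_algHom_apply ψ d (f d)
    rw [hf, map_zero, Polynomial.aeval_def, Polynomial.eval₂_eq_eval_map] at h3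
    exact h3

end Pool.Agent.P.MP_68214b_ag.DP
end

-- part Pool.Agent.P.MP_68214b_ag.DP11b
section

/-! Embeddings close to a specialisation that avoids small sets. -/

open Polynomial

namespace Pool.Agent.P.MP_68214b_ag.DP

/-- finitely many points of bounded degree over every number field -/
def Nc {E : Type} [Field E] [CharZero E] (S : Set E) : Prop :=
  ∀ (F : IntermediateField ℚ E) [FiniteDimensional ℚ F] (n : ℕ), {r | r ∈ S ∧ ∃ q : E[X],
    q ≠ 0 ∧ q.natDegree ≤ n ∧ (∀ k, q.coeff k ∈ F) ∧ q.eval r = 0}.Finite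

theorem dp11b_min {R K : Type} [CommRing R] [IsDomain R] [Field K] [Algebra R K] {x : K}
    (hx : IsAlgebraic R x) :
    ∃ f : R[X], f ≠ 0 ∧ aeval x f = 0 ∧ ∀ r, algebraMap R K r ≠ x → f.eval r ≠ 0 := by
  classical
  have h : ∃ n, ∃ f : R[X], f ≠ 0 ∧ aeval x f = 0 ∧ f.natDegree = n :=
    let ⟨f, h1, h2⟩ := hx
    ⟨_, f, h1, h2, rfl⟩
  obtain ⟨f, h1, h2, h3⟩ := Nat.find_spec h
  refine ⟨f, h1, h2, fun r hr h4 => ?_⟩
  obtain ⟨g, rfl⟩ := dvd_iff_isRoot.2 h4
  have h5 : g ≠ 0 := right_ne_zero_of_mul h1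
  rw [map_mul, map_sub, aeval_X, aeval_C] at h2
  refine Nat.find_min h ?_ ⟨g, h5, (mul_eq_zero.1 h2).resolve_left (sub_ne_zero.2 hr.symm), rfl⟩
  rw [← h3, natDegree_mul (X_sub_C_ne_zero r) h5, natDegree_X_sub_C]
  omega

theorem dp11b_near {E K : Type} [Field E] [IsAlgClosed E] [NormedField K] [IsUltrametricDist K]
    (ι : E →+* K) {g : K[X]} {q : E[X]} {y : K} {n : ℕ} (hg : g.natDegree ≤ n)
    (hq : q.natDegree ≤ n) (hy : ‖y‖ ≤ 1) (h0 : g.eval y = 0)
    (hc : ∀ k ≤ n, ‖g.coeff k - ι (q.coeff k)‖ < 1) (hl : ‖ι q.leadingCoeff‖ = 1) :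
    ∃ r ∈ q.roots, ‖y - ι r‖ < 1 := by
  have h1 : ‖(g - q.map ι).eval y‖ < 1 := by
    rw [eval_eq_sum_range' (Nat.lt_succ_of_le
      ((natDegree_sub_le _ _).trans (max_le hg (natDegree_map_le.trans hq))))]
    obtain ⟨k, hk, h⟩ := IsUltrametricDist.exists_norm_finsetSum_le_of_nonempty
      (Finset.nonempty_range_add_one (n := n)) fun k => (g - q.map ι).coeff k * y ^ k
    refine h.trans_lt ?_
    rw [norm_mul, norm_pow, coeff_sub, coeff_map]
    exact (mul_le_of_le_one_right (norm_nonneg _) (pow_le_one₀ (norm_nonneg _) hy)).trans_lt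
      (hc k (Nat.lt_succ_iff.1 (Finset.mem_range.1 hk)))
  rw [eval_sub, h0, zero_sub, norm_neg, (IsAlgClosed.splits q).eq_prod_roots, Polynomial.map_mul,
    map_C, eval_mul, eval_C, norm_mul, hl, one_mul] at h1
  generalize q.roots = s at h1
  induction s using Multiset.induction_on with
  | empty => simp at h1
  | cons a s ih =>
    by_cases h : ‖y - ι a‖ < 1
    · exact ⟨a, Multiset.mem_cons_self _ _, h⟩
    · rw [Multiset.map_cons, Multiset.prod_cons, Polynomial.map_mul, eval_mul, norm_mul,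
        Polynomial.map_sub, map_X, map_C, eval_sub, eval_X, eval_C] at h1
      obtain ⟨r, hr, h2⟩ :=
        ih ((le_mul_of_one_le_left (norm_nonneg _) (not_lt.1 h)).trans_lt h1)
      exact ⟨r, Multiset.mem_cons_of_mem hr, h2⟩

variable {E : Type} [Field E] [CharZero E] [IsAlgClosed E] [Algebra.IsAlgebraic ℚ E]

theorem emb2 (κ : E →+* ℂ) {D : Set ℂ} (hD : D.Finite) {I : Type} [Finite I] (z : I → ℂ)
    (S : I → Set E) (hS : ∀ i, Nc (S i)) : ∃ (Z : Set E) (R : I → Set E), Z.Finite ∧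
      (∀ i, (R i).Finite ∧ ∀ r ∈ R i, κ r = z i ∨ r ∉ S i) ∧
      ∀ (p : ℕ) [Fact p.Prime] (ι : E →+* PadicAlgCl p), (∀ x ∈ Z, x ≠ 0 → ‖ι x‖ = 1) →
        ∃ ψ : ℂ →+* PadicAlgCl p, (∀ x, ψ (κ x) = ι x) ∧ (∀ d ∈ D, ‖ψ d‖ ≤ 1) ∧
          ∀ i, ∃ r ∈ R i, ‖ψ (z i) - ι r‖ < 1 := by
  classical
  let : Algebra E ℂ := κ.toAlgebra
  obtain ⟨T, hT⟩ := exists_isTranscendenceBasis E ℂ
  let e := hT.1.aevalEquiv
  have halg := hT.isAlgebraic
  choose f hf0 hf hm using fun x => dp11b_min (halg.1 x)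
  have hD' : (D ∪ Set.range z).Finite := hD.union (Set.finite_range z)
  obtain ⟨F, hF, -, hFm⟩ := exists_gal (Z := ⋃ i, ⋃ k ∈ Set.Iic (f (z i)).natDegree,
    ((e.symm ((f (z i)).coeff k)).coeffs : Set E))
    (Set.finite_iUnion fun i => (Set.finite_Iic _).biUnion fun k _ => Finset.finite_toSet _)
  have hU : (((fun d => (f d).leadingCoeff) '' (D ∪ Set.range z)) ∪
      ⋃ i, (fun r => (f (z i)).eval (algebraMap E _ r)) '' {r | (r ∈ S i ∧ ∃ q : E[X], q ≠ 0 ∧
        q.natDegree ≤ (f (z i)).natDegree ∧ (∀ k, q.coeff k ∈ F) ∧ q.eval r = 0) ∧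
          κ r ≠ z i}).Finite :=
    (hD'.image _).union (Set.finite_iUnion fun i =>
      ((hS i F _).subset fun r hr => hr.1).image _)
  obtain ⟨a, haZ, ha⟩ : ∃ a : T → E, (∀ j, a j ∈ F) ∧
      MvPolynomial.eval a (∏ x ∈ hU.toFinset, e.symm x) ≠ 0 := by
    by_contra h
    push Not at h
    refine Finset.prod_ne_zero_iff.2 (fun x hx => ?_)
      (MvPolynomial.funext_set (fun _ => Set.range (Nat.cast : ℕ → E))
        (fun _ => Set.infinite_range_of_injective Nat.cast_injective) fun a ha =>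
          (h a fun j => ?_).trans (map_zero _).symm)
    · refine (map_ne_zero_iff _ e.symm.injective).2 ?_
      rcases hU.mem_toFinset.1 hx with ⟨d, -, rfl⟩ | hx
      · exact Polynomial.leadingCoeff_ne_zero.2 (hf0 d)
      · obtain ⟨i, r, hr, rfl⟩ := Set.mem_iUnion.1 hx
        exact hm _ _ hr.2
    · obtain ⟨n, hn⟩ := ha j (Set.mem_univ _)
      exact hn ▸ natCast_mem F n
  rw [map_prod, Finset.prod_ne_zero_iff] at ha
  choose Z hZ hq using dp11_jet a
  let σ := (MvPolynomial.eval a).comp e.symm.toAlgHom.toRingHom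
  have hσ : ∀ r : E, σ (algebraMap E _ r) = r := fun r => by
    change MvPolynomial.eval a (e.symm (algebraMap E _ r)) = r
    rw [AlgEquiv.commutes, MvPolynomial.algebraMap_eq, MvPolynomial.eval_C]
  have hl : ∀ d ∈ D ∪ Set.range z, σ (f d).leadingCoeff ≠ 0 := fun d hd =>
    ha _ (hU.mem_toFinset.2 (Or.inl ⟨d, hd, rfl⟩))
  have hl' : ∀ i, ((f (z i)).map σ).leadingCoeff = σ (f (z i)).leadingCoeff := fun i =>
    leadingCoeff_map_of_leadingCoeff_ne_zero _ (hl _ (Or.inr ⟨i, rfl⟩))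
  refine ⟨⋃ d ∈ D ∪ Set.range z, insert (σ (f d).leadingCoeff)
    (⋃ i ∈ Set.Iic (f d).natDegree, Z (e.symm ((f d).coeff i))),
    fun i => {r | r ∈ ((f (z i)).map σ).roots},
    hD'.biUnion fun d _ => ((Set.finite_Iic _).biUnion fun i _ => hZ _).insert _,
    fun i => ⟨Multiset.finite_toSet _, fun r hr => ?_⟩, fun p _ ι hι => ?_⟩
  · by_contra h
    push Not at h
    obtain ⟨h1, h2⟩ := mem_roots'.1 hr
    refine ha _ (hU.mem_toFinset.2 (Or.inr (Set.mem_iUnion.2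
      ⟨i, r, ⟨⟨h.2, _, h1, natDegree_map_le, fun k => ?_, h2⟩, h.1⟩, rfl⟩))) ?_
    · by_cases hk : k ≤ (f (z i)).natDegree
      · rw [coeff_map]
        exact MvPolynomial.eval_mem (fun m hm => hFm _ (Set.mem_iUnion.2 ⟨i, Set.mem_biUnion hk
          (MvPolynomial.coeff_mem_coeffs m (MvPolynomial.mem_support_iff.1 hm))⟩)) haZ
      · rw [coeff_map, coeff_eq_zero_of_natDegree_lt (not_le.1 hk), map_zero]
        exact zero_mem F
    · change σ _ = 0
      rw [← eval_map_apply, hσ]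
      exact h2
  let : Algebra E (PadicAlgCl p) := ι.toAlgebra
  obtain ⟨w, hw, hwa⟩ := dp11_w a p
  let θ := (MvPolynomial.aeval w).comp e.symm.toAlgHom
  have hθ : Function.Injective θ := fun x y h =>
    e.symm.injective (algebraicIndependent_iff_injective_aeval.1 hw h)
  let := θ.toRingHom.toAlgebra
  have := (Module.isTorsionFree_iff_algebraMap_injective
    (R := Algebra.adjoin E (Set.range ((↑) : T → ℂ))) (A := PadicAlgCl p)).2 hθ
  let ψ : ℂ →ₐ[Algebra.adjoin E (Set.range ((↑) : T → ℂ))] PadicAlgCl p := IsAlgClosed.lift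
  have h1 : ∀ d ∈ D ∪ Set.range z, ∀ i ≤ (f d).natDegree,
      ‖θ ((f d).coeff i) - ι (σ ((f d).coeff i))‖ < 1 ∧ ‖ι (σ ((f d).coeff i))‖ ≤ 1 :=
    fun d hd i hi => hq (e.symm ((f d).coeff i)) _ ι w (fun z hz => by
      by_cases h0 : z = 0
      · simp [h0]
      · exact (hι z (Set.mem_biUnion hd (Or.inr (Set.mem_biUnion hi hz))) h0).le) hwa
  have h3 : ∀ d ∈ D ∪ Set.range z, ‖ι (σ (f d).leadingCoeff)‖ = 1 := fun d hd =>
    hι _ (Set.mem_biUnion hd (Or.inl rfl)) (hl d hd)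
  have h4 : ∀ d, ((f d).map θ.toRingHom).eval (ψ d) = 0 := fun d => by
    have h3 := Polynomial.aeval_algHom_apply ψ d (f d)
    rw [hf, map_zero, Polynomial.aeval_def, Polynomial.eval₂_eq_eval_map] at h3
    exact h3
  have h5 : ∀ d ∈ D ∪ Set.range z, ‖ψ d‖ ≤ 1 := fun d hd => by
    refine dp11_root (g := (f d).map θ.toRingHom) ?_ (fun i hi => ?_) (h4 d)
    · have h6 : ‖θ (f d).leadingCoeff - ι (σ (f d).leadingCoeff)‖ < 1 := (h1 d hd _ le_rfl).1
      rw [Polynomial.leadingCoeff_map_of_injective hθ]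
      change ‖θ _‖ = 1
      rw [← sub_add_cancel (θ _) (ι (σ (f d).leadingCoeff)),
        IsUltrametricDist.norm_add_eq_max_of_norm_ne_norm (h3 d hd ▸ h6.ne), h3 d hd]
      exact max_eq_right h6.le
    · have h6 := h1 d hd i (hi.le.trans Polynomial.natDegree_map_le)
      rw [Polynomial.coeff_map]
      change ‖θ _‖ ≤ 1
      rw [← sub_add_cancel (θ _) (ι (σ ((f d).coeff i)))]
      exact (IsUltrametricDist.norm_add_le_max _ _).trans (max_le h6.1.le h6.2)
  refine ⟨ψ, fun z => (ψ.commutes (algebraMap E _ z)).trans (θ.commutes z),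
    fun d hd => h5 d (Or.inl hd), fun i => ?_⟩
  refine dp11b_near ι natDegree_map_le natDegree_map_le (h5 _ (Or.inr ⟨i, rfl⟩)) (h4 _)
    (fun k hk => ?_) (hl' i ▸ h3 _ (Or.inr ⟨i, rfl⟩))
  rw [coeff_map, coeff_map]
  exact (h1 _ (Or.inr ⟨i, rfl⟩) k hk).1

end Pool.Agent.P.MP_68214b_ag.DP
end

-- part Pool.Agent.P.MP_68214b_ag.DP11c
section

/-! Preperiodic points of bounded degree. -/

open Polynomial

namespace Pool.Agent.P.MP_68214b_ag.DP

theorem dp11c_esc {E Γ : Type} [Field E] [Preorder Γ] {g : E[X]} (f : E → Γ) (c : Γ)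
    (h : ∀ x, c < f x → f x < f (g.eval x)) {r : E} (hr : c < f r) : Wand g r := by
  have h1 : ∀ n, c < f (it g n r) := fun n => by
    induction n with
    | zero => exact hr
    | succ n ih => rw [it_succ']; exact ih.trans (h _ ih)
  have h2 : StrictMono fun n => f (it g n r) := strictMono_nat_of_lt_succ fun n => by
    rw [it_succ']; exact h _ (h1 n)
  exact Set.infinite_range_of_injective fun a b e => by
    rcases lt_trichotomy a b with h3 | h3 | h3
    · exact absurd (congrArg f e) (h2 h3).ne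
    · exact h3
    · exact absurd (congrArg f e) (h2 h3).ne'

theorem dp11c_eval {E : Type} [Field E] {g : E[X]} (hm : g.Monic) (x : E) :
    g.eval x = x ^ g.natDegree + ∑ i ∈ Finset.range g.natDegree, g.coeff i * x ^ i := by
  rw [eval_eq_sum_range, Finset.sum_range_succ_comm, hm.coeff_natDegree, one_mul]

theorem dp11c_int {E : Type} [Field E] {x : E} (h : ∀ A : ValuationSubring E, x ∈ A) :
    IsIntegral ℤ x := by
  have h1 : x ∈ (integralClosure (Subring.closure (∅ : Set E)) E).toSubring := by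
    rw [← iInf_valuationSubring_superset, Subring.mem_iInf]
    exact fun V => h V.1
  have : Algebra.IsIntegral ℤ (Subring.closure (∅ : Set E)) := ⟨fun y => by
    obtain ⟨n, hn⟩ := Subring.mem_bot.1 ((Subring.closure_empty (R := E)).le y.2)
    have e : y = algebraMap ℤ _ n := Subtype.ext (by simpa using hn.symm)
    rw [e]
    exact isIntegral_algebraMap⟩
  exact isIntegral_trans (A := Subring.closure (∅ : Set E)) x h1

theorem dp11c_mem {E : Type} [Field E] {x : E} (h : IsIntegral ℤ x) (A : ValuationSubring E) :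
    A.valuation x ≤ 1 := by
  have h1 : IsIntegral A x := h.tower_top
  obtain ⟨y, rfl⟩ := IsIntegrallyClosed.isIntegral_iff.1 h1
  exact A.valuation_le_one y

theorem dp11c_val {E : Type} [Field E] {g : E[X]} (hm : g.Monic) (hd : 2 ≤ g.natDegree) {M : ℤ}
    (hM : (M : E) ≠ 0) (hi : ∀ k < g.natDegree, IsIntegral ℤ ((M : E) * g.coeff k)) {r : E}
    (hr : ¬ Wand g r) : IsIntegral ℤ ((M : E) * r) := by
  refine dp11c_int fun A => ?_
  rw [← A.valuation_le_one_iff]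
  by_contra hc
  refine hr (dp11c_esc (fun x => A.valuation ((M : E) * x)) 1 (fun x hx => ?_) (not_le.1 hc))
  have h0 : 0 < A.valuation (M : E) := (Valuation.pos_iff _).2 hM
  simp only [map_mul] at hx ⊢
  have h1 : 1 < A.valuation x := hx.trans_le (mul_le_of_le_one_left' (v_int A M))
  have h2 : A.valuation (∑ i ∈ Finset.range g.natDegree, g.coeff i * x ^ i) <
      A.valuation (x ^ g.natDegree) := by
    rw [map_pow]
    refine A.valuation.map_sum_lt' (pow_pos (zero_lt_one.trans h1) _) fun i hi' => ?_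
    have h3 := (dp11c_mem (hi i (Finset.mem_range.1 hi')) A).trans_lt hx
    rw [map_mul] at h3
    rw [map_mul, map_pow]
    calc _ < A.valuation x * A.valuation x ^ i :=
          mul_lt_mul_of_pos_right (lt_of_mul_lt_mul_left h3 h0.le) (pow_pos (zero_lt_one.trans h1) _)
      _ ≤ _ := by
          rw [← pow_succ']
          exact pow_le_pow_right₀ h1.le (Finset.mem_range.1 hi')
  rw [dp11c_eval hm, A.valuation.map_add_eq_of_lt_left h2, map_pow]
  exact mul_lt_mul_of_pos_left (lt_self_pow₀ h1 hd) h0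

theorem dp11c_norm {E : Type} [Field E] {g : E[X]} (hm : g.Monic) (hd : 2 ≤ g.natDegree)
    (τ : E →+* ℂ) {B : ℝ} (hB0 : 0 ≤ B) (hB : ∀ k < g.natDegree, ‖τ (g.coeff k)‖ ≤ B) {r : E}
    (hr : ¬ Wand g r) : ‖τ r‖ ≤ g.natDegree * B + 1 := by
  by_contra hc
  refine hr (dp11c_esc (fun x => ‖τ x‖) (g.natDegree * B + 1) (fun x hx => ?_) (not_le.1 hc))
  obtain ⟨e, he⟩ : ∃ e, g.natDegree = e + 1 := ⟨g.natDegree - 1, by omega⟩
  have hdB : (0 : ℝ) ≤ g.natDegree * B := by positivity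
  have h1 : 1 ≤ ‖τ x‖ := by linarith
  have h2 : ‖∑ i ∈ Finset.range g.natDegree, τ (g.coeff i) * τ x ^ i‖ ≤
      g.natDegree * B * ‖τ x‖ ^ e := by
    refine (norm_sum_le_of_le _ (n := fun _ => B * ‖τ x‖ ^ e) fun i hi => ?_).trans (by
      simp [mul_assoc])
    rw [norm_mul, norm_pow]
    have := Finset.mem_range.1 hi
    exact mul_le_mul (hB i this) (pow_le_pow_right₀ h1 (by omega)) (by positivity) hB0
  have h3 : ‖τ x‖ ≤ ‖τ x‖ ^ e := le_self_pow₀ h1 (by omega)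
  have h4 := norm_sub_norm_le (τ x ^ g.natDegree)
    (-∑ i ∈ Finset.range g.natDegree, τ (g.coeff i) * τ x ^ i)
  rw [sub_neg_eq_add, norm_neg, norm_pow] at h4
  simp only [dp11c_eval hm, map_add, map_sum, map_mul, map_pow]
  have h5 : ‖τ x‖ ^ g.natDegree = ‖τ x‖ * ‖τ x‖ ^ e := by rw [he, pow_succ']
  nlinarith

variable {E : Type} [Field E] [CharZero E] [IsAlgClosed E] [Algebra.IsAlgebraic ℚ E]

omit [IsAlgClosed E] in
theorem dp11c_deg (F : IntermediateField ℚ E) [FiniteDimensional ℚ F] {n : ℕ} {r : E} {q : E[X]}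
    (h0 : q ≠ 0) (hn : q.natDegree ≤ n) (hF : ∀ k, q.coeff k ∈ F) (hq : q.eval r = 0) (M : ℤ) :
    (minpoly ℚ ((M : E) * r)).natDegree ≤ Module.finrank ℚ F * n := by
  obtain ⟨q', rfl, hq'⟩ := exists_natDegree_eq_of_mem_lifts (f := algebraMap F E)
    ((lifts_iff_coeff_lifts q).2 fun k => ⟨⟨_, hF k⟩, rfl⟩)
  have hi : IsIntegral F r := (Algebra.IsIntegral.isIntegral (R := ℚ) r).tower_top
  have h1 : (minpoly F r).natDegree ≤ n :=
    (natDegree_le_natDegree (minpoly.degree_le_of_ne_zero F r (p := q')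
      (fun e => h0 (by rw [e, Polynomial.map_zero])) (by rwa [eval_map_algebraMap] at hq))).trans
      (hq'.trans_le hn)
  have := IntermediateField.adjoin.finiteDimensional hi
  have := Module.Finite.trans (R := ℚ) F (IntermediateField.adjoin F {r})
  let y : IntermediateField.adjoin F {r} :=
    (M : IntermediateField.adjoin F {r}) * ⟨r, IntermediateField.mem_adjoin_simple_self F r⟩
  have e : (M : E) * r = algebraMap (IntermediateField.adjoin F {r}) E y := by simp [y]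
  rw [e, minpoly.algebraMap_eq (algebraMap (IntermediateField.adjoin F {r}) E).injective]
  refine (minpoly.natDegree_le y).trans ?_
  rw [← Module.finrank_mul_finrank ℚ F, IntermediateField.adjoin.finrank hi]
  exact Nat.mul_le_mul_left _ h1

theorem north {g : E[X]} (hm : g.Monic) (hd : 2 ≤ g.natDegree) : Nc {r | ¬ Wand g r} := by
  classical
  intro F _ n
  have : Algebra.IsAlgebraic ℤ E := (IsFractionRing.comap_isAlgebraic_iff (K := ℚ)).2 inferInstance
  obtain ⟨M, hM, hi⟩ := Algebra.IsAlgebraic.exists_integral_multiples ℤ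
    ((Finset.range g.natDegree).image g.coeff)
  have hM' : (M : E) ≠ 0 := Int.cast_ne_zero.2 hM
  obtain ⟨B0, hB0⟩ := (((Set.finite_lt_nat g.natDegree).biUnion fun k _ =>
    rootSet_finite (minpoly ℚ (g.coeff k)) ℂ).image norm).bddAbove
  have hB : ∀ (τ : E →ₐ[ℚ] ℂ), ∀ k < g.natDegree, ‖τ (g.coeff k)‖ ≤ max B0 0 := fun τ k hk =>
    (hB0 ⟨_, Set.mem_biUnion hk
      ((Algebra.IsAlgebraic.range_eval_eq_rootSet_minpoly ℂ (g.coeff k)).subset ⟨τ, rfl⟩),
      rfl⟩).trans (le_max_left _ _)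
  set D := Module.finrank ℚ F * n
  set B : ℝ := ‖(M : ℂ)‖ * (g.natDegree * max B0 0 + 1)
  let C := Nat.ceil (max B 1 ^ D * D.choose (D / 2))
  have hfin := bUnion_roots_finite (algebraMap ℤ E) D (Set.finite_Icc (-C : ℤ) C)
  refine (hfin.preimage (mul_right_injective₀ hM').injOn).subset ?_
  rintro r ⟨hr, q, h0, hn, hF, hq⟩
  have hx := dp11c_val hm hd hM' (fun k hk => by
    simpa using hi _ (Finset.mem_image_of_mem _ (Finset.mem_range.2 hk))) hr
  have hdeg := dp11c_deg F h0 hn hF hq M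
  have hmap := minpoly.isIntegrallyClosed_eq_field_fractions' ℚ hx
  simp_rw [Set.mem_preimage, Set.mem_iUnion]
  refine ⟨_, ⟨?_, fun i => ?_⟩, mem_rootSet.2 ⟨minpoly.ne_zero hx, minpoly.aeval ℤ _⟩⟩
  · rwa [← (minpoly.monic hx).natDegree_map (algebraMap ℤ ℚ), ← hmap]
  rw [Set.mem_Icc, ← abs_le, ← @Int.cast_le ℝ]
  have h1 := coeff_bdd_of_roots_le (B := B) (algebraMap ℚ ℂ)
    (minpoly.monic (hx.tower_top (A := ℚ))) (IsAlgClosed.splits _) hdeg (fun z hz => by
      rw [← Multiset.mem_toFinset] at hz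
      obtain ⟨τ, rfl⟩ :=
        (Algebra.IsAlgebraic.range_eval_eq_rootSet_minpoly ℂ ((M : E) * r)).symm.subset hz
      simp only [map_mul, map_intCast, norm_mul]
      exact mul_le_mul_of_nonneg_left
        (dp11c_norm hm hd (τ : E →+* ℂ) (le_max_right _ _) (hB τ) hr) (norm_nonneg _)) i
  refine (Eq.trans_le ?_ h1).trans (Nat.le_ceil _)
  rw [coeff_map, norm_algebraMap', hmap, coeff_map, eq_intCast, Int.norm_cast_rat, Int.norm_eq_abs,
    Int.cast_abs]

end Pool.Agent.P.MP_68214b_ag.DP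
end

-- part Pool.Agent.P.MP_68214b_ag.DP12
section

/-! A good p-adic embedding of the complex numbers. -/

open Polynomial Filter

namespace Pool.Agent.P.MP_68214b_ag.DP

section Map

variable {E F : Type} [Field E] [Field F] (κ : E →+* F) {g : E[X]} {x : E}

theorem it_map (n : ℕ) : it (g.map κ) n (κ x) = κ (it g n x) := by
  induction n with
  | zero => rfl
  | succ n ih => rw [it_succ', it_succ', ih, eval_map_apply]

theorem crit_map : Crit (g.map κ) (κ x) ↔ Crit g x := by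
  rw [Crit, derivative_map, eval_map_apply, map_eq_zero, Crit]

theorem wand_map : Wand (g.map κ) (κ x) ↔ Wand g x := by
  simp only [Wand, it_map]
  rw [← Set.infinite_image_iff κ.injective.injOn, ← Set.range_comp]; rfl

theorem crit_range [IsAlgClosed E] [CharZero E] (hd : 2 ≤ g.natDegree) {y : F}
    (h : Crit (g.map κ) y) : ∃ x, κ x = y :=
  (IsAlgClosed.splits g.derivative).mem_range_of_isRoot
    (fun e => by have := derivative_eq_zero.1 e; omega) (by rwa [← derivative_map])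

theorem cg_comap {A : ValuationSubring F} {x y : E} :
    Cg (A.comap κ) x y ↔ Cg A (κ x) (κ y) := by rw [Cg, comap_lt, map_sub, Cg]

theorem good_map [IsAlgClosed E] [CharZero E] (h : Good (g.map κ)) : Good g := by
  obtain ⟨h1, h2, h3⟩ := h
  rw [natDegree_map] at h2
  refine ⟨monic_map_iff.1 h1, h2, fun γ a b => ?_⟩
  obtain ⟨⟨A, p, hp, h4, h5⟩, h6⟩ := h3 _ ((crit_map κ).2 a) ((wand_map κ).2 b)
  simp only [TyU, TyC, natDegree_map, coeff_map, IP, derivative_map, eval_map_apply] at h4 h6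
  refine ⟨⟨A.comap κ, p, ⟨hp.1, (comap_lt A κ _).2 (by rw [map_natCast]; exact hp.2)⟩,
    fun k => (comap_le A κ _).2 (h4 k), h5.imp (by rw [← not_le, ← not_le, comap_le]; exact id)
      fun e j x c d => ?_⟩, h6.imp ?_ ?_⟩
  · rw [cg_comap, ← it_map] at d ⊢
    exact e j _ ((comap_le A κ _).1 c) (by rwa [eval_map_apply])
  · rintro ⟨b, c, e⟩
    obtain ⟨b, rfl⟩ := crit_range κ h2 (y := b) (by
      rw [Crit, e]; simp [derivative_pow, show g.natDegree - 1 ≠ 0 by omega])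
    have := congrArg (eval (κ b)) e
    rw [eval_map_apply] at this
    refine ⟨b, g.eval b, map_injective κ κ.injective ?_⟩
    simp [e, this, show g.natDegree ≠ 0 by omega]
  · exact fun ⟨⟨e3, e4⟩, e5⟩ => ⟨⟨fun e => e3 (by rw [e, map_zero]), fun δ c e =>
      κ.injective (e4 _ ((crit_map κ).2 c) (by rw [eval_map_apply, e]))⟩, e5.imp_right
      (Or.imp_right fun e δ c d => κ.injective (e _ ((crit_map κ).2 c) ((wand_map κ).2 d)))⟩

theorem ok_map [IsAlgClosed E] [CharZero E] {A : ValuationSubring F} (h : Ok A (g.map κ)) :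
    Ok (A.comap κ) g := by
  refine h.imp (good_map κ) fun ⟨h1, h2, h3, h4⟩ => ?_
  simp only [natDegree_map, coeff_map] at h2 h3 h4
  refine ⟨monic_map_iff.1 h1, le_antisymm (v_nat _ _) (not_lt.1 fun e => ?_),
    fun k hk => (comap_lt A κ _).2 (h3 k hk), h4⟩
  rw [comap_lt, map_natCast, h2] at e
  exact e.false

theorem it_mem [CharZero E] {K : IntermediateField ℚ E} (hK : ∀ k, g.coeff k ∈ K) (hx : x ∈ K)
    (n : ℕ) : it g n x ∈ K := by
  induction n with
  | zero => exact hx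
  | succ n ih =>
    rw [it_succ', eval_eq_sum_range]
    exact sum_mem fun k _ => mul_mem (hK k) (pow_mem ih k)

theorem fin_coeff (g : E[X]) : (Set.range g.coeff).Finite :=
  (g.coeffs.finite_toSet.insert 0).subset (by
    rintro _ ⟨k, rfl⟩
    exact (eq_or_ne _ _).imp_right coeff_mem_coeffs)

theorem exists_pl {p : ℕ} [Fact p.Prime] (ψ : F →+* PadicAlgCl p) : ∃ A : ValuationSubring F,
    ∀ x, (A.valuation x ≤ 1 ↔ ‖ψ x‖ ≤ 1) ∧ (A.valuation x < 1 ↔ ‖ψ x‖ < 1) := by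
  have e := (Valued.v : Valuation (PadicAlgCl p) NNReal).isEquiv_valuation_valuationSubring
  exact ⟨_, fun x => ⟨(comap_le _ ψ x).trans e.le_one_iff_le_one.symm,
    (comap_lt _ ψ x).trans e.lt_one_iff_lt_one.symm⟩⟩

end Map

theorem exists_cl : ∃ (E : Type) (_ : Field E) (_ : CharZero E) (_ : IsAlgClosed E)
    (_ : Algebra.IsAlgebraic ℚ E) (κ : E →+* ℂ), ∀ x : ℂ, IsAlgebraic ℚ x → ∃ y, κ y = x :=
  ⟨algebraicClosure ℚ ℂ, inferInstance, inferInstance,
    (algebraicClosure.isAlgClosure ℚ ℂ).isAlgClosed, algebraicClosure.isAlgebraic ℚ ℂ,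
    algebraMap _ ℂ, fun x hx => ⟨⟨x, mem_algebraicClosure_iff.2 hx⟩, rfl⟩⟩

theorem good_emb {I : Type} [Finite I] (g : I → ℂ[X]) {A0 : ValuationSubring ℂ}
    (hg : ∀ i, Ok A0 (g i)) (ha : ∀ i k, IsAlgebraic ℚ ((g i).coeff k)) (z : I → ℂ) {D : Set ℂ}
    (hD : D.Finite) : ∃ (p : ℕ) (_ : Fact p.Prime) (ψ : ℂ →+* PadicAlgCl p),
      (∀ d ∈ D, d ≠ 0 → ‖ψ d‖ = 1) ∧ ∀ i, Wand (g i) (z i) →
        ∀ᶠ n in atTop, ‖ψ ((g i).derivative.eval (it (g i) n (z i)))‖ = 1 := by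
  obtain ⟨E, _, _, _, _, κ, hκ⟩ := exists_cl
  choose f hf using fun i => (mem_lifts (g i)).1 ((lifts_iff_coeff_lifts (f := κ) _).2
    fun k => hκ _ (ha i k))
  obtain rfl : g = fun i => (f i).map κ := funext fun i => (hf i).symm
  have hG := fun i => ok_map κ (hg i)
  obtain ⟨Z, R, hZ, hR, H⟩ := emb2 κ ((hD.union hD.inv).union (Set.finite_range z)) z _
    fun i => north (hG i).mon (hG i).deg
  have hW := (hZ.union (Set.finite_iUnion fun i => (hR i).1)).union (Set.finite_iUnion fun i =>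
    ((fin_coeff (f i)).union (fin_crit (hG i).deg)).insert ((f i).natDegree : E))
  obtain ⟨F, _, -, hF⟩ := exists_gal hW
  obtain ⟨B, hB⟩ := unit_big hW
  have := fun i => (hR i).1.to_subtype
  obtain ⟨A, hA, hp⟩ := gp (I := Σ i, R i) (fun j => f j.1) (fun j => hG j.1) (fun j => j.2) B
  have U := hB A hA
  obtain ⟨p, -, ho⟩ := hA
  have := Fact.mk ho.1
  obtain ⟨ι, hι⟩ := iota F ho
  have U' : ∀ x, _ → x ≠ 0 → ‖ι x‖ = 1 := fun x hx h0 => le_antisymm
    ((hι x (hF x hx)).1.1 (U x hx h0).le) (not_lt.1 fun e =>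
      ((hι x (hF x hx)).2.2 e).ne (U x hx h0))
  obtain ⟨ψ, h1, h2, h3⟩ := H p ι fun x hx => U' x (Or.inl (Or.inl hx))
  obtain ⟨A', hA'⟩ := exists_pl ψ
  refine ⟨p, this, ψ, fun d hd h0 => le_antisymm (h2 d (Or.inl (Or.inl hd))) ?_, fun i hw => ?_⟩
  · have := h2 d⁻¹ (Or.inl (Or.inr (Set.inv_mem_inv.2 hd)))
    rwa [map_inv₀, norm_inv, inv_le_one₀ (norm_pos_iff.2 ((map_ne_zero ψ).2 h0))] at this
  have mem := fun x hx => Set.mem_union_right (Z ∪ ⋃ i, R i) (Set.mem_iUnion_of_mem (a := x)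
    (s := fun i => insert ((f i).natDegree : E) (Set.range (f i).coeff ∪ {x | Crit (f i) x})) i hx)
  have co : ∀ k, (f i).coeff k ∈ F := fun k => hF _ (mem _ (Or.inr (Or.inl ⟨k, rfl⟩)))
  have le : ∀ x, _ → A'.valuation (κ x) ≤ 1 := fun x hx => by
    rcases eq_or_ne x 0 with rfl | e
    exacts [by simp, (hA' _).1.2 (by rw [h1, U' x (mem x hx) e])]
  have ip : IP A' ((f i).map κ) := fun k => by
    rw [coeff_map]; exact le _ (Or.inr (Or.inl ⟨k, rfl⟩))
  have z0 := (hA' _).1.2 (h2 _ (Or.inr ⟨i, rfl⟩))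
  have zi := ip.it z0
  have cg : ∀ x ∈ F, ∀ y ∈ F, Cg A' (κ x) (κ y) → Cg A x y := fun x hx y hy e =>
    (hι _ (sub_mem hx hy)).2.2 (by rw [← h1, map_sub]; exact (hA' _).2.1 e)
  by_contra hn
  have hn := Nat.frequently_atTop_iff_infinite.1 (not_eventually.1 hn)
  choose! δ hδ using fun n (e : ¬ ‖ψ (((f i).map κ).derivative.eval
      (it ((f i).map κ) n (z i)))‖ = 1) => near_crit ip (hg i).mon (le_antisymm (v_nat _ _)
    (not_lt.1 fun c => ((hA' _).2.1 c).ne (by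
      rw [natDegree_map, ← map_natCast κ, h1]
      exact U' _ (mem _ (Or.inl rfl)) (Nat.cast_ne_zero.2 (by have := (hG i).deg; omega)))))
    (zi n) ((hA' _).2.2 (lt_of_le_of_ne ((hA' _).1.1 (ip.deriv.eval (zi n))) e))
  obtain ⟨n, c1, m, c2, lt, e⟩ := hn.exists_lt_map_eq_of_mapsTo (f := δ)
    (fun n e => (hδ n e).1) (fin_crit (hg i).deg)
  obtain ⟨k, rfl⟩ := Nat.exists_eq_add_of_lt lt
  obtain ⟨a1, a2⟩ := hδ _ c1
  have a3 := (hδ _ c2).2
  obtain ⟨γ, hγ⟩ := crit_range κ (hG i).deg a1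
  rw [← e, ← hγ] at a3
  rw [← hγ] at a1 a2
  rw [crit_map] at a1
  have m1 := mem γ (Or.inr (Or.inr a1))
  obtain ⟨r, hr, h4⟩ := h3 i
  have pr : Per (f i) γ := by_contra fun c => (hp ⟨i, r, hr⟩ γ a1).1 c (k + 1) k.succ_pos
    (cg _ (it_mem co (hF _ m1) _) _ (hF _ m1) (by
      rw [add_assoc, add_comm, it_add] at a3
      rw [← it_map]
      exact (a2.symm.it ip (zi n) _).trans a3))
  have c : Cg A' (z i) (κ r) := (hA' _).2.2 (by rwa [map_sub, h1])
  exact (hp ⟨i, r, hr⟩ γ a1).2 pr (((hR i).2 r hr).elim (fun e => (wand_map κ).1 (e ▸ hw))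
    not_not.1) n (cg _ (it_mem co (hF _ (Or.inl (Or.inr (Set.mem_iUnion_of_mem i hr)))) _) _
    (hF _ m1) (by rw [← it_map]; exact (c.symm.it ip z0 n).trans a2))

end Pool.Agent.P.MP_68214b_ag.DP
end

-- part Pool.Agent.P.MP_68214b_ag.DP13
section

/-! The main theorem. -/

open Polynomial Filter

namespace Pool.Agent.P.MP_68214b_ag.DP

theorem per_of {P : ℕ → Prop} {l n0 : ℕ} (hl : 0 < l)
    (h : ∀ c, n0 ≤ c → (∃ᶠ t in atTop, P (c + l * t)) → ∀ t, P (c + l * t)) :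
    ∃ n1, ∀ n ≥ n1, (P n ↔ P (n + l)) := by
  have h1 : ∀ c, ∀ᶠ t in atTop, (P (n0 + c + l * t) ↔ P (n0 + c + l * (t + 1))) := fun c => by
    by_cases hv : ∃ᶠ t in atTop, P (n0 + c + l * t)
    · exact .of_forall fun t => iff_of_true (h _ le_self_add hv _) (h _ le_self_add hv _)
    · have e := not_frequently.1 hv
      filter_upwards [e, (tendsto_add_atTop_nat 1).eventually e] with t a b using iff_of_false a b
  obtain ⟨t0, h2⟩ := eventually_atTop.1
    ((eventually_all_finset (Finset.range l)).2 fun c _ => h1 c)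
  refine ⟨n0 + l * t0, fun n hn => ?_⟩
  obtain ⟨n, rfl⟩ := Nat.exists_eq_add_of_le (le_self_add.trans hn)
  have := h2 (n / l) ((Nat.le_div_iff_mul_le hl).2 (by rw [mul_comm]; omega)) (n % l)
    (Finset.mem_range.2 (Nat.mod_lt _ hl))
  rwa [mul_add, mul_one, ← add_assoc, add_assoc n0, Nat.mod_add_div] at this

theorem ev_per {E : Type} [Field E] {g : E[X]} {x : E} (h : ¬ Wand g x) :
    ∃ q, 0 < q ∧ ∀ k, ∀ᶠ n in atTop, it g (n + q * k) x = it g n x := by
  obtain ⟨a, -, b, -, lt, e⟩ := Set.infinite_univ.exists_lt_map_eq_of_mapsTo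
    (f := fun n => it g n x) (fun n _ => Set.mem_range_self n) (Set.not_infinite.1 h)
  obtain ⟨q, rfl⟩ := Nat.exists_eq_add_of_lt lt
  refine ⟨q + 1, q.succ_pos, fun k => eventually_atTop.2 ⟨a, fun n hn => ?_⟩⟩
  obtain ⟨n, rfl⟩ := Nat.exists_eq_add_of_le hn
  induction k with
  | zero => rfl
  | succ k ih =>
    rw [← ih, show a + n + (q + 1) * (k + 1) = n + (q + 1) * k + (a + q + 1) by ring, it_add, ← e,
      ← it_add]
    congr 1; ring

theorem mainP {I J : Type} [Fintype I] [Fintype J] [DecidableEq J] (f : I → ℂ[X])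
    (G : J → MvPolynomial (I ⊕ J) ℂ) {c : ℂ} (hc : c ≠ 0)
    (hG : (Matrix.of fun j k => MvPolynomial.pderiv (Sum.inr k) (G j)).det = MvPolynomial.C c)
    (x : ℕ → I ⊕ J → ℂ) (h1 : ∀ n i, x (n + 1) (.inl i) = (f i).eval (x n (.inl i)))
    (h2 : ∀ n j, x (n + 1) (.inr j) = MvPolynomial.eval (x n) (G j))
    {A0 : ValuationSubring ℂ}
    (hf : ∀ i, ∃ a b : ℂ, ∃ g : ℂ[X], a ≠ 0 ∧ (f i).comp (C a * X + C b) = C a * g + C b ∧
      (∀ k, IsAlgebraic ℚ (g.coeff k)) ∧ Ok A0 g)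
    (S : Set (MvPolynomial (I ⊕ J) ℂ)) : ∃ l, 0 < l ∧ ∃ n0, ∀ n ≥ n0,
      ((∀ P ∈ S, MvPolynomial.eval (x n) P = 0) ↔ ∀ P ∈ S, MvPolynomial.eval (x (n + l)) P = 0) := by
  classical
  choose a b g ha e h3 hg using hf
  set z := fun i => (x 0 (.inl i) - b i) / a i
  have xz : ∀ i n, x n (.inl i) = a i * it (g i) n (z i) + b i := fun i n => by
    induction n with
    | zero => simp only [it_zero, z]; field_simp [ha i]; ring
    | succ n ih => simpa [h1, ih, it_succ'] using congrArg (eval (it (g i) n (z i))) (e i)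
  have der : ∀ i n, (f i).derivative.eval (x n (.inl i)) =
      (g i).derivative.eval (it (g i) n (z i)) := fun i n => by
    simpa [derivative_comp, ← xz, ha i] using
      congrArg (fun q => eval (it (g i) n (z i)) (derivative q)) (e i)
  obtain ⟨p, hp, ψ, hD, hψ⟩ := good_emb g hg h3 z ((((Set.finite_iUnion fun i =>
    fin_coeff (f i)).union (Set.finite_iUnion fun j => (G j).coeffs.finite_toSet)).union
    (Set.finite_range (x 0))).insert c)
  obtain ⟨A, hA⟩ := exists_pl ψ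
  have hO := fun d hd => (A.valuation_le_one_iff d).1 ((hA d).1.2 (by
    rcases eq_or_ne d 0 with rfl | e
    exacts [by simp, (hD d (Or.inr hd) e).le]))
  let R := (MvPolynomial.map (σ := I ⊕ J) A.subtype).range
  have RC : ∀ d ∈ A, MvPolynomial.C d ∈ R := fun d hd => ⟨.C ⟨d, hd⟩, MvPolynomial.map_C _ _⟩
  have RX : ∀ i, MvPolynomial.X i ∈ R := fun i => ⟨.X i, MvPolynomial.map_X _ _⟩
  have Rf : ∀ i, aeval (MvPolynomial.X (.inl i)) (f i) ∈ R := fun i => by
    rw [aeval_eq_sum_range]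
    refine sum_mem fun k _ => ?_
    rw [MvPolynomial.smul_eq_C_mul]
    exact mul_mem (RC _ (hO _ (Or.inl (Or.inl (Set.mem_iUnion.2 ⟨i, k, rfl⟩))))) (pow_mem (RX _) k)
  have RG : ∀ j, G j ∈ R := fun j => MvPolynomial.mem_range_map_iff_coeffs_subset.2
    fun d hd => ⟨⟨d, hO d (Or.inl (Or.inr (Set.mem_iUnion.2 ⟨j, hd⟩)))⟩, rfl⟩
  have ev : ∀ (y : I ⊕ J → ℂ) i (q : ℂ[X]), MvPolynomial.eval y (aeval (.X i) q) = q.eval (y i) :=
    fun y i q => MvPolynomial.eval_toMvPolynomial y i q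
  have xA : ∀ n i, x n i ∈ A := fun n => by
    induction n with
    | zero => exact fun i => hO _ (Or.inr ⟨i, rfl⟩)
    | succ n ih =>
      have : ∀ P ∈ R, MvPolynomial.eval (x n) P ∈ A := by
        rintro _ ⟨P, rfl⟩
        rw [MvPolynomial.eval_map]
        exact MvPolynomial.eval₂_mem (s := A.toSubring) (fun m _ => (P.coeff m).2) ih
      rintro (i | j)
      · rw [h1, ← ev]; exact this _ (Rf i)
      · rw [h2]; exact this _ (RG j)
  choose! q hq using fun i => ev_per (g := g i) (x := z i)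
  let Q := ∏ i with ¬ Wand (g i) (z i), q i
  obtain ⟨n1, hn⟩ := eventually_atTop.1 (eventually_all.2 fun i => show ∀ᶠ n in atTop,
      (Wand (g i) (z i) → ‖ψ ((f i).derivative.eval (x n (.inl i)))‖ = 1) ∧
      (¬ Wand (g i) (z i) → x (n + Q) (.inl i) = x n (.inl i)) by
    by_cases w : Wand (g i) (z i)
    · exact (hψ i w).mono fun n e => ⟨fun _ => by rwa [der], fun c => (c w).elim⟩
    · obtain ⟨k, hk⟩ := (Finset.dvd_prod_of_mem q (by simpa using w) : q i ∣ Q)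
      exact ((hq i w).2 k).mono fun n e => ⟨fun c => (w c).elim, fun _ => by
        rw [xz, xz, ← e, ← hk]⟩)
  let Ψ : ℕ → I ⊕ J → MvPolynomial (I ⊕ J) ℂ := fun n => Sum.elim (fun i =>
    if Wand (g i) (z i) then aeval (.X (.inl i)) (f i) else
      .X (.inl i) + .C (x (n1 + n + 1) (.inl i) - x (n1 + n) (.inl i))) G
  have me : ∀ n P, MvPolynomial.eval (fun j => ψ (x n j)) (MvPolynomial.map ψ P) =
      ψ (MvPolynomial.eval (x n) P) := fun n P => (MvPolynomial.map_eval ψ (x n) P).symm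
  obtain ⟨l, hl, n0, H⟩ := pad (q := Q) (Finset.prod_pos fun i hi =>
      (hq i (Finset.mem_filter.1 hi).2).1) (fun n j => MvPolynomial.map ψ (Ψ n j)) (fun n => by
      funext j
      rcases j with i | j
      · simp only [Ψ, Sum.elim_inl]
        split_ifs with w
        · rfl
        · rw [← add_assoc, add_right_comm _ Q, (hn _ (by omega) i).2 w, (hn _ (by omega) i).2 w]
      · rfl) (fun n j m => by
      obtain ⟨P, hP⟩ : Ψ n j ∈ R := by
        rcases j with i | j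
        · simp only [Ψ, Sum.elim_inl]
          split_ifs
          exacts [Rf i, add_mem (RX _) (RC _ (sub_mem (xA _ _) (xA _ _)))]
        · exact RG j
      rw [MvPolynomial.coeff_map, ← hP, MvPolynomial.coeff_map]
      exact (hA _).1.1 (A.valuation_le_one _)) (fun n j => ψ (x (n1 + n) j)) (fun n j => by
      rw [me]
      rcases j with i | j
      · simp only [Ψ, Sum.elim_inl]
        split_ifs
        · rw [ev, ← h1, add_assoc]
        · simp [add_assoc]
      · exact congrArg ψ (h2 _ j))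
    (fun j => (hA _).1.1 ((A.valuation_le_one_iff _).2 (xA _ j))) fun n => by
      have : (Matrix.of fun i j => MvPolynomial.eval (fun j => ψ (x (n1 + n) j))
          (MvPolynomial.pderiv j (MvPolynomial.map ψ (Ψ n i)))) = ψ.mapMatrix (Matrix.fromBlocks
          (Matrix.diagonal fun i => if Wand (g i) (z i) then
            (f i).derivative.eval (x (n1 + n) (.inl i)) else 1) 0
          (.of fun j i => MvPolynomial.eval (x (n1 + n)) (MvPolynomial.pderiv (.inl i) (G j)))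
          ((MvPolynomial.eval (x (n1 + n))).mapMatrix
            (.of fun j k => MvPolynomial.pderiv (Sum.inr k) (G j)))) := by
        ext i j
        rw [Matrix.of_apply, MvPolynomial.pderiv_map, me]
        refine congrArg ψ ?_
        rcases i with i | i <;> rcases j with j | j
        · simp only [Ψ, Sum.elim_inl, Matrix.fromBlocks_apply₁₁, Matrix.diagonal_apply]
          split_ifs <;> simp [Derivation.map_aeval, *]
        · simp only [Ψ, Sum.elim_inl]
          split_ifs <;> simp [Derivation.map_aeval]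
        · rfl
        · rfl
      rw [this, ← RingHom.map_det, Matrix.det_fromBlocks_zero₁₂, Matrix.det_diagonal,
        ← RingHom.map_det, hG, MvPolynomial.eval_C, map_mul, map_prod, norm_mul, norm_prod,
        hD c (Or.inl rfl) hc, mul_one]
      refine Finset.prod_eq_one fun i _ => ?_
      split_ifs with w
      exacts [(hn _ (by omega) i).1 w, by simp]
  refine ⟨l, hl, per_of (n0 := n1 + n0) hl fun c hc hv t P hP => ?_⟩
  obtain ⟨c, rfl⟩ := Nat.exists_eq_add_of_le (le_self_add.trans hc)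
  have := H c (by omega) (MvPolynomial.map ψ P) (hv.mono fun t e => by
    rw [me, ← add_assoc, e P hP, map_zero]) t
  rwa [me, ← add_assoc, map_eq_zero] at this

theorem q1 {J : Type} (Ψ : J → MvPolynomial J ℂ) (α : J → ℂ) (I : Set (MvPolynomial J ℂ))
    (Φ : (J → ℂ) → J → ℂ) (hΦ : ∀ p i, Φ p i = MvPolynomial.eval p (Ψ i))
    (Z : Set (MvPolynomial J ℂ) → Set (J → ℂ))
    (hZ : ∀ S p, p ∈ Z S ↔ ∀ F ∈ S, MvPolynomial.eval p F = 0) {l n0 : ℕ} (hl : 0 < l)
    (h : ∀ n ≥ n0, (Φ^[n] α ∈ Z I ↔ Φ^[n + l] α ∈ Z I))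
    (hn : ¬ ∃ S, (Z S).Infinite ∧ Z S ⊆ Z I ∧ (∃ k ≥ 1, Set.MapsTo Φ^[k] (Z S) (Z S)) ∧
      ∃ n, Φ^[n] α ∈ Z S) : (Z I ∩ Set.range fun n => Φ^[n] α).Finite := by
  have hq (k : ℕ) : ∀ F : MvPolynomial J ℂ, ∃ G : MvPolynomial J ℂ, ∀ p,
      MvPolynomial.eval (Φ^[k] p) F = MvPolynomial.eval p G := by
    induction k with
    | zero => exact fun F => ⟨F, fun _ => rfl⟩
    | succ k ih =>
      intro F
      obtain ⟨G, hG⟩ := ih (MvPolynomial.bind₁ Ψ F)
      refine ⟨G, fun p => ?_⟩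
      rw [← hG, Function.iterate_succ_apply', funext (hΦ _)]
      exact (MvPolynomial.aeval_bind₁ _ Ψ F).symm
  by_contra hinf
  have inj : Function.Injective fun n => Φ^[n] α := by
    refine Function.Injective.of_lt_imp_ne fun a b hab e =>
      Set.Infinite.mono Set.inter_subset_right hinf ?_
    refine ((Set.finite_lt_nat b).image fun n => Φ^[n] α).subset ?_
    rintro _ ⟨n, rfl⟩
    induction n using Nat.strong_induction_on with
    | _ n ih =>
      by_cases hn : n < b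
      · exact ⟨n, hn, rfl⟩
      · obtain ⟨c, rfl⟩ := Nat.exists_eq_add_of_le' (not_lt.1 hn)
        have := ih (c + a) (by omega)
        simp only [Function.iterate_add_apply] at this ⊢
        rwa [← e]
  obtain ⟨n, hn0, hI⟩ : ∃ n ≥ n0, Φ^[n] α ∈ Z I := by
    by_contra! H
    refine hinf (((Set.finite_lt_nat n0).image fun n => Φ^[n] α).subset ?_)
    rintro _ ⟨h, n, rfl⟩
    exact ⟨n, not_le.1 fun hn => H n hn h, rfl⟩
  have mem (j : ℕ) : Φ^[n + l * j] α ∈
      Z {F | ∀ j, MvPolynomial.eval (Φ^[n + l * j] α) F = 0} := (hZ _ _).2 fun F hF => hF j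
  have hI' (j : ℕ) : Φ^[n + l * j] α ∈ Z I := by
    induction j with
    | zero => exact hI
    | succ j ih =>
      rw [mul_add, mul_one, ← add_assoc]
      exact (h _ (le_add_right hn0)).1 ih
  refine hn ⟨_, Set.infinite_of_injective_forall_mem (fun i j e => ?_) mem,
    fun p hp => (hZ _ _).2 fun F hF => (hZ _ _).1 hp F fun j => (hZ _ _).1 (hI' j) F hF,
    ⟨l, hl, fun p hp => (hZ _ _).2 fun F hF => ?_⟩, _, mem 0⟩
  · exact Nat.eq_of_mul_eq_mul_left hl (Nat.add_left_cancel (inj e))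
  · obtain ⟨G, hG⟩ := hq l F
    rw [hG]
    refine (hZ _ _).1 hp G fun j => ?_
    rw [← hG, ← Function.iterate_add_apply, ← hF (j + 1)]
    congr 3
    ring

end Pool.Agent.P.MP_68214b_ag.DP
end
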