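import Mathlib
import Pool.Agent.K.MP_68214b_ag.C1

-- part Pool.Agent.P.MP_68214b_ag.Basic
section

open Polynomial NumberField Height Filter Topology

namespace Pool.Agent.P.MP_68214b_ag

/-- the Legendre type recurrence -/
def Rec {R : Type*} [CommRing R] (A B : R) (s : ℕ → R) : Prop :=
  ∀ n : ℕ, ((n : R) + 2) * s (n + 2) = (2 * n + 3) * A * s (n + 1) - (n + 1) * B * s n

/-- homogeneous Legendre polynomial, equal to the sum of choose n k ^ 2 * x ^ (n-k) * y ^ k -/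
noncomputable def LP {R : Type*} [CommRing R] (x y : R) (n : ℕ) : R :=
  (((C x * X + C y) * (1 + X)) ^ n).coeff n

/-- truncated series of log (1 + x) -/
noncomputable def Lg {K : Type*} [Field K] (N : ℕ) (x : K) : K :=
  ∑ i ∈ Finset.range N, (-1) ^ i * x ^ (i + 1) / ((i : K) + 1)

section Ring
variable {R : Type*} [CommRing R]

@[simp] theorem P_zero (x y : R) : LP x y 0 = 1 := by simp [LP]

@[simp] theorem P_one (x y : R) : LP x y 1 = x + y := by
  simp [LP, mul_add, add_mul, coeff_X, coeff_C, coeff_mul_X, add_comm]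

theorem P_map {S : Type*} [CommRing S] (f : R →+* S) (x y : R) (n : ℕ) :
    f (LP x y n) = LP (f x) (f y) n := by
  simp [LP, ← coeff_map, Polynomial.map_pow]

theorem P_frob (p : ℕ) [Fact p.Prime] [CharP R p] (x y : R) (m : ℕ) :
    LP x y (m * p) = LP x y m ^ p := by
  have hp : 0 < p := (Fact.out : p.Prime).pos
  unfold LP
  rw [pow_mul, ← Polynomial.map_frobenius_expand, coeff_map, coeff_expand_mul hp, frobenius_def]

theorem Rec.map {S : Type*} [CommRing S] (f : R →+* S) {A B : R} {s : ℕ → R} (h : Rec A B s) :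
    Rec (f A) (f B) fun n => f (s n) := fun n => by
  simpa [map_ofNat] using congrArg f (h n)

theorem Rec.comb {A B : R} {s t : ℕ → R} (hs : Rec A B s) (ht : Rec A B t) (a b : R) :
    Rec A B fun n => a * s n + b * t n := fun n => by
  linear_combination a * hs n + b * ht n

theorem Rec.scale {A B : R} {s : ℕ → R} (hs : Rec A B s) (c : R) :
    Rec (c * A) (c ^ 2 * B) fun n => c ^ n * s n := fun n => by
  linear_combination c ^ (n + 2) * hs n

variable [IsDomain R] [CharZero R]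

theorem Rec.ext {A B : R} {s t : ℕ → R} (hs : Rec A B s) (ht : Rec A B t) (h0 : s 0 = t 0)
    (h1 : s 1 = t 1) (n : ℕ) : s n = t n := by
  induction n using Nat.twoStepInduction with
  | zero => exact h0
  | one => exact h1
  | more n a b =>
    have : ((n : R) + 2) ≠ 0 := by exact_mod_cast (show n + 2 ≠ 0 by omega)
    exact mul_left_cancel₀ this (by rw [hs, ht, a, b])

omit [IsDomain R] [CharZero R] in
theorem Rec.cas {A B : R} {s t : ℕ → R} (hs : Rec A B s) (ht : Rec A B t) (n : ℕ) :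
    ((n : R) + 1) * (s (n + 1) * t n - s n * t (n + 1)) = (s 1 * t 0 - s 0 * t 1) * B ^ n := by
  induction n with
  | zero => simp
  | succ n ih =>
    push_cast
    linear_combination t (n + 1) * hs n - s (n + 1) * ht n + B * ih

theorem P_rec (x y : R) : Rec (x + y) ((x - y) ^ 2) (LP x y) := by
  set L : R[X] := (C x * X + C y) * (1 + X) with hL
  have e : L = C x * X ^ 2 + C (x + y) * X + C y := by rw [hL, C_add]; ring
  have d : derivative L = C (2 * x) * X + C (x + y) := by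
    rw [e]; simp only [derivative_add, derivative_mul, derivative_C, derivative_X_pow,
      derivative_X, C_mul]; simp [map_ofNat]; ring
  have a1 : ∀ n j : ℕ, (L ^ (n + 1)).coeff (j + 2) =
      y * (L ^ n).coeff (j + 2) + (x + y) * (L ^ n).coeff (j + 1) + x * (L ^ n).coeff j := by
    intro n j
    rw [pow_succ', show L * L ^ n = C x * (X ^ 2 * L ^ n) + C (x + y) * (X * L ^ n) + C y * L ^ n by
      nth_rewrite 1 [e]; ring]
    simp only [coeff_add, coeff_C_mul, coeff_X_pow_mul, coeff_X_mul]; ring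
  have a2 : ∀ n j : ℕ, ((j : R) + 2) * (L ^ (n + 1)).coeff (j + 2) =
      (n + 1) * ((x + y) * (L ^ n).coeff (j + 1) + 2 * x * (L ^ n).coeff j) := by
    intro n j
    have := congrArg (fun q => coeff q (j + 1)) (derivative_pow_succ L n)
    simp only [d, coeff_derivative] at this
    rw [show C ((n : R) + 1) * L ^ n * (C (2 * x) * X + C (x + y)) =
      C ((n : R) + 1) * (C (2 * x) * (X * L ^ n) + C (x + y) * L ^ n) by ring] at this
    simp only [coeff_add, coeff_C_mul, coeff_X_mul] at this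
    push_cast at this
    linear_combination this
  have c0 : ∀ n : ℕ, (L ^ n).coeff 0 = y ^ n := fun n => by
    rw [coeff_zero_eq_eval_zero]; simp [hL]
  have c1 : ∀ n : ℕ, (L ^ (n + 1)).coeff 1 = (n + 1) * (x + y) * y ^ n := fun n => by
    have := congrArg (fun q => coeff q 0) (derivative_pow_succ L n)
    simp only [d, coeff_derivative, mul_coeff_zero, c0] at this
    simp at this
    linear_combination this
  have b1 : ∀ n : ℕ, (L ^ (n + 2)).coeff (n + 2) =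
      (x + y) * (L ^ (n + 1)).coeff (n + 1) + 2 * x * (L ^ (n + 1)).coeff n := fun n => by
    have : ((n : R) + 2) ≠ 0 := by exact_mod_cast (show n + 2 ≠ 0 by omega)
    refine mul_left_cancel₀ this ?_
    have := a2 (n + 1) n
    push_cast at this
    linear_combination this
  intro n
  change ((n : R) + 2) * (L ^ (n + 2)).coeff (n + 2) =
    (2 * n + 3) * (x + y) * (L ^ (n + 1)).coeff (n + 1) - (n + 1) * (x - y) ^ 2 * (L ^ n).coeff n
  rcases n with _ | n
  · have := b1 0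
    have h1 := c1 0
    simp only [zero_add, c0] at this h1 ⊢
    rw [this, h1]; simp; ring
  rcases n with _ | n
  · have h3 := b1 1
    have h2 := b1 0
    have h1 := c1 0
    have h4 := c1 1
    simp only [zero_add, c0, Nat.reduceAdd] at h1 h2 h3 h4 ⊢
    rw [h3, h2, h4, h1]; push_cast; ring
  have h1 := b1 (n + 2)
  have h2 := b1 (n + 1)
  have h3 := a1 (n + 2) n
  have h4 := a2 (n + 2) n
  simp only [add_assoc, Nat.reduceAdd] at h1 h2 h3 h4 ⊢
  push_cast at h4 ⊢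
  linear_combination ((n : R) + 4) * h1 - ((n : R) + 3) * (x + y) * h2 +
    4 * x * ((n : R) + 3) * h3 - 2 * x * h4

theorem P_comm (x y : R) (n : ℕ) : LP x y n = LP y x n :=
  (P_rec x y).ext (by rw [add_comm, ← neg_sub, neg_sq]; exact P_rec y x) (by simp)
    (by simp [add_comm]) n

theorem P_two (x y : R) : 2 * LP x y 2 = 3 * (x + y) ^ 2 - (x - y) ^ 2 := by
  have := P_rec x y 0
  simp only [Nat.cast_zero, zero_add, P_one, P_zero] at this
  linear_combination this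

theorem Rec.casP {x y : R} {s : ℕ → R} (hs : Rec (x + y) ((x - y) ^ 2) s) (n : ℕ) :
    ((n : R) + 1) * (s (n + 1) * LP x y n - s n * LP x y (n + 1)) =
      (s 1 - (x + y) * s 0) * ((x - y) ^ 2) ^ n := by
  rw [hs.cas (P_rec x y)]; simp [mul_comm]

end Ring

section Field
variable {K : Type*} [Field K]

theorem P_smul [CharZero K] (c x y : K) (n : ℕ) : LP (c * x) (c * y) n = c ^ n * LP x y n :=
  (P_rec (c * x) (c * y)).ext
    (by rw [← mul_add, ← mul_sub, mul_pow]; exact (P_rec x y).scale c) (by simp)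
    (by simp [mul_add]) n

/-- the valuation ring of a nonarchimedean absolute value -/
def intR {v : AbsoluteValue K ℝ} (hv : IsNonarchimedean v) : Subring K where
  carrier := {x | v x ≤ 1}
  mul_mem' := fun {a b} ha hb => by
    simp only [Set.mem_ofPred_eq, map_mul] at *
    exact mul_le_one₀ ha (v.nonneg b) hb
  one_mem' := by simp
  add_mem' := fun {a b} ha hb => (hv a b).trans (max_le ha hb)
  zero_mem' := by simp
  neg_mem' := fun {a} ha => by simpa using ha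

theorem v_nat_le {v : AbsoluteValue K ℝ} (hv : IsNonarchimedean v) (n : ℕ) : v n ≤ 1 :=
  natCast_mem (intR hv) n

theorem v_int_le {v : AbsoluteValue K ℝ} (hv : IsNonarchimedean v) (n : ℤ) : v n ≤ 1 :=
  intCast_mem (intR hv) n

theorem v_sub_le {v : AbsoluteValue K ℝ} (hv : IsNonarchimedean v) (a b : K) :
    v (a - b) ≤ max (v a) (v b) := by
  simpa [sub_eq_add_neg] using hv a (-b)

theorem P_le_one {v : AbsoluteValue K ℝ} (hv : IsNonarchimedean v) {x y : K} (hx : v x ≤ 1)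
    (hy : v y ≤ 1) (n : ℕ) : v (LP x y n) ≤ 1 := by
  have := P_map (intR hv).subtype ⟨x, hx⟩ ⟨y, hy⟩ n
  simp only [Subring.subtype_apply] at this
  rw [← this]
  exact (LP (⟨x, hx⟩ : intR hv) ⟨y, hy⟩ n).2

theorem P_le [CharZero K] {v : AbsoluteValue K ℝ} (hv : IsNonarchimedean v) (x y : K)
    (n : ℕ) : v (LP x y n) ≤ max (v x) (v y) ^ n := by
  wlog h : v x ≤ v y generalizing x y
  · rw [P_comm, max_comm]; exact this y x (le_of_not_ge h)
  rw [max_eq_right h]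
  by_cases hy : y = 0
  · subst hy
    have hx : x = 0 := by simpa using h
    subst hx
    simpa using mul_le_of_le_one_right (v.nonneg (0 ^ n)) (P_le_one hv (x := 0) (y := 0)
      (by simp) (by simp) n) |>.trans_eq' (by rw [← map_mul, ← P_smul]; simp)
  have hp : 0 < v y := v.pos hy
  rw [show LP x y n = y ^ n * LP (x / y) 1 n by rw [← P_smul]; congr 1 <;> field_simp, map_mul,
    map_pow]
  exact mul_le_of_le_one_right (by positivity)
    (P_le_one hv (by rwa [map_div₀, div_le_one hp]) (by simp) n)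

/-- Lucas congruence -/
theorem P_lucas {v : AbsoluteValue K ℝ} (hv : IsNonarchimedean v) {x y : K} (hx : v x ≤ 1)
    (hy : v y ≤ 1) {p : ℕ} (hp : p.Prime) (hvp : v p < 1) {m : ℕ} (hm : v (LP x y m) = 1) :
    v (LP x y (m * p)) = 1 := by
  have : Fact p.Prime := ⟨hp⟩
  let I : Ideal (intR hv) :=
    { carrier := {a | v a < 1}
      add_mem' := fun {a b} ha hb => (hv a b).trans_lt (max_lt ha hb)
      zero_mem' := by simp
      smul_mem' := fun c a ha => by
        simp only [Set.mem_ofPred_eq, smul_eq_mul, Subring.coe_mul, map_mul] at *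
        exact (mul_le_of_le_one_left (v.nonneg _) c.2).trans_lt ha }
  have mem : ∀ a : intR hv, Ideal.Quotient.mk I a = 0 ↔ v a < 1 := fun a =>
    Ideal.Quotient.eq_zero_iff_mem
  have : Nontrivial (intR hv ⧸ I) := ⟨⟨1, 0, fun h => by simpa using (mem 1).1 h⟩⟩
  have : CharP (intR hv ⧸ I) p := (CharP.charP_iff_prime_eq_zero hp).2 (by
    rw [← map_natCast (Ideal.Quotient.mk I), mem]; simpa using hvp)
  have e : ∀ n, LP x y n = (LP (⟨x, hx⟩ : intR hv) ⟨y, hy⟩ n : intR hv) := fun n =>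
    (P_map (intR hv).subtype ⟨x, hx⟩ ⟨y, hy⟩ n).symm
  refine le_antisymm (P_le_one hv hx hy _) (not_lt.1 fun h => ?_)
  rw [e, ← mem, P_map, P_frob, ← P_map, ← map_pow, mem] at h
  rw [e] at hm
  simp [hm] at h

end Field

end Pool.Agent.P.MP_68214b_ag
end

-- part Pool.Agent.P.MP_68214b_ag.Ht
section

open Polynomial NumberField Height Filter Topology

namespace Pool.Agent.P.MP_68214b_ag

variable {K : Type*} [Field K] [NumberField K]

theorem fin_na (v : FinitePlace K) : IsNonarchimedean v.1 := fun a b => v.add_le a b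

theorem fin_supp {α : Type*} [Finite α] {z : α → K} (hz : z ≠ 0) :
    (fun v : FinitePlace K => ⨆ i, v (z i)).HasFiniteMulSupport := by
  obtain ⟨j0, hj0⟩ := Function.ne_iff.1 hz
  have : Nonempty α := ⟨j0⟩
  refine (Set.finite_iUnion fun i : {i // z i ≠ 0} =>
    FinitePlace.hasFiniteMulSupport i.2).subset fun v hv => ?_
  by_contra h
  simp only [Set.mem_iUnion, Function.mem_mulSupport, not_exists, not_not] at h
  refine hv (le_antisymm (ciSup_le fun i => ?_) ?_)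
  · by_cases hi : z i = 0
    · simp [hi]
    · exact (h ⟨i, hi⟩).le
  · exact (h ⟨j0, hj0⟩).ge.trans
      (le_ciSup (f := fun i => v (z i)) (Set.finite_range _).bddAbove j0)

theorem ht_cmp' {ι κ : Type*} [Finite ι] [Finite κ] {x : ι → K} {y : κ → K} (hx : x ≠ 0)
    (hy : y ≠ 0) (S : Finset (FinitePlace K)) (ρ : FinitePlace K → ℝ) (hρ0 : ∀ v, 0 ≤ ρ v)
    (hρ : ∀ v ∉ S, ρ v = 1) (r : InfinitePlace K → ℝ) (hr : ∀ w, 0 ≤ r w)
    (hf : ∀ (v : FinitePlace K) i, ∃ j, ρ v * v (x i) ≤ v (y j))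
    (ha : ∀ (w : InfinitePlace K) i, ∃ j, r w * w (x i) ≤ w (y j)) :
    (∏ w, r w ^ w.mult) * (∏ v ∈ S, ρ v) * mulHeight x ≤ mulHeight y := by
  obtain ⟨i0, hi0⟩ := Function.ne_iff.1 hx
  have : Nonempty ι := ⟨i0⟩
  have key : ∀ (c : ℝ) (f : ι → ℝ) (g : κ → ℝ), (∀ i, ∃ j, c * f i ≤ g j) →
      c * ⨆ i, f i ≤ ⨆ j, g j := fun c f g h => by
    obtain ⟨i, hi⟩ := exists_eq_ciSup_of_finite (f := f)
    obtain ⟨j, hj⟩ := h i
    rw [← hi]
    exact hj.trans (le_ciSup (Set.finite_range g).bddAbove j)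
  have nn : ∀ v : FinitePlace K, 0 ≤ ⨆ i, v (x i) := fun v =>
    Real.iSup_nonneg fun i => apply_nonneg v _
  have hS : Function.mulSupport ρ ⊆ S := fun v hv => by_contra fun h => hv (hρ v h)
  have fS : ρ.HasFiniteMulSupport := S.finite_toSet.subset hS
  rw [NumberField.mulHeight_eq hx, NumberField.mulHeight_eq hy,
    ← finprod_eq_prod_of_mulSupport_subset _ hS, mul_mul_mul_comm, ← Finset.prod_mul_distrib,
    ← finprod_mul_distrib fS (fin_supp hx)]
  refine mul_le_mul (Finset.prod_le_prod (fun w _ => ?_) fun w _ => ?_)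
    (finprod_le_finprod (fS.mul (fin_supp hx)) (fun v => mul_nonneg (hρ0 v) (nn v)) (fin_supp hy)
      fun v => key _ _ _ (hf v))
    (finprod_nonneg fun v => mul_nonneg (hρ0 v) (nn v))
    (Finset.prod_nonneg fun w _ => pow_nonneg (Real.iSup_nonneg fun i => apply_nonneg w _) _)
  · exact mul_nonneg (pow_nonneg (hr w) _)
      (pow_nonneg (Real.iSup_nonneg fun i => apply_nonneg w _) _)
  · rw [← mul_pow]
    exact pow_le_pow_left₀ (mul_nonneg (hr w) (Real.iSup_nonneg fun i => apply_nonneg w _))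
      (key _ _ _ (ha w)) _

theorem ht_cmp {ι κ : Type*} [Finite ι] [Finite κ] {x : ι → K} {y : κ → K} (hx : x ≠ 0)
    (hy : y ≠ 0) (S : Finset (FinitePlace K)) (ρ : FinitePlace K → ℝ) (hρ0 : ∀ v, 0 ≤ ρ v)
    (hρ : ∀ v ∉ S, ρ v = 1) {r : ℝ} (hr : 0 ≤ r)
    (hf : ∀ (v : FinitePlace K) i, ∃ j, ρ v * v (x i) ≤ v (y j))
    (ha : ∀ (φ : K →+* ℂ) i, ∃ j, r * ‖φ (x i)‖ ≤ ‖φ (y j)‖) :
    r ^ Module.finrank ℚ K * (∏ v ∈ S, ρ v) * mulHeight x ≤ mulHeight y := by
  have := ht_cmp' hx hy S ρ hρ0 hρ (fun _ => r) (fun _ => hr) hf fun w i => by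
    simpa only [InfinitePlace.norm_embedding_eq] using ha w.embedding i
  rwa [Finset.prod_pow_eq_pow_sum, InfinitePlace.sum_mult_eq] at this

theorem ht_le {ι κ : Type*} [Finite ι] [Finite κ] {x : ι → K} {y : κ → K} (hy : y ≠ 0) {r : ℝ}
    (hr : 1 ≤ r) (hf : ∀ (v : FinitePlace K) i, ∃ j, v (x i) ≤ v (y j))
    (ha : ∀ (φ : K →+* ℂ) i, ∃ j, ‖φ (x i)‖ ≤ r * ‖φ (y j)‖) :
    mulHeight x ≤ r ^ Module.finrank ℚ K * mulHeight y := by
  have r0 : 0 < r := by linarith
  by_cases hx : x = 0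
  · rw [hx, mulHeight_zero]
    exact one_le_mul_of_one_le_of_one_le (one_le_pow₀ hr) (one_le_mulHeight y)
  have := ht_cmp hx hy ∅ (fun _ => 1) (by simp) (by simp) (r := r⁻¹) (by positivity)
    (by simpa using hf) fun φ i => by simpa only [inv_mul_le_iff₀ r0] using ha φ i
  rwa [Finset.prod_empty, mul_one, inv_pow, inv_mul_le_iff₀ (by positivity)] at this

theorem one_ne : (![1] : Fin 1 → K) ≠ 0 := by simp

theorem pair_ne (x : K) : (![x, 1] : Fin 2 → K) ≠ 0 := by simp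

theorem fin_le_ht (v : FinitePlace K) (x : K) : v x ≤ mulHeight₁ x := by
  classical
  have := ht_cmp one_ne (pair_ne x) {v} (fun w => if w = v then v x else 1)
    (fun w => by split_ifs <;> simp) (fun w hw => if_neg (by simpa using hw)) zero_le_one
    (fun w i => by
      by_cases h : w = v
      · exact ⟨0, by simp [h]⟩
      · exact ⟨1, by simp [h]⟩) fun φ i => ⟨1, by simp⟩
  simpa [mulHeight₁_eq_mulHeight] using this

theorem arch_le_ht (φ : K →+* ℂ) (x : K) : ‖φ x‖ ≤ mulHeight₁ x := by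
  classical
  rcases le_or_gt ‖φ x‖ 1 with h1 | h1
  · exact h1.trans (one_le_mulHeight₁ x)
  have := ht_cmp' one_ne (pair_ne x) ∅ (fun _ => 1) (by simp) (by simp)
    (fun w => if w = InfinitePlace.mk φ then ‖φ x‖ else 1)
    (fun w => by split_ifs <;> simp) (fun w i => ⟨1, by simp⟩) fun w i => by
      by_cases h : w = InfinitePlace.mk φ
      · exact ⟨0, by simp [h, InfinitePlace.apply]⟩
      · exact ⟨1, by simp [h]⟩
  rw [Finset.prod_eq_single (InfinitePlace.mk φ) (fun w _ hw => by simp [hw]) (by simp)] at this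
  simp only [if_true, Finset.prod_empty, mul_one, mulHeight_eq_one_of_subsingleton] at this
  rw [mulHeight₁_eq_mulHeight]
  exact (le_self_pow₀ h1.le InfinitePlace.mult_ne_zero).trans this

theorem liouville_fin (v : FinitePlace K) {x : K} (hx : x ≠ 0) : 1 ≤ v x * mulHeight₁ x := by
  have := fin_le_ht v x⁻¹
  rwa [mulHeight₁_inv, map_inv₀, inv_le_iff_one_le_mul₀' (FinitePlace.pos_iff.2 hx)] at this

theorem liouville_arch (φ : K →+* ℂ) {x : K} (hx : x ≠ 0) : 1 ≤ ‖φ x‖ * mulHeight₁ x := by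
  have := arch_le_ht φ x⁻¹
  rwa [mulHeight₁_inv, map_inv₀, norm_inv, inv_le_iff_one_le_mul₀' (by simpa using hx)] at this

theorem fin_nat_le (v : FinitePlace K) (n : ℕ) : v n ≤ 1 := v_nat_le (fin_na v) n

theorem fin_int_le (v : FinitePlace K) (n : ℤ) : v n ≤ 1 := v_int_le (fin_na v) n

theorem ht_nat {i : ℕ} (hi : 0 < i) : mulHeight₁ (i : K) ≤ (i : ℝ) ^ Module.finrank ℚ K := by
  have h1 : (1 : ℝ) ≤ i := by exact_mod_cast hi
  have := ht_le (x := ![(i : K), 1]) one_ne h1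
    (fun v j => ⟨0, by fin_cases j <;> simp [fin_nat_le]⟩)
    fun φ j => ⟨0, by fin_cases j <;> simp [h1]⟩
  simpa [mulHeight₁_eq_mulHeight] using this

theorem nat_bound (v : FinitePlace K) (i : ℕ) (hi : 0 < i) :
    1 ≤ v i * (i : ℝ) ^ Module.finrank ℚ K :=
  (liouville_fin v (Nat.cast_ne_zero.2 hi.ne')).trans
    (mul_le_mul_of_nonneg_left (ht_nat hi) (apply_nonneg v _))

theorem pow_mul_le {a b : ℝ} (ha : 0 ≤ a) (hb : 0 ≤ b) {j n k m : ℕ} (hj : j ≤ n) (hk : k ≤ m) :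
    ∃ i : Fin 2 × Fin 2, a ^ j * b ^ k ≤ ![a ^ n, 1] i.1 * ![b ^ m, 1] i.2 := by
  have h : ∀ {a : ℝ} {j n : ℕ}, 0 ≤ a → j ≤ n → ∃ i : Fin 2, a ^ j ≤ ![a ^ n, 1] i :=
    fun {a j n} ha hj => (le_total a 1).elim (fun h => ⟨1, pow_le_one₀ ha h⟩)
      fun h => ⟨0, pow_le_pow_right₀ h hj⟩
  obtain ⟨i1, h1⟩ := h ha hj
  obtain ⟨i2, h2⟩ := h hb hk
  exact ⟨(i1, i2), mul_le_mul h1 h2 (by positivity) ((pow_nonneg ha _).trans h1)⟩

/-- height of an integer polynomial expression in two numbers -/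
theorem ht_two (t g : K) (n m : ℕ) (b : ℕ → ℕ → ℤ) {M : ℝ} (hM : 1 ≤ M)
    (hb : ∀ j ≤ n, ∀ k ≤ m, |(b j k : ℝ)| ≤ M) :
    mulHeight₁ (∑ j ∈ Finset.range (n + 1), ∑ k ∈ Finset.range (m + 1), b j k * t ^ j * g ^ k) ≤
      ((n + 1) * (m + 1) * M) ^ Module.finrank ℚ K * mulHeight₁ t ^ n * mulHeight₁ g ^ m := by
  have r1 : (1 : ℝ) ≤ (n + 1) * (m + 1) * M :=
    one_le_mul_of_one_le_of_one_le (one_le_mul_of_one_le_of_one_le (by simp) (by simp)) hM
  set y : Fin 2 × Fin 2 → K := fun i => ![t ^ n, 1] i.1 * ![g ^ m, 1] i.2 with hy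
  have e : mulHeight y = mulHeight₁ t ^ n * mulHeight₁ g ^ m := by
    rw [hy, mulHeight_fun_mul_eq (pair_ne _) (pair_ne _), ← mulHeight₁_eq_mulHeight,
      ← mulHeight₁_eq_mulHeight, mulHeight₁_pow, mulHeight₁_pow]
  have y0 : y ≠ 0 := Function.ne_iff.2 ⟨(1, 1), by simp [hy]⟩
  have key : ∀ (f : K → ℝ), (∀ a b, f (a * b) = f a * f b) → f 1 = 1 → (∀ a, 0 ≤ f a) →
      ∃ i, f 1 ≤ f (y i) ∧ ∀ j ≤ n, ∀ k ≤ m, f (t ^ j * g ^ k) ≤ f (y i) := fun f hm h1 h0 => by
    have hp : ∀ a (k : ℕ), f (a ^ k) = f a ^ k := fun a k => by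
      induction k with
      | zero => simpa using h1
      | succ k ih => rw [pow_succ, hm, ih, pow_succ]
    obtain ⟨i, -, hi⟩ := Finset.exists_max_image Finset.univ (fun i => f (y i)) ⟨(1, 1), by simp⟩
    have : ∀ j ≤ n, ∀ k ≤ m, f (t ^ j * g ^ k) ≤ f (y i) := fun j hj k hk => by
      obtain ⟨l, hl⟩ := pow_mul_le (h0 t) (h0 g) hj hk
      refine le_trans ?_ (hi l (by simp))
      rw [hm, hp, hp, hy, hm]
      refine hl.trans_eq ?_
      obtain ⟨l1, l2⟩ := l
      fin_cases l1 <;> fin_cases l2 <;> simp [hp, h1]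
    exact ⟨i, by simpa using this 0 (by simp) 0 (by simp), this⟩
  rw [mul_assoc, ← e, mulHeight₁_eq_mulHeight]
  refine ht_le y0 r1 (fun v i => ?_) fun φ i => ?_
  · obtain ⟨l, h1, hl⟩ := key v (map_mul v) (map_one v) (apply_nonneg v)
    refine ⟨l, ?_⟩
    fin_cases i
    · simp only [Fin.zero_eta, Matrix.cons_val_zero]
      refine Finset.sum_induction _ (fun a => v a ≤ v (y l))
        (fun a b ha hb => (v.add_le a b).trans (max_le ha hb)) (by simp) fun j hj => ?_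
      refine Finset.sum_induction _ (fun a => v a ≤ v (y l))
        (fun a b ha hb => (v.add_le a b).trans (max_le ha hb)) (by simp) fun k hk => ?_
      rw [mul_assoc, map_mul]
      exact (mul_le_of_le_one_left (apply_nonneg v _) (fin_int_le v _)).trans
        (hl j (by simpa [Nat.lt_succ_iff] using hj) k (by simpa [Nat.lt_succ_iff] using hk))
    · exact h1
  · obtain ⟨l, h1, hl⟩ := key (fun a => ‖φ a‖) (by simp) (by simp) (by simp)
    refine ⟨l, ?_⟩
    fin_cases i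
    · simp only [Fin.zero_eta, Matrix.cons_val_zero, map_sum]
      refine (norm_sum_le_of_le _ (n := fun _ => (m + 1) * (M * ‖φ (y l)‖)) fun j hj =>
        (norm_sum_le_of_le _ (n := fun _ => M * ‖φ (y l)‖) fun k hk => ?_).trans (by simp)).trans
        (by simp [mul_assoc])
      have hj' : j ≤ n := by simpa [Nat.lt_succ_iff] using hj
      have hk' : k ≤ m := by simpa [Nat.lt_succ_iff] using hk
      rw [mul_assoc, map_mul, norm_mul, map_intCast, Complex.norm_intCast]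
      exact mul_le_mul (hb j hj' k hk') (hl j hj' k hk') (norm_nonneg _) (by linarith)
    · exact h1.trans (le_mul_of_one_le_left (norm_nonneg _) r1)

/-- height of a root of a binary form -/
theorem ht_root {k : ℕ} {c : Fin (k + 1) → K} (hc : c ≠ 0) {Y Z : K}
    (h : ∑ j, c j * Y ^ (j : ℕ) * Z ^ (k - j) = 0) :
    mulHeight ![Y, Z] ≤ (k + 1 : ℝ) ^ Module.finrank ℚ K * mulHeight c := by
  classical
  have r1 : (1 : ℝ) ≤ k + 1 := by simp
  by_cases hZ : Z = 0
  · subst hZ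
    simpa using one_le_mul_of_one_le_of_one_le (one_le_pow₀ r1) (one_le_mulHeight c)
  set t := Y / Z with ht
  have h1 : ∑ j, c j * t ^ (j : ℕ) = 0 := by
    have : ∑ j, c j * t ^ (j : ℕ) = (∑ j, c j * Y ^ (j : ℕ) * Z ^ (k - j)) / Z ^ k := by
      rw [Finset.sum_div]
      refine Finset.sum_congr rfl fun j _ => ?_
      rw [ht, pow_sub₀ _ hZ (Nat.lt_succ_iff.1 j.2), div_pow]
      field_simp
    rw [this, h, zero_div]
  obtain ⟨e, he, hmax⟩ := Finset.exists_max_image (Finset.univ.filter fun j => c j ≠ 0) id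
    (by simpa [Finset.Nonempty] using Function.ne_iff.1 hc)
  have ce : c e ≠ 0 := by simpa using he
  have h2 : c e * t ^ (e : ℕ) = -∑ j ∈ Finset.univ.erase e, c j * t ^ (j : ℕ) := by
    rw [← Finset.add_sum_erase _ _ (Finset.mem_univ e)] at h1
    linear_combination h1
  have key : ∀ (f : K → ℝ) (r : ℝ), 1 ≤ r → (∀ a b, f (a * b) = f a * f b) →
      (∀ a (i : ℕ), f (a ^ i) = f a ^ i) → (∀ a, 0 ≤ f a) → f 0 = 0 →
      (∀ M, 0 ≤ M → (∀ j ∈ Finset.univ.erase e, f (c j * t ^ (j : ℕ)) ≤ M) →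
        f (c e * t ^ (e : ℕ)) ≤ r * M) →
      ∀ i : Fin 2, ∃ j, f (![c e * t, c e] i) ≤ r * f (c j) := fun f r hr hm hp h0 f0 hs i => by
    obtain ⟨l, -, hl⟩ := Finset.exists_max_image Finset.univ (fun i => f (c i)) ⟨e, by simp⟩
    have a1 : f (c e) ≤ r * f (c l) :=
      (hl e (by simp)).trans (le_mul_of_one_le_left (h0 _) hr)
    refine ⟨l, ?_⟩
    fin_cases i
    swap
    · exact a1
    change f (c e * t) ≤ _
    rcases le_or_gt (f t) 1 with h1 | h1
    · rw [hm]; exact (mul_le_of_le_one_right (h0 _) h1).trans a1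
    have := hs (f (c l) * f t ^ (e : ℕ) / f t) (by have := h0 (c l); positivity) fun j hj => by
      by_cases cj : c j = 0
      · rw [cj, zero_mul, f0]; have := h0 (c l); positivity
      have : j < e := lt_of_le_of_ne (hmax j (by simpa using cj)) (by simpa using hj)
      rw [hm, hp, le_div_iff₀ (by linarith), mul_assoc, ← pow_succ]
      exact mul_le_mul (hl j (by simp)) (pow_le_pow_right₀ h1.le this) (by positivity) (h0 _)
    rw [hm, hp, ← mul_div_assoc, le_div_iff₀ (by linarith)] at this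
    rw [hm]
    have hp : 0 < f t ^ (e : ℕ) := by positivity
    nlinarith
  rw [← mulHeight_smul_eq_mulHeight _ (show c e / Z ≠ 0 from div_ne_zero ce hZ),
    show (c e / Z) • ![Y, Z] = ![c e * t, c e] by
      ext i; fin_cases i <;> simp [ht] <;> field_simp]
  refine ht_le hc r1 (fun v i => ?_) fun φ => ?_
  · simpa using key v 1 le_rfl (map_mul v) (map_pow v) (apply_nonneg v) (map_zero v)
      (fun M h0 hM => by
        rw [h2, map_neg_eq_map, one_mul]
        exact Finset.sum_induction _ (fun a => v a ≤ M)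
          (fun a b ha hb => (v.add_le a b).trans (max_le ha hb)) (by simpa) hM) i
  · refine key (fun a => ‖φ a‖) _ r1 (by simp) (by simp) (by simp) (by simp) fun M h0 hM => ?_
    simp only [h2, map_neg, norm_neg, map_sum]
    refine (norm_sum_le_of_le _ hM).trans ?_
    simp only [Finset.sum_const, nsmul_eq_mul]
    gcongr
    simp

end Pool.Agent.P.MP_68214b_ag
end

-- part Pool.Agent.P.MP_68214b_ag.HsDef
section

open Polynomial Finset Matrix NumberField

namespace Pool.Agent.P.MP_68214b_ag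

/-- parameters of the recurrence u (x+2) = (al x + be) u (x+1) + ga * prod (a x + b i) * u x -/
structure Par (A : Type) (κ : ℕ) where
  al : A
  be : A
  ga : A
  a : ℕ
  b : Fin κ → ℕ

section Ring
variable {A B : Type} [CommRing A] [CommRing B] {κ : ℕ}

def Par.map (D : Par A κ) (f : A →+* B) : Par B κ := ⟨f D.al, f D.be, f D.ga, D.a, D.b⟩

def Par.p (D : Par A κ) (x : A) : A := D.al * x + D.be

def Par.q (D : Par A κ) (x : A) : A := D.ga * ∏ i, ((D.a : A) * x + (D.b i : A))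

/-- one step -/
def Par.T (D : Par A κ) (x : A) : Matrix (Fin 2) (Fin 2) A := !![D.p x, D.q x; 1, 0]

/-- the window product T (x+m-1) ... T x -/
def Par.W (D : Par A κ) (x : A) : ℕ → Matrix (Fin 2) (Fin 2) A
  | 0 => 1
  | m + 1 => D.T (x + m) * D.W x m

/-- the two shapes -/
def Par.Ok (D : Par A κ) : Prop := κ = 1 ∧ D.al = 0 ∨ κ = 2

def Par.Pos (D : Par A κ) : Prop := 0 < D.a ∧ ∀ i, 0 < D.b i

/-- the window product with the variable as a starting point -/
noncomputable def Par.WX (D : Par A κ) (m : ℕ) : Matrix (Fin 2) (Fin 2) A[X] := (D.map C).W X m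

/-- an orbit -/
def Par.Orb (D : Par A κ) (U : ℕ → Fin 2 → A) : Prop := ∀ j : ℕ, U (j + 1) = D.T j *ᵥ U j

/-- value of the binary form of degree k with coefficients c -/
def hev (k : ℕ) (c : ℕ → A) (v : Fin 2 → A) : A :=
  ∑ i ∈ range (k + 1), c i * v 0 ^ i * v 1 ^ (k - i)

/-- the vector orthogonal to row r -/
def perp (M : Matrix (Fin 2) (Fin 2) A) (r : Fin 2) : Fin 2 → A := ![-M r 1, M r 0]

/-- the determinant of two vectors -/
def wed (v w : Fin 2 → A) : A := v 0 * w 1 - v 1 * w 0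

@[simp] theorem Par.map_al (D : Par A κ) (f : A →+* B) : (D.map f).al = f D.al := rfl
@[simp] theorem Par.map_be (D : Par A κ) (f : A →+* B) : (D.map f).be = f D.be := rfl
@[simp] theorem Par.map_ga (D : Par A κ) (f : A →+* B) : (D.map f).ga = f D.ga := rfl
@[simp] theorem Par.map_a (D : Par A κ) (f : A →+* B) : (D.map f).a = D.a := rfl
@[simp] theorem Par.map_b (D : Par A κ) (f : A →+* B) : (D.map f).b = D.b := rfl

theorem Par.map_map {E : Type} [CommRing E] (D : Par A κ) (f : A →+* B) (g : B →+* E) :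
    (D.map f).map g = D.map (g.comp f) := rfl

theorem Par.Ok.map {D : Par A κ} (h : D.Ok) (f : A →+* B) : (D.map f).Ok :=
  h.imp (fun h => ⟨h.1, by simp [h.2]⟩) id

theorem Par.Pos.map {D : Par A κ} (h : D.Pos) (f : A →+* B) : (D.map f).Pos := h

theorem Par.Ok.le {D : Par A κ} (h : D.Ok) : 1 ≤ κ ∧ κ ≤ 2 := by
  rcases h with h | h <;> omega

theorem Par.p_map (D : Par A κ) (f : A →+* B) (x : A) : f (D.p x) = (D.map f).p (f x) := by
  simp [Par.p]

theorem Par.q_map (D : Par A κ) (f : A →+* B) (x : A) : f (D.q x) = (D.map f).q (f x) := by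
  simp [Par.q]

theorem Par.T_map (D : Par A κ) (f : A →+* B) (x : A) : (D.T x).map f = (D.map f).T (f x) := by
  ext i j; fin_cases i <;> fin_cases j <;> simp [Par.T, Par.p_map, Par.q_map]

@[simp] theorem Par.W_zero (D : Par A κ) (x : A) : D.W x 0 = 1 := rfl

theorem Par.W_succ (D : Par A κ) (x : A) (m : ℕ) : D.W x (m + 1) = D.T (x + m) * D.W x m := rfl

theorem Par.W_map (D : Par A κ) (f : A →+* B) (x : A) (m : ℕ) :
    (D.W x m).map f = (D.map f).W (f x) m := by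
  induction m with
  | zero => simp
  | succ m ih => rw [Par.W_succ, Par.W_succ, Matrix.map_mul, ih, Par.T_map]; simp

theorem Par.W_map_apply (D : Par A κ) (f : A →+* B) (x : A) (m : ℕ) (r s : Fin 2) :
    f (D.W x m r s) = (D.map f).W (f x) m r s := by
  rw [← Par.W_map]; rfl

theorem Par.W_add (D : Par A κ) (x : A) (m l : ℕ) :
    D.W x (m + l) = D.W (x + m) l * D.W x m := by
  induction l with
  | zero => simp
  | succ l ih =>
    rw [← add_assoc, Par.W_succ, Par.W_succ, ih, Matrix.mul_assoc]; congr 2; push_cast; ring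

theorem Par.T_det (D : Par A κ) (x : A) : (D.T x).det = -D.q x := by simp [Par.T]

theorem Par.W_det (D : Par A κ) (x : A) (m : ℕ) :
    (D.W x m).det = ∏ l ∈ range m, -D.q (x + l) := by
  induction m with
  | zero => simp
  | succ m ih => rw [Par.W_succ, det_mul, ih, Par.T_det, prod_range_succ, mul_comm]

theorem Par.WX_eval (D : Par A κ) (x : A) (m : ℕ) :
    (D.WX m).map (evalRingHom x) = D.W x m := by
  rw [Par.WX, Par.W_map, Par.map_map]
  congr 1
  · cases D; simp [Par.map]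
  · simp

theorem Par.Orb.eq {D : Par A κ} {U : ℕ → Fin 2 → A} (h : D.Orb U) (j m : ℕ) :
    U (j + m) = D.W j m *ᵥ U j := by
  induction m with
  | zero => simp
  | succ m ih => rw [← add_assoc, h, ih, Par.W_succ, mulVec_mulVec]; push_cast; rfl

theorem Par.Orb.map {D : Par A κ} {U : ℕ → Fin 2 → A} (h : D.Orb U) (f : A →+* B) :
    (D.map f).Orb fun j i => f (U j i) := fun j => by
  ext i
  change f (U (j + 1) i) = _
  rw [h j, RingHom.map_mulVec, Par.T_map]
  simp [Function.comp_def]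

theorem hev_map (f : A →+* B) (k : ℕ) (c : ℕ → A) (v : Fin 2 → A) :
    f (hev k c v) = hev k (fun i => f (c i)) fun i => f (v i) := by
  simp [hev]

theorem hev_smul (k : ℕ) (c : ℕ → A) (t : A) (v : Fin 2 → A) :
    hev k c (t • v) = t ^ k * hev k c v := by
  rw [hev, hev, mul_sum]
  refine sum_congr rfl fun i hi => ?_
  have : t ^ k = t ^ i * t ^ (k - i) := by
    rw [← pow_add]; congr 1; have := mem_range.1 hi; omega
  simp only [Pi.smul_apply, smul_eq_mul, mul_pow, this]; ring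

theorem wed_mulVec (M : Matrix (Fin 2) (Fin 2) A) (v w : Fin 2 → A) :
    wed (M *ᵥ v) (M *ᵥ w) = M.det * wed v w := by
  simp [wed, det_fin_two, mulVec, dotProduct, Fin.sum_univ_two]; ring

end Ring

/-- sup norm of a vector for an absolute value -/
noncomputable def nv {K : Type} (v : K → ℝ) (U : Fin 2 → K) : ℝ := max (v (U 0)) (v (U 1))

section NF
variable {K : Type} [Field K] [NumberField K] {κ : ℕ}

/-- the rational prime below a finite place -/
noncomputable def pv (v : FinitePlace K) : ℕ := ringChar (𝓞 K ⧸ v.maximalIdeal.asIdeal)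

/-- the additive valuation of the prime below -/
noncomputable def el (v : FinitePlace K) : ℝ := -Real.log (v (pv v))

/-- the additive valuation of a vector -/
noncomputable def cv (v : FinitePlace K) (U : Fin 2 → K) : ℝ := -Real.log (nv v U)

/-- the parameters seen in the field -/
noncomputable def Par.toK (D : Par (𝓞 K) κ) : Par K κ := D.map (algebraMap (𝓞 K) K)

/-- ordinary place -/
def Par.Ord (D : Par (𝓞 K) κ) (v : FinitePlace K) : Prop := v (D.toK.W 0 (pv v)).trace = 1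

/-- neutral place -/
def Par.Neu (D : Par (𝓞 K) κ) (v : FinitePlace K) : Prop :=
  ∀ j X : ℕ, (∀ i, D.a * j + D.b i ≤ X) → ∀ r s,
    v (D.toK.W 0 j r s) ^ 2 * v (pv v) ^ (4 * Nat.log (pv v) X) ≤ v (j.factorial) ^ κ

/-- the reciprocals of the primes with a place in a given set diverge -/
def Div (O : FinitePlace K → Prop) : Prop :=
  ∀ (B : ℕ) (M : ℝ), ∃ T : Finset ℕ, (∀ p ∈ T, B < p ∧ ∃ v, pv v = p ∧ O v) ∧
    M ≤ ∑ p ∈ T, (1 : ℝ) / p

/-- the data of the main estimate -/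
structure Ctx (K : Type) [Field K] [NumberField K] (κ : ℕ) where
  D : Par (𝓞 K) κ
  U : ℕ → Fin 2 → K
  B : ℕ
  ok : D.Ok
  pos : D.Pos
  ga : D.ga ≠ 0
  orb : D.toK.Orb U
  int : ∀ i, IsIntegral ℤ (U 0 i)
  ne : U 0 ≠ 0
  two : 2 ≤ B
  good : ∀ v : FinitePlace K, B < pv v →
    v D.toK.ga = 1 ∧ ¬pv v ∣ D.a ∧ nv v (U 0) = 1 ∧ (D.Ord v ∨ D.Neu v)
  div : Div D.Ord

end NF

end Pool.Agent.P.MP_68214b_ag
end

-- part Pool.Agent.P.MP_68214b_ag.HsB1
section

open Polynomial Finset Matrix NumberField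

namespace Pool.Agent.P.MP_68214b_ag

variable {K : Type} [Field K] [NumberField K]

theorem fin_quot_HsB1 (v : FinitePlace K) : Finite (𝓞 K ⧸ v.maximalIdeal.asIdeal) :=
  Ideal.finiteQuotientOfFreeOfNeBot _ v.maximalIdeal.ne_bot

theorem lt_iff_HsB1 (v : FinitePlace K) (x : 𝓞 K) :
    v (algebraMap (𝓞 K) K x) < 1 ↔ x ∈ v.maximalIdeal.asIdeal := by
  rw [← FinitePlace.norm_embedding_eq]
  exact FinitePlace.norm_lt_one_iff_mem K v.maximalIdeal x

theorem charP_HsB1 (v : FinitePlace K) : CharP (𝓞 K ⧸ v.maximalIdeal.asIdeal) (pv v) :=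
  ringChar.charP _

theorem nat_lt_iff_HsB1 (v : FinitePlace K) (n : ℕ) : v n < 1 ↔ pv v ∣ n := by
  have := charP_HsB1 v
  rw [← CharP.cast_eq_zero_iff (𝓞 K ⧸ v.maximalIdeal.asIdeal) (pv v) n,
    ← map_natCast (Ideal.Quotient.mk v.maximalIdeal.asIdeal), Ideal.Quotient.eq_zero_iff_mem,
    ← lt_iff_HsB1, map_natCast (algebraMap (𝓞 K) K)]

theorem pv_prime (v : FinitePlace K) : (pv v).Prime := by
  have := charP_HsB1 v
  have := fin_quot_HsB1 v
  have := v.maximalIdeal.isPrime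
  exact CharP.char_is_prime (𝓞 K ⧸ v.maximalIdeal.asIdeal) (pv v)

theorem v_pv_pos (v : FinitePlace K) : 0 < v (pv v) :=
  FinitePlace.pos_iff.2 (Nat.cast_ne_zero.2 (pv_prime v).ne_zero)

theorem v_pv_le (v : FinitePlace K) : v (pv v) ≤ 1 / (pv v : ℝ) := by
  have hc := charP_HsB1 v
  have hf := fin_quot_HsB1 v
  have hp := pv_prime v
  have hx : ((pv v : ℕ) : 𝓞 K) ≠ 0 := Nat.cast_ne_zero.2 hp.ne_zero
  have h := FinitePlace.apply_mul_absNorm_pow_eq_one v hx
  have hmem : ((pv v : ℕ) : 𝓞 K) ∈ v.maximalIdeal.asIdeal := by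
    rw [← lt_iff_HsB1, map_natCast, nat_lt_iff_HsB1]
  have hm : multiplicity v.maximalIdeal.asIdeal (Ideal.span {((pv v : ℕ) : 𝓞 K)}) ≠ 0 := by
    rw [multiplicity_ne_zero]
    exact Ideal.dvd_span_singleton.2 hmem
  have hN : pv v ≤ Ideal.absNorm v.maximalIdeal.asIdeal := by
    have := Fintype.ofFinite (𝓞 K ⧸ v.maximalIdeal.asIdeal)
    rw [Ideal.absNorm_apply, Submodule.cardQuot_apply, Nat.card_eq_fintype_card]
    refine Nat.le_of_dvd Fintype.card_pos ?_
    exact (CharP.cast_eq_zero_iff (𝓞 K ⧸ v.maximalIdeal.asIdeal) (pv v) _).1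
      (Nat.cast_card_eq_zero _)
  have hN' : (pv v : ℝ) ≤ (Ideal.absNorm v.maximalIdeal.asIdeal : ℝ) ^
      multiplicity v.maximalIdeal.asIdeal (Ideal.span {((pv v : ℕ) : 𝓞 K)}) := by
    have h1 : pv v ≤ Ideal.absNorm v.maximalIdeal.asIdeal ^
        multiplicity v.maximalIdeal.asIdeal (Ideal.span {((pv v : ℕ) : 𝓞 K)}) :=
      hN.trans (Nat.le_self_pow hm _)
    exact_mod_cast h1
  have hpp : (0 : ℝ) < pv v := Nat.cast_pos.2 hp.pos
  have e : v (((pv v : ℕ) : 𝓞 K) : K) = v (pv v) := by simp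
  rw [e] at h
  rw [le_div_iff₀ hpp, ← h]
  exact mul_le_mul_of_nonneg_left hN' (v_pv_pos v).le

theorem v_pv_lt (v : FinitePlace K) : v (pv v) < 1 := (nat_lt_iff_HsB1 v _).2 dvd_rfl

theorem el_ge (v : FinitePlace K) : Real.log (pv v) ≤ el v := by
  have h := Real.log_le_log (v_pv_pos v) (v_pv_le v)
  rw [one_div, Real.log_inv] at h
  unfold el
  linarith

theorem el_pos (v : FinitePlace K) : 0 < el v := by
  have h := Real.log_neg (v_pv_pos v) (v_pv_lt v)
  unfold el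
  linarith

theorem v_nat (v : FinitePlace K) {n : ℕ} (hn : n ≠ 0) :
    v n = v (pv v) ^ padicValNat (pv v) n := by
  have hp := pv_prime v
  have : Fact (pv v).Prime := ⟨hp⟩
  obtain ⟨m, hm⟩ : pv v ^ padicValNat (pv v) n ∣ n := pow_padicValNat_dvd
  have hnd : ¬pv v ∣ m := by
    rintro ⟨k, rfl⟩
    refine pow_succ_padicValNat_not_dvd (p := pv v) hn ⟨k, ?_⟩
    rw [pow_succ, mul_assoc]
    exact hm
  have h1 : v m = 1 :=
    le_antisymm (fin_nat_le v m) (not_lt.1 fun h => hnd ((nat_lt_iff_HsB1 v m).1 h))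
  conv_lhs => rw [hm]
  rw [Nat.cast_mul, Nat.cast_pow, map_mul, map_pow, h1, mul_one]

theorem finite_pv (X : ℕ) : {v : FinitePlace K | pv v ≤ X}.Finite := by
  have h : ((X.factorial : ℕ) : K) ≠ 0 := Nat.cast_ne_zero.2 X.factorial_ne_zero
  refine Set.Finite.subset (FinitePlace.hasFiniteMulSupport h) fun v hv => ?_
  exact ((nat_lt_iff_HsB1 v _).2 (Nat.dvd_factorial (pv_prime v).pos hv)).ne

theorem v_ring_le (v : FinitePlace K) (x : 𝓞 K) : v (algebraMap (𝓞 K) K x) ≤ 1 := by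
  rw [← FinitePlace.norm_embedding_eq]
  exact FinitePlace.norm_le_one K v.maximalIdeal x

theorem v_integral_le (v : FinitePlace K) {x : K} (hx : IsIntegral ℤ x) : v x ≤ 1 :=
  v_ring_le v ⟨x, hx⟩

theorem exists_res (v : FinitePlace K) : ∃ (F : Type) (_ : Field F) (_ : CharP F (pv v))
    (φ : 𝓞 K →+* F), ∀ x, φ x = 0 ↔ v (algebraMap (𝓞 K) K x) < 1 := by
  have := v.maximalIdeal.isMaximal
  refine ⟨𝓞 K ⧸ v.maximalIdeal.asIdeal, Ideal.Quotient.field _, charP_HsB1 v,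
    Ideal.Quotient.mk _, fun x => ?_⟩
  rw [lt_iff_HsB1]
  exact Ideal.Quotient.eq_zero_iff_mem

theorem of_hom_HsB1 {F : Type} [Field F] {p : ℕ} (hp : p.Prime) [CharP F p] (φ : 𝓞 K →+* F) :
    ∃ v : FinitePlace K, pv v = p ∧ ∀ x, φ x = 0 ↔ v (algebraMap (𝓞 K) K x) < 1 := by
  have hmem : ((p : ℕ) : 𝓞 K) ∈ RingHom.ker φ := by
    rw [RingHom.mem_ker, map_natCast]
    exact CharP.cast_eq_zero F p
  have hne : RingHom.ker φ ≠ ⊥ := fun h => by
    rw [h, Ideal.mem_bot] at hmem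
    exact Nat.cast_ne_zero.2 hp.ne_zero hmem
  let w : IsDedekindDomain.HeightOneSpectrum (𝓞 K) := ⟨RingHom.ker φ, RingHom.ker_isPrime φ, hne⟩
  have key : ∀ x, φ x = 0 ↔ FinitePlace.mk w (algebraMap (𝓞 K) K x) < 1 := fun x => by
    rw [lt_iff_HsB1, FinitePlace.maximalIdeal_mk]
    exact Iff.rfl
  refine ⟨FinitePlace.mk w, ?_, key⟩
  have h := (key _).1 hmem
  rw [map_natCast, nat_lt_iff_HsB1] at h
  exact (Nat.prime_dvd_prime_iff_eq (pv_prime _) hp).1 h

theorem exists_pv {p : ℕ} (hp : p.Prime) : ∃ v : FinitePlace K, pv v = p := by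
  have hprime : (Ideal.span {(p : ℤ)}).IsPrime :=
    (Ideal.span_singleton_prime (by exact_mod_cast hp.ne_zero)).2 (Nat.prime_iff_prime_int.1 hp)
  have hmax : (Ideal.span {(p : ℤ)}).IsMaximal :=
    hprime.isMaximal (by simpa using hp.ne_zero)
  obtain ⟨Q, hQ, hc⟩ := Ideal.exists_ideal_over_maximal_of_isIntegral (S := 𝓞 K)
    (Ideal.span {(p : ℤ)}) (by
      rw [(RingHom.injective_iff_ker_eq_bot _).1 (algebraMap ℤ (𝓞 K)).injective_int]
      exact bot_le)
  have hmem : ((p : ℕ) : 𝓞 K) ∈ Q := by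
    have : (p : ℤ) ∈ Q.comap (algebraMap ℤ (𝓞 K)) := hc ▸ Ideal.mem_span_singleton_self _
    simpa using this
  have hne : Q ≠ ⊥ := fun h => by
    rw [h, Ideal.mem_bot] at hmem
    exact Nat.cast_ne_zero.2 hp.ne_zero hmem
  let w : IsDedekindDomain.HeightOneSpectrum (𝓞 K) := ⟨Q, hQ.isPrime, hne⟩
  refine ⟨FinitePlace.mk w, ?_⟩
  have h : FinitePlace.mk w (algebraMap (𝓞 K) K ((p : ℕ) : 𝓞 K)) < 1 := by
    rw [lt_iff_HsB1, FinitePlace.maximalIdeal_mk]
    exact hmem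
  rw [map_natCast, nat_lt_iff_HsB1] at h
  exact (Nat.prime_dvd_prime_iff_eq (pv_prime _) hp).1 h

theorem exists_of_hom {F : Type} [Field F] {p : ℕ} (hp : p.Prime) [CharP F p] (φ : 𝓞 K →+* F) :
    ∃ v : FinitePlace K, pv v = p ∧ ∀ x, φ x = 0 ↔ v (algebraMap (𝓞 K) K x) < 1 :=
  of_hom_HsB1 hp φ

theorem big_unit {x : K} (hx : x ≠ 0) : ∃ B : ℕ, ∀ v : FinitePlace K, B < pv v → v x = 1 := by
  have h : (Function.mulSupport fun w : FinitePlace K => w x).Finite :=
    FinitePlace.hasFiniteMulSupport hx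
  refine ⟨h.toFinset.sup pv, fun v hv => ?_⟩
  by_contra hne
  exact absurd (Finset.le_sup (f := pv) (h.mem_toFinset.2 hne)) (not_le.2 hv)

end Pool.Agent.P.MP_68214b_ag
end

-- part Pool.Agent.P.MP_68214b_ag.HsB2
section

open Polynomial Finset Matrix NumberField

namespace Pool.Agent.P.MP_68214b_ag

variable {K : Type} [Field K] [NumberField K]

theorem sum_mult_HsB2 (L : ℝ) :
    ∑ w : InfinitePlace K, (w.mult : ℝ) * L = Module.finrank ℚ K * L := by
  rw [← sum_mul, ← Nat.cast_sum, InfinitePlace.sum_mult_eq]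

theorem prod_le {x : K} (h0 : x ≠ 0) (hx : ∀ v : FinitePlace K, v x ≤ 1)
    (S : Finset (FinitePlace K)) {L : ℝ} (hL : ∀ φ : K →+* ℂ, Real.log ‖φ x‖ ≤ L) :
    ∑ v ∈ S, -Real.log (v x) ≤ Module.finrank ℚ K * L := by
  classical
  have hfin := FinitePlace.hasFiniteMulSupport h0
  obtain ⟨T, hST, hT⟩ : ∃ T : Finset (FinitePlace K), S ⊆ T ∧
      Function.mulSupport (fun v : FinitePlace K => v x) ⊆ T :=
    ⟨S ∪ hfin.toFinset, subset_union_left, fun v hv =>
      mem_coe.2 (mem_union_right _ (hfin.mem_toFinset.2 hv))⟩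
  have hp := prod_abs_eq_one h0
  rw [finprod_eq_prod_of_mulSupport_subset _ hT] at hp
  have hw : ∀ w : InfinitePlace K, w x ≠ 0 := fun w => (InfinitePlace.pos_iff.2 h0).ne'
  have hv : ∀ v : FinitePlace K, 0 < v x := fun v => FinitePlace.pos_iff.2 h0
  have hl := congrArg Real.log hp
  rw [Real.log_mul (prod_ne_zero_iff.2 fun w _ => pow_ne_zero _ (hw w))
    (prod_ne_zero_iff.2 fun v _ => (hv v).ne'), Real.log_one,
    Real.log_prod fun w _ => pow_ne_zero _ (hw w), Real.log_prod fun v _ => (hv v).ne'] at hl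
  have h1 : ∑ v ∈ S, -Real.log (v x) ≤ ∑ v ∈ T, -Real.log (v x) :=
    sum_le_sum_of_subset_of_nonneg hST fun v _ _ =>
      neg_nonneg.2 (Real.log_nonpos (hv v).le (hx v))
  have h2 : ∑ w : InfinitePlace K, Real.log (w x ^ w.mult) ≤
      ∑ w : InfinitePlace K, (w.mult : ℝ) * L := by
    refine sum_le_sum fun w _ => ?_
    rw [Real.log_pow, ← InfinitePlace.norm_embedding_eq]
    exact mul_le_mul_of_nonneg_left (hL _) (Nat.cast_nonneg _)
  rw [sum_mult_HsB2] at h2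
  rw [sum_neg_distrib (s := T)] at h1
  linarith

theorem iSup_two_HsB2 (f : Fin 2 → ℝ) : ⨆ i, f i = max (f 0) (f 1) := by
  refine le_antisymm (ciSup_le fun i => ?_) (max_le ?_ ?_)
  · fin_cases i
    · exact le_max_left _ _
    · exact le_max_right _ _
  · exact le_ciSup (Finite.bddAbove_range f) 0
  · exact le_ciSup (Finite.bddAbove_range f) 1

omit [NumberField K] in
theorem max_pos_HsB2 {U : Fin 2 → K} (h0 : U ≠ 0) (v : AbsoluteValue K ℝ) :
    0 < max (v (U 0)) (v (U 1)) := by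
  by_contra h
  have h1 := max_le_iff.1 (not_lt.1 h)
  refine h0 (funext fun i => ?_)
  fin_cases i
  · exact v.eq_zero.1 (le_antisymm h1.1 (v.nonneg _))
  · exact v.eq_zero.1 (le_antisymm h1.2 (v.nonneg _))

theorem height_ge {U : Fin 2 → K} (h0 : U ≠ 0) (S : Finset (FinitePlace K))
    (hS : ∀ v : FinitePlace K, v ∉ S → nv v U = 1) {L : ℝ}
    (hL : ∀ φ : K →+* ℂ, L ≤ Real.log (max ‖φ (U 0)‖ ‖φ (U 1)‖)) :
    Module.finrank ℚ K * L - Real.log (Height.mulHeight U) ≤ ∑ v ∈ S, cv v U := by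
  have hH := NumberField.mulHeight_eq h0
  simp only [iSup_two_HsB2] at hH
  have hT : Function.mulSupport (fun v : FinitePlace K => max (v (U 0)) (v (U 1))) ⊆ S := by
    intro v hv
    by_contra hn
    exact hv (hS v hn)
  rw [finprod_eq_prod_of_mulSupport_subset _ hT] at hH
  have hw : ∀ w : InfinitePlace K, max (w (U 0)) (w (U 1)) ≠ 0 :=
    fun w => (max_pos_HsB2 h0 w.1).ne'
  have hv : ∀ v : FinitePlace K, max (v (U 0)) (v (U 1)) ≠ 0 :=
    fun v => (max_pos_HsB2 h0 v.1).ne'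
  rw [hH, Real.log_mul (prod_ne_zero_iff.2 fun w _ => pow_ne_zero _ (hw w))
    (prod_ne_zero_iff.2 fun v _ => hv v),
    Real.log_prod fun w _ => pow_ne_zero _ (hw w), Real.log_prod fun v _ => hv v]
  have h2 : ∑ w : InfinitePlace K, (w.mult : ℝ) * L ≤
      ∑ w : InfinitePlace K, Real.log (max (w (U 0)) (w (U 1)) ^ w.mult) := by
    refine sum_le_sum fun w _ => ?_
    rw [Real.log_pow, ← InfinitePlace.norm_embedding_eq w (U 0),
      ← InfinitePlace.norm_embedding_eq w (U 1)]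
    exact mul_le_mul_of_nonneg_left (hL _) (Nat.cast_nonneg _)
  rw [sum_mult_HsB2] at h2
  have h3 : ∑ v ∈ S, cv v U = -∑ v ∈ S, Real.log (max (v (U 0)) (v (U 1))) := by
    rw [← sum_neg_distrib]; rfl
  linarith

theorem fibre_HsB2 (S : Finset (FinitePlace K)) {p : ℕ} (hp : p.Prime) (hS : ∀ v ∈ S, pv v = p) :
    ∑ v ∈ S, el v ≤ Module.finrank ℚ K * Real.log p := by
  have h := prod_le (x := (p : K)) (Nat.cast_ne_zero.2 hp.ne_zero)
    (fun v => v_nat_le (fin_na v) p) S (L := Real.log p)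
    (fun φ => by rw [map_natCast, Complex.norm_natCast])
  refine le_trans (le_of_eq (sum_congr rfl fun v hv => ?_)) h
  rw [el, hS v hv]

theorem sum_el (S : Finset (FinitePlace K)) {X : ℕ} (hS : ∀ v ∈ S, pv v ≤ X) (g : ℕ → ℝ)
    (hg : ∀ p, p.Prime → 0 ≤ g p) :
    ∑ v ∈ S, el v * g (pv v) ≤
      Module.finrank ℚ K * ∑ p ∈ Nat.primesLE X, Real.log p * g p := by
  classical
  rw [← sum_fiberwise_of_maps_to (t := Nat.primesLE X) (g := pv)
    (fun v hv => Nat.mem_primesLE.2 ⟨hS v hv, pv_prime v⟩), mul_sum]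
  refine sum_le_sum fun p hp => ?_
  have hp' := Nat.prime_of_mem_primesLE hp
  have h1 := fibre_HsB2 (S.filter (fun v => pv v = p)) hp' fun v hv => (mem_filter.1 hv).2
  calc ∑ v ∈ S.filter (fun v => pv v = p), el v * g (pv v)
      = (∑ v ∈ S.filter (fun v => pv v = p), el v) * g p := by
        rw [sum_mul]; exact sum_congr rfl fun v hv => by rw [(mem_filter.1 hv).2]
    _ ≤ (Module.finrank ℚ K * Real.log p) * g p := mul_le_mul_of_nonneg_right h1 (hg p hp')
    _ = _ := by ring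

theorem sum_el_ge (S : Finset (FinitePlace K)) (T : Finset ℕ) (hT : ∀ p ∈ T, ∃ v ∈ S, pv v = p)
    (g : ℕ → ℝ) (hg : ∀ p, p.Prime → 0 ≤ g p) :
    ∑ p ∈ T, Real.log p * g p ≤ ∑ v ∈ S, el v * g (pv v) := by
  classical
  have hn : ∀ v : FinitePlace K, 0 ≤ el v * g (pv v) :=
    fun v => mul_nonneg (el_pos v).le (hg _ (pv_prime v))
  calc ∑ p ∈ T, Real.log p * g p
      ≤ ∑ p ∈ T, ∑ v ∈ (S.filter (fun v => pv v ∈ T)).filter (fun v => pv v = p),
          el v * g (pv v) := by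
        refine sum_le_sum fun p hp => ?_
        obtain ⟨v, hv, rfl⟩ := hT p hp
        refine le_trans (mul_le_mul_of_nonneg_right (el_ge v) (hg _ (pv_prime v))) ?_
        exact single_le_sum (f := fun v => el v * g (pv v)) (fun u _ => hn u)
          (mem_filter.2 ⟨mem_filter.2 ⟨hv, hp⟩, rfl⟩)
    _ = ∑ v ∈ S.filter (fun v => pv v ∈ T), el v * g (pv v) :=
        sum_fiberwise_of_maps_to (fun v hv => (mem_filter.1 hv).2) _
    _ ≤ _ := sum_le_sum_of_subset_of_nonneg (filter_subset _ _) fun v _ _ => hn v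

end Pool.Agent.P.MP_68214b_ag
end

-- part Pool.Agent.P.MP_68214b_ag.HsA1
section

open Polynomial Finset Matrix NumberField

namespace Pool.Agent.P.MP_68214b_ag

lemma val_prod_HsA1 {p : ℕ} (hp : p.Prime) (s : Finset ℕ) (f : ℕ → ℕ) (hf : ∀ i ∈ s, f i ≠ 0) :
    padicValNat p (∏ i ∈ s, f i) = ∑ i ∈ s, padicValNat p (f i) := by
  have := Fact.mk hp
  induction s using Finset.induction_on with
  | empty => simp
  | insert i s hi ih =>
    rw [Finset.prod_insert hi, Finset.sum_insert hi,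
      padicValNat.mul (hf i (Finset.mem_insert_self _ _))
        (Finset.prod_ne_zero_iff.2 fun x hx => hf x (Finset.mem_insert_of_mem hx)),
      ih fun x hx => hf x (Finset.mem_insert_of_mem hx)]

lemma dist_prod_HsA1 (l0 k : ℕ) :
    ∏ l ∈ (range (l0 + 1 + k)).erase l0, Nat.dist l l0 = l0.factorial * k.factorial := by
  induction k with
  | zero =>
    have h : (range (l0 + 1 + 0)).erase l0 = range l0 := by
      ext x
      simp only [Finset.mem_erase, Finset.mem_range]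
      omega
    rw [h, Nat.factorial_zero, mul_one, ← Nat.descFactorial_self, Nat.descFactorial_eq_prod_range]
    refine Finset.prod_congr rfl fun x hx => ?_
    have := Finset.mem_range.1 hx
    unfold Nat.dist
    omega
  | succ k ih =>
    have h : (range (l0 + 1 + (k + 1))).erase l0 =
        insert (l0 + 1 + k) ((range (l0 + 1 + k)).erase l0) := by
      ext x
      simp only [Finset.mem_erase, Finset.mem_range, Finset.mem_insert]
      omega
    have h2 : Nat.dist (l0 + 1 + k) l0 = k + 1 := by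
      unfold Nat.dist
      omega
    rw [h, Finset.prod_insert (by simp), ih, h2, Nat.factorial_succ]
    ring

theorem win_lower {p a b : ℕ} (hp : p.Prime) (ha : ¬p ∣ a) (hb : 0 < b) (j m : ℕ) :
    padicValNat p m.factorial ≤ padicValNat p (∏ l ∈ range m, (a * (j + l) + b)) := by
  have := Fact.mk hp
  set t := padicValNat p m.factorial with ht
  have hne : (∏ l ∈ range m, (a * (j + l) + b)) ≠ 0 :=
    Finset.prod_ne_zero_iff.2 fun x _ => by omega
  rw [← padicValNat_dvd_iff_le hne]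
  have hco : Nat.Coprime a (p ^ t) :=
    Nat.Coprime.pow_right t ((Nat.Prime.coprime_iff_not_dvd hp).2 ha).symm
  have hpos : 0 < p ^ t := pow_pos hp.pos t
  have : NeZero (p ^ t) := ⟨hpos.ne'⟩
  let u := ZMod.unitOfCoprime a hco
  let x : ℕ := ((↑u⁻¹ : ZMod (p ^ t)) * (b : ZMod (p ^ t))).val
  have hx : (a : ZMod (p ^ t)) * (x : ZMod (p ^ t)) = b := by
    have h1 : (x : ZMod (p ^ t)) = (↑u⁻¹ : ZMod (p ^ t)) * (b : ZMod (p ^ t)) := by
      simp only [x, ZMod.natCast_val, ZMod.cast_id', id_eq]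
    have h2 : (a : ZMod (p ^ t)) = (u : ZMod (p ^ t)) := (ZMod.coe_unitOfCoprime a hco).symm
    rw [h1, h2, ← mul_assoc, Units.mul_inv, one_mul]
  have hd : p ^ t ∣ (j + x).ascFactorial m :=
    (pow_padicValNat_dvd (p := p) (n := m.factorial)).trans (Nat.factorial_dvd_ascFactorial _ _)
  rw [← ZMod.natCast_eq_zero_iff] at hd ⊢
  rw [Nat.ascFactorial_eq_prod_range] at hd
  have h3 : ((∏ l ∈ range m, (a * (j + l) + b) : ℕ) : ZMod (p ^ t)) =
      (∏ _l ∈ range m, (a : ZMod (p ^ t))) * ((∏ i ∈ range m, (j + x + i) : ℕ) : ZMod (p ^ t)) := by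
    push_cast
    rw [← Finset.prod_mul_distrib]
    refine Finset.prod_congr rfl fun l _ => ?_
    rw [← hx]
    ring
  rw [h3, hd, mul_zero]

theorem win_upper {p a b X : ℕ} (hp : p.Prime) (ha : 0 < a) (hb : 0 < b) (j m : ℕ)
    (hX : a * (j + m) + b ≤ X) :
    padicValNat p (∏ l ∈ range m, (a * (j + l) + b)) ≤
      padicValNat p m.factorial + m * padicValNat p a + Nat.log p X := by
  have := Fact.mk hp
  rcases Nat.eq_zero_or_pos m with rfl | hm
  · simp
  obtain ⟨l0, hl0, hmax⟩ := Finset.exists_max_image (range m)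
    (fun l => padicValNat p (a * (j + l) + b)) ⟨0, Finset.mem_range.2 hm⟩
  have hl0' := Finset.mem_range.1 hl0
  obtain ⟨k, rfl⟩ : ∃ k, m = l0 + 1 + k := ⟨m - (l0 + 1), by omega⟩
  rw [val_prod_HsA1 hp _ _ fun x _ => by omega, ← Finset.add_sum_erase _ _ hl0]
  have h1 : padicValNat p (a * (j + l0) + b) ≤ Nat.log p X := by
    refine (padicValNat_le_nat_log _).trans (Nat.log_mono_right ?_)
    have : a * (j + l0) ≤ a * (j + (l0 + 1 + k)) := Nat.mul_le_mul_left _ (by omega)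
    omega
  have hdne : ∀ l ∈ (range (l0 + 1 + k)).erase l0, Nat.dist l l0 ≠ 0 := by
    intro l hl
    have := (Finset.mem_erase.1 hl).1
    unfold Nat.dist
    omega
  have h2 : ∀ l ∈ (range (l0 + 1 + k)).erase l0, padicValNat p (a * (j + l) + b) ≤
      padicValNat p a + padicValNat p (Nat.dist l l0) := by
    intro l hl
    have hl2 := (Finset.mem_erase.1 hl).2
    rw [← padicValNat.mul ha.ne' (hdne l hl),
      ← padicValNat_dvd_iff_le (mul_ne_zero ha.ne' (hdne l hl))]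
    have d1 : p ^ padicValNat p (a * (j + l) + b) ∣ a * (j + l) + b := pow_padicValNat_dvd
    have d2 : p ^ padicValNat p (a * (j + l) + b) ∣ a * (j + l0) + b :=
      (pow_dvd_pow p (hmax l hl2)).trans pow_padicValNat_dvd
    rcases le_total l l0 with h | h
    · obtain ⟨c, rfl⟩ := Nat.exists_eq_add_of_le h
      have e1 : Nat.dist l (l + c) = c := by
        unfold Nat.dist
        omega
      have e2 : a * (j + (l + c)) + b = (a * (j + l) + b) + a * c := by ring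
      rw [e1]
      rw [e2] at d2
      exact (Nat.dvd_add_right d1).1 d2
    · obtain ⟨c, rfl⟩ := Nat.exists_eq_add_of_le h
      have e1 : Nat.dist (l0 + c) l0 = c := by
        unfold Nat.dist
        omega
      have e2 : a * (j + (l0 + c)) + b = (a * (j + l0) + b) + a * c := by ring
      rw [e1]
      have d3 := d1
      conv at d3 => rhs; rw [e2]
      exact (Nat.dvd_add_right d2).1 d3
  have h3 := Finset.sum_le_sum h2
  rw [Finset.sum_add_distrib, ← val_prod_HsA1 hp _ _ hdne, dist_prod_HsA1, Finset.sum_const,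
    smul_eq_mul] at h3
  have h4 : ((range (l0 + 1 + k)).erase l0).card * padicValNat p a ≤
      (l0 + 1 + k) * padicValNat p a :=
    Nat.mul_le_mul_right _ (Finset.card_erase_le.trans (Finset.card_range _).le)
  have h5 : padicValNat p (l0.factorial * k.factorial) ≤
      padicValNat p (l0 + 1 + k).factorial := by
    rw [← padicValNat_dvd_iff_le (Nat.factorial_ne_zero _)]
    refine pow_padicValNat_dvd.trans ?_
    exact (Nat.factorial_mul_factorial_dvd_factorial_add l0 k).trans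
      (Nat.factorial_dvd_factorial (by omega))
  omega

theorem leg_nat {p : ℕ} (hp : p.Prime) (m : ℕ) : padicValNat p m.factorial ≤ m / (p - 1) := by
  have := Fact.mk hp
  have h := sub_one_mul_padicValNat_factorial (p := p) m
  have h2 := hp.two_le
  rw [Nat.le_div_iff_mul_le (by omega), mul_comm, h]
  omega

theorem leg_upper {p : ℕ} (hp : p.Prime) (m : ℕ) :
    (padicValNat p m.factorial : ℝ) ≤ m / ((p : ℝ) - 1) := by
  have h2 := hp.two_le
  have h1 : ((padicValNat p m.factorial : ℕ) : ℝ) ≤ ((m / (p - 1) : ℕ) : ℝ) := by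
    exact_mod_cast leg_nat hp m
  have h3 : ((p - 1 : ℕ) : ℝ) = (p : ℝ) - 1 := by
    rw [Nat.cast_sub (by omega), Nat.cast_one]
  exact h1.trans (by rw [← h3]; exact Nat.cast_div_le)

theorem leg_lower {p m X : ℕ} (hp : p.Prime) (hm : m ≤ X) (hX : p ≤ X) :
    (m : ℝ) / ((p : ℝ) - 1) - 2 * Nat.log p X ≤ padicValNat p m.factorial := by
  have := Fact.mk hp
  have h := sub_one_mul_padicValNat_factorial (p := p) m
  have h2 := hp.two_le
  have hlog : 1 ≤ Nat.log p X := Nat.log_pos hp.one_lt hX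
  have hs : (Nat.digits p m).sum ≤ (Nat.digits p m).length * (p - 1) := by
    have := List.sum_le_card_nsmul (Nat.digits p m) (p - 1) fun x hx => by
      have := Nat.digits_lt_base hp.one_lt hx
      omega
    simpa using this
  have hl : (Nat.digits p m).length ≤ 2 * Nat.log p X := by
    rcases Nat.eq_zero_or_pos m with rfl | hm0
    · simp
    · rw [Nat.length_digits p m hp.one_lt hm0.ne']
      have := Nat.log_mono_right (b := p) hm
      omega
  have hs2 : (Nat.digits p m).sum ≤ 2 * Nat.log p X * (p - 1) :=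
    hs.trans (Nat.mul_le_mul_right _ hl)
  have h4 : m ≤ (p - 1) * padicValNat p m.factorial + 2 * Nat.log p X * (p - 1) := by omega
  have h3 : ((p - 1 : ℕ) : ℝ) = (p : ℝ) - 1 := by
    rw [Nat.cast_sub (by omega), Nat.cast_one]
  have h5 : (m : ℝ) ≤ ((p : ℝ) - 1) * padicValNat p m.factorial +
      2 * Nat.log p X * ((p : ℝ) - 1) := by
    rw [← h3]
    exact_mod_cast h4
  have h6 : (0 : ℝ) < (p : ℝ) - 1 := by
    have : (2 : ℝ) ≤ p := by exact_mod_cast h2
    linarith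
  rw [sub_le_iff_le_add, div_le_iff₀ h6]
  linarith

end Pool.Agent.P.MP_68214b_ag
end

-- part Pool.Agent.P.MP_68214b_ag.HsA2
section

open Polynomial Finset Matrix NumberField

namespace Pool.Agent.P.MP_68214b_ag

theorem first_HsA2 (X : ℕ) :
    ∑ p ∈ Nat.primesLE X, Real.log p * (Nat.log p X : ℝ) ≤ (Real.log 4 + 4) * X := by
  refine le_trans (le_of_eq ?_) (Chebyshev.psi_le_const_mul_self (Nat.cast_nonneg X))
  rw [Chebyshev.psi_eq_sum_mul_log_prime]
  exact sum_congr rfl fun p _ => mul_comm _ _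

theorem fac_HsA2 (X : ℕ) :
    ∑ p ∈ Nat.primesLE X, Real.log p * (padicValNat p X.factorial : ℝ) ≤ X * Real.log X := by
  have hd : ∏ p ∈ Nat.primesLE X, p ^ padicValNat p X.factorial ∣ X.factorial := by
    refine Finset.prod_dvd_of_isRelPrime ?_ fun p _ => pow_padicValNat_dvd
    intro p hp q hq hpq
    exact Nat.coprime_iff_isRelPrime.1 (Nat.Coprime.pow _ _ ((Nat.coprime_primes
      (Nat.prime_of_mem_primesLE hp) (Nat.prime_of_mem_primesLE hq)).2 hpq))
  have h1 : ∏ p ∈ Nat.primesLE X, p ^ padicValNat p X.factorial ≤ X ^ X :=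
    (Nat.le_of_dvd X.factorial_pos hd).trans (Nat.factorial_le_pow X)
  have h0 : ∀ p ∈ Nat.primesLE X, ((p : ℝ) ^ padicValNat p X.factorial) ≠ 0 := fun p hp =>
    pow_ne_zero _ (Nat.cast_ne_zero.2 (Nat.prime_of_mem_primesLE hp).ne_zero)
  have h2 : ∏ p ∈ Nat.primesLE X, (p : ℝ) ^ padicValNat p X.factorial ≤ (X : ℝ) ^ X := by
    exact_mod_cast h1
  have h3 : 0 < ∏ p ∈ Nat.primesLE X, (p : ℝ) ^ padicValNat p X.factorial :=
    prod_pos fun p hp => pow_pos (Nat.cast_pos.2 (Nat.prime_of_mem_primesLE hp).pos) _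
  have h4 := Real.log_le_log h3 h2
  rw [Real.log_prod h0, Real.log_pow] at h4
  refine le_trans (le_of_eq (sum_congr rfl fun p _ => ?_)) h4
  rw [Real.log_pow, mul_comm]

theorem cheb_mert : ∃ c : ℝ, 0 ≤ c ∧ ∀ X : ℕ, 1 ≤ X →
    ∑ p ∈ Nat.primesLE X, Real.log p * (Nat.log p X : ℝ) ≤ c * X ∧
    ∑ p ∈ Nat.primesLE X, Real.log p * (1 / ((p : ℝ) - 1)) ≤ Real.log X + c := by
  have h4 : 0 ≤ Real.log 4 + 4 := by positivity
  refine ⟨2 * (Real.log 4 + 4), by positivity, fun X hX => ⟨?_, ?_⟩⟩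
  · have := first_HsA2 X
    have h0 : 0 ≤ (Real.log 4 + 4) * X := by positivity
    linarith
  · have hX' : (0 : ℝ) < X := by exact_mod_cast hX
    have h1 : (X : ℝ) * ∑ p ∈ Nat.primesLE X, Real.log p * (1 / ((p : ℝ) - 1)) ≤
        ∑ p ∈ Nat.primesLE X, Real.log p * (padicValNat p X.factorial : ℝ) +
          2 * ∑ p ∈ Nat.primesLE X, Real.log p * (Nat.log p X : ℝ) := by
      rw [mul_sum, mul_sum, ← sum_add_distrib]
      refine sum_le_sum fun p hp => ?_
      have a1 := leg_lower (Nat.prime_of_mem_primesLE hp) (le_refl X) (Nat.le_of_mem_primesLE hp)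
      have a2 := mul_le_mul_of_nonneg_left a1 (Real.log_natCast_nonneg p)
      have a3 : (X : ℝ) * (Real.log p * (1 / ((p : ℝ) - 1))) =
          Real.log p * ((X : ℝ) / ((p : ℝ) - 1)) := by ring
      rw [a3]
      linarith
    have h2 := first_HsA2 X
    have h3 := fac_HsA2 X
    refine le_of_mul_le_mul_left ?_ hX'
    linarith

end Pool.Agent.P.MP_68214b_ag
end

-- part Pool.Agent.P.MP_68214b_ag.HsD1
section

open Polynomial Finset Matrix NumberField

namespace Pool.Agent.P.MP_68214b_ag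

variable {K : Type} [Field K] {v : AbsoluteValue K ℝ}

theorem le_nv_HsD1 (U : Fin 2 → K) (i : Fin 2) : v (U i) ≤ nv v U := by
  fin_cases i
  · exact le_max_left _ _
  · exact le_max_right _ _

theorem nv_le_HsD1 {U : Fin 2 → K} {c : ℝ} (h : ∀ i, v (U i) ≤ c) : nv v U ≤ c :=
  max_le (h 0) (h 1)

theorem nv_nonneg_HsD1 (U : Fin 2 → K) : 0 ≤ nv v U :=
  (v.nonneg _).trans (le_nv_HsD1 U 0)

theorem add_le_HsD1 (hv : IsNonarchimedean v) {a b : K} {N c : ℝ} (hN : 0 ≤ N)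
    (ha : v a * N ≤ c) (hb : v b * N ≤ c) : v (a + b) * N ≤ c := by
  refine (mul_le_mul_of_nonneg_right (hv a b) hN).trans ?_
  rw [max_mul_of_nonneg _ _ hN]
  exact max_le ha hb

theorem sum_le_HsD1 (hv : IsNonarchimedean v) {s : Finset ℕ} {f : ℕ → K} {N c : ℝ} (hN : 0 ≤ N)
    (hc : 0 ≤ c) (h : ∀ i ∈ s, v (f i) * N ≤ c) : v (∑ i ∈ s, f i) * N ≤ c := by
  induction s using Finset.induction_on with
  | empty => simpa using hc
  | insert a s ha ih =>
    rw [sum_insert ha]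
    exact add_le_HsD1 hv hN (h a (mem_insert_self _ _))
      (ih fun i hi => h i (mem_insert_of_mem hi))

theorem mul_le_HsD1 {a b : K} {x y : ℝ} (ha : v a ≤ x) (hb : v b ≤ y) : v (a * b) ≤ x * y := by
  rw [map_mul]
  exact mul_le_mul ha hb (v.nonneg _) ((v.nonneg _).trans ha)

theorem nv_pos {U : Fin 2 → K} (h : U ≠ 0) : 0 < nv v U := by
  obtain ⟨i, hi⟩ := Function.ne_iff.1 h
  exact (v.pos hi).trans_le (le_nv_HsD1 U i)

theorem loc_up (hv : IsNonarchimedean v) {M : Matrix (Fin 2) (Fin 2) K} {β : ℝ}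
    (hM : ∀ r s, v (M r s) ≤ β) (U : Fin 2 → K) : nv v (M *ᵥ U) ≤ β * nv v U := by
  refine nv_le_HsD1 fun i => ?_
  have e : (M *ᵥ U) i = M i 0 * U 0 + M i 1 * U 1 := by
    simp [mulVec, dotProduct, Fin.sum_univ_two]
  rw [e]
  exact (hv _ _).trans (max_le (mul_le_HsD1 (hM _ _) (le_nv_HsD1 U _))
    (mul_le_HsD1 (hM _ _) (le_nv_HsD1 U _)))

theorem loc_det (hv : IsNonarchimedean v) {M : Matrix (Fin 2) (Fin 2) K} {β : ℝ}
    (hM : ∀ r s, v (M r s) ≤ β) (U : Fin 2 → K) : v M.det * nv v U ≤ β * nv v (M *ᵥ U) := by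
  have e0 : M.det * U 0 = M 1 1 * (M *ᵥ U) 0 - M 0 1 * (M *ᵥ U) 1 := by
    simp [mulVec, dotProduct, Fin.sum_univ_two, det_fin_two]; ring
  have e1 : M.det * U 1 = M 0 0 * (M *ᵥ U) 1 - M 1 0 * (M *ᵥ U) 0 := by
    simp [mulVec, dotProduct, Fin.sum_univ_two, det_fin_two]; ring
  rw [nv, mul_max_of_nonneg _ _ (v.nonneg _), ← map_mul, ← map_mul, e0, e1]
  exact max_le
    ((v_sub_le hv _ _).trans (max_le (mul_le_HsD1 (hM _ _) (le_nv_HsD1 _ _))
      (mul_le_HsD1 (hM _ _) (le_nv_HsD1 _ _))))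
    ((v_sub_le hv _ _).trans (max_le (mul_le_HsD1 (hM _ _) (le_nv_HsD1 _ _))
      (mul_le_HsD1 (hM _ _) (le_nv_HsD1 _ _))))

theorem loc_back (hv : IsNonarchimedean v) {M M' : Matrix (Fin 2) (Fin 2) K}
    (hM : ∀ r s, v (M r s) ≤ 1) (hM' : ∀ r s, v (M' r s) ≤ 1) (h : ∃ r s, v ((M' * M) r s) = 1)
    (U : Fin 2 → K) : nv v (M *ᵥ U) ≤ max (nv v ((M' * M) *ᵥ U)) (v M.det * nv v U) := by
  obtain ⟨r, s, h⟩ := h
  refine nv_le_HsD1 fun i => ?_
  have key : ∃ (e : K) (j t : Fin 2), v e = 1 ∧ (M' * M) r s * (M *ᵥ U) i =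
      M i s * ((M' * M) *ᵥ U) r + e * M' r j * (M.det * U t) := by
    fin_cases i <;> fin_cases s
    · refine ⟨-1, 1, 1, by simp, ?_⟩
      simp [mulVec, dotProduct, Fin.sum_univ_two, det_fin_two, mul_apply]; ring
    · refine ⟨1, 1, 0, by simp, ?_⟩
      simp [mulVec, dotProduct, Fin.sum_univ_two, det_fin_two, mul_apply]; ring
    · refine ⟨1, 0, 1, by simp, ?_⟩
      simp [mulVec, dotProduct, Fin.sum_univ_two, det_fin_two, mul_apply]; ring
    · refine ⟨-1, 0, 0, by simp, ?_⟩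
      simp [mulVec, dotProduct, Fin.sum_univ_two, det_fin_two, mul_apply]; ring
  obtain ⟨e, j, t, he, key⟩ := key
  have h1 : v ((M *ᵥ U) i) = v ((M' * M) r s * (M *ᵥ U) i) := by rw [map_mul, h, one_mul]
  rw [h1, key]
  refine (hv _ _).trans (max_le_max ?_ ?_)
  · simpa using mul_le_HsD1 (hM i s) (le_nv_HsD1 ((M' * M) *ᵥ U) r)
  · have := mul_le_HsD1 (mul_le_HsD1 he.le (hM' r j))
      (mul_le_HsD1 (le_refl (v M.det)) (le_nv_HsD1 U t))
    simpa only [one_mul] using this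

theorem pow_le_HsD1 {a : K} {x : ℝ} (ha : v a ≤ x) (i : ℕ) : v (a ^ i) ≤ x ^ i := by
  rw [map_pow]
  exact pow_le_pow_left₀ (v.nonneg _) ha i

theorem loc_form (hv : IsNonarchimedean v) (k : ℕ) {c : ℕ → K} (hc : ∀ i, v (c i) ≤ 1)
    (U : Fin 2 → K) : v (hev k c U) ≤ nv v U ^ k := by
  have := sum_le_HsD1 hv (s := range (k + 1)) (f := fun i => c i * U 0 ^ i * U 1 ^ (k - i))
    (N := 1) (c := nv v U ^ k) zero_le_one (pow_nonneg (nv_nonneg_HsD1 U) k) fun i hi => by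
      have := mul_le_HsD1 (mul_le_HsD1 (hc i) (pow_le_HsD1 (le_nv_HsD1 U 0) i))
        (pow_le_HsD1 (le_nv_HsD1 U 1) (k - i))
      rwa [one_mul, ← pow_add, Nat.add_sub_cancel' (Nat.lt_succ_iff.1 (mem_range.1 hi)),
        ← mul_one (v _)] at this
  rwa [mul_one] at this

theorem cl_mul_HsD1 (hv : IsNonarchimedean v) {x y x' y' : K} {N η A B : ℝ} (hN : 0 ≤ N)
    (hx : v x ≤ A) (hy' : v y' ≤ B) (h : v (x - y) * N ≤ η * A) (h' : v (x' - y') * N ≤ η * B) :
    v (x * x' - y * y') * N ≤ η * (A * B) := by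
  have e : x * x' - y * y' = x * (x' - y') + (x - y) * y' := by ring
  rw [e]
  refine add_le_HsD1 hv hN ?_ ?_
  · rw [map_mul, mul_assoc]
    calc v x * (v (x' - y') * N) ≤ A * (η * B) :=
          mul_le_mul hx h' (mul_nonneg (v.nonneg _) hN) ((v.nonneg _).trans hx)
      _ = η * (A * B) := by ring
  · rw [map_mul, mul_right_comm]
    calc v (x - y) * N * v y' ≤ η * A * B :=
          mul_le_mul h hy' (v.nonneg _) ((mul_nonneg (v.nonneg _) hN).trans h)
      _ = η * (A * B) := by ring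

theorem cl_pow_HsD1 (hv : IsNonarchimedean v) {x y : K} {N η : ℝ} (hN : 0 ≤ N) (hη : 0 ≤ η)
    (hx : v x ≤ N) (hy : v y ≤ N) (h : v (x - y) ≤ η) (i : ℕ) :
    v (x ^ i - y ^ i) * N ≤ η * N ^ i := by
  induction i with
  | zero => simpa using hη
  | succ i ih =>
    rw [pow_succ, pow_succ, pow_succ]
    exact cl_mul_HsD1 hv hN (pow_le_HsD1 hx i) hy ih (mul_le_mul_of_nonneg_right h hN)

theorem cl_hev_HsD1 (hv : IsNonarchimedean v) (k : ℕ) {c : ℕ → K} (hc : ∀ i, v (c i) ≤ 1)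
    {X Y : Fin 2 → K} {N η : ℝ} (hN : 0 ≤ N) (hη : 0 ≤ η) (hX : ∀ i, v (X i) ≤ N)
    (hY : ∀ i, v (Y i) ≤ N) (h : ∀ i, v (X i - Y i) ≤ η) :
    v (hev k c X - hev k c Y) * N ≤ η * N ^ k := by
  rw [hev, hev, ← sum_sub_distrib]
  refine sum_le_HsD1 hv hN (by positivity) fun i hi => ?_
  have h1 := cl_mul_HsD1 hv hN (pow_le_HsD1 (hX 0) i) (pow_le_HsD1 (hY 1) (k - i))
    (cl_pow_HsD1 hv hN hη (hX 0) (hY 0) (h 0) i)
    (cl_pow_HsD1 hv hN hη (hX 1) (hY 1) (h 1) (k - i))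
  rw [← pow_add, Nat.add_sub_cancel' (Nat.lt_succ_iff.1 (mem_range.1 hi))] at h1
  rw [mul_assoc (c i), mul_assoc (c i), ← mul_sub, map_mul, mul_assoc]
  exact (mul_le_of_le_one_left (mul_nonneg (v.nonneg _) hN) (hc i)).trans h1

theorem loc_fwd (hv : IsNonarchimedean v) (k : ℕ) {c : ℕ → K} (hc : ∀ i, v (c i) ≤ 1)
    {M : Matrix (Fin 2) (Fin 2) K} (hM : ∀ r s, v (M r s) ≤ 1) (h : ∃ r s, v (M r s) = 1)
    (hp : ∀ r, v (hev k c (perp M r)) ≤ v M.det) (U : Fin 2 → K) :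
    v (hev k c U) * nv v U ≤ nv v U ^ k * nv v (M *ᵥ U) := by
  obtain ⟨r, s, h⟩ := h
  have hN := nv_nonneg_HsD1 (v := v) U
  have hη := nv_nonneg_HsD1 (v := v) (M *ᵥ U)
  have hr := le_nv_HsD1 (v := v) (M *ᵥ U) r
  have key : ∃ t : K, v t ≤ nv v U ∧
      ∀ i, v ((M r s • U) i - (t • perp M r) i) ≤ nv v (M *ᵥ U) := by
    fin_cases s
    · refine ⟨U 1, le_nv_HsD1 U 1, fun i => ?_⟩
      fin_cases i
      · refine le_of_eq_of_le (congrArg v ?_) hr
        simp [mulVec, dotProduct, Fin.sum_univ_two, perp]; ring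
      · refine le_of_eq_of_le ?_ hη
        simp [perp, mul_comm]
    · refine ⟨-U 0, by simpa using le_nv_HsD1 U 0, fun i => ?_⟩
      fin_cases i
      · refine le_of_eq_of_le ?_ hη
        simp [perp, mul_comm]
      · refine le_of_eq_of_le (congrArg v ?_) hr
        simp [mulVec, dotProduct, Fin.sum_univ_two, perp]; ring
  obtain ⟨t, ht, key⟩ := key
  have hperp : ∀ i, v (perp M r i) ≤ 1 := fun i => by
    fin_cases i
    · simpa [perp] using hM r 1
    · simpa [perp] using hM r 0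
  have h1 := cl_hev_HsD1 hv k hc hN hη
    (fun i => by simpa only [one_mul, Pi.smul_apply, smul_eq_mul] using mul_le_HsD1 h.le (le_nv_HsD1 U i))
    (fun i => by simpa only [mul_one, Pi.smul_apply, smul_eq_mul] using mul_le_HsD1 ht (hperp i)) key
  have h2 : v (hev k c (t • perp M r)) * nv v U ≤ nv v (M *ᵥ U) * nv v U ^ k := by
    rw [hev_smul]
    have h3 := loc_det hv hM U
    calc v (t ^ k * hev k c (perp M r)) * nv v U ≤ nv v U ^ k * v M.det * nv v U :=
          mul_le_mul_of_nonneg_right (mul_le_HsD1 (pow_le_HsD1 ht k) (hp r)) hN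
      _ = nv v U ^ k * (v M.det * nv v U) := mul_assoc _ _ _
      _ ≤ nv v U ^ k * (1 * nv v (M *ᵥ U)) := mul_le_mul_of_nonneg_left h3 (pow_nonneg hN k)
      _ = nv v (M *ᵥ U) * nv v U ^ k := by ring
  have h4 := add_le_HsD1 hv hN h1 h2
  rw [sub_add_cancel, hev_smul, map_mul, map_pow, h, one_pow, one_mul] at h4
  rwa [mul_comm (nv v U ^ k)]

end Pool.Agent.P.MP_68214b_ag
end

-- part Pool.Agent.P.MP_68214b_ag.HsE1
section

open Polynomial Finset Matrix NumberField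

namespace Pool.Agent.P.MP_68214b_ag

variable {κ p : ℕ}

section Ring
variable {A : Type} [CommRing A]

theorem W_period [CharP A p] (D : Par A κ) (x : A) (l : ℕ) : D.W x (p * l) = D.W x p ^ l := by
  induction l with
  | zero => simp
  | succ l ih =>
    have h0 : x + ((p * l : ℕ) : A) = x := by
      rw [Nat.cast_mul, CharP.cast_eq_zero A p, zero_mul, add_zero]
    rw [Nat.mul_succ, Par.W_add, ih, h0, pow_succ']

theorem trace_shift [CharP A p] (D : Par A κ) (x : A) :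
    (D.W (x + 1) p).trace = (D.W x p).trace := by
  rcases p with _ | n
  · simp
  · have h0 : ((n + 1 : ℕ) : A) = 0 := CharP.cast_eq_zero A (n + 1)
    have h1 : x + 1 + (n : A) = x := by
      have : x + 1 + (n : A) = x + ((n + 1 : ℕ) : A) := by push_cast; ring
      rw [this, h0, add_zero]
    have h2 : D.W x (n + 1) = D.W (x + 1) n * D.T x := by
      rw [add_comm n 1, Par.W_add, Par.W_succ]
      simp
    rw [h2, Par.W_succ, h1, trace_mul_comm]

theorem trace_nat [CharP A p] (D : Par A κ) (j : ℕ) : (D.W j p).trace = (D.W 0 p).trace := by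
  induction j with
  | zero => simp
  | succ j ih => rw [Nat.cast_succ, trace_shift, ih]

theorem W_seq_HsE1 (D : Par A κ) (x : A) (s : Fin 2) : ∃ u : ℕ → A,
    (∀ n : ℕ, u (n + 2) = D.p (x + n) * u (n + 1) + D.q (x + n) * u n) ∧
    ∀ m, D.W x m 0 s = u (m + 1) ∧ D.W x m 1 s = u m := by
  have h1 : ∀ m, D.W x (m + 1) 1 s = D.W x m 0 s := fun m => by
    rw [Par.W_succ]
    simp [Par.T, Matrix.mul_apply, Fin.sum_univ_two]
  have h0 : ∀ m : ℕ, D.W x (m + 1) 0 s
      = D.p (x + m) * D.W x m 0 s + D.q (x + m) * D.W x m 1 s := fun m => by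
    rw [Par.W_succ]
    simp [Par.T, Matrix.mul_apply, Fin.sum_univ_two]
  refine ⟨fun m => D.W x m 1 s, fun n => ?_, fun m => ⟨(h1 m).symm, rfl⟩⟩
  show D.W x (n + 1 + 1) 1 s = D.p (x + n) * D.W x (n + 1) 1 s + D.q (x + n) * D.W x n 1 s
  rw [h1 (n + 1), h0, h1]

theorem trace_eq_w (D : Par A κ) {x : A} (hx : D.q x = 0) {w : ℕ → A} (h0 : w 0 = 1)
    (h1 : w 1 = D.p x)
    (hw : ∀ k : ℕ, w (k + 2) = D.p (x + k + 1) * w (k + 1) + D.q (x + k + 1) * w k)
    {m : ℕ} (hm : 0 < m) : (D.W x m).trace = w m := by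
  obtain ⟨u, hu, hu'⟩ := W_seq_HsE1 D x 0
  obtain ⟨t, ht, ht'⟩ := W_seq_HsE1 D x 1
  have u1 : u 1 = 1 := by have := (hu' 0).1; simpa using this.symm
  have t1 : t 1 = 0 := by have := (ht' 0).1; simpa using this.symm
  have huw : ∀ k, u (k + 1) = w k ∧ u (k + 2) = w (k + 1) := by
    intro k
    induction k with
    | zero =>
      refine ⟨by simpa [h0] using u1, ?_⟩
      have := hu 0
      simp only [Nat.cast_zero, add_zero, zero_add, hx, zero_mul, u1, mul_one] at this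
      simpa [h1] using this
    | succ k ih =>
      refine ⟨ih.2, ?_⟩
      have := hu (k + 1)
      rw [this, ih.1, ih.2, hw k]
      push_cast
      rw [add_assoc x]
  have ht0 : ∀ k, t (k + 1) = 0 ∧ t (k + 2) = 0 := by
    intro k
    induction k with
    | zero =>
      refine ⟨t1, ?_⟩
      have := ht 0
      simpa [hx, t1] using this
    | succ k ih =>
      refine ⟨ih.2, ?_⟩
      have := ht (k + 1)
      rw [this, ih.1, ih.2]
      simp
  obtain ⟨k, rfl⟩ : ∃ k, m = k + 1 := ⟨m - 1, by omega⟩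
  rw [trace_fin_two, (hu' _).1, (ht' _).2, (ht0 k).1, (huw k).2, add_zero]

theorem W_seq (D : Par A κ) (x : A) (s : Fin 2) : ∃ u : ℕ → A,
    (∀ n : ℕ, u (n + 2) = D.p (x + n) * u (n + 1) + D.q (x + n) * u n) ∧
    ∀ m, D.W x m 0 s = u (m + 1) ∧ D.W x m 1 s = u m := by
  exact W_seq_HsE1 D x s

end Ring

variable {F : Type} [Field F]

theorem W_ne_zero [CharP F p] (hp : p.Prime) (D : Par F κ) (h : (D.W 0 p).trace ≠ 0) (j m : ℕ) :
    D.W j m ≠ 0 := by
  intro h0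
  have hle : m ≤ p * m := Nat.le_mul_of_pos_left m hp.pos
  have h1 : D.W (j : F) p ^ m = 0 := by
    rw [← W_period, ← Nat.add_sub_cancel' hle, Par.W_add, h0, Matrix.mul_zero]
  have h2 : IsNilpotent (D.W (j : F) p).trace :=
    Matrix.isNilpotent_trace_of_isNilpotent ⟨m, h1⟩
  rw [trace_nat] at h2
  exact h h2.eq_zero

theorem exists_root [CharP F p] (hp : p.Prime) {a : ℕ} (ha : (a : F) ≠ 0) (z : ℤ) :
    ∃ j : ℕ, j < p ∧ (a : F) * j + z = 0 := by
  have : Fact p.Prime := ⟨hp⟩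
  have ha' : (a : ZMod p) ≠ 0 := by
    intro h
    apply ha
    have := congrArg (ZMod.castHom (dvd_refl p) F) h
    simpa using this
  refine ⟨(-(z : ZMod p) / a).val, ZMod.val_lt _, ?_⟩
  have h1 : (a : ZMod p) * (((-(z : ZMod p) / a).val : ℕ) : ZMod p) + z = 0 := by
    rw [ZMod.natCast_zmod_val]
    field_simp
    ring
  have := congrArg (ZMod.castHom (dvd_refl p) F) h1
  rw [map_add, map_mul, map_natCast, map_natCast, map_intCast, map_zero] at this
  exact this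

/-- Hermite type polynomials -/
noncomputable def HH_HsE1 (de : F) : ℕ → F[X]
  | 0 => 1
  | 1 => X
  | k + 2 => X * HH_HsE1 de (k + 1) + C (de * ((k : F) + 1)) * HH_HsE1 de k

theorem HH_succ_HsE1 (de : F) (k : ℕ) : HH_HsE1 de (k + 2)
    = X * HH_HsE1 de (k + 1) + C (de * ((k : F) + 1)) * HH_HsE1 de k := rfl

theorem HH_der_HsE1 (de : F) (k : ℕ) :
    derivative (HH_HsE1 de (k + 1)) = C ((k : F) + 1) * HH_HsE1 de k ∧
    derivative (HH_HsE1 de (k + 2)) = C ((k : F) + 2) * HH_HsE1 de (k + 1) := by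
  induction k with
  | zero =>
    refine ⟨by simp [HH_HsE1], ?_⟩
    rw [HH_succ_HsE1]
    simp only [HH_HsE1, derivative_add, derivative_mul, derivative_X, derivative_C,
      derivative_one, Nat.cast_zero, zero_add, map_ofNat]
    ring
  | succ k ih =>
    refine ⟨by rw [ih.2]; congr 2; push_cast; ring, ?_⟩
    rw [HH_succ_HsE1 de (k + 1), derivative_add, derivative_mul, derivative_mul, ih.1, ih.2,
      derivative_X, derivative_C, HH_succ_HsE1 de k]
    simp only [Nat.cast_add, Nat.cast_one, map_add, map_mul, map_one, map_ofNat]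
    ring

theorem HH_coeff_HsE1 (de : F) (k : ℕ) :
    (∀ i, k ≤ i → (HH_HsE1 de k).coeff i = (X ^ k : F[X]).coeff i) ∧
    (∀ i, k + 1 ≤ i → (HH_HsE1 de (k + 1)).coeff i = (X ^ (k + 1) : F[X]).coeff i) := by
  induction k with
  | zero => exact ⟨fun i _ => by simp [HH_HsE1], fun i _ => by simp [HH_HsE1]⟩
  | succ k ih =>
    refine ⟨ih.2, fun i hi => ?_⟩
    obtain ⟨i, rfl⟩ : ∃ j, i = j + 1 := ⟨i - 1, by omega⟩
    rw [HH_succ_HsE1, coeff_add, coeff_X_mul, coeff_C_mul, ih.1 _ (by omega),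
      ih.2 _ (by omega), coeff_X_pow, coeff_X_pow, coeff_X_pow, if_neg (by omega : ¬i + 1 = k)]
    simp

theorem HH_odd_HsE1 (de : F) (k : ℕ) : (HH_HsE1 de (2 * k + 1)).coeff 0 = 0 := by
  induction k with
  | zero => simp [HH_HsE1]
  | succ k ih =>
    have : 2 * (k + 1) + 1 = (2 * k + 1) + 2 := by ring
    rw [this, HH_succ_HsE1, coeff_add, coeff_C_mul, ih]
    simp

theorem HH_p_HsE1 [CharP F p] (hp : p.Prime) (h2 : p ≠ 2) (de : F) : HH_HsE1 de p = X ^ p := by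
  obtain ⟨k, hk⟩ := hp.odd_of_ne_two h2
  ext i
  by_cases hi : p ≤ i
  · exact (HH_coeff_HsE1 de p).1 i hi
  · rw [coeff_X_pow, if_neg (by omega)]
    rcases i with _ | i
    · rw [hk]; exact HH_odd_HsE1 de k
    · have hd : derivative (HH_HsE1 de p) = 0 := by
        have h0 : (((2 * k : ℕ) : F) + 1) = 0 := by
          have := CharP.cast_eq_zero F p
          rw [hk] at this
          exact_mod_cast this
        have := (HH_der_HsE1 de (2 * k)).1
        rw [h0, ← hk] at this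
        simpa using this
      have h3 := coeff_derivative (HH_HsE1 de p) i
      rw [hd, coeff_zero] at h3
      have h4 : ((i : F) + 1) ≠ 0 := by
        have : ((i + 1 : ℕ) : F) ≠ 0 := by
          rw [Ne, CharP.cast_eq_zero_iff F p]
          exact Nat.not_dvd_of_pos_of_lt (by omega) (by omega)
        exact_mod_cast this
      exact (mul_eq_zero.1 h3.symm).resolve_right h4

theorem trace_H [CharP F p] (hp : p.Prime) (h2 : p ≠ 2) (D : Par F 1) (hal : D.al = 0)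
    (ha : (D.a : F) ≠ 0) : (D.W 0 p).trace = D.be ^ p := by
  obtain ⟨j, -, hj⟩ := exists_root hp ha (D.b 0 : ℤ)
  rw [Int.cast_natCast] at hj
  have hq : ∀ y : F, D.q ((j : F) + y) = D.ga * D.a * y := fun y => by
    simp only [Par.q, Fin.prod_univ_one]
    linear_combination D.ga * hj
  have hpp : ∀ y : F, D.p y = D.be := fun y => by simp [Par.p, hal]
  rw [← trace_nat D j]
  have key := trace_eq_w D (x := (j : F)) (by simpa using hq 0)
    (w := fun k => (HH_HsE1 (D.ga * D.a) k).eval D.be) (by simp [HH_HsE1])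
    (by simp [HH_HsE1, hpp])
    (fun k => by
      rw [hpp, add_assoc, hq]
      simp only [HH_succ_HsE1, eval_add, eval_mul, eval_X, eval_C]) hp.pos
  rw [key]
  simp only [HH_p_HsE1 hp h2, eval_pow, eval_X]

end Pool.Agent.P.MP_68214b_ag
end

-- part Pool.Agent.P.MP_68214b_ag.HsM0
section

open Polynomial Finset Matrix NumberField

namespace Pool.Agent.P.MP_68214b_ag

variable {K : Type} [Field K] [NumberField K] {κ : ℕ}

noncomputable def mu (v : FinitePlace K) : ℝ := el v * (1 / ((pv v : ℝ) - 1))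

noncomputable def ep (X : ℕ) (v : FinitePlace K) : ℝ := el v * (Nat.log (pv v) X : ℝ)

/-- places above primes up to X -/
noncomputable def SX (K : Type) [Field K] [NumberField K] (X : ℕ) : Finset (FinitePlace K) :=
  (finite_pv X).toFinset

open Classical in
/-- good ordinary places -/
noncomputable def Ctx.SO (c : Ctx K κ) (X : ℕ) : Finset (FinitePlace K) :=
  (SX K X).filter fun v => c.B < pv v ∧ c.D.Ord v

open Classical in
/-- good neutral places -/
noncomputable def Ctx.SN (c : Ctx K κ) (X : ℕ) : Finset (FinitePlace K) :=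
  (SX K X).filter fun v => c.B < pv v ∧ ¬c.D.Ord v

/-- additive valuation of the determinant of a window -/
noncomputable def Ctx.de (c : Ctx K κ) (v : FinitePlace K) (j m : ℕ) : ℝ :=
  -Real.log (v (c.D.toK.W j m).det)

/-- the modulus of the auxiliary construction -/
noncomputable def Ctx.N0 (c : Ctx K κ) (X m : ℕ) : ℕ :=
  ∏ p ∈ (c.SO X).image pv, p ^ (κ * (m / (p - 1) + Nat.log p X))

/-- X bounds all linear factors up to n -/
def Ctx.Bd (c : Ctx K κ) (n X : ℕ) : Prop := n ≤ X ∧ c.B ≤ X ∧ ∀ i, c.D.a * n + c.D.b i ≤ X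

theorem mem_SX {X : ℕ} {v : FinitePlace K} : v ∈ SX K X ↔ pv v ≤ X := by simp [SX]

theorem Ctx.mem_SO {c : Ctx K κ} {X : ℕ} {v : FinitePlace K} :
    v ∈ c.SO X ↔ pv v ≤ X ∧ c.B < pv v ∧ c.D.Ord v := by simp [Ctx.SO, mem_SX]

theorem Ctx.mem_SN {c : Ctx K κ} {X : ℕ} {v : FinitePlace K} :
    v ∈ c.SN X ↔ pv v ≤ X ∧ c.B < pv v ∧ ¬c.D.Ord v := by simp [Ctx.SN, mem_SX]

theorem mu_pos (v : FinitePlace K) : 0 < mu v := by
  have h : (2 : ℝ) ≤ pv v := by exact_mod_cast (pv_prime v).two_le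
  exact mul_pos (el_pos v) (one_div_pos.2 (by linarith))

theorem ep_nonneg (X : ℕ) (v : FinitePlace K) : 0 ≤ ep X v :=
  mul_nonneg (el_pos v).le (Nat.cast_nonneg _)

theorem Ctx.disj (c : Ctx K κ) (X : ℕ) : Disjoint (c.SO X) (c.SN X) :=
  disjoint_left.2 fun _ h h' => (Ctx.mem_SN.1 h').2.2 (Ctx.mem_SO.1 h).2.2

end Pool.Agent.P.MP_68214b_ag
end

-- part Pool.Agent.P.MP_68214b_ag.HsM1
section

open Polynomial Finset Matrix NumberField

namespace Pool.Agent.P.MP_68214b_ag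

variable {K : Type} [Field K] [NumberField K] {κ : ℕ}

theorem fac_pos_HsM1 (c : Ctx K κ) (j m : ℕ) (i : Fin κ) :
    ∏ l ∈ range m, (c.D.a * (j + l) + c.D.b i) ≠ 0 :=
  prod_ne_zero_iff.2 fun l _ => by have := c.pos.2 i; omega

theorem ga_ne_HsM1 (c : Ctx K κ) : c.D.toK.ga ≠ 0 := by
  have := c.ga
  simpa [Par.toK] using this

theorem det_eq_HsM1 (c : Ctx K κ) (j m : ℕ) : (c.D.toK.W j m).det = (-c.D.toK.ga) ^ m *
    ∏ i, ((∏ l ∈ range m, (c.D.a * (j + l) + c.D.b i) : ℕ) : K) := by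
  rw [Par.W_det]
  have : ∀ l ∈ range m, -c.D.toK.q ((j : K) + l) =
      (-c.D.toK.ga) * ∏ i, ((c.D.a * (j + l) + c.D.b i : ℕ) : K) := fun l _ => by
    simp only [Par.q, Par.toK, Par.map_a, Par.map_b]
    push_cast
    ring
  rw [prod_congr rfl this, prod_mul_distrib, prod_const, card_range, prod_comm]
  simp only [Nat.cast_prod]

theorem v_det_HsM1 (c : Ctx K κ) (v : FinitePlace K) (j m : ℕ) :
    v (c.D.toK.W j m).det = v c.D.toK.ga ^ m * v (pv v) ^
      ∑ i, padicValNat (pv v) (∏ l ∈ range m, (c.D.a * (j + l) + c.D.b i)) := by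
  rw [det_eq_HsM1, map_mul, map_pow, map_prod, ← prod_pow_eq_pow_sum]
  congr 1
  · congr 1
    exact v.1.map_neg _
  · exact prod_congr rfl fun i _ => v_nat v (fac_pos_HsM1 c j m i)

theorem val_up_HsM1 (c : Ctx K κ) {v : FinitePlace K} {n X j m : ℕ} (hX : c.Bd n X)
    (h1 : c.B < pv v) (hj : j + m ≤ n) (i : Fin κ) :
    padicValNat (pv v) (∏ l ∈ range m, (c.D.a * (j + l) + c.D.b i)) ≤
      padicValNat (pv v) m.factorial + Nat.log (pv v) X := by
  have h := win_upper (pv_prime v) c.pos.1 (c.pos.2 i) j m (X := X)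
    (le_trans (Nat.add_le_add_right (Nat.mul_le_mul_left _ hj) _) (hX.2.2 i))
  rwa [padicValNat.eq_zero_of_not_dvd (c.good v h1).2.1, mul_zero, add_zero] at h

theorem Ctx.W_le (c : Ctx K κ) (v : FinitePlace K) (j m : ℕ) (r s : Fin 2) :
    v (c.D.toK.W j m r s) ≤ 1 := by
  have h := Par.W_map_apply c.D (algebraMap (𝓞 K) K) (j : 𝓞 K) m r s
  rw [map_natCast] at h
  rw [Par.toK, ← h]
  exact v_ring_le v _

theorem Ctx.det_ne (c : Ctx K κ) (j m : ℕ) : (c.D.toK.W j m).det ≠ 0 := by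
  rw [det_eq_HsM1]
  exact mul_ne_zero (pow_ne_zero _ (neg_ne_zero.2 (ga_ne_HsM1 c)))
    (prod_ne_zero_iff.2 fun i _ => Nat.cast_ne_zero.2 (fac_pos_HsM1 c j m i))

theorem Ctx.U_ne (c : Ctx K κ) (j : ℕ) : c.U j ≠ 0 := by
  intro h
  have e := c.orb.eq 0 j
  rw [zero_add, h] at e
  exact c.ne (Matrix.eq_zero_of_mulVec_eq_zero (c.det_ne 0 j) e.symm)

theorem Ctx.U_le (c : Ctx K κ) (v : FinitePlace K) (j : ℕ) (i : Fin 2) : v (c.U j i) ≤ 1 := by
  have e := c.orb.eq 0 j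
  rw [zero_add] at e
  have h := loc_up (fin_na v) (β := 1) (c.W_le v 0 j) (c.U 0)
  rw [← e, one_mul] at h
  have h0 : nv v.1 (c.U 0) ≤ 1 := max_le (v_integral_le v (c.int 0)) (v_integral_le v (c.int 1))
  have h2 : v (c.U j i) ≤ nv v.1 (c.U j) := by
    fin_cases i
    · exact le_max_left _ _
    · exact le_max_right _ _
  exact h2.trans (h.trans h0)

theorem Ctx.cv_nonneg (c : Ctx K κ) (v : FinitePlace K) (j : ℕ) : 0 ≤ cv v (c.U j) := by
  have h : nv v (c.U j) ≤ 1 := max_le (c.U_le v j 0) (c.U_le v j 1)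
  have h0 : 0 ≤ nv v (c.U j) := le_max_of_le_left (apply_nonneg v _)
  exact neg_nonneg.2 (Real.log_nonpos h0 h)

theorem Ctx.unit_entry (c : Ctx K κ) {v : FinitePlace K} (h : c.D.Ord v) (j m : ℕ) :
    ∃ r s, v (c.D.toK.W j m r s) = 1 := by
  obtain ⟨F, _, _, φ, hφ⟩ := exists_res v
  have key : ∀ (j m : ℕ) r s, algebraMap (𝓞 K) K (c.D.W j m r s) = c.D.toK.W j m r s :=
    fun j m r s => by
      have h := Par.W_map_apply c.D (algebraMap (𝓞 K) K) (j : 𝓞 K) m r s
      rwa [map_natCast] at h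
  have key2 : ∀ (j m : ℕ) r s, φ (c.D.W j m r s) = (c.D.map φ).W j m r s :=
    fun j m r s => by
      have h := Par.W_map_apply c.D φ (j : 𝓞 K) m r s
      rwa [map_natCast] at h
  have ht : ((c.D.map φ).W 0 (pv v)).trace ≠ 0 := by
    have a1 := key2 0 (pv v) 0 0
    have a2 := key2 0 (pv v) 1 1
    have b1 := key 0 (pv v) 0 0
    have b2 := key 0 (pv v) 1 1
    rw [Nat.cast_zero, Nat.cast_zero] at a1 a2 b1 b2
    rw [trace_fin_two, ← a1, ← a2, ← map_add]
    intro h0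
    have h3 := (hφ _).1 h0
    rw [map_add, b1, b2, ← trace_fin_two] at h3
    exact h3.ne h
  have hW := W_ne_zero (pv_prime v) (c.D.map φ) ht j m
  by_contra hc
  refine hW (Matrix.ext fun r s => ?_)
  rw [← key2, Matrix.zero_apply, hφ, key]
  exact lt_of_le_of_ne (c.W_le v j m r s) fun e => hc ⟨r, s, e⟩

theorem Ctx.de_eq (c : Ctx K κ) (v : FinitePlace K) (j m : ℕ) :
    c.de v j m = m * -Real.log (v c.D.toK.ga) + el v *
      ∑ i, (padicValNat (pv v) (∏ l ∈ range m, (c.D.a * (j + l) + c.D.b i)) : ℝ) := by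
  have h1 : 0 < v c.D.toK.ga := FinitePlace.pos_iff.2 (ga_ne_HsM1 c)
  have h2 := v_pv_pos v
  rw [Ctx.de, v_det_HsM1, Real.log_mul (pow_pos h1 _).ne' (pow_pos h2 _).ne', Real.log_pow,
    Real.log_pow, el]
  push_cast
  ring

theorem Ctx.de_lower (c : Ctx K κ) {v : FinitePlace K} {n X j m : ℕ} (hX : c.Bd n X)
    (h1 : c.B < pv v) (h2 : pv v ≤ X) (hj : j + m ≤ n) :
    κ * (m * mu v - 2 * ep X v) ≤ c.de v j m := by
  have g := c.good v h1
  rw [c.de_eq, g.1, Real.log_one, neg_zero, mul_zero, zero_add]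
  have hm : m ≤ X := by have := hX.1; omega
  have h3 : ∀ i ∈ (univ : Finset (Fin κ)), (m : ℝ) / ((pv v : ℝ) - 1) - 2 * Nat.log (pv v) X ≤
      (padicValNat (pv v) (∏ l ∈ range m, (c.D.a * (j + l) + c.D.b i)) : ℝ) := fun i _ =>
    (leg_lower (pv_prime v) hm h2).trans
      (Nat.cast_le.2 (win_lower (pv_prime v) g.2.1 (c.pos.2 i) j m))
  have h4 := sum_le_sum h3
  rw [sum_const, card_univ, Fintype.card_fin, nsmul_eq_mul] at h4
  refine le_trans (le_of_eq ?_) (mul_le_mul_of_nonneg_left h4 (el_pos v).le)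
  rw [mu, ep]
  ring

theorem Ctx.de_upper (c : Ctx K κ) {v : FinitePlace K} {n X j m : ℕ} (hX : c.Bd n X)
    (h1 : c.B < pv v) (hj : j + m ≤ n) : c.de v j m ≤ κ * (m * mu v + ep X v) := by
  have g := c.good v h1
  rw [c.de_eq, g.1, Real.log_one, neg_zero, mul_zero, zero_add]
  have h3 : ∀ i ∈ (univ : Finset (Fin κ)),
      (padicValNat (pv v) (∏ l ∈ range m, (c.D.a * (j + l) + c.D.b i)) : ℝ) ≤
        (m : ℝ) / ((pv v : ℝ) - 1) + Nat.log (pv v) X := fun i _ => by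
    have a : (padicValNat (pv v) (∏ l ∈ range m, (c.D.a * (j + l) + c.D.b i)) : ℝ) ≤
        padicValNat (pv v) m.factorial + Nat.log (pv v) X := by
      exact_mod_cast val_up_HsM1 c hX h1 hj i
    have b := leg_upper (pv_prime v) m
    linarith
  have h4 := sum_le_sum h3
  rw [sum_const, card_univ, Fintype.card_fin, nsmul_eq_mul] at h4
  refine le_trans (mul_le_mul_of_nonneg_left h4 (el_pos v).le) (le_of_eq ?_)
  rw [mu, ep]
  ring

theorem Ctx.N0_le (c : Ctx K κ) {v : FinitePlace K} {n X j m : ℕ} (hX : c.Bd n X)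
    (hv : v ∈ c.SO X) (hj : j + m ≤ n) : v (c.N0 X m : K) ≤ v (c.D.toK.W j m).det := by
  have h1 := (Ctx.mem_SO.1 hv).2.1
  have g := c.good v h1
  obtain ⟨t, ht⟩ : pv v ^ (κ * (m / (pv v - 1) + Nat.log (pv v) X)) ∣ c.N0 X m :=
    dvd_prod_of_mem (fun p => p ^ (κ * (m / (p - 1) + Nat.log p X))) (mem_image_of_mem pv hv)
  rw [v_det_HsM1, g.1, one_pow, one_mul, ht, Nat.cast_mul, map_mul, Nat.cast_pow, map_pow]
  refine (mul_le_of_le_one_right (pow_nonneg (v_pv_pos v).le _) (fin_nat_le v t)).trans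
    (pow_le_pow_of_le_one (v_pv_pos v).le (v_pv_lt v).le ?_)
  have h3 : ∀ i ∈ (univ : Finset (Fin κ)),
      padicValNat (pv v) (∏ l ∈ range m, (c.D.a * (j + l) + c.D.b i)) ≤
        m / (pv v - 1) + Nat.log (pv v) X := fun i _ =>
    (val_up_HsM1 c hX h1 hj i).trans (Nat.add_le_add_right (leg_nat (pv_prime v) m) _)
  have h4 := sum_le_sum h3
  rwa [sum_const, card_univ, Fintype.card_fin, smul_eq_mul] at h4

theorem Ctx.N0_pos (c : Ctx K κ) (X m : ℕ) : 0 < c.N0 X m := by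
  refine prod_pos fun p hp => pow_pos ?_ _
  obtain ⟨v, -, rfl⟩ := mem_image.1 hp
  exact (pv_prime v).pos

theorem Ctx.log_N0 (c : Ctx K κ) (X m : ℕ) :
    Real.log (c.N0 X m) ≤ κ * (m * ∑ v ∈ c.SO X, mu v + ∑ v ∈ c.SO X, ep X v) := by
  have hp : ∀ p ∈ (c.SO X).image pv, p.Prime := fun p hp => by
    obtain ⟨v, -, rfl⟩ := mem_image.1 hp
    exact pv_prime v
  have h1 := sum_el_ge (c.SO X) ((c.SO X).image pv) (fun p hp => mem_image.1 hp)
    (fun p => κ * ((m : ℝ) * (1 / ((p : ℝ) - 1)) + Nat.log p X)) fun p hp => by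
      have h : (2 : ℝ) ≤ p := by exact_mod_cast hp.two_le
      have h' : 0 < (p : ℝ) - 1 := by linarith
      positivity
  rw [Ctx.N0, Nat.cast_prod, Real.log_prod fun p h => by
    have := (hp p h).pos
    positivity]
  refine le_trans (sum_le_sum fun p h => ?_) (h1.trans (le_of_eq ?_))
  · have h2 := (hp p h).two_le
    rw [Nat.cast_pow, Real.log_pow, mul_comm]
    refine mul_le_mul_of_nonneg_left ?_ (Real.log_natCast_nonneg p)
    have h3 : ((m / (p - 1) : ℕ) : ℝ) ≤ m / ((p - 1 : ℕ) : ℝ) := Nat.cast_div_le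
    rw [Nat.cast_sub (by omega), Nat.cast_one] at h3
    rw [Nat.cast_mul, Nat.cast_add, mul_one_div]
    exact mul_le_mul_of_nonneg_left (add_le_add_left h3 _) (Nat.cast_nonneg κ)
  · rw [mul_sum, ← sum_add_distrib, mul_sum]
    refine sum_congr rfl fun v _ => ?_
    rw [mu, ep]
    ring

end Pool.Agent.P.MP_68214b_ag
end

-- part Pool.Agent.P.MP_68214b_ag.HsM2
section

open Polynomial Finset Matrix NumberField

namespace Pool.Agent.P.MP_68214b_ag

variable {K : Type} [Field K] [NumberField K] {κ : ℕ}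

theorem nvp_HsM2 (c : Ctx K κ) (v : FinitePlace K) (j : ℕ) : 0 < nv v (c.U j) :=
  nv_pos (v := v.1) (c.U_ne j)

theorem detp_HsM2 (c : Ctx K κ) (v : FinitePlace K) (j m : ℕ) : 0 < v (c.D.toK.W j m).det :=
  v.1.pos (c.det_ne j m)

theorem orb_HsM2 (c : Ctx K κ) (n : ℕ) : c.U n = c.D.toK.W 0 n *ᵥ c.U 0 := by
  have h := c.orb.eq 0 n
  rwa [zero_add, Nat.cast_zero] at h

theorem detp0_HsM2 (c : Ctx K κ) (v : FinitePlace K) (m : ℕ) : 0 < v (c.D.toK.W 0 m).det := by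
  have h := detp_HsM2 c v 0 m
  rwa [Nat.cast_zero] at h

theorem de0_HsM2 (c : Ctx K κ) (v : FinitePlace K) (m : ℕ) :
    c.de v 0 m = -Real.log (v (c.D.toK.W 0 m).det) := by
  rw [Ctx.de, Nat.cast_zero]

theorem Wle0_HsM2 (c : Ctx K κ) (v : FinitePlace K) (m : ℕ) (r s : Fin 2) :
    v (c.D.toK.W 0 m r s) ≤ 1 := by
  have h := c.W_le v 0 m r s
  rwa [Nat.cast_zero] at h

theorem det_HsM2 (c : Ctx K κ) (v : FinitePlace K) (n : ℕ) {β : ℝ} (hβ : 0 < β)
    (h : ∀ r s, v (c.D.toK.W 0 n r s) ≤ β) :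
    cv v (c.U n) ≤ c.de v 0 n + cv v (c.U 0) + Real.log β := by
  have h1 : v (c.D.toK.W 0 n).det * nv v (c.U 0) ≤ β * nv v (c.D.toK.W 0 n *ᵥ c.U 0) :=
    loc_det (v := v.1) (fin_na v) h (c.U 0)
  rw [← orb_HsM2] at h1
  have h2 := Real.log_le_log (mul_pos (detp0_HsM2 c v n) (nvp_HsM2 c v 0)) h1
  rw [Real.log_mul (detp0_HsM2 c v n).ne' (nvp_HsM2 c v 0).ne',
    Real.log_mul hβ.ne' (nvp_HsM2 c v n).ne'] at h2
  rw [de0_HsM2, cv, cv]
  linarith

theorem Ctx.cv_le (c : Ctx K κ) (v : FinitePlace K) (n : ℕ) :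
    cv v (c.U n) ≤ c.de v 0 n + cv v (c.U 0) := by
  have h := det_HsM2 c v n one_pos (Wle0_HsM2 c v n)
  rwa [Real.log_one, add_zero] at h

theorem cv0_HsM2 (c : Ctx K κ) {v : FinitePlace K} (h : c.B < pv v) : cv v (c.U 0) = 0 := by
  rw [cv, (c.good v h).2.2.1, Real.log_one, neg_zero]

theorem kap_HsM2 (c : Ctx K κ) : (0 : ℝ) ≤ κ ∧ (κ : ℝ) ≤ 2 :=
  ⟨Nat.cast_nonneg _, by exact_mod_cast c.ok.le.2⟩

theorem Ctx.ord_prop (c : Ctx K κ) {v : FinitePlace K} {n X j : ℕ} (hX : c.Bd n X)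
    (hv : v ∈ c.SO X) (hn : 0 < n) (hj : j ≤ n) :
    (j : ℝ) / n * cv v (c.U n) - 6 * ep X v ≤ cv v (c.U j) := by
  obtain ⟨h2, h1, ho⟩ := Ctx.mem_SO.1 hv
  have hW : c.D.toK.W j (n - j) * c.D.toK.W 0 j = c.D.toK.W 0 n := by
    have := c.D.toK.W_add 0 j (n - j)
    rw [zero_add, Nat.add_sub_cancel' hj] at this
    exact this.symm
  have hu : ∃ r s, v.1 ((c.D.toK.W j (n - j) * c.D.toK.W 0 j) r s) = 1 := by
    have := c.unit_entry ho 0 n
    rw [Nat.cast_zero] at this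
    rw [hW]; exact this
  have hb : nv v (c.D.toK.W 0 j *ᵥ c.U 0) ≤
      max (nv v ((c.D.toK.W j (n - j) * c.D.toK.W 0 j) *ᵥ c.U 0))
        (v (c.D.toK.W 0 j).det * nv v (c.U 0)) :=
    loc_back (v := v.1) (fin_na v) (Wle0_HsM2 c v j) (c.W_le v j (n - j)) hu (c.U 0)
  rw [hW, ← orb_HsM2, ← orb_HsM2, (c.good v h1).2.2.1, mul_one] at hb
  have he := ep_nonneg X v
  have hc := c.cv_nonneg v n
  have hnr : (0 : ℝ) < n := by exact_mod_cast hn
  have hq0 : (0 : ℝ) ≤ (j : ℝ) / n := by positivity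
  have hq1 : (j : ℝ) / n ≤ 1 := (div_le_one hnr).2 (by exact_mod_cast hj)
  obtain ⟨k0, k2⟩ := kap_HsM2 c
  rcases le_max_iff.1 hb with hb | hb
  · have h3 := Real.log_le_log (nvp_HsM2 c v j) hb
    have h4 : cv v (c.U n) ≤ cv v (c.U j) := by rw [cv, cv]; linarith
    nlinarith [mul_le_of_le_one_left hc hq1]
  · have h3 := Real.log_le_log (nvp_HsM2 c v j) hb
    have h4 : c.de v 0 j ≤ cv v (c.U j) := by rw [de0_HsM2, cv]; linarith
    have h5 := c.de_lower (j := 0) (m := j) hX h1 h2 (by omega)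
    have h6 := c.de_upper (j := 0) (m := n) hX h1 (by omega)
    have h7 := c.cv_le v n
    rw [cv0_HsM2 c h1, add_zero] at h7
    have h8 : (j : ℝ) / n * cv v (c.U n) ≤ (j : ℝ) / n * (κ * (n * mu v + ep X v)) :=
      mul_le_mul_of_nonneg_left (h7.trans h6) hq0
    have h9 : (j : ℝ) / n * (κ * (n * mu v + ep X v)) =
        κ * (j * mu v) + (j : ℝ) / n * (κ * ep X v) := by
      field_simp
    have h10 : (j : ℝ) / n * (κ * ep X v) ≤ κ * ep X v :=
      mul_le_of_le_one_left (mul_nonneg k0 he) hq1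
    have h11 : κ * ep X v ≤ 2 * ep X v := mul_le_mul_of_nonneg_right k2 he
    nlinarith

theorem beta_HsM2 (c : Ctx K κ) {v : FinitePlace K} {n X j : ℕ} (hX : c.Bd n X)
    (hv : v ∈ c.SN X) (hj : j ≤ n) : ∃ β : ℝ, 0 < β ∧ (∀ r s, v (c.D.toK.W 0 j r s) ≤ β) ∧
      Real.log β ≤ -(κ / 2 * j * mu v) + (κ + 2) * ep X v := by
  obtain ⟨h2, h1, ho⟩ := Ctx.mem_SN.1 hv
  have hN : c.D.Neu v := (c.good v h1).2.2.2.resolve_left ho
  obtain ⟨⟨r, s⟩, -, hm⟩ := exists_max_image (univ : Finset (Fin 2 × Fin 2))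
    (fun x => v (c.D.toK.W 0 j x.1 x.2)) univ_nonempty
  have hle : ∀ r' s', v (c.D.toK.W 0 j r' s') ≤ v (c.D.toK.W 0 j r s) :=
    fun r' s' => hm (r', s') (mem_univ _)
  have hpos : 0 < v (c.D.toK.W 0 j r s) := by
    have h3 : v (c.D.toK.W 0 j).det * nv v (c.U 0) ≤
        v (c.D.toK.W 0 j r s) * nv v (c.D.toK.W 0 j *ᵥ c.U 0) :=
      loc_det (v := v.1) (fin_na v) hle (c.U 0)
    rw [← orb_HsM2] at h3
    exact (mul_pos_iff_of_pos_right (nvp_HsM2 c v j)).1
      ((mul_pos (detp0_HsM2 c v j) (nvp_HsM2 c v 0)).trans_le h3)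
  refine ⟨_, hpos, hle, ?_⟩
  have h3 := hN j X (fun i => le_trans (by
    have := Nat.mul_le_mul_left c.D.a hj
    omega) (hX.2.2 i)) r s
  have hp := v_pv_pos v
  rw [v_nat v (Nat.factorial_ne_zero j)] at h3
  have h4 := Real.log_le_log (by positivity) h3
  rw [Real.log_mul (by positivity) (by positivity), Real.log_pow, Real.log_pow, Real.log_pow,
    Real.log_pow] at h4
  have h5 := leg_lower (pv_prime v) (hj.trans hX.1) h2
  have h6 : Real.log (v (pv v)) = -el v := by rw [el, neg_neg]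
  rw [h6] at h4
  push_cast at h4
  have h7 := mul_le_mul_of_nonneg_left h5 (mul_nonneg (kap_HsM2 c).1 (el_pos v).le)
  have h8 : (κ : ℝ) * el v * ((j : ℝ) / ((pv v : ℝ) - 1) - 2 * Nat.log (pv v) X) =
      κ * j * mu v - 2 * κ * ep X v := by
    rw [mu, ep]; ring
  rw [h8] at h7
  have h9 : ep X v = el v * (Nat.log (pv v) X : ℝ) := rfl
  nlinarith

theorem Ctx.neu_lower (c : Ctx K κ) {v : FinitePlace K} {n X j : ℕ} (hX : c.Bd n X)
    (hv : v ∈ c.SN X) (hj : j ≤ n) : κ / 2 * j * mu v - 4 * ep X v ≤ cv v (c.U j) := by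
  obtain ⟨β, hβ, hle, hl⟩ := beta_HsM2 c hX hv hj
  have h1 := (Ctx.mem_SN.1 hv).2.1
  have h3 : nv v (c.D.toK.W 0 j *ᵥ c.U 0) ≤ β * nv v (c.U 0) :=
    loc_up (v := v.1) (fin_na v) hle (c.U 0)
  rw [← orb_HsM2, (c.good v h1).2.2.1, mul_one] at h3
  have h4 := Real.log_le_log (nvp_HsM2 c v j) h3
  have h5 := mul_le_mul_of_nonneg_right (kap_HsM2 c).2 (ep_nonneg X v)
  rw [cv]
  nlinarith

theorem Ctx.neu_upper (c : Ctx K κ) {v : FinitePlace K} {n X : ℕ} (hX : c.Bd n X)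
    (hv : v ∈ c.SN X) : cv v (c.U n) ≤ κ / 2 * n * mu v + 6 * ep X v := by
  obtain ⟨β, hβ, hle, hl⟩ := beta_HsM2 c hX hv le_rfl
  have h1 := (Ctx.mem_SN.1 hv).2.1
  have h3 := det_HsM2 c v n hβ hle
  rw [cv0_HsM2 c h1] at h3
  have h4 := c.de_upper (j := 0) (m := n) hX h1 (by omega)
  have h5 := mul_le_mul_of_nonneg_right (kap_HsM2 c).2 (ep_nonneg X v)
  nlinarith

theorem Ctx.far (c : Ctx K κ) {v : FinitePlace K} {n X : ℕ} (hX : c.Bd n X) (hv : X < pv v) :
    nv v (c.U n) = 1 := by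
  have h1 : c.B < pv v := hX.2.1.trans_lt hv
  have h2 : c.de v 0 n = 0 := by
    rw [c.de_eq, (c.good v h1).1, Real.log_one, neg_zero, mul_zero, zero_add]
    refine mul_eq_zero_of_right _ (sum_eq_zero fun i _ => ?_)
    rw [Nat.cast_eq_zero]
    refine padicValNat.eq_zero_of_not_dvd fun h => ?_
    obtain ⟨l, hl, hd⟩ := (Prime.dvd_finsetProd_iff (pv_prime v).prime _).1 h
    have h3 := Nat.le_of_dvd (Nat.add_pos_right _ (c.pos.2 i)) hd
    have h4 := hX.2.2 i
    have h5 : c.D.a * (0 + l) ≤ c.D.a * n :=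
      Nat.mul_le_mul_left _ (by have := mem_range.1 hl; omega)
    omega
  have h3 := c.cv_le v n
  rw [h2, cv0_HsM2 c h1, add_zero] at h3
  have h4 : Real.log (nv v (c.U n)) = 0 := by
    have := le_antisymm h3 (c.cv_nonneg v n)
    rwa [cv, neg_eq_zero] at this
  exact Real.eq_one_of_pos_of_log_eq_zero (nvp_HsM2 c v n) h4

theorem Ctx.bad (c : Ctx K κ) : ∃ C : ℝ, 0 ≤ C ∧ ∀ n X : ℕ, 0 < n → c.Bd n X →
    ∑ v ∈ SX K c.B, cv v (c.U n) ≤ C * n + 2 * ∑ v ∈ SX K c.B, ep X v := by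
  refine ⟨∑ v ∈ SX K c.B, (|Real.log (v c.D.toK.ga)| +
    2 * (el v * (1 + padicValNat (pv v) c.D.a)) + cv v (c.U 0)), sum_nonneg fun v _ => ?_,
    fun n X hn hX => ?_⟩
  · have h1 := c.cv_nonneg v 0
    have h2 := el_pos v
    positivity
  · rw [sum_mul, mul_sum, ← sum_add_distrib]
    refine sum_le_sum fun v _ => ?_
    have h1 := c.cv_le v n
    rw [c.de_eq] at h1
    have hn1 : (1 : ℝ) ≤ n := by exact_mod_cast hn
    have h2 : ∀ i : Fin κ,
        (padicValNat (pv v) (∏ l ∈ range n, (c.D.a * (0 + l) + c.D.b i)) : ℝ) ≤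
          n * (1 + padicValNat (pv v) c.D.a) + Nat.log (pv v) X := fun i => by
      have h3 := win_upper (X := X) (pv_prime v) c.pos.1 (c.pos.2 i) 0 n
        (by rw [zero_add]; exact hX.2.2 i)
      have h4 := (leg_nat (pv_prime v) n).trans (Nat.div_le_self _ _)
      have h5 : padicValNat (pv v) (∏ l ∈ range n, (c.D.a * (0 + l) + c.D.b i)) ≤
          n * (1 + padicValNat (pv v) c.D.a) + Nat.log (pv v) X := by
        rw [mul_add, mul_one]; omega
      exact_mod_cast h5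
    have h3 := sum_le_sum fun i (_ : i ∈ (univ : Finset (Fin κ))) => h2 i
    rw [sum_const, card_univ, Fintype.card_fin, nsmul_eq_mul] at h3
    have h4 : (κ : ℝ) * (n * (1 + padicValNat (pv v) c.D.a) + Nat.log (pv v) X) ≤
        2 * (n * (1 + padicValNat (pv v) c.D.a) + Nat.log (pv v) X) :=
      mul_le_mul_of_nonneg_right (kap_HsM2 c).2 (by positivity)
    have h5 := mul_le_mul_of_nonneg_left (h3.trans h4) (el_pos v).le
    have h6 : n * -Real.log (v c.D.toK.ga) ≤ n * |Real.log (v c.D.toK.ga)| :=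
      mul_le_mul_of_nonneg_left (neg_le_abs _) (by positivity)
    have h7 := le_mul_of_one_le_right (c.cv_nonneg v 0) hn1
    rw [ep]
    nlinarith

end Pool.Agent.P.MP_68214b_ag
end

-- part Pool.Agent.P.MP_68214b_ag.HsC1
section

open Polynomial Finset Matrix NumberField

namespace Pool.Agent.P.MP_68214b_ag

variable {κ : ℕ}

theorem orb_bd_HsC1 (D : Par ℂ κ) {V : ℕ → Fin 2 → ℂ} (orb : D.Orb V) {r M : ℝ} (hr : 1 ≤ r)
    (n : ℕ) (hp : ∀ l : ℕ, l < n → ‖D.p l‖ ≤ r) (hq : ∀ l : ℕ, l < n → ‖D.q l‖ ≤ r ^ 2)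
    (hM : ∀ i, ‖V 0 i‖ ≤ M) (j : ℕ) (hj : j ≤ n) :
    ‖V j 0‖ ≤ (2 * r) ^ (j + 1) * M ∧ ‖V j 1‖ ≤ (2 * r) ^ j * M := by
  have hM0 : 0 ≤ M := (norm_nonneg _).trans (hM 0)
  induction j with
  | zero =>
    refine ⟨?_, by simpa using hM 1⟩
    have := hM 0
    simp only [zero_add, pow_one]
    nlinarith
  | succ j ih =>
    obtain ⟨h0, h1⟩ := ih (by omega)
    have e0 : V (j + 1) 0 = D.p j * V j 0 + D.q j * V j 1 := by
      rw [orb j]; simp [Par.T, mulVec, dotProduct, Fin.sum_univ_two]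
    have e1 : V (j + 1) 1 = V j 0 := by
      rw [orb j]; simp [Par.T, mulVec, dotProduct, Fin.sum_univ_two]
    refine ⟨?_, by rw [e1]; exact h0⟩
    have hA : 0 ≤ (2 * r) ^ j * M := by positivity
    have a1 : ‖D.p j * V j 0‖ ≤ r * ((2 * r) ^ (j + 1) * M) := by
      rw [norm_mul]
      exact mul_le_mul (hp j (by omega)) h0 (norm_nonneg _) (by linarith)
    have a2 : ‖D.q j * V j 1‖ ≤ r ^ 2 * ((2 * r) ^ j * M) := by
      rw [norm_mul]
      exact mul_le_mul (hq j (by omega)) h1 (norm_nonneg _) (by positivity)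
    have a3 : 0 ≤ r ^ 2 * ((2 * r) ^ j * M) := by positivity
    calc ‖V (j + 1) 0‖ ≤ ‖D.p j * V j 0‖ + ‖D.q j * V j 1‖ := by rw [e0]; exact norm_add_le _ _
      _ ≤ r * ((2 * r) ^ (j + 1) * M) + r ^ 2 * ((2 * r) ^ j * M) := add_le_add a1 a2
      _ = 3 * (r ^ 2 * ((2 * r) ^ j * M)) := by ring
      _ ≤ 4 * (r ^ 2 * ((2 * r) ^ j * M)) := by linarith
      _ = (2 * r) ^ (j + 1 + 1) * M := by ring

theorem coef_bd_HsC1 (D : Par ℂ κ) (ok : D.Ok) : ∃ e : ℝ, 0 ≤ e ∧ ∀ n : ℕ, 1 ≤ n → ∀ l : ℕ, l < n →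
    ‖D.p l‖ ≤ Real.exp (e + κ / 2 * Real.log n) ∧
      ‖D.q l‖ ≤ Real.exp (e + κ / 2 * Real.log n) ^ 2 := by
  set G : ℝ := ‖D.ga‖ * ∏ i, ((D.a : ℝ) + D.b i) with hG
  have hG0 : 0 ≤ G := by positivity
  refine ⟨‖D.al‖ + ‖D.be‖ + G, by positivity, fun n hn l hl => ?_⟩
  set e : ℝ := ‖D.al‖ + ‖D.be‖ + G with he
  have hn1 : (1 : ℝ) ≤ n := by exact_mod_cast hn
  have hl1 : (l : ℝ) ≤ n := by exact_mod_cast hl.le
  have hL : 0 ≤ Real.log n := Real.log_nonneg hn1
  have he0 : 0 ≤ e := by positivity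
  have hee : e ≤ Real.exp e := by linarith [Real.add_one_le_exp e]
  have he1 : 1 ≤ Real.exp e := Real.one_le_exp he0
  have hal := norm_nonneg D.al
  have hbe := norm_nonneg D.be
  constructor
  · rw [Real.exp_add]
    rcases ok with ⟨_, h⟩ | h
    · have h1 : 1 ≤ Real.exp (κ / 2 * Real.log n) := Real.one_le_exp (by positivity)
      have : ‖D.p l‖ = ‖D.be‖ := by simp [Par.p, h]
      rw [this]
      nlinarith
    · have h1 : Real.exp (κ / 2 * Real.log n) = n := by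
        rw [h]; simp [Real.exp_log (by linarith : (0 : ℝ) < n)]
      rw [h1]
      have : ‖D.p l‖ ≤ ‖D.al‖ * l + ‖D.be‖ := by
        refine (norm_add_le _ _).trans ?_
        rw [norm_mul, Complex.norm_natCast]
      have h2 : ‖D.al‖ * l ≤ ‖D.al‖ * n := mul_le_mul_of_nonneg_left hl1 hal
      have h3 : ‖D.be‖ ≤ ‖D.be‖ * n := by nlinarith
      have h4 : (‖D.al‖ + ‖D.be‖) * n ≤ Real.exp e * n :=
        mul_le_mul_of_nonneg_right (by linarith) (by linarith)
      nlinarith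
  · have h1 : Real.exp (e + κ / 2 * Real.log n) ^ 2 = Real.exp e ^ 2 * (n : ℝ) ^ κ := by
      rw [Real.exp_add, mul_pow, ← Real.exp_nat_mul (κ / 2 * Real.log n) 2]
      have : ((2 : ℕ) : ℝ) * (κ / 2 * Real.log n) = κ * Real.log n := by push_cast; ring
      rw [this, Real.exp_nat_mul, Real.exp_log (by linarith)]
    rw [h1]
    have h2 : ‖D.q l‖ ≤ G * (n : ℝ) ^ κ := by
      rw [Par.q, norm_mul, norm_prod, hG, mul_assoc]
      refine mul_le_mul_of_nonneg_left ?_ (norm_nonneg _)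
      have : (n : ℝ) ^ κ = ∏ _i : Fin κ, (n : ℝ) := by simp
      rw [this, ← prod_mul_distrib]
      refine prod_le_prod (fun i _ => norm_nonneg _) fun i _ => ?_
      refine (norm_add_le _ _).trans ?_
      rw [norm_mul, Complex.norm_natCast, Complex.norm_natCast, Complex.norm_natCast]
      have ha : (0 : ℝ) ≤ D.a := Nat.cast_nonneg _
      have hb : (0 : ℝ) ≤ D.b i := Nat.cast_nonneg _
      nlinarith
    refine h2.trans (mul_le_mul_of_nonneg_right ?_ (by positivity))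
    nlinarith

theorem det_bd_HsC1 (D : Par ℂ κ) (pos : D.Pos) (n : ℕ) :
    ‖D.ga‖ ^ n * (n.factorial : ℝ) ^ κ ≤ ‖(D.W 0 n).det‖ := by
  rw [Par.W_det, norm_prod]
  induction n with
  | zero => simp
  | succ n ih =>
    rw [prod_range_succ]
    have h : ‖D.ga‖ * ((n : ℝ) + 1) ^ κ ≤ ‖-D.q (0 + n)‖ := by
      rw [norm_neg, zero_add, Par.q, norm_mul, norm_prod]
      refine mul_le_mul_of_nonneg_left ?_ (norm_nonneg _)
      have : ((n : ℝ) + 1) ^ κ = ∏ _i : Fin κ, ((n : ℝ) + 1) := by simp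
      rw [this]
      refine prod_le_prod (fun i _ => by positivity) fun i _ => ?_
      have e : (D.a : ℂ) * n + D.b i = ((D.a * n + D.b i : ℕ) : ℂ) := by push_cast; ring
      rw [e, Complex.norm_natCast]
      have h1 := pos.1
      have h2 := pos.2 i
      have : n + 1 ≤ D.a * n + D.b i := by nlinarith
      exact_mod_cast this
    calc ‖D.ga‖ ^ (n + 1) * ((n + 1).factorial : ℝ) ^ κ
        = ‖D.ga‖ ^ n * (n.factorial : ℝ) ^ κ * (‖D.ga‖ * ((n : ℝ) + 1) ^ κ) := by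
          rw [Nat.factorial_succ]; push_cast; rw [mul_pow]; ring
      _ ≤ _ := mul_le_mul ih h (by positivity) (prod_nonneg fun _ _ => norm_nonneg _)

theorem logfac_HsC1 (n : ℕ) (hn : 1 ≤ n) :
    (n : ℝ) * Real.log n - n ≤ Real.log (n.factorial : ℝ) := by
  have hn0 : (0 : ℝ) < n := by exact_mod_cast hn
  have hf : (0 : ℝ) < n.factorial := by exact_mod_cast n.factorial_pos
  have h := Real.pow_div_factorial_le_exp (n : ℝ) hn0.le n
  have h2 := Real.log_le_log (by positivity) h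
  rw [Real.log_div (by positivity) hf.ne', Real.log_pow, Real.log_exp] at h2
  linarith

theorem pow_bd_HsC1 (x : ℝ) (j : ℕ) : (2 * Real.exp x) ^ j ≤ Real.exp (j * (1 + x)) := by
  rw [Real.exp_nat_mul, Real.exp_add]
  refine pow_le_pow_left₀ (by positivity) ?_ j
  have := Real.add_one_le_exp 1
  exact mul_le_mul_of_nonneg_right (by linarith) (Real.exp_pos _).le

theorem orb_exp_HsC1 (D : Par ℂ κ) (ok : D.Ok) : ∃ e : ℝ, 0 ≤ e ∧ ∀ {V : ℕ → Fin 2 → ℂ},
    D.Orb V → ∀ m : ℝ, 0 ≤ m → (∀ i, ‖V 0 i‖ ≤ Real.exp m) → ∀ n : ℕ, 1 ≤ n → ∀ j ≤ n, ∀ i,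
      ‖V j i‖ ≤ Real.exp (κ / 2 * j * Real.log n + (e + m) * n) := by
  obtain ⟨e, he, h⟩ := coef_bd_HsC1 D ok
  refine ⟨2 * e + 3, by positivity, fun {V} orb m hm hM n hn j hj i => ?_⟩
  have hn1 : (1 : ℝ) ≤ n := by exact_mod_cast hn
  have hj1 : (j : ℝ) ≤ n := by exact_mod_cast hj
  have hj0 : (0 : ℝ) ≤ j := Nat.cast_nonneg _
  have hL : 0 ≤ Real.log n := Real.log_nonneg hn1
  have hL2 : Real.log n ≤ n := by linarith [Real.log_le_sub_one_of_pos (by linarith : (0 : ℝ) < n)]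
  have hκ : (κ : ℝ) ≤ 2 := by exact_mod_cast ok.le.2
  have hκ0 : (0 : ℝ) ≤ κ := Nat.cast_nonneg _
  have hx : 0 ≤ e + κ / 2 * Real.log n := by positivity
  have hr : 1 ≤ Real.exp (e + κ / 2 * Real.log n) := Real.one_le_exp hx
  obtain ⟨h0, h1⟩ := orb_bd_HsC1 D orb hr n (fun l hl => (h n hn l hl).1)
    (fun l hl => (h n hn l hl).2) hM j hj
  have hi : ‖V j i‖ ≤ (2 * Real.exp (e + κ / 2 * Real.log n)) ^ (j + 1) * Real.exp m := by
    fin_cases i
    · exact h0
    · refine h1.trans (mul_le_mul_of_nonneg_right ?_ (Real.exp_pos _).le)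
      exact pow_le_pow_right₀ (by linarith) (by omega)
  refine hi.trans ((mul_le_mul_of_nonneg_right (pow_bd_HsC1 _ _) (Real.exp_pos _).le).trans ?_)
  rw [← Real.exp_add]
  refine Real.exp_le_exp.2 ?_
  push_cast
  have b1 : κ / 2 * Real.log n ≤ n := by nlinarith
  have b2 : m ≤ m * n := by nlinarith
  have b3 : ((j : ℝ) + 1) * (1 + e) ≤ 2 * n * (1 + e) :=
    mul_le_mul_of_nonneg_right (by linarith) (by linarith)
  nlinarith

theorem arch_bd (D : Par ℂ κ) (ok : D.Ok) (pos : D.Pos) (hga : D.ga ≠ 0) {U : ℕ → Fin 2 → ℂ}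
    (orb : D.Orb U) (h0 : U 0 ≠ 0) : ∃ C : ℝ, 0 ≤ C ∧ ∀ n : ℕ, 1 ≤ n →
      (∀ j ≤ n, ∀ i, ‖U j i‖ ≤ Real.exp (κ / 2 * j * Real.log n + C * n)) ∧
      κ / 2 * n * Real.log n - C * n ≤ Real.log (max ‖U n 0‖ ‖U n 1‖) := by
  obtain ⟨e, he, h⟩ := orb_exp_HsC1 D ok
  obtain ⟨w, hw, hd⟩ : ∃ w : Fin 2 → ℂ, (∀ i, ‖w i‖ ≤ Real.exp 0) ∧ wed (U 0) w ≠ 0 := by
    by_cases h1 : U 0 0 = 0
    · refine ⟨![1, 0], fun i => by fin_cases i <;> simp, ?_⟩
      have : U 0 1 ≠ 0 := fun h2 => h0 (by ext i; fin_cases i <;> simp [h1, h2])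
      simpa [wed] using this
    · exact ⟨![0, 1], fun i => by fin_cases i <;> simp, by simpa [wed] using h1⟩
  have orbV : D.Orb fun j => D.W 0 j *ᵥ w := fun j => by
    simp only [Par.W_succ, zero_add, mulVec_mulVec]
  set m : ℝ := ‖U 0 0‖ + ‖U 0 1‖ with hm
  have hm0 : 0 ≤ m := by positivity
  have hU0 : ∀ i, ‖U 0 i‖ ≤ Real.exp m := fun i => by
    have := Real.add_one_le_exp m
    have a0 := norm_nonneg (U 0 0)
    have a1 := norm_nonneg (U 0 1)
    fin_cases i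
    · change ‖U 0 0‖ ≤ _; linarith
    · change ‖U 0 1‖ ≤ _; linarith
  set c : ℝ := |Real.log ‖D.ga‖| + |Real.log ‖wed (U 0) w‖| + 3 with hc
  have hc0 : 0 ≤ c := by positivity
  refine ⟨e + m + c, by positivity, fun n hn => ⟨fun j hj i => ?_, ?_⟩⟩
  · refine (h orb m hm0 hU0 n hn j hj i).trans (Real.exp_le_exp.2 ?_)
    have : (0 : ℝ) ≤ c * n := by positivity
    linarith
  · have hn1 : (1 : ℝ) ≤ n := by exact_mod_cast hn
    have hκ : (κ : ℝ) ≤ 2 := by exact_mod_cast ok.le.2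
    have hκ0 : (0 : ℝ) ≤ κ := Nat.cast_nonneg _
    have hV := h orbV 0 le_rfl (by simpa using hw) n hn n le_rfl
    set X : ℝ := κ / 2 * n * Real.log n + (e + 0) * n with hX
    set N : ℝ := max ‖U n 0‖ ‖U n 1‖ with hN
    have hUn : U n = D.W 0 n *ᵥ U 0 := by simpa using orb.eq 0 n
    have hw1 : wed (U n) (D.W 0 n *ᵥ w) = (D.W 0 n).det * wed (U 0) w := by
      rw [hUn, wed_mulVec]
    have hN0 : 0 ≤ N := le_max_of_le_left (norm_nonneg _)
    have hw2 : ‖wed (U n) (D.W 0 n *ᵥ w)‖ ≤ 2 * Real.exp X * N := by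
      rw [wed]
      refine (norm_sub_le _ _).trans ?_
      rw [norm_mul, norm_mul]
      have a0 : ‖U n 0‖ * ‖(D.W 0 n *ᵥ w) 1‖ ≤ N * Real.exp X :=
        mul_le_mul (le_max_left _ _) (hV 1) (norm_nonneg _) hN0
      have a1 : ‖U n 1‖ * ‖(D.W 0 n *ᵥ w) 0‖ ≤ N * Real.exp X :=
        mul_le_mul (le_max_right _ _) (hV 0) (norm_nonneg _) hN0
      linarith
    have hg : 0 < ‖D.ga‖ := norm_pos_iff.2 hga
    have hδ : 0 < ‖wed (U 0) w‖ := norm_pos_iff.2 hd
    have hf : (0 : ℝ) < n.factorial := by exact_mod_cast n.factorial_pos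
    have key : ‖D.ga‖ ^ n * (n.factorial : ℝ) ^ κ * ‖wed (U 0) w‖ ≤ 2 * Real.exp X * N := by
      refine le_trans ?_ hw2
      rw [hw1, norm_mul]
      exact mul_le_mul_of_nonneg_right (det_bd_HsC1 D pos n) hδ.le
    have hpos : 0 < ‖D.ga‖ ^ n * (n.factorial : ℝ) ^ κ * ‖wed (U 0) w‖ := by positivity
    have hNpos : 0 < N := by
      rcases hN0.eq_or_lt with h1 | h1
      · rw [← h1, mul_zero] at key; linarith
      · exact h1
    have hl := Real.log_le_log hpos key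
    rw [Real.log_mul (by positivity) hδ.ne', Real.log_mul (by positivity) (by positivity),
      Real.log_pow, Real.log_pow, Real.log_mul (by positivity) hNpos.ne',
      Real.log_mul (by norm_num) (Real.exp_pos _).ne', Real.log_exp] at hl
    have l2 : Real.log 2 ≤ 1 := by
      linarith [Real.log_le_sub_one_of_pos (by norm_num : (0 : ℝ) < 2)]
    have lf := logfac_HsC1 n hn
    have b1 : (κ : ℝ) * (n * Real.log n - n) ≤ κ * Real.log (n.factorial : ℝ) :=
      mul_le_mul_of_nonneg_left lf hκ0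
    have b2 : -(|Real.log ‖D.ga‖| * n) ≤ n * Real.log ‖D.ga‖ := by
      have := neg_abs_le (Real.log ‖D.ga‖)
      nlinarith
    have b3 : -(|Real.log ‖wed (U 0) w‖| * n) ≤ Real.log ‖wed (U 0) w‖ := by
      have := neg_abs_le (Real.log ‖wed (U 0) w‖)
      have := abs_nonneg (Real.log ‖wed (U 0) w‖)
      nlinarith
    have b4 : (κ : ℝ) * n ≤ 2 * n := by nlinarith
    have b5 : 0 ≤ m * n := by positivity
    rw [hc]
    rw [hX] at hl
    nlinarith

theorem Ctx.arch {K : Type} [Field K] [NumberField K] (c : Ctx K κ) :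
    ∃ C : ℝ, 0 ≤ C ∧ ∀ n : ℕ, 1 ≤ n → ∀ φ : K →+* ℂ,
      (∀ j ≤ n, ∀ i, ‖φ (c.U j i)‖ ≤ Real.exp (κ / 2 * j * Real.log n + C * n)) ∧
      κ / 2 * n * Real.log n - C * n ≤ Real.log (max ‖φ (c.U n 0)‖ ‖φ (c.U n 1)‖) := by
  have H : ∀ φ : K →+* ℂ, ∃ C : ℝ, 0 ≤ C ∧ ∀ n : ℕ, 1 ≤ n →
      (∀ j ≤ n, ∀ i, ‖φ (c.U j i)‖ ≤ Real.exp (κ / 2 * j * Real.log n + C * n)) ∧
      κ / 2 * n * Real.log n - C * n ≤ Real.log (max ‖φ (c.U n 0)‖ ‖φ (c.U n 1)‖) := fun φ => by
    refine arch_bd (c.D.toK.map φ) ((c.ok.map _).map φ) c.pos ?_ (c.orb.map φ) ?_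
    · have : c.D.toK.ga ≠ 0 := fun h => c.ga (by simpa [Par.toK] using h)
      simpa using this
    · intro h
      refine c.ne ?_
      ext i
      simpa using congrFun h i
  choose C hC0 hC using H
  refine ⟨∑ φ, C φ, sum_nonneg fun φ _ => hC0 φ, fun n hn φ => ?_⟩
  have hle : C φ * n ≤ (∑ φ, C φ) * n :=
    mul_le_mul_of_nonneg_right (single_le_sum (fun φ _ => hC0 φ) (mem_univ φ)) (Nat.cast_nonneg _)
  obtain ⟨h1, h2⟩ := hC φ n hn
  exact ⟨fun j hj i => (h1 j hj i).trans (Real.exp_le_exp.2 (by linarith)), by linarith⟩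

end Pool.Agent.P.MP_68214b_ag
end

-- part Pool.Agent.P.MP_68214b_ag.HsM3
section

open Polynomial Finset Matrix NumberField

namespace Pool.Agent.P.MP_68214b_ag

variable {K : Type} [Field K] [NumberField K] {κ : ℕ}

theorem fpos_HsM3 (v : FinitePlace K) {x : K} (hx : x ≠ 0) : 0 < v x := v.1.pos hx

theorem le_nv_HsM3 (v : FinitePlace K) (U : Fin 2 → K) (i : Fin 2) : v (U i) ≤ nv v U := by
  fin_cases i
  · exact le_max_left _ _
  · exact le_max_right _ _

theorem nvpos_HsM3 (v : FinitePlace K) {U : Fin 2 → K} (h : U ≠ 0) : 0 < nv v U :=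
  nv_pos (v := v.1) h

theorem sum_two_HsM3 (c : Ctx K κ) (X : ℕ) (f : FinitePlace K → ℝ) [DecidableEq (FinitePlace K)] :
    ∑ v ∈ c.SO X ∪ c.SN X, f v = ∑ v ∈ c.SO X, f v + ∑ v ∈ c.SN X, f v :=
  sum_union (c.disj X)

theorem Ctx.cont_le (c : Ctx K κ) (X j : ℕ) {L : ℝ}
    (hL : ∀ (φ : K →+* ℂ) i, ‖φ (c.U j i)‖ ≤ Real.exp L) :
    ∑ v ∈ c.SO X, cv v (c.U j) + ∑ v ∈ c.SN X, cv v (c.U j) ≤ Module.finrank ℚ K * L := by
  classical
  obtain ⟨i, hi⟩ := Function.ne_iff.1 (c.U_ne j)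
  have hi' : c.U j i ≠ 0 := hi
  rw [← sum_two_HsM3]
  refine le_trans (sum_le_sum fun v _ => ?_)
    (prod_le hi' (fun v => c.U_le v j i) (c.SO X ∪ c.SN X) fun φ => ?_)
  · exact neg_le_neg (Real.log_le_log (fpos_HsM3 v hi') (le_nv_HsM3 v _ i))
  · exact (Real.log_le_iff_le_exp (norm_pos_iff.2 ((map_ne_zero φ).2 hi'))).2 (hL φ i)

theorem Ctx.cont_ge (c : Ctx K κ) {n X : ℕ} (hX : c.Bd n X) {L : ℝ}
    (hL : ∀ φ : K →+* ℂ, L ≤ Real.log (max ‖φ (c.U n 0)‖ ‖φ (c.U n 1)‖)) :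
    Module.finrank ℚ K * L - Real.log (Height.mulHeight (c.U n)) ≤
      ∑ v ∈ c.SO X, cv v (c.U n) + ∑ v ∈ c.SN X, cv v (c.U n) +
        ∑ v ∈ SX K c.B, cv v (c.U n) := by
  classical
  have hd : Disjoint (c.SO X ∪ c.SN X) (SX K c.B) := by
    refine disjoint_left.2 fun v h h' => ?_
    have h1 := mem_SX.1 h'
    rcases mem_union.1 h with h | h
    · exact absurd (Ctx.mem_SO.1 h).2.1 (not_lt.2 h1)
    · exact absurd (Ctx.mem_SN.1 h).2.1 (not_lt.2 h1)
  rw [← sum_two_HsM3, ← sum_union hd]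
  refine height_ge (c.U_ne n) _ (fun v hv => c.far hX ?_) hL
  by_contra hle
  have hle' : pv v ≤ X := not_lt.1 hle
  apply hv
  by_cases hB : c.B < pv v
  · by_cases hO : c.D.Ord v
    · exact mem_union_left _ (mem_union_left _ (Ctx.mem_SO.2 ⟨hle', hB, hO⟩))
    · exact mem_union_left _ (mem_union_right _ (Ctx.mem_SN.2 ⟨hle', hB, hO⟩))
  · exact mem_union_right _ (mem_SX.2 (not_lt.1 hB))

theorem norm_hev_HsM3 (k : ℕ) (a : ℕ → ℂ) (U : Fin 2 → ℂ) {h L : ℝ}
    (hh : ∀ i, ‖a i‖ ≤ Real.exp h) (hL : ∀ i, ‖U i‖ ≤ Real.exp L) :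
    ‖hev k a U‖ ≤ Real.exp (k + h + k * L) := by
  have h1 : ∀ i ∈ range (k + 1), ‖a i * U 0 ^ i * U 1 ^ (k - i)‖ ≤
      Real.exp h * Real.exp (k * L) := by
    intro i hi
    have hik : i ≤ k := Nat.lt_succ_iff.1 (mem_range.1 hi)
    have e : Real.exp (k * L) = Real.exp L ^ i * Real.exp L ^ (k - i) := by
      rw [← pow_add, Nat.add_sub_cancel' hik, Real.exp_nat_mul]
    rw [norm_mul, norm_mul, norm_pow, norm_pow, e, ← mul_assoc]
    have := hh i
    have := hL 0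
    have := hL 1
    gcongr
  have h2 : ‖hev k a U‖ ≤ (k + 1 : ℝ) * (Real.exp h * Real.exp (k * L)) := by
    refine (norm_sum_le _ _).trans ((sum_le_card_nsmul _ _ _ h1).trans_eq ?_)
    rw [card_range, nsmul_eq_mul]; push_cast; ring
  refine h2.trans ?_
  rw [add_assoc, Real.exp_add, Real.exp_add]
  have := Real.add_one_le_exp (k : ℝ)
  gcongr

theorem perp_map_HsM3 (c : Ctx K κ) (j m : ℕ) (r : Fin 2) :
    (fun i => algebraMap (𝓞 K) K (perp (c.D.W j m) r i)) = perp (c.D.toK.W j m) r := by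
  have e : ∀ s, algebraMap (𝓞 K) K (c.D.W j m r s) = c.D.toK.W j m r s := fun s => by
    rw [Par.W_map_apply, map_natCast]; rfl
  funext i
  fin_cases i
  · change algebraMap (𝓞 K) K (-c.D.W j m r 1) = -c.D.toK.W j m r 1
    rw [map_neg, e]
  · exact e 0

theorem Ctx.aux_ineq (c : Ctx K κ) {n X j m k : ℕ} (hX : c.Bd n X) (hj : j + m ≤ n) (l : ℕ → ℤ)
    (hl : ∀ r, (c.N0 X m : 𝓞 K) ∣ hev k (fun i => (l i : 𝓞 K)) (perp (c.D.W j m) r))
    (h0 : hev k (fun i => (l i : K)) (c.U j) ≠ 0) {h L : ℝ}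
    (hh : ∀ i, |(l i : ℝ)| ≤ Real.exp h)
    (hL : ∀ (φ : K →+* ℂ) i, ‖φ (c.U j i)‖ ≤ Real.exp L) :
    ∑ v ∈ c.SO X, cv v (c.U (j + m)) - ∑ v ∈ c.SO X, cv v (c.U j) +
        k * (∑ v ∈ c.SO X, cv v (c.U j) + ∑ v ∈ c.SN X, cv v (c.U j)) ≤
      Module.finrank ℚ K * (k + h + k * L) := by
  classical
  set x := hev k (fun i => (l i : K)) (c.U j) with hx
  have hc : ∀ (v : FinitePlace K) i, v.1 ((l i : ℤ) : K) ≤ 1 := fun v i => fin_int_le v (l i)
  have hform : ∀ v : FinitePlace K, v x ≤ nv v (c.U j) ^ k := fun v =>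
    loc_form (fin_na v) k (hc v) (c.U j)
  have hnv : ∀ v : FinitePlace K, 0 < nv v (c.U j) := fun v => nvpos_HsM3 v (c.U_ne j)
  have hone : ∀ v : FinitePlace K, v x ≤ 1 := fun v =>
    (hform v).trans (pow_le_one₀ (hnv v).le (max_le (c.U_le v j 0) (c.U_le v j 1)))
  have harch : ∀ φ : K →+* ℂ, Real.log ‖φ x‖ ≤ k + h + k * L := fun φ => by
    refine (Real.log_le_iff_le_exp (norm_pos_iff.2 ((map_ne_zero φ).2 h0))).2 ?_
    rw [hx, hev_map]
    refine norm_hev_HsM3 k _ _ (fun i => ?_) (hL φ)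
    rw [map_intCast, Complex.norm_intCast]
    exact hh i
  have main := prod_le h0 hone (c.SO X ∪ c.SN X) harch
  rw [sum_two_HsM3] at main
  have hO : ∀ v ∈ c.SO X, cv v (c.U (j + m)) - cv v (c.U j) + k * cv v (c.U j) ≤
      -Real.log (v x) := by
    intro v hv
    have hp : ∀ r, v.1 (hev k (fun i => (l i : K)) (perp (c.D.toK.W j m) r)) ≤
        v.1 (c.D.toK.W j m).det := fun r => by
      obtain ⟨y, hy⟩ := hl r
      have h1 := congrArg (algebraMap (𝓞 K) K) hy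
      rw [hev_map, perp_map_HsM3, map_mul, map_natCast] at h1
      simp only [map_intCast] at h1
      rw [h1, map_mul]
      have h2 : v.1 (algebraMap (𝓞 K) K y) ≤ 1 := v_ring_le v y
      have h3 : v.1 (c.N0 X m : K) ≤ v.1 (c.D.toK.W j m).det := c.N0_le hX hv hj
      exact (mul_le_of_le_one_right (v.1.nonneg _) h2).trans h3
    have h4 : v x * nv v (c.U j) ≤ nv v (c.U j) ^ k * nv v (c.D.toK.W j m *ᵥ c.U j) :=
      loc_fwd (fin_na v) k (hc v) (c.W_le v j m) (c.unit_entry (Ctx.mem_SO.1 hv).2.2 j m) hp (c.U j)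
    rw [← c.orb.eq j m] at h4
    have h5 := Real.log_le_log (mul_pos (fpos_HsM3 v h0) (hnv v)) h4
    rw [Real.log_mul (fpos_HsM3 v h0).ne' (hnv v).ne',
      Real.log_mul (pow_pos (hnv v) k).ne' (nvpos_HsM3 v (c.U_ne (j + m))).ne', Real.log_pow] at h5
    simp only [cv]
    linarith
  have hN : ∀ v ∈ c.SN X, k * cv v (c.U j) ≤ -Real.log (v x) := by
    intro v _
    have h5 := Real.log_le_log (fpos_HsM3 v h0) (hform v)
    rw [Real.log_pow] at h5
    simp only [cv]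
    linarith
  have s1 := sum_le_sum hO
  have s2 := sum_le_sum hN
  rw [sum_add_distrib, sum_sub_distrib, ← mul_sum] at s1
  rw [← mul_sum] at s2
  rw [mul_add]
  linarith

theorem inv_nonneg_HsM3 (p : ℕ) (hp : p.Prime) : 0 ≤ 1 / ((p : ℝ) - 1) := by
  have h : (2 : ℝ) ≤ p := by exact_mod_cast hp.two_le
  exact (one_div_pos.2 (by linarith)).le

theorem Ctx.sums (c : Ctx K κ) : ∃ C : ℝ, 0 ≤ C ∧ ∀ X : ℕ, 1 ≤ X →
    ∑ v ∈ c.SO X, ep X v ≤ C * X ∧ ∑ v ∈ c.SN X, ep X v ≤ C * X ∧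
    (∀ Y ≤ X, ∑ v ∈ SX K Y, ep X v ≤ C * X) ∧
    ∑ v ∈ c.SO X, mu v + ∑ v ∈ c.SN X, mu v ≤ Module.finrank ℚ K * Real.log X + C := by
  classical
  obtain ⟨a, ha, h⟩ := cheb_mert
  have hd : (0 : ℝ) ≤ Module.finrank ℚ K := Nat.cast_nonneg _
  refine ⟨Module.finrank ℚ K * a, mul_nonneg hd ha, fun X hX => ?_⟩
  have key : ∀ S : Finset (FinitePlace K), (∀ v ∈ S, pv v ≤ X) →
      ∑ v ∈ S, ep X v ≤ Module.finrank ℚ K * a * X := fun S hS => by
    refine (sum_el S hS (fun p => (Nat.log p X : ℝ)) fun p _ => Nat.cast_nonneg _).trans ?_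
    rw [mul_assoc]
    exact mul_le_mul_of_nonneg_left (h X hX).1 hd
  refine ⟨key _ fun v hv => (Ctx.mem_SO.1 hv).1, key _ fun v hv => (Ctx.mem_SN.1 hv).1,
    fun Y hY => key _ fun v hv => (mem_SX.1 hv).trans hY, ?_⟩
  rw [← sum_two_HsM3, ← mul_add]
  refine (sum_el (c.SO X ∪ c.SN X) (X := X) (fun v hv => ?_) (fun p => 1 / ((p : ℝ) - 1))
    inv_nonneg_HsM3).trans (mul_le_mul_of_nonneg_left (h X hX).2 hd)
  rcases mem_union.1 hv with hv | hv
  · exact (Ctx.mem_SO.1 hv).1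
  · exact (Ctx.mem_SN.1 hv).1

theorem Ctx.mu_big (c : Ctx K κ) (M : ℝ) : ∃ X0 : ℕ, ∀ X ≥ X0, M ≤ ∑ v ∈ c.SO X, mu v := by
  obtain ⟨T, hT, hM⟩ := c.div c.B M
  refine ⟨T.sup id, fun X hX => hM.trans (le_trans (sum_le_sum fun p hp => ?_)
    (sum_el_ge (c.SO X) T (fun p hp => ?_) (fun p => 1 / ((p : ℝ) - 1)) inv_nonneg_HsM3))⟩
  · have h3 : (3 : ℝ) ≤ p := by
      have h1 := (hT p hp).1
      have h2 := c.two
      exact_mod_cast (by omega : 3 ≤ p)
    have h4 : 1 ≤ Real.log p := by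
      rw [Real.le_log_iff_exp_le (by linarith)]
      have := Real.exp_one_lt_d9
      linarith
    have h5 : (1 : ℝ) / p ≤ 1 / ((p : ℝ) - 1) :=
      one_div_le_one_div_of_le (by linarith) (by linarith)
    exact h5.trans (le_mul_of_one_le_left (one_div_pos.2 (by linarith)).le h4)
  · obtain ⟨hB, v, hv, hO⟩ := hT p hp
    have h1 : p ≤ T.sup id := le_sup (f := id) hp
    exact ⟨v, Ctx.mem_SO.2 ⟨hv ▸ h1.trans hX, hv ▸ hB, hO⟩, hv⟩

theorem Ctx.hord (c : Ctx K κ) (N : ℕ) : ∃ p : ℕ, N < p ∧ p.Prime ∧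
    ∃ (F : Type) (_ : Field F) (_ : CharP F p) (φ : 𝓞 K →+* F),
      φ c.D.ga ≠ 0 ∧ (c.D.a : F) ≠ 0 ∧ ((c.D.map φ).W 0 p).trace ≠ 0 := by
  obtain ⟨T, hT, hM⟩ := c.div (max N c.B) 1
  obtain ⟨p, hp⟩ : T.Nonempty := by
    refine nonempty_iff_ne_empty.2 fun h => ?_
    rw [h, sum_empty] at hM
    exact absurd hM (by norm_num)
  obtain ⟨hB, v, rfl, hO⟩ := hT p hp
  obtain ⟨F, iF, iC, φ, hφ⟩ := exists_res v
  obtain ⟨g1, g2, -, -⟩ := c.good v ((le_max_right _ _).trans_lt hB)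
  refine ⟨pv v, (le_max_left _ _).trans_lt hB, pv_prime v, F, iF, iC, φ, fun h => ?_,
    fun h => g2 ((CharP.cast_eq_zero_iff F (pv v) _).1 h), fun h => ?_⟩
  · exact absurd ((hφ _).1 h) (not_lt.2 g1.ge)
  · have e : ∀ {B : Type} [CommRing B] (f : 𝓞 K →+* B),
        f (c.D.W 0 (pv v)).trace = ((c.D.map f).W 0 (pv v)).trace := fun f => by
      rw [trace_fin_two, trace_fin_two, map_add, Par.W_map_apply, Par.W_map_apply, map_zero]
    have h1 := (hφ _).1 ((e φ).trans h)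
    rw [e] at h1
    exact absurd h1 (not_lt.2 (Eq.ge hO))

end Pool.Agent.P.MP_68214b_ag
end

-- part Pool.Agent.P.MP_68214b_ag.HsZ0
section

open Polynomial Finset Matrix NumberField

namespace Pool.Agent.P.MP_68214b_ag

variable {A : Type} [CommRing A]

/-- the dehomogenised form -/
noncomputable def hpol (k : ℕ) (c : ℕ → A) : A[X] := ∑ i ∈ range (k + 1), monomial i (c i)

/-- coefficients of a form after a linear substitution -/
noncomputable def hsub (k : ℕ) (c : ℕ → A) (M : Matrix (Fin 2) (Fin 2) A) (i : ℕ) : A :=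
  (∑ j ∈ range (k + 1), C (c j) * (C (M 0 0) * X + C (M 0 1)) ^ j *
    (C (M 1 0) * X + C (M 1 1)) ^ (k - j)).coeff i

/-- resultant of two forms of degree k -/
noncomputable def hres (k : ℕ) (c c' : ℕ → A) : A := resultant (hpol k c) (hpol k c') k k

/-- shift of the variable -/
noncomputable def sh (l : ℕ) : A[X] →+* A[X] := compRingHom (X + (l : A[X]))

@[simp] theorem sh_X (l : ℕ) : sh l (X : A[X]) = X + (l : A[X]) := by simp [sh]

@[simp] theorem sh_C (l : ℕ) (a : A) : sh l (C a) = C a := by simp [sh]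

theorem sh_zero (f : A[X]) : sh 0 f = f := by simp [sh]

theorem sh_succ (l : ℕ) (f : A[X]) : sh (l + 1) f = sh 1 (sh l f) := by
  simp [sh, comp_assoc, add_assoc, add_comm (1 : A[X])]

theorem eval_sh (l : ℕ) (f : A[X]) (x : A) : (sh l f).eval x = f.eval (x + l) := by
  simp [sh, eval_comp]

theorem map_sh {B : Type} [CommRing B] (φ : A →+* B) (l : ℕ) (f : A[X]) :
    (sh l f).map φ = sh l (f.map φ) := by
  simp [sh, map_comp]

theorem natDegree_sh (l : ℕ) (f : A[X]) : (sh l f).natDegree ≤ f.natDegree := by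
  refine natDegree_comp_le.trans ?_
  have : (X + (l : A[X])).natDegree ≤ 1 := by
    rw [← C_eq_natCast]; exact (natDegree_add_le _ _).trans (by simp [natDegree_X_le])
  simpa using Nat.mul_le_mul_left f.natDegree this

theorem Par.WX_map {B : Type} [CommRing B] {κ : ℕ} (D : Par A κ) (φ : A →+* B) (m : ℕ) :
    (D.WX m).map (mapRingHom φ) = (D.map φ).WX m := by
  rw [Par.WX, Par.WX, Par.W_map, Par.map_map, Par.map_map]
  congr 1
  · cases D; simp [Par.map]
  · simp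

theorem Par.map_C_sh {κ : ℕ} (D : Par A κ) (l : ℕ) : (D.map C).map (sh l) = D.map C := by
  cases D; simp [Par.map]

end Pool.Agent.P.MP_68214b_ag
end

-- part Pool.Agent.P.MP_68214b_ag.HsZ1
section

open Polynomial Finset Matrix NumberField

namespace Pool.Agent.P.MP_68214b_ag

variable {A B : Type} [CommRing A] [CommRing B]

theorem hev_coeff_HsZ1 (k : ℕ) (f : A[X]) (v : Fin 2 → A) :
    hev k (fun i => f.coeff i) v = MvPolynomial.eval v (f.homogenize k) := by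
  simp only [hev, homogenize, Finset.Nat.sum_antidiagonal_eq_sum_range_succ_mk,
    MvPolynomial.eval_sum]
  refine Finset.sum_congr rfl fun i _ => ?_
  rw [MvPolynomial.eval_monomial, Finsupp.prod_fintype _ _ (by simp), Fin.prod_univ_two]
  simp [mul_assoc]

theorem lin_hom_HsZ1 (a b : A) :
    (MvPolynomial.C a * MvPolynomial.X 0 + MvPolynomial.C b * MvPolynomial.X 1 :
      MvPolynomial (Fin 2) A).IsHomogeneous 1 :=
  ((MvPolynomial.isHomogeneous_X A 0).C_mul a).add ((MvPolynomial.isHomogeneous_X A 1).C_mul b)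

theorem hev_hsub (k : ℕ) (c : ℕ → A) (M : Matrix (Fin 2) (Fin 2) A) (v : Fin 2 → A) :
    hev k (hsub k c M) v = hev k c (M *ᵥ v) := by
  have h : (∑ j ∈ range (k + 1), C (c j) * (C (M 0 0) * X + C (M 0 1)) ^ j *
      (C (M 1 0) * X + C (M 1 1)) ^ (k - j)).homogenize k =
      ∑ j ∈ range (k + 1), MvPolynomial.C (c j) *
        (MvPolynomial.C (M 0 0) * MvPolynomial.X 0 + MvPolynomial.C (M 0 1) * MvPolynomial.X 1) ^ j *
        (MvPolynomial.C (M 1 0) * MvPolynomial.X 0 +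
          MvPolynomial.C (M 1 1) * MvPolynomial.X 1) ^ (k - j) := by
    apply homogenize_eq_of_isHomogeneous
    · refine MvPolynomial.IsHomogeneous.sum _ _ _ fun j hj => ?_
      have hj' : j ≤ k := Nat.lt_succ_iff.1 (mem_range.1 hj)
      have h1 := (((lin_hom_HsZ1 (M 0 0) (M 0 1)).pow j).C_mul (c j)).mul
        ((lin_hom_HsZ1 (M 1 0) (M 1 1)).pow (k - j))
      have h2 : 1 * j + 1 * (k - j) = k := by omega
      rwa [h2] at h1
    · simp [map_sum]
  have h' := hev_coeff_HsZ1 k (∑ j ∈ range (k + 1), C (c j) * (C (M 0 0) * X + C (M 0 1)) ^ j *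
      (C (M 1 0) * X + C (M 1 1)) ^ (k - j)) v
  rw [h] at h'
  refine Eq.trans h' ?_
  simp [hev, map_sum, mulVec, dotProduct, Fin.sum_univ_two]

theorem hsub_map (f : A →+* B) (k : ℕ) (c : ℕ → A) (M : Matrix (Fin 2) (Fin 2) A) (i : ℕ) :
    f (hsub k c M i) = hsub k (fun j => f (c j)) (M.map f) i := by
  rw [hsub, hsub, ← coeff_map]
  congr 1
  simp [Polynomial.map_sum, Polynomial.map_mul, Polynomial.map_pow, Polynomial.map_add]

theorem cd_mul_HsZ1 {f g : A[X][X]} {s t : ℕ} (hf : ∀ i, (f.coeff i).natDegree ≤ s)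
    (hg : ∀ i, (g.coeff i).natDegree ≤ t) (i : ℕ) : ((f * g).coeff i).natDegree ≤ s + t := by
  rw [coeff_mul]
  exact natDegree_sum_le_of_forall_le _ _ fun x _ =>
    natDegree_mul_le.trans (add_le_add (hf _) (hg _))

theorem cd_C_HsZ1 {a : A[X]} {s : ℕ} (ha : a.natDegree ≤ s) (i : ℕ) :
    ((C a : A[X][X]).coeff i).natDegree ≤ s := by
  rw [coeff_C]; split_ifs
  · exact ha
  · simp

theorem cd_pow_HsZ1 {f : A[X][X]} {t : ℕ} (hf : ∀ i, (f.coeff i).natDegree ≤ t) (j : ℕ) :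
    ∀ i, ((f ^ j).coeff i).natDegree ≤ j * t := by
  induction j with
  | zero => intro i; rw [pow_zero, ← C_1]; exact cd_C_HsZ1 (by simp) i
  | succ j ih => intro i; rw [pow_succ, add_mul, one_mul]; exact cd_mul_HsZ1 ih hf i

theorem cd_lin_HsZ1 {a b : A[X]} {t : ℕ} (ha : a.natDegree ≤ t) (hb : b.natDegree ≤ t) (i : ℕ) :
    ((C a * X + C b : A[X][X]).coeff i).natDegree ≤ t := by
  rw [coeff_add]
  refine (natDegree_add_le _ _).trans (max_le ?_ (cd_C_HsZ1 hb i))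
  rw [coeff_C_mul, coeff_X]; split_ifs
  · simpa using ha
  · simp

theorem natDegree_hsub (k : ℕ) {c : ℕ → A[X]} {M : Matrix (Fin 2) (Fin 2) A[X]} {s t : ℕ}
    (hc : ∀ j, (c j).natDegree ≤ s) (hM : ∀ r r', (M r r').natDegree ≤ t) (i : ℕ) :
    (hsub k c M i).natDegree ≤ s + k * t := by
  rw [hsub, finsetSum_coeff]
  refine natDegree_sum_le_of_forall_le _ _ fun j hj => ?_
  have hj' : j ≤ k := Nat.lt_succ_iff.1 (mem_range.1 hj)
  have h := cd_mul_HsZ1 (cd_mul_HsZ1 (cd_C_HsZ1 (hc j))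
    (cd_pow_HsZ1 (cd_lin_HsZ1 (hM 0 0) (hM 0 1)) j))
    (cd_pow_HsZ1 (cd_lin_HsZ1 (hM 1 0) (hM 1 1)) (k - j)) i
  refine h.trans (le_of_eq ?_)
  rw [add_assoc, ← add_mul, Nat.add_sub_cancel' hj']

theorem natDegree_hev (k : ℕ) {c : ℕ → A[X]} {w : Fin 2 → A[X]} {s t : ℕ}
    (hc : ∀ j, (c j).natDegree ≤ s) (hw : ∀ r, (w r).natDegree ≤ t) :
    (hev k c w).natDegree ≤ s + k * t := by
  rw [hev]
  refine natDegree_sum_le_of_forall_le _ _ fun j hj => ?_
  have hj' : j ≤ k := Nat.lt_succ_iff.1 (mem_range.1 hj)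
  have h0 : (w 0 ^ j).natDegree ≤ j * t :=
    natDegree_pow_le.trans (Nat.mul_le_mul_left _ (hw 0))
  have h1 : (w 1 ^ (k - j)).natDegree ≤ (k - j) * t :=
    natDegree_pow_le.trans (Nat.mul_le_mul_left _ (hw 1))
  refine (natDegree_mul_le.trans (add_le_add
    (natDegree_mul_le.trans (add_le_add (hc j) h0)) h1)).trans (le_of_eq ?_)
  rw [add_assoc, ← add_mul, Nat.add_sub_cancel' hj']

theorem xn_deg_HsZ1 (n : ℕ) : (X + (n : A[X])).natDegree ≤ 1 := by
  rw [← C_eq_natCast]; exact (natDegree_add_le _ _).trans (by simp [natDegree_X_le])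

theorem lin_deg_HsZ1 (a b : A) (n : ℕ) : (C a * (X + (n : A[X])) + C b).natDegree ≤ 1 :=
  (natDegree_add_le _ _).trans
    (max_le ((natDegree_C_mul_le _ _).trans (xn_deg_HsZ1 n)) (by simp))

theorem p_deg_HsZ1 {κ : ℕ} (D : Par A κ) (n : ℕ) : ((D.map C).p (X + (n : A[X]))).natDegree ≤ 1 :=
  lin_deg_HsZ1 D.al D.be n

theorem q_deg_HsZ1 {κ : ℕ} (D : Par A κ) (n : ℕ) : ((D.map C).q (X + (n : A[X]))).natDegree ≤ κ := by
  rw [Par.q, Par.map_ga]
  refine (natDegree_C_mul_le _ _).trans ((natDegree_prod_le _ _).trans ?_)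
  refine (sum_le_card_nsmul _ _ 1 fun i _ => ?_).trans (by simp)
  have h := lin_deg_HsZ1 (D.a : A) (D.b i : A) n
  rwa [C_eq_natCast, C_eq_natCast] at h

theorem p_deg'_HsZ1 {κ : ℕ} (D : Par A κ) (ok : D.Ok) (n : ℕ) :
    2 * ((D.map C).p (X + (n : A[X]))).natDegree ≤ κ := by
  rcases ok with ⟨_, h⟩ | h
  · simp [Par.p, h]
  · have := p_deg_HsZ1 D n
    omega

theorem WX_succ_HsZ1 {κ : ℕ} (D : Par A κ) (m : ℕ) (s : Fin 2) :
    D.WX (m + 1) 0 s = (D.map C).p (X + (m : A[X])) * D.WX m 0 s +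
      (D.map C).q (X + (m : A[X])) * D.WX m 1 s ∧
    D.WX (m + 1) 1 s = D.WX m 0 s := by
  simp [Par.WX, Par.W_succ, Par.T, mul_apply, Fin.sum_univ_two]

theorem one_deg_HsZ1 (r s : Fin 2) :
    ((1 : Matrix (Fin 2) (Fin 2) A[X]) r s).natDegree = 0 := by
  rw [Matrix.one_apply]; split_ifs <;> simp

theorem Par.WX_deg {κ : ℕ} (D : Par A κ) (hκ : κ ≤ 2) (m : ℕ) (r s : Fin 2) :
    (D.WX m r s).natDegree ≤ 2 * m := by
  induction m generalizing r with
  | zero => exact (one_deg_HsZ1 r s).le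
  | succ m ih =>
    obtain ⟨h0, h1⟩ := WX_succ_HsZ1 D m s
    have a0 := ih 0
    have a1 := ih 1
    have hp := p_deg_HsZ1 D m
    have hq := q_deg_HsZ1 D m
    have b0 : (D.WX (m + 1) 0 s).natDegree ≤ 2 * (m + 1) := by
      rw [h0]
      refine (natDegree_add_le _ _).trans (max_le (natDegree_mul_le.trans ?_)
        (natDegree_mul_le.trans ?_)) <;> omega
    have b1 : (D.WX (m + 1) 1 s).natDegree ≤ 2 * (m + 1) := by rw [h1]; omega
    fin_cases r
    · exact b0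
    · exact b1

theorem two_add_HsZ1 {f g : A[X]} {n : ℕ} (hf : 2 * f.natDegree ≤ n) (hg : 2 * g.natDegree ≤ n) :
    2 * (f + g).natDegree ≤ n := by
  have := natDegree_add_le f g
  rcases le_max_iff.1 this with h | h <;> omega

theorem two_mul_HsZ1 {f g : A[X]} {n : ℕ} (h : 2 * f.natDegree + 2 * g.natDegree ≤ n) :
    2 * (f * g).natDegree ≤ n := by
  have := natDegree_mul_le (p := f) (q := g)
  omega

theorem inv_HsZ1 {κ : ℕ} (D : Par A κ) (ok : D.Ok) (m : ℕ) :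
    2 * (D.WX m 0 0).natDegree ≤ κ * m ∧
    (2 * (D.WX m 1 0).natDegree + κ ≤ κ * m ∨ D.WX m 1 0 = 0) ∧
    2 * (D.WX m 0 1).natDegree ≤ κ * m + κ ∧ 2 * (D.WX m 1 1).natDegree ≤ κ * m := by
  induction m with
  | zero => simp [Par.WX]
  | succ m ih =>
    obtain ⟨a, b, c, d⟩ := ih
    obtain ⟨h0, h1⟩ := WX_succ_HsZ1 D m 0
    obtain ⟨h2, h3⟩ := WX_succ_HsZ1 D m 1
    have hp := p_deg'_HsZ1 D ok m
    have hq := q_deg_HsZ1 D m
    rw [h0, h1, h2, h3, Nat.mul_succ]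
    refine ⟨two_add_HsZ1 (two_mul_HsZ1 (by omega)) ?_, Or.inl (by omega),
      two_add_HsZ1 (two_mul_HsZ1 (by omega)) (two_mul_HsZ1 (by omega)), c⟩
    rcases b with b | b
    · exact two_mul_HsZ1 (by omega)
    · simp [b]

theorem Par.trace_deg {κ : ℕ} (D : Par A κ) (ok : D.Ok) (m : ℕ) :
    2 * (D.WX m).trace.natDegree ≤ κ * m := by
  obtain ⟨a, -, -, d⟩ := inv_HsZ1 D ok m
  rw [trace_fin_two]
  exact two_add_HsZ1 a d

end Pool.Agent.P.MP_68214b_ag
end

-- part Pool.Agent.P.MP_68214b_ag.HsH1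
section

open Polynomial Finset Matrix NumberField

namespace Pool.Agent.P.MP_68214b_ag

theorem newton_dvd {R : Type} [CommRing R] [IsAddTorsionFree R] {f : ℕ → R} {G : R[X]} {t s : ℕ}
    (ht : t ≠ 0) (hG : G.natDegree < s) (hf : ∀ j : ℕ, (t : R) * f j = G.eval (j : R)) {N : R}
    (h : ∀ j < s, N ∣ f j) (j : ℕ) : N ∣ f j := by
  have key : ∀ y : ℕ, ∑ e ∈ range (s + 1), ((-1 : ℤ) ^ (s - e) * s.choose e) • f (y + e) = 0 := by
    intro y
    have h0 := congrFun (Polynomial.fwdDiff_iter_eq_zero_of_degree_lt hG) (y : R)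
    rw [fwdDiff_iter_eq_sum_shift] at h0
    have h1 : t • ∑ e ∈ range (s + 1), ((-1 : ℤ) ^ (s - e) * s.choose e) • f (y + e) = 0 := by
      rw [smul_sum]
      refine Eq.trans (sum_congr rfl fun e _ => ?_) h0
      rw [smul_comm, nsmul_eq_mul, hf]
      simp
    exact (nsmul_eq_zero_iff_right ht).1 h1
  induction j using Nat.strong_induction_on with
  | _ j ih =>
    by_cases hj : j < s
    · exact h j hj
    · obtain ⟨y, rfl⟩ : ∃ y, j = y + s := ⟨j - s, by omega⟩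
      have h2 := key y
      rw [sum_range_succ] at h2
      simp only [Nat.sub_self, pow_zero, Nat.choose_self, Nat.cast_one, mul_one, one_smul] at h2
      rw [eq_neg_of_add_eq_zero_right h2]
      refine (dvd_neg).2 (dvd_sum fun e he => ?_)
      rw [zsmul_eq_mul]
      exact Dvd.dvd.mul_left (ih _ (by have := mem_range.1 he; omega)) _

/-- the values of the integer valued polynomial with Newton coordinates z -/
def nL_HsH1 (s : ℕ) (z : ℕ → ℤ) (j : ℕ) : ℤ := ∑ e ∈ range s, z e * j.choose e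

/-- its multiple with integer coefficients -/
noncomputable def nC_HsH1 (s : ℕ) (z : ℕ → ℤ) : ℤ[X] :=
  ∑ e ∈ range s, C (z e * ((s.factorial / e.factorial : ℕ) : ℤ)) * descPochhammer ℤ e

theorem nC_deg_HsH1 (s : ℕ) (z : ℕ → ℤ) : (nC_HsH1 s z).natDegree ≤ s - 1 := by
  refine natDegree_sum_le_of_forall_le _ _ fun e he => ?_
  refine (natDegree_C_mul_le _ _).trans ?_
  rw [descPochhammer_natDegree]
  have := mem_range.1 he
  omega

theorem nC_eval_HsH1 (s : ℕ) (z : ℕ → ℤ) (j : ℕ) :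
    (nC_HsH1 s z).eval (j : ℤ) = s.factorial * nL_HsH1 s z j := by
  rw [nC_HsH1, nL_HsH1, eval_finsetSum, mul_sum]
  refine sum_congr rfl fun e he => ?_
  obtain ⟨q, hq⟩ : e.factorial ∣ s.factorial := Nat.factorial_dvd_factorial (mem_range.1 he).le
  rw [eval_mul, eval_C, descPochhammer_eval_eq_descFactorial,
    Nat.descFactorial_eq_factorial_mul_choose, hq, Nat.mul_div_cancel_left _ e.factorial_pos]
  push_cast
  ring

theorem nL_abs_HsH1 (s : ℕ) {z : ℕ → ℤ} {H : ℕ} (hz : ∀ e, |z e| ≤ H) (j : ℕ) :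
    |nL_HsH1 s z j| ≤ H * 2 ^ j := by
  have h1 : ∑ e ∈ range s, j.choose e ≤ 2 ^ j := by
    rw [← Nat.sum_range_choose]
    refine sum_le_sum_of_ne_zero fun e _ he => mem_range.2 ?_
    by_contra hc
    exact he (Nat.choose_eq_zero_of_lt (by omega))
  have h2 : ∑ e ∈ range s, (j.choose e : ℤ) ≤ 2 ^ j := by exact_mod_cast h1
  calc |nL_HsH1 s z j| ≤ ∑ e ∈ range s, |z e * j.choose e| := abs_sum_le_sum_abs _ _
    _ ≤ ∑ e ∈ range s, (H : ℤ) * j.choose e := by
        refine sum_le_sum fun e _ => ?_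
        rw [abs_mul, Nat.abs_cast]
        exact mul_le_mul_of_nonneg_right (hz e) (by positivity)
    _ ≤ H * 2 ^ j := by
        rw [← mul_sum]
        exact mul_le_mul_of_nonneg_left h2 (by positivity)

theorem nC_ne_HsH1 {s : ℕ} {z : ℕ → ℤ} (hz : ∃ e, e < s ∧ z e ≠ 0) : nC_HsH1 s z ≠ 0 := by
  classical
  intro h0
  have h1 := nC_eval_HsH1 s z (Nat.find hz)
  have h2 : nL_HsH1 s z (Nat.find hz) = z (Nat.find hz) := by
    rw [nL_HsH1, sum_eq_single (Nat.find hz)]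
    · simp
    · intro e he hne
      rcases lt_or_gt_of_ne hne with hl | hl
      · have := Nat.find_min hz hl
        have h3 : z e = 0 := by
          by_contra h4
          exact this ⟨mem_range.1 he, h4⟩
        rw [h3, zero_mul]
      · rw [Nat.choose_eq_zero_of_lt hl]; simp
    · intro h3
      exact absurd (mem_range.2 (Nat.find_spec hz).1) h3
  rw [h0, h2, eval_zero] at h1
  exact mul_ne_zero (by exact_mod_cast s.factorial_ne_zero) (Nat.find_spec hz).2 h1.symm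

theorem nL_sub_HsH1 (s : ℕ) (z z' : ℕ → ℤ) (j : ℕ) :
    nL_HsH1 s (fun e => z e - z' e) j = nL_HsH1 s z j - nL_HsH1 s z' j := by
  simp only [nL_HsH1, sub_mul, sum_sub_distrib]

theorem hev_sub_HsH1 {R : Type} [CommRing R] (k : ℕ) (c c' : ℕ → R) (v : Fin 2 → R) :
    hev k (fun i => c i - c' i) v = hev k c v - hev k c' v := by
  simp only [hev, sub_mul, sum_sub_distrib]

theorem hev_mul_HsH1 {R : Type} [CommRing R] (k : ℕ) (t : R) (c : ℕ → R) (v : Fin 2 → R) :
    hev k (fun i => t * c i) v = t * hev k c v := by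
  simp only [hev, mul_sum, mul_assoc]

/-- extension by zero -/
def ext_HsH1 {a s H : ℕ} (x : Fin a × Fin s → Fin H) (i e : ℕ) : ℤ :=
  if h : i < a ∧ e < s then ((x (⟨i, h.1⟩, ⟨e, h.2⟩) : ℕ) : ℤ) else 0

theorem ext_bd_HsH1 {a s H : ℕ} (x : Fin a × Fin s → Fin (H + 1)) (i e : ℕ) :
    0 ≤ ext_HsH1 x i e ∧ ext_HsH1 x i e ≤ H := by
  unfold ext_HsH1
  split_ifs with h
  · have := (x (⟨i, h.1⟩, ⟨e, h.2⟩)).2
    omega
  · omega

theorem pigeon_HsH1 {R : Type} [CommRing R] [Module.Free ℤ R] [Module.Finite ℤ R]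
    {α β : Type} [Fintype α] [Fintype β] {N : ℕ} (hN : 0 < N) (F : α → β → R)
    (h : N ^ (Fintype.card β * Module.finrank ℤ R) < Fintype.card α) :
    ∃ x y, x ≠ y ∧ ∀ b, (N : R) ∣ F x b - F y b := by
  classical
  have : NeZero N := ⟨hN.ne'⟩
  let B := Module.finBasis ℤ R
  obtain ⟨x, y, hxy, he⟩ := Fintype.exists_ne_map_eq_of_card_lt
    (fun (x : α) (p : β × Fin (Module.finrank ℤ R)) => ((B.repr (F x p.1) p.2 : ℤ) : ZMod N))
    (by simpa using h)
  refine ⟨x, y, hxy, fun b => ?_⟩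
  rw [← B.sum_repr (F x b - F y b)]
  refine dvd_sum fun e _ => ?_
  have h1 := congrFun he (b, e)
  obtain ⟨q, hq⟩ := (ZMod.intCast_eq_intCast_iff_dvd_sub _ _ _).1 h1.symm
  have h2 : B.repr (F x b - F y b) e = N * q := by
    rw [map_sub, Finsupp.sub_apply]; exact hq
  rw [h2, zsmul_eq_mul]
  push_cast
  exact Dvd.dvd.mul_right (dvd_mul_right _ _) _

theorem siegel {R : Type} [CommRing R] [IsDomain R] [CharZero R] [Module.Free ℤ R]
    [Module.Finite ℤ R] {κ : ℕ} (D : Par R κ) (hκ : κ ≤ 2) {k m N H : ℕ} (hk : 0 < k)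
    (hm : 0 < m) (hN : 0 < N) (hH : N ^ (4 * Module.finrank ℤ R) < (H + 1) ^ (k + 1)) :
    ∃ (c : ℕ → ℤ[X]) (L : ℕ → ℕ → ℤ), (∃ i ≤ k, c i ≠ 0) ∧ (∀ i, (c i).natDegree ≤ 2 * k * m) ∧
      (∀ i (j : ℕ), (c i).eval (j : ℤ) = (2 * k * m).factorial * L i j) ∧
      (∀ i j, |L i j| ≤ H * 2 ^ j) ∧
      ∀ (j : ℕ) r, (N : R) ∣ hev k (fun i => (L i j : R)) (perp (D.W j m) r) := by
  have hs : 0 < 2 * k * m := by positivity
  generalize hS : 2 * k * m = s at hs ⊢
  obtain ⟨x, y, hxy, hd⟩ := pigeon_HsH1 (α := Fin (k + 1) × Fin s → Fin (H + 1))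
    (β := Fin 2 × Fin (2 * s)) hN
    (fun x b => hev k (fun i => (nL_HsH1 s (ext_HsH1 x i) b.2 : R)) (perp (D.W (b.2 : ℕ) m) b.1))
    (by
      have h1 := Nat.pow_lt_pow_left hH hs.ne'
      rw [← pow_mul, ← pow_mul] at h1
      simp only [Fintype.card_prod, Fintype.card_fin, Fintype.card_fun]
      refine lt_of_eq_of_lt ?_ h1
      congr 1
      ring)
  have hdeg : ∀ i, (nC_HsH1 s fun e => ext_HsH1 x i e - ext_HsH1 y i e).natDegree ≤ s - 1 :=
    fun i => nC_deg_HsH1 _ _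
  refine ⟨fun i => nC_HsH1 s fun e => ext_HsH1 x i e - ext_HsH1 y i e,
    fun i => nL_HsH1 s fun e => ext_HsH1 x i e - ext_HsH1 y i e, ?_,
    fun i => (hdeg i).trans (Nat.sub_le _ _), fun i j => nC_eval_HsH1 _ _ _,
    fun i j => nL_abs_HsH1 _ (fun e => ?_) j, fun j r => ?_⟩
  · obtain ⟨⟨i, e⟩, hp⟩ := Function.ne_iff.1 hxy
    refine ⟨i, Nat.lt_succ_iff.1 i.2, nC_ne_HsH1 ⟨e, e.2, fun h0 => hp ?_⟩⟩
    simp only [ext_HsH1, i.2, e.2, and_self, dif_pos, Fin.eta] at h0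
    exact Fin.ext (by omega)
  · have h1 := ext_bd_HsH1 x i e
    have h2 := ext_bd_HsH1 y i e
    rw [abs_le]
    omega
  · refine newton_dvd (s := 2 * s) (t := s.factorial)
      (f := fun j : ℕ => hev k
        (fun i => ((nL_HsH1 s (fun e => ext_HsH1 x i e - ext_HsH1 y i e) j : ℤ) : R))
        (perp (D.W j m) r))
      (G := hev k (fun i => (nC_HsH1 s fun e => ext_HsH1 x i e - ext_HsH1 y i e).map
        (Int.castRingHom R)) (perp (D.WX m) r)) s.factorial_ne_zero ?_ (fun j => ?_)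
      (fun j hj => ?_) j
    · refine lt_of_le_of_lt (natDegree_hev (s := s - 1) (t := 2 * m) k
        (fun i => natDegree_map_le.trans (hdeg i)) fun r' => ?_) ?_
      · fin_cases r'
        · simpa [perp] using D.WX_deg hκ m r 1
        · simpa [perp] using D.WX_deg hκ m r 0
      · have : k * (2 * m) = s := by rw [← hS]; ring
        omega
    · rw [← hev_mul_HsH1, ← coe_evalRingHom, hev_map]
      congr 1
      · funext i
        rw [coe_evalRingHom, eval_natCast_map, nC_eval_HsH1]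
        simp
      · funext r'
        rw [← D.WX_eval]
        fin_cases r' <;> simp [perp]
    · have h1 := hd (r, ⟨j, hj⟩)
      rw [← hev_sub_HsH1] at h1
      simpa only [nL_sub_HsH1, Int.cast_sub] using h1

end Pool.Agent.P.MP_68214b_ag
end

-- part Pool.Agent.P.MP_68214b_ag.HsZ2
section

open Polynomial Finset Matrix NumberField

namespace Pool.Agent.P.MP_68214b_ag

variable {A B : Type} [CommRing A] [CommRing B]

theorem coeff_hpol_HsZ2 (k : ℕ) (c : ℕ → A) (i : ℕ) :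
    (hpol k c).coeff i = if i ≤ k then c i else 0 := by
  simp only [hpol, finsetSum_coeff, coeff_monomial, sum_ite_eq', mem_range, Nat.lt_succ_iff]

theorem deg_hpol_HsZ2 (k : ℕ) (c : ℕ → A) : (hpol k c).natDegree ≤ k :=
  natDegree_le_iff_coeff_eq_zero.2 fun i hi => by
    rw [coeff_hpol_HsZ2, if_neg (by omega)]

theorem eval_hpol_HsZ2 (k : ℕ) (c : ℕ → A) (r : A) : (hpol k c).eval r = hev k c ![r, 1] := by
  simp [hpol, hev, eval_finsetSum]

theorem hev_inf_HsZ2 (k : ℕ) (c : ℕ → A) (x : A) : hev k c ![x, 0] = c k * x ^ k := by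
  rw [hev, sum_range_succ, sum_eq_zero fun i hi => by
    have : k - i ≠ 0 := by have := mem_range.1 hi; omega
    simp [this]]
  simp

theorem map_hpol_HsZ2 (f : A →+* B) (k : ℕ) (c : ℕ → A) :
    (hpol k c).map f = hpol k fun j => f (c j) := by
  simp [hpol, Polynomial.map_sum]

theorem root_HsZ2 {K : Type} [Field K] [IsAlgClosed K] {k : ℕ} {c c' : ℕ → K} (hc : c k ≠ 0)
    (h : hres k c c' = 0) : ∃ w : Fin 2 → K, w ≠ 0 ∧ hev k c w = 0 ∧ hev k c' w = 0 := by
  have h1 : (hpol k c).coeff k ≠ 0 := by rwa [coeff_hpol_HsZ2, if_pos le_rfl]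
  have h2 : (hpol k c).natDegree = k := natDegree_eq_of_le_of_coeff_ne_zero (deg_hpol_HsZ2 k c) h1
  have h3 := resultant_eq_prod_eval (hpol k c) (hpol k c') k (deg_hpol_HsZ2 k c')
    (IsAlgClosed.splits _)
  have h4 : (hpol k c).leadingCoeff ≠ 0 := by rwa [leadingCoeff, h2]
  rw [h2, ← hres, h] at h3
  have h5 := (mul_eq_zero.1 h3.symm).resolve_left (pow_ne_zero _ h4)
  obtain ⟨r, hr, e⟩ := Multiset.mem_map.1 (Multiset.prod_eq_zero_iff.1 h5)
  refine ⟨![r, 1], fun h0 => ?_, ?_, ?_⟩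
  · simpa using congrFun h0 1
  · rw [← eval_hpol_HsZ2]
    exact (isRoot_of_mem_roots hr).eq_zero
  · rwa [← eval_hpol_HsZ2]

theorem hres_map (f : A →+* B) (k : ℕ) (c c' : ℕ → A) :
    f (hres k c c') = hres k (fun j => f (c j)) fun j => f (c' j) := by
  rw [hres, hres, ← resultant_map_map, map_hpol_HsZ2, map_hpol_HsZ2]

theorem natDegree_hres (k : ℕ) {c c' : ℕ → A[X]} {s : ℕ} (hc : ∀ j, (c j).natDegree ≤ s)
    (hc' : ∀ j, (c' j).natDegree ≤ s) : (hres k c c').natDegree ≤ 2 * k * s := by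
  have hS : ∀ i j, ((sylvester (hpol k c) (hpol k c') k k) i j).natDegree ≤ s := by
    intro i j
    induction j using Fin.addCases with
    | left j =>
      simp only [sylvester, Matrix.of_apply, Fin.addCases_left, coeff_hpol_HsZ2]
      split_ifs
      exacts [hc' _, by simp, by simp]
    | right j =>
      simp only [sylvester, Matrix.of_apply, Fin.addCases_right, coeff_hpol_HsZ2]
      split_ifs
      exacts [hc _, by simp, by simp]
  rw [hres, resultant, Matrix.det_apply]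
  refine natDegree_sum_le_of_forall_le _ _ fun σ _ => ?_
  refine (natDegree_smul_le _ _).trans ((natDegree_prod_le _ _).trans ?_)
  refine (sum_le_card_nsmul _ _ s fun i _ => hS _ _).trans_eq ?_
  simp [two_mul]

theorem hres_eq_zero {K : Type} [Field K] {k : ℕ} (hk : 0 < k) {c c' : ℕ → K} {w : Fin 2 → K}
    (hw : w ≠ 0) (h : hev k c w = 0) (h' : hev k c' w = 0) : hres k c c' = 0 := by
  by_cases h1 : w 1 = 0
  · have h0 : w 0 ≠ 0 := fun h0 => hw (funext fun i => by fin_cases i <;> simp [h0, h1])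
    have e : w = ![w 0, 0] := funext fun i => by fin_cases i <;> simp [h1]
    rw [e, hev_inf_HsZ2] at h h'
    have lt : ∀ {d : ℕ → K}, d k * w 0 ^ k = 0 → (hpol k d).natDegree < k := fun {d} hd => by
      refine (natDegree_le_iff_coeff_eq_zero.2 fun i hi => ?_ :
        (hpol k d).natDegree ≤ k - 1).trans_lt (by omega)
      rw [coeff_hpol_HsZ2]
      split_ifs with hik
      · rw [show i = k by omega]
        exact (mul_eq_zero.1 hd).resolve_right (pow_ne_zero _ h0)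
      · rfl
    exact resultant_eq_zero_of_lt_lt _ _ _ _ (lt h) (lt h')
  · have e : w = w 1 • ![w 0 / w 1, 1] := funext fun i => by
      fin_cases i
      · simp [mul_div_cancel₀ _ h1]
      · simp
    rw [e, hev_smul, ← eval_hpol_HsZ2] at h h'
    have a := (mul_eq_zero.1 h).resolve_left (pow_ne_zero _ h1)
    have a' := (mul_eq_zero.1 h').resolve_left (pow_ne_zero _ h1)
    obtain ⟨p, q, -, -, hpq⟩ := exists_mul_add_mul_eq_C_resultant (hpol k c) (hpol k c')
      (deg_hpol_HsZ2 k c) (deg_hpol_HsZ2 k c') (Or.inl hk.ne')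
    have := congrArg (eval (w 0 / w 1)) hpq
    rw [eval_add, eval_mul, eval_mul, a, a', zero_mul, zero_mul, add_zero, eval_C] at this
    exact this.symm

theorem common_of_hres {K : Type} [Field K] [IsAlgClosed K] {k : ℕ} (hk : 0 < k) {c c' : ℕ → K}
    (h : hres k c c' = 0) : ∃ w : Fin 2 → K, w ≠ 0 ∧ hev k c w = 0 ∧ hev k c' w = 0 := by
  by_cases hc : c k = 0
  · by_cases hc' : c' k = 0
    · refine ⟨![1, 0], fun h0 => ?_, ?_, ?_⟩
      · simpa using congrFun h0 0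
      · rw [hev_inf_HsZ2, hc, zero_mul]
      · rw [hev_inf_HsZ2, hc', zero_mul]
    · obtain ⟨w, h1, h2, h3⟩ := root_HsZ2 (c' := c) hc' (by
        rw [hres, resultant_comm, ← hres, h, mul_zero])
      exact ⟨w, h1, h3, h2⟩
  · exact root_HsZ2 hc h

end Pool.Agent.P.MP_68214b_ag
end

-- part Pool.Agent.P.MP_68214b_ag.HsZ4
section

open Polynomial Finset Matrix NumberField

namespace Pool.Agent.P.MP_68214b_ag

variable {F : Type} [Field F] {p κ : ℕ}

theorem root_HsZ4 [CharP F p] {f : F[X]} (hd : f.degree < p) (h : ∀ j : ℕ, f.eval (j : F) = 0) :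
    f = 0 := by
  refine eq_zero_of_degree_lt_of_eval_index_eq_zero (range p) (v := fun j : ℕ => (j : F))
    (fun a ha b hb e => CharP.natCast_injOn_Iio F p (mem_range.1 (mem_coe.1 ha))
      (mem_range.1 (mem_coe.1 hb)) e) ?_ fun j _ => h j
  rwa [card_range]

theorem frob_HsZ4 [CharP F p] (hp : p.Prime) (j : ℕ) : (j : F) ^ p = j := by
  have := Fact.mk hp
  exact map_natCast (frobenius F p) j

theorem monic_HsZ4 (hp : p.Prime) : (X ^ p - X : F[X]).Monic :=
  monic_X_pow_sub (by rw [degree_X]; exact_mod_cast hp.one_lt)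

theorem deg_HsZ4 (hp : p.Prime) : (X ^ p - X : F[X]).natDegree = p := by
  rw [natDegree_sub_eq_left_of_natDegree_lt, natDegree_X_pow]
  rw [natDegree_X, natDegree_X_pow]
  exact hp.one_lt

theorem der_HsZ4 [CharP F p] : derivative (X ^ p - X : F[X]) = -1 := by
  rw [derivative_sub, derivative_X_pow, CharP.cast_eq_zero, C_0, zero_mul, derivative_X, zero_sub]

theorem prod_HsZ4 [CharP F p] (hp : p.Prime) {a : ℕ} (ha : (a : F) ≠ 0) (b : ℕ) :
    ∏ l ∈ range p, ((a : F[X]) * (X + (l : F[X])) + (b : F[X])) = C ((a : F) ^ p) * (X ^ p - X) := by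
  have e1 : ∀ l : ℕ, (a : F[X]) * (X + (l : F[X])) + (b : F[X]) =
      C (a : F) * (X + C ((l : F) + b / a)) := fun l => by
    have : (C (b : F) : F[X]) = C (a : F) * C ((b : F) / a) := by
      rw [← C_mul, mul_div_cancel₀ _ ha]
    rw [← C_eq_natCast, ← C_eq_natCast, ← C_eq_natCast, C_add, this]
    ring
  rw [prod_congr rfl fun l _ => e1 l, prod_mul_distrib, prod_const, card_range, ← C_pow]
  congr 1
  have m1 : (∏ l ∈ range p, (X + C ((l : F) + b / a))).Monic :=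
    monic_prod_of_monic _ _ fun l _ => monic_X_add_C _
  have d1 : (∏ l ∈ range p, (X + C ((l : F) + b / a))).natDegree = p := by
    rw [natDegree_prod_of_monic _ _ fun l _ => monic_X_add_C _]
    simp only [natDegree_X_add_C, sum_const, card_range, smul_eq_mul, mul_one]
  refine sub_eq_zero.1 (root_HsZ4 (p := p) ?_ fun j => ?_)
  · refine (degree_sub_lt_left ?_ m1.ne_zero (by rw [m1.leadingCoeff, (monic_HsZ4 hp).leadingCoeff])).trans_eq ?_
    · rw [degree_eq_natDegree m1.ne_zero, degree_eq_natDegree (monic_HsZ4 hp).ne_zero, d1,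
        deg_HsZ4 hp]
    · rw [degree_eq_natDegree m1.ne_zero, d1]
  · obtain ⟨l, hl, h⟩ := exists_root (F := F) hp ha ((a * j + b : ℕ) : ℤ)
    rw [eval_sub, eval_sub, eval_pow, eval_X, frob_HsZ4 hp, sub_self, sub_zero, eval_prod]
    refine prod_eq_zero (mem_range.2 hl) ?_
    rw [eval_add, eval_X, eval_C]
    push_cast at h
    field_simp
    linear_combination h

theorem shape [CharP F p] (hp : p.Prime) (h2 : p ≠ 2) (D : Par F κ) (ok : D.Ok) (hga : D.ga ≠ 0)
    (ha : (D.a : F) ≠ 0) : ∃ s g : F, g ≠ 0 ∧ (κ = 1 → s = 0) ∧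
      (D.WX p).trace = C s * (X ^ p - X) + C (D.W 0 p).trace ∧
      (D.WX p).det = -(C g * (X ^ p - X) ^ κ) := by
  have hd := D.trace_deg ok p
  have hκ := ok.le
  have h1 := hp.one_lt
  refine ⟨(D.WX p).trace.coeff p, D.ga ^ p * ((D.a : F) ^ p) ^ κ,
    mul_ne_zero (pow_ne_zero _ hga) (pow_ne_zero _ (pow_ne_zero _ ha)), fun e => ?_, ?_, ?_⟩
  · refine coeff_eq_zero_of_natDegree_lt ?_
    have e2 : κ * p = p := by rw [e, one_mul]
    omega
  · have hd' : (D.WX p).trace.natDegree ≤ p := by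
      have := Nat.mul_le_mul_right p hκ.2
      omega
    refine sub_eq_zero.1 (root_HsZ4 (p := p) ?_ fun j => ?_)
    · rw [degree_lt_iff_coeff_zero]
      intro n hn
      rw [coeff_sub, coeff_add, coeff_C_mul, coeff_sub, coeff_X_pow, coeff_X, coeff_C,
        if_neg (by omega : ¬ 1 = n), if_neg (by omega : ¬ n = 0)]
      rcases hn.eq_or_lt with e | e
      · rw [← e, if_pos rfl]
        ring
      · rw [if_neg (by omega : ¬ n = p), coeff_eq_zero_of_natDegree_lt (hd'.trans_lt e)]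
        ring
    · have e1 : (D.WX p).trace.eval (j : F) = (D.W j p).trace := by
        rw [← D.WX_eval, trace_fin_two, trace_fin_two, eval_add]
        rfl
      rw [eval_sub, eval_add, eval_mul, eval_sub, eval_pow, eval_X, frob_HsZ4 hp, sub_self, mul_zero,
        eval_C, e1, trace_nat, zero_add, sub_self]
  · rw [Par.WX, Par.W_det]
    simp only [Par.q, Par.map_ga, Par.map_a, Par.map_b]
    rw [prod_neg, card_range, (hp.odd_of_ne_two h2).neg_one_pow, prod_mul_distrib, prod_const,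
      card_range, prod_comm, prod_congr rfl fun i _ => prod_HsZ4 hp ha (D.b i), prod_const, card_univ,
      Fintype.card_fin, mul_pow]
    simp only [C_mul, C_pow]
    ring

theorem big_HsZ4 (hp : p.Prime) {W h e R : F[X]} {c u : F} (hW : W = X ^ p - X) (hu : u ≠ 0)
    (hh : h ∣ C u) (hR : R ≠ 0) (H : W * R + C c = h ^ 2 * e) : p ≤ e.natDegree := by
  subst hW
  have h0 : h.natDegree = 0 := natDegree_eq_zero_of_isUnit
    (isUnit_of_dvd_unit hh (isUnit_C.2 (IsUnit.mk0 u hu)))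
  have h1 : (h ^ 2 * e).natDegree ≤ e.natDegree := by
    refine natDegree_mul_le.trans ?_
    rw [natDegree_pow, h0, mul_zero, zero_add]
  rw [← H, natDegree_add_C, natDegree_mul (monic_HsZ4 hp).ne_zero hR, deg_HsZ4 hp] at h1
  omega

theorem disc_big [CharP F p] (hp : p.Prime) (h2 : p ≠ 2) {s g l : F} (hg : g ≠ 0) (hl : l ≠ 0)
    (hκ : κ = 1 ∧ s = 0 ∨ κ = 2) {h e : F[X]}
    (H : (C s * (X ^ p - X) + C l) ^ 2 + 4 * (C g * (X ^ p - X) ^ κ) = h ^ 2 * e) :
    p ≤ e.natDegree := by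
  have t2 : (2 : F) ≠ 0 := fun e => h2 ((Nat.prime_dvd_prime_iff_eq hp Nat.prime_two).1
    ((CharP.cast_eq_zero_iff F p 2).1 (by exact_mod_cast e)))
  have t4 : (4 : F) ≠ 0 := by
    rw [show (4 : F) = 2 * 2 by norm_num]
    exact mul_ne_zero t2 t2
  have c2 : (C (2 : F) : F[X]) = 2 := rfl
  have c4 : (C (4 : F) : F[X]) = 4 := rfl
  have d1 : h ∣ h ^ 2 * e := ⟨h * e, by ring⟩
  have d2 : h ∣ derivative (h ^ 2 * e) :=
    ⟨2 * derivative h * e + h * derivative e, by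
      rw [sq, derivative_mul, derivative_mul]
      ring⟩
  have hW := der_HsZ4 (F := F) (p := p)
  obtain ⟨W, hW'⟩ : ∃ W : F[X], W = X ^ p - X := ⟨_, rfl⟩
  rw [← hW'] at H hW
  rcases hκ with ⟨rfl, rfl⟩ | rfl
  · have e1 : W * C (4 * g) + C (l ^ 2) = h ^ 2 * e := by
      rw [← H, C_0, C_mul, C_pow, c4]
      ring
    rw [← e1, derivative_add, derivative_C, derivative_mul, derivative_C, hW, mul_zero, add_zero,
      add_zero, neg_one_mul, dvd_neg] at d2
    exact big_HsZ4 hp hW' (mul_ne_zero t4 hg) d2 (C_ne_zero.2 (mul_ne_zero t4 hg)) e1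
  · have e1 : W * (C (s ^ 2 + 4 * g) * W + C (2 * s * l)) + C (l ^ 2) = h ^ 2 * e := by
      rw [← H]
      simp only [C_add, C_mul, C_pow, c2, c4]
      ring
    have e2 : derivative (h ^ 2 * e) = -(2 * C (s ^ 2 + 4 * g) * W + C (2 * s * l)) := by
      rw [← e1]
      simp only [derivative_add, derivative_mul, derivative_C, hW]
      ring
    have d3 : h ∣ C (4 * 4 * g * l ^ 2) := by
      have := dvd_sub (d1.mul_left (4 * C (s ^ 2 + 4 * g))) (d2.mul_left (derivative (h ^ 2 * e)))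
      rw [e2, ← e1] at this
      refine this.trans (dvd_of_eq ?_)
      simp only [C_add, C_mul, C_pow, c2, c4]
      ring
    refine big_HsZ4 hp hW' (mul_ne_zero (mul_ne_zero (mul_ne_zero t4 t4) hg) (pow_ne_zero 2 hl)) d3
      (fun e0 => ?_) e1
    have e3 := congrArg derivative e0
    rw [derivative_add, derivative_C, derivative_mul, derivative_C, hW, zero_mul, zero_add, add_zero,
      derivative_zero, mul_neg_one, neg_eq_zero, C_eq_zero] at e3
    rw [e3, C_0, zero_mul, zero_add, C_eq_zero] at e0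
    have e4 : s = 0 := ((mul_eq_zero.1 ((mul_eq_zero.1 e0).resolve_right hl)).resolve_left t2)
    rw [e4, zero_pow two_ne_zero, zero_add] at e3
    exact mul_ne_zero t4 hg e3

theorem pow_HsZ4 {A : Type} [CommRing A] (N : Matrix (Fin 2) (Fin 2) A) (ev : A →+* F)
    (hd : ev N.det = 0) (i : ℕ) : ∃ a b : A, ev a = ev N.trace ^ i ∧ ev b = 0 ∧
      N ^ (i + 1) = a • N + b • (1 : Matrix (Fin 2) (Fin 2) A) := by
  induction i with
  | zero => exact ⟨1, 0, by simp, by simp, by simp⟩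
  | succ i ih =>
    obtain ⟨a, b, h1, h2, h3⟩ := ih
    refine ⟨a * N.trace + b, -(a * N.det), ?_, ?_, ?_⟩
    · rw [map_add, map_mul, h1, h2, add_zero, pow_succ]
    · rw [map_neg, map_mul, hd, mul_zero, neg_zero]
    · rw [pow_succ, h3]
      ext r s
      fin_cases r <;> fin_cases s <;>
        simp [Matrix.mul_apply, Fin.sum_univ_two, trace_fin_two, det_fin_two] <;> ring

theorem eigen_of_pow {A Ω : Type} [CommRing A] [Field Ω] (φ : A →+* Ω)
    (hφ : Function.Injective φ) (N : Matrix (Fin 2) (Fin 2) A) (ev : A →+* F)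
    (hd : ev N.det = 0) (ht : ev N.trace ≠ 0) {i : ℕ} (hi : 0 < i) {w : Fin 2 → Ω}
    (h : wed w ((N ^ i).map φ *ᵥ w) = 0) : wed w (N.map φ *ᵥ w) = 0 := by
  obtain ⟨i, rfl⟩ : ∃ j, i = j + 1 := ⟨i - 1, by omega⟩
  obtain ⟨a, b, h1, -, h3⟩ := pow_HsZ4 N ev hd i
  have ha : φ a ≠ 0 := fun e => by
    have : a = 0 := hφ (by rw [e, map_zero])
    rw [this, map_zero] at h1
    exact pow_ne_zero i ht h1.symm
  refine (mul_eq_zero.1 (?_ : φ a * _ = 0)).resolve_left ha
  rw [← h, h3]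
  simp [wed, mulVec, dotProduct, Fin.sum_univ_two]
  ring

end Pool.Agent.P.MP_68214b_ag
end

-- part Pool.Agent.P.MP_68214b_ag.HsZ5
section

open Polynomial Finset Matrix NumberField

namespace Pool.Agent.P.MP_68214b_ag

theorem coeff_swap_HsZ5 {R : Type} [CommRing R] (p : R[X][X]) (i j : ℕ) :
    ((Bivariate.swap p).coeff i).coeff j = (p.coeff j).coeff i := by
  induction p using Polynomial.induction_on' with
  | add p q hp hq => simp only [map_add, coeff_add, hp, hq]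
  | monomial n f =>
    rw [Bivariate.swap_monomial, coeff_mul_C, coeff_map, coeff_C_mul, coeff_X_pow, coeff_monomial]
    by_cases hn : n = j
    · subst hn; simp
    · simp [hn, Ne.symm hn]

theorem deg_dvd_HsZ5 {F : Type} [Field F] {m P : F[X][X]} (hP : P ≠ 0) (hd : m ∣ P) {s : ℕ}
    (hs : ∀ i, (P.coeff i).natDegree ≤ s) (i : ℕ) : (m.coeff i).natDegree ≤ s := by
  have h1 : (Bivariate.swap P).natDegree ≤ s := by
    rw [natDegree_le_iff_coeff_eq_zero]
    intro n hn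
    ext j
    rw [coeff_swap_HsZ5, coeff_zero]
    exact coeff_eq_zero_of_natDegree_lt (lt_of_le_of_lt (hs j) hn)
  have h2 : Bivariate.swap P ≠ 0 := by
    intro h
    exact hP ((map_eq_zero_iff _ (Bivariate.swap (R := F)).injective).1 h)
  have h3 : (Bivariate.swap m).natDegree ≤ s :=
    (natDegree_le_of_dvd (map_dvd (Bivariate.swap (R := F)) hd) h2).trans h1
  rw [natDegree_le_iff_coeff_eq_zero]
  intro n hn
  rw [← coeff_swap_HsZ5, coeff_eq_zero_of_natDegree_lt (lt_of_le_of_lt h3 hn), coeff_zero]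

theorem irr_dvd_HsZ5 {F Ω : Type} [Field F] [Field Ω] (φ : F[X] →+* Ω)
    (hφ : Function.Injective φ) {m P : F[X][X]} (hm : Irreducible m) (hd : m.natDegree ≠ 0)
    {r : Ω} (h1 : m.eval₂ φ r = 0) (h2 : P.eval₂ φ r = 0) : m ∣ P := by
  have hp : m.IsPrimitive := hm.isPrimitive hd
  have hi : Irreducible (m.map (algebraMap F[X] (FractionRing F[X]))) :=
    (hp.irreducible_iff_irreducible_map_fraction_map).1 hm
  refine hp.dvd_of_fraction_map_dvd_fraction_map (K := FractionRing F[X]) ?_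
  let ψ : FractionRing F[X] →+* Ω := IsFractionRing.lift hφ
  have hψ : ψ.comp (algebraMap F[X] (FractionRing F[X])) = φ := by
    refine RingHom.ext fun x => ?_
    exact IsFractionRing.lift_algebraMap hφ x
  have e1 : (m.map (algebraMap F[X] (FractionRing F[X]))).eval₂ ψ r = 0 := by
    rw [eval₂_map, hψ, h1]
  have e2 : (P.map (algebraMap F[X] (FractionRing F[X]))).eval₂ ψ r = 0 := by
    rw [eval₂_map, hψ, h2]
  by_contra hn
  obtain ⟨u, v, huv⟩ := (hi.coprime_iff_not_dvd).2 hn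
  have := congrArg (eval₂ ψ r) huv
  rw [eval₂_add, eval₂_mul, eval₂_mul, e1, e2, eval₂_one] at this
  simp at this

theorem exists_irr_HsZ5 {F Ω : Type} [Field F] [Field Ω] (φ : F[X] →+* Ω) {r : Ω}
    (q : F[X][X]) (hq : q ≠ 0) (h : q.eval₂ φ r = 0) :
    ∃ m, Irreducible m ∧ m ∣ q ∧ m.eval₂ φ r = 0 := by
  induction q using WfDvdMonoid.induction_on_irreducible with
  | zero => exact absurd rfl hq
  | unit u hu =>
    exfalso
    have := hu.map (eval₂RingHom φ r)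
    rw [coe_eval₂RingHom, h] at this
    exact not_isUnit_zero this
  | mul a p ha hp ih =>
    rw [eval₂_mul] at h
    rcases mul_eq_zero.1 h with h | h
    · exact ⟨p, hp, dvd_mul_right _ _, h⟩
    · obtain ⟨m, hm, hd, he⟩ := ih ha h
      exact ⟨m, hm, hd.mul_left _, he⟩

theorem quad_HsZ5 {F Ω : Type} [Field F] [Field Ω] (φ : F[X] →+* Ω)
    (hφ : Function.Injective φ) {a b c : F[X]} (ha : a ≠ 0) {P : F[X][X]} (hP : P ≠ 0) {s : ℕ}
    (hs : ∀ i, (P.coeff i).natDegree ≤ s) {r : Ω} (h1 : φ a * r ^ 2 + φ b * r + φ c = 0)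
    (h2 : P.eval₂ φ r = 0) : ∃ g e : F[X], b ^ 2 - 4 * a * c = g ^ 2 * e ∧ e.natDegree ≤ 2 * s := by
  set q : F[X][X] := C a * X ^ 2 + C b * X + C c with hq
  have hqd : q.natDegree = 2 := natDegree_quadratic ha
  have hq0 : q ≠ 0 := by
    intro h; rw [h] at hqd; simp at hqd
  have hqe : q.eval₂ φ r = 0 := by
    simp only [hq, eval₂_add, eval₂_mul, eval₂_C, eval₂_X, eval₂_X_pow]; exact h1
  have c0 : q.coeff 0 = c := by simp [hq]
  have c1 : q.coeff 1 = b := by simp [hq, coeff_C]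
  have c2 : q.coeff 2 = a := by simp [hq]
  obtain ⟨m, hm, ⟨m', hmm⟩, he⟩ := exists_irr_HsZ5 φ q hq0 hqe
  have hm0 : m ≠ 0 := hm.ne_zero
  have hm'0 : m' ≠ 0 := by
    rintro rfl; exact hq0 (by rw [hmm, mul_zero])
  have hd : m.natDegree ≠ 0 := by
    intro h
    rw [eq_C_of_natDegree_eq_zero h, eval₂_C] at he
    have : m.coeff 0 = 0 := hφ (by rw [he, map_zero])
    exact hm0 (by rw [eq_C_of_natDegree_eq_zero h, this, C_0])
  have hsum : m.natDegree + m'.natDegree = 2 := by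
    rw [← natDegree_mul hm0 hm'0, ← hmm, hqd]
  have hdiv : m ∣ P := irr_dvd_HsZ5 φ hφ hm hd he h2
  have d0 : c = m.coeff 0 * m'.coeff 0 := by rw [← c0, hmm, mul_coeff_zero]
  have d1 : b = m.coeff 0 * m'.coeff 1 + m.coeff 1 * m'.coeff 0 := by
    rw [← c1, hmm, coeff_mul]; simp [Finset.Nat.antidiagonal_succ]
  have d2 : a = m.coeff 0 * m'.coeff 2 + m.coeff 1 * m'.coeff 1 + m.coeff 2 * m'.coeff 0 := by
    rw [← c2, hmm, coeff_mul]; simp [Finset.Nat.antidiagonal_succ, add_assoc]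
  rcases Nat.lt_or_ge m.natDegree 2 with h | h
  · have z1 : m.coeff 2 = 0 := coeff_eq_zero_of_natDegree_lt h
    have z2 : m'.coeff 2 = 0 := coeff_eq_zero_of_natDegree_lt (by omega)
    refine ⟨m.coeff 0 * m'.coeff 1 - m.coeff 1 * m'.coeff 0, 1, ?_, by simp⟩
    rw [d0, d1, d2, z1, z2]; ring
  · have z1 : m'.coeff 1 = 0 := coeff_eq_zero_of_natDegree_lt (by omega)
    have z2 : m'.coeff 2 = 0 := coeff_eq_zero_of_natDegree_lt (by omega)
    refine ⟨m'.coeff 0, m.coeff 1 ^ 2 - 4 * m.coeff 2 * m.coeff 0, ?_, ?_⟩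
    · rw [d0, d1, d2, z1, z2]; ring
    · have b0 := deg_dvd_HsZ5 hP hdiv hs 0
      have b1 := deg_dvd_HsZ5 hP hdiv hs 1
      have b2 := deg_dvd_HsZ5 hP hdiv hs 2
      refine (natDegree_sub_le _ _).trans (max_le ?_ ?_)
      · exact natDegree_pow_le.trans (by omega)
      · refine natDegree_mul_le.trans ?_
        have : ((4 : F[X]) * m.coeff 2).natDegree ≤ s := by
          refine natDegree_mul_le.trans ?_
          have : (4 : F[X]).natDegree = 0 := natDegree_natCast 4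
          omega
        omega

theorem hpol_coeff_HsZ5 {A : Type} [CommRing A] (k : ℕ) (c : ℕ → A) (i : ℕ) :
    (hpol k c).coeff i = if i ≤ k then c i else 0 := by
  simp only [hpol, finsetSum_coeff, coeff_monomial]
  rw [Finset.sum_ite_eq']
  simp

theorem gauss_disc {F Ω : Type} [Field F] [Field Ω] (φ : F[X] →+* Ω) (hφ : Function.Injective φ)
    (N : Matrix (Fin 2) (Fin 2) F[X]) {k s : ℕ} {c : ℕ → F[X]} (hc : ∃ i ≤ k, c i ≠ 0)
    (hs : ∀ i, (c i).natDegree ≤ s) {w : Fin 2 → Ω} (hw : w ≠ 0)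
    (h0 : hev k (fun i => φ (c i)) w = 0) (h : wed w (N.map φ *ᵥ w) = 0) :
    ∃ g e : F[X], N.trace ^ 2 - 4 * N.det = g ^ 2 * e ∧ e.natDegree ≤ 2 * s := by
  have hΔ : N.trace ^ 2 - 4 * N.det = (N 1 1 - N 0 0) ^ 2 - 4 * N 1 0 * (-N 0 1) := by
    rw [trace_fin_two, det_fin_two]; ring
  have hE : φ (N 1 0) * w 0 ^ 2 + φ (N 1 1 - N 0 0) * w 0 * w 1 + φ (-N 0 1) * w 1 ^ 2 = 0 := by
    simp only [wed, mulVec, dotProduct, Fin.sum_univ_two, Matrix.map_apply] at h
    rw [map_sub, map_neg, ← h]; ring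
  by_cases ha : N 1 0 = 0
  · exact ⟨N 1 1 - N 0 0, 1, by rw [hΔ, ha]; ring, by simp⟩
  have hw1 : w 1 ≠ 0 := by
    intro h1
    have hw0 : w 0 ≠ 0 := by
      intro h0'
      apply hw
      ext i
      fin_cases i
      · exact h0'
      · exact h1
    rw [h1] at hE
    have : φ (N 1 0) * w 0 ^ 2 = 0 := by simpa using hE
    rcases mul_eq_zero.1 this with h2 | h2
    · exact ha (hφ (by rw [h2, map_zero]))
    · exact hw0 (pow_eq_zero_iff (two_ne_zero) |>.1 h2)
  rw [hΔ]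
  refine quad_HsZ5 φ hφ ha (P := hpol k c) ?_ ?_ (r := w 0 / w 1) ?_ ?_
  · obtain ⟨i, hi, hci⟩ := hc
    intro hz
    have := hpol_coeff_HsZ5 k c i
    rw [hz, coeff_zero, if_pos hi] at this
    exact hci this.symm
  · intro i
    rw [hpol_coeff_HsZ5]
    split_ifs
    · exact hs i
    · simp
  · have : φ (N 1 0) * (w 0 / w 1) ^ 2 + φ (N 1 1 - N 0 0) * (w 0 / w 1) + φ (-N 0 1) =
        (φ (N 1 0) * w 0 ^ 2 + φ (N 1 1 - N 0 0) * w 0 * w 1 + φ (-N 0 1) * w 1 ^ 2) / w 1 ^ 2 := by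
      field_simp
    rw [this, hE, zero_div]
  · have h2 := hev_smul k (fun i => φ (c i)) (w 1)⁻¹ w
    rw [h0, mul_zero] at h2
    rw [← h2, hpol, hev, eval₂_finsetSum]
    refine sum_congr rfl fun i _ => ?_
    rw [eval₂_monomial]
    simp only [Pi.smul_apply, smul_eq_mul, inv_mul_cancel₀ hw1, one_pow, mul_one]
    rw [div_eq_inv_mul]

end Pool.Agent.P.MP_68214b_ag
end

-- part Pool.Agent.P.MP_68214b_ag.HsZ3
section

open Polynomial Finset Matrix NumberField

namespace Pool.Agent.P.MP_68214b_ag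

variable {K : Type} [Field K]

theorem coeff_hpol_HsZ3 (k : ℕ) (c : ℕ → K) (i : ℕ) :
    (hpol k c).coeff i = if i ≤ k then c i else 0 := by
  classical
  rw [hpol, finsetSum_coeff]
  simp only [coeff_monomial]
  rw [Finset.sum_ite_eq' (range (k + 1)) i c]
  simp

theorem eval_hpol_HsZ3 (k : ℕ) (c : ℕ → K) (r : K) :
    (hpol k c).eval r = hev k c ![r, 1] := by
  simp [hpol, hev, eval_finsetSum]

theorem hev_inf_HsZ3 (k : ℕ) (c : ℕ → K) : hev k c ![1, 0] = c k := by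
  rw [hev, Finset.sum_range_succ, Finset.sum_eq_zero]
  · simp
  · intro i hi
    have : k - i ≠ 0 := by have := mem_range.1 hi; omega
    simp [this]

theorem root_lines {k : ℕ} {c : ℕ → K} (hc : ∃ i ≤ k, c i ≠ 0) :
    ∃ S : Finset (Fin 2 → K), S.card ≤ k ∧
      ∀ w, w ≠ 0 → hev k c w = 0 → ∃ s ∈ S, ∃ t : K, t ≠ 0 ∧ w = t • s := by
  classical
  obtain ⟨i0, hi0, hci⟩ := hc
  have hP : hpol k c ≠ 0 := by
    intro h
    have := coeff_hpol_HsZ3 k c i0
    rw [h, if_pos hi0] at this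
    exact hci (by simpa using this.symm)
  have hdeg : (hpol k c).natDegree ≤ k := by
    rw [natDegree_le_iff_coeff_eq_zero]
    intro N hN
    rw [coeff_hpol_HsZ3, if_neg (by omega)]
  have hcard : ((hpol k c).roots.toFinset.image fun r : K => (![r, 1] : Fin 2 → K)).card ≤
      (hpol k c).natDegree :=
    card_image_le.trans ((Multiset.toFinset_card_le _).trans (card_roots' _))
  have hfin : ∀ w : Fin 2 → K, w 1 ≠ 0 → hev k c w = 0 →
      ∃ s ∈ (hpol k c).roots.toFinset.image fun r : K => (![r, 1] : Fin 2 → K),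
        ∃ t : K, t ≠ 0 ∧ w = t • s := by
    intro w h1 hw
    have he : w = w 1 • (![w 0 / w 1, 1] : Fin 2 → K) := by
      ext i
      fin_cases i
      · simp [mul_div_cancel₀, h1]
      · simp
    refine ⟨![w 0 / w 1, 1], mem_image.2 ⟨w 0 / w 1, ?_, rfl⟩, w 1, h1, he⟩
    rw [Multiset.mem_toFinset, mem_roots hP, IsRoot.def, eval_hpol_HsZ3]
    rw [he, hev_smul] at hw
    exact (mul_eq_zero.1 hw).resolve_left (pow_ne_zero _ h1)
  have hinf : ∀ w : Fin 2 → K, w ≠ 0 → w 1 = 0 →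
      w 0 ≠ 0 ∧ w = w 0 • (![1, 0] : Fin 2 → K) := by
    intro w h0 h1
    constructor
    · intro h
      apply h0
      ext i
      fin_cases i
      · simpa using h
      · simpa using h1
    · ext i
      fin_cases i
      · simp
      · simpa using h1
  by_cases hk : c k = 0
  · have hlt : (hpol k c).natDegree < k := by
      refine lt_of_le_of_ne hdeg fun h => hP ?_
      rw [← leadingCoeff_eq_zero, leadingCoeff, h, coeff_hpol_HsZ3, if_pos le_rfl, hk]
    refine ⟨insert ![1, 0] ((hpol k c).roots.toFinset.image fun r : K => (![r, 1] : Fin 2 → K)),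
      (card_insert_le _ _).trans (by omega), fun w h0 hw => ?_⟩
    by_cases h1 : w 1 = 0
    · obtain ⟨ha, hb⟩ := hinf w h0 h1
      exact ⟨_, mem_insert_self _ _, w 0, ha, hb⟩
    · obtain ⟨s, hs, ht⟩ := hfin w h1 hw
      exact ⟨s, mem_insert_of_mem hs, ht⟩
  · refine ⟨_, hcard.trans hdeg, fun w h0 hw => ?_⟩
    by_cases h1 : w 1 = 0
    · obtain ⟨ha, hb⟩ := hinf w h0 h1
      rw [hb, hev_smul, hev_inf_HsZ3] at hw
      exact absurd hw (mul_ne_zero (pow_ne_zero _ ha) hk)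
    · exact hfin w h1 hw

theorem two_par {k : ℕ} {c : ℕ → K} (hc : ∃ i ≤ k, c i ≠ 0) {w : ℕ → Fin 2 → K}
    (hw : ∀ i ≤ k, w i ≠ 0 ∧ hev k c (w i) = 0) :
    ∃ a b, a < b ∧ b ≤ k ∧ wed (w a) (w b) = 0 := by
  classical
  obtain ⟨S, hS, hs⟩ := root_lines hc
  have h1 : ∀ i : ℕ, ∃ s : Fin 2 → K, i ≤ k → s ∈ S ∧ ∃ t : K, w i = t • s := by
    intro i
    by_cases hi : i ≤ k
    · obtain ⟨s, hsS, t, -, ht⟩ := hs (w i) (hw i hi).1 (hw i hi).2
      exact ⟨s, fun _ => ⟨hsS, t, ht⟩⟩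
    · exact ⟨0, fun h => absurd h hi⟩
  choose s hs' using h1
  have hlt : S.card < (range (k + 1)).card := by rw [card_range]; omega
  obtain ⟨a, ha, b, hb, hab, he⟩ := exists_ne_map_eq_of_card_lt_of_maps_to hlt (f := s)
    (fun i hi => (hs' i (by have := mem_range.1 (mem_coe.1 hi); omega)).1)
  have ha' : a ≤ k := by have := mem_range.1 ha; omega
  have hb' : b ≤ k := by have := mem_range.1 hb; omega
  obtain ⟨ta, hta⟩ := (hs' a ha').2
  obtain ⟨tb, htb⟩ := (hs' b hb').2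
  rcases lt_or_gt_of_ne hab with h | h
  · refine ⟨a, b, h, hb', ?_⟩
    rw [hta, htb, he]; simp only [wed, Pi.smul_apply, smul_eq_mul]; ring
  · refine ⟨b, a, h, ha', ?_⟩
    rw [hta, htb, he]; simp only [wed, Pi.smul_apply, smul_eq_mul]; ring

theorem par_smul {v w : Fin 2 → K} (hv : v ≠ 0) (h : wed v w = 0) : ∃ t : K, w = t • v := by
  rw [wed] at h
  by_cases h0 : v 0 = 0
  · have h1 : v 1 ≠ 0 := by
      intro h1
      apply hv
      ext i
      fin_cases i
      · simpa using h0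
      · simpa using h1
    refine ⟨w 1 / v 1, ?_⟩
    have hw : w 0 = 0 := by
      rw [h0, zero_mul, zero_sub, neg_eq_zero] at h
      exact (mul_eq_zero.1 h).resolve_left h1
    ext i
    fin_cases i
    · simp [h0, hw]
    · simp [h1]
  · refine ⟨w 0 / v 0, ?_⟩
    ext i
    fin_cases i
    · simp [h0]
    · simp only [Fin.mk_one, Pi.smul_apply, smul_eq_mul]
      field_simp
      linear_combination h

theorem all_common {k : ℕ} {L : ℕ → ℕ → K} (hc : ∃ i ≤ k, L 0 i ≠ 0) (T : Finset K)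
    (hT : k * k < T.card)
    (h : ∀ t ∈ T, ∃ w : Fin 2 → K, w ≠ 0 ∧ hev k (L 0) w = 0 ∧
      hev k (fun j => ∑ i ∈ range (k + 1), t ^ i * L i j) w = 0) :
    ∃ w : Fin 2 → K, w ≠ 0 ∧ ∀ i ≤ k, hev k (L i) w = 0 := by
  classical
  obtain ⟨S, hS, hs⟩ := root_lines hc
  have h1 : ∀ t : K, ∃ s : Fin 2 → K, t ∈ T → s ∈ S ∧ s ≠ 0 ∧
      hev k (fun j => ∑ i ∈ range (k + 1), t ^ i * L i j) s = 0 := by
    intro t
    by_cases ht : t ∈ T
    · obtain ⟨w, hw0, hw1, hw2⟩ := h t ht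
      obtain ⟨s, hsS, u, hu, hws⟩ := hs w hw0 hw1
      refine ⟨s, fun _ => ⟨hsS, ?_, ?_⟩⟩
      · rintro rfl
        exact hw0 (by simpa using hws)
      · rw [hws, hev_smul] at hw2
        exact (mul_eq_zero.1 hw2).resolve_left (pow_ne_zero _ hu)
    · exact ⟨0, fun h => absurd h ht⟩
  choose s hs' using h1
  have hlt : S.card * k < T.card := lt_of_le_of_lt (Nat.mul_le_mul_right k hS) hT
  obtain ⟨y, -, hy⟩ := exists_lt_card_fiber_of_mul_lt_card_of_maps_to (f := s)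
    (fun t ht => (hs' t ht).1) hlt
  obtain ⟨t0, ht0⟩ : (T.filter fun t => s t = y).Nonempty := card_pos.1 (by omega)
  have hy0 : y ≠ 0 := by
    obtain ⟨ha, hb⟩ := mem_filter.1 ht0
    rw [← hb]; exact (hs' t0 ha).2.1
  refine ⟨y, hy0, fun i hi => ?_⟩
  have hdeg : (hpol k fun i => hev k (L i) y).natDegree ≤ k := by
    rw [natDegree_le_iff_coeff_eq_zero]
    intro N hN
    rw [coeff_hpol_HsZ3, if_neg (by omega)]
  have hz : (hpol k fun i => hev k (L i) y) = 0 := by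
    refine eq_zero_of_natDegree_lt_card_of_eval_eq_zero' _ (T.filter fun t => s t = y)
      (fun t ht => ?_) (lt_of_le_of_lt hdeg hy)
    obtain ⟨ha, hb⟩ := mem_filter.1 ht
    have := (hs' t ha).2.2
    rw [hb] at this
    rw [← this]
    simp only [hpol, eval_finsetSum, eval_monomial, hev, sum_mul]
    rw [sum_comm]
    refine sum_congr rfl fun j _ => sum_congr rfl fun i _ => ?_
    ring
  have := coeff_hpol_HsZ3 k (fun i => hev k (L i) y) i
  rw [hz, if_pos hi] at this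
  simpa using this.symm

end Pool.Agent.P.MP_68214b_ag
end

-- part Pool.Agent.P.MP_68214b_ag.HsZ6
section

open Polynomial Finset Matrix NumberField

namespace Pool.Agent.P.MP_68214b_ag

variable {F : Type} [Field F] {κ : ℕ}

theorem exists_shift (F : Type) [Field F] : ∃ (Ω : Type) (_ : Field Ω) (_ : IsAlgClosed Ω)
    (φ : F[X] →+* Ω) (σ : Ω ≃+* Ω), Function.Injective φ ∧ ∀ f, σ (φ f) = φ (sh 1 f) := by
  let K0 := FractionRing F[X]
  let Ω := AlgebraicClosure K0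
  let e : F[X] ≃+* F[X] := (algEquivAevalXAddC (1 : F)).toRingEquiv
  let e1 : K0 ≃+* K0 := IsFractionRing.ringEquivOfRingEquiv e
  let e2 : Ω ≃+* Ω := IsAlgClosure.equivOfEquiv Ω Ω e1
  refine ⟨Ω, inferInstance, inferInstance, (algebraMap K0 Ω).comp (algebraMap F[X] K0), e2,
    (algebraMap K0 Ω).injective.comp (IsFractionRing.injective F[X] K0), fun f => ?_⟩
  have h1 : e f = sh 1 f := by
    simp [e, sh, algEquivAevalXAddC, comp_eq_aeval]
  simp only [RingHom.comp_apply]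
  rw [IsAlgClosure.equivOfEquiv_algebraMap, IsFractionRing.ringEquivOfRingEquiv_algebraMap, h1]

theorem pow_phi_HsZ6 {Ω : Type} [Field Ω] (φ : F[X] →+* Ω) (σ : Ω ≃+* Ω)
    (hσ : ∀ f, σ (φ f) = φ (sh 1 f)) (n : ℕ) (f : F[X]) :
    ((σ : Ω →+* Ω) ^ n) (φ f) = φ (sh n f) := by
  induction n with
  | zero => simp [sh_zero]
  | succ n ih =>
    rw [pow_succ', sh_succ, ← hσ, ← ih]; rfl

/-- one step of the twisted chain -/
noncomputable def step_HsZ6 {Ω : Type} [Field Ω] (σ : Ω ≃+* Ω) (T : Matrix (Fin 2) (Fin 2) Ω)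
    (v : Fin 2 → Ω) : Fin 2 → Ω := fun r => σ.symm ((T *ᵥ v) r)

theorem step_ne_HsZ6 {Ω : Type} [Field Ω] (σ : Ω ≃+* Ω) {T : Matrix (Fin 2) (Fin 2) Ω}
    (hT : T.det ≠ 0) {v : Fin 2 → Ω} (hv : v ≠ 0) : step_HsZ6 σ T v ≠ 0 := by
  intro h
  apply hv
  have h2 : T *ᵥ v = 0 := by
    ext r
    have := congrFun h r
    simpa [step_HsZ6] using this
  exact Matrix.eq_zero_of_mulVec_eq_zero hT h2

theorem step_wed_HsZ6 {Ω : Type} [Field Ω] (σ : Ω ≃+* Ω) (T : Matrix (Fin 2) (Fin 2) Ω)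
    {v w : Fin 2 → Ω} (h : wed v w = 0) : wed (step_HsZ6 σ T v) (step_HsZ6 σ T w) = 0 := by
  have h1 := wed_mulVec T v w
  rw [h, mul_zero] at h1
  have h2 : wed (step_HsZ6 σ T v) (step_HsZ6 σ T w) = σ.symm (wed (T *ᵥ v) (T *ᵥ w)) := by
    simp only [wed, step_HsZ6, map_sub, map_mul]
  rw [h2, h1, map_zero]

theorem chain_all {Ω : Type} [Field Ω] (φ : F[X] →+* Ω) (hφ : Function.Injective φ)
    (σ : Ω ≃+* Ω) (hσ : ∀ f, σ (φ f) = φ (sh 1 f)) (D : Par F κ) (hq : (D.map C).q X ≠ 0)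
    {k : ℕ} {c : ℕ → F[X]} (hc : ∃ i ≤ k, c i ≠ 0) {w : Fin 2 → Ω} (hw : w ≠ 0)
    (h : ∀ i ≤ k, hev k (fun j => φ (sh i (c j))) ((D.WX i).map φ *ᵥ w) = 0) (i : ℕ) :
    hev k (fun j => φ (sh i (c j))) ((D.WX i).map φ *ᵥ w) = 0 := by
  set T : Matrix (Fin 2) (Fin 2) Ω := ((D.map C).T X).map φ with hTdef
  have hT : T.det ≠ 0 := by
    have : T.det = φ ((D.map C).T X).det := (RingHom.map_det φ _).symm
    rw [this, Par.T_det, map_neg, neg_ne_zero]
    exact fun h0 => hq (hφ (by rw [h0, map_zero]))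
  let u : ℕ → Fin 2 → Ω := fun n => (step_HsZ6 σ T)^[n] w
  have hu : ∀ n, u (n + 1) = step_HsZ6 σ T (u n) := fun n => Function.iterate_succ_apply' _ _ _
  have hne : ∀ n, u n ≠ 0 := by
    intro n
    induction n with
    | zero => exact hw
    | succ n ih => rw [hu]; exact step_ne_HsZ6 σ hT ih
  have hW : ∀ n, (fun r => ((σ : Ω →+* Ω) ^ n) (u n r)) = (D.WX n).map φ *ᵥ w := by
    intro n
    induction n with
    | zero => ext r; simp [u, Par.WX]
    | succ n ih =>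
      ext r
      have e1 : ((σ : Ω →+* Ω) ^ (n + 1)) (u (n + 1) r) = ((σ : Ω →+* Ω) ^ n) ((T *ᵥ u n) r) := by
        rw [pow_succ, hu]
        change ((σ : Ω →+* Ω) ^ n) (σ (σ.symm _)) = _
        rw [RingEquiv.apply_symm_apply]
      have e2 : T.map ((σ : Ω →+* Ω) ^ n) = ((D.map C).T (X + (n : F[X]))).map φ := by
        have e3 := (D.map C).T_map (sh n) X
        rw [Par.map_C_sh, sh_X] at e3
        rw [← e3]
        ext a b
        simp only [hTdef, Matrix.map_apply]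
        exact pow_phi_HsZ6 φ σ hσ n _
      rw [e1, RingHom.map_mulVec, e2]
      have e4 : (⇑((σ : Ω →+* Ω) ^ n) ∘ u n) = (D.WX n).map φ *ᵥ w := ih
      rw [e4, mulVec_mulVec, ← Matrix.map_mul]
      rfl
  have hiff : ∀ n, hev k (fun j => φ (sh n (c j))) ((D.WX n).map φ *ᵥ w) =
      ((σ : Ω →+* Ω) ^ n) (hev k (fun j => φ (c j)) (u n)) := by
    intro n
    rw [hev_map, hW n]
    simp only [pow_phi_HsZ6 φ σ hσ]
  have hroot : ∀ n ≤ k, hev k (fun j => φ (c j)) (u n) = 0 := by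
    intro n hn
    have := h n hn
    rw [hiff] at this
    exact ((σ : Ω →+* Ω) ^ n).injective (by rw [this, map_zero])
  have hc' : ∃ i ≤ k, φ (c i) ≠ 0 := by
    obtain ⟨j, hj, hj0⟩ := hc
    exact ⟨j, hj, fun h0 => hj0 (hφ (by rw [h0, map_zero]))⟩
  obtain ⟨a, b, hab, hbk, hpar⟩ :=
    two_par (c := fun j => φ (c j)) hc' (w := u) fun n hn => ⟨hne n, hroot n hn⟩
  have hpar' : ∀ n, wed (u (a + n)) (u (b + n)) = 0 := by
    intro n
    induction n with
    | zero => exact hpar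
    | succ n ih => rw [← add_assoc, ← add_assoc, hu, hu]; exact step_wed_HsZ6 σ T ih
  have hall : ∀ n, hev k (fun j => φ (c j)) (u n) = 0 := by
    intro n
    induction n using Nat.strong_induction_on with
    | _ n ih =>
      by_cases hn : n ≤ k
      · exact hroot n hn
      · obtain ⟨m, rfl⟩ : ∃ m, n = b + m := ⟨n - b, by omega⟩
        obtain ⟨t, ht⟩ := par_smul (hne (a + m)) (hpar' m)
        rw [ht, hev_smul, ih (a + m) (by omega), mul_zero]
  rw [hiff, hall, map_zero]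

end Pool.Agent.P.MP_68214b_ag
end

-- part Pool.Agent.P.MP_68214b_ag.HsZ7
section

open Polynomial Finset Matrix NumberField

namespace Pool.Agent.P.MP_68214b_ag

theorem no_common {F Ω : Type} [Field F] [Field Ω] {p κ : ℕ} [CharP F p] (hp : p.Prime)
    (h2 : p ≠ 2) (φ : F[X] →+* Ω) (hφ : Function.Injective φ) (σ : Ω ≃+* Ω)
    (hσ : ∀ f, σ (φ f) = φ (sh 1 f)) (D : Par F κ) (ok : D.Ok) (hga : D.ga ≠ 0)
    (ha : (D.a : F) ≠ 0) (ht : (D.W 0 p).trace ≠ 0) {k s : ℕ} {c : ℕ → F[X]}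
    (hc : ∃ i ≤ k, c i ≠ 0) (hs : ∀ i, (c i).natDegree ≤ s) (hps : 2 * s < p)
    {w : Fin 2 → Ω} (hw : w ≠ 0)
    (h : ∀ i ≤ k, hev k (fun j => φ (sh i (c j))) ((D.WX i).map φ *ᵥ w) = 0) : False := by
  obtain ⟨s0, g, hg, hk, htr, hdet⟩ := shape hp h2 D ok hga ha
  have hXp : (X ^ p - X : F[X]) ≠ 0 := FiniteField.X_pow_card_sub_X_ne_zero F hp.one_lt
  have hd0 : (D.WX p).det ≠ 0 := by
    rw [hdet]
    exact neg_ne_zero.2 (mul_ne_zero (C_ne_zero.2 hg) (pow_ne_zero _ hXp))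
  have hq : (D.map C).q X ≠ 0 := by
    intro hq
    apply hd0
    rw [Par.WX, Par.W_det]
    refine prod_eq_zero (mem_range.2 hp.pos) ?_
    simp [hq]
  have hall := chain_all φ hφ σ hσ D hq hc hw h
  have hsh : ∀ (l : ℕ) (f : F[X]), sh (p * l) f = f := by
    intro l f
    have : ((p * l : ℕ) : F[X]) = 0 := by
      rw [Nat.cast_mul, CharP.cast_eq_zero F[X] p, zero_mul]
    simp only [sh, this, add_zero, coe_compRingHom_apply, comp_X]
  have hW : ∀ l : ℕ, D.WX (p * l) = D.WX p ^ l := fun l => W_period (D.map C) X l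
  have hroot : ∀ l : ℕ, hev k (fun j => φ (c j)) ((D.WX p ^ l).map φ *ᵥ w) = 0 := by
    intro l
    have := hall (p * l)
    simpa only [hsh, hW] using this
  have hdl : ∀ l : ℕ, ((D.WX p ^ l).map φ).det ≠ 0 := by
    intro l
    have e : ((D.WX p ^ l).map φ).det = φ ((D.WX p ^ l).det) := (RingHom.map_det φ _).symm
    rw [e, det_pow]
    exact (map_ne_zero_iff φ hφ).2 (pow_ne_zero _ hd0)
  have hne : ∀ l : ℕ, (D.WX p ^ l).map φ *ᵥ w ≠ 0 := fun l h0 =>
    hw (Matrix.eq_zero_of_mulVec_eq_zero (hdl l) h0)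
  have hc' : ∃ i ≤ k, (fun j => φ (c j)) i ≠ 0 := by
    obtain ⟨i, hi, hci⟩ := hc
    exact ⟨i, hi, (map_ne_zero_iff φ hφ).2 hci⟩
  obtain ⟨a, b, hab, -, hpar⟩ := two_par hc' (w := fun l => (D.WX p ^ l).map φ *ᵥ w)
    fun i _ => ⟨hne i, hroot i⟩
  obtain ⟨d, rfl⟩ := Nat.exists_eq_add_of_le hab.le
  have hd : 0 < d := by omega
  have hpar' : wed w ((D.WX p ^ d).map φ *ᵥ w) = 0 := by
    have e : (D.WX p ^ (a + d)).map φ *ᵥ w =
        (D.WX p ^ a).map φ *ᵥ ((D.WX p ^ d).map φ *ᵥ w) := by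
      rw [pow_add, Matrix.map_mul, mulVec_mulVec]
    simp only [e, wed_mulVec] at hpar
    exact (mul_eq_zero.1 hpar).resolve_left (hdl a)
  have hκ : κ ≠ 0 := by have := ok.le.1; omega
  have hev0 : evalRingHom (0 : F) (D.WX p).det = 0 := by
    rw [hdet]
    simp [hp.ne_zero, hκ]
  have hev1 : evalRingHom (0 : F) (D.WX p).trace ≠ 0 := by
    rw [htr]
    simpa [hp.ne_zero] using ht
  have heig := eigen_of_pow φ hφ (D.WX p) (evalRingHom (0 : F)) hev0 hev1 hd hpar'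
  have h0 : hev k (fun i => φ (c i)) w = 0 := by simpa using hroot 0
  obtain ⟨g', e, he, hdeg⟩ := gauss_disc φ hφ (D.WX p) hc hs hw h0 heig
  have hκ' : κ = 1 ∧ s0 = 0 ∨ κ = 2 := ok.imp (fun h1 => ⟨h1.1, hk h1.1⟩) id
  have H : (C s0 * (X ^ p - X) + C (D.W 0 p).trace) ^ 2 + 4 * (C g * (X ^ p - X) ^ κ) =
      g' ^ 2 * e := by
    rw [← he, htr, hdet]; ring
  have := disc_big hp h2 hg ht hκ' H
  omega

end Pool.Agent.P.MP_68214b_ag
end

-- part Pool.Agent.P.MP_68214b_ag.HsZ8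
section

open Polynomial Finset Matrix NumberField

namespace Pool.Agent.P.MP_68214b_ag

section Aux
variable {A B : Type} [CommRing A] [CommRing B] {κ : ℕ}

/-- the form number i pulled back along the window of length i -/
noncomputable def LL_HsZ8 (D : Par A κ) (k : ℕ) (c : ℕ → A[X]) (i : ℕ) : ℕ → A[X] :=
  hsub k (fun j => sh i (c j)) (D.WX i)

/-- the resultant of the first form and a combination of the pulled back forms -/
noncomputable def RR_HsZ8 (D : Par A κ) (k : ℕ) (c : ℕ → A[X]) (τ : ℕ) : A[X] :=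
  hres k (LL_HsZ8 D k c 0) fun j => ∑ i ∈ range (k + 1), (τ : A[X]) ^ i * LL_HsZ8 D k c i j

theorem hev_LL_HsZ8 (D : Par A κ) (k : ℕ) (c : ℕ → A[X]) (i : ℕ) (ψ : A[X] →+* B)
    (w : Fin 2 → B) : hev k (fun j => ψ (LL_HsZ8 D k c i j)) w =
      hev k (fun j => ψ (sh i (c j))) ((D.WX i).map ψ *ᵥ w) := by
  rw [← hev_hsub]
  congr 1
  funext j
  exact hsub_map ψ k _ _ j

theorem LL_map_HsZ8 (D : Par A κ) (φ : A →+* B) (k : ℕ) (c : ℕ → A[X]) (i j : ℕ) :
    mapRingHom φ (LL_HsZ8 D k c i j) = LL_HsZ8 (D.map φ) k (fun j => (c j).map φ) i j := by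
  unfold LL_HsZ8
  rw [hsub_map, Par.WX_map]
  simp only [coe_mapRingHom, map_sh]

theorem ring_RR_HsZ8 (D : Par A κ) (k : ℕ) (c : ℕ → A[X]) (τ : ℕ) (ψ : A[X] →+* B) :
    ψ (RR_HsZ8 D k c τ) = hres k (fun j => ψ (LL_HsZ8 D k c 0 j))
      fun j => ∑ i ∈ range (k + 1), (τ : B) ^ i * ψ (LL_HsZ8 D k c i j) := by
  unfold RR_HsZ8
  rw [hres_map]
  simp only [map_sum, map_mul, map_pow, map_natCast]

theorem RR_map_HsZ8 (D : Par A κ) (φ : A →+* B) (k : ℕ) (c : ℕ → A[X]) (τ : ℕ) :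
    (RR_HsZ8 D k c τ).map φ = RR_HsZ8 (D.map φ) k (fun j => (c j).map φ) τ := by
  have h := ring_RR_HsZ8 D k c τ (mapRingHom φ)
  simp only [LL_map_HsZ8] at h
  exact h

theorem LL_deg_HsZ8 (D : Par A κ) (hκ : κ ≤ 2) {k s : ℕ} {c : ℕ → A[X]}
    (hs : ∀ i, (c i).natDegree ≤ s) {i : ℕ} (hi : i ≤ k) (j : ℕ) :
    (LL_HsZ8 D k c i j).natDegree ≤ s + 2 * k * k := by
  refine (natDegree_hsub k (fun j => (natDegree_sh i _).trans (hs j)) (D.WX_deg hκ i) j).trans ?_
  have := Nat.mul_le_mul_left k hi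
  nlinarith

theorem RR_deg_HsZ8 (D : Par A κ) (hκ : κ ≤ 2) {k s : ℕ} {c : ℕ → A[X]}
    (hs : ∀ i, (c i).natDegree ≤ s) (τ : ℕ) :
    (RR_HsZ8 D k c τ).natDegree ≤ 2 * k * (s + 2 * k * k) := by
  refine natDegree_hres k (LL_deg_HsZ8 D hκ hs (Nat.zero_le k)) fun j => ?_
  refine natDegree_sum_le_of_forall_le _ _ fun i hi => ?_
  rw [← C_eq_natCast, ← C_pow]
  exact (natDegree_C_mul_le _ _).trans
    (LL_deg_HsZ8 D hκ hs (Nat.lt_succ_iff.1 (mem_range.1 hi)) j)

theorem hev_comb_HsZ8 (k n : ℕ) (t : A) (L : ℕ → ℕ → A) (w : Fin 2 → A) :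
    hev k (fun j => ∑ i ∈ range n, t ^ i * L i j) w = ∑ i ∈ range n, t ^ i * hev k (L i) w := by
  simp only [hev, sum_mul, mul_sum, mul_assoc]
  exact sum_comm

theorem LL_zero_HsZ8 (D : Par A κ) {k : ℕ} (c : ℕ → A[X]) {i : ℕ} (hi : i ≤ k) :
    LL_HsZ8 D k c 0 i = c i := by
  have h : D.WX 0 = 1 := rfl
  unfold LL_HsZ8 hsub
  rw [h, finsetSum_coeff, sum_eq_single i]
  · simp [sh_zero]
  · intro j _ hj
    simp [coeff_X_pow, hj.symm]
  · intro hj
    exact absurd (mem_range.2 (Nat.lt_succ_of_le hi)) hj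

end Aux

theorem RR_zero_HsZ8 {K : Type} [Field K] [CharZero K] {κ : ℕ} (D : Par K κ) (hκ : κ ≤ 2)
    {U : ℕ → Fin 2 → K} (orb : D.Orb U) (hU : ∀ j, U j ≠ 0) {k s : ℕ} (hk : 0 < k)
    {c : ℕ → K[X]} (hs : ∀ i, (c i).natDegree ≤ s)
    (h : ∀ j ≤ 2 * k * (s + 2 * k * k) + k, hev k (fun i => (c i).eval (j : K)) (U j) = 0)
    (τ : ℕ) : RR_HsZ8 D k c τ = 0 := by
  classical
  refine eq_zero_of_natDegree_lt_card_of_eval_eq_zero' _
    ((range (2 * k * (s + 2 * k * k) + 1)).image (Nat.cast : ℕ → K)) (fun x hx => ?_) ?_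
  · obtain ⟨j, hj, rfl⟩ := mem_image.1 hx
    have h1 : ∀ i ≤ k, hev k (fun l => evalRingHom (j : K) (LL_HsZ8 D k c i l)) (U j) = 0 := by
      intro i hi
      rw [hev_LL_HsZ8, Par.WX_eval, ← orb.eq]
      have h2 := h (j + i) (by have := mem_range.1 hj; omega)
      simpa only [coe_evalRingHom, eval_sh, Nat.cast_add] using h2
    have h3 := ring_RR_HsZ8 D k c τ (evalRingHom (j : K))
    rw [coe_evalRingHom] at h3
    rw [h3]
    refine hres_eq_zero hk (hU j) (h1 0 (Nat.zero_le k)) ?_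
    rw [hev_comb_HsZ8 k (k + 1) (τ : K) fun i l => eval (j : K) (LL_HsZ8 D k c i l)]
    refine sum_eq_zero fun i hi => ?_
    have h4 := h1 i (Nat.lt_succ_iff.1 (mem_range.1 hi))
    rw [coe_evalRingHom] at h4
    rw [h4, mul_zero]
  · rw [card_image_of_injective _ Nat.cast_injective, card_range]
    exact Nat.lt_succ_of_le (RR_deg_HsZ8 D hκ hs τ)

theorem zero_lemma {R K : Type} [CommRing R] [Field K] [CharZero K] {κ : ℕ} (ι : R →+* K)
    (hι : Function.Injective ι) (D : Par R κ) (ok : D.Ok)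
    (hord : ∀ N : ℕ, ∃ p : ℕ, N < p ∧ p.Prime ∧ ∃ (F : Type) (_ : Field F) (_ : CharP F p)
      (φ : R →+* F), φ D.ga ≠ 0 ∧ (D.a : F) ≠ 0 ∧ ((D.map φ).W 0 p).trace ≠ 0)
    {U : ℕ → Fin 2 → K} (orb : (D.map ι).Orb U) (hU : ∀ j, U j ≠ 0) {k s : ℕ} (hk : 0 < k)
    {c : ℕ → ℤ[X]} (hc : ∃ i ≤ k, c i ≠ 0) (hs : ∀ i, (c i).natDegree ≤ s) :
    ∃ j ≤ 2 * k * (s + 2 * k * k) + k, hev k (fun i => (((c i).eval (j : ℤ) : ℤ) : K)) (U j) ≠ 0 := by
  classical
  by_contra hn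
  have hm : ∀ {E : Type} [CommRing E] (f : R →+* E) (i : ℕ),
      ((c i).map (Int.castRingHom R)).map f = (c i).map (Int.castRingHom E) := fun f i => by
    rw [Polynomial.map_map]
    congr 1
    exact RingHom.ext_int _ _
  have h0 : ∀ τ : ℕ, RR_HsZ8 D k (fun i => (c i).map (Int.castRingHom R)) τ = 0 := fun τ => by
    refine Polynomial.map_injective ι hι ?_
    rw [RR_map_HsZ8, Polynomial.map_zero]
    refine RR_zero_HsZ8 _ ok.le.2 orb hU hk
      (fun i => natDegree_map_le.trans (natDegree_map_le.trans (hs i))) (fun j hj => ?_) τ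
    by_contra h1
    refine hn ⟨j, hj, fun h2 => h1 ?_⟩
    rw [← h2]
    congr 1
    funext i
    rw [hm, ← Int.cast_natCast, eval_intCast_map]
    rfl
  obtain ⟨i₀, hi₀, hc₀⟩ := hc
  obtain ⟨p, hN, hp, F, _, _, φ, hga, ha, ht⟩ :=
    hord (2 * s + k * k + 2 + (c i₀).leadingCoeff.natAbs)
  obtain ⟨Ω, _, _, ψ, σ, hψ, hσ⟩ := exists_shift F
  have hchar : CharP Ω p := charP_of_injective_ringHom (f := ψ.comp C) (hψ.comp C_injective) p
  have hc₁ : (c i₀).map (Int.castRingHom F) ≠ 0 := fun h => by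
    have h1 := congrArg (coeff · (c i₀).natDegree) h
    simp only [coeff_map, coeff_zero, eq_intCast, coeff_natDegree] at h1
    rw [CharP.intCast_eq_zero_iff F p, Int.natCast_dvd] at h1
    have h2 := Nat.le_of_dvd (Int.natAbs_pos.2 (leadingCoeff_ne_zero.2 hc₀)) h1
    omega
  obtain ⟨w, hw, h⟩ := all_common (k := k)
    (L := fun i j => ψ (LL_HsZ8 (D.map φ) k (fun i => (c i).map (Int.castRingHom F)) i j))
    ⟨i₀, hi₀, by
      rw [LL_zero_HsZ8 _ _ hi₀]
      exact (map_ne_zero_iff ψ hψ).2 hc₁⟩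
    ((range (k * k + 1)).image (Nat.cast : ℕ → Ω))
    (by
      rw [card_image_of_injOn, card_range]
      · exact Nat.lt_succ_self _
      · refine (CharP.natCast_injOn_Iio Ω p).mono fun x hx => ?_
        have h1 := mem_range.1 (mem_coe.1 hx)
        exact Set.mem_Iio.2 (by omega))
    (fun t ht => by
      obtain ⟨τ, -, rfl⟩ := mem_image.1 ht
      refine common_of_hres hk ?_
      have h1 := RR_map_HsZ8 D φ k (fun i => (c i).map (Int.castRingHom R)) τ
      simp only [hm, h0, Polynomial.map_zero] at h1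
      rw [← ring_RR_HsZ8, ← h1, map_zero])
  refine no_common hp (by omega) ψ hψ σ hσ (D.map φ) (ok.map φ) hga ha ht (k := k) (s := s)
    (c := fun i => (c i).map (Int.castRingHom F)) ⟨i₀, hi₀, hc₁⟩
    (fun i => natDegree_map_le.trans (hs i)) (by omega) hw fun i hi => ?_
  rw [← hev_LL_HsZ8]
  exact h i hi

end Pool.Agent.P.MP_68214b_ag
end

-- part Pool.Agent.P.MP_68214b_ag.HsM4
section

open Polynomial Finset Matrix NumberField

namespace Pool.Agent.P.MP_68214b_ag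

theorem real_end {κ d k n j m Y an aj am nj nn bn A N E h : ℝ} (hκ : 1 ≤ κ) (hκ2 : κ ≤ 2)
    (hk : 0 ≤ k) (hn : 0 < n) (hj : 0 ≤ j) (hm : 0 ≤ m) (hjm : j + m ≤ n) (hE : 0 ≤ E)
    (g1 : κ / 2 * n * (d * Y) - E ≤ an + nn + bn) (g2 : nn ≤ κ / 2 * n * N + E) (g3 : bn ≤ E)
    (g4 : j / n * an - E ≤ aj) (g5 : (j + m) / n * an - E ≤ am) (g6 : κ / 2 * j * N - E ≤ nj)
    (g7 : aj + nj ≤ κ / 2 * j * (d * Y) + E)
    (g8 : am - aj + k * (aj + nj) ≤ h + k * (κ / 2 * j * (d * Y)) + (k + 1) * E)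
    (g9 : m * (A + N) ≤ m * (d * Y) + E) (g10 : 4 * h ≤ κ * (m * A + E)) :
    m * A ≤ (24 * k + 40) * E := by
  have a1 : κ / 2 * n * (d * Y - N) - 3 * E ≤ an := by linarith
  have key : ∀ t : ℝ, 0 ≤ t → t ≤ n → κ / 2 * t * (d * Y - N) - 3 * E ≤ t / n * an := by
    intro t t0 t1
    have h1 : 0 ≤ t / n := div_nonneg t0 hn.le
    have h2 : t / n ≤ 1 := (div_le_one hn).2 t1
    have h3 := mul_le_mul_of_nonneg_left a1 h1
    have h4 : t / n * (κ / 2 * n * (d * Y - N)) = κ / 2 * t * (d * Y - N) := by field_simp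
    nlinarith
  have b1 := key j hj (by linarith)
  have b2 := key (j + m) (by linarith) hjm
  have c1 : κ / 2 * j * (d * Y) - 5 * E ≤ aj + nj := by linarith
  have c2 := mul_le_mul_of_nonneg_left c1 hk
  have c3 : κ / 2 * m * (d * Y - N) - 6 * E ≤ am - aj := by linarith
  have c4 : κ / 2 * (m * A - E) ≤ κ / 2 * (m * (d * Y - N)) :=
    mul_le_mul_of_nonneg_left (by linarith) (by linarith)
  have c5 : κ * (m * A) ≤ (24 * k + 28) * E + 3 * κ * E := by nlinarith
  by_cases hA : m * A ≤ 0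
  · exact hA.trans (by positivity)
  · nlinarith

end Pool.Agent.P.MP_68214b_ag
end

-- part Pool.Agent.P.MP_68214b_ag.HsM5
section

open Polynomial Finset Matrix NumberField Filter

namespace Pool.Agent.P.MP_68214b_ag

variable {K : Type} [Field K] [NumberField K] {κ : ℕ}

theorem Ctx.aux (c : Ctx K κ) {k m N H : ℕ} (hk : 0 < k) (hm : 0 < m) (hN : 0 < N)
    (hH : N ^ (4 * Module.finrank ℚ K) < (H + 1) ^ (k + 1)) :
    ∃ j ≤ 2 * k * (2 * k * m + 2 * k * k) + k, ∃ l : ℕ → ℤ, (∀ i, |l i| ≤ H * 2 ^ j) ∧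
      (∀ r, (N : 𝓞 K) ∣ hev k (fun i => (l i : 𝓞 K)) (perp (c.D.W j m) r)) ∧
      hev k (fun i => (l i : K)) (c.U j) ≠ 0 := by
  obtain ⟨f, L, h1, h2, h3, h4, h5⟩ :=
    siegel c.D c.ok.le.2 hk hm hN (by rwa [RingOfIntegers.rank])
  obtain ⟨j, hj, h6⟩ := zero_lemma (algebraMap (𝓞 K) K) (RingOfIntegers.coe_injective) c.D c.ok
    c.hord c.orb c.U_ne hk h1 h2
  refine ⟨j, hj, fun i => L i j, fun i => h4 i j, h5 j, fun h => h6 ?_⟩
  simp only [h3, hev, Int.cast_mul, mul_assoc, ← mul_sum] at h ⊢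
  rw [h, mul_zero]

theorem Ctx.growth (c : Ctx K κ) {C : ℝ} (hC : 1 ≤ C) :
    ∀ᶠ n : ℕ in atTop, C ^ n < Height.mulHeight (c.U n) := by
  obtain ⟨Ca, Ca0, hCa⟩ := c.arch
  obtain ⟨Cb, Cb0, hCb⟩ := c.bad
  obtain ⟨Cs, Cs0, hCs⟩ := c.sums
  set d := Module.finrank ℚ K with hd
  have d0 : 0 < d := Module.finrank_pos
  have d2 : 0 < d ^ 2 := by positivity
  obtain ⟨k, hk⟩ : ∃ k, 16 * d ^ 2 = k + 1 := ⟨16 * d ^ 2 - 1, by omega⟩
  have k0 : 0 < k := by omega
  set c1 := c.D.a + ∑ i, c.D.b i + c.B + 1 with hc1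
  set r := 4 * k * k + 2 with hr
  have r0 : 0 < r := by omega
  have lC : 0 ≤ Real.log C := Real.log_nonneg hC
  set E0 : ℝ := d * (1 + Ca) + Real.log C + 6 * Cs * c1 + Cb + d * c1 + Cs with hE0
  obtain ⟨X0, hX0⟩ := c.mu_big ((24 * k + 40) * E0 * (2 * r) + 1)
  filter_upwards [eventually_ge_atTop X0, eventually_ge_atTop (r * (4 * k * k * k + k + 1))]
    with n n1 n2
  by_contra! hcon
  set m := n / r with hm
  have m1 : 4 * k * k * k + k + 1 ≤ m := (Nat.le_div_iff_mul_le r0).2 (by rwa [mul_comm])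
  have m2 : r * m ≤ n := Nat.mul_div_le n r
  have m3 : n < r * (m + 1) := Nat.lt_mul_div_succ n r0
  have n0 : 0 < n := lt_of_lt_of_le (by positivity) n2
  have c0 : 0 < c1 := by omega
  set X := c1 * n with hX
  have nX : n ≤ X := Nat.le_mul_of_pos_left n c0
  have bd : c.Bd n X := by
    refine ⟨nX, ?_, fun i => ?_⟩
    · calc c.B ≤ c1 := by omega
        _ ≤ X := Nat.le_mul_of_pos_right c1 n0
    · have h1 : c.D.b i ≤ ∑ i, c.D.b i := single_le_sum (fun _ _ => Nat.zero_le _) (mem_univ i)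
      have h2 : c.D.b i ≤ (∑ i, c.D.b i) * n := h1.trans (Nat.le_mul_of_pos_right _ n0)
      calc _ ≤ (c.D.a + ∑ i, c.D.b i) * n := by rw [add_mul]; omega
        _ ≤ X := Nat.mul_le_mul_right n (by omega)
  set N := c.N0 X m with hN
  have N0 : 0 < N := c.N0_pos X m
  set H := Nat.nthRoot (4 * d) N with hH
  have H1 : H ^ (4 * d) ≤ N := Nat.pow_nthRoot_le (Or.inl (by omega))
  have H2 : N < (H + 1) ^ (4 * d) := Nat.lt_pow_nthRoot_add_one (by omega) N
  have H0 : 0 < H := by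
    by_contra h
    rw [show H = 0 by omega] at H2
    simp at H2; omega
  obtain ⟨j, hj, l, l1, l2, l3⟩ := c.aux k0 (by omega : 0 < m) N0 (H := H) (by
    rw [← hk, show 16 * d ^ 2 = 4 * d * (4 * d) by ring, pow_mul (H + 1)]
    exact Nat.pow_lt_pow_left H2 (by omega))
  have jm : j + m ≤ n := by
    have : 2 * k * (2 * k * m + 2 * k * k) + 2 * m = r * m + 4 * k * k * k := by rw [hr]; ring
    omega
  obtain ⟨s1, s2, s3, s4⟩ := hCs X (by omega)
  have s5 := s3 c.B bd.2.1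
  have n1' : (1 : ℝ) ≤ n := by exact_mod_cast n0
  have nR : (0 : ℝ) < n := by linarith
  have dR : (1 : ℝ) ≤ d := by exact_mod_cast d0
  have cR : (1 : ℝ) ≤ c1 := by exact_mod_cast c0
  have XR : (X : ℝ) = c1 * n := by rw [hX]; push_cast; ring
  have jn : (j : ℝ) + m ≤ n := by exact_mod_cast jm
  have j0 : (0 : ℝ) ≤ j := Nat.cast_nonneg j
  have m0 : (0 : ℝ) ≤ m := Nat.cast_nonneg m
  have kR : (0 : ℝ) ≤ k := Nat.cast_nonneg k
  have p1 : 0 ≤ d * Ca * n := by positivity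
  have p2 : 0 ≤ Real.log C * n := by positivity
  have p3 : 0 ≤ Cs * X := by positivity
  have p4 : 0 ≤ Cb * n := by positivity
  have p5 : (0 : ℝ) ≤ d * c1 * n := by positivity
  have p6 : 0 ≤ Cs * n := by positivity
  have p7 : (0 : ℝ) ≤ d * n := by positivity
  have hE : E0 * n = d * n + d * Ca * n + Real.log C * n + 6 * (Cs * X) + Cb * n +
      d * c1 * n + Cs * n := by rw [hE0, XR]; ring
  have hlog : Real.log (Height.mulHeight (c.U n)) ≤ Real.log C * n := by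
    rw [mul_comm, ← Real.log_pow]
    exact Real.log_le_log (Height.mulHeight_pos _) hcon
  have fin := real_end (κ := κ) (d := d) (k := k) (n := n) (j := j) (m := m) (Y := Real.log n)
    (an := ∑ v ∈ c.SO X, cv v (c.U n)) (aj := ∑ v ∈ c.SO X, cv v (c.U j))
    (am := ∑ v ∈ c.SO X, cv v (c.U (j + m))) (nj := ∑ v ∈ c.SN X, cv v (c.U j))
    (nn := ∑ v ∈ c.SN X, cv v (c.U n)) (bn := ∑ v ∈ SX K c.B, cv v (c.U n))
    (A := ∑ v ∈ c.SO X, mu v) (N := ∑ v ∈ c.SN X, mu v) (E := E0 * n) (h := d * Real.log H)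
    (by exact_mod_cast c.ok.le.1) (by exact_mod_cast c.ok.le.2) kR nR j0 m0 jn (by linarith)
    (by
      have := c.cont_ge bd fun φ => (hCa n n0 φ).2
      rw [← hd] at this; linarith)
    (by
      have := sum_le_sum fun v hv => c.neu_upper bd hv
      rw [sum_add_distrib, ← mul_sum, ← mul_sum] at this; linarith)
    (by have := hCb n X n0 bd; linarith)
    (by
      have := sum_le_sum fun v hv => c.ord_prop bd hv n0 (by omega : j ≤ n)
      rw [sum_sub_distrib, ← mul_sum, ← mul_sum] at this; linarith)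
    (by
      have := sum_le_sum fun v hv => c.ord_prop bd hv n0 jm
      rw [sum_sub_distrib, ← mul_sum, ← mul_sum] at this; push_cast at this; linarith)
    (by
      have := sum_le_sum fun v hv => c.neu_lower bd hv (by omega : j ≤ n)
      rw [sum_sub_distrib, ← mul_sum, ← mul_sum] at this; linarith)
    (by
      have := c.cont_le X j fun φ => (hCa n n0 φ).1 j (by omega)
      rw [← hd] at this; linarith)
    (by
      have := c.aux_ineq bd jm l l2 l3 (h := Real.log H + j) (fun i => by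
        rw [Real.exp_add, Real.exp_log (by exact_mod_cast H0), ← Int.cast_abs]
        refine (Int.cast_le.2 (l1 i)).trans ?_
        push_cast
        rw [← Real.exp_one_pow]
        gcongr
        linarith [Real.add_one_le_exp 1]) fun φ => (hCa n n0 φ).1 j (by omega)
      rw [← hd] at this
      have q1 : (d : ℝ) * j ≤ d * n := by gcongr; linarith
      have q2 : (d : ℝ) ≤ d * n := le_mul_of_one_le_right (by linarith) n1'
      have q3 := mul_le_mul_of_nonneg_left (show (d : ℝ) + d * Ca * n ≤ E0 * n by linarith) kR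
      linarith)
    (by
      have q1 : Real.log X ≤ Real.log n + c1 := by
        rw [XR, Real.log_mul (by linarith) nR.ne']
        linarith [Real.log_le_sub_one_of_pos (show (0 : ℝ) < c1 by linarith)]
      have q2 := mul_le_mul_of_nonneg_left q1 (show (0 : ℝ) ≤ d by linarith)
      have q3 := mul_le_mul_of_nonneg_left (s4.trans (add_le_add_left q2 Cs)) m0
      have q4 : (m : ℝ) * (d * c1 + Cs) ≤ n * (d * c1 + Cs) := by gcongr; linarith
      linarith)
    (by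
      have q1 := c.log_N0 X m
      have q2 : 4 * (d * Real.log H) ≤ Real.log N := by
        rw [← mul_assoc, show (4 * d : ℝ) = (4 * d : ℕ) by push_cast; ring, ← Real.log_pow]
        exact Real.log_le_log (by positivity) (by exact_mod_cast H1)
      refine q2.trans (q1.trans ?_)
      gcongr
      linarith)
  have big := hX0 X (n1.trans nX)
  have E00 : 0 ≤ E0 := by positivity
  have q1 : (n : ℝ) ≤ 2 * r * m := by
    have : r * (m + 1) ≤ r * (2 * m) := Nat.mul_le_mul_left _ (by omega)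
    have : r * (2 * m) = 2 * r * m := by ring
    exact_mod_cast (by omega : n ≤ 2 * r * m)
  have q2 : (0 : ℝ) < m := by exact_mod_cast (by omega : 0 < m)
  have q3 := mul_le_mul_of_nonneg_left big m0
  have q4 : (24 * k + 40) * (E0 * n) ≤ (24 * k + 40) * (E0 * (2 * r * m)) := by gcongr
  linarith

end Pool.Agent.P.MP_68214b_ag
end

-- part Pool.Agent.P.MP_68214b_ag.HsE2
section

open Polynomial Finset Matrix NumberField

namespace Pool.Agent.P.MP_68214b_ag

variable {p : ℕ} {F : Type} [Field F]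

/-- contiguous family of solutions of the three term recurrence -/
def V_HsE2 (t1 t2 th s : F) : ℕ → ℕ → F
  | 0, _ => 1
  | k + 1, i => (th + i * (t1 - t2)) * V_HsE2 t1 t2 th s k (i + 1) +
      t2 * (k + s + i + 1) * V_HsE2 t1 t2 th s k i

theorem V_zero_HsE2 (t1 t2 th s : F) (i : ℕ) : V_HsE2 t1 t2 th s 0 i = 1 := rfl

theorem V_succ_HsE2 (t1 t2 th s : F) (k i : ℕ) : V_HsE2 t1 t2 th s (k + 1) i =
    (th + i * (t1 - t2)) * V_HsE2 t1 t2 th s k (i + 1) +
      t2 * (k + s + i + 1) * V_HsE2 t1 t2 th s k i := rfl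

theorem V_cont_HsE2 (t1 t2 th s : F) (k : ℕ) : ∀ i : ℕ,
    V_HsE2 t1 t2 th s (k + 1) (i + 1) - t1 * (k + 1) * V_HsE2 t1 t2 th s k (i + 1) =
      V_HsE2 t1 t2 th s (k + 1) i := by
  induction k with
  | zero =>
    intro i
    simp only [V_succ_HsE2, V_zero_HsE2]
    push_cast
    ring
  | succ k ih =>
    intro i
    have a1 := V_succ_HsE2 t1 t2 th s (k + 1) (i + 1)
    have a2 := V_succ_HsE2 t1 t2 th s (k + 1) i
    have a3 := V_succ_HsE2 t1 t2 th s k (i + 1)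
    have b1 := ih (i + 1)
    have b2 := ih i
    push_cast at a1 a2 a3 b1 b2 ⊢
    linear_combination a1 - a2 + (th + (i + 1) * (t1 - t2)) * b1 +
      t2 * (k + 1 + s + i + 1) * b2 - t1 * (k + 1) * a3

theorem V_closed_HsE2 (t1 t2 th s : F) (k : ℕ) : ∀ i : ℕ,
    V_HsE2 t1 t2 th s k i = ∑ l ∈ range (k + 1), (k.choose l : F) *
      ((∏ e ∈ range l, (th + ((i : F) + e) * (t1 - t2))) *
        ∏ e ∈ range (k - l), t2 * (s + i + 1 + l + e)) := by
  induction k with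
  | zero => intro i; simp [V_zero_HsE2]
  | succ k ih =>
    intro i
    rw [V_succ_HsE2, ih, ih, Finset.sum_choose_succ_mul
      (fun l m => (∏ e ∈ range l, (th + ((i : F) + e) * (t1 - t2))) *
        ∏ e ∈ range m, t2 * (s + i + 1 + l + e)) k, add_comm, mul_sum, mul_sum]
    congr 1
    · refine sum_congr rfl fun l hl => ?_
      have hl' : l ≤ k := Nat.lt_succ_iff.1 (mem_range.1 hl)
      rw [Nat.succ_sub hl', prod_range_succ, Nat.cast_sub hl']
      ring
    · refine sum_congr rfl fun l _ => ?_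
      rw [prod_range_succ']
      have e1 : ∏ e ∈ range l, (th + (((i + 1 : ℕ) : F) + e) * (t1 - t2)) =
          ∏ e ∈ range l, (th + ((i : F) + ((e + 1 : ℕ) : F)) * (t1 - t2)) :=
        prod_congr rfl fun e _ => by push_cast; ring
      have e2 : ∏ e ∈ range (k - l), t2 * (s + ((i + 1 : ℕ) : F) + 1 + l + e) =
          ∏ e ∈ range (k - l), t2 * (s + i + 1 + ((l + 1 : ℕ) : F) + e) :=
        prod_congr rfl fun e _ => by push_cast; ring
      rw [e1, e2]
      push_cast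
      ring

theorem trace_M [CharP F p] (hp : p.Prime) (D : Par F 2) {t1 t2 th : F} (h1 : D.al = t1 + t2)
    (h2 : D.ga * (D.a : F) ^ 2 = -(t1 * t2)) (ha : (D.a : F) ≠ 0)
    (hth : D.a * th = D.a * D.be - D.al * D.b 0 - ((D.b 1 : F) - D.b 0 + D.a) * t2) :
    (D.W 0 p).trace = ∏ l ∈ range p, (th + l * (t1 - t2)) := by
  obtain ⟨j, -, hj⟩ := exists_root (F := F) hp ha (D.b 0)
  obtain ⟨j', hj'p, hj'⟩ := exists_root (F := F) hp ha ((D.b 1 : ℤ) - D.b 0 + D.a)
  push_cast at hj hj'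
  obtain ⟨s, hs⟩ : ∃ s : F, D.a * s = (D.b 1 : F) - D.b 0 :=
    ⟨((D.b 1 : F) - D.b 0) / D.a, by field_simp⟩
  have hth' : th = D.al * j + D.be - (s + 1) * t2 := by
    refine mul_left_cancel₀ ha ?_
    linear_combination hth - D.al * hj + t2 * hs
  have hq : ∀ y : F, D.q (j + y) = -(t1 * t2) * y * (y + s) := fun y => by
    rw [Par.q, Fin.prod_univ_two, ← h2]
    have e0 : (D.a : F) * (j + y) + D.b 0 = D.a * y := by linear_combination hj
    have e1 : (D.a : F) * (j + y) + D.b 1 = D.a * (y + s) := by linear_combination hj - hs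
    rw [e0, e1]
    ring
  have hsj : s + 1 + j' = 0 := by
    refine mul_left_cancel₀ ha ?_
    linear_combination hj' + hs
  rw [← trace_nat D j, trace_eq_w D (x := j) (w := fun k => V_HsE2 t1 t2 th s k 0)
    (by simpa using hq 0) rfl ?_ ?_ hp.pos]
  · rw [V_closed_HsE2, sum_range_succ, sum_eq_zero, zero_add]
    · simp
    · intro l hl
      rcases Nat.eq_zero_or_pos l with rfl | hl0
      · rw [prod_eq_zero (mem_range.2 (by simpa using hj'p) : j' ∈ range (p - 0))]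
        · simp
        · push_cast
          linear_combination t2 * hsj
      · rw [(CharP.cast_eq_zero_iff F p _).2 (hp.dvd_choose_self hl0.ne' (mem_range.1 hl)),
          zero_mul]
  · simp only [V_succ_HsE2, V_zero_HsE2, Par.p]
    push_cast
    linear_combination hth'
  · intro k
    have a1 := V_succ_HsE2 t1 t2 th s (k + 1) 0
    have a2 := V_succ_HsE2 t1 t2 th s k 0
    have b := V_cont_HsE2 t1 t2 th s k 0
    have hq' := hq (k + 1)
    rw [← add_assoc] at hq'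
    rw [hq', Par.p, h1]
    rw [h1] at hth'
    push_cast at a1 a2 b ⊢
    linear_combination a1 + th * b - t1 * (k + 1) * a2 + V_HsE2 t1 t2 th s (k + 1) 0 * hth'

end Pool.Agent.P.MP_68214b_ag
end

-- part Pool.Agent.P.MP_68214b_ag.HsF1
section

open Polynomial Finset Matrix NumberField

namespace Pool.Agent.P.MP_68214b_ag

/-- a limit of integers -/
def Apx {K : Type} [Field K] (v : AbsoluteValue K ℝ) (A : K) : Prop :=
  ∀ ε : ℝ, 0 < ε → ∃ z : ℤ, v (A - z) < ε

section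
variable {K : Type} [Field K] {v : AbsoluteValue K ℝ}

theorem Apx.int (z : ℤ) : Apx v (z : K) := fun ε hε => ⟨z, by simpa using hε⟩

theorem Apx.sub (hv : IsNonarchimedean v) {A B : K} (hA : Apx v A) (hB : Apx v B) :
    Apx v (A - B) := by
  intro ε hε
  obtain ⟨y, hy⟩ := hA ε hε
  obtain ⟨z, hz⟩ := hB ε hε
  refine ⟨y - z, ?_⟩
  rw [show A - B - ((y - z : ℤ) : K) = (A - y) - (B - z) by push_cast; ring]
  exact (v_sub_le hv _ _).trans_lt (max_lt hy hz)

theorem Apx.le_one (hv : IsNonarchimedean v) {A : K} (hA : Apx v A) : v A ≤ 1 := by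
  obtain ⟨z, hz⟩ := hA 1 one_pos
  rw [show A = (A - z) + z by ring]
  exact (hv _ _).trans (max_le hz.le (v_int_le hv z))

theorem coe_eval_HsF1 (hv : IsNonarchimedean v) (f : ℤ[X]) (x : intR hv) :
    ((eval x (f.map (algebraMap ℤ (intR hv))) : intR hv) : K) = aeval (x : K) f := by
  rw [eval_map_algebraMap]
  exact (aeval_algHom_apply (intR hv).subtype.toIntAlgHom x f).symm

/-- Taylor expansion with an integral remainder -/
theorem taylor_HsF1 (hv : IsNonarchimedean v) (f : ℤ[X]) {a b : K} (ha : v a ≤ 1) (hb : v b ≤ 1) :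
    ∃ k : K, v k ≤ 1 ∧
      aeval a f = aeval b f + aeval b (derivative f) * (a - b) + k * (a - b) ^ 2 := by
  obtain ⟨k, hk⟩ := binomExpansion (f.map (algebraMap ℤ (intR hv))) (⟨b, hb⟩ : intR hv)
    (⟨a, ha⟩ - ⟨b, hb⟩)
  rw [add_sub_cancel, derivative_map] at hk
  have h := congrArg (fun x : intR hv => (x : K)) hk
  simp only [Subring.coe_add, Subring.coe_mul, Subring.coe_pow, AddSubgroupClass.coe_sub,
    coe_eval_HsF1] at h
  exact ⟨k, k.2, h⟩

theorem lip_HsF1 (hv : IsNonarchimedean v) (f : ℤ[X]) {a b : K} (ha : v a ≤ 1) (hb : v b ≤ 1) :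
    v (aeval a f - aeval b f) ≤ v (a - b) := by
  obtain ⟨k, hk⟩ := sub_dvd_eval_sub (⟨a, ha⟩ : intR hv) ⟨b, hb⟩ (f.map (algebraMap ℤ (intR hv)))
  have h := congrArg (fun x : intR hv => (x : K)) hk
  simp only [Subring.coe_mul, AddSubgroupClass.coe_sub, coe_eval_HsF1] at h
  rw [h, map_mul]
  exact mul_le_of_le_one_right (v.nonneg _) k.2

theorem v_mul_le_HsF1 (hv : IsNonarchimedean v) (a : K) (z : ℤ) : v (z * a) ≤ v a := by
  rw [map_mul]
  exact mul_le_of_le_one_left (v.nonneg _) (v_int_le hv z)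

theorem Apx.poch [CharZero K] (hv : IsNonarchimedean v) {A : K} (hA : Apx v A) (i : ℕ) :
    v (∏ l ∈ range i, (A + l)) ≤ v (i.factorial) := by
  have h0 : (0 : ℤ) < i.factorial := by exact_mod_cast i.factorial_pos
  obtain ⟨z, hz⟩ := hA (v i.factorial) (v.pos (by exact_mod_cast i.factorial_ne_zero))
  obtain ⟨n, hn⟩ := Int.eq_ofNat_of_zero_le (Int.emod_nonneg z h0.ne')
  have e1 : A - n = (A - z) + ((z / i.factorial : ℤ) : K) * i.factorial := by
    have h1 := congrArg (Int.cast : ℤ → K) (Int.emod_add_mul_ediv z i.factorial)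
    rw [hn] at h1
    push_cast at h1
    rw [← h1]
    ring
  have h2 : v (A - n) ≤ v i.factorial := by
    rw [e1]
    exact (hv _ _).trans (max_le hz.le (v_mul_le_HsF1 hv _ _))
  have e2 : ∀ x : K, aeval x (∏ l ∈ range i, (X + C (l : ℤ)) : ℤ[X]) = ∏ l ∈ range i, (x + l) := by
    intro x
    simp [map_prod]
  have h3 := lip_HsF1 hv (∏ l ∈ range i, (X + C (l : ℤ))) (hA.le_one hv) (v_nat_le hv n)
  rw [e2, e2] at h3
  have h4 : v (∏ l ∈ range i, ((n : K) + l)) ≤ v i.factorial := by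
    obtain ⟨c, hc⟩ := Nat.factorial_dvd_ascFactorial n i
    rw [Nat.ascFactorial_eq_prod_range] at hc
    have h5 := congrArg (Nat.cast : ℕ → K) hc
    push_cast at h5
    rw [h5, map_mul]
    exact mul_le_of_le_one_right (v.nonneg _) (v_nat_le hv c)
  rw [← sub_add_cancel (∏ l ∈ range i, (A + l)) (∏ l ∈ range i, ((n : K) + l))]
  exact (hv _ _).trans (max_le (h3.trans h2) h4)

theorem bez_HsF1 {p : ℕ} (hp : p.Prime) {d : ℤ} (hd : ¬(p : ℤ) ∣ d) :
    ∃ u w : ℤ, (u : K) * p + w * d = 1 := by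
  obtain ⟨u, w, h⟩ := (Nat.prime_iff_prime_int.1 hp).coprime_iff_not_dvd.2 hd
  exact ⟨u, w, by exact_mod_cast congrArg (Int.cast : ℤ → K) h⟩

theorem step_HsF1 (hv : IsNonarchimedean v) {p : ℕ} (hp : p.Prime) (hvp : v p < 1) (f : ℤ[X])
    {A : K} (h0 : aeval A f = 0) (hA : v A ≤ 1) (h1 : v (aeval A (derivative f)) = 1)
    {z : ℤ} (hz : v (A - z) < 1) :
    ∃ y : ℤ, v (A - y) ≤ max (v p) (v (A - z)) * v (A - z) := by
  have ev : ∀ g : ℤ[X], aeval (z : K) g = ((eval z g : ℤ) : K) := fun g => by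
    have := aeval_algebraMap_apply_eq_algebraMap_eval (A := K) z g
    simpa using this
  have hd : ¬(p : ℤ) ∣ eval z (derivative f) := by
    rintro ⟨c, hc⟩
    have h2 := (lip_HsF1 hv (derivative f) hA (v_int_le hv z)).trans_lt hz
    have h3 : v (aeval (z : K) (derivative f)) < 1 := by
      rw [ev, hc, Int.cast_mul, mul_comm, Int.cast_natCast]
      exact (v_mul_le_HsF1 hv _ _).trans_lt hvp
    have h4 := hv (aeval A (derivative f) - aeval (z : K) (derivative f))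
      (aeval (z : K) (derivative f))
    rw [sub_add_cancel, h1] at h4
    exact absurd (max_lt h2 h3) (not_lt.2 h4)
  obtain ⟨u, w, huw⟩ := bez_HsF1 (K := K) hp hd
  obtain ⟨k, hk, ht⟩ := taylor_HsF1 hv f hA (v_int_le hv z)
  rw [h0, ev, ev] at ht
  refine ⟨z - w * eval z f, ?_⟩
  have e : A - ((z - w * eval z f : ℤ) : K) = (u * p - w * (k * (A - z))) * (A - z) := by
    push_cast
    linear_combination (-(w : K)) * ht - (A - z) * huw
  rw [e, map_mul]
  refine mul_le_mul_of_nonneg_right ((v_sub_le hv _ _).trans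
    (max_le_max (v_mul_le_HsF1 hv _ _) ((v_mul_le_HsF1 hv _ _).trans ?_))) (v.nonneg _)
  rw [map_mul]
  exact mul_le_of_le_one_left (v.nonneg _) hk

theorem apx_hensel (hv : IsNonarchimedean v) {p : ℕ} (hp : p.Prime) (hvp : v p < 1) (f : ℤ[X])
    {A : K} (h0 : aeval A f = 0) (hA : v A ≤ 1) (h1 : v (aeval A (derivative f)) = 1)
    (hz : ∃ z : ℤ, v (A - z) < 1) : Apx v A := by
  obtain ⟨z, hz⟩ := hz
  obtain ⟨c, hc⟩ : ∃ c, c = max (v p) (v (A - z)) := ⟨_, rfl⟩
  have c1 : c < 1 := hc ▸ max_lt hvp hz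
  have c2 : v p ≤ c := hc ▸ le_max_left _ _
  have c0 : 0 ≤ c := (v.nonneg _).trans c2
  have key : ∀ n : ℕ, ∃ y : ℤ, v (A - y) ≤ c ^ (n + 1) := by
    intro n
    induction n with
    | zero => exact ⟨z, by rw [zero_add, pow_one, hc]; exact le_max_right _ _⟩
    | succ n ih =>
      obtain ⟨y, hy⟩ := ih
      have h2 : v (A - y) ≤ c := hy.trans (pow_le_of_le_one c0 c1.le (Nat.succ_ne_zero n))
      obtain ⟨y', hy'⟩ := step_HsF1 hv hp hvp f h0 hA h1 (h2.trans_lt c1)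
      refine ⟨y', hy'.trans ?_⟩
      rw [pow_succ' c (n + 1)]
      exact mul_le_mul (max_le c2 h2) hy (v.nonneg _) c0
  intro ε hε
  obtain ⟨n, hn⟩ := exists_pow_lt_of_lt_one hε c1
  obtain ⟨y, hy⟩ := key n
  exact ⟨y, (hy.trans (pow_le_pow_of_le_one c0 c1.le (Nat.le_succ n))).trans_lt hn⟩

theorem apx_rat (hv : IsNonarchimedean v) {p : ℕ} (hp : p.Prime) (hvp : v p < 1) {a : ℕ}
    (ha : ¬p ∣ a) (z : ℤ) : Apx v ((z : K) / a) := by
  obtain ⟨u, w, huw⟩ := bez_HsF1 (K := K) hp (d := a) (by exact_mod_cast ha)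
  rw [Int.cast_natCast] at huw
  have h1 : v (a : K) = 1 := by
    refine le_antisymm (v_nat_le hv a) (not_lt.1 fun h => ?_)
    have h2 := hv ((u : K) * p) (w * a)
    rw [huw, map_one] at h2
    exact absurd (max_lt ((v_mul_le_HsF1 hv _ _).trans_lt hvp)
      ((v_mul_le_HsF1 hv _ _).trans_lt h)) (not_lt.2 h2)
  have h0 : (a : K) ≠ 0 := fun h => by simp [h] at h1
  refine apx_hensel hv hp hvp (C (a : ℤ) * X - C z) ?_ ?_ ?_ ⟨w * z, ?_⟩
  · rw [map_sub, map_mul, aeval_C, aeval_C, aeval_X, eq_intCast, eq_intCast, Int.cast_natCast,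
      mul_div_cancel₀ _ h0, sub_self]
  · rw [map_div₀, h1, div_one]
    exact v_int_le hv z
  · simpa using h1
  · have e : (z : K) / a - ((w * z : ℤ) : K) = ((z * u : ℤ) : K) * p / a := by
      push_cast
      field_simp
      linear_combination (-(z : K)) * huw
    rw [e, map_div₀, h1, div_one]
    exact (v_mul_le_HsF1 hv _ _).trans_lt hvp

end

theorem apx_place {K : Type} [Field K] [NumberField K] (A : K) :
    ∃ B : ℕ, ∀ v : FinitePlace K, B < pv v →
      v A ≤ 1 ∧ ((∃ z : ℤ, v (A - z) < 1) → Apx v.1 A) := by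
  obtain ⟨b, hb, hf⟩ := IsLocalization.integerNormalization_spec (nonZeroDivisors ℤ) (minpoly ℚ A)
  generalize IsLocalization.integerNormalization (nonZeroDivisors ℤ) (minpoly ℚ A) = f at hf
  have hb0 : (b : K) ≠ 0 := by exact_mod_cast nonZeroDivisors.ne_zero hb
  have h0 : aeval A f = 0 := by
    rw [← aeval_map_algebraMap ℚ, hf, zsmul_eq_mul, map_mul, minpoly.aeval, mul_zero]
  have h1 : aeval A (derivative f) ≠ 0 := by
    rw [← aeval_map_algebraMap ℚ, ← derivative_map, hf, map_zsmul, zsmul_eq_mul, map_mul,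
      map_intCast]
    exact mul_ne_zero hb0
      ((Algebra.IsSeparable.isSeparable ℚ A).aeval_derivative_ne_zero (minpoly.aeval ℚ A))
  obtain ⟨B1, hB1⟩ := big_unit h1
  obtain ⟨B2, hB2⟩ : ∃ B : ℕ, ∀ v : FinitePlace K, B < pv v → v A ≤ 1 := by
    rcases eq_or_ne A 0 with rfl | hA
    · exact ⟨0, fun v _ => by simp⟩
    · obtain ⟨B, hB⟩ := big_unit hA
      exact ⟨B, fun v h => (hB v h).le⟩
  refine ⟨max B1 B2, fun v h => ?_⟩
  have h2 := hB2 v ((le_max_right _ _).trans_lt h)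
  exact ⟨h2, fun hz => apx_hensel (fin_na v) (pv_prime v) (v_pv_lt v) f h0 h2
    (hB1 v ((le_max_left _ _).trans_lt h)) hz⟩

end Pool.Agent.P.MP_68214b_ag
end

-- part Pool.Agent.P.MP_68214b_ag.HsF2
section

open Polynomial Finset Matrix NumberField

namespace Pool.Agent.P.MP_68214b_ag

variable {K : Type} [Field K] [CharZero K] {v : AbsoluteValue K ℝ}

/-- series with integral coefficients -/
def IntS_HsF2 (v : AbsoluteValue K ℝ) (f : PowerSeries K) : Prop :=
  ∀ n, v (PowerSeries.coeff n f) ≤ 1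

omit [CharZero K] in
theorem intS_mul_HsF2 (hv : IsNonarchimedean v) {f g : PowerSeries K} (hf : IntS_HsF2 v f)
    (hg : IntS_HsF2 v g) : IntS_HsF2 v (f * g) := fun n => by
  rw [PowerSeries.coeff_mul]
  exact sum_mem (S := intR hv) fun x _ => mul_mem (hf x.1) (hg x.2)

omit [CharZero K] in
theorem intS_lin_HsF2 {a b : K} (ha : v a ≤ 1) (hb : v b ≤ 1) :
    IntS_HsF2 v (PowerSeries.C a + PowerSeries.X * PowerSeries.C b) := fun n => by
  rcases n with _ | _ | n
  · simpa using ha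
  · simpa [PowerSeries.coeff_succ_X_mul, PowerSeries.coeff_C] using hb
  · simp [PowerSeries.coeff_X]

omit [CharZero K] in
theorem intS_cancel_HsF2 (hv : IsNonarchimedean v) {f g : PowerSeries K} (hf : IntS_HsF2 v f)
    (h1 : PowerSeries.coeff 0 f = 1) (hfg : IntS_HsF2 v (f * g)) : IntS_HsF2 v g := fun n => by
  induction n using Nat.strong_induction_on with
  | _ n ih =>
    have h := hfg n
    rcases n with _ | n
    · simpa [PowerSeries.coeff_mul, h1] using h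
    · rw [PowerSeries.coeff_mul, Finset.Nat.antidiagonal_succ, sum_cons, sum_map, h1, one_mul] at h
      have h2 : ∑ x ∈ antidiagonal n, PowerSeries.coeff (x.1 + 1) f * PowerSeries.coeff x.2 g ∈
          intR hv :=
        sum_mem fun x hx => mul_mem (hf _) (ih _ (by have := mem_antidiagonal.1 hx; omega))
      have h3 := sub_mem (show _ ∈ intR hv from h) h2
      exact (by simpa using h3 : PowerSeries.coeff (n + 1) g ∈ intR hv)

omit [CharZero K] in
theorem coeff_Xd_HsF2 (f : PowerSeries K) (n : ℕ) :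
    PowerSeries.coeff n (PowerSeries.X * PowerSeries.derivative K f) =
      n * PowerSeries.coeff n f := by
  rcases n with _ | n
  · simp
  · rw [PowerSeries.coeff_succ_X_mul, PowerSeries.coeff_derivative]; push_cast; ring

/-- the binomial series -/
noncomputable def ys_HsF2 (A t : K) : PowerSeries K :=
  PowerSeries.mk fun i => (∏ l ∈ range i, (A + l)) * t ^ i / i.factorial

theorem ys_ode_HsF2 (A t : K) : PowerSeries.derivative K (ys_HsF2 A t) =
    PowerSeries.C t * (PowerSeries.X * PowerSeries.derivative K (ys_HsF2 A t)) +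
      PowerSeries.C (A * t) * ys_HsF2 A t := by
  ext n
  rw [map_add, PowerSeries.coeff_C_mul, PowerSeries.coeff_C_mul, coeff_Xd_HsF2,
    PowerSeries.coeff_derivative]
  simp only [ys_HsF2, PowerSeries.coeff_mk, prod_range_succ, Nat.factorial_succ]
  have h1 : (n.factorial : K) ≠ 0 := by exact_mod_cast n.factorial_ne_zero
  have h2 : ((n : K) + 1) ≠ 0 := by exact_mod_cast n.succ_ne_zero
  push_cast
  field_simp
  ring

theorem ys_int_HsF2 (hv : IsNonarchimedean v) {A t : K} (hA : Apx v A) (ht : v t ≤ 1) :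
    IntS_HsF2 v (ys_HsF2 A t) := fun n => by
  have h1 : (n.factorial : K) ≠ 0 := by exact_mod_cast n.factorial_ne_zero
  have h2 : 0 < v (n.factorial : K) := v.pos h1
  simp only [ys_HsF2, PowerSeries.coeff_mk, map_div₀, map_mul, map_pow]
  rw [div_le_one h2]
  exact (mul_le_of_le_one_right (v.nonneg _) (pow_le_one₀ (v.nonneg _) ht)).trans (hA.poch hv n)

theorem core_HsF2 (hv : IsNonarchimedean v) {t1 t2 A A2 xi c0 c1 : K} (ht1 : v t1 ≤ 1)
    (ht2 : v t2 ≤ 1) (hA : Apx v A) (hA2 : Apx v A2) (hc0 : v c0 ≤ 1) (hc1 : v c1 ≤ 1)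
    {β : ℕ → K} (h0 : xi * β 0 = c0)
    (h1 : (1 + xi) * β 1 = ((t1 + t2) * xi + (A * t1 + A2 * t2)) * β 0 + c1)
    (h2 : ∀ i : ℕ, (i + 2 + xi) * β (i + 2) =
      ((t1 + t2) * (i + 1 + xi) + (A * t1 + A2 * t2)) * β (i + 1) -
        t1 * t2 * (i + xi + (A + A2)) * β i)
    {i : ℕ} {M : ℝ} (hM : 0 ≤ M) (hj : ∀ j : ℕ, j ≤ i → M ≤ v (j + xi)) : v (β i) * M ≤ 1 := by
  set B : PowerSeries K := PowerSeries.mk β with hB
  have hth : ∀ (f : PowerSeries K) (n : ℕ), PowerSeries.coeff n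
      (PowerSeries.X * PowerSeries.derivative K f + PowerSeries.C xi * f) =
        (n + xi) * PowerSeries.coeff n f := fun f n => by
    rw [map_add, coeff_Xd_HsF2, PowerSeries.coeff_C_mul]; ring
  set TB := PowerSeries.X * PowerSeries.derivative K B + PowerSeries.C xi * B with hTB
  have hode : TB = PowerSeries.C c0 + PowerSeries.X * PowerSeries.C c1 +
      PowerSeries.X * (PowerSeries.C (t1 + t2) * TB + PowerSeries.C (A * t1 + A2 * t2) * B) -
      PowerSeries.X * (PowerSeries.X * (PowerSeries.C (t1 * t2) * TB +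
        PowerSeries.C (t1 * t2 * (A + A2)) * B)) := by
    have hc : ∀ n : ℕ, PowerSeries.coeff n TB = (n + xi) * β n := fun n => by
      rw [hTB, hth, hB, PowerSeries.coeff_mk]
    have hb : ∀ n : ℕ, PowerSeries.coeff n B = β n := fun n => by rw [hB, PowerSeries.coeff_mk]
    clear_value TB B
    ext n
    rcases n with _ | _ | n
    · rw [hc]; simp [h0]
    · simp only [map_sub, map_add (PowerSeries.coeff _), PowerSeries.coeff_succ_X_mul,
        PowerSeries.coeff_C_mul, hc, hb, PowerSeries.coeff_zero_X_mul, PowerSeries.coeff_C]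
      simp only [Nat.cast_zero, Nat.cast_add, Nat.cast_one, if_true, add_eq_zero, one_ne_zero,
        and_false, if_false]
      linear_combination h1
    · simp only [map_sub, map_add (PowerSeries.coeff _), PowerSeries.coeff_succ_X_mul,
        PowerSeries.coeff_C_mul, hc, hb, PowerSeries.coeff_C]
      simp only [Nat.cast_add, Nat.cast_one, add_eq_zero, one_ne_zero, and_false, if_false]
      linear_combination h2 n
  set y1 := ys_HsF2 A t1
  set y2 := ys_HsF2 A2 t2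
  have o1 : PowerSeries.derivative K y1 = _ := ys_ode_HsF2 A t1
  have o2 : PowerSeries.derivative K y2 = _ := ys_ode_HsF2 A2 t2
  have c1' : PowerSeries.coeff 0 y1 = 1 := by simp [y1, ys_HsF2]
  have c2' : PowerSeries.coeff 0 y2 = 1 := by simp [y2, ys_HsF2]
  have cy : PowerSeries.constantCoeff (y1 * y2) ≠ 0 := by
    rw [map_mul, ← PowerSeries.coeff_zero_eq_constantCoeff_apply,
      ← PowerSeries.coeff_zero_eq_constantCoeff_apply, c1', c2']
    simp
  obtain ⟨Z, hZ⟩ : ∃ Z, B = y1 * y2 * Z :=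
    ⟨(y1 * y2)⁻¹ * B, by rw [← mul_assoc, PowerSeries.mul_inv_cancel _ cy, one_mul]⟩
  set TZ := PowerSeries.X * PowerSeries.derivative K Z + PowerSeries.C xi * Z with hTZ
  have hy : IntS_HsF2 v (y1 * y2) :=
    intS_mul_HsF2 hv (ys_int_HsF2 hv hA ht1) (ys_int_HsF2 hv hA2 ht2)
  have key : (PowerSeries.C 1 + PowerSeries.X * PowerSeries.C (-t1)) *
      (PowerSeries.C 1 + PowerSeries.X * PowerSeries.C (-t2)) * (y1 * y2) * TZ =
        PowerSeries.C c0 + PowerSeries.X * PowerSeries.C c1 := by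
    have hd : PowerSeries.derivative K B = y1 * y2 * PowerSeries.derivative K Z +
        Z * (y1 * PowerSeries.derivative K y2 + y2 * PowerSeries.derivative K y1) := by
      rw [hZ]; simp only [Derivation.leibniz, smul_eq_mul]
    rw [hTB, hd, hZ] at hode
    simp only [map_mul, map_add, map_neg, map_one] at hode o1 o2 ⊢
    rw [hTZ]
    linear_combination hode -
      PowerSeries.X * Z * y2 * (1 - PowerSeries.X * PowerSeries.C t2) * o1 -
      PowerSeries.X * Z * y1 * (1 - PowerSeries.X * PowerSeries.C t1) * o2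
  have hP : IntS_HsF2 v ((PowerSeries.C 1 + PowerSeries.X * PowerSeries.C (-t1)) *
      (PowerSeries.C 1 + PowerSeries.X * PowerSeries.C (-t2)) * (y1 * y2)) :=
    intS_mul_HsF2 hv (intS_mul_HsF2 hv (intS_lin_HsF2 (by simp) (by simpa using ht1))
      (intS_lin_HsF2 (by simp) (by simpa using ht2))) hy
  have hN : IntS_HsF2 v TZ := intS_cancel_HsF2 hv hP (by
    rw [PowerSeries.coeff_zero_eq_constantCoeff_apply] at c1' c2' ⊢
    simp [c1', c2']) (key ▸ intS_lin_HsF2 hc0 hc1)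
  have hZb : ∀ j, j ≤ i → v (PowerSeries.coeff j Z) * M ≤ 1 := fun j hji => by
    have := hN j
    rw [hTZ, hth, map_mul, mul_comm] at this
    exact (mul_le_mul_of_nonneg_left (hj j hji) (v.nonneg _)).trans this
  have hβ : β i = ∑ x ∈ antidiagonal i,
      PowerSeries.coeff x.1 (y1 * y2) * PowerSeries.coeff x.2 Z := by
    rw [← PowerSeries.coeff_mul, ← hZ, hB, PowerSeries.coeff_mk]
  obtain ⟨x, hx, hle⟩ := hv.finset_image_add (by simp) v.nonneg (fun x : ℕ × ℕ =>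
    PowerSeries.coeff x.1 (y1 * y2) * PowerSeries.coeff x.2 Z) (antidiagonal i)
  have hx' := mem_antidiagonal.1 (hx ⟨(0, i), by simp⟩)
  rw [hβ]
  refine (mul_le_mul_of_nonneg_right hle hM).trans ?_
  rw [map_mul, mul_assoc]
  exact mul_le_one₀ (hy _) (mul_nonneg (v.nonneg _) hM) (hZb _ (by omega))

theorem neu_seq (hv : IsNonarchimedean v) {p : ℕ} (hp : p.Prime)
    (hvn : ∀ n : ℕ, n ≠ 0 → v n = v p ^ padicValNat p n) (hvp : v p < 1) (D : Par K 2)
    (pos : D.Pos) (ha : ¬p ∣ D.a) {t1 t2 A : K} (h1 : D.al = t1 + t2)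
    (h2 : D.ga * (D.a : K) ^ 2 = -(t1 * t2)) (ht1 : v t1 ≤ 1) (ht2 : v t2 ≤ 1)
    (hth : D.a * (A * (t1 - t2)) = D.a * D.be - D.al * D.b 0 - ((D.b 1 : K) - D.b 0 + D.a) * t2)
    (hA : Apx v A) {u : ℕ → K} (hu : ∀ n : ℕ, u (n + 2) = D.p n * u (n + 1) + D.q n * u n)
    (u0 : v (u 0) ≤ 1) (u1 : v (u 1) ≤ 1) {i X : ℕ} (hX : D.a * i + D.b 0 ≤ X) :
    v (u (i + 1)) * v p ^ Nat.log p X ≤ v (i.factorial) := by
  have ha0 : (D.a : K) ≠ 0 := by exact_mod_cast pos.1.ne'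
  have hva : v (D.a : K) = 1 := by
    rw [hvn _ pos.1.ne', padicValNat.eq_zero_of_not_dvd ha, pow_zero]
  obtain ⟨xi, hxi⟩ : ∃ xi : K, (D.b 0 : K) = D.a * xi := ⟨D.b 0 / D.a, by field_simp⟩
  obtain ⟨et, het⟩ : ∃ et : K, (D.b 1 : K) = D.a * et := ⟨D.b 1 / D.a, by field_simp⟩
  have vxi : v xi ≤ 1 := by
    have := v_nat_le hv (D.b 0); rwa [hxi, map_mul, hva, one_mul] at this
  have vet : v et ≤ 1 := by
    have := v_nat_le hv (D.b 1); rwa [het, map_mul, hva, one_mul] at this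
  have hA2 : Apx v (et - xi + 1 - A) := by
    have h := (apx_rat (v := v) hv hp hvp ha ((D.b 1 : ℤ) - D.b 0 + D.a)).sub hv hA
    have e : (((D.b 1 : ℤ) - D.b 0 + D.a : ℤ) : K) / D.a = et - xi + 1 := by
      push_cast; rw [hxi, het]; field_simp
    rwa [e] at h
  have hbe : D.be = (t1 + t2) * xi + (A * t1 + (et - xi + 1 - A) * t2) := by
    rw [hxi, het, h1] at hth
    apply mul_left_cancel₀ ha0
    linear_combination -hth
  have hpp : ∀ x : K, D.p x = (t1 + t2) * (x + xi) + (A * t1 + (et - xi + 1 - A) * t2) :=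
    fun x => by rw [Par.p, h1, hbe]; ring
  have hqq : ∀ x : K, D.q x = -(t1 * t2) * (x + xi) * (x + et) := fun x => by
    rw [Par.q, Fin.prod_univ_two, hxi, het, ← h2]; ring
  have hnat : ∀ j : ℕ, (j : K) + xi = ((D.a * j + D.b 0 : ℕ) : K) / D.a := fun j => by
    push_cast; rw [hxi]; field_simp
  have hb0 := pos.2 0
  have hne : ∀ j : ℕ, (j : K) + xi ≠ 0 := fun j => by
    rw [hnat]; exact div_ne_zero (by exact_mod_cast (by omega : D.a * j + D.b 0 ≠ 0)) ha0
  have hvj : ∀ j : ℕ, v ((j : K) + xi) = v ((D.a * j + D.b 0 : ℕ) : K) := fun j => by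
    rw [hnat, map_div₀, hva, div_one]
  set π : ℕ → K := fun i => ∏ l ∈ range i, (((1 + l : ℕ) : K) + xi) with hπ
  have hπs : ∀ i, π (i + 1) = π i * (i + 1 + xi) := fun i => by
    simp only [hπ, prod_range_succ]; push_cast; ring
  have hπ0 : ∀ i, π i ≠ 0 := fun i => prod_ne_zero_iff.2 fun l _ => hne _
  have hne1 : ∀ j : ℕ, (j : K) + 1 + xi ≠ 0 := fun j => by simpa using hne (j + 1)
  have vp0 : 0 ≤ v (p : K) := v.nonneg _
  have core := core_HsF2 (β := fun i => u (i + 1) / π i) (xi := xi) (c0 := xi * u 1)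
    (c1 := -(t1 * t2) * xi * et * u 0) hv ht1 ht2 hA hA2
    (by rw [map_mul]; exact mul_le_one₀ vxi (v.nonneg _) u1)
    (mul_mem (S := Subring K) (s := intR hv)
      (mul_mem (mul_mem (neg_mem (mul_mem ht1 ht2)) vxi) vet) u0)
    (by simp [hπ])
    (by
      have e := hu 0
      have e1 := hπs 0
      have e0 : π 0 = 1 := by simp [hπ]
      have n1 := hne1 0
      simp only [Nat.cast_zero, zero_add, hpp, hqq] at e e1 n1 ⊢
      rw [e1, e0, one_mul, div_one, mul_div_cancel₀ _ n1, e])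
    (fun i => by
      have e := hu (i + 1)
      have n0 := hπ0 i
      have n1 := hne1 i
      have n2 : (i : K) + 2 + xi ≠ 0 := by
        have := hne1 (i + 1); push_cast at this; rwa [add_assoc (i : K), one_add_one_eq_two] at this
      have e2 : π (i + 2) = π i * (i + 1 + xi) * (i + 2 + xi) := by
        rw [hπs, hπs]; push_cast; ring
      rw [hpp, hqq] at e
      rw [e2, hπs, e]
      push_cast
      field_simp
      ring)
    (i := i) (M := v p ^ Nat.log p X) (pow_nonneg vp0 _) (fun j hj => by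
      rw [hvj, hvn (D.a * j + D.b 0) (by omega)]
      refine pow_le_pow_of_le_one vp0 hvp.le ((padicValNat_le_nat_log _).trans ?_)
      exact Nat.log_mono_right ((Nat.add_le_add_right (Nat.mul_le_mul_left _ hj) _).trans hX))
  have hvπ : v (π i) ≤ v (i.factorial) := by
    have e : v (π i) = v ((∏ l ∈ range i, (D.a * (1 + l) + D.b 0) : ℕ) : K) := by
      rw [Nat.cast_prod, map_prod, map_prod]
      exact prod_congr rfl fun l _ => hvj _
    rw [e, hvn _ (prod_ne_zero_iff.2 fun l _ => by omega), hvn _ i.factorial_ne_zero]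
    exact pow_le_pow_of_le_one vp0 hvp.le (win_lower hp ha hb0 1 i)
  have e : v (u (i + 1)) = v (π i) * v (u (i + 1) / π i) := by
    rw [← map_mul, mul_div_cancel₀ _ (hπ0 i)]
  rw [e, mul_assoc]
  exact (mul_le_of_le_one_right (v.nonneg _) core).trans hvπ

theorem neu_W (hv : IsNonarchimedean v) {p : ℕ} (hp : p.Prime)
    (hvn : ∀ n : ℕ, n ≠ 0 → v n = v p ^ padicValNat p n) (hvp : v p < 1) (D : Par K 2)
    (pos : D.Pos) (ha : ¬p ∣ D.a) {t1 t2 A : K} (h1 : D.al = t1 + t2)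
    (h2 : D.ga * (D.a : K) ^ 2 = -(t1 * t2)) (ht1 : v t1 ≤ 1) (ht2 : v t2 ≤ 1)
    (hth : D.a * (A * (t1 - t2)) = D.a * D.be - D.al * D.b 0 - ((D.b 1 : K) - D.b 0 + D.a) * t2)
    (hA : Apx v A) {j X : ℕ} (hX : D.a * j + D.b 0 ≤ X) (r s : Fin 2) :
    v (D.W 0 j r s) * v p ^ (2 * Nat.log p X) ≤ v (j.factorial) := by
  obtain ⟨u, hu, hW⟩ := W_seq D 0 s
  simp only [zero_add] at hu
  have vp0 : 0 ≤ v (p : K) := v.nonneg _
  have hone : ∀ r : Fin 2, v (D.W 0 0 r s) ≤ 1 := fun r => by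
    rw [Par.W_zero, Matrix.one_apply]; split_ifs <;> simp
  have u0 : v (u 0) ≤ 1 := (hW 0).2 ▸ hone 1
  have u1 : v (u 1) ≤ 1 := (hW 0).1 ▸ hone 0
  have hL : v (p : K) ^ Nat.log p X ≤ 1 := pow_le_one₀ vp0 hvp.le
  have hL0 : 0 ≤ v (p : K) ^ Nat.log p X := pow_nonneg vp0 _
  rw [two_mul, pow_add, ← mul_assoc]
  have hr : r = 0 ∨ r = 1 := by omega
  rcases hr with rfl | rfl
  · rw [(hW j).1]
    exact (mul_le_of_le_one_right (mul_nonneg (v.nonneg _) hL0) hL).trans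
      (neu_seq hv hp hvn hvp D pos ha h1 h2 ht1 ht2 hth hA hu u0 u1 hX)
  · rw [(hW j).2]
    rcases j with _ | j
    · simp only [Nat.factorial_zero, Nat.cast_one, map_one]
      exact mul_le_one₀ (mul_le_one₀ u0 hL0 hL) hL0 hL
    · have hX' : D.a * j + D.b 0 ≤ X :=
        (Nat.add_le_add_right (Nat.mul_le_mul_left _ j.le_succ) _).trans hX
      have h := neu_seq hv hp hvn hvp D pos ha h1 h2 ht1 ht2 hth hA hu u0 u1 hX'
      have hj : v (p : K) ^ Nat.log p X ≤ v ((j + 1 : ℕ) : K) := by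
        rw [hvn _ j.succ_ne_zero]
        refine pow_le_pow_of_le_one vp0 hvp.le ((padicValNat_le_nat_log _).trans ?_)
        refine Nat.log_mono_right (le_trans ?_ hX)
        exact (Nat.le_mul_of_pos_left _ pos.1).trans (Nat.le_add_right _ _)
      rw [Nat.factorial_succ, Nat.cast_mul, map_mul, mul_comm (v ((j + 1 : ℕ) : K))]
      exact mul_le_mul h hj hL0 (v.nonneg _)

end Pool.Agent.P.MP_68214b_ag
end

-- part Pool.Agent.P.MP_68214b_ag.HsG1
section

open Polynomial Finset Matrix NumberField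

namespace Pool.Agent.P.MP_68214b_ag

/-- a root of the minimal polynomial in another domain comes from a prime ideal -/
theorem prime_of_root_HsG1 {K : Type} [Field K] [NumberField K] (a : 𝓞 K) {F : Type} [Field F]
    {r : F} (hr : aeval r (minpoly ℤ a) = 0) :
    ∃ Q : Ideal (𝓞 K), Q.IsPrime ∧ ∀ g : ℤ[X], aeval a g ∈ Q ↔ aeval r g = 0 := by
  have hint : IsIntegral ℤ a := Algebra.IsIntegral.isIntegral a
  let : Algebra ℤ[X] (𝓞 K) := (aeval a : ℤ[X] →ₐ[ℤ] 𝓞 K).toRingHom.toAlgebra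
  have : IsScalarTower ℤ ℤ[X] (𝓞 K) :=
    IsScalarTower.of_algebraMap_eq' (Subsingleton.elim _ _)
  have : Algebra.IsIntegral ℤ[X] (𝓞 K) :=
    ⟨fun x => (Algebra.IsIntegral.isIntegral (R := ℤ) x).tower_top⟩
  have : (RingHom.ker (aeval r : ℤ[X] →ₐ[ℤ] F).toRingHom).IsPrime := RingHom.ker_isPrime _
  obtain ⟨Q, -, hQ, hQ'⟩ := Ideal.exists_ideal_over_prime_of_isIntegral
    (RingHom.ker (aeval r : ℤ[X] →ₐ[ℤ] F).toRingHom) (⊥ : Ideal (𝓞 K)) (by
      intro g hg
      have hg' : aeval a g = 0 := hg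
      obtain ⟨h, rfl⟩ := minpoly.isIntegrallyClosed_dvd hint hg'
      change aeval r (minpoly ℤ a * h) = 0
      rw [map_mul, hr, zero_mul])
  refine ⟨Q, hQ, fun g => ?_⟩
  have : g ∈ Q.comap (algebraMap ℤ[X] (𝓞 K)) ↔
      g ∈ RingHom.ker (aeval r : ℤ[X] →ₐ[ℤ] F).toRingHom := by rw [hQ']
  exact this

/-- a polynomial of degree at least two with simple roots has two roots -/
theorem two_roots_HsG1 {F : Type} [Field F] [IsAlgClosed F] {f : F[X]} (h2 : 2 ≤ f.natDegree)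
    (hs : ∀ r, f.eval r = 0 → f.derivative.eval r ≠ 0) :
    ∃ r s, r ≠ s ∧ f.eval r = 0 ∧ f.eval s = 0 := by
  have h0 : f.degree ≠ 0 := fun h => by
    have := natDegree_eq_zero_iff_degree_le_zero.2 h.le
    omega
  obtain ⟨r, hr⟩ := IsAlgClosed.exists_root f h0
  obtain ⟨h, hh⟩ := dvd_iff_isRoot.2 hr
  have hf0 : f ≠ 0 := by rintro rfl; simp at h2
  have hh0 : h ≠ 0 := by rintro rfl; exact hf0 (by simpa using hh)
  have hd : f.natDegree = 1 + h.natDegree := by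
    rw [hh, natDegree_mul (X_sub_C_ne_zero r) hh0, natDegree_X_sub_C]
  have h1 : h.degree ≠ 0 := fun h' => by
    have := natDegree_eq_zero_iff_degree_le_zero.2 h'.le
    omega
  obtain ⟨s, hs'⟩ := IsAlgClosed.exists_root h h1
  have hs0 : h.eval s = 0 := hs'
  refine ⟨r, s, fun e => hs r hr ?_, hr, by rw [hh, eval_mul, hs0, mul_zero]⟩
  subst e
  rw [hh, derivative_mul]
  simp [hs0]

theorem closure_poly_HsG1 {K : Type} [Field K] {x y : K} (hy : y ∈ Subring.closure {x}) :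
    ∃ g : ℤ[X], aeval x g = y := by
  induction hy using Subring.closure_induction with
  | mem y hy => exact ⟨X, by rw [aeval_X]; exact hy.symm⟩
  | zero => exact ⟨0, map_zero _⟩
  | one => exact ⟨1, map_one _⟩
  | add x y _ _ hx hy =>
    obtain ⟨g, rfl⟩ := hx
    obtain ⟨h, rfl⟩ := hy
    exact ⟨g + h, map_add _ _ _⟩
  | neg x _ hx =>
    obtain ⟨g, rfl⟩ := hx
    exact ⟨-g, map_neg _ _⟩
  | mul x y _ _ hx hy =>
    obtain ⟨g, rfl⟩ := hx
    obtain ⟨h, rfl⟩ := hy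
    exact ⟨g * h, map_mul _ _ _⟩

theorem aeval_coe_HsG1 {K : Type} [Field K] (a : 𝓞 K) (g : ℤ[X]) :
    algebraMap (𝓞 K) K (aeval a g) = aeval (algebraMap (𝓞 K) K a) g :=
  (aeval_algHom_apply (algebraMap (𝓞 K) K).toIntAlgHom a g).symm

/-- the ideal of the subfield below a prime at which the generator is an integer -/
theorem norm_below_HsG1 {K : Type} [Field K] [NumberField K] (a : 𝓞 K) {D p : ℕ} [Fact p.Prime]
    (hpD : ¬p ∣ D)
    (hD : ∀ x : 𝓞 (IntermediateField.adjoin ℚ {algebraMap (𝓞 K) K a}),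
      (D : K) * ((x : IntermediateField.adjoin ℚ {algebraMap (𝓞 K) K a}) : K) ∈
        Subring.closure {algebraMap (𝓞 K) K a})
    {F : Type} [Field F] [CharP F p] (φ : 𝓞 K →+* F) {z : ℤ} (hz : φ a = z) :
    Ideal.absNorm (RingHom.ker (φ.comp
      (algebraMap (𝓞 (IntermediateField.adjoin ℚ {algebraMap (𝓞 K) K a})) (𝓞 K)))) = p := by
  rw [Ideal.absNorm_apply, Submodule.cardQuot_apply]
  refine Ch.upChebA_card _ fun x => ?_
  obtain ⟨g, hg⟩ := closure_poly_HsG1 (hD x)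
  have h1 : aeval a g = (D : 𝓞 K) * algebraMap _ (𝓞 K) x := by
    apply RingOfIntegers.coe_injective
    rw [aeval_coe_HsG1, hg, map_mul, map_natCast]
    rfl
  have h2 : φ (aeval a g) = ((g.eval z : ℤ) : F) := by
    have h3 := aeval_algHom_apply φ.toIntAlgHom a g
    have h4 := aeval_algHom_apply (Int.castRingHom F).toIntAlgHom z g
    simp only [RingHom.toIntAlgHom_coe, eq_intCast, coe_aeval_eq_eval] at h3 h4
    rw [← h3, hz, h4]
  have hD0 : (D : F) ≠ 0 := fun h => hpD ((CharP.cast_eq_zero_iff F p D).1 h)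
  rw [h1, map_mul, map_natCast] at h2
  refine (Subfield.mem_bot_iff_pow_eq_self F p).1 ?_
  have h5 : φ (algebraMap _ (𝓞 K) x) = ((g.eval z : ℤ) : F) / D := by
    rw [← h2, mul_div_cancel_left₀ _ hD0]
  change φ (algebraMap _ (𝓞 K) x) ∈ _
  rw [h5]
  exact div_mem (intCast_mem _ _) (natCast_mem _ _)

theorem two_le_nI {K : Type} [Field K] [NumberField K] {A : K} (hA : ∀ q : ℚ, A ≠ q) :
    ∃ (E : Type) (_ : Field E) (_ : NumberField E) (B : ℕ), ∀ p : ℕ, p.Prime → B < p →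
      (∀ v : FinitePlace K, pv v = p → ∃ z : ℤ, v (A - z) < 1) → 2 ≤ Ch.nI E p := by
  have hal : IsAlgebraic ℤ A :=
    (IsFractionRing.isAlgebraic_iff ℤ ℚ K).2 (Algebra.IsAlgebraic.isAlgebraic A)
  obtain ⟨c, hc0, hc⟩ := hal.exists_integral_multiple
  let a : 𝓞 K := ⟨c • A, hc⟩
  have ha : algebraMap (𝓞 K) K a = c * A := zsmul_eq_mul A c
  have hint : IsIntegral ℤ a := Algebra.IsIntegral.isIntegral a
  have hcK : (c : K) ≠ 0 := Int.cast_ne_zero.2 hc0
  have h2 : 2 ≤ (minpoly ℤ a).natDegree := by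
    rw [minpoly.two_le_natDegree_iff hint]
    rintro ⟨n, hn⟩
    apply hA ((n : ℚ) / c)
    have := congrArg (algebraMap (𝓞 K) K) hn
    rw [ha, eq_intCast, map_intCast] at this
    push_cast
    rw [this, mul_div_cancel_left₀ _ hcK]
  have hder : aeval a (derivative (minpoly ℤ a)) ≠ 0 := by
    intro h
    have h0 : derivative (minpoly ℤ a) ≠ 0 := fun h' => by
      have := derivative_eq_zero.1 h'
      omega
    have h1 := natDegree_le_of_dvd (minpoly.isIntegrallyClosed_dvd hint h) h0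
    have h3 := natDegree_derivative_lt (p := minpoly ℤ a) (by omega)
    omega
  obtain ⟨B, hB⟩ := big_unit (x := algebraMap (𝓞 K) K (aeval a (derivative (minpoly ℤ a))))
    (fun h => hder (RingOfIntegers.coe_injective (h.trans (map_zero _).symm)))
  obtain ⟨D, hD0, hD⟩ := Ch.upChebB_index ({algebraMap (𝓞 K) K a} : Set K)
  refine ⟨IntermediateField.adjoin ℚ {algebraMap (𝓞 K) K a}, inferInstance, inferInstance,
    max B D, fun p hp hBp hv => ?_⟩
  have : Fact p.Prime := ⟨hp⟩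
  have hpD : ¬p ∣ D := fun h => by
    have := Nat.le_of_dvd (Nat.pos_of_ne_zero hD0) h
    omega
  let aE : 𝓞 (IntermediateField.adjoin ℚ {algebraMap (𝓞 K) K a}) :=
    ⟨⟨algebraMap (𝓞 K) K a, IntermediateField.mem_adjoin_simple_self ℚ _⟩,
      (isIntegral_algHom_iff
        (algebraMap (IntermediateField.adjoin ℚ {algebraMap (𝓞 K) K a}) K).toIntAlgHom
        Subtype.val_injective).1 hc⟩
  have haE : algebraMap _ (𝓞 K) aE = a := RingOfIntegers.coe_injective rfl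
  have key : ∀ r : AlgebraicClosure (ZMod p), aeval r (minpoly ℤ a) = 0 →
      aeval r (derivative (minpoly ℤ a)) ≠ 0 ∧
      ∃ (I : Ideal (𝓞 (IntermediateField.adjoin ℚ {algebraMap (𝓞 K) K a}))) (z : ℤ),
        Ideal.absNorm I = p ∧ aE - z ∈ I ∧ ∀ w : ℤ, aE - w ∈ I → r = w := by
    intro r hr
    obtain ⟨Q, hQ, hQr⟩ := prime_of_root_HsG1 a hr
    have hpQ : (p : 𝓞 K) ∈ Q := by
      have := (hQr (p : ℤ[X])).2 (by rw [map_natCast]; exact CharP.cast_eq_zero _ p)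
      rwa [map_natCast] at this
    have hQ0 : Q ≠ ⊥ := by
      rintro rfl
      exact hp.ne_zero (Nat.cast_eq_zero.1 (Ideal.mem_bot.1 hpQ))
    have : Q.IsMaximal := hQ.isMaximal hQ0
    let : Field (𝓞 K ⧸ Q) := Ideal.Quotient.field Q
    have : CharP (𝓞 K ⧸ Q) p := by
      rw [CharP.charP_iff_prime_eq_zero hp, ← map_natCast (Ideal.Quotient.mk Q)]
      exact Ideal.Quotient.eq_zero_iff_mem.2 hpQ
    obtain ⟨v, hvp, hvQ⟩ := exists_of_hom hp (Ideal.Quotient.mk Q)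
    refine ⟨fun h => ?_, ?_⟩
    · have h1 := (hvQ _).1 (Ideal.Quotient.eq_zero_iff_mem.2 ((hQr _).2 h))
      rw [hB v (by omega)] at h1
      exact lt_irrefl _ h1
    obtain ⟨z, hz⟩ := hv v hvp
    have h1 : Ideal.Quotient.mk Q (a - (c * z : ℤ)) = 0 := by
      rw [hvQ]
      have e : algebraMap (𝓞 K) K (a - (c * z : ℤ)) = algebraMap (𝓞 K) K c * (A - z) := by
        rw [map_sub, ha, map_intCast, map_intCast]; push_cast; ring
      rw [e, map_mul]
      exact mul_lt_one_of_nonneg_of_lt_one_right (v_ring_le v _) (apply_nonneg _ _) hz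
    have h3 : Ideal.Quotient.mk Q a = ((c * z : ℤ) : 𝓞 K ⧸ Q) := by
      rwa [map_sub, map_intCast, sub_eq_zero] at h1
    refine ⟨_, c * z, norm_below_HsG1 a hpD hD (Ideal.Quotient.mk Q) h3, ?_, fun w hw => ?_⟩
    · rw [RingHom.mem_ker, RingHom.comp_apply, map_sub, haE, map_intCast]
      exact h1
    · rw [RingHom.mem_ker, RingHom.comp_apply, map_sub, haE, map_intCast,
        Ideal.Quotient.eq_zero_iff_mem] at hw
      have := (hQr (X - (w : ℤ[X]))).1 (by rwa [map_sub, aeval_X, map_intCast])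
      rwa [map_sub, aeval_X, map_intCast, sub_eq_zero] at this
  obtain ⟨r, s, hrs, hr, hs⟩ := two_roots_HsG1
    (f := (minpoly ℤ a).map (algebraMap ℤ (AlgebraicClosure (ZMod p))))
    (by rwa [(minpoly.monic hint).natDegree_map]) (fun r hr => by
      rw [derivative_map, eval_map_algebraMap]
      rw [eval_map_algebraMap] at hr
      exact (key r hr).1)
  rw [eval_map_algebraMap] at hr hs
  obtain ⟨I, z, hI, hz, hIr⟩ := (key r hr).2
  obtain ⟨J, w, hJ, -, hJs⟩ := (key s hs).2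
  have hfin := (Ideal.finite_setOfPred_absNorm_eq
    (S := 𝓞 (IntermediateField.adjoin ℚ {algebraMap (𝓞 K) K a})) p).to_subtype
  refine (@Finite.one_lt_card_iff_nontrivial _ hfin).2 ⟨⟨I, hI⟩, ⟨J, hJ⟩, fun h => hrs ?_⟩
  have e : I = J := congrArg Subtype.val h
  rw [hIr z hz, hJs z (e ▸ hz)]

end Pool.Agent.P.MP_68214b_ag
end

-- part Pool.Agent.P.MP_68214b_ag.HsG2
section

open Polynomial Finset Matrix NumberField

namespace Pool.Agent.P.MP_68214b_ag

variable {K : Type} [Field K] [NumberField K]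

theorem Div.mono {O O' : FinitePlace K → Prop} (h : Div O) (B : ℕ)
    (hB : ∀ v, B < pv v → O v → O' v) : Div O' := by
  intro B' M
  obtain ⟨T, hT, hM⟩ := h (max B B') M
  refine ⟨T, fun p hp => ?_, hM⟩
  obtain ⟨h1, v, hv, hO⟩ := hT p hp
  refine ⟨lt_of_le_of_lt (le_max_right _ _) h1, v, hv, hB v ?_ hO⟩
  rw [hv]
  exact lt_of_le_of_lt (le_max_left _ _) h1

theorem rpow_le_HsG2 {r : ℕ} (hr : r.Prime) (j : ℕ) :
    (r : ℝ) ^ (-(1 + (2 : ℝ)⁻¹ ^ j)) ≤ 1 / r := by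
  have r1 : (1 : ℝ) ≤ r := by exact_mod_cast hr.one_le
  have hx : 0 < (2 : ℝ)⁻¹ ^ j := by positivity
  have h : (r : ℝ) ^ (-(1 + (2 : ℝ)⁻¹ ^ j)) ≤ (r : ℝ) ^ (-1 : ℝ) :=
    Real.rpow_le_rpow_of_exponent_le r1 (by linarith)
  rw [Real.rpow_neg_one] at h
  rwa [one_div]

theorem lower_HsG2 (B : ℕ) : ∃ C : ℝ, ∀ j : ℕ, ∃ R : Finset ℕ, (∀ r ∈ R, r.Prime ∧ B < r) ∧
    (j : ℝ) / 2 - C ≤ ∑ r ∈ R, (r : ℝ) ^ (-(1 + (2 : ℝ)⁻¹ ^ j)) := by
  obtain ⟨C, hC⟩ := Ch.prime_sum_lower (N := 1) (c := 1) isUnit_one B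
  refine ⟨C, fun j => ?_⟩
  obtain ⟨R, hR, hS⟩ := hC j
  refine ⟨R, fun r hr => ⟨(hR r hr).1, (hR r hr).2.1⟩, ?_⟩
  simpa using hS

theorem div_all : Div fun _ : FinitePlace K => True := by
  intro B M
  obtain ⟨C, hC⟩ := lower_HsG2 B
  obtain ⟨j, hj⟩ := exists_nat_ge (2 * (M + C))
  obtain ⟨R, hR, hS⟩ := hC j
  refine ⟨R, fun p hp => ⟨(hR p hp).2, ?_⟩, ?_⟩
  · obtain ⟨v, hv⟩ := exists_pv (K := K) (hR p hp).1
    exact ⟨v, hv, trivial⟩
  · have h1 : ∑ r ∈ R, (r : ℝ) ^ (-(1 + (2 : ℝ)⁻¹ ^ j)) ≤ ∑ p ∈ R, (1 : ℝ) / p :=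
      Finset.sum_le_sum fun r hr => rpow_le_HsG2 (hR r hr).1 j
    linarith

theorem div_irr {A : K} (hA : ∀ q : ℚ, A ≠ q) :
    Div fun v : FinitePlace K => ∀ z : ℤ, 1 ≤ v (A - z) := by
  classical
  obtain ⟨E, iF, iN, B0, hE⟩ := two_le_nI hA
  intro B M
  by_contra hn
  push Not at hn
  obtain ⟨C, hC⟩ := lower_HsG2 (max B B0)
  obtain ⟨C', hC'⟩ := Ch.prod_upper E
  have hZ : Summable fun n : ℕ => 1 / (n : ℝ) ^ 2 := Real.summable_one_div_nat_pow.2 (by norm_num)
  set Z : ℝ := ∑' n : ℕ, 1 / (n : ℝ) ^ 2 with hZd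
  have key : ∀ᶠ j : ℕ in Filter.atTop,
      (Real.exp 1 / 2) ^ j ≤ C' * Real.exp (2 * (C + M) + 4 * Z) := by
    filter_upwards [hC'] with j hj
    obtain ⟨R, hR, hS⟩ := hC j
    set G : ℕ → Prop := fun p => ∃ v : FinitePlace K, pv v = p ∧ ∀ z : ℤ, 1 ≤ v (A - z) with hG
    have hT := hn (R.filter G) fun p hp => by
      obtain ⟨h1, h2⟩ := Finset.mem_filter.1 hp
      exact ⟨lt_of_le_of_lt (le_max_left _ _) (hR p h1).2, h2⟩
    set R' : Finset ℕ := R.filter fun p => ¬ G p with hR'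
    have hR1 : ∀ r ∈ R', r.Prime := fun r hr => (hR r (Finset.mem_filter.1 hr).1).1
    have hR2 : ∀ r ∈ R', 2 ≤ Ch.nI E r := by
      intro r hr
      obtain ⟨h1, h2⟩ := Finset.mem_filter.1 hr
      refine hE r (hR r h1).1 (lt_of_le_of_lt (le_max_right _ _) (hR r h1).2) fun v hv => ?_
      by_contra h3
      push Not at h3
      exact h2 ⟨v, hv, h3⟩
    have h1 := hj R' hR1
    have hsplit := Finset.sum_filter_add_sum_filter_not R G
      (fun r : ℕ => (r : ℝ) ^ (-(1 + (2 : ℝ)⁻¹ ^ j)))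
    have hT2 : ∑ r ∈ R.filter G, (r : ℝ) ^ (-(1 + (2 : ℝ)⁻¹ ^ j)) ≤
        ∑ p ∈ R.filter G, (1 : ℝ) / p :=
      Finset.sum_le_sum fun r hr => rpow_le_HsG2 (hR r (Finset.mem_filter.1 hr).1).1 j
    have hlow : (j : ℝ) / 2 - C - M ≤ ∑ r ∈ R', (r : ℝ) ^ (-(1 + (2 : ℝ)⁻¹ ^ j)) := by
      rw [hR']
      linarith
    have hrp := fun r (hr : r ∈ R') => rpow_le_HsG2 (hR1 r hr) j
    set x : ℝ := 1 + (2 : ℝ)⁻¹ ^ j with hx
    have h2 : Real.exp (∑ r ∈ R', (2 * (r : ℝ) ^ (-x) - 4 * (1 / (r : ℝ) ^ 2))) ≤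
        ∏ r ∈ R', (1 + (Ch.nI E r : ℝ) * (r : ℝ) ^ (-x)) := by
      rw [Real.exp_sum]
      apply Finset.prod_le_prod (fun r _ => (Real.exp_pos _).le)
      intro r hr
      have t0 : 0 ≤ (r : ℝ) ^ (-x) := by positivity
      have t1 : (r : ℝ) ^ (-x) ≤ 1 / r := hrp r hr
      have t2 : ((r : ℝ) ^ (-x)) ^ 2 ≤ 1 / (r : ℝ) ^ 2 := by
        rw [← _root_.one_div_pow]; exact pow_le_pow_left₀ t0 t1 2
      have t3 : (2 : ℝ) ≤ Ch.nI E r := by exact_mod_cast hR2 r hr
      calc _ ≤ Real.exp (2 * (r : ℝ) ^ (-x) - (2 * (r : ℝ) ^ (-x)) ^ 2) := by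
            apply Real.exp_le_exp.2
            rw [mul_pow]
            nlinarith
        _ ≤ 1 + 2 * (r : ℝ) ^ (-x) := Ch.UpChebD_exp (by positivity)
        _ ≤ _ := by nlinarith [mul_le_mul_of_nonneg_right t3 t0]
    have h3 : ∑ r ∈ R', 1 / (r : ℝ) ^ 2 ≤ Z := hZ.sum_le_tsum _ fun n _ => by positivity
    have h4 : (j : ℝ) - (2 * (C + M) + 4 * Z) ≤
        ∑ r ∈ R', (2 * (r : ℝ) ^ (-x) - 4 * (1 / (r : ℝ) ^ 2)) := by
      rw [Finset.sum_sub_distrib, ← Finset.mul_sum, ← Finset.mul_sum]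
      linarith
    have h5 := (Real.exp_le_exp.2 h4).trans (h2.trans h1)
    rw [Real.exp_sub, div_le_iff₀ (Real.exp_pos _), ← Real.exp_one_pow] at h5
    rw [div_pow, div_le_iff₀ (by positivity)]
    linarith
  have h6 : 1 < Real.exp 1 / 2 := by
    rw [one_lt_div (by norm_num)]
    linarith [Real.exp_one_gt_d9]
  obtain ⟨j, h7, h8⟩ := (key.and ((tendsto_pow_atTop_atTop_of_one_lt h6).eventually_gt_atTop
    (C' * Real.exp (2 * (C + M) + 4 * Z)))).exists
  linarith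

end Pool.Agent.P.MP_68214b_ag
end

-- part Pool.Agent.P.MP_68214b_ag.HsN1
section

open Polynomial Finset Matrix NumberField Filter

namespace Pool.Agent.P.MP_68214b_ag

variable {K : Type} [Field K] [NumberField K]

theorem trace_map_HsN1 {A B : Type} [CommRing A] [CommRing B] {κ : ℕ} (D : Par A κ)
    (f : A →+* B) (m : ℕ) : f (D.W 0 m).trace = ((D.map f).W 0 m).trace := by
  rw [trace_fin_two, trace_fin_two, map_add, Par.W_map_apply, Par.W_map_apply, map_zero]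

theorem ord_HsN1 {κ : ℕ} (D : Par (𝓞 K) κ) (v : FinitePlace K) {F : Type} [Field F]
    (φ : 𝓞 K →+* F) (hφ : ∀ x, φ x = 0 ↔ v (algebraMap (𝓞 K) K x) < 1)
    (h : ((D.map φ).W 0 (pv v)).trace ≠ 0) : D.Ord v := by
  rw [← trace_map_HsN1, Ne, hφ, not_lt] at h
  unfold Par.Ord Par.toK
  rw [← trace_map_HsN1]
  exact le_antisymm (v_ring_le v _) h

theorem cast_ne_HsN1 {F : Type} [Field F] {p a : ℕ} [CharP F p] (ha : 0 < a) (h : a < p) :
    (a : F) ≠ 0 := fun h0 =>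
  absurd (Nat.le_of_dvd ha ((CharP.cast_eq_zero_iff F p a).1 h0)) (not_le.2 h)

theorem fam_H (D : Par (𝓞 K) 1) (pos : D.Pos) (hal : D.al = 0) (hbe : D.be ≠ 0) :
    ∃ B : ℕ, ∀ v : FinitePlace K, B < pv v → D.Ord v := by
  have hbe' : algebraMap (𝓞 K) K D.be ≠ 0 :=
    fun h => hbe ((FaithfulSMul.algebraMap_injective (𝓞 K) K) (by rw [h, map_zero]))
  obtain ⟨B, hB⟩ := big_unit hbe'
  refine ⟨max B (max D.a 2), fun v hv => ?_⟩
  have h1 : B < pv v := lt_of_le_of_lt (le_max_left _ _) hv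
  have h2 : D.a < pv v := lt_of_le_of_lt ((le_max_left _ _).trans (le_max_right _ _)) hv
  have h3 : 2 < pv v := lt_of_le_of_lt ((le_max_right _ _).trans (le_max_right _ _)) hv
  obtain ⟨F, iF, iC, φ, hφ⟩ := exists_res v
  refine ord_HsN1 D v φ hφ ?_
  rw [trace_H (pv_prime v) h3.ne' (D.map φ) (by simp [hal]) (cast_ne_HsN1 pos.1 h2)]
  refine pow_ne_zero _ fun h => ?_
  rw [Par.map_be, hφ, hB v h1] at h
  exact lt_irrefl _ h

theorem ordM_HsN1 (D : Par (𝓞 K) 2) (pos : D.Pos) {t1 t2 th : 𝓞 K} (h1 : D.al = t1 + t2)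
    (h2 : D.ga * (D.a : 𝓞 K) ^ 2 = -(t1 * t2))
    (hth : D.a * th = D.a * D.be - D.al * D.b 0 - ((D.b 1 : 𝓞 K) - D.b 0 + D.a) * t2)
    (v : FinitePlace K) (hv : D.a < pv v)
    (h : ∀ l : ℕ, 1 ≤ v (algebraMap (𝓞 K) K (th + l * (t1 - t2)))) : D.Ord v := by
  obtain ⟨F, iF, iC, φ, hφ⟩ := exists_res v
  refine ord_HsN1 D v φ hφ ?_
  have e1 : (D.map φ).al = φ t1 + φ t2 := by rw [Par.map_al, h1, map_add]
  have e2 : (D.map φ).ga * ((D.map φ).a : F) ^ 2 = -(φ t1 * φ t2) := by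
    have := congrArg φ h2
    simpa using this
  have e3 : ((D.map φ).a : F) * φ th = (D.map φ).a * (D.map φ).be - (D.map φ).al * (D.map φ).b 0
      - (((D.map φ).b 1 : F) - (D.map φ).b 0 + (D.map φ).a) * φ t2 := by
    have := congrArg φ hth
    simpa using this
  rw [trace_M (pv_prime v) (D.map φ) e1 e2 (cast_ne_HsN1 pos.1 hv) e3]
  refine prod_ne_zero_iff.2 fun l _ h0 => ?_
  have h3 : φ (th + l * (t1 - t2)) = 0 := by simpa using h0
  exact absurd ((hφ _).1 h3) (not_lt.2 (h l))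

theorem fam_M (D : Par (𝓞 K) 2) (pos : D.Pos) {t1 t2 th : 𝓞 K} (h1 : D.al = t1 + t2)
    (h2 : D.ga * (D.a : 𝓞 K) ^ 2 = -(t1 * t2))
    (hth : D.a * th = D.a * D.be - D.al * D.b 0 - ((D.b 1 : 𝓞 K) - D.b 0 + D.a) * t2)
    (hirr : ∀ q : ℚ, algebraMap (𝓞 K) K th ≠ q * algebraMap (𝓞 K) K (t1 - t2)) :
    (∃ B : ℕ, ∀ v : FinitePlace K, B < pv v → D.Ord v ∨ D.Neu v) ∧ Div D.Ord := by
  by_cases hd : algebraMap (𝓞 K) K (t1 - t2) = 0
  · have hth0 : algebraMap (𝓞 K) K th ≠ 0 := by simpa using hirr 0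
    obtain ⟨B, hB⟩ := big_unit hth0
    have key : ∀ v : FinitePlace K, max B D.a < pv v → D.Ord v := fun v hv => by
      refine ordM_HsN1 D pos h1 h2 hth v (lt_of_le_of_lt (le_max_right _ _) hv) fun l => ?_
      rw [map_add, map_mul, hd, mul_zero, add_zero, hB v (lt_of_le_of_lt (le_max_left _ _) hv)]
    exact ⟨⟨_, fun v hv => Or.inl (key v hv)⟩, div_all.mono _ fun v hv _ => key v hv⟩
  · obtain ⟨A, hA⟩ : ∃ A : K, algebraMap (𝓞 K) K th = A * algebraMap (𝓞 K) K (t1 - t2) :=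
      ⟨_, (div_mul_cancel₀ _ hd).symm⟩
    have hAq : ∀ q : ℚ, A ≠ q := fun q h => hirr q (by rw [hA, h])
    obtain ⟨B1, hB1⟩ := big_unit hd
    obtain ⟨B2, hB2⟩ := apx_place A
    have key : ∀ v : FinitePlace K, max (max B1 B2) D.a < pv v → (∀ z : ℤ, 1 ≤ v (A - z)) →
        D.Ord v := fun v hv hz => by
      refine ordM_HsN1 D pos h1 h2 hth v (lt_of_le_of_lt (le_max_right _ _) hv) fun l => ?_
      have e : algebraMap (𝓞 K) K (th + l * (t1 - t2)) =
          (A - ((-(l : ℤ) : ℤ) : K)) * algebraMap (𝓞 K) K (t1 - t2) := by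
        rw [map_add, map_mul, hA, map_natCast]; push_cast; ring
      rw [e, map_mul, hB1 v (lt_of_le_of_lt ((le_max_left _ _).trans (le_max_left _ _)) hv),
        mul_one]
      exact hz _
    refine ⟨⟨max (max B1 B2) D.a, fun v hv => ?_⟩, (div_irr hAq).mono _ key⟩
    by_cases hz : ∀ z : ℤ, 1 ≤ v (A - z)
    · exact Or.inl (key v hv hz)
    · right
      push Not at hz
      have hap : Apx v.1 A :=
        (hB2 v (lt_of_le_of_lt ((le_max_right _ _).trans (le_max_left _ _)) hv)).2 hz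
      have hna : ¬pv v ∣ D.toK.a := fun h =>
        absurd (Nat.le_of_dvd pos.1 h) (not_le.2 (lt_of_le_of_lt (le_max_right _ _) hv))
      have e1 : D.toK.al = algebraMap (𝓞 K) K t1 + algebraMap (𝓞 K) K t2 := by
        rw [Par.toK, Par.map_al, h1, map_add]
      have e2 : D.toK.ga * (D.toK.a : K) ^ 2 =
          -(algebraMap (𝓞 K) K t1 * algebraMap (𝓞 K) K t2) := by
        have := congrArg (algebraMap (𝓞 K) K) h2
        rw [map_mul, map_pow, map_natCast, map_neg, map_mul] at this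
        exact this
      have e3 : (D.toK.a : K) * (A * (algebraMap (𝓞 K) K t1 - algebraMap (𝓞 K) K t2)) =
          D.toK.a * D.toK.be - D.toK.al * D.toK.b 0 -
            ((D.toK.b 1 : K) - D.toK.b 0 + D.toK.a) * algebraMap (𝓞 K) K t2 := by
        have := congrArg (algebraMap (𝓞 K) K) hth
        rw [map_mul, hA, map_sub, map_sub, map_sub, map_mul, map_mul, map_mul, map_add, map_sub,
          map_natCast, map_natCast, map_natCast] at this
        exact this
      intro j X hX r s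
      have h := neu_W (fin_na v) (pv_prime v) (fun n hn => v_nat v hn) (v_pv_lt v) D.toK pos hna
        e1 e2 (v_ring_le v t1) (v_ring_le v t2) e3 hap (hX 0) r s
      have h0 : 0 ≤ v.1 (D.toK.W 0 j r s) * v.1 (pv v) ^ (2 * Nat.log (pv v) X) :=
        mul_nonneg (v.1.nonneg _) (pow_nonneg (v.1.nonneg _) _)
      have h3 := pow_le_pow_left₀ h0 h 2
      rw [mul_pow, ← pow_mul, show 2 * Nat.log (pv v) X * 2 = 4 * Nat.log (pv v) X by ring] at h3
      exact h3

end Pool.Agent.P.MP_68214b_ag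
end

-- part Pool.Agent.P.MP_68214b_ag.HsN2
section

open Polynomial Finset Matrix NumberField Filter

namespace Pool.Agent.P.MP_68214b_ag

variable {K : Type} [Field K] [NumberField K]

theorem growth_of {κ : ℕ} (D : Par (𝓞 K) κ) (ok : D.Ok) (pos : D.Pos) (hga : D.ga ≠ 0)
    {U : ℕ → Fin 2 → K} (orb : D.toK.Orb U) (int : ∀ i, IsIntegral ℤ (U 0 i)) (ne : U 0 ≠ 0)
    (h : ∃ B : ℕ, ∀ v : FinitePlace K, B < pv v → D.Ord v ∨ D.Neu v) (div : Div D.Ord)
    {C : ℝ} (hC : 1 ≤ C) : ∀ᶠ n : ℕ in atTop, C ^ n < Height.mulHeight (U n) := by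
  obtain ⟨B1, h1⟩ := h
  have hga' : D.toK.ga ≠ 0 := fun h0 =>
    hga (RingOfIntegers.coe_injective (h0.trans (map_zero _).symm))
  obtain ⟨B2, h2⟩ := big_unit hga'
  obtain ⟨i, hi⟩ : ∃ i, U 0 i ≠ 0 := Function.ne_iff.1 ne
  obtain ⟨B3, h3⟩ := big_unit hi
  refine Ctx.growth ⟨D, U, B1 + B2 + B3 + D.a + 2, ok, pos, hga, orb, int, ne, by omega,
    fun v hv => ⟨h2 v (by omega), fun hd => ?_, ?_, h1 v (by omega)⟩, div⟩ hC
  · have := Nat.le_of_dvd pos.1 hd
    omega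
  · have a0 := v_integral_le v (int 0)
    have a1 := v_integral_le v (int 1)
    have a2 := h3 v (by omega)
    refine le_antisymm (max_le a0 a1) ?_
    rw [← a2]
    fin_cases i
    · exact le_max_left _ _
    · exact le_max_right _ _

theorem mult_HsN2 (x y z : K) : ∃ c X Y Z : 𝓞 K, algebraMap (𝓞 K) K c ≠ 0 ∧
    algebraMap (𝓞 K) K X = algebraMap (𝓞 K) K c * x ∧
    algebraMap (𝓞 K) K Y = algebraMap (𝓞 K) K c * y ∧
    algebraMap (𝓞 K) K Z = algebraMap (𝓞 K) K c * z := by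
  classical
  obtain ⟨c, hc, H⟩ := exists_integral_multiples ℤ ℚ ({x, y, z} : Finset K)
  refine ⟨(c : 𝓞 K), ⟨c • x, H x (by simp)⟩, ⟨c • y, H y (by simp)⟩, ⟨c • z, H z (by simp)⟩,
    ?_, ?_, ?_, ?_⟩
  · rw [map_intCast]; exact_mod_cast hc
  all_goals
    rw [map_intCast, ← zsmul_eq_mul]
    rfl

theorem den_HsN2 {r s : ℚ} (hr : 0 < r) (hs : 0 < s) : ∃ a b0 b1 : ℕ, 0 < a ∧ 0 < b0 ∧ 0 < b1 ∧
    (b0 : K) = (r : K) * a ∧ (b1 : K) = (s : K) * a := by
  have key : ∀ {t : ℚ}, 0 < t → ∃ b : ℕ, 0 < b ∧ (b : ℚ) = t * t.den := by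
    intro t ht
    have h1 : 0 < t.num := Rat.num_pos.2 ht
    refine ⟨t.num.toNat, by omega, ?_⟩
    rw [Rat.mul_den_eq_num]
    have : ((t.num.toNat : ℕ) : ℤ) = t.num := Int.toNat_of_nonneg h1.le
    exact_mod_cast this
  obtain ⟨b, hb, eb⟩ := key hr
  obtain ⟨b', hb', eb'⟩ := key hs
  have e1 : (b : K) = (r : K) * r.den := by exact_mod_cast congrArg (Rat.cast : ℚ → K) eb
  have e2 : (b' : K) = (s : K) * s.den := by exact_mod_cast congrArg (Rat.cast : ℚ → K) eb'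
  refine ⟨r.den * s.den, b * s.den, b' * r.den, Nat.mul_pos r.den_pos s.den_pos,
    Nat.mul_pos hb s.den_pos, Nat.mul_pos hb' r.den_pos, ?_, ?_⟩
  · push_cast; rw [e1]; ring
  · push_cast; rw [e2]; ring

theorem rescale_HsN2 {κ : ℕ} (D : Par (𝓞 K) κ) (ok : D.Ok) (pos : D.Pos) (hga : D.ga ≠ 0)
    (h : ∃ B : ℕ, ∀ v : FinitePlace K, B < pv v → D.Ord v ∨ D.Neu v) (div : Div D.Ord)
    {la : K} (hla : la ≠ 0) {u : ℕ → K}
    (hu : ∀ n : ℕ, la ^ 2 * u (n + 2) = D.toK.p n * (la * u (n + 1)) + D.toK.q n * u n)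
    (h0 : u 0 ≠ 0 ∨ u 1 ≠ 0) {C : ℝ} (hC : 1 ≤ C) :
    ∀ᶠ n : ℕ in atTop, C ^ n < Height.mulHeight ![u (n + 1), u n] := by
  obtain ⟨c, X, Y, -, hc, hX, hY, -⟩ := mult_HsN2 (la * u 1) (u 0) 0
  set e := algebraMap (𝓞 K) K c with he
  let U : ℕ → Fin 2 → K := fun n => (e * la ^ n) • (![la, 1] * ![u (n + 1), u n])
  have U0 : ∀ n, U n 0 = e * la ^ n * (la * u (n + 1)) := fun n => by simp [U]
  have U1 : ∀ n, U n 1 = e * la ^ n * u n := fun n => by simp [U]
  have orb : D.toK.Orb U := by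
    intro j
    ext i
    fin_cases i
    · have : (D.toK.T j *ᵥ U j) 0 = D.toK.p j * U j 0 + D.toK.q j * U j 1 := by
        simp [Par.T, mulVec, dotProduct, Fin.sum_univ_two]
      refine (U0 (j + 1)).trans (Eq.trans ?_ this.symm)
      rw [U0, U1]
      linear_combination e * la ^ j * hu j
    · have : (D.toK.T j *ᵥ U j) 1 = U j 0 := by
        simp [Par.T, mulVec, dotProduct, Fin.sum_univ_two]
      refine (U1 (j + 1)).trans (Eq.trans ?_ this.symm)
      rw [U0]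
      ring
  have int : ∀ i, IsIntegral ℤ (U 0 i) := by
    intro i
    fin_cases i
    · have : U 0 0 = algebraMap (𝓞 K) K X := by rw [U0, hX]; simp
      exact this ▸ RingOfIntegers.isIntegral_coe X
    · have : U 0 1 = algebraMap (𝓞 K) K Y := by rw [U1, hY]; simp
      exact this ▸ RingOfIntegers.isIntegral_coe Y
  have ne : U 0 ≠ 0 := by
    intro hz
    have a0 := U0 0
    have a1 := U1 0
    rw [hz] at a0 a1
    rcases h0 with h0 | h0
    · exact mul_ne_zero (mul_ne_zero hc (pow_ne_zero _ hla)) h0 a1.symm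
    · exact mul_ne_zero (mul_ne_zero hc (pow_ne_zero _ hla)) (mul_ne_zero hla h0) a0.symm
  set H := Height.mulHeight (![la, 1] : Fin 2 → K) with hH
  have H1 : 1 ≤ H := Height.one_le_mulHeight _
  filter_upwards [growth_of D ok pos hga orb int ne h div (one_le_mul_of_one_le_of_one_le hC H1),
    eventually_ge_atTop 1] with n hn n1
  have b1 : Height.mulHeight (U n) ≤ H * Height.mulHeight ![u (n + 1), u n] := by
    simp only [U]
    rw [Height.mulHeight_smul_eq_mulHeight _ (mul_ne_zero hc (pow_ne_zero _ hla))]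
    exact Height.mulHeight_mul_le _ _
  have b2 : H ≤ H ^ n := le_self_pow₀ H1 (by omega)
  have b3 : H * C ^ n ≤ (C * H) ^ n := by
    rw [mul_pow, mul_comm]
    exact mul_le_mul_of_nonneg_left b2 (by positivity)
  exact lt_of_mul_lt_mul_left (b3.trans_lt (hn.trans_le b1)) (by positivity)

theorem growth_H {β γ : K} (hβ : β ≠ 0) (hγ : γ ≠ 0) {r : ℚ} (hr : 0 < r) {u : ℕ → K}
    (hu : ∀ n : ℕ, u (n + 2) = β * u (n + 1) + γ * (n + r) * u n) (h0 : u 0 ≠ 0 ∨ u 1 ≠ 0)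
    {C : ℝ} (hC : 1 ≤ C) : ∀ᶠ n : ℕ in atTop, C ^ n < Height.mulHeight ![u (n + 1), u n] := by
  obtain ⟨c, X, Y, -, hc, hX, hY, -⟩ := mult_HsN2 β γ 0
  obtain ⟨a, b0, -, ha, hb, -, e0, -⟩ := den_HsN2 (K := K) hr hr
  have ha' : (a : K) ≠ 0 := by exact_mod_cast ha.ne'
  let D : Par (𝓞 K) 1 := ⟨0, a * X, c * a * Y, a, fun _ => b0⟩
  have pos : D.Pos := ⟨ha, fun _ => hb⟩
  have hbe : D.be ≠ 0 := fun hz => by
    have : algebraMap (𝓞 K) K (a * X) = 0 := by rw [show (a : 𝓞 K) * X = 0 from hz, map_zero]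
    rw [map_mul, map_natCast, hX] at this
    exact mul_ne_zero ha' (mul_ne_zero hc hβ) this
  have hga : D.ga ≠ 0 := fun hz => by
    have : algebraMap (𝓞 K) K (c * a * Y) = 0 := by
      rw [show c * (a : 𝓞 K) * Y = 0 from hz, map_zero]
    rw [map_mul, map_mul, map_natCast, hY] at this
    exact mul_ne_zero (mul_ne_zero hc ha') (mul_ne_zero hc hγ) this
  obtain ⟨B, hB⟩ := fam_H D pos rfl hbe
  refine rescale_HsN2 D (Or.inl ⟨rfl, rfl⟩) pos hga ⟨B, fun v hv => Or.inl (hB v hv)⟩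
    (div_all.mono B fun v hv _ => hB v hv) (mul_ne_zero hc ha') (fun n => ?_) h0 hC
  have ep : D.toK.p n = a * (algebraMap (𝓞 K) K c * β) := by
    simp only [Par.p, Par.toK, Par.map, D, map_zero, zero_mul, zero_add, map_mul, map_natCast, hX]
  have eq : D.toK.q n =
      algebraMap (𝓞 K) K c * a * (algebraMap (𝓞 K) K c * γ) * (a * n + r * a) := by
    simp only [Par.q, Par.toK, Par.map, D, map_mul, map_natCast, hY, e0, Fin.prod_univ_one]
  rw [ep, eq, hu n]
  ring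

theorem growth_M {t1 t2 β : K} (h1 : t1 ≠ 0) (h2 : t2 ≠ 0) {r s : ℚ} (hr : 0 < r) (hs : 0 < s)
    (hirr : ∀ q : ℚ, β - r * t1 - (s + 1) * t2 ≠ q * (t1 - t2)) {u : ℕ → K}
    (hu : ∀ n : ℕ,
      u (n + 2) = ((t1 + t2) * n + β) * u (n + 1) - t1 * t2 * (n + r) * (n + s) * u n)
    (h0 : u 0 ≠ 0 ∨ u 1 ≠ 0) {C : ℝ} (hC : 1 ≤ C) :
    ∀ᶠ n : ℕ in atTop, C ^ n < Height.mulHeight ![u (n + 1), u n] := by
  obtain ⟨c, X, Y, Z, hc, hX, hY, hZ⟩ := mult_HsN2 t1 t2 β
  obtain ⟨a, b0, b1, ha, hb0, hb1, e0, e1⟩ := den_HsN2 (K := K) hr hs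
  have ha' : (a : K) ≠ 0 := by exact_mod_cast ha.ne'
  let D : Par (𝓞 K) 2 := ⟨a * X + a * Y, a * Z, -(X * Y), a, ![b0, b1]⟩
  have pos : D.Pos := ⟨ha, fun i => by fin_cases i <;> simpa [D]⟩
  have hga : D.ga ≠ 0 := fun hz => by
    have : algebraMap (𝓞 K) K (-(X * Y)) = 0 := by rw [show -(X * Y) = 0 from hz, map_zero]
    rw [map_neg, map_mul, hX, hY, neg_eq_zero] at this
    exact mul_ne_zero (mul_ne_zero hc h1) (mul_ne_zero hc h2) this
  obtain ⟨hB, hD⟩ := fam_M D pos (t1 := a * X) (t2 := a * Y)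
    (th := a * Z - b0 * X - (b1 + a) * Y) rfl
    (by change -(X * Y) * (a : 𝓞 K) ^ 2 = _; ring)
    (by
      change (a : 𝓞 K) * _ = a * (a * Z) - (a * X + a * Y) * b0 - ((b1 : 𝓞 K) - b0 + a) * (a * Y)
      ring)
    (fun q hq => hirr q (by
      simp only [map_sub, map_mul, map_add, map_natCast, hX, hY, hZ, e0, e1] at hq
      refine mul_left_cancel₀ (mul_ne_zero hc ha') ?_
      linear_combination hq))
  refine rescale_HsN2 D (Or.inr rfl) pos hga hB hD (mul_ne_zero hc ha') (fun n => ?_) h0 hC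
  have ep : D.toK.p n = (a * (algebraMap (𝓞 K) K c * t1) + a * (algebraMap (𝓞 K) K c * t2)) * n +
      a * (algebraMap (𝓞 K) K c * β) := by
    simp only [Par.p, Par.toK, Par.map, D, map_add, map_mul, map_natCast, hX, hY, hZ]
  have eq : D.toK.q n = -(algebraMap (𝓞 K) K c * t1 * (algebraMap (𝓞 K) K c * t2)) *
      ((a * n + r * a) * (a * n + s * a)) := by
    simp only [Par.q, Par.toK, Par.map, D, map_neg, map_mul, hX, hY, Fin.prod_univ_two,
      Matrix.cons_val_zero, Matrix.cons_val_one, e0, e1]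
  rw [ep, eq, hu n]
  ring

end Pool.Agent.P.MP_68214b_ag
end

-- part Pool.Agent.P.MP_68214b_ag.HsN3
section

open Polynomial Finset Matrix NumberField Filter

namespace Pool.Agent.P.MP_68214b_ag

section aux
open Height
variable {K : Type} [Field K] [NumberField K]

theorem ht_root_HsN3 (k : ℕ) (c : ℕ → K) (hc : ∃ j ≤ k, c j ≠ 0) {Y Z : K}
    (h : ∑ j ∈ range (k + 1), c j * Y ^ j * Z ^ (k - j) = 0) :
    mulHeight ![Y, Z] ≤
      (k + 1 : ℝ) ^ Module.finrank ℚ K * ∏ j ∈ range (k + 1), mulHeight₁ (c j) := by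
  obtain ⟨j, hj, h0⟩ := hc
  refine (ht_root (c := fun i : Fin (k + 1) => c i)
    (Function.ne_iff.2 ⟨⟨j, by omega⟩, h0⟩) (by rwa [sum_range] at h)).trans
    (mul_le_mul_of_nonneg_left ?_ (by positivity))
  rw [prod_range]
  simp only [mulHeight₁_eq_mulHeight]
  rw [← mulHeight_fun_prod_eq (ι := fun _ => Fin 2) fun i => pair_ne _]
  refine le_of_eq_of_le ?_ (mulHeight_comp_le (fun i l => if l = i then (0 : Fin 2) else 1) _)
  congr 1
  ext i
  rw [Function.comp_apply, prod_eq_single i (fun l _ hl => by simp [hl]) (by simp)]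
  simp

/-- at most exponential -/
def Ex_HsN3 (f : ℕ → ℝ) : Prop := ∃ C : ℝ, 1 ≤ C ∧ ∀ᶠ n : ℕ in atTop, f n ≤ C ^ n

theorem ex_const_HsN3 (c : ℝ) : Ex_HsN3 fun _ => c :=
  ⟨2, one_le_two, (tendsto_pow_atTop_atTop_of_one_lt one_lt_two).eventually_ge_atTop c⟩

theorem ex_mul_HsN3 {f g : ℕ → ℝ} (g0 : ∀ n, 0 ≤ g n) (hf : Ex_HsN3 f) (hg : Ex_HsN3 g) :
    Ex_HsN3 fun n => f n * g n := by
  obtain ⟨C, C1, hC⟩ := hf
  obtain ⟨D, D1, hD⟩ := hg
  refine ⟨C * D, one_le_mul_of_one_le_of_one_le C1 D1, ?_⟩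
  filter_upwards [hC, hD] with n h1 h2
  rw [mul_pow]
  exact mul_le_mul h1 h2 (g0 n) (by positivity)

theorem ex_le_HsN3 {f g : ℕ → ℝ} (h : ∀ n, f n ≤ g n) (hg : Ex_HsN3 g) : Ex_HsN3 f :=
  hg.imp fun _ hC => ⟨hC.1, hC.2.mono fun n hn => (h n).trans hn⟩

theorem ex_add_HsN3 {a b : ℕ → K} (ha : Ex_HsN3 fun n => mulHeight₁ (a n))
    (hb : Ex_HsN3 fun n => mulHeight₁ (b n)) : Ex_HsN3 fun n => mulHeight₁ (a n + b n) :=
  ex_le_HsN3 (fun _ => mulHeight₁_add_le _ _)
    (ex_mul_HsN3 (fun _ => mulHeight₁_nonneg _)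
      (ex_mul_HsN3 (fun _ => mulHeight₁_nonneg _) (ex_const_HsN3 _) ha) hb)

theorem ex_mul'_HsN3 {a b : ℕ → K} (ha : Ex_HsN3 fun n => mulHeight₁ (a n))
    (hb : Ex_HsN3 fun n => mulHeight₁ (b n)) : Ex_HsN3 fun n => mulHeight₁ (a n * b n) :=
  ex_le_HsN3 (fun _ => mulHeight₁_mul_le _ _) (ex_mul_HsN3 (fun _ => mulHeight₁_nonneg _) ha hb)

theorem ex_nat_HsN3 : Ex_HsN3 fun n : ℕ => mulHeight₁ (n : K) := by
  refine ⟨2 ^ Module.finrank ℚ K, one_le_pow₀ one_le_two, ?_⟩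
  filter_upwards [eventually_gt_atTop 0] with n hn
  refine (ht_nat hn).trans ?_
  rw [← pow_mul, mul_comm, pow_mul]
  exact pow_le_pow_left₀ (by positivity) (by exact_mod_cast n.lt_two_pow_self.le) _

theorem ex_eval_HsN3 (x : K) (p : K[X]) : Ex_HsN3 fun n : ℕ => mulHeight₁ (p.eval (x + n)) := by
  induction p using Polynomial.induction_on with
  | C a => simpa using ex_const_HsN3 (mulHeight₁ a)
  | add p q hp hq => simpa using ex_add_HsN3 hp hq
  | monomial e a h =>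
    have := ex_mul'_HsN3 h (ex_add_HsN3 (a := fun _ => x) (ex_const_HsN3 _) ex_nat_HsN3)
    simpa [pow_succ, mul_assoc] using this

theorem ex_prod_HsN3 (c : ℝ) (k : ℕ) (a : ℕ → ℕ → K)
    (h : ∀ j, Ex_HsN3 fun n => mulHeight₁ (a j n)) :
    Ex_HsN3 fun n => c * ∏ j ∈ range k, mulHeight₁ (a j n) := by
  induction k with
  | zero => simpa using ex_const_HsN3 c
  | succ k ih =>
    simp only [prod_range_succ, ← mul_assoc]
    exact ex_mul_HsN3 (fun _ => mulHeight₁_nonneg _) ih (h k)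

end aux

theorem cone_K {K : Type} [Field K] [NumberField K] (x : K) {U : ℕ → Fin 2 → K}
    (hG : ∀ C : ℝ, 1 ≤ C → ∀ᶠ n : ℕ in atTop, C ^ n < Height.mulHeight (U n)) {k : ℕ}
    {c : ℕ → K[X]} (hc : ∃ i ≤ k, c i ≠ 0) :
    ∀ᶠ n : ℕ in atTop, hev k (fun i => (c i).eval (x + n)) (U n) ≠ 0 := by
  obtain ⟨i, hi, q0⟩ := hc
  obtain ⟨C, C1, hC⟩ := ex_prod_HsN3 ((k + 1 : ℝ) ^ Module.finrank ℚ K) (k + 1)
    (fun j n => (c j).eval (x + n)) fun j => ex_eval_HsN3 x (c j)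
  have h3 : ∀ᶠ n : ℕ in atTop, (c i).eval (x + n) ≠ 0 := by
    rw [← Nat.cofinite_eq_atTop, eventually_cofinite]
    refine (((c i).rootSet_finite K).preimage (f := fun n : ℕ => x + (n : K))
      fun a _ b _ h => by simpa using h).subset fun n hn => ?_
    simpa [Polynomial.mem_rootSet, q0] using hn
  filter_upwards [hG C C1, hC, h3] with n g1 g2 g3 h
  have := ht_root_HsN3 k (fun j => (c j).eval (x + n)) ⟨i, hi, g3⟩ (Y := U n 0) (Z := U n 1) h
  rw [show ![U n 0, U n 1] = U n by ext l; fin_cases l <;> rfl] at this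
  exact absurd (this.trans g2) (not_le.2 g1)

theorem form_coeff {F : MvPolynomial (Fin 3) ℂ} {k : ℕ}
    (hF : F.IsWeightedHomogeneous ![0, 1, 1] k) (h0 : F ≠ 0) :
    ∃ c : ℕ → ℂ[X], (∃ i ≤ k, c i ≠ 0) ∧
      ∀ x y z, MvPolynomial.eval ![x, y, z] F = hev k (fun i => (c i).eval x) ![y, z] := by
  classical
  have hw : ∀ m ∈ F.support, m 1 + m 2 = k := fun m hm => by
    have := hF (MvPolynomial.mem_support_iff.1 hm)
    rw [Finsupp.weight_apply, Finsupp.sum_fintype _ _ (by simp), Fin.sum_univ_three] at this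
    simpa using this
  obtain ⟨m0, hm0⟩ := MvPolynomial.support_nonempty.2 h0
  refine ⟨fun i => ∑ m ∈ F.support, if m 1 = i then Polynomial.monomial (m 0) (F.coeff m) else 0,
    ⟨m0 1, by have := hw m0 hm0; omega, fun h => ?_⟩, fun x y z => ?_⟩
  · have := congrArg (fun p => Polynomial.coeff p (m0 0)) h
    simp only [Polynomial.finsetSum_coeff, Polynomial.coeff_zero] at this
    rw [sum_eq_single m0 (fun m hm1 hm => ?_) (fun h => absurd hm0 h)] at this
    · simp at this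
      exact MvPolynomial.mem_support_iff.1 hm0 this
    · split_ifs with h
      · refine Polynomial.coeff_monomial_of_ne _ fun h' => hm ?_
        ext i; fin_cases i
        · exact h'.symm
        · exact h
        · change m 2 = m0 2
          have := hw m hm1
          have := hw m0 hm0
          omega
      · simp
  · rw [MvPolynomial.eval_eq', hev]
    simp only [Polynomial.eval_finsetSum, sum_mul]
    rw [sum_comm]
    refine sum_congr rfl fun m hm => ?_
    have h1 := hw m hm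
    rw [sum_eq_single (m 1) (fun l _ hl => by simp [hl.symm]) fun h => absurd
      (mem_range.2 (by omega)) h]
    simp [Fin.prod_univ_three, show k - m 1 = m 2 by omega]
    ring

end Pool.Agent.P.MP_68214b_ag
end

-- part Pool.Agent.P.MP_68214b_ag.HsN4
section

open Polynomial Finset Matrix NumberField Filter

namespace Pool.Agent.P.MP_68214b_ag

theorem nhds_generic_HsN4 {Y : Type} [TopologicalSpace Y] (ξ : Y)
    (hξ : ∀ U : Set Y, IsOpen U → U.Nonempty → ξ ∈ U) {s : Set Y}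
    (hs : Topology.IsConstructible s) : s ∈ nhds ξ ∨ sᶜ ∈ nhds ξ := by
  induction hs using Topology.IsConstructible.empty_union_induction with
  | open_retrocompact U hU _ =>
    rcases U.eq_empty_or_nonempty with rfl | h
    · right; simp
    · exact Or.inl (hU.mem_nhds (hξ U hU h))
  | union s _ t _ hs ht =>
    rcases hs with hs | hs
    · exact Or.inl (mem_of_superset hs Set.subset_union_left)
    rcases ht with ht | ht
    · exact Or.inl (mem_of_superset ht Set.subset_union_right)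
    · right; rw [Set.compl_union]; exact inter_mem hs ht
  | compl s _ hs => rw [compl_compl]; exact hs.symm

theorem poly_trans_HsN4 {R : Type} [CommRing R] [IsDomain R] [Algebra ℚ R]
    [Algebra.FiniteType ℚ R] {a : R} (ha : Transcendental ℚ a) :
    ∃ g : ℚ[X], (∀ q : ℚ, g.eval q ≠ 0) ∧ ¬IsUnit (aeval a g) := by
  let φ : ℚ[X] →+* R := (aeval a : ℚ[X] →ₐ[ℚ] R).toRingHom
  have hinj : Function.Injective φ := transcendental_iff_injective.1 ha
  have hft : φ.FiniteType := by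
    refine RingHom.FiniteType.of_comp_finiteType (f := algebraMap ℚ ℚ[X]) ?_
    have : φ.comp (algebraMap ℚ ℚ[X]) = algebraMap ℚ R := Subsingleton.elim _ _
    rw [this]
    exact RingHom.finiteType_algebraMap.2 inferInstance
  have hfp : φ.FinitePresentation := RingHom.FinitePresentation.of_finiteType.1 hft
  have hc := PrimeSpectrum.isConstructible_range_comap hfp
  let ξ : PrimeSpectrum ℚ[X] := ⟨⊥, Ideal.isPrime_bot⟩
  have hξ : ∀ U : Set (PrimeSpectrum ℚ[X]), IsOpen U → U.Nonempty → ξ ∈ U := by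
    rintro U hU ⟨x, hx⟩
    exact ((PrimeSpectrum.le_iff_specializes ξ x).1 bot_le).mem_open hU hx
  have hmem : ξ ∈ Set.range (PrimeSpectrum.comap φ) := by
    refine ⟨⟨⊥, Ideal.isPrime_bot⟩, PrimeSpectrum.ext ?_⟩
    exact Ideal.comap_bot_of_injective φ hinj
  have hn : Set.range (PrimeSpectrum.comap φ) ∈ nhds ξ :=
    (nhds_generic_HsN4 ξ hξ hc).resolve_right fun h => (mem_of_mem_nhds h) hmem
  obtain ⟨_, ⟨f, rfl⟩, hf, hsub⟩ := PrimeSpectrum.isTopologicalBasis_basic_opens.mem_nhds_iff.1 hn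
  have hf0 : f ≠ 0 := by
    intro h
    exact (PrimeSpectrum.mem_basicOpen f ξ).1 hf (by simp [ξ, h])
  refine ⟨(X * f) ^ 2 + 1, fun q => ?_, fun hu => ?_⟩
  · rw [eval_add, eval_pow, eval_one]; positivity
  have hg : ¬IsUnit ((X * f) ^ 2 + 1 : ℚ[X]) := by
    intro h
    obtain ⟨c, -, hc⟩ := Polynomial.isUnit_iff.1 h
    have h1 : c = 1 := by simpa using congrArg (eval 0) hc
    rw [h1, C_1, right_eq_add] at hc
    exact mul_ne_zero X_ne_zero hf0 (pow_eq_zero_iff two_ne_zero |>.1 hc)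
  obtain ⟨n, hn, hle⟩ := Ideal.exists_le_maximal (Ideal.span {((X * f) ^ 2 + 1 : ℚ[X])})
    (by rwa [Ne, Ideal.span_singleton_eq_top])
  have hgn : (X * f) ^ 2 + 1 ∈ n := hle (Ideal.mem_span_singleton_self _)
  have hfn : f ∉ n := by
    intro h
    apply hn.ne_top
    rw [Ideal.eq_top_iff_one]
    have h2 : (X * f) ^ 2 ∈ n := Ideal.pow_mem_of_mem n (n.mul_mem_left X h) 2 two_pos
    simpa using n.sub_mem hgn h2
  obtain ⟨p, hp⟩ := hsub (show (⟨n, hn.isPrime⟩ : PrimeSpectrum ℚ[X]) ∈ _ from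
    (PrimeSpectrum.mem_basicOpen f _).2 hfn)
  have hp' : p.asIdeal.comap φ = n := congrArg PrimeSpectrum.asIdeal hp
  rw [← hp', Ideal.mem_comap] at hgn
  exact p.2.ne_top (Ideal.eq_top_of_isUnit_mem _ hgn hu)

theorem poly_HsN4 {R : Type} [CommRing R] [IsDomain R] [Algebra ℚ R]
    [Algebra.FiniteType ℚ R] {a : R} (ha : ∀ q : ℚ, a ≠ algebraMap ℚ R q) :
    ∃ g : ℚ[X], (∀ q : ℚ, g.eval q ≠ 0) ∧ ¬IsUnit (aeval a g) := by
  by_cases h : IsAlgebraic ℚ a
  · have hi : IsIntegral ℚ a := h.isIntegral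
    refine ⟨minpoly ℚ a, fun q hq => ?_, by rw [minpoly.aeval]; exact not_isUnit_zero⟩
    obtain ⟨c, hc⟩ := minpoly.mem_range_of_degree_eq_one ℚ a
      (degree_eq_one_of_irreducible_of_root (minpoly.irreducible hi) hq)
    exact ha c hc.symm
  · exact poly_trans_HsN4 h

theorem spec_irr (T : Finset ℂ) {A : ℂ} (hA : ∀ q : ℚ, A ≠ q) :
    ∃ (R : Subalgebra ℚ ℂ) (K : Type) (_ : Field K) (_ : NumberField K) (ψ : R →+* K),
      (∀ x ∈ T, x ∈ R) ∧ (∀ x : R, x.1 ∈ T → x ≠ 0 → ψ x ≠ 0) ∧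
      ∃ h : A ∈ R, ∀ q : ℚ, ψ ⟨A, h⟩ ≠ q := by
  classical
  let R := Algebra.adjoin ℚ ((insert A (T ∪ T.image (·⁻¹)) : Finset ℂ) : Set ℂ)
  have : Algebra.FiniteType ℚ R := (Subalgebra.fg_iff_finiteType _).1 (Subalgebra.fg_adjoin_finset _)
  have hAR : A ∈ R := Algebra.subset_adjoin (by simp)
  obtain ⟨g, hg, hu⟩ := poly_HsN4 (R := R) (a := ⟨A, hAR⟩) fun q hq =>
    hA q (by simpa using congrArg Subtype.val hq)
  obtain ⟨m, hm, hle⟩ := Ideal.exists_le_maximal (Ideal.span {aeval (⟨A, hAR⟩ : R) g})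
    (by rwa [Ne, Ideal.span_singleton_eq_top])
  have hgm : aeval (⟨A, hAR⟩ : R) g ∈ m := hle (Ideal.mem_span_singleton_self _)
  let _ : Field (R ⧸ m) := Ideal.Quotient.field m
  have hfin : Module.Finite ℚ (R ⧸ m) := finite_of_finite_type_of_isJacobsonRing ℚ (R ⧸ m)
  have : CharZero (R ⧸ m) := algebraRat.charZero _
  refine ⟨R, R ⧸ m, inferInstance, { to_finiteDimensional := ?_ }, Ideal.Quotient.mk m,
    fun x hx => Algebra.subset_adjoin (by simp [hx]), fun x hx x0 => ?_, hAR, fun q hq => ?_⟩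
  · have key : ∀ i j : Algebra ℚ (R ⧸ m), @Module.Finite ℚ (R ⧸ m) _ _ i.toModule →
        @Module.Finite ℚ (R ⧸ m) _ _ j.toModule := fun i j h => Subsingleton.elim i j ▸ h
    exact key (Ideal.Quotient.algebra ℚ) _ hfin
  · have h : x.1⁻¹ ∈ R := Algebra.subset_adjoin (by
      simp only [coe_insert, coe_union, coe_image, Set.mem_insert_iff, Set.mem_union,
        Set.mem_image, mem_coe]
      exact Or.inr (Or.inr ⟨_, hx, rfl⟩))
    have : x * ⟨_, h⟩ = 1 := Subtype.ext (mul_inv_cancel₀ fun h => x0 (Subtype.ext h))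
    exact left_ne_zero_of_mul_eq_one (by rw [← map_mul, this, map_one])
  · have h1 : Ideal.Quotient.mk m (aeval (⟨A, hAR⟩ : R) g) = 0 := Ideal.Quotient.eq_zero_iff_mem.2 hgm
    rw [aeval_def, hom_eval₂, hq] at h1
    have h2 : (Ideal.Quotient.mk m).comp (algebraMap ℚ R) = Rat.castHom (R ⧸ m) :=
      Subsingleton.elim _ _
    rw [h2] at h1
    have h3 := eval₂_at_apply (p := g) (Rat.castHom (R ⧸ m)) q
    rw [Rat.coe_castHom] at h3
    rw [h3] at h1
    exact hg q (by exact_mod_cast h1)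

end Pool.Agent.P.MP_68214b_ag
end

-- part Pool.Agent.P.MP_68214b_ag.HsN5
section

open Polynomial Finset Matrix NumberField Filter

namespace Pool.Agent.P.MP_68214b_ag

theorem transfer_HsN5 {R : Subalgebra ℚ ℂ} {K : Type} [Field K] [NumberField K] (ψ : R →+* K)
    (u : ℕ → R) (x : R) {k : ℕ} {c : ℕ → ℂ[X]} (hc : ∃ i ≤ k, c i ≠ 0)
    (hR : ∀ i ≤ k, ∀ y ∈ (c i).coeffs, y ∈ R)
    (hψ : ∀ i ≤ k, ∀ y : R, y.1 ∈ (c i).coeffs → y ≠ 0 → ψ y ≠ 0)
    (hG : ∀ C : ℝ, 1 ≤ C →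
      ∀ᶠ n : ℕ in atTop, C ^ n < Height.mulHeight ![ψ (u (n + 1)), ψ (u n)]) :
    ∀ᶠ n : ℕ in atTop,
      hev k (fun i => (c i).eval ((x : ℂ) + n)) ![(u (n + 1) : ℂ), (u n : ℂ)] ≠ 0 := by
  classical
  have hl : ∀ i, ∃ d : R[X], i ≤ k → d.map (R.val : R →+* ℂ) = c i := fun i => by
    by_cases hi : i ≤ k
    · have : c i ∈ Polynomial.lifts (R.val : R →+* ℂ) := by
        rw [Polynomial.lifts_iff_coeff_lifts]
        intro n
        by_cases h0 : (c i).coeff n = 0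
        · exact ⟨0, by simp [h0]⟩
        · exact ⟨⟨_, hR i hi _ (Polynomial.coeff_mem_coeffs h0)⟩, rfl⟩
      obtain ⟨d, hd⟩ := (Polynomial.mem_lifts _).1 this
      exact ⟨d, fun _ => hd⟩
    · exact ⟨0, fun h => absurd h hi⟩
  choose d hd using hl
  have hc' : ∃ i ≤ k, (fun i => (d i).map ψ) i ≠ 0 := by
    obtain ⟨i, hi, h0⟩ := hc
    refine ⟨i, hi, fun h => ?_⟩
    have hl : (c i).coeff (c i).natDegree ≠ 0 := Polynomial.leadingCoeff_ne_zero.2 h0
    have e : (((d i).coeff (c i).natDegree : R) : ℂ) = (c i).coeff (c i).natDegree := by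
      have := congrArg (fun p => Polynomial.coeff p (c i).natDegree) (hd i hi)
      simpa using this
    refine hψ i hi ((d i).coeff (c i).natDegree) (e ▸ Polynomial.coeff_mem_coeffs hl)
      (fun h1 => hl (by rw [← e, h1]; rfl)) ?_
    have := congrArg (fun p => Polynomial.coeff p (c i).natDegree) h
    simpa using this
  filter_upwards [cone_K (ψ x) (U := fun n => ![ψ (u (n + 1)), ψ (u n)]) hG hc'] with n hn h
  refine hn ?_
  have h1 : hev k (fun i => (d i).eval (x + n)) ![u (n + 1), u n] = 0 := by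
    apply Subtype.ext
    have := hev_map (R.val : R →+* ℂ) k (fun i => (d i).eval (x + n)) ![u (n + 1), u n]
    refine Eq.trans this (Eq.trans ?_ h)
    unfold hev
    refine Finset.sum_congr rfl fun i hi => ?_
    have hi' : i ≤ k := Nat.lt_succ_iff.1 (Finset.mem_range.1 hi)
    have e : (R.val : R →+* ℂ) ((d i).eval (x + n)) = (c i).eval ((x : ℂ) + n) := by
      rw [← hd i hi', Polynomial.eval_map, ← Polynomial.eval₂_at_apply]
      simp
    beta_reduce
    rw [e]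
    simp
  have h2 := hev_map ψ k (fun i => (d i).eval (x + n)) ![u (n + 1), u n]
  rw [h1, map_zero] at h2
  refine Eq.trans ?_ h2.symm
  unfold hev
  refine Finset.sum_congr rfl fun i _ => ?_
  have e : ψ ((d i).eval (x + n)) = ((d i).map ψ).eval (ψ x + n) := by
    rw [Polynomial.eval_map, ← Polynomial.eval₂_at_apply]
    simp
  beta_reduce
  rw [e]
  simp

theorem rat_mem_HsN5 (R : Subalgebra ℚ ℂ) (q : ℚ) : (q : ℂ) ∈ R := by
  simpa using R.algebraMap_mem q

theorem rat_map_HsN5 {R : Subalgebra ℚ ℂ} {K : Type} [Field K] [NumberField K] (ψ : R →+* K)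
    (q : ℚ) : ψ ⟨(q : ℂ), rat_mem_HsN5 R q⟩ = q := by
  have e : (⟨(q : ℂ), rat_mem_HsN5 R q⟩ : R) = algebraMap ℚ R q := Subtype.ext (by simp)
  rw [e]
  exact eq_ratCast (ψ.comp (algebraMap ℚ R)) q

theorem I_irr_HsN5 (q : ℚ) : Complex.I ≠ q := fun h => by
  have := congrArg Complex.im h
  simp at this

theorem cone_H {β γ : ℂ} (hβ : β ≠ 0) (hγ : γ ≠ 0) {r : ℚ} (hr : 0 < r) {u : ℕ → ℂ}
    (hu : ∀ n : ℕ, u (n + 2) = β * u (n + 1) + γ * (n + r) * u n) (h0 : u 0 ≠ 0 ∨ u 1 ≠ 0)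
    (x : ℂ) {k : ℕ} {c : ℕ → ℂ[X]} (hc : ∃ i ≤ k, c i ≠ 0) :
    ∀ᶠ n : ℕ in atTop, hev k (fun i => (c i).eval (x + n)) ![u (n + 1), u n] ≠ 0 := by
  classical
  obtain ⟨R, K, _, _, ψ, hT, hψ, -⟩ :=
    spec_irr ({β, γ, x, u 0, u 1} ∪ (range (k + 1)).biUnion fun i => (c i).coeffs) I_irr_HsN5
  have bR := hT β (by simp)
  have gR := hT γ (by simp)
  have xR := hT x (by simp)
  have uR : ∀ n, u n ∈ R := fun n => by
    induction n using Nat.twoStepInduction with
    | zero => exact hT _ (by simp)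
    | one => exact hT _ (by simp)
    | more n a b =>
      rw [hu n]
      exact add_mem (mul_mem bR b)
        (mul_mem (mul_mem gR (add_mem (natCast_mem R n) (rat_mem_HsN5 R r))) a)
  let s : ℕ → R := fun n => ⟨_, uR n⟩
  have nz : ∀ z : R, z.1 ∈ ({β, γ, x, u 0, u 1} : Finset ℂ) → z.1 ≠ 0 → ψ z ≠ 0 :=
    fun z hz z0 => hψ z (mem_union_left _ hz) fun h => z0 (by simp [h])
  have hs : ∀ n : ℕ, ψ (s (n + 2)) =
      ψ ⟨β, bR⟩ * ψ (s (n + 1)) + ψ ⟨γ, gR⟩ * (n + r) * ψ (s n) := fun n => by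
    have e : s (n + 2) = ⟨β, bR⟩ * s (n + 1) +
        ⟨γ, gR⟩ * ((n : R) + ⟨(r : ℂ), rat_mem_HsN5 R r⟩) * s n :=
      Subtype.ext (by simpa [s] using hu n)
    rw [e]
    simp only [map_add, map_mul, map_natCast, rat_map_HsN5]
  have hco : ∀ i ≤ k, ∀ y ∈ (c i).coeffs,
      y ∈ ({β, γ, x, u 0, u 1} ∪ (range (k + 1)).biUnion fun i => (c i).coeffs : Finset ℂ) :=
    fun i hi y hy => mem_union_right _ (mem_biUnion.2 ⟨i, mem_range.2 (by omega), hy⟩)
  exact transfer_HsN5 ψ s ⟨x, xR⟩ hc (fun i hi y hy => hT y (hco i hi y hy))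
    (fun i hi y hy => hψ y (hco i hi _ hy))
    (fun C hC => growth_H (nz ⟨β, bR⟩ (by simp) hβ) (nz ⟨γ, gR⟩ (by simp) hγ) hr
      (u := fun n => ψ (s n)) hs
      (h0.imp (nz (s 0) (by simp [s])) (nz (s 1) (by simp [s]))) hC)

theorem cone_M {t1 t2 β : ℂ} (h1 : t1 ≠ 0) (h2 : t2 ≠ 0) {r s : ℚ} (hr : 0 < r) (hs : 0 < s)
    (hirr : ∀ q : ℚ, β - r * t1 - (s + 1) * t2 ≠ q * (t1 - t2)) {u : ℕ → ℂ}
    (hu : ∀ n : ℕ,
      u (n + 2) = ((t1 + t2) * n + β) * u (n + 1) - t1 * t2 * (n + r) * (n + s) * u n)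
    (h0 : u 0 ≠ 0 ∨ u 1 ≠ 0) (x : ℂ) {k : ℕ} {c : ℕ → ℂ[X]} (hc : ∃ i ≤ k, c i ≠ 0) :
    ∀ᶠ n : ℕ in atTop, hev k (fun i => (c i).eval (x + n)) ![u (n + 1), u n] ≠ 0 := by
  classical
  obtain ⟨A, hA, hA'⟩ : ∃ A : ℂ, (∀ q : ℚ, A ≠ q) ∧
      (t1 = t2 ∨ β - r * t1 - (s + 1) * t2 = A * (t1 - t2)) := by
    by_cases h : t1 = t2
    · exact ⟨Complex.I, I_irr_HsN5, Or.inl h⟩
    · have hd : t1 - t2 ≠ 0 := sub_ne_zero.2 h
      refine ⟨(β - r * t1 - (s + 1) * t2) / (t1 - t2), fun q hq => hirr q ?_, Or.inr ?_⟩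
      · rw [← hq, div_mul_cancel₀ _ hd]
      · rw [div_mul_cancel₀ _ hd]
  obtain ⟨R, K, _, _, ψ, hT, hψ, AR, hAψ⟩ :=
    spec_irr ({t1, t2, β, x, u 0, u 1, t1 - t2, β - r * t1 - (s + 1) * t2} ∪
      (range (k + 1)).biUnion fun i => (c i).coeffs) hA
  have aR := hT t1 (by simp)
  have bR := hT t2 (by simp)
  have gR := hT β (by simp)
  have xR := hT x (by simp)
  have uR : ∀ n, u n ∈ R := fun n => by
    induction n using Nat.twoStepInduction with
    | zero => exact hT _ (by simp)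
    | one => exact hT _ (by simp)
    | more n a b =>
      rw [hu n]
      exact sub_mem (mul_mem (add_mem (mul_mem (add_mem aR bR) (natCast_mem R n)) gR) b)
        (mul_mem (mul_mem (mul_mem (mul_mem aR bR)
          (add_mem (natCast_mem R n) (rat_mem_HsN5 R r)))
          (add_mem (natCast_mem R n) (rat_mem_HsN5 R s))) a)
  let w : ℕ → R := fun n => ⟨_, uR n⟩
  let a : R := ⟨t1, aR⟩
  let b : R := ⟨t2, bR⟩
  let g : R := ⟨β, gR⟩
  let r' : R := ⟨(r : ℂ), rat_mem_HsN5 R r⟩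
  let s' : R := ⟨(s : ℂ), rat_mem_HsN5 R s⟩
  have er : ψ r' = r := rat_map_HsN5 ψ r
  have es : ψ s' = s := rat_map_HsN5 ψ s
  have nz : ∀ z : R,
      z.1 ∈ ({t1, t2, β, x, u 0, u 1, t1 - t2, β - r * t1 - (s + 1) * t2} : Finset ℂ) →
      z.1 ≠ 0 → ψ z ≠ 0 :=
    fun z hz z0 => hψ z (mem_union_left _ hz) fun h => z0 (by simp [h])
  have hw : ∀ n : ℕ, ψ (w (n + 2)) = ((ψ a + ψ b) * n + ψ g) * ψ (w (n + 1)) -
      ψ a * ψ b * (n + r) * (n + s) * ψ (w n) := fun n => by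
    have e : w (n + 2) = ((a + b) * n + g) * w (n + 1) -
        a * b * ((n : R) + r') * ((n : R) + s') * w n :=
      Subtype.ext (by simpa [w, a, b, g, r', s'] using hu n)
    rw [e]
    simp only [map_add, map_sub, map_mul, map_natCast, er, es]
  have eth : ψ (g - r' * a - (s' + 1) * b) = ψ g - r * ψ a - (s + 1) * ψ b := by
    simp only [map_add, map_sub, map_mul, map_one, er, es]
  have hth : ψ g - r * ψ a - (s + 1) * ψ b ≠ 0 := by
    rw [← eth]
    refine nz _ (by simp [a, b, g, r', s']) ?_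
    have := hirr 0
    simpa [a, b, g, r', s'] using this
  have hirr' : ∀ q : ℚ, ψ g - r * ψ a - (s + 1) * ψ b ≠ q * (ψ a - ψ b) := fun q => by
    by_cases h : t1 = t2
    · have e : a = b := Subtype.ext h
      rw [show ψ a - ψ b = 0 by rw [e, sub_self], mul_zero]
      exact hth
    · have hd : ψ a - ψ b ≠ 0 := by
        rw [← map_sub]
        exact nz _ (by simp [a, b]) (by simpa [a, b] using sub_ne_zero.2 h)
      have e : g - r' * a - (s' + 1) * b = ⟨A, AR⟩ * (a - b) :=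
        Subtype.ext (by simpa [a, b, g, r', s'] using hA'.resolve_left h)
      rw [← eth, e, map_mul, map_sub]
      exact fun hq => hAψ q (mul_right_cancel₀ hd hq)
  have hco : ∀ i ≤ k, ∀ y ∈ (c i).coeffs,
      y ∈ ({t1, t2, β, x, u 0, u 1, t1 - t2, β - r * t1 - (s + 1) * t2} ∪
        (range (k + 1)).biUnion fun i => (c i).coeffs : Finset ℂ) :=
    fun i hi y hy => mem_union_right _ (mem_biUnion.2 ⟨i, mem_range.2 (by omega), hy⟩)
  exact transfer_HsN5 ψ w ⟨x, xR⟩ hc (fun i hi y hy => hT y (hco i hi y hy))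
    (fun i hi y hy => hψ y (hco i hi _ hy))
    (fun C hC => growth_M (nz a (by simp [a]) h1) (nz b (by simp [b]) h2) hr hs hirr'
      (u := fun n => ψ (w n)) hw
      (h0.imp (nz (w 0) (by simp [w])) (nz (w 1) (by simp [w]))) hC)

end Pool.Agent.P.MP_68214b_ag
end

-- part Pool.Agent.P.MP_68214b_ag.HsN6
section

open Polynomial Finset Matrix NumberField Filter

namespace Pool.Agent.P.MP_68214b_ag

/-- the families of Hermite type and of Laguerre or Meixner-Pollaczek type -/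
def Fam0 (P Q : ℂ[X]) (x : ℂ) : Prop :=
  (∃ (β γ : ℂ) (r : ℚ), β ≠ 0 ∧ γ ≠ 0 ∧ P = C β ∧ Q = C γ * (X - C (x - r))) ∨
  ∃ (α β γ : ℂ) (r s : ℚ), γ ≠ 0 ∧ P = C α * X + C β ∧
    Q = C γ * (X - C (x - r)) * (X - C (x - s)) ∧
    ∀ q : ℚ, P.eval (x - (r + s + 1) / 2) ^ 2 ≠ q ^ 2 * (α ^ 2 + 4 * γ)

theorem shift_HsN6 {p q : ℕ → ℂ} {u : ℕ → ℂ}
    (hu : ∀ n : ℕ, u (n + 2) = p n * u (n + 1) + q n * u n) (n0 : ℕ) {x : ℂ} {k : ℕ}
    {c : ℕ → ℂ[X]}
    (h : (u (n0 + 0) ≠ 0 ∨ u (n0 + 1) ≠ 0) → ∀ᶠ n : ℕ in atTop,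
      hev k (fun i => (c i).eval (x + n0 + n)) ![u (n0 + (n + 1)), u (n0 + n)] ≠ 0) :
    (∀ᶠ n : ℕ in atTop, u n = 0) ∨
      ∀ᶠ n : ℕ in atTop, hev k (fun i => (c i).eval (x + n)) ![u (n + 1), u n] ≠ 0 := by
  by_cases h0 : u (n0 + 0) ≠ 0 ∨ u (n0 + 1) ≠ 0
  · right
    obtain ⟨N, hN⟩ := eventually_atTop.1 (h h0)
    refine eventually_atTop.2 ⟨n0 + N, fun n hn => ?_⟩
    obtain ⟨m, rfl⟩ : ∃ m, n = n0 + m := ⟨n - n0, by omega⟩
    have h1 := hN m (by omega)
    have e1 : x + ((n0 + m : ℕ) : ℂ) = x + n0 + m := by push_cast; ring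
    have e2 : n0 + m + 1 = n0 + (m + 1) := by omega
    rw [e1, e2]
    exact h1
  · left
    have h1 : u (n0 + 0) = 0 := by
      by_contra h'
      exact h0 (Or.inl h')
    have h2 : u (n0 + 1) = 0 := by
      by_contra h'
      exact h0 (Or.inr h')
    have key : ∀ m : ℕ, u (n0 + m) = 0 ∧ u (n0 + m + 1) = 0 := by
      intro m
      induction m with
      | zero => exact ⟨h1, h2⟩
      | succ m ih =>
        refine ⟨ih.2, ?_⟩
        have := hu (n0 + m)
        rw [ih.1, ih.2] at this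
        have e : n0 + (m + 1) + 1 = n0 + m + 2 := by omega
        rw [e, this]
        ring
    refine eventually_atTop.2 ⟨n0, fun n hn => ?_⟩
    obtain ⟨m, rfl⟩ : ∃ m, n = n0 + m := ⟨n - n0, by omega⟩
    exact (key m).1

theorem cone_fam {P Q : ℂ[X]} {x : ℂ} (hF : Fam0 P Q x) {u : ℕ → ℂ}
    (hu : ∀ n : ℕ, u (n + 2) = P.eval (x + n) * u (n + 1) + Q.eval (x + n) * u n)
    {k : ℕ} {c : ℕ → ℂ[X]} (hc : ∃ i ≤ k, c i ≠ 0) :
    (∀ᶠ n : ℕ in atTop, u n = 0) ∨
      ∀ᶠ n : ℕ in atTop, hev k (fun i => (c i).eval (x + n)) ![u (n + 1), u n] ≠ 0 := by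
  rcases hF with ⟨β, γ, r, hβ, hγ, rfl, rfl⟩ | ⟨α, β, γ, r, s, hγ, rfl, rfl, hq⟩
  · obtain ⟨n0, hn0⟩ := exists_nat_gt (-r)
    refine shift_HsN6 hu n0 fun h0 => ?_
    refine cone_H hβ hγ (r := r + n0) (by linarith) (u := fun n => u (n0 + n)) (fun n => ?_) h0
      (x + n0) hc
    have h1 := hu (n0 + n)
    simp only [eval_C, eval_mul, eval_sub, eval_X] at h1
    have e : n0 + (n + 2) = n0 + n + 2 := by omega
    have e' : n0 + (n + 1) = n0 + n + 1 := by omega
    simp only [e, e']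
    rw [h1]
    push_cast
    ring
  · obtain ⟨n0, hn0⟩ := exists_nat_gt (max (-r) (-s))
    have hr0 : -r < n0 := lt_of_le_of_lt (le_max_left _ _) hn0
    have hs0 : -s < n0 := lt_of_le_of_lt (le_max_right _ _) hn0
    obtain ⟨d, hd⟩ := IsAlgClosed.exists_pow_nat_eq (α ^ 2 + 4 * γ) (n := 2) (by norm_num)
    have hprod : (α + d) / 2 * ((α - d) / 2) = -γ := by linear_combination (-1 / 4 : ℂ) * hd
    have ht1 : (α + d) / 2 ≠ 0 := by
      intro h
      rw [h, zero_mul] at hprod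
      exact hγ (neg_eq_zero.1 hprod.symm)
    have ht2 : (α - d) / 2 ≠ 0 := by
      intro h
      rw [h, mul_zero] at hprod
      exact hγ (neg_eq_zero.1 hprod.symm)
    refine shift_HsN6 hu n0 fun h0 => ?_
    refine cone_M ht1 ht2 (β := α * (x + n0) + β) (r := r + n0) (s := s + n0) (by linarith)
      (by linarith) (fun q hq' => ?_) (u := fun n => u (n0 + n)) (fun n => ?_) h0 (x + n0) hc
    · apply hq (q - (s + 1 - r) / 2)
      simp only [eval_add, eval_mul, eval_C, eval_X]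
      have h3 : α * (x - (r + s + 1) / 2) + β = ((q : ℂ) - (s + 1 - r) / 2) * d := by
        push_cast at hq'
        linear_combination hq'
      rw [h3, ← hd]
      push_cast
      ring
    · have h1 := hu (n0 + n)
      simp only [eval_C, eval_mul, eval_sub, eval_add, eval_X] at h1
      have e : n0 + (n + 2) = n0 + n + 2 := by omega
      have e' : n0 + (n + 1) = n0 + n + 1 := by omega
      simp only [e, e']
      rw [h1, hprod]
      push_cast
      ring

/-- eventually zero or eventually nonzero -/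
def Dich (v : ℕ → ℂ) : Prop := (∀ᶠ n : ℕ in atTop, v n = 0) ∨ ∀ᶠ n : ℕ in atTop, v n ≠ 0

theorem dich_HsN6 {P Q : ℂ[X]} (hF : Fam0 P Q 0) {v : ℕ → ℂ}
    (hv : ∀ n : ℕ, v (n + 2) = P.eval (0 + (n : ℂ)) * v (n + 1) + Q.eval (0 + (n : ℂ)) * v n) :
    Dich v := by
  have h := cone_fam hF hv (k := 1) (c := fun i => if i = 0 then 1 else 0) ⟨0, by norm_num, by simp⟩
  refine h.imp id fun h => h.mono fun n hn => ?_
  simpa [hev, sum_range_succ] using hn

theorem dich_H {b d e : ℚ} (hb : b ≠ 0) (hd : d ≠ 0) {v : ℕ → ℂ}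
    (hv : ∀ n : ℕ, v (n + 2) = b * v (n + 1) + (d * n + e) * v n) : Dich v := by
  have hd' : (d : ℂ) ≠ 0 := by exact_mod_cast hd
  have hb' : (b : ℂ) ≠ 0 := by exact_mod_cast hb
  refine dich_HsN6 (P := C (b : ℂ)) (Q := C (d : ℂ) * (X - C (0 - ((e / d : ℚ) : ℂ))))
    (Or.inl ⟨b, d, e / d, hb', hd', rfl, rfl⟩) fun n => ?_
  rw [hv n]
  simp only [eval_C, eval_mul, eval_sub, eval_X]
  push_cast
  field_simp
  ring

theorem dich_M {b1 b0 c1 c0 a1 a0 : ℚ} (hg : a1 * c1 ≠ 0) (hD : b1 ^ 2 + 4 * a1 * c1 ≤ 0)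
    (hs : 2 * a1 * c1 * b0 ≠ b1 * (a0 * c1 + a1 * c0 + a1 * c1)) {v : ℕ → ℂ}
    (hv : ∀ n : ℕ, v (n + 2) = (b1 * n + b0) * v (n + 1) + (c1 * n + c0) * (a1 * n + a0) * v n) :
    Dich v := by
  have ha : a1 ≠ 0 := left_ne_zero_of_mul hg
  have hc : c1 ≠ 0 := right_ne_zero_of_mul hg
  have ha' : (a1 : ℂ) ≠ 0 := by exact_mod_cast ha
  have hc' : (c1 : ℂ) ≠ 0 := by exact_mod_cast hc
  refine dich_HsN6 (P := C (b1 : ℂ) * X + C (b0 : ℂ))
    (Q := C ((a1 : ℂ) * c1) * (X - C (0 - ((c0 / c1 : ℚ) : ℂ))) * (X - C (0 - ((a0 / a1 : ℚ) : ℂ))))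
    (Or.inr ⟨b1, b0, a1 * c1, c0 / c1, a0 / a1, mul_ne_zero ha' hc', rfl, rfl, fun q hq => ?_⟩)
    fun n => ?_
  · simp only [eval_add, eval_mul, eval_C, eval_X] at hq
    have h1 : (b1 * (0 - (c0 / c1 + a0 / a1 + 1) / 2) + b0) ^ 2
        = q ^ 2 * (b1 ^ 2 + 4 * (a1 * c1)) := by exact_mod_cast hq
    have h2 : b1 * (0 - (c0 / c1 + a0 / a1 + 1) / 2) + b0 ≠ 0 := by
      intro h
      apply hs
      field_simp at h
      linear_combination h
    have h3 : 0 < (b1 * (0 - (c0 / c1 + a0 / a1 + 1) / 2) + b0) ^ 2 := by positivity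
    have h4 : q ^ 2 * (b1 ^ 2 + 4 * (a1 * c1)) ≤ 0 :=
      mul_nonpos_of_nonneg_of_nonpos (sq_nonneg q) (by linarith)
    linarith
  · rw [hv n]
    simp only [eval_C, eval_mul, eval_sub, eval_add, eval_X]
    push_cast
    field_simp
    ring

end Pool.Agent.P.MP_68214b_ag
end
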