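import Pool.Agent.K.MP_68214b_ag.C2
import Pool.Agent.K.MP_68214b_ag.C3

-- part Pool.Agent.P.MP_68214b_ag.DU1
section

open Polynomial Filter Asymptotics NumberField Topology

namespace Pool.Agent.P.MP_68214b_ag.DS

/-- a relation whose top form does not vanish at z -/
def Top {J : Type*} [Fintype J] (w : J → ℕ) (z : J → ℂ) (y : J → ℕ → ℂ) (good : ℕ → Prop) : Prop :=
  ∃ (M : Finset (J →₀ ℕ)) (c : (J →₀ ℕ) → ℂ) (D : ℕ), (∀ m, IsAlgebraic ℚ (c m)) ∧
    (∀ m ∈ M, ∑ i, w i * m i ≤ D) ∧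
    ∑ m ∈ M with ∑ i, w i * m i = D, c m * ∏ i, z i ^ m i ≠ 0 ∧
    ∀ n, good n → ∑ m ∈ M, c m * ∏ i, y i n ^ m i = 0

theorem du1_pow {𝓕 : Filter ℕ} {B ε : ℕ → ℝ} {f g : ℕ → ℂ} {w : ℕ} (h : dsx3P 𝓕 B ε w f g)
    (k : ℕ) : dsx3P 𝓕 B ε (w * k) (fun n => f n ^ k) fun n => g n ^ k := by
  induction k with
  | zero => simpa using dsx3_one 𝓕 B ε
  | succ k ih => simpa only [pow_succ, mul_add, mul_one] using dsx3_mul ih h

theorem du1_prod {J : Type*} {𝓕 : Filter ℕ} {B ε : ℕ → ℝ} {a b : J → ℕ → ℂ} {w : J → ℕ}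
    (h : ∀ i, dsx3P 𝓕 B ε (w i) (a i) (b i)) (s : Finset J) (e : J → ℕ) :
    dsx3P 𝓕 B ε (∑ i ∈ s, w i * e i) (fun n => ∏ i ∈ s, a i n ^ e i)
      fun n => ∏ i ∈ s, b i n ^ e i := by
  classical
  induction s using Finset.induction_on with
  | empty => simpa using dsx3_one 𝓕 B ε
  | insert i s hi ih =>
    simpa only [Finset.sum_insert hi, Finset.prod_insert hi] using dsx3_mul (du1_pow (h i) _) ih

theorem du1_max {J : Type*} [Fintype J] (θ : J → ℝ) (h : ∀ i, θ i < 1) {a : ℝ} (ha : a < 1) :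
    ∃ t : ℝ, t < 1 ∧ a ≤ t ∧ ∀ i, θ i ≤ t := by
  obtain ⟨i, -, hi⟩ := Finset.exists_max_image Finset.univ (fun i : Option J => i.elim a θ)
    Finset.univ_nonempty
  refine ⟨i.elim a θ, ?_, hi none (Finset.mem_univ _), fun j => hi (some j) (Finset.mem_univ _)⟩
  cases i
  exacts [ha, h _]

theorem lead {J : Type*} [Fintype J] {𝓕 : Filter ℕ} [𝓕.NeBot] (hF : 𝓕 ≤ atTop) {d : ℕ}
    (hd : 2 ≤ d) {w : J → ℕ} (hw : ∀ i, 0 < w i) {y : J → ℕ → ℂ} {z : J → ℂ} {s s' : ℂ}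
    (q : J → Prop) [DecidablePred q] (hs : 1 < ‖s‖) (hs' : ‖s'‖ = ‖s‖)
    (hz : ∀ i, IsAlgebraic ℚ (z i))
    (hy : ∀ i, ∃ θ : ℝ, 0 ≤ θ ∧ θ < 1 ∧
      (fun n => y i n - z i * ((if q i then s' else s) ^ d ^ n) ^ w i) =O[𝓕]
        fun n => (‖s‖ ^ d ^ n) ^ w i * θ ^ d ^ n)
    {good : ℕ → Prop} (hg : ∀ᶠ n in 𝓕, good n)
    (hT : Top w (fun i => if q i then 0 else z i) y good) :
    (∃ i, q i) ∧ ∃ (β : ℂ) (C l : ℝ), β ≠ 0 ∧ IsAlgebraic ℚ β ∧ 0 ≤ l ∧ l < 1 ∧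
      ∃ᶠ n in 𝓕, ‖(s' / s) ^ d ^ n - β‖ ≤ C * l ^ d ^ n := by
  classical
  obtain ⟨M, c, D, ca, hM, h0, hv⟩ := hT
  choose θ θ0 θ1 hθ using hy
  obtain ⟨t, t1, t2, t3⟩ := du1_max θ θ1 (inv_lt_one_of_one_lt₀ hs)
  have s0 : 0 < ‖s‖ := by linarith
  have t0 : 0 ≤ t := (inv_pos.2 s0).le.trans t2
  set B : ℕ → ℝ := fun n => ‖s‖ ^ d ^ n with hB
  set ε : ℕ → ℝ := fun n => t ^ d ^ n with hε
  set v : J → ℕ → ℂ := fun i n => z i * ((if q i then s' else s) ^ d ^ n) ^ w i with hv'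
  have B1 : ∀ n, 1 ≤ B n := fun n => one_le_pow₀ hs.le
  have ε0 : ∀ n, 0 ≤ ε n := fun n => pow_nonneg t0 _
  have ε1 : ∀ n, ε n ≤ 1 := fun n => pow_le_one₀ t0 t1.le
  have Bε : ∀ n, 1 ≤ B n * ε n := fun n => by
    rw [hB, hε, ← mul_pow]
    exact one_le_pow₀ ((inv_le_iff_one_le_mul₀' s0).1 t2)
  have hP : ∀ i, dsx3P 𝓕 B ε (w i) (y i) (v i) := fun i => by
    have h2 : v i =O[𝓕] fun n => B n ^ w i := IsBigO.of_bound ‖z i‖ (Eventually.of_forall fun n => by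
      rw [hv', hB]
      by_cases h : q i <;> simp [h, hs'])
    have h3 : (fun n => y i n - v i n) =O[𝓕] fun n => B n ^ w i * ε n :=
      (hθ i).trans (IsBigO.of_bound' (Eventually.of_forall fun n => by
        have := θ0 i
        rw [Real.norm_of_nonneg (by positivity), Real.norm_of_nonneg (by positivity)]
        exact mul_le_mul_of_nonneg_left (pow_le_pow_left₀ this (t3 i) _) (by positivity)))
    refine ⟨?_, h2, h3⟩
    refine ((h3.trans (IsBigO.of_bound' (Eventually.of_forall fun n => ?_))).add h2).congr_left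
      fun n => by ring
    have := B1 n
    have := ε0 n
    rw [Real.norm_of_nonneg (by positivity), Real.norm_of_nonneg (by positivity)]
    exact mul_le_of_le_one_right (by positivity) (ε1 n)
  set e : (J →₀ ℕ) → ℕ := fun m => ∑ i, (if q i then w i else 0) * m i with he
  set g : ℂ[X] := ∑ m ∈ M with ∑ i, w i * m i = D, monomial (e m) (c m * ∏ i, z i ^ m i) with hg'
  have ev : ∀ Y : ℂ, g.eval Y = ∑ m ∈ M with ∑ i, w i * m i = D,
      c m * ∏ i, (z i * Y ^ (if q i then w i else 0)) ^ m i := fun Y => by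
    rw [hg', eval_finsetSum]
    refine Finset.sum_congr rfl fun m _ => ?_
    simp only [eval_monomial, he, mul_pow, Finset.prod_mul_distrib, ← pow_mul,
      Finset.prod_pow_eq_pow_sum, mul_assoc]
  have g0 : g.eval 0 ≠ 0 := by
    rw [ev]
    convert h0 using 5 with m _ i _
    by_cases h : q i <;> simp [h, (hw i).ne']
  have gn : g ≠ 0 := fun h => g0 (by rw [h, eval_zero])
  have hO : (fun n => g.eval ((s' / s) ^ d ^ n)) =O[𝓕] ε := by
    have h1 : (fun n => ∑ m ∈ M, (c m * ∏ i, y i n ^ m i -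
        if ∑ i, w i * m i = D then c m * ∏ i, v i n ^ m i else 0)) =O[𝓕]
          fun n => B n ^ D * ε n := IsBigO.fun_sum fun m hm => by
      have hp := du1_prod hP Finset.univ m
      by_cases h : ∑ i, w i * m i = D
      · simp only [h, if_true, ← mul_sub] at hp ⊢
        exact hp.2.2.const_mul_left _
      · simp only [h, if_false, sub_zero]
        refine (hp.1.trans (IsBigO.of_bound' (Eventually.of_forall fun n => ?_))).const_mul_left _
        have := B1 n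
        have := ε0 n
        obtain ⟨k, hk⟩ := Nat.exists_eq_add_of_lt ((hM m hm).lt_of_ne h)
        rw [Real.norm_of_nonneg (by positivity), Real.norm_of_nonneg (by positivity), hk, pow_succ,
          mul_assoc]
        exact (pow_le_pow_right₀ (B1 n) (Nat.le_add_right _ _)).trans
          (le_mul_of_one_le_right (by positivity) (Bε n))
    have sn : s ≠ 0 := norm_pos_iff.1 s0
    have h2 : (fun n => (-((s ^ d ^ n) ^ D)⁻¹ : ℂ)) =O[𝓕] fun n => (B n ^ D)⁻¹ :=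
      IsBigO.of_bound' (Eventually.of_forall fun n => by simp [hB])
    refine (h2.mul h1).congr' (hg.mono fun n hn => ?_) (Eventually.of_forall fun n => ?_)
    · simp only [Finset.sum_sub_distrib, hv n hn, zero_sub, ev, neg_mul_neg, ← Finset.sum_filter,
        Finset.mul_sum]
      refine Finset.sum_congr rfl fun m hm => ?_
      rw [← (Finset.mem_filter.1 hm).2, ← Finset.prod_pow_eq_pow_sum, mul_left_comm,
        ← Finset.prod_inv_distrib, ← Finset.prod_mul_distrib]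
      congr 1
      refine Finset.prod_congr rfl fun i _ => ?_
      rw [pow_mul, ← inv_pow, ← mul_pow, hv']
      congr 1
      by_cases h : q i
      · simp only [h, if_true, div_pow]
        field_simp
      · simp only [h, if_false, pow_zero]
        field_simp
    · have := B1 n
      exact inv_mul_cancel_left₀ (by positivity) _
  obtain ⟨β, C, l, hβ, l0, l1, hf⟩ := root_near gn hF hd t0 t1 hO
  refine ⟨by_contra fun h => g0 ?_, β, C, l, fun h => g0 (by rw [h] at hβ; exact hβ), alg_root gn (fun k => ?_) hβ,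
    l0, l1, hf⟩
  · rw [← hβ.eq_zero, ev, ev]
    simp only [not_exists.1 h, if_false, pow_zero]
  · rw [hg', finsetSum_coeff, ← mem_algebraicClosure_iff]
    refine sum_mem fun m _ => ?_
    rw [coeff_monomial]
    split_ifs
    · exact mul_mem (mem_algebraicClosure_iff.2 (ca m))
        (prod_mem fun i _ => pow_mem (mem_algebraicClosure_iff.2 (hz i)) _)
    · exact zero_mem _

end Pool.Agent.P.MP_68214b_ag.DS
end

-- part Pool.Agent.P.MP_68214b_ag.DU2
section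

open Polynomial Filter Asymptotics NumberField Topology

namespace Pool.Agent.P.MP_68214b_ag.DS

variable {K : Type} [Field K] [NumberField K]

theorem du2_root {u s : ℂ} {w w0 : ℕ} (hs : 1 < ‖s‖) (hu : ‖u‖ = ‖s‖ ^ w) (h : Rel u (s ^ w0)) :
    ∃ k, 0 < k ∧ (u / s ^ w) ^ k = 1 := by
  obtain ⟨a, b, ha, -, e⟩ := h
  have e1 : w * a = w0 * b := by
    have := congrArg norm e
    rw [norm_pow, norm_pow, norm_pow, hu, ← pow_mul, ← pow_mul] at this
    exact pow_right_injective₀ (by linarith) hs.ne' this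
  refine ⟨a, ha, ?_⟩
  rw [div_pow, e, ← pow_mul, ← pow_mul, e1, div_self (pow_ne_zero _ (norm_pos_iff.1 (by linarith)))]

theorem du2_th {𝓕 : Filter ℕ} {d w : ℕ} {r : ℕ → ℂ} {ρ S : ℝ} (h0 : 0 ≤ ρ) (h1 : ρ < S ^ w)
    (h : r =O[𝓕] fun n => ρ ^ d ^ n) : ∃ θ : ℝ, 0 ≤ θ ∧ θ < 1 ∧
      r =O[𝓕] fun n => (S ^ d ^ n) ^ w * θ ^ d ^ n := by
  have : 0 < S ^ w := h0.trans_lt h1
  refine ⟨ρ / S ^ w, by positivity, (div_lt_one this).2 h1, h.congr_right fun n => ?_⟩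
  rw [← pow_mul, mul_comm (d ^ n), pow_mul, ← mul_pow, mul_div_cancel₀ _ this.ne']

theorem cls1 (hK : Cj K) (σ : K →+* ℂ) {J : Type} [Fintype J] {d : ℕ} (hd : 2 ≤ d) {f : J → K[X]}
    {x : J → ℕ → K} (E : J → Prop)
    (hE : ∀ i, E i → Orb (f i) (x i) ∧ (f i).natDegree = d ∧ ¬ Bdd σ (x i))
    (hN : ∀ i, ¬ E i → Sml atTop d fun n => σ (x i n)) (h0 : ∃ i, E i)
    (h3 : ∀ i j k, E i → E j → E k → i ≠ j → i ≠ k → j ≠ k → NSa (f i) ∨ NSa (f j) ∨ NSa (f k))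
    {w : J → ℕ} (hw : ∀ i, 0 < w i) {good : ℕ → Prop} (hg : ∃ᶠ n in atTop, good n) :
    ∃ (i0 : J) (z : J → ℂ), E i0 ∧ z i0 ≠ 0 ∧
      (∀ i, z i ≠ 0 → E i ∧ Dep (x i0) (x i) ∧ ∃ k, 0 < k ∧ z i ^ k = 1) ∧
      ¬ Top w z (fun i n => σ (x i n)) good := by
  classical
  have hb : ∀ i, ∃ (p : PowerSeries K) (r : ℂ), E i → Bott (f i) p ∧ Esc σ d (x i) p (r ^ w i) ∧
      1 < ‖r‖ := fun i => by
    by_cases h : E i
    · obtain ⟨p, u, b, e⟩ := bl (hE i h).1 σ (hE i h).2.2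
      obtain ⟨r, rfl⟩ := IsAlgClosed.exists_pow_nat_eq u (hw i)
      refine ⟨p, r, fun _ => ⟨b, (hE i h).2.1 ▸ e, ?_⟩⟩
      have := e.one_lt
      rw [norm_pow] at this
      exact (one_lt_pow_iff_of_nonneg (norm_nonneg _) (hw i).ne').1 this
    · exact ⟨0, 0, fun e => absurd e h⟩
  choose p r hr using hb
  obtain ⟨i0, hi0, hm⟩ := (Finset.univ.filter E).exists_max_image (fun i => ‖r i‖)
    (h0.imp fun i hi => Finset.mem_filter.2 ⟨Finset.mem_univ _, hi⟩)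
  simp only [Finset.mem_filter, Finset.mem_univ, true_and] at hi0 hm
  set s := r i0 with hs
  have s1 : 1 < ‖s‖ := (hr i0 hi0).2.2
  set T : J → Prop := fun i => E i ∧ ‖r i‖ = ‖s‖ with hT
  have three : ∀ a b c, T a → T b → T c → NSa (f a) → ¬ Rel (r a ^ w a) (r b ^ w b) →
      ¬ Rel (r a ^ w a) (r c ^ w c) → Rel (r b ^ w b) (r c ^ w c) := fun a b c ta tb tc n h1 h2 => by
    have cj : ∀ b, T b → ¬ Rel (r a ^ w a) (r b ^ w b) →
        Rel (r a ^ w a) ((starRingEnd ℂ) (r b ^ w b)) := fun b tb h =>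
      (conj_rel hK (hE a ta.1).1 (hE b tb.1).1 (Or.inl n) (hE a ta.1).2.1 (hE b tb.1).2.1
        (hr a ta.1).2.1 (hr b tb.1).2.1 (hw b) (hw a) (by
          rw [norm_pow, norm_pow, ta.2, tb.2, ← pow_mul, ← pow_mul, mul_comm])).resolve_left h
    simpa only [Complex.conj_conj] using ((cj b tb h1).symm.trans (cj c tc h2)).conj
  set q : J → Prop := fun i => T i ∧ ¬ Rel (r i ^ w i) (s ^ w i0) with hq
  have t0 : T i0 := ⟨hi0, rfl⟩
  have q0 : ¬ q i0 := fun h => h.2 (Rel.refl _)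
  obtain ⟨s', e', hs', hj⟩ : ∃ s' : ℂ, ‖s'‖ = ‖s‖ ∧
      (∀ i, q i → ∃ k, 0 < k ∧ (r i ^ w i / s' ^ w i) ^ k = 1) ∧
      ((∃ j, q j) → ∃ j, q j ∧ s' = r j) := by
    by_cases h : ∃ j, q j
    swap
    · exact ⟨s, rfl, fun i hi => absurd ⟨i, hi⟩ h, fun e => absurd e h⟩
    obtain ⟨j, hj⟩ := h
    refine ⟨r j, hj.1.2, fun i hi => du2_root (w0 := w j) (hj.1.2 ▸ s1)
      (by rw [norm_pow, hi.1.2, hj.1.2]) (by_contra fun h => ?_), fun _ => ⟨j, hj, rfl⟩⟩
    rcases h3 i j i0 hi.1.1 hj.1.1 hi0 (fun e => h (by rw [e]; exact Rel.refl _))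
      (fun e => q0 (e ▸ hi)) (fun e => q0 (e ▸ hj)) with n | n | n
    · exact hj.2 (three i j i0 hi.1 hj.1 t0 n h hi.2)
    · exact hi.2 (three j i i0 hj.1 hi.1 t0 n (fun e => h e.symm) hj.2)
    · exact h (three i0 i j t0 hi.1 hj.1 n (fun e => hi.2 e.symm) fun e => hj.2 e.symm)
  have nb := frequently_iff_neBot.1 hg
  set 𝒰 := Ultrafilter.of (atTop ⊓ 𝓟 {n : ℕ | good n}) with h𝒰
  have hU : (𝒰 : Filter ℕ) ≤ atTop := (Ultrafilter.of_le _).trans inf_le_left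
  have hz : ∀ᶠ n in (𝒰 : Filter ℕ), good n :=
    le_principal_iff.1 ((Ultrafilter.of_le _).trans inf_le_right)
  have sw : ∀ i, 1 < ‖s‖ ^ w i := fun i => one_lt_pow₀ s1 (hw i).ne'
  have hy : ∀ i, ∃ z : ℂ, (T i → ∃ k, 0 < k ∧ z ^ k = 1) ∧ (¬ T i → z = 0) ∧
      ∃ θ : ℝ, 0 ≤ θ ∧ θ < 1 ∧
      (fun n => σ (x i n) - z * ((if q i then s' else s) ^ d ^ n) ^ w i) =O[𝒰]
        fun n => (‖s‖ ^ d ^ n) ^ w i * θ ^ d ^ n := fun i => by
    by_cases ti : T i
    · obtain ⟨k, k0, hk⟩ : ∃ k, 0 < k ∧ (r i ^ w i / (if q i then s' else s) ^ w i) ^ k = 1 := by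
        by_cases h : q i
        · simpa only [h, if_true] using hs' i h
        · simp only [h, if_false]
          exact du2_root s1 (by rw [norm_pow, ti.2]) (by_contra fun e => h ⟨ti, e⟩)
      obtain ⟨z, z1, hz⟩ := dss3_ult k0 hk d 𝒰
      refine ⟨z, fun _ => ⟨k, k0, z1⟩, fun h => absurd ti h, du2_th zero_le_one (sw i) ?_⟩
      have e := (hr i ti.1).2.1
      have u0 : r i ^ w i ≠ 0 := norm_pos_iff.1 (zero_lt_one.trans e.one_lt)
      have S0 : (if q i then s' else s) ≠ 0 := norm_pos_iff.1 (by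
        split_ifs <;> linarith)
      refine ((isBigO_refl (fun n => (r i ^ w i) ^ d ^ n) _).mul
        ((e.lim' hd).mono hU)).congr' (hz.mono fun n hn => ?_) ?_ |>.trans
        (isBigO_const_const (1 : ℂ) (one_ne_zero (α := ℝ)) _) |>.congr_right fun n => by simp
      · beta_reduce
        rw [← hn, div_pow, ← pow_mul (if q i then s' else s), ← pow_mul (if q i then s' else s),
          mul_comm (w i)]
        field_simp
      · exact Eventually.of_forall fun n => mul_inv_cancel₀ (pow_ne_zero _ u0)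
    refine ⟨0, fun h => absurd h ti, fun _ => rfl, ?_⟩
    simp only [zero_mul, sub_zero]
    by_cases h : E i
    · refine du2_th (norm_nonneg _) ?_ (((hr i h).2.1.up hd).mono hU)
      rw [norm_pow]
      exact pow_lt_pow_left₀ ((hm i h).lt_of_ne fun e => ti ⟨h, e⟩) (norm_nonneg _) (hw i).ne'
    · have := sw i
      exact du2_th (ρ := (1 + ‖s‖ ^ w i) / 2) (by positivity) (by linarith)
        ((hN i h _ (by linarith)).mono hU)
  choose z z1 z0 hy using hy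
  refine ⟨i0, fun i => if q i then 0 else z i, hi0, ?_, fun i hi => ?_, fun hT => ?_⟩
  · obtain ⟨k, k0, hk⟩ := z1 i0 t0
    simp only [q0, if_false]
    rintro e
    simp [e, k0.ne'] at hk
  · have h : ¬ q i := fun h => hi (if_pos h)
    simp only [h, if_false] at hi ⊢
    have ti : T i := by_contra fun e => hi (z0 i e)
    exact ⟨ti.1, dep_of_rel (hE i0 hi0).1 (hE i ti.1).1 (hE i0 hi0).2.1 (hE i ti.1).2.1
      (hr i0 hi0).2.1 (hr i ti.1).2.1 (Rel.symm (by_contra fun e => h ⟨ti, e⟩)), z1 i ti⟩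
  obtain ⟨h1, β, C, l, β0, βa, l0, l1, hf⟩ := lead hU hd hw q s1 e' (fun i => by
    by_cases ti : T i
    · obtain ⟨k, k0, hk⟩ := z1 i ti
      exact mem_algebraicClosure_iff.1 (dss3_root k0 hk)
    · rw [z0 i ti]
      exact isAlgebraic_zero) hy hz hT
  obtain ⟨j, qj, rfl⟩ := hj h1
  have ej := qj.1.1
  refine qj.2 (be hd (hr j ej).2.1 (hr i0 hi0).2.1 (pt (hE j ej).1 (hE i0 hi0).1 (hE j ej).2.1
    (hE i0 hi0).2.1 (hr j ej).1 (hr i0 hi0).1 (hr j ej).2.1 (hr i0 hi0).2.1 (hw i0) (hw j)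
    (pow_ne_zero (w j * w i0) β0) (βa.pow _)
    (C := (w j * w i0 : ℕ) * max 1 ‖β‖ ^ (w j * w i0) * C) l0 l1
    ((hf.filter_mono hU).mono fun n hn => ?_)))
  have e : ((r j ^ w j) ^ w i0) ^ d ^ n / ((r i0 ^ w i0) ^ w j) ^ d ^ n =
      ((r j / s) ^ d ^ n) ^ (w j * w i0) := by
    simp only [div_pow, ← pow_mul, hs]
    congr 2 <;> ring
  rw [e, mul_assoc]
  exact (pow_near (by rw [norm_pow, norm_div, e', div_self (by linarith), one_pow]) _).trans
    (mul_le_mul_of_nonneg_left hn (by positivity))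

end Pool.Agent.P.MP_68214b_ag.DS
end

-- part Pool.Agent.P.MP_68214b_ag.DSD2
section

open Polynomial Filter Asymptotics NumberField Topology

namespace Pool.Agent.P.MP_68214b_ag.DS

variable {K : Type} [Field K] [NumberField K]

theorem ts2 [Algebra K ℂ] {f : K[X]} {y : ℕ → K} (h : Orb f y) (L : ℕ) :
    ∃ D0 T0 : ℕ, ∀ T ≥ T0, ∀ w : ℂ, IsIntegral K w → (minpoly K w).natDegree ≤ L * T →
      (∃ C : ℝ, ∃ᶠ m in atTop, ‖algebraMap K ℂ (y m) - w‖ ≤ C * ((1 / 2) ^ f.natDegree ^ m) ^ T) →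
      (minpoly K w).natDegree ≤ D0 := by
  have d2 := h.deg
  set d := f.natDegree with hd
  have o2 : Orb (X ^ d : K[X]) fun n => 2 ^ d ^ n := ⟨monic_X_pow d, by rwa [natDegree_X_pow],
    fun n => by rw [eval_pow, eval_X, ← pow_mul, pow_succ]⟩
  obtain ⟨N, Λ, N0, hΛ, l0, g1, g2⟩ := exists_gr2 o2 h (natDegree_X_pow d) rfl
  set r := Module.finrank ℚ K with hr
  have nτ : ‖(1 / 2 : ℂ)‖ = 1 / 2 := by simp
  have τ1 : ‖(1 / 2 : ℂ)‖ < 1 := by rw [nτ]; norm_num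
  obtain ⟨k, hk⟩ := exists_pow_lt_of_lt_one (x := 1 / 2 / Λ ^ (4 * (3 * r))) (by positivity) τ1
  have hTh : Λ ^ (4 * (3 * r)) * ‖(1 / 2 : ℂ)‖ ^ (k + 1 - 1) ≤ 1 / 2 := by
    rw [Nat.add_sub_cancel, mul_comm]
    exact (le_div_iff₀ (by positivity)).1 hk.le
  refine ⟨16 * r * (L + 1) * (k + 1 + 2 * (0 + 1)) ^ 3,
    (k + 1 + 2 * (0 + 1)) * (16 * r * (L + 1) * (k + 1 + 2 * (0 + 1)) ^ 3) + 2,
    fun T hT β hβ hL ⟨C, hN⟩ => ?_⟩
  set F := IntermediateField.adjoin K {β} with hF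
  have : FiniteDimensional K F := IntermediateField.adjoin.finiteDimensional hβ
  have : NumberField F := NumberField.of_module_finite K F
  have T1 : 1 ≤ T := by omega
  let S : TS K F :=
    { φ := F.val, β := IntermediateField.AdjoinSimple.gen K β, a := 0, b := 1, d := d
      T := T, τ := 1 / 2, Λ := Λ, C0 := max 1 C, N := 1, hN := one_pos, M := ⟨N, N0⟩
      y1 := fun m => ⟨_, g1.mem N0 m⟩, y2 := fun m => ⟨_, g2.mem N0 m⟩
      π1 := 1, π2 := Polynomial.C (IntermediateField.AdjoinSimple.gen K β)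
      𝓕 := atTop ⊓ 𝓟 {m | ‖algebraMap K ℂ (y m) - β‖ ≤ C * ((1 / 2) ^ d ^ m) ^ T}
      hb := one_pos, hd := h.deg, T1 := T1, τ0 := by norm_num, τ1 := τ1, Λ1 := l0
      C1 := le_max_left _ _, hy1 := g1.nR N0 hΛ, hy2 := g2.nR N0 hΛ
      p1 := by simp, p2 := by simp, ne := frequently_iff_neBot.1 hN, le := inf_le_left
      apx := by
        filter_upwards [mem_inf_of_right (mem_principal_self _)] with m hm
        refine ⟨?_, ?_⟩
        · rw [map_pow, map_pow, map_ofNat, map_ofNat, pow_one, ← mul_pow, Polynomial.map_one,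
            eval_one]
          norm_num
        · rw [pow_zero, mul_one, map_C, eval_C, norm_pow, nτ]
          change ‖algebraMap K ℂ (y m) - β‖ ≤ _
          exact le_trans hm (by gcongr; exact le_max_right _ _) }
  have e : S.deg = (minpoly K β).natDegree :=
    congrArg natDegree (IntermediateField.minpoly_gen K β)
  rw [← e]
  refine S.tsc (L := L) (Th := k + 1) ⟨by omega, hTh, le_rfl, hT, ?_, e ▸ hL⟩
  rw [e, ← IntermediateField.adjoin.finrank hβ, Module.finrank_mul_finrank]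

theorem dsd2_fin [Algebra K ℂ] {f : K[X]} {y : ℕ → K} (h : Orb f y) {w : ℂ} (hw : IsIntegral K w)
    (hN : ∀ T, ∃ C : ℝ, ∃ᶠ m in atTop,
      ‖algebraMap K ℂ (y m) - w‖ ≤ C * ((1 / 2) ^ f.natDegree ^ m) ^ T) : Alg0 y := by
  obtain ⟨N, Λ, N0, hΛ, l1, g, -⟩ := exists_gr2 h h rfl rfl
  set μ := minpoly K w with hμ
  set P : MvPolynomial Unit K := aeval (MvPolynomial.X ()) μ with hP
  have ev : ∀ z : K, MvPolynomial.eval (fun _ => z) P = μ.eval z := fun z => by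
    rw [hP, ← MvPolynomial.coe_aeval_eq_eval, RingHom.coe_coe, ← aeval_algHom_apply,
      MvPolynomial.aeval_X, coe_aeval_eq_eval]
  obtain ⟨T, hT⟩ := exists_pow_lt_of_lt_one
    (x := ((Λ ^ P.totalDegree) ^ (3 * Module.finrank ℚ K))⁻¹)
    (by positivity) (show (1 / 2 : ℝ) < 1 by norm_num)
  obtain ⟨C, hC⟩ := hN T
  obtain ⟨q, hq⟩ := (dvd_iff_isRoot (p := μ.map (algebraMap K ℂ)) (a := w)).2
    (by rw [IsRoot, eval_map_algebraMap, minpoly.aeval])
  have nb := frequently_iff_neBot.1 hC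
  set 𝓕 := atTop ⊓ 𝓟 {m | ‖algebraMap K ℂ (y m) - w‖ ≤ C * ((1 / 2) ^ f.natDegree ^ m) ^ T}
  have h1 : (fun m => algebraMap K ℂ (y m) - w) =O[𝓕] fun m => ((1 / 2 : ℝ) ^ T) ^ f.natDegree ^ m :=
    IsBigO.of_bound C (by
      filter_upwards [mem_inf_of_right (mem_principal_self _)] with m hm
      rwa [Real.norm_of_nonneg (by positivity), ← pow_mul, mul_comm T, pow_mul])
  have h2 : (fun m => algebraMap K ℂ (y m)) =O[𝓕] fun _ => (1 : ℝ) :=
    ((h1.trans (IsBigO.of_bound' (.of_forall fun m => by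
      rw [Real.norm_of_nonneg (by positivity), norm_one]
      exact pow_le_one₀ (by positivity) (pow_le_one₀ (by norm_num) (by norm_num))))).add
      (isBigO_const_const w one_ne_zero _)).congr_left fun m => sub_add_cancel _ _
  have h3 := h1.mul (poly_bigO q (fun _ => le_rfl) h2)
  simp only [one_pow, mul_one] at h3
  have := lsMv (algebraMap K ℂ) (𝓕 := 𝓕) inf_le_left h.deg (x := fun _ => y) N0 hΛ (fun _ => g)
    (lam := (1 / 2) ^ T) (by positivity) P le_rfl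
    ((mul_lt_mul_of_pos_right hT (by positivity)).trans_eq (inv_mul_cancel₀ (by positivity)))
    (h3.congr_left fun m => by
      rw [ev, ← eval₂_at_apply, ← eval_map, hq, eval_mul, eval_sub, eval_X, eval_C])
  simp only [ev] at this
  refine alg0_of_freq h.step (algebraMap K ℂ) (finite_setOfPred_isRoot
    (Polynomial.map_ne_zero (minpoly.ne_zero hw) : μ.map (algebraMap K ℂ) ≠ 0))
    ((this.frequently.filter_mono inf_le_left).mono fun m hm => ?_)
  change eval _ _ = 0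
  rw [eval_map, eval₂_at_apply, hm, map_zero]

theorem dsd2_top {D c : ℕ} (hD : 2 ≤ D) (hc : 0 < c) (T : ℕ) :
    ∀ᶠ j in atTop, c * (D - 1) ^ j * T ≤ D ^ j := by
  have d0 : (0 : ℝ) < D := by positivity
  have t := (tendsto_pow_atTop_nhds_zero_of_lt_one (r := ((D - 1 : ℕ) : ℝ) / D) (by positivity)
    ((div_lt_one d0).2 (by exact_mod_cast (by omega)))).eventually
    (gt_mem_nhds (show (0 : ℝ) < 1 / (c * T + 1) by positivity))
  filter_upwards [t] with j hj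
  rw [div_pow, div_lt_div_iff₀ (by positivity) (by positivity), one_mul] at hj
  have : (D - 1) ^ j * (c * T + 1) < D ^ j := by exact_mod_cast hj
  nlinarith [Nat.zero_le ((D - 1) ^ j)]

/-- an orbit does not come too close to a fixed algebraic number -/
theorem sl (σ : K →+* ℂ) {f : K[X]} {y : ℕ → K} (h : Orb f y) (hN : NoTot (f.map σ)) {M : K[X]}
    (hM : M ≠ 0) {C lam : ℝ} (l0 : 0 ≤ lam) (l1 : lam < 1)
    (hf : ∃ᶠ n in atTop, ‖σ (M.eval (y n))‖ ≤ C * lam ^ f.natDegree ^ n) : Alg0 y := by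
  let := σ.toAlgebra
  have d2 := h.deg
  set d := f.natDegree with hd
  set g := f.map σ with hg
  have gd : g.natDegree = d := natDegree_map _
  obtain ⟨l, l2, l3, l4⟩ : ∃ l : ℝ, 0 < l ∧ l < 1 ∧ lam ≤ l :=
    ⟨max lam (1 / 2), lt_max_of_lt_right (by norm_num), max_lt l1 (by norm_num), le_max_left _ _⟩
  obtain ⟨s, hs⟩ := exists_pow_lt_of_lt_one (show (0 : ℝ) < 1 / 2 by norm_num) l3
  have s0 : 0 < s := Nat.pos_of_ne_zero (by rintro rfl; norm_num at hs)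
  have m0 : M.map σ ≠ 0 := Polynomial.map_ne_zero hM
  have hk : ∀ k, ∃ w : ℂ, aeval w (M.comp (iter f k)) = 0 ∧ IsIntegral K w ∧ ∃ e, 0 < e ∧
      e ≤ em (iter g k) w * M.natDegree ∧ (minpoly K w).natDegree * e ≤ M.natDegree * d ^ k ∧
      ∀ T, e * s * T ≤ d ^ k → ∃ C : ℝ, ∃ᶠ m in atTop,
        ‖algebraMap K ℂ (y m) - w‖ ≤ C * ((1 / 2) ^ d ^ m) ^ T := fun k => by
    have p0 : 0 < (iter g k).natDegree := by rw [iter_natDegree, gd]; positivity
    have H0 : M.comp (iter f k) ≠ 0 := fun e => by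
      rcases comp_eq_zero_iff.1 e with e | e
      · exact hM e
      · have := congrArg natDegree e.2
        rw [iter_natDegree, natDegree_C] at this
        exact (pow_pos (by omega) _).ne' this
    have He : (M.comp (iter f k)).map σ = (M.map σ).comp (iter g k) := by rw [map_comp, iter_map]
    have H1 : (M.comp (iter f k)).map σ ≠ 0 := Polynomial.map_ne_zero H0
    have hf' : ∃ᶠ m in atTop, ‖σ (M.eval (y (m + k)))‖ ≤ C * lam ^ d ^ (m + k) := by
      rw [← Filter.map_add_atTop_eq_nat k, frequently_map] at hf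
      exact hf
    have nb := frequently_iff_neBot.1 hf'
    obtain ⟨w, C1, hw, hn⟩ := root_near_mult H1 (𝓕 := atTop ⊓ 𝓟 {m | ‖σ (M.eval (y (m + k)))‖ ≤
      C * lam ^ d ^ (m + k)}) inf_le_left d2 (W := fun m => σ (y m)) (lam := l ^ d ^ k)
      (by positivity) (pow_lt_one₀ l2.le l3 (by positivity)) (IsBigO.of_bound |C| (by
        filter_upwards [mem_inf_of_right (mem_principal_self _)] with m hm
        rw [eval_map, eval₂_at_apply, eval_comp, ← step_iter h.step,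
          Real.norm_of_nonneg (by positivity), ← pow_mul, ← pow_add, add_comm k]
        exact le_trans hm (by gcongr; exact le_abs_self _)))
    have ha : aeval w (M.comp (iter f k)) = 0 := by rw [aeval_def, ← eval_map]; exact hw
    have hi : IsIntegral K w := IsAlgebraic.isIntegral ⟨_, H0, ha⟩
    refine ⟨w, ha, hi, _, (rootMultiplicity_pos H1).2 hw, ?_, ?_, fun T hT => ⟨max 1 C1, ?_⟩⟩
    · rw [He, rm_comp p0 m0]
      refine Nat.mul_le_mul_left _ ?_
      have := natDegree_le_of_dvd (pow_rootMultiplicity_dvd (M.map σ) ((iter g k).eval w)) m0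
      rwa [natDegree_pow, natDegree_X_sub_C, mul_one, natDegree_map] at this
    · have := deg_mult H0 hi
      rwa [natDegree_comp, iter_natDegree] at this
    · refine (hn.filter_mono inf_le_left).mono fun m hm => ?_
      have e0 := (rootMultiplicity_pos H1).2 hw
      set e := rootMultiplicity w ((M.comp (iter f k)).map σ)
      refine le_of_pow_le_pow_left₀ e0.ne' (by positivity) (hm.trans ?_)
      rw [mul_pow, ← pow_mul (1 / 2 : ℝ), ← pow_mul (1 / 2 : ℝ), mul_assoc, mul_comm (d ^ m),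
        pow_mul (1 / 2 : ℝ)]
      refine mul_le_mul ((le_max_right 1 C1).trans (le_self_pow₀ (le_max_left _ _) e0.ne'))
        (pow_le_pow_left₀ (by positivity) ?_ _) (by positivity) (by positivity)
      refine (pow_le_pow_of_le_one l2.le l3.le hT).trans ?_
      rw [show e * s * T = s * (T * e) by ring, pow_mul]
      exact pow_le_pow_left₀ (by positivity) hs.le _
  choose w w1 w2 e e0 e1 e2 e3 using hk
  have M0 : 0 < M.natDegree := by
    have := e0 0; have := e1 0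
    exact Nat.pos_of_ne_zero fun h0 => by rw [h0] at this; omega
  have big : ∀ T, ∀ᶠ j in atTop, e (2 * j) * s * T ≤ d ^ (2 * j) := fun T => by
    filter_upwards [dsd2_top (D := d ^ 2) (by nlinarith) (mul_pos M0 s0) T] with j hj
    have := (e1 (2 * j)).trans (Nat.mul_le_mul_right _ (em_even (gd ▸ d2) hN j _))
    rw [gd] at this
    rw [pow_mul]
    refine le_trans ?_ hj
    calc _ ≤ (d ^ 2 - 1) ^ j * M.natDegree * s * T := by gcongr
      _ = _ := by ring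
  obtain ⟨D0, T0, ts⟩ := ts2 h (2 * M.natDegree * s)
  have fin := north2 h.monic h.deg hM D0
  have : ∃ᶠ j in atTop, ∃ v ∈ {w : ℂ | (∃ k, aeval w (M.comp (iter f k)) = 0) ∧ IsIntegral K w ∧
      (minpoly K w).natDegree ≤ D0}, w (2 * j) = v := by
    refine ((big (T0 + 1)).mono fun j hj => ⟨_, ⟨⟨_, w1 _⟩, w2 _, ?_⟩, rfl⟩).frequently
    have es : 0 < e (2 * j) * s := mul_pos (e0 _) s0
    have hT : T0 + 1 ≤ d ^ (2 * j) / (e (2 * j) * s) :=
      (Nat.le_div_iff_mul_le es).2 (by rwa [mul_comm])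
    refine ts (d ^ (2 * j) / (e (2 * j) * s)) (by omega) _ (w2 _) ?_ (e3 _ _ (Nat.mul_div_le _ _))
    have h1 := Nat.lt_mul_div_succ (d ^ (2 * j)) es
    set t := d ^ (2 * j) / (e (2 * j) * s)
    refine Nat.le_of_mul_le_mul_right ((e2 _).trans ?_) (e0 (2 * j))
    calc _ ≤ M.natDegree * (e (2 * j) * s * (2 * t)) :=
          Nat.mul_le_mul_left _ (h1.le.trans (Nat.mul_le_mul_left _ (by omega)))
      _ = _ := by ring
  obtain ⟨v, hv, hfr⟩ := (frequently_exists_finite fin).1 this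
  refine dsd2_fin h hv.2.1 fun T => ?_
  obtain ⟨j, rfl, hj⟩ := (hfr.and_eventually (big T)).exists
  exact e3 _ T hj

end Pool.Agent.P.MP_68214b_ag.DS
end

-- part Pool.Agent.P.MP_68214b_ag.DSD6
section

open Polynomial Filter Asymptotics NumberField Topology

namespace Pool.Agent.P.MP_68214b_ag.DS

theorem root_of_tend {r c : ℂ} {d : ℕ} (hd : 2 ≤ d) (hc : c ≠ 0)
    (h : Tendsto (fun n => r ^ d ^ n) atTop (𝓝 c)) : ∃ k, 0 < k ∧ r ^ k = 1 := by
  obtain ⟨e, rfl⟩ : ∃ e, d = e + 1 := ⟨d - 1, by omega⟩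
  have h1 : c ^ e = 1 := by
    have a := (h.pow (e + 1)).congr fun n => by rw [← pow_mul, ← pow_succ]
    have b := tendsto_nhds_unique a (h.comp (tendsto_add_atTop_nat 1))
    exact mul_right_cancel₀ hc (by rw [← pow_succ, b, one_mul])
  have h2 : Tendsto (fun n => (r ^ e) ^ (e + 1) ^ n) atTop (𝓝 1) :=
    h1 ▸ (h.pow e).congr fun n => by rw [← pow_mul, mul_comm, pow_mul]
  have h3 : ‖r ^ e‖ = 1 := by
    rcases lt_trichotomy ‖r ^ e‖ 1 with a | a | a
    · exact absurd (tendsto_nhds_unique h2 (tend_ppC a hd)) one_ne_zero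
    · exact a
    · exact absurd (tend_pp_top a hd) (not_tendsto_atTop_of_tendsto_nhds
        (h2.norm.congr fun n => norm_pow _ _))
  have h4 := ((tendsto_iff_norm_sub_tendsto_zero.1 h2).const_mul (((e + 1 : ℕ) : ℝ) ^ 2)).eventually
    (ge_mem_nhds (show _ < 1 / 2 by simp))
  obtain ⟨n, hn⟩ := eventually_atTop.1 h4
  refine ⟨e * (e + 1) ^ n, mul_pos (by omega) (by positivity), ?_⟩
  rw [pow_mul]
  refine dsx5_one (by rw [norm_pow, h3, one_pow]) hd fun k => ?_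
  rw [← pow_mul, ← pow_add]
  exact hn _ (Nat.le_add_right _ _)

theorem rel_of_tend {u v c : ℂ} {d : ℕ} (hd : 2 ≤ d) (hc : c ≠ 0) (hv : v ≠ 0)
    (h : Tendsto (fun n => u ^ d ^ n * (v ^ d ^ n)⁻¹) atTop (𝓝 c)) :
    ∃ k, 0 < k ∧ u ^ k = v ^ k := by
  obtain ⟨k, hk, e⟩ := root_of_tend (r := u / v) hd hc (h.congr fun n => by
    rw [div_pow, div_eq_mul_inv])
  exact ⟨k, hk, by rwa [div_pow, div_eq_one_iff_eq (pow_ne_zero _ hv)] at e⟩

/-- closed form of the orbit of a special map -/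
def SpF (d : ℕ) (z : ℕ → ℂ) : Prop :=
  ∃ a b v η : ℂ, IsAlgebraic ℚ v ∧ v ≠ 0 ∧
    ∀ n, (z n - b) ^ 2 = a * (v ^ d ^ n + η * v⁻¹ ^ d ^ n) ^ 2

/-- closed form of the orbit of a power map -/
def Pw (d : ℕ) (z : ℕ → ℂ) : Prop :=
  ∃ a b v : ℂ, IsAlgebraic ℚ a ∧ IsAlgebraic ℚ b ∧ IsAlgebraic ℚ v ∧ ∀ n, z n = b + a * v ^ d ^ n

theorem SpF.prog {d : ℕ} {z : ℕ → ℂ} (h : SpF d z) (c l : ℕ) :
    SpF (d ^ l) fun t => z (c + l * t) := by
  obtain ⟨a, b, v, η, h1, h2, h⟩ := h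
  refine ⟨a, b, v ^ d ^ c, η, h1.pow _, pow_ne_zero _ h2, fun t => ?_⟩
  rw [h, ← inv_pow, ← pow_mul, ← pow_mul, ← pow_mul, ← pow_add]

theorem Pw.prog {d : ℕ} {z : ℕ → ℂ} (h : Pw d z) (c l : ℕ) :
    Pw (d ^ l) fun t => z (c + l * t) := by
  obtain ⟨a, b, v, h1, h2, h3, h⟩ := h
  refine ⟨a, b, v ^ d ^ c, h1, h2, h3.pow _, fun t => ?_⟩
  beta_reduce
  rw [h, ← pow_mul, ← pow_mul, ← pow_add]

theorem SpF.map {d : ℕ} {z : ℕ → ℂ} (h : SpF d z) (s : ℂ →+* ℂ) (κ : ℂ) :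
    SpF d fun n => s (κ * z n) := by
  obtain ⟨a, b, v, η, h1, h2, h⟩ := h
  refine ⟨s (κ ^ 2 * a), s (κ * b), s v, s η, h1.algHom s.toRatAlgHom, (_root_.map_ne_zero s).2 h2,
    fun n => ?_⟩
  simp only [← map_inv₀, ← map_pow, ← map_mul, ← map_add, ← map_sub]
  rw [← mul_sub, mul_pow, h, mul_assoc]

theorem Pw.map {d : ℕ} {z : ℕ → ℂ} (h : Pw d z) (s : ℂ →+* ℂ) {κ : ℂ} (hκ : IsAlgebraic ℚ κ) :
    Pw d fun n => s (κ * z n) := by
  obtain ⟨a, b, v, h1, h2, h3, h⟩ := h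
  refine ⟨s (κ * a), s (κ * b), s v, (hκ.mul h1).algHom s.toRatAlgHom,
    (hκ.mul h2).algHom s.toRatAlgHom, h3.algHom s.toRatAlgHom, fun n => ?_⟩
  simp only [← map_pow, ← map_mul, ← map_add]
  rw [h, mul_add, mul_assoc]

theorem SpF.alg {d : ℕ} (hd : 2 ≤ d) {z : ℕ → ℂ} (h : SpF d z) {u : ℂ} (hu : 1 < ‖u‖)
    (hz : Tendsto (fun n => z n * (u ^ d ^ n)⁻¹) atTop (𝓝 1)) : IsAlgebraic ℚ u := by
  obtain ⟨a, b, v, η, h1, h2, h⟩ := h
  have u0 : u ≠ 0 := norm_pos_iff.1 (one_pos.trans hu)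
  have t0 := dsb4_inv hu hd
  have key : ∀ w c : ℂ, IsAlgebraic ℚ w →
      Tendsto (fun n => c * (w / u) ^ d ^ n * (w / u) ^ d ^ n) atTop (𝓝 1) → IsAlgebraic ℚ u := by
    intro w c hw ht
    have c0 : c ≠ 0 := by rintro rfl; simp at ht
    obtain ⟨k, hk, e⟩ := root_of_tend (r := (w / u) ^ 2) hd (inv_ne_zero c0)
      ((by simpa using ht.const_mul c⁻¹ : Tendsto _ atTop (𝓝 c⁻¹)).congr fun n => by
        rw [← pow_mul, mul_comm 2, pow_mul]; field_simp)
    rw [← pow_mul, div_pow, div_eq_one_iff_eq (pow_ne_zero _ u0)] at e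
    exact IsAlgebraic.of_pow (n := 2 * k) (by omega) (e ▸ hw.pow _)
  have t1 : Tendsto (fun n => a * (v / u) ^ d ^ n * (v / u) ^ d ^ n +
      a * η ^ 2 * (v⁻¹ / u) ^ d ^ n * (v⁻¹ / u) ^ d ^ n) atTop (𝓝 1) := by
    have := ((hz.sub (t0.const_mul b)).pow 2).sub ((t0.pow 2).const_mul (2 * a * η))
    rw [show ((1 : ℂ) - b * 0) ^ 2 - 2 * a * η * 0 ^ 2 = 1 by simp] at this
    refine this.congr fun n => ?_
    have e := h n
    have v0 := pow_ne_zero (d ^ n) h2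
    have w0 := pow_ne_zero (d ^ n) u0
    simp only [div_pow, inv_pow] at e ⊢
    generalize v ^ d ^ n = V at *
    generalize u ^ d ^ n = U at *
    field_simp at e ⊢
    linear_combination e
  by_cases c : ‖v⁻¹ / u‖ < 1
  · have t2 := tend_ppC c hd
    have := t1.sub ((t2.const_mul (a * η ^ 2)).mul t2)
    rw [mul_zero, sub_zero] at this
    exact key v a h1 (this.congr fun n => by ring)
  · have v0 : 0 < ‖v‖ := norm_pos_iff.2 h2
    have t2 := tend_ppC (show ‖v / u‖ < 1 by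
      rw [norm_div, norm_inv, not_lt, le_div_iff₀ (by linarith), one_mul, le_inv_comm₀
        (by linarith) v0] at c
      rw [norm_div, div_lt_one (by linarith)]
      exact c.trans_lt ((inv_lt_one_of_one_lt₀ hu).trans hu)) hd
    exact key v⁻¹ (a * η ^ 2) h1.inv (by
      simpa only [add_sub_cancel_left, mul_zero, sub_zero] using t1.sub ((t2.const_mul a).mul t2))

theorem fix_alg {f : ℂ[X]} (hd : 2 ≤ f.natDegree) (hf : ∀ k, IsAlgebraic ℚ (f.coeff k)) {b c : ℂ}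
    (hc : IsAlgebraic ℚ c) (h : f.eval b = c + b) : IsAlgebraic ℚ b := by
  refine alg_root (g := f - (X + C c)) (fun e => ?_) (fun k => ?_) (by simp [h, add_comm])
  · rw [sub_eq_zero.1 e, natDegree_X_add_C] at hd
    omega
  · rw [coeff_sub, coeff_add, coeff_X, coeff_C]
    refine (hf k).sub (IsAlgebraic.add ?_ ?_) <;> split_ifs
    exacts [isAlgebraic_one, isAlgebraic_zero, hc, isAlgebraic_zero]

theorem pw_of {f : ℂ[X]} (hd : 2 ≤ f.natDegree) (hf : ∀ k, IsAlgebraic ℚ (f.coeff k)) {a b : ℂ}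
    (h : f = C a * (X - C b) ^ f.natDegree + C b) {z : ℕ → ℂ} (h0 : IsAlgebraic ℚ (z 0))
    (hz : ∀ n, z (n + 1) = f.eval (z n)) : Pw f.natDegree z := by
  have hb : IsAlgebraic ℚ b := fix_alg hd hf isAlgebraic_zero (by
    rw [h]; simp [show f.natDegree ≠ 0 by omega])
  have ha : f.coeff f.natDegree = a := by
    conv_lhs => enter [1]; rw [h]
    rw [coeff_add, coeff_C_mul, coeff_C_of_ne_zero (by omega), add_zero]
    have := ((monic_X_sub_C b).pow f.natDegree).coeff_natDegree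
    rw [natDegree_pow, natDegree_X_sub_C, mul_one] at this
    rw [this, mul_one]
  have a0 : a ≠ 0 := ha ▸ leadingCoeff_ne_zero.2 (ne_zero_of_natDegree_gt hd)
  obtain ⟨e, he⟩ : ∃ e, f.natDegree = e + 1 := ⟨_, (Nat.sub_add_cancel (by omega)).symm⟩
  obtain ⟨l, hl⟩ := IsAlgClosed.exists_pow_nat_eq a (show 0 < e by omega)
  have l0 : l ≠ 0 := by rintro rfl; exact a0 (by rw [← hl, zero_pow (by omega)])
  have la : IsAlgebraic ℚ l := IsAlgebraic.of_pow (show 0 < e by omega) (hl ▸ ha ▸ hf _)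
  refine ⟨l⁻¹, b, l * (z 0 - b), la.inv, hb, la.mul (h0.sub hb), fun n => ?_⟩
  induction n with
  | zero => simp [l0]
  | succ n ih =>
    have := congrArg (eval (z n)) h
    simp only [eval_add, eval_mul, eval_C, eval_pow, eval_sub, eval_X] at this
    rw [hz, this, pow_succ, pow_mul, ih, add_sub_cancel_left, ← hl]
    generalize (l * (z 0 - b)) ^ f.natDegree ^ n = W
    rw [he, mul_pow, pow_succ l⁻¹, inv_pow]
    field_simp
    ring

theorem spf_of {f : ℂ[X]} (hd : 2 ≤ f.natDegree) (hf : ∀ k, IsAlgebraic ℚ (f.coeff k))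
    (h : Special f) {z : ℕ → ℂ} (h0 : IsAlgebraic ℚ (z 0)) (hz : ∀ n, z (n + 1) = f.eval (z n))
    (hb : ∃ n, z n ≠ z 0) : SpF f.natDegree z := by
  obtain ⟨a, b, a0, T, hT, h⟩ := h
  have tc : ∀ k, IsAlgebraic ℚ ((Chebyshev.T ℂ f.natDegree).coeff k) := fun k => by
    rw [← Chebyshev.map_T (Int.castRingHom ℂ), coeff_map]
    exact isAlgebraic_intCast _
  have Ta : ∀ k, IsAlgebraic ℚ (T.coeff k) := fun k => by
    rcases hT with rfl | rfl | rfl
    · rw [coeff_X_pow]; split_ifs; exacts [isAlgebraic_one, isAlgebraic_zero]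
    · exact tc k
    · rw [coeff_neg]; exact (tc k).neg
  have l0 : f.leadingCoeff ≠ 0 := leadingCoeff_ne_zero.2 (ne_zero_of_natDegree_gt hd)
  have aa : IsAlgebraic ℚ a := by
    have d1 : (C a * X + C b).natDegree = 1 := natDegree_linear a0
    have e := leadingCoeff_comp (p := f) (q := C a * X + C b) (by omega)
    rw [leadingCoeff, natDegree_comp, d1, mul_one, h, leadingCoeff_linear a0, coeff_add,
      coeff_C_mul, coeff_C_of_ne_zero (by omega), add_zero] at e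
    obtain ⟨k, hk⟩ : ∃ k, f.natDegree = k + 1 := ⟨_, (Nat.sub_add_cancel (by omega)).symm⟩
    refine IsAlgebraic.of_pow (show 0 < k by omega) (?_ : IsAlgebraic ℚ (a ^ k))
    rw [show a ^ k = T.coeff f.natDegree * f.leadingCoeff⁻¹ by
      rw [hk, pow_succ] at e; rw [hk]; field_simp at e ⊢; linear_combination -e]
    exact (Ta _).mul (hf _).inv
  have ev : ∀ w, f.eval (a * w + b) = a * T.eval w + b := fun w => by
    simpa [eval_comp] using congrArg (eval w) h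
  have ba : IsAlgebraic ℚ b := fix_alg hd hf (aa.mul (Ta 0)) (by
    simpa [coeff_zero_eq_eval_zero] using ev 0)
  set w : ℕ → ℂ := fun n => (z n - b) * a⁻¹ with hw
  have e1 : ∀ n, z n = a * w n + b := fun n => by simp only [hw]; field_simp; ring
  have e2 : ∀ n, w (n + 1) = T.eval (w n) := fun n => by
    have := ev (w n)
    rw [← e1, ← hz, e1] at this
    exact mul_left_cancel₀ a0 (add_right_cancel this)
  have wa : IsAlgebraic ℚ (w 0) := (h0.sub ba).mul aa.inv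
  rcases hT with hT | hT
  · have e3 : ∀ n, w n = w 0 ^ f.natDegree ^ n := fun n => by
      induction n with
      | zero => simp
      | succ n ih => rw [e2, hT, eval_pow, eval_X, ih, ← pow_mul, ← pow_succ]
    refine ⟨a ^ 2, b, w 0, 0, wa, fun e => ?_, fun n => by rw [e1, e3 n]; ring⟩
    obtain ⟨n, hn⟩ := hb
    exact hn (by rw [e1, e1 0, e3 n, e, zero_pow (by positivity)])
  obtain ⟨θ, hθ⟩ := Complex.cos_surjective (w 0)
  have e3 : ∀ n, w n ^ 2 = Complex.cos ((f.natDegree ^ n : ℕ) * θ) ^ 2 := fun n => by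
    induction n with
    | zero => simp [hθ]
    | succ n ih =>
      have e4 : w (n + 1) ^ 2 = (Chebyshev.T ℂ f.natDegree).eval (w n) ^ 2 := by
        rcases hT with hT | hT <;> simp [e2, hT]
      have e5 := Chebyshev.T_complex_cos ((f.natDegree ^ n : ℕ) * θ) f.natDegree
      rw [Int.cast_natCast] at e5
      rw [e4, pow_succ f.natDegree, Nat.cast_mul, mul_comm _ (f.natDegree : ℂ), mul_assoc, ← e5]
      rcases sq_eq_sq_iff_eq_or_eq_neg.1 ih with e | e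
      · rw [e]
      · rw [e, Chebyshev.T_eval_neg, mul_pow]
        rcases Int.units_eq_one_or (f.natDegree : ℤ).negOnePow with e | e <;> simp [e]
  refine ⟨a ^ 2 / 4, b, Complex.exp (θ * Complex.I), 1, ?_, Complex.exp_ne_zero _, fun n => ?_⟩
  · have : (Complex.exp (θ * Complex.I) - w 0) ^ 2 = w 0 ^ 2 - 1 := by
      rw [Complex.exp_mul_I, ← hθ]
      linear_combination -Complex.sin_sq_add_cos_sq θ + Complex.sin θ ^ 2 * Complex.I_sq
    have := (IsAlgebraic.of_pow two_pos (this ▸ (wa.pow 2).sub isAlgebraic_one)).add wa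
    rwa [sub_add_cancel] at this
  · rw [e1, add_sub_cancel_right, mul_pow, e3, ← Complex.exp_neg, ← Complex.exp_nat_mul,
      ← Complex.exp_nat_mul, Complex.cos]
    ring_nf

theorem noTot_of' {g : ℂ[X]} (hd : 2 ≤ g.natDegree)
    (h : ¬ ∃ a b, g = C a * (X - C b) ^ g.natDegree + C b) : NoTot g := by
  intro E hE hne
  by_contra hc
  have hsub : {c | g.eval c ∈ E} ⊆ E := fun c h1 => by_contra fun h2 => hc ⟨c, h1, h2⟩
  have hg : 0 < g.natDegree := by omega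
  have hP := hE.subset hsub
  have him : (fun c => g.eval c) '' {c | g.eval c ∈ E} = E := by
    refine Set.Subset.antisymm ?_ fun v hv => ?_
    · rintro _ ⟨c, h1, rfl⟩
      exact h1
    · obtain ⟨c, rfl⟩ := eval_surj hg v
      exact ⟨c, hv, rfl⟩
  have h1 : E.ncard ≤ {c | g.eval c ∈ E}.ncard := by
    conv_lhs => rw [← him]
    exact Set.ncard_image_le hP
  have heq : {c | g.eval c ∈ E} = E := Set.eq_of_subset_of_ncard_le hsub h1 hE
  have hinj : Set.InjOn (fun c => g.eval c) {c | g.eval c ∈ E} :=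
    Set.injOn_of_ncard_image_eq (by rw [him, heq]) hP
  have hem : ∀ c, g.eval c ∈ E → g = C g.leadingCoeff * (X - C c) ^ g.natDegree + C (g.eval c) := by
    intro c h2
    refine em_top hg ?_
    rw [em, ← count_roots, ← natDegree_sub_C (a := g.eval c), ← IsAlgClosed.card_roots_eq_natDegree]
    refine Multiset.count_eq_card.2 fun r hr => ?_
    have h3 : g.eval r = g.eval c := by
      have := isRoot_of_mem_roots hr
      rwa [IsRoot, eval_sub, eval_C, sub_eq_zero] at this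
    exact hinj h2 (show g.eval r ∈ E from h3 ▸ h2) h3.symm
  obtain ⟨c, h2⟩ := hne
  have h3 : g.eval c ∈ E := (Set.ext_iff.1 heq c).2 h2
  have h4 : g.eval (g.eval c) ∈ E := (Set.ext_iff.1 heq _).2 h3
  have h5 := hem c h3
  have h6 := hem _ h4
  have h7 : g.eval c = c := by
    obtain ⟨e, he⟩ : ∃ e, g.natDegree = e + 1 + 1 := ⟨g.natDegree - 2, by omega⟩
    have hl : g.leadingCoeff ≠ 0 := leadingCoeff_ne_zero.2 (ne_zero_of_natDegree_gt hg)
    have h8 := congrArg (fun q => (derivative q).eval (g.eval c)) (h5.symm.trans h6)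
    simp only [he, dsa2_der, eval_mul, eval_C, eval_pow, eval_sub, eval_X, sub_self,
      zero_pow (Nat.succ_ne_zero e), mul_zero] at h8
    have h9 : ((e + 1 : ℕ) : ℂ) + 1 ≠ 0 := Nat.cast_add_one_ne_zero _
    exact sub_eq_zero.1 (pow_eq_zero_iff (Nat.succ_ne_zero e) |>.1
      ((mul_eq_zero.1 ((mul_eq_zero.1 h8).resolve_left hl)).resolve_left h9))
  rw [h7] at h5
  exact h ⟨_, _, h5⟩

theorem real_pow {d : ℕ} (hd : 2 ≤ d) {z : ℕ → ℂ} {u ρ : ℂ} (hρ : ρ ≠ 0) (hu : u ≠ 0)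
    (hz : Tendsto (fun n => z n * (u ^ d ^ n)⁻¹) atTop (𝓝 1)) (h : ∀ n, (ρ * z n).im = 0) :
    ∃ e, 0 < e ∧ u ^ e = (starRingEnd ℂ) u ^ e := by
  have c := (Complex.continuous_conj.tendsto _).comp (hz.const_mul ρ)
  have c0 : (starRingEnd ℂ) (ρ * 1) ≠ 0 := by simpa using hρ
  refine rel_of_tend hd (div_ne_zero c0 (by simpa using hρ : ρ * 1 ≠ 0)) (by simpa using hu)
    ((c.div (hz.const_mul ρ) (by simpa using hρ)).congr' ?_)
  filter_upwards [hz.eventually_ne one_ne_zero] with n hn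
  have e := Complex.conj_eq_iff_im.2 (h n)
  have z0 := left_ne_zero_of_mul hn
  have w0 := pow_ne_zero (d ^ n) hu
  simp only [Function.comp, Pi.div_apply, ← mul_assoc, map_mul _ (ρ * z n), e, map_inv₀, map_pow]
  field_simp

theorem real_pw {d : ℕ} (hd : 2 ≤ d) {a b u ρ : ℂ} (hρ : ρ ≠ 0) (ha : a ≠ 0) (hu : u ≠ 0)
    (h : ∀ n, (ρ * (b + a * u ^ d ^ n)).im = 0) : ∃ e, 0 < e ∧ u ^ e = (starRingEnd ℂ) u ^ e := by
  have e1 : ∀ n, (ρ * a * u ^ d ^ n).im = -(ρ * b).im := fun n => by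
    have := h n
    rw [mul_add, Complex.add_im, ← mul_assoc] at this
    linarith
  rcases lt_trichotomy ‖u‖ 1 with c | c | c
  · have t := (Complex.continuous_im.tendsto _).comp ((tend_ppC c hd).const_mul (ρ * a))
    have e2 : -(ρ * b).im = 0 := by
      simpa using tendsto_nhds_unique (tendsto_const_nhds.congr fun n => (e1 n).symm) t
    exact real_pow hd (z := fun n => u ^ d ^ n) (mul_ne_zero hρ ha) hu
      (tendsto_const_nhds.congr fun n => (mul_inv_cancel₀ (pow_ne_zero _ hu)).symm)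
      fun n => (e1 n).trans e2
  · have fin : (Set.range fun n => (ρ * a * u ^ d ^ n).re).Finite := by
      refine (Set.toFinite {(ρ * a * u).re, -(ρ * a * u).re}).subset ?_
      rintro _ ⟨n, rfl⟩
      have e2 : ‖ρ * a * u ^ d ^ n‖ ^ 2 = ‖ρ * a * u‖ ^ 2 := by simp [c]
      have e3 := e1 0
      rw [pow_zero, pow_one] at e3
      rw [Complex.sq_norm, Complex.sq_norm, Complex.normSq_apply, Complex.normSq_apply, e1, e3,
        add_left_inj] at e2
      exact mul_self_eq_mul_self_iff.1 e2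
    obtain ⟨m, n, hmn, e⟩ : ∃ m n, m < n ∧ (ρ * a * u ^ d ^ m).re = (ρ * a * u ^ d ^ n).re := by
      by_contra! hn
      exact Set.infinite_range_of_injective (Function.Injective.of_lt_imp_ne hn) fin
    have e2 := mul_left_cancel₀ (mul_ne_zero hρ ha) (Complex.ext e ((e1 m).trans (e1 n).symm))
    obtain ⟨k, hk⟩ := Nat.exists_eq_add_of_lt (Nat.pow_lt_pow_right (show 1 < d by omega) hmn)
    rw [hk, add_assoc, pow_add, left_eq_mul₀ (pow_ne_zero _ hu)] at e2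
    exact ⟨k + 1, k.succ_pos, by rw [← map_pow, e2, map_one]⟩
  · refine real_pow hd (z := fun n => a⁻¹ * (b + a * u ^ d ^ n)) (mul_ne_zero hρ ha) hu ?_
      fun n => by rw [mul_assoc, mul_inv_cancel_left₀ ha, h]
    have := ((dsb4_inv c hd).const_mul (a⁻¹ * b)).add_const 1
    rw [mul_zero, zero_add] at this
    exact this.congr fun n => by field_simp

end Pool.Agent.P.MP_68214b_ag.DS
end

-- part Pool.Agent.P.MP_68214b_ag.DSD7
section

open Polynomial Filter Asymptotics NumberField Topology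

namespace Pool.Agent.P.MP_68214b_ag.DS

theorem Orb.map {K L : Type*} [Field K] [Field L] {f : K[X]} {x : ℕ → K} (h : Orb f x)
    (c : K →+* L) : Orb (f.map c) fun n => c (x n) := by
  refine ⟨h.monic.map c, by rw [natDegree_map]; exact h.deg, fun n => ?_⟩
  rw [h.step, eval_map, eval₂_at_apply]

theorem Esc.map {K L : Type*} [Field K] [Field L] {σ : K →+* ℂ} {d : ℕ} {x : ℕ → K}
    {p : PowerSeries K} {u : ℂ} (h : Esc σ d x p u) {c : K →+* L} {σ' : L →+* ℂ}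
    (hc : ∀ y, σ' (c y) = σ y) : Esc σ' d (fun n => c (x n)) (PowerSeries.map c p) u := by
  refine ⟨h.one_lt, ?_, fun T => ?_⟩
  · rw [← PowerSeries.coeff_zero_eq_constantCoeff_apply, PowerSeries.coeff_map,
      PowerSeries.coeff_zero_eq_constantCoeff_apply, h.c0, map_one]
  · have e : PowerSeries.map σ' (PowerSeries.map c p) = PowerSeries.map σ p := by
      ext k
      simp only [PowerSeries.coeff_map, hc]
    simpa only [e, hc] using h.app T

theorem pw_orb {K : Type*} [Field K] {A : K} (hA : IsIntegral ℤ A) {d : ℕ} (hd : 2 ≤ d) :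
    Orb (X ^ d) fun n => A ^ d ^ n :=
  ⟨monic_X_pow d, by rwa [natDegree_X_pow], fun n => by rw [eval_pow, eval_X, ← pow_mul, pow_succ]⟩

theorem pw_esc {K : Type*} [Field K] (σ : K →+* ℂ) {A : K} (hA : 1 < ‖σ A‖) (d : ℕ) :
    Esc σ d (fun n => A ^ d ^ n) 1 (σ A) := by
  have A0 : σ A ≠ 0 := norm_pos_iff.1 (one_pos.trans hA)
  refine ⟨hA, map_one _, fun T => ?_⟩
  unfold As
  simp only [map_pow, map_one, mul_inv_cancel₀ (pow_ne_zero _ A0)]
  cases T with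
  | zero => simpa using isBigO_refl (fun _ => (1 : ℂ)) _
  | succ T => simpa using isBigO_zero _ _

theorem pw_bott {K : Type*} [Field K] {d : ℕ} (hd : 2 ≤ d) : Bott (X ^ d : K[X]) 1 := by
  unfold Bott
  rw [natDegree_X_pow, ex_eq (by omega), map_one, Finset.sum_eq_single d (fun j _ h => by
    simp [coeff_X_pow, h]) (by simp)]
  simp

theorem dsd7_den {α : ℂ} (h : IsAlgebraic ℚ α) (h0 : α ≠ 0) :
    ∃ N : ℕ, 2 ≤ N ∧ IsIntegral ℤ (N * α) ∧ 1 < ‖N * α‖ := by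
  obtain ⟨N, N0, hN⟩ := ((IsFractionRing.isAlgebraic_iff ℤ ℚ ℂ).2 h).exists_integral_multiple
  obtain ⟨k, hk⟩ := exists_nat_gt (max 2 ‖α‖⁻¹)
  have a0 := norm_pos_iff.2 h0
  have n1 : 1 ≤ N.natAbs := Int.natAbs_pos.2 N0
  have k2 : 2 < k := by exact_mod_cast (le_max_left _ _).trans_lt hk
  refine ⟨k * N.natAbs, by nlinarith, ?_, ?_⟩
  · rw [Nat.cast_mul, mul_assoc]
    refine (isIntegral_natCast k).mul ?_
    rw [zsmul_eq_mul] at hN
    rcases Int.natAbs_eq N with e | e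
    · rwa [← Int.cast_natCast, ← e]
    · rw [← Int.cast_natCast, show (N.natAbs : ℤ) = -N by omega, Int.cast_neg, neg_mul]
      exact hN.neg
  · have := (inv_lt_iff_one_lt_mul₀ a0).1 ((le_max_right _ _).trans_lt hk)
    rw [norm_mul, Complex.norm_natCast, Nat.cast_mul]
    have : (1 : ℝ) ≤ N.natAbs := by exact_mod_cast n1
    nlinarith [mul_le_mul_of_nonneg_left this (mul_pos (Nat.cast_pos.2 (by omega : 0 < k)) a0).le]

theorem rel_nat {N : ℕ} (hN : 2 ≤ N) : ¬ Rel (N : ℂ) ((N * (N + 1) : ℕ) : ℂ) := by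
  rintro ⟨a, b, -, hb, h⟩
  have e : N ^ a = (N * (N + 1)) ^ b := by exact_mod_cast h
  have := (Nat.Coprime.pow_right a (show (N + 1).Coprime N by simp)).eq_one_of_dvd
    (e ▸ (dvd_mul_left _ N).trans (dvd_pow_self _ hb.ne'))
  omega

theorem rel_mul {u v : ℂ} (hu : 1 < ‖u‖) (hv : 1 < ‖v‖) (h : Rel u (v * u)) : Rel u v := by
  obtain ⟨a, b, ha, hb, h⟩ := h
  have u0 : u ≠ 0 := norm_pos_iff.1 (one_pos.trans hu)
  have lt : b < a := by
    by_contra! hn
    have h1 := congrArg norm h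
    rw [mul_pow, norm_mul, norm_pow, norm_pow, norm_pow] at h1
    nlinarith [pow_le_pow_right₀ hu.le hn, one_lt_pow₀ hv hb.ne', pow_pos (one_pos.trans hu) b]
  obtain ⟨k, rfl⟩ := Nat.exists_eq_add_of_lt lt
  refine ⟨k + 1, b, k.succ_pos, hb, mul_right_cancel₀ (pow_ne_zero b u0) ?_⟩
  rw [← mul_pow, ← h]
  ring

variable {K : Type} [Field K] [NumberField K]

theorem ext_K (σ : K →+* ℂ) {α : ℂ} (h : IsAlgebraic ℚ α) :
    ∃ (L : IntermediateField ℚ ℂ) (ι : K →+* L), FiniteDimensional ℚ L ∧ α ∈ L ∧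
      ∀ y, algebraMap L ℂ (ι y) = σ y := by
  classical
  let b := Module.finBasis ℚ K
  obtain ⟨L, h1, -, h2⟩ := exists_K (insert α (Finset.univ.image fun i => σ (b i))) (by
    simp only [Finset.mem_insert, Finset.mem_image]
    rintro z (rfl | ⟨i, -, rfl⟩)
    exacts [h.isIntegral, (alg_emb σ _).isIntegral])
  refine ⟨L, σ.codRestrict L fun y => ?_, h1, h2 _ (by simp), fun y => rfl⟩
  rw [← b.sum_repr y, map_sum]
  refine sum_mem fun i _ => ?_
  rw [Rat.smul_def, map_mul, map_ratCast]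
  exact mul_mem (SubfieldClass.ratCast_mem L _) (h2 _ (by simp))

theorem st_aux {J : Type} [Fintype J] {σ : K →+* ℂ} {d : ℕ} {f : J → K[X]} {x : J → ℕ → K}
    {p : J → PowerSeries K} {u : J → ℂ} (hO : ∀ i, Orb (f i) (x i)) (hN : ∀ i, NSa (f i))
    (hd2 : 2 ≤ d) (hd : ∀ i, (f i).natDegree = d) (hE : ∀ i, Esc σ d (x i) (p i) (u i)) {α : ℂ}
    (hα : IsAlgebraic ℚ α) {N : ℕ} (h2 : 2 ≤ N) (hi : IsIntegral ℤ (N * α)) (h1 : 1 < ‖N * α‖)
    (μ : J ⊕ Bool → ℤ) (hμ : μ ≠ 0)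
    (h : ∏ i, Sum.elim u (fun b => cond b (N * α) N) i ^ μ i = 1) : ∃ i j, i ≠ j ∧ μ i ≠ 0 ∧
      μ j ≠ 0 ∧ Rel (Sum.elim u (fun b => cond b (N * α) N) i)
        (Sum.elim u (fun b => cond b (N * α) N) j) := by
  classical
  obtain ⟨L, ι, hL, hm, hι⟩ := ext_K σ hα
  have : NumberField L := ⟨⟩
  set A : Bool → L := fun b => cond b (N * ⟨α, hm⟩) N with hA
  have eA : ∀ b, algebraMap L ℂ (A b) = cond b (N * α) N := by rintro (_ | _) <;> simp [hA]
  have iA : ∀ b, IsIntegral ℤ (A b) := fun b =>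
    (isIntegral_algHom_iff (algebraMap L ℂ).toIntAlgHom (algebraMap L ℂ).injective).1 (by
      change IsIntegral ℤ (algebraMap L ℂ (A b))
      rw [eA]
      cases b
      exacts [isIntegral_natCast N, hi])
  have nA : ∀ b, 1 < ‖algebraMap L ℂ (A b)‖ := fun b => by
    rw [eA]
    cases b
    exacts [by simpa using show 1 < N from h2, h1]
  obtain ⟨i0, h0⟩ := Function.ne_iff.1 hμ
  obtain ⟨i, j, hij, hr⟩ := st (J := {i // μ i ≠ 0}) (σ := algebraMap L ℂ) (d := d)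
    (f := fun i => Sum.elim (fun i => (f i).map ι) (fun _ => X ^ d) i.1)
    (x := fun i => Sum.elim (fun i n => ι (x i n)) (fun b n => A b ^ d ^ n) i.1)
    (p := fun i => Sum.elim (fun i => PowerSeries.map ι (p i)) (fun _ => 1) i.1)
    (u := fun i => Sum.elim u (fun b => cond b (N * α) N) i.1)
    (by rintro ⟨i | i, -⟩; exacts [(hO i).map ι, pw_orb (iA i) hd2])
    (by
      have n : ∀ i, NSa ((f i).map ι) := fun i s => by rw [Polynomial.map_map]; exact hN i _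
      rintro ⟨i | i, hi⟩ ⟨j | j, hj⟩ ⟨k | k, hk⟩ a b c
      all_goals first
        | exact Or.inl (n _) | exact Or.inr (Or.inl (n _)) | exact Or.inr (Or.inr (n _))
        | cases i <;> cases j <;> cases k <;>
            first | exact absurd rfl a | exact absurd rfl b | exact absurd rfl c)
    (by rintro ⟨i | i, -⟩; exacts [(natDegree_map ι).trans (hd i), natDegree_X_pow d])
    (by rintro ⟨i | i, -⟩; exacts [(hE i).map hι, by simpa only [eA, Sum.elim_inr] using pw_esc _ (nA i) d])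
    (fun i => μ i) (fun e => h0 (congrFun e ⟨i0, h0⟩)) (by
      rw [← Finset.prod_subtype (Finset.univ.filter fun i => μ i ≠ 0) (by simp)
        fun i => Sum.elim u (fun b => cond b (N * α) N) i ^ μ i,
        Finset.prod_filter_of_ne (p := fun i => μ i ≠ 0) fun i _ hi e => hi (by rw [e, zpow_zero]), h])
  exact ⟨i, j, Subtype.coe_ne_coe.2 hij, i.2, j.2, hr⟩

theorem NSa.trans {σ : K →+* ℂ} {f : K[X]} {x : ℕ → K} {p : PowerSeries K} {u : ℂ} (hN : NSa f)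
    (hO : Orb f x) (hE : Esc σ f.natDegree x p u) : ¬ IsAlgebraic ℚ u := fun h => by
  have u0 : u ≠ 0 := norm_pos_iff.1 (one_pos.trans hE.one_lt)
  have key : ∀ N : ℕ, 2 ≤ N → IsIntegral ℤ (N * u) → Rel u N := fun N h2 hi => by
    have n1 : 1 < ‖(N : ℂ)‖ := by simpa using show 1 < N from h2
    obtain ⟨i, j, a, -, -, b⟩ := st_aux (J := Unit) (fun _ => hO) (fun _ => hN) hO.deg
      (fun _ => rfl) (fun _ => hE) h h2 hi (by rw [norm_mul]; nlinarith [hE.one_lt])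
      (Sum.elim 1 fun b => cond b (-1) 1) (fun e => by simpa using congrFun e (.inl ())) (by
        have : (N : ℂ) ≠ 0 := norm_pos_iff.1 (one_pos.trans n1)
        simp [Fintype.prod_sum_type]
        field_simp)
    have r1 := rel_mul hE.one_lt n1
    have r2 : Rel N (N * u) → Rel u N := fun e => (rel_mul n1 hE.one_lt (mul_comm u N ▸ e)).symm
    rcases i with i | _ | _ <;> rcases j with j | _ | _
    all_goals first
      | exact absurd rfl a | exact b | exact b.symm | exact r1 b | exact r1 b.symm | exact r2 b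
      | exact r2 b.symm
  obtain ⟨N, h2, hi, -⟩ := dsd7_den h u0
  refine rel_nat h2 ((key N h2 hi).symm.trans (key _ (by nlinarith) ?_))
  rw [Nat.cast_mul, mul_right_comm]
  exact hi.mul (isIntegral_natCast _)

theorem stA {J : Type} [Fintype J] {σ : K →+* ℂ} {d : ℕ} {f : J → K[X]} {x : J → ℕ → K}
    {p : J → PowerSeries K} {u : J → ℂ} (hO : ∀ i, Orb (f i) (x i)) (hN : ∀ i, NSa (f i))
    (hd : ∀ i, (f i).natDegree = d) (hE : ∀ i, Esc σ d (x i) (p i) (u i)) (μ : J → ℤ) (hμ : μ ≠ 0)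
    (h : IsAlgebraic ℚ (∏ i, u i ^ μ i)) : ∃ i j, i ≠ j ∧ Rel (u i) (u j) := by
  obtain ⟨i0, h0⟩ := Function.ne_iff.1 hμ
  have α0 : ∏ i, u i ^ μ i ≠ 0 := Finset.prod_ne_zero_iff.2 fun i _ =>
    zpow_ne_zero _ (norm_pos_iff.1 (one_pos.trans (hE i).one_lt))
  obtain ⟨N, h2, hi, h1⟩ := dsd7_den h α0
  have N0 : (N : ℂ) ≠ 0 := Nat.cast_ne_zero.2 (by omega)
  set α := ∏ i, u i ^ μ i with hα
  obtain ⟨k, e, k0, e1, e2⟩ : ∃ (k : ℕ) (e : Bool → ℤ), 0 < k ∧
      α ^ k * ((N * α) ^ e true * N ^ e false) = 1 ∧ (e true ≠ 0 → ¬ Rel (N * α) N) := by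
    by_cases c : Rel (N * α) N
    · obtain ⟨a, b, ha, -, c⟩ := c
      refine ⟨a, fun t => cond t 0 (a - b), ha, ?_, by simp⟩
      simp only [cond_true, cond_false, zpow_zero, one_mul, zpow_sub₀ N0, zpow_natCast, ← c, mul_pow]
      field_simp
    · exact ⟨1, fun t => cond t (-1) 1, one_pos, by simp; field_simp, fun _ => c⟩
  have al : ∀ b : Bool, IsAlgebraic ℚ (cond b (N * α) N : ℂ) := by
    rintro (_ | _)
    exacts [isAlgebraic_natCast N, (isAlgebraic_natCast N).mul h]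
  have tr : ∀ i v, IsAlgebraic ℚ v → ¬ Rel (u i) v := fun i v hv ⟨a, b, ha, _, e⟩ =>
    (hN i).trans (hO i) (hd i ▸ hE i) (IsAlgebraic.of_pow ha (e ▸ hv.pow b))
  obtain ⟨i, j, a, b, c, r⟩ := st_aux hO hN (hd i0 ▸ (hO i0).deg) hd hE h h2 hi h1
    (Sum.elim (fun i => μ i * k) e)
    (fun e => mul_ne_zero h0 (Int.natCast_ne_zero.2 k0.ne') (congrFun e (.inl i0))) (by
      simp only [Fintype.prod_sum_type, Sum.elim_inl, Sum.elim_inr, zpow_mul, zpow_natCast,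
        Finset.prod_pow, Fintype.prod_bool, cond_true, cond_false]
      exact e1)
  rcases i with i | i <;> rcases j with j | j
  · exact ⟨i, j, fun e => a (congrArg _ e), r⟩
  · exact absurd r (tr i _ (al j))
  · exact absurd r.symm (tr j _ (al i))
  · cases i <;> cases j
    exacts [absurd rfl a, absurd r.symm (e2 c), absurd r (e2 b), absurd rfl a]

theorem near_alg {γ β : ℂ} (hγ : IsAlgebraic ℚ γ) (h1 : ‖γ‖ = 1) (β0 : β ≠ 0)
    (hβ : IsAlgebraic ℚ β) {d : ℕ} (hd : 2 ≤ d) {C l : ℝ} (l0 : 0 ≤ l) (l1 : l < 1)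
    (h : ∃ᶠ n in atTop, ‖γ ^ d ^ n - β‖ ≤ C * l ^ d ^ n) : ∃ k, 0 < k ∧ γ ^ k = 1 := by
  obtain ⟨N, h2, hi, n1⟩ := dsd7_den hγ (by rintro rfl; simp at h1)
  obtain ⟨L, -, hL, hm, -⟩ := ext_K (algebraMap ℚ ℂ) hγ
  have : NumberField L := ⟨⟩
  have N0 : (N : ℂ) ≠ 0 := Nat.cast_ne_zero.2 (by omega)
  have eA : algebraMap L ℂ (N * ⟨γ, hm⟩) = N * γ := by simp
  have eB : algebraMap L ℂ N = N := map_natCast _ _
  have e1 := pw_esc (algebraMap L ℂ) (eA ▸ n1) d
  have e2 := pw_esc (algebraMap L ℂ) (A := N) (by simpa using show 1 < N from h2) d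
  obtain ⟨a, b, ha, -, e⟩ := be hd e1 e2 (pt (pw_orb ((isIntegral_algHom_iff
    (algebraMap L ℂ).toIntAlgHom (algebraMap L ℂ).injective).1 (by
      change IsIntegral ℤ (algebraMap L ℂ _)
      rwa [eA])) hd) (pw_orb (isIntegral_natCast N) hd) (natDegree_X_pow d) (natDegree_X_pow d)
    (pw_bott hd) (pw_bott hd) e1 e2 one_pos one_pos β0 hβ (C := C) l0 l1 (h.mono fun n hn => by
      rwa [eA, eB, pow_one, pow_one, ← div_pow, mul_div_cancel_left₀ _ N0]))
  rw [eA, eB] at e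
  have := congrArg norm e
  rw [norm_pow, norm_pow, norm_mul, h1, mul_one, Complex.norm_natCast] at this
  obtain rfl : a = b := pow_right_injective₀ (by positivity) (by norm_cast; omega) this
  exact ⟨a, ha, mul_left_cancel₀ (pow_ne_zero a N0) (by rw [← mul_pow, e, mul_one])⟩

theorem unb_of_dep (σ : K →+* ℂ) {g : K[X]} {x y : ℕ → K} {p : PowerSeries K} {u : ℂ}
    (hO : Orb g y) (hN : NoTot (g.map σ)) (hE : Esc σ g.natDegree x p u) (h : Dep y x)
    (hb : Bdd σ y) : Alg0 y := by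
  obtain ⟨G, G0, hG⟩ := h
  obtain ⟨B, hB⟩ := hb
  have u0 : u ≠ 0 := norm_pos_iff.1 (one_pos.trans hE.one_lt)
  have e1 := (hE.tendsto hO.deg).eventually_ge_atTop 1
  have t1 : (fun n => (σ (x n))⁻¹) =O[atTop] fun n => ‖u‖⁻¹ ^ g.natDegree ^ n := by
    have := (((hE.lim hO.deg).inv₀ one_ne_zero).isBigO_one ℝ).mul
      (isBigO_refl (fun n => (u ^ g.natDegree ^ n)⁻¹) atTop).norm_right
    refine this.congr (fun n => by field_simp) fun n => by simp
  have t2 : (fun n => -∑ j ∈ Finset.range G.natDegree, ((G.coeff j).map σ).eval (σ (y n)) *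
      (σ (x n))⁻¹ ^ (G.natDegree - j)) =O[atTop] fun n => (σ (x n))⁻¹ := by
    refine (IsBigO.fun_sum fun j hj => ?_).neg_left
    have a := poly_bigO (𝓕 := atTop) ((G.coeff j).map σ) (z := fun n => σ (y n)) (B := fun _ => 1)
      (fun _ => le_rfl) (IsBigO.of_bound B (.of_forall fun n => by simpa using hB n))
    have b : (fun n => (σ (x n))⁻¹ ^ (G.natDegree - j)) =O[atTop] fun n => ‖(σ (x n))⁻¹‖ :=
      IsBigO.of_bound' (e1.mono fun n hn => by
        rw [norm_pow, norm_norm]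
        exact pow_le_of_le_one (norm_nonneg _) (by rw [norm_inv]; exact inv_le_one_of_one_le₀ hn)
          (by have := Finset.mem_range.1 hj; omega))
    simpa only [one_pow, one_mul, isBigO_norm_right] using a.mul b
  obtain ⟨C, hC⟩ := (t2.trans t1).bound
  refine sl σ hO hN (leadingCoeff_ne_zero.2 G0) (C := C) (by positivity)
    (inv_lt_one_of_one_lt₀ hE.one_lt) ((hC.and (hG.and e1)).mono fun n ⟨a, b, c⟩ => ?_).frequently
  have x0 : σ (x n) ≠ 0 := norm_pos_iff.1 (one_pos.trans_le c)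
  refine le_trans (le_of_eq (congrArg norm ?_)) (a.trans (by rw [Real.norm_of_nonneg (by positivity)]))
  have b' := congrArg σ b
  rw [evalEval, eval_eq_sum_range (p := G), eval_finsetSum, Finset.sum_range_succ, map_add, map_sum, map_zero,
    add_comm, ← eq_neg_iff_add_eq_zero] at b'
  simp only [eval_mul, eval_pow, eval_C, map_mul, map_pow] at b'
  rw [leadingCoeff, ← mul_left_inj' (pow_ne_zero G.natDegree x0), b', neg_mul, Finset.sum_mul]
  refine congrArg _ (Finset.sum_congr rfl fun j hj => ?_)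
  obtain ⟨k, hk⟩ := Nat.exists_eq_add_of_le (Finset.mem_range.1 hj).le
  rw [eval_map, eval₂_at_apply, hk, Nat.add_sub_cancel_left, inv_pow]
  field_simp
  ring

end Pool.Agent.P.MP_68214b_ag.DS
end

-- part Pool.Agent.P.MP_68214b_ag.DSD3
section

open Polynomial Filter Asymptotics NumberField Topology

namespace Pool.Agent.P.MP_68214b_ag.DS

theorem exists_log {I : Type*} [Fintype I] (u : I → ℂ) (hu : ∀ i, u i ≠ 0) :
    ∃ (ω ζ : I → ℂ) (t : ℕ), 0 < t ∧ (∀ i, u i = ζ i * Complex.exp (ω i) ∧ ζ i ^ t = 1) ∧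
      ∀ w ∈ Submodule.span ℚ (Set.range ω), ∀ n : ℤ, w.im = n * Real.pi → w.im = 0 := by
  obtain ⟨l0, hl0⟩ := Module.Projective.exists_dual_eq_one ℚ Real.two_pi_pos.ne'
  set lam : ℂ →ₗ[ℚ] ℚ := l0.comp (Complex.imLm.restrictScalars ℚ) with hlam
  have hl : lam (2 * Real.pi * Complex.I) = 1 := by simpa [hlam] using hl0
  refine ⟨fun i => (u i).log - lam (u i).log • (2 * Real.pi * Complex.I),
    fun i => Complex.exp (lam (u i).log • (2 * Real.pi * Complex.I)), ∏ i, (lam (u i).log).den,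
    Finset.prod_pos fun i _ => Rat.den_pos _, fun i => ⟨?_, ?_⟩, fun w hw n h => ?_⟩
  · rw [← Complex.exp_add, add_sub_cancel, Complex.exp_log (hu i)]
  · obtain ⟨k, hk⟩ := Finset.dvd_prod_of_mem (fun i => (lam (u i).log).den) (Finset.mem_univ i)
    rw [hk, pow_mul, ← Complex.exp_nat_mul, Rat.smul_def, ← mul_assoc,
      show (((lam (u i).log).den : ℂ) * (lam (u i).log : ℚ)) = ((lam (u i).log).num : ℂ) by
        exact_mod_cast Rat.den_mul_eq_num _, Complex.exp_int_mul_two_pi_mul_I, one_pow]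
  · have h0 : lam w = 0 := by
      refine (Submodule.span_le (p := LinearMap.ker lam)).2 ?_ hw
      rintro _ ⟨i, rfl⟩
      simp only [SetLike.mem_coe, LinearMap.mem_ker, map_sub, map_smul, hl, smul_eq_mul, mul_one,
        sub_self]
    have h1 : w.im = ((n : ℚ) / 2) • (2 * Real.pi) := by rw [h, Rat.smul_def]; push_cast; ring
    have h2 : lam w = n / 2 := by
      change l0 w.im = _
      rw [h1, map_smul, hl0, smul_eq_mul, mul_one]
    rw [h1, ← h2, h0, zero_smul]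

theorem log_inj {Γ : Submodule ℚ ℂ} (hi : ∀ w ∈ Γ, ∀ n : ℤ, w.im = n * Real.pi → w.im = 0) :
    ∀ w ∈ Γ, Complex.exp w = 1 → w = 0 := fun w hw h => by
  obtain ⟨n, hn⟩ := Complex.exp_eq_one_iff.1 h
  exact Complex.ext (by simp [hn]) (hi w hw (2 * n) (by simp [hn]; ring))

theorem log_pow {u ω ζ : ℂ} {t : ℕ} (h : u = ζ * Complex.exp ω ∧ ζ ^ t = 1) (k : ℕ) :
    u ^ (k * t) = Complex.exp (t * (k * ω)) := by
  rw [h.1, mul_pow, mul_comm k, pow_mul ζ, h.2, one_pow, one_mul, ← Complex.exp_nat_mul,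
    Nat.cast_mul, mul_assoc]

theorem log_real {Γ : Submodule ℚ ℂ} (hi : ∀ w ∈ Γ, ∀ n : ℤ, w.im = n * Real.pi → w.im = 0)
    {u ω ζ : ℂ} {t : ℕ} (ht : 0 < t) (h : u = ζ * Complex.exp ω ∧ ζ ^ t = 1) (hω : ω ∈ Γ) {e : ℕ}
    (he : 0 < e) (hu : u ^ e = (starRingEnd ℂ) u ^ e) : ω.im = 0 := by
  have h1 : Complex.exp (t * (e * ω)) = (starRingEnd ℂ) (Complex.exp (t * (e * ω))) := by
    rw [← log_pow h, map_pow, pow_mul, pow_mul, hu]
  rw [← Complex.exp_conj, Complex.exp_eq_exp_iff_exists_int] at h1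
  obtain ⟨n, hn⟩ := h1
  have h2 := congrArg Complex.im hn
  have h3 := hi (((t * e : ℕ) : ℚ) • ω) (Γ.smul_mem _ hω) n (by
    simp [Rat.smul_def] at h2 ⊢; linarith)
  simpa [Rat.smul_def, ht.ne', he.ne'] using h3

theorem rel_conj_pow {u : ℂ} (hu : 1 < ‖u‖) (h : Rel u ((starRingEnd ℂ) u)) :
    ∃ e : ℕ, 0 < e ∧ u ^ e = (starRingEnd ℂ) u ^ e := by
  obtain ⟨a, b, ha, -, h⟩ := h
  have := congrArg norm h
  rw [norm_pow, norm_pow, RCLike.norm_conj] at this
  obtain rfl : a = b := pow_right_injective₀ (by linarith) hu.ne' this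
  exact ⟨a, ha, h⟩

theorem tie1 {I : Type*} {ω : I → ℂ} (δ : ℂ) (hδ : δ.re = 0)
    (h : ∀ i, ∃ q : ℚ, (ω i).im = q * δ.im) :
    ∀ w ∈ Submodule.span ℚ (Set.range ω), w.re = 0 → ∃ q : ℚ, w = q • δ := fun w hw h0 => by
  obtain ⟨q, hq⟩ : ∃ q : ℚ, w.im = q * δ.im := by
    clear h0
    induction hw using Submodule.span_induction with
    | mem w hw => obtain ⟨i, rfl⟩ := hw; exact h i
    | zero => exact ⟨0, by simp⟩
    | add v w _ _ a b =>
      obtain ⟨q, hq⟩ := a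
      obtain ⟨r, hr⟩ := b
      exact ⟨q + r, by simp [hq, hr, add_mul]⟩
    | smul q w _ a =>
      obtain ⟨r, hr⟩ := a
      exact ⟨q * r, by simp [Rat.smul_def, hr, mul_assoc]⟩
  exact ⟨q, Complex.ext (by simp [Rat.smul_def, h0, hδ]) (by simp [Rat.smul_def, hq])⟩

/-- logarithms of algebraic numbers -/
noncomputable def algLog : Submodule ℚ ℂ where
  carrier := {w | IsAlgebraic ℚ (Complex.exp w)}
  add_mem' := fun {a b} ha hb => by rw [Set.mem_ofPred, Complex.exp_add]; exact ha.mul hb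
  zero_mem' := by simpa using isAlgebraic_one
  smul_mem' := fun q w hw => IsAlgebraic.of_pow q.den_pos (by
    rw [← Complex.exp_nat_mul, Rat.smul_def, ← mul_assoc,
      show ((q.den : ℂ) * q) = q.num by exact_mod_cast Rat.den_mul_eq_num _, Complex.exp_int_mul]
    obtain ⟨k, e | e⟩ := q.num.eq_nat_or_neg <;> rw [e]
    · simpa using IsAlgebraic.pow hw k
    · simpa using (IsAlgebraic.pow hw k).inv)

theorem mem_algLog {w : ℂ} : w ∈ algLog ↔ IsAlgebraic ℚ (Complex.exp w) := Iff.rfl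

theorem re_algLog {w : ℂ} (h : w ∈ algLog) : (w.re : ℂ) ∈ algLog := by
  have h2 : (starRingEnd ℂ) w ∈ algLog := by
    rw [mem_algLog, Complex.exp_conj]
    exact (mem_algLog.1 h).algHom (starRingEnd ℂ).toRatAlgHom
  have := algLog.smul_mem (1 / 2 : ℚ) (add_mem h h2)
  rwa [Complex.add_conj, Rat.smul_def, show (((1 / 2 : ℚ) : ℂ) * (2 * w.re : ℝ)) = w.re by
    push_cast; ring] at this

variable {K : Type} [Field K] [NumberField K]

theorem dsd3_gen (hK : Cj K) {I : Type} [Fintype I] [Nonempty I] {σ : K →+* ℂ} {d : ℕ}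
    {f : I → K[X]} {x : I → ℕ → K} {p : I → PowerSeries K} {u : I → ℂ} (hO : ∀ i, Orb (f i) (x i))
    (hN : ∀ i, NSa (f i)) (hd : ∀ i, (f i).natDegree = d)
    (hE : ∀ i, Esc σ d (x i) (p i) (u i)) (hR : ∀ i j, Rel (u i) (u j) → i = j) (m : I → ℤ)
    (hm : ∀ i, m i ≠ 0) (h : IsAlgebraic ℚ ((∏ i, ‖u i‖ ^ m i : ℝ) : ℂ)) : ∃ i j, i ≠ j ∧
      Rel (u i) ((starRingEnd ℂ) (u j)) ∧ ¬ Rel (u j) ((starRingEnd ℂ) (u j)) := by
  classical
  obtain ⟨c, hc⟩ := hK σ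
  set S : I → Prop := fun i => Rel (u i) ((starRingEnd ℂ) (u i)) with hS
  have he : ∀ i, ∃ e : ℕ, 0 < e ∧ (S i → u i ^ (2 * e) = (u i * (starRingEnd ℂ) (u i)) ^ e) :=
    fun i => by
      by_cases h : S i
      · obtain ⟨e, a, b⟩ := self_pow (hE i).one_lt h
        exact ⟨e, a, fun _ => b⟩
      · exact ⟨1, one_pos, fun h' => absurd h' h⟩
  choose e e0 e1 using he
  have E0 : 0 < ∏ i, e i := Finset.prod_pos fun i _ => e0 i
  have E1 : ∀ i, S i → u i ^ (2 * ∏ i, e i) = (u i * (starRingEnd ℂ) (u i)) ^ ∏ i, e i :=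
    fun i h => by
      obtain ⟨k, hk⟩ := Finset.dvd_prod_of_mem e (Finset.mem_univ i)
      rw [hk, ← mul_assoc, pow_mul, e1 i h, pow_mul]
  generalize ∏ i, e i = E at E0 E1
  obtain ⟨a, a', hne, hr⟩ := stA (J := I ⊕ {i // ¬ S i}) (σ := σ) (d := d)
    (f := Sum.elim f fun i => (f i).map c) (x := Sum.elim x fun i n => c (x i n))
    (p := Sum.elim p fun i => PowerSeries.map c (p i))
    (u := Sum.elim u fun i => (starRingEnd ℂ) (u i))
    (by rintro (i | i); exacts [hO i, (hO i).conj c])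
    (by rintro (i | i); exacts [hN i, (hN i).map c])
    (by rintro (i | i); exacts [hd i, (natDegree_map c).trans (hd i)])
    (by rintro (i | i); exacts [hE i, (hE i).conj hc])
    (Sum.elim (fun i => if S i then (2 * E : ℕ) * m i else E * m i) fun i => E * m i)
    (fun h0 => by
      have := congrFun h0 (Sum.inl (Classical.arbitrary I))
      simp only [Sum.elim_inl, Pi.zero_apply] at this
      split_ifs at this <;> simp [hm, E0.ne'] at this)
    (by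
      rw [Fintype.prod_sum_type]
      simp only [Sum.elim_inl, Sum.elim_inr]
      rw [← Finset.prod_subtype (Finset.univ.filter fun i => ¬ S i) (by simp)
        fun i => (starRingEnd ℂ) (u i) ^ ((E : ℤ) * m i), Finset.prod_filter,
        ← Finset.prod_mul_distrib]
      have h1 := h.pow (2 * E)
      rw [Complex.ofReal_prod, ← Finset.prod_pow] at h1
      refine (congrArg (IsAlgebraic ℚ) (Finset.prod_congr rfl fun i _ => ?_)).mpr h1
      have h2 : (((‖u i‖ ^ m i : ℝ) : ℂ)) ^ (2 * E) =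
          ((u i * (starRingEnd ℂ) (u i)) ^ E) ^ m i := by
        rw [Complex.mul_conj', ← pow_mul, Complex.ofReal_zpow, ← zpow_natCast, ← zpow_natCast,
          ← zpow_mul, ← zpow_mul, mul_comm]
      rw [h2]
      by_cases hs : S i
      · rw [if_pos hs, if_neg (not_not.2 hs), mul_one, zpow_mul, zpow_natCast, E1 i hs]
      · rw [if_neg hs, if_pos hs, ← mul_zpow, zpow_mul, zpow_natCast])
  rcases a with i | i <;> rcases a' with j | j
  · exact absurd (congrArg Sum.inl (hR i j hr)) hne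
  · exact ⟨i, j, fun e => j.2 (by subst e; exact hr), hr, j.2⟩
  · exact ⟨j, i, fun e => i.2 (by subst e; exact hr.symm), hr.symm, i.2⟩
  · exact absurd (congrArg Sum.inr (Subtype.ext (hR i j (by simpa using hr.conj)))) hne

theorem gen0 (hK : Cj K) {I : Type} [Fintype I] {σ : K →+* ℂ} {d : ℕ}
    {f : I → K[X]} {x : I → ℕ → K} {p : I → PowerSeries K} {u : I → ℂ} (hO : ∀ i, Orb (f i) (x i))
    (hN : ∀ i, NSa (f i)) (hd : ∀ i, (f i).natDegree = d)
    (hE : ∀ i, Esc σ d (x i) (p i) (u i)) (m : I → ℚ)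
    (hR : ∀ i j, m i ≠ 0 → m j ≠ 0 → Rel (u i) (u j) → i = j) (hm : m ≠ 0)
    (h : ((∑ i, (m i : ℝ) * Real.log ‖u i‖ : ℝ) : ℂ) ∈ algLog) : ∃ i j, i ≠ j ∧ m i ≠ 0 ∧ m j ≠ 0 ∧
      Rel (u i) ((starRingEnd ℂ) (u j)) ∧ ¬ Rel (u i) ((starRingEnd ℂ) (u i)) ∧
      ¬ Rel (u j) ((starRingEnd ℂ) (u j)) := by
  classical
  obtain ⟨i0, h0⟩ := Function.ne_iff.1 hm
  have : Nonempty {i // m i ≠ 0} := ⟨⟨i0, h0⟩⟩
  obtain ⟨N, hN'⟩ := IsLocalization.exist_integer_multiples_of_finite (nonZeroDivisors ℤ) m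
  choose k hk using hN'
  have N0 : (N : ℤ) ≠ 0 := nonZeroDivisors.coe_ne_zero N
  have hk' : ∀ i, (k i : ℚ) = (N : ℤ) * m i := fun i => by simpa using hk i
  have u0 : ∀ i, 0 < ‖u i‖ := fun i => one_pos.trans (hE i).one_lt
  obtain ⟨i, j, hij, h1, h2⟩ := dsd3_gen hK (I := {i // m i ≠ 0}) (f := fun i => f i)
    (x := fun i => x i) (p := fun i => p i) (u := fun i => u i) (fun i => hO i)
    (fun i => hN i) (fun i => hd i) (fun i => hE i)
    (fun i j h => Subtype.ext (hR i j i.2 j.2 h)) (fun i => k i)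
    (fun i e => mul_ne_zero (Int.cast_ne_zero.2 N0) i.2 (by rw [← hk', e, Int.cast_zero])) (by
      rw [← Finset.prod_subtype (Finset.univ.filter fun i => m i ≠ 0) (by simp)
        fun i => ‖u i‖ ^ k i, Finset.prod_filter_of_ne (p := fun i => m i ≠ 0) fun i _ hi e => hi (by
          have := hk' i
          rw [e, mul_zero, Int.cast_eq_zero] at this
          rw [this, zpow_zero])]
      have h2 := mem_algLog.1 (algLog.smul_mem ((N : ℤ) : ℚ) h)
      rw [← Real.exp_log (Finset.prod_pos fun i _ => zpow_pos (u0 i) _), Complex.ofReal_exp,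
        Real.log_prod fun i _ => (zpow_pos (u0 i) _).ne']
      rw [Rat.smul_def, ← Complex.ofReal_ratCast, ← Complex.ofReal_mul, Finset.mul_sum] at h2
      refine (congrArg (fun r : ℝ => IsAlgebraic ℚ (Complex.exp r))
        (Finset.sum_congr rfl fun i _ => ?_)).mp h2
      rw [Real.log_zpow, ← mul_assoc]
      congr 1
      exact_mod_cast (hk' i).symm)
  refine ⟨i, j, Subtype.coe_ne_coe.2 hij, i.2, j.2, h1, fun h3 => hij (Subtype.ext
    (hR i j i.2 j.2 ?_)), h2⟩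
  simpa using (h3.symm.trans h1).conj

theorem log_rel {I : Type*} {u ω ζ : I → ℂ} {t : ℕ} (ht : 0 < t)
    (hω : ∀ i, u i = ζ i * Complex.exp (ω i) ∧ ζ i ^ t = 1)
    (hi : ∀ w ∈ Submodule.span ℚ (Set.range ω), Complex.exp w = 1 → w = 0) {i j : I}
    (h : Rel (u i) (u j)) : ∃ q : ℚ, ω i = q • ω j := by
  obtain ⟨a, b, ha, -, h⟩ := h
  have e : ∀ i k, (u i ^ k) ^ t = Complex.exp (((k * t : ℕ) : ℚ) • ω i) := fun i k => by
    rw [← pow_mul, (hω i).1, mul_pow, mul_comm k, pow_mul (ζ i), (hω i).2, one_pow, one_mul,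
      ← Complex.exp_nat_mul, Rat.smul_def, Rat.cast_natCast]
  have := hi (((a * t : ℕ) : ℚ) • ω i - ((b * t : ℕ) : ℚ) • ω j)
    (sub_mem (Submodule.smul_mem _ _ (Submodule.subset_span ⟨i, rfl⟩))
      (Submodule.smul_mem _ _ (Submodule.subset_span ⟨j, rfl⟩)))
    (by rw [Complex.exp_sub, ← e, ← e, h, e, div_self (Complex.exp_ne_zero _)])
  have h0 : ((a * t : ℕ) : ℚ) ≠ 0 := Nat.cast_ne_zero.2 (mul_pos ha ht).ne'
  refine ⟨((a * t : ℕ) : ℚ)⁻¹ * (b * t : ℕ), ?_⟩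
  rw [mul_smul, ← sub_eq_zero.1 this, inv_smul_smul₀ h0]

theorem log_re {u ω ζ : ℂ} {t : ℕ} (ht : 0 < t) (h : u = ζ * Complex.exp ω ∧ ζ ^ t = 1) :
    ω.re = Real.log ‖u‖ := by
  rw [h.1, norm_mul, Complex.norm_eq_one_of_pow_eq_one h.2 ht.ne', one_mul, Complex.norm_exp,
    Real.log_exp]

theorem tie (hK : Cj K) {I : Type} [Fintype I] {σ : K →+* ℂ} {d : ℕ}
    {f : I → K[X]} {x : I → ℕ → K} {p : I → PowerSeries K} {u : I → ℂ} (hO : ∀ i, Orb (f i) (x i))
    (hN : ∀ i, NSa (f i)) (hd : ∀ i, (f i).natDegree = d)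
    (hE : ∀ i, Esc σ d (x i) (p i) (u i)) {ω ζ : I → ℂ} {t : ℕ} (ht : 0 < t)
    (hω : ∀ i, u i = ζ i * Complex.exp (ω i) ∧ ζ i ^ t = 1)
    (hi : ∀ w ∈ Submodule.span ℚ (Set.range ω), Complex.exp w = 1 → w = 0) (Bad : Finset I)
    (hB : Bad.card ≤ 3) (hg : ∀ i j, Rel (u i) ((starRingEnd ℂ) (u j)) →
      ¬ Rel (u i) ((starRingEnd ℂ) (u i)) → j ∈ Bad) :
    (∀ w ∈ Submodule.span ℚ (Set.range ω), (w.re : ℂ) ∈ algLog → w = 0) ∨ (2 ≤ Bad.card ∧
      ∃ (i j : I) (a b : ℕ), 0 < a ∧ 0 < b ∧ ¬ Rel (u i) (u j) ∧ (a * ω i - b * ω j).re = 0 ∧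
        ∀ w ∈ Submodule.span ℚ (Set.range ω), (w.re : ℂ) ∈ algLog →
          ∃ q : ℚ, w = q • (a * ω i - b * ω j)) := by
  classical
  let S : Setoid I := ⟨fun i j => Rel (u i) (u j), fun _ => Rel.refl _, Rel.symm, Rel.trans⟩
  let rep : I → I := fun i => (Quotient.mk S i).out
  have r1 : ∀ i, Rel (u (rep i)) (u i) := fun i => Quotient.mk_out (s := S) i
  have r2 : ∀ i j, Rel (u i) (u j) → rep i = rep j := fun i j h =>
    congrArg Quotient.out (Quotient.sound (s := S) h)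
  have r3 : ∀ i j, rep i = i → rep j = j → Rel (u i) (u j) → i = j := fun i j a b h => by
    rw [← a, ← b]; exact r2 i j h
  have form : ∀ w ∈ Submodule.span ℚ (Set.range ω), ∃ m : I → ℚ,
      (∀ i, m i ≠ 0 → rep i = i) ∧ w = ∑ i, m i • ω i := fun w hw => by
    induction hw using Submodule.span_induction with
    | mem w hw =>
      obtain ⟨i, rfl⟩ := hw
      obtain ⟨q, hq⟩ := log_rel ht hω hi (r1 i).symm
      refine ⟨Pi.single (rep i) q, fun j hj => ?_, by simp [Pi.single_apply, hq.symm]⟩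
      obtain rfl : j = rep i := by_contra fun h => hj (Pi.single_eq_of_ne h _)
      exact r2 _ _ (r1 i)
    | zero => exact ⟨0, by simp, by simp⟩
    | add v w _ _ a b =>
      obtain ⟨m, h1, rfl⟩ := a
      obtain ⟨m', h2, rfl⟩ := b
      refine ⟨m + m', fun i h => by_contra fun hn => h ?_, by
        simp [add_smul, Finset.sum_add_distrib]⟩
      rw [Pi.add_apply, not_not.1 (mt (h1 i) hn), not_not.1 (mt (h2 i) hn), add_zero]
    | smul q w _ a =>
      obtain ⟨m, h1, rfl⟩ := a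
      exact ⟨q • m, fun i h => h1 i (right_ne_zero_of_mul h), by
        simp [Finset.smul_sum, mul_smul]⟩
  have gen : ∀ m : I → ℚ, (∀ i, m i ≠ 0 → rep i = i) → m ≠ 0 →
      ((∑ i, m i • ω i).re : ℂ) ∈ algLog →
      ∃ i j, i ≠ j ∧ m i ≠ 0 ∧ m j ≠ 0 ∧ Rel (u i) ((starRingEnd ℂ) (u j)) ∧ i ∈ Bad ∧ j ∈ Bad :=
    fun m h1 h2 h3 => by
      obtain ⟨i, j, a, b, c, e, k, l⟩ := gen0 hK hO hN hd hE m
        (fun i j a b => r3 i j (h1 i a) (h1 j b)) h2 (by
          rw [Complex.re_sum] at h3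
          refine (congrArg (fun r : ℝ => (r : ℂ) ∈ algLog) (Finset.sum_congr rfl fun i _ => ?_)).mp h3
          rw [← log_re ht (hω i), Rat.smul_def, ← Complex.ofReal_ratCast, Complex.re_ofReal_mul])
      exact ⟨i, j, a, b, c, e, hg j i (by simpa using e.conj.symm) l, hg i j e k⟩
  by_cases hp : ∃ i j, i ≠ j ∧ rep i = i ∧ rep j = j ∧ Rel (u i) ((starRingEnd ℂ) (u j)) ∧
      i ∈ Bad ∧ j ∈ Bad
  swap
  · refine Or.inl fun w hw h0 => ?_
    obtain ⟨m, h1, rfl⟩ := form w hw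
    by_cases hm : m = 0
    · simp [hm]
    obtain ⟨i, j, a, b, c, e⟩ := gen m h1 hm h0
    exact absurd ⟨i, j, a, h1 i b, h1 j c, e⟩ hp
  obtain ⟨i, j, ij, ri, rj, hr, bi, bj⟩ := hp
  obtain ⟨a, b, ha, hb, hab⟩ := id hr
  have re0 : (a * ω i - b * ω j).re = 0 := by
    have := congrArg (fun z => Real.log ‖z‖) hab
    simp only [norm_pow, RCLike.norm_conj, Real.log_pow] at this
    simp [log_re ht (hω i), log_re ht (hω j), this]
  refine Or.inr ⟨Finset.one_lt_card.2 ⟨i, bi, j, bj, ij⟩, i, j, a, b, ha, hb,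
    fun h => ij (r3 i j ri rj h), re0, fun w hw h0 => ?_⟩
  obtain ⟨m, h1, rfl⟩ := form w hw
  have b0 : (b : ℚ) ≠ 0 := Nat.cast_ne_zero.2 hb.ne'
  set m' : I → ℚ := m + (m j / b) • (Pi.single i (a : ℚ) - Pi.single j (b : ℚ)) with hm'
  have e1 : ∑ k, m' k • ω k = ∑ k, m k • ω k + (m j / b) • (a * ω i - b * ω j) := by
    simp [hm', add_smul, Finset.sum_add_distrib, mul_smul, ← Finset.smul_sum, sub_smul,
      Pi.single_apply, Nat.cast_smul_eq_nsmul]
  have e2 : m' j = 0 := by simp [hm', ij.symm, b0]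
  have e3 : ∀ k, m' k ≠ 0 → rep k = k := fun k hk => by
    by_cases ki : k = i
    · rwa [ki]
    by_cases kj : k = j
    · rwa [kj]
    exact h1 k (by simpa [hm', ki, kj] using hk)
  by_cases hm : m' = 0
  · refine ⟨-(m j / b), ?_⟩
    rw [neg_smul, eq_neg_iff_add_eq_zero, ← e1, hm]
    simp
  exfalso
  obtain ⟨k, l, kl, k0, l0, hkl, bk, bl⟩ := gen m' e3 hm (by
    rwa [e1, Complex.add_re, Rat.smul_def (m j / b), ← Complex.ofReal_ratCast, Complex.re_ofReal_mul,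
      re0, mul_zero, add_zero])
  have kj : k ≠ j := fun e => k0 (e ▸ e2)
  have lj : l ≠ j := fun e => l0 (e ▸ e2)
  by_cases ki : k = i
  · have h5 : Rel (u i) ((starRingEnd ℂ) (u l)) := ki ▸ hkl
    exact lj (r3 l j (e3 l l0) rj (by simpa using (h5.symm.trans hr).conj))
  by_cases li : l = i
  · exact kj (r3 k j (e3 k k0) rj ((li ▸ hkl).trans (by simpa using hr.conj)))
  have : ({k, l, i, j} : Finset I).card ≤ 3 := (Finset.card_le_card (by
    simp [Finset.insert_subset_iff, bk, bl, bi, bj])).trans hB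
  rw [Finset.card_insert_of_notMem (by simp [kl, ki, kj]),
    Finset.card_insert_of_notMem (by simp [li, lj]), Finset.card_pair ij] at this
  omega

end Pool.Agent.P.MP_68214b_ag.DS
end

-- part Pool.Agent.P.MP_68214b_ag.DSD4
section

open Polynomial Filter Asymptotics NumberField Topology

namespace Pool.Agent.P.MP_68214b_ag.DS

/-- evaluation of a formal exponential sum -/
noncomputable def evn {A : Type*} [CommRing A] (Γ : Submodule ℚ ℂ) (e : A →+* ℂ) (k : ℕ) :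
    AddMonoidAlgebra A Γ →+* ℂ :=
  AddMonoidAlgebra.liftNCRingHom e
    { toFun := fun w => Complex.exp ((Multiplicative.toAdd w : Γ) * k)
      map_one' := by simp
      map_mul' := fun a b => by simp [add_mul, Complex.exp_add] } fun _ _ => Commute.all _ _

theorem evn_single {A : Type*} [CommRing A] {Γ : Submodule ℚ ℂ} (e : A →+* ℂ) (k : ℕ) (w : Γ)
    (a : A) : evn Γ e k (AddMonoidAlgebra.single w a) = e a * Complex.exp (w * k) :=
  AddMonoidAlgebra.liftNCRingHom_single _ _ _ _ _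

theorem evn_eq {A : Type*} [CommRing A] {Γ : Submodule ℚ ℂ} (e : A →+* ℂ) (k : ℕ)
    (G : AddMonoidAlgebra A Γ) :
    evn Γ e k G = ∑ w ∈ G.coeff.support, e (G.coeff w) * Complex.exp (w * k) := by
  conv_lhs => rw [← AddMonoidAlgebra.sum_coeff_single G, Finsupp.sum, map_sum]
  simp only [evn_single]

theorem exp_bigO {𝓕 : Filter ℕ} {a : ℕ → ℂ} (ha : a =O[𝓕] fun _ => (1 : ℝ)) {w : ℂ} {ρ : ℝ}
    (h : Real.exp w.re ≤ ρ) (k : ℕ → ℕ) :
    (fun n => a n * Complex.exp (w * k n)) =O[𝓕] fun n => ρ ^ k n := by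
  have ρ0 := (Real.exp_pos _).le.trans h
  have : (fun n => Complex.exp (w * k n)) =O[𝓕] fun n => ρ ^ k n :=
    IsBigO.of_bound' (.of_forall fun n => by
      rw [mul_comm, Complex.exp_nat_mul, norm_pow, Complex.norm_exp,
        Real.norm_of_nonneg (by positivity)]
      exact pow_le_pow_left₀ (Real.exp_pos _).le h _)
  simpa using ha.mul this

theorem pp_mono {𝓕 : Filter ℕ} {a b : ℝ} (h0 : 0 ≤ a) (h : a ≤ b) (k : ℕ → ℕ) :
    (fun n => a ^ k n) =O[𝓕] fun n => b ^ k n :=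
  IsBigO.of_bound' (.of_forall fun n => by
    rw [Real.norm_of_nonneg (by positivity), Real.norm_of_nonneg (pow_nonneg (h0.trans h) _)]
    exact pow_le_pow_left₀ h0 h _)

theorem expand_top {A : Type*} [CommRing A] {Γ : Submodule ℚ ℂ} (G : AddMonoidAlgebra A Γ)
    {𝓕 : Filter ℕ} {e : ℕ → A →+* ℂ} (he : ∀ a, (fun n => e n a) =O[𝓕] fun _ => (1 : ℝ))
    (k : ℕ → ℕ) {lam : ℝ} (hl : 0 < lam) :
    ((fun n => evn Γ (e n) (k n) G) =O[𝓕] fun n => lam ^ k n) ∨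
      ∃ (T : Finset Γ) (w0 : Γ) (θ : ℝ), w0 ∈ T ∧ 0 ≤ θ ∧ θ < 1 ∧
        (∀ w ∈ T, G.coeff w ≠ 0 ∧ ((w : ℂ) - w0).re = 0) ∧
        ∀ 𝓖 ≤ 𝓕, ((fun n => evn Γ (e n) (k n) G) =O[𝓖] fun n => lam ^ k n) →
          (fun n => ∑ w ∈ T, e n (G.coeff w) * Complex.exp ((w - w0) * k n)) =O[𝓖]
            fun n => θ ^ k n := by
  classical
  by_cases h : ∀ w ∈ G.coeff.support, Real.exp (w : ℂ).re ≤ lam
  · left
    simp only [evn_eq]
    exact IsBigO.fun_sum fun w hw => exp_bigO (he _) (h w hw) k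
  right
  push Not at h
  obtain ⟨w1, h1, h2⟩ := h
  obtain ⟨w0, m0, hm⟩ := G.coeff.support.exists_max_image (fun w => (w : ℂ).re) ⟨w1, h1⟩
  set ρ := Real.exp (w0 : ℂ).re with hρ
  have ρl : lam < ρ := h2.trans_le (Real.exp_le_exp.2 (hm w1 h1))
  have ρ0 : 0 < ρ := hl.trans ρl
  obtain ⟨r, r0, r1, r2⟩ : ∃ r, lam ≤ r ∧ r < ρ ∧ ∀ w ∈ G.coeff.support.filter
      fun w : Γ => ¬ (w : ℂ).re = (w0 : ℂ).re, Real.exp (w : ℂ).re ≤ r := by
    rcases (G.coeff.support.filter fun w : Γ => ¬ (w : ℂ).re = (w0 : ℂ).re).eq_empty_or_nonempty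
      with h0 | h0
    · exact ⟨lam, le_rfl, ρl, by simp [h0]⟩
    obtain ⟨v, hv, hm'⟩ := Finset.exists_max_image _ (fun w : Γ => (w : ℂ).re) h0
    rw [Finset.mem_filter] at hv
    exact ⟨max lam (Real.exp (v : ℂ).re), le_max_left _ _, max_lt ρl (Real.exp_lt_exp.2
      ((hm v hv.1).lt_of_ne hv.2)), fun w hw => le_max_of_le_right (Real.exp_le_exp.2 (hm' w hw))⟩
  refine ⟨G.coeff.support.filter fun w : Γ => (w : ℂ).re = (w0 : ℂ).re, w0, r / ρ,
    Finset.mem_filter.2 ⟨m0, rfl⟩, div_nonneg (hl.le.trans r0) ρ0.le, (div_lt_one ρ0).2 r1,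
    fun w hw => ?_, fun 𝓖 hG h3 => ?_⟩
  · rw [Finset.mem_filter, Finsupp.mem_support_iff] at hw
    exact ⟨hw.1, by rw [Complex.sub_re, hw.2, sub_self]⟩
  have h4 := (h3.trans (pp_mono hl.le r0 k)).sub (IsBigO.fun_sum fun w hw =>
    (exp_bigO (he (G.coeff w)) (r2 w hw) k).mono hG)
  have h5 := exp_bigO (𝓕 := 𝓖) (a := fun _ => 1) (isBigO_const_const _ one_ne_zero _)
    (w := -(w0 : ℂ)) (ρ := ρ⁻¹) (by rw [Complex.neg_re, Real.exp_neg]) k
  refine (h4.mul h5).congr (fun n => ?_) fun n => by rw [← mul_pow, div_eq_mul_inv]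
  rw [evn_eq, ← Finset.sum_filter_add_sum_filter_not _ fun w : Γ => (w : ℂ).re = (w0 : ℂ).re,
    add_sub_cancel_right, Finset.sum_mul]
  refine Finset.sum_congr rfl fun w _ => ?_
  rw [one_mul, mul_assoc, ← Complex.exp_add]
  congr 2
  ring

variable {K : Type} [Field K] [NumberField K]

theorem coreA {J : Type} [Fintype J] (σ : K →+* ℂ) {d : ℕ} (hd2 : 2 ≤ d) {f : J → K[X]}
    {x : J → ℕ → K} (hO : ∀ i, Orb (f i) (x i)) (hd : ∀ i, (f i).natDegree = d) {A : Type*}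
    [CommRing A] (κ : K →+* A) {e : ℕ → A →+* ℂ} (hκ : ∀ n c, e n (κ c) = σ c) {𝓕 : Filter ℕ}
    (hF : 𝓕 ≤ atTop) (he : ∀ a, (fun n => e n a) =O[𝓕] fun _ => (1 : ℝ)) {Γ : Submodule ℚ ℂ}
    (hξ : ∀ i, ∀ θ : ℝ, 0 < θ → ∃ ξ : AddMonoidAlgebra A Γ,
      (fun n => σ (x i n) - evn Γ (e n) (d ^ n) ξ) =O[𝓕] fun n => θ ^ d ^ n)
    (P : MvPolynomial J K) : (∀ᶠ n in 𝓕, MvPolynomial.eval (fun i => x i n) P = 0) ∨
      ∃ (T : Finset Γ) (w0 : Γ) (θ : ℝ) (G : Γ → A), w0 ∈ T ∧ 0 ≤ θ ∧ θ < 1 ∧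
        (∀ w ∈ T, G w ≠ 0 ∧ ((w : ℂ) - w0).re = 0) ∧
        ∀ 𝓖 ≤ 𝓕, (∀ᶠ n in 𝓖, MvPolynomial.eval (fun i => x i n) P = 0) →
          (fun n => ∑ w ∈ T, e n (G w) * Complex.exp ((w - w0) * (d ^ n : ℕ))) =O[𝓖]
            fun n => θ ^ d ^ n := by
  obtain ⟨N, Λ, N0, hΛ, Λ1, hg⟩ := exists_gr hO hd
  have l3 : ∀ i n, house (x i n) ≤ Λ ^ d ^ n := fun i n => (hg i n).2
  set S := P.totalDegree
  set r := 3 * Module.finrank ℚ K
  set lam := (2 * (Λ ^ S) ^ r)⁻¹ with hlam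
  have l0 : 0 < lam := by positivity
  have l4 : lam * (Λ ^ S) ^ r < 1 := by
    rw [hlam, mul_inv, inv_mul_cancel_right₀ (by positivity)]; norm_num
  have l5 : lam / Λ ^ S ≤ Λ := by
    have a : 1 ≤ Λ ^ S := one_le_pow₀ Λ1
    have b : 1 ≤ (Λ ^ S) ^ r := one_le_pow₀ a
    exact ((div_le_one (by positivity)).2 (by nlinarith)).trans Λ1
  choose ξ hξ using fun i => hξ i (lam / Λ ^ S) (by positivity)
  have ha : ∀ i, (fun n => σ (x i n)) =O[𝓕] fun n => Λ ^ d ^ n := fun i =>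
    IsBigO.of_bound' (.of_forall fun n => by
      rw [Real.norm_of_nonneg (by positivity)]
      exact (norm_embedding_le_house _ σ).trans (l3 i n))
  set G := MvPolynomial.eval₂ (AddMonoidAlgebra.singleZeroRingHom.comp κ) ξ P with hG
  have h1 : (fun n => σ (MvPolynomial.eval (fun i => x i n) P) - evn Γ (e n) (d ^ n) G) =O[𝓕]
      fun n => lam ^ d ^ n := by
    refine (mv_diff σ P le_rfl (fun n => one_le_pow₀ Λ1) ha (fun i => ((ha i).sub ((hξ i).trans
      (pp_mono (by positivity) l5 _))).congr_left fun n => sub_sub_cancel _ _) hξ).congr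
      (fun n => ?_) fun n => ?_
    · rw [hG, MvPolynomial.eval₂_comp_left, MvPolynomial.eval, MvPolynomial.coe_eval₂Hom,
        MvPolynomial.eval₂_comp_left]
      congr 2
      ext c
      simp [evn_single, hκ]
    · rw [← pow_mul, mul_comm (d ^ n), pow_mul, ← mul_pow, mul_div_cancel₀ _ (by positivity)]
  rcases expand_top G he (fun n => d ^ n) l0 with h | ⟨T, w0, θ, t0, θ0, θ1, hT, h⟩
  · exact Or.inl (lsMv σ hF hd2 N0 hΛ hg l0.le P le_rfl l4
      ((h1.add h).congr_left fun n => sub_add_cancel _ _))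
  · refine Or.inr ⟨T, w0, θ, G.coeff, t0, θ0, θ1, hT, fun 𝓖 hG' hz => h 𝓖 hG' ?_⟩
    refine (h1.mono hG').neg_left.congr' (hz.mono fun n hn => ?_) EventuallyEq.rfl
    simp [hn]

theorem xi_const {A : Type*} [CommRing A] {Γ : Submodule ℚ ℂ} {e : ℕ → A →+* ℂ} {𝓕 : Filter ℕ}
    {y : ℕ → ℂ} {a : A} (h : ∀ᶠ n in 𝓕, y n = e n a) (k : ℕ → ℕ) (g : ℕ → ℝ) :
    ∃ ξ : AddMonoidAlgebra A Γ, (fun n => y n - evn Γ (e n) (k n) ξ) =O[𝓕] g :=
  ⟨AddMonoidAlgebra.single 0 a, (isBigO_zero g 𝓕).congr' (h.mono fun n hn => by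
    simp [evn_single, hn]) EventuallyEq.rfl⟩

omit [NumberField K] in
theorem xi_esc {A : Type*} [CommRing A] {Γ : Submodule ℚ ℂ} {e : ℕ → A →+* ℂ} {𝓕 : Filter ℕ}
    (hF : 𝓕 ≤ atTop) {σ : K →+* ℂ} (κ : K →+* A) (hκ : ∀ n c, e n (κ c) = σ c) {d : ℕ} {x : ℕ → K}
    {p : PowerSeries K} {u ζ : ℂ} (hE : Esc σ d x p u) (ω : Γ) (hω : u = ζ * Complex.exp ω)
    {a a' : A} (ha : ∀ᶠ n in 𝓕, ζ ^ d ^ n = e n a ∧ (ζ ^ d ^ n)⁻¹ = e n a') {θ : ℝ} (hθ : 0 < θ) :
    ∃ ξ : AddMonoidAlgebra A Γ,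
      (fun n => σ (x n) - evn Γ (e n) (d ^ n) ξ) =O[𝓕] fun n => θ ^ d ^ n := by
  have u1 := hE.one_lt
  have u0 : u ≠ 0 := norm_pos_iff.1 (one_pos.trans u1)
  obtain ⟨T, hT⟩ := exists_pow_lt_of_lt_one (show 0 < θ / ‖u‖ by positivity)
    (inv_lt_one_of_one_lt₀ u1)
  refine ⟨∑ j ∈ Finset.range T, AddMonoidAlgebra.single ω a *
    AddMonoidAlgebra.single (-ω) a' ^ j * AddMonoidAlgebra.single 0 (κ (PowerSeries.coeff j p)), ?_⟩
  refine ((((isBigO_refl (fun n => u ^ d ^ n) _).mul (hE.app T)).mono hF).congr'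
    (ha.mono fun n hn => ?_) EventuallyEq.rfl).trans (IsBigO.of_bound' (.of_forall fun n => ?_))
  · have h1 := pow_ne_zero (d ^ n) u0
    have h2 : e n a * Complex.exp (ω * (d ^ n : ℕ)) = u ^ d ^ n := by
      rw [← hn.1, hω, mul_pow, ← Complex.exp_nat_mul, mul_comm (ω : ℂ)]
    have h3 : e n a' * Complex.exp ((-ω : Γ) * (d ^ n : ℕ)) = (u ^ d ^ n)⁻¹ := by
      rw [← hn.2, hω, mul_pow, ← Complex.exp_nat_mul, mul_inv, ← Complex.exp_neg]
      congr 2
      simp [mul_comm]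
    simp only [map_sum, map_mul, map_pow, evn_single, h2, h3, hκ]
    rw [← Polynomial.eval₂_id, PowerSeries.eval₂_trunc_eq_sum_range, mul_sub, Finset.mul_sum,
      mul_comm (σ _), mul_inv_cancel_left₀ h1]
    congr 1
    refine Finset.sum_congr rfl fun j _ => ?_
    simp [mul_assoc, mul_comm]
  · rw [Real.norm_of_nonneg (show 0 ≤ θ ^ d ^ n by positivity), norm_mul, norm_pow,
      norm_pow, norm_inv, norm_pow, ← inv_pow, ← pow_mul, mul_comm (d ^ n), pow_mul, ← mul_pow]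
    refine pow_le_pow_left₀ (by positivity) ?_ _
    rw [mul_comm]
    exact ((lt_div_iff₀ (by positivity)).1 hT).le

end Pool.Agent.P.MP_68214b_ag.DS
end

-- part Pool.Agent.P.MP_68214b_ag.DSD5
section

open Polynomial Filter Asymptotics NumberField Topology

namespace Pool.Agent.P.MP_68214b_ag.DS

theorem tie_near {Γ : Submodule ℚ ℂ} (T : Finset Γ) {w0 : Γ} (h0 : w0 ∈ T) {G : Γ → ℂ}
    (hG : G w0 ≠ 0) (alg : ∀ w, IsAlgebraic ℚ (G w)) {δ : ℂ} (hδ : δ.re = 0)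
    (hq : ∀ w ∈ T, ∃ q : ℚ, (w : ℂ) - w0 = q • δ) {𝓖 : Filter ℕ} [𝓖.NeBot] (hF : 𝓖 ≤ atTop) {d : ℕ}
    (hd : 2 ≤ d) {θ : ℝ} (θ0 : 0 ≤ θ) (θ1 : θ < 1)
    (h : (fun n => ∑ w ∈ T, G w * Complex.exp ((w - w0) * (d ^ n : ℕ))) =O[𝓖] fun n => θ ^ d ^ n)
    (t : ℕ) : ∃ (β : ℂ) (C l : ℝ), β ≠ 0 ∧ IsAlgebraic ℚ β ∧ 0 ≤ l ∧ l < 1 ∧
      ∃ᶠ n in 𝓖, ‖Complex.exp (t * δ) ^ d ^ n - β‖ ≤ C * l ^ d ^ n := by
  classical
  choose! q hq using hq
  set N := ∏ w ∈ T, (q w).den with hN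
  have N0 : 0 < N := Finset.prod_pos fun w _ => Rat.den_pos _
  have Nc : (N : ℂ) ≠ 0 := Nat.cast_ne_zero.2 N0.ne'
  have hk : ∀ w ∈ T, ∃ k : ℤ, (k : ℚ) = N * q w := fun w hw => by
    obtain ⟨a, ha⟩ := Finset.dvd_prod_of_mem (fun w => (q w).den) hw
    exact ⟨a * (q w).num, by rw [hN, ha]; push_cast; rw [← Rat.den_mul_eq_num]; ring⟩
  choose! k hk using hk
  set M := ∑ w ∈ T, (k w).natAbs with hM
  have kM : ∀ w ∈ T, ((k w + M).toNat : ℤ) = k w + M := fun w hw => by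
    have : (k w).natAbs ≤ M := Finset.single_le_sum (f := fun w => (k w).natAbs)
      (fun _ _ => Nat.zero_le _) hw
    omega
  have e0 : ∀ w ∈ T, (w : ℂ) - w0 = k w * (δ / N) := fun w hw => by
    rw [hq w hw, Rat.smul_def, show (k w : ℂ) = N * (q w : ℂ) by exact_mod_cast hk w hw]
    field_simp
  set W : ℕ → ℂ := fun n => Complex.exp (δ / N * (d ^ n : ℕ)) with hW
  have W1 : ∀ n, ‖W n‖ = 1 := fun n => by
    simp only [hW]
    rw [mul_comm, Complex.exp_nat_mul, norm_pow, Complex.norm_exp, Complex.div_natCast_re, hδ]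
    simp
  set g : ℂ[X] := ∑ w ∈ T, monomial (k w + M).toNat (G w) with hg
  have g0 : g ≠ 0 := fun e => hG (by
    have := congrArg (coeff · (k w0 + M).toNat) e
    simp only [hg, finsetSum_coeff, coeff_monomial, coeff_zero] at this
    rwa [Finset.sum_eq_single w0 (fun w hw hne => if_neg fun e => hne ?_)
      (fun h => absurd h0 h), if_pos rfl] at this
    have h1 := kM w hw
    have h2 := kM w0 h0
    have h3 := e0 w hw
    rw [show k w = k w0 by omega, ← e0 w0 h0, sub_self, sub_eq_zero] at h3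
    exact Subtype.ext h3)
  have gO : (fun n => g.eval (W n)) =O[𝓖] fun n => θ ^ d ^ n := by
    have b : (fun n => W n ^ M) =O[𝓖] fun _ => (1 : ℝ) :=
      IsBigO.of_bound' (.of_forall fun n => by simp [W1])
    refine (b.mul h).congr (fun n => ?_) fun n => one_mul _
    rw [hg, eval_finsetSum, Finset.mul_sum]
    refine Finset.sum_congr rfl fun w hw => ?_
    have w0' : W n ≠ 0 := Complex.exp_ne_zero _
    rw [eval_monomial, ← zpow_natCast (W n) (k w + M).toNat, kM w hw, zpow_add₀ w0', zpow_natCast,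
      e0 w hw, mul_assoc (k w : ℂ), Complex.exp_int_mul]
    ring
  obtain ⟨β, C, l, hβ, l0, l1, hf⟩ := root_near g0 hF hd θ0 θ1 gO
  refine ⟨β ^ (N * t), (N * t : ℕ) * max 1 ‖β‖ ^ (N * t) * C, l, pow_ne_zero _ ?_,
    (alg_root g0 (fun j => ?_) hβ).pow _, l0, l1, hf.mono fun n hn => ?_⟩
  · rintro rfl
    obtain ⟨n, a, b⟩ := (hf.and_eventually ((((tend_pp l0 l1 hd).mono_left hF).const_mul
      C).eventually (gt_mem_nhds (show C * 0 < 1 by simp)))).exists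
    rw [sub_zero, W1] at a
    linarith
  · rw [hg, finsetSum_coeff, ← mem_algebraicClosure_iff]
    refine sum_mem fun w _ => ?_
    rw [coeff_monomial]
    split_ifs
    exacts [mem_algebraicClosure_iff.2 (alg w), zero_mem _]
  · have : Complex.exp (t * δ) ^ d ^ n = W n ^ (N * t) := by
      simp only [hW]
      rw [← Complex.exp_nat_mul, ← Complex.exp_nat_mul]
      congr 1
      push_cast
      field_simp
    rw [this, mul_assoc]
    exact (pow_near (W1 n) _).trans (by gcongr)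

variable {K : Type} [Field K] [NumberField K]

theorem dsd5_main (σ : K →+* ℂ) {J : Type} [Fintype J] {d : ℕ} (hd2 : 2 ≤ d) {f : J → K[X]}
    {x : J → ℕ → K} (hO : ∀ i, Orb (f i) (x i)) (hd : ∀ i, (f i).natDegree = d) (hD : Dom x)
    {ζ : J → ℂ} {t : ℕ} (ht : 0 < t) (hζ : ∀ i, ζ i ^ t = 1) {A : Type}
    [CommRing A] (κ : algebraicClosure ℚ ℂ →+* A) {e : ℕ → A →+* ℂ} (hκ : ∀ n c, e n (κ c) = c)
    (he : ∀ a, (fun n => e n a) =O[atTop] fun _ => (1 : ℝ)) {Γ : Submodule ℚ ℂ}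
    (hx : ∀ i, Alg0 (x i) ∨ (∃ a, ∀ n, σ (x i n) = e n a) ∨
      ∃ ω : Γ, (∃ p, Esc σ d (x i) p (ζ i * Complex.exp ω)) ∨ ∃ a b : algebraicClosure ℚ ℂ,
        ∀ n, σ (x i n) = b + a * (ζ i * Complex.exp ω) ^ d ^ n)
    {P : MvPolynomial J K} (hP : ∃ᶠ n in atTop, MvPolynomial.eval (fun i => x i n) P = 0) :
    Van x P ∨ ∃ 𝓖 : Filter ℕ, 𝓖.NeBot ∧ 𝓖 ≤ atTop ∧
      ∃ (T : Finset Γ) (w0 : Γ) (θ : ℝ) (G : Γ → A), w0 ∈ T ∧ 0 ≤ θ ∧ θ < 1 ∧
        (∀ w ∈ T, G w ≠ 0 ∧ ((w : ℂ) - w0).re = 0) ∧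
        (fun n => ∑ w ∈ T, e n (G w) * Complex.exp ((w - w0) * (d ^ n : ℕ))) =O[𝓖]
          fun n => θ ^ d ^ n := by
  classical
  have nb := frequently_iff_neBot.1 hP
  set 𝒰 := Ultrafilter.of (atTop ⊓ 𝓟 {n : ℕ | MvPolynomial.eval (fun i => x i n) P = 0})
  have hU : (𝒰 : Filter ℕ) ≤ atTop := (Ultrafilter.of_le _).trans inf_le_left
  have hz : ∀ᶠ n in (𝒰 : Filter ℕ), MvPolynomial.eval (fun i => x i n) P = 0 :=
    le_principal_iff.1 ((Ultrafilter.of_le _).trans inf_le_right)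
  have hz' : ∀ j, ∃ z, z ^ t = 1 ∧ ∀ᶠ n in (𝒰 : Filter ℕ), ζ j ^ d ^ n = z := fun j => by
    obtain ⟨z, h1, h2⟩ := (Ultrafilter.eventually_exists_mem_iff (f := 𝒰)
      (P := fun z n => ζ j ^ d ^ n = z) (nthRootsFinset t (1 : ℂ)).finite_toSet).1
      (.of_forall fun n => ⟨_, (mem_nthRootsFinset ht 1).2
        (by rw [← pow_mul, mul_comm, pow_mul, hζ, one_pow]), rfl⟩)
    exact ⟨z, (mem_nthRootsFinset ht 1).1 h1, h2⟩
  choose z z1 z2 using hz'
  have z3 : ∀ᶠ n in (𝒰 : Filter ℕ), ∀ j, ζ j ^ d ^ n = z j := eventually_all.2 z2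
  have za : ∀ j, z j ∈ algebraicClosure ℚ ℂ := fun j => mem_algebraicClosure_iff.2
    (IsAlgebraic.of_pow ht (by rw [z1]; exact isAlgebraic_one))
  set 𝓕 := atTop ⊓ 𝓟 {n : ℕ | ∀ j, ζ j ^ d ^ n = z j} with h𝓕
  set σ' : K →+* algebraicClosure ℚ ℂ := σ.codRestrict _ fun y =>
    mem_algebraicClosure_iff.2 (alg_emb σ y) with hσ'
  have hκ' : ∀ n c, e n ((κ.comp σ') c) = σ c := fun n c => hκ n _
  have hξ : ∀ i, ∀ θ : ℝ, 0 < θ → ∃ ξ : AddMonoidAlgebra A Γ,
      (fun n => σ (x i n) - evn Γ (e n) (d ^ n) ξ) =O[𝓕] fun n => θ ^ d ^ n := fun i θ hθ => by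
    rcases hx i with h | ⟨a, h⟩ | ⟨ω, ⟨p, h1⟩ | ⟨a, b, h⟩⟩
    · obtain ⟨c, hc⟩ := hD.domA.const (Algebra.subset_adjoin (Set.mem_range_self i)) h
      exact xi_const (a := κ.comp σ' c) ((hc.filter_mono inf_le_left).mono fun n hn => by
        rw [hn, hκ']) _ _
    · exact xi_const (.of_forall h) _ _
    · refine xi_esc inf_le_left _ hκ' h1 ω rfl (a := κ ⟨z i, za i⟩) (a' := κ ⟨z i, za i⟩⁻¹) ?_ hθ
      filter_upwards [mem_inf_of_right (mem_principal_self _)] with n hn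
      rw [hκ, hκ, hn i]
      exact ⟨rfl, rfl⟩
    · refine ⟨AddMonoidAlgebra.single 0 (κ b) + AddMonoidAlgebra.single ω (κ (a * ⟨z i, za i⟩)),
        (isBigO_zero _ 𝓕).congr' ?_ EventuallyEq.rfl⟩
      filter_upwards [mem_inf_of_right (mem_principal_self _)] with n hn
      rw [map_add, evn_single, evn_single, hκ, hκ, h, mul_pow, hn i, ← Complex.exp_nat_mul]
      simp [mul_comm, mul_assoc, mul_left_comm]
  rcases coreA σ hd2 hO hd (κ.comp σ') hκ' (𝓕 := 𝓕) inf_le_left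
    (fun a => (he a).mono inf_le_left) hξ P with
    h | ⟨T, w0, θ, G, a1, a2, a3, a4, a5⟩
  · left
    obtain ⟨n0, h0, n1, h1, hlt⟩ :=
      (Nat.frequently_atTop_iff_infinite.1 (z3.frequently.filter_mono hU)).nontrivial.exists_lt
    obtain ⟨l, rfl⟩ := Nat.exists_eq_add_of_lt hlt
    refine van_of_prog (fun i => (hO i).step) hD (c := n0) l.succ_pos (Tendsto.eventually
      (show Tendsto (fun s => n0 + l.succ * s) atTop 𝓕 from tendsto_inf.2
        ⟨tend_prog n0 l.succ_pos, tendsto_principal.2 (.of_forall fun s j => ?_)⟩) h)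
    induction s with
    | zero => exact h0 j
    | succ s ih =>
      rw [show n0 + l.succ * (s + 1) = n0 + l + 1 + l.succ * s by simp only [Nat.succ_eq_add_one]; ring,
        pow_add, pow_mul, h1 j, ← h0 j, ← pow_mul, ← pow_add, ih, h0 j]
  · exact Or.inr ⟨𝒰, inferInstance, hU, T, w0, θ, G, a1, a2, a3, a4,
      a5 𝒰 (le_inf hU (le_principal_iff.2 z3)) hz⟩

theorem sl' (σ : K →+* ℂ) {f : K[X]} {y : ℕ → K} (h : Orb f y) (hN : NoTot (f.map σ)) {g : ℂ[X]}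
    (hg : g ≠ 0) (alg : ∀ k, IsAlgebraic ℚ (g.coeff k)) {𝓖 : Filter ℕ} [𝓖.NeBot] (hF : 𝓖 ≤ atTop)
    {θ : ℝ} (θ0 : 0 ≤ θ) (θ1 : θ < 1) (hb : Bdd σ y)
    (hO : (fun n => g.eval (σ (y n))) =O[𝓖] fun n => θ ^ f.natDegree ^ n) : Alg0 y := by
  let := σ.toAlgebra
  have : IsScalarTower ℚ K ℂ := IsScalarTower.rat
  obtain ⟨β, C, l, hβ, l0, l1, hf⟩ := root_near hg hF h.deg θ0 θ1 hO
  have hi : IsIntegral K β := (alg_root hg alg hβ).isIntegral.tower_top
  obtain ⟨q, hq⟩ := (dvd_iff_isRoot (p := (minpoly K β).map σ) (a := β)).2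
    (by rw [IsRoot, eval_map]; exact minpoly.aeval K β)
  obtain ⟨B, hB⟩ := hb
  obtain ⟨C', hC'⟩ := (poly_bigO (𝓕 := atTop) q (z := fun n => σ (y n)) (B := fun _ => 1)
    (fun _ => le_rfl) (IsBigO.of_bound B (.of_forall fun n => by simpa using hB n))).bound
  refine sl σ h hN (minpoly.ne_zero hi) (C := C * C') l0 l1
    (((hf.filter_mono hF).and_eventually hC').mono fun n hn => ?_)
  rw [← eval₂_at_apply, ← eval_map, hq, eval_mul, eval_sub, eval_X, eval_C, norm_mul, mul_right_comm]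
  exact mul_le_mul hn.1 (by simpa using hn.2) (norm_nonneg _) ((norm_nonneg _).trans hn.1)

theorem coreB (σ : K →+* ℂ) {J : Type} [Fintype J] {d : ℕ} (hd2 : 2 ≤ d) {f : J → K[X]}
    {x : J → ℕ → K} (hO : ∀ i, Orb (f i) (x i)) (hd : ∀ i, (f i).natDegree = d) (hD : Dom x)
    {ζ : J → ℂ} {t : ℕ} (ht : 0 < t) (hζ : ∀ i, ζ i ^ t = 1) {Γ : Submodule ℚ ℂ} (B0 : J → Prop)
    (hB : ∀ i, B0 i → Bdd σ (x i) ∧ NoTot ((f i).map σ) ∧ ¬ Alg0 (x i))
    (h1 : ∀ i j, B0 i → B0 j → i = j) (hx : ∀ i, Alg0 (x i) ∨ B0 i ∨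
      ∃ ω : Γ, (∃ p, Esc σ d (x i) p (ζ i * Complex.exp ω)) ∨ ∃ a b : algebraicClosure ℚ ℂ,
        ∀ n, σ (x i n) = b + a * (ζ i * Complex.exp ω) ^ d ^ n)
    (ti : (∀ w ∈ Γ, w.re = 0 → w = 0) ∨ ((∀ i, ¬ B0 i) ∧ ∃ δ : ℂ, δ.re = 0 ∧
      (∀ w ∈ Γ, w.re = 0 → ∃ q : ℚ, w = q • δ) ∧ ∀ (β : ℂ) (C l : ℝ), β ≠ 0 → IsAlgebraic ℚ β →
        0 ≤ l → l < 1 → ¬ ∃ᶠ n in atTop, ‖Complex.exp (t * δ) ^ d ^ n - β‖ ≤ C * l ^ d ^ n))
    {P : MvPolynomial J K} (hP : ∃ᶠ n in atTop, MvPolynomial.eval (fun i => x i n) P = 0) :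
    Van x P := by
  have one : (∀ w ∈ Γ, w.re = 0 → w = 0) → ∀ {T : Finset Γ} {w0 : Γ}, w0 ∈ T →
      (∀ w ∈ T, ((w : ℂ) - w0).re = 0) → T = {w0} := fun h0 T w0 a b =>
    Finset.eq_singleton_iff_unique_mem.2 ⟨a, fun w hw =>
      Subtype.ext (sub_eq_zero.1 (h0 _ (sub_mem w.2 w0.2) (b w hw)))⟩
  by_cases h0 : ∃ i, B0 i
  · obtain ⟨i0, h0⟩ := h0
    obtain ⟨b0, n0, a0⟩ := hB i0 h0
    rcases dsd5_main σ hd2 hO hd hD ht hζ (A := (algebraicClosure ℚ ℂ)[X]) C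
      (e := fun n => eval₂RingHom (algebraMap _ ℂ) (σ (x i0 n))) (fun n c => eval₂_C _ _)
      (fun a => by
        obtain ⟨B, hB⟩ := b0
        simpa only [coe_eval₂RingHom, eval_map, one_pow] using poly_bigO (𝓕 := atTop)
          (a.map (algebraMap _ ℂ)) (z := fun n => σ (x i0 n)) (B := fun _ => 1) (fun _ => le_rfl)
          (IsBigO.of_bound B (.of_forall fun n => by simpa using hB n)))
      (Γ := Γ) (fun i => (hx i).imp_right (Or.imp_left fun b =>
        ⟨X, fun n => by rw [h1 i i0 b h0]; exact (eval₂_X _ _).symm⟩)) hP with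
      hv | ⟨𝓖, nb, hF, T, w0, θ, G, a1, a2, a3, a4, a5⟩
    · exact hv
    rw [one (ti.resolve_right fun e => e.1 i0 h0) a1 fun w hw => (a4 w hw).2] at a5
    refine absurd (sl' σ (hO i0) n0 (g := (G w0).map (algebraMap _ ℂ))
      (Polynomial.map_ne_zero (a4 w0 a1).1) (fun k => ?_) hF a2 a3 b0 ?_) a0
    · rw [coeff_map]
      exact mem_algebraicClosure_iff.1 ((G w0).coeff k).2
    · simpa [eval_map, hd] using a5
  rcases dsd5_main σ hd2 hO hd hD ht hζ (RingHom.id _)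
    (e := fun _ => algebraMap _ ℂ) (fun n c => rfl) (fun a => isBigO_const_const _ one_ne_zero _)
    (Γ := Γ) (fun i => (hx i).imp_right (Or.imp_left fun b => absurd ⟨i, b⟩ h0)) hP with
    hv | ⟨𝓖, nb, hF, T, w0, θ, G, a1, a2, a3, a4, a5⟩
  · exact hv
  exfalso
  have G0 : algebraMap _ ℂ (G w0) ≠ 0 := (_root_.map_ne_zero _).2 (a4 w0 a1).1
  rcases ti with ti | ⟨-, δ, re0, ti, nr⟩
  · rw [one ti a1 fun w hw => (a4 w hw).2] at a5
    have := a5.trans_tendsto ((tend_pp a2 a3 hd2).mono_left hF)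
    simp only [Finset.sum_singleton, sub_self, zero_mul, Complex.exp_zero, mul_one,
      tendsto_const_nhds_iff] at this
    exact G0 this
  obtain ⟨β, C, l, β0, hβ, l0, l1, hf⟩ := tie_near T a1 G0
    (fun w => mem_algebraicClosure_iff.1 (G w).2) re0
    (fun w hw => ti _ (sub_mem w.2 w0.2) (a4 w hw).2) hF hd2 a2 a3 a5 t
  exact nr β C l β0 hβ l0 l1 (hf.filter_mono hF)

omit [NumberField K] in
theorem Dep.map {a b : ℕ → K} (h : Dep a b) (γ : K →+* K) :
    Dep (fun n => γ (a n)) fun n => γ (b n) := by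
  obtain ⟨G, hG, h⟩ := h
  exact ⟨map2 γ G, fun e => hG (map2_inj γ.injective (e.trans (map_zero _).symm)),
    h.mono fun n hn => (map_mapRingHom_evalEval γ G _ _).trans (by rw [hn, map_zero])⟩

omit [NumberField K] in
theorem dep_lin {a b : ℕ → K} {ρ : K} (h : ∀ n, b n = ρ * a n) : Dep a b :=
  ⟨X - C (C ρ * X), X_sub_C_ne_zero _, .of_forall fun n => by
    rw [evalEval_sub, evalEval_X, evalEval_C, eval_mul, eval_C, eval_X, h, sub_self]⟩

theorem alg0_map {a : ℕ → K} (γ : K →+* K) (h : Alg0 fun n => γ (a n)) : Alg0 a := by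
  obtain ⟨g, hg, h⟩ := h
  obtain ⟨g, rfl⟩ := map_surjective γ (Algebra.IsAlgebraic.algHom_bijective γ.toRatAlgHom).2 g
  exact ⟨g, fun e => hg (by rw [e, Polynomial.map_zero]), h.mono fun n hn => by
    rwa [eval_map, eval₂_at_apply, map_eq_zero] at hn⟩

theorem esc_of_dep {σ : K →+* ℂ} {d : ℕ} {g : K[X]} {a b : ℕ → K} {p : PowerSeries K} {u : ℂ}
    (ea : Esc σ d a p u) (ob : Orb g b) (dg : g.natDegree = d) (hN : NSa g) (h0 : ¬ Alg0 b)
    (h : Dep a b) : ∃ q v, Esc σ d b q v ∧ Rel u v := by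
  obtain ⟨q, v, -, e⟩ := bl ob σ fun e => h0 (unb_of_dep σ ob (hN σ).tot (dg ▸ ea) h.symm e)
  rw [dg] at e
  exact ⟨q, v, e, be (dg ▸ ob.deg) ea e h⟩

/-- conjugation lies in every monoid generated by the two stabilisers -/
def SepG (c : K →+* K) (x y : ℕ → K) : Prop :=
  ∀ S : Submonoid (K →+* K), (∀ γ : K →+* K, (∃ ρ, ∀ n, γ (y n) = ρ * y n) → γ ∈ S) →
    (∀ γ : K →+* K, (∃ ρ, ∀ n, γ (x n) = ρ * x n) → c * γ * c ∈ S) → c ∈ S

theorem sep {σ : K →+* ℂ} {c : K →+* K} (hc : ∀ y, σ (c y) = (starRingEnd ℂ) (σ y)) {d : ℕ}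
    {f g : K[X]} {x y : ℕ → K} {p q : PowerSeries K} {u v : ℂ} (hx : Orb f x) (hy : Orb g y)
    (df : f.natDegree = d) (dg : g.natDegree = d) (ex : Esc σ d x p u) (ey : Esc σ d y q v)
    (nf : NSa f) (ng : NSa g) (hS : SepG c x y) (h : Rel u ((starRingEnd ℂ) v)) :
    Rel v ((starRingEnd ℂ) v) := by
  have d2 : 2 ≤ d := df ▸ hx.deg
  have tr : ∀ {f0 f1 f2 : K[X]} {a b e : ℕ → K} {p u}, Orb f0 a → f0.natDegree = d →
      Esc σ d a p u → Orb f1 b → f1.natDegree = d → NSa f1 → ¬ Alg0 b → Orb f2 e →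
      f2.natDegree = d → NSa f2 → ¬ Alg0 e → Dep a b → Dep b e → Dep a e := by
    intro f0 f1 f2 a b e p u o0 d0 e0 o1 d1 n1 a1 o2 d2 n2 a2 h1 h2
    obtain ⟨_, _, e1, r1⟩ := esc_of_dep e0 o1 d1 n1 a1 h1
    obtain ⟨_, _, e2, r2⟩ := esc_of_dep e1 o2 d2 n2 a2 h2
    exact dep_of_rel o0 o2 d0 d2 e0 e2 (r1.trans r2)
  have dm : ∀ γ : K →+* K, (g.map γ).natDegree = d := fun γ => (natDegree_map γ).trans dg
  have am : ∀ γ : K →+* K, ¬ Alg0 fun n => γ (y n) := fun γ e => ey.not_alg0 d2 (alg0_map γ e)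
  have dp := dep_of_rel hx (hy.conj c) df (dm c) ex (ey.conj hc) h
  refine be d2 ey (ey.conj hc) (hS
    { carrier := {γ | Dep y fun n => γ (y n)}
      one_mem' := dep_refl y
      mul_mem' := fun {γ γ'} a b => tr hy dg ey (hy.conj γ) (dm γ) (ng.map γ) (am γ)
        (hy.conj (γ * γ')) (dm _) (ng.map _) (am _) a (Dep.map b γ) }
    (fun γ ⟨ρ, e⟩ => dep_lin e) fun γ ⟨ρ, e⟩ => ?_)
  have h1 := tr hx df ex (hx.conj γ) ((natDegree_map γ).trans df) (nf.map γ)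
    (fun e => ex.not_alg0 d2 (alg0_map γ e)) (hy.conj (γ * c)) (dm _) (ng.map _) (am _)
    (dep_lin e) (dp.map γ)
  have h2 := (tr (hy.conj c) (dm c) (ey.conj hc) hx df nf (ex.not_alg0 d2) (hy.conj (γ * c)) (dm _)
    (ng.map _) (am _) dp.symm h1).map c
  have cc : ∀ z, c (c z) = z := fun z => σ.injective (by rw [hc, hc, Complex.conj_conj])
  simp only [cc] at h2
  exact h2

end Pool.Agent.P.MP_68214b_ag.DS
end

-- part Pool.Agent.P.MP_68214b_ag.DSD8
section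

open Polynomial Filter Asymptotics NumberField Topology

namespace Pool.Agent.P.MP_68214b_ag.DS

/-- real up to a constant factor -/
def RlS (z : ℕ → ℂ) : Prop := ∃ ρ : ℂ, ρ ≠ 0 ∧ ∀ n, (ρ * z n).im = 0

variable {K : Type} [Field K] [NumberField K]

theorem dsd8_data (σ : K →+* ℂ) {f : K[X]} {x : ℕ → K} (hO : Orb f x) :
    ∃ (U : ℂ) (p : PowerSeries K), U ≠ 0 ∧ (¬ Bdd σ x → Bott f p ∧ Esc σ f.natDegree x p U) ∧
      (Bdd σ x → IsAlgebraic ℚ U) ∧
      (Bdd σ x → ¬ Alg0 x → Pw f.natDegree (fun n => σ (x n)) → ∃ a b : algebraicClosure ℚ ℂ,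
        (a : ℂ) ≠ 0 ∧ ∀ n, σ (x n) = b + a * U ^ f.natDegree ^ n) ∧
      (Bdd σ x → (Alg0 x ∨ ¬ Pw f.natDegree fun n => σ (x n)) → U = 1) := by
  by_cases b : Bdd σ x
  swap
  · obtain ⟨p, u, h1, h2⟩ := bl hO σ b
    exact ⟨u, p, norm_pos_iff.1 (one_pos.trans h2.one_lt), fun _ => ⟨h1, h2⟩, fun e => absurd e b,
      fun e => absurd e b, fun e => absurd e b⟩
  by_cases c : Alg0 x ∨ ¬ Pw f.natDegree fun n => σ (x n)
  · exact ⟨1, 1, one_ne_zero, fun e => absurd b e, fun _ => isAlgebraic_one,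
      fun _ e1 e2 => absurd e2 (c.resolve_left e1), fun _ _ => rfl⟩
  obtain ⟨c1, a, b', v, h1, h2, h3, h⟩ := by simpa only [not_or, not_not] using c
  have key : a * v ≠ 0 := fun e => c1 ⟨X - C (x 0), X_sub_C_ne_zero _, .of_forall fun n => by
    have d2 := hO.deg
    have e1 : ∀ n, σ (x n) = b' := fun n => by
      obtain ⟨k, hk⟩ := Nat.exists_eq_succ_of_ne_zero (show f.natDegree ^ n ≠ 0 by positivity)
      refine (h n).trans ?_
      rw [hk, pow_succ', ← mul_assoc, e, zero_mul, add_zero]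
    rw [eval_sub, eval_X, eval_C, σ.injective ((e1 n).trans (e1 0).symm), sub_self]⟩
  exact ⟨v, 1, right_ne_zero_of_mul key, fun e => absurd b e, fun _ => h3, fun _ _ _ =>
    ⟨⟨a, mem_algebraicClosure_iff.2 h1⟩, ⟨b', mem_algebraicClosure_iff.2 h2⟩,
      left_ne_zero_of_mul key, h⟩, fun _ e => absurd e c⟩

theorem coreG (hK : Cj K) (σ : K →+* ℂ) {c : K →+* K}
    (hc : ∀ y, σ (c y) = (starRingEnd ℂ) (σ y)) {J : Type} [Fintype J] {d : ℕ} (hd2 : 2 ≤ d)
    {f : J → K[X]} {x : J → ℕ → K} (hO : ∀ i, Orb (f i) (x i)) (hd : ∀ i, (f i).natDegree = d)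
    (hD : Dom x) (E B : Finset J) (hw : E.card + 2 * B.card ≤ 3) (F : J → Prop)
    (h : ∀ i, Alg0 (x i) ∨ i ∈ B ∨ F i ∨ (NSa (f i) ∧ ¬ Bdd σ (x i)))
    (h2 : ∀ i j, i ≠ j → (Bdd σ (x i) ∨ SpF d fun n => σ (x i n)) ∨
      (Bdd σ (x j) ∨ SpF d fun n => σ (x j n)) ∨ (j ∈ E ∨ j ∈ B) ∨ SepG c (x i) (x j))
    (hF : (∀ i, F i → RlS (fun n => σ (x i n)) ∧ (¬ Bdd σ (x i) ∨ Pw d fun n => σ (x i n))) ∨
      ((∀ i j, F i → F j → i = j) ∧ ∀ i, F i → ¬ Bdd σ (x i) ∧ SpF d fun n => σ (x i n)))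
    {P : MvPolynomial J K} (hP : ∃ᶠ n in atTop, MvPolynomial.eval (fun i => x i n) P = 0) :
    Van x P := by
  classical
  choose U p U0 hE hA hP1 hP2 using fun i => dsd8_data σ (hO i)
  simp only [hd] at hE hP1 hP2
  obtain ⟨ω, ζ, t, ht, hω, hi⟩ := exists_log U U0
  set Γ := Submodule.span ℚ (Set.range ω) with hΓ
  have mΓ : ∀ i, ω i ∈ Γ := fun i => Submodule.subset_span ⟨_, rfl⟩
  have st : ∀ i n, σ (x i (n + 1)) = ((f i).map σ).eval (σ (x i n)) := fun i n => by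
    rw [(hO i).step, eval_map, eval₂_at_apply]
  have ca : ∀ i k, IsAlgebraic ℚ (((f i).map σ).coeff k) := fun i k => by
    rw [coeff_map]; exact alg_emb σ _
  have dσ : ∀ i, ((f i).map σ).natDegree = d := fun i => (natDegree_map σ).trans (hd i)
  have B1 : ∀ i ∈ B, ∀ j ∈ B, i = j := Finset.card_le_one.1 (by omega)
  set B0 : J → Prop := fun i => Bdd σ (x i) ∧ ¬ Alg0 (x i) ∧ ¬ Pw d fun n => σ (x i n) with hB0
  have mB : ∀ i, B0 i → i ∈ B := fun i ⟨a, b, e⟩ => by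
    rcases h i with h | h | h | h
    exacts [absurd h b, h, hF.elim (fun g => (g i h).2.elim (absurd a) (absurd · e))
      fun g => absurd a (g.2 i h).1, absurd a h.2]
  have w0 : ∀ i, U i = 1 → ω i = 0 := fun i e => by
    have := log_inj hi ((t : ℚ) • ω i) (Γ.smul_mem _ (mΓ i)) (by
      simpa [e, Rat.smul_def] using (log_pow (hω i) 1).symm)
    simpa [ht.ne'] using this
  have rl : ∀ i, ¬ Bdd σ (x i) → RlS (fun n => σ (x i n)) →
      ∃ e, 0 < e ∧ U i ^ e = (starRingEnd ℂ) (U i) ^ e := fun i b ⟨ρ, ρ0, r⟩ =>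
    real_pow hd2 ρ0 (U0 i) ((hE i b).2.lim hd2) r
  have sa : ∀ i, ¬ Bdd σ (x i) → SpF d (fun n => σ (x i n)) → IsAlgebraic ℚ (U i) := fun i b s =>
    s.alg hd2 (hE i b).2.one_lt ((hE i b).2.lim hd2)
  have ub : ∀ i : {i // ¬ IsAlgebraic ℚ (U i)}, ¬ Bdd σ (x i) := fun i b => i.2 (hA i b)
  have ns : ∀ i : {i // ¬ IsAlgebraic ℚ (U i)}, NSa (f i) := fun i =>
    ns_all σ (hO i).deg fun s => i.2 (sa i (ub i) (dσ i ▸ spf_of (dσ i ▸ hd2) (ca i) s
      (alg_emb σ _) (st i) (by_contra fun e => ub i ⟨‖σ (x i 0)‖, fun n =>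
        (congrArg norm (not_not.1 (not_exists.1 e n))).le⟩)))
  set ΓT := Submodule.span ℚ (Set.range fun i : {i // ¬ IsAlgebraic ℚ (U i)} => ω i) with hT
  set ΓS := Submodule.span ℚ (Set.range fun i : {i // IsAlgebraic ℚ (U i)} => ω i) with hS
  have leT : ΓT ≤ Γ := Submodule.span_mono (by rintro _ ⟨i, rfl⟩; exact ⟨i, rfl⟩)
  have leS : ΓS ≤ Γ := Submodule.span_mono (by rintro _ ⟨i, rfl⟩; exact ⟨i, rfl⟩)
  have alS : ΓS ≤ algLog := Submodule.span_le.2 (by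
    rintro _ ⟨i, rfl⟩
    refine IsAlgebraic.of_pow ht ?_
    have := i.2.pow (1 * t)
    rwa [log_pow (hω i), Nat.cast_one, one_mul, Complex.exp_nat_mul] at this)
  have dec : ∀ w ∈ Γ, w.re = 0 → ∃ a ∈ ΓS, ∃ b ∈ ΓT, a + b = w ∧ (b.re : ℂ) ∈ algLog :=
    fun w hw h0 => by
      obtain ⟨a, ha, b, hb, rfl⟩ := Submodule.mem_sup.1 ((Submodule.span_le (p := ΓS ⊔ ΓT)).2 (by
        rintro _ ⟨i, rfl⟩
        by_cases e : IsAlgebraic ℚ (U i)
        · exact Submodule.mem_sup_left (Submodule.subset_span ⟨⟨i, e⟩, rfl⟩)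
        · exact Submodule.mem_sup_right (Submodule.subset_span ⟨⟨i, e⟩, rfl⟩)) hw)
      refine ⟨a, ha, b, hb, rfl, ?_⟩
      rw [Complex.add_re, add_eq_zero_iff_neg_eq] at h0
      rw [← h0, Complex.ofReal_neg]
      exact neg_mem (re_algLog (alS ha))
  set Bad : Finset {i // ¬ IsAlgebraic ℚ (U i)} := (E ∪ B).subtype _ with hBad
  have c1 : Bad.card ≤ ((E ∪ B).filter fun i => ¬ IsAlgebraic ℚ (U i)).card :=
    (Finset.card_subtype _ _).le
  have c2 := (Finset.card_filter_le (E ∪ B) fun i => ¬ IsAlgebraic ℚ (U i)).trans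
    (Finset.card_union_le _ _)
  have c3 : ∀ b ∈ B, IsAlgebraic ℚ (U b) → Bad.card ≤ 1 := fun b hb al => by
    have := Finset.card_pos.2 ⟨b, hb⟩
    have : ((E ∪ B).filter fun i => ¬ IsAlgebraic ℚ (U i)).card ≤ E.card :=
      Finset.card_le_card fun i hi => by
        rw [Finset.mem_filter, Finset.mem_union] at hi
        exact hi.1.resolve_right fun e => hi.2 (B1 i e b hb ▸ al)
    omega
  have ti := tie hK (fun i : {i // ¬ IsAlgebraic ℚ (U i)} => hO i) ns (fun i => hd i)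
    (fun i => (hE i (ub i)).2) ht (fun i => hω i) (fun w hw => log_inj hi w (leT hw)) Bad (by omega)
    fun i j r nr => by
      rw [hBad, Finset.mem_subtype, Finset.mem_union]
      rcases h2 i j (fun e => nr (e ▸ r)) with (a | a) | (a | a) | a | a
      exacts [absurd a (ub i), absurd (sa i (ub i) a) i.2, absurd a (ub j),
        absurd (sa j (ub j) a) j.2, a, absurd (r.trans ((sep hc (hO i) (hO j) (hd i) (hd j)
          (hE i (ub i)).2 (hE j (ub j)).2 (ns i) (ns j) a r).symm.trans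
            (by simpa using r.conj.symm))) nr]
  set η := ∑ b ∈ B.filter fun b => IsAlgebraic ℚ (U b), ω b with hη
  have tri : ∀ i, IsAlgebraic ℚ (U i) → ω i = 0 ∨ ω i = η ∨ (F i ∧ ¬ Alg0 (x i)) := fun i al => by
    by_cases a0 : Alg0 (x i)
    · exact Or.inl (w0 i (hP2 i (by_contra fun b => (hE i b).2.not_alg0 hd2 a0) (Or.inl a0)))
    rcases (h i).resolve_left a0 with a | a | a
    · refine Or.inr (Or.inl (Finset.sum_eq_single_of_mem i (Finset.mem_filter.2 ⟨a, al⟩)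
        fun j hj e => absurd (B1 j (Finset.mem_filter.1 hj).1 i a) e).symm)
    · exact Or.inr (Or.inr ⟨a, a0⟩)
    · exact absurd al (a.1.trans (hO i) (hd i ▸ (hE i a.2).2))
  obtain ⟨δ0, z0, hδ⟩ : ∃ δ0 : ℂ, (η = 0 → δ0 = 0) ∧
      ∀ w ∈ ΓS, w.re = 0 → ∃ q : ℚ, w = q • δ0 := by
    by_cases g : ∀ i, F i → RlS (fun n => σ (x i n)) ∧ (¬ Bdd σ (x i) ∨ Pw d fun n => σ (x i n))
    · refine ⟨η.im * Complex.I, fun e => by simp [e], tie1 _ (by simp) fun i => ?_⟩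
      rcases tri i i.2 with e | e | ⟨e, a0⟩
      · exact ⟨0, by simp [e]⟩
      · exact ⟨1, by simp [e]⟩
      obtain ⟨k, k0, k1⟩ : ∃ e, 0 < e ∧ U i ^ e = (starRingEnd ℂ) (U i) ^ e := by
        by_cases b : Bdd σ (x i)
        · obtain ⟨a, b', a1, a2⟩ := hP1 i b a0 ((g i e).2.resolve_left (not_not.2 b))
          obtain ⟨ρ, ρ0, r⟩ := (g i e).1
          exact real_pw hd2 ρ0 a1 (U0 i) fun n => by rw [← a2]; exact r n
        · exact rl i b (g i e).1
      exact ⟨0, by simpa using log_real hi ht (hω i) (mΓ i) k0 k1⟩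
    obtain ⟨g1, g2⟩ := hF.resolve_left g
    obtain ⟨k, hk⟩ : ∃ k, F k := by_contra fun e => g fun i a => absurd ⟨i, a⟩ e
    have k0 : (ω k).re ≠ 0 := by
      rw [log_re ht (hω k)]
      exact (Real.log_pos (hE k (g2 k hk).1).2.one_lt).ne'
    refine ⟨η - (η.re / (ω k).re : ℝ) * ω k, fun e => by simp [e], fun w hw h0 => ?_⟩
    obtain ⟨a, b, rfl⟩ := Submodule.mem_span_pair.1 ((Submodule.span_le
      (p := Submodule.span ℚ {ω k, η})).2 (by
        rintro _ ⟨i, rfl⟩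
        rcases tri i i.2 with e | e | ⟨e, -⟩
        · simp [e]
        · exact Submodule.subset_span (Or.inr e)
        · exact Submodule.subset_span (Or.inl (congrArg ω (g1 _ _ e hk)))) hw)
    refine ⟨b, ?_⟩
    simp only [Rat.smul_def, ← Complex.ofReal_ratCast, Complex.add_re, Complex.re_ofReal_mul] at h0 ⊢
    rw [show (a : ℝ) = -(b * (η.re / (ω k).re)) by field_simp; linarith]
    push_cast
    ring
  refine coreB σ hd2 hO hd hD ht (fun i => (hω i).2) (Γ := Γ) B0 (fun i e => ⟨e.1,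
    noTot_of' (dσ i ▸ hd2) fun ⟨a, b, g⟩ => e.2.2 (dσ i ▸ pw_of (dσ i ▸ hd2) (ca i) g
      (alg_emb σ _) (st i)), e.2.1⟩) (fun i j a b => B1 i (mB i a) j (mB j b)) (fun i => ?_) ?_ hP
  · by_cases a0 : Alg0 (x i)
    · exact Or.inl a0
    by_cases b0 : B0 i
    · exact Or.inr (Or.inl b0)
    refine Or.inr (Or.inr ⟨⟨ω i, mΓ i⟩, ?_⟩)
    rw [← (hω i).1]
    by_cases b : Bdd σ (x i)
    · obtain ⟨a, b', -, e⟩ := hP1 i b a0 (by_contra fun e => b0 ⟨b, a0, e⟩)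
      exact Or.inr ⟨a, b', e⟩
    · exact Or.inl ⟨_, (hE i b).2⟩
  by_cases cs : ∀ a ∈ ΓS, a.re = 0 → a = 0
  · rcases ti with ti | ⟨c4, i, j, a, b, ha, hb, nr, re0, ti⟩
    · refine Or.inl fun w hw h0 => ?_
      obtain ⟨a, ha, b, hb, rfl, e⟩ := dec w hw h0
      rw [ti b hb e, add_zero] at h0 ⊢
      exact cs a ha h0
    refine Or.inr ⟨fun k e => ?_, _, re0, fun w hw h0 => ?_, fun β C l β0 hβ l0 l1 hf => ?_⟩
    · have := c3 k (mB k e) (hA k e.1)
      omega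
    · obtain ⟨a', ha', b', hb', rfl, e⟩ := dec w hw h0
      obtain ⟨q, rfl⟩ := ti b' hb' e
      rw [Complex.add_re, Rat.smul_def, ← Complex.ofReal_ratCast, Complex.re_ofReal_mul, re0,
        mul_zero, add_zero] at h0
      exact ⟨q, by rw [cs a' ha' h0, zero_add]⟩
    obtain ⟨b1, e1⟩ := hE i (ub i)
    obtain ⟨b2, e2⟩ := hE j (ub j)
    refine nr (be hd2 e1 e2 (pt (hO i) (hO j) (hd i) (hd j) b1 b2 e1 e2 (mul_pos ha ht)
      (mul_pos hb ht) β0 hβ (C := C) l0 l1 (hf.mono fun n hn => ?_)))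
    rwa [← div_pow, log_pow (hω i), log_pow (hω j), ← Complex.exp_sub, ← mul_sub]
  obtain ⟨δ, hδS, re0, δ1⟩ : ∃ δ ∈ ΓS, δ.re = 0 ∧ δ ≠ 0 := by simpa only [not_forall, exists_prop]
    using cs
  obtain ⟨q', hq'⟩ := hδ δ hδS re0
  obtain ⟨b, hb, b0⟩ := Finset.exists_ne_zero_of_sum_ne_zero
    (show η ≠ 0 from fun e => δ1 (by rw [hq', z0 e, smul_zero]))
  rw [Finset.mem_filter] at hb
  have c4 := c3 b hb.1 hb.2
  replace ti := ti.resolve_right fun e => by omega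
  have q0 : q' ≠ 0 := fun e => δ1 (by rw [hq', e, zero_smul])
  refine Or.inr ⟨fun k e => b0 (B1 k (mB k e) b hb.1 ▸ w0 k (hP2 k e.1 (Or.inr e.2.2))), δ, re0,
    fun w hw h0 => ?_, fun β C l β0 hβ l0 l1 hf => ?_⟩
  · obtain ⟨a, ha, b, hb, rfl, e⟩ := dec w hw h0
    rw [ti b hb e, add_zero] at h0 ⊢
    obtain ⟨q, rfl⟩ := hδ a ha h0
    exact ⟨q / q', by rw [hq', smul_smul, div_mul_cancel₀ _ q0]⟩
  obtain ⟨k, k0, e⟩ := near_alg (by
    simpa [mem_algLog, Rat.smul_def] using algLog.smul_mem (t : ℚ) (alS hδS))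
    (by simp [Complex.norm_exp, re0]) β0 hβ hd2 l0 l1 hf
  have := log_inj hi (((k * t : ℕ) : ℚ) • δ) (Γ.smul_mem _ (leS hδS)) (by
    rw [← e, ← Complex.exp_nat_mul, Rat.smul_def, Rat.cast_natCast, Nat.cast_mul, mul_assoc])
  simp [k0.ne', ht.ne', δ1] at this

end Pool.Agent.P.MP_68214b_ag.DS
end

-- part Pool.Agent.P.MP_68214b_ag.DU3
section

open Polynomial Filter Asymptotics NumberField Topology

namespace Pool.Agent.P.MP_68214b_ag.DS

theorem mv_biv {K J : Type*} [Field K] {i j : J} (hij : i ≠ j) (hJ : ∀ k, k = i ∨ k = j)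
    {P : MvPolynomial J K} (hP : P ≠ 0) :
    ∃ G : K[X][X], G ≠ 0 ∧ ∀ y : J → K, G.evalEval (y i) (y j) = MvPolynomial.eval y P := by
  classical
  let Φ : MvPolynomial J K →+* K[X][X] :=
    MvPolynomial.eval₂Hom (C.comp C) fun k => if k = i then C X else X
  let Ψ : K[X][X] →+* MvPolynomial J K :=
    eval₂RingHom (eval₂RingHom MvPolynomial.C (MvPolynomial.X i)) (MvPolynomial.X j)
  have h1 : Ψ.comp Φ = RingHom.id _ := by
    refine MvPolynomial.ringHom_ext (fun r => by simp [Φ, Ψ]) fun k => ?_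
    rcases hJ k with rfl | rfl
    · simp [Φ, Ψ]
    · simp [Φ, Ψ, hij.symm]
  have h2 : ∀ y : J → K, (evalEvalRingHom (y i) (y j)).comp Φ = MvPolynomial.eval y := by
    intro y
    refine MvPolynomial.ringHom_ext (fun r => by simp [Φ]) fun k => ?_
    rcases hJ k with rfl | rfl
    · simp [Φ]
    · simp [Φ, hij.symm]
  refine ⟨Φ P, fun h0 => hP ?_, fun y => by rw [← h2 y]; simp⟩
  have := DFunLike.congr_fun h1 P
  rw [RingHom.comp_apply, h0, map_zero] at this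
  exact this.symm

theorem dep_of_alg0 {K : Type*} [Field K] (a : ℕ → K) {b : ℕ → K} (h : Alg0 b) : Dep a b := by
  obtain ⟨g, hg, h⟩ := h
  exact Dep.symm ⟨C g, C_ne_zero.2 hg, h.mono fun n hn => by rw [evalEval_C, hn]⟩

theorem red {K J I : Type*} [Field K] {x : J → ℕ → K} (hD : Dom x) (e : I → J) (k0 : I)
    (h0 : ¬ Alg0 (x (e k0))) (h : ∀ i, (∃ k, i = e k) ∨ Dep (x (e k0)) (x i))
    (hc : ∀ Q : MvPolynomial I K,
      (∃ᶠ n in atTop, MvPolynomial.eval (fun k => x (e k) n) Q = 0) → Van (fun k => x (e k)) Q)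
    {P : MvPolynomial J K} (hP : ∃ᶠ n in atTop, MvPolynomial.eval (fun i => x i n) P = 0) :
    Van x P := by
  have pr : (dso1_id x).IsPrime := ⟨fun e => by
    have : Van x 1 := show 1 ∈ dso1_id x from e ▸ Submodule.mem_top
    obtain ⟨n, hn⟩ := Eventually.exists this
    simp at hn, fun {a b} h => hD a b h⟩
  set π := Ideal.Quotient.mkₐ K (dso1_id x) with hπ'
  have hπ : ∀ a, π a = 0 ↔ Van x a := fun _ => Ideal.Quotient.eq_zero_iff_mem
  set S := Algebra.adjoin K (Set.range fun k => π (MvPolynomial.X (e k))) with hS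
  have a1 : ∀ i, IsAlgebraic S (π (MvPolynomial.X i)) := fun i => by
    rcases h i with ⟨k, rfl⟩ | ⟨G, G0, hG⟩
    · exact isAlgebraic_algebraMap (⟨_, Algebra.subset_adjoin ⟨k, rfl⟩⟩ : S)
    refine (dso3_alg (x := π (MvPolynomial.X (e k0))) ?_ G0 ?_).tower_top_of_subalgebra_le
      (Algebra.adjoin_mono (Set.singleton_subset_iff.2
        (Set.mem_range_self (f := fun k => π (MvPolynomial.X (e k))) k0)))
    · rintro ⟨g, g0, hg⟩
      rw [aeval_algHom_apply, hπ] at hg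
      refine h0 ⟨g, g0, hg.mono fun n hn => ?_⟩
      rwa [← MvPolynomial.aeval_eq_eval, ← aeval_algHom_apply, MvPolynomial.aeval_X,
        coe_aeval_eq_eval] at hn
    · rw [dso3_map, hπ]
      refine hG.mono fun n hn => ?_
      rwa [← MvPolynomial.aeval_eq_eval, ← dso3_map, MvPolynomial.aeval_X, MvPolynomial.aeval_X,
        coe_aevalAeval_eq_evalEval]
  have a2 : ∀ Q, IsAlgebraic S (π Q) := fun Q => by
    induction Q using MvPolynomial.induction_on with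
    | C c => exact isAlgebraic_algebraMap (⟨_, S.algebraMap_mem c⟩ : S)
    | add p q hp hq => rw [map_add]; exact hp.add hq
    | mul_X p i hp => rw [map_mul]; exact hp.mul (a1 i)
  by_contra hv
  obtain ⟨⟨r, hr⟩, r0, R, hR⟩ := (a2 P).exists_nonzero_dvd
    (mem_nonZeroDivisors_of_ne_zero fun e => hv ((hπ P).1 e))
  rw [hS, Algebra.adjoin_range_eq_range_aeval] at hr
  obtain ⟨Q, rfl⟩ := hr
  obtain ⟨R, rfl⟩ := Ideal.Quotient.mkₐ_surjective K (dso1_id x) R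
  have e1 : MvPolynomial.aeval (fun k => π (MvPolynomial.X (e k))) Q =
      π (MvPolynomial.rename e Q) := by
    rw [MvPolynomial.rename_eq_aeval, ← AlgHom.comp_apply, MvPolynomial.comp_aeval]
    rfl
  have e2 : Van x (MvPolynomial.rename e Q - P * R) := (hπ _).1 (by
    rw [map_sub, map_mul, ← e1]
    exact sub_eq_zero.2 hR)
  refine r0 (Subtype.ext (e1.trans ((hπ _).2 ((van_rename x e Q).2 (hc Q
    ((hP.and_eventually e2).mono fun n hn => ?_))))))
  have := hn.2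
  rwa [map_sub, map_mul, hn.1, zero_mul, sub_zero, MvPolynomial.eval_rename] at this

variable {K : Type} [Field K] [NumberField K]

theorem pairLow (σ : K →+* ℂ) {f g : K[X]} {a b : ℕ → K} (hO : Orb f a) (a0 : ¬ Alg0 a)
    (hs : ∀ n, b (n + 1) = g.eval (b n)) (b0 : ¬ Alg0 b) (hb : SmH atTop f.natDegree b)
    {G : K[X][X]} (hG : G ≠ 0) : ¬ ∃ᶠ n in atTop, G.evalEval (b n) (a n) = 0 := fun h => by
  classical
  have c0 : G.content ≠ 0 := fun hc => hG (content_eq_zero_iff.1 hc)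
  have h1 : ∀ᶠ n in atTop, ¬ G.content.eval (b n) = 0 := not_frequently.1 fun e =>
    b0 (alg0_of_freq hs σ ((G.content.roots.toFinset.finite_toSet).image σ)
      (e.mono fun n hn => ⟨_, Multiset.mem_toFinset.2 ((mem_roots c0).2 hn), rfl⟩))
  obtain ⟨e, he⟩ := lemH' (G := G.primPart) fun c hc => by
    refine not_isUnit_X_sub_C c (G.isPrimitive_primPart _ ((C_dvd_iff_dvd_coeff _ _).2 fun k => ?_))
    have := congrArg (fun p => p.coeff k) hc
    simp only [coeff_map, coeff_zero, coe_evalRingHom] at this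
    exact dvd_iff_isRoot.2 this
  obtain ⟨ρ, hρ, hl⟩ := ht_low hO a0
  obtain ⟨r, r1, r2, r3⟩ := dh1_two le_rfl hO.deg hρ e
  obtain ⟨n, h0, h1, h2, h3, h4⟩ := (h.and_eventually ((hb r r1).and (r3.and (h1.and hl)))).exists
  rw [G.eq_C_content_mul_primPart, evalEval_mul, evalEval_C] at h0
  have := h4 _ (he _ _ _ h2 h1 ((mul_eq_zero.1 h0).resolve_left h3))
  rw [← r2] at this
  exact this.not_gt (pow_lt_pow_right₀ (by linarith) e.lt_succ_self)

theorem coreU (hK : Cj K) (σ : K →+* ℂ) {J : Type} [Fintype J] {d : ℕ} (hd : 2 ≤ d) {f : J → K[X]}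
    {x : J → ℕ → K} (hs : ∀ i n, x i (n + 1) = (f i).eval (x i n)) (hD : Dom x) (E : J → Prop)
    (hE : ∀ i, E i → Orb (f i) (x i) ∧ (f i).natDegree = d ∧ ¬ Bdd σ (x i) ∧
      (NSa (f i) ∨ SpF d fun n => σ (x i n)))
    (hN : ∀ i, ¬ E i → Alg0 (x i) ∨ (Orb (f i) (x i) ∧ (f i).natDegree = d ∧ Bdd σ (x i)) ∨
      SmH atTop d (x i)) (h0 : ∃ i, E i)
    (h3 : ∀ i j k, E i → E j → E k → i ≠ j → i ≠ k → j ≠ k → NSa (f i) ∨ NSa (f j) ∨ NSa (f k))
    {w : J → ℕ} (hw : ∀ i, 0 < w i) {good : ℕ → Prop} (hg : ∃ᶠ n in atTop, good n)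
    (hV : ∀ z : J → ℂ, z ≠ 0 → (∀ i, z i ≠ 0 → E i ∧ ∃ k, 0 < k ∧ z i ^ k = 1) →
      (∀ i j, z i ≠ 0 → z j ≠ 0 → Dep (x i) (x j)) → Top w z (fun i n => σ (x i n)) good ∨ (∃ b, ∀ i, z i = 0 → Alg0 (x i) ∨ i = b) ∨
        ∃ b c, (E b ∧ NSa (f b)) ∧ (E c ∧ NSa (f c)) ∧
          ∀ i, z i = 0 → Alg0 (x i) ∨ i = b ∨ i = c)
    {P : MvPolynomial J K} (hP : ∃ᶠ n in atTop, MvPolynomial.eval (fun i => x i n) P = 0) :
    Van x P := by
  classical
  obtain ⟨c0, hc⟩ := hK σ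
  obtain ⟨a, z, ea, z0, hz, hT⟩ := cls1 hK σ hd E
    (fun i h => ⟨(hE i h).1, (hE i h).2.1, (hE i h).2.2.1⟩) (fun i h => by
      rcases hN i h with e | ⟨-, -, M, e⟩ | e
      · obtain ⟨c, e⟩ := hD.domA.const (Algebra.subset_adjoin ⟨i, rfl⟩) e
        exact sml_of_bdd ((isBigO_const_const (σ c) one_ne_zero _).congr'
          (e.mono fun n hn => by simp only [hn]) EventuallyEq.rfl)
      · exact sml_of_bdd (IsBigO.of_bound M (Eventually.of_forall fun n => by simpa using e n))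
      · exact e.sml σ) h0 h3 hw hg
  obtain ⟨oa, da, ua, sa⟩ := hE a ea
  have a0 : ¬ Alg0 (x a) := by
    obtain ⟨p, u, -, e⟩ := bl oa σ ua
    exact e.not_alg0 oa.deg
  have dp : ∀ i, ¬ (z i = 0 ∧ ¬ Alg0 (x i)) → Dep (x a) (x i) := fun i h => by
    by_cases e : z i = 0
    · exact dep_of_alg0 _ (by_contra fun e' => h ⟨e, e'⟩)
    · exact (hz i e).2.1
  have pair : ∀ b, Orb (f b) (x b) → (f b).natDegree = d → ∀ Q : MvPolynomial Bool K,
      (∃ᶠ n in atTop, MvPolynomial.eval (fun k => x (cond k b a) n) Q = 0) →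
        Van (fun k => x (cond k b a)) Q := fun b ob db Q =>
    coreG hK σ hc hd (f := fun k => f (cond k b a)) (fun k => by cases k; exacts [oa, ob])
      (fun k => by cases k; exacts [da, db]) (hD.comp _) {false} {true} (by simp)
      (fun k => k = false ∧ ¬ NSa (f a)) (fun k => by
        cases k
        · by_cases n : NSa (f a)
          exacts [Or.inr (Or.inr (Or.inr ⟨n, ua⟩)), Or.inr (Or.inr (Or.inl ⟨rfl, n⟩))]
        · simp) (fun i j _ => by cases j <;> simp)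
      (Or.inr ⟨fun i j hi hj => hi.1.trans hj.1.symm, by
        rintro _ ⟨rfl, n⟩
        exact ⟨ua, sa.resolve_left n⟩⟩)
  rcases (hV z (fun e => z0 (by rw [e]; rfl)) (fun i h => ⟨(hz i h).1, (hz i h).2.2⟩)
    fun i j hi hj => hD.domA.trans (Algebra.subset_adjoin ⟨i, rfl⟩) (Algebra.subset_adjoin ⟨a, rfl⟩)
      (Algebra.subset_adjoin ⟨j, rfl⟩) a0 (hz i hi).2.1 (hz j hj).2.1).resolve_left hT with ⟨b, hb⟩ | ⟨b, c, hb, hc', h⟩
  · by_cases b0 : Alg0 (x b)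
    · exact red hD (cond · a a) false a0 (fun i => Or.inr (dp i fun e =>
        e.2 ((hb i e.1).elim id fun e' => e' ▸ b0))) (pair a oa da) hP
    refine red hD (cond · b a) false a0 (fun i => ?_) ?_ hP
    · by_cases e : z i = 0 ∧ ¬ Alg0 (x i)
      exacts [Or.inl ⟨true, (hb i e.1).resolve_left e.2⟩, Or.inr (dp i e)]
    by_cases eb : E b
    · exact pair b (hE b eb).1 (hE b eb).2.1
    rcases hN b eb with e | e | e
    · exact absurd e b0
    · exact pair b e.1 e.2.1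
    intro Q hQ
    by_cases Q0 : Q = 0
    · exact Eventually.of_forall fun n => by rw [Q0, map_zero]
    obtain ⟨G, G0, hG⟩ := mv_biv (i := true) (j := false) (by simp) (by simp) Q0
    exact absurd (hQ.mono fun n hn => (hG fun k => x (cond k b a) n).trans hn)
      (pairLow σ oa a0 (hs b) b0 (da ▸ e) G0)
  · refine red hD (fun k : Option Bool => k.elim a (cond · b c)) none a0 (fun i => ?_)
      (fun Q => ?_) hP
    · by_cases e : z i = 0 ∧ ¬ Alg0 (x i)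
      · rcases (h i e.1).resolve_left e.2 with e | e
        exacts [Or.inl ⟨some true, e⟩, Or.inl ⟨some false, e⟩]
      · exact Or.inr (dp i e)
    have ee : ∀ k : Option Bool, E (k.elim a (cond · b c)) := by
      rintro (_ | _ | _)
      exacts [ea, hc'.1, hb.1]
    exact coreG hK σ hc hd (f := fun k : Option Bool => f (k.elim a (cond · b c)))
      (fun k => (hE _ (ee k)).1) (fun k => (hE _ (ee k)).2.1) (hD.comp _) Finset.univ ∅ (by simp)
      (fun k => k = none ∧ ¬ NSa (f a)) (fun k => Or.inr (Or.inr (by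
        rcases k with _ | _ | _
        · by_cases n : NSa (f a)
          exacts [Or.inr ⟨n, ua⟩, Or.inl ⟨rfl, n⟩]
        exacts [Or.inr ⟨hc'.2, (hE c hc'.1).2.2.1⟩, Or.inr ⟨hb.2, (hE b hb.1).2.2.1⟩])))
      (fun i j _ => by simp)
      (Or.inr ⟨fun i j hi hj => hi.1.trans hj.1.symm, by
        rintro _ ⟨rfl, n⟩
        exact ⟨ua, sa.resolve_left n⟩⟩)

end Pool.Agent.P.MP_68214b_ag.DS
end

-- part Pool.Agent.P.MP_68214b_ag.DSD9
section

open Polynomial Filter Asymptotics NumberField Topology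

namespace Pool.Agent.P.MP_68214b_ag.DS

theorem descendMv {L J : Type*} [Field L] (ι : L →+* ℂ) (I : Set (MvPolynomial J ℂ)) :
    ∃ 𝓡 : Set (MvPolynomial J L), ∀ x : J → L,
      (∀ P ∈ I, MvPolynomial.eval (fun i => ι (x i)) P = 0) ↔
        ∀ Q ∈ 𝓡, MvPolynomial.eval x Q = 0 := by
  let := ι.toAlgebra
  have key : ∀ (lam : ℂ →ₗ[L] L) (P : MvPolynomial J ℂ) (x : J → L), MvPolynomial.eval x
      (∑ m ∈ P.support, MvPolynomial.monomial m (lam (P.coeff m))) =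
        lam (MvPolynomial.eval (fun i => ι (x i)) P) := fun lam P x => by
    rw [MvPolynomial.eval_eq (f := P), map_sum, map_sum]
    refine Finset.sum_congr rfl fun m _ => ?_
    simp only [← map_pow, ← map_prod]
    rw [MvPolynomial.eval_monomial, mul_comm, mul_comm (MvPolynomial.coeff _ _), ← smul_eq_mul,
      ← map_smul]
    rfl
  refine ⟨{r | ∃ P ∈ I, ∃ lam : ℂ →ₗ[L] L,
    r = ∑ m ∈ P.support, MvPolynomial.monomial m (lam (P.coeff m))}, fun x => ⟨?_, fun h P hP => ?_⟩⟩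
  · rintro h _ ⟨P, hP, lam, rfl⟩
    rw [key, h P hP, map_zero]
  · refine (Module.forall_dual_apply_eq_zero_iff L _).1 fun lam => ?_
    rw [← key]
    exact h _ ⟨P, hP, lam, rfl⟩

theorem alg0_fin {L : Type*} [Field L] {x : ℕ → L} (h : (Set.range x).Finite) : Alg0 x :=
  ⟨∏ r ∈ h.toFinset, (X - C r), Finset.prod_ne_zero_iff.2 fun r _ => X_sub_C_ne_zero r,
    .of_forall fun n => by
      rw [eval_prod]
      exact Finset.prod_eq_zero (i := x n) (by simp) (by simp)⟩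

theorem sepG_of (L : IntermediateField ℚ ℂ) [FiniteDimensional ℚ L] [IsGalois ℚ L] {c : L →+* L}
    (hc : ∀ y, (c y : ℂ) = (starRingEnd ℂ) y) {x y : ℕ → L} {a b : L} (ha : a ≠ 0) (hb : b ≠ 0)
    (k k' : Subfield ℂ) (hx : ∀ n, ((a * x n : L) : ℂ) ∈ k) (hy : ∀ n, ((b * y n : L) : ℂ) ∈ k')
    (h : ∀ z ∈ k', (starRingEnd ℂ) z ∈ k → z.im = 0) : SepG c x y := fun S h1 h2 => by
  have cc : ∀ z, c (c z) = z := fun z => Subtype.ext (by rw [hc, hc, Complex.conj_conj])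
  let c' : L ≃ₐ[ℚ] L :=
    AlgEquiv.ofBijective c.toRatAlgHom (Algebra.IsAlgebraic.algHom_bijective _)
  let φ : (L ≃ₐ[ℚ] L) →* (L →+* L) := ⟨⟨fun g => g, rfl⟩, fun _ _ => rfl⟩
  let S' : Subgroup (L ≃ₐ[ℚ] L) :=
    { S.comap φ with
      inv_mem' := fun {g} hg => by
        have e : g⁻¹ = g ^ (orderOf g - 1) := by
          rw [inv_eq_iff_mul_eq_one, ← pow_succ', Nat.sub_add_cancel (orderOf_pos g),
            pow_orderOf_eq_one]
        exact e ▸ (S.comap φ).pow_mem hg _ }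
  let F : Subfield ℂ → IntermediateField ℚ L := fun k =>
    (k.comap (algebraMap L ℂ)).toIntermediateField fun q => by simp
  have fx : ∀ (k : Subfield ℂ) {x : ℕ → L} {a : L}, a ≠ 0 → (∀ n, ((a * x n : L) : ℂ) ∈ k) →
      ∀ g ∈ (F k).fixingSubgroup, ∃ ρ, ∀ n, φ g (x n) = ρ * x n := fun k x a ha hx g hg =>
    ⟨(g a)⁻¹ * a, fun n => by
      have := (IntermediateField.mem_fixingSubgroup_iff _ _).1 hg (a * x n) (hx n)
      rw [mul_assoc, ← this, map_mul, inv_mul_cancel_left₀ ((_root_.map_ne_zero g).2 ha)]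
      rfl⟩
  have fm : ∀ (k : Subfield ℂ) (z : L), (∀ g ∈ (F k).fixingSubgroup, g z = z) → (z : ℂ) ∈ k :=
    fun k z e => by
      have := (IntermediateField.mem_fixedField_iff _ _).2 e
      rwa [IsGalois.fixedField_fixingSubgroup] at this
  have : c' ∈ S' := by
    rw [← IntermediateField.fixingSubgroup_fixedField S', IntermediateField.mem_fixingSubgroup_iff]
    intro z hz
    rw [IntermediateField.mem_fixedField_iff] at hz
    refine Subtype.ext ((hc z).trans (Complex.conj_eq_iff_im.2 (h z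
      (fm k' z fun g hg => hz g (h1 _ (fx k' hb hy g hg))) (hc z ▸ fm k (c z) fun g hg => ?_))))
    have := congrArg c (hz (c' * g * c') (h2 _ (fx k ha hx g hg)))
    exact (cc _).symm.trans this
  exact this

theorem ext_G {K : Type} [Field K] [NumberField K] (σ : K →+* ℂ) :
    ∃ (L : IntermediateField ℚ ℂ) (ι : K →+* L), FiniteDimensional ℚ L ∧ IsGalois ℚ L ∧ Cj L ∧
      ∀ y, (ι y : ℂ) = σ y := by
  classical
  let b := Module.finBasis ℚ K
  obtain ⟨L, h1, hg, h2⟩ := dsc6_K (k := ℚ) (Finset.univ.image fun i => σ (b i)) (by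
    simp only [Finset.mem_image]
    rintro z ⟨i, -, rfl⟩
    exact (alg_emb σ _).isIntegral)
  refine ⟨L, σ.codRestrict L fun y => ?_, h1, hg, fun s => ?_, fun y => rfl⟩
  · rw [← b.sum_repr y, map_sum]
    refine sum_mem fun i _ => ?_
    rw [Rat.smul_def, map_mul, map_ratCast]
    exact mul_mem (SubfieldClass.ratCast_mem L _) (h2 _ (by simp))
  · obtain ⟨c, hc⟩ := @ComplexEmbedding.exists_comp_symm_eq_of_comp_eq L _ ℚ _ _ hg s
      ((starRingEnd ℂ).comp s) (Subsingleton.elim _ _)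
    exact ⟨_, fun x => RingHom.congr_fun hc x⟩

theorem topG {K : Type} [Field K] [NumberField K] (hK : Cj K) (σ : K →+* ℂ) {c : K →+* K}
    (hc : ∀ y, σ (c y) = (starRingEnd ℂ) (σ y)) {J : Type} [Fintype J] {d : ℕ} (hd2 : 2 ≤ d)
    {f : J → K[X]} {x : J → ℕ → K} (hO : ∀ i, Orb (f i) (x i)) (hd : ∀ i, (f i).natDegree = d)
    (E B : Finset J) (hw : E.card + 2 * B.card ≤ 3) (F : J → Prop)
    (h : ∀ i, Alg0 (x i) ∨ i ∈ B ∨ F i ∨ (NSa (f i) ∧ ¬ Bdd σ (x i)))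
    (h2 : ∀ i j, i ≠ j → (Bdd σ (x i) ∨ SpF d fun n => σ (x i n)) ∨
      (Bdd σ (x j) ∨ SpF d fun n => σ (x j n)) ∨ (j ∈ E ∨ j ∈ B) ∨ SepG c (x i) (x j))
    (hF : (∀ i, F i → RlS (fun n => σ (x i n)) ∧ (¬ Bdd σ (x i) ∨ Pw d fun n => σ (x i n))) ∨
      ((∀ i j, F i → F j → i = j) ∧ ∀ i, F i → ¬ Bdd σ (x i) ∧ SpF d fun n => σ (x i n)))
    (S : Set (MvPolynomial J K)) : ∃ l, 0 < l ∧ ∃ n0, ∀ n ≥ n0,
      ((∀ P ∈ S, MvPolynomial.eval (fun i => x i n) P = 0) ↔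
        ∀ P ∈ S, MvPolynomial.eval (fun i => x i (n + l)) P = 0) := by
  obtain ⟨l, hl, hD⟩ := oc f x fun i => (hO i).step
  refine ⟨l, hl, per_of_core x S hl fun a P _ => ?_⟩
  have ht := tend_prog a hl
  have ub : ∀ i, ¬ Bdd σ (x i) → ¬ Bdd σ fun t => x i (a + l * t) := fun i b ⟨M, hM⟩ => by
    obtain ⟨p, u, -, e⟩ := bl (hO i) σ b
    obtain ⟨n, hn⟩ := (ht.eventually ((e.tendsto (hO i).deg).eventually_gt_atTop M)).exists
    exact hn.not_ge (hM n)
  have bs : ∀ i, (Bdd σ (x i) ∨ SpF d fun n => σ (x i n)) → (Bdd σ fun t => x i (a + l * t)) ∨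
      SpF (d ^ l) fun t => σ (x i (a + l * t)) := fun i =>
    Or.imp (fun ⟨M, hM⟩ => ⟨M, fun _ => hM _⟩) fun e => e.prog a l
  exact coreG hK σ hc (hd2.trans (Nat.le_self_pow hl.ne' d)) (fun i => (hO i).prog a hl)
    (fun i => by rw [iter_natDegree, hd]) (hD a) E B hw F
    (fun i => (h i).imp (fun ⟨g, g0, e⟩ => ⟨g, g0, ht.eventually e⟩) (Or.imp_right (Or.imp_right
      fun e => ⟨e.1.iter (hO i).deg hl, ub i e.2⟩)))
    (fun i j e => (h2 i j e).imp (bs i) (Or.imp (bs j) (Or.imp_right fun g S a1 a2 =>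
      g S (fun γ ⟨ρ, e⟩ => a1 γ ⟨ρ, fun _ => e _⟩) fun γ ⟨ρ, e⟩ => a2 γ ⟨ρ, fun _ => e _⟩)))
    (hF.imp (fun g i e => ⟨(g i e).1.imp fun ρ e => ⟨e.1, fun _ => e.2 _⟩,
      (g i e).2.imp (ub i) fun e => e.prog a l⟩)
      fun g => ⟨g.1, fun i e => ⟨ub i (g.2 i e).1, (g.2 i e).2.prog a l⟩⟩)

theorem mainG {J : Type} [Fintype J] (f : J → ℂ[X]) (z : J → ℕ → ℂ)
    (hz : ∀ i n, z i (n + 1) = (f i).eval (z i n)) {d : ℕ} (hd2 : 2 ≤ d)
    (hd : ∀ i, (f i).natDegree = d) (hf : ∀ i k, IsAlgebraic ℚ ((f i).coeff k))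
    (z0 : ∀ i, IsAlgebraic ℚ (z i 0)) (s : ℂ →+* ℂ)
    (E B : Finset J) (hw : E.card + 2 * B.card ≤ 3)
    (h : ∀ i ∉ B, (Set.range (z i)).Infinite → ¬ Special (f i) → ¬ Bdd s (z i))
    (k : J → Subfield ℂ) (hk : ∀ i n, s (z i n) ∈ k i)
    (h2 : ∀ i j, i ≠ j → ¬ Special (f i) → ¬ Special (f j) → ¬ Bdd s (z i) → ¬ Bdd s (z j) →
      (j ∈ E ∨ j ∈ B) ∨ ∀ w ∈ k j, (starRingEnd ℂ) w ∈ k i → w.im = 0) (F : J → Prop)
    (eF : ∀ i, F i ↔ i ∉ B ∧ (Set.range (z i)).Infinite ∧ Special (f i))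
    (hF : (∀ i, F i → (∀ n, (s (z i n)).im = 0) ∧
        (¬ Bdd s (z i) ∨ ∃ a b, f i = C a * (X - C b) ^ d + C b)) ∨
      ((∀ i j, F i → F j → i = j) ∧ ∀ i, F i → ¬ Bdd s (z i)))
    (I : Set (MvPolynomial J ℂ)) : ∃ l, 0 < l ∧ ∃ n0, ∀ n ≥ n0,
      ((∀ P ∈ I, MvPolynomial.eval (fun i => z i n) P = 0) ↔
        ∀ P ∈ I, MvPolynomial.eval (fun i => z i (n + l)) P = 0) := by
  have ez : ∀ i n, (fun w => (f i).eval w)^[n] (z i 0) = z i n := fun i n => by
    induction n with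
    | zero => rfl
    | succ n ih => rw [Function.iterate_succ_apply', ih, hz]
  obtain ⟨K, κ, g, x, hK, -, -, hκ, hO, -, hx⟩ := exists_orb f (fun i => z i 0) hf z0
    ∅ (by simp)
  simp only [ez] at hx
  have : NumberField K := ⟨⟩
  obtain ⟨L, ι, hL, hG, hC, hι⟩ := ext_G (s.comp (algebraMap K ℂ))
  have : NumberField L := ⟨⟩
  set σ := algebraMap L ℂ with hσ
  obtain ⟨c, hc⟩ := hC σ
  have e1 : ∀ i n, σ (ι (x i n)) = s (κ i * z i n) := fun i n => (hι _).trans (congrArg s (hx i n))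
  have κ0 : ∀ i, (κ i : ℂ) ≠ 0 := fun i => by simpa using hκ i
  have s0 : ∀ i, s (κ i) ≠ 0 := fun i => (_root_.map_ne_zero s).2 (κ0 i)
  have ub : ∀ i, ¬ Bdd s (z i) → ¬ Bdd σ fun n => ι (x i n) := fun i b ⟨M, hM⟩ =>
    b ⟨‖s (κ i)‖⁻¹ * M, fun n => by
      have := hM n
      rw [e1, map_mul, norm_mul] at this
      rwa [le_inv_mul_iff₀ (norm_pos_iff.2 (s0 i))]⟩
  have d2 : ∀ i, 2 ≤ (f i).natDegree := fun i => hd i ▸ hd2
  have sp : ∀ i, Special (f i) → (∃ n, z i n ≠ z i 0) → SpF d fun n => σ (ι (x i n)) :=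
    fun i a b => by simpa only [e1, hd] using (spf_of (d2 i) (hf i) a (z0 i) (hz i) b).map s (κ i)
  have bs : ∀ i, (Special (f i) ∨ Bdd s (z i)) →
      (Bdd σ fun n => ι (x i n)) ∨ SpF d fun n => σ (ι (x i n)) := fun i e => by
    by_cases b : Bdd s (z i)
    · obtain ⟨M, hM⟩ := b
      exact Or.inl ⟨‖s (κ i)‖ * M, fun n => by
        beta_reduce
        rw [e1, map_mul, norm_mul]
        exact mul_le_mul_of_nonneg_left (hM n) (norm_nonneg _)⟩
    · exact Or.inr (sp i (e.resolve_right b) (by_contra fun a => b ⟨‖s (z i 0)‖, fun n => by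
        rw [not_not.1 (not_exists.1 a n)]⟩))
  have mk : ∀ i n, (((ι (κ i))⁻¹ * ι (x i n) : L) : ℂ) ∈ k i := fun i n => by
    change σ ((ι (κ i))⁻¹ * ι (x i n)) ∈ k i
    rw [map_mul, map_inv₀, e1, map_mul, show σ (ι (κ i)) = s (κ i) from hι _,
      inv_mul_cancel_left₀ (s0 i)]
    exact hk i n
  have ι0 : ∀ i, (ι (κ i))⁻¹ ≠ 0 := fun i => by simpa using hκ i
  obtain ⟨𝓡, h𝓡⟩ := descendMv (algebraMap K ℂ) (phi (fun i => C (κ i : ℂ)⁻¹ * X) '' I)
  obtain ⟨l, hl, n0, H⟩ := topG hC σ hc hd2 (fun i => (hO i (d2 i)).1.map ι)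
    (fun i => (natDegree_map ι).trans ((hO i (d2 i)).2.1.trans (hd i))) E B hw F (fun i => by
      by_cases b : i ∈ B
      · exact Or.inr (Or.inl b)
      by_cases a : (Set.range (z i)).Infinite
      swap
      · refine Or.inl (alg0_fin (Set.Finite.of_finite_image (f := σ)
          (((not_not.1 a).image fun w => s (κ i * w)).subset ?_) σ.injective.injOn))
        rintro _ ⟨_, ⟨n, rfl⟩, rfl⟩
        exact ⟨_, ⟨n, rfl⟩, (e1 i n).symm⟩
      by_cases e : Special (f i)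
      · exact Or.inr (Or.inr (Or.inl ((eF i).2 ⟨b, a, e⟩)))
      exact Or.inr (Or.inr (Or.inr ⟨fun t => by
        rw [Polynomial.map_map]; exact (hO i (d2 i)).2.2 e _, ub i (h i b a e)⟩)))
    (fun i j e => by
      by_cases a : Special (f i) ∨ Bdd s (z i)
      · exact Or.inl (bs i a)
      by_cases b : Special (f j) ∨ Bdd s (z j)
      · exact Or.inr (Or.inl (bs j b))
      rw [not_or] at a b
      exact Or.inr (Or.inr ((h2 i j e a.1 b.1 a.2 b.2).imp_right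
        (sepG_of L hc (ι0 i) (ι0 j) _ _ (mk i) (mk j)))))
    (hF.imp (fun g i e => ⟨⟨_, inv_ne_zero (s0 i), fun n => by
        beta_reduce
        rw [e1, map_mul, inv_mul_cancel_left₀ (s0 i), (g i e).1]⟩,
        (g i e).2.imp (ub i) fun ⟨a, b, p⟩ => by
          simpa only [e1, hd] using (pw_of (d2 i) (hf i) (by rwa [hd]) (z0 i) (hz i)).map s
            (κ := κ i) (alg_emb (algebraMap K ℂ) (κ i))⟩)
      fun g => ⟨g.1, fun i e => ⟨ub i (g.2 i e), sp i ((eF i).1 e).2.2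
        (by_contra fun a => ((eF i).1 e).2.1 ((Set.finite_singleton (z i 0)).subset (by
          rintro _ ⟨n, rfl⟩
          exact not_not.1 (not_exists.1 a n))))⟩⟩) (MvPolynomial.map ι '' 𝓡)
  have key (n : ℕ) : (∀ P ∈ I, MvPolynomial.eval (fun i => z i n) P = 0) ↔
      ∀ Q ∈ MvPolynomial.map ι '' 𝓡, MvPolynomial.eval (fun i => ι (x i n)) Q = 0 := by
    have e0 : ∀ Q, MvPolynomial.eval (fun i => ι (x i n)) (MvPolynomial.map ι Q) =
        ι (MvPolynomial.eval (fun i => x i n) Q) := fun Q => by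
      rw [MvPolynomial.eval_map, MvPolynomial.eval, MvPolynomial.coe_eval₂Hom,
        MvPolynomial.eval₂_comp_left]
      rfl
    simp only [Set.forall_mem_image, e0, map_eq_zero]
    rw [← h𝓡 fun i => x i n, Set.forall_mem_image]
    refine forall₂_congr fun P _ => ?_
    have e (i : J) : (C (κ i : ℂ)⁻¹ * X).eval (algebraMap K ℂ (x i n)) = z i n := by
      rw [eval_mul, eval_C, eval_X, show algebraMap K ℂ (x i n) = x i n from rfl, hx,
        inv_mul_cancel_left₀ (κ0 i)]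
    simp only [eval_phi, e]
  exact ⟨l, hl, n0, fun n hn => by rw [key, key]; exact H n hn⟩

end Pool.Agent.P.MP_68214b_ag.DS
end

-- part Pool.Agent.P.MP_68214b_ag.DU4
section

open Polynomial Filter Asymptotics NumberField Topology

namespace Pool.Agent.P.MP_68214b_ag.DS

theorem per_of_core' {K J : Type*} [Field K] [Finite J] (x : J → ℕ → K)
    (S : Set (MvPolynomial J K)) {l : ℕ} (hl : 0 < l) (h : ∀ c,
      (∃ᶠ t in atTop, ∀ P ∈ S, MvPolynomial.eval (fun i => x i (c + l * t)) P = 0) →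
        ∀ P ∈ S, Van (fun i t => x i (c + l * t)) P) :
    ∃ n0, ∀ n ≥ n0, ((∀ P ∈ S, MvPolynomial.eval (fun i => x i n) P = 0) ↔
      ∀ P ∈ S, MvPolynomial.eval (fun i => x i (n + l)) P = 0) := by
  set p : ℕ → Prop := fun n => ∀ P ∈ S, MvPolynomial.eval (fun i => x i n) P = 0 with hp
  have h1 : ∀ c, ∀ᶠ t in atTop, (p (c + l * t) ↔ p (c + l * (t + 1))) := fun c => by
    have : (∀ᶠ t in atTop, p (c + l * t)) ∨ ∀ᶠ t in atTop, ¬ p (c + l * t) := by
      by_cases hv : ∃ᶠ t in atTop, p (c + l * t)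
      · exact Or.inl (unif_van _ S (h c hv))
      · exact Or.inr (not_frequently.1 hv)
    rcases this with e | e <;>
      filter_upwards [e, (tendsto_add_atTop_nat 1).eventually e] with t a b
    · exact iff_of_true a b
    · exact iff_of_false a b
  obtain ⟨t0, h2⟩ := eventually_atTop.1
    ((eventually_all_finset (Finset.range l)).2 fun c _ => h1 c)
  refine ⟨l * t0, fun n hn => ?_⟩
  have := h2 (n / l) ((Nat.le_div_iff_mul_le hl).2 (by rwa [mul_comm])) (n % l)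
    (Finset.mem_range.2 (Nat.mod_lt _ hl))
  rwa [mul_add, mul_one, ← add_assoc, Nat.mod_add_div] at this

theorem topU {K : Type} [Field K] [NumberField K] (hK : Cj K) (σ : K →+* ℂ) {J : Type} [Fintype J]
    {d : ℕ} (hd : 2 ≤ d) {f : J → K[X]} {x : J → ℕ → K}
    (hs : ∀ i n, x i (n + 1) = (f i).eval (x i n)) (E : J → Prop)
    (hE : ∀ i, E i → Orb (f i) (x i) ∧ (f i).natDegree = d ∧ ¬ Bdd σ (x i) ∧
      (NSa (f i) ∨ SpF d fun n => σ (x i n)))
    (hN : ∀ i, ¬ E i → Alg0 (x i) ∨ (Orb (f i) (x i) ∧ (f i).natDegree = d ∧ Bdd σ (x i)) ∨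
      (Orb (f i) (x i) ∧ (f i).natDegree < d) ∨ ∃ a b, ∀ n, x i (n + 1) = a * x i n + b)
    (h0 : ∃ i, E i)
    (h3 : ∀ i j k, E i → E j → E k → i ≠ j → i ≠ k → j ≠ k → NSa (f i) ∨ NSa (f j) ∨ NSa (f k))
    {w : J → ℕ} (hw : ∀ i, 0 < w i) (S : Set (MvPolynomial J K))
    (hV : ∀ z : J → ℂ, z ≠ 0 → (∀ i, z i ≠ 0 → E i ∧ ∃ k, 0 < k ∧ z i ^ k = 1) →
      (∀ i j, z i ≠ 0 → z j ≠ 0 → Dep (x i) (x j)) → Top w z (fun i n => σ (x i n)) (fun n => ∀ P ∈ S, MvPolynomial.eval (fun i => x i n) P = 0) ∨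
        (∃ b, ∀ i, z i = 0 → Alg0 (x i) ∨ i = b) ∨
        ∃ b c, (E b ∧ NSa (f b)) ∧ (E c ∧ NSa (f c)) ∧
          ∀ i, z i = 0 → Alg0 (x i) ∨ i = b ∨ i = c) : ∃ l, 0 < l ∧ ∃ n0, ∀ n ≥ n0,
      ((∀ P ∈ S, MvPolynomial.eval (fun i => x i n) P = 0) ↔
        ∀ P ∈ S, MvPolynomial.eval (fun i => x i (n + l)) P = 0) := by
  obtain ⟨l, hl, hD⟩ := oc f x hs
  refine ⟨l, hl, per_of_core' x S hl fun c hg P hP => ?_⟩
  have ht := tend_prog c hl
  have d2 : 2 ≤ d ^ l := hd.trans (Nat.le_self_pow hl.ne' d)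
  have al : ∀ i, Alg0 (x i) → Alg0 fun t => x i (c + l * t) := fun i ⟨g, g0, e⟩ =>
    ⟨g, g0, ht.eventually e⟩
  have ns : ∀ i, E i → NSa (f i) → NSa (iter (f i) l) := fun i h n => n.iter (hE i h).1.deg hl
  have dp : ∀ i j, E i → E j → Dep (fun t => x i (c + l * t)) (fun t => x j (c + l * t)) →
      Dep (x i) (x j) := fun i j a b e => by
    obtain ⟨p, u, -, e1⟩ := bl (hE i a).1 σ (hE i a).2.2.1
    obtain ⟨q, v, -, e2⟩ := bl (hE j b).1 σ (hE j b).2.2.1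
    rw [(hE i a).2.1] at e1
    rw [(hE j b).2.1] at e2
    exact dep_of_rel (hE i a).1 (hE j b).1 (hE i a).2.1 (hE j b).2.1 e1 e2
      (rel_of_pow (by positivity) (by positivity)
        (be d2 (e1.prog (by omega) c hl) (e2.prog (by omega) c hl) e))
  refine coreU hK σ d2 (f := fun i => iter (f i) l)
    (fun i t => by rw [mul_add, mul_one, ← add_assoc, step_iter (hs i)]) (hD c) E
    (fun i h => ⟨(hE i h).1.prog c hl, by rw [iter_natDegree, (hE i h).2.1],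
      unb_prog (hE i h).1 (hE i h).2.2.1 c hl, (hE i h).2.2.2.imp (ns i h) fun e => e.prog c l⟩)
    (fun i h => (hN i h).imp (al i) (Or.imp (fun ⟨a, b, M, e⟩ => ⟨a.prog c hl,
      by rw [iter_natDegree, b], M, fun _ => e _⟩) ?_)) h0
    (fun i j k a b e a' b' e' => (h3 i j k a b e a' b' e').imp (ns i a) (Or.imp (ns j b) (ns k e)))
    hw hg (fun z a b e => (hV z a b fun i j hi hj =>
      dp i j (b i hi).1 (b j hj).1 (e i j hi hj)).imp (fun ⟨M, c, D, e1, e2, e3, e4⟩ =>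
      ⟨M, c, D, e1, e2, e3, fun _ => e4 _⟩) (Or.imp
      (Exists.imp fun b e i hi => (e i hi).imp_left (al i))
      fun ⟨b, c, e1, e2, e⟩ => ⟨b, c, ⟨e1.1, ns b e1.1 e1.2⟩, ⟨e2.1, ns c e2.1 e2.2⟩,
        fun i hi => (e i hi).imp_left (al i)⟩)) (hg.mono fun t e => e P hP)
  rintro (⟨a, b⟩ | ⟨a, b, e⟩)
  · exact smh_low le_rfl (a.prog c hl) (by
      rw [iter_natDegree]; exact Nat.pow_lt_pow_left b hl.ne')
  · exact smh_aff le_rfl d2 e c l

theorem top_of {J : Type*} [Fintype J] (w : J → ℕ) (s : ℂ →+* ℂ) {κ ζ : J → ℂ} {z : J → ℕ → ℂ}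
    (κ0 : ∀ i, κ i ≠ 0) (aκ : ∀ i, IsAlgebraic ℚ (κ i)) (aζ : ∀ i, IsAlgebraic ℚ (ζ i))
    (az : ∀ i n, IsAlgebraic ℚ (z i n)) {F : MvPolynomial J ℂ} {good : ℕ → Prop}
    (hF : ∀ n, good n → MvPolynomial.eval (fun i => z i n) F = 0)
    (h : MvPolynomial.eval ζ (MvPolynomial.weightedHomogeneousComponent w
      (MvPolynomial.weightedTotalDegree w F) F) ≠ 0) :
    Top w (fun i => s (κ i * ζ i)) (fun i n => s (κ i * z i n)) good := by
  classical
  set L := algebraicClosure ℚ ℂ with hL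
  obtain ⟨lam, hl⟩ : ∃ lam : ℂ →ₗ[L] L, lam _ ≠ 0 :=
    not_forall.1 (mt (Module.forall_dual_apply_eq_zero_iff L _).1 h)
  have wt : ∀ m : J →₀ ℕ, Finsupp.weight w m = ∑ i, w i * m i := fun m => by
    rw [Finsupp.weight_apply, Finsupp.sum_fintype _ _ (by simp)]
    simp only [smul_eq_mul, mul_comm]
  have key : ∀ (M : Finset (J →₀ ℕ)) (a : J → ℂ), (∀ i, IsAlgebraic ℚ (a i)) →
      ∑ m ∈ M, (s (lam (F.coeff m)) * ∏ i, (s (κ i))⁻¹ ^ m i) * ∏ i, s (κ i * a i) ^ m i =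
        s (lam (∑ m ∈ M, F.coeff m * ∏ i, a i ^ m i)) := fun M a ha => by
    rw [map_sum, AddSubmonoidClass.coe_finsetSum, map_sum]
    refine Finset.sum_congr rfl fun m _ => ?_
    have e : F.coeff m * ∏ i, a i ^ m i =
        (∏ i, (⟨a i, mem_algebraicClosure_iff.2 (ha i)⟩ : L) ^ m i) • F.coeff m := by
      rw [IntermediateField.smul_def, smul_eq_mul, mul_comm]
      simp
    rw [e, map_smul, smul_eq_mul, mul_assoc, ← Finset.prod_mul_distrib, mul_comm]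
    simp only [IntermediateField.coe_mul, IntermediateField.coe_prod, IntermediateField.coe_pow,
      map_mul, map_prod, map_pow, ← mul_pow,
      inv_mul_cancel_left₀ ((_root_.map_ne_zero s).2 (κ0 _))]
  refine ⟨F.support, fun m => s (lam (F.coeff m)) * ∏ i, (s (κ i))⁻¹ ^ m i,
    MvPolynomial.weightedTotalDegree w F, fun m => ?_,
    fun m hm => wt m ▸ MvPolynomial.le_weightedTotalDegree w hm, ?_, fun n hn => ?_⟩
  · rw [← mem_algebraicClosure_iff]
    exact mul_mem (mem_algebraicClosure_iff.2 ((mem_algebraicClosure_iff.1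
      (lam (F.coeff m)).2).algHom s.toRatAlgHom)) (prod_mem fun i _ => pow_mem (inv_mem
        (mem_algebraicClosure_iff.2 ((aκ i).algHom s.toRatAlgHom))) _)
  · rw [key _ _ aζ, _root_.map_ne_zero, Ne, ZeroMemClass.coe_eq_zero]
    convert hl using 3
    simp only [MvPolynomial.weightedHomogeneousComponent_apply, map_sum,
      MvPolynomial.eval_monomial, wt, Finsupp.prod_pow]
  · rw [key _ _ fun i => az i n, ← MvPolynomial.eval_eq', hF n hn]
    simp

theorem root_pull (s : ℂ →+* ℂ) {ζ : ℂ} {k : ℕ} (hk : 0 < k) (h : ζ ^ k = 1) :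
    ∃ η, η ^ k = 1 ∧ s η = ζ := by
  have p := Complex.isPrimitiveRoot_exp k hk.ne'
  have : NeZero k := ⟨hk.ne'⟩
  obtain ⟨j, -, e⟩ := (p.map_of_injective s.injective).eq_pow_of_pow_eq_one h
  exact ⟨_ ^ j, by rw [← pow_mul, mul_comm, pow_mul, p.pow_eq_one, one_pow], by rw [map_pow, e]⟩

theorem lc_of {f g : ℂ[X]} {κ : ℂ} (κ0 : κ ≠ 0) (hg : g.Monic) (hd : g.natDegree = f.natDegree)
    (h2 : 2 ≤ f.natDegree) {z : ℕ → ℂ} (hz : (Set.range z).Infinite)
    (h : ∀ n, g.eval (κ * z n) = κ * f.eval (z n)) : f.leadingCoeff = κ ^ (f.natDegree - 1) := by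
  have e : g.comp (C κ * X) = C κ * f := eq_of_infinite_eval_eq _ _ (hz.mono (by
    rintro _ ⟨n, rfl⟩
    simpa [eval_comp] using h n))
  have := congrArg leadingCoeff e
  rw [leadingCoeff_comp (by rw [natDegree_C_mul κ0, natDegree_X]; exact one_ne_zero), hg,
    leadingCoeff_mul, leadingCoeff_mul, leadingCoeff_C, leadingCoeff_X, one_mul, mul_one, hd,
    ← Nat.sub_add_cancel (show 1 ≤ f.natDegree by omega), pow_succ'] at this
  exact (mul_left_cancel₀ κ0 this).symm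

theorem dep_scale {L : Type*} [Field L] {a b : ℕ → L} {κ : L} (κ0 : κ ≠ 0)
    (h : Dep a fun n => κ * b n) : Dep a b := by
  obtain ⟨G, G0, h⟩ := h
  refine ⟨G.comp (C (C κ) * X), fun e => ?_, h.mono fun n hn => ?_⟩
  · rcases comp_eq_zero_iff.1 e with e | ⟨-, e⟩
    · exact G0 e
    · have := congrArg (coeff · 1) e
      simp [coeff_C, κ0] at this
  · rw [← hn, evalEval, evalEval, eval_comp]
    simp

theorem dep_C {K : Type*} [Field K] (ι : K →+* ℂ) {x y : ℕ → K} {a b : ℕ → ℂ} {κ κ' : ℂ}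
    (κ0 : κ ≠ 0) (κ1 : κ' ≠ 0) (hx : ∀ n, ι (x n) = κ * a n) (hy : ∀ n, ι (y n) = κ' * b n)
    (h : Dep x y) : Dep a b := by
  obtain ⟨G, G0, h⟩ := h
  refine (dep_scale κ0 (dep_scale κ1 (a := fun n => κ * a n) ⟨G.map (mapRingHom ι),
    (Polynomial.map_ne_zero_iff (map_injective ι ι.injective)).2 G0, h.mono fun n hn => ?_⟩).symm).symm
  beta_reduce
  rw [← hx, ← hy, map_mapRingHom_evalEval, hn, map_zero]

theorem mainU {J : Type} [Fintype J] (f : J → ℂ[X]) (z : J → ℕ → ℂ)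
    (hz : ∀ i n, z i (n + 1) = (f i).eval (z i n)) {d : ℕ} (hd2 : 2 ≤ d)
    (hf : ∀ i k, IsAlgebraic ℚ ((f i).coeff k)) (z0 : ∀ i, IsAlgebraic ℚ (z i 0))
    (hd : ∀ i, (Set.range (z i)).Infinite → (f i).natDegree ≤ d) (s : ℂ →+* ℂ) (E : J → Prop)
    (eE : ∀ i, E i ↔ (f i).natDegree = d ∧ ¬ Bdd s (z i)) (h0 : ∃ i, E i)
    (h3 : ∀ i j k, E i → E j → E k → i ≠ j → i ≠ k → j ≠ k →
      ¬ Special (f i) ∨ ¬ Special (f j) ∨ ¬ Special (f k))
    {w : J → ℕ} (hw : ∀ i, 0 < w i) (I : Set (MvPolynomial J ℂ))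
    (hV : ∀ ζ : J → ℂ, ζ ≠ 0 →
      (∀ i, ζ i ≠ 0 → E i ∧ ∃ k, 0 < k ∧ ((f i).leadingCoeff * ζ i ^ (d - 1)) ^ k = 1) →
      (∀ i j, ζ i ≠ 0 → ζ j ≠ 0 → Dep (z i) (z j)) →
      (∃ F : MvPolynomial J ℂ,
        (∀ p : J → ℂ, (∀ P ∈ I, MvPolynomial.eval p P = 0) → MvPolynomial.eval p F = 0) ∧
        MvPolynomial.eval ζ (MvPolynomial.weightedHomogeneousComponent w
          (MvPolynomial.weightedTotalDegree w F) F) ≠ 0) ∨
      (∃ b, ∀ i, ζ i = 0 → (Set.range (z i)).Finite ∨ i = b) ∨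
        ∃ b c, (E b ∧ ¬ Special (f b)) ∧ (E c ∧ ¬ Special (f c)) ∧
          ∀ i, ζ i = 0 → (Set.range (z i)).Finite ∨ i = b ∨ i = c) :
    ∃ l, 0 < l ∧ ∃ n0, ∀ n ≥ n0, ((∀ P ∈ I, MvPolynomial.eval (fun i => z i n) P = 0) ↔
        ∀ P ∈ I, MvPolynomial.eval (fun i => z i (n + l)) P = 0) := by
  have ez : ∀ i n, (fun w => (f i).eval w)^[n] (z i 0) = z i n := fun i n => by
    induction n with
    | zero => rfl
    | succ n ih => rw [Function.iterate_succ_apply', ih, hz]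
  obtain ⟨K, κ, g0, x, hK, hC, -, hκ, hO, hA, hx⟩ := exists_orb f (fun i => z i 0) hf z0
    ∅ (by simp)
  simp only [ez] at hx
  have : NumberField K := ⟨⟩
  have hg : ∀ i, ∃ g : K[X], (∀ n, x i (n + 1) = g.eval (x i n)) ∧
      (2 ≤ (f i).natDegree → g0 i = g) := fun i => by
    by_cases h : 2 ≤ (f i).natDegree
    · exact ⟨g0 i, (hO i h).1.step, fun _ => rfl⟩
    · obtain ⟨a, b, e⟩ := hA i h
      exact ⟨C a * X + C b, fun n => by simp [e], fun e => absurd e h⟩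
  choose g hs hg using hg
  replace hO : ∀ i, 2 ≤ (f i).natDegree → Orb (g i) (x i) ∧ (g i).natDegree = (f i).natDegree ∧
      (¬ Special (f i) → NSa (g i)) := fun i h => hg i h ▸ hO i h
  set σ := s.comp (algebraMap K ℂ) with hσ
  have e1 : ∀ i n, σ (x i n) = s (κ i * z i n) := fun i n => congrArg s (hx i n)
  have κ0 : ∀ i, (κ i : ℂ) ≠ 0 := fun i => by simpa using hκ i
  have s0 : ∀ i, 0 < ‖s (κ i)‖ := fun i => norm_pos_iff.2 ((_root_.map_ne_zero s).2 (κ0 i))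
  have ub : ∀ i, Bdd σ (x i) ↔ Bdd s (z i) := fun i => ⟨fun ⟨M, hM⟩ =>
    ⟨‖s (κ i)‖⁻¹ * M, fun n => by
      have := hM n
      rw [e1, map_mul, norm_mul] at this
      rwa [le_inv_mul_iff₀ (s0 i)]⟩, fun ⟨M, hM⟩ => ⟨‖s (κ i)‖ * M, fun n => by
      rw [e1, map_mul, norm_mul]
      exact mul_le_mul_of_nonneg_left (hM n) (norm_nonneg _)⟩⟩
  have al : ∀ i, (Set.range (z i)).Finite → Alg0 (x i) := fun i a => by
    refine alg0_of_finite (Set.Finite.of_finite_image (f := fun a : K => (a : ℂ))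
      ((a.image fun z => (κ i : ℂ) * z).subset ?_) Subtype.val_injective.injOn)
    rintro _ ⟨_, ⟨n, rfl⟩, rfl⟩
    exact ⟨_, ⟨n, rfl⟩, (hx i n).symm⟩
  have d2 : ∀ i, E i → 2 ≤ (f i).natDegree := fun i h => ((eE i).1 h).1 ▸ hd2
  have inf : ∀ i, E i → (Set.range (z i)).Infinite := fun i h a => by
    obtain ⟨M, hM⟩ := (a.image fun t => ‖s t‖).bddAbove
    exact ((eE i).1 h).2 ⟨M, fun n => hM ⟨_, ⟨n, rfl⟩, rfl⟩⟩
  have ns : ∀ i, E i → ¬ Special (f i) → NSa (g i) := fun i h => (hO i (d2 i h)).2.2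
  obtain ⟨𝓡, h𝓡⟩ := descendMv (algebraMap K ℂ) (phi (fun i => C (κ i : ℂ)⁻¹ * X) '' I)
  have key (n : ℕ) : (∀ P ∈ I, MvPolynomial.eval (fun i => z i n) P = 0) ↔
      ∀ Q ∈ 𝓡, MvPolynomial.eval (fun i => x i n) Q = 0 := by
    rw [← h𝓡 fun i => x i n, Set.forall_mem_image]
    refine forall₂_congr fun P _ => ?_
    have e (i : J) : (C (κ i : ℂ)⁻¹ * X).eval (algebraMap K ℂ (x i n)) = z i n := by
      rw [eval_mul, eval_C, eval_X, show algebraMap K ℂ (x i n) = x i n from rfl, hx,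
        inv_mul_cancel_left₀ (κ0 i)]
    simp only [eval_phi, e]
  have aκ : ∀ i, IsAlgebraic ℚ (κ i : ℂ) := fun i => alg_emb (algebraMap K ℂ) (κ i)
  obtain ⟨l, hl, n0, H⟩ := topU hC σ hd2 hs E (fun i h => ⟨(hO i (d2 i h)).1,
      (hO i (d2 i h)).2.1.trans ((eE i).1 h).1, mt (ub i).1 ((eE i).1 h).2, by
        by_cases a : Special (f i)
        · refine Or.inr ?_
          simpa only [e1, ((eE i).1 h).1] using (spf_of (d2 i h) (hf i) a (z0 i) (hz i)
            (by_contra fun a => inf i h ((Set.finite_singleton (z i 0)).subset (by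
              rintro _ ⟨n, rfl⟩
              exact not_not.1 (not_exists.1 a n))))).map s (κ i)
        · exact Or.inl (ns i h a)⟩) (fun i h => by
      by_cases a : (Set.range (z i)).Finite
      · exact Or.inl (al i a)
      by_cases b : 2 ≤ (f i).natDegree
      swap
      · exact Or.inr (Or.inr (Or.inr (hA i b)))
      rcases (hd i a).eq_or_lt with e | e
      · exact Or.inr (Or.inl ⟨(hO i b).1, (hO i b).2.1.trans e,
          (ub i).2 (by_contra fun t => h ((eE i).2 ⟨e, t⟩))⟩)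
      · exact Or.inr (Or.inr (Or.inl ⟨(hO i b).1, (hO i b).2.1 ▸ e⟩))) h0
    (fun i j k a b e a' b' e' => (h3 i j k a b e a' b' e').imp (ns i a) (Or.imp (ns j b) (ns k e)))
    hw 𝓡 fun y y0 hy hp => by
      have : ∀ i, ∃ η, s η = y i ∧ (y i ≠ 0 → ∃ k, 0 < k ∧ η ^ k = 1) := fun i => by
        by_cases h : y i = 0
        · exact ⟨0, by rw [h, map_zero], fun e => absurd h e⟩
        · obtain ⟨k, k0, hk⟩ := (hy i h).2
          obtain ⟨η, a, b⟩ := root_pull s k0 hk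
          exact ⟨η, b, fun _ => ⟨k, k0, a⟩⟩
      choose η hη hη' using this
      have zz : ∀ i, (κ i : ℂ)⁻¹ * η i = 0 ↔ y i = 0 := fun i => by
        rw [mul_eq_zero, inv_eq_zero, ← hη, _root_.map_eq_zero, or_iff_right (κ0 i)]
      refine (hV (fun i => (κ i : ℂ)⁻¹ * η i) (fun e => y0 (funext fun i => (zz i).1 (congrFun e i)))
        (fun i h => ?_) fun i j hi hj => dep_C (algebraMap K ℂ) (κ0 i) (κ0 j) (hx i) (hx j)
          (hp i j (mt (zz i).2 hi) (mt (zz j).2 hj))).imp (fun ⟨F, a, b⟩ => ?_) (Or.imp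
          (Exists.imp fun b e i hi => (e i ((zz i).2 hi)).imp_left (al i))
          fun ⟨b, c, e1, e2, e⟩ => ⟨b, c, ⟨e1.1, ns b e1.1 e1.2⟩, ⟨e2.1, ns c e2.1 e2.2⟩,
            fun i hi => (e i ((zz i).2 hi)).imp_left (al i)⟩)
      · have h' := mt (zz i).2 h
        have ei := (hy i h').1
        obtain ⟨k, k0, hk⟩ := hη' i h'
        refine ⟨ei, k, k0, ?_⟩
        rw [lc_of (κ0 i) ((hO i (d2 i ei)).1.monic.map (algebraMap K ℂ))
          ((natDegree_map _).trans (hO i (d2 i ei)).2.1) (d2 i ei) (inf i ei) fun n => by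
            rw [← hz, ← hx, ← hx, hs, eval_map]
            exact eval₂_at_apply (algebraMap K ℂ) _, ((eE i).1 ei).1, ← mul_pow,
          mul_inv_cancel_left₀ (κ0 i), ← pow_mul, mul_comm, pow_mul, hk, one_pow]
      · have := top_of w s κ0 aκ (fun i => (aκ i).inv.mul (by
          by_cases h : y i = 0
          · rw [← hη, _root_.map_eq_zero] at h
            exact h ▸ isAlgebraic_zero
          · obtain ⟨k, k0, hk⟩ := hη' i h
            exact mem_algebraicClosure_iff.1 (dss3_root k0 hk))) (z := z) (fun i n => by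
          rw [← inv_mul_cancel_left₀ (κ0 i) (z i n), ← hx]
          exact (aκ i).inv.mul (alg_emb (algebraMap K ℂ) _))
          (fun n hn => a _ ((key n).2 hn)) b
        simpa only [e1, mul_inv_cancel_left₀ (κ0 _), hη] using this
  exact ⟨l, hl, n0, fun n hn => by rw [key, key]; exact H n hn⟩

end Pool.Agent.P.MP_68214b_ag.DS
end
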