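import Pool.Agent.K.MP_68214b_ag.C3

-- part Pool.Agent.P.MP_68214b_ag.DH3
section

open Polynomial Filter Asymptotics NumberField Topology

namespace Pool.Agent.P.MP_68214b_ag.DS

variable {K : Type} [Field K] [NumberField K]

theorem ev_sep {L I : Type*} [Field L] (s : Finset I) (q : I → L[X]) (y : I → L) :
    MvPolynomial.eval y (∑ i ∈ s, aeval (MvPolynomial.X i : MvPolynomial I L) (q i)) =
      ∑ i ∈ s, (q i).eval (y i) := by
  rw [map_sum]
  refine Finset.sum_congr rfl fun i _ => ?_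
  rw [← MvPolynomial.coe_aeval_eq_eval, RingHom.coe_coe, ← aeval_algHom_apply,
    MvPolynomial.aeval_X, coe_aeval_eq_eval]

theorem coreH (hK : Cj K) {J : Type} [Fintype J] {f : J → K[X]} {x : J → ℕ → K}
    (hO : ∀ i, Orb (f i) (x i)) (hw : ∀ (d : ℕ) (t t' : Finset J),
      (∀ i ∈ t, ¬ Alg0 (x i) ∧ (f i).natDegree = d ∧ ¬ NSa (f i)) →
      (∀ i ∈ t', ¬ Alg0 (x i) ∧ (f i).natDegree = d ∧ ∀ σ : K →+* ℂ, Bdd σ (x i)) →
      t.card + 2 * t'.card ≤ 3)
    (hD : Dom x) (q : J → K[X]) {L : ℕ → K} (L1 : ∀ d, 2 ≤ d → SmH atTop d L)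
    (L2 : ∀ c, (∃ᶠ n in atTop, L n = c) → ∀ᶠ n in atTop, L n = c)
    (h : ∃ᶠ n in atTop, L n + ∑ i, (q i).eval (x i n) = 0) :
    ∀ᶠ n in atTop, L n + ∑ i, (q i).eval (x i n) = 0 := by
  classical
  obtain ⟨s, cl, c, h1, h2, h3⟩ := classes hD q
  rcases s.eq_empty_or_nonempty with rfl | hne
  · simp only [Finset.sum_empty, add_zero] at h3
    filter_upwards [h3, L2 (-c) ((h.and_eventually h3).mono fun n hn => by
      linear_combination hn.1 - hn.2)] with n a b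
    rw [a, b, neg_add_cancel]
  exfalso
  obtain ⟨b1, hb1, hmax⟩ := s.exists_max_image (fun b => (f b).natDegree) hne
  set A := Algebra.adjoin K (Set.range x) with hA
  set d := (f b1).natDegree with hd
  have d2 : 2 ≤ d := (hO b1).deg
  have dA : DomA A := hD.domA
  have mA : ∀ i, x i ∈ A := fun i => Algebra.subset_adjoin ⟨i, rfl⟩
  have n0 : ∀ b ∈ s, ¬ Alg0 (x b) := fun b hb => ((h1 b hb).2.1 b (h1 b hb).1).1
  have dg : ∀ b ∈ s, ∀ i ∈ cl b, (f i).natDegree = (f b).natDegree := fun b hb i hi =>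
    (deg_eq' dA (hO b) (hO i) (mA b) (mA i) (n0 b hb) ((h1 b hb).2.1 i hi).1
      ((h1 b hb).2.1 i hi).2).symm
  have dp : ∀ b ∈ s, ∀ i ∈ cl b, ∀ j ∈ cl b, Dep (x i) (x j) := fun b hb i hi j hj =>
    dA.trans (mA i) (mA b) (mA j) (n0 b hb) ((h1 b hb).2.1 i hi).2 ((h1 b hb).2.1 j hj).2
  have nb := frequently_iff_neBot.1 h
  set 𝒰 := Ultrafilter.of (atTop ⊓ 𝓟 {n : ℕ | L n + ∑ i, (q i).eval (x i n) = 0}) with h𝒰
  have hU : (𝒰 : Filter ℕ) ≤ atTop := (Ultrafilter.of_le _).trans inf_le_left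
  have hz : ∀ᶠ n in (𝒰 : Filter ℕ), L n + ∑ i, (q i).eval (x i n) = 0 :=
    le_principal_iff.1 ((Ultrafilter.of_le _).trans inf_le_right)
  have es : ∀ b n, ∑ i : cl b, (q i).eval (x i n) = ∑ i ∈ cl b, (q i).eval (x i n) := fun b n =>
    Finset.sum_coe_sort (cl b) fun i => (q i).eval (x i n)
  obtain ⟨σ, b0, hb0, hσ⟩ : ∃ σ : K →+* ℂ, ∃ b ∈ s,
      ¬ Sml 𝒰 d fun n => σ (∑ i ∈ cl b, (q i).eval (x i n)) := by
    by_contra! hS
    have c1 : ∀ b ∈ s, (f b).natDegree = d → ∀ i ∈ cl b, NSa (f i) → ∀ σ : K →+* ℂ, Bdd σ (x i) :=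
      fun b hb e i hi hN σ => by_contra fun hσ => by
      obtain ⟨c', l, k, hl, hk⟩ := opi σ (I := cl b) (f := fun j => f j) (x := fun j => x j)
        (fun j => hO j) (d := d) (fun j => (dg b hb j j.2).trans e) (i0 := ⟨i, hi⟩) hN hσ
        (fun j => dp b hb i hi j j.2) (∑ j : cl b, aeval (MvPolynomial.X j) (q j)) 𝒰 hU
        (by simpa only [ev_sep, es] using hS σ b hb)
      have := van_of_prog (fun i => (hO i).step) hD (c := c') hl
        (P := ∑ j ∈ cl b, aeval (MvPolynomial.X j) (q j) - MvPolynomial.C k) (by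
          simpa only [Van, map_sub, ev_sep, es, MvPolynomial.eval_C, sub_eq_zero] using hk)
      simp only [Van, map_sub, ev_sep, MvPolynomial.eval_C, sub_eq_zero] at this
      exact (h1 b hb).2.2 (alg0_of_const this)
    have c2 : ∀ b ∈ s, (f b).natDegree = d → ∃ t ⊆ cl b, ∃ t' ⊆ cl b,
        (∀ i ∈ t, ¬ NSa (f i)) ∧ (∀ i ∈ t', ∀ σ : K →+* ℂ, Bdd σ (x i)) ∧
        2 ≤ t.card + 2 * t'.card := fun b hb e => by
      by_cases hB : ∃ i ∈ cl b, ∀ σ : K →+* ℂ, Bdd σ (x i)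
      · obtain ⟨i, hi, hB⟩ := hB
        exact ⟨∅, by simp, {i}, by simpa, by simp, by simpa, by simp⟩
      refine ⟨cl b, le_rfl, ∅, by simp, fun i hi hN => hB ⟨i, hi, c1 b hb e i hi hN⟩, by simp, ?_⟩
      by_contra hc
      have e1 : cl b = {b} := Finset.eq_singleton_iff_unique_mem.2 ⟨(h1 b hb).1, fun i hi =>
        Finset.card_le_one.1 (by omega) i hi b (h1 b hb).1⟩
      refine hB ⟨b, (h1 b hb).1, fun σ => by_contra fun hσ => ?_⟩
      have := hS σ b hb
      have h5 := (h1 b hb).2.2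
      simp only [e1, Finset.sum_singleton] at this h5
      refine single (hO b) hσ (Nat.pos_of_ne_zero fun h0 => h5 (alg0_of_const (c := (q b).coeff 0)
        (Eventually.of_forall fun n => ?_))) 𝒰 hU (e ▸ this)
      rw [eq_C_of_natDegree_eq_zero h0, eval_C, coeff_C_zero]
    by_cases hc : ∃ b ∈ s.erase b1, (f b).natDegree = d
    · obtain ⟨b2, hb2, e⟩ := hc
      obtain ⟨ne, hb2⟩ := Finset.mem_erase.1 hb2
      have hm : ∀ i ∈ cl b1 ∪ cl b2, ¬ Alg0 (x i) ∧ (f i).natDegree = d := fun i hi =>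
        (Finset.mem_union.1 hi).elim (fun hi => ⟨((h1 b1 hb1).2.1 i hi).1, dg b1 hb1 i hi⟩)
          fun hi => ⟨((h1 b2 hb2).2.1 i hi).1, (dg b2 hb2 i hi).trans e⟩
      have dj : Disjoint (cl b1) (cl b2) := Finset.disjoint_left.2 fun i i1 i2 =>
        h2 b2 hb2 b1 hb1 ne (dA.trans (mA _) (mA i) (mA _) ((h1 b1 hb1).2.1 i i1).1
          ((h1 b2 hb2).2.1 i i2).2.symm ((h1 b1 hb1).2.1 i i1).2.symm)
      obtain ⟨t1, a1, u1, a2, a3, a4, a5⟩ := c2 b1 hb1 rfl
      obtain ⟨t2, e1, u2, e2, e3, e4, e5⟩ := c2 b2 hb2 e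
      have := hw d (t1 ∪ t2) (u1 ∪ u2)
        (fun i hi => ⟨(hm i (Finset.union_subset_union a1 e1 hi)).1,
          (hm i (Finset.union_subset_union a1 e1 hi)).2, (Finset.mem_union.1 hi).elim (a3 i) (e3 i)⟩)
        fun i hi => ⟨(hm i (Finset.union_subset_union a2 e2 hi)).1,
          (hm i (Finset.union_subset_union a2 e2 hi)).2, (Finset.mem_union.1 hi).elim (a4 i) (e4 i)⟩
      rw [Finset.card_union_of_disjoint (dj.mono a1 e1),
        Finset.card_union_of_disjoint (dj.mono a2 e2)] at this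
      omega
    have h5 := (((SmH.const hU d2 c).add hU d2 (a := fun _ => c) (b := L)
      fun ρ hρ => hU (L1 d d2 ρ hρ)).add hU d2 (SmH.sum hU d2 (s.erase b1)
        (r := fun b n => ∑ i ∈ cl b, (q i).eval (x i n)) fun b hb => SmH.sum hU d2 _ fun i hi =>
          (smh_low hU (hO i) (by
            have hb' := Finset.mem_of_mem_erase hb
            rw [dg b hb' i hi]
            exact (hmax b hb').lt_of_ne fun e => hc ⟨b, hb, e⟩)).poly hU d2 (q i))).poly hU d2 (-X)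
    refine not_smh hU dA (hO b1) (mA b1) (sum_mem_adj x q (cl b1)) (n0 b1 hb1) (h1 b1 hb1).2.2
      (dA.dep_sum (mA b1) (n0 b1 hb1) (cl b1) (fun i hi => ⟨mA i, ((h1 b1 hb1).2.1 i hi).2⟩) q).symm
      fun ρ hρ => ?_
    filter_upwards [h5 ρ hρ, hU h3, hz] with n a b e
    rw [← Finset.add_sum_erase _ _ hb1] at b
    rwa [eval_neg, eval_X, show -(c + L n + ∑ b ∈ s.erase b1, ∑ i ∈ cl b, (q i).eval (x i n)) =
      ∑ i ∈ cl b1, (q i).eval (x i n) by linear_combination b - e] at a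
  have hg : ∀ b, ∃ i, b ∈ s → i ∈ cl b ∧
      (Sml 𝒰 d (fun n => σ (∑ i ∈ cl b, (q i).eval (x i n))) ∨
        BigC σ 𝒰 d (f i) (x i) fun n => σ (∑ i ∈ cl b, (q i).eval (x i n))) := by
    intro b
    by_cases hb : b ∈ s
    swap
    · exact ⟨b, fun h => absurd h hb⟩
    have := cls σ (I := cl b) (f := fun i => f i) (x := fun i => x i) (fun i => hO i)
      (e := (f b).natDegree) (d := d) (fun i => dg b hb i i.2) (hmax b hb)
      (fun i j => dp b hb i i.2 j j.2) (fun i => q i) 𝒰 hU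
    simp only [es] at this
    rcases this with h | ⟨i, h⟩
    · exact ⟨b, fun _ => ⟨(h1 b hb).1, Or.inl h⟩⟩
    · exact ⟨i, fun _ => ⟨i.2, Or.inr h⟩⟩
  choose g hg using hg
  have nd : ∀ b ∈ s, ∀ b' ∈ s, b ≠ b' → ¬ Dep (x (g b)) (x (g b')) := fun b hb b' hb' hne hd => by
    have e1 := (h1 b hb).2.1 _ (hg b hb).1
    have e2 := (h1 b' hb').2.1 _ (hg b' hb').1
    exact h2 b hb b' hb' hne (dA.trans (mA _) (mA _) (mA _) e2.1
      (dA.trans (mA _) (mA _) (mA _) e1.1 hd e1.2.symm) e2.2.symm)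
  refine hσ (all_sml hK σ s (f := fun b => f (g b))
    (x := fun b => x (g b)) (fun b _ => hO _) nd hU d2 (fun t ht hd hc => ?_)
    (fun b n => σ (∑ i ∈ cl b, (q i).eval (x i n)))
    (SmH.sml (fun ρ hρ => hU (L1 d d2 ρ hρ)) σ) ?_ (fun b hb => (hg b hb).2) b0 hb0)
  · by_contra! hN
    have := hw d (t.image g) ∅ (Finset.forall_mem_image.2 fun b hb =>
      ⟨((h1 b (ht hb)).2.1 _ (hg b (ht hb)).1).1, hd b hb, hN b hb⟩) (by simp)
    rw [Finset.card_image_of_injOn (f := g) fun b hb b' hb' e => by_contra fun hne =>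
      nd b (ht hb) b' (ht hb') hne (by rw [e]; exact dep_refl _)] at this
    omega
  · refine IsBigO.congr' (isBigO_const_const (-σ c) one_ne_zero _) ?_ EventuallyEq.rfl
    filter_upwards [hU h3, hz] with n a b
    rw [← map_sum, ← map_neg, ← map_add]
    congr 1
    linear_combination a - b

theorem topH (hK : Cj K) {J : Type} [Fintype J] {f : J → K[X]} {x : J → ℕ → K} (o : J → Prop)
    (hO : ∀ i, o i → Orb (f i) (x i))
    (hA : ∀ i, ¬ o i → ∃ a b, ∀ n, x i (n + 1) = a * x i n + b)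
    (hw : ∀ (d : ℕ) (t t' : Finset J),
      (∀ i ∈ t, o i ∧ ¬ Alg0 (x i) ∧ (f i).natDegree = d ∧ ¬ NSa (f i)) →
      (∀ i ∈ t', o i ∧ ¬ Alg0 (x i) ∧ (f i).natDegree = d ∧ ∀ σ : K →+* ℂ, Bdd σ (x i)) →
      t.card + 2 * t'.card ≤ 3)
    (𝓠 : Set (J → K[X])) : ∃ l, 0 < l ∧ ∃ n0, ∀ n ≥ n0,
      ((∀ q ∈ 𝓠, ∑ i, (q i).eval (x i n) = 0) ↔ ∀ q ∈ 𝓠, ∑ i, (q i).eval (x i (n + l)) = 0) := by
  classical
  choose a b hab using fun i : {i // ¬ o i} => hA i i.2
  obtain ⟨l0, h0, hS⟩ := Pool.Agent.DS.sml_affine a b (fun i => x i) hab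
  obtain ⟨l1, h1, hD⟩ := oc (fun i : {i // o i} => f i) (fun i => x i) fun i => (hO i i.2).step
  have hl : 0 < l1 * l0 := mul_pos h1 h0
  obtain ⟨n0, h⟩ := per_of_core x
    ((fun q : J → K[X] => ∑ i, aeval (MvPolynomial.X i : MvPolynomial J K) (q i)) '' 𝓠) hl (by
    rintro c _ ⟨q, -, rfl⟩
    have sp : ∀ n, ∑ i, (q i).eval (x i n) =
        ∑ i : {i // ¬ o i}, (q i).eval (x i n) + ∑ i : {i // o i}, (q i).eval (x i n) := fun n => by
      rw [add_comm, Fintype.sum_subtype_add_sum_subtype o fun i => (q i).eval (x i n)]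
    simp only [Van, ev_sep, sp]
    refine coreH hK (f := fun i : {i // o i} => iter (f i) (l1 * l0))
      (x := fun i t => x i (c + l1 * l0 * t)) (fun i => (hO i i.2).prog c hl)
      (fun d t t' ht ht' => ?_)
      ?_ (fun i => q i) (fun d hd => SmH.sum le_rfl hd _ fun i _ =>
        (smh_aff le_rfl hd (hab i) c _).poly le_rfl hd _) fun e he => ?_
    · rcases (t ∪ t').eq_empty_or_nonempty with e | ⟨i0, h0⟩
      · obtain ⟨rfl, rfl⟩ := Finset.union_eq_empty.1 e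
        simp
      have e0 : (f i0).natDegree ^ (l1 * l0) = d := by
        rw [← iter_natDegree]
        exact (Finset.mem_union.1 h0).elim (fun h => (ht i0 h).2.1) fun h => (ht' i0 h).2.1
      have na : ∀ i : {i // o i}, (¬ Alg0 fun t => x i (c + l1 * l0 * t)) → ¬ Alg0 (x i) :=
        fun i h ⟨g, g0, hg⟩ => h ⟨g, g0, (tend_prog c hl).eventually hg⟩
      have dd : ∀ i : {i // o i}, (iter (f i) (l1 * l0)).natDegree = d →
          (f i).natDegree = (f i0).natDegree := fun i h => by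
        rw [iter_natDegree, ← e0] at h
        exact Nat.pow_left_injective hl.ne' h
      simpa only [Finset.card_map] using hw (f i0).natDegree (t.map (Function.Embedding.subtype _))
        (t'.map (Function.Embedding.subtype _))
        (Finset.forall_mem_map.2 fun i hi => ⟨i.2, na i (ht i hi).1, dd i (ht i hi).2.1,
          fun hN => (ht i hi).2.2 (NSa.iter hN (hO i i.2).deg hl)⟩)
        (Finset.forall_mem_map.2 fun i hi => ⟨i.2, na i (ht' i hi).1, dd i (ht' i hi).2.1,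
          fun σ => by_contra fun hσ => unb_prog (hO i i.2) hσ c hl ((ht' i hi).2.2 σ)⟩)
    · have := Dom.prog (fun i : {i // o i} => ((hO i i.2).prog c h1).step) (hD c) 0 h0
      simpa only [zero_add, mul_assoc] using this
    · have := hS c (∑ i : {i // ¬ o i},
        aeval (MvPolynomial.X i : MvPolynomial {i // ¬ o i} K) (q i) - MvPolynomial.C e)
      simp only [map_sub, ev_sep, MvPolynomial.eval_C, sub_eq_zero] at this
      have ht := tend_prog 0 h1
      have e1 : ∀ t, c + l0 * (0 + l1 * t) = c + l1 * l0 * t := fun t => by ring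
      simpa only [e1] using ht.eventually (this (ht.frequently (by simpa only [e1] using he))))
  exact ⟨_, hl, n0, fun n hn => by simpa only [Set.forall_mem_image, ev_sep] using h n hn⟩

end Pool.Agent.P.MP_68214b_ag.DS
end

-- part Pool.Agent.P.MP_68214b_ag.DH4
section

open Polynomial Filter Asymptotics NumberField Topology

namespace Pool.Agent.P.MP_68214b_ag.DS

theorem mainH {J : Type} [Fintype J] (f : J → ℂ[X]) (α : J → ℂ)
    (hf : ∀ i k, IsAlgebraic ℚ ((f i).coeff k)) (hα : ∀ i, IsAlgebraic ℚ (α i))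
    (hw : ∀ d, 2 ≤ d →
      {i | (f i).natDegree = d ∧ (Set.range fun n => (fun z => (f i).eval z)^[n] (α i)).Infinite ∧
        Special (f i)}.ncard +
      2 * {i | (f i).natDegree = d ∧
        (Set.range fun n => (fun z => (f i).eval z)^[n] (α i)).Infinite ∧
        ∀ s : ℂ →+* ℂ, ∃ M : ℝ, ∀ n, ‖s ((fun z => (f i).eval z)^[n] (α i))‖ ≤ M}.ncard ≤ 3)
    (𝓠 : Set (J → ℂ[X])) : ∃ l, 0 < l ∧ ∃ n0, ∀ n ≥ n0,
      ((∀ q ∈ 𝓠, ∑ i, (q i).eval ((fun z => (f i).eval z)^[n] (α i)) = 0) ↔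
        ∀ q ∈ 𝓠, ∑ i, (q i).eval ((fun z => (f i).eval z)^[n + l] (α i)) = 0) := by
  obtain ⟨K, κ, g, x, hK, hC, -, hκ, hO, hA, hx⟩ := exists_orb f α hf hα ∅ (by simp)
  have : NumberField K := ⟨⟩
  obtain ⟨𝓡, h𝓡⟩ := descend (algebraMap K ℂ)
    ((fun q i => (q i).comp (C (κ i : ℂ)⁻¹ * X)) '' 𝓠 : Set (J → ℂ[X]))
  have inf (i : J) (h : ¬ Alg0 (x i)) :
      (Set.range fun n => (fun z => (f i).eval z)^[n] (α i)).Infinite := fun hfin => by
    refine h (alg0_of_finite (Set.Finite.of_finite_image (f := fun a : K => (a : ℂ))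
      ((hfin.image fun z => (κ i : ℂ) * z).subset ?_) Subtype.val_injective.injOn))
    rintro _ ⟨_, ⟨n, rfl⟩, rfl⟩
    exact ⟨_, ⟨n, rfl⟩, (hx i n).symm⟩
  have bd (i : J) (h : ∀ σ : K →+* ℂ, Bdd σ (x i)) (s : ℂ →+* ℂ) :
      ∃ M : ℝ, ∀ n, ‖s ((fun z => (f i).eval z)^[n] (α i))‖ ≤ M := by
    obtain ⟨B, hB⟩ := h (s.comp (algebraMap K ℂ))
    have h0 : 0 < ‖s (κ i)‖ := norm_pos_iff.2 ((map_ne_zero s).2 (by simpa using hκ i))
    refine ⟨B / ‖s (κ i)‖, fun n => ?_⟩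
    have := hB n
    rw [RingHom.comp_apply, show algebraMap K ℂ (x i n) = x i n from rfl, hx, map_mul,
      norm_mul] at this
    rw [le_div_iff₀ h0, mul_comm]
    exact this
  obtain ⟨l, hl, n0, h⟩ := topH hC (fun i => 2 ≤ (f i).natDegree) (fun i h => (hO i h).1) hA
    (fun d t t' h1 h2 => by
      by_cases hd : 2 ≤ d
      · refine le_trans (add_le_add ?_ (Nat.mul_le_mul_left 2 ?_)) (hw d hd)
        · rw [← Set.ncard_coe_finset]
          refine Set.ncard_le_ncard fun i hi => ?_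
          obtain ⟨a, b, c, e⟩ := h1 i hi
          exact ⟨by rw [← (hO i a).2.1, c], inf i b, by_contra fun h => e ((hO i a).2.2 h)⟩
        · rw [← Set.ncard_coe_finset]
          refine Set.ncard_le_ncard fun i hi => ?_
          obtain ⟨a, b, c, e⟩ := h2 i hi
          exact ⟨by rw [← (hO i a).2.1, c], inf i b, bd i e⟩
      · have e1 : t = ∅ := Finset.eq_empty_of_forall_notMem fun i hi =>
          hd ((h1 i hi).2.2.1 ▸ (hO i (h1 i hi).1).1.deg)
        have e2 : t' = ∅ := Finset.eq_empty_of_forall_notMem fun i hi =>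
          hd ((h2 i hi).2.2.1 ▸ (hO i (h2 i hi).1).1.deg)
        simp [e1, e2]) 𝓡
  have key (n : ℕ) : (∀ q ∈ 𝓠, ∑ i, (q i).eval ((fun z => (f i).eval z)^[n] (α i)) = 0) ↔
      ∀ q ∈ 𝓡, ∑ i, (q i).eval (x i n) = 0 := by
    rw [← h𝓡 fun i => x i n, Set.forall_mem_image]
    refine forall₂_congr fun q _ => ?_
    have e (i : J) : ((q i).comp (C (κ i : ℂ)⁻¹ * X)).eval (algebraMap K ℂ (x i n)) =
        (q i).eval ((fun z => (f i).eval z)^[n] (α i)) := by
      rw [eval_comp, eval_mul, eval_C, eval_X, show algebraMap K ℂ (x i n) = x i n from rfl, hx,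
        inv_mul_cancel_left₀ (by simpa using hκ i)]
    simp only [e]
  exact ⟨l, hl, n0, fun n hn => by rw [key, key]; exact h n hn⟩

end Pool.Agent.P.MP_68214b_ag.DS
end
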